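import Pool.Agent.MP_5cfeaf_gt.Defs

attribute [-instance] ProperSMul.toContinuousSMul instCompleteSpaceSubtypeMemSubmoduleOfIsClosedCoe
  AlgHom.instNonUnitalAlgHomClassOfAlgHomClass TotallySeparatedSpace.t2Space
  IsScalarTower.complexToReal NonUnitalAlgHomClass.instLinearMapClass instCoeHTCTOfCoeTailOfCoeHTC
  CoalgHomClass.toSemilinearMapClass instCharZeroOfIsSemireal RKHS.instFunLike littleWedderburn
  SemilinearIsometryClass.toSemilinearMapClass AddQuantale.instAddLeftMono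
  AlgHom.instContinuousLinearMapClassOfAlgHomClass RingConeClass.toSubsemiringClass
  PositiveLinearMap.instContinuousLinearMapClassComplexOfLinearMapClassOfOrderHomClass
  NonUnitalNonAssocSemiring.toAddCommMonoid RingHomClass.toLinearMapClassNNRat
  instCoeHTCOfCoeHeadOfCoeOTC RingHomClass.toLinearMapClassRat
  NonUnitalAlgHomClass.instSemilinearMapClassOfNonUnitalAlgSemiHomClassToMonoidHomRingHom
  NumberField.to_charZero NonarchimedeanAddGroup.toIsTopologicalAddGroup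
  ContinuousMonoidHom.instCoeOutOfMonoidHomClassOfContinuousMapClass Valued.toUniformSpace
  instCoeTCOfCoe IdemSemiring.toCanonicallyOrderedAdd instCoeOutOfCoeFun
  SetLike.GradeZero.instSemiring IdemSemiring.toSemiring
  NonUnitalAlgSemiHomClass.toDistribMulActionSemiHomClass IsTopologicalTorsor.toContinuousSMul
  SetLike.GradeZero.instCommSemiring SemilinearIsometryClass.toContinuousSemilinearMapClass
  ContMDiffMul.toIsManifold AlgHomClass.linearMapClass
  Group.IsPerfect.subsingleton_of_isMulCommutative AddQuantale.instAddRightMono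
  RCLike.charZero_rclike NonUnitalNonAssocSemiring.toDistrib covariant_swap_mul_of_covariant_mul
  NonUnitalNonAssocSemiring.toMulZeroClass IsTopologicalSemiring.toContinuousAdd
  MulSemiringActionSemiHomClass.toDistribMulActionSemiHomClass CStarAlgebra.toNormedRing
  instNonUnitalAlgHomClassOfNonUnitalAlgEquivClass LinearOrderedCommMonoidWithZero.toPosMulStrictMono
  IsometryClass.instCoeOutIsometryEquiv AlexandrovDiscrete.toLocallyCompactSpace
  SemilinearEquivClass.instSemilinearMapClass continuousSub_of_discreteTopology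
  LieAdmissibleRing.toNonUnitalNonAssocRing
  ContinuousAddMonoidHom.instCoeOutOfAddMonoidHomClassOfContinuousMapClass
  IdemCommSemiring.toCommSemiring instCoeTOfCoeDep Topology.IsScott.instClosedIicTopologyOfUnivSet
  Quantale.instMulRightMono ContinuousSemilinearEquivClass.continuousSemilinearMapClass
  LinearOrderedAddCommMonoidWithTop.toAddCommMonoid GeneralizedCoheytingAlgebra.toLattice
  AddCommMonoidWithOne.toAddCommMonoid CStarAlgebra.instOrderClosedTopology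
  HomeomorphClass.instCoeOutHomeomorph CompactSpace.sigmaCompact SeminormedCommRing.toCommRing
  AddCommGroupWithOne.toAddGroupWithOne EuclideanDomain.toCommRing LieRinehartAlgebra.toIsScalarTower
  NeZero.of_gt' Unique.instSubsingleton BooleanRing.toRing

section

/-! Block H, basic part: calculus on the smooth part of the support. -/

set_option autoImplicit false

open MeasureTheory Set Filter Topology Metric
open scoped ENNReal symmDiff Classical InnerProductSpace ContDiff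

namespace Pool.Agent.MP_5cfeaf_gt.W

variable {d : ℕ}

theorem H_ext {n : ℕ} {F : Type} [NormedAddCommGroup F] [NormedSpace ℝ F] {g : E n → F} {x : E n}
    (h : ∀ᶠ y in 𝓝 x, ContDiffAt ℝ ∞ g y) : ∃ g', ContDiff ℝ ∞ g' ∧ g' =ᶠ[𝓝 x] g := by
  obtain ⟨ε, hε, hb⟩ := Metric.eventually_nhds_iff_ball.1 h
  let b : ContDiffBump x := ⟨ε / 3, ε / 2, by positivity, by linarith⟩
  refine ⟨fun y => b y • g y, contDiff_iff_contDiffAt.2 fun y => ?_, ?_⟩
  · by_cases hy : y ∈ ball x ε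
    · exact b.contDiff.contDiffAt.smul (hb y hy)
    · have h1 : y ∉ tsupport b := by
        rw [b.tsupport_eq]
        exact fun h' => hy (closedBall_subset_ball (half_lt_self hε) h')
      refine (contDiffAt_const (c := (0 : F))).congr_of_eventuallyEq ?_
      filter_upwards [notMem_tsupport_iff_eventuallyEq.1 h1] with z hz
      simp [hz]
  · filter_upwards [b.eventuallyEq_one] with y hy
    simp [hy]

theorem H_bump {n : ℕ} {U : Set (E n)} {x : E n} (h : U ∈ 𝓝 x) :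
    ∃ ζ : E n → ℝ, ContDiff ℝ ∞ ζ ∧ HasCompactSupport ζ ∧ tsupport ζ ⊆ U ∧ (∀ y, 0 ≤ ζ y) ∧
      ∀ᶠ y in 𝓝 x, ζ y = 1 := by
  obtain ⟨ε, hε, hb⟩ := Metric.mem_nhds_iff.1 h
  let b : ContDiffBump x := ⟨ε / 3, ε / 2, by positivity, by linarith⟩
  refine ⟨b, b.contDiff, b.hasCompactSupport, ?_, fun _ => b.nonneg, b.eventuallyEq_one⟩
  rw [b.tsupport_eq]
  exact (closedBall_subset_ball (half_lt_self hε)).trans hb

theorem H_sum {n : ℕ} (A : E n →L[ℝ] ℝ) (v : E n) :
    A v = ∑ j, v j * A (EuclideanSpace.single j 1) := by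
  conv_lhs => rw [← (EuclideanSpace.basisFun (Fin n) ℝ).sum_repr v]
  simp only [EuclideanSpace.basisFun_repr, EuclideanSpace.basisFun_apply, map_sum, map_smul, smul_eq_mul]

theorem H_fd {n : ℕ} (g : E n → ℝ) (x v : E n) : fderiv ℝ g x v = ∑ j, v j * pd j g x := H_sum _ _

theorem H_inner {n : ℕ} (v w : E n) : ⟪v, w⟫_ℝ = ∑ j, v j * w j := by
  simp only [PiLp.inner_apply, RCLike.inner_apply, Real.ringHom_apply, mul_comm]

theorem H_pd {n : ℕ} {g : E n → ℝ} (hg : ContDiff ℝ ∞ g) (i : Fin n) : ContDiff ℝ ∞ (pd i g) :=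
  (hg.fderiv_right (m := ∞) (by simp)).clm_apply contDiff_const

theorem H_pd1 {n : ℕ} {g : E n → ℝ} (hg : ContDiff ℝ 1 g) (i : Fin n) : Continuous (pd i g) :=
  (hg.continuous_fderiv one_ne_zero).clm_apply continuous_const

theorem H_diff {n : ℕ} {F : Type} [NormedAddCommGroup F] [NormedSpace ℝ F] {g : E n → F}
    (hg : ContDiff ℝ ∞ g) (x : E n) : DifferentiableAt ℝ g x := hg.differentiable (by simp) x

theorem H_one {n : ℕ} {F : Type} [NormedAddCommGroup F] [NormedSpace ℝ F] {g : E n → F}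
    (hg : ContDiff ℝ ∞ g) : ContDiff ℝ 1 g := hg.of_le (by exact_mod_cast le_top)

theorem H_pd_mul {n : ℕ} {g h : E n → ℝ} {x : E n} (hg : DifferentiableAt ℝ g x)
    (hh : DifferentiableAt ℝ h x) (i : Fin n) :
    pd i (fun y => g y * h y) x = pd i g x * h x + g x * pd i h x := by
  simp only [pd, fderiv_fun_mul hg hh, add_apply, smul_apply, smul_eq_mul]
  ring

theorem H_pd_comm {n : ℕ} {g : E n → ℝ} (hg : ContDiff ℝ ∞ g) (i j : Fin n) (x : E n) :
    pd i (pd j g) x = pd j (pd i g) x := by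
  have h1 := H_diff (hg.fderiv_right (m := ∞) (by simp)) x
  have h2 : ∀ i j : Fin n, pd i (pd j g) x = fderiv ℝ (fderiv ℝ g) x (EuclideanSpace.single i 1)
      (EuclideanSpace.single j 1) := fun i j => by
    change fderiv ℝ (fun y => fderiv ℝ g y _) x _ = _
    rw [fderiv_clm_apply h1 (differentiableAt_const _)]
    simp
  rw [h2, h2]
  exact second_derivative_symmetric (fun y => (H_diff hg y).hasFDerivAt) h1.hasFDerivAt _ _

theorem DefFn.pos {M : Set (R d)} {x : R d} {f : R d → ℝ} (h : DefFn M x f) :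
    0 < ∑ k, pd k f x ^ 2 := by
  refine (Finset.sum_nonneg fun _ _ => sq_nonneg _).lt_of_ne' fun h0 => h.2.1 ?_
  ext v
  rw [H_fd, Finset.sum_eq_zero fun k _ => by
    rw [pow_eq_zero_iff two_ne_zero |>.1 ((Finset.sum_eq_zero_iff_of_nonneg
      fun _ _ => sq_nonneg _).1 h0 k (Finset.mem_univ _)), mul_zero]]
  rfl

theorem DefFn.near {M : Set (R d)} {x : R d} {f : R d → ℝ} (h : DefFn M x f) :
    ∀ᶠ y in 𝓝 x, DefFn M y f := by
  filter_upwards [(h.1.continuous_fderiv (by simp)).continuousAt.eventually_ne h.2.1,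
    h.2.2.eventually_nhds] with y h1 h2 using ⟨h.1, h1, h2⟩

theorem DefFn.zero {M : Set (R d)} {x : R d} {f : R d → ℝ} (h : DefFn M x f) (hx : x ∈ M) :
    f x = 0 := h.2.2.self_of_nhds.1 hx

theorem DefFn.unit {M : Set (R d)} {x : R d} {f : R d → ℝ} (h : DefFn M x f) :
    ∃ e, fderiv ℝ f x e = 1 := by
  obtain ⟨v, hv⟩ : ∃ v, fderiv ℝ f x v ≠ 0 := by
    by_contra! h0
    exact h.2.1 (ContinuousLinearMap.ext h0)
  exact ⟨(fderiv ℝ f x v)⁻¹ • v, by simp [hv]⟩

/-- functions vanishing on `M` have vanishing tangential derivatives -/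
theorem DefFn.tangent {M : Set (R d)} {x : R d} {f g : R d → ℝ} (h : DefFn M x f) (hx : x ∈ M)
    (hg : DifferentiableAt ℝ g x) (h0 : ∀ᶠ y in 𝓝 x, y ∈ M → g y = 0) {v : R d}
    (hv : fderiv ℝ f x v = 0) : fderiv ℝ g x v = 0 := by
  have hf := h.1.hasStrictFDerivAt (x := x) (by simp)
  obtain ⟨e, he⟩ := h.unit
  have hr : (fderiv ℝ f x).range = ⊤ := LinearMap.range_eq_top.2 fun t => ⟨t • e, by simp [he]⟩
  have h1 := (hf.to_implicitFunction hr).hasFDerivAt
  have h2 := hf.implicitFunction_apply_image hr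
  have h3 : Tendsto (hf.implicitFunction f _ hr (f x)) (𝓝 0) (𝓝 x) := by
    simpa only [ContinuousAt, h2] using h1.continuousAt
  have h4 := ((continuous_const.prodMk continuous_id).tendsto' (0 : (fderiv ℝ f x).ker) (f x, 0)
    rfl).eventually (hf.map_implicitFunction_eq hr)
  have h5 : (fun w => g (hf.implicitFunction f _ hr (f x) w)) =ᶠ[𝓝 0] fun _ => 0 := by
    filter_upwards [h3.eventually h0, h3.eventually h.2.2, h4] with w a b c
    exact a (b.2 (c.trans (h.zero hx)))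
  have h6 : HasFDerivAt g (fderiv ℝ g x) (hf.implicitFunction f _ hr (f x) 0) := by
    rw [h2]; exact hg.hasFDerivAt
  have h7 := ((h6.comp 0 h1).congr_of_eventuallyEq h5.symm).unique (hasFDerivAt_const _ _)
  exact congrArg (fun A => A (⟨v, hv⟩ : (fderiv ℝ f x).ker)) h7

theorem DefFn.mult {M : Set (R d)} {x : R d} {f g : R d → ℝ} (h : DefFn M x f) (hx : x ∈ M)
    (hg : DifferentiableAt ℝ g x) (h0 : ∀ᶠ y in 𝓝 x, y ∈ M → g y = 0) :
    ∃ c : ℝ, ∀ v, fderiv ℝ g x v = c * fderiv ℝ f x v := by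
  obtain ⟨e, he⟩ := h.unit
  refine ⟨fderiv ℝ g x e, fun v => ?_⟩
  have := h.tangent hx hg h0 (v := v - fderiv ℝ f x v • e) (by simp [he])
  rw [map_sub, map_smul, smul_eq_mul] at this
  linarith

theorem DefFn.proj {M : Set (R d)} {x : R d} {f g : R d → ℝ} (h : DefFn M x f) (h' : DefFn M x g)
    (hx : x ∈ M) {A : Fin (d + 1) → Fin (d + 1) → ℝ}
    (hA : ∀ i j, A i j * ∑ k, pd k f x ^ 2 = pd i f x * pd j f x) (i j : Fin (d + 1)) :
    A i j * ∑ k, pd k g x ^ 2 = pd i g x * pd j g x := by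
  obtain ⟨c, hc⟩ := h.mult hx (H_diff h'.1 x) (h'.2.2.mono fun _ a => a.1)
  have h1 : ∀ k, pd k g x = c * pd k f x := fun k => hc _
  simp only [h1, mul_pow, ← Finset.mul_sum]
  linear_combination c ^ 2 * hA i j

theorem Adapted.proj {M U : Set (R d)} {P} (h : Adapted M U P) {x : R d} (hx : x ∈ M ∩ U)
    {f : R d → ℝ} (hf : DefFn M x f) (i j : Fin (d + 1)) :
    P x i j * ∑ k, pd k f x ^ 2 = pd i f x * pd j f x :=
  let ⟨_, h1, h2⟩ := h.2 x hx
  h1.proj hf hx.1 h2 i j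

theorem Adapted.mono {M U U' : Set (R d)} {P} (h : Adapted M U P) (hU : U' ⊆ U) : Adapted M U' P :=
  ⟨h.1, fun x hx => h.2 x ⟨hx.1, hU hx.2⟩⟩

theorem exists_adapted {M O K : Set (R d)} (hM : IsClosed M) (hO : IsOpen O) (hK : IsCompact K)
    (hKO : K ⊆ O) (h : ∀ x ∈ M ∩ O, WReg M x) :
    ∃ U P, IsOpen U ∧ K ⊆ U ∧ U ⊆ O ∧ Adapted M U P := by
  obtain ⟨L, hL, hKL, hLO⟩ := exists_compact_between hK hO hKO
  obtain ⟨P, hP⟩ := exists_contMDiffMap_forall_mem_convex_of_local (n := ⊤)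
    (modelWithCornersSelf ℝ (R d)) (M := R d) (F := Fin (d + 1) → Fin (d + 1) → ℝ)
    (t := fun y => {A | y ∈ M ∩ L → ∀ f, DefFn M y f →
      ∀ i j, A i j * ∑ k, pd k f y ^ 2 = pd i f y * pd j f y})
    (fun y A hA A' hA' a b _ _ hab hy f hf i j => by
      simp only [Pi.add_apply, Pi.smul_apply, smul_eq_mul]
      linear_combination a * hA hy f hf i j + b * hA' hy f hf i j + (pd i f y * pd j f y) * hab)
    fun x => by
      by_cases hx : x ∈ M ∩ L
      · obtain ⟨f, hf⟩ := h x ⟨hx.1, hLO hx.2⟩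
        refine ⟨_, hf.near, fun y i j => pd i f y * pd j f y / ∑ k, pd k f y ^ 2, ?_,
          fun y hy hy' g hg => DefFn.proj hy hg hy'.1 fun i j => div_mul_cancel₀ _ hy.pos.ne'⟩
        refine contMDiffOn_iff_contDiffOn.2 (contDiffOn_pi.2 fun i => contDiffOn_pi.2 fun j => ?_)
        exact ((H_pd hf.1 i).mul (H_pd hf.1 j)).contDiffOn.div
          (ContDiff.sum fun k _ => (H_pd hf.1 k).pow 2).contDiffOn fun y hy => (DefFn.pos hy).ne'
      · exact ⟨_, (hM.inter hL.isClosed).isOpen_compl.mem_nhds hx, fun _ => 0, contMDiffOn_const,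
          fun y hy hy' => absurd hy' hy⟩
  refine ⟨interior L, P, isOpen_interior, hKL, interior_subset.trans hLO, fun i j =>
    contDiff_pi.1 (contDiff_pi.1 P.contMDiff.contDiff i) j, fun x hx => ?_⟩
  obtain ⟨f, hf⟩ := h x ⟨hx.1, hLO (interior_subset hx.2)⟩
  exact ⟨f, hf, hP x ⟨hx.1, interior_subset hx.2⟩ f hf⟩

/-- `M` is a graph over the hyperplane orthogonal to a transversal direction -/
theorem DefFn.chart {M : Set (R d)} {x : R d} {f : R d → ℝ} (h : DefFn M x f) (hx : x ∈ M)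
    {e : R d} (he : ‖e‖ = 1) (hn : fderiv ℝ f x e ≠ 0) : ∃ τ : R d → ℝ, ContDiff ℝ ∞ τ ∧
      ∀ᶠ y in 𝓝 x, (y ∈ M ↔ ⟪e, y⟫_ℝ = τ (y - ⟪e, y⟫_ℝ • e)) := by
  have ee : ⟪e, e⟫_ℝ = 1 := by rw [real_inner_self_eq_norm_sq, he]; norm_num
  obtain ⟨Φ, hΦ⟩ : ∃ Φ : R d → R d, Φ = fun y => y + (f y - ⟪e, y⟫_ℝ) • e := ⟨_, rfl⟩
  have h1 : ContDiff ℝ ∞ Φ := hΦ ▸ contDiff_id.add
    ((h.1.sub (contDiff_const.inner ℝ contDiff_id)).smul contDiff_const)
  have h2 : HasFDerivAt Φ (ContinuousLinearMap.id ℝ _ +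
      (fderiv ℝ f x - innerSL ℝ e).smulRight e) x := hΦ ▸ (hasFDerivAt_id x).add
        (((H_diff h.1 x).hasFDerivAt.sub (innerSL ℝ e).hasFDerivAt).smul_const e)
  have h3 : Function.Injective (fderiv ℝ Φ x) := by
    rw [h2.fderiv, injective_iff_map_eq_zero]
    intro v hv
    have h3 : v + (fderiv ℝ f x v - ⟪e, v⟫_ℝ) • e = 0 := hv
    have h4 := congrArg (fun w => ⟪e, w⟫_ℝ) h3
    simp only [inner_add_right, inner_smul_right, ee, inner_zero_right] at h4
    have h5 : fderiv ℝ f x v = 0 := by linarith only [h4]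
    have h6 := congrArg (fderiv ℝ f x) h3
    simp only [map_add, map_smul, h5, smul_eq_mul, map_zero, zero_add, mul_eq_zero, hn,
      or_false] at h6
    rwa [h5, h6, zero_smul, add_zero] at h3
  let A := ContinuousLinearEquiv.ofBijective (fderiv ℝ Φ x) (LinearMap.ker_eq_bot.2 h3)
    (LinearMap.range_eq_top.2 (LinearMap.injective_iff_surjective.1 h3))
  have h4 : HasFDerivAt Φ (A : R d →L[ℝ] R d) x := (H_diff h1 x).hasFDerivAt
  let ψ := h1.contDiffAt.toOpenPartialHomeomorph Φ h4 (by simp)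
  have hs : x ∈ ψ.source := h1.contDiffAt.mem_toOpenPartialHomeomorph_source h4 _
  have ht := ψ.open_target.mem_nhds (ψ.map_source hs)
  obtain ⟨τ, h5, h6⟩ := H_ext (g := fun w => ⟪e, ψ.symm w⟫_ℝ) (x := ψ x) (by
    filter_upwards [ht, (ψ.tendsto_symm hs).eventually
      (((h1.continuous_fderiv (by simp)).tendsto x).eventually A.nhds)] with w a ⟨A', b⟩
    exact contDiffAt_const.inner ℝ (ψ.contDiffAt_symm (f₀' := A') a
      (b ▸ (H_diff h1 _).hasFDerivAt) h1.contDiffAt))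
  have h7 : Tendsto (fun y => y - ⟪e, y⟫_ℝ • e) (𝓝 x) (𝓝 (ψ x)) :=
    Continuous.tendsto' (by fun_prop) _ _ (by
      change _ = Φ x
      simp [hΦ, h.zero hx, sub_eq_add_neg])
  refine ⟨τ, h5, ?_⟩
  filter_upwards [h.2.2, ψ.open_source.mem_nhds hs, h7.eventually ht, h7.eventually h6]
    with y a b c c'
  rw [a, c']
  constructor
  · intro h8
    have h9 : ψ y = y - ⟪e, y⟫_ℝ • e := by
      change Φ y = _
      simp [hΦ, h8, sub_eq_add_neg]
    rw [← h9, ψ.left_inv b]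
  · intro h8
    have h9 : Φ _ = _ := ψ.right_inv c
    rw [hΦ] at h9
    have h10 := congrArg (fun w => ⟪e, w⟫_ℝ) h9
    simp only [inner_add_right, inner_sub_right, inner_smul_right, ee] at h10
    have h11 : f (ψ.symm (y - ⟪e, y⟫_ℝ • e)) = 0 := by linarith only [h10]
    simp only [h11, ← h8, zero_sub, neg_smul, ← sub_eq_add_neg, sub_left_inj] at h9
    rwa [h9] at h11

/-- germ of a graph -/
theorem DefFn.graph {M : Set (R d)} {x : R d} {f : R d → ℝ} (h : DefFn M x f) (hx : x ∈ M)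
    (hn : pd (Fin.last d) f x ≠ 0) : ∃ u : E d → ℝ, ContDiff ℝ ∞ u ∧
      (∀ᶠ y in 𝓝 x, (y ∈ M ↔ ht y = u (pr y))) := by
  obtain ⟨τ, h1, h2⟩ := h.chart hx (e := EuclideanSpace.single (Fin.last d) 1) (by simp) hn
  obtain ⟨L, hL⟩ := exists_mkL d
  refine ⟨fun y => τ (L (y, 0)), h1.comp (L.contDiff.comp (contDiff_id.prodMk contDiff_const)),
    h2.mono fun y hy => ?_⟩
  have h3 : y - y (Fin.last d) • EuclideanSpace.single (Fin.last d) (1 : ℝ) = mk (pr y) 0 := by
    ext i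
    refine Fin.lastCases ?_ (fun i => ?_) i <;> simp [mk, pr, Fin.castSucc_ne_last]
  simpa only [hL, EuclideanSpace.inner_single_left, map_one, one_mul, h3, ht] using hy

theorem wreg_of_graph {M : Set (R d)} {x : R d} {u : E d → ℝ} {D : Set (E d)} (hD : D ∈ 𝓝 (pr x))
    (hu : ContDiffOn ℝ ∞ u D) (h : ∀ᶠ y in 𝓝 x, (y ∈ M ↔ ht y = u (pr y))) : WReg M x := by
  obtain ⟨u', h1, h2⟩ := H_ext (g := u) (x := pr x)
    ((eventually_mem_nhds_iff.2 hD).mono fun y hy => hu.contDiffAt hy)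
  obtain ⟨A, hA⟩ := exists_prL d
  obtain ⟨T, hT⟩ := exists_htL d
  refine ⟨fun y => T y - u' (A y), T.contDiff.sub (h1.comp A.contDiff), fun h0 => ?_, ?_⟩
  · have h3 := (T.hasFDerivAt.sub ((H_diff h1 (A x)).hasFDerivAt.comp x A.hasFDerivAt)).fderiv
    have h4 := congrArg (fun F => F (mk 0 1)) (h3.symm.trans h0)
    simp [hA, hT] at h4
  · filter_upwards [h, (A.continuous.tendsto' x _ (hA x)).eventually h2] with y a b
    rw [a, b, hT, hA, sub_eq_zero]

/-! calculus of the tangential derivative -/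

section dl
variable {P : R d → Fin (d + 1) → Fin (d + 1) → ℝ} {g h : R d → ℝ} {x : R d}

theorem dl_eq (P : R d → Fin (d + 1) → Fin (d + 1) → ℝ) (i : Fin (d + 1)) (g : R d → ℝ) (x : R d) :
    dl P i g x = fderiv ℝ g x (EuclideanSpace.single i 1 - WithLp.toLp 2 (P x i)) := by
  rw [map_sub, H_fd g x (WithLp.toLp 2 (P x i))]
  rfl

theorem dl_evEq (he : g =ᶠ[𝓝 x] h) (i : Fin (d + 1)) : dl P i g x = dl P i h x := by
  rw [dl_eq, dl_eq, he.fderiv_eq]

theorem dl_const (c : ℝ) (i : Fin (d + 1)) : dl P i (fun _ => c) x = 0 := by simp [dl_eq]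

theorem dl_add (hg : DifferentiableAt ℝ g x) (hh : DifferentiableAt ℝ h x) (i : Fin (d + 1)) :
    dl P i (fun y => g y + h y) x = dl P i g x + dl P i h x := by
  simp only [dl_eq, fderiv_fun_add hg hh, add_apply]

theorem dl_sub (hg : DifferentiableAt ℝ g x) (hh : DifferentiableAt ℝ h x) (i : Fin (d + 1)) :
    dl P i (fun y => g y - h y) x = dl P i g x - dl P i h x := by
  simp only [dl_eq, fderiv_fun_sub hg hh, sub_apply]

theorem dl_mul (hg : DifferentiableAt ℝ g x) (hh : DifferentiableAt ℝ h x) (i : Fin (d + 1)) :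
    dl P i (fun y => g y * h y) x = dl P i g x * h x + g x * dl P i h x := by
  simp only [dl_eq, fderiv_fun_mul hg hh, add_apply, smul_apply, smul_eq_mul]
  ring

theorem dl_cmul (c : ℝ) (hg : DifferentiableAt ℝ g x) (i : Fin (d + 1)) :
    dl P i (fun y => c * g y) x = c * dl P i g x := by
  rw [dl_mul (differentiableAt_const c) hg, dl_const, zero_mul, zero_add]

theorem dl_sum {ι : Type} (s : Finset ι) {G : ι → R d → ℝ} (hG : ∀ k ∈ s, DifferentiableAt ℝ (G k) x)
    (i : Fin (d + 1)) : dl P i (fun y => ∑ k ∈ s, G k y) x = ∑ k ∈ s, dl P i (G k) x := by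
  simp only [dl_eq, fderiv_fun_sum hG, sum_apply]

theorem dl_comp {φ : ℝ → ℝ} {φ' : ℝ} (hφ : HasDerivAt φ φ' (g x)) (hg : DifferentiableAt ℝ g x)
    (i : Fin (d + 1)) : dl P i (fun y => φ (g y)) x = φ' * dl P i g x := by
  rw [dl_eq, dl_eq]
  exact congrArg (fun A : R d →L[ℝ] ℝ => A _) (hφ.comp_hasFDerivAt x hg.hasFDerivAt).fderiv

theorem dl_notMem (hx : x ∉ tsupport g) (i : Fin (d + 1)) : dl P i g x = 0 :=
  (dl_evEq (notMem_tsupport_iff_eventuallyEq.1 hx) i).trans (dl_const 0 i)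

theorem dl_smooth (hP : ∀ i j, ContDiff ℝ ∞ fun x => P x i j) (hg : ContDiff ℝ ∞ g)
    (i : Fin (d + 1)) : ContDiff ℝ ∞ (dl P i g) :=
  (H_pd hg i).sub (ContDiff.sum fun j _ => (hP i j).mul (H_pd hg j))

theorem dl_cont (hP : ∀ i j, ContDiff ℝ ∞ fun x => P x i j) (hg : ContDiff ℝ 1 g)
    (i : Fin (d + 1)) : Continuous (dl P i g) :=
  (H_pd1 hg i).sub (continuous_finsetSum _ fun j _ => (hP i j).continuous.mul (H_pd1 hg j))

end dl

theorem Adapted.dl_zero {M U : Set (R d)} {P} (h : Adapted M U P) {x : R d} (hx : x ∈ M ∩ U)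
    {g : R d → ℝ} (hg : DifferentiableAt ℝ g x) (he : ∀ᶠ y in 𝓝 x, y ∈ M → g y = 0)
    (i : Fin (d + 1)) : dl P i g x = 0 := by
  obtain ⟨f, h1, h2⟩ := h.2 x hx
  rw [dl_eq]
  refine h1.tangent hx.1 hg he ?_
  rw [← dl_eq, dl]
  refine mul_right_cancel₀ h1.pos.ne' ?_
  simp only [sub_mul, Finset.sum_mul, mul_right_comm _ (pd _ f x), h2]
  simp only [sq, Finset.mul_sum, mul_assoc, sub_self, zero_mul, Finset.sum_const_zero]

/-- tangency: the tangential derivative only depends on the restriction to `M` -/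
theorem Adapted.dl_congr {M U : Set (R d)} {P} (h : Adapted M U P) {x : R d} (hx : x ∈ M ∩ U)
    {g g' : R d → ℝ} (hg : DifferentiableAt ℝ g x) (hg' : DifferentiableAt ℝ g' x)
    (he : ∀ᶠ y in 𝓝 x, y ∈ M → g y = g' y) (i : Fin (d + 1)) : dl P i g x = dl P i g' x := by
  rw [← sub_eq_zero, ← dl_sub hg hg']
  exact h.dl_zero hx (hg.sub hg') (he.mono fun y a b => sub_eq_zero.2 (a b)) i

theorem H_normsq {n : ℕ} {v : E n} : ‖v‖ = 1 ↔ ∑ j, v j ^ 2 = 1 := by
  rw [← EuclideanSpace.real_norm_sq_eq, sq_eq_sq₀ (norm_nonneg v) zero_le_one |>.symm, one_pow]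

theorem H_symm {ι : Type} [Fintype ι] {N : ℝ} (hN : N ≠ 0) {n N' : ι → ℝ} {b : ι → ι → ℝ}
    (h1 : ∀ k j, N' k * n j + N * b k j = N' j * n k + N * b j k) (h2 : ∀ k, ∑ j, n j * b k j = 0)
    (h3 : ∑ j, n j ^ 2 = 1) (i j : ι) :
    b i j - ∑ k, n i * n k * b k j = b j i - ∑ k, n j * n k * b k i := by
  have h4 : ∀ j, N * ∑ k, n k * b k j = N' j - n j * ∑ k, n k * N' k := fun j => by
    have h4 : ∑ k, n k * (N' k * n j + N * b k j) = ∑ k, n k * (N' j * n k + N * b j k) :=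
      Finset.sum_congr rfl fun k _ => by rw [h1]
    have h5 : ∀ k, n k * (N' k * n j + N * b k j) = n j * (n k * N' k) + N * (n k * b k j) :=
      fun k => by ring
    have h6 : ∀ k, n k * (N' j * n k + N * b j k) = N' j * n k ^ 2 + N * (n k * b j k) :=
      fun k => by ring
    simp only [h5, h6, Finset.sum_add_distrib, ← Finset.mul_sum, h2, h3] at h4
    linarith
  refine mul_left_cancel₀ hN ?_
  simp only [mul_assoc, ← Finset.mul_sum]
  linear_combination h1 i j - n i * h4 j + n j * h4 i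

/-- local smooth unit normal -/
theorem Adapted.exists_normal {M U : Set (R d)} {P} (h : Adapted M U P) (hU : IsOpen U) {x : R d}
    (hx : x ∈ M ∩ U) : ∃ n : R d → R d, ContDiff ℝ ∞ n ∧ ∀ᶠ y in 𝓝 x, ‖n y‖ = 1 ∧ (y ∈ M →
      (∀ i j, P y i j = n y i * n y j) ∧
      ∀ i j, dl P i (fun z => n z j) y = dl P j (fun z => n z i) y) := by
  obtain ⟨f, hf, -⟩ := h.2 x hx
  obtain ⟨N, hN⟩ : ∃ N : R d → ℝ, N = fun y => √(∑ k, pd k f y ^ 2) := ⟨_, rfl⟩
  have h1 : ∀ y, DefFn M y f → ContDiffAt ℝ ∞ N y ∧ 0 < N y ∧ N y ^ 2 = ∑ k, pd k f y ^ 2 :=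
    fun y hy => hN ▸ ⟨(ContDiff.sum fun k _ => (H_pd hf.1 k).pow 2).contDiffAt.sqrt hy.pos.ne',
      Real.sqrt_pos.2 hy.pos, Real.sq_sqrt hy.pos.le⟩
  obtain ⟨n, h2, h3⟩ := H_ext (g := fun y => (WithLp.toLp 2 fun i => pd i f y / N y : R d)) (x := x)
    (hf.near.mono fun y hy => contDiffAt_euclidean.2 fun i =>
      (H_pd hf.1 i).contDiffAt.div (h1 y hy).1 (h1 y hy).2.1.ne')
  have h4 : ∀ᶠ y in 𝓝 x, (∀ j, pd j f y = N y * n y j) ∧ ∑ j, n y j * n y j = 1 := by
    filter_upwards [hf.near, h3] with y a b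
    obtain ⟨-, h4, h5⟩ := h1 y a
    have h6 : ∀ j, pd j f y = N y * n y j := fun j => by rw [b]; field_simp
    refine ⟨h6, mul_left_cancel₀ (pow_pos h4 2).ne' ?_⟩
    simp only [mul_one, Finset.mul_sum]
    rw [show ∑ j, N y ^ 2 * (n y j * n y j) = ∑ j, pd j f y ^ 2 from
      Finset.sum_congr rfl fun j _ => by rw [h6]; ring, h5]
  refine ⟨n, h2, ?_⟩
  filter_upwards [hf.near, h4.eventually_nhds, hU.mem_nhds hx.2] with y a b c
  obtain ⟨h5, h6, h7⟩ := h1 y a
  obtain ⟨h8, h9⟩ := b.self_of_nhds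
  have h10 : ∑ j, n y j ^ 2 = 1 := by simpa only [sq] using h9
  refine ⟨H_normsq.2 h10, fun hy => ?_⟩
  have h11 : ∀ i j, P y i j = n y i * n y j := fun i j => by
    have := h.proj ⟨hy, c⟩ a i j
    rw [← h7, h8, h8] at this
    exact mul_right_cancel₀ (pow_pos h6 2).ne' (by linarith only [this])
  have h12 : ∀ j, DifferentiableAt ℝ (fun z => n z j) y := fun j =>
    H_diff (contDiff_euclidean.1 h2 j) y
  have h13 : ∀ k j, pd k (pd j f) y =
      pd k N y * n y j + N y * pd k (fun z => n z j) y := fun k j => by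
    rw [← H_pd_mul (h5.differentiableAt (by simp)) (h12 j), pd,
      EventuallyEq.fderiv_eq (b.mono fun z hz => hz.1 j)]
    rfl
  refine ⟨h11, fun i j => ?_⟩
  simp only [dl, h11]
  refine H_symm h6.ne' (N' := fun k => pd k N y) (b := fun k j => pd k (fun z => n z j) y)
    (fun k j => by rw [← h13, ← h13, H_pd_comm hf.1]) (fun k => ?_) h10 i j
  have h14 : pd k (fun z => ∑ j, n z j * n z j) y = 0 := by
    rw [pd, EventuallyEq.fderiv_eq (b.mono fun z hz => hz.2)]
    simp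
  rw [pd, fderiv_fun_sum fun j _ => (h12 j).fun_mul (h12 j), sum_apply] at h14
  have h15 : ∀ j, fderiv ℝ (fun z => n z j * n z j) y (EuclideanSpace.single k 1) =
      2 * (n y j * pd k (fun z => n z j) y) := fun j =>
    (H_pd_mul (h12 j) (h12 j) k).trans (by ring)
  simp only [h15, ← Finset.mul_sum] at h14
  linarith only [h14]

/-- pointwise unit normal -/
theorem Adapted.normal {M U : Set (R d)} {P} (h : Adapted M U P) {x : R d} (hx : x ∈ M ∩ U) :
    ∃ n : R d, ‖n‖ = 1 ∧ ∀ i j, P x i j = n i * n j := by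
  obtain ⟨f, h1, h2⟩ := h.2 x hx
  have h3 := Real.sq_sqrt h1.pos.le
  have h4 := Real.sqrt_pos.2 h1.pos
  refine ⟨WithLp.toLp 2 fun i => pd i f x / √(∑ k, pd k f x ^ 2), H_normsq.2 ?_, fun i j => ?_⟩
  · simp only [div_pow, h3, ← Finset.sum_div, div_self h1.pos.ne']
  · simp only [div_mul_div_comm, ← sq, h3, ← h2, mul_div_cancel_right₀ _ h1.pos.ne']

theorem H_n_dl {P : R d → Fin (d + 1) → Fin (d + 1) → ℝ} {x n : R d} (hn : ‖n‖ = 1)
    (hP : ∀ i j, P x i j = n i * n j) (g : R d → ℝ) : ∑ i, n i * dl P i g x = 0 := by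
  simp only [dl, hP, mul_sub, Finset.sum_sub_distrib, mul_assoc, ← Finset.mul_sum]
  simp only [← mul_assoc, ← sq, ← Finset.sum_mul, H_normsq.1 hn, one_mul, sub_self]

theorem Adapted.P_dl {M U : Set (R d)} {P} (h : Adapted M U P) {x : R d} (hx : x ∈ M ∩ U)
    (g : R d → ℝ) (j : Fin (d + 1)) : ∑ i, P x i j * dl P i g x = 0 := by
  obtain ⟨n, h1, hn⟩ := h.normal hx
  simp only [hn, mul_comm _ (n j), mul_assoc, ← Finset.mul_sum, H_n_dl h1 hn, mul_zero]

/-! stationary varifolds with smooth support -/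

theorem H_integrable {α : Type} [TopologicalSpace α] [MeasurableSpace α] [BorelSpace α] [T2Space α]
    {μ : Measure α} {K : Set α} (hK : IsCompact K) (hμ : μ K < ⊤) {g : α → ℝ} (hg : Continuous g)
    (h0 : ∀ p, p ∉ K → g p = 0) : Integrable g μ := by
  obtain ⟨C, hC⟩ := hK.exists_bound_of_continuousOn hg.continuousOn
  exact (integrableOn_iff_integrable_of_support_subset fun p hp => by_contra fun h => hp (h0 p h)).1
    (Measure.integrableOn_of_bounded hμ.ne hg.aestronglyMeasurable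
      ((ae_restrict_mem hK.measurableSet).mono hC))

theorem LocFin.integrable {W : Vf d} {O K : Set (R d)} (h : LocFin W O) (hK : IsCompact K)
    (hKO : K ⊆ O) {g : R d × S d → ℝ} (hg : Continuous g) (h0 : ∀ p, p.1 ∉ K → g p = 0) :
    Integrable g W :=
  H_integrable (hK.prod isCompact_univ) (by
    rw [prod_univ, ← Measure.fst_apply hK.measurableSet]; exact h K hK hKO) hg
    fun p hp => h0 p fun h => hp ⟨h, trivial⟩

theorem LocFin.integrable_fst {W : Vf d} {O K : Set (R d)} (h : LocFin W O) (hK : IsCompact K)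
    (hKO : K ⊆ O) {g : R d → ℝ} (hg : Continuous g) (h0 : ∀ p, p ∉ K → g p = 0) :
    Integrable g W.fst := H_integrable hK (h K hK hKO) hg h0

theorem H_integral_fst (W : Vf d) {g : R d → ℝ} (hg : Continuous g) :
    ∫ x, g x ∂W.fst = ∫ p, g p.1 ∂W :=
  integral_map measurable_fst.aemeasurable hg.aestronglyMeasurable

theorem H_ae_supp (W : Vf d) : ∀ᵐ p ∂W, p.1 ∈ W.fst.support :=
  ae_of_ae_map measurable_fst.aemeasurable (Measure.support_mem_ae (μ := W.fst))

theorem H_ae_local {W : Vf d} {U : Set (R d)} {Q : R d × S d → Prop}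
    (h : ∀ x ∈ W.fst.support ∩ U, ∃ V ∈ 𝓝 x, ∀ᵐ p ∂W, p.1 ∈ V → Q p) : ∀ᵐ p ∂W, p.1 ∈ U → Q p := by
  have h1 : W {p | p.1 ∈ W.fst.support ∩ U ∧ ¬ Q p} = 0 := measure_null_of_locally_null _
    fun p hp => by
      obtain ⟨V, h1, h2⟩ := h p.1 hp.1
      refine ⟨_, inter_mem_nhdsWithin _ (continuous_fst.continuousAt.preimage_mem_nhds h1),
        measure_mono_null (fun q hq => ?_) (ae_iff.1 h2)⟩
      exact fun h3 => hq.1.2 (h3 hq.2)
  filter_upwards [H_ae_supp W, measure_eq_zero_iff_ae_notMem.1 h1] with p a b c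
  exact by_contra fun h => b ⟨⟨a, c⟩, h⟩

/-- a continuous function which vanishes a.e. in an open set vanishes on the support -/
theorem H_zero_of_ae {μ : Measure (R d)} {U : Set (R d)} (hU : IsOpen U) {g : R d → ℝ}
    (hg : Continuous g) (h : ∀ᵐ x ∂μ, x ∈ U → g x = 0) {x : R d} (hx : x ∈ μ.support ∩ U) :
    g x = 0 := by
  by_contra h0
  refine ((Measure.mem_support_iff_forall x).1 hx.1 _ (inter_mem (hU.mem_nhds hx.2)
    (hg.continuousAt.eventually_ne h0))).ne' (measure_mono_null (fun y hy => ?_) (ae_iff.1 h))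
  exact fun h1 => hy.2 (h1 hy.1)

theorem H_zero_of_ae' {W : Vf d} {U : Set (R d)} (hU : IsOpen U) {g : R d → ℝ}
    (hg : Continuous g) (h : ∀ᵐ p ∂W, p.1 ∈ U → g p.1 = 0) {x : R d}
    (hx : x ∈ W.fst.support ∩ U) : g x = 0 :=
  H_zero_of_ae hU hg ((ae_map_iff measurable_fst.aemeasurable
    (hU.measurableSet.imp (hg.measurable (measurableSet_singleton 0)))).2 h) hx

theorem H_zero_of_integral {μ : Measure (R d)} {g : R d → ℝ} (hg : Continuous g)
    (hi : Integrable g μ) (h0 : ∀ x, 0 ≤ g x) (h : ∫ x, g x ∂μ = 0) {x : R d}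
    (hx : x ∈ μ.support) : g x = 0 :=
  H_zero_of_ae isOpen_univ hg (((integral_eq_zero_iff_of_nonneg h0 hi).1 h).mono fun _ a _ => a)
    ⟨hx, trivial⟩

theorem H_divT_smul {g : R d → ℝ} {Y : R d → R d} {p : R d × S d} (hg : DifferentiableAt ℝ g p.1)
    (hY : DifferentiableAt ℝ Y p.1) : divT (fun y => g y • Y y) p = g p.1 * divT Y p +
      (∑ i, pd i g p.1 * Y p.1 i - (∑ j, (p.2 : R d) j * pd j g p.1) *
        ∑ i, (p.2 : R d) i * Y p.1 i) := by
  simp only [divT, dv, fderiv_fun_smul hg hY, add_apply, smul_apply,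
    ContinuousLinearMap.smulRight_apply, PiLp.add_apply, PiLp.smul_apply, smul_eq_mul,
    inner_add_right, inner_smul_right, Finset.sum_add_distrib, ← Finset.mul_sum]
  rw [H_fd g p.1 p.2, H_inner _ (Y p.1)]
  simp only [pd]
  ring

theorem H_divT_zero {X : R d → R d} {p : R d × S d} (h : p.1 ∉ tsupport X) : divT X p = 0 := by
  simp [divT, dv, (notMem_tsupport_iff_eventuallyEq.1 h).fderiv_eq]

theorem C1c.smul {U : Set (R d)} {ζ : R d → ℝ} (hζ : C1c ζ U) {F : Type} [NormedAddCommGroup F]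
    [NormedSpace ℝ F] {Y : R d → F} (hY : ContDiff ℝ 1 Y) : C1c (fun y => ζ y • Y y) U :=
  ⟨hζ.1.smul hY, hζ.2.1.smul_right, (tsupport_smul_subset_left _ _).trans hζ.2.2⟩

/-- the normal of a stationary varifold with smooth support -/
theorem Adapted.nu_eq {W : Vf d} {U : Set (R d)} {P} (h : Adapted W.fst.support U P) (hU : IsOpen U)
    (hs : Stat W U) : ∀ᵐ p ∂W, p.1 ∈ U → ∀ i j, P p.1 i j = (p.2 : R d) i * (p.2 : R d) j := by
  refine H_ae_local fun x hx => ?_
  obtain ⟨f, hf, -⟩ := h.2 x hx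
  obtain ⟨ζ, h1, h2, h3, h4, h5⟩ := H_bump (inter_mem hf.near (hU.mem_nhds hx.2))
  have hζ : C1c ζ U := ⟨H_one h1, h2, h3.trans inter_subset_right⟩
  obtain ⟨G, hG⟩ : ∃ G : R d → R d, G = fun y => WithLp.toLp 2 fun i => pd i f y := ⟨_, rfl⟩
  have h6 : ContDiff ℝ ∞ G := hG ▸ contDiff_euclidean.2 fun i => H_pd hf.1 i
  obtain ⟨F, hF⟩ : ∃ F : R d × S d → ℝ, F = fun p => ζ p.1 * ∑ k, (pd k f p.1 -
    (∑ j, (p.2 : R d) j * pd j f p.1) * (p.2 : R d) k) ^ 2 := ⟨_, rfl⟩
  have h7 : ∀ p : R d × S d, ∑ j, (p.2 : R d) j ^ 2 = 1 := fun p => H_normsq.1 (by simp only [norm_eq_of_mem_sphere])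
  have h8 : (fun p => divT (fun y => ζ y • f y • G y) p) =ᵐ[W] F := by
    filter_upwards [H_ae_supp W] with p hp
    by_cases h8 : p.1 ∈ tsupport ζ
    · have h9 : f p.1 = 0 := DefFn.zero (h3 h8).1 hp
      rw [H_divT_smul (H_diff h1 _) ((H_diff hf.1 _).fun_smul (H_diff h6 _)),
        H_divT_smul (H_diff hf.1 _) (H_diff h6 _), hF]
      simp only [h9, hG, zero_smul, PiLp.zero_apply, mul_zero, Finset.sum_const_zero, sub_zero,
        add_zero, zero_mul, zero_add, sub_sq, mul_pow, Finset.sum_add_distrib,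
        Finset.sum_sub_distrib, ← Finset.mul_sum, h7, ← sq]
      have : ∑ k, 2 * pd k f p.1 * ((∑ j, (p.2 : R d) j * pd j f p.1) * (p.2 : R d) k) =
          2 * (∑ j, (p.2 : R d) j * pd j f p.1) * ∑ k, (p.2 : R d) k * pd k f p.1 := by
        rw [Finset.mul_sum _ _ (2 * _)]
        exact Finset.sum_congr rfl fun k _ => by ring
      rw [this]
      ring
    · rw [H_divT_zero fun h => h8 (tsupport_smul_subset_left _ _ h), hF]
      simp only [image_eq_zero_of_notMem_tsupport h8, zero_mul]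
  have h9 := hs.2 _ (hζ.smul (H_one (hf.1.smul h6)))
  have h10 : ∀ k, Continuous (pd k f) := fun k => (H_pd hf.1 k).continuous
  have h11 := h1.continuous
  rw [show (fun y => ζ y • (f • G) y) = fun y => ζ y • f y • G y from rfl, integral_congr_ae h8,
    integral_eq_zero_iff_of_nonneg (fun p => hF ▸ mul_nonneg (h4 _) (by positivity))
    (hs.1.integrable h2 hζ.2.2 (by rw [hF]; fun_prop) fun p hp => by
      simp only [hF, image_eq_zero_of_notMem_tsupport hp, zero_mul])] at h9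
  refine ⟨_, inter_mem h5 (inter_mem hf.near (hU.mem_nhds hx.2)), ?_⟩
  filter_upwards [h9, H_ae_supp W] with p a b c i j
  rw [hF, Pi.zero_apply] at a
  simp only [show ζ p.1 = 1 from c.1, one_mul] at a
  have h12 : ∀ k, pd k f p.1 = (∑ j, (p.2 : R d) j * pd j f p.1) * (p.2 : R d) k := fun k =>
    sub_eq_zero.1 (pow_eq_zero_iff two_ne_zero |>.1 ((Finset.sum_eq_zero_iff_of_nonneg
      fun _ _ => sq_nonneg _).1 a k (Finset.mem_univ _)))
  have h13 := h.proj ⟨b, c.2.2⟩ c.2.1 i j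
  have h14 := DefFn.pos c.2.1
  generalize ∑ j, (p.2 : R d) j * pd j f p.1 = s at h12
  simp only [h12, mul_pow, ← Finset.mul_sum, h7, mul_one] at h13 h14
  exact mul_right_cancel₀ h14.ne' (by linarith only [h13])

/-- integration by parts -/
theorem Adapted.ibp {W : Vf d} {U : Set (R d)} {P} (h : Adapted W.fst.support U P) (hU : IsOpen U)
    (hs : Stat W U) {g : R d → ℝ} (hg : C1c g U) (i : Fin (d + 1)) :
    ∫ x, dl P i g x ∂W.fst = 0 := by
  rw [H_integral_fst W (dl_cont h.1 hg.1 i),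
    ← hs.2 _ (hg.smul (Y := fun _ => EuclideanSpace.single i 1) contDiff_const)]
  refine integral_congr_ae ((h.nu_eq hU hs).mono fun p hp => ?_)
  by_cases h1 : p.1 ∈ tsupport g
  · simp only [H_divT_smul (hg.1.differentiable one_ne_zero _) (differentiableAt_const _), dl,
      hp (hg.2.2 h1)]
    simp only [mul_comm, divT, dv, fderiv_fun_const, Pi.zero_apply, zero_apply, PiLp.zero_apply, Finset.sum_const_zero, inner_zero_right, sub_self, mul_zero, PiLp.single_apply, ite_mul, one_mul, zero_mul, Finset.sum_ite_eq', Finset.mem_univ, ↓ reduceIte, Finset.mul_sum, mul_left_comm, zero_add]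
  · exact (dl_notMem h1 i).trans
      (H_divT_zero fun h => h1 (tsupport_smul_subset_left _ _ h)).symm

/-- minimality -/
theorem Adapted.minimal {W : Vf d} {U : Set (R d)} {P} (h : Adapted W.fst.support U P) (hU : IsOpen U)
    (hs : Stat W U) {x : R d} (hx : x ∈ W.fst.support ∩ U) (j : Fin (d + 1)) :
    ∑ i, dl P i (fun y => P y i j) x = 0 := by
  obtain ⟨ζ, h1, h2, h3, h4, h5⟩ := H_bump (hU.mem_nhds hx.2)
  obtain ⟨H, hH⟩ : ∃ H : R d → ℝ, H = fun x => ∑ i, dl P i (fun y => P y i j) x := ⟨_, rfl⟩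
  have h6 : ContDiff ℝ ∞ H := hH ▸ ContDiff.sum fun i _ => dl_smooth h.1 (h.1 i j) i
  have h7 : ∀ i, C1c (fun y => ζ y * (H y * P y i j)) U := fun i =>
    C1c.smul ⟨H_one h1, h2, h3⟩ (H_one (h6.mul (h.1 i j)))
  have h8 : ∫ y, ζ y * H y ^ 2 ∂W.fst = 0 := by
    rw [← Finset.sum_eq_zero (s := Finset.univ) fun i _ => h.ibp hU hs (h7 i) i,
      ← integral_finsetSum _ fun i _ => hs.1.integrable_fst (h7 i).2.1 (h7 i).2.2
        (dl_cont h.1 (h7 i).1 i) fun y hy => dl_notMem hy i]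
    refine integral_congr_ae (Filter.Eventually.mono (p := fun y => y ∈ W.fst.support)
      Measure.support_mem_ae fun y hy => ?_)
    by_cases h8 : y ∈ tsupport ζ
    · have h9 := h.P_dl ⟨hy, h3 h8⟩ (fun y => ζ y * H y) j
      simp only [← mul_assoc, dl_mul ((H_diff h1 y).fun_mul (H_diff h6 y)) (H_diff (h.1 _ j) y),
        Finset.sum_add_distrib, ← Finset.mul_sum, mul_comm _ (P y _ j), h9]
      rw [hH]
      ring
    · refine Eq.trans ?_ (Finset.sum_eq_zero fun i _ =>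
        dl_notMem (fun h => h8 (tsupport_mul_subset_left h)) i).symm
      simp [image_eq_zero_of_notMem_tsupport h8]
  have h9 := H_zero_of_integral (h1.continuous.mul (h6.continuous.pow 2)) (hs.1.integrable_fst h2 h3
    (h1.continuous.mul (h6.continuous.pow 2)) fun y hy => by
      simp [image_eq_zero_of_notMem_tsupport hy]) (fun y => mul_nonneg (h4 y) (sq_nonneg _)) h8 hx.1
  simpa only [hH, Pi.mul_apply, h5.self_of_nhds, Pi.pow_apply, one_mul, ne_eq, OfNat.ofNat_ne_zero, not_false_eq_true, pow_eq_zero_iff] using h9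

/-- the normal of a cone -/
theorem Adapted.con {W : Vf d} {U O : Set (R d)} {P} {L : Submodule ℝ (R d)}
    (h : Adapted W.fst.support U P) (hU : IsOpen U) (hs : Stat W U) (hc : Con W O L) (hO : U ⊆ O)
    {x : R d} (hx : x ∈ W.fst.support ∩ U) (i : Fin (d + 1)) :
    ∑ j, P x i j * x j = 0 ∧ ∀ e ∈ L, ∑ j, P x i j * e j = 0 := by
  have h1 : ∀ j, Continuous fun x => P x i j := fun j => (h.1 i j).continuous
  have h2 : ∀ (p : R d × S d) (v : R d), ⟪v, (p.2 : R d)⟫_ℝ = 0 →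
      ∑ j, (p.2 : R d) i * (p.2 : R d) j * v j = 0 := fun p v hv => by
    simp only [mul_assoc, ← Finset.mul_sum, ← H_inner, real_inner_comm v, hv, mul_zero]
  refine ⟨H_zero_of_ae' hU (g := fun x => ∑ j, P x i j * x j) (by fun_prop) ?_ hx,
    fun e he => H_zero_of_ae' hU (g := fun x => ∑ j, P x i j * e j) (by fun_prop) ?_ hx⟩
  · filter_upwards [h.nu_eq hU hs, hc] with p a b c
    simp only [a c, h2 p _ (b (hO c)).1]
  · filter_upwards [h.nu_eq hU hs, hc] with p a b c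
    simp only [a c, h2 p _ ((b (hO c)).2 e he)]

theorem gs_smooth {P : R d → Fin (d + 1) → Fin (d + 1) → ℝ} {g : R d → ℝ}
    (hP : ∀ i j, ContDiff ℝ ∞ fun x => P x i j) (hg : ContDiff ℝ ∞ g) : ContDiff ℝ ∞ (gs P g) :=
  ContDiff.sum fun i _ => (dl_smooth hP hg i).pow 2

theorem gs_cont {P : R d → Fin (d + 1) → Fin (d + 1) → ℝ} {g : R d → ℝ}
    (hP : ∀ i j, ContDiff ℝ ∞ fun x => P x i j) (hg : ContDiff ℝ 1 g) : Continuous (gs P g) :=
  continuous_finsetSum _ fun i _ => (dl_cont hP hg i).pow 2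

theorem lap_smooth {P : R d → Fin (d + 1) → Fin (d + 1) → ℝ} {g : R d → ℝ}
    (hP : ∀ i j, ContDiff ℝ ∞ fun x => P x i j) (hg : ContDiff ℝ ∞ g) : ContDiff ℝ ∞ (lap P g) :=
  ContDiff.sum fun i _ => dl_smooth hP (dl_smooth hP hg i) i

theorem c2_smooth {P : R d → Fin (d + 1) → Fin (d + 1) → ℝ}
    (hP : ∀ i j, ContDiff ℝ ∞ fun x => P x i j) : ContDiff ℝ ∞ (c2 P) :=
  (ContDiff.sum fun j _ => ContDiff.sum fun k _ => gs_smooth hP (hP j k)).div_const 2

theorem gs_nonneg (P : R d → Fin (d + 1) → Fin (d + 1) → ℝ) (g : R d → ℝ) (x : R d) :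
    0 ≤ gs P g x := Finset.sum_nonneg fun _ _ => sq_nonneg _

theorem c2_nonneg (P : R d → Fin (d + 1) → Fin (d + 1) → ℝ) (x : R d) : 0 ≤ c2 P x :=
  div_nonneg (Finset.sum_nonneg fun _ _ => Finset.sum_nonneg fun _ _ => gs_nonneg _ _ _) zero_le_two

theorem H_pd_sq {n : ℕ} (g : E n → ℝ) (x : E n) : ∑ i, pd i g x ^ 2 = ‖fderiv ℝ g x‖ ^ 2 := by
  rw [← (InnerProductSpace.toDual ℝ (E n)).symm.norm_map, EuclideanSpace.real_norm_sq_eq]
  refine Finset.sum_congr rfl fun i _ => ?_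
  rw [pd, ← InnerProductSpace.toDual_symm_apply, EuclideanSpace.inner_single_right]
  simp

theorem H_gs {P : R d → Fin (d + 1) → Fin (d + 1) → ℝ} {x n : R d} (hn : ‖n‖ = 1)
    (hP : ∀ i j, P x i j = n i * n j) (g : R d → ℝ) :
    gs P g x = ‖fderiv ℝ g x‖ ^ 2 - fderiv ℝ g x n ^ 2 := by
  simp only [gs, dl, hP, mul_assoc, ← Finset.mul_sum, ← H_fd, sub_sq, mul_pow,
    Finset.sum_add_distrib, Finset.sum_sub_distrib, ← Finset.sum_mul, H_normsq.1 hn, H_pd_sq]
  simp only [← mul_assoc, ← Finset.sum_mul]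
  simp only [mul_comm (pd _ g x), ← H_fd]
  ring

theorem Adapted.gs_le {M U : Set (R d)} {P} (h : Adapted M U P) {x : R d} (hx : x ∈ M ∩ U)
    (g : R d → ℝ) : gs P g x ≤ ‖fderiv ℝ g x‖ ^ 2 := by
  obtain ⟨n, h1, hn⟩ := h.normal hx
  rw [H_gs h1 hn]
  exact sub_le_self _ (sq_nonneg _)

end Pool.Agent.MP_5cfeaf_gt.W

end

section

/-! Block S, file 0: definitions and elementary calculus for the tangential derivative. -/

set_option autoImplicit false

open MeasureTheory Set Filter Topology Metric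
open scoped ENNReal symmDiff Classical InnerProductSpace ContDiff

namespace Pool.Agent.MP_5cfeaf_gt.W

variable {d : ℕ}

/-- matrix fields -/
abbrev PF (d : ℕ) := R d → Fin (d + 1) → Fin (d + 1) → ℝ

/-- smooth functions -/
def Sm (d : ℕ) : Subring (R d → ℝ) where
  carrier := {g | ContDiff ℝ ∞ g}
  mul_mem' := fun {a b} (ha : ContDiff ℝ ∞ a) (hb : ContDiff ℝ ∞ b) => ha.mul hb
  one_mem' := (contDiff_const : ContDiff ℝ ∞ fun _ : R d => (1 : ℝ))
  add_mem' := fun {a b} (ha : ContDiff ℝ ∞ a) (hb : ContDiff ℝ ∞ b) => ha.add hb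
  zero_mem' := (contDiff_const : ContDiff ℝ ∞ fun _ : R d => (0 : ℝ))
  neg_mem' := fun {a} (ha : ContDiff ℝ ∞ a) => ha.neg

/-- squared norm of the covariant derivative of the second fundamental form (Simons' identity) -/
noncomputable def tau (P : PF d) (x : R d) : ℝ := lap P (c2 P) x / 2 + c2 P x ^ 2

/-- component of the position vector along the spine -/
noncomputable def Zf (L : Submodule ℝ (R d)) (i : Fin (d + 1)) (x : R d) : ℝ := L.starProjection x i

/-- component of the position vector orthogonal to the spine -/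
noncomputable def Xf (L : Submodule ℝ (R d)) (i : Fin (d + 1)) (x : R d) : ℝ :=
  Lᗮ.starProjection x i

/-- squared distance to the spine -/
noncomputable def rh (L : Submodule ℝ (R d)) (x : R d) : ℝ := ∑ i, Xf L i x ^ 2

/-- squared length along the spine -/
noncomputable def sg (L : Submodule ℝ (R d)) (x : R d) : ℝ := ∑ i, Zf L i x ^ 2

/-- `(X . n)^2` -/
noncomputable def w2 (P : PF d) (L : Submodule ℝ (R d)) (x : R d) : ℝ :=
  ∑ i, ∑ j, P x i j * Xf L i x * Xf L j x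

/-- square of the second fundamental form -/
noncomputable def H2 (P : PF d) (i j : Fin (d + 1)) (x : R d) : ℝ :=
  (∑ k, ∑ l, dl P i (fun y => P y k l) x * dl P j (fun y => P y k l) x) / 2

/-- the field `A^2 X` -/
noncomputable def Yv (P : PF d) (L : Submodule ℝ (R d)) (i : Fin (d + 1)) (x : R d) : ℝ :=
  ∑ j, H2 P i j x * Xf L j x

/-- `|A X|^2` -/
noncomputable def g2 (P : PF d) (L : Submodule ℝ (R d)) (x : R d) : ℝ := ∑ i, Xf L i x * Yv P L i x

/-- radial derivative of `c2` -/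
noncomputable def Xc (P : PF d) (L : Submodule ℝ (R d)) (x : R d) : ℝ :=
  ∑ i, Xf L i x * dl P i (c2 P) x

/-- smooth matrix field -/
def SmP (P : PF d) : Prop := ∀ i j, ContDiff ℝ ∞ fun x => P x i j

/-- the spine is tangent to `M` in `U` -/
def Tang (M U : Set (R d)) (P : PF d) (L : Submodule ℝ (R d)) : Prop :=
  ∀ x ∈ M ∩ U, ∀ e ∈ L, ∀ i, ∑ j, P x i j * e j = 0

/-- second order pointwise facts -/
structure PtF (P : PF d) (L : Submodule ℝ (R d)) (x : R d) : Prop where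
  tau0 : 0 ≤ tau P x
  kato : gs P (c2 P) x ≤ 4 * (1 - 2 / (3 * ((d : ℝ) + 1))) * (c2 P x * tau P x)
  dual : ∀ ε η : ℝ, 0 < ε → 0 < η → 0 < rh L x →
    -2 * Xc P L x / rh L x - 2 * c2 P x / rh L x - η * tau P x - (2 + 4 / η) * g2 P L x / rh L x ^ 2 ≤
      tau P x - gs P (c2 P) x / (4 * (c2 P x + ε))
  w20 : 0 ≤ w2 P L x
  g20 : 0 ≤ g2 P L x
  lapw : lap P (w2 P L) x = 2 * (g2 P L x - c2 P x * w2 P L x)
  gsw : gs P (w2 P L) x = 4 * w2 P L x * g2 P L x
  divY : (∑ i, dl P i (Yv P L i) x - Xc P L x / 2 - c2 P x) ^ 2 ≤ w2 P L x * c2 P x ^ 3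
  yle : ∑ i, Yv P L i x ^ 2 ≤ c2 P x * g2 P L x
  zc : ∑ i, Zf L i x * dl P i (c2 P) x = 0

/-- first order pointwise facts -/
structure PtG (P : PF d) (L : Submodule ℝ (R d)) (x : R d) : Prop where
  wle : w2 P L x ≤ rh L x
  xrh : ∑ i, Xf L i x * dl P i (rh L) x = 2 * (rh L x - w2 P L x)
  gsrh : gs P (rh L) x = 4 * (rh L x - w2 P L x)
  divX : ∑ i, dl P i (Xf L i) x = (d : ℝ) - Module.finrank ℝ L
  dsg : ∀ i, dl P i (sg L) x = 2 * Zf L i x
  divZ : ∑ i, dl P i (Zf L i) x = Module.finrank ℝ L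
  zrh : ∑ i, Zf L i x * dl P i (rh L) x = 0
  xz : ∑ i, Xf L i x * Zf L i x = 0
  gsle : ∀ g : R d → ℝ, gs P g x ≤ ‖fderiv ℝ g x‖ ^ 2

/-- smooth stable stationary support with tangent spine -/
structure Cx (W : Vf d) (U : Set (R d)) (P : PF d) (L : Submodule ℝ (R d)) : Prop where
  hd : 1 ≤ d
  ad : Adapted W.fst.support U P
  op : IsOpen U
  st : Stat W U
  sb : Stab W.fst U
  tg : Tang W.fst.support U P L

/-- compact shell around the spine -/
def K0 (L : Submodule ℝ (R d)) (a b : ℝ) : Set (R d) :=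
  {x | (a ^ 2)⁻¹ ≤ rh L x ∧ rh L x ≤ a ^ 2 ∧ sg L x ≤ b ^ 2}

/-! ### calculus rules (valid at every point) -/

theorem S0_dl_const (P : PF d) (i : Fin (d + 1)) (c : ℝ) (x : R d) : dl P i (fun _ => c) x = 0 := dl_const c i

theorem S0_dl_add (P : PF d) (i : Fin (d + 1)) {f g : R d → ℝ} {x : R d} (hf : DifferentiableAt ℝ f x)
    (hg : DifferentiableAt ℝ g x) : dl P i (fun y => f y + g y) x = dl P i f x + dl P i g x := dl_add hf hg i

theorem S0_dl_mul (P : PF d) (i : Fin (d + 1)) {f g : R d → ℝ} {x : R d} (hf : DifferentiableAt ℝ f x)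
    (hg : DifferentiableAt ℝ g x) :
    dl P i (fun y => f y * g y) x = f x * dl P i g x + dl P i f x * g x := (dl_mul hf hg i).trans (add_comm _ _)

theorem S0_dl_sum (P : PF d) (i : Fin (d + 1)) {ι : Type} (s : Finset ι) {f : ι → R d → ℝ} {x : R d}
    (hf : ∀ j ∈ s, DifferentiableAt ℝ (f j) x) :
    dl P i (fun y => ∑ j ∈ s, f j y) x = ∑ j ∈ s, dl P i (f j) x := dl_sum s hf i

theorem S0_dl_comp (P : PF d) (i : Fin (d + 1)) {F : ℝ → ℝ} {g : R d → ℝ} {x : R d} {F' : ℝ}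
    (hF : HasDerivAt F F' (g x)) (hg : DifferentiableAt ℝ g x) :
    dl P i (fun y => F (g y)) x = F' * dl P i g x := dl_comp hF hg i

theorem S0_dl_congr (P : PF d) (i : Fin (d + 1)) {f g : R d → ℝ} {x : R d} (h : f =ᶠ[𝓝 x] g) :
    dl P i f x = dl P i g x := dl_evEq h i

theorem S0_dl_zero (P : PF d) (i : Fin (d + 1)) {f : R d → ℝ} {x : R d} (h : x ∉ tsupport f) :
    dl P i f x = 0 := dl_notMem h i

theorem S0_dl_lin (P : PF d) (i : Fin (d + 1)) (A : R d →L[ℝ] R d) (j : Fin (d + 1)) (x : R d) :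
    dl P i (fun y => A y j) x =
      A (EuclideanSpace.single i 1) j - ∑ k, P x i k * A (EuclideanSpace.single k 1) j := by
  have h : ∀ k, pd k (fun y => A y j) x = A (EuclideanSpace.single k 1) j := fun k => by
    change fderiv ℝ ((EuclideanSpace.proj (𝕜 := ℝ) j).comp A) x _ = _
    rw [ContinuousLinearMap.fderiv]
    rfl
  simp only [dl, h]

theorem S0_sm_dl {P : PF d} (hP : SmP P) (i : Fin (d + 1)) {g : R d → ℝ} (hg : ContDiff ℝ ∞ g) :
    ContDiff ℝ ∞ (dl P i g) := dl_smooth hP hg i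

theorem S0_cont_dl {P : PF d} (hP : SmP P) (i : Fin (d + 1)) {g : R d → ℝ} (hg : ContDiff ℝ 1 g) :
    Continuous (dl P i g) := dl_cont hP hg i

theorem S0_cont_gs {P : PF d} (hP : SmP P) {g : R d → ℝ} (hg : ContDiff ℝ 1 g) :
    Continuous (gs P g) := gs_cont hP hg

theorem S0_sm_gs {P : PF d} (hP : SmP P) {g : R d → ℝ} (hg : ContDiff ℝ ∞ g) :
    ContDiff ℝ ∞ (gs P g) := gs_smooth hP hg

theorem S0_sm_lap {P : PF d} (hP : SmP P) {g : R d → ℝ} (hg : ContDiff ℝ ∞ g) :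
    ContDiff ℝ ∞ (lap P g) := lap_smooth hP hg

theorem S0_sm_c2 {P : PF d} (hP : SmP P) : ContDiff ℝ ∞ (c2 P) := c2_smooth hP
theorem S0_sm_tau {P : PF d} (hP : SmP P) : ContDiff ℝ ∞ (tau P) :=
  ((lap_smooth hP (c2_smooth hP)).div_const 2).add ((c2_smooth hP).pow 2)
theorem S0_sm_Zf (L : Submodule ℝ (R d)) (i : Fin (d + 1)) : ContDiff ℝ ∞ (Zf L i) :=
  ((EuclideanSpace.proj (𝕜 := ℝ) i).comp L.starProjection).contDiff
theorem S0_sm_Xf (L : Submodule ℝ (R d)) (i : Fin (d + 1)) : ContDiff ℝ ∞ (Xf L i) :=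
  ((EuclideanSpace.proj (𝕜 := ℝ) i).comp Lᗮ.starProjection).contDiff
theorem S0_sm_rh (L : Submodule ℝ (R d)) : ContDiff ℝ ∞ (rh L) :=
  ContDiff.sum fun i _ => (S0_sm_Xf L i).pow 2
theorem S0_sm_sg (L : Submodule ℝ (R d)) : ContDiff ℝ ∞ (sg L) :=
  ContDiff.sum fun i _ => (S0_sm_Zf L i).pow 2
theorem S0_sm_w2 {P : PF d} (hP : SmP P) (L : Submodule ℝ (R d)) : ContDiff ℝ ∞ (w2 P L) :=
  ContDiff.sum fun i _ => ContDiff.sum fun j _ => ((hP i j).mul (S0_sm_Xf L i)).mul (S0_sm_Xf L j)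
theorem S0_sm_H2 {P : PF d} (hP : SmP P) (i j : Fin (d + 1)) : ContDiff ℝ ∞ (H2 P i j) :=
  (ContDiff.sum fun k _ => ContDiff.sum fun l _ =>
    (dl_smooth hP (hP k l) i).mul (dl_smooth hP (hP k l) j)).div_const 2
theorem S0_sm_Yv {P : PF d} (hP : SmP P) (L : Submodule ℝ (R d)) (i : Fin (d + 1)) :
    ContDiff ℝ ∞ (Yv P L i) := ContDiff.sum fun j _ => (S0_sm_H2 hP i j).mul (S0_sm_Xf L j)
theorem S0_sm_g2 {P : PF d} (hP : SmP P) (L : Submodule ℝ (R d)) : ContDiff ℝ ∞ (g2 P L) :=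
  ContDiff.sum fun i _ => (S0_sm_Xf L i).mul (S0_sm_Yv hP L i)
theorem S0_sm_Xc {P : PF d} (hP : SmP P) (L : Submodule ℝ (R d)) : ContDiff ℝ ∞ (Xc P L) :=
  ContDiff.sum fun i _ => (S0_sm_Xf L i).mul (dl_smooth hP (c2_smooth hP) i)

theorem S0_gs_nonneg (P : PF d) (g : R d → ℝ) (x : R d) : 0 ≤ gs P g x := gs_nonneg P g x
theorem S0_c2_nonneg (P : PF d) (x : R d) : 0 ≤ c2 P x := c2_nonneg P x
theorem S0_rh_eq (L : Submodule ℝ (R d)) (x : R d) : rh L x = ‖Lᗮ.starProjection x‖ ^ 2 :=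
  (EuclideanSpace.real_norm_sq_eq _).symm
theorem S0_sg_eq (L : Submodule ℝ (R d)) (x : R d) : sg L x = ‖L.starProjection x‖ ^ 2 :=
  (EuclideanSpace.real_norm_sq_eq _).symm
theorem S0_norm_sq (L : Submodule ℝ (R d)) (x : R d) : ‖x‖ ^ 2 = rh L x + sg L x := by
  rw [S0_rh_eq, S0_sg_eq]
  exact (L.norm_sq_eq_add_norm_sq_starProjection x).trans (add_comm _ _)

theorem S0_K0 (L : Submodule ℝ (R d)) (a b : ℝ) : IsCompact (K0 L a b) := by
  have h1 := (S0_sm_rh L).continuous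
  have h2 := (S0_sm_sg L).continuous
  refine Metric.isCompact_of_isClosed_isBounded ((isClosed_le continuous_const h1).inter
    ((isClosed_le h1 continuous_const).inter (isClosed_le h2 continuous_const))) ?_
  refine (isBounded_closedBall (x := (0 : R d)) (r := √(a ^ 2 + b ^ 2))).subset fun x hx => ?_
  rw [mem_closedBall_zero_iff]
  refine Real.le_sqrt_of_sq_le ?_
  rw [S0_norm_sq L]
  exact add_le_add hx.2.1 hx.2.2

/-- the projection is of rank one on `M` -/
theorem S0_unit {M U : Set (R d)} {P : PF d} (h : Adapted M U P) {x : R d} (hx : x ∈ M ∩ U) :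
    ∃ n : R d, ‖n‖ = 1 ∧ ∀ i j, P x i j = n i * n j := h.normal hx

/-! ### integration -/

theorem S0_ae (μ : Measure (R d)) : ∀ᵐ x ∂μ, x ∈ μ.support := Measure.support_mem_ae

/-- a continuous function vanishing off a compact subset of `U` is integrable -/
theorem S0_int {W : Vf d} {U K : Set (R d)} (h : LocFin W U) (hK : IsCompact K) (hKU : K ⊆ U)
    {g : R d → ℝ} (hg : Continuous g) (h0 : ∀ x, x ∉ K → g x = 0) : Integrable g W.fst :=
  h.integrable_fst hK hKU hg h0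

/-- `f * g` with `f` compactly supported in `U` -/
theorem S0_int_mul {W : Vf d} {U : Set (R d)} (h : LocFin W U) {f g : R d → ℝ} (hf : Continuous f)
    (hc : HasCompactSupport f) (hU : tsupport f ⊆ U) (hg : Continuous g) :
    Integrable (fun x => f x * g x) W.fst :=
  h.integrable_fst hc hU (hf.mul hg) fun x hx => by simp [image_eq_zero_of_notMem_tsupport hx]

/-- comparison of integrals from a comparison on the support -/
theorem S0_mono {μ : Measure (R d)} {f g : R d → ℝ} (hf : Integrable f μ) (hg : Integrable g μ)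
    (h : ∀ x ∈ μ.support, f x ≤ g x) : ∫ x, f x ∂μ ≤ ∫ x, g x ∂μ :=
  integral_mono_ae hf hg ((S0_ae μ).mono h)

theorem S0_zero {μ : Measure (R d)} {f : R d → ℝ} (hf : Continuous f) (hi : Integrable f μ)
    (h0 : ∀ x, 0 ≤ f x) (h : ∫ x, f x ∂μ ≤ 0) {x : R d} (hx : x ∈ μ.support) : f x = 0 :=
  H_zero_of_integral hf hi h0 (le_antisymm h (integral_nonneg h0)) hx

theorem S0_c1c_mul {f g : R d → ℝ} {U : Set (R d)} (hf : C1c f U) (hg : ContDiff ℝ 1 g) :
    C1c (fun x => f x * g x) U := hf.smul hg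

/-- cut-off functions -/
theorem S0_cut {K U : Set (R d)} (hK : IsCompact K) (hU : IsOpen U) (h : K ⊆ U) :
    ∃ φ : R d → ℝ, C1c φ U ∧ (∀ x, 0 ≤ φ x ∧ φ x ≤ 1) ∧ ∀ x ∈ K, φ x = 1 := by
  obtain ⟨δ, hδ, h1⟩ := hK.exists_cthickening_subset_open hU h
  obtain ⟨f, f1, f2, f3, f4⟩ := exists_contMDiff_support_eq_eq_one_iff (n := 1)
    (modelWithCornersSelf ℝ (R d)) (isOpen_thickening (δ := δ) (E := K)) hK.isClosed
    (self_subset_thickening hδ K)
  have h2 : tsupport f ⊆ cthickening δ K := by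
    rw [tsupport, f3]
    exact closure_thickening_subset_cthickening δ K
  exact ⟨f, ⟨f1.contDiff, (hK.cthickening).of_isClosed_subset (isClosed_tsupport f) h2, h2.trans h1⟩,
    fun x => f2 ⟨x, rfl⟩, fun x hx => (f4 x).1 hx⟩

/-- divergence theorem on the support -/
theorem S0_div {W : Vf d} {U : Set (R d)} {P : PF d} (h : Adapted W.fst.support U P) (hU : IsOpen U)
    (hs : Stat W U) {φ : R d → ℝ} (hφ : C1c φ U) {Y : Fin (d + 1) → R d → ℝ}
    (hY : ∀ i, ContDiff ℝ 1 (Y i)) :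
    ∫ x, φ x * ∑ i, dl P i (Y i) x ∂W.fst = -∫ x, ∑ i, dl P i φ x * Y i x ∂W.fst := by
  have h1 : ∀ i, ∫ x, dl P i (fun y => φ y * Y i y) x ∂W.fst = 0 := fun i =>
    h.ibp hU hs (S0_c1c_mul hφ (hY i)) i
  have h2 : ∀ i x, dl P i (fun y => φ y * Y i y) x = φ x * dl P i (Y i) x + dl P i φ x * Y i x :=
    fun i x => S0_dl_mul P i (hφ.1.differentiable one_ne_zero x) ((hY i).differentiable one_ne_zero x)
  have h3 : ∀ i, Integrable (fun x => φ x * dl P i (Y i) x) W.fst := fun i =>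
    S0_int_mul hs.1 hφ.1.continuous hφ.2.1 hφ.2.2 (dl_cont h.1 (hY i) i)
  have h4 : ∀ i, Integrable (fun x => dl P i φ x * Y i x) W.fst := fun i =>
    S0_int hs.1 hφ.2.1 hφ.2.2 ((dl_cont h.1 hφ.1 i).mul (hY i).continuous) fun x hx => by
      rw [dl_notMem hx, zero_mul]
  simp only [Finset.mul_sum]
  rw [integral_finsetSum _ fun i _ => h3 i, integral_finsetSum _ fun i _ => h4 i, eq_neg_iff_add_eq_zero,
    ← Finset.sum_add_distrib]
  refine Finset.sum_eq_zero fun i _ => ?_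
  rw [← integral_add (h3 i) (h4 i), ← h1 i]
  simp only [h2]

end Pool.Agent.MP_5cfeaf_gt.W

end

section

/-! Block S, file 1: the algebra of tangential derivatives (Simons' identity). -/

set_option autoImplicit false

open MeasureTheory Set Filter Topology Metric
open scoped ENNReal symmDiff Classical InnerProductSpace ContDiff

namespace Pool.Agent.MP_5cfeaf_gt.W

variable {d : ℕ}

/-- tangential calculus on a minimal hypersurface, algebraically -/
structure SA (A : Type) [CommRing A] (n : ℕ) where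
  D : Fin n → A →+ A
  ν : Fin n → A
  mul : ∀ i a b, D i (a * b) = a * D i b + D i a * b
  unit : ∑ i, ν i * ν i = 1
  tang : ∀ a, ∑ i, ν i * D i a = 0
  symm : ∀ i j, D i (ν j) = D j (ν i)
  min : ∑ i, D i (ν i) = 0
  comm : ∀ i j a, D i (D j a) - D j (D i a) = ∑ k, (ν i * D j (ν k) - ν j * D i (ν k)) * D k a

namespace SA

variable {A : Type} [CommRing A] {n : ℕ} (s : SA A n)

/-- second fundamental form -/
def h (i j : Fin n) : A := s.D i (s.ν j)
/-- its square -/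
def hh (i j : Fin n) : A := ∑ k, s.h i k * s.h j k
/-- its squared norm -/
def c : A := ∑ i, ∑ j, s.h i j * s.h i j
/-- its covariant derivative -/
def T (k i j : Fin n) : A := s.D k (s.h i j) + s.ν i * s.hh j k + s.ν j * s.hh i k
/-- half the gradient of `c` -/
def γ (k : Fin n) : A := ∑ i, ∑ j, s.T k i j * s.h i j

theorem h_symm (i j : Fin n) : s.h i j = s.h j i := s.symm i j
theorem h_tr : ∑ i, s.h i i = 0 := s.min
/-- `symm` + `tang` -/
theorem h_nu (i : Fin n) : ∑ j, s.h i j * s.ν j = 0 := by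
  rw [← s.tang (s.ν i)]
  exact Finset.sum_congr rfl fun j _ => by rw [s.h_symm i j, mul_comm]; rfl
theorem S1_Dnu (i j : Fin n) : s.D i (s.ν j) = s.h i j := rfl
theorem S1_nu_h (j : Fin n) : ∑ i, s.ν i * s.h i j = 0 := s.tang (s.ν j)
theorem S1_hh_symm (i j : Fin n) : s.hh i j = s.hh j i :=
  Finset.sum_congr rfl fun _ _ => mul_comm _ _
theorem S1_nu_hh (j : Fin n) : ∑ i, s.ν i * s.hh i j = 0 := by
  have e : ∑ i, s.ν i * s.hh i j = ∑ k, (∑ i, s.ν i * s.h i k) * s.h j k := by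
    simp only [hh, Finset.mul_sum, Finset.sum_mul]
    rw [Finset.sum_comm]
    exact Finset.sum_congr rfl fun _ _ => Finset.sum_congr rfl fun _ _ => by ring
  simp only [e, S1_nu_h, zero_mul, Finset.sum_const_zero]
theorem S1_nu_hh' (j : Fin n) : ∑ i, s.ν i * s.hh j i = 0 := by
  rw [← s.S1_nu_hh j]
  exact Finset.sum_congr rfl fun i _ => by rw [s.S1_hh_symm]
theorem S1_tr_hh : ∑ i, s.hh i i = s.c := rfl
theorem S1_kill1 (b : Fin n → A) : ∑ i, ∑ j, s.h i j * (s.ν i * b j) = 0 := by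
  rw [Finset.sum_comm]
  refine Finset.sum_eq_zero fun j _ => ?_
  have e : ∑ i, s.h i j * (s.ν i * b j) = (∑ i, s.ν i * s.h i j) * b j := by
    rw [Finset.sum_mul]
    exact Finset.sum_congr rfl fun _ _ => by ring
  rw [e, S1_nu_h, zero_mul]
theorem S1_kill2 (a : Fin n → A) : ∑ i, ∑ j, s.h i j * (s.ν j * a i) = 0 := by
  refine Finset.sum_eq_zero fun i _ => ?_
  have e : ∑ j, s.h i j * (s.ν j * a i) = (∑ j, s.h i j * s.ν j) * a i := by
    rw [Finset.sum_mul]
    exact Finset.sum_congr rfl fun _ _ => by ring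
  rw [e, h_nu, zero_mul]
theorem S1_comm (i j : Fin n) (a : A) : s.D i (s.D j a) = s.D j (s.D i a) +
    s.ν i * (∑ k, s.h j k * s.D k a) - s.ν j * ∑ k, s.h i k * s.D k a := by
  have e : ∑ k, (s.ν i * s.D j (s.ν k) - s.ν j * s.D i (s.ν k)) * s.D k a =
      s.ν i * (∑ k, s.h j k * s.D k a) - s.ν j * ∑ k, s.h i k * s.D k a := by
    rw [Finset.mul_sum, Finset.mul_sum, ← Finset.sum_sub_distrib]
    exact Finset.sum_congr rfl fun _ _ => by simp only [S1_Dnu]; ring
  linear_combination s.comm i j a + e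
theorem S1_hh_eq (i j : Fin n) : ∑ k, s.h i k * s.D k (s.ν j) = s.hh i j :=
  Finset.sum_congr rfl fun k _ => by rw [S1_Dnu, s.h_symm k j]
theorem S1_codazzi (k i j : Fin n) :
    s.D k (s.h i j) = s.D i (s.h k j) + s.ν k * s.hh i j - s.ν i * s.hh k j := by
  have e := s.S1_comm k i (s.ν j)
  rw [S1_hh_eq, S1_hh_eq] at e
  exact e
theorem T_symm₂ (k i j : Fin n) : s.T k i j = s.T k j i := by
  simp only [T]
  rw [s.h_symm i j]
  ring
/-- Codazzi: `comm k i (ν j)` -/
theorem T_symm₁ (k i j : Fin n) : s.T k i j = s.T i k j := by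
  simp only [T]
  rw [s.S1_codazzi k i j, s.S1_hh_symm j k, s.S1_hh_symm j i, s.S1_hh_symm k i]
  ring
theorem T_nu (i j : Fin n) : ∑ k, s.ν k * s.T k i j = 0 := by
  have e : ∑ k, s.ν k * s.T k i j = ∑ k, s.ν k * s.D k (s.h i j) +
      s.ν i * ∑ k, s.ν k * s.hh j k + s.ν j * ∑ k, s.ν k * s.hh i k := by
    rw [Finset.mul_sum, Finset.mul_sum, ← Finset.sum_add_distrib, ← Finset.sum_add_distrib]
    exact Finset.sum_congr rfl fun _ _ => by simp only [T]; ring
  rw [e, s.tang, S1_nu_hh', S1_nu_hh']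
  ring
theorem T_tr (k : Fin n) : ∑ i, s.T k i i = 0 := by
  simp only [T, Finset.sum_add_distrib]
  rw [← map_sum, h_tr, S1_nu_hh]
  simp
theorem S1_γ (k : Fin n) : s.γ k = ∑ i, ∑ j, s.h i j * s.D k (s.h i j) := by
  have e : s.γ k = ∑ i, ∑ j, s.h i j * s.D k (s.h i j) + ∑ i, ∑ j, s.h i j * (s.ν i * s.hh j k) +
      ∑ i, ∑ j, s.h i j * (s.ν j * s.hh i k) := by
    simp only [γ, ← Finset.sum_add_distrib]
    exact Finset.sum_congr rfl fun _ _ => Finset.sum_congr rfl fun _ _ => by simp only [T]; ring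
  rw [e, s.S1_kill1 fun j => s.hh j k, s.S1_kill2 fun i => s.hh i k]
  ring
theorem S1_Dc (k : Fin n) : s.D k s.c =
    ∑ i, ∑ j, (s.h i j * s.D k (s.h i j) + s.D k (s.h i j) * s.h i j) := by
  simp only [c, map_sum, s.mul]
theorem D_c (k : Fin n) : s.D k s.c = 2 * s.γ k := by
  rw [S1_Dc, S1_γ]
  simp only [Finset.mul_sum]
  exact Finset.sum_congr rfl fun _ _ => Finset.sum_congr rfl fun _ _ => by ring
theorem div_h (j : Fin n) : ∑ i, s.D i (s.h i j) = -(s.ν j * s.c) := by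
  have e1 : ∑ i, s.T i i j = 0 := by
    rw [← s.T_tr j]
    exact Finset.sum_congr rfl fun i _ => by rw [s.T_symm₂ i i j, s.T_symm₁ i j i]
  simp only [T, Finset.sum_add_distrib] at e1
  rw [S1_nu_hh', ← Finset.mul_sum, S1_tr_hh] at e1
  linear_combination e1
theorem S1_nu_Dh (l j : Fin n) : ∑ k, s.ν k * s.D l (s.h k j) = -s.hh l j := by
  have e := congrArg (s.D l) (s.S1_nu_h j)
  simp only [map_sum, s.mul, map_zero, Finset.sum_add_distrib, S1_Dnu] at e
  have e2 : ∑ k, s.h l k * s.h k j = s.hh l j :=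
    Finset.sum_congr rfl fun k _ => by rw [s.h_symm k j]
  linear_combination e - e2
theorem S1_lap_h (i j : Fin n) : ∑ k, s.D k (s.D k (s.h i j)) =
    -(s.h i j * s.c) - 2 * ∑ l, s.h i l * s.hh l j - s.ν j * s.D i s.c -
      s.ν i * (∑ k, ∑ l, s.h k l * s.D l (s.h k j) + ∑ k, s.D k (s.hh k j)) := by
  have e1 : ∀ k, s.D k (s.D k (s.h i j)) = s.D i (s.D k (s.h k j)) +
      s.ν k * (∑ l, s.h i l * s.D l (s.h k j)) - s.ν i * (∑ l, s.h k l * s.D l (s.h k j)) +
      s.ν k * s.D k (s.hh i j) + s.h k k * s.hh i j - s.ν i * s.D k (s.hh k j) -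
      s.h i k * s.hh k j := fun k => by
    rw [s.S1_codazzi k i j, map_sub, map_add, s.mul, s.mul, s.S1_comm k i, S1_Dnu, S1_Dnu,
      s.h_symm k i]
    ring
  have e2 : ∑ k, s.ν k * (∑ l, s.h i l * s.D l (s.h k j)) = -∑ l, s.h i l * s.hh l j := by
    have : ∑ k, s.ν k * (∑ l, s.h i l * s.D l (s.h k j)) =
        ∑ l, s.h i l * ∑ k, s.ν k * s.D l (s.h k j) := by
      simp only [Finset.mul_sum]
      rw [Finset.sum_comm]
      exact Finset.sum_congr rfl fun _ _ => Finset.sum_congr rfl fun _ _ => by ring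
    simp only [this, S1_nu_Dh, mul_neg, Finset.sum_neg_distrib]
  simp only [e1, Finset.sum_add_distrib, Finset.sum_sub_distrib]
  rw [e2, ← map_sum, div_h, map_neg, s.mul, S1_Dnu, s.tang, ← Finset.sum_mul, h_tr,
    ← Finset.mul_sum, ← Finset.mul_sum]
  ring
theorem S1_hhh : ∑ i, ∑ j, s.h i j * ∑ l, s.h i l * s.hh l j = ∑ l, ∑ j, s.hh l j * s.hh l j := by
  have e : ∀ l j, s.hh l j * s.hh l j = ∑ i, s.h i j * (s.h i l * s.hh l j) := fun l j => by
    have : s.hh l j = ∑ i, s.h i j * s.h i l :=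
      Finset.sum_congr rfl fun i _ => by rw [s.h_symm i j, s.h_symm i l, mul_comm]
    calc s.hh l j * s.hh l j = (∑ i, s.h i j * s.h i l) * s.hh l j := by rw [← this]
      _ = _ := by rw [Finset.sum_mul]; exact Finset.sum_congr rfl fun _ _ => by ring
  simp only [e, Finset.mul_sum]
  rw [Finset.sum_comm]
  conv_rhs => rw [Finset.sum_comm]
  exact Finset.sum_congr rfl fun _ _ => Finset.sum_comm
theorem S1_h_lap : ∑ i, ∑ j, s.h i j * ∑ k, s.D k (s.D k (s.h i j)) =
    -(s.c * s.c) - 2 * ∑ l, ∑ j, s.hh l j * s.hh l j := by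
  have e : ∀ i j, s.h i j * ∑ k, s.D k (s.D k (s.h i j)) = -(s.h i j * s.h i j * s.c) -
      2 * (s.h i j * ∑ l, s.h i l * s.hh l j) - s.h i j * (s.ν j * s.D i s.c) -
      s.h i j * (s.ν i * (∑ k, ∑ l, s.h k l * s.D l (s.h k j) + ∑ k, s.D k (s.hh k j))) :=
    fun i j => by rw [S1_lap_h]; ring
  simp only [e, Finset.sum_sub_distrib, Finset.sum_neg_distrib]
  rw [s.S1_kill1 fun j => ∑ k, ∑ l, s.h k l * s.D l (s.h k j) + ∑ k, s.D k (s.hh k j),
    s.S1_kill2 fun i => s.D i s.c]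
  simp only [← Finset.sum_mul, ← Finset.mul_sum (a := (2 : A))]
  rw [S1_hhh]
  simp only [c]
  ring
theorem S1_Dh_sq (k : Fin n) : ∑ i, ∑ j, s.D k (s.h i j) * s.D k (s.h i j) =
    ∑ i, ∑ j, s.T k i j * s.T k i j + 2 * ∑ j, s.hh k j * s.hh k j := by
  have e : ∀ i j, s.D k (s.h i j) * s.D k (s.h i j) = s.T k i j * s.T k i j -
      s.ν i * s.T i k j * (2 * s.hh k j) - s.ν j * s.T j k i * (2 * s.hh k i) +
      s.ν i * s.ν i * (s.hh k j * s.hh k j) + s.hh k i * s.hh k i * (s.ν j * s.ν j) +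
      s.ν i * s.hh i k * (2 * (s.ν j * s.hh k j)) := fun i j => by
    rw [← s.T_symm₁ k i j, ← s.T_symm₁ k j i, ← s.T_symm₂ k i j, s.S1_hh_symm k i, s.S1_hh_symm k j]
    simp only [T]
    ring
  have e1 : ∑ i, ∑ j, s.ν i * s.T i k j * (2 * s.hh k j) = 0 := by
    rw [Finset.sum_comm]
    exact Finset.sum_eq_zero fun j _ => by rw [← Finset.sum_mul, T_nu, zero_mul]
  have e2 : ∑ i, ∑ j, s.ν j * s.T j k i * (2 * s.hh k i) = 0 :=
    Finset.sum_eq_zero fun i _ => by rw [← Finset.sum_mul, T_nu, zero_mul]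
  simp only [e, Finset.sum_add_distrib, Finset.sum_sub_distrib]
  rw [e1, e2, ← Finset.sum_mul_sum, ← Finset.sum_mul_sum, ← Finset.sum_mul_sum, s.unit, S1_nu_hh]
  ring

/-- Simons' identity.  `D k c = 2 ∑ h i j * D k (h i j)`, so the left side is
`2 |D h|^2 + 2 ∑ h i j * D k (D k (h i j))`; `|D h|^2 = |T|^2 + 2 |hh|^2`;
`D k (h i j) = D i (h k j) + ν k * hh i j - ν i * hh k j` (`comm`), commute once more, use `div_h`,
`∑ k, ν k * D l (h k j) = - hh l j` and kill all terms with a free `ν i` or `ν j` against `h i j`: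
`∑ h i j * D k (D k (h i j)) = - c^2 - 2 |hh|^2`. -/
theorem simons : ∑ k, s.D k (s.D k s.c) = 2 * (∑ k, ∑ i, ∑ j, s.T k i j * s.T k i j - s.c * s.c) := by
  have e : ∀ k, s.D k (s.D k s.c) = 2 * ∑ i, ∑ j, s.D k (s.h i j) * s.D k (s.h i j) +
      2 * ∑ i, ∑ j, s.h i j * s.D k (s.D k (s.h i j)) := fun k => by
    rw [S1_Dc]
    simp only [map_sum, map_add, s.mul, Finset.mul_sum, ← Finset.sum_add_distrib]
    exact Finset.sum_congr rfl fun _ _ => Finset.sum_congr rfl fun _ _ => by ring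
  have e2 : ∑ k, ∑ i, ∑ j, s.h i j * s.D k (s.D k (s.h i j)) =
      ∑ i, ∑ j, s.h i j * ∑ k, s.D k (s.D k (s.h i j)) := by
    simp only [Finset.mul_sum]
    rw [Finset.sum_comm]
    exact Finset.sum_congr rfl fun _ _ => Finset.sum_comm
  simp only [e, S1_Dh_sq, Finset.sum_add_distrib, ← Finset.mul_sum (a := (2 : A))]
  rw [e2, S1_h_lap]
  ring

/-- the squares of the derivatives of the projection `ν ν^T` -/
theorem DP_DP (i j : Fin n) :
    ∑ k, ∑ l, s.D i (s.ν k * s.ν l) * s.D j (s.ν k * s.ν l) = 2 * s.hh i j := by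
  have e : ∀ k l, s.D i (s.ν k * s.ν l) * s.D j (s.ν k * s.ν l) =
      s.ν k * s.ν k * (s.h i l * s.h j l) + s.h j k * s.ν k * (s.h i l * s.ν l) +
      s.h i k * s.ν k * (s.h j l * s.ν l) + s.h i k * s.h j k * (s.ν l * s.ν l) := fun k l => by
    simp only [s.mul, S1_Dnu]
    ring
  simp only [e, Finset.sum_add_distrib]
  rw [← Finset.sum_mul_sum, ← Finset.sum_mul_sum, ← Finset.sum_mul_sum, ← Finset.sum_mul_sum,
    s.unit, h_nu, h_nu]
  simp only [hh]
  ring

/-- position field `X = π x` for a constant symmetric matrix `π` fixing `ν` -/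
structure Pos (X : Fin n → A) (π : Fin n → Fin n → A) : Prop where
  DX : ∀ i j, s.D i (X j) = π i j - s.ν i * s.ν j
  Dπ : ∀ k i j, s.D k (π i j) = 0
  symm : ∀ i j, π i j = π j i
  fix : ∀ i, ∑ j, π i j * s.ν j = s.ν i

variable {X : Fin n → A} {π : Fin n → Fin n → A}

/-- support function -/
def w (X : Fin n → A) : A := ∑ j, X j * s.ν j
/-- its gradient -/
def g (X : Fin n → A) (i : Fin n) : A := ∑ j, s.h i j * X j
/-- `hh X` -/
def Y (X : Fin n → A) (i : Fin n) : A := ∑ j, s.hh i j * X j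

/-- differentiate `fix` -/
theorem π_h (p : s.Pos X π) (i j : Fin n) : ∑ k, π i k * s.h j k = s.h j i := by
  have e := congrArg (s.D j) (p.fix i)
  simpa only [map_sum, s.mul, p.Dπ, zero_mul, add_zero, S1_Dnu] using e
theorem D_w (p : s.Pos X π) (i : Fin n) : s.D i (s.w X) = s.g X i := by
  have e : ∀ j, s.D i (X j * s.ν j) = s.h i j * X j + π i j * s.ν j - s.ν i * (s.ν j * s.ν j) :=
    fun j => by rw [s.mul, p.DX, S1_Dnu]; ring
  simp only [w, g, map_sum, e, Finset.sum_add_distrib, Finset.sum_sub_distrib]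
  rw [p.fix, ← Finset.mul_sum, s.unit]
  ring
theorem div_g (p : s.Pos X π) : ∑ i, s.D i (s.g X i) = -(s.c * s.w X) := by
  have e : ∀ i j, s.D i (s.h i j * X j) =
      π i j * s.h i j - s.h i j * (s.ν j * s.ν i) + s.D i (s.h i j) * X j :=
    fun i j => by rw [s.mul, p.DX]; ring
  have e2 : ∑ i, ∑ j, s.D i (s.h i j) * X j = -(s.c * s.w X) := by
    rw [Finset.sum_comm]
    simp only [← Finset.sum_mul, div_h, w, Finset.mul_sum, ← Finset.sum_neg_distrib]
    exact Finset.sum_congr rfl fun _ _ => by ring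
  simp only [g, map_sum, e, Finset.sum_add_distrib, Finset.sum_sub_distrib, s.π_h p]
  rw [e2, h_tr, s.S1_kill2 s.ν]
  ring
theorem lap_ww (p : s.Pos X π) : ∑ i, s.D i (s.D i (s.w X * s.w X)) =
    2 * (∑ i, s.g X i * s.g X i - s.c * (s.w X * s.w X)) := by
  have e : ∀ i, s.D i (s.D i (s.w X * s.w X)) =
      2 * (s.g X i * s.g X i) + 2 * s.w X * s.D i (s.g X i) := fun i => by
    simp only [s.mul, map_add, s.D_w p]
    ring
  simp only [e, Finset.sum_add_distrib, ← Finset.mul_sum]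
  rw [s.div_g p]
  ring
theorem Y_eq (i : Fin n) : s.Y X i = ∑ k, s.h i k * s.g X k := by
  simp only [Y, hh, g, Finset.mul_sum, Finset.sum_mul]
  rw [Finset.sum_comm]
  exact Finset.sum_congr rfl fun k _ => Finset.sum_congr rfl fun j _ => by rw [s.h_symm j k]; ring
theorem X_Y : ∑ i, X i * s.Y X i = ∑ i, s.g X i * s.g X i := by
  have e : ∀ k, s.g X k * s.g X k = ∑ i, X i * (s.h i k * s.g X k) := fun k => by
    calc s.g X k * s.g X k = (∑ i, s.h k i * X i) * s.g X k := rfl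
      _ = _ := by
        rw [Finset.sum_mul]
        exact Finset.sum_congr rfl fun i _ => by rw [s.h_symm k i]; ring
  simp only [e, Y_eq, Finset.mul_sum]
  exact Finset.sum_comm
theorem S1_nu_g : ∑ j, s.ν j * s.g X j = 0 := by
  rw [← s.S1_kill1 X]
  simp only [g, Finset.mul_sum]
  exact Finset.sum_congr rfl fun _ _ => Finset.sum_congr rfl fun _ _ => by ring
theorem S1_D_g (p : s.Pos X π) (i j : Fin n) : s.D i (s.g X j) = s.h i j + ∑ k, X k * s.T k i j -
    s.ν j * (∑ k, s.hh k i * X k) - s.w X * s.hh i j := by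
  have e : ∀ k, s.D i (s.h j k * X k) = π i k * s.h j k - s.ν i * (s.h j k * s.ν k) +
      X k * s.T k i j - s.ν j * (s.hh k i * X k) - X k * s.ν k * s.hh i j := fun k => by
    rw [s.mul, p.DX, s.T_symm₁ k i j, s.T_symm₂ i k j, s.S1_hh_symm i j]
    simp only [T]
    ring
  simp only [g, map_sum, e, Finset.sum_add_distrib, Finset.sum_sub_distrib]
  rw [s.π_h p, ← Finset.mul_sum, h_nu, ← Finset.mul_sum, ← Finset.sum_mul, s.h_symm j i]
  simp only [w]
  ring
/-- `Y i = ∑ h i j * g j`; `div_h`, `D i (h j k) = T i j k - ν j * hh k i - ν k * hh j i` -/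
theorem div_Y (p : s.Pos X π) : ∑ i, s.D i (s.Y X i) =
    ∑ k, X k * s.γ k + s.c - s.w X * ∑ i, ∑ j, s.h i j * s.hh i j := by
  have e : ∀ i j, s.D i (s.h i j * s.g X j) = s.h i j * s.h i j + s.h i j * ∑ k, X k * s.T k i j -
      s.h i j * (s.ν j * ∑ k, s.hh k i * X k) - s.w X * (s.h i j * s.hh i j) +
      s.D i (s.h i j) * s.g X j := fun i j => by
    rw [s.mul, s.S1_D_g p]
    ring
  have e2 : ∑ i, ∑ j, s.D i (s.h i j) * s.g X j = 0 := by
    rw [Finset.sum_comm]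
    have : ∀ j, ∑ i, s.D i (s.h i j) * s.g X j = -s.c * (s.ν j * s.g X j) := fun j => by
      rw [← Finset.sum_mul, div_h]
      ring
    simp only [this, ← Finset.mul_sum, S1_nu_g, mul_zero]
  have e3 : ∑ i, ∑ j, s.h i j * ∑ k, X k * s.T k i j = ∑ k, X k * s.γ k := by
    simp only [γ, Finset.mul_sum]
    conv_rhs => rw [Finset.sum_comm]
    refine Finset.sum_congr rfl fun _ _ => ?_
    conv_rhs => rw [Finset.sum_comm]
    exact Finset.sum_congr rfl fun _ _ => Finset.sum_congr rfl fun _ _ => by ring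
  simp only [Y_eq, map_sum, e, Finset.sum_add_distrib, Finset.sum_sub_distrib]
  rw [e2, e3, s.S1_kill2 fun i => ∑ k, s.hh k i * X k]
  simp only [← Finset.mul_sum (a := s.w X), c]
  ring
theorem S1_π_T (p : s.Pos X π) (i a b : Fin n) : ∑ k, π i k * s.T k a b = s.T i a b := by
  have e1 : ∀ l, ∑ k, π i k * s.h k l = s.h i l := fun l => by
    rw [s.h_symm i l, ← s.π_h p i l]
    exact Finset.sum_congr rfl fun k _ => by rw [s.h_symm k l]
  have e2 : ∑ k, π i k * s.D a (s.h k b) = s.D a (s.h i b) := by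
    have e := congrArg (s.D a) (e1 b)
    simpa only [map_sum, s.mul, p.Dπ, zero_mul, add_zero] using e
  have e3 : ∑ k, π i k * s.hh k a = s.hh i a := by
    simp only [hh, Finset.mul_sum]
    rw [Finset.sum_comm]
    refine Finset.sum_congr rfl fun l _ => ?_
    rw [← e1 l, Finset.sum_mul]
    exact Finset.sum_congr rfl fun _ _ => by ring
  have e : ∀ k, π i k * s.T k a b = π i k * s.D a (s.h k b) + π i k * s.ν k * s.hh b a +
      s.ν b * (π i k * s.hh k a) := fun k => by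
    rw [s.T_symm₁ k a b]
    simp only [T]
    ring
  simp only [e, Finset.sum_add_distrib]
  rw [e2, ← Finset.sum_mul, p.fix, ← Finset.mul_sum, e3, s.T_symm₁ i a b]
  rfl
/-- `π` fixes `ν`, `h`, hence the first slot of `T` (use `T_symm₁`) -/
theorem π_γ (p : s.Pos X π) (i : Fin n) : ∑ k, π i k * s.γ k = s.γ i := by
  simp only [γ, Finset.mul_sum]
  rw [Finset.sum_comm]
  refine Finset.sum_congr rfl fun a _ => ?_
  rw [Finset.sum_comm]
  refine Finset.sum_congr rfl fun b _ => ?_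
  rw [← s.S1_π_T p i a b, Finset.sum_mul]
  exact Finset.sum_congr rfl fun _ _ => by ring

end SA

end Pool.Agent.MP_5cfeaf_gt.W

end

section

/-! Block S, file 2: inequalities for real tensors. -/

set_option autoImplicit false

open MeasureTheory Set Filter Topology Metric
open scoped ENNReal symmDiff Classical InnerProductSpace ContDiff

namespace Pool.Agent.MP_5cfeaf_gt.W

variable {d : ℕ}

section
variable {n : ℕ} {h : Fin n → Fin n → ℝ} {T : Fin n → Fin n → Fin n → ℝ}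

theorem S2_cs2 (A B : Fin n → Fin n → ℝ) :
    (∑ i, ∑ j, A i j * B i j) ^ 2 ≤ (∑ i, ∑ j, A i j * A i j) * ∑ i, ∑ j, B i j * B i j := by
  have key := Finset.sum_mul_sq_le_sq_mul_sq (Finset.univ : Finset (Fin n × Fin n))
    (fun p => A p.1 p.2) (fun p => B p.1 p.2)
  simpa only [Fintype.sum_prod_type, sq] using key

/-- the inner product of two tensors of order three -/
def S2_ip (A B : Fin n → Fin n → Fin n → ℝ) : ℝ := ∑ k, ∑ i, ∑ j, A k i j * B k i j

theorem S2_cs3 (A B : Fin n → Fin n → Fin n → ℝ) : S2_ip A B ^ 2 ≤ S2_ip A A * S2_ip B B := by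
  have key := Finset.sum_mul_sq_le_sq_mul_sq (Finset.univ : Finset (Fin n × Fin n × Fin n))
    (fun p => A p.1 p.2.1 p.2.2) (fun p => B p.1 p.2.1 p.2.2)
  simpa only [Fintype.sum_prod_type, sq, S2_ip] using key

theorem S2_sw12 (A B : Fin n → Fin n → Fin n → ℝ) :
    S2_ip A B = S2_ip (fun k i j => A i k j) (fun k i j => B i k j) := Finset.sum_comm

theorem S2_sw23 (A B : Fin n → Fin n → Fin n → ℝ) :
    S2_ip A B = S2_ip (fun k i j => A k j i) (fun k i j => B k j i) :=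
  Finset.sum_congr rfl fun _ _ => Finset.sum_comm

theorem S2_ip_congr {A B A' B' : Fin n → Fin n → Fin n → ℝ}
    (H : ∀ k i j, A k i j * B k i j = A' k i j * B' k i j) : S2_ip A B = S2_ip A' B' :=
  Finset.sum_congr rfl fun k _ => Finset.sum_congr rfl fun i _ =>
    Finset.sum_congr rfl fun j _ => H k i j

/-- pairing of a tensor with a product of a vector and a matrix -/
theorem S2_ip_vm (T : Fin n → Fin n → Fin n → ℝ) (x : Fin n → ℝ) (h : Fin n → Fin n → ℝ) :
    S2_ip T (fun k i j => x k * h i j) = ∑ k, x k * ∑ i, ∑ j, T k i j * h i j := by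
  simp only [S2_ip, Finset.mul_sum]
  exact Finset.sum_congr rfl fun k _ => Finset.sum_congr rfl fun i _ =>
    Finset.sum_congr rfl fun j _ => by ring

theorem S2_ip_vv (x : Fin n → ℝ) (h : Fin n → Fin n → ℝ) :
    S2_ip (fun k i j => x k * h i j) (fun k i j => x k * h i j) =
      (∑ k, x k ^ 2) * ∑ i, ∑ j, h i j * h i j := by
  rw [Finset.sum_mul]
  simp only [S2_ip, Finset.mul_sum]
  exact Finset.sum_congr rfl fun k _ => Finset.sum_congr rfl fun i _ =>
    Finset.sum_congr rfl fun j _ => by ring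

theorem S2_ip_cr (x y : Fin n → ℝ) (h : Fin n → Fin n → ℝ) :
    S2_ip (fun k i j => x i * h k j) (fun k i j => y j * h k i) =
      ∑ k, (∑ i, h k i * x i) * ∑ j, h k j * y j := by
  simp only [S2_ip, Finset.sum_mul_sum]
  exact Finset.sum_congr rfl fun k _ => Finset.sum_congr rfl fun i _ =>
    Finset.sum_congr rfl fun j _ => by ring

theorem S2_ip_three (B C D : Fin n → Fin n → Fin n → ℝ) :
    S2_ip (fun k i j => B k i j + C k i j + D k i j) (fun k i j => B k i j + C k i j + D k i j) =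
      S2_ip B B + S2_ip C C + S2_ip D D + 2 * S2_ip B C + 2 * S2_ip B D + 2 * S2_ip C D := by
  simp only [S2_ip, Finset.mul_sum, ← Finset.sum_add_distrib]
  exact Finset.sum_congr rfl fun k _ => Finset.sum_congr rfl fun i _ =>
    Finset.sum_congr rfl fun j _ => by ring

theorem S2_ip_add (A B C D : Fin n → Fin n → Fin n → ℝ) :
    S2_ip A (fun k i j => B k i j + C k i j + D k i j) = S2_ip A B + S2_ip A C + S2_ip A D := by
  simp only [S2_ip, ← Finset.sum_add_distrib]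
  exact Finset.sum_congr rfl fun k _ => Finset.sum_congr rfl fun i _ =>
    Finset.sum_congr rfl fun j _ => by ring

theorem S2_ip_four (A B C D : Fin n → Fin n → Fin n → ℝ) (a r : ℝ) :
    0 ≤ S2_ip A A + a ^ 2 * S2_ip B B + r ^ 2 * S2_ip C C + r ^ 2 * S2_ip D D +
      (-2 * a) * S2_ip A B + (2 * r) * S2_ip A C + (2 * r) * S2_ip A D +
      (-2 * a * r) * S2_ip B C + (-2 * a * r) * S2_ip B D + (2 * r ^ 2) * S2_ip C D := by
  have h0 : 0 ≤ ∑ k, ∑ i, ∑ j, (A k i j - a * B k i j + r * C k i j + r * D k i j) ^ 2 :=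
    Finset.sum_nonneg fun _ _ => Finset.sum_nonneg fun _ _ => Finset.sum_nonneg fun _ _ =>
      sq_nonneg _
  refine h0.trans_eq ?_
  simp only [S2_ip, Finset.mul_sum, ← Finset.sum_add_distrib]
  exact Finset.sum_congr rfl fun k _ => Finset.sum_congr rfl fun i _ =>
    Finset.sum_congr rfl fun j _ => by ring

theorem S2_c_nonneg (h : Fin n → Fin n → ℝ) : 0 ≤ ∑ i, ∑ j, h i j * h i j :=
  Finset.sum_nonneg fun _ _ => Finset.sum_nonneg fun _ _ => mul_self_nonneg _

theorem S2_sq_nonneg (v : Fin n → ℝ) : 0 ≤ ∑ i, v i ^ 2 :=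
  Finset.sum_nonneg fun _ _ => sq_nonneg _

theorem S2_hv' (h : Fin n → Fin n → ℝ) (v : Fin n → ℝ) :
    ∑ i, (∑ j, h i j * v j) ^ 2 ≤ (∑ i, ∑ j, h i j * h i j) * ∑ j, v j ^ 2 := by
  rw [Finset.sum_mul]
  refine Finset.sum_le_sum fun i _ => ?_
  have key := Finset.sum_mul_sq_le_sq_mul_sq (Finset.univ : Finset (Fin n)) (h i) v
  simpa only [sq] using key


/-- `u = h v`; `|u|^2 = <h, S>` with `S = (v u^T + u v^T)/2 - (u.v)/n * 1` (trace free part),
`|S|^2 = (|u|^2 |v|^2 + (u.v)^2)/2 - (u.v)^2/n ≤ (1 - 1/n) |u|^2 |v|^2`; Cauchy-Schwarz. -/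
theorem S2_op (hn : 2 ≤ n) (hs : ∀ i j, h i j = h j i) (ht : ∑ i, h i i = 0) (v : Fin n → ℝ) :
    ∑ i, (∑ j, h i j * v j) ^ 2 ≤ (1 - 1 / (n : ℝ)) * ((∑ i, ∑ j, h i j * h i j) * ∑ j, v j ^ 2) := by
  set u : Fin n → ℝ := fun i => ∑ j, h i j * v j with hu
  set U := ∑ i, u i ^ 2 with hU
  set V := ∑ i, v i ^ 2 with hV
  set P := ∑ i, u i * v i with hP
  set c := ∑ i, ∑ j, h i j * h i j with hc
  have hn' : (2 : ℝ) ≤ n := by exact_mod_cast hn
  have hn0 : (0 : ℝ) < n := by linarith only [hn']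
  have hU0 : 0 ≤ U := S2_sq_nonneg u
  have hV0 : 0 ≤ V := S2_sq_nonneg v
  have hc0 : 0 ≤ c := S2_c_nonneg h
  have hPP : P ^ 2 ≤ U * V := Finset.sum_mul_sq_le_sq_mul_sq Finset.univ u v
  set m := P / n with hm
  have e1 : ∑ i, ∑ j, h i j * (u i * v j) = U := by
    refine Finset.sum_congr rfl fun i _ => ?_
    rw [sq]
    nth_rewrite 3 [hu]
    simp only [Finset.mul_sum]
    exact Finset.sum_congr rfl fun j _ => by ring
  have e2 : ∑ i, ∑ j, h i j * (v i * u j) = U := by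
    rw [Finset.sum_comm, ← e1]
    exact Finset.sum_congr rfl fun i _ => Finset.sum_congr rfl fun j _ => by rw [hs j i]; ring
  have e3 : ∑ i, ∑ j, h i j * ((v i * u j + u i * v j) / 2 - if i = j then m else 0) = U := by
    have : ∀ i, ∑ j, h i j * ((v i * u j + u i * v j) / 2 - if i = j then m else 0) =
        (∑ j, h i j * (v i * u j)) / 2 + (∑ j, h i j * (u i * v j)) / 2 - h i i * m := by
      intro i
      have h0 : h i i * m = ∑ j, h i j * (if i = j then m else 0) := by simp only [mul_ite, mul_zero, Finset.sum_ite_eq, Finset.mem_univ, ↓ reduceIte]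
      rw [h0, Finset.sum_div, Finset.sum_div, ← Finset.sum_add_distrib, ← Finset.sum_sub_distrib]
      exact Finset.sum_congr rfl fun j _ => by ring
    simp only [this, Finset.sum_sub_distrib, Finset.sum_add_distrib, ← Finset.sum_div, e1, e2,
      ← Finset.sum_mul, ht]
    ring
  have e4 : ∑ i, ∑ j, ((v i * u j + u i * v j) / 2 - if i = j then m else 0) *
      ((v i * u j + u i * v j) / 2 - if i = j then m else 0) =
      (U * V + P ^ 2) / 2 - 2 * m * P + n * m ^ 2 := by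
    have : ∀ i, ∑ j, ((v i * u j + u i * v j) / 2 - if i = j then m else 0) *
        ((v i * u j + u i * v j) / 2 - if i = j then m else 0) =
        v i ^ 2 * (U / 4) + u i ^ 2 * (V / 4) + u i * v i * (P / 2) - u i * v i * (2 * m) +
          m ^ 2 := by
      intro i
      have h0 : u i * v i * (2 * m) =
          ∑ j, (v i * u j + u i * v j) * (if i = j then m else 0) := by
        simp only [mul_ite, mul_zero, Finset.sum_ite_eq, Finset.mem_univ, ↓ reduceIte]; ring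
      have h1 : m ^ 2 = ∑ j, (if i = j then m else 0) * (if i = j then m else 0) := by
        simp only [sq, mul_ite, ite_mul, zero_mul, mul_zero, Finset.sum_ite_eq, Finset.mem_univ, ↓ reduceIte]
      rw [h0, h1, hU, hV, hP]
      simp only [Finset.sum_div, Finset.mul_sum, ← Finset.sum_add_distrib,
        ← Finset.sum_sub_distrib]
      exact Finset.sum_congr rfl fun j _ => by ring
    simp only [this, Finset.sum_sub_distrib, Finset.sum_add_distrib, ← Finset.sum_mul,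
      Finset.sum_const, Finset.card_univ, Fintype.card_fin, nsmul_eq_mul, ← hU, ← hV, ← hP]
    ring
  have key := S2_cs2 h fun i j => (v i * u j + u i * v j) / 2 - if i = j then m else 0
  rw [e3, e4, ← hc] at key
  have e5 : (U * V + P ^ 2) / 2 - 2 * m * P + n * m ^ 2 =
      U * V / 2 + (1 / 2 - 1 / n) * P ^ 2 := by
    rw [hm]; field_simp; ring
  have hq : (0 : ℝ) ≤ 1 / 2 - 1 / n := by
    have := one_div_le_one_div_of_le (by norm_num : (0 : ℝ) < 2) hn'
    linarith only [this]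
  have e6 : U * V / 2 + (1 / 2 - 1 / n) * P ^ 2 ≤ U * ((1 - 1 / n) * V) := by
    have := mul_le_mul_of_nonneg_left hPP hq
    linarith only [this]
  rw [e5] at key
  have e7 : U * U ≤ U * ((1 - 1 / n) * (c * V)) := by
    have := mul_le_mul_of_nonneg_left e6 hc0
    calc U * U = U ^ 2 := (sq U).symm
      _ ≤ c * (U * ((1 - 1 / n) * V)) := key.trans this
      _ = _ := by ring
  rcases hU0.eq_or_lt with h0 | h0
  · rw [← h0]
    exact mul_nonneg (by linarith only [hq]) (mul_nonneg hc0 hV0)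
  · exact le_of_mul_le_mul_left e7 h0

/-- Kato.  `|γ|^2 = <T, Z>` with `Z k i j = (γ k * h i j + γ i * h k j + γ j * h k i)/3`,
`|Z|^2 = (|γ|^2 c + 2 |h γ|^2)/3`, `S2_op`, Cauchy-Schwarz. -/
theorem S2_kato (hn : 2 ≤ n) (hs : ∀ i j, h i j = h j i) (ht : ∑ i, h i i = 0)
    (h1 : ∀ k i j, T k i j = T i k j) (h2 : ∀ k i j, T k i j = T k j i) :
    ∑ k, (∑ i, ∑ j, T k i j * h i j) ^ 2 ≤ (1 - 2 / (3 * (n : ℝ))) *
      ((∑ i, ∑ j, h i j * h i j) * ∑ k, ∑ i, ∑ j, T k i j * T k i j) := by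
  set γ : Fin n → ℝ := fun k => ∑ i, ∑ j, T k i j * h i j with hγ
  set Γ := ∑ k, γ k ^ 2 with hΓ
  set c := ∑ i, ∑ j, h i j * h i j with hc
  set W := ∑ i, (∑ j, h i j * γ j) ^ 2 with hW
  have hn' : (2 : ℝ) ≤ n := by exact_mod_cast hn
  have hn0 : (0 : ℝ) < n := by linarith only [hn']
  have hΓ0 : 0 ≤ Γ := S2_sq_nonneg γ
  have hc0 : 0 ≤ c := S2_c_nonneg h
  have hτ0 : 0 ≤ S2_ip T T := Finset.sum_nonneg fun k _ => S2_c_nonneg (T k)
  have hop : W ≤ (1 - 1 / (n : ℝ)) * (c * Γ) := S2_op hn hs ht γ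
  have a1 : S2_ip T (fun k i j => γ k * h i j) = Γ := by
    rw [S2_ip_vm]
    exact Finset.sum_congr rfl fun k _ => (sq _).symm
  have a2 : S2_ip T (fun k i j => γ i * h k j) = Γ := by
    rw [S2_sw12, ← a1]
    exact S2_ip_congr fun k i j => by rw [h1 i k j]
  have a3 : S2_ip T (fun k i j => γ j * h k i) = Γ := by
    rw [S2_sw23, ← a2]
    exact S2_ip_congr fun k i j => by rw [h2 k j i]
  have b1 : S2_ip (fun k i j => γ k * h i j) (fun k i j => γ k * h i j) = Γ * c := S2_ip_vv γ h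
  have b2 : S2_ip (fun k i j => γ i * h k j) (fun k i j => γ i * h k j) = Γ * c := by
    rw [S2_sw12]; exact b1
  have b3 : S2_ip (fun k i j => γ j * h k i) (fun k i j => γ j * h k i) = Γ * c := by
    rw [S2_sw23]; exact b2
  have c3 : S2_ip (fun k i j => γ i * h k j) (fun k i j => γ j * h k i) = W := by
    rw [S2_ip_cr]
    exact Finset.sum_congr rfl fun k _ => (sq _).symm
  have c2 : S2_ip (fun k i j => γ k * h i j) (fun k i j => γ j * h k i) = W := by
    rw [S2_sw12, ← c3]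
    exact S2_ip_congr fun k i j => by rw [hs i k]
  have c1 : S2_ip (fun k i j => γ k * h i j) (fun k i j => γ i * h k j) = W := by
    rw [S2_sw23, ← c2]
    exact S2_ip_congr fun k i j => by rw [hs j i]
  have key := S2_cs3 T fun k i j => γ k * h i j + γ i * h k j + γ j * h k i
  rw [S2_ip_add, S2_ip_three, a1, a2, a3, b1, b2, b3, c1, c2, c3] at key
  have e1 : Γ * c + Γ * c + Γ * c + 2 * W + 2 * W + 2 * W ≤
      9 * (Γ * ((1 - 2 / (3 * (n : ℝ))) * c)) := by
    have : (1 - 2 / (3 * (n : ℝ))) = 1 / 3 + 2 / 3 * (1 - 1 / n) := by field_simp; ring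
    rw [this]
    linarith only [hop]
  have e2 : Γ * Γ ≤ Γ * ((1 - 2 / (3 * (n : ℝ))) * (c * S2_ip T T)) := by
    have := key.trans (mul_le_mul_of_nonneg_left e1 hτ0)
    linarith only [this]
  have hq : (0 : ℝ) ≤ 1 - 2 / (3 * (n : ℝ)) := by
    rw [sub_nonneg, div_le_one (by linarith only [hn'])]
    linarith only [hn']
  rcases hΓ0.eq_or_lt with h0 | h0
  · rw [← h0]
    exact mul_nonneg hq (mul_nonneg hc0 hτ0)
  · exact le_of_mul_le_mul_left e2 h0

/-- dual bound.  `a = 1/(c+ε)`, `T' k i j = T k i j - a γ k h i j`, `|T'|^2 ≤ τ - a |γ|^2` (as `a c ≤ 1`),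
`|T'|^2 ≥ 2 <T',Z> - |Z|^2` with `Z k i j = -(h k i X j + h k j X i)/ρ`:
`<T,Z> = -2 γ.X/ρ` (symmetry of `T`), `<h, Z k> = -2 (h g) k/ρ`, `|Z|^2 = 2 c/ρ + 2 |g|^2/ρ^2`,
`a |γ.(h g)| ≤ √τ |g|` (`|γ|^2 ≤ c τ`, `|h g|^2 ≤ c |g|^2`), `4 √τ |g|/ρ ≤ η τ + 4 |g|^2/(η ρ^2)`. -/
theorem S2_dual (hs : ∀ i j, h i j = h j i) (h1 : ∀ k i j, T k i j = T i k j)
    (h2 : ∀ k i j, T k i j = T k j i) (X : Fin n → ℝ) {c τ ρ G ε η : ℝ} {γ : Fin n → ℝ}
    (hc : c = ∑ i, ∑ j, h i j * h i j) (hτ : τ = ∑ k, ∑ i, ∑ j, T k i j * T k i j)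
    (hρ : ρ = ∑ i, X i ^ 2) (hG : G = ∑ i, (∑ j, h i j * X j) ^ 2)
    (hγ : ∀ k, γ k = ∑ i, ∑ j, T k i j * h i j) (hε : 0 < ε) (hη : 0 < η) (hρ0 : 0 < ρ) :
    -4 * (∑ k, X k * γ k) / ρ - 2 * c / ρ - η * τ - (2 + 4 / η) * G / ρ ^ 2 ≤
      τ - (∑ k, γ k ^ 2) / (c + ε) := by
  set Γ := ∑ k, γ k ^ 2 with hΓ
  set g : Fin n → ℝ := fun i => ∑ j, h i j * X j with hg
  set W := ∑ k, γ k * ∑ i, h k i * g i with hW
  set Y := ∑ k, X k * γ k with hY
  have hΓ0 : 0 ≤ Γ := S2_sq_nonneg γ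
  have hc0 : 0 ≤ c := hc ▸ S2_c_nonneg h
  have hτ0 : 0 ≤ τ := hτ ▸ Finset.sum_nonneg fun k _ => S2_c_nonneg (T k)
  have hG0 : 0 ≤ G := hG ▸ S2_sq_nonneg g
  have aa : S2_ip T T = τ := hτ.symm
  have bb : S2_ip (fun k i j => γ k * h i j) (fun k i j => γ k * h i j) = Γ * c := by
    rw [S2_ip_vv, hc]
  have x1 : S2_ip (fun k i j => X k * h i j) (fun k i j => X k * h i j) = ρ * c := by
    rw [S2_ip_vv, hc, hρ]
  have cc : S2_ip (fun k i j => X i * h k j) (fun k i j => X i * h k j) = ρ * c := by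
    rw [S2_sw12]; exact x1
  have dd : S2_ip (fun k i j => X j * h k i) (fun k i j => X j * h k i) = ρ * c := by
    rw [S2_sw23]; exact cc
  have ab : S2_ip T (fun k i j => γ k * h i j) = Γ := by
    rw [S2_ip_vm]
    exact Finset.sum_congr rfl fun k _ => by rw [← hγ k, sq]
  have x2 : S2_ip T (fun k i j => X k * h i j) = Y := by
    rw [S2_ip_vm]
    exact Finset.sum_congr rfl fun k _ => by rw [← hγ k]
  have ac : S2_ip T (fun k i j => X i * h k j) = Y := by
    rw [S2_sw12, ← x2]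
    exact S2_ip_congr fun k i j => by rw [h1 i k j]
  have ad : S2_ip T (fun k i j => X j * h k i) = Y := by
    rw [S2_sw23, ← ac]
    exact S2_ip_congr fun k i j => by rw [h2 k j i]
  have bd : S2_ip (fun k i j => γ k * h i j) (fun k i j => X j * h k i) = W := by
    simp only [S2_ip, hW, hg, Finset.mul_sum]
    exact Finset.sum_congr rfl fun k _ => Finset.sum_congr rfl fun i _ =>
      Finset.sum_congr rfl fun j _ => by ring
  have bc : S2_ip (fun k i j => γ k * h i j) (fun k i j => X i * h k j) = W := by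
    rw [S2_sw23, ← bd]
    exact S2_ip_congr fun k i j => by rw [hs j i]
  have cd : S2_ip (fun k i j => X i * h k j) (fun k i j => X j * h k i) = G := by
    rw [S2_ip_cr, hG]
    exact Finset.sum_congr rfl fun k _ => (sq _).symm
  have hce : 0 < c + ε := by linarith only [hε, hc0]
  set a := (c + ε)⁻¹ with ha
  set r := ρ⁻¹ with hr
  have ha0 : 0 < a := inv_pos.mpr hce
  have hr0 : 0 < r := inv_pos.mpr hρ0
  have hac : a * c ≤ 1 := by
    rw [ha, inv_mul_le_iff₀ hce]; linarith only [hε]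
  have hrρ : r * ρ = 1 := inv_mul_cancel₀ hρ0.ne'
  have key := S2_ip_four T (fun k i j => γ k * h i j) (fun k i j => X i * h k j)
    (fun k i j => X j * h k i) a r
  rw [aa, bb, cc, dd, ab, ac, ad, bc, bd, cd] at key
  have hΓτ : Γ ≤ c * τ := by
    rw [hτ, Finset.mul_sum]
    refine Finset.sum_le_sum fun k _ => ?_
    rw [hγ k, hc, mul_comm]
    exact S2_cs2 (T k) h
  have hW2 : W ^ 2 ≤ Γ * (c * G) := by
    refine (Finset.sum_mul_sq_le_sq_mul_sq Finset.univ γ fun k => ∑ i, h k i * g i).trans ?_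
    refine mul_le_mul_of_nonneg_left ?_ hΓ0
    rw [hc, hG]
    exact S2_hv' h g
  have hW3 : (a * W) ^ 2 ≤ τ * G := by
    have t1 : W ^ 2 ≤ c * τ * (c * G) :=
      hW2.trans (mul_le_mul_of_nonneg_right hΓτ (mul_nonneg hc0 hG0))
    have t2 : (a * c) ^ 2 ≤ 1 := pow_le_one₀ (mul_nonneg ha0.le hc0) hac
    calc (a * W) ^ 2 = a ^ 2 * W ^ 2 := by ring
      _ ≤ a ^ 2 * (c * τ * (c * G)) := mul_le_mul_of_nonneg_left t1 (sq_nonneg a)
      _ = (a * c) ^ 2 * (τ * G) := by ring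
      _ ≤ 1 * (τ * G) := mul_le_mul_of_nonneg_right t2 (mul_nonneg hτ0 hG0)
      _ = τ * G := one_mul _
  set e := η⁻¹ with he
  have he0 : 0 < e := inv_pos.mpr hη
  have heη : η * e = 1 := mul_inv_cancel₀ hη.ne'
  have hW4 : (4 * r * (a * W)) ^ 2 ≤ (η * τ + 4 * e * (G * r ^ 2)) ^ 2 := by
    calc (4 * r * (a * W)) ^ 2 = 16 * r ^ 2 * (a * W) ^ 2 := by ring
      _ ≤ 16 * r ^ 2 * (τ * G) := mul_le_mul_of_nonneg_left hW3 (by positivity)
      _ = 16 * r ^ 2 * (τ * G) * (η * e) := by rw [heη, mul_one]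
      _ = (η * τ + 4 * e * (G * r ^ 2)) ^ 2 - (η * τ - 4 * e * (G * r ^ 2)) ^ 2 := by ring
      _ ≤ _ := sub_le_self _ (sq_nonneg _)
  have hW5 := (abs_le_of_sq_le_sq' hW4 (by positivity)).1
  have t3 : a ^ 2 * (Γ * c) ≤ a * Γ := by
    calc a ^ 2 * (Γ * c) = (a * c) * (a * Γ) := by ring
      _ ≤ 1 * (a * Γ) := mul_le_mul_of_nonneg_right hac (mul_nonneg ha0.le hΓ0)
      _ = a * Γ := one_mul _
  have t4 : r ^ 2 * (ρ * c) = r * c := by
    calc r ^ 2 * (ρ * c) = (r * ρ) * (r * c) := by ring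
      _ = r * c := by rw [hrρ, one_mul]
  rw [t4] at key
  simp only [div_eq_mul_inv, ← inv_pow, ← ha, ← hr, ← he]
  linarith only [key, hW5, t3]

/-- Cauchy-Schwarz, row by row -/
theorem S2_hv (h : Fin n → Fin n → ℝ) (v : Fin n → ℝ) :
    ∑ i, (∑ j, h i j * v j) ^ 2 ≤ (∑ i, ∑ j, h i j * h i j) * ∑ j, v j ^ 2 := S2_hv' h v

/-- `(tr h^3)^2 ≤ c |h h|^2 ≤ c^3` -/
theorem S2_tr3 (h : Fin n → Fin n → ℝ) :
    (∑ i, ∑ j, h i j * ∑ k, h i k * h j k) ^ 2 ≤ (∑ i, ∑ j, h i j * h i j) ^ 3 := by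
  refine (S2_cs2 h fun i j => ∑ k, h i k * h j k).trans ?_
  have h1 : ∑ i, ∑ j, (∑ k, h i k * h j k) * ∑ k, h i k * h j k ≤
      (∑ i, ∑ j, h i j * h i j) * ∑ i, ∑ j, h i j * h i j := by
    rw [Finset.sum_mul_sum]
    refine Finset.sum_le_sum fun i _ => Finset.sum_le_sum fun j _ => ?_
    have key := Finset.sum_mul_sq_le_sq_mul_sq (Finset.univ : Finset (Fin n)) (h i) (h j)
    simpa only [sq] using key
  calc _ ≤ _ := mul_le_mul_of_nonneg_left h1 (S2_c_nonneg h)
    _ = _ := by ring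

end

end Pool.Agent.MP_5cfeaf_gt.W

end

section

/-! Block S, file 3: the ring of germs along the support is a model of SA. -/

set_option autoImplicit false

open MeasureTheory Set Filter Topology Metric
open scoped ENNReal symmDiff Classical InnerProductSpace ContDiff

namespace Pool.Agent.MP_5cfeaf_gt.W

variable {d : ℕ}

theorem S3_alg {ι : Type} [Fintype ι] (n g : ι → ℝ) (G N : ι → ι → ℝ) (hG : ∀ i j, G i j = G j i)
    (hN : ∀ i j, N i j = N j i) (h0 : ∀ i, ∑ k, N i k * n k = 0) (i j : ι) :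
    (G i j - ∑ l, n i * n l * G l j - ∑ k, (n j * n k * (G i k - ∑ l, n i * n l * G l k) +
      (n j * N i k + N i j * n k) * g k)) - (G j i - ∑ l, n j * n l * G l i -
        ∑ k, (n i * n k * (G j k - ∑ l, n j * n l * G l k) + (n i * N j k + N j i * n k) * g k)) =
      ∑ k, (n i * N j k - n j * N i k) * (g k - ∑ l, n k * n l * g l) := by
  have h1 : ∀ i j, G i j - ∑ l, n i * n l * G l j -
      ∑ k, (n j * n k * (G i k - ∑ l, n i * n l * G l k) + (n j * N i k + N i j * n k) * g k) =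
      G i j - n i * ∑ l, n l * G l j - n j * ∑ l, n l * G l i +
        n i * n j * ∑ k, n k * ∑ l, n l * G l k - n j * ∑ k, N i k * g k -
          N i j * ∑ k, n k * g k := fun i j => by
    have e : ∑ k, (n j * n k * (G i k - ∑ l, n i * n l * G l k) +
        (n j * N i k + N i j * n k) * g k) = ∑ k, (n j * (n k * G k i) -
          n i * n j * (n k * ∑ l, n l * G l k) + n j * (N i k * g k) + N i j * (n k * g k)) :=
      Finset.sum_congr rfl fun k _ => by
        simp only [mul_assoc, ← Finset.mul_sum, hG i k]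
        ring
    rw [e]
    simp only [Finset.sum_add_distrib, Finset.sum_sub_distrib, mul_assoc, ← Finset.mul_sum]
    ring
  have h2 : ∑ k, (n i * N j k - n j * N i k) * (g k - ∑ l, n k * n l * g l) =
      n i * ∑ k, N j k * g k - n j * ∑ k, N i k * g k -
        (n i * ∑ k, N j k * n k - n j * ∑ k, N i k * n k) * ∑ l, n l * g l := by
    simp only [mul_assoc, ← Finset.mul_sum]
    generalize ∑ l, n l * g l = b
    simp only [Finset.mul_sum, Finset.sum_mul, ← Finset.sum_sub_distrib]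
    exact Finset.sum_congr rfl fun k _ => by ring
  rw [h1, h1, h2, h0, h0, hG j i, hN j i]
  ring

theorem S3_sm_pd {g : R d → ℝ} (hg : ContDiff ℝ ∞ g) (k : Fin (d + 1)) : ContDiff ℝ ∞ (pd k g) :=
  (hg.fderiv_right (m := ∞) le_rfl).clm_apply contDiff_const

theorem S3_pd_symm {g : R d → ℝ} (hg : ContDiff ℝ ∞ g) (x : R d) (i j : Fin (d + 1)) :
    pd i (pd j g) x = pd j (pd i g) x := by
  have h := ((hg.fderiv_right (m := ∞) le_rfl).differentiable (by simp)) x
  have e : ∀ i j : Fin (d + 1), pd i (pd j g) x = fderiv ℝ (fderiv ℝ g) x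
      (EuclideanSpace.single i 1) (EuclideanSpace.single j 1) := fun i j => by
    unfold pd
    rw [fderiv_clm_apply h (differentiableAt_const _)]
    simp
  rw [e, e]
  exact (hg.contDiffAt.isSymmSndFDerivAt (by
    simpa using (WithTop.coe_le_coe.2 le_top : ((2 : ℕ∞) : WithTop ℕ∞) ≤ (⊤ : ℕ∞)))).eq _ _

theorem S3_sm_n {n : R d → R d} (hn : ContDiff ℝ ∞ n) (i : Fin (d + 1)) :
    ContDiff ℝ ∞ fun y => n y i :=
  (EuclideanSpace.proj (𝕜 := ℝ) i).contDiff.comp hn

theorem S3_unit {v : R d} (h : ‖v‖ = 1) : ∑ i, v i * v i = 1 := by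
  have := EuclideanSpace.real_norm_sq_eq v
  rw [h, one_pow] at this
  rw [this]
  exact Finset.sum_congr rfl fun i _ => (sq _).symm

theorem S3_lift {Q A : Type} [CommRing Q] [CommRing A] (π : Q →+* A) (hπ : Function.Surjective π)
    (D : Q →+ Q) (h : ∀ a, π a = 0 → π (D a) = 0) : ∃ D' : A →+ A, ∀ a, D' (π a) = π (D a) :=
  ⟨π.toAddMonoidHom.liftOfSurjective hπ ⟨π.toAddMonoidHom.comp D, h⟩, fun a =>
    π.toAddMonoidHom.liftOfRightInverse_comp_apply _ _ ⟨π.toAddMonoidHom.comp D, h⟩ a⟩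

/-- evaluation -/
def S3_ev (y : R d) : Sm d →+* ℝ := (Pi.evalRingHom _ y).comp (Sm d).subtype

/-- the tangential derivative on smooth functions -/
noncomputable def S3_D {P : PF d} (hP : SmP P) (i : Fin (d + 1)) : Sm d →+ Sm d :=
  AddMonoidHom.mk' (fun g => ⟨dl P i g.1, S0_sm_dl hP i g.2⟩) fun a b => Subtype.ext
    (funext fun y => S0_dl_add P i ((show ContDiff ℝ ∞ a.1 from a.2).differentiable (by simp) y)
      ((show ContDiff ℝ ∞ b.1 from b.2).differentiable (by simp) y))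

/-- functions vanishing on `M` near `x` -/
def S3_I (M : Set (R d)) (x : R d) : Ideal (Sm d) where
  carrier := {g | ∀ᶠ y in 𝓝 x, y ∈ M → S3_ev y g = 0}
  add_mem' := fun {a b} ha hb => (ha.and hb).mono fun y h hy => by
    rw [RingHom.map_add, h.1 hy, h.2 hy, add_zero]
  zero_mem' := Eventually.of_forall fun y _ => RingHom.map_zero _
  smul_mem' := fun c a ha => ha.mono fun y h hy => by
    rw [smul_eq_mul, RingHom.map_mul, h hy, mul_zero]

theorem S3_quot {M : Set (R d)} {x : R d} (hx : x ∈ M) :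
    ∃ (A : Type) (_ : CommRing A) (π : Sm d →+* A) (ev : A →+* ℝ), Function.Surjective π ∧
      (∀ g : Sm d, ev (π g) = g.1 x) ∧
      ∀ g g' : Sm d, π g = π g' ↔ ∀ᶠ y in 𝓝 x, y ∈ M → S3_ev y g = S3_ev y g' := by
  refine ⟨_, inferInstance, Ideal.Quotient.mk (S3_I M x),
    Ideal.Quotient.lift _ (S3_ev x) fun g hg => hg.self_of_nhds hx, Ideal.Quotient.mk_surjective,
    fun g => rfl, fun g g' => Ideal.Quotient.eq.trans ?_⟩
  change (∀ᶠ y in 𝓝 x, y ∈ M → S3_ev y (g - g') = 0) ↔ _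
  simp only [(S3_ev _).map_sub, sub_eq_zero]

/-- commutator of tangential derivatives.  With the local normal `n` of `Adapted.exists_normal`,
`dl P j g = pd j g - n j * ∑ k, n k * pd k g` on `M` near `x`; differentiate with `Adapted.dl_congr`,
`S0_dl_mul`, and use the symmetry of second derivatives of `g`, `∑ k, dl i (n k) * n k = 0`. -/
theorem S3_comm {M U : Set (R d)} {P : PF d} (h : Adapted M U P) {x : R d} (hx : x ∈ M ∩ U)
    {n : R d → R d} (hn : ContDiff ℝ ∞ n)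
    (hP : ∀ᶠ y in 𝓝 x, ‖n y‖ = 1 ∧ (y ∈ M → ∀ i j, P y i j = n y i * n y j))
    (hsym : ∀ i j, dl P i (fun z => n z j) x = dl P j (fun z => n z i) x)
    {g : R d → ℝ} (hg : ContDiff ℝ ∞ g) (i j : Fin (d + 1)) :
    dl P i (dl P j g) x - dl P j (dl P i g) x =
      ∑ k, (n x i * dl P j (fun y => n y k) x - n x j * dl P i (fun y => n y k) x) * dl P k g x := by
  have dn : ∀ k, DifferentiableAt ℝ (fun y => n y k) x := fun k =>
    (S3_sm_n hn k).differentiable (by simp) x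
  have dP : ∀ k l, DifferentiableAt ℝ (fun y => P y k l) x := fun k l =>
    (h.1 k l).differentiable (by simp) x
  have dg : ∀ k, DifferentiableAt ℝ (pd k g) x := fun k =>
    (S3_sm_pd hg k).differentiable (by simp) x
  have e0 := hP.self_of_nhds.2 hx.1
  have e1 : ∀ i j k, dl P i (fun y => P y j k) x =
      n x j * dl P i (fun y => n y k) x + dl P i (fun y => n y j) x * n x k := fun i j k => by
    rw [h.dl_congr hx (dP j k) ((dn j).mul (dn k)) (hP.mono fun y hy hM => hy.2 hM j k)]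
    exact S0_dl_mul P i (dn j) (dn k)
  have e2 : ∀ (f : R d → ℝ) i, dl P i f x = pd i f x - ∑ l, n x i * n x l * pd l f x :=
    fun f i => by simp only [dl, e0]
  have e3 : ∀ i j, dl P i (dl P j g) x = dl P i (pd j g) x -
      ∑ k, (P x j k * dl P i (pd k g) x + dl P i (fun y => P y j k) x * pd k g x) := fun i j => by
    have a1 := S0_dl_add P i (f := dl P j g) (g := fun y => ∑ k, P y j k * pd k g y)
      ((S0_sm_dl h.1 j hg).differentiable (by simp) x)
      (DifferentiableAt.fun_sum fun k _ => (dP j k).mul (dg k))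
    rw [S0_dl_sum P i _ fun k _ => (dP j k).fun_mul (dg k)] at a1
    simp only [S0_dl_mul P i (dP j _) (dg _)] at a1
    rw [← sub_eq_iff_eq_add] at a1
    rw [← a1]
    congr 2
    funext y
    simp only [dl, sub_add_cancel]
  have e4 : ∀ i, ∑ k, dl P i (fun y => n y k) x * n x k = 0 := fun i => by
    have a1 := S0_dl_congr P i (f := fun y => ∑ k, n y k * n y k) (g := fun _ => 1)
      (hP.mono fun y hy => S3_unit hy.1)
    rw [S0_dl_const, S0_dl_sum P i _ fun k _ => (dn k).fun_mul (dn k)] at a1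
    simp only [S0_dl_mul P i (dn _) (dn _), mul_comm (n x _), ← two_mul, ← Finset.mul_sum] at a1
    linarith
  rw [e3, e3]
  simp only [e0, e1, e2 (pd _ g), e2 g]
  exact S3_alg (fun k => n x k) (fun k => pd k g x) (fun k l => pd k (pd l g) x)
    (fun k l => dl P k (fun y => n y l) x) (S3_pd_symm hg x) hsym e4 i j

/-- `A` = quotient of `Sm d` by the ideal of functions vanishing on the support near `x`
(`∀ᶠ y in 𝓝 x, y ∈ M → g y = 0`); `dl P i` preserves the ideal (`Adapted.dl_congr` at all nearby points of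
`M ∩ U`, `eventually_eventually_nhds`); `ν i` = class of `fun y => n y i`; `min` from `Adapted.minimal`
(`∑ i, dl i (n i * n j) = (∑ i, dl i (n i)) * n j`, multiply by `n j` and sum). -/
theorem S3_model {W : Vf d} {U : Set (R d)} {P : PF d} (h : Adapted W.fst.support U P) (hU : IsOpen U)
    (hs : Stat W U) {x : R d} (hx : x ∈ W.fst.support ∩ U) :
    ∃ (A : Type) (_ : CommRing A) (s : SA A (d + 1)) (π : Sm d →+* A) (ev : A →+* ℝ),
      (∀ g : Sm d, ev (π g) = g.1 x) ∧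
      (∀ i (g : Sm d), s.D i (π g) = π ⟨dl P i g.1, S0_sm_dl h.1 i g.2⟩) ∧
      (∀ i j, π ⟨fun y => P y i j, h.1 i j⟩ = s.ν i * s.ν j) ∧
      ∀ g g' : Sm d, (∀ᶠ y in 𝓝 x, y ∈ W.fst.support → g.1 y = g'.1 y) → π g = π g' := by
  obtain ⟨n, hn, hP⟩ := h.exists_normal hU hx
  have hxU : ∀ᶠ y in 𝓝 x, y ∈ U := hU.mem_nhds hx.2
  have df : ∀ (g : Sm d) y, DifferentiableAt ℝ g.1 y := fun g y =>
    (show ContDiff ℝ ∞ g.1 from g.2).differentiable (by simp) y
  obtain ⟨A, _, π, ev, sj, hev, key'⟩ := S3_quot hx.1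
  have key := fun g g' => (key' g g').2
  have hD := fun i => S3_lift π sj (S3_D h.1 i) fun a ha => by
    have h1 := ((key' _ _).1 (ha.trans π.map_zero.symm)).eventually_nhds
    refine (key _ 0 ?_).trans π.map_zero
    filter_upwards [h1, hxU] with y h1 hy hM
    exact (h.dl_congr ⟨hM, hy⟩ (df a y) (differentiableAt_const 0) h1 i).trans (S0_dl_const P i 0 y)
  choose D hD using hD
  let ν : Fin (d + 1) → Sm d := fun i => ⟨fun y => n y i, S3_sm_n hn i⟩
  have a1 : ∀ i a b, D i (a * b) = a * D i b + D i a * b := fun i a b => by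
    obtain ⟨a, rfl⟩ := sj a
    obtain ⟨b, rfl⟩ := sj b
    rw [← π.map_mul, hD, hD, hD, ← π.map_mul, ← π.map_mul, ← π.map_add]
    exact congrArg π (Subtype.ext (funext fun y => S0_dl_mul P i (df a y) (df b y)))
  have a2 : ∑ i, π (ν i) * π (ν i) = 1 := by
    simp only [← π.map_mul, ← map_sum π]
    refine (key _ 1 (hP.mono fun y hy _ => ?_)).trans π.map_one
    simp only [map_sum (S3_ev y), RingHom.map_mul, RingHom.map_one]
    exact S3_unit hy.1
  have a3 : ∀ a, ∑ i, π (ν i) * D i a = 0 := fun a => by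
    obtain ⟨a, rfl⟩ := sj a
    simp only [hD, ← π.map_mul, ← map_sum π]
    refine (key _ 0 (hP.mono fun y hy hM => ?_)).trans π.map_zero
    simp only [map_sum (S3_ev y), RingHom.map_mul, RingHom.map_zero]
    change ∑ i, n y i * dl P i a.1 y = 0
    simp only [dl, (hy.2 hM).1, mul_sub, mul_assoc, ← Finset.mul_sum, Finset.sum_sub_distrib]
    simp only [← mul_assoc, ← Finset.sum_mul, S3_unit hy.1, one_mul, sub_self]
  have a4 : ∀ i j, π ⟨fun y => P y i j, h.1 i j⟩ = π (ν i) * π (ν j) := fun i j =>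
    (key _ (ν i * ν j) (hP.mono fun y hy hM => (hy.2 hM).1 i j)).trans (π.map_mul _ _)
  have a5 : ∑ i, D i (π (ν i)) = 0 := by
    have b1 : ∀ j, (∑ i, D i (π (ν i))) * π (ν j) = 0 := fun j => by
      have b2 : ∑ i, D i (π (ν i) * π (ν j)) = 0 := by
        simp only [← a4, hD, ← map_sum π]
        refine (key _ 0 (hxU.mono fun y hy hM => ?_)).trans π.map_zero
        simp only [map_sum (S3_ev y), RingHom.map_zero]
        exact h.minimal hU hs ⟨hM, hy⟩ j
      simpa only [a1, Finset.sum_add_distrib, a3, zero_add, ← Finset.sum_mul] using b2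
    rw [← mul_one (∑ i, D i (π (ν i))), ← a2, Finset.mul_sum]
    simp only [← mul_assoc, b1, zero_mul, Finset.sum_const_zero]
  refine ⟨A, inferInstance, ⟨D, fun i => π (ν i), a1, a2, a3, fun i j => ?_, a5, fun i j a => ?_⟩,
    π, ev, hev, hD, a4, key⟩
  · rw [hD, hD]
    exact key _ _ (hP.mono fun y hy hM => (hy.2 hM).2 i j)
  · obtain ⟨a, rfl⟩ := sj a
    simp only [hD, ← π.map_mul, ← π.map_sub, ← map_sum π]
    refine key _ _ ?_
    filter_upwards [hP.eventually_nhds, hxU] with y h1 hy hM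
    simp only [map_sum (S3_ev y), RingHom.map_mul, RingHom.map_sub]
    exact S3_comm h ⟨hM, hy⟩ hn (h1.mono fun z hz => ⟨hz.1, fun hzM => (hz.2 hzM).1⟩)
      (h1.self_of_nhds.2 hM).2 a.2 i j

end Pool.Agent.MP_5cfeaf_gt.W

end

section

/-! Block S, file 4: the pointwise facts. -/

set_option autoImplicit false

open MeasureTheory Set Filter Topology Metric
open scoped ENNReal symmDiff Classical InnerProductSpace ContDiff

namespace Pool.Agent.MP_5cfeaf_gt.W

variable {d : ℕ}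

/-- matrix of an orthogonal projection -/
noncomputable def S4_m (K : Submodule ℝ (R d)) (i j : Fin (d + 1)) : ℝ :=
  K.starProjection (EuclideanSpace.single i 1) j

theorem S4_coord (v : R d) (j : Fin (d + 1)) : v j = ⟪v, EuclideanSpace.single j 1⟫_ℝ := by
  simp [EuclideanSpace.inner_single_right]

theorem S4_m_symm (K : Submodule ℝ (R d)) (i j : Fin (d + 1)) : S4_m K i j = S4_m K j i := by
  rw [S4_m, S4_m, S4_coord, S4_coord (K.starProjection _), K.inner_starProjection_left_eq_right,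
    real_inner_comm]

theorem S4_m_apply (K : Submodule ℝ (R d)) (v : R d) (i : Fin (d + 1)) :
    ∑ j, v j * S4_m K i j = K.starProjection v i := by
  rw [S4_coord (K.starProjection v), K.inner_starProjection_left_eq_right, H_inner]
  rfl

theorem S4_m_tr (K : Submodule ℝ (R d)) : ∑ i, S4_m K i i = Module.finrank ℝ K := by
  have h : LinearMap.IsProj K (K.starProjection : R d →ₗ[ℝ] R d) :=
    ⟨fun x => K.starProjection_apply_mem x, fun x hx => K.starProjection_eq_self_iff.2 hx⟩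
  rw [← h.trace, LinearMap.trace_eq_sum_inner _ (EuclideanSpace.basisFun (Fin (d + 1)) ℝ)]
  refine Finset.sum_congr rfl fun i _ => ?_
  rw [S4_m, S4_coord, real_inner_comm]
  simp

theorem S4_dl (P : PF d) (K : Submodule ℝ (R d)) (i j : Fin (d + 1)) (x : R d) :
    dl P i (fun y => K.starProjection y j) x = S4_m K i j - ∑ k, P x i k * S4_m K k j :=
  S0_dl_lin P i K.starProjection j x

theorem S4_dl_sq (P : PF d) (K : Submodule ℝ (R d)) (i : Fin (d + 1)) (x : R d) :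
    dl P i (fun y => ∑ j, K.starProjection y j ^ 2) x =
      2 * (K.starProjection x i - ∑ k, P x i k * K.starProjection x k) := by
  have h1 : ∀ j, DifferentiableAt ℝ (fun y => K.starProjection y j) x := fun j =>
    H_diff (S0_sm_Zf K j) x
  have h2 : ∀ k, ∑ j, K.starProjection x j * S4_m K k j = K.starProjection x k := fun k => by
    rw [S4_m_apply, K.starProjection_eq_self_iff.2 (K.starProjection_apply_mem x)]
  rw [dl_sum _ fun j _ => (h1 j).fun_pow 2]
  simp only [sq, dl_mul (h1 _) (h1 _), S4_dl]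
  have h3 : ∀ j, (S4_m K i j - ∑ k, P x i k * S4_m K k j) * K.starProjection x j +
      K.starProjection x j * (S4_m K i j - ∑ k, P x i k * S4_m K k j) =
      2 * (K.starProjection x j * S4_m K i j - ∑ k, P x i k * (K.starProjection x j * S4_m K k j)) :=
    fun j => by
      simp only [mul_left_comm _ (K.starProjection x j), ← Finset.mul_sum]
      ring
  simp only [h3, ← Finset.mul_sum, Finset.sum_sub_distrib, h2]
  rw [Finset.sum_comm]
  simp only [← Finset.mul_sum, h2]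

/-- linear algebra at one point: `P x = n n^T`, `n ⟂ L`; `S0_dl_lin` gives
`dl i (Xf j) = π i j - n i n j`, `dl i (Zf j) = δ i j - π i j` with `π` the matrix of `Lᗮ.starProjection`;
the trace of `L.starProjection` is `finrank L`. -/
theorem S4_ptG {M U : Set (R d)} {P : PF d} (h : Adapted M U P) {L : Submodule ℝ (R d)}
    (hL : Tang M U P L) {x : R d} (hx : x ∈ M ∩ U) : PtG P L x := by
  obtain ⟨n, hn, hP⟩ := h.normal hx
  have hn2 : ∑ i, n i * n i = 1 := by simpa only [sq] using H_normsq.1 hn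
  have h0 : ∀ e ∈ L, ∑ j, n j * e j = 0 := fun e he => by
    have h1 : ∑ i, n i * ∑ j, P x i j * e j = 0 := by simp only [hL x hx e he, mul_zero, Finset.sum_const_zero]
    simp only [hP, mul_assoc, ← Finset.mul_sum] at h1
    simpa only [← mul_assoc, ← Finset.sum_mul, hn2, one_mul] using h1
  have hnL : n ∈ Lᗮ := (L.mem_orthogonal' n).2 fun e he => by rw [H_inner, h0 e he]
  have hz : ∑ j, n j * Zf L j x = 0 := h0 _ (L.starProjection_apply_mem x)
  have hxz : ∑ i, Xf L i x * Zf L i x = 0 := by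
    have := (L.mem_orthogonal' _).1 (Lᗮ.starProjection_apply_mem x) _ (L.starProjection_apply_mem x)
    rwa [H_inner] at this
  set w := ∑ j, n j * Xf L j x with hw
  have hw2 : w2 P L x = w ^ 2 := by
    rw [w2, hw, sq, Finset.sum_mul_sum]
    exact Finset.sum_congr rfl fun i _ => Finset.sum_congr rfl fun j _ => by rw [hP]; ring
  have hr : ∀ i, dl P i (rh L) x = 2 * (Xf L i x - n i * w) := fun i => by
    refine (S4_dl_sq P Lᗮ i x).trans ?_
    simp only [hP, mul_assoc, ← Finset.mul_sum]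
    rfl
  have hs : ∀ i, dl P i (sg L) x = 2 * Zf L i x := fun i => by
    refine (S4_dl_sq P L i x).trans ?_
    simp only [hP, mul_assoc, ← Finset.mul_sum]
    rw [show ∑ j, n j * L.starProjection x j = 0 from hz, mul_zero, sub_zero]
    rfl
  have hdiv : ∀ K : Submodule ℝ (R d), ∑ i, dl P i (fun y => K.starProjection y i) x =
      Module.finrank ℝ K - ∑ i, n i * K.starProjection n i := fun K => by
    simp only [S4_dl, Finset.sum_sub_distrib, S4_m_tr, hP, mul_assoc, ← Finset.mul_sum,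
      S4_m_symm K _ , S4_m_apply]
  have h5 : ∑ i, Xf L i x * (2 * (Xf L i x - n i * w)) = 2 * (rh L x - w ^ 2) := by
    have : ∀ i, Xf L i x * (2 * (Xf L i x - n i * w)) = 2 * (Xf L i x ^ 2 - w * (n i * Xf L i x)) :=
      fun i => by ring
    simp only [this, ← Finset.mul_sum, Finset.sum_sub_distrib, ← hw, rh, sq]
  have h6 : gs P (rh L) x = 4 * (rh L x - w ^ 2) := by
    have : ∀ i, (2 * (Xf L i x - n i * w)) ^ 2 =
        4 * (Xf L i x ^ 2 - 2 * w * (n i * Xf L i x) + w ^ 2 * (n i * n i)) := fun i => by ring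
    simp only [gs, hr, this, ← Finset.mul_sum, Finset.sum_add_distrib, Finset.sum_sub_distrib, ← hw, hn2]
    rw [rh]
    ring
  refine ⟨?_, ?_, ?_, ?_, hs, ?_, ?_, hxz, h.gs_le hx⟩
  · have := gs_nonneg P (rh L) x
    rw [hw2]
    linarith only [h6, this]
  · simp only [hr, h5, hw2]
  · rw [h6, hw2]
  · refine (hdiv Lᗮ).trans ?_
    have h7 := L.finrank_add_finrank_orthogonal
    rw [finrank_euclideanSpace, Fintype.card_fin] at h7
    have h8 : (Module.finrank ℝ L : ℝ) + Module.finrank ℝ Lᗮ = d + 1 := by exact_mod_cast h7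
    rw [Lᗮ.starProjection_eq_self_iff.2 hnL, hn2]
    linarith only [h8]
  · refine (hdiv L).trans ?_
    rw [h0 _ (L.starProjection_apply_mem n), sub_zero]
  · have : ∀ i, Zf L i x * (2 * (Xf L i x - n i * w)) =
        2 * (Xf L i x * Zf L i x) - 2 * w * (n i * Zf L i x) := fun i => by ring
    simp only [hr, this, Finset.sum_sub_distrib, ← Finset.mul_sum, hxz, hz, mul_zero, sub_zero]

/-- `g` is smooth and represents `a` -/
def S4_R {A : Type} [CommRing A] (φ : Sm d →+* A) (g : R d → ℝ) (a : A) : Prop :=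
  ∃ hg : ContDiff ℝ ∞ g, φ ⟨g, hg⟩ = a

section
variable {A : Type} [CommRing A] {φ : Sm d →+* A} {f g : R d → ℝ} {a b : A}

theorem S4_R.mul (h : S4_R φ f a) (h' : S4_R φ g b) : S4_R φ (fun y => f y * g y) (a * b) :=
  ⟨h.1.mul h'.1, by rw [← h.2, ← h'.2, ← map_mul]; rfl⟩

theorem S4_R.add (h : S4_R φ f a) (h' : S4_R φ g b) : S4_R φ (fun y => f y + g y) (a + b) :=
  ⟨h.1.add h'.1, by rw [← h.2, ← h'.2, ← map_add]; rfl⟩

theorem S4_R.sub (h : S4_R φ f a) (h' : S4_R φ g b) : S4_R φ (fun y => f y - g y) (a - b) :=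
  ⟨h.1.sub h'.1, by rw [← h.2, ← h'.2, ← map_sub]; rfl⟩

theorem S4_R.sum {ι : Type} (s : Finset ι) {F : ι → R d → ℝ} {c : ι → A} (h : ∀ i, S4_R φ (F i) (c i)) :
    S4_R φ (fun y => ∑ i ∈ s, F i y) (∑ i ∈ s, c i) := by
  induction s using Finset.induction_on with
  | empty => exact ⟨contDiff_const, map_zero φ⟩
  | insert i s hi ih => simpa only [Finset.sum_insert hi] using (h i).add ih

theorem S4_R.half (h : S4_R φ f (2 * a)) : S4_R φ (fun y => f y / 2) a := by
  have h0 : ContDiff ℝ ∞ fun _ : R d => (2 : ℝ)⁻¹ := contDiff_const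
  have h2 : φ ⟨_, h0⟩ + φ ⟨_, h0⟩ = 1 := by
    rw [← map_add, ← map_one φ]
    congr 1
    exact Subtype.ext (funext fun _ => by change (2 : ℝ)⁻¹ + 2⁻¹ = 1; norm_num)
  have h3 := h.mul (⟨h0, rfl⟩ : S4_R φ _ _)
  rw [show 2 * a * φ ⟨_, h0⟩ = a by linear_combination a * h2] at h3
  simpa only [div_eq_mul_inv] using h3

end

/-- transport to the model `S3_model`, apply `S1`, evaluate at `x`, apply `S2`. -/
theorem S4_ptF (hd : 1 ≤ d) {W : Vf d} {U : Set (R d)} {P : PF d} (h : Adapted W.fst.support U P)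
    (hU : IsOpen U) (hs : Stat W U) {L : Submodule ℝ (R d)} (hL : Tang W.fst.support U P L) {x : R d}
    (hx : x ∈ W.fst.support ∩ U) : PtF P L x := by
  obtain ⟨A, _, s, φ, ev, h1, h2, h3, h4⟩ := S3_model h hU hs hx
  have rE : ∀ {g a}, S4_R φ g a → g x = ev a := fun r => by rw [← r.2, h1]
  have rD : ∀ {g a} (i), S4_R φ g a → S4_R φ (dl P i g) (s.D i a) := fun i r =>
    ⟨S0_sm_dl h.1 i r.1, by rw [← r.2, h2]⟩
  have rP : ∀ i j, S4_R φ (fun y => P y i j) (s.ν i * s.ν j) := fun i j => ⟨_, h3 i j⟩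
  obtain ⟨X, rX⟩ : ∃ X : Fin (d + 1) → A, ∀ i, S4_R φ (Xf L i) (X i) :=
    ⟨_, fun i => ⟨S0_sm_Xf L i, rfl⟩⟩
  obtain ⟨π, rπ⟩ : ∃ π : Fin (d + 1) → Fin (d + 1) → A, ∀ i j, S4_R φ (fun _ => S4_m Lᗮ i j) (π i j) :=
    ⟨_, fun i j => ⟨contDiff_const, rfl⟩⟩
  have rU : ∀ {g a b}, S4_R φ g a → S4_R φ g b → a = b := fun r r' => r.2.symm.trans r'.2
  have hπs : ∀ i j, π i j = π j i := fun i j => rU (rπ i j) (by rw [S4_m_symm]; exact rπ j i)
  have hfix : ∀ i, ∑ j, π i j * s.ν j = s.ν i := fun i => by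
    have e1 : ∀ k, ∑ j, s.ν k * s.ν j * π i j = s.ν k * s.ν i := fun k => by
      have r1 := S4_R.sum Finset.univ fun j => (rP k j).mul (rπ i j)
      rw [← r1.2, ← (rP k i).2]
      refine h4 _ _ ?_
      filter_upwards [hU.mem_nhds hx.2] with y hy hy'
      have e2 := hL y ⟨hy', hy⟩ _ (L.starProjection_apply_mem (EuclideanSpace.single i 1)) k
      have e3 : ∀ j, S4_m Lᗮ i j = (if j = i then 1 else 0) -
          L.starProjection (EuclideanSpace.single i 1) j := fun j => by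
        simp [S4_m, Submodule.starProjection_orthogonal_val, PiLp.single_apply]
      change ∑ j, P y k j * S4_m Lᗮ i j = P y k i
      simp [e3, mul_sub, Finset.sum_sub_distrib, e2]
    have e4 : ∑ k, s.ν k * ∑ j, s.ν k * s.ν j * π i j = ∑ k, s.ν k * (s.ν k * s.ν i) := by
      simp only [e1]
    simp only [mul_assoc, ← Finset.mul_sum] at e4
    simp only [← mul_assoc, ← Finset.sum_mul, s.unit, one_mul] at e4
    simpa only [mul_comm] using e4
  have p : s.Pos X π := by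
    refine ⟨fun i j => ?_, fun k i j => ?_, hπs, hfix⟩
    · have r1 := (rπ i j).sub (S4_R.sum Finset.univ fun k => (rP i k).mul (rπ k j))
      have e1 : dl P i (Xf L j) = fun y => S4_m Lᗮ i j - ∑ k, P y i k * S4_m Lᗮ k j :=
        funext fun y => S4_dl P Lᗮ i j y
      rw [rU (rD i (rX j)) (e1 ▸ r1), ← hfix j, Finset.mul_sum]
      congr 1
      exact Finset.sum_congr rfl fun k _ => by rw [hπs k j]; ring
    · refine (rU (rD k (rπ i j)) ⟨S0_sm_dl h.1 k contDiff_const, ?_⟩)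
      rw [← map_zero φ]
      congr 1
      exact Subtype.ext (funext fun y => dl_const _ _)
  have rH : ∀ i j, S4_R φ (H2 P i j) (s.hh i j) := fun i j => S4_R.half (by
    rw [← s.DP_DP]
    exact S4_R.sum _ fun k => S4_R.sum _ fun l => (rD i (rP k l)).mul (rD j (rP k l)))
  have rc : S4_R φ (c2 P) s.c := by
    have e1 : c2 P = fun y => ∑ i, H2 P i i y := funext fun y => by
      simp only [c2, gs, H2, ← Finset.sum_div, sq]
      congr 1
      rw [eq_comm, Finset.sum_comm]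
      exact Finset.sum_congr rfl fun j _ => Finset.sum_comm
    rw [e1]
    exact S4_R.sum _ fun i => rH i i
  have rw2 : S4_R φ (w2 P L) (s.w X * s.w X) := by
    have r1 := S4_R.sum Finset.univ fun i => S4_R.sum Finset.univ fun j =>
      ((rP i j).mul (rX i)).mul (rX j)
    have e1 : s.w X * s.w X = ∑ i, ∑ j, s.ν i * s.ν j * X i * X j := by
      rw [SA.w, Finset.sum_mul_sum]
      exact Finset.sum_congr rfl fun i _ => Finset.sum_congr rfl fun j _ => by ring
    rw [e1]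
    exact r1
  have rY : ∀ i, S4_R φ (Yv P L i) (s.Y X i) := fun i => S4_R.sum _ fun j => (rH i j).mul (rX j)
  have rg : S4_R φ (g2 P L) (∑ i, s.g X i * s.g X i) := by
    rw [← s.X_Y]
    exact S4_R.sum _ fun i => (rX i).mul (rY i)
  -- real values
  set hr : Fin (d + 1) → Fin (d + 1) → ℝ := fun i j => ev (s.h i j) with hhr
  set Tr : Fin (d + 1) → Fin (d + 1) → Fin (d + 1) → ℝ := fun k i j => ev (s.T k i j) with hTr
  have a1 : ∀ i j, hr i j = hr j i := fun i j => congrArg ev (s.h_symm i j)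
  have a2 : ∑ i, hr i i = 0 := by simp only [hhr, ← map_sum, s.h_tr, map_zero]
  have a3 : ∀ k i j, Tr k i j = Tr i k j := fun k i j => congrArg ev (s.T_symm₁ k i j)
  have a4 : ∀ k i j, Tr k i j = Tr k j i := fun k i j => congrArg ev (s.T_symm₂ k i j)
  have vc : c2 P x = ∑ i, ∑ j, hr i j * hr i j := by simp only [rE rc, SA.c, map_sum, map_mul, hhr]
  have vγ : ∀ k, ev (s.γ k) = ∑ i, ∑ j, Tr k i j * hr i j := fun k => by
    simp only [SA.γ, map_sum, map_mul, hhr, hTr]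
  have vD : ∀ k, dl P k (c2 P) x = 2 * ev (s.γ k) := fun k => by
    rw [rE (rD k rc), s.D_c, map_mul, map_ofNat]
  have vt : tau P x = ∑ k, ∑ i, ∑ j, Tr k i j * Tr k i j := by
    have e1 : lap P (c2 P) x = ev (∑ k, s.D k (s.D k s.c)) :=
      rE (S4_R.sum _ fun k => rD k (rD k rc))
    rw [tau, e1, s.simons, rE rc]
    simp only [map_mul, map_sub, map_sum, map_ofNat, hTr]
    ring
  have vg : ∀ i, ev (s.g X i) = ∑ j, hr i j * Xf L j x := fun i => by
    simp only [SA.g, map_sum, map_mul, hhr, rE (rX _)]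
  have vG : g2 P L x = ∑ i, (∑ j, hr i j * Xf L j x) ^ 2 := by
    simp only [rE rg, map_sum, map_mul, vg, sq]
  have vs : gs P (c2 P) x = 4 * ∑ k, ev (s.γ k) ^ 2 := by
    simp only [gs, vD, mul_pow, ← Finset.mul_sum]
    norm_num
  have vX : Xc P L x = 2 * ∑ k, Xf L k x * ev (s.γ k) := by
    simp only [Xc, vD, Finset.mul_sum, mul_left_comm]
  have vw : w2 P L x = ev (s.w X) ^ 2 := by rw [rE rw2, map_mul, sq]
  have hc0 := c2_nonneg P x
  refine ⟨?_, ?_, fun ε η hε hη hρ => ?_, ?_, ?_, ?_, ?_, ?_, ?_, ?_⟩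
  · rw [vt]
    exact Finset.sum_nonneg fun _ _ => Finset.sum_nonneg fun _ _ => Finset.sum_nonneg fun _ _ =>
      mul_self_nonneg _
  · have := S2_kato (n := d + 1) (by omega) a1 a2 a3 a4
    simp only [← vγ, ← vc, ← vt, Nat.cast_add, Nat.cast_one] at this
    rw [vs]
    linarith only [this]
  · have := S2_dual a1 a3 a4 (fun i => Xf L i x) vc vt (ρ := rh L x) rfl vG vγ hε hη hρ
    rw [vs, vX, mul_div_mul_left _ _ four_ne_zero]
    linarith [show -2 * (2 * ∑ k, Xf L k x * ev (s.γ k)) / rh L x =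
      -4 * (∑ k, Xf L k x * ev (s.γ k)) / rh L x by ring]
  · rw [vw]
    exact sq_nonneg _
  · rw [vG]
    exact Finset.sum_nonneg fun _ _ => sq_nonneg _
  · have e1 : lap P (w2 P L) x = ev (∑ k, s.D k (s.D k (s.w X * s.w X))) :=
      rE (S4_R.sum _ fun k => rD k (rD k rw2))
    rw [e1, s.lap_ww p, rE rg, rE rc, rE rw2, map_mul, map_sub, map_mul, map_ofNat]
  · have e1 : ∀ i, dl P i (w2 P L) x = 2 * ev (s.w X) * ev (s.g X i) := fun i => by
      rw [rE (rD i rw2), s.mul, s.D_w p, map_add, map_mul, map_mul]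
      ring
    simp only [gs, e1, mul_pow, ← Finset.mul_sum, vw, vG, vg]
    norm_num only []
  · have e1 : ∑ i, dl P i (Yv P L i) x = ev (∑ i, s.D i (s.Y X i)) :=
      rE (S4_R.sum _ fun i => rD i (rY i))
    have e2 : ev (∑ i, ∑ j, s.h i j * s.hh i j) = ∑ i, ∑ j, hr i j * ∑ k, hr i k * hr j k := by
      simp only [SA.hh, map_sum, map_mul, hhr]
    have e3 : ev (∑ k, X k * s.γ k) = ∑ k, Xf L k x * ev (s.γ k) := by
      simp only [map_sum, map_mul, rE (rX _)]
    have e4 := S2_tr3 hr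
    rw [e1, s.div_Y p, map_sub, map_add, map_mul, e2, e3, ← rE rc, vX, vw]
    rw [← vc] at e4
    calc _ = ev (s.w X) ^ 2 * (∑ i, ∑ j, hr i j * ∑ k, hr i k * hr j k) ^ 2 := by ring
      _ ≤ _ := mul_le_mul_of_nonneg_left e4 (sq_nonneg _)
  · have e1 : ∀ i, Yv P L i x = ∑ k, hr i k * ev (s.g X k) := fun i => by
      simp only [rE (rY i), s.Y_eq, map_sum, map_mul, hhr]
    have := S2_hv hr fun k => ev (s.g X k)
    simp only [e1, vc, vG, ← vg]
    exact this
  · have e1 : ∀ i, ev (s.γ i) = ∑ k, S4_m Lᗮ i k * ev (s.γ k) := fun i => by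
      rw [← s.π_γ p i]
      simp only [map_sum, map_mul, ← rE (rπ _ _)]
    have e2 : ∀ k, ∑ i, Zf L i x * S4_m Lᗮ i k = 0 := fun k => by
      simp only [S4_m_symm Lᗮ _ k]
      refine (S4_m_apply Lᗮ (L.starProjection x) k).trans ?_
      rw [Submodule.starProjection_orthogonal_val,
        L.starProjection_eq_self_iff.2 (L.starProjection_apply_mem x), sub_self]
      rfl
    calc ∑ i, Zf L i x * dl P i (c2 P) x = ∑ i, ∑ k, Zf L i x * S4_m Lᗮ i k * (2 * ev (s.γ k)) :=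
          Finset.sum_congr rfl fun i _ => by
            rw [vD, e1, Finset.mul_sum, Finset.mul_sum]
            exact Finset.sum_congr rfl fun k _ => by ring
      _ = 0 := by
          rw [Finset.sum_comm]
          simp only [← Finset.sum_mul, e2, zero_mul, Finset.sum_const_zero]

end Pool.Agent.MP_5cfeaf_gt.W

end

section

/-! Block S, file 5: one-dimensional test functions. -/

set_option autoImplicit false

open MeasureTheory Set Filter Topology Metric
open scoped ENNReal symmDiff Classical InnerProductSpace ContDiff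

namespace Pool.Agent.MP_5cfeaf_gt.W

variable {d : ℕ}

theorem S5_pos (n : ℕ) (x : ℝ) :
    HasDerivAt (fun y : ℝ => max y 0 ^ (n + 2)) ((n + 2) * max x 0 ^ (n + 1)) x := by
  rcases lt_trichotomy x 0 with h | rfl | h
  · have h1 : (fun y : ℝ => max y 0 ^ (n + 2)) =ᶠ[𝓝 x] fun _ => 0 := by
      filter_upwards [Iio_mem_nhds h] with y hy
      simp only [max_eq_right (mem_Iio.1 hy).le, ne_eq, Nat.add_eq_zero_iff, OfNat.ofNat_ne_zero, and_false, not_false_eq_true, zero_pow]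
    simpa only [max_eq_right h.le, ne_eq, Nat.add_eq_zero_iff, one_ne_zero, and_false, not_false_eq_true, zero_pow, mul_zero] using (hasDerivAt_const x (0 : ℝ)).congr_of_eventuallyEq h1
  · rw [hasDerivAt_iff_isLittleO_nhds_zero]
    refine Asymptotics.IsBigO.trans_isLittleO (Asymptotics.IsBigO.of_bound' (.of_forall fun y => ?_))
      (Asymptotics.isLittleO_pow_id (show 1 < n + 2 by omega))
    simp only [zero_add, max_self, ne_eq, Nat.add_eq_zero_iff, OfNat.ofNat_ne_zero, and_false,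
      not_false_eq_true, zero_pow, sub_zero, one_ne_zero, mul_zero, smul_zero, norm_pow,
      Real.norm_eq_abs]
    refine pow_le_pow_left₀ (abs_nonneg _) ?_ _
    rw [abs_of_nonneg (le_max_right y 0)]
    exact max_le (le_abs_self y) (abs_nonneg y)
  · have h1 : (fun y : ℝ => max y 0 ^ (n + 2)) =ᶠ[𝓝 x] fun y => y ^ (n + 2) := by
      filter_upwards [Ioi_mem_nhds h] with y hy
      rw [max_eq_left (le_of_lt hy)]
    simpa only [max_eq_left h.le, Nat.cast_add, Nat.cast_ofNat, Nat.add_one_sub_one] using (hasDerivAt_pow (n + 2) x).congr_of_eventuallyEq h1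

theorem S5_der (n : ℕ) (Q t : ℝ) : HasDerivAt (fun t : ℝ => max (1 - t / Q) 0 ^ (n + 2))
    ((n + 2) * max (1 - t / Q) 0 ^ (n + 1) * (-(1 / Q))) t :=
  (S5_pos n (1 - t / Q)).comp (h := fun t => 1 - t / Q) t
    (((hasDerivAt_id' t).div_const Q).const_sub 1)

theorem S5_cd (n : ℕ) (Q : ℝ) : ContDiff ℝ 1 fun t : ℝ => max (1 - t / Q) 0 ^ (n + 2) := by
  refine contDiff_one_iff_deriv.2 ⟨fun t => (S5_der n Q t).differentiableAt, ?_⟩
  rw [funext fun t => (S5_der n Q t).deriv]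
  fun_prop

/-- cut-off along the spine: `4 t ψ'^2 ≤ κ ψ^2` up to a divergence.
`σ = t/R^2`, `ψ = a (1-σ)_+^2`, `ϑ = A (1-σ)_+^3 + B (1-σ)_+^4`, `6 A = 16 a^2/R^2`, `8 B = k A`;
for `σ ≤ 1` the inequality reduces to `(k+8) B ≤ κ a^2`; `a = 4`, `R^2 ≥ 2 T`. -/
theorem S5_spine {κ : ℝ} (hκ : 0 < κ) (T : ℝ) : ∃ R₁ : ℝ, 4 ≤ R₁ ∧ ∀ k : ℕ, k ≤ 6 →
    ∃ ψ ϑ : ℝ → ℝ, ContDiff ℝ 1 ψ ∧ ContDiff ℝ 1 ϑ ∧ (∀ t, R₁ ^ 2 ≤ t → ψ t = 0 ∧ ϑ t = 0) ∧
      (∀ t, 0 ≤ t → t ≤ T → 1 ≤ ψ t ^ 2) ∧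
      ∀ t, 0 ≤ t → 4 * t * deriv ψ t ^ 2 + k * ϑ t + 2 * t * deriv ϑ t ≤ κ * ψ t ^ 2 := by
  have h0 : 0 < 28 / κ := by positivity
  have h1 := abs_nonneg T
  refine ⟨4 + 28 / κ + 2 * |T|, by linarith, fun k hk => ?_⟩
  obtain ⟨Q, hQ⟩ : ∃ Q, Q = (4 + 28 / κ + 2 * |T|) ^ 2 := ⟨_, rfl⟩
  have h2 : 4 + 28 / κ + 2 * |T| ≤ Q := by nlinarith only [h0, h1, hQ]
  have h3 : 0 < Q := by linarith only [h0, h1, h2]
  have h4 : 28 / Q ≤ κ := by
    rw [div_le_iff₀ h3, mul_comm, ← div_le_iff₀ hκ]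
    linarith only [h1, h2]
  rw [← hQ]
  refine ⟨fun t => 4 * max (1 - t / Q) 0 ^ (0 + 2), fun t => 128 / 3 / Q * max (1 - t / Q) 0 ^ (1 + 2) +
    16 * k / 3 / Q * max (1 - t / Q) 0 ^ (2 + 2), contDiff_const.mul (S5_cd 0 Q),
    (contDiff_const.mul (S5_cd 1 Q)).add (contDiff_const.mul (S5_cd 2 Q)), fun t ht => ?_,
    fun t _ ht => ?_, fun t ht => ?_⟩
  · have : 1 - t / Q ≤ 0 := sub_nonpos.2 ((one_le_div h3).2 ht)
    simp only [max_eq_right this, zero_add, ne_eq, OfNat.ofNat_ne_zero, not_false_eq_true, zero_pow, mul_zero, Nat.reduceAdd, add_zero, and_self]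
  · have h5 : t / Q ≤ 1 / 2 := by
      rw [div_le_iff₀ h3]
      linarith only [le_abs_self T, h0, h2, ht]
    have h6 : 1 / 2 ≤ max (1 - t / Q) 0 := le_max_of_le_left (by linarith only [h5])
    exact one_le_pow₀ (by nlinarith only [h6])
  · rw [((S5_der 0 Q t).const_mul 4).deriv, (((S5_der 1 Q t).const_mul _).fun_add
      ((S5_der 2 Q t).const_mul _)).deriv]
    rcases le_total (1 - t / Q) 0 with h | h
    · simp only [CharP.cast_eq_zero, zero_add, max_eq_right h, pow_one, mul_zero, one_div, mul_neg, zero_mul, neg_zero, ne_eq, OfNat.ofNat_ne_zero, not_false_eq_true, zero_pow, Nat.reduceAdd, add_zero, Nat.cast_one, Nat.cast_ofNat, Std.le_refl]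
    · obtain ⟨u, hu⟩ : ∃ u, u = 1 - t / Q := ⟨_, rfl⟩
      have h5 : t = Q * (1 - u) := by
        rw [hu]
        field_simp
        ring
      have h6 : (k : ℝ) ≤ 6 := by exact_mod_cast hk
      have h7 : (0 : ℝ) ≤ k := Nat.cast_nonneg k
      have h8 : (k + 8) * k / 3 / Q ≤ κ := le_trans (by gcongr; nlinarith only [h6]) h4
      simp only [max_eq_left h]
      rw [← hu]
      refine le_trans (le_of_eq ?_) (mul_le_mul_of_nonneg_right h8 (sq_nonneg _))
      rw [h5]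
      field_simp
      ring

theorem S5_lift {F : ℝ → ℝ} {r : ℝ} (hF : ContDiff ℝ 1 F) (h0 : ∀ s, r ≤ |s| → F s = 0) :
    ∃ G : ℝ → ℝ, ContDiff ℝ 1 G ∧ (∀ t, t ≤ Real.exp (-r) ∨ Real.exp r ≤ t → G t = 0) ∧
      ∀ t, 0 < t → G t = F (Real.log t) ∧ deriv G t = deriv F (Real.log t) * t⁻¹ := by
  have h1 : ∀ t, t ≤ Real.exp (-r) ∨ Real.exp r ≤ t →
      (if 0 < t then F (Real.log t) else 0) = 0 := fun t ht => by
    split_ifs with h
    · refine h0 _ (le_abs.2 ?_)
      rcases ht with ht | ht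
      · exact .inr (le_neg.1 ((Real.log_le_iff_le_exp h).2 ht))
      · exact .inl ((Real.le_log_iff_exp_le h).2 ht)
    · rfl
  have h2 : ∀ t : ℝ, 0 < t → (fun t => if 0 < t then F (Real.log t) else 0) =ᶠ[𝓝 t]
      fun t => F (Real.log t) := fun t ht => by
    filter_upwards [Ioi_mem_nhds ht] with y hy
    exact if_pos hy
  refine ⟨fun t => if 0 < t then F (Real.log t) else 0, contDiff_iff_contDiffAt.2 fun t => ?_, h1,
    fun t ht => ⟨if_pos ht, ?_⟩⟩
  · rcases lt_or_ge 0 t with h | h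
    · exact (hF.contDiffAt.comp t (Real.contDiffAt_log.2 h.ne')).congr_of_eventuallyEq (h2 t h)
    · refine (contDiffAt_const (c := (0 : ℝ))).congr_of_eventuallyEq ?_
      filter_upwards [Iio_mem_nhds (h.trans_lt (Real.exp_pos (-r)))] with y hy
      exact h1 y (.inl (le_of_lt hy))
  · rw [(h2 t ht).deriv_eq]
    exact ((hF.differentiable one_ne_zero _).hasDerivAt.comp t (Real.hasDerivAt_log ht.ne')).deriv

/-- Hardy inequality up to a divergence.  Take `ψ, ϑ` from `S5_spine` with `κ = 1/8`, `k = 1`, `T = 36`;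
`s = log t`, `μ = (m-4)/4`, `η s = ψ (s^2)`, `φ t = a exp(-μ s) η s` (`a = exp 3`),
`θ t = a^2 exp(-2 μ s) (-4 μ (η s)^2 - 4 s ϑ (s^2))/t` for `t > 0`, both `0` for `t ≤ 0`; `ρ₀ = exp R₁`.
Then `t * (right side - (1-m/2) θ + t θ') = a^2 exp(-2 μ s) ((2 - 4 μ^2) η^2 - 4 (η'^2 + (s ϑ(s^2))'))
≥ φ^2/2`, so `κ = 1/(2 ρ₀^2)` works. -/
theorem S5_hardy : ∃ ρ₀ κ : ℝ, 16 ≤ ρ₀ ∧ 0 < κ ∧ ∀ m : ℕ, 2 ≤ m → m ≤ 6 →
    ∃ φ θ : ℝ → ℝ, ContDiff ℝ 1 φ ∧ ContDiff ℝ 1 θ ∧
      (∀ t, t ≤ (ρ₀ ^ 2)⁻¹ ∨ ρ₀ ^ 2 ≤ t → φ t = 0 ∧ θ t = 0) ∧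
      (∀ t, 256⁻¹ ≤ t → t ≤ 256 → 1 ≤ φ t ^ 2) ∧
      ∀ t, 0 < t → κ * φ t ^ 2 + (1 - (m : ℝ) / 2) * θ t - t * deriv θ t ≤
        2 * φ t ^ 2 / t - 4 * t * deriv φ t ^ 2 := by
  obtain ⟨r, hr, h⟩ := S5_spine (κ := 1 / 8) (by norm_num) 36
  obtain ⟨ψ, ϑ, hψ, hϑ, h0, h1, h2⟩ := h 1 (by norm_num)
  have he : (2.7 : ℝ) ≤ Real.exp 1 := by linarith [Real.exp_one_gt_d9]
  have he4 : 16 ≤ Real.exp r := by
    refine le_trans ?_ (Real.exp_le_exp.2 hr)
    rw [show (4 : ℝ) = (4 : ℕ) * 1 by norm_num, Real.exp_nat_mul]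
    exact le_trans (by norm_num) (pow_le_pow_left₀ (by norm_num) he 4)
  have he6 : 256 ≤ Real.exp 6 := by
    rw [show (6 : ℝ) = (6 : ℕ) * 1 by norm_num, Real.exp_nat_mul]
    exact le_trans (by norm_num) (pow_le_pow_left₀ (by norm_num) he 6)
  refine ⟨Real.exp r, 1 / (2 * Real.exp r), he4, by positivity, fun m hm2 hm6 => ?_⟩
  obtain ⟨μ, hμ⟩ : ∃ μ : ℝ, μ = (m - 4) / 4 := ⟨_, rfl⟩
  have hm2' : (2 : ℝ) ≤ m := by exact_mod_cast hm2
  have hm6' : (m : ℝ) ≤ 6 := by exact_mod_cast hm6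
  have h3 : ∀ s, r ≤ |s| → ψ (s ^ 2) = 0 ∧ ϑ (s ^ 2) = 0 := fun s hs =>
    h0 _ (by rw [← sq_abs s]; gcongr)
  obtain ⟨φ, hφ, hφ0, hφ1⟩ := S5_lift (F := fun s => Real.exp (3 - μ * s) * ψ (s ^ 2)) (r := r)
    (by fun_prop) fun s hs => by simp [h3 s hs]
  obtain ⟨θ, hθ, hθ0, hθ1⟩ := S5_lift (F := fun s => Real.exp (3 - μ * s) ^ 2 * Real.exp (-s) *
    (-4 * μ * ψ (s ^ 2) ^ 2 - 4 * (s * ϑ (s ^ 2)))) (r := r) (by fun_prop)
    fun s hs => by simp [h3 s hs]
  refine ⟨φ, θ, hφ, hθ, fun t ht => ?_, fun t ht ht' => ?_, fun t ht => ?_⟩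
  · have h4 : Real.exp r ≤ Real.exp r ^ 2 := by nlinarith only [he4]
    have h5 : t ≤ Real.exp (-r) ∨ Real.exp r ≤ t := ht.imp (fun h => h.trans (by
      rw [Real.exp_neg]; exact inv_anti₀ (Real.exp_pos r) h4)) h4.trans
    exact ⟨hφ0 t h5, hθ0 t h5⟩
  · have h4 : 0 < t := lt_of_lt_of_le (by norm_num) ht
    have h5 : Real.log t ≤ 6 := (Real.log_le_iff_le_exp h4).2 (ht'.trans he6)
    have h6 : -6 ≤ Real.log t := (Real.le_log_iff_exp_le h4).2 (by
      rw [Real.exp_neg]; exact (inv_anti₀ (by norm_num) he6).trans ht)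
    have h7 : -(1 / 2) ≤ μ := by linarith only [hμ, hm2']
    have h8 : μ ≤ 1 / 2 := by linarith only [hμ, hm6']
    rw [(hφ1 t h4).1, mul_pow]
    exact one_le_mul_of_one_le_of_one_le (one_le_pow₀ (Real.one_le_exp (by nlinarith only [hμ, hm2', hm6', h5, h6])))
      (h1 _ (sq_nonneg _) (by nlinarith only [h5, h6]))
  · obtain ⟨s, rfl⟩ : ∃ s, t = Real.exp s := ⟨_, (Real.exp_log ht).symm⟩
    have d0 : HasDerivAt (fun s : ℝ => s ^ 2) (2 * s) s := by simpa using hasDerivAt_pow 2 s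
    have d1 : HasDerivAt (fun s => ψ (s ^ 2)) (deriv ψ (s ^ 2) * (2 * s)) s :=
      (hψ.differentiable one_ne_zero _).hasDerivAt.comp s d0
    have d2 : HasDerivAt (fun s => ϑ (s ^ 2)) (deriv ϑ (s ^ 2) * (2 * s)) s :=
      (hϑ.differentiable one_ne_zero _).hasDerivAt.comp s d0
    have d3 := (((hasDerivAt_id' s).const_mul μ).const_sub 3).exp
    rw [(hφ1 _ ht).1, (hφ1 _ ht).2, (hθ1 _ ht).1, (hθ1 _ ht).2, Real.log_exp,
      (d3.fun_mul d1).deriv, (((d3.fun_pow 2).fun_mul (hasDerivAt_neg' s).exp).fun_mul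
        (((d1.fun_pow 2).const_mul (-4 * μ)).fun_sub
          (((hasDerivAt_id' s).fun_mul d2).const_mul 4))).deriv]
    have h4 := h2 (s ^ 2) (sq_nonneg s)
    have h5 : 1 / (2 * Real.exp r) * Real.exp s * ψ (s ^ 2) ^ 2 ≤ 1 / 2 * ψ (s ^ 2) ^ 2 := by
      rcases le_total r s with h | h
      · simp [h3 s (h.trans (le_abs_self s))]
      · gcongr
        rw [div_mul_eq_mul_div, div_le_div_iff₀ (by positivity) (by positivity)]
        linarith only [Real.exp_le_exp.2 h]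
    have h6 : μ ^ 2 * ψ (s ^ 2) ^ 2 ≤ 1 / 4 * ψ (s ^ 2) ^ 2 := by
      gcongr
      nlinarith only [hμ, hm2', hm6']
    have h7 : (m : ℝ) = 4 * μ + 4 := by linarith only [hμ]
    have h8 : 0 ≤ Real.exp (3 - μ * s) ^ 2 * (Real.exp s)⁻¹ *
        ((2 - 4 * μ ^ 2) * ψ (s ^ 2) ^ 2 - 1 / (2 * Real.exp r) * Real.exp s * ψ (s ^ 2) ^ 2 -
          4 * (4 * s ^ 2 * deriv ψ (s ^ 2) ^ 2 + ϑ (s ^ 2) + 2 * s ^ 2 * deriv ϑ (s ^ 2))) := by
      refine mul_nonneg (by positivity) ?_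
      push_cast at h4
      linarith
    rw [← sub_nonneg, h7, Real.exp_neg]
    convert h8 using 1
    field_simp
    ring

end Pool.Agent.MP_5cfeaf_gt.W

end
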