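import Pool.Agent.MP_5cfeaf_gt.PdeB
import Pool.Agent.MP_5cfeaf_gt.SimA

attribute [-instance] ProperSMul.toContinuousSMul TotallySeparatedSpace.t2Space
  AddQuantale.instAddLeftMono NonarchimedeanAddGroup.toIsTopologicalAddGroup
  AddGroupWithOne.toAddGroup RKHS.instFunLike MeasureTheory.instSFiniteOfCountable
  MeasureTheory.Measure.instRegularOfIsAddHaarMeasureOfCompactSpace Valued.toUniformSpace
  AlexandrovDiscrete.toLocallyCompactSpace AddQuantale.instAddRightMono IsScalarTower.complexToReal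
  NonUnitalNonAssocSemiring.toAddCommMonoid IsTopologicalTorsor.toContinuousSMul
  CoalgHomClass.toSemilinearMapClass continuousSub_of_discreteTopology
  CStarAlgebra.instOrderClosedTopology NumberField.to_charZero NonUnitalNonAssocSemiring.toDistrib
  CompactSpace.sigmaCompact IdemSemiring.toCanonicallyOrderedAdd littleWedderburn
  instCoeHTCTOfCoeTailOfCoeHTC Quantale.instMulRightMono NonUnitalNonAssocSemiring.toMulZeroClass
  NonUnitalAlgSemiHomClass.toDistribMulActionSemiHomClass IsTopologicalSemiring.toContinuousAdd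
  continuousSub_of_indiscreteTopology RingHomClass.toLinearMapClassRat
  RingHomClass.toLinearMapClassNNRat instCoeHTCOfCoeHeadOfCoeOTC
  IsValuativeTopology.instIsTopologicalAddGroup
  ContinuousMonoidHom.instCoeOutOfMonoidHomClassOfContinuousMapClass
  MonoidWithZeroHomClass.toZeroHomClass IsModuleTopology.instSubsingleton
  MulZeroOneClass.toMulZeroClass instCoeTCOfCoe Topology.IsScott.instClosedIicTopologyOfUnivSet
  IdemSemiring.toSemiring CStarAlgebra.toNormedRing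
  LinearOrderedCommMonoidWithZero.toPosMulStrictMono UpgradedStandardBorel.toTopologicalSpace
  AddCommMonoidWithOne.toAddCommMonoid BoundedContinuousMapClass.toContinuousMapClass

section

/-! Block I, file 0: definitions. -/

set_option autoImplicit false

open MeasureTheory Set Filter Topology Metric
open scoped ENNReal symmDiff Classical InnerProductSpace ContDiff

namespace Pool.Agent.MP_5cfeaf_gt.W

variable {d : ℕ}

/-- mollifier with the kernels of `exists_kernel` -/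
structure Ker (m : ℕ) where
  ρ : E m → ℝ
  Γ : ℝ → ℝ → E m → ℝ
  C : ℝ
  pos : 0 < C
  sm : ContDiff ℝ ∞ ρ
  nn : ∀ y, 0 ≤ ρ y
  supp : ∀ y, 1 ≤ ‖y‖ → ρ y = 0
  int : ∫ y, ρ y = 1
  gam : ∀ s r : ℝ, 0 < s → s ≤ r → ContDiff ℝ ∞ (Γ s r) ∧ (∀ y, r ≤ ‖y‖ → Γ s r y = 0) ∧
    (∀ y, dv (gradient (Γ s r)) y = (r ^ m)⁻¹ * ρ (r⁻¹ • y) - (s ^ m)⁻¹ * ρ (s⁻¹ • y)) ∧
    ∫ y, ‖gradient (Γ s r) y‖ ≤ C * r

theorem I0_ker {m : ℕ} (hm : 1 ≤ m) : Nonempty (Ker m) := by
  obtain ⟨ρ, Γ, C, h1, h2, h3, h4, -, h6, h7⟩ := exists_kernel m hm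
  exact ⟨⟨ρ, Γ, C, h1, h2, h3, h4, h6, fun s r hs hr =>
    ⟨(h7 s r hs hr).1, (h7 s r hs hr).2.1, (h7 s r hs hr).2.2.2.1, (h7 s r hs hr).2.2.2.2.2⟩⟩⟩

/-- rescaled mollifier -/
noncomputable def Ker.k {m : ℕ} (κ : Ker m) (s : ℝ) (y : E m) : ℝ := (s ^ m)⁻¹ * κ.ρ (s⁻¹ • y)

/-- mollified horizontal projection of a measure -/
noncomputable def Ker.av (κ : Ker d) (s : ℝ) (a : Measure (R d)) (y : E d) : ℝ :=
  ∫ x, κ.k s (y - pr x) ∂a

/-- mollified mass of the pairs (point of `b` above point of `a`) -/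
noncomputable def Ker.F (κ : Ker d) (s : ℝ) (H : ℝ → ℝ) (a b : Measure (R d)) (y : E d) : ℝ :=
  ∫ x', κ.k s (y - pr x') * ∫ x, κ.k s (y - pr x) * H (ht x - ht x') ∂b ∂a

/-- `a` is the vertical component of a vector measure whose curl over `D` is bounded by `m` -/
structure AFlat (a m : Measure (R d)) (D : Set (E d)) : Prop where
  fa : IsFiniteMeasure a
  fm : IsFiniteMeasure m
  sa : ∀ᵐ x ∂a, ‖x‖ ≤ 16
  sm : ∀ᵐ x ∂m, ‖x‖ ≤ 16
  curl : ∀ (f : R d → ℝ) (l : Fin d) (K : Set (E d)), ContDiff ℝ 1 f → IsCompact K → K ⊆ D →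
    (∀ x, pr x ∉ K → f x = 0) → (∀ᵐ x ∂a, pd (Fin.last d) f x = 0) →
    |∫ x, pd l.castSucc f x ∂a| ≤ ∫ x, |f x| ∂m

/-- cut-off in space, cut-off on the sphere (a cap of size `κ` around `± e`) -/
structure Cap (χ : R d → ℝ) (α : ℝ → ℝ) (e : R d) (κ : ℝ) : Prop where
  χ1 : ContDiff ℝ 1 χ
  χ01 : ∀ x, 0 ≤ χ x ∧ χ x ≤ 1
  χone : ∀ x, ‖x‖ ≤ 14 → χ x = 1
  χzero : ∀ x, 15 ≤ ‖x‖ → χ x = 0
  α1 : ContDiff ℝ 1 α
  α01 : ∀ t, 0 ≤ α t ∧ α t ≤ 1
  αzero : ∀ t, t ≤ 1 - κ → α t = 0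
  αone : ∀ t, 1 - κ / 2 ≤ t → α t = 1
  κpos : 0 < κ
  κle : κ ≤ 1 / 100
  unit : ‖e‖ = 1
  up : 0 < ht e
  steep : 1 / 2 ≤ ht e ^ 2

/-- cap weight -/
noncomputable def wt (χ : R d → ℝ) (α : ℝ → ℝ) (e : R d) (p : R d × S d) : ℝ :=
  χ p.1 * α (⟪e, (p.2 : R d)⟫_ℝ ^ 2) * (⟪e, (p.2 : R d)⟫_ℝ * ht (p.2 : R d))

/-- error weight -/
noncomputable def er (χ : R d → ℝ) (α : ℝ → ℝ) (e : R d) (p : R d × S d) : ℝ :=
  max 0 (min 1 (7 - ‖pr p.1‖)) * ‖fderiv ℝ χ p.1‖ * α (⟪e, (p.2 : R d)⟫_ℝ ^ 2)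

/-- cap measure -/
noncomputable def capM (χ : R d → ℝ) (α : ℝ → ℝ) (e : R d) (V : Vf d) : Measure (R d) :=
  ((V.restrict (An 16⁻¹ 16 ×ˢ univ)).withDensity fun p => ENNReal.ofReal (wt χ α e p)).fst

/-- horizontal annulus -/
def D6 (d : ℕ) : Set (E d) := {y | 1 / 8 < ‖y‖ ∧ ‖y‖ < 6}

/-- closed annulus -/
def Kc (d : ℕ) : Set (R d) := {x | 16⁻¹ ≤ ‖x‖ ∧ ‖x‖ ≤ 16}

/-- approximation of a cone by smooth stationary boundaries with curvature tending to zero -/
structure Apx (W : Vf d) where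
  𝓤 : Ultrafilter (Set (R d) × Set (R d))
  U : Set (R d) × Set (R d) → Set (R d)
  P : Set (R d) × Set (R d) → PF d
  Λ : ℝ
  ev : ∀ᶠ q in (𝓤 : Filter (Set (R d) × Set (R d))), IsOpen q.2 ∧ SS q.1 q.2 ∧ IsOpen (U q) ∧
    Kc d ⊆ U q ∧ U q ⊆ q.2 ∧ Adapted (vf q.1 q.2).fst.support (U q) (P q) ∧ Stat (vf q.1 q.2) (U q) ∧
    (vf q.1 q.2).fst (Kc d) ≤ ENNReal.ofReal Λ
  conv : VConv (𝓤 : Filter (Set (R d) × Set (R d))) (fun q => vf q.1 q.2) W (An 17⁻¹ 17)
  c0 : Tendsto (fun q => ∫ x in An 16⁻¹ 16, c2 (P q) x ∂(vf q.1 q.2).fst)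
    (𝓤 : Filter (Set (R d) × Set (R d))) (𝓝 0)
  fin : LocFin W (An 17⁻¹ 17)
  con : Con W (An 17⁻¹ 17) ⊥

end Pool.Agent.MP_5cfeaf_gt.W

end

section

/-! Block I, file 1: mollified projections of almost flat measures. -/

set_option autoImplicit false

open MeasureTheory Set Filter Topology Metric
open scoped ENNReal symmDiff Classical InnerProductSpace ContDiff

namespace Pool.Agent.MP_5cfeaf_gt.W

variable {d : ℕ}

theorem I1_pr_cont : Continuous (pr : R d → E d) := by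
  obtain ⟨L, hL⟩ := exists_prL d
  have : (pr : R d → E d) = L := funext fun x => (hL x).symm
  rw [this]
  exact L.continuous

theorem I1_pr_cs (l : Fin d) :
    pr (EuclideanSpace.single l.castSucc (1 : ℝ) : R d) = EuclideanSpace.single l (1 : ℝ) := by
  ext i
  simp [pr, Fin.castSucc_inj]

theorem I1_pr_last :
    pr (EuclideanSpace.single (Fin.last d) (1 : ℝ) : R d) = 0 := by
  ext i
  simp [pr]

theorem I1_opn (T : E d →L[ℝ] ℝ) (c : ℝ) (hc : 0 ≤ c)
    (h : ∀ l, |T (EuclideanSpace.single l (1 : ℝ))| ≤ c) : ‖T‖ ≤ d * c := by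
  refine T.opNorm_le_bound (by positivity) fun v => ?_
  have hv : v = ∑ l, v l • (EuclideanSpace.single l (1 : ℝ) : E d) := by
    ext i
    simp only [WithLp.ofLp_sum, WithLp.ofLp_smul, PiLp.ofLp_single, Finset.sum_apply, Pi.smul_apply, Pi.single_apply, smul_eq_mul, mul_ite, mul_one, mul_zero, Finset.sum_ite_eq, Finset.mem_univ, ↓ reduceIte]
  have h1 : T v = ∑ l, v l * T (EuclideanSpace.single l (1 : ℝ)) := by
    conv_lhs => rw [hv]
    simp only [map_sum, map_smul, smul_eq_mul]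
  rw [h1, Real.norm_eq_abs]
  calc |∑ l, v l * T (EuclideanSpace.single l (1 : ℝ))|
      ≤ ∑ l, |v l * T (EuclideanSpace.single l (1 : ℝ))| := Finset.abs_sum_le_sum_abs _ _
    _ ≤ ∑ _l : Fin d, c * ‖v‖ := by
      refine Finset.sum_le_sum fun l _ => ?_
      rw [abs_mul, mul_comm]
      refine mul_le_mul (h l) ?_ (abs_nonneg _) hc
      have := PiLp.norm_apply_le v l
      rwa [Real.norm_eq_abs] at this
    _ = d * c * ‖v‖ := by
      simp only [Finset.sum_const, Finset.card_univ, Fintype.card_fin, nsmul_eq_mul, mul_assoc]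

section
variable (κ : Ker d) {a m : Measure (R d)} {D : Set (E d)} {s r : ℝ}

theorem I1_k_sm (s : ℝ) : ContDiff ℝ ∞ (κ.k s) := by
  unfold Ker.k
  exact contDiff_const.mul (κ.sm.comp (contDiff_const_smul _))

theorem I1_k_nn (hs : 0 < s) (y : E d) : 0 ≤ κ.k s y :=
  mul_nonneg (by positivity) (κ.nn _)

theorem I1_k_supp (hs : 0 < s) {y : E d} (h : s ≤ ‖y‖) : κ.k s y = 0 := by
  unfold Ker.k
  rw [κ.supp _ ?_, mul_zero]
  rw [norm_smul, norm_inv, Real.norm_eq_abs, abs_of_pos hs, inv_mul_eq_div, le_div_iff₀ hs, one_mul]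
  exact h

theorem I1_k_cs (hs : 0 < s) : HasCompactSupport (κ.k s) := by
  refine HasCompactSupport.intro (isCompact_closedBall (0 : E d) s) fun y hy => ?_
  refine I1_k_supp κ hs ?_
  rw [mem_closedBall, dist_zero_right, not_le] at hy
  exact hy.le

theorem I1_k_int (hs : 0 < s) : Integrable (κ.k s) ∧ ∫ y, κ.k s y = 1 := by
  refine ⟨(I1_k_sm κ s).continuous.integrable_of_hasCompactSupport (I1_k_cs κ hs), ?_⟩
  unfold Ker.k
  rw [integral_const_mul, Measure.integral_comp_inv_smul_of_nonneg volume κ.ρ hs.le, κ.int]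
  simp only [finrank_euclideanSpace, Fintype.card_fin, smul_eq_mul, mul_one]
  exact inv_mul_cancel₀ (by positivity)

theorem I1_k_bd (hs : 0 < s) : ∃ C > 0, ∀ y, κ.k s y ≤ C ∧ ‖fderiv ℝ (κ.k s) y‖ ≤ C := by
  obtain ⟨C1, h1⟩ := (I1_k_cs κ hs).exists_bound_of_continuous (I1_k_sm κ s).continuous
  obtain ⟨C2, h2⟩ := ((I1_k_cs κ hs).fderiv (𝕜 := ℝ)).exists_bound_of_continuous
    ((I1_k_sm κ s).continuous_fderiv (by simp))
  refine ⟨max 1 (max C1 C2), lt_of_lt_of_le one_pos (le_max_left _ _), fun y => ⟨?_, ?_⟩⟩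
  · exact (le_abs_self _).trans ((h1 y).trans ((le_max_left _ _).trans (le_max_right _ _)))
  · exact (h2 y).trans ((le_max_right _ _).trans (le_max_right _ _))

theorem I1_k_pos (hs : 0 < s) : ∃ y, ‖y‖ < s ∧ 0 < κ.k s y := by
  by_contra hcon
  have h0 : κ.k s = fun _ => 0 := by
    funext y
    by_cases hy : ‖y‖ < s
    · refine le_antisymm ?_ (I1_k_nn κ hs y)
      by_contra h
      exact hcon ⟨y, hy, not_le.1 h⟩
    · exact I1_k_supp κ hs (not_lt.1 hy)
  have := (I1_k_int κ hs).2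
  rw [h0] at this
  simp at this

theorem I1_nn (hs : 0 < s) (a : Measure (R d)) (y : E d) : 0 ≤ κ.av s a y :=
  integral_nonneg fun _ => I1_k_nn κ hs _

theorem I1_kc (s : ℝ) (y : E d) : Continuous fun x : R d => κ.k s (y - pr x) :=
  (I1_k_sm κ s).continuous.comp (continuous_const.sub I1_pr_cont)

theorem I1_dkc (s : ℝ) (y : E d) : Continuous fun x : R d => fderiv ℝ (κ.k s) (y - pr x) :=
  ((I1_k_sm κ s).continuous_fderiv (by simp)).comp (continuous_const.sub I1_pr_cont)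

theorem I1_ki (hs : 0 < s) (a : Measure (R d)) [IsFiniteMeasure a] (y : E d) :
    Integrable (fun x : R d => κ.k s (y - pr x)) a := by
  obtain ⟨C, -, hC⟩ := I1_k_bd κ hs
  refine Integrable.of_bound (I1_kc κ s y).aestronglyMeasurable C (ae_of_all _ fun x => ?_)
  rw [Real.norm_eq_abs, abs_of_nonneg (I1_k_nn κ hs _)]
  exact (hC _).1

theorem I1_dki (hs : 0 < s) (a : Measure (R d)) [IsFiniteMeasure a] (y : E d) :
    Integrable (fun x : R d => fderiv ℝ (κ.k s) (y - pr x)) a := by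
  obtain ⟨C, -, hC⟩ := I1_k_bd κ hs
  exact Integrable.of_bound (I1_dkc κ s y).aestronglyMeasurable C (ae_of_all _ fun x => (hC _).2)

/-- differentiation under the integral sign -/
theorem I1_fderiv (hs : 0 < s) (a : Measure (R d)) [IsFiniteMeasure a] (y : E d) :
    HasFDerivAt (κ.av s a) (∫ x, fderiv ℝ (κ.k s) (y - pr x) ∂a) y := by
  obtain ⟨C, -, hC⟩ := I1_k_bd κ hs
  have hd : Differentiable ℝ (κ.k s) := (I1_k_sm κ s).differentiable (by simp)
  refine hasFDerivAt_integral_of_dominated_of_fderiv_le (μ := a) (s := univ)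
    (F := fun z x => κ.k s (z - pr x)) (F' := fun z x => fderiv ℝ (κ.k s) (z - pr x))
    (bound := fun _ => C) univ_mem
    (Eventually.of_forall fun z => (I1_kc κ s z).aestronglyMeasurable) (I1_ki κ hs a y)
    (I1_dkc κ s y).aestronglyMeasurable (ae_of_all _ fun x z _ => (hC _).2) (integrable_const _)
    (ae_of_all _ fun x z _ => ?_)
  have h1 : HasFDerivAt (fun z : E d => z - pr x) (ContinuousLinearMap.id ℝ (E d)) z :=
    (hasFDerivAt_id z).sub_const _
  have h2 := (hd (z - pr x)).hasFDerivAt.comp z h1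
  rw [ContinuousLinearMap.comp_id] at h2
  exact h2

theorem I1_cont (hs : 0 < s) (a : Measure (R d)) [IsFiniteMeasure a] : Continuous (κ.av s a) :=
  continuous_iff_continuousAt.2 fun y => (I1_fderiv κ hs a y).continuousAt

/-- Fubini -/
theorem I1_ball (hs : 0 < s) (a : Measure (R d)) [IsFiniteMeasure a] (y : E d) (r : ℝ) :
    ∫ z in ball y r, κ.av s a z ≤ a.real {x | pr x ∈ ball y (r + s)} := by
  obtain ⟨C, -, hC⟩ := I1_k_bd κ hs
  have : IsFiniteMeasure ((volume : Measure (E d)).restrict (ball y r)) :=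
    isFiniteMeasure_restrict.2 measure_ball_lt_top.ne
  have hc : Continuous fun p : E d × R d => κ.k s (p.1 - pr p.2) :=
    (I1_k_sm κ s).continuous.comp (continuous_fst.sub (I1_pr_cont.comp continuous_snd))
  have hi : Integrable (Function.uncurry fun (z : E d) (x : R d) => κ.k s (z - pr x))
      (((volume : Measure (E d)).restrict (ball y r)).prod a) := by
    refine Integrable.of_bound hc.aestronglyMeasurable C (ae_of_all _ fun p => ?_)
    show ‖κ.k s (p.1 - pr p.2)‖ ≤ C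
    rw [Real.norm_eq_abs, abs_of_nonneg (I1_k_nn κ hs _)]
    exact (hC _).1
  have hM : MeasurableSet {x : R d | pr x ∈ ball y (r + s)} :=
    (isOpen_ball.preimage I1_pr_cont).measurableSet
  unfold Ker.av
  rw [integral_integral_swap hi, ← integral_indicator_one hM]
  refine integral_mono hi.integral_prod_right ((integrable_const (1 : ℝ)).indicator hM) fun x => ?_
  show ∫ z in ball y r, κ.k s (z - pr x) ≤ _
  by_cases hx : pr x ∈ ball y (r + s)
  · rw [indicator_of_mem (show x ∈ {x : R d | pr x ∈ ball y (r + s)} from hx), Pi.one_apply]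
    have h1 : Integrable fun z : E d => κ.k s (z - pr x) := (I1_k_int κ hs).1.comp_sub_right _
    refine (setIntegral_le_integral h1 (ae_of_all _ fun z => I1_k_nn κ hs _)).trans ?_
    rw [integral_sub_right_eq_self (κ.k s) (pr x), (I1_k_int κ hs).2]
  · rw [indicator_of_notMem (show x ∉ {x : R d | pr x ∈ ball y (r + s)} from hx)]
    refine le_of_eq (setIntegral_eq_zero_of_forall_eq_zero fun z hz => I1_k_supp κ hs ?_)
    rw [mem_ball, not_lt] at hx
    rw [mem_ball] at hz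
    have := dist_triangle (pr x) z y
    rw [← dist_eq_norm, dist_comm]
    linarith

/-- `AFlat.curl` with `f x = κ.k s (y - pr x)`, one coordinate at a time -/
theorem I1_grad (hs : 0 < s) (h : AFlat a m D) {y : E d} (hy : closedBall y s ⊆ D) :
    ‖fderiv ℝ (κ.av s a) y‖ ≤ d * κ.av s m y := by
  have := h.fa
  obtain ⟨L, hL⟩ := exists_prL d
  have hd : Differentiable ℝ (κ.k s) := (I1_k_sm κ s).differentiable (by simp)
  have hf : ∀ x : R d, HasFDerivAt (fun x : R d => κ.k s (y - pr x))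
      ((fderiv ℝ (κ.k s) (y - pr x)).comp (-L)) x := by
    intro x
    have h1 : HasFDerivAt (fun x : R d => y - pr x) (-L) x := by
      have := L.hasFDerivAt (x := x)
      have h2 := this.const_sub y
      simpa only [hL] using h2
    exact (hd (y - pr x)).hasFDerivAt.comp x h1
  have hpd : ∀ (i : Fin (d + 1)) (x : R d), pd i (fun x : R d => κ.k s (y - pr x)) x =
      -fderiv ℝ (κ.k s) (y - pr x) (pr (EuclideanSpace.single i (1 : ℝ))) := by
    intro i x
    unfold pd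
    rw [(hf x).fderiv]
    simp [hL]
  have hC1 : ContDiff ℝ 1 fun x : R d => κ.k s (y - pr x) := by
    have h1 : ContDiff ℝ 1 fun x : R d => y - pr x := by
      have := (contDiff_const (c := y)).sub (L.contDiff (n := 1))
      simpa only [hL] using this
    exact ((I1_k_sm κ s).of_le (by simp)).comp h1
  rw [(I1_fderiv κ hs a y).fderiv]
  refine I1_opn _ _ (I1_nn κ hs m y) fun l => ?_
  have h1 := h.curl (fun x : R d => κ.k s (y - pr x)) l (closedBall y s) hC1
    (isCompact_closedBall y s) hy ?_ (ae_of_all _ fun x => ?_)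
  · rw [ContinuousLinearMap.integral_apply (I1_dki κ hs a y)]
    simp only [hpd, I1_pr_cs, integral_neg, abs_neg] at h1
    refine h1.trans (le_of_eq ?_)
    unfold Ker.av
    exact integral_congr_ae (ae_of_all _ fun x => abs_of_nonneg (I1_k_nn κ hs _))
  · intro x hx
    refine I1_k_supp κ hs ?_
    rw [mem_closedBall, not_le] at hx
    rw [← dist_eq_norm, dist_comm]
    exact hx.le
  · rw [hpd, I1_pr_last, map_zero, neg_zero]

/-- mean value inequality in `ball y r`, `κ.av r m ≤ C m(univ)` -/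
theorem I1_lip (hr : 0 < r) : ∃ C > 0, ∀ (a m : Measure (R d)) (D : Set (E d)) (y : E d), AFlat a m D →
    closedBall y (2 * r) ⊆ D → ∀ z ∈ ball y r, |κ.av r a z - κ.av r a y| ≤ C * m.real univ := by
  obtain ⟨C, hC0, hC⟩ := I1_k_bd κ hr
  refine ⟨d * C * r + 1, by positivity, fun a m D y h hD z hz => ?_⟩
  have := h.fa
  have := h.fm
  have hm : 0 ≤ m.real univ := measureReal_nonneg
  have hav : ∀ w, κ.av r m w ≤ C * m.real univ := by
    intro w
    have := integral_mono (I1_ki κ hr m w) (integrable_const C) fun x => (hC _).1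
    rwa [integral_const, smul_eq_mul, mul_comm] at this
  have hb : ∀ w ∈ ball y r, ‖fderiv ℝ (κ.av r a) w‖ ≤ d * (C * m.real univ) := by
    intro w hw
    refine (I1_grad κ hr h (subset_trans ?_ hD)).trans
      (mul_le_mul_of_nonneg_left (hav w) (Nat.cast_nonneg _))
    refine closedBall_subset_closedBall' ?_
    rw [mem_ball] at hw
    linarith
  have h1 := (convex_ball y r).norm_image_sub_le_of_norm_fderiv_le
    (fun w _ => (I1_fderiv κ hr a w).differentiableAt) hb (mem_ball_self hr) hz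
  rw [Real.norm_eq_abs] at h1
  have h2 : ‖z - y‖ ≤ r := by
    rw [← dist_eq_norm]
    exact (mem_ball.1 hz).le
  have h3 : (d : ℝ) * (C * m.real univ) * ‖z - y‖ ≤ d * (C * m.real univ) * r :=
    mul_le_mul_of_nonneg_left h2 (by positivity)
  linarith only [hm, h1, h3]

end

end Pool.Agent.MP_5cfeaf_gt.W

end

section

/-! Block I, file 1b: Poincare inequality for almost flat measures. -/

set_option autoImplicit false

open MeasureTheory Set Filter Topology Metric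
open scoped ENNReal symmDiff Classical InnerProductSpace ContDiff

namespace Pool.Agent.MP_5cfeaf_gt.W

variable {d : ℕ}

theorem I1b_cont_pr : Continuous (pr : R d → E d) := by
  obtain ⟨L, hL⟩ := exists_prL d
  exact L.continuous.congr hL

theorem I1b_int {h : E d → ℝ} (hc : Continuous h) (hi : Integrable h) (m : Measure (R d))
    [IsFiniteMeasure m] :
    Integrable (Function.uncurry fun (z : E d) (x : R d) => h (z - pr x)) (volume.prod m) := by
  have h1 : Continuous (Function.uncurry fun (z : E d) (x : R d) => h (z - pr x)) :=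
    hc.comp (continuous_fst.sub (I1b_cont_pr.comp continuous_snd))
  refine (integrable_prod_iff' h1.aestronglyMeasurable).2 ⟨ae_of_all _ fun x => hi.comp_sub_right (pr x), ?_⟩
  have h2 : (fun x : R d => ∫ z : E d, ‖h (z - pr x)‖) = fun _ => ∫ z, ‖h z‖ :=
    funext fun x => integral_sub_right_eq_self (fun z => ‖h z‖) (pr x)
  exact h2 ▸ integrable_const _

theorem I1b_fub {h : E d → ℝ} (hc : Continuous h) (hi : Integrable h) (m : Measure (R d))
    [IsFiniteMeasure m] :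
    Integrable (fun z : E d => ∫ x, h (z - pr x) ∂m) ∧
      ∫ z : E d, ∫ x, h (z - pr x) ∂m = m.real univ * ∫ z, h z := by
  refine ⟨(I1b_int hc hi m).integral_prod_left, ?_⟩
  rw [integral_integral_swap (I1b_int hc hi m)]
  simp only [integral_sub_right_eq_self, integral_const, smul_eq_mul]

theorem I1b_bint {h : E d → ℝ} (hc : Continuous h) (hs : HasCompactSupport h) (z : E d)
    (m : Measure (R d)) [IsFiniteMeasure m] : Integrable (fun x => h (z - pr x)) m := by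
  obtain ⟨C, hC⟩ := hs.exists_bound_of_continuous hc
  exact Integrable.of_bound (hc.comp (continuous_const.sub I1b_cont_pr)).aestronglyMeasurable C
    (ae_of_all _ fun x => hC _)

theorem I1b_grad_apply (f : E d → ℝ) (w : E d) (l : Fin d) : gradient f w l = pd l f w := by
  have h := InnerProductSpace.toDual_symm_apply (𝕜 := ℝ) (x := EuclideanSpace.single l (1 : ℝ))
    (y := fderiv ℝ f w)
  rw [EuclideanSpace.inner_single_right] at h
  simpa [gradient, pd] using h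

theorem I1b_pd_sm {f : E d → ℝ} (hf : ContDiff ℝ ∞ f) (l : Fin d) : ContDiff ℝ ∞ (pd l f) :=
  (hf.fderiv_right (m := ∞) le_rfl).clm_apply contDiff_const

theorem I1b_grad_sm {f : E d → ℝ} (hf : ContDiff ℝ ∞ f) : ContDiff ℝ ∞ (gradient f) := by
  refine contDiff_euclidean.2 fun l => ?_
  simpa only [I1b_grad_apply] using I1b_pd_sm hf l

theorem I1b_dv {f : E d → ℝ} (hf : ContDiff ℝ ∞ f) (w : E d) :
    dv (gradient f) w = ∑ l, pd l (pd l f) w := by
  refine Finset.sum_congr rfl fun l _ => ?_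
  have h1 := ((I1b_grad_sm hf).differentiable (by simp) w).hasFDerivAt
  have h2 := (EuclideanSpace.proj (𝕜 := ℝ) l).hasFDerivAt.comp w h1
  have h3 : pd l f = (EuclideanSpace.proj (𝕜 := ℝ) l) ∘ gradient f :=
    funext fun w => (I1b_grad_apply f w l).symm
  rw [pd, h3, h2.fderiv]
  rfl

theorem I1b_pd_cs {f : E d → ℝ} (hf : HasCompactSupport f) (l : Fin d) :
    HasCompactSupport (pd l f) :=
  hf.fderiv_apply ℝ _

theorem I1b_fd {G : E d → ℝ} (hG : ContDiff ℝ ∞ G) (z : E d) (x v : R d) :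
    fderiv ℝ (fun x => G (z - pr x)) x v = -fderiv ℝ G (z - pr x) (pr v) := by
  obtain ⟨L, hL⟩ := exists_prL d
  simp only [← hL]
  have h1 := (hG.differentiable (by simp) (z - L x)).hasFDerivAt.comp x
    (L.hasFDerivAt.const_sub z)
  have h2 : (fun x => G (z - L x)) = G ∘ fun x => z - L x := rfl
  rw [h2, h1.fderiv]
  simp only [ContinuousLinearMap.comp_neg, neg_apply, ContinuousLinearMap.comp_apply]

theorem I1b_curl {a m : Measure (R d)} {D : Set (E d)} (h : AFlat a m D) {G : E d → ℝ}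
    (hG : ContDiff ℝ ∞ G) {r : ℝ} (h0 : ∀ w, r < ‖w‖ → G w = 0) {z : E d} (hz : closedBall z r ⊆ D)
    (l : Fin d) : |∫ x, pd l G (z - pr x) ∂a| ≤ ∫ x, |G (z - pr x)| ∂m := by
  obtain ⟨L, hL⟩ := exists_prL d
  have h1 : ContDiff ℝ 1 fun x : R d => G (z - pr x) := by
    simp only [← hL]
    exact (hG.of_le (by simp)).comp (contDiff_const.sub L.contDiff)
  have h2 : pr (EuclideanSpace.single (Fin.last d) (1 : ℝ) : R d) = 0 := by
    ext i; simp [pr]
  have h3 : pr (EuclideanSpace.single l.castSucc (1 : ℝ) : R d) = EuclideanSpace.single l 1 := by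
    ext i; simp [pr]
  have h4 := h.curl _ l (closedBall z r) h1 (isCompact_closedBall _ _) hz
    (fun x hx => h0 _ (by rwa [mem_closedBall, not_le, dist_comm, dist_eq_norm] at hx))
    (ae_of_all _ fun x => by rw [pd, I1b_fd hG, h2, map_zero, neg_zero])
  simp only [pd, I1b_fd hG, h3, integral_neg, abs_neg] at h4
  exact h4

theorem I1b_k_cs (κ : Ker d) {s : ℝ} (hs : 0 < s) : HasCompactSupport (κ.k s) :=
  HasCompactSupport.intro (isCompact_closedBall 0 s) fun w hw =>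
    I1_k_supp κ hs (by rw [mem_closedBall_zero_iff, not_le] at hw; exact hw.le)

theorem I1b_G_cs (κ : Ker d) {s r : ℝ} (hs : 0 < s) (hsr : s ≤ r) : HasCompactSupport (κ.Γ s r) :=
  HasCompactSupport.intro (isCompact_closedBall 0 r) fun w hw =>
    (κ.gam s r hs hsr).2.1 w (by rw [mem_closedBall_zero_iff, not_le] at hw; exact hw.le)

theorem I1b_ng (κ : Ker d) {s r : ℝ} (hs : 0 < s) (hsr : s ≤ r) :
    Continuous (fun w => ‖gradient (κ.Γ s r) w‖) ∧ HasCompactSupport fun w => ‖gradient (κ.Γ s r) w‖ := by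
  refine ⟨(I1b_grad_sm (κ.gam s r hs hsr).1).continuous.norm, ?_⟩
  have h1 : (fun w => ‖gradient (κ.Γ s r) w‖) = fun w => ‖fderiv ℝ (κ.Γ s r) w‖ := by
    funext w; simp [gradient]
  rw [h1]
  exact ((I1b_G_cs κ hs hsr).fderiv ℝ).norm

theorem I1b_pt (κ : Ker d) {s r : ℝ} (hs : 0 < s) (hsr : s ≤ r) {a m : Measure (R d)} {D : Set (E d)}
    (h : AFlat a m D) {z : E d} (hz : closedBall z r ⊆ D) :
    |κ.av s a z - κ.av r a z| ≤ d * ∫ x, ‖gradient (κ.Γ s r) (z - pr x)‖ ∂m := by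
  have := h.fa
  have := h.fm
  obtain ⟨g1, g2, g3, -⟩ := κ.gam s r hs hsr
  have hr : 0 < r := hs.trans_le hsr
  have hcs := I1b_G_cs κ hs hsr
  have h1 : κ.av r a z - κ.av s a z = ∑ l, ∫ x, pd l (pd l (κ.Γ s r)) (z - pr x) ∂a := by
    rw [Ker.av, Ker.av, ← integral_sub (I1b_bint (I1_k_sm κ r).continuous (I1b_k_cs κ hr) z a)
      (I1b_bint (I1_k_sm κ s).continuous (I1b_k_cs κ hs) z a), ← integral_finsetSum]
    · refine integral_congr_ae (ae_of_all _ fun x => ?_)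
      simp only [← I1b_dv g1, g3, Ker.k]
    · exact fun l _ => I1b_bint (I1b_pd_sm (I1b_pd_sm g1 l) l).continuous
        (I1b_pd_cs (I1b_pd_cs hcs l) l) z a
  rw [abs_sub_comm, h1]
  refine (Finset.abs_sum_le_sum_abs _ _).trans ((Finset.sum_le_card_nsmul _ _
    (∫ x, ‖gradient (κ.Γ s r) (z - pr x)‖ ∂m) fun l _ => ?_).trans (by simp only [Finset.card_univ, Fintype.card_fin, nsmul_eq_mul, Std.le_refl]))
  refine (I1b_curl h (I1b_pd_sm g1 l) (fun w hw => ?_) hz l).trans ?_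
  · have h2 : κ.Γ s r =ᶠ[𝓝 w] fun _ => 0 := by
      filter_upwards [(isOpen_lt continuous_const continuous_norm).mem_nhds hw] with u hu
      exact g2 u (le_of_lt hu)
    rw [pd, h2.fderiv_eq]; simp
  · refine integral_mono_of_nonneg (ae_of_all _ fun x => abs_nonneg _)
      (I1b_bint (I1b_ng κ hs hsr).1 (I1b_ng κ hs hsr).2 z m) (ae_of_all _ fun x => ?_)
    show |pd l (κ.Γ s r) (z - pr x)| ≤ ‖gradient (κ.Γ s r) (z - pr x)‖
    rw [← I1b_grad_apply]
    exact PiLp.norm_apply_le (gradient (κ.Γ s r) (z - pr x)) l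

theorem I1b_moll (κ : Ker d) {s ε : ℝ} (hs : 0 < s) {g : E d → ℝ} (hg : Continuous g)
    (hb : ∀ z, |g z| ≤ 1) (hu : ∀ z p, ‖z - p‖ < s → |g z - g p| ≤ ε) (p : E d) :
    |g p - ∫ z, g z * κ.k s (z - p)| ≤ ε := by
  obtain ⟨h1, h2⟩ := I1_k_int κ hs
  have h3 : Integrable fun z => κ.k s (z - p) := h1.comp_sub_right p
  have h4 : ∫ z, κ.k s (z - p) = 1 := (integral_sub_right_eq_self (κ.k s) p).trans h2
  have h5 : Integrable fun z => g z * κ.k s (z - p) :=
    h3.bdd_mul (c := 1) hg.aestronglyMeasurable (ae_of_all _ hb)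
  have h6 : g p - ∫ z, g z * κ.k s (z - p) = ∫ z, (g p * κ.k s (z - p) - g z * κ.k s (z - p)) := by
    rw [integral_sub (h3.const_mul _) h5, integral_const_mul, h4, mul_one]
  rw [h6]
  have h7 : ∫ z, ε * κ.k s (z - p) = ε := by rw [integral_const_mul, h4, mul_one]
  rw [← Real.norm_eq_abs]
  refine (norm_integral_le_of_norm_le (h3.const_mul ε) (ae_of_all _ fun z => ?_)).trans h7.le
  rw [← sub_mul, Real.norm_eq_abs, abs_mul, abs_of_nonneg (I1_k_nn κ hs _)]
  by_cases hz : ‖z - p‖ < s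
  · rw [abs_sub_comm]
    exact mul_le_mul_of_nonneg_right (hu z p hz) (I1_k_nn κ hs _)
  · rw [I1_k_supp κ hs (not_lt.1 hz), mul_zero, mul_zero]

theorem I1b_approx (κ : Ker d) {s ε : ℝ} (hs : 0 < s) {g : E d → ℝ} (hg : Continuous g)
    (hb : ∀ z, |g z| ≤ 1) (hu : ∀ z p, ‖z - p‖ < s → |g z - g p| ≤ ε) (a : Measure (R d))
    [IsFiniteMeasure a] : |∫ x, g (pr x) ∂a - ∫ z, g z * κ.av s a z| ≤ ε * a.real univ := by
  have h1 := I1b_int (I1_k_sm κ s).continuous (I1_k_int κ hs).1 a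
  have h2 : Integrable (Function.uncurry fun (z : E d) (x : R d) => g z * κ.k s (z - pr x))
      (volume.prod a) :=
    h1.bdd_mul (f := fun q : E d × R d => g q.1) (c := 1)
      (hg.comp continuous_fst).aestronglyMeasurable (ae_of_all _ fun q => hb _)
  have h3 : ∫ z, g z * κ.av s a z = ∫ x, (∫ z, g z * κ.k s (z - pr x)) ∂a := by
    rw [← integral_integral_swap h2]
    simp only [Ker.av, integral_const_mul]
  have h4 : Integrable (fun x => g (pr x)) a :=
    Integrable.of_bound (hg.comp I1b_cont_pr).aestronglyMeasurable 1 (ae_of_all _ fun x => hb _)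
  have h5 : Integrable (fun x => ∫ z, g z * κ.k s (z - pr x)) a := h2.integral_prod_right
  rw [h3, ← integral_sub h4 h5]
  rw [← Real.norm_eq_abs]
  exact norm_integral_le_of_norm_le_const (ae_of_all _ fun x => I1b_moll κ hs hg hb hu (pr x))

section
variable (κ : Ker d) {r : ℝ}

/-- `κ.k r - κ.k s = ∑ l, ∂_l ∂_l Γ`; `AFlat.curl` with `f x = ∂_l Γ (z - pr x)`; integrate in `z` (Fubini,
`∫ ‖gradient Γ‖ ≤ C r`); `I1_lip` -/
theorem I1_L1 (hr : 0 < r) : ∃ C > 0, ∀ (a m : Measure (R d)) (D : Set (E d)) (y : E d) (s : ℝ),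
    AFlat a m D → closedBall y (2 * r) ⊆ D → 0 < s → s ≤ r →
    ∫ z in ball y r, |κ.av s a z - κ.av r a y| ≤ C * m.real univ := by
  obtain ⟨C₁, hC₁, hl⟩ := I1_lip κ hr
  have hp := κ.pos
  refine ⟨d * (κ.C * r) + C₁ * volume.real (ball (0 : E d) r) + 1, by positivity,
    fun a m D y s h hy hs hsr => ?_⟩
  have := h.fa
  have := h.fm
  obtain ⟨n1, n2⟩ := I1b_ng κ hs hsr
  obtain ⟨f1, f2⟩ := I1b_fub n1 (n1.integrable_of_hasCompactSupport n2) m
  have hm : 0 ≤ m.real univ := measureReal_nonneg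
  have hfin : volume (ball y r) ≠ ⊤ := measure_ball_lt_top.ne
  have i1 : IntegrableOn (fun _ : E d => C₁ * m.real univ) (ball y r) := integrableOn_const hfin
  have h1 : ∫ z in ball y r, |κ.av s a z - κ.av r a y| ≤
      ∫ z in ball y r, (d * ∫ x, ‖gradient (κ.Γ s r) (z - pr x)‖ ∂m + C₁ * m.real univ) := by
    refine integral_mono_of_nonneg (ae_of_all _ fun x => abs_nonneg _)
      ((f1.const_mul _).integrableOn.add i1) (ae_restrict_of_forall_mem measurableSet_ball fun z hz => ?_)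
    refine (abs_sub_le _ (κ.av r a z) _).trans (add_le_add (I1b_pt κ hs hsr h ?_) (hl a m D y h hy z hz))
    refine (closedBall_subset_closedBall' ?_).trans hy
    have := mem_ball.1 hz
    linarith
  have h2 : ∫ z in ball y r, ∫ x, ‖gradient (κ.Γ s r) (z - pr x)‖ ∂m ≤ m.real univ * (κ.C * r) := by
    refine (setIntegral_le_integral f1 (ae_of_all _ fun z => integral_nonneg fun x => norm_nonneg _)).trans ?_
    rw [f2]
    exact mul_le_mul_of_nonneg_left (κ.gam s r hs hsr).2.2.2 hm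
  have h3 : volume.real (ball y r) = volume.real (ball (0 : E d) r) := by
    rw [Measure.real, Measure.real, Measure.addHaar_ball_center]
  rw [integral_add (f1.const_mul _).integrableOn i1, integral_const_mul, setIntegral_const, h3,
    smul_eq_mul] at h1
  have h4 := mul_le_mul_of_nonneg_left h2 (Nat.cast_nonneg (α := ℝ) d)
  linarith only [hm, h1, h4]

/-- `∫ g * κ.av s a = ∫ (∫ z, g z * κ.k s (z - pr x)) ∂a → ∫ g (pr x) ∂a` as `s → 0` (uniform continuity of `g`),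
`I1_L1` -/
theorem I1_test (hr : 0 < r) : ∃ C > 0, ∀ (a m : Measure (R d)) (D : Set (E d)) (y : E d)
    (g : E d → ℝ), AFlat a m D → closedBall y (2 * r) ⊆ D → Continuous g → (∀ z, |g z| ≤ 1) →
    (∀ z, z ∉ ball y r → g z = 0) →
    |∫ x, g (pr x) ∂a - κ.av r a y * ∫ z, g z| ≤ C * m.real univ := by
  obtain ⟨C, hC, hl⟩ := I1_L1 κ hr
  refine ⟨C, hC, fun a m D y g h hy hg hb h0 => ?_⟩
  have := h.fa
  have hcs : HasCompactSupport g := HasCompactSupport.intro (isCompact_closedBall y r) fun z hz =>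
    h0 z fun h' => hz (ball_subset_closedBall h')
  have ha : 0 ≤ a.real univ := measureReal_nonneg
  refine le_of_forall_pos_le_add fun ε hε => ?_
  obtain ⟨δ, hδ, hu⟩ := Metric.uniformContinuous_iff.1 (hcs.uniformContinuous_of_continuous hg)
    (ε / (a.real univ + 1)) (by positivity)
  have hs : 0 < min δ r := lt_min hδ hr
  have h1 := I1b_approx κ hs hg hb (ε := ε / (a.real univ + 1)) (fun z p hz => by
    rw [← Real.dist_eq]
    exact (hu (by rw [dist_eq_norm]; exact hz.trans_le (min_le_left _ _))).le) a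
  have h2 : ε / (a.real univ + 1) * a.real univ ≤ ε := by
    rw [div_mul_eq_mul_div, div_le_iff₀ (by positivity)]
    linarith only [hε]
  have hc := I1_cont κ hs a
  have h3 : |(∫ z, g z * κ.av (min δ r) a z) - κ.av r a y * ∫ z, g z| ≤ C * m.real univ := by
    refine le_trans ?_ (hl a m D y _ h hy hs (min_le_right _ _))
    have h5 : Integrable fun z => g z * κ.av (min δ r) a z :=
      (hg.mul hc).integrable_of_hasCompactSupport hcs.mul_right
    rw [← integral_const_mul, ← integral_sub h5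
      ((hg.integrable_of_hasCompactSupport hcs).const_mul _),
      ← setIntegral_eq_integral_of_forall_compl_eq_zero (s := ball y r) (fun z hz => by simp [h0 z hz])]
    have h6 : IntegrableOn (fun z => |κ.av (min δ r) a z - κ.av r a y|) (ball y r) :=
      ((hc.sub continuous_const).abs.continuousOn.integrableOn_compact
        (isCompact_closedBall y r)).mono_set ball_subset_closedBall
    rw [← Real.norm_eq_abs]
    refine norm_integral_le_of_norm_le h6 (ae_of_all _ fun z => ?_)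
    rw [mul_comm (κ.av r a y), ← mul_sub, Real.norm_eq_abs, abs_mul]
    exact mul_le_of_le_one_left (abs_nonneg _) (hb z)
  have h4 := abs_sub_le (∫ x, g (pr x) ∂a) (∫ z, g z * κ.av (min δ r) a z) (κ.av r a y * ∫ z, g z)
  linarith

end

end Pool.Agent.MP_5cfeaf_gt.W

end

section

/-! Block I, file 2: the linking function of two almost flat measures. -/

set_option autoImplicit false

open MeasureTheory Set Filter Topology Metric
open scoped ENNReal symmDiff Classical InnerProductSpace ContDiff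

namespace Pool.Agent.MP_5cfeaf_gt.W

variable {d : ℕ}

section
variable (κ : Ker d) {a b ma mb : Measure (R d)} {D : Set (E d)} {s : ℝ} {H : ℝ → ℝ}
  {Ka Kb : Set (R d)} {y : E d}

theorem I2_pr_cont : Continuous (pr : R d → E d) := by
  obtain ⟨L, hL⟩ := exists_prL d
  exact funext hL ▸ L.continuous

theorem I2_ht_cont : Continuous (ht : R d → ℝ) := by
  obtain ⟨L, hL⟩ := exists_htL d
  exact funext hL ▸ L.continuous

theorem I2_u_cont (s : ℝ) (y : E d) : Continuous fun x : R d => κ.k s (y - pr x) :=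
  (I1_k_sm κ s).continuous.comp (continuous_const.sub I2_pr_cont)

theorem I2_du_cont (s : ℝ) (y : E d) : Continuous fun x : R d => fderiv ℝ (κ.k s) (y - pr x) :=
  ((I1_k_sm κ s).continuous_fderiv (by simp)).comp (continuous_const.sub I2_pr_cont)

theorem I2_u_int (hs : 0 < s) (a : Measure (R d)) [IsFiniteMeasure a] (y : E d) :
    Integrable (fun x : R d => κ.k s (y - pr x)) a := by
  obtain ⟨C, -, hC⟩ := I1_k_bd κ hs
  refine Integrable.of_bound (I2_u_cont κ s y).aestronglyMeasurable C (Eventually.of_forall fun x => ?_)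
  rw [Real.norm_of_nonneg (I1_k_nn κ hs _)]
  exact (hC _).1

theorem I2_near (hs : 0 < s) {z : E d} (h : κ.k s (y - z) ≠ 0) : ‖y - z‖ < s :=
  not_le.1 fun h1 => h (I1_k_supp κ hs h1)

theorem I2_mem (hy : closedBall y s ⊆ D) {z : E d} (h : ‖y - z‖ < s) : z ∈ D :=
  hy (by rw [mem_closedBall, dist_comm, dist_eq_norm]; exact h.le)

theorem I2_two {z z' : E d} (h : ‖y - z‖ < s) (h' : ‖y - z'‖ < s) : ‖z - z'‖ ≤ 2 * s := by
  have h1 := norm_sub_le (y - z') (y - z)
  rw [sub_sub_sub_cancel_left] at h1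
  linarith

theorem I2_opn {n : ℕ} (L : E n →L[ℝ] ℝ) {M : ℝ} (hM : 0 ≤ M)
    (h : ∀ l, |L (EuclideanSpace.single l 1)| ≤ M) : ‖L‖ ≤ n * M := by
  refine L.opNorm_le_bound (by positivity) fun v => ?_
  have h1 : v = ∑ l, v l • EuclideanSpace.single l (1 : ℝ) := by
    ext i
    simp only [WithLp.ofLp_sum, WithLp.ofLp_smul, PiLp.ofLp_single, Finset.sum_apply, Pi.smul_apply, Pi.single_apply, smul_eq_mul, mul_ite, mul_one, mul_zero, Finset.sum_ite_eq, Finset.mem_univ, ↓ reduceIte]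
  have h2 : L v = ∑ l, v l * L (EuclideanSpace.single l 1) := by
    conv_lhs => rw [h1]
    simp only [map_sum, map_smul, smul_eq_mul]
  rw [h2, Real.norm_eq_abs]
  refine (Finset.abs_sum_le_sum_abs _ _).trans ?_
  refine (Finset.sum_le_card_nsmul _ _ (M * ‖v‖) fun l _ => ?_).trans (by simp only [Finset.card_univ, Fintype.card_fin, nsmul_eq_mul, mul_assoc, Std.le_refl])
  rw [abs_mul, mul_comm]
  exact mul_le_mul (h l) (PiLp.norm_apply_le v l) (abs_nonneg _) hM

theorem I2_curl (hs : 0 < s) (hb : AFlat b mb D) (hy : closedBall y s ⊆ D) {h : ℝ → ℝ}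
    (hh : ContDiff ℝ 1 h) (h1 : ∀ t, |h t| ≤ 1)
    (h0 : ∀ᵐ x ∂b, ‖y - pr x‖ < s → deriv h (ht x) = 0) (l : Fin d) :
    |∫ x, fderiv ℝ (κ.k s) (y - pr x) (EuclideanSpace.single l 1) * h (ht x) ∂b| ≤ κ.av s mb y := by
  obtain ⟨P, hP⟩ := exists_prL d
  obtain ⟨T, hT⟩ := exists_htL d
  have hk : ContDiff ℝ 1 (κ.k s) := (I1_k_sm κ s).of_le (by norm_cast)
  have hf : ContDiff ℝ 1 fun x : R d => κ.k s (y - P x) * h (T x) :=
    (hk.comp (contDiff_const.sub P.contDiff)).mul (hh.comp T.contDiff)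
  have hd : ∀ x v : R d, fderiv ℝ (fun x : R d => κ.k s (y - P x) * h (T x)) x v =
      κ.k s (y - P x) * (deriv h (T x) * T v) - fderiv ℝ (κ.k s) (y - P x) (P v) * h (T x) := by
    intro x v
    have e1 := (hk.differentiable (by simp) (y - P x)).hasFDerivAt.comp x
      (P.hasFDerivAt.const_sub y)
    have e2 := (hh.differentiable (by simp) (T x)).hasDerivAt.comp_hasFDerivAt x T.hasFDerivAt
    have e3 := (e1.mul e2).fderiv
    have e4 : fderiv ℝ (fun x : R d => κ.k s (y - P x) * h (T x)) x = _ := e3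
    rw [e4]
    simp
    ring
  simp only [hP, hT] at hf hd
  have p1 : pr (EuclideanSpace.single l.castSucc 1 : R d) = EuclideanSpace.single l 1 := by
    ext i
    simp [pr]
  have p2 : ht (EuclideanSpace.single l.castSucc 1 : R d) = 0 := by
    simp [ht, (Fin.castSucc_lt_last l).ne']
  have p3 : pr (EuclideanSpace.single (Fin.last d) 1 : R d) = 0 := by
    ext i
    simp [pr]
  have h2 := hb.curl _ l (closedBall y s) hf (isCompact_closedBall y s) hy (fun x hx => by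
    rw [I1_k_supp κ hs, zero_mul]
    rw [mem_closedBall, dist_comm, dist_eq_norm] at hx
    exact (not_le.1 hx).le) (by
    filter_upwards [h0] with x hx
    rw [pd, hd, p3, map_zero, zero_mul, sub_zero]
    by_cases hz : κ.k s (y - pr x) = 0
    · rw [hz, zero_mul]
    · rw [hx (I2_near κ hs hz), zero_mul, mul_zero])
  simp only [pd, hd, p1, p2, mul_zero, zero_sub] at h2
  rw [integral_neg, abs_neg] at h2
  have := hb.fm
  refine h2.trans (integral_mono_of_nonneg (Eventually.of_forall fun x => abs_nonneg _)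
    (I2_u_int κ hs mb y) (Eventually.of_forall fun x => ?_))
  simp only
  rw [abs_mul, abs_of_nonneg (I1_k_nn κ hs _)]
  exact mul_le_of_le_one_right (I1_k_nn κ hs _) (h1 _)

theorem I2_term (hs : 0 < s) [IsFiniteMeasure a] {G : R d → ℝ} {M : ℝ}
    (h : ∀ᵐ x ∂a, ‖y - pr x‖ < s → |G x| ≤ M) :
    |∫ x, κ.k s (y - pr x) * G x ∂a| ≤ κ.av s a y * M := by
  rw [Ker.av, ← integral_mul_const, ← Real.norm_eq_abs]
  refine norm_integral_le_of_norm_le ((I2_u_int κ hs a y).mul_const M) ?_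
  filter_upwards [h] with x hx
  rw [Real.norm_eq_abs, abs_mul, abs_of_nonneg (I1_k_nn κ hs _)]
  by_cases hz : κ.k s (y - pr x) = 0
  · rw [hz, zero_mul, zero_mul]
  · exact mul_le_mul_of_nonneg_left (hx (I2_near κ hs hz)) (I1_k_nn κ hs _)

theorem I2_H_meas (hH : Continuous H) (μ : Measure (R d × R d)) :
    AEStronglyMeasurable (fun p : R d × R d => H (ht p.2 - ht p.1)) μ :=
  (hH.comp ((I2_ht_cont.comp continuous_snd).sub (I2_ht_cont.comp continuous_fst))).aestronglyMeasurable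

theorem I2_int2 [IsFiniteMeasure a] [IsFiniteMeasure b] (hH : Continuous H)
    (h01 : ∀ t, 0 ≤ H t ∧ H t ≤ 1) {f g : R d → ℝ} (hf : Integrable f a) (hg : Integrable g b) :
    Integrable (fun p : R d × R d => f p.1 * (g p.2 * H (ht p.2 - ht p.1))) (a.prod b) := by
  simp only [← mul_assoc]
  refine (hf.mul_prod hg).mul_bdd (c := 1) (I2_H_meas hH _) (Eventually.of_forall fun p => ?_)
  rw [Real.norm_of_nonneg (h01 _).1]
  exact (h01 _).2

theorem I2_prod (hs : 0 < s) [IsFiniteMeasure a] [IsFiniteMeasure b] (hH : Continuous H)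
    (h01 : ∀ t, 0 ≤ H t ∧ H t ≤ 1) (y : E d) : κ.F s H a b y =
      ∫ p : R d × R d, κ.k s (y - pr p.1) * (κ.k s (y - pr p.2) * H (ht p.2 - ht p.1)) ∂a.prod b := by
  rw [integral_prod _ (I2_int2 hH h01 (I2_u_int κ hs a y) (I2_u_int κ hs b y)), Ker.F]
  simp only [integral_const_mul]

theorem I2_cmp (hs : 0 < s) [IsFiniteMeasure a] [IsFiniteMeasure b] {A A' : Set (R d)}
    (hA : MeasurableSet A) (hA' : MeasurableSet A') {φ : R d × R d → ℝ}
    (hφ : Integrable (fun p : R d × R d => κ.k s (y - pr p.1) * (κ.k s (y - pr p.2) * φ p)) (a.prod b))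
    (h1 : ∀ p, φ p ≤ 1)
    (h : ∀ᵐ p ∂a.prod b, ‖y - pr p.1‖ < s → ‖y - pr p.2‖ < s → p.1 ∉ A → p.2 ∉ A' → φ p ≤ 0) :
    ∫ p : R d × R d, κ.k s (y - pr p.1) * (κ.k s (y - pr p.2) * φ p) ∂a.prod b ≤
      κ.av s (a.restrict A) y * κ.av s b y + κ.av s a y * κ.av s (b.restrict A') y := by
  have ia := I2_u_int κ hs a y
  have ib := I2_u_int κ hs b y
  rw [Ker.av, Ker.av, Ker.av, Ker.av, ← integral_indicator hA, ← integral_indicator hA',
    ← integral_prod_mul, ← integral_prod_mul,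
    ← integral_add ((ia.indicator hA).mul_prod ib) (ia.mul_prod (ib.indicator hA'))]
  refine integral_mono_ae hφ (((ia.indicator hA).mul_prod ib).add (ia.mul_prod (ib.indicator hA'))) ?_
  filter_upwards [h] with p hp
  have n1 := I1_k_nn κ hs (y - pr p.1)
  have n2 := I1_k_nn κ hs (y - pr p.2)
  have n3 := mul_nonneg n1 n2
  have n4 := mul_le_of_le_one_right n3 (h1 p)
  rw [← mul_assoc]
  by_cases hz : κ.k s (y - pr p.1) = 0
  · by_cases c1 : p.1 ∈ A <;> simp [c1, hz]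
  by_cases hz' : κ.k s (y - pr p.2) = 0
  · by_cases c2 : p.2 ∈ A' <;> simp [c2, hz']
  by_cases c1 : p.1 ∈ A <;> by_cases c2 : p.2 ∈ A'
  · rw [indicator_of_mem c1, indicator_of_mem c2]
    linarith
  · rw [indicator_of_mem c1, indicator_of_notMem c2]
    linarith
  · rw [indicator_of_notMem c1, indicator_of_mem c2]
    linarith
  · rw [indicator_of_notMem c1, indicator_of_notMem c2, zero_mul, mul_zero, add_zero]
    exact mul_nonpos_of_nonneg_of_nonpos n3 (hp (I2_near κ hs hz) (I2_near κ hs hz') c1 c2)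

theorem I2_der (hs : 0 < s) [IsFiniteMeasure a] [IsFiniteMeasure b] (hH : Continuous H)
    (h01 : ∀ t, 0 ≤ H t ∧ H t ≤ 1) (y : E d) : ∃ L : E d →L[ℝ] ℝ, HasFDerivAt (κ.F s H a b) L y ∧
    ∀ v, L v = ∫ x', κ.k s (y - pr x') *
        ∫ x, fderiv ℝ (κ.k s) (y - pr x) v * H (ht x - ht x') ∂b ∂a +
      ∫ x, κ.k s (y - pr x) * ∫ x', fderiv ℝ (κ.k s) (y - pr x') v * H (ht x - ht x') ∂a ∂b := by
  obtain ⟨C, hC0, hC⟩ := I1_k_bd κ hs
  have hk : Differentiable ℝ (κ.k s) := (I1_k_sm κ s).differentiable (by simp)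
  set F' : E d → R d × R d → E d →L[ℝ] ℝ := fun z p =>
    (κ.k s (z - pr p.1) * H (ht p.2 - ht p.1)) • fderiv ℝ (κ.k s) (z - pr p.2) +
      (κ.k s (z - pr p.2) * H (ht p.2 - ht p.1)) • fderiv ℝ (κ.k s) (z - pr p.1) with hF'
  have hm : AEStronglyMeasurable (F' y) (a.prod b) := by
    have c1 := I2_u_cont κ s y
    have c2 := I2_du_cont κ s y
    have c3 : Continuous fun p : R d × R d => H (ht p.2 - ht p.1) :=
      hH.comp ((I2_ht_cont.comp continuous_snd).sub (I2_ht_cont.comp continuous_fst))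
    exact ((((c1.comp continuous_fst).mul c3).smul (c2.comp continuous_snd)).add
      (((c1.comp continuous_snd).mul c3).smul (c2.comp continuous_fst))).aestronglyMeasurable
  have hb1 : ∀ (z z' : E d) (t : ℝ), ‖(κ.k s z * H t) • fderiv ℝ (κ.k s) z'‖ ≤ C * C := by
    intro z z' t
    rw [norm_smul, Real.norm_of_nonneg (mul_nonneg (I1_k_nn κ hs _) (h01 _).1)]
    exact mul_le_mul ((mul_le_of_le_one_right (I1_k_nn κ hs _) (h01 _).2).trans (hC _).1) (hC _).2
      (norm_nonneg _) hC0.le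
  have hb : ∀ z p, ‖F' z p‖ ≤ C * C + C * C := fun z p =>
    (norm_add_le _ _).trans (add_le_add (hb1 _ _ _) (hb1 _ _ _))
  have h1 := hasFDerivAt_integral_of_dominated_of_fderiv_le (𝕜 := ℝ) (μ := a.prod b) (x₀ := y)
    (F := fun z (p : R d × R d) => κ.k s (z - pr p.1) * (κ.k s (z - pr p.2) * H (ht p.2 - ht p.1)))
    (F' := F') (bound := fun _ => C * C + C * C) univ_mem
    (Eventually.of_forall fun z =>
      (I2_int2 hH h01 (I2_u_int κ hs a z) (I2_u_int κ hs b z)).aestronglyMeasurable)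
    (I2_int2 hH h01 (I2_u_int κ hs a y) (I2_u_int κ hs b y)) hm
    (Eventually.of_forall fun p z _ => hb z p) (integrable_const _)
    (Eventually.of_forall fun p z _ => by
      have e1 : ∀ w : E d, HasFDerivAt (fun z => κ.k s (z - w)) (fderiv ℝ (κ.k s) (z - w)) z :=
        fun w => (hasFDerivAt_comp_sub w).2 (hk (z - w)).hasFDerivAt
      have e2 := (e1 (pr p.1)).mul ((e1 (pr p.2)).mul_const (H (ht p.2 - ht p.1)))
      refine e2.congr_fderiv ?_
      ext v
      simp only [hF', add_apply, smul_apply, smul_eq_mul]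
      ring)
  rw [← funext (I2_prod κ hs hH h01)] at h1
  refine ⟨_, h1, fun v => ?_⟩
  have iv : ∀ (c : Measure (R d)) [IsFiniteMeasure c],
      Integrable (fun x : R d => fderiv ℝ (κ.k s) (y - pr x) v) c := fun c _ =>
    Integrable.of_bound ((I2_du_cont κ s y).clm_apply continuous_const).aestronglyMeasurable (C * ‖v‖)
      (Eventually.of_forall fun x =>
        (ContinuousLinearMap.le_opNorm _ _).trans (mul_le_mul_of_nonneg_right (hC _).2 (norm_nonneg _)))
  have i1 := I2_int2 hH h01 (I2_u_int κ hs a y) (iv b)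
  have i2 := I2_int2 hH h01 (iv a) (I2_u_int κ hs b y)
  rw [ContinuousLinearMap.integral_apply
    (Integrable.of_bound hm _ (Eventually.of_forall (hb y))) v]
  have e : ∀ p : R d × R d, F' y p v =
      κ.k s (y - pr p.1) * (fderiv ℝ (κ.k s) (y - pr p.2) v * H (ht p.2 - ht p.1)) +
      fderiv ℝ (κ.k s) (y - pr p.1) v * (κ.k s (y - pr p.2) * H (ht p.2 - ht p.1)) := fun p => by
    simp only [hF', add_apply, smul_apply, smul_eq_mul]
    ring
  simp only [e]
  rw [integral_add i1 i2, integral_prod _ i1, integral_prod_symm _ i2]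
  simp only [← integral_const_mul, mul_left_comm]

/-- Differentiate under the double integral (`a.prod b`).  The term where the derivative falls on
`κ.k s (y - pr x)`: for fixed `x' ∈ Ka` with `pr x' ∈ ball y s` apply `hb.curl` to
`f x = κ.k s (y - pr x) * H (ht x - ht x')` (its vertical derivative vanishes `b`-a.e. by `hg`); the other term
is symmetric (Fubini, `ha.curl` with `f x' = κ.k s (y - pr x') * H (ht x - ht x')`). -/
theorem I2_F (hs : 0 < s) (ha : AFlat a ma D) (hb : AFlat b mb D) (hH : ContDiff ℝ 1 H)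
    (h01 : ∀ t, 0 ≤ H t ∧ H t ≤ 1) (hKa : ∀ᵐ x ∂a, pr x ∈ D → x ∈ Ka) (hKb : ∀ᵐ x ∂b, pr x ∈ D → x ∈ Kb)
    (hg : ∀ x ∈ Kb, ∀ x' ∈ Ka, ‖pr x - pr x'‖ ≤ 2 * s → deriv H (ht x - ht x') = 0)
    (hy : closedBall y s ⊆ D) :
    DifferentiableAt ℝ (κ.F s H a b) y ∧
      ‖fderiv ℝ (κ.F s H a b) y‖ ≤ d * (κ.av s a y * κ.av s mb y + κ.av s b y * κ.av s ma y) := by
  have := ha.fa
  have := hb.fa
  obtain ⟨L, hL, hv⟩ := I2_der κ (a := a) (b := b) hs hH.continuous h01 y
  refine ⟨hL.differentiableAt, ?_⟩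
  rw [hL.fderiv]
  have hab : ∀ t, |H t| ≤ 1 := fun t => by
    rw [abs_of_nonneg (h01 t).1]
    exact (h01 t).2
  refine I2_opn L (add_nonneg (mul_nonneg (I1_nn κ hs _ _) (I1_nn κ hs _ _))
    (mul_nonneg (I1_nn κ hs _ _) (I1_nn κ hs _ _))) fun l => ?_
  rw [hv]
  refine (abs_add_le _ _).trans (add_le_add (I2_term κ hs ?_) (I2_term κ hs ?_))
  · filter_upwards [hKa] with x' hx' h1
    refine I2_curl κ hs hb hy (h := fun t => H (t - ht x')) (hH.comp (contDiff_id.sub contDiff_const))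
      (fun t => hab _) ?_ l
    filter_upwards [hKb] with x hx h2
    rw [deriv_comp_sub_const]
    exact hg x (hx (I2_mem hy h2)) x' (hx' (I2_mem hy h1)) (I2_two h2 h1)
  · filter_upwards [hKb] with x hx h2
    refine I2_curl κ hs ha hy (h := fun t => H (ht x - t)) (hH.comp (contDiff_const.sub contDiff_id))
      (fun t => hab _) ?_ l
    filter_upwards [hKa] with x' hx' h1
    rw [deriv_comp_const_sub, hg x (hx (I2_mem hy h2)) x' (hx' (I2_mem hy h1)) (I2_two h2 h1), neg_zero]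

/-- `H (ht x - ht x') ≤ 1[ht x' ≤ t] + 1[t ≤ ht x]` -/
theorem I2_lo (hs : 0 < s) [IsFiniteMeasure a] [IsFiniteMeasure b] (hH : Continuous H)
    (h01 : ∀ t, 0 ≤ H t ∧ H t ≤ 1) (h0 : ∀ t, t ≤ 0 → H t = 0) (t : ℝ) (y : E d) :
    κ.F s H a b y ≤ κ.av s (a.restrict {x | ht x ≤ t}) y * κ.av s b y +
      κ.av s a y * κ.av s (b.restrict {x | t ≤ ht x}) y := by
  rw [I2_prod κ hs hH h01]
  refine I2_cmp κ hs (isClosed_le I2_ht_cont continuous_const).measurableSet
    (isClosed_le continuous_const I2_ht_cont).measurableSet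
    (I2_int2 hH h01 (I2_u_int κ hs a y) (I2_u_int κ hs b y)) (fun p => (h01 _).2)
    (Eventually.of_forall fun p _ _ h1 h2 => (h0 _ ?_).le)
  simp only [mem_ofPred_eq, not_le] at h1 h2
  linarith

/-- `1 - H (ht x - ht x') ≤ 1[t ≤ ht x'] + 1[ht x ≤ t]` for the pairs that matter -/
theorem I2_hi (hs : 0 < s) [IsFiniteMeasure a] [IsFiniteMeasure b] (hH : Continuous H)
    (h01 : ∀ t, 0 ≤ H t ∧ H t ≤ 1) (hKa : ∀ᵐ x ∂a, pr x ∈ D → x ∈ Ka) (hKb : ∀ᵐ x ∂b, pr x ∈ D → x ∈ Kb)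
    (hg : ∀ x ∈ Kb, ∀ x' ∈ Ka, ‖pr x - pr x'‖ ≤ 2 * s → H (ht x - ht x') = 1 ∨ ht x ≤ ht x')
    (hy : closedBall y s ⊆ D) (t : ℝ) :
    κ.av s a y * κ.av s b y - κ.F s H a b y ≤ κ.av s (a.restrict {x | t ≤ ht x}) y * κ.av s b y +
      κ.av s a y * κ.av s (b.restrict {x | ht x ≤ t}) y := by
  have i0 := (I2_u_int κ hs a y).mul_prod (I2_u_int κ hs b y)
  have i1 := I2_int2 hH h01 (I2_u_int κ hs a y) (I2_u_int κ hs b y)
  have e : ∀ p : R d × R d, κ.k s (y - pr p.1) * κ.k s (y - pr p.2) -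
      κ.k s (y - pr p.1) * (κ.k s (y - pr p.2) * H (ht p.2 - ht p.1)) =
      κ.k s (y - pr p.1) * (κ.k s (y - pr p.2) * (1 - H (ht p.2 - ht p.1))) := fun p => by ring
  have i2 := i0.sub i1
  have e0 : κ.av s a y * κ.av s b y =
      ∫ p : R d × R d, κ.k s (y - pr p.1) * κ.k s (y - pr p.2) ∂a.prod b :=
    (integral_prod_mul (fun x : R d => κ.k s (y - pr x)) fun x : R d => κ.k s (y - pr x)).symm
  rw [I2_prod κ hs hH h01, e0, ← integral_sub i0 i1]
  simp only [e]
  refine I2_cmp κ hs (isClosed_le continuous_const I2_ht_cont).measurableSet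
    (isClosed_le I2_ht_cont continuous_const).measurableSet
    (i2.congr (Eventually.of_forall e)) (fun p => by linarith [(h01 (ht p.2 - ht p.1)).1]) ?_
  filter_upwards [Measure.quasiMeasurePreserving_fst.ae hKa, Measure.quasiMeasurePreserving_snd.ae hKb]
    with p ha hb n1 n2 h1 h2
  simp only [mem_ofPred_eq, not_le] at h1 h2
  rcases hg _ (hb (I2_mem hy n2)) _ (ha (I2_mem hy n1)) (I2_two n2 n1) with h | h
  · rw [h, sub_self]
  · linarith

/-- small scale and step function adapted to the distance `δ` of the two carriers (`s ≤ δ/8`, `H = 0` on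
`(-∞, 0]`, `H = 1` on `[δ/4, ∞)`, `norm_sq_coord`) -/
theorem I2_gap (hKa : IsCompact Ka) (hKb : IsCompact Kb) (hd : Disjoint Ka Kb) {r : ℝ} (hr : 0 < r) :
    ∃ (s : ℝ) (H : ℝ → ℝ), 0 < s ∧ s ≤ r ∧ ContDiff ℝ 1 H ∧ (∀ t, 0 ≤ H t ∧ H t ≤ 1) ∧
      (∀ t, t ≤ 0 → H t = 0) ∧ ∀ x ∈ Kb, ∀ x' ∈ Ka, ‖pr x - pr x'‖ ≤ 2 * s →
        deriv H (ht x - ht x') = 0 ∧ (H (ht x - ht x') = 1 ∨ ht x ≤ ht x') := by
  obtain ⟨δ', hδ', h⟩ := exists_pos_forall_lt_edist hKa hKb.isClosed hd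
  obtain ⟨P, hP⟩ := exists_prL d
  obtain ⟨T, hT⟩ := exists_htL d
  obtain ⟨δ, hδe⟩ : ∃ δ : ℝ, δ = δ' := ⟨_, rfl⟩
  have hδ : 0 < δ := hδe ▸ NNReal.coe_pos.2 hδ'
  have z0 : ∀ t, t ≤ 0 → Real.smoothTransition (t / (δ / 4)) = 0 := fun t ht0 =>
    Real.smoothTransition.zero_of_nonpos (div_nonpos_of_nonpos_of_nonneg ht0 (by positivity))
  have z1 : ∀ t, δ / 4 ≤ t → Real.smoothTransition (t / (δ / 4)) = 1 := fun t ht0 =>
    Real.smoothTransition.one_of_one_le ((one_le_div (by positivity)).2 ht0)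
  refine ⟨min r (δ / 8), fun t => Real.smoothTransition (t / (δ / 4)), lt_min hr (by positivity),
    min_le_left _ _, (Real.smoothTransition.contDiff (n := 1)).comp (contDiff_id.div_const _),
    fun t => ⟨Real.smoothTransition.nonneg _, Real.smoothTransition.le_one _⟩, z0,
    fun x hx x' hx' hp => ?_⟩
  have h1 : δ < ‖x - x'‖ := by
    have h2 := h x' hx' x hx
    rw [edist_nndist, ENNReal.coe_lt_coe, ← NNReal.coe_lt_coe, coe_nndist, dist_comm,
      dist_eq_norm] at h2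
    exact hδe ▸ h2
  have h2 := norm_sq_coord (x - x')
  rw [← hP, ← hT, map_sub, map_sub, hP, hP, hT, hT] at h2
  have h3 : ‖pr x - pr x'‖ ≤ δ / 4 := hp.trans (by linarith only [min_le_right r (δ / 8)])
  have h4 : (δ / 2) ^ 2 < (ht x - ht x') ^ 2 := by
    nlinarith only [pow_le_pow_left₀ (norm_nonneg _) h3 2, pow_lt_pow_left₀ h1 hδ.le two_ne_zero, h2]
  rcases lt_abs.1 ((le_abs_self _).trans_lt (sq_lt_sq.1 h4)) with h5 | h5
  · refine ⟨?_, Or.inl (z1 _ (by linarith only [hδ', hδe, h5]))⟩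
    have h6 : (fun t => Real.smoothTransition (t / (δ / 4))) =ᶠ[𝓝 (ht x - ht x')] fun _ => 1 :=
      (eventually_gt_nhds (show δ / 4 < ht x - ht x' by linarith only [hδ', hδe, h5])).mono fun t h7 => z1 t h7.le
    rw [h6.deriv_eq, deriv_const]
  · refine ⟨?_, Or.inr (by linarith only [hδ', hδe, h5])⟩
    have h6 : (fun t => Real.smoothTransition (t / (δ / 4))) =ᶠ[𝓝 (ht x - ht x')] fun _ => 0 :=
      (eventually_lt_nhds (show ht x - ht x' < 0 by linarith only [hδ', hδe, h5])).mono fun t h7 => z0 t h7.le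
    rw [h6.deriv_eq, deriv_const]

end

end Pool.Agent.MP_5cfeaf_gt.W

end

section

/-! Block I, file 2b: almost flat measures with disjoint carriers do not cross. -/

set_option autoImplicit false

open MeasureTheory Set Filter Topology Metric
open scoped ENNReal symmDiff Classical InnerProductSpace ContDiff

namespace Pool.Agent.MP_5cfeaf_gt.W

variable {d : ℕ}

theorem I2b_ftc {f f' g : ℝ → ℝ} (hg : Continuous g)
    (h : ∀ t ∈ Icc (0 : ℝ) 1, HasDerivAt f (f' t) t ∧ |f' t| ≤ g t) {t : ℝ} (ht : t ∈ Icc (0 : ℝ) 1) :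
    |f t - f 0| ≤ ∫ u in (0 : ℝ)..1, g u := by
  have hs : ∀ u ∈ Icc (0 : ℝ) t, u ∈ Icc (0 : ℝ) 1 := fun u hu => ⟨hu.1, hu.2.trans ht.2⟩
  have hc : ContinuousOn f (Icc 0 t) := fun u hu => (h u (hs u hu)).1.continuousAt.continuousWithinAt
  have h1 := intervalIntegral.sub_le_integral_of_hasDeriv_right_of_le ht.1 hc
    (fun u hu => (h u (hs u (Ioo_subset_Icc_self hu))).1.hasDerivWithinAt) hg.integrableOn_Icc
    fun u hu => (le_abs_self _).trans (h u (hs u (Ioo_subset_Icc_self hu))).2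
  have h2 := intervalIntegral.sub_le_integral_of_hasDeriv_right_of_le ht.1 hc.neg
    (fun u hu => (h u (hs u (Ioo_subset_Icc_self hu))).1.neg.hasDerivWithinAt) hg.integrableOn_Icc
    fun u hu => (neg_le_abs _).trans (h u (hs u (Ioo_subset_Icc_self hu))).2
  have h3 : ∫ u in (0 : ℝ)..t, g u ≤ ∫ u in (0 : ℝ)..1, g u :=
    intervalIntegral.integral_mono_interval le_rfl ht.1 ht.2
      (ae_restrict_of_forall_mem measurableSet_Ioc fun u hu =>
        (abs_nonneg _).trans (h u (Ioc_subset_Icc_self hu)).2) (hg.intervalIntegrable _ _)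
  simp only [Pi.neg_apply] at h2
  exact abs_le.2 ⟨by linarith, by linarith⟩

/-- one-dimensional lemma (`A t ≤ A 0 + ε` on `[0,1]`; compare derivatives of `F` and of
`t ↦ ∫ 0..t (..)`, e.g. `image_le_of_deriv_right_le_deriv_boundary` or `monotoneOn_of_deriv_nonneg`) -/
theorem I2b_line {A B F A' B' F' Ra Rb : ℝ → ℝ} {ε : ℝ} (hRa : Continuous Ra) (hRb : Continuous Rb)
    (hA : ∀ t ∈ Icc (0 : ℝ) 1, HasDerivAt A (A' t) t ∧ 0 ≤ A t ∧ |A' t| ≤ Ra t)
    (hB : ∀ t ∈ Icc (0 : ℝ) 1, HasDerivAt B (B' t) t ∧ 0 ≤ B t ∧ |B' t| ≤ Rb t)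
    (hF : ∀ t ∈ Icc (0 : ℝ) 1, HasDerivAt F (F' t) t ∧ |F' t| ≤ A t * Rb t + B t * Ra t)
    (ha : ∫ t in (0 : ℝ)..1, Ra t ≤ ε) (hb : ∫ t in (0 : ℝ)..1, Rb t ≤ ε) :
    |A 1 - A 0| ≤ ε ∧ |B 1 - B 0| ≤ ε ∧ |F 1 - F 0| ≤ (A 0 + B 0 + 2 * ε) * ε := by
  have h0 : (0 : ℝ) ∈ Icc (0 : ℝ) 1 := ⟨le_rfl, zero_le_one⟩
  have h1 : (1 : ℝ) ∈ Icc (0 : ℝ) 1 := ⟨zero_le_one, le_rfl⟩
  have hA' : ∀ t ∈ Icc (0 : ℝ) 1, |A t - A 0| ≤ ε := fun t ht =>
    (I2b_ftc hRa (fun u hu => ⟨(hA u hu).1, (hA u hu).2.2⟩) ht).trans ha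
  have hB' : ∀ t ∈ Icc (0 : ℝ) 1, |B t - B 0| ≤ ε := fun t ht =>
    (I2b_ftc hRb (fun u hu => ⟨(hB u hu).1, (hB u hu).2.2⟩) ht).trans hb
  have hε : 0 ≤ ε := (abs_nonneg _).trans (hA' 0 h0)
  refine ⟨hA' 1 h1, hB' 1 h1, ?_⟩
  have h2 := I2b_ftc (f := F) (f' := F') (g := fun t => (A 0 + ε) * Rb t + (B 0 + ε) * Ra t)
    (by fun_prop) (fun t ht => ⟨(hF t ht).1, (hF t ht).2.trans (add_le_add
      (mul_le_mul_of_nonneg_right (by linarith [(abs_le.1 (hA' t ht)).2])
        ((abs_nonneg _).trans (hB t ht).2.2))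
      (mul_le_mul_of_nonneg_right (by linarith [(abs_le.1 (hB' t ht)).2])
        ((abs_nonneg _).trans (hA t ht).2.2)))⟩) h1
  rw [intervalIntegral.integral_add ((hRb.intervalIntegrable _ _).const_mul _)
    ((hRa.intervalIntegrable _ _).const_mul _), intervalIntegral.integral_const_mul,
    intervalIntegral.integral_const_mul] at h2
  have h3 := mul_le_mul_of_nonneg_left hb (add_nonneg (hA 0 h0).2.1 hε)
  have h4 := mul_le_mul_of_nonneg_left ha (add_nonneg (hB 0 h0).2.1 hε)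
  linarith

theorem I2b_pr : Continuous (pr : R d → E d) := by
  unfold pr
  fun_prop

theorem I2b_int {g : E d → ℝ} (hg : Continuous g) (y : E d) (r : ℝ) : IntegrableOn g (ball y r) :=
  (hg.continuousOn.integrableOn_compact (isCompact_closedBall y r)).mono_set ball_subset_closedBall

theorem I2b_shift (g : E d → ℝ) (y v : E d) (r : ℝ) :
    ∫ z in ball y r, g (z + v) = ∫ z in ball (y + v) r, g z := by
  rw [← (measurePreserving_add_right volume v).setIntegral_preimage_emb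
    (measurableEmbedding_addRight v) g (ball (y + v) r), preimage_add_right_ball, add_sub_cancel_right]

theorem I2b_pt {n : ℕ} {f : Fin n → E d → ℝ} {y : E d} {r K : ℝ} (hr : 0 < r)
    (h : ∀ i, Continuous (f i) ∧ (∀ z, 0 ≤ f i z) ∧ ∫ z in ball y r, f i z ≤ K) :
    ∃ z ∈ ball y r, ∀ i, f i z ≤ n * K / volume.real (ball (0 : E d) r) := by
  obtain ⟨z, hz, h1⟩ := exists_le_setAverage (μ := volume) (f := fun z => ∑ i, f i z)
    (measure_ball_pos volume y hr).ne' measure_ball_lt_top.ne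
    (I2b_int (continuous_finsetSum _ fun i _ => (h i).1) y r)
  refine ⟨z, hz, fun i => (Finset.single_le_sum (f := fun i => f i z) (fun j _ => (h j).2.1 z)
    (Finset.mem_univ i)).trans (h1.trans ?_)⟩
  rw [setAverage_eq, integral_finsetSum _ fun j _ => I2b_int (h j).1 y r, smul_eq_mul,
    Measure.addHaar_real_ball_center, mul_comm, ← div_eq_mul_inv]
  refine div_le_div_of_nonneg_right ((Finset.sum_le_sum fun j _ => (h j).2.2).trans ?_)
    measureReal_nonneg
  simp only [Finset.sum_const, Finset.card_univ, Fintype.card_fin, nsmul_eq_mul, Std.le_refl]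

theorem I2b_res (κ : Ker d) {s r η : ℝ} (hs : 0 < s) (hsr : s ≤ r) (a : Measure (R d))
    [IsFiniteMeasure a] (P : R d → Prop) (y v : E d)
    (h : a.real {x | pr x ∈ ball (y + v) (2 * r) ∧ P x} ≤ η) :
    Continuous (fun z => κ.av s (a.restrict {x | P x}) (z + v)) ∧
      (∀ z, 0 ≤ κ.av s (a.restrict {x | P x}) (z + v)) ∧
      ∫ z in ball y r, κ.av s (a.restrict {x | P x}) (z + v) ≤ η := by
  refine ⟨(I1_cont κ hs _).comp (continuous_add_const v), fun z => I1_nn κ hs _ _, ?_⟩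
  rw [I2b_shift]
  refine (I1_ball κ hs _ _ _).trans (le_trans ?_ h)
  rw [measureReal_restrict_apply (show MeasurableSet {x | pr x ∈ ball (y + v) (r + s)} from
    (isOpen_ball.preimage I2b_pr).measurableSet)]
  exact measureReal_mono fun x hx => ⟨ball_subset_ball (by linarith) hx.1, hx.2⟩

theorem I2b_seg (κ : Ker d) {s η : ℝ} (hs : 0 < s) (m : Measure (R d)) [IsFiniteMeasure m]
    (y τ : E d) (r : ℝ) (h : m.real univ ≤ η) :
    Continuous (fun z => ∫ t in (0 : ℝ)..1, κ.av s m (z + t • τ)) ∧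
      (∀ z, 0 ≤ ∫ t in (0 : ℝ)..1, κ.av s m (z + t • τ)) ∧
      ∫ z in ball y r, ∫ t in (0 : ℝ)..1, κ.av s m (z + t • τ) ≤ η := by
  have hc := I1_cont κ hs m
  refine ⟨intervalIntegral.continuous_parametric_intervalIntegral_of_continuous'
    (f := fun z (t : ℝ) => κ.av s m (z + t • τ)) (by fun_prop) _ _,
    fun z => intervalIntegral.integral_nonneg zero_le_one fun t _ => I1_nn κ hs _ _, ?_⟩
  have hi : Integrable (Function.uncurry fun (t : ℝ) z => κ.av s m (z + t • τ))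
      ((volume.restrict (uIoc (0 : ℝ) 1)).prod (volume.restrict (ball y r))) := by
    rw [Measure.prod_restrict]
    refine IntegrableOn.mono_set (t := Icc (0 : ℝ) 1 ×ˢ closedBall y r)
      (ContinuousOn.integrableOn_compact (isCompact_Icc.prod (isCompact_closedBall y r))
        (Continuous.continuousOn (by fun_prop))) (prod_mono ?_ ball_subset_closedBall)
    rw [uIoc_of_le zero_le_one]
    exact Ioc_subset_Icc_self
  rw [← intervalIntegral_integral_swap hi]
  have h1 : ∀ t : ℝ, ‖∫ z in ball y r, κ.av s m (z + t • τ)‖ ≤ η := fun t => by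
    rw [Real.norm_of_nonneg (integral_nonneg fun z => I1_nn κ hs _ _), I2b_shift]
    exact (I1_ball κ hs _ _ _).trans ((measureReal_mono (subset_univ _)).trans h)
  have h2 := intervalIntegral.norm_integral_le_of_norm_le_const (a := 0) (b := 1) fun t _ => h1 t
  simp only [sub_zero, abs_one, mul_one] at h2
  exact (le_abs_self _).trans h2

theorem I2b_der {G : E d → ℝ} {z τ : E d} {t L : ℝ} (h : DifferentiableAt ℝ G (z + t • τ))
    (hL : ‖fderiv ℝ G (z + t • τ)‖ ≤ L) :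
    HasDerivAt (fun t : ℝ => G (z + t • τ)) (fderiv ℝ G (z + t • τ) τ) t ∧
      |fderiv ℝ G (z + t • τ) τ| ≤ ‖τ‖ * L := by
  refine ⟨?_, ((fderiv ℝ G (z + t • τ)).le_opNorm τ).trans ?_⟩
  · have h1 := h.hasFDerivAt.comp_hasDerivAt t (((hasDerivAt_id t).smul_const τ).const_add z)
    rwa [one_smul] at h1
  · rw [mul_comm]
    exact mul_le_mul_of_nonneg_left hL (norm_nonneg _)

theorem I2b_alg {c M δ α β A0 A1 B0 B1 F0 F1 p1 p2 p3 p4 : ℝ} (hc : 0 < c) (h1 : δ ≤ c / 4) (h2 : δ ≤ 1)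
    (h3 : δ * (6 * M + 10) ≤ c ^ 2 / 8) (a1 : c ≤ α) (a2 : α ≤ M) (b1 : c ≤ β) (b2 : β ≤ M)
    (hA : |A0 - α| ≤ δ) (hB : |B0 - β| ≤ δ) (hA1 : |A1 - A0| ≤ δ) (hB1 : |B1 - B0| ≤ δ)
    (hF : |F1 - F0| ≤ (A0 + B0 + 2 * δ) * δ) (lo : F0 ≤ p1 * B0 + A0 * p2)
    (hi : A1 * B1 - F1 ≤ p3 * B1 + A1 * p4) (q1 : p1 ≤ δ) (q2 : p2 ≤ δ) (q3 : p3 ≤ δ) (q4 : p4 ≤ δ) :
    False := by
  have hδ : 0 ≤ δ := (abs_nonneg _).trans hA
  obtain ⟨e1, e2⟩ := abs_le.1 hA
  obtain ⟨e3, e4⟩ := abs_le.1 hB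
  obtain ⟨e5, e6⟩ := abs_le.1 hA1
  obtain ⟨e7, e8⟩ := abs_le.1 hB1
  have f1 := mul_le_mul q1 (show B0 ≤ M + 1 by linarith only [h2, b2, e4]) (by linarith only [hc, h1, b1, e3]) hδ
  have f3 := mul_le_mul q3 (show B1 ≤ M + 2 by linarith only [h2, b2, e4, e8]) (by linarith only [hc, h1, b1, e3, e7]) hδ
  have f4 := mul_le_mul_of_nonneg_left q4 (show 0 ≤ A1 by linarith only [hc, h1, a1, e1, e5])
  have f5 := mul_le_mul_of_nonneg_left q2 (show 0 ≤ A0 by linarith only [hc, h1, a1, e1])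
  have f6 := mul_le_mul_of_nonneg_right (show A0 ≤ M + 1 by linarith only [h2, a2, e2]) hδ
  have f7 := mul_le_mul_of_nonneg_right (show A1 ≤ M + 2 by linarith only [h2, a2, e2, e6]) hδ
  have f8 := mul_le_mul_of_nonneg_right (show A0 + B0 + 2 * δ ≤ 2 * M + 4 by linarith only [h2, a2, b2, e2, e4]) hδ
  have f9 := mul_le_mul (show c / 2 ≤ A1 by linarith only [h1, a1, e1, e5]) (show c / 2 ≤ B1 by linarith only [h1, b1, e3, e7]) (by linarith only [hc])
    (by linarith only [hc, h1, a1, e1, e5])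
  nlinarith only [(abs_le.1 hF).2, hc, h3, lo, hi, f1, f3, f4, f5, f6, f7, f8, f9]

/-- No crossing.  Take `s, H` from `I2_gap`.  The continuous function
`Ψ z = |av s a z - av r a y| + |av s b z - av r b y| + (four restricted averages at z and z + τ)
 + ∫ t in 0..1, (av s ma + av s mb) (z + t • τ)` has integral `≤ C η` over `ball y r` (`I1_L1`, `I1_ball`,
Fubini, translation invariance), so `Ψ z ≤ ε := C η / vol (ball)` at some `z ∈ ball y r`.  Apply `I2b_line` along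
`t ↦ z + t • τ` (`I1_grad`, `I2_F`, `R = d ‖τ‖ av s m`), `I2_lo` at `z`, `I2_hi` at `z + τ`:
`(c - C ε)^2 ≤ A 1 * B 1 ≤ C (M + 1) ε`, false for small `η`. -/
theorem I2b_nc (κ : Ker d) {r c : ℝ} (hr : 0 < r) (hc : 0 < c) (M : ℝ) (τ : E d) : ∃ η > 0,
    ∀ (a b ma mb : Measure (R d)) (D : Set (E d)) (y : E d) (t₀ t₁ : ℝ) (Ka Kb : Set (R d)),
      AFlat a ma D → AFlat b mb D → (∀ t ∈ Icc (0 : ℝ) 1, closedBall (y + t • τ) (2 * r) ⊆ D) →
      IsCompact Ka → IsCompact Kb → Disjoint Ka Kb → (∀ᵐ x ∂a, pr x ∈ D → x ∈ Ka) →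
      (∀ᵐ x ∂b, pr x ∈ D → x ∈ Kb) → c ≤ κ.av r a y → κ.av r a y ≤ M → c ≤ κ.av r b y →
      κ.av r b y ≤ M → ma.real univ ≤ η → mb.real univ ≤ η →
      a.real {x | pr x ∈ ball y (2 * r) ∧ ht x ≤ t₀} ≤ η →
      b.real {x | pr x ∈ ball y (2 * r) ∧ t₀ ≤ ht x} ≤ η →
      a.real {x | pr x ∈ ball (y + τ) (2 * r) ∧ t₁ ≤ ht x} ≤ η →
      b.real {x | pr x ∈ ball (y + τ) (2 * r) ∧ ht x ≤ t₁} ≤ η → False := by
  rcases lt_or_ge M c with hM | hM
  · exact ⟨1, one_pos, fun a b ma mb D y t₀ t₁ Ka Kb _ _ _ _ _ _ _ _ h1 h2 => by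
      exfalso; linarith⟩
  obtain ⟨C, hC, hL⟩ := I1_L1 κ hr
  have hV : 0 < volume.real (ball (0 : E d) r) :=
    ENNReal.toReal_pos (measure_ball_pos volume _ hr).ne' measure_ball_lt_top.ne
  have hM' : 0 < 6 * M + 10 := by linarith
  obtain ⟨δ, hδ, d1, d2, d3⟩ : ∃ δ > 0, δ ≤ c / 4 ∧ δ ≤ 1 ∧ δ * (6 * M + 10) ≤ c ^ 2 / 8 :=
    ⟨min (c / 4) (min 1 (c ^ 2 / 8 / (6 * M + 10))), by positivity, min_le_left _ _,
      (min_le_right _ _).trans (min_le_left _ _),
      (le_div_iff₀ hM').1 ((min_le_right _ _).trans (min_le_right _ _))⟩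
  have hT : 0 ≤ ‖τ‖ * d := by positivity
  obtain ⟨ε, hε, hεδ⟩ : ∃ ε > 0, (‖τ‖ * d + 1) * ε = δ :=
    ⟨δ / (‖τ‖ * d + 1), by positivity, by field_simp⟩
  obtain ⟨η, hη, hηε⟩ : ∃ η > 0, (8 : ℕ) * ((C + 1) * η) / volume.real (ball (0 : E d) r) = ε :=
    ⟨ε * volume.real (ball (0 : E d) r) / (8 * (C + 1)), by positivity, by push_cast; field_simp⟩
  refine ⟨η, hη, fun a b ma mb D y t₀ t₁ Ka Kb ha hb hD hKa hKb hd ka kb a1 a2 b1 b2 m1 m2 r1 r2 r3 r4 => ?_⟩
  obtain ⟨s, H, hs, hsr, hH, h01, hH0, hg⟩ := I2_gap hKa hKb hd hr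
  have := ha.fa
  have := hb.fa
  have := ha.fm
  have := hb.fm
  have hD0 : closedBall y (2 * r) ⊆ D := by simpa only [zero_smul, add_zero] using hD 0 ⟨le_rfl, zero_le_one⟩
  have e1 : η ≤ (C + 1) * η := by nlinarith only [hC, hη]
  have e2 : ∀ (a m : Measure (R d)), AFlat a m D → m.real univ ≤ η →
      Continuous (fun z => |κ.av s a z - κ.av r a y|) ∧ (∀ z, 0 ≤ |κ.av s a z - κ.av r a y|) ∧
        ∫ z in ball y r, |κ.av s a z - κ.av r a y| ≤ (C + 1) * η := fun a m h hm =>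
    have := h.fa
    ⟨((I1_cont κ hs a).sub continuous_const).abs, fun _ => abs_nonneg _,
      (hL a m D y s h hD0 hs hsr).trans (by nlinarith only [hC, hη, hm])⟩
  obtain ⟨z, hz, hf⟩ := I2b_pt (y := y) (K := (C + 1) * η) (f := ![fun z => |κ.av s a z - κ.av r a y|,
      fun z => |κ.av s b z - κ.av r b y|, fun z => κ.av s (a.restrict {x | ht x ≤ t₀}) (z + 0),
      fun z => κ.av s (b.restrict {x | t₀ ≤ ht x}) (z + 0),
      fun z => κ.av s (a.restrict {x | t₁ ≤ ht x}) (z + τ),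
      fun z => κ.av s (b.restrict {x | ht x ≤ t₁}) (z + τ),
      fun z => ∫ t in (0 : ℝ)..1, κ.av s ma (z + t • τ),
      fun z => ∫ t in (0 : ℝ)..1, κ.av s mb (z + t • τ)]) hr (by
    intro i
    fin_cases i
    exacts [e2 a ma ha m1, e2 b mb hb m2, I2b_res κ hs hsr a _ y 0 (by simpa only [add_zero, mem_ball] using r1.trans e1),
      I2b_res κ hs hsr b _ y 0 (by simpa only [add_zero, mem_ball] using r2.trans e1), I2b_res κ hs hsr a _ y τ (r3.trans e1),
      I2b_res κ hs hsr b _ y τ (r4.trans e1), I2b_seg κ hs ma y τ r (m1.trans e1),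
      I2b_seg κ hs mb y τ r (m2.trans e1)])
  rw [hηε] at hf
  have e3 : ε ≤ δ := by nlinarith only [hT, hε, hεδ]
  have hB : ∀ t ∈ Icc (0 : ℝ) 1, closedBall (z + t • τ) s ⊆ D := fun t ht =>
    (closedBall_subset_closedBall' (by rw [dist_add_right]; linarith only [mem_ball.1 hz, hsr])).trans (hD t ht)
  have e4 : ∀ (a m : Measure (R d)), AFlat a m D → ∀ t ∈ Icc (0 : ℝ) 1,
      HasDerivAt (fun t : ℝ => κ.av s a (z + t • τ)) (fderiv ℝ (κ.av s a) (z + t • τ) τ) t ∧
        0 ≤ κ.av s a (z + t • τ) ∧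
        |fderiv ℝ (κ.av s a) (z + t • τ) τ| ≤ ‖τ‖ * d * κ.av s m (z + t • τ) := fun a m h t ht => by
    have := h.fa
    obtain ⟨h1, h2⟩ := I2b_der (I1_fderiv κ hs a _).differentiableAt (I1_grad κ hs h (hB t ht))
    exact ⟨h1, I1_nn κ hs _ _, by rwa [mul_assoc]⟩
  have e5 : ∀ m : Measure (R d), IsFiniteMeasure m →
      Continuous fun t : ℝ => ‖τ‖ * d * κ.av s m (z + t • τ) := fun m _ => by
    have := I1_cont κ hs m
    fun_prop
  have e6 : ∀ m : Measure (R d), ∫ t in (0 : ℝ)..1, κ.av s m (z + t • τ) ≤ ε →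
      ∫ t in (0 : ℝ)..1, ‖τ‖ * d * κ.av s m (z + t • τ) ≤ δ := fun m h => by
    rw [intervalIntegral.integral_const_mul]
    linarith only [mul_le_mul_of_nonneg_left h hT, hε, hεδ]
  obtain ⟨l1, l2, l3⟩ := I2b_line (F := fun t : ℝ => κ.F s H a b (z + t • τ))
    (F' := fun t : ℝ => fderiv ℝ (κ.F s H a b) (z + t • τ) τ) (e5 ma ‹_›) (e5 mb ‹_›) (e4 a ma ha)
    (e4 b mb hb) (fun t ht => by
      obtain ⟨h1, h2⟩ := I2_F κ hs ha hb hH h01 ka kb (fun x hx x' hx' h => (hg x hx x' hx' h).1)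
        (hB t ht)
      obtain ⟨h3, h4⟩ := I2b_der h1 h2
      exact ⟨h3, h4.trans (le_of_eq (by ring))⟩) (e6 ma (hf 6)) (e6 mb (hf 7))
  simp only [zero_smul, one_smul, add_zero] at l1 l2 l3
  have lo := I2_lo κ (a := a) (b := b) hs hH.continuous h01 hH0 t₀ z
  have hi := I2_hi κ hs hH.continuous h01 ka kb (fun x hx x' hx' h => (hg x hx x' hx' h).2)
    (y := z + τ) (by simpa only [one_smul] using hB 1 ⟨zero_le_one, le_rfl⟩) t₁
  exact I2b_alg hc d1 d2 d3 a1 a2 b1 b2 ((hf 0).trans e3) ((hf 1).trans e3) l1 l2 l3 lo hi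
    (by simpa only [Nat.succ_eq_add_one, Nat.reduceAdd, add_zero, Fin.isValue, Matrix.cons_val', Matrix.cons_val_fin_one, Matrix.cons_val, Matrix.cons_val_one, Matrix.cons_val_zero] using (hf 2).trans e3) (by simpa only [Nat.succ_eq_add_one, Nat.reduceAdd, add_zero, Fin.isValue, Matrix.cons_val', Matrix.cons_val_fin_one, Matrix.cons_val, Matrix.cons_val_one, Matrix.cons_val_zero] using (hf 3).trans e3) ((hf 4).trans e3)
    ((hf 5).trans e3)

end Pool.Agent.MP_5cfeaf_gt.W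

end

section

/-! Block I, file 3: cap measures of smooth stationary surfaces are almost flat. -/

set_option autoImplicit false

open MeasureTheory Set Filter Topology Metric
open scoped ENNReal symmDiff Classical InnerProductSpace ContDiff

namespace Pool.Agent.MP_5cfeaf_gt.W

variable {d : ℕ}

section
variable {χ : R d → ℝ} {α : ℝ → ℝ} {e : R d} {κ : ℝ}

theorem I3_exists {e : R d} {κ : ℝ} (h0 : 0 < κ) (h1 : κ ≤ 1 / 100) (hu : ‖e‖ = 1) (hp : 0 < ht e)
    (hs : 1 / 2 ≤ ht e ^ 2) : ∃ χ α, Cap χ α e κ := by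
  let b : ContDiffBump (0 : R d) := ⟨14, 15, by norm_num, by norm_num⟩
  have hk : 0 < κ / 2 := by linarith only [h0]
  refine ⟨b, fun t => Real.smoothTransition ((t - (1 - κ)) / (κ / 2)), b.contDiff,
    fun x => ⟨b.nonneg, b.le_one⟩, fun x hx => b.one_of_mem_closedBall ?_,
    fun x hx => b.zero_of_le_dist ?_, ?_,
    fun t => ⟨Real.smoothTransition.nonneg _, Real.smoothTransition.le_one _⟩,
    fun t ht => Real.smoothTransition.zero_of_nonpos ?_,
    fun t ht => Real.smoothTransition.one_of_one_le ?_, h0, h1, hu, hp, hs⟩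
  · rw [mem_closedBall_zero_iff]; exact hx
  · rw [dist_zero_right]; exact hx
  · exact Real.smoothTransition.contDiff.comp ((contDiff_id.sub contDiff_const).div_const _)
  · exact div_nonpos_of_nonpos_of_nonneg (by linarith only [ht]) hk.le
  · rw [le_div_iff₀ hk]; linarith only [ht]

theorem I3_ht_sq (x : R d) : ht x ^ 2 ≤ ‖x‖ ^ 2 := by
  rw [norm_sq_coord]; linarith only [sq_nonneg ‖pr x‖]

theorem I3_perp {u v : R d} (hu : ‖u‖ = 1) (hv : ‖v‖ = 1) :
    ‖v - ⟪u, v⟫_ℝ • u‖ ^ 2 = 1 - ⟪u, v⟫_ℝ ^ 2 := by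
  rw [norm_sub_sq_real, real_inner_smul_right, norm_smul, hu, hv, real_inner_comm, Real.norm_eq_abs,
    mul_one, sq_abs]
  ring

theorem I3_cap (c : Cap χ α e κ) {t : ℝ} (h : α t ≠ 0) : 1 - κ ≤ t := by
  by_contra h1
  exact h (c.αzero t (not_le.1 h1).le)

theorem I3_cs (x y : R d) : ⟪x, y⟫_ℝ ^ 2 ≤ ‖x‖ ^ 2 * ‖y‖ ^ 2 := by
  rw [← mul_pow, ← sq_abs]
  exact pow_le_pow_left₀ (abs_nonneg _) (abs_real_inner_le_norm x y) 2

/-- in the cap: `ν = ⟪e,ν⟫ e + ν'`, `‖ν'‖^2 ≤ κ ≤ 1/100` -/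
theorem I3_geom (c : Cap χ α e κ) {n : R d} (hn : ‖n‖ = 1) (h : α (⟪e, n⟫_ℝ ^ 2) ≠ 0) :
    1 / 2 ≤ ⟪e, n⟫_ℝ * ht n ∧ 1 / 4 ≤ ht n ^ 2 ∧
      ∀ x : R d, ⟪x, n⟫_ℝ = 0 → ‖x‖ ≤ 2 * ‖pr x‖ ∧ ⟪x, e⟫_ℝ ^ 2 ≤ κ * ‖x‖ ^ 2 := by
  have h1 := I3_cap c h
  have hκ := c.κle
  have h2 := I3_perp c.unit hn
  have h3 := I3_ht_sq (n - ⟪e, n⟫_ℝ • e)
  have h4 : ht (n - ⟪e, n⟫_ℝ • e) = ht n - ⟪e, n⟫_ℝ * ht e := by simp [ht]
  have h5 : ⟪e, n⟫_ℝ ^ 2 ≤ 1 := by
    have := I3_cs e n
    rwa [c.unit, hn, one_pow, mul_one] at this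
  have h6 := I3_perp hn c.unit
  rw [h2, h4] at h3
  have h7 : 7 / 10 ≤ ht e := by
    by_contra h8
    nlinarith only [c.up, c.steep, h8]
  rw [real_inner_comm] at h6
  generalize ⟪e, n⟫_ℝ = a at h1 h2 h3 h4 h5 h6 ⊢
  have h8 : (a * (ht n - a * ht e)) ^ 2 ≤ (1 / 10) ^ 2 := by
    rw [mul_pow]
    have := mul_le_mul h5 h3 (sq_nonneg _) zero_le_one
    linarith only [hκ, h1, this]
  have h9 := (abs_le.1 (abs_le_of_sq_le_sq h8 (by norm_num))).1
  have h10 : 1 / 2 ≤ a * ht n := by nlinarith only [hκ, h7, h1, h9]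
  have h11 : 1 / 4 ≤ ht n ^ 2 := by nlinarith only [h7, h1, h9, h10]
  refine ⟨h10, h11, fun x hx => ⟨?_, ?_⟩⟩
  · have k1 := inner_coord x n
    have k2 : ⟪pr x, pr n⟫_ℝ ^ 2 ≤ ‖pr x‖ ^ 2 * ‖pr n‖ ^ 2 := by
      rw [← mul_pow, ← sq_abs]
      exact pow_le_pow_left₀ (abs_nonneg _) (abs_real_inner_le_norm _ _) 2
    have k3 := norm_sq_coord n
    have k4 := norm_sq_coord x
    rw [hn] at k3
    have k5 : ⟪pr x, pr n⟫_ℝ = -(ht x * ht n) := by linarith only [hx, k1]
    have k6 : ‖pr n‖ ^ 2 ≤ 3 / 4 := by linarith only [h11, k3]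
    rw [k5, neg_sq, mul_pow] at k2
    have k7 : ht x ^ 2 * (1 / 4) ≤ ht x ^ 2 * ht n ^ 2 := mul_le_mul_of_nonneg_left h11 (sq_nonneg _)
    have k8 : ‖pr x‖ ^ 2 * ‖pr n‖ ^ 2 ≤ ‖pr x‖ ^ 2 * (3 / 4) :=
      mul_le_mul_of_nonneg_left k6 (sq_nonneg _)
    have k9 : ‖x‖ ^ 2 ≤ (2 * ‖pr x‖) ^ 2 := by linarith only [k2, k4, k7, k8]
    exact le_of_sq_le_sq k9 (by positivity)
  · have k1 : ⟪x, e⟫_ℝ = ⟪x, e - a • n⟫_ℝ := by
      rw [inner_sub_right, real_inner_smul_right, hx, mul_zero, sub_zero]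
    have k2 := I3_cs x (e - a • n)
    rw [h6, ← k1] at k2
    have k3 : ‖x‖ ^ 2 * (1 - a ^ 2) ≤ ‖x‖ ^ 2 * κ := mul_le_mul_of_nonneg_left (by linarith only [h1]) (sq_nonneg _)
    linarith only [k2, k3]

theorem I3_cont_al (c : Cap χ α e κ) : Continuous fun p : R d × S d => α (⟪e, (p.2 : R d)⟫_ℝ ^ 2) :=
  c.α1.continuous.comp (by fun_prop)

theorem I3_cont_ht : Continuous (ht : R d → ℝ) := by
  obtain ⟨L, hL⟩ := exists_htL d
  exact (funext hL : (L : R d → ℝ) = ht) ▸ L.continuous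

theorem I3_cont_pr : Continuous (pr : R d → E d) := by
  obtain ⟨L, hL⟩ := exists_prL d
  exact (funext hL : (L : R d → E d) = pr) ▸ L.continuous

theorem I3_An : MeasurableSet (An 16⁻¹ 16 : Set (R d)) :=
  ((isOpen_lt continuous_const continuous_norm).inter
    (isOpen_lt continuous_norm continuous_const)).measurableSet

theorem I3_wt (c : Cap χ α e κ) : Continuous (wt χ α e) ∧ ∀ p, 0 ≤ wt χ α e p ∧ wt χ α e p ≤ 1 := by
  refine ⟨((c.χ1.continuous.comp continuous_fst).mul (I3_cont_al c)).mul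
    (Continuous.mul (by fun_prop) (I3_cont_ht.comp (by fun_prop))), fun p => ?_⟩
  unfold wt
  by_cases h : α (⟪e, (p.2 : R d)⟫_ℝ ^ 2) = 0
  · simp [h]
  have hn : ‖(p.2 : R d)‖ = 1 := by simp only [norm_eq_of_mem_sphere]
  have h1 := (I3_geom c hn h).1
  have h2 := c.χ01 p.1
  have h3 := c.α01 (⟪e, (p.2 : R d)⟫_ℝ ^ 2)
  have h4 := I3_cs e (p.2 : R d)
  have h5 := I3_ht_sq (p.2 : R d)
  rw [hn] at h5
  rw [hn, c.unit] at h4
  have h6 : ⟪e, (p.2 : R d)⟫_ℝ * ht (p.2 : R d) ≤ 1 := by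
    linarith only [sq_nonneg (⟪e, (p.2 : R d)⟫_ℝ - ht (p.2 : R d)), h4, h5]
  exact ⟨mul_nonneg (mul_nonneg h2.1 h3.1) (by linarith only [h1]),
    mul_le_one₀ (mul_le_one₀ h2.2 h3.1 h3.2) (by linarith) h6⟩

theorem I3_er (c : Cap χ α e κ) : Continuous (er χ α e) ∧ (∀ p, 0 ≤ er χ α e p) ∧
    (∀ p, er χ α e p ≠ 0 → 14 ≤ ‖p.1‖ ∧ ‖p.1‖ ≤ 15) ∧
    ∀ p, ⟪p.1, (p.2 : R d)⟫_ℝ = 0 → er χ α e p = 0 := by
  have h1 : ∀ p, er χ α e p ≠ 0 → 14 ≤ ‖p.1‖ ∧ ‖p.1‖ ≤ 15 := by
    intro p hp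
    have h2 : fderiv ℝ χ p.1 ≠ 0 := fun h => hp (by simp only [er, h, norm_zero, mul_zero, zero_mul])
    constructor
    · by_contra h3
      have h4 : χ =ᶠ[𝓝 p.1] fun _ => 1 := by
        filter_upwards [(isOpen_lt continuous_norm continuous_const).mem_nhds (not_le.1 h3)] with y hy
        exact c.χone y (le_of_lt hy)
      exact h2 (by rw [h4.fderiv_eq]; simp)
    · by_contra h3
      have h4 : χ =ᶠ[𝓝 p.1] fun _ => 0 := by
        filter_upwards [(isOpen_lt continuous_const continuous_norm).mem_nhds (not_le.1 h3)] with y hy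
        exact c.χzero y (le_of_lt hy)
      exact h2 (by rw [h4.fderiv_eq]; simp)
  refine ⟨?_, fun p => ?_, h1, fun p hp => ?_⟩
  · refine Continuous.mul (Continuous.mul ?_ ?_) (I3_cont_al c)
    · exact continuous_const.max (continuous_const.min
        (continuous_const.sub (I3_cont_pr.comp continuous_fst).norm))
    · exact ((c.χ1.continuous_fderiv (by simp)).comp continuous_fst).norm
  · exact mul_nonneg (mul_nonneg (le_max_left _ _) (norm_nonneg _)) (c.α01 _).1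
  · by_contra h2
    have h3 : α (⟪e, (p.2 : R d)⟫_ℝ ^ 2) ≠ 0 := fun h => h2 (by simp only [er, h, mul_zero])
    have hn : ‖(p.2 : R d)‖ = 1 := by simp only [norm_eq_of_mem_sphere]
    have h4 := ((I3_geom c hn h3).2.2 p.1 hp).1
    have h5 := (h1 p h2).1
    have h6 : max 0 (min 1 (7 - ‖pr p.1‖)) = 0 :=
      max_eq_left ((min_le_right _ _).trans (by linarith))
    exact h2 (by rw [er, h6, zero_mul, zero_mul])

theorem I3_fin (c : Cap χ α e κ) {V : Vf d} (h : V.fst (Kc d) < ⊤) : IsFiniteMeasure (capM χ α e V) := by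
  refine ⟨lt_of_le_of_lt ?_ h⟩
  rw [capM, Measure.fst_univ, withDensity_apply _ MeasurableSet.univ, Measure.restrict_univ]
  have h1 : ∫⁻ p, ENNReal.ofReal (wt χ α e p) ∂V.restrict (An 16⁻¹ 16 ×ˢ univ) ≤
      ∫⁻ _, 1 ∂V.restrict (An 16⁻¹ 16 ×ˢ univ) :=
    lintegral_mono fun p => ENNReal.ofReal_le_one.2 ((I3_wt c).2 p).2
  refine h1.trans ?_
  rw [lintegral_one, Measure.restrict_apply_univ]
  refine le_trans (measure_mono ?_) (Measure.le_map_apply measurable_fst.aemeasurable (Kc d))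
  intro p hp
  exact ⟨hp.1.1.le, hp.1.2.le⟩

theorem I3_int (c : Cap χ α e κ) (V : Vf d) {g : R d → ℝ} (hg : Continuous g) :
    ∫ x, g x ∂capM χ α e V = ∫ p in An 16⁻¹ 16 ×ˢ univ, g p.1 * wt χ α e p ∂V := by
  rw [capM, Measure.fst, integral_map measurable_fst.aemeasurable hg.aestronglyMeasurable,
    integral_withDensity_eq_integral_toReal_smul (I3_wt c).1.measurable.ennreal_ofReal
      (Eventually.of_forall fun _ => ENNReal.ofReal_lt_top)]
  refine integral_congr_ae (Eventually.of_forall fun p => ?_)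
  simp only [ENNReal.toReal_ofReal ((I3_wt c).2 p).1, smul_eq_mul, mul_comm]

/-- transfer of a.e. statements -/
theorem I3_ae (c : Cap χ α e κ) (V : Vf d) {Q : R d → Prop} (hQ : MeasurableSet {x | Q x})
    (h : ∀ᵐ p ∂V, p.1 ∈ An 16⁻¹ 16 → wt χ α e p ≠ 0 → Q p.1) : ∀ᵐ x ∂capM χ α e V, Q x := by
  rw [capM, Measure.fst, ae_map_iff measurable_fst.aemeasurable hQ,
    ae_withDensity_iff (I3_wt c).1.measurable.ennreal_ofReal,
    ae_restrict_iff' (I3_An.prod MeasurableSet.univ)]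
  filter_upwards [h] with p hp h1 h2
  exact hp h1.1 fun h3 => h2 (by rw [h3, ENNReal.ofReal_zero])

/-- carrier (`Adapted.nu_eq`) -/
theorem I3_carr (c : Cap χ α e κ) {V : Vf d} {U : Set (R d)} {P : PF d}
    (h : Adapted V.fst.support U P) (hU : IsOpen U) (hs : Stat V U) (hK : Kc d ⊆ U) :
    ∀ᵐ x ∂capM χ α e V, x ∈ V.fst.support ∩ Kc d ∩ {x | 1 - κ ≤ ∑ i, ∑ j, P x i j * e i * e j} := by
  have hc : Continuous fun x => ∑ i, ∑ j, P x i j * e i * e j :=
    continuous_finsetSum _ fun i _ => continuous_finsetSum _ fun j _ =>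
      (((h.1 i j).continuous.mul continuous_const).mul continuous_const)
  have hKc : IsClosed (Kc d) := (isClosed_le continuous_const continuous_norm).inter
    (isClosed_le continuous_norm continuous_const)
  refine I3_ae c V ((Measure.isClosed_support.inter hKc).inter
    (isClosed_le continuous_const hc)).measurableSet ?_
  have h1 : ∀ᵐ p ∂V, p.1 ∈ V.fst.support :=
    ae_of_ae_map (f := Prod.fst) measurable_fst.aemeasurable (p := fun x => x ∈ V.fst.support)
      Measure.support_mem_ae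
  filter_upwards [h1, h.nu_eq hU hs] with p h2 h3 h4 h5
  have h6 : p.1 ∈ Kc d := ⟨h4.1.le, h4.2.le⟩
  refine ⟨⟨h2, h6⟩, ?_⟩
  have h7 : α (⟪e, (p.2 : R d)⟫_ℝ ^ 2) ≠ 0 := fun h => h5 (by simp [wt, h])
  have h8 : ∑ i, ∑ j, P p.1 i j * e i * e j = ⟪e, (p.2 : R d)⟫_ℝ ^ 2 := by
    rw [PiLp.inner_apply, sq, Finset.sum_mul_sum]
    refine Finset.sum_congr rfl fun i _ => Finset.sum_congr rfl fun j _ => ?_
    rw [h3 (hK h6) i j]
    simp only [RCLike.inner_apply, conj_trivial]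
    ring
  show 1 - κ ≤ ∑ i, ∑ j, P p.1 i j * e i * e j
  rw [h8]
  exact I3_cap c h7

end

end Pool.Agent.MP_5cfeaf_gt.W

end

section

/-! Block I, file 3b: the curl estimate. -/

set_option autoImplicit false

open MeasureTheory Set Filter Topology Metric
open scoped ENNReal symmDiff Classical InnerProductSpace ContDiff

namespace Pool.Agent.MP_5cfeaf_gt.W

variable {d : ℕ}

section
variable {χ : R d → ℝ} {α : ℝ → ℝ} {e : R d} {κ : ℝ}

/-- `(n . e)^2` -/
noncomputable def I3b_q (P : PF d) (e x : R d) : ℝ := ∑ i, ∑ j, P x i j * e i * e j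

/-- `n_k (n . e)` -/
noncomputable def I3b_b (P : PF d) (e : R d) (k : Fin (d + 1)) (x : R d) : ℝ := ∑ j, P x k j * e j

/-- the components of the cap field -/
noncomputable def I3b_A (χ : R d → ℝ) (α : ℝ → ℝ) (P : PF d) (e : R d) (k : Fin (d + 1)) (x : R d) : ℝ :=
  χ x * (α (I3b_q P e x) * I3b_b P e k x)

theorem I3b_q_sm {P : PF d} (hP : ∀ i j, ContDiff ℝ ∞ fun x => P x i j) (e : R d) :
    ContDiff ℝ ∞ (I3b_q P e) :=
  ContDiff.sum fun i _ => ContDiff.sum fun j _ => ((hP i j).mul contDiff_const).mul contDiff_const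

theorem I3b_b_sm {P : PF d} (hP : ∀ i j, ContDiff ℝ ∞ fun x => P x i j) (e : R d) (k : Fin (d + 1)) :
    ContDiff ℝ ∞ (I3b_b P e k) :=
  ContDiff.sum fun j _ => (hP k j).mul contDiff_const

theorem I3b_A_sm (c : Cap χ α e κ) {P : PF d} (hP : ∀ i j, ContDiff ℝ ∞ fun x => P x i j)
    (k : Fin (d + 1)) : ContDiff ℝ 1 (I3b_A χ α P e k) :=
  c.χ1.mul ((c.α1.comp (H_one (I3b_q_sm hP e))).mul (H_one (I3b_b_sm hP e k)))

theorem I3b_q_eq {P : PF d} {x n : R d} (hP : ∀ i j, P x i j = n i * n j) (e : R d) :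
    I3b_q P e x = ⟪e, n⟫_ℝ ^ 2 := by
  rw [H_inner, sq, Finset.sum_mul_sum, I3b_q]
  exact Finset.sum_congr rfl fun i _ => Finset.sum_congr rfl fun j _ => by rw [hP]; ring

theorem I3b_b_eq {P : PF d} {x n : R d} (hP : ∀ i j, P x i j = n i * n j) (e : R d)
    (k : Fin (d + 1)) : I3b_b P e k x = ⟪e, n⟫_ℝ * n k := by
  rw [H_inner, Finset.sum_mul, I3b_b]
  exact Finset.sum_congr rfl fun j _ => by rw [hP]; ring

theorem I3b_coord {n : R d} (hn : ‖n‖ = 1) (k : Fin (d + 1)) : |n k| ≤ 1 := by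
  rw [← hn, ← Real.norm_eq_abs]
  exact PiLp.norm_apply_le n k

theorem I3b_dlP (P : PF d) (x : R d) (i k j : Fin (d + 1)) :
    |dl P i (fun y => P y k j) x| ≤ √(2 * c2 P x) := by
  refine Real.abs_le_sqrt ?_
  have h1 : dl P i (fun y => P y k j) x ^ 2 ≤ gs P (fun y => P y k j) x :=
    Finset.single_le_sum (f := fun i => dl P i (fun y => P y k j) x ^ 2) (fun _ _ => sq_nonneg _)
      (Finset.mem_univ i)
  have h2 : gs P (fun y => P y k j) x ≤ ∑ j, gs P (fun y => P y k j) x :=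
    Finset.single_le_sum (f := fun j => gs P (fun y => P y k j) x) (fun _ _ => gs_nonneg _ _ _)
      (Finset.mem_univ j)
  have h3 : ∑ j, gs P (fun y => P y k j) x ≤ ∑ k, ∑ j, gs P (fun y => P y k j) x :=
    Finset.single_le_sum (f := fun k => ∑ j, gs P (fun y => P y k j) x)
      (fun _ _ => Finset.sum_nonneg fun _ _ => gs_nonneg _ _ _) (Finset.mem_univ k)
  unfold c2
  linarith

theorem I3b_dl_b {P : PF d} (hP : ∀ i j, ContDiff ℝ ∞ fun x => P x i j) (he : ‖e‖ = 1) (x : R d)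
    (i k : Fin (d + 1)) : |dl P i (I3b_b P e k) x| ≤ (d + 1) * √(2 * c2 P x) := by
  have h1 : dl P i (I3b_b P e k) x = ∑ j, dl P i (fun y => P y k j) x * e j := by
    unfold I3b_b
    rw [dl_sum _ fun j _ => (H_diff (hP k j) x).mul_const _]
    refine Finset.sum_congr rfl fun j _ => ?_
    rw [dl_mul (H_diff (hP k j) x) (differentiableAt_const _), dl_const, mul_zero, add_zero]
  rw [h1]
  refine (Finset.abs_sum_le_sum_abs _ _).trans ((Finset.sum_le_card_nsmul _ _ (√(2 * c2 P x))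
    fun j _ => ?_).trans (by simp only [Finset.card_univ, Fintype.card_fin, Nat.ofNat_nonneg, Real.sqrt_mul, nsmul_eq_mul, Nat.cast_add, Nat.cast_one, Std.le_refl]))
  rw [abs_mul]
  exact (mul_le_of_le_one_right (abs_nonneg _) (I3b_coord he j)).trans (I3b_dlP P x i k j)

theorem I3b_dl_q {P : PF d} (hP : ∀ i j, ContDiff ℝ ∞ fun x => P x i j) (he : ‖e‖ = 1) (x : R d)
    (i : Fin (d + 1)) : |dl P i (I3b_q P e) x| ≤ (d + 1) * ((d + 1) * √(2 * c2 P x)) := by
  have h0 : I3b_q P e = fun y => ∑ k, I3b_b P e k y * e k := by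
    funext y
    simp only [I3b_q, I3b_b, Finset.sum_mul]
    exact Finset.sum_congr rfl fun k _ => Finset.sum_congr rfl fun j _ => by ring
  have h1 : dl P i (I3b_q P e) x = ∑ k, dl P i (I3b_b P e k) x * e k := by
    rw [h0, dl_sum _ fun k _ => (H_diff (I3b_b_sm hP e k) x).mul_const _]
    refine Finset.sum_congr rfl fun k _ => ?_
    rw [dl_mul (H_diff (I3b_b_sm hP e k) x) (differentiableAt_const _), dl_const, mul_zero, add_zero]
  rw [h1]
  refine (Finset.abs_sum_le_sum_abs _ _).trans ((Finset.sum_le_card_nsmul _ _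
    ((d + 1) * √(2 * c2 P x)) fun k _ => ?_).trans (by simp only [Finset.card_univ, Fintype.card_fin, Nat.ofNat_nonneg, Real.sqrt_mul, nsmul_eq_mul, Nat.cast_add, Nat.cast_one, Std.le_refl]))
  rw [abs_mul]
  exact (mul_le_of_le_one_right (abs_nonneg _) (I3b_coord he k)).trans (I3b_dl_b hP he x i k)

theorem I3b_dl_A (c : Cap χ α e κ) {M : ℝ} (hM : ∀ t ∈ Icc (0 : ℝ) 1, |deriv α t| ≤ M) {P : PF d}
    (hP : ∀ i j, ContDiff ℝ ∞ fun x => P x i j) {x n : R d} (hn : ‖n‖ = 1)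
    (hx : ∀ i j, P x i j = n i * n j) (i k : Fin (d + 1)) :
    |dl P i (I3b_A χ α P e k) x| ≤ (M * (d + 1) + 1) * ((d + 1) * √(2 * c2 P x)) +
      ‖fderiv ℝ χ x‖ * α (I3b_q P e x) := by
  have hχ := c.χ1.differentiable one_ne_zero x
  have hα := (c.α1.differentiable one_ne_zero (I3b_q P e x)).hasDerivAt
  have hq := H_diff (I3b_q_sm hP e) x
  have hb := H_diff (I3b_b_sm hP e k) x
  have hαq : DifferentiableAt ℝ (fun y => α (I3b_q P e y)) x := hα.differentiableAt.comp x hq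
  have hen : |⟪e, n⟫_ℝ| ≤ 1 := (abs_real_inner_le_norm e n).trans (by rw [c.unit, hn, one_mul])
  have hb1 : |I3b_b P e k x| ≤ 1 := by
    rw [I3b_b_eq hx, abs_mul]
    exact mul_le_one₀ hen (abs_nonneg _) (I3b_coord hn k)
  have hq1 : I3b_q P e x ∈ Icc (0 : ℝ) 1 := by
    rw [I3b_q_eq hx]
    exact ⟨sq_nonneg _, (sq_le_one_iff_abs_le_one _).2 hen⟩
  have hd : |dl P i χ x| ≤ ‖fderiv ℝ χ x‖ := by
    refine abs_le_of_sq_le_sq' ?_ (norm_nonneg _) |> abs_le.2
    have h1 : dl P i χ x ^ 2 ≤ gs P χ x :=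
      Finset.single_le_sum (f := fun i => dl P i χ x ^ 2) (fun _ _ => sq_nonneg _) (Finset.mem_univ i)
    rw [H_gs hn hx] at h1
    exact h1.trans (sub_le_self _ (sq_nonneg _))
  unfold I3b_A
  rw [dl_mul hχ (hαq.fun_mul hb), dl_mul hαq hb, dl_comp hα hq]
  have a0 := (c.α01 (I3b_q P e x)).1
  have a1 := (c.α01 (I3b_q P e x)).2
  have M0 : 0 ≤ M := (abs_nonneg _).trans (hM _ hq1)
  have s0 : (0 : ℝ) ≤ (d + 1) * √(2 * c2 P x) := by positivity
  have t1 : |dl P i χ x * (α (I3b_q P e x) * I3b_b P e k x)| ≤ ‖fderiv ℝ χ x‖ * α (I3b_q P e x) := by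
    rw [abs_mul, abs_mul, abs_of_nonneg a0]
    exact mul_le_mul hd (mul_le_of_le_one_right a0 hb1) (by positivity) (norm_nonneg _)
  have t2 : |deriv α (I3b_q P e x) * dl P i (I3b_q P e) x * I3b_b P e k x| ≤
      M * ((d + 1) * ((d + 1) * √(2 * c2 P x))) := by
    rw [abs_mul, abs_mul]
    exact (mul_le_of_le_one_right (by positivity) hb1).trans
      (mul_le_mul (hM _ hq1) (I3b_dl_q hP c.unit x i) (abs_nonneg _) M0)
  have t3 : |α (I3b_q P e x) * dl P i (I3b_b P e k) x| ≤ (d + 1) * √(2 * c2 P x) := by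
    rw [abs_mul, abs_of_nonneg a0]
    exact (mul_le_of_le_one_left (abs_nonneg _) a1).trans (I3b_dl_b hP c.unit x i k)
  have t4 := (abs_add_le _ _).trans (add_le_add t2 t3)
  refine (abs_add_le _ _).trans ?_
  rw [abs_mul (χ x), abs_of_nonneg (c.χ01 x).1]
  have t5 := (mul_le_of_le_one_left (abs_nonneg _) (c.χ01 x).2).trans t4
  linarith only [t1, t5]

theorem I3b_pr : Continuous (pr : R d → E d) := by
  obtain ⟨L, hL⟩ := exists_prL d
  exact (funext hL : ⇑L = pr) ▸ L.continuous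

theorem I3b_pr_le (x : R d) : ‖pr x‖ ≤ ‖x‖ :=
  abs_le_of_sq_le_sq' (by rw [norm_sq_coord x]; exact le_add_of_nonneg_right (sq_nonneg _))
    (norm_nonneg _) |>.2

theorem I3b_Kc : IsCompact (Kc d) :=
  (isCompact_closedBall (0 : R d) 16).of_isClosed_subset
    ((isClosed_le continuous_const continuous_norm).inter (isClosed_le continuous_norm continuous_const))
    fun _ hx => mem_closedBall_zero_iff.2 hx.2

theorem I3b_An : An 16⁻¹ 16 ⊆ Kc d := fun _ hx => ⟨hx.1.le, hx.2.le⟩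

theorem I3b_An_m : MeasurableSet (An 16⁻¹ 16 : Set (R d)) :=
  ((isOpen_lt continuous_const continuous_norm).inter
    (isOpen_lt continuous_norm continuous_const)).measurableSet

theorem I3b_T_m : MeasurableSet (An 16⁻¹ 16 ∩ pr ⁻¹' D6 d : Set (R d)) :=
  I3b_An_m.inter ((((isOpen_lt continuous_const continuous_norm).inter
    (isOpen_lt continuous_norm continuous_const)).preimage I3b_pr).measurableSet)

theorem I3b_io {μ : Measure (R d)} (h : μ (Kc d) < ⊤) {F : R d → ℝ} (hF : Continuous F) :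
    IntegrableOn F (An 16⁻¹ 16) μ :=
  hF.continuousOn.integrableOn_of_subset_isCompact I3b_Kc I3b_An_m I3b_An
    ((measure_mono I3b_An).trans_lt h).ne

theorem I3b_sqrt {c η : ℝ} (hc : 0 ≤ c) (hη : 0 < η) : √(2 * c) ≤ η + η⁻¹ * c := by
  refine Real.sqrt_le_iff.2 ⟨by positivity, ?_⟩
  have : (η + η⁻¹ * c) ^ 2 = η ^ 2 + 2 * c + (η⁻¹ * c) ^ 2 := by field_simp; ring
  rw [this]
  nlinarith only []

theorem I3b_curl (c : Cap χ α e κ) {V : Vf d} {U : Set (R d)} {P : PF d}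
    (h : Adapted V.fst.support U P) (hU : IsOpen U) (hs : Stat V U) (hK : Kc d ⊆ U) {w : R d → ℝ}
    (hw : Continuous w) (w0 : ∀ x, 0 ≤ w x)
    (hA : ∀ x ∈ V.fst.support ∩ U, ∀ i k, 2 * |dl P i (I3b_A χ α P e k) x| ≤ w x)
    (f : R d → ℝ) (l : Fin d) (K : Set (E d)) (hf : ContDiff ℝ 1 f) (hKc : IsCompact K)
    (hKD : K ⊆ D6 d) (f0 : ∀ x, pr x ∉ K → f x = 0)
    (hv : ∀ᵐ x ∂capM χ α e V, pd (Fin.last d) f x = 0) :
    |∫ x, pd l.castSucc f x ∂capM χ α e V| ≤
      ∫ x in An 16⁻¹ 16 ∩ pr ⁻¹' D6 d, w x * |f x| ∂V.fst := by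
  obtain ⟨Z, hZ⟩ : ∃ Z : Set (R d), Z = pr ⁻¹' K ∩ closedBall 0 15 := ⟨_, rfl⟩
  have Zc : IsCompact Z := hZ ▸ (isCompact_closedBall (0 : R d) 15).inter_left
    (hKc.isClosed.preimage I3b_pr)
  have ZT : Z ⊆ An 16⁻¹ 16 ∩ pr ⁻¹' D6 d := fun x hx => by
    rw [hZ] at hx
    have h1 := (hKD hx.1).1
    have h2 := mem_closedBall_zero_iff.1 hx.2
    have h3 := I3b_pr_le x
    exact ⟨⟨by linarith, by linarith only [h2]⟩, hKD hx.1⟩
  have ZU : Z ⊆ U := fun x hx => hK (I3b_An (ZT hx).1)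
  have hAs := I3b_A_sm c h.1
  have off : ∀ x, x ∉ Z → f =ᶠ[𝓝 x] (fun _ => 0) ∨ ∀ k, I3b_A χ α P e k =ᶠ[𝓝 x] fun _ => 0 := by
    intro x hx
    rw [hZ, mem_inter_iff, not_and_or] at hx
    rcases hx with hx | hx
    · exact Or.inl (eventually_of_mem ((hKc.isClosed.preimage I3b_pr).isOpen_compl.mem_nhds hx)
        fun y hy => f0 y hy)
    · refine Or.inr fun k => eventually_of_mem (isClosed_closedBall.isOpen_compl.mem_nhds hx)
        fun y hy => ?_
      have : 15 ≤ ‖y‖ := (not_le.1 fun h' => hy (mem_closedBall_zero_iff.2 h')).le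
      simp only [I3b_A, c.χzero y this, zero_mul]
  have o1 : ∀ k i x, x ∉ Z → I3b_A χ α P e k x * pd i f x = 0 := fun k i x hx => by
    rcases off x hx with h1 | h1
    · simp [pd, h1.fderiv_eq]
    · rw [(h1 k).self_of_nhds, zero_mul]
  have o2 : ∀ k i x, x ∉ Z → dl P i f x * I3b_A χ α P e k x = 0 := fun k i x hx => by
    rcases off x hx with h1 | h1
    · rw [dl_evEq h1, dl_const, zero_mul]
    · rw [(h1 k).self_of_nhds, mul_zero]
  have o3 : ∀ k i x, x ∉ Z → f x * dl P i (I3b_A χ α P e k) x = 0 := fun k i x hx => by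
    rcases off x hx with h1 | h1
    · rw [h1.self_of_nhds, zero_mul]
    · rw [dl_evEq (h1 k), dl_const, mul_zero]
  have o4 : ∀ k x, x ∉ Z → f x * I3b_A χ α P e k x = 0 := fun k x hx => by
    rcases off x hx with h1 | h1
    · rw [h1.self_of_nhds, zero_mul]
    · rw [(h1 k).self_of_nhds, mul_zero]
  have i1 : ∀ k i, Integrable (fun x => I3b_A χ α P e k x * pd i f x) V.fst := fun k i =>
    hs.1.integrable_fst Zc ZU ((hAs k).continuous.mul (H_pd1 hf i)) (o1 k i)
  have i2 : ∀ k i, Integrable (fun x => dl P i f x * I3b_A χ α P e k x) V.fst := fun k i =>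
    hs.1.integrable_fst Zc ZU ((dl_cont h.1 hf i).mul (hAs k).continuous) (o2 k i)
  have i3 : ∀ k i, Integrable (fun x => f x * dl P i (I3b_A χ α P e k) x) V.fst := fun k i =>
    hs.1.integrable_fst Zc ZU (hf.continuous.mul (dl_cont h.1 (hAs k) i)) (o3 k i)
  have ibp : ∀ k i, ∫ x, dl P i f x * I3b_A χ α P e k x ∂V.fst =
      -∫ x, f x * dl P i (I3b_A χ α P e k) x ∂V.fst := fun k i => by
    have ts : tsupport (fun x => f x * I3b_A χ α P e k x) ⊆ Z :=
      closure_minimal (fun x hx => by_contra fun h' => hx (o4 k x h')) Zc.isClosed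
    have := h.ibp hU hs (g := fun x => f x * I3b_A χ α P e k x)
      ⟨hf.mul (hAs k), Zc.of_isClosed_subset (isClosed_tsupport _) ts, ts.trans ZU⟩ i
    simp only [dl_mul (hf.differentiable one_ne_zero _) ((hAs k).differentiable one_ne_zero _)] at this
    rw [integral_add (i2 k i) (i3 k i)] at this
    linarith only [this]
  have hnu := h.nu_eq hU hs
  have hwt : ∀ᵐ p ∂V, p.1 ∈ An 16⁻¹ 16 → wt χ α e p = I3b_A χ α P e (Fin.last d) p.1 := by
    filter_upwards [hnu] with p hp h1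
    have h2 := hp (hK (I3b_An h1))
    rw [wt, I3b_A, I3b_q_eq h2, I3b_b_eq h2, mul_assoc]
    rfl
  have mS : MeasurableSet ((An 16⁻¹ 16 : Set (R d)) ×ˢ (univ : Set (S d))) :=
    I3b_An_m.prod MeasurableSet.univ
  have e1 : ∫ x, pd l.castSucc f x ∂capM χ α e V =
      ∫ x, I3b_A χ α P e (Fin.last d) x * pd l.castSucc f x ∂V.fst := by
    rw [I3_int c V (H_pd1 hf _), H_integral_fst V ((hAs _).continuous.fun_mul (H_pd1 hf _)),
      ← integral_indicator mS]
    refine integral_congr_ae ?_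
    filter_upwards [hwt] with p hp
    by_cases h1 : p.1 ∈ An 16⁻¹ 16
    · rw [indicator_of_mem (mk_mem_prod h1 (mem_univ _) : p ∈ _), hp h1, mul_comm]
    · rw [indicator_of_notMem fun h' => h1 h'.1, o1 _ _ _ fun h' => h1 (ZT h').1]
  have e2 : ∫ x, I3b_A χ α P e l.castSucc x * pd (Fin.last d) f x ∂V.fst = 0 := by
    rw [H_integral_fst V ((hAs _).continuous.fun_mul (H_pd1 hf _))]
    refine integral_eq_zero_of_ae ?_
    have h1 := ae_of_ae_map measurable_fst.aemeasurable hv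
    rw [ae_withDensity_iff (I3_wt c).1.measurable.ennreal_ofReal, ae_restrict_iff' mS] at h1
    filter_upwards [h1, hnu] with p hp h2
    change _ * _ = (0 : ℝ)
    by_cases h3 : p.1 ∈ An 16⁻¹ 16
    · have h4 := h2 (hK (I3b_An h3))
      by_cases h5 : α (⟪e, (p.2 : R d)⟫_ℝ ^ 2) = 0
      · rw [I3b_A, I3b_q_eq h4, h5, zero_mul, mul_zero, zero_mul]
      by_cases h6 : χ p.1 = 0
      · rw [I3b_A, h6, zero_mul, zero_mul]
      have h7 := (I3_geom c (norm_eq_of_mem_sphere p.2) h5).1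
      rw [hp (mk_mem_prod h3 (mem_univ _) : p ∈ _) (ENNReal.ofReal_pos.2 (mul_pos (mul_pos
        ((c.χ01 _).1.lt_of_ne' h6) ((c.α01 _).1.lt_of_ne' h5)) (by linarith only [h7]))).ne', mul_zero]
    · exact o1 _ _ _ fun h' => h3 (ZT h').1
  have e3 : ∫ x, I3b_A χ α P e (Fin.last d) x * pd l.castSucc f x -
      I3b_A χ α P e l.castSucc x * pd (Fin.last d) f x ∂V.fst =
      ∫ x, dl P l.castSucc f x * I3b_A χ α P e (Fin.last d) x -
        dl P (Fin.last d) f x * I3b_A χ α P e l.castSucc x ∂V.fst := by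
    refine integral_congr_ae ?_
    filter_upwards [Measure.support_mem_ae (μ := V.fst)] with x hx
    by_cases h1 : x ∈ Z
    · obtain ⟨n, -, hn⟩ := h.normal ⟨hx, ZU h1⟩
      simp only [dl, I3b_A, I3b_b_eq hn, hn, mul_assoc, ← Finset.mul_sum]
      ring
    · rw [o1 _ _ _ h1, o1 _ _ _ h1, o2 _ _ _ h1, o2 _ _ _ h1]
  rw [integral_sub (i1 _ _) (i1 _ _), integral_sub (i2 _ _) (i2 _ _), e2, sub_zero, ibp, ibp,
    neg_sub_neg, ← integral_sub (i3 _ _) (i3 _ _)] at e3
  rw [e1, e3, ← integral_indicator I3b_T_m, ← Real.norm_eq_abs]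
  refine norm_integral_le_of_norm_le ((integrable_indicator_iff I3b_T_m).2 ?_) ?_
  · exact (I3b_io (hs.1 _ I3b_Kc hK) (hw.mul hf.continuous.abs)).mono_set inter_subset_left
  · filter_upwards [Measure.support_mem_ae (μ := V.fst)] with x hx
    by_cases h1 : x ∈ Z
    · rw [indicator_of_mem (ZT h1), ← mul_sub, norm_mul, mul_comm, Real.norm_eq_abs, Real.norm_eq_abs]
      refine mul_le_mul_of_nonneg_right ((abs_sub _ _).trans ?_) (abs_nonneg _)
      have h2 := hA x ⟨hx, ZU h1⟩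
      linarith only [h2 (Fin.last d) l.castSucc, h2 l.castSucc (Fin.last d)]
    · rw [o3 _ _ _ h1, o3 _ _ _ h1, sub_zero, norm_zero]
      exact indicator_nonneg (fun y _ => mul_nonneg (w0 y) (abs_nonneg _)) x

/-- `A k x = χ x * α (q x) * ∑ j, P x k j * e j`, `q = ∑ P i j e i e j`; a.e. `wt = A last` (`Adapted.nu_eq`).
`m = (V.fst.restrict (An 16⁻¹ 16 ∩ pr ⁻¹' D6)).withDensity (C √c2 + C ‖fderiv χ‖ α(q))`.
On the support in `U` (`S0_unit`): `A last * pd l f - A l * pd last f = A last * dl l f - A l * dl last f`, and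
`A l = 0` where `A last = 0` (`I3_geom`), so `∫ A l * pd last f = 0`; `Adapted.ibp` for `f * A last` and `f * A l`
(compact support in `Kc`); `|dl i (A k)| ≤ C √c2 + ‖fderiv χ‖ α(q)` (`(dl i (P k j))^2 ≤ 2 c2`, `PtG.gsle` with
`L = ⊥`, `deriv α` bounded on `[0,1]`); `√c2 ≤ η + c2/η`. -/
theorem I3_aflat (c : Cap χ α e κ) : ∃ C > 0, ∀ (V : Vf d) (U : Set (R d)) (P : PF d),
    Adapted V.fst.support U P → IsOpen U → Stat V U → Kc d ⊆ U →
    ∃ m, AFlat (capM χ α e V) m (D6 d) ∧ ∀ η > 0, m.real univ ≤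
      C * (η * V.fst.real (Kc d) + η⁻¹ * ∫ x in An 16⁻¹ 16, c2 P x ∂V.fst + ∫ p, er χ α e p ∂V) := by
  obtain ⟨M, hM⟩ := isCompact_Icc.exists_bound_of_continuousOn
    (c.α1.continuous_deriv le_rfl).continuousOn (s := Icc (0 : ℝ) 1)
  have M0 : 0 ≤ M := (norm_nonneg _).trans (hM 0 (left_mem_Icc.2 zero_le_one))
  obtain ⟨C, hC⟩ : ∃ C : ℝ, C = (M * (d + 1) + 1) * (d + 1) := ⟨_, rfl⟩
  have C0 : 0 ≤ C := by rw [hC]; positivity
  refine ⟨2 * C + 2, by positivity, fun V U P h hU hs hK => ?_⟩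
  obtain ⟨g, hg⟩ : ∃ g : R d → ℝ, g = fun x => ‖fderiv ℝ χ x‖ * α (I3b_q P e x) := ⟨_, rfl⟩
  have gc : Continuous g := hg ▸ (c.χ1.continuous_fderiv one_ne_zero).norm.mul
    (c.α1.continuous.comp (I3b_q_sm h.1 e).continuous)
  have g0 : ∀ x, 0 ≤ g x := fun x => hg ▸ mul_nonneg (norm_nonneg _) (c.α01 _).1
  have cc := (c2_smooth h.1).continuous
  obtain ⟨w, hw⟩ : ∃ w : R d → ℝ, w = fun x => 2 * C * √(2 * c2 P x) + 2 * g x := ⟨_, rfl⟩
  have wc : Continuous w := hw ▸ (continuous_const.mul (continuous_const.mul cc).sqrt).add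
    (continuous_const.mul gc)
  have w0 : ∀ x, 0 ≤ w x := fun x => by have := g0 x; rw [hw]; positivity
  have fin := hs.1 _ I3b_Kc hK
  have io : ∀ {F : R d → ℝ}, Continuous F → IntegrableOn F (An 16⁻¹ 16) V.fst := fun hF =>
    I3b_io fin hF
  have iT : ∀ {F : R d → ℝ}, Continuous F → IntegrableOn F (An 16⁻¹ 16 ∩ pr ⁻¹' D6 d) V.fst :=
    fun hF => (io hF).mono_set inter_subset_left
  have im : ∀ F : R d → ℝ, ∫ x, F x ∂(V.fst.restrict (An 16⁻¹ 16 ∩ pr ⁻¹' D6 d)).withDensity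
      (fun x => ENNReal.ofReal (w x)) = ∫ x in An 16⁻¹ 16 ∩ pr ⁻¹' D6 d, w x * F x ∂V.fst := fun F => by
    rw [integral_withDensity_eq_integral_toReal_smul wc.measurable.ennreal_ofReal
      (Eventually.of_forall fun _ => ENNReal.ofReal_lt_top)]
    simp only [ENNReal.toReal_ofReal (w0 _), smul_eq_mul]
  refine ⟨(V.fst.restrict (An 16⁻¹ 16 ∩ pr ⁻¹' D6 d)).withDensity fun x => ENNReal.ofReal (w x),
    ⟨I3_fin c fin, isFiniteMeasure_withDensity_ofReal (iT wc).2, ?_, ?_, ?_⟩, fun η hη => ?_⟩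
  · exact I3_ae c V (isClosed_le continuous_norm continuous_const).measurableSet
      (Eventually.of_forall fun p h1 _ => h1.2.le)
  · exact (withDensity_absolutelyContinuous _ _).ae_le
      ((ae_restrict_mem I3b_T_m).mono fun x hx => hx.1.2.le)
  · intro f l K hf hKc hKD f0 hv
    rw [im]
    refine I3b_curl c h hU hs hK wc w0 (fun x hx i k => ?_) f l K hf hKc hKD f0 hv
    obtain ⟨n, h1, h2⟩ := h.normal hx
    have := I3b_dl_A c (fun t ht => hM t ht) h.1 h1 h2 i k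
    rw [hw, hg, hC]
    linarith only [this]
  have m1 := im fun _ => 1
  rw [integral_const, smul_eq_mul, mul_one] at m1
  have b1 : ∫ x in An 16⁻¹ 16 ∩ pr ⁻¹' D6 d, √(2 * c2 P x) ∂V.fst ≤
      η * V.fst.real (Kc d) + η⁻¹ * ∫ x in An 16⁻¹ 16, c2 P x ∂V.fst := by
    refine (setIntegral_mono_set (io (continuous_const.mul cc).sqrt)
      (Eventually.of_forall fun _ => Real.sqrt_nonneg _) inter_subset_left.eventuallyLE).trans ?_
    refine (integral_mono (g := fun x => η + η⁻¹ * c2 P x) (io (continuous_const.mul cc).sqrt)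
      (io (continuous_const.add (continuous_const.mul cc)))
      fun x => I3b_sqrt (c2_nonneg P x) hη).trans ?_
    rw [integral_add (io continuous_const) ((io cc).const_mul _), integral_const_mul,
      setIntegral_const, smul_eq_mul, mul_comm]
    exact add_le_add (mul_le_mul_of_nonneg_left (measureReal_mono I3b_An fin.ne) hη.le) le_rfl
  obtain ⟨e1, e2, e3, -⟩ := I3_er c
  have b2 : ∫ x in An 16⁻¹ 16 ∩ pr ⁻¹' D6 d, g x ∂V.fst ≤ ∫ p, er χ α e p ∂V := by
    rw [← integral_indicator I3b_T_m, Measure.fst, integral_map measurable_fst.aemeasurable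
      (gc.measurable.indicator I3b_T_m).aestronglyMeasurable]
    refine integral_mono_of_nonneg (Eventually.of_forall fun p => indicator_nonneg (fun y _ => g0 y) _)
      (hs.1.integrable I3b_Kc hK e1 fun p hp => by_contra fun h' => hp
        ⟨by linarith only [(e3 p h').1], by linarith only [(e3 p h').2]⟩) ?_
    filter_upwards [h.nu_eq hU hs] with p hp
    by_cases h1 : p.1 ∈ An 16⁻¹ 16 ∩ pr ⁻¹' D6 d
    · have h2 : ‖pr p.1‖ < 6 := h1.2.2
      rw [indicator_of_mem h1, er, hg, min_eq_left (by linarith only [h2]), max_eq_right zero_le_one, one_mul]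
      simp only [I3b_q_eq (hp (hK (I3b_An h1.1))), le_refl]
    · rw [indicator_of_notMem h1]
      exact e2 p
  have n1 : 0 ≤ η * V.fst.real (Kc d) + η⁻¹ * ∫ x in An 16⁻¹ 16, c2 P x ∂V.fst :=
    (integral_nonneg fun _ => Real.sqrt_nonneg _).trans b1
  have n2 : 0 ≤ ∫ p, er χ α e p ∂V := integral_nonneg e2
  rw [m1]
  simp only [mul_one, hw]
  rw [integral_add ((iT (F := fun x => √(2 * c2 P x)) (continuous_const.mul cc).sqrt).const_mul _)
    ((iT gc).const_mul _), integral_const_mul, integral_const_mul]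
  linarith only [mul_le_mul_of_nonneg_left b1 C0, mul_nonneg C0 n2, b2, n1]

end

end Pool.Agent.MP_5cfeaf_gt.W

end

section

/-! Block I, file 6b: integer valued functions close to a constant. -/

set_option autoImplicit false

open MeasureTheory Set Filter Topology Metric
open scoped ENNReal symmDiff Classical InnerProductSpace ContDiff

namespace Pool.Agent.MP_5cfeaf_gt.W

variable {d : ℕ}

/-- from continuous test functions to measurable subsets of the ball -/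
theorem I6b_aux {m : ℕ} {φ : E m → ℝ} (hφ : Measurable φ) {C a η r : ℝ} {y : E m}
    (hb : ∀ z, |φ z| ≤ C) (h : ∀ g : E m → ℝ, Continuous g → HasCompactSupport g →
      (∀ z, 0 ≤ g z ∧ g z ≤ 1) → (∀ z, z ∉ ball y r → g z = 0) → ∫ z, g z * φ z ≤ η)
    {A : Set (E m)} (hA : MeasurableSet A) (hAb : A ⊆ ball y r) (ha : 0 ≤ a)
    (haA : ∀ z ∈ A, a ≤ φ z) : a * (volume : Measure (E m)).real A ≤ η := by
  have hC : 0 ≤ C := (abs_nonneg _).trans (hb y)
  have hfin : volume A ≠ ⊤ := ((measure_mono hAb).trans_lt measure_ball_lt_top).ne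
  refine le_of_forall_pos_le_add fun ε hε => ?_
  have hp : 0 < ε / (2 * (a + C + 1)) := by positivity
  have hp' : ENNReal.ofReal (ε / (2 * (a + C + 1))) ≠ 0 := (ENNReal.ofReal_pos.2 hp).ne'
  obtain ⟨K, hKA, hK, hK'⟩ := hA.exists_isCompact_sdiff_lt hfin hp'
  obtain ⟨U, hAU, hU, hUf, hU'⟩ := hA.exists_isOpen_sdiff_lt hfin hp'
  obtain ⟨g, g1, g0, gc, g01⟩ := exists_continuous_one_zero_of_isCompact hK
    (hU.inter isOpen_ball).isClosed_compl
    (disjoint_compl_right_iff_subset.2 (subset_inter (hKA.trans hAU) (hKA.trans hAb)))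
  have hD : MeasurableSet (U \ K) := hU.measurableSet.diff hK.measurableSet
  have hDf : volume (U \ K) ≠ ⊤ := ((measure_mono sdiff_subset).trans_lt hUf).ne
  have hDr : (volume : Measure (E m)).real (U \ K) ≤ ε / (a + C + 1) := by
    have h1 : U \ K ⊆ (U \ A) ∪ (A \ K) := fun z hz => by
      by_cases hzA : z ∈ A
      · exact Or.inr ⟨hzA, hz.2⟩
      · exact Or.inl ⟨hz.1, hzA⟩
    refine ENNReal.toReal_le_of_le_ofReal (by positivity) ((measure_mono h1).trans
      ((measure_union_le _ _).trans ((add_le_add hU'.le hK'.le).trans_eq ?_)))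
    rw [← ENNReal.ofReal_add hp.le hp.le]
    congr 1
    field_simp
    norm_num
  have i1 : Integrable (A.indicator fun _ : E m => a) :=
    (integrable_indicator_iff hA).2 (integrableOn_const hfin)
  have i2 : Integrable ((U \ K).indicator fun _ : E m => a + C) :=
    (integrable_indicator_iff hD).2 (integrableOn_const hDf)
  have i3 : Integrable fun z => g z * φ z :=
    (g.continuous.integrable_of_hasCompactSupport gc).mul_bdd hφ.aestronglyMeasurable
      (ae_of_all _ hb)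
  have h1 := h g g.continuous gc g01 fun z hz => g0 fun hh => hz hh.2
  have h2 : ∫ z, (A.indicator (fun _ => a) z - (U \ K).indicator (fun _ => a + C) z) ≤
      ∫ z, g z * φ z := by
    refine integral_mono (i1.sub i2) i3 fun z => ?_
    by_cases hzK : z ∈ K
    · have e1 : g z = 1 := g1 hzK
      simp only [indicator_of_mem (hKA hzK), indicator_of_notMem (show z ∉ U \ K from
        fun hh => hh.2 hzK), e1, one_mul, sub_zero]
      exact haA z (hKA hzK)
    · by_cases hzU : z ∈ U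
      · have e1 : A.indicator (fun _ => a) z ≤ a := indicator_le_self' (fun _ _ => ha) z
        have e2 := (abs_le.1 (hb z)).1
        have e3 := g01 z
        simp only [indicator_of_mem (show z ∈ U \ K from ⟨hzU, hzK⟩)]
        nlinarith only [e3.1, e3.2, hC, e1, e2]
      · have e1 : g z = 0 := g0 fun hh => hzU hh.1
        simp only [indicator_of_notMem (show z ∉ A from fun hh => hzU (hAU hh)),
          indicator_of_notMem (show z ∉ U \ K from fun hh => hzU hh.1), e1, zero_mul, sub_zero,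
          le_refl]
  rw [integral_sub i1 i2, integral_indicator_const _ hA, integral_indicator_const _ hD,
    smul_eq_mul, smul_eq_mul] at h2
  have h3 : (volume : Measure (E m)).real (U \ K) * (a + C) ≤ ε := by
    refine (mul_le_mul_of_nonneg_right hDr (by positivity)).trans ?_
    rw [div_mul_eq_mul_div, div_le_iff₀ (by positivity)]
    linarith only [hε]
  linarith only [h1, h2, h3]

/-- `k = ⌊Θ⌋`; the hypothesis extends to indicators of measurable subsets of the ball (compact `K ⊆ A ⊆ U ⊆ ball`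
open, Urysohn); test `{N ≤ k}` and `{k + 1 ≤ N}`. -/
theorem I6_nat {m : ℕ} {N : E m → ℕ} {M : ℕ} (hN : Measurable N) (hM : ∀ y, N y ≤ M) {Θ η r : ℝ}
    {y : E m} (hΘ : 0 ≤ Θ) (h : ∀ g : E m → ℝ, Continuous g → (∀ z, 0 ≤ g z ∧ g z ≤ 1) →
      (∀ z, z ∉ ball y r → g z = 0) → |(∫ z, g z * N z) - Θ * ∫ z, g z| ≤ η) :
    ∃ k : ℕ, |Θ - k| * (volume : Measure (E m)).real (ball y r) ≤ 2 * η := by
  have hm : Measurable fun z => (N z : ℝ) := measurable_from_top.comp hN
  have hb : ∀ z, |(N z : ℝ) - Θ| ≤ M + Θ := fun z => by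
    have h1 : (N z : ℝ) ≤ M := by exact_mod_cast hM z
    have h2 : (0 : ℝ) ≤ N z := Nat.cast_nonneg _
    rw [abs_le]
    constructor <;> linarith
  have h' : ∀ g : E m → ℝ, Continuous g → HasCompactSupport g → (∀ z, 0 ≤ g z ∧ g z ≤ 1) →
      (∀ z, z ∉ ball y r → g z = 0) → |∫ z, g z * (N z - Θ)| ≤ η := fun g g1 g2 g3 g4 => by
    have i1 := g1.integrable_of_hasCompactSupport (μ := volume) g2
    have i2 : Integrable fun z => g z * (N z : ℝ) :=
      i1.mul_bdd (c := M) hm.aestronglyMeasurable (ae_of_all _ fun z => by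
        rw [Real.norm_natCast]
        exact_mod_cast hM z)
    simp only [mul_sub]
    rw [integral_sub i2 (i1.mul_const Θ), integral_mul_const, mul_comm _ Θ]
    exact h g g1 g3 g4
  have hA : MeasurableSet {z | N z ≤ ⌊Θ⌋₊} := hN (MeasurableSet.of_discrete (s := Iic ⌊Θ⌋₊))
  have a1 : 0 ≤ Θ - ⌊Θ⌋₊ := sub_nonneg.2 (Nat.floor_le hΘ)
  have a2 : 0 ≤ (⌊Θ⌋₊ : ℝ) + 1 - Θ := sub_nonneg.2 (Nat.lt_floor_add_one Θ).le
  have h1 := I6b_aux (φ := fun z => Θ - N z) (η := η) (hm.const_sub Θ)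
    (fun z => (abs_sub_comm _ _).trans_le (hb z)) (fun g g1 g2 g3 g4 => by
      have := (abs_le.1 (h' g g1 g2 g3 g4)).1
      rw [neg_le, ← integral_neg] at this
      refine le_of_eq_of_le (integral_congr_ae (ae_of_all _ fun z => ?_)) this
      simp only
      ring) (measurableSet_ball.inter hA) inter_subset_left a1 fun z hz => by
    have : (N z : ℝ) ≤ ⌊Θ⌋₊ := by exact_mod_cast hz.2
    linarith
  have h2 := I6b_aux (φ := fun z => N z - Θ) (η := η) (hm.sub_const Θ) hb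
    (fun g g1 g2 g3 g4 => (abs_le.1 (h' g g1 g2 g3 g4)).2) (measurableSet_ball.diff hA)
    sdiff_subset a2 fun z hz => by
    have : (⌊Θ⌋₊ : ℝ) + 1 ≤ N z := by exact_mod_cast (not_le.1 hz.2 : ⌊Θ⌋₊ < N z)
    linarith
  have h3 := measureReal_inter_add_sdiff (μ := (volume : Measure (E m))) (s := ball y r) hA
    measure_ball_lt_top.ne
  have n1 : 0 ≤ (volume : Measure (E m)).real (ball y r ∩ {z | N z ≤ ⌊Θ⌋₊}) := measureReal_nonneg
  have n2 : 0 ≤ (volume : Measure (E m)).real (ball y r \ {z | N z ≤ ⌊Θ⌋₊}) := measureReal_nonneg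
  rw [← h3]
  rcases le_total (Θ - ⌊Θ⌋₊) ((⌊Θ⌋₊ : ℝ) + 1 - Θ) with hc | hc
  · refine ⟨⌊Θ⌋₊, ?_⟩
    rw [abs_of_nonneg a1]
    linarith only [mul_le_mul_of_nonneg_right hc n2, h1, h2]
  · refine ⟨⌊Θ⌋₊ + 1, ?_⟩
    rw [abs_sub_comm, Nat.cast_succ, abs_of_nonneg a2]
    linarith only [mul_le_mul_of_nonneg_right hc n1, h1, h2]

end Pool.Agent.MP_5cfeaf_gt.W

end
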