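import Pool.Agent.MP_5cfeaf_gt.PerA

attribute [-instance] ProperSMul.toContinuousSMul NonarchimedeanAddGroup.toIsTopologicalAddGroup
  TotallySeparatedSpace.t2Space IsScalarTower.complexToReal AddQuantale.instAddLeftMono
  RKHS.instFunLike IsTopologicalSemiring.toContinuousAdd
  IsValuativeTopology.instValuedValueGroupWithZeroOfIsUniformAddGroup
  CoalgHomClass.toSemilinearMapClass littleWedderburn IsValuativeTopology.instIsTopologicalAddGroup
  NonUnitalNonAssocSemiring.toMulZeroClass NonUnitalNonAssocSemiring.toAddCommMonoid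
  MeasureTheory.sigmaFinite_of_locallyFinite Group.IsPerfect.subsingleton_of_isMulCommutative
  IdemSemiring.toCanonicallyOrderedAdd CommRing.toRing LieAdmissibleAlgebra.toSMulCommClass
  LieAdmissibleAlgebra.toIsScalarTower NonUnitalAlgSemiHomClass.toDistribMulActionSemiHomClass
  MeasureTheory.instSFiniteOfCountable NumberField.to_charZero RightPreLieAlgebra.toSMulCommClass
  IsTopologicalTorsor.toContinuousSMul TopologicalSpace.NoetherianSpace.compactSpace
  RingHomClass.toLinearMapClassNNRat RightPreLieAlgebra.toIsScalarTower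
  LeftPreLieAlgebra.toIsScalarTower LeftPreLieAlgebra.toSMulCommClass AddQuantale.instAddRightMono
  RingHomClass.toLinearMapClassRat IdemSemiring.toSemiring MulZeroOneClass.toMulZeroClass
  DiscreteUniformity.instDiscreteTopology IsTopologicalRing.toContinuousNeg
  MonoidWithZeroHomClass.toZeroHomClass NonUnitalRing.toNonUnitalNonAssocRing
  Quantale.instMulRightMono CStarAlgebra.toNormedRing AddCommGroupWithOne.toAddGroupWithOne
  Topology.IsLowerSet.toAlexandrovDiscrete MeasureTheory.instIsLocallyFiniteMeasureRestrict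
  MeasurableSingletonClass.toDiscreteMeasurableSpace NonAssocSemiring.toNonUnitalNonAssocSemiring
  NormedCommRing.toCommRing CStarAlgebra.instOrderClosedTopology
  IsIsometricSMul.to_continuousConstSMul SeminormedRing.toNonUnitalSeminormedRing
  Quantale.instMulLeftMono AddCommMonoidWithOne.toAddCommMonoid EuclideanDomain.toCommRing
  Finite.instDiscreteTopology BooleanRing.toRing Unique.instSubsingleton
  NonUnitalNormedCommRing.toNonUnitalCommRing Valued.toUniformSpace
  NonUnitalSemiring.toNonUnitalNonAssocSemiring LieAdmissibleRing.toNonUnitalNonAssocRing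
  SeminormedCommRing.toCommRing CommMonTypeEquivalenceCommMon.commMonCommMonoid
  MonTypeEquivalenceMon.monMonoid instCoeTOfCoeDep MulSemiringAction.toDistribMulAction
  NormedDivisionRing.toDivisionRing instIndiscreteTopology
  NonUnitalSeminormedCommRing.toNonUnitalCommRing
  NonUnitalNonAssocCommSemiring.toNonUnitalNonAssocSemiring UpgradedStandardBorel.toTopologicalSpace
  instCoeHTCT LieRinehartAlgebra.toIsScalarTower BooleanRing.toCommRing instIsModuleTopology
  instCoeHTC NormedDivisionRing.toNormedRing TestFunctionClass.toDFunLike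
  LinearOrderedAddCommMonoidWithTop.toAddCommMonoid Preorder.smallCategory

section

/-! Change of variables. -/

set_option autoImplicit false

open MeasureTheory Set Filter Topology Metric
open scoped ENNReal symmDiff Classical InnerProductSpace ContDiff

namespace Pool.Agent.MP_5cfeaf_gt.W

variable {d : ℕ}

theorem a6_comp (φ : R d ≃ₜ R d) (hφ : ContDiff ℝ 1 φ) (hφ' : ContDiff ℝ 1 φ.symm) (x : R d) :
    fderiv ℝ φ.symm (φ x) ∘L fderiv ℝ φ x = .id ℝ _ := by
  rw [← fderiv_comp x (hφ'.differentiable one_ne_zero _) (hφ.differentiable one_ne_zero _),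
    φ.symm_comp_self, fderiv_id]

/-- the pull-back of area elements -/
noncomputable def a6_A (φ : R d ≃ₜ R d) (x : R d) : R d →L[ℝ] R d :=
  |(fderiv ℝ φ x).det| • fderiv ℝ φ.symm (φ x)

theorem a6_cont (φ : R d ≃ₜ R d) (hφ : ContDiff ℝ 1 φ) (hφ' : ContDiff ℝ 1 φ.symm) :
    Continuous (a6_A φ) :=
  (ContinuousLinearMap.continuous_det.comp (hφ.continuous_fderiv one_ne_zero)).abs.smul
    ((hφ'.continuous_fderiv one_ne_zero).comp φ.continuous)

theorem a6_cofv (φ : R d ≃ₜ R d) (hφ : ContDiff ℝ 1 φ) (hφ' : ContDiff ℝ 1 φ.symm) (x ν : R d) :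
    cofv (fderiv ℝ φ x) ν = ContinuousLinearMap.adjoint (a6_A φ x) ν := by
  have h := a6_comp φ.symm hφ' hφ (φ x)
  rw [φ.symm_symm, φ.symm_apply_apply] at h
  rw [cofv, ContinuousLinearMap.inverse_eq h (a6_comp φ hφ hφ' x), a6_A, map_smul]
  rfl

theorem a6_ne (φ : R d ≃ₜ R d) (hφ : ContDiff ℝ 1 φ) (hφ' : ContDiff ℝ 1 φ.symm) (x : R d)
    (ν : S d) : ContinuousLinearMap.adjoint (a6_A φ x) ν ≠ 0 := fun h => by
  have h1 := a6_comp φ hφ hφ' x
  have h2 : (fderiv ℝ φ.symm (φ x)).det * (fderiv ℝ φ x).det = 1 := by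
    rw [ContinuousLinearMap.det, ContinuousLinearMap.det, ← LinearMap.det_comp,
      ← ContinuousLinearMap.toLinearMap_comp, h1]
    exact LinearMap.det_id
  have h3 := ContinuousLinearMap.adjoint_inner_left (a6_A φ x) (fderiv ℝ φ x ν) ν
  have h4 : fderiv ℝ φ.symm (φ x) (fderiv ℝ φ x ν) = ν := DFunLike.congr_fun h1 _
  rw [h, inner_zero_left, a6_A, smul_apply, h4, real_inner_smul_right,
    real_inner_self_eq_norm_sq, norm_eq_of_mem_sphere, one_pow, mul_one, eq_comm, abs_eq_zero] at h3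
  rw [h3, mul_zero] at h2
  exact zero_ne_one h2

theorem a6_gauss {Ω U : Set (R d)} (hΩ : MeasurableSet Ω) (hl : U ⊆ lf Ω)
    (φ : R d ≃ₜ R d) (hφ : ContDiff ℝ 1 φ) (hφ' : ContDiff ℝ 1 φ.symm) {T : R d → R d}
    (hT : C1c T (φ '' U)) :
    ∫ y in φ '' Ω, dv T y = ∫ x in U, ⟪a6_A φ x (T (φ x)), (nu Ω x : R d)⟫_ℝ ∂pm Ω := by
  have hs : tsupport (fun x => a6_A φ x (T (φ x))) ⊆ φ ⁻¹' tsupport T :=
    closure_minimal (fun x hx => subset_tsupport _ fun h => hx (by simp only [h, map_zero]))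
      ((isClosed_tsupport T).preimage φ.continuous)
  have hU : tsupport (fun x => a6_A φ x (T (φ x))) ⊆ U := hs.trans
    ((preimage_mono hT.2.2).trans_eq (φ.injective.preimage_image U))
  have h1 := (mol_weak hΩ ((a6_cont φ hφ hφ').clm_apply (hT.1.continuous.comp φ.continuous))
    ((φ.isCompact_preimage.2 hT.2.1).of_isClosed_subset (isClosed_tsupport _) hs) (hU.trans hl)).neg
  rw [setIntegral_eq_integral_of_forall_compl_eq_zero (s := U) fun x hx => by
    rw [image_eq_zero_of_notMem_tsupport fun h => hx (hU h), inner_zero_left]]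
  rw [neg_neg] at h1
  refine tendsto_nhds_unique ?_ h1
  have h2 : ∀ k, -∫ x, fderiv ℝ (mol k Ω) x (a6_A φ x (T (φ x))) =
      ∫ y, mol k Ω (φ.symm y) * dv T y := fun k => by
    have e := integral_image_eq_integral_abs_det_fderiv_smul volume MeasurableSet.univ
      (fun x _ => (hφ.differentiable one_ne_zero x).hasFDerivAt.hasFDerivWithinAt) φ.injective.injOn
      fun y => fderiv ℝ (mol k Ω ∘ φ.symm) y (T y)
    rw [image_univ_of_surjective φ.surjective, Measure.restrict_univ] at e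
    refine Eq.trans ?_ (dv_ibp ((mol_smooth hΩ k).comp hφ') hT).symm
    rw [e]
    refine congrArg _ (integral_congr_ae (Eventually.of_forall fun x => ?_))
    simp only [fderiv_comp _ ((mol_smooth hΩ k).differentiable one_ne_zero _)
      (hφ'.differentiable one_ne_zero _), a6_A, φ.symm_apply_apply, smul_apply,
      map_smul, ContinuousLinearMap.comp_apply]
  have h3 : ∀ᵐ y, Tendsto (fun k => mol k Ω (φ.symm y)) atTop (𝓝 (Ω.indicator 1 (φ.symm y))) :=
    measure_mono_null (fun y hy => by exact ⟨φ.symm y, hy, φ.apply_symm_apply y⟩)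
      (addHaar_image_eq_zero_of_differentiableOn_of_addHaar_eq_zero volume
        (hφ.differentiable one_ne_zero).differentiableOn (mol_ae hΩ))
  refine Tendsto.congr (fun k => (h2 k).symm) ?_
  rw [← integral_indicator (φ.measurableEmbedding.measurableSet_image.2 hΩ)]
  refine tendsto_integral_of_dominated_convergence _ (fun k =>
    (((mol_smooth hΩ k).continuous.comp φ.symm.continuous).mul (dv_cont hT.1)).aestronglyMeasurable)
    (dv_integrable hT).norm (fun k => Eventually.of_forall fun y => ?_) (h3.mono fun y hy => ?_)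
  · rw [norm_mul, Real.norm_of_nonneg (mol_mem Ω k _).1]
    exact mul_le_of_le_one_left (norm_nonneg _) (mol_mem Ω k _).2
  · convert hy.mul_const (dv T y) using 2
    rw [φ.image_eq_preimage_symm]
    by_cases h : φ.symm y ∈ Ω <;> simp [h]

/-- change of variables under a `C^1` diffeomorphism -/
theorem vf_image {Ω U : Set (R d)} (hΩ : MeasurableSet Ω) (hU : IsOpen U) (hl : U ⊆ lf Ω)
    (φ : R d ≃ₜ R d) (hφ : ContDiff ℝ 1 φ) (hφ' : ContDiff ℝ 1 φ.symm) :
    φ '' U ⊆ lf (φ '' Ω) ∧ vf (φ '' Ω) (φ '' U) =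
      ((vf Ω U).withDensity fun p => ENNReal.ofReal ‖cofv (fderiv ℝ φ p.1) p.2‖).map
        fun p => (φ p.1, toS (cofv (fderiv ℝ φ p.1) p.2)) := by
  simp only [a6_cofv φ hφ hφ']
  have hA := a6_cont φ hφ hφ'
  have hC : Measurable fun p : R d × S d => ContinuousLinearMap.adjoint (a6_A φ p.1) p.2 :=
    ((ContinuousLinearMap.adjoint.continuous.comp (hA.comp continuous_fst)).clm_apply
      (continuous_subtype_val.comp continuous_snd)).measurable
  have hG : Measurable fun x => (x, nu Ω x) := measurable_id.prodMk (measurable_nu Ω)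
  have hW := hC.norm.ennreal_ofReal
  have hm := φ.measurableEmbedding
  obtain ⟨h1, h2⟩ := pm_uniq (Ω := φ '' Ω) (φ.isOpen_image.2 hU)
    ((((pm Ω).restrict U).withDensity fun x =>
      ENNReal.ofReal ‖ContinuousLinearMap.adjoint (a6_A φ x) (nu Ω x)‖).map φ) (fun K hK hKU => by
      have hK' := φ.isCompact_preimage.2 hK
      rw [hm.map_apply, withDensity_apply _ hK'.measurableSet]
      refine lt_of_le_of_lt (lintegral_mono fun x => ?_) (setLIntegral_lt_top_of_isCompact
        ((Measure.restrict_le_self _).trans_lt (pm_lt_top hK' (((preimage_mono hKU).trans_eq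
          (φ.injective.preimage_image U)).trans hl))).ne hK' hA.nnnorm)
      rw [← enorm_eq_nnnorm, ← ofReal_norm]
      refine ENNReal.ofReal_le_ofReal ((ContinuousLinearMap.le_opNorm _ _).trans_eq ?_)
      rw [norm_eq_of_mem_sphere, mul_one, LinearIsometryEquiv.norm_map])
    (fun y => toS (ContinuousLinearMap.adjoint (a6_A φ (φ.symm y)) (nu Ω (φ.symm y))))
    (measurable_toS.comp ((hC.comp hG).comp φ.symm.measurable)) fun T hT => by
      rw [a6_gauss hΩ hl φ hφ hφ' hT, hm.integral_map, integral_withDensity_eq_integral_toReal_smul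
        (hW.fun_comp hG) (Eventually.of_forall fun _ => ENNReal.ofReal_lt_top)]
      refine integral_congr_ae (Eventually.of_forall fun x => ?_)
      have := a6_ne φ hφ hφ' x (nu Ω x)
      simp only [φ.symm_apply_apply, toS_coe this, ENNReal.toReal_ofReal (norm_nonneg _),
        real_inner_smul_right, smul_eq_mul, mul_inv_cancel_left₀ (norm_ne_zero_iff.2 this),
        ContinuousLinearMap.adjoint_inner_right]
  refine ⟨h1, h2.trans ?_⟩
  have h3 : (vf Ω U).withDensity (fun p => ENNReal.ofReal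
      ‖ContinuousLinearMap.adjoint (a6_A φ p.1) p.2‖) = (((pm Ω).restrict U).withDensity fun x =>
        ENNReal.ofReal ‖ContinuousLinearMap.adjoint (a6_A φ x) (nu Ω x)‖).map
          fun x => (x, nu Ω x) := Measure.ext fun s hs => by
    rw [withDensity_apply _ hs, vf, setLIntegral_map hs hW hG, Measure.map_apply hG hs,
      withDensity_apply _ (hG hs)]
  rw [h3, hm.restrict_map, φ.injective.preimage_image, restrict_withDensity hU.measurableSet,
    Measure.restrict_restrict_of_subset subset_rfl, Measure.map_map (measurable_id'.prodMk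
      (measurable_toS.fun_comp ((hC.fun_comp hG).fun_comp φ.symm.measurable))) φ.measurable,
    Measure.map_map ((φ.measurable.fun_comp measurable_fst).prodMk (measurable_toS.fun_comp hC)) hG]
  simp only [Function.comp_def, φ.symm_apply_apply]

end Pool.Agent.MP_5cfeaf_gt.W

end

section

/-! Expansion of the area element. -/

set_option autoImplicit false

open MeasureTheory Set Filter Topology Metric
open scoped ENNReal symmDiff Classical InnerProductSpace ContDiff

namespace Pool.Agent.MP_5cfeaf_gt.W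

variable {d : ℕ}

/-- matrix of an operator -/
noncomputable def a7_mat (M : R d →L[ℝ] R d) : Matrix (Fin (d + 1)) (Fin (d + 1)) ℝ :=
  Matrix.of fun i j => M (EuclideanSpace.single j 1) i

theorem a7_det (M : R d →L[ℝ] R d) : M.det = (a7_mat M).det := by
  rw [ContinuousLinearMap.det,
    ← LinearMap.det_toMatrix (EuclideanSpace.basisFun (Fin (d + 1)) ℝ).toBasis]
  congr 1

theorem a7_smooth : ContDiff ℝ 2 fun M : R d →L[ℝ] R d => (1 + M).det := by
  simp only [a7_det, Matrix.det_apply', a7_mat, Matrix.of_apply]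
  refine ContDiff.sum fun σ _ => contDiff_const.mul (contDiff_prod fun i _ => ?_)
  exact (EuclideanSpace.proj (𝕜 := ℝ) (σ i)).contDiff.comp
    ((contDiff_const.add contDiff_id).clm_apply contDiff_const)

theorem a7_fderiv (M : R d →L[ℝ] R d) : fderiv ℝ (fun M : R d →L[ℝ] R d => (1 + M).det) 0 M =
    ∑ i, M (EuclideanSpace.single i 1) i := by
  have h1 : HasDerivAt (fun t : ℝ => (1 + t • M).det)
      (fderiv ℝ (fun M : R d →L[ℝ] R d => (1 + M).det) 0 M) 0 := by
    have h2 : HasDerivAt (fun t : ℝ => t • M) M 0 := by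
      simpa using (hasDerivAt_id (0 : ℝ)).smul_const M
    have h3 := ((a7_smooth (d := d)).differentiable (by simp) 0).hasFDerivAt
    exact h3.comp_hasDerivAt_of_eq 0 h2 (zero_smul ℝ M).symm
  have h4 : ∀ t : ℝ, (1 + t • M).det = 1 + (a7_mat M).trace * t +
      (Matrix.det (1 + (Polynomial.X : Polynomial ℝ) • (a7_mat M).map Polynomial.C)).divX.divX.eval t *
        t ^ 2 := by
    intro t
    rw [← Matrix.det_one_add_smul, a7_det]
    congr 1
    ext i j
    simp only [a7_mat, add_apply, one_apply_eq_self, smul_apply, PiLp.add_apply, PiLp.single_apply, PiLp.smul_apply, smul_eq_mul, Matrix.of_apply, Matrix.smul_of, Matrix.add_apply, Matrix.one_apply, Pi.smul_apply]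
  simp only [h4] at h1
  have h5 := (((hasDerivAt_id (0 : ℝ)).const_mul (a7_mat M).trace).const_add 1).add
    (((Matrix.det (1 + (Polynomial.X : Polynomial ℝ) •
      (a7_mat M).map Polynomial.C)).divX.divX.hasDerivAt 0).mul (hasDerivAt_pow 2 (0 : ℝ)))
  have h6 := h1.unique h5
  rw [h6]
  simp only [Matrix.trace, a7_mat, Matrix.diag_apply, Matrix.of_apply, mul_one, ne_eq, OfNat.ofNat_ne_zero, not_false_eq_true, zero_pow, mul_zero, Nat.cast_ofNat, Nat.add_one_sub_one, pow_one, add_zero]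

theorem a7_taylor (d : ℕ) : ∃ K : ℝ, 0 ≤ K ∧ ∀ M M' : R d →L[ℝ] R d, ‖M‖ ≤ 1 / 2 → ‖M'‖ ≤ 1 / 2 →
    |(1 + M).det - (1 + M').det| ≤ K * ‖M - M'‖ ∧
    |(1 + M).det - 1 - ∑ i, M (EuclideanSpace.single i 1) i| ≤ K * ‖M‖ ^ 2 := by
  have hs := a7_smooth (d := d)
  have hc : IsCompact (closedBall (0 : R d →L[ℝ] R d) (1 / 2)) := isCompact_closedBall _ _
  have h1 : ContDiff ℝ 1 fun M : R d →L[ℝ] R d => (1 + M).det := hs.of_le (by norm_num)
  have h2 : ContDiff ℝ 1 (fderiv ℝ fun M : R d →L[ℝ] R d => (1 + M).det) :=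
    hs.fderiv_right (by norm_num)
  obtain ⟨K₁, hK₁⟩ := (h1.locallyLipschitz.locallyLipschitzOn).exists_lipschitzOnWith_of_compact hc
  obtain ⟨K₂, hK₂⟩ := (h2.locallyLipschitz.locallyLipschitzOn).exists_lipschitzOnWith_of_compact hc
  have p1 : (0 : ℝ) ≤ K₁ := K₁.2
  have p2 : (0 : ℝ) ≤ K₂ := K₂.2
  refine ⟨K₁ + K₂, by positivity, fun M M' hM hM' => ⟨?_, ?_⟩⟩
  · have := hK₁.dist_le_mul M (mem_closedBall_zero_iff.2 hM) M' (mem_closedBall_zero_iff.2 hM')
    rw [Real.dist_eq, dist_eq_norm] at this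
    have := mul_nonneg p2 (norm_nonneg (M - M'))
    linarith
  · have h3 := (convex_closedBall (0 : R d →L[ℝ] R d) ‖M‖).norm_image_sub_le_of_norm_fderiv_le'
      (𝕜 := ℝ) (f := fun M : R d →L[ℝ] R d => (1 + M).det) (C := K₂ * ‖M‖)
      (φ := fderiv ℝ (fun M : R d →L[ℝ] R d => (1 + M).det) 0) (x := 0) (y := M)
      (fun x _ => h1.differentiable (by simp) x) (fun x hx => by
        have hx' := mem_closedBall_zero_iff.1 hx
        have := hK₂.dist_le_mul x (mem_closedBall_zero_iff.2 (hx'.trans hM)) 0 (by simp only [one_div, mem_closedBall, dist_self, inv_nonneg, Nat.ofNat_nonneg])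
        rw [dist_eq_norm, dist_zero_right] at this
        exact this.trans (mul_le_mul_of_nonneg_left hx' p2)) (by simp only [mem_closedBall, dist_self, norm_nonneg]) (by simp only [mem_closedBall, dist_zero_right, Std.le_refl])
    rw [sub_zero, a7_fderiv, add_zero, Real.norm_eq_abs] at h3
    have h4 : (1 : R d →L[ℝ] R d).det = 1 := by
      simp [ContinuousLinearMap.det, ContinuousLinearMap.one_def]
    rw [h4] at h3
    have := mul_nonneg p1 (sq_nonneg ‖M‖)
    linarith only [h3, this]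

theorem a7_inv {M : R d →L[ℝ] R d} (hM : ‖M‖ ≤ 1 / 2) :
    (1 + M) * (1 + M).inverse = 1 ∧ (1 + M).inverse * (1 + M) = 1 := by
  have hu : IsUnit (1 + M) := by
    have := (Units.oneSub (-M) (by rw [norm_neg]; linarith)).isUnit
    simpa only [Units.val_oneSub, sub_neg_eq_add] using this
  rw [← ContinuousLinearMap.ringInverse_eq_inverse]
  exact ⟨Ring.mul_inverse_cancel _ hu, Ring.inverse_mul_cancel _ hu⟩

theorem a7_ne {M : R d →L[ℝ] R d} (hM : ‖M‖ ≤ 1 / 2) : (1 + M).det ≠ 0 := by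
  intro h
  have h1 : LinearMap.det (((1 + M) * (1 + M).inverse : R d →L[ℝ] R d) : R d →ₗ[ℝ] R d) = 1 := by
    rw [(a7_inv hM).1]; simp [ContinuousLinearMap.one_def]
  have h2 : LinearMap.det (((1 + M : R d →L[ℝ] R d) : R d →ₗ[ℝ] R d) ∘ₗ
      (((1 + M).inverse : R d →L[ℝ] R d) : R d →ₗ[ℝ] R d)) = 1 := h1
  rw [ContinuousLinearMap.det] at h
  rw [LinearMap.det_comp, h, zero_mul] at h2
  exact zero_ne_one h2

theorem a7_pos {M : R d →L[ℝ] R d} (hM : ‖M‖ ≤ 1 / 2) : 0 < (1 + M).det := by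
  by_contra hn
  push Not at hn
  have h4 : (1 + 0 : R d →L[ℝ] R d).det = 1 := by
    simp [ContinuousLinearMap.det, ContinuousLinearMap.one_def]
  obtain ⟨M', hM', h0⟩ := (convex_closedBall (0 : R d →L[ℝ] R d) (1 / 2)).isPreconnected.intermediate_value
    (f := fun M : R d →L[ℝ] R d => (1 + M).det) (mem_closedBall_zero_iff.2 hM)
    (mem_closedBall_self (by norm_num)) a7_smooth.continuous.continuousOn
    (show (0 : ℝ) ∈ Icc _ _ from ⟨hn, by rw [h4]; norm_num⟩)
  exact a7_ne (mem_closedBall_zero_iff.1 hM') h0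

theorem a7_bounds {M M' : R d →L[ℝ] R d} (hM : ‖M‖ ≤ 1 / 2) (hM' : ‖M'‖ ≤ 1 / 2) :
    ‖(1 + M).inverse‖ ≤ 2 ∧ ‖(1 + M).inverse - 1‖ ≤ 2 * ‖M‖ ∧
      ‖(1 + M).inverse - 1 + M‖ ≤ 2 * ‖M‖ ^ 2 ∧
      ‖(1 + M).inverse - (1 + M').inverse‖ ≤ 4 * ‖M - M'‖ := by
  have one : ‖(1 : R d →L[ℝ] R d)‖ ≤ 1 := ContinuousLinearMap.norm_id_le
  have two : ∀ M : R d →L[ℝ] R d, ‖M‖ ≤ 1 / 2 → ‖(1 + M).inverse‖ ≤ 2 := by
    intro M hM
    have h1 : (1 + M).inverse = 1 - (1 + M).inverse * M := by
      have := (a7_inv hM).2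
      rw [mul_add, mul_one] at this
      exact eq_sub_of_add_eq this
    have h2 : ‖(1 + M).inverse‖ ≤ 1 + ‖(1 + M).inverse‖ * ‖M‖ := by
      conv_lhs => rw [h1]
      exact (norm_sub_le _ _).trans (add_le_add one (norm_mul_le _ _))
    nlinarith only [hM, h2]
  obtain ⟨h1, h2⟩ := a7_inv hM
  obtain ⟨h1', h2'⟩ := a7_inv hM'
  have t1 := two M hM
  have t2 := two M' hM'
  set N := (1 + M).inverse
  set N' := (1 + M').inverse
  have e1 : N - 1 = -(N * M) := by
    rw [← h2]; noncomm_ring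
  have b1 : ‖N - 1‖ ≤ 2 * ‖M‖ := by
    rw [e1, norm_neg]
    exact (norm_mul_le _ _).trans (mul_le_mul_of_nonneg_right t1 (norm_nonneg _))
  refine ⟨t1, b1, ?_, ?_⟩
  · have e2 : N - 1 + M = -((N - 1) * M) := by
      rw [sub_mul, one_mul, neg_sub (N * M), e1]
      abel
    rw [e2, norm_neg]
    refine (norm_mul_le _ _).trans ?_
    nlinarith only [norm_nonneg M, b1]
  · have e3 : N - N' = -(N * (M - M') * N') := by
      calc N - N' = N * ((1 + M') * N') - N * (1 + M) * N' := by rw [h1', h2, mul_one, one_mul]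
        _ = _ := by
          simp only [add_mul, mul_add, sub_mul, mul_sub, one_mul, mul_one, mul_assoc]
          abel
    rw [e3, norm_neg]
    refine (norm_mul_le _ _).trans ?_
    have := (norm_mul_le N (M - M')).trans (mul_le_mul_of_nonneg_right t1 (norm_nonneg _))
    nlinarith only [norm_nonneg (N * (M - M')), t2, this]

theorem a7_adj (A : R d →L[ℝ] R d) (ν : S d) : ‖ContinuousLinearMap.adjoint A (ν : R d)‖ ≤ ‖A‖ := by
  have := (ContinuousLinearMap.adjoint A).le_opNorm (ν : R d)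
  rwa [LinearIsometryEquiv.norm_map, norm_eq_of_mem_sphere, mul_one] at this

theorem a7_norm (ν : S d) (w : R d) :
    0 ≤ ‖w‖ - 1 - ⟪(ν : R d), w - ν⟫_ℝ ∧ ‖w‖ - 1 - ⟪(ν : R d), w - ν⟫_ℝ ≤ ‖w - ν‖ ^ 2 / 2 := by
  have hν : ‖(ν : R d)‖ = 1 := norm_eq_of_mem_sphere ν
  have h1 := real_inner_le_norm (ν : R d) w
  rw [inner_sub_right, real_inner_self_eq_norm_sq, norm_sub_sq_real, hν, real_inner_comm (ν : R d) w]
  rw [hν] at h1
  constructor
  · linarith
  · linarith only [sq_nonneg (‖w‖ - 1)]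

/-- first order expansion of the area element -/
theorem cofv_expand (d : ℕ) : ∃ C > 0, ∀ (M M' : R d →L[ℝ] R d) (ν : S d), ‖M‖ ≤ 1 / 2 → ‖M'‖ ≤ 1 / 2 →
    |‖cofv (1 + M) ν‖ - 1 - (∑ i, M (EuclideanSpace.single i 1) i - ⟪(ν : R d), M ν⟫_ℝ)| ≤ C * ‖M‖ ^ 2 ∧
    ‖cofv (1 + M) ν - cofv (1 + M') ν‖ ≤ C * ‖M - M'‖ ∧
    ‖(toS (cofv (1 + M) ν) : R d) - ν‖ ≤ C * ‖M‖ ∧ ‖cofv (1 + M) ν‖ ≤ C := by
  obtain ⟨K, hK, hT⟩ := a7_taylor d
  refine ⟨4 * K + 4, by positivity, fun M M' ν hM hM' => ?_⟩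
  have hν : ‖(ν : R d)‖ = 1 := norm_eq_of_mem_sphere ν
  obtain ⟨t1, t2⟩ := hT M M' hM hM'
  have one : (1 + 0 : R d →L[ℝ] R d).det = 1 := by
    simp [ContinuousLinearMap.det, ContinuousLinearMap.one_def]
  have t3 := (hT M 0 hM (by simp only [norm_zero, one_div, inv_nonneg, Nat.ofNat_nonneg])).1
  have t4 := (hT M' 0 hM' (by simp only [norm_zero, one_div, inv_nonneg, Nat.ofNat_nonneg])).1
  rw [one, sub_zero] at t3 t4
  obtain ⟨b1, b2, b3, b4⟩ := a7_bounds hM hM'
  have hp := a7_pos hM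
  have hp' := a7_pos hM'
  simp only [cofv, abs_of_pos hp, abs_of_pos hp']
  set w := ContinuousLinearMap.adjoint (1 + M).inverse (ν : R d) with hw
  set w' := ContinuousLinearMap.adjoint (1 + M').inverse (ν : R d) with hw'
  have a1 : ContinuousLinearMap.adjoint (1 : R d →L[ℝ] R d) = 1 := ContinuousLinearMap.adjoint_id
  have c1 : ‖w‖ ≤ 2 := (a7_adj _ ν).trans b1
  have c2 : ‖w - ν‖ ≤ 2 * ‖M‖ := by
    refine le_trans (le_of_eq ?_) ((a7_adj _ ν).trans b2)
    simp [hw, a1]
  have c3 : ‖w - ν + ContinuousLinearMap.adjoint M (ν : R d)‖ ≤ 2 * ‖M‖ ^ 2 := by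
    refine le_trans (le_of_eq ?_) ((a7_adj _ ν).trans b3)
    simp only [hw, map_add, map_sub, a1, add_apply, sub_apply, one_apply_eq_self]
  have c4 : ‖w - w'‖ ≤ 4 * ‖M - M'‖ := by
    refine le_trans (le_of_eq ?_) ((a7_adj _ ν).trans b4)
    simp only [hw, hw', map_sub, sub_apply]
  have c5 : w ≠ 0 := by
    intro h0
    have h1 : ⟪(1 + M) (ν : R d), w⟫_ℝ = 1 := by
      rw [hw, ContinuousLinearMap.adjoint_inner_right, ← mul_apply_eq_comp, (a7_inv hM).2,
        one_apply_eq_self, real_inner_self_eq_norm_sq, hν, one_pow]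
    rw [h0, inner_zero_right] at h1
    exact zero_ne_one h1
  have c6 : |‖w‖ - 1| ≤ 2 * ‖M‖ := by
    have := abs_norm_sub_norm_le w (ν : R d)
    rw [hν] at this
    exact this.trans c2
  have m0 := norm_nonneg M
  have w0 := norm_nonneg w
  clear_value w w'
  clear hw hw' b1 b2 b3 b4 hT one a1
  generalize (1 + M).det = g at *
  generalize (1 + M').det = g' at *
  have g1 : g ≤ 1 + K / 2 := by
    have := (abs_le.1 t3).2
    nlinarith only [hK, hM, this]
  have g2 : g' ≤ 1 + K / 2 := by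
    have := (abs_le.1 t4).2
    nlinarith only [hK, hM', this]
  refine ⟨?_, ?_, ?_, ?_⟩
  · rw [norm_smul, Real.norm_eq_abs, abs_of_pos hp]
    obtain ⟨n1, n2⟩ := a7_norm ν w
    have n3 := (abs_real_inner_le_norm (ν : R d) _).trans (mul_le_mul hν.le c3 (norm_nonneg _) zero_le_one)
    rw [inner_add_right, ContinuousLinearMap.adjoint_inner_right, real_inner_comm (ν : R d) (M ν),
      one_mul] at n3
    have n4 : ‖w - ν‖ ^ 2 ≤ (2 * ‖M‖) ^ 2 := pow_le_pow_left₀ (norm_nonneg _) c2 2
    have n5 : |‖w‖ - 1 + ⟪(ν : R d), M ν⟫_ℝ| ≤ 4 * ‖M‖ ^ 2 := by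
      obtain ⟨n6, n7⟩ := abs_le.1 n3
      refine abs_le.2 ⟨?_, ?_⟩ <;> nlinarith only [n1, n6, n2, n4, n7]
    have n8 : |(g - 1) * (‖w‖ - 1)| ≤ (K * ‖M‖) * (2 * ‖M‖) := by
      rw [abs_mul]
      exact mul_le_mul t3 c6 (abs_nonneg _) (by positivity)
    obtain ⟨p1, p2⟩ := abs_le.1 n5
    obtain ⟨p3, p4⟩ := abs_le.1 n8
    obtain ⟨p5, p6⟩ := abs_le.1 t2
    have := mul_nonneg hK (sq_nonneg ‖M‖)
    refine abs_le.2 ⟨?_, ?_⟩ <;> linarith only [p1, p3, p4, p5, p2, p6]
  · have e : g • w - g' • w' =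
        (g - g') • w + g' • (w - w') := by
      rw [sub_smul, smul_sub]; abel
    rw [e]
    refine (norm_add_le _ _).trans ?_
    rw [norm_smul, norm_smul, Real.norm_eq_abs, Real.norm_eq_abs, abs_of_pos hp']
    have q1 := mul_le_mul t1 c1 w0 (by positivity)
    have q2 := mul_le_mul g2 c4 (norm_nonneg _) (by positivity)
    linarith only [q1, q2]
  · have hw0 : 0 < ‖w‖ := norm_pos_iff.2 c5
    have e : (toS (g • w) : R d) - ν = (‖w‖⁻¹ - 1) • w + (w - ν) := by
      rw [toS, dif_neg (smul_ne_zero hp.ne' c5)]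
      simp only [norm_smul, Real.norm_eq_abs, abs_of_pos hp, smul_smul, sub_smul, one_smul]
      rw [show (g * ‖w‖)⁻¹ * g = ‖w‖⁻¹ by field_simp]
      abel
    rw [e]
    refine (norm_add_le _ _).trans ?_
    have q : ‖(‖w‖⁻¹ - 1) • w‖ = |‖w‖ - 1| := by
      rw [norm_smul, Real.norm_eq_abs, ← abs_of_pos hw0, ← abs_mul, abs_of_pos hw0, abs_sub_comm ‖w‖]
      congr 1
      field_simp
    rw [q]
    have := mul_nonneg hK m0
    linarith only [c2, c6, this]
  · rw [norm_smul, Real.norm_eq_abs, abs_of_pos hp]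
    have := mul_le_mul g1 c1 w0 (by positivity)
    linarith only [hK, this]

end Pool.Agent.MP_5cfeaf_gt.W

end

section

/-! Small perturbations of the identity. -/

set_option autoImplicit false

open MeasureTheory Set Filter Topology Metric
open scoped ENNReal symmDiff Classical InnerProductSpace ContDiff

namespace Pool.Agent.MP_5cfeaf_gt.W

variable {d : ℕ}

theorem a8_lip {X : R d → R d} (hX : ContDiff ℝ 1 X) (hb : ∀ x, ‖fderiv ℝ X x‖ ≤ 1 / 2) (x y : R d) :
    ‖X x - X y‖ ≤ 1 / 2 * ‖x - y‖ :=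
  convex_univ.norm_image_sub_le_of_norm_fderiv_le (𝕜 := ℝ)
    (fun z _ => (hX.differentiable one_ne_zero) z) (fun z _ => hb z) (mem_univ y) (mem_univ x)

theorem a8_vol {f : R d → R d} (hf : LipschitzWith 2 f) (A : Set (R d)) :
    volume (f '' A) ≤ 2 ^ (d + 1) * volume A := by
  have h := hf.hausdorffMeasure_image_le (d := ((d + 1 : ℕ) : ℝ)) (by positivity) A
  rw [← EuclideanSpace.euclideanHausdorffMeasure_eq_volume, Measure.euclideanHausdorffMeasure_def,
    Measure.smul_apply, Measure.smul_apply, ENNReal.smul_def, ENNReal.smul_def, smul_eq_mul,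
    smul_eq_mul, mul_left_comm]
  rw [ENNReal.rpow_natCast] at h
  gcongr
  simpa only [Nat.cast_add, Nat.cast_one, ENNReal.coe_ofNat] using h

/-- small compactly supported perturbations of the identity are diffeomorphisms -/
theorem exists_diffeo {X : R d → R d} (hX : C1c X univ) (hb : ∀ x, ‖fderiv ℝ X x‖ ≤ 1 / 2) :
    ∃ φ : R d ≃ₜ R d, (∀ x, φ x = x + X x) ∧ ContDiff ℝ 1 φ ∧ ContDiff ℝ 1 φ.symm ∧
      (∀ U, tsupport X ⊆ U → φ '' U = U) ∧
      ∀ A, volume (φ '' A) ≤ 2 ^ (d + 1) * volume A := by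
  have hap : ApproximatesLinearOn (fun x => x + X x)
      ((ContinuousLinearEquiv.refl ℝ (R d) : R d ≃L[ℝ] R d) : R d →L[ℝ] R d) univ (1 / 2) := by
    intro x _ y _
    have h := a8_lip hX.1 hb x y
    have e : x + X x - (y + X y) - (x - y) = X x - X y := by abel
    simpa only [ContinuousLinearEquiv.coe_refl, ContinuousLinearMap.id_apply, e, one_div, NNReal.coe_inv, NNReal.coe_ofNat, ge_iff_le] using h
  have hc : Subsingleton (R d) ∨ (1 / 2 : NNReal) <
      ‖((ContinuousLinearEquiv.refl ℝ (R d)).symm : R d →L[ℝ] R d)‖₊⁻¹ := by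
    right
    simp only [one_div, ContinuousLinearEquiv.refl_symm, ContinuousLinearEquiv.coe_refl, ContinuousLinearMap.nnnorm_id, inv_one, two_inv_lt_one]
  let φ : R d ≃ₜ R d := hap.toHomeomorph _ hc
  have hφ : ∀ x, φ x = x + X x := fun x => rfl
  have hφ' : (φ : R d → R d) = fun x => x + X x := rfl
  have hcd : ContDiff ℝ 1 φ := by rw [hφ']; exact contDiff_id.add hX.1
  refine ⟨φ, hφ, hcd, ?_, ?_, ?_⟩
  · have hu : ∀ x, ‖-fderiv ℝ X x‖ < 1 := fun x => by
      rw [norm_neg]; exact (hb x).trans_lt (by norm_num)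
    refine φ.contDiff_symm (f₀' := fun x => ContinuousLinearEquiv.unitsEquiv ℝ (R d)
      (Units.oneSub (-fderiv ℝ X x) (hu x))) (fun x => ?_) hcd
    have h1 := (hasFDerivAt_id x).add ((hX.1.differentiable one_ne_zero) x).hasFDerivAt
    have h2 : ((ContinuousLinearEquiv.unitsEquiv ℝ (R d)
        (Units.oneSub (-fderiv ℝ X x) (hu x)) : R d ≃L[ℝ] R d) : R d →L[ℝ] R d) =
        ContinuousLinearMap.id ℝ (R d) + fderiv ℝ X x := by
      ext v
      simp only [ContinuousLinearEquiv.coe_coe, ContinuousLinearEquiv.unitsEquiv_apply, Units.val_oneSub, sub_neg_eq_add, add_apply, one_apply_eq_self, PiLp.add_apply, ContinuousLinearMap.id_apply]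
    rw [hφ', h2]
    exact h1
  · intro U hU
    have h1 : φ '' Uᶜ = Uᶜ := by
      refine (image_congr fun x hx => ?_).trans (image_id _)
      rw [hφ, image_eq_zero_of_notMem_tsupport fun h => hx (hU h), add_zero, id]
    rw [image_compl_eq φ.bijective] at h1
    exact compl_injective h1
  · refine a8_vol (LipschitzWith.of_dist_le_mul fun x y => ?_)
    rw [dist_eq_norm, dist_eq_norm, hφ, hφ]
    have h := a8_lip hX.1 hb x y
    have e : x + X x - (y + X y) = (x - y) + (X x - X y) := by abel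
    have h2 := norm_add_le (x - y) (X x - X y)
    have h3 := norm_nonneg (x - y)
    rw [e]
    push_cast
    linarith only [h, h2, h3]

theorem a8_side {Ω K C V : Set (R d)} {σ : ℝ} (hσ : 0 < σ) (hV : thickening (3 * σ) C ⊆ V)
    {X X' : R d → R d} (hX : C1c X K) (hX' : C1c X' K) (hb : ∀ x, ‖fderiv ℝ X x‖ ≤ 1 / 2)
    (hb' : ∀ x, ‖fderiv ℝ X' x‖ ≤ 1 / 2) (h : ∀ x, ‖X x - X' x‖ ≤ σ) :
    volume (((fun x => x + X x) '' Ω) \ ((fun x => x + X' x) '' Ω)) ≤
      2 ^ (d + 1) * (volume ((Ω ∩ K) \ C) + volume (V \ (Ω ∩ K))) := by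
  obtain ⟨φ, hφ, -, -, -, hv⟩ := exists_diffeo ⟨hX.1, hX.2.1, subset_univ _⟩ hb
  obtain ⟨φ', hφ', -, -, -, hv'⟩ := exists_diffeo ⟨hX'.1, hX'.2.1, subset_univ _⟩ hb'
  have hs : ((fun x => x + X x) '' Ω) \ ((fun x => x + X' x) '' Ω) ⊆
      φ '' ((Ω ∩ K) \ C) ∪ φ' '' (V \ (Ω ∩ K)) := by
    rintro _ ⟨⟨x, hx, rfl⟩, hy⟩
    have hxK : x ∈ K := by
      by_contra hK
      refine hy ⟨x, hx, ?_⟩
      simp only [image_eq_zero_of_notMem_tsupport fun h => hK (hX.2.2 h),
        image_eq_zero_of_notMem_tsupport fun h => hK (hX'.2.2 h)]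
    by_cases hC : x ∈ C
    · obtain ⟨x', hx'⟩ := φ'.surjective (x + X x)
      refine Or.inr ⟨x', ⟨hV ?_, fun h' => hy ⟨x', h'.1, ?_⟩⟩, hx'⟩
      · rw [mem_thickening_iff]
        refine ⟨x, hC, ?_⟩
        rw [hφ'] at hx'
        have e : x' - x = (X x - X' x) + (X' x - X' x') := by
          linear_combination (norm := abel1) hx'
        have h1 := a8_lip hX'.1 hb' x x'
        have h2 := norm_add_le (X x - X' x) (X' x - X' x')
        rw [← e] at h2
        rw [norm_sub_rev x x'] at h1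
        rw [dist_eq_norm]
        linarith only [h x, hσ, h1, h2]
      · exact (hφ' x').symm.trans hx'
    · exact Or.inl ⟨x, ⟨⟨hx, hxK⟩, hC⟩, hφ x⟩
  calc _ ≤ _ := measure_mono hs
    _ ≤ _ := measure_union_le _ _
    _ ≤ _ := add_le_add (hv _) (hv' _)
    _ = _ := (mul_add _ _ _).symm

/-- `L^1` continuity of images under such diffeomorphisms -/
theorem image_cont {Ω K : Set (R d)} (hΩ : MeasurableSet Ω) (hK : IsCompact K) {η : ℝ} (hη : 0 < η) :
    ∃ σ > 0, ∀ X X' : R d → R d, C1c X K → C1c X' K → (∀ x, ‖fderiv ℝ X x‖ ≤ 1 / 2) →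
      (∀ x, ‖fderiv ℝ X' x‖ ≤ 1 / 2) → (∀ x, ‖X x - X' x‖ ≤ σ) →
      volume (((fun x => x + X x) '' Ω) ∆ ((fun x => x + X' x) '' Ω)) ≤ ENNReal.ofReal η := by
  have hm : MeasurableSet (Ω ∩ K) := hΩ.inter hK.measurableSet
  have hf : volume (Ω ∩ K) ≠ ⊤ :=
    ((measure_mono inter_subset_right).trans_lt hK.measure_lt_top).ne
  have he : ENNReal.ofReal (η / (4 * 2 ^ (d + 1))) ≠ 0 := by
    rw [Ne, ENNReal.ofReal_eq_zero, not_le]; positivity
  obtain ⟨C, hCs, hC, hC'⟩ := hm.exists_isCompact_sdiff_lt hf he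
  obtain ⟨V, hVs, hV, -, hV'⟩ := hm.exists_isOpen_sdiff_lt hf he
  obtain ⟨δ, hδ, hth⟩ := hC.exists_thickening_subset_open hV (hCs.trans hVs)
  have h3 : thickening (3 * (δ / 3)) C ⊆ V := by rwa [mul_div_cancel₀ δ three_ne_zero]
  refine ⟨δ / 3, by positivity, fun X X' hX hX' hb hb' h => ?_⟩
  have h1 := a8_side (Ω := Ω) (by positivity) h3 hX hX' hb hb' h
  have h2 := a8_side (Ω := Ω) (by positivity) h3 hX' hX hb' hb fun x => by
    rw [norm_sub_rev]; exact h x
  have h4 : (2 : ℝ≥0∞) ^ (d + 1) * (volume ((Ω ∩ K) \ C) + volume (V \ (Ω ∩ K))) ≤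
      ENNReal.ofReal (η / 2) := by
    calc _ ≤ (2 : ℝ≥0∞) ^ (d + 1) * (ENNReal.ofReal (η / (4 * 2 ^ (d + 1))) +
          ENNReal.ofReal (η / (4 * 2 ^ (d + 1)))) := by gcongr
      _ = _ := by
        rw [← ENNReal.ofReal_add (by positivity) (by positivity),
          show (2 : ℝ≥0∞) ^ (d + 1) = ENNReal.ofReal (2 ^ (d + 1)) by
            rw [ENNReal.ofReal_pow (by norm_num)]; simp,
          ← ENNReal.ofReal_mul (by positivity)]
        congr 1
        field_simp
        ring
  rw [Set.symmDiff_def]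
  calc _ ≤ _ := measure_union_le _ _
    _ ≤ ENNReal.ofReal (η / 2) + ENNReal.ofReal (η / 2) := add_le_add (h1.trans h4) (h2.trans h4)
    _ = _ := by rw [← ENNReal.ofReal_add (by positivity) (by positivity), add_halves]

end Pool.Agent.MP_5cfeaf_gt.W

end

section

/-! Compactness. -/

set_option autoImplicit false

open MeasureTheory Set Filter Topology Metric
open scoped ENNReal symmDiff Classical InnerProductSpace ContDiff

namespace Pool.Agent.MP_5cfeaf_gt.W

variable {d : ℕ}

theorem a10_one {Ω A W : Set (R d)} (hΩ : MeasurableSet Ω) (hW : IsOpen W) (hf : pm Ω W < ⊤)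
    {r : ℝ} (h : thickening r A ⊆ W) {v : R d} (hv : ‖v‖ < r) :
    volume {x | x ∈ A ∧ x ∉ Ω ∧ x + v ∈ Ω} ≤ ENNReal.ofReal r * pm Ω W := by
  refine (measure_mono fun x hx => ?_).trans ((transl hΩ hW (subset_lf hW hf) v).trans ?_)
  · refine ⟨Subset.trans ?_ ((ball_subset_thickening hx.1 r).trans h), hx.2⟩
    refine (convex_ball x r).segment_subset (mem_ball_self ((norm_nonneg v).trans_lt hv)) ?_
    rwa [mem_ball, dist_eq_norm, add_sub_cancel_left]
  · rw [← setLIntegral_const]
    refine lintegral_mono fun x => ENNReal.ofReal_le_ofReal ?_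
    have h1 := abs_real_inner_le_norm v (nu Ω x : R d)
    rw [norm_eq_of_mem_sphere, mul_one] at h1
    linarith [neg_le_abs ⟪v, (nu Ω x : R d)⟫_ℝ]

theorem a10_two {Ω A W : Set (R d)} (hΩ : MeasurableSet Ω) (hW : IsOpen W) (hf : pm Ω W < ⊤)
    {r : ℝ} (h : thickening r A ⊆ W) {v : R d} (hv : ‖v‖ < r) :
    volume ({x | ¬(x ∈ Ω ↔ x + v ∈ Ω)} ∩ A) ≤ 2 * ENNReal.ofReal r * pm Ω W := by
  have h1 := a10_one hΩ hW hf h hv
  have h2 := a10_one hΩ.compl hW (by rwa [pm_compl hΩ]) h hv
  rw [pm_compl hΩ] at h2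
  rw [mul_assoc, two_mul]
  refine (measure_mono fun x hx => ?_).trans ((measure_union_le _ _).trans (add_le_add h1 h2))
  have h3 := hx.1
  have h4 := hx.2
  simp only [mem_union, mem_ofPred_eq, mem_compl_iff] at h3 ⊢
  tauto

theorem a10_point {Ω : Set (R d)} (hΩ : MeasurableSet Ω) (k : ℕ) (x : R d) :
    ‖mol k Ω x - Ω.indicator 1 x‖ₑ ≤ ∫⁻ v, {p : R d × R d | ¬(p.1 ∈ Ω ↔ p.1 + p.2 ∈ Ω)}.indicator
      (fun p => ENNReal.ofReal (rho k p.2)) (x, v) := by
  have hm : MeasurableSet {v : R d | x + v ∈ Ω} := measurable_const_add x hΩ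
  have h1 : mol k Ω x = ∫ v, {v : R d | x + v ∈ Ω}.indicator (rho k) v := by
    rw [mol, ← integral_indicator hΩ, ← integral_add_left_eq_self _ x]
    refine integral_congr_ae (Eventually.of_forall fun v => ?_)
    by_cases h : x + v ∈ Ω
    · simp [h, rho_neg]
    · simp [h]
  have h2 : Ω.indicator (1 : R d → ℝ) x = ∫ v : R d, Ω.indicator 1 x * rho k v := by
    rw [integral_const_mul, rho_int, mul_one]
  rw [h1, h2, ← integral_sub ((rho_integrable k).indicator hm) ((rho_integrable k).const_mul _)]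
  refine (enorm_integral_le_lintegral_enorm _).trans (lintegral_mono fun v => ?_)
  by_cases h : x + v ∈ Ω <;> by_cases h' : x ∈ Ω <;>
    simp [h, h', Real.enorm_of_nonneg (rho_nonneg k v)]

theorem mol_sub {Ω A W : Set (R d)} (hΩ : MeasurableSet Ω) (hW : IsOpen W)
    (hA : MeasurableSet A) {k : ℕ} (h : thickening (rr k) A ⊆ W) :
    ∫⁻ x in A, ‖mol k Ω x - Ω.indicator 1 x‖ₑ ≤ 2 * ENNReal.ofReal (rr k) * pm Ω W := by
  rcases eq_top_or_lt_top (pm Ω W) with hf | hf
  · rw [hf, ENNReal.mul_top (mul_ne_zero two_ne_zero (ENNReal.ofReal_pos.2 (rr_pos k)).ne')]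
    exact le_top
  have hD : MeasurableSet {p : R d × R d | ¬(p.1 ∈ Ω ↔ p.1 + p.2 ∈ Ω)} :=
    (MeasurableSet.iff (measurable_fst hΩ) ((measurable_fst.add measurable_snd) hΩ)).compl
  have hr : Measurable fun v : R d => ENNReal.ofReal (rho k v) :=
    (rho_smooth k).continuous.measurable.ennreal_ofReal
  refine (lintegral_mono fun x => a10_point hΩ k x).trans ?_
  rw [lintegral_lintegral_swap (f := fun x v => {p : R d × R d | ¬(p.1 ∈ Ω ↔ p.1 + p.2 ∈ Ω)}.indicator
      (fun p => ENNReal.ofReal (rho k p.2)) (x, v))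
      ((hr.comp measurable_snd).indicator hD).aemeasurable,
    ← one_mul (2 * ENNReal.ofReal (rr k) * pm Ω W), ← rho_lint (d := d) k,
    ← lintegral_mul_const _ hr]
  refine lintegral_mono fun v => ?_
  have h1 : ∀ x, {p : R d × R d | ¬(p.1 ∈ Ω ↔ p.1 + p.2 ∈ Ω)}.indicator
      (fun p => ENNReal.ofReal (rho k p.2)) (x, v) =
      {x | ¬(x ∈ Ω ↔ x + v ∈ Ω)}.indicator (fun _ => ENNReal.ofReal (rho k v)) x := fun x => rfl
  have h2 : MeasurableSet {x | ¬(x ∈ Ω ↔ x + v ∈ Ω)} :=
    (MeasurableSet.iff hΩ (measurable_add_const v hΩ)).compl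
  simp only [h1]
  rw [lintegral_indicator_const h2, Measure.restrict_apply h2]
  rcases le_or_gt (rr k) ‖v‖ with hv | hv
  · simp [rho_zero hv]
  · exact mul_le_mul_right (a10_two hΩ hW hf h hv) _

theorem a10_unif {ι : Type} {l : Filter ι} {u : ι → R d → ℝ} {a : R d → ℝ} {L : NNReal}
    (hu : ∀ᶠ i in l, LipschitzWith L (u i)) (ha : LipschitzWith L a)
    (h : ∀ x, Tendsto (fun i => u i x) l (𝓝 (a x))) {K : Set (R d)} (hK : IsCompact K) :
    ∀ᶠ i in l, ∀ x ∈ K, |u i x - a x| ≤ 1 / 4 := by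
  have hL : (0 : ℝ) < 12 * (L + 1) := by positivity
  obtain ⟨t, -, ht, hc⟩ := finite_cover_balls_of_compact hK (inv_pos.2 hL)
  have h1 : ∀ᶠ i in l, ∀ y ∈ t, dist (u i y) (a y) < 1 / 12 :=
    (eventually_all_finite ht).2 fun y _ => Metric.tendsto_nhds.1 (h y) _ (by norm_num)
  filter_upwards [hu, h1] with i hi h1 x hx
  obtain ⟨y, hy, hxy⟩ := mem_iUnion₂.1 (hc hx)
  have h2 : (L : ℝ) * dist x y ≤ 1 / 12 := by
    have h3 : dist x y * (12 * (L + 1)) ≤ 1 := (le_div_iff₀ hL).1 (by rw [one_div]; exact hxy.le)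
    linarith only [dist_nonneg (x := x) (y := y), h3]
  have h3 := hi.dist_le_mul x y
  have h4 := ha.dist_le_mul x y
  have h5 := dist_triangle4 (u i x) (u i y) (a y) (a x)
  rw [dist_comm (a y)] at h5
  rw [← Real.dist_eq]
  linarith [h1 y hy]

theorem a10_level {Ω K W : Set (R d)} (hΩ : MeasurableSet Ω) (hW : IsOpen W) (hK : MeasurableSet K)
    {k : ℕ} (h : thickening (rr k) K ⊆ W) {a : R d → ℝ} (ha : Continuous a)
    (h1 : ∀ x ∈ K, |mol k Ω x - a x| ≤ 1 / 4) :
    volume ((Ω ∆ {x | 1 / 2 < a x}) ∩ K) ≤ ENNReal.ofReal (rr k) * (8 * pm Ω W) := by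
  have hm : MeasurableSet (Ω ∆ {x | 1 / 2 < a x}) :=
    hΩ.symmDiff (isOpen_lt continuous_const ha).measurableSet
  calc _ = ∫⁻ x in K, (Ω ∆ {x | 1 / 2 < a x}).indicator 1 x := by
        rw [lintegral_indicator_one hm, Measure.restrict_apply hm]
    _ ≤ ∫⁻ x in K, 4 * ‖mol k Ω x - Ω.indicator 1 x‖ₑ := by
        refine setLIntegral_mono' hK fun x hx => ?_
        by_cases h2 : x ∈ Ω ∆ {x | 1 / 2 < a x}
        · have h3 : 1 / 4 ≤ |mol k Ω x - Ω.indicator 1 x| := by
            have h4 := abs_le.1 (h1 x hx)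
            rcases h2 with ⟨h5, h6⟩ | ⟨h5, h6⟩
            · rw [indicator_of_mem h5, Pi.one_apply]
              exact le_abs.2 (Or.inr (by linarith only [not_lt.1 (show ¬(1 / 2 < a x) from h6), h4.2]))
            · rw [indicator_of_notMem h6]
              exact le_abs.2 (Or.inl (by linarith only [show 1 / 2 < a x from h5, h4.1]))
          rw [indicator_of_mem h2, Pi.one_apply, Real.enorm_eq_ofReal_abs, ← ENNReal.ofReal_ofNat,
            ← ENNReal.ofReal_mul (by norm_num)]
          exact ENNReal.one_le_ofReal.2 (by linarith)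
        · rw [indicator_of_notMem h2]
          exact zero_le
    _ ≤ 4 * (2 * ENNReal.ofReal (rr k) * pm Ω W) := by
        rw [lintegral_const_mul' _ _ (by norm_num)]
        exact mul_le_mul_right (mol_sub hΩ hW hK h) _
    _ = _ := by ring

theorem a10_tri (X Y Z K : Set (R d)) :
    volume ((X ∆ Z) ∩ K) ≤ volume ((X ∆ Y) ∩ K) + volume ((Y ∆ Z) ∩ K) := by
  refine (measure_mono ?_).trans (measure_union_le _ _)
  rw [← union_inter_distrib_right]
  exact inter_subset_inter_left _ (symmDiff_triangle X Y Z)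

theorem a10_rr (k j : ℕ) : ENNReal.ofReal (rr (k + j)) = ENNReal.ofReal (rr k) * 2⁻¹ ^ j := by
  rw [rr, rr, pow_add, ENNReal.ofReal_mul (by positivity), ENNReal.ofReal_pow (by norm_num) j,
    one_div, ENNReal.ofReal_inv_of_pos two_pos, ENNReal.ofReal_ofNat]

theorem a10_lim {G : ℕ → Set (R d)} {K : Set (R d)} {C : ℝ≥0∞} {k : ℕ}
    (h : ∀ j ≥ k, volume ((G j ∆ G (j + 1)) ∩ K) ≤ ENNReal.ofReal (rr j) * C) :
    volume ((G k ∆ ⋃ n, ⋂ j ≥ n, G j) ∩ K) ≤ ENNReal.ofReal (rr k) * (2 * C) := by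
  have h1 : (G k ∆ ⋃ n, ⋂ j ≥ n, G j) ∩ K ⊆ ⋃ j, (G (k + j) ∆ G (k + j + 1)) ∩ K := by
    rintro x ⟨hx, hK⟩
    by_contra hn
    simp only [mem_iUnion, not_exists, mem_inter_iff, hK, and_true, mem_symmDiff] at hn
    have h2 : ∀ j, x ∈ G (k + j) ↔ x ∈ G k := fun j => by
      induction j with
      | zero => rfl
      | succ j ih =>
        have := hn j
        rw [← ih, ← add_assoc]
        tauto
    rcases hx with ⟨h3, h4⟩ | ⟨h3, h4⟩
    · refine h4 (mem_iUnion.2 ⟨k, mem_iInter₂.2 fun j hj => ?_⟩)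
      obtain ⟨m, rfl⟩ := Nat.exists_eq_add_of_le hj
      exact (h2 m).2 h3
    · obtain ⟨n, hn'⟩ := mem_iUnion.1 h3
      exact h4 ((h2 n).1 (mem_iInter₂.1 hn' _ (Nat.le_add_left n k)))
  refine (measure_mono h1).trans ((measure_iUnion_le _).trans
    ((ENNReal.tsum_le_tsum fun j => h _ (Nat.le_add_right k j)).trans_eq ?_))
  simp only [a10_rr]
  rw [ENNReal.tsum_mul_right, ENNReal.tsum_mul_left, ENNReal.tsum_geometric,
    ENNReal.one_sub_inv_two, inv_inv, mul_assoc]

/-- compactness -/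
theorem pm_compact {ι : Type} (𝓤 : Ultrafilter ι) {Ω : ι → Set (R d)} {O : Set (R d)} (hO : IsOpen O)
    (hm : ∀ᶠ i in (𝓤 : Filter ι), MeasurableSet (Ω i))
    (hb : ∀ K, IsCompact K → K ⊆ O → ∃ C < ⊤, ∀ᶠ i in (𝓤 : Filter ι), pm (Ω i) K ≤ C) :
    ∃ Ω₀, MeasurableSet Ω₀ ∧ ∀ K, Bornology.IsBounded K → K ⊆ O →
      Tendsto (fun i => volume ((Ω i ∆ Ω₀) ∩ K)) (𝓤 : Filter ι) (𝓝 0) := by
  have h0 : ∀ k x, ∃ a : ℝ, Tendsto (fun i => mol k (Ω i) x) (𝓤 : Filter ι) (𝓝 a) := fun k x => by
    obtain ⟨a, -, ha⟩ := (isCompact_Icc (a := (0 : ℝ)) (b := 1)).ultrafilter_le_nhds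
      (𝓤.map fun i => mol k (Ω i) x)
      (le_principal_iff.2 (mem_map.2 (Eventually.of_forall fun i => mol_mem (Ω i) k x)))
    exact ⟨a, ha⟩
  choose a ha using h0
  choose L hL using mol_lip d
  have hla : ∀ k, LipschitzWith (L k) (a k) := fun k => LipschitzWith.of_dist_le_mul fun x y =>
    le_of_tendsto ((ha k x).dist (ha k y)) (hm.mono fun i hi => (hL k _ hi).dist_le_mul x y)
  set G : ℕ → Set (R d) := fun k => {x | 1 / 2 < a k x}
  have hG : ∀ k, MeasurableSet (G k) := fun k =>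
    (isOpen_lt continuous_const (hla k).continuous).measurableSet
  have hc : ∀ K, IsCompact K → K ⊆ O →
      Tendsto (fun i => volume ((Ω i ∆ ⋃ n, ⋂ j ≥ n, G j) ∩ K)) (𝓤 : Filter ι) (𝓝 0) := by
    intro K hK hKO
    obtain ⟨δ, hδ, hδO⟩ := hK.exists_cthickening_subset_open hO hKO
    obtain ⟨C, hC, hCi⟩ := hb _ hK.cthickening hδO
    obtain ⟨k₀, hk₀⟩ := eventually_atTop.1 (rr_tendsto.eventually_le_const hδ)
    have h1 : ∀ k ≥ k₀, ∀ᶠ i in (𝓤 : Filter ι),
        volume ((Ω i ∆ G k) ∩ K) ≤ ENNReal.ofReal (rr k) * (8 * C) := fun k hk => by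
      filter_upwards [hm, hCi, a10_unif (hm.mono fun i hi => hL k _ hi) (hla k) (ha k) hK]
        with i h2 h3 h4
      refine (a10_level h2 isOpen_thickening hK.measurableSet (thickening_mono (hk₀ k hk) K)
        (hla k).continuous h4).trans ?_
      gcongr
      exact (measure_mono (thickening_subset_cthickening δ K)).trans h3
    have h2 : ∀ k ≥ k₀, volume ((G k ∆ G (k + 1)) ∩ K) ≤ ENNReal.ofReal (rr k) * (2 * (8 * C)) :=
      fun k hk => by
      obtain ⟨i, h3, h4⟩ := ((h1 k hk).and (h1 (k + 1) (by omega))).exists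
      rw [symmDiff_comm] at h3
      refine (a10_tri _ (Ω i) _ K).trans ((add_le_add h3 h4).trans ?_)
      rw [two_mul, mul_add, a10_rr k 1]
      gcongr
      exact mul_le_of_le_one_right' (by simp)
    refine ENNReal.tendsto_nhds_zero.2 fun ε hε => ?_
    have h3 : Tendsto (fun k => ENNReal.ofReal (rr k) * (8 * C + 2 * (2 * (8 * C)))) atTop (𝓝 0) := by
      have h4 := ENNReal.Tendsto.mul_const (b := 8 * C + 2 * (2 * (8 * C)))
        (ENNReal.tendsto_ofReal rr_tendsto) (Or.inr (by finiteness))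
      rwa [ENNReal.ofReal_zero, zero_mul] at h4
    obtain ⟨k, hk, hkε⟩ :=
      ((eventually_ge_atTop k₀).and (ENNReal.tendsto_nhds_zero.1 h3 ε hε)).exists
    filter_upwards [h1 k hk] with i hi
    refine (a10_tri _ (G k) _ K).trans (le_trans ?_ hkε)
    rw [mul_add]
    exact add_le_add hi (a10_lim fun j hj => h2 j (hk.trans hj))
  refine ⟨⋃ n, ⋂ j ≥ n, G j, .iUnion fun n => .biInter (to_countable _) fun j _ => hG j,
    fun K hK hKO => ENNReal.tendsto_nhds_zero.2 fun ε hε => ?_⟩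
  obtain ⟨r, hr⟩ := hK.subset_ball (0 : R d)
  obtain ⟨K₁, h1, h2, h3⟩ := (hO.inter (isOpen_ball (x := (0 : R d)) (ε := r))).measurableSet
    |>.exists_isCompact_sdiff_lt (μ := volume)
      ((measure_mono inter_subset_right).trans_lt measure_ball_lt_top).ne
      (ENNReal.half_pos hε.ne').ne'
  filter_upwards [ENNReal.tendsto_nhds_zero.1 (hc K₁ h2 (h1.trans inter_subset_left)) _
    (ENNReal.half_pos hε.ne')] with i hi
  rw [← ENNReal.add_halves ε]
  refine (measure_mono fun x hx => ?_).trans ((measure_union_le _ _).trans (add_le_add hi h3.le))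
  by_cases h4 : x ∈ K₁
  · exact Or.inl ⟨hx.1, h4⟩
  · exact Or.inr ⟨⟨hKO hx.2, hr hx.2⟩, h4⟩

end Pool.Agent.MP_5cfeaf_gt.W

end

section

/-! The functional paste lemma. -/

set_option autoImplicit false

open MeasureTheory Set Filter Topology Metric
open scoped ENNReal symmDiff Classical InnerProductSpace ContDiff

namespace Pool.Agent.MP_5cfeaf_gt.W

variable {d : ℕ}

theorem A11_a (G : Set (R d)) {U : Set (R d)} (hU : IsOpen U) {T : R d → R d} (hT : C1c T U)
    (h1 : ∀ x, ‖T x‖ ≤ 1) {v : R d → ℝ} (hv : ContDiff ℝ 1 v) (h0 : ∀ x, 0 ≤ v x) :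
    ENNReal.ofReal (∫ x in G, dv (fun y => v y • T y) x) ≤
      ∫⁻ x in U, ENNReal.ofReal (v x) ∂pm G := by
  refine (int_dv_le G ((C1c.smul_left hv hT).mono (subset_univ _))).trans ?_
  rw [← lintegral_indicator hU.measurableSet]
  refine lintegral_mono fun x => ?_
  by_cases hx : x ∈ U
  · rw [indicator_of_mem hx, ← ofReal_norm, norm_smul, Real.norm_of_nonneg (h0 x)]
    exact ENNReal.ofReal_le_ofReal (mul_le_of_le_one_right (h0 x) (h1 x))
  · rw [image_eq_zero_of_notMem_tsupport fun h => hx (hT.2.2 h)]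
    simp

theorem A11_step {G Ω U : Set (R d)} (hG : MeasurableSet G) (hΩ : MeasurableSet Ω) (hU : IsOpen U)
    {T : R d → R d} (hT : C1c T U) (h1 : ∀ x, ‖T x‖ ≤ 1) {u : R d → ℝ} (hu : ContDiff ℝ 1 u)
    (u0 : ∀ x, 0 ≤ u x) (u1 : ∀ x, u x ≤ 1) :
    ENNReal.ofReal ((∫ x in G, u x * dv T x) + ∫ x in Ω, (1 - u x) * dv T x) ≤
      ∫⁻ x in U, ENNReal.ofReal (u x) ∂pm G + ∫⁻ x in U, ENNReal.ofReal (1 - u x) ∂pm Ω +
        ∫⁻ x in U ∩ (G ∆ Ω), ‖fderiv ℝ u x‖ₑ := by
  have hv : ContDiff ℝ 1 fun x => 1 - u x := contDiff_const.sub hu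
  have hw : Integrable fun x => fderiv ℝ u x (T x) := by
    refine Continuous.integrable_of_hasCompactSupport
      ((hu.continuous_fderiv one_ne_zero).clm_apply hT.1.continuous) ?_
    exact hT.2.1.mono fun x hx h => hx (by simp only [h, map_zero])
  have e1 : ∫ x in G, u x * dv T x =
      (∫ x in G, dv (fun y => u y • T y) x) - ∫ x in G, fderiv ℝ u x (T x) := by
    rw [← integral_sub (dv_integrable (C1c.smul_left hu hT)).integrableOn hw.integrableOn]
    refine integral_congr_ae (ae_of_all _ fun x => ?_)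
    simp only [dv_smul hu hT.1, add_sub_cancel_right]
  have e2 : ∫ x in Ω, (1 - u x) * dv T x =
      (∫ x in Ω, dv (fun y => (1 - u y) • T y) x) + ∫ x in Ω, fderiv ℝ u x (T x) := by
    rw [← integral_add (dv_integrable (C1c.smul_left hv hT)).integrableOn hw.integrableOn]
    refine integral_congr_ae (ae_of_all _ fun x => ?_)
    simp only [dv_smul hv hT.1, fderiv_const_sub, neg_apply]
    ring
  have e3 : ENNReal.ofReal ((∫ x in Ω, fderiv ℝ u x (T x)) - ∫ x in G, fderiv ℝ u x (T x)) ≤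
      ∫⁻ x in U ∩ (G ∆ Ω), ‖fderiv ℝ u x‖ₑ := by
    rw [← integral_indicator hΩ, ← integral_indicator hG,
      ← integral_sub (hw.indicator hΩ) (hw.indicator hG),
      ← lintegral_indicator (hU.measurableSet.inter (hG.symmDiff hΩ))]
    refine (Real.ofReal_le_enorm _).trans ((enorm_integral_le_lintegral_enorm _).trans
      (lintegral_mono fun x => ?_))
    have hb : ‖fderiv ℝ u x (T x)‖ₑ ≤ ‖fderiv ℝ u x‖ₑ := by
      rw [← ofReal_norm, ← ofReal_norm]
      exact ENNReal.ofReal_le_ofReal (((fderiv ℝ u x).le_opNorm _).trans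
        (mul_le_of_le_one_right (norm_nonneg _) (h1 x)))
    by_cases hx : x ∈ U
    · by_cases a : x ∈ G <;> by_cases b : x ∈ Ω <;> simp only [indicator, b, ↓ reduceIte, a, sub_self, enorm_zero, mem_inter_iff, hx, mem_symmDiff, not_true_eq_false, and_false, or_self, Std.le_refl, zero_sub, enorm_neg, not_false_eq_true, and_self, or_false, hb, sub_zero, or_true, and_true]
    · have : T x = 0 := image_eq_zero_of_notMem_tsupport fun h => hx (hT.2.2 h)
      simp [indicator, this]
  rw [e1, e2, show ∀ a b c e : ℝ, a - b + (c + e) = a + c + (e - b) from fun a b c e => by ring]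
  refine ENNReal.ofReal_add_le.trans (add_le_add (ENNReal.ofReal_add_le.trans (add_le_add ?_ ?_)) e3)
  · exact A11_a G hU hT h1 hu u0
  · exact A11_a Ω hU hT h1 hv fun x => sub_nonneg.2 (u1 x)

theorem A11_lim {G Ω U A : Set (R d)} (hG : MeasurableSet G) (hΩ : MeasurableSet Ω) (hU : IsOpen U)
    (hA : MeasurableSet A) {u : ℕ → R d → ℝ} (hu : ∀ k, ContDiff ℝ 1 (u k)) (u0 : ∀ k x, 0 ≤ u k x)
    (u1 : ∀ k x, u k x ≤ 1)
    (hl : ∀ x, Tendsto (fun k => u k x) atTop (𝓝 (if x ∈ A then 1 else 0))) :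
    pm ((G ∩ A) ∪ (Ω \ A)) U ≤ liminf (fun k => ∫⁻ x in U, ENNReal.ofReal (u k x) ∂pm G +
      ∫⁻ x in U, ENNReal.ofReal (1 - u k x) ∂pm Ω +
        ∫⁻ x in U ∩ (G ∆ Ω), ‖fderiv ℝ (u k) x‖ₑ) atTop := by
  rw [pm_open _ hU]
  refine Per_le fun T hT h1 => ?_
  have hi := dv_integrable hT
  have key : ∀ (M : Set (R d)) (v : ℕ → R d → ℝ) (C : Set (R d)), MeasurableSet C →
      (∀ k, Continuous (v k)) → (∀ k x, |v k x| ≤ 1) →
      (∀ x, Tendsto (fun k => v k x) atTop (𝓝 (if x ∈ C then 1 else 0))) →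
      Tendsto (fun k => ∫ x in M, v k x * dv T x) atTop (𝓝 (∫ x in M ∩ C, dv T x)) := by
    intro M v C hC hv hb hl
    rw [inter_comm, ← Measure.restrict_restrict hC, ← integral_indicator hC]
    refine tendsto_integral_of_dominated_convergence (fun x => ‖dv T x‖)
      (fun k => ((hv k).mul (dv_cont hT.1)).aestronglyMeasurable) hi.norm.integrableOn
      (fun k => ae_of_all _ fun x => ?_) (ae_of_all _ fun x => ?_)
    · rw [norm_mul]
      exact mul_le_of_le_one_left (norm_nonneg _) (hb k x)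
    · have := (hl x).mul_const (dv T x)
      simpa [indicator] using this
  have t1 := key G u A hA (fun k => (hu k).continuous)
    (fun k x => abs_le.2 ⟨by linarith [u0 k x], u1 k x⟩) hl
  have t2 := key Ω (fun k x => 1 - u k x) Aᶜ hA.compl
    (fun k => continuous_const.sub (hu k).continuous)
    (fun k x => abs_le.2 ⟨by linarith [u1 k x], by linarith [u0 k x]⟩) fun x => by
      have := (hl x).const_sub 1
      by_cases hx : x ∈ A <;> simpa [hx] using this
  have t := ENNReal.tendsto_ofReal (t1.add t2)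
  rw [← setIntegral_union (disjoint_left.2 fun x h h' => h'.2 h.2) (hΩ.inter hA.compl)
    hi.integrableOn hi.integrableOn] at t
  rw [sdiff_eq, ← t.liminf_eq]
  exact liminf_le_liminf (Eventually.of_forall fun k =>
    A11_step hG hΩ hU hT h1 (hu k) (u0 k) (u1 k))

theorem A11_avg {f : ℕ → ℝ → ℝ≥0∞} (hf : ∀ k, Measurable (f k)) {Q : ℝ≥0∞}
    (h : ∀ b : ℝ, 0 ≤ b → b < 1 → ∀ᶠ k in atTop, ∫⁻ s in Ioo 0 b, f k s ≤ Q) :
    ∃ s ∈ Ioo (0 : ℝ) 1, liminf (fun k => f k s) atTop ≤ Q := by
  by_contra hc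
  push Not at hc
  have hQ : Q ≠ ⊤ := (hc (1 / 2) (by norm_num)).ne_top
  have h1 := setLIntegral_strict_mono (μ := volume) (f := fun _ => Q) (s := Ioo (0 : ℝ) 1)
    measurableSet_Ioo (by simp only [Real.volume_Ioo, sub_zero, ENNReal.ofReal_one, ne_eq, one_ne_zero, not_false_eq_true]) (Measurable.liminf hf) (by simpa only [lintegral_const, MeasurableSet.univ, Measure.restrict_apply, univ_inter, Real.volume_Ioo, sub_zero, ENNReal.ofReal_one, mul_one, ne_eq] using hQ) (ae_of_all _ hc)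
  have e : Ioo (0 : ℝ) 1 = ⋃ n : ℕ, Ioo 0 (1 - rr n) := by
    ext s
    simp only [mem_iUnion, mem_Ioo]
    refine ⟨fun hs => ?_, fun ⟨n, h1, h2⟩ => ⟨h1, by linarith [rr_pos n]⟩⟩
    obtain ⟨n, hn⟩ := (rr_tendsto.eventually (gt_mem_nhds (sub_pos.2 hs.2))).exists
    exact ⟨n, hs.1, by linarith⟩
  have ha : Antitone rr := fun m n hmn => pow_le_pow_of_le_one (by norm_num) (by norm_num) hmn
  refine h1.not_ge (le_of_le_of_eq (b := Q) ?_ (by simp only [lintegral_const, MeasurableSet.univ, Measure.restrict_apply, univ_inter, Real.volume_Ioo, sub_zero, ENNReal.ofReal_one, mul_one]))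
  rw [e, setLIntegral_iUnion_of_directed _ (Monotone.directed_le fun m n hmn =>
    Ioo_subset_Ioo_right (by linarith only [ha hmn]))]
  refine iSup_le fun n => (lintegral_liminf_le hf).trans (liminf_le_of_frequently_le' ?_)
  refine (h _ ?_ (by linarith [rr_pos n])).frequently
  have := ha (Nat.zero_le n)
  simp only [rr, pow_zero] at this ⊢
  linarith only [this]

theorem A11_ton {X : Type} [MeasurableSpace X] (μ : Measure X) [SFinite μ] {f : ℝ → X → ℝ≥0∞}
    (hf : Measurable (Function.uncurry f)) {I : Set ℝ} {φ : X → ℝ≥0∞}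
    (h : ∀ x, ∫⁻ s in I, f s x ≤ φ x) : ∫⁻ s in I, ∫⁻ x, f s x ∂μ ≤ ∫⁻ x, φ x ∂μ := by
  rw [lintegral_lintegral_swap hf.aemeasurable]
  exact lintegral_mono h

theorem A11_vol {f : ℝ → ℝ} {b p q : ℝ} (h1 : ∀ s, f s ≤ 1)
    (h : ∀ s ∈ Ioo 0 b, s ∉ Ioo p q → f s = 0) :
    ∫⁻ s in Ioo 0 b, ENNReal.ofReal (f s) ≤ ENNReal.ofReal (q - p) := by
  rw [← Real.volume_Ioo, ← lintegral_indicator_one measurableSet_Ioo,
    ← lintegral_indicator measurableSet_Ioo]
  refine lintegral_mono fun s => ?_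
  by_cases a : s ∈ Ioo 0 b
  · by_cases c : s ∈ Ioo p q
    · simpa only [a, indicator_of_mem, c, Pi.one_apply, ENNReal.ofReal_le_one] using h1 s
    · simp only [a, indicator_of_mem, h s a c, ENNReal.ofReal_zero, zero_le]
  · simp only [a, not_false_eq_true, indicator_of_notMem, zero_le]

theorem A11_der {p h b : ℝ} (hh : 0 < h) (hb : 0 ≤ b) :
    ∫⁻ s in Ioo 0 b, ENNReal.ofReal (deriv Real.smoothTransition ((p - s) / h) / h) ≤ 1 := by
  have hc : ContDiff ℝ 1 Real.smoothTransition := Real.smoothTransition.contDiff (n := 1)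
  have hd : Continuous fun s => deriv Real.smoothTransition ((p - s) / h) / h :=
    ((hc.continuous_deriv le_rfl).comp (by fun_prop)).div_const h
  have e := intervalIntegral.integral_eq_sub_of_hasDerivAt (a := 0) (b := b)
    (f := fun s => -Real.smoothTransition ((p - s) / h))
    (f' := fun s => deriv Real.smoothTransition ((p - s) / h) / h) (fun s _ => by
      have := ((hc.differentiable one_ne_zero ((p - s) / h)).hasDerivAt.comp s
        (((hasDerivAt_id s).const_sub p).div_const h)).neg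
      exact this.congr_deriv (by ring)) (hd.intervalIntegrable _ _)
  rw [← ofReal_integral_eq_lintegral_ofReal
    ((hd.integrableOn_Icc (a := 0) (b := b)).mono_set Ioo_subset_Icc_self)
    (ae_of_all _ fun s => div_nonneg Real.smoothTransition.monotone.deriv_nonneg hh.le),
    ← integral_Ioc_eq_integral_Ioo, ← intervalIntegral.integral_of_le hb, e]
  refine ENNReal.ofReal_le_one.2 ?_
  linarith only [Real.smoothTransition.nonneg ((p - b) / h), Real.smoothTransition.le_one ((p - 0) / h)]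

theorem A11_res {Ω U : Set (R d)} (hU : MeasurableSet U) {f : R d → ℝ≥0∞}
    (h : ∀ x ∈ U, x ∉ lf Ω → f x = 0) :
    ∫⁻ x in U, f x ∂pm Ω ≤ ∫⁻ x in U ∩ lf Ω, f x ∂pm Ω := by
  rw [← lintegral_indicator hU, ← lintegral_indicator (hU.inter (isOpen_lf Ω).measurableSet)]
  refine lintegral_mono fun x => ?_
  by_cases a : x ∈ U
  · by_cases c : x ∈ lf Ω
    · simp [a, c]
    · simp [a, h x a c]
  · simp [a]

/-- functional paste lemma -/
theorem paste_fun {G Ω U : Set (R d)} (hG : MeasurableSet G) (hΩ : MeasurableSet Ω) (hU : IsOpen U)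
    {ψ : R d → ℝ} (hψ : ContDiff ℝ 1 ψ) (h0 : ∀ x, 0 ≤ ψ x) (h1 : ∀ x, ψ x ≤ 1) :
    ∃ s ∈ Ioo (0 : ℝ) 1, pm ((G ∩ {x | s < ψ x}) ∪ (Ω \ {x | s < ψ x})) U ≤
      ∫⁻ x in U, ENNReal.ofReal (ψ x) ∂pm G + ∫⁻ x in U, ENNReal.ofReal (1 - ψ x) ∂pm Ω +
        ∫⁻ x in U ∩ (G ∆ Ω), ‖fderiv ℝ ψ x‖ₑ := by
  have hc : ContDiff ℝ 1 Real.smoothTransition := Real.smoothTransition.contDiff (n := 1)
  have cψ := hψ.continuous
  have cH := hc.continuous
  have cD := hc.continuous_deriv le_rfl
  have cF := hψ.continuous_fderiv one_ne_zero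
  by_cases a1 : ∫⁻ x in U, ENNReal.ofReal (ψ x) ∂pm G = ⊤
  · exact ⟨1 / 2, by norm_num, by simp only [one_div, a1, top_add, le_top]⟩
  by_cases a2 : ∫⁻ x in U, ENNReal.ofReal (1 - ψ x) ∂pm Ω = ⊤
  · exact ⟨1 / 2, by norm_num, by simp only [one_div, a2, add_top, top_add, le_top]⟩
  have z1 := lintegral_lf hU.measurableSet (by fun_prop) (lt_top_iff_ne_top.2 a1)
  have z2 := lintegral_lf hU.measurableSet (by fun_prop) (lt_top_iff_ne_top.2 a2)
  have sf : ∀ M : Set (R d), SigmaFinite ((pm M).restrict (U ∩ lf M)) := fun M =>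
    sigmaFinite_restrict (hU.inter (isOpen_lf M)) _ fun K hK h =>
      pm_lt_top hK (h.trans inter_subset_right)
  have m1 : ∀ k, Measurable (Function.uncurry fun (s : ℝ) (x : R d) =>
      ENNReal.ofReal (Real.smoothTransition ((ψ x - s) / rr k))) := fun k =>
    (Continuous.measurable (by fun_prop)).ennreal_ofReal
  have m2 : ∀ k, Measurable (Function.uncurry fun (s : ℝ) (x : R d) =>
      ENNReal.ofReal (1 - Real.smoothTransition ((ψ x - s) / rr k))) := fun k =>
    (Continuous.measurable (by fun_prop)).ennreal_ofReal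
  have m3 : ∀ k, Measurable (Function.uncurry fun (s : ℝ) (x : R d) =>
      ENNReal.ofReal (deriv Real.smoothTransition ((ψ x - s) / rr k) / rr k) *
        ‖fderiv ℝ ψ x‖ₑ) := fun k =>
    (Continuous.measurable (by fun_prop)).ennreal_ofReal.mul
      (Continuous.measurable (by fun_prop))
  obtain ⟨s, hs, h⟩ := A11_avg (f := fun k s =>
    ∫⁻ x in U ∩ lf G, ENNReal.ofReal (Real.smoothTransition ((ψ x - s) / rr k)) ∂pm G +
    ∫⁻ x in U ∩ lf Ω, ENNReal.ofReal (1 - Real.smoothTransition ((ψ x - s) / rr k)) ∂pm Ω +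
    ∫⁻ x in U ∩ (G ∆ Ω), ENNReal.ofReal (deriv Real.smoothTransition ((ψ x - s) / rr k) / rr k) *
      ‖fderiv ℝ ψ x‖ₑ)
    (Q := ∫⁻ x in U, ENNReal.ofReal (ψ x) ∂pm G + ∫⁻ x in U, ENNReal.ofReal (1 - ψ x) ∂pm Ω +
        ∫⁻ x in U ∩ (G ∆ Ω), ‖fderiv ℝ ψ x‖ₑ)
    (fun k => ((m1 k).lintegral_prod_right.add (m2 k).lintegral_prod_right).add
      (m3 k).lintegral_prod_right) fun b b0 b1 => by
    filter_upwards [rr_tendsto.eventually (gt_mem_nhds (sub_pos.2 b1))] with k hk
    have hr := rr_pos k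
    rw [lintegral_add_right _ (m3 k).lintegral_prod_right,
      lintegral_add_right _ (m2 k).lintegral_prod_right]
    refine add_le_add (add_le_add ?_ ?_) (A11_ton _ (m3 k) fun x => ?_)
    · refine (A11_ton _ (m1 k) fun x => ?_).trans (lintegral_mono_set inter_subset_left)
      refine (A11_vol (p := 0) (q := ψ x) (fun s => Real.smoothTransition.le_one _)
        fun s hs h => ?_).trans_eq (by rw [sub_zero])
      exact Real.smoothTransition.zero_of_nonpos (div_nonpos_of_nonpos_of_nonneg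
        (sub_nonpos.2 (not_lt.1 fun h' => h ⟨hs.1, h'⟩)) hr.le)
    · refine (A11_ton _ (m2 k) fun x => ?_).trans (lintegral_mono_set inter_subset_left)
      refine (A11_vol (p := ψ x - rr k) (q := b)
        (fun s => sub_le_self _ (Real.smoothTransition.nonneg _)) fun s hs h => ?_).trans
        (ENNReal.ofReal_le_ofReal (by linarith))
      have : s ≤ ψ x - rr k := not_lt.1 fun h' => h ⟨h', hs.2⟩
      rw [Real.smoothTransition.one_of_one_le (by rw [le_div_iff₀ hr]; linarith), sub_self]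
    · rw [lintegral_mul_const' _ _ enorm_ne_top]
      exact mul_le_of_le_one_left' (A11_der hr b0)
  refine ⟨s, hs, ((A11_lim hG hΩ hU (isOpen_lt continuous_const cψ).measurableSet
    (u := fun k x => Real.smoothTransition ((ψ x - s) / rr k))
    (fun k => hc.comp ((hψ.sub contDiff_const).div_const _))
    (fun k x => Real.smoothTransition.nonneg _) (fun k x => Real.smoothTransition.le_one _)
    fun x => ?_).trans (liminf_le_liminf ?_)).trans h⟩
  · refine tendsto_const_nhds.congr' ?_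
    by_cases hx : s < ψ x
    · filter_upwards [rr_tendsto.eventually (gt_mem_nhds (sub_pos.2 hx))] with k hk
      rw [if_pos hx, Real.smoothTransition.one_of_one_le (by rw [le_div_iff₀ (rr_pos k)]; linarith)]
    · refine Eventually.of_forall fun k => ?_
      beta_reduce
      rw [if_neg (show x ∉ {b | s < ψ b} from hx), Real.smoothTransition.zero_of_nonpos (div_nonpos_of_nonpos_of_nonneg
        (by linarith [not_lt.1 hx]) (rr_pos k).le)]
  · filter_upwards [rr_tendsto.eventually (gt_mem_nhds (sub_pos.2 hs.2))] with k hk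
    have hr := rr_pos k
    refine add_le_add (add_le_add (A11_res hU.measurableSet fun x a b => ?_)
      (A11_res hU.measurableSet fun x a b => ?_)) (lintegral_mono fun x => ?_)
    · have := ENNReal.ofReal_eq_zero.1 (z1 x a b)
      rw [Real.smoothTransition.zero_of_nonpos (div_nonpos_of_nonpos_of_nonneg
        (by linarith [hs.1]) hr.le), ENNReal.ofReal_zero]
    · have := ENNReal.ofReal_eq_zero.1 (z2 x a b)
      rw [Real.smoothTransition.one_of_one_le (by rw [le_div_iff₀ hr]; linarith), sub_self,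
        ENNReal.ofReal_zero]
    · have e := (hc.differentiable one_ne_zero ((ψ x - s) / rr k)).hasDerivAt.comp_hasFDerivAt x
        (((hψ.differentiable one_ne_zero x).hasFDerivAt.sub_const s).mul_const (rr k)⁻¹)
      have e' : fderiv ℝ (fun x => Real.smoothTransition ((ψ x - s) / rr k)) x = _ := e.fderiv
      rw [e', smul_smul, enorm_smul, Real.enorm_of_nonneg
        (mul_nonneg Real.smoothTransition.monotone.deriv_nonneg (inv_nonneg.2 hr.le))]
      exact le_rfl

end Pool.Agent.MP_5cfeaf_gt.W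

end

section

/-! Region paste lemma and absence of atoms. -/

set_option autoImplicit false

open MeasureTheory Set Filter Topology Metric
open scoped ENNReal symmDiff Classical InnerProductSpace ContDiff

namespace Pool.Agent.MP_5cfeaf_gt.W

variable {d : ℕ}

theorem a12_front {Z : Set (R d)} {x z : R d} (hx : x ∉ Z) (hz : z ∈ Z) :
    ∃ p ∈ frontier Z, dist x p ≤ dist x z := by
  by_contra hc
  have hs : segment ℝ x z ⊆ interior Z ∪ interior Zᶜ := fun p hp => by
    rw [← compl_frontier_eq_union_interior]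
    intro hp'
    refine hc ⟨p, hp', ?_⟩
    have := dist_add_dist_of_mem_segment hp
    linarith [dist_nonneg (x := p) (y := z)]
  rcases IsPreconnected.subset_or_subset isOpen_interior isOpen_interior
    (disjoint_compl_right.mono interior_subset interior_subset) hs
    (convex_segment x z).isPreconnected with h | h
  · exact hx (interior_subset (h (left_mem_segment ℝ x z)))
  · exact interior_subset (h (right_mem_segment ℝ x z)) hz

theorem a12_far {Z : Set (R d)} (hZ : Z.Nonempty) {x : R d} {h : ℝ}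
    (hx : ∀ z ∈ Z, h ≤ dist x z) : h ≤ infDist x Z := by
  by_contra hc
  obtain ⟨z, hz, hd⟩ := (infDist_lt_iff hZ).1 (not_le.1 hc)
  exact absurd (hx z hz) (not_le.2 hd)

theorem a12_mol {g : R d → ℝ} {K δ : ℝ} (hδ : 0 < δ) (hK : 0 ≤ K) (h0 : ∀ x, 0 ≤ g x ∧ g x ≤ 1)
    (hl : ∀ x y, dist (g x) (g y) ≤ K * dist x y) : ∃ ψ : R d → ℝ, ContDiff ℝ 1 ψ ∧
    (∀ x, 0 ≤ ψ x ∧ ψ x ≤ 1) ∧ (∀ x, ‖fderiv ℝ ψ x‖ ≤ K) ∧
    ∀ x c, (∀ y, dist y x < δ → g y = c) → ψ x = c := by
  obtain ⟨k, hk⟩ := (rr_tendsto.eventually (gt_mem_nhds hδ)).exists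
  have hg : Continuous g := (LipschitzWith.of_dist_le' hl).continuous
  have hρ : Continuous (rho k : R d → ℝ) := (rho_smooth k).continuous
  have hi : ∀ x, Integrable fun y : R d => rho k y * g (x - y) := fun x =>
    (by fun_prop : Continuous fun y : R d => rho k y * g (x - y)).integrable_of_hasCompactSupport
      (rho_cs k).mul_right
  refine ⟨fun x => ∫ y, rho k y * g (x - y), ?_, fun x => ⟨?_, ?_⟩, fun x => ?_, fun x c hc => ?_⟩
  · exact (rho_cs k).contDiff_convolution_left (μ := volume) (ContinuousLinearMap.mul ℝ ℝ)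
      (rho_smooth k) hg.locallyIntegrable
  · exact integral_nonneg fun y => mul_nonneg (rho_nonneg k y) (h0 _).1
  · rw [← rho_int (d := d) k]
    exact integral_mono (hi x) (rho_integrable k) fun y =>
      mul_le_of_le_one_right (rho_nonneg k y) (h0 _).2
  · refine (norm_fderiv_le_of_lipschitz ℝ (LipschitzWith.of_dist_le' (K := K) fun x y => ?_)).trans
      (by rw [Real.coe_toNNReal _ hK])
    rw [Real.dist_eq, ← integral_sub (hi x) (hi y), ← Real.norm_eq_abs]
    refine (norm_integral_le_of_norm_le ((rho_integrable k).mul_const (K * dist x y))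
      (Eventually.of_forall fun z => ?_)).trans ?_
    · rw [← mul_sub, norm_mul, Real.norm_of_nonneg (rho_nonneg k z)]
      refine mul_le_mul_of_nonneg_left ?_ (rho_nonneg k z)
      have := hl (x - z) (y - z)
      rwa [dist_sub_right, dist_eq_norm] at this
    · rw [integral_mul_const, rho_int, one_mul]
  · have e : ∀ y : R d, rho k y * g (x - y) = rho k y * c := fun y => by
      by_cases hy : rr k ≤ ‖y‖
      · rw [rho_zero hy, zero_mul, zero_mul]
      · rw [hc (x - y) (by
          rw [dist_eq_norm, sub_sub_cancel_left, norm_neg]; linarith [not_le.1 hy])]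
    simp only [e]
    rw [integral_mul_const, rho_int, one_mul]

theorem a12_cut (Z : Set (R d)) {h : ℝ} (hh : 0 < h) : ∃ ψ : R d → ℝ, ContDiff ℝ 1 ψ ∧
    (∀ x, 0 ≤ ψ x ∧ ψ x ≤ 1) ∧ (∀ x ∈ closure Z, ψ x = 1) ∧ (∀ x, x ∉ cthickening h Z → ψ x = 0) ∧
    (∀ x, ‖fderiv ℝ ψ x‖ ≤ 3 / h) ∧
    ∀ x, x ∉ cthickening h (frontier Z) → fderiv ℝ ψ x = 0 ∧ ψ x = Z.indicator 1 x := by
  rcases Z.eq_empty_or_nonempty with rfl | hZ
  · refine ⟨fun _ => 0, contDiff_const, fun _ => ⟨le_rfl, zero_le_one⟩, by simp, fun _ _ => rfl,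
      fun x => ?_, fun x _ => by simp⟩
    simp only [fderiv_fun_const, Pi.zero_apply, norm_zero]
    positivity
  have hlip : ∀ x y : R d, |infDist x Z - infDist y Z| ≤ dist x y := fun x y => by
    have := (lipschitz_infDist_pt Z).dist_le_mul x y
    rwa [Real.dist_eq, NNReal.coe_one, one_mul] at this
  obtain ⟨ψ, h1, h2, h3, h4⟩ := a12_mol (d := d)
    (g := fun x => max 0 (min 1 (2 - 3 / h * infDist x Z))) (K := 3 / h) (δ := h / 6)
    (by positivity) (by positivity)
    (fun x => ⟨le_max_left _ _, max_le zero_le_one (min_le_left _ _)⟩)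
    (fun x y => by
      rw [Real.dist_eq]
      refine (abs_max_sub_max_le_max _ _ _ _).trans (max_le (by simp only [sub_self, abs_zero]; positivity) ?_)
      refine (abs_min_sub_min_le_max _ _ _ _).trans (max_le (by simp only [sub_self, abs_zero]; positivity) ?_)
      rw [show 2 - 3 / h * infDist x Z - (2 - 3 / h * infDist y Z) =
        -(3 / h * (infDist x Z - infDist y Z)) by ring, abs_neg, abs_mul,
        abs_of_nonneg (by positivity : 0 ≤ 3 / h)]
      exact mul_le_mul_of_nonneg_left (hlip x y) (by positivity))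
  have k1 : ∀ x, infDist x Z ≤ h / 6 → ψ x = 1 := fun x hx => h4 x 1 fun y hy => by
    have a1 : infDist y Z ≤ h / 3 := by linarith [(abs_le.1 (hlip y x)).2]
    have a2 : 3 / h * infDist y Z ≤ 1 := by
      calc 3 / h * infDist y Z ≤ 3 / h * (h / 3) := by gcongr
        _ = 1 := by field_simp
    rw [min_eq_left (by linarith only [a2]), max_eq_right zero_le_one]
  have k0 : ∀ x, 5 * h / 6 ≤ infDist x Z → ψ x = 0 := fun x hx => h4 x 0 fun y hy => by
    have a1 : 2 * h / 3 ≤ infDist y Z := by linarith [(abs_le.1 (hlip y x)).1]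
    have a2 : 2 ≤ 3 / h * infDist y Z := by
      calc 2 = 3 / h * (2 * h / 3) := by field_simp
        _ ≤ 3 / h * infDist y Z := by gcongr
    exact max_eq_left ((min_le_right _ _).trans (by linarith only [a2]))
  have hc : Continuous fun x : R d => infDist x Z := continuous_infDist_pt Z
  refine ⟨ψ, h1, h2, fun x hx => k1 x ?_, fun x hx => k0 x ?_, h3, fun x hx => ?_⟩
  · rw [infDist_zero_of_mem_closure hx]; positivity
  · refine le_trans (by linarith) (a12_far (h := h) hZ fun z hz => ?_)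
    by_contra hd
    exact hx (mem_cthickening_of_dist_le x z h Z hz (not_le.1 hd).le)
  · by_cases hxZ : x ∈ Z
    · have a1 : infDist x Z < h / 6 := by rw [infDist_zero_of_mem hxZ]; positivity
      have a2 : ψ =ᶠ[𝓝 x] fun _ => 1 := by
        filter_upwards [hc.continuousAt.eventually (gt_mem_nhds a1)] with y hy using k1 y hy.le
      exact ⟨by rw [a2.fderiv_eq]; simp, by rw [k1 x a1.le, indicator_of_mem hxZ]; rfl⟩
    · have a1 : 5 * h / 6 < infDist x Z := by
        refine lt_of_lt_of_le (by linarith) (a12_far (h := h) hZ fun z hz => ?_)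
        obtain ⟨p, hp, hd⟩ := a12_front hxZ hz
        by_contra hd'
        exact hx (mem_cthickening_of_dist_le x p h _ hp (hd.trans (not_le.1 hd').le))
      have a2 : ψ =ᶠ[𝓝 x] fun _ => 0 := by
        filter_upwards [hc.continuousAt.eventually (lt_mem_nhds a1)] with y hy using k0 y hy.le
      exact ⟨by rw [a2.fderiv_eq]; simp, by rw [k0 x a1.le, indicator_of_notMem hxZ]⟩

theorem a12_step {G Ω U : Set (R d)} (Z : Set (R d)) (hG : MeasurableSet G) (hΩ : MeasurableSet Ω)
    (hU : IsOpen U) {h : ℝ} (hh : 0 < h) : ∃ F : Set (R d), MeasurableSet F ∧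
    F ∆ ((G ∩ Z) ∪ (Ω \ Z)) ⊆ (G ∆ Ω) ∩ cthickening h (frontier Z) ∧
    pm F U ≤ (pm G).restrict U (cthickening h Z) + (pm Ω).restrict U (cthickening h Zᶜ) +
      3 * (volume ((G ∆ Ω) ∩ U ∩ cthickening h (frontier Z)) / ENNReal.ofReal h) := by
  obtain ⟨ψ, h1, h2, -, h4, h5, h6⟩ := a12_cut Z hh
  obtain ⟨s, hs, hp⟩ := paste_fun hG hΩ hU h1 (fun x => (h2 x).1) fun x => (h2 x).2
  have hm : MeasurableSet {x | s < ψ x} := measurableSet_lt measurable_const h1.continuous.measurable
  refine ⟨_, (hG.inter hm).union (hΩ.diff hm), fun x hx => ⟨?_, ?_⟩, hp.trans ?_⟩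
  · simp only [mem_symmDiff, mem_union, mem_inter_iff, Set.mem_sdiff] at hx ⊢
    tauto
  · by_contra hc
    have e := (h6 x hc).2
    have e' : s < ψ x ↔ x ∈ Z := by
      by_cases hz : x ∈ Z
      · rw [e, indicator_of_mem hz]; exact iff_of_true hs.2 hz
      · rw [e, indicator_of_notMem hz]; exact iff_of_false (not_lt.2 hs.1.le) hz
    simp only [mem_symmDiff, mem_union, mem_inter_iff, Set.mem_sdiff, mem_ofPred_eq, e'] at hx
    tauto
  refine add_le_add (add_le_add ?_ ?_) ?_
  · rw [← lintegral_indicator_one isClosed_cthickening.measurableSet]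
    refine lintegral_mono fun x => ?_
    by_cases hx : x ∈ cthickening h Z
    · rw [indicator_of_mem hx]; exact ENNReal.ofReal_le_one.2 (h2 x).2
    · simp [h4 x hx]
  · rw [← lintegral_indicator_one isClosed_cthickening.measurableSet]
    refine lintegral_mono fun x => ?_
    by_cases hx : x ∈ cthickening h Zᶜ
    · rw [indicator_of_mem hx]; exact ENNReal.ofReal_le_one.2 (by linarith [(h2 x).1])
    · have a1 : x ∈ Z := by
        by_contra hz
        exact hx (self_subset_cthickening _ hz)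
      have a2 : x ∉ cthickening h (frontier Z) := fun hc => hx (by
        rw [← cthickening_closure]
        refine cthickening_subset_of_subset h ?_ hc
        rw [← frontier_compl]
        exact frontier_subset_closure)
      simp [(h6 x a2).2, indicator_of_mem a1]
  · have e : ∀ x, ‖fderiv ℝ ψ x‖ₑ ≤
        (cthickening h (frontier Z)).indicator (fun _ => ENNReal.ofReal (3 / h)) x := fun x => by
      by_cases hx : x ∈ cthickening h (frontier Z)
      · rw [indicator_of_mem hx, ← ofReal_norm]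
        exact ENNReal.ofReal_le_ofReal (h5 x)
      · rw [(h6 x hx).1, ← ofReal_norm, norm_zero, ENNReal.ofReal_zero]
        exact zero_le
    refine (lintegral_mono e).trans (le_of_eq ?_)
    rw [lintegral_indicator_const isClosed_cthickening.measurableSet,
      Measure.restrict_apply isClosed_cthickening.measurableSet, ENNReal.ofReal_div_of_pos hh,
      inter_comm (cthickening _ _), inter_comm U, ENNReal.ofReal_ofNat, div_eq_mul_inv, div_eq_mul_inv,
      mul_assoc, mul_comm (ENNReal.ofReal h)⁻¹]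

/-- region paste lemma -/
theorem paste_reg {G Ω U Z : Set (R d)} (hG : MeasurableSet G) (hΩ : MeasurableSet Ω) (hU : IsOpen U)
    (hZ : MeasurableSet Z) (hf : pm G U < ⊤) (hf' : pm Ω U < ⊤) :
    pm ((G ∩ Z) ∪ (Ω \ Z)) U ≤ pm G (U ∩ closure Z) + pm Ω (U ∩ closure Zᶜ) +
      3 * liminf (fun h : ℝ => volume ((G ∆ Ω) ∩ U ∩ cthickening h (frontier Z)) / ENNReal.ofReal h)
        (𝓝[>] 0) := by
  obtain ⟨q, hq⟩ : ∃ q : ℝ → ℝ≥0∞, q = fun h : ℝ =>
      volume ((G ∆ Ω) ∩ U ∩ cthickening h (frontier Z)) / ENNReal.ofReal h := ⟨_, rfl⟩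
  rw [← hq]
  by_cases hl : liminf q (𝓝[>] 0) = ⊤
  · rw [hl]; simp only [closure_compl, ne_eq, OfNat.ofNat_ne_zero, not_false_eq_true, ENNReal.mul_top, add_top, le_top]
  obtain ⟨t, ht, ht0⟩ := exists_seq_tendsto_liminf (f := 𝓝[>] (0 : ℝ)) (u := q)
  obtain ⟨ht1, ht2⟩ := tendsto_nhdsWithin_iff.1 ht0
  have hF : ∀ j, ∃ F : Set (R d), 0 < t j → MeasurableSet F ∧
      F ∆ ((G ∩ Z) ∪ (Ω \ Z)) ⊆ (G ∆ Ω) ∩ cthickening (t j) (frontier Z) ∧
      pm F U ≤ (pm G).restrict U (cthickening (t j) Z) + (pm Ω).restrict U (cthickening (t j) Zᶜ) +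
        3 * q (t j) := fun j => by
    by_cases hj : 0 < t j
    · obtain ⟨F, h⟩ := a12_step Z hG hΩ hU hj
      exact ⟨F, fun _ => by rw [hq]; exact h⟩
    · exact ⟨∅, fun h => absurd h hj⟩
  choose F hF using hF
  have hfin : ∀ {A : Set (R d)} (Y : Set (R d)), pm A U < ⊤ →
      Tendsto (fun j => (pm A).restrict U (cthickening (t j) Y)) atTop (𝓝 (pm A (U ∩ closure Y))) := by
    intro A Y hA
    rw [inter_comm, ← Measure.restrict_apply isClosed_closure.measurableSet]
    refine (tendsto_measure_cthickening ⟨1, one_pos, ?_⟩).comp ht1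
    refine ((measure_mono (subset_univ _)).trans_lt ?_).ne
    rwa [Measure.restrict_apply_univ]
  have hlim := ((hfin Z hf).add (hfin Zᶜ hf')).add
    (ENNReal.Tendsto.const_mul (a := 3) ht (Or.inr (by simp)))
  refine (pm_lsc (l := atTop) (Ω := F) hU (ht2.mono fun j hj => (hF j hj).1)
    ((hG.inter hZ).union (hΩ.diff hZ)) fun K _ hK => ?_).trans ?_
  · have h0 : Tendsto (fun j => q (t j) * ENNReal.ofReal (t j)) atTop (𝓝 0) := by
      have := ENNReal.Tendsto.mul ht (Or.inr ENNReal.ofReal_ne_top)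
        (ENNReal.tendsto_ofReal ht1) (Or.inr hl)
      simpa using this
    refine tendsto_of_tendsto_of_tendsto_of_le_of_le' tendsto_const_nhds h0
      (Eventually.of_forall fun _ => zero_le) (ht2.mono fun j hj => ?_)
    have hj' : 0 < t j := hj
    rw [hq]
    dsimp only
    rw [ENNReal.div_mul_cancel (by simpa using hj') ENNReal.ofReal_ne_top]
    refine measure_mono fun x hx => ?_
    have := (hF j hj).2.1 hx.1
    exact ⟨⟨this.1, hK hx.2⟩, this.2⟩
  · rw [← hlim.liminf_eq]
    exact liminf_le_liminf (ht2.mono fun j hj => (hF j hj).2.2)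

end Pool.Agent.MP_5cfeaf_gt.W

end

section

/-! Subgraphs. -/

set_option autoImplicit false

open MeasureTheory Set Filter Topology Metric
open scoped ENNReal symmDiff Classical InnerProductSpace ContDiff

namespace Pool.Agent.MP_5cfeaf_gt.W

variable {d : ℕ}

theorem a14_grad_cont {u : E d → ℝ} (hu : ContDiff ℝ 1 u) : Continuous (gradient u) := by
  have h : gradient u = fun z => (InnerProductSpace.toDual ℝ (E d)).symm (fderiv ℝ u z) := rfl
  rw [h]
  exact (InnerProductSpace.toDual ℝ (E d)).symm.continuous.comp (hu.continuous_fderiv (by norm_num))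

theorem a14_inner_grad (u : E d → ℝ) (z v : E d) : ⟪v, gradient u z⟫_ℝ = fderiv ℝ u z v := by
  rw [real_inner_comm]
  exact InnerProductSpace.toDual_symm_apply

theorem a14_mk_single (i : Fin d) (c : ℝ) :
    mk (EuclideanSpace.single i (1 : ℝ)) c =
      EuclideanSpace.single i.castSucc (1 : ℝ) + c • mk (0 : E d) 1 := by
  ext j
  refine Fin.lastCases ?_ (fun k => ?_) j
  · simp [mk, (Fin.castSucc_lt_last i).ne']
  · simp [mk]

theorem a14_mk_last : mk (0 : E d) 1 = EuclideanSpace.single (Fin.last d) (1 : ℝ) := by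
  ext j
  refine Fin.lastCases ?_ (fun k => ?_) j
  · simp [mk]
  · simp [mk, (Fin.castSucc_lt_last k).ne]

/-- the shear as a homeomorphism -/
noncomputable def a14_sh {u : E d → ℝ} (hu : Continuous u) : (E d × ℝ) ≃ₜ R d where
  toFun q := mk q.1 (u q.1 + q.2)
  invFun x := (pr x, ht x - u (pr x))
  left_inv q := by simp
  right_inv x := by simp
  continuous_toFun :=
    continuous_mk.comp (continuous_fst.prodMk ((hu.comp continuous_fst).add continuous_snd))
  continuous_invFun := continuous_pr.prodMk (continuous_ht.sub (hu.comp continuous_pr))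

theorem a14_sh_apply {u : E d → ℝ} (hu : Continuous u) (q : E d × ℝ) :
    a14_sh hu q = mk q.1 (u q.1 + q.2) := rfl

theorem a14_sh_mp {u : E d → ℝ} (hu : Continuous u) :
    MeasurePreserving (a14_sh hu) (volume.prod volume) (volume : Measure (R d)) := by
  have h1 : MeasurePreserving (fun q : E d × ℝ => (id q.1, u q.1 + q.2))
      ((volume : Measure (E d)).prod (volume : Measure ℝ)) (volume.prod volume) :=
    MeasurePreserving.skew_product (g := fun z t => u z + t) (MeasurePreserving.id volume)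
      ((hu.comp continuous_fst).add continuous_snd).measurable
      (Eventually.of_forall fun z => (measurePreserving_add_left volume (u z)).map_eq)
  exact measurePreserving_coord.comp h1

theorem a14_hor {u : E d → ℝ} (hu : ContDiff ℝ 1 u) {T : R d → R d} (hT : ContDiff ℝ 1 T)
    (z : E d) (τ : ℝ) :
    dv (fun w => pr (T (mk w (u w + τ)))) z =
      dv T (mk z (u z + τ)) -
        ⟪fderiv ℝ T (mk z (u z + τ)) (mk 0 1), mk (-gradient u z) 1⟫_ℝ := by
  obtain ⟨P, hP⟩ := exists_prL d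
  obtain ⟨L, hL⟩ := exists_mkL d
  have hu' : HasFDerivAt u (fderiv ℝ u z) z := (hu.differentiable (by norm_num) z).hasFDerivAt
  have h1 : HasFDerivAt (fun w => L (w, u w + τ))
      ((L : E d × ℝ →L[ℝ] R d).comp ((ContinuousLinearMap.id ℝ (E d)).prod (fderiv ℝ u z))) z :=
    (L : E d × ℝ →L[ℝ] R d).hasFDerivAt.comp z ((hasFDerivAt_id z).prodMk (hu'.add_const τ))
  have hT' : HasFDerivAt T (fderiv ℝ T (mk z (u z + τ))) (L (z, u z + τ)) := by
    rw [hL]
    exact (hT.differentiable (by norm_num) _).hasFDerivAt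
  have h2 := P.hasFDerivAt.comp z (hT'.comp z h1)
  have h3 : (fun w => pr (T (mk w (u w + τ)))) = P ∘ T ∘ fun w => L (w, u w + τ) := by
    funext w
    simp [hP, hL]
  set D := fderiv ℝ T (mk z (u z + τ)) with hD
  have h4 : ∀ i : Fin d, fderiv ℝ (fun w => pr (T (mk w (u w + τ)))) z (EuclideanSpace.single i 1) i =
      D (EuclideanSpace.single i.castSucc 1) i.castSucc +
        fderiv ℝ u z (EuclideanSpace.single i 1) * D (mk 0 1) i.castSucc := by
    intro i
    rw [h3, h2.fderiv]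
    simp only [ContinuousLinearMap.comp_apply, ContinuousLinearMap.prod_apply,
      ContinuousLinearMap.id_apply, ContinuousLinearEquiv.coe_coe, hL, hP]
    rw [a14_mk_single, map_add, map_smul]
    simp [pr]
  have h5 : fderiv ℝ u z (pr (D (mk 0 1))) =
      ∑ i : Fin d, fderiv ℝ u z (EuclideanSpace.single i 1) * D (mk 0 1) i.castSucc := by
    have h6 : pr (D (mk 0 1)) =
        ∑ i : Fin d, D (mk 0 1) i.castSucc • EuclideanSpace.single i (1 : ℝ) := by
      ext j
      simp only [pr, WithLp.ofLp_sum, WithLp.ofLp_smul, PiLp.ofLp_single, Finset.sum_apply, Pi.smul_apply, Pi.single_apply, smul_eq_mul, mul_ite, mul_one, mul_zero, Finset.sum_ite_eq, Finset.mem_univ, ↓ reduceIte]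
    rw [h6, map_sum]
    refine Finset.sum_congr rfl fun i _ => ?_
    rw [map_smul, smul_eq_mul, mul_comm]
  rw [inner_coord, pr_mk, ht_mk, inner_neg_right, a14_inner_grad, h5]
  unfold dv
  rw [Fin.sum_univ_castSucc, Finset.sum_congr rfl fun i _ => h4 i, Finset.sum_add_distrib,
    ← a14_mk_last, ← hD]
  unfold ht
  ring

theorem graph_gauss {u : E d → ℝ} (hu : ContDiff ℝ 1 u) {T : R d → R d} (hT : C1c T univ) :
    ∫ x in {x | ht x < u (pr x)}, dv T x = ∫ z, ⟪T (mk z (u z)), mk (-gradient u z) 1⟫_ℝ := by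
  have huc := hu.continuous
  obtain ⟨P, hP⟩ := exists_prL d
  obtain ⟨L, hL⟩ := exists_mkL d
  set Ψ := a14_sh huc with hΨ
  have hK : IsCompact (Ψ ⁻¹' tsupport T) := Ψ.isCompact_preimage.2 hT.2.1
  have hpre : Ψ ⁻¹' {x | ht x < u (pr x)} = univ ×ˢ Iio 0 := by
    ext q
    simp [hΨ, a14_sh_apply]
  rw [← (a14_sh_mp huc).setIntegral_preimage_emb Ψ.measurableEmbedding, hpre]
  set Bf : E d × ℝ → ℝ := fun q =>
    ⟪fderiv ℝ T (Ψ q) (mk 0 1), mk (-gradient u q.1) 1⟫_ℝ with hBf
  have hBc : Continuous Bf := by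
    refine Continuous.inner ?_ ?_
    · exact ((hT.1.continuous_fderiv (by norm_num)).comp Ψ.continuous).clm_apply continuous_const
    · exact continuous_mk.comp
        (((a14_grad_cont hu).comp continuous_fst).neg.prodMk continuous_const)
  have hBs : HasCompactSupport Bf := by
    refine HasCompactSupport.intro hK fun q hq => ?_
    have h0 : fderiv ℝ T (Ψ q) = 0 := by
      by_contra hne
      exact hq (support_fderiv_subset ℝ hne)
    simp [hBf, h0]
  have hBi : Integrable Bf (volume.prod volume) := hBc.integrable_of_hasCompactSupport hBs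
  have hDi : Integrable (fun q => dv T (Ψ q)) (volume.prod volume) :=
    ((a14_sh_mp huc).integrable_comp_emb Ψ.measurableEmbedding).2 (dv_integrable hT)
  have hsplit : ∫ q in univ ×ˢ Iio (0 : ℝ), dv T (Ψ q) ∂(volume.prod volume) =
      ∫ q in univ ×ˢ Iio (0 : ℝ), (dv T (Ψ q) - Bf q) ∂(volume.prod volume) +
        ∫ q in univ ×ˢ Iio (0 : ℝ), Bf q ∂(volume.prod volume) := by
    rw [integral_sub hDi.integrableOn hBi.integrableOn]
    ring
  have hA : ∫ q in univ ×ˢ Iio (0 : ℝ), (dv T (Ψ q) - Bf q) ∂(volume.prod volume) = 0 := by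
    have hi : Integrable (fun q => dv T (Ψ q) - Bf q)
        (((volume : Measure (E d)).restrict univ).prod ((volume : Measure ℝ).restrict (Iio 0))) := by
      rw [Measure.prod_restrict]
      exact (hDi.sub hBi).integrableOn
    rw [← Measure.prod_restrict, integral_prod_symm _ hi, Measure.restrict_univ]
    refine integral_eq_zero_of_ae (Eventually.of_forall fun τ => ?_)
    have hG : C1c (fun w => pr (T (mk w (u w + τ)))) univ := by
      refine ⟨?_, ?_, subset_univ _⟩
      · have h3 : (fun w => pr (T (mk w (u w + τ)))) = P ∘ T ∘ fun w => L (w, u w + τ) := by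
          funext w
          simp [hP, hL]
        rw [h3]
        exact P.contDiff.comp (hT.1.comp (L.contDiff.comp
          (contDiff_id.prodMk (hu.add contDiff_const))))
      · refine HasCompactSupport.intro (hK.image continuous_fst) fun w hw => ?_
        have h0 : T (mk w (u w + τ)) = 0 := by
          by_contra hne
          exact hw ⟨(w, τ), subset_tsupport T hne, rfl⟩
        rw [h0, ← hP, map_zero]
    have h := integral_dv hG
    simp only [a14_hor hu hT.1] at h
    exact h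
  rw [hsplit, hA, zero_add, setIntegral_prod _ hBi.integrableOn, Measure.restrict_univ]
  refine integral_congr_ae (Eventually.of_forall fun z => ?_)
  have hder : ∀ τ : ℝ, HasDerivAt (fun s => ⟪T (mk z (u z + s)), mk (-gradient u z) 1⟫_ℝ)
      (Bf (z, τ)) τ := by
    intro τ
    have h1 : HasDerivAt (fun s : ℝ => L (z, u z + s)) (L (0, 1)) τ :=
      (L : E d × ℝ →L[ℝ] R d).hasFDerivAt.comp_hasDerivAt τ
        ((hasDerivAt_const τ z).prodMk ((hasDerivAt_id τ).const_add (u z)))
    simp only [hL] at h1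
    have h2 : HasDerivAt (fun s : ℝ => T (mk z (u z + s)))
        (fderiv ℝ T (mk z (u z + τ)) (mk 0 1)) τ :=
      (hT.1.differentiable (by norm_num) _).hasFDerivAt.comp_hasDerivAt τ h1
    have h3 := h2.inner ℝ (hasDerivAt_const τ (mk (-gradient u z) 1))
    simpa only [hBf, hΨ, a14_sh_apply, inner_zero_right, zero_add] using h3
  have hcs : HasCompactSupport fun s => ⟪T (mk z (u z + s)), mk (-gradient u z) 1⟫_ℝ := by
    refine HasCompactSupport.intro (hK.image continuous_snd) fun s hs => ?_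
    have h0 : T (mk z (u z + s)) = 0 := by
      by_contra hne
      exact hs ⟨(z, s), subset_tsupport T hne, rfl⟩
    rw [h0, inner_zero_left]
  have hcd : ContDiff ℝ 1 fun s => ⟪T (mk z (u z + s)), mk (-gradient u z) 1⟫_ℝ := by
    have h3 : (fun s => T (mk z (u z + s))) = T ∘ fun s => L (z, u z + s) := by
      funext s
      simp [hL]
    refine ContDiff.inner ℝ ?_ contDiff_const
    rw [h3]
    exact hT.1.comp (L.contDiff.comp (contDiff_const.prodMk (contDiff_const.add contDiff_id)))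
  have h := hcs.integral_Iic_deriv_eq hcd 0
  simp only [(hder _).deriv, add_zero] at h
  rw [integral_Iic_eq_integral_Iio] at h
  exact h

theorem a14_norm (g : E d) : ‖mk (-g) 1‖ = √(1 + ‖g‖ ^ 2) := by
  have h := norm_sq_coord (mk (-g) 1)
  rw [pr_mk, ht_mk, norm_neg] at h
  rw [← Real.sqrt_sq (norm_nonneg (mk (-g) 1)), h]
  congr 1
  ring

/-- varifold of a `C^1` subgraph -/
theorem vf_graph {Ω : Set (R d)} (hΩ : MeasurableSet Ω) {u : E d → ℝ} (hu : ContDiff ℝ 1 u)
    {y : E d} {r t h : ℝ} (hb : ∀ z ∈ ball y r, |u z - t| < h)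
    (he : volume ((Ω ∆ {x | ht x < u (pr x)}) ∩ cyl y r t h) = 0) :
    cyl y r t h ⊆ lf Ω ∧ vf Ω (cyl y r t h) =
      (((volume : Measure (E d)).restrict (ball y r)).withDensity
        fun z => ENNReal.ofReal √(1 + ‖gradient u z‖ ^ 2)).map
          fun z => (mk z (u z), toS (mk (-gradient u z) 1)) := by
  have huc := hu.continuous
  have hg := a14_grad_cont hu
  set U := cyl y r t h with hU
  have hUo : IsOpen U := isOpen_cyl y r t h
  set ν : Measure (E d) := ((volume : Measure (E d)).restrict (ball y r)).withDensity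
    fun z => ENNReal.ofReal √(1 + ‖gradient u z‖ ^ 2) with hν
  have hρ : Continuous fun z => √(1 + ‖gradient u z‖ ^ 2) := by fun_prop
  have hΓ : Continuous fun z => mk z (u z) := continuous_mk.comp (continuous_id.prodMk huc)
  have hN : Continuous fun z => mk (-gradient u z) 1 :=
    continuous_mk.comp (hg.neg.prodMk continuous_const)
  have hξ : Measurable fun x : R d => toS (mk (-gradient u (pr x)) 1) :=
    measurable_toS.comp (hN.comp continuous_pr).measurable
  have hfin : IsFiniteMeasure ν := by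
    refine isFiniteMeasure_withDensity_ofReal ?_
    exact ((hρ.continuousOn.integrableOn_compact (isCompact_closedBall y r)).mono_set
      ball_subset_closedBall).hasFiniteIntegral
  have hGm : MeasurableSet {x : R d | ht x < u (pr x)} :=
    (isOpen_lt continuous_ht (huc.comp continuous_pr)).measurableSet
  have hmain := pm_uniq (Ω := Ω) hUo (ν.map fun z => mk z (u z))
    (fun K _ _ => measure_lt_top _ _) _ hξ (by
      intro T hT
      have hz : ∀ x, x ∉ U → dv T x = 0 := fun x hx => dv_zero fun h' => hx (hT.2.2 h')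
      have e1 : ∫ x in Ω, dv T x = ∫ x in Ω ∩ U, dv T x :=
        setIntegral_eq_of_subset_of_forall_sdiff_eq_zero hΩ inter_subset_left
          fun x hx => hz x fun h' => hx.2 ⟨hx.1, h'⟩
      have e2 : ∫ x in {x : R d | ht x < u (pr x)}, dv T x =
          ∫ x in {x : R d | ht x < u (pr x)} ∩ U, dv T x :=
        setIntegral_eq_of_subset_of_forall_sdiff_eq_zero hGm inter_subset_left
          fun x hx => hz x fun h' => hx.2 ⟨hx.1, h'⟩
      have e3 : (Ω ∩ U : Set (R d)) =ᵐ[volume] ({x : R d | ht x < u (pr x)} ∩ U : Set (R d)) := by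
        rw [← measure_symmDiff_eq_zero_iff, ← inter_symmDiff_distrib_right]
        exact he
      have hm : Measurable fun x : R d => ⟪T x, (toS (mk (-gradient u (pr x)) 1) : R d)⟫_ℝ :=
        hT.1.continuous.measurable.inner (measurable_subtype_coe.comp hξ)
      rw [e1, setIntegral_congr_set e3, ← e2, graph_gauss hu (hT.mono (subset_univ _)),
        integral_map hΓ.aemeasurable hm.aestronglyMeasurable,
        hν, integral_withDensity_eq_integral_toReal_smul hρ.measurable.ennreal_ofReal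
          (Eventually.of_forall fun _ => ENNReal.ofReal_lt_top),
        ← setIntegral_eq_integral_of_forall_compl_eq_zero (s := ball y r)]
      · refine integral_congr_ae (Eventually.of_forall fun z => ?_)
        have hpos : 0 < √(1 + ‖gradient u z‖ ^ 2) := Real.sqrt_pos.2 (by positivity)
        have hne : mk (-gradient u z) 1 ≠ 0 := by
          rw [← norm_pos_iff, a14_norm]
          exact hpos
        simp only [pr_mk]
        rw [toS_coe hne, a14_norm, ENNReal.toReal_ofReal hpos.le, inner_smul_right, smul_eq_mul,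
          ← mul_assoc, mul_inv_cancel₀ hpos.ne', one_mul]
      · intro z hz'
        have h0 : T (mk z (u z)) = 0 := by
          by_contra hne
          have h1 := (hT.2.2 (subset_tsupport T hne)).1
          rw [pr_mk] at h1
          exact hz' h1
        rw [h0, inner_zero_left])
  refine ⟨hmain.1, ?_⟩
  have hres : (ν.map fun z => mk z (u z)).restrict U = ν.map fun z => mk z (u z) := by
    refine Measure.restrict_eq_self_of_ae_mem ?_
    refine (ae_map_iff (p := fun x => x ∈ U) hΓ.aemeasurable hUo.measurableSet).2 ?_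
    refine (withDensity_absolutelyContinuous _ _).ae_le ?_
    filter_upwards [ae_restrict_mem measurableSet_ball] with z hz
    exact ⟨by rwa [pr_mk], by rw [ht_mk]; exact hb z hz⟩
  rw [hmain.2, hres, Measure.map_map (measurable_id'.prodMk hξ) hΓ.measurable]
  congr 1
  funext z
  simp

end Pool.Agent.MP_5cfeaf_gt.W

end

section

/-! Isoperimetric inequality, graphs as supports, similarities. -/

set_option autoImplicit false

open MeasureTheory Set Filter Topology Metric
open scoped ENNReal symmDiff Classical InnerProductSpace ContDiff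

namespace Pool.Agent.MP_5cfeaf_gt.W

variable {d : ℕ}

/-- isoperimetric inequality -/
theorem isoper (hd : 1 ≤ d) : ∃ C : ℝ≥0∞, C < ⊤ ∧ ∀ Ω : Set (R d), MeasurableSet Ω →
    Bornology.IsBounded Ω → volume Ω ^ d ≤ C * pm Ω univ ^ (d + 1) := by
  have hd0 : (0 : ℝ) < d := by exact_mod_cast hd
  have hp : Real.HolderConjugate (Module.finrank ℝ (R d)) (((d : ℝ) + 1) / d) := by
    rw [finrank_euclideanSpace_fin, Real.holderConjugate_iff]
    refine ⟨by push_cast; linarith only [hd0], ?_⟩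
    push_cast
    field_simp
    ring
  set p : ℝ := ((d : ℝ) + 1) / d with hpd
  have hp0 : 0 < p := by positivity
  set C : ℝ≥0∞ := (lintegralPowLePowLIntegralFDerivConst (volume : Measure (R d)) p : ℝ≥0∞) with hC
  refine ⟨C ^ d, ENNReal.pow_lt_top ENNReal.coe_lt_top, fun Ω hΩ hb => ?_⟩
  have h1 : ∀ k, ∫⁻ x, ‖mol k Ω x‖ₑ ^ p ≤ C * pm Ω univ ^ p := by
    intro k
    have hk : HasCompactSupport (mol k Ω) :=
      HasCompactSupport.intro (hb.thickening (δ := rr k)).isCompact_closure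
        fun x hx => mol_zero hΩ fun hm => hx (subset_closure hm)
    refine (lintegral_pow_le_pow_lintegral_fderiv volume (mol_smooth hΩ k) hk hp).trans ?_
    have h2 := mol_lint (A := univ) (k := k) hΩ isOpen_univ MeasurableSet.univ (subset_univ _)
    rw [Measure.restrict_univ] at h2
    exact mul_le_mul_right (ENNReal.rpow_le_rpow h2 hp0.le) _
  have hcont : Continuous fun t : ℝ => ‖t‖ₑ ^ p := ENNReal.continuous_rpow_const.comp continuous_enorm
  have h3 : volume Ω ≤ C * pm Ω univ ^ p := by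
    have h4 : volume Ω = ∫⁻ x, liminf (fun k => ‖mol k Ω x‖ₑ ^ p) atTop := by
      rw [← lintegral_indicator_one hΩ]
      refine lintegral_congr_ae ?_
      filter_upwards [mol_ae hΩ] with x hx
      have h5 : Tendsto (fun k => ‖mol k Ω x‖ₑ ^ p) atTop (𝓝 (‖Ω.indicator (1 : R d → ℝ) x‖ₑ ^ p)) :=
        (hcont.tendsto _).comp hx
      rw [h5.liminf_eq]
      by_cases hxΩ : x ∈ Ω
      · simp [hxΩ]
      · simp [hxΩ, hp0]
    rw [h4]
    refine (lintegral_liminf_le fun k => (hcont.comp (mol_smooth hΩ k).continuous).measurable).trans ?_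
    exact liminf_le_of_frequently_le' (Frequently.of_forall h1)
  refine (pow_le_pow_left' h3 d).trans (le_of_eq ?_)
  have h6 : p * (d : ℝ) = ((d + 1 : ℕ) : ℝ) := by
    rw [hpd]; push_cast; field_simp
  rw [mul_pow, ← ENNReal.rpow_natCast (pm Ω univ ^ p), ← ENNReal.rpow_mul, h6, ENNReal.rpow_natCast]

theorem a15_conn {D : Set (E d)} (hD : IsPreconnected D) {f g : E d → ℝ} (hf : Continuous f)
    (hg : Continuous g) :
    IsPreconnected {y : R d | pr y ∈ D ∧ f (pr y) < ht y ∧ ht y < g (pr y)} ∨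
      ∃ z ∈ D, g z ≤ f z := by
  by_cases h : ∃ z ∈ D, g z ≤ f z
  · exact Or.inr h
  left
  push Not at h
  have hc : Continuous fun q : E d × ℝ => mk q.1 (f q.1 + q.2 * (g q.1 - f q.1)) :=
    continuous_mk.comp (f := fun q : E d × ℝ => (q.1, f q.1 + q.2 * (g q.1 - f q.1))) (by fun_prop)
  have h1 := (hD.prod (isPreconnected_Ioo (a := (0 : ℝ)) (b := 1))).image _ hc.continuousOn
  have h2 : (fun q : E d × ℝ => mk q.1 (f q.1 + q.2 * (g q.1 - f q.1))) '' (D ×ˢ Ioo 0 1) =
      {y : R d | pr y ∈ D ∧ f (pr y) < ht y ∧ ht y < g (pr y)} := by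
    ext y
    constructor
    · rintro ⟨⟨z, s⟩, ⟨h3, h4, h5⟩, rfl⟩
      have h6 := h z h3
      simp only [mem_ofPred_eq, pr_mk, ht_mk]
      dsimp only at h3 h4 h5
      exact ⟨h3, by nlinarith only [h4, h6], by nlinarith only [h5, h6]⟩
    · rintro ⟨h3, h4, h5⟩
      have h6 : 0 < g (pr y) - f (pr y) := by linarith
      refine ⟨(pr y, (ht y - f (pr y)) / (g (pr y) - f (pr y))), ⟨h3, ?_, ?_⟩, ?_⟩
      · exact div_pos (by linarith) h6
      · exact (div_lt_one h6).2 (by linarith)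
      · dsimp only
        rw [div_mul_cancel₀ _ h6.ne', add_sub_cancel, mk_pr_ht]
  rwa [h2] at h1

theorem a15_open {D : Set (E d)} (hD : IsOpen D) {f g : E d → ℝ} (hf : Continuous f)
    (hg : Continuous g) : IsOpen {y : R d | pr y ∈ D ∧ f (pr y) < ht y ∧ ht y < g (pr y)} :=
  (hD.preimage continuous_pr).inter ((isOpen_lt (hf.comp continuous_pr) continuous_ht).inter
    (isOpen_lt continuous_ht (hg.comp continuous_pr)))

theorem a15_graph {u : E d → ℝ} (hu : Continuous u) : volume {y : R d | ht y = u (pr y)} = 0 := by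
  have hm : MeasurableSet {y : R d | ht y = u (pr y)} :=
    (isClosed_eq continuous_ht (hu.comp continuous_pr)).measurableSet
  rw [← measurePreserving_coord.measure_preimage hm.nullMeasurableSet,
    Measure.prod_apply (measurePreserving_coord.measurable hm)]
  have h : ∀ z : E d, volume (Prod.mk z ⁻¹' ((fun q : E d × ℝ => mk q.1 q.2) ⁻¹'
      {y : R d | ht y = u (pr y)})) = 0 := by
    intro z
    refine measure_mono_null (t := {u z}) ?_ (measure_singleton _)
    intro t h1
    simpa using h1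
  simp only [h, lintegral_zero]

theorem a15_zero {Ω U : Set (R d)} (hΩ : MeasurableSet Ω) (hU : IsOpen U) (h : volume (Ω ∩ U) = 0) :
    pm Ω U = 0 := by
  have h1 := pm_congr (Ω' := ∅) hΩ MeasurableSet.empty hU (by
    refine measure_mono_null ?_ h
    rintro y ⟨h2, h3⟩
    rcases h2 with h2 | h2
    · exact ⟨h2.1, h3⟩
    · exact absurd h2.1 (notMem_empty y))
  rw [← Measure.restrict_apply_self, h1, pm_empty]
  simp

/-- a set whose perimeter measure is supported on a graph is a subgraph or a supergraph -/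
theorem sub_or_super {Ω : Set (R d)} (hΩ : MeasurableSet Ω) {x : R d} (hx : x ∈ (pm Ω).support)
    {u : E d → ℝ} (hu : Continuous u) (h : ∀ᶠ y in 𝓝 x, (y ∈ (pm Ω).support ↔ ht y = u (pr y))) :
    ∀ᶠ U in (𝓝 x).smallSets, volume ((Ω ∆ {x | ht x < u (pr x)}) ∩ U) = 0 ∨
      volume ((Ωᶜ ∆ {x | ht x < u (pr x)}) ∩ U) = 0 := by
  have hx0 : ht x = u (pr x) := h.self_of_nhds.1 hx
  have h1 : ∀ᶠ q : E d × ℝ in 𝓝 (pr x, ht x),
      (mk q.1 q.2 ∈ (pm Ω).support ↔ ht (mk q.1 q.2) = u (pr (mk q.1 q.2))) := by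
    refine (continuous_mk.tendsto (pr x, ht x)).eventually
      (p := fun y => y ∈ (pm Ω).support ↔ ht y = u (pr y)) ?_
    simpa using h
  obtain ⟨ε, hε, h2⟩ := Metric.eventually_nhds_iff.1 h1
  obtain ⟨δ, hδ, h3⟩ := Metric.continuous_iff.1 hu (pr x) ε hε
  set D : Set (E d) := ball (pr x) (min δ ε) with hD
  have h4 : ∀ z ∈ D, ht x - ε < u z ∧ u z < ht x + ε := by
    intro z hz
    have h5 := h3 z (lt_of_lt_of_le hz (min_le_left _ _))
    rw [Real.dist_eq, abs_lt, ← hx0] at h5
    constructor <;> linarith only [h5.1, h5.2]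
  have h5 : ∀ y : R d, pr y ∈ D → ht x - ε < ht y → ht y < ht x + ε → y ∈ (pm Ω).support →
      ht y = u (pr y) := by
    intro y a1 a2 a3 a4
    have h6 := @h2 (pr y, ht y) (by
      rw [Prod.dist_eq]
      refine max_lt (lt_of_lt_of_le a1 (min_le_right _ _)) ?_
      rw [Real.dist_eq, abs_lt]
      constructor <;> linarith)
    simp only [mk_pr_ht] at h6
    exact h6.1 a4
  set C : Set (R d) := {y | pr y ∈ D ∧ ht x - ε < ht y ∧ ht y < ht x + ε} with hC
  set Lo : Set (R d) := {y | pr y ∈ D ∧ ht x - ε < ht y ∧ ht y < u (pr y)} with hLo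
  set Up : Set (R d) := {y | pr y ∈ D ∧ u (pr y) < ht y ∧ ht y < ht x + ε} with hUp
  have hCo : IsOpen C := a15_open (f := fun _ => ht x - ε) (g := fun _ => ht x + ε) isOpen_ball
    continuous_const continuous_const
  have hxC : x ∈ C := ⟨mem_ball_self (lt_min hδ hε), by linarith, by linarith⟩
  have hpos : 0 < pm Ω C := (Measure.mem_support_iff_forall x).1 hx C (hCo.mem_nhds hxC)
  have hDc : IsPreconnected D := (convex_ball _ _).isPreconnected
  have hL : volume (Ω ∩ Lo) = 0 ∨ volume (Lo \ Ω) = 0 := by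
    refine const_of_pm hΩ (a15_open (f := fun _ => ht x - ε) isOpen_ball continuous_const hu) ?_ ?_
    · refine (a15_conn (f := fun _ => ht x - ε) hDc continuous_const hu).resolve_right ?_
      rintro ⟨z, hz, hz'⟩
      exact absurd (h4 z hz).1 (not_lt.2 hz')
    · refine measure_mono_null ?_ Measure.measure_compl_support
      intro y hy hs
      exact hy.2.2.ne (h5 y hy.1 hy.2.1 (hy.2.2.trans (h4 _ hy.1).2) hs)
  have hU : volume (Ω ∩ Up) = 0 ∨ volume (Up \ Ω) = 0 := by
    refine const_of_pm hΩ (a15_open (g := fun _ => ht x + ε) isOpen_ball hu continuous_const) ?_ ?_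
    · refine (a15_conn (g := fun _ => ht x + ε) hDc hu continuous_const).resolve_right ?_
      rintro ⟨z, hz, hz'⟩
      exact absurd (h4 z hz).2 (not_lt.2 hz')
    · refine measure_mono_null ?_ Measure.measure_compl_support
      intro y hy hs
      exact hy.2.1.ne' (h5 y hy.1 ((h4 _ hy.1).1.trans hy.2.1) hy.2.2 hs)
  have hG := a15_graph hu
  have hcov : ∀ {A A₁ A₂ : Set (R d)}, volume A₁ = 0 → volume A₂ = 0 →
      (∀ y ∈ A, y ∈ Lo → y ∈ A₁) → (∀ y ∈ A, y ∈ Up → y ∈ A₂) → volume (A ∩ C) = 0 := by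
    intro A A₁ A₂ b1 b2 b3 b4
    refine measure_mono_null ?_ (measure_union_null (measure_union_null b1 b2) hG)
    rintro y ⟨c1, c2, c3, c4⟩
    rcases lt_trichotomy (ht y) (u (pr y)) with c5 | c5 | c5
    · exact Or.inl (Or.inl (b3 y c1 ⟨c2, c3, c5⟩))
    · exact Or.inr c5
    · exact Or.inl (Or.inr (b4 y c1 ⟨c2, c5, c4⟩))
  have key : volume ((Ω ∆ {x | ht x < u (pr x)}) ∩ C) = 0 ∨
      volume ((Ωᶜ ∆ {x | ht x < u (pr x)}) ∩ C) = 0 := by
    rcases hL with hL | hL <;> rcases hU with hU | hU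
    · exact absurd (a15_zero hΩ hCo
        (hcov hL hU (fun y a b => ⟨a, b⟩) fun y a b => ⟨a, b⟩)) hpos.ne'
    · refine Or.inr (hcov hL hU ?_ ?_)
      · rintro y (a | a) b
        · exact absurd b.2.2 a.2
        · exact ⟨not_not.1 a.2, b⟩
      · rintro y (a | a) b
        · exact ⟨b, a.1⟩
        · exact absurd a.1 (not_lt.2 b.2.1.le)
    · refine Or.inl (hcov hL hU ?_ ?_)
      · rintro y (a | a) b
        · exact absurd b.2.2 a.2
        · exact ⟨b, a.2⟩
      · rintro y (a | a) b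
        · exact ⟨a.1, b⟩
        · exact absurd a.1 (not_lt.2 b.2.1.le)
    · have := a15_zero hΩ.compl hCo (hcov hL hU (fun y a b => ⟨b, a⟩) fun y a b => ⟨b, a⟩)
      rw [pm_compl hΩ] at this
      exact absurd this hpos.ne'
  refine eventually_smallSets.2 ⟨C, hCo.mem_nhds hxC, fun V hV => ?_⟩
  exact key.imp (measure_mono_null (inter_subset_inter_right _ hV))
    (measure_mono_null (inter_subset_inter_right _ hV))

end Pool.Agent.MP_5cfeaf_gt.W

end

section

/-! Similarities. -/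

set_option autoImplicit false

open MeasureTheory Set Filter Topology Metric
open scoped ENNReal symmDiff Classical InnerProductSpace ContDiff

namespace Pool.Agent.MP_5cfeaf_gt.W

variable {d : ℕ}

/-- the similarity as a homeomorphism -/
noncomputable def a17_H {r : ℝ} (hr : 0 < r) (x : R d) (Q : R d ≃ₗᵢ[ℝ] R d) : R d ≃ₜ R d where
  toFun y := simP r x Q y
  invFun y := x + r • Q.symm y
  left_inv y := by
    simp only [simP, map_smul, LinearIsometryEquiv.symm_apply_apply, smul_smul,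
      mul_inv_cancel₀ hr.ne', one_smul]
    abel
  right_inv y := by
    simp only [simP, add_sub_cancel_left, map_smul, LinearIsometryEquiv.apply_symm_apply, smul_smul,
      inv_mul_cancel₀ hr.ne', one_smul]
  continuous_toFun := by
    unfold simP
    fun_prop
  continuous_invFun := by fun_prop

theorem a17_c1c {T : R d → R d} {U : Set (R d)} (hT : C1c T U) (ψ : R d ≃ₜ R d)
    (hψ : ContDiff ℝ 1 ψ) (P : R d ≃ₗᵢ[ℝ] R d) : C1c (fun y => P (T (ψ y))) (ψ ⁻¹' U) := by
  refine ⟨P.contDiff.comp (hT.1.comp hψ), ?_, ?_⟩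
  · exact (hT.2.1.comp_homeomorph ψ).comp_left (g := P) (map_zero P)
  · refine subset_trans ?_ (preimage_mono hT.2.2)
    refine closure_minimal (fun y hy => subset_tsupport _ fun h0 => hy ?_)
      ((isClosed_tsupport T).preimage ψ.continuous)
    simp [h0]

theorem a17_hasF (r : ℝ) (x : R d) (Q : R d ≃ₗᵢ[ℝ] R d) (y : R d) :
    HasFDerivAt (simP r x Q) (r⁻¹ • (Q.toContinuousLinearEquiv : R d →L[ℝ] R d)) y := by
  have h1 : HasFDerivAt (fun z : R d => Q (z - x)) (Q.toContinuousLinearEquiv : R d →L[ℝ] R d) y :=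
    by simpa [Function.comp_def] using (Q.toContinuousLinearEquiv.hasFDerivAt (x := y - x)).comp y
        ((hasFDerivAt_id y).sub_const x)
  exact h1.const_smul r⁻¹

theorem a17_dv {T : R d → R d} (hT : ContDiff ℝ 1 T) (r : ℝ) (x : R d) (Q : R d ≃ₗᵢ[ℝ] R d)
    (y : R d) : dv (fun z => Q.symm (T (simP r x Q z))) y = r⁻¹ * dv T (simP r x Q y) := by
  have h1 := ((hT.differentiable one_ne_zero (simP r x Q y)).hasFDerivAt).comp y (a17_hasF r x Q y)
  have h2 := (Q.symm.toContinuousLinearEquiv.hasFDerivAt (x := T (simP r x Q y))).comp y h1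
  have h3 : fderiv ℝ (fun z => Q.symm (T (simP r x Q z))) y = _ := h2.fderiv
  rw [A0_dv_trace, A0_dv_trace, h3,
    ← LinearMap.trace_conj' (fderiv ℝ T (simP r x Q y) : R d →ₗ[ℝ] R d) Q.symm.toLinearEquiv,
    ← smul_eq_mul, ← map_smul]
  congr 1
  ext1 v
  simp [LinearEquiv.conj_apply]

theorem a17_vol {r : ℝ} (hr : 0 < r) (x : R d) (Q : R d ≃ₗᵢ[ℝ] R d) :
    (volume : Measure (R d)) = ENNReal.ofReal ((r ^ (d + 1))⁻¹) •
      (volume : Measure (R d)).map (a17_H hr x Q).toMeasurableEquiv := by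
  ext B _
  rw [Measure.smul_apply, MeasurableEquiv.map_apply, smul_eq_mul, ← vol_sim _ hr x Q]
  congr 1
  exact (image_preimage_eq B (a17_H hr x Q).surjective).symm

theorem a17_int (Ω : Set (R d)) {T : R d → R d} (hT : ContDiff ℝ 1 T) {r : ℝ} (hr : 0 < r) (x : R d)
    (Q : R d ≃ₗᵢ[ℝ] R d) : ∫ y in simP r x Q '' Ω, dv T y =
      (r ^ d)⁻¹ * ∫ y in Ω, dv (fun z => Q.symm (T (simP r x Q z))) y := by
  have h1 : (a17_H hr x Q).toMeasurableEquiv ⁻¹' (simP r x Q '' Ω) = Ω :=
    preimage_image_eq Ω (a17_H hr x Q).injective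
  conv_lhs => rw [a17_vol hr x Q]
  rw [Measure.restrict_smul, integral_smul_measure, setIntegral_map_equiv, h1,
    ENNReal.toReal_ofReal (by positivity), smul_eq_mul]
  simp only [a17_dv hT, integral_const_mul]
  rw [← mul_assoc, pow_succ, mul_inv]
  rfl

theorem a17_Per (Ω V : Set (R d)) {r : ℝ} (hr : 0 < r) (x : R d) (Q : R d ≃ₗᵢ[ℝ] R d) :
    Per (simP r x Q '' Ω) (simP r x Q '' V) = ENNReal.ofReal ((r ^ d)⁻¹) * Per Ω V := by
  have hc : (0 : ℝ) ≤ (r ^ d)⁻¹ := by positivity
  have h1 : (a17_H hr x Q) ⁻¹' (simP r x Q '' V) = V := preimage_image_eq V (a17_H hr x Q).injective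
  refine le_antisymm (Per_le fun T hT hn => ?_) ?_
  · have hs : ContDiff ℝ 1 (a17_H hr x Q) := by
      change ContDiff ℝ 1 fun y => r⁻¹ • Q (y - x)
      exact (Q.contDiff.comp (contDiff_id.sub contDiff_const)).const_smul _
    have h2 := a17_c1c hT (a17_H hr x Q) hs Q.symm
    rw [h1] at h2
    rw [a17_int Ω hT.1 hr, ENNReal.ofReal_mul hc]
    gcongr
    exact le_Per Ω h2 fun y => by simpa using hn _
  · unfold Per
    simp only [ENNReal.mul_iSup]
    refine iSup₂_le fun T hT => ?_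
    have hs : ContDiff ℝ 1 (a17_H hr x Q).symm := by
      change ContDiff ℝ 1 fun y => x + r • Q.symm y
      exact contDiff_const.add (Q.symm.contDiff.const_smul _)
    have h2 := a17_c1c (U := V) ⟨hT.1, hT.2.1, hT.2.2.1⟩ (a17_H hr x Q).symm hs Q
    rw [Homeomorph.preimage_symm] at h2
    have h3 := a17_int Ω h2.1 hr x Q
    have h4 : (fun z => Q.symm (Q (T ((a17_H hr x Q).symm (simP r x Q z))))) = T := by
      funext z
      rw [LinearIsometryEquiv.symm_apply_apply]
      exact congrArg T ((a17_H hr x Q).symm_apply_apply z)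
    rw [h4] at h3
    rw [← ENNReal.ofReal_mul hc, ← h3]
    exact le_Per _ h2 fun y => by simpa only [norm_map] using hT.2.2.2 _

theorem pm_sim {Ω : Set (R d)} (hΩ : MeasurableSet Ω) (A : Set (R d)) {r : ℝ} (hr : 0 < r) (x : R d) (Q : R d ≃ₗᵢ[ℝ] R d) :
    pm (simP r x Q '' Ω) (simP r x Q '' A) = ENNReal.ofReal ((r ^ d)⁻¹) * pm Ω A := by
  have hc0 : ENNReal.ofReal ((r ^ d)⁻¹) ≠ 0 := by
    have : 0 < (r ^ d)⁻¹ := by positivity
    simpa only [ne_eq, ENNReal.ofReal_eq_zero, inv_nonpos, not_le, gt_iff_lt, inv_pos] using this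
  refine le_antisymm ?_ ?_
  · rw [pm_apply Ω A]
    simp only [ENNReal.mul_iInf_of_ne hc0 ENNReal.ofReal_ne_top]
    refine le_iInf₂ fun V hV => ?_
    rw [← a17_Per Ω V hr x Q, pm_apply]
    exact iInf₂_le _ ⟨(a17_H hr x Q).isOpenMap V hV.1, image_mono hV.2⟩
  · rw [pm_apply _ (simP r x Q '' A)]
    refine le_iInf₂ fun U hU => ?_
    have h1 : simP r x Q '' (simP r x Q ⁻¹' U) = U := image_preimage_eq U (a17_H hr x Q).surjective
    rw [← h1, a17_Per Ω _ hr x Q, pm_apply]
    gcongr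
    exact iInf₂_le _ ⟨hU.1.preimage (a17_H hr x Q).continuous, image_subset_iff.1 hU.2⟩

theorem vf_sim {Ω O : Set (R d)} (hΩ : MeasurableSet Ω) (hO : IsOpen O) (hl : O ⊆ lf Ω) {r : ℝ}
    (hr : 0 < r) (x : R d) (Q : R d ≃ₗᵢ[ℝ] R d) :
    simP r x Q '' O ⊆ lf (simP r x Q '' Ω) ∧
      vf (simP r x Q '' Ω) (simP r x Q '' O) = simV r x Q (vf Ω O) := by
  have h1 : (a17_H hr x Q) ⁻¹' (simP r x Q '' O) = O := preimage_image_eq O (a17_H hr x Q).injective
  have hm : ∀ p : S d, Q p ∈ Metric.sphere (0 : R d) 1 := fun p => by simp only [mem_sphere_iff_norm, sub_zero, norm_map, norm_eq_of_mem_sphere]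
  have hQ : Continuous fun p : S d => (⟨Q p, hm p⟩ : S d) :=
    (Q.continuous.comp continuous_subtype_val).subtype_mk _
  have hξ : Measurable fun z => (⟨Q (nu Ω ((a17_H hr x Q).symm z)), hm _⟩ : S d) :=
    hQ.measurable.comp ((measurable_nu Ω).comp (a17_H hr x Q).symm.continuous.measurable)
  have hs : ContDiff ℝ 1 (a17_H hr x Q) := by
    change ContDiff ℝ 1 fun y => r⁻¹ • Q (y - x)
    exact (Q.contDiff.comp (contDiff_id.sub contDiff_const)).const_smul _
  obtain ⟨h2, h3⟩ := pm_uniq (Ω := simP r x Q '' Ω) ((a17_H hr x Q).isOpenMap O hO)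
    (ENNReal.ofReal ((r ^ d)⁻¹) • (pm Ω).map (a17_H hr x Q).toMeasurableEquiv)
    (fun K hK hKO => by
      rw [Measure.smul_apply, MeasurableEquiv.map_apply, smul_eq_mul]
      refine ENNReal.mul_lt_top ENNReal.ofReal_lt_top
        (pm_lt_top ((a17_H hr x Q).isCompact_preimage.2 hK) (subset_trans ?_ hl))
      exact fun z hz => (a17_H hr x Q).injective.mem_set_image.1 (hKO hz)) _ hξ
    (fun T hT => by
      have h4 := a17_c1c hT (a17_H hr x Q) hs Q.symm
      have h5 : C1c (fun z => Q.symm (T (simP r x Q z))) (lf Ω) :=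
        h4.mono (subset_trans h1.subset hl)
      rw [a17_int Ω hT.1 hr, gauss Ω h5, integral_smul_measure, integral_map_equiv,
        ENNReal.toReal_ofReal (by positivity), smul_eq_mul]
      congr 2
      funext y
      have h6 : (a17_H hr x Q).symm ((a17_H hr x Q).toMeasurableEquiv y) = y :=
        (a17_H hr x Q).symm_apply_apply y
      rw [h6, ← Q.inner_map_map, LinearIsometryEquiv.apply_symm_apply]
      rfl)
  refine ⟨h2, h3.trans ?_⟩
  have h7 : (a17_H hr x Q).toMeasurableEquiv ⁻¹' ((a17_H hr x Q) '' O) = O := h1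
  have h8 : Measurable fun p : R d × S d => (simP r x Q p.1, (⟨Q p.2, hm _⟩ : S d)) :=
    ((a17_H hr x Q).continuous.measurable.comp measurable_fst).prodMk
      (hQ.measurable.comp measurable_snd)
  rw [Measure.restrict_smul, Measure.map_smul, MeasurableEquiv.restrict_map, h7,
    Measure.map_map (measurable_id'.prodMk hξ) (MeasurableEquiv.measurable _), simV, vf,
    Measure.map_map h8 (measurable_id'.prodMk (measurable_nu Ω))]
  congr 2
  funext y
  have h6 : (a17_H hr x Q).symm ((a17_H hr x Q).toMeasurableEquiv y) = y :=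
    (a17_H hr x Q).symm_apply_apply y
  simp only [Function.comp, h6]
  rfl

end Pool.Agent.MP_5cfeaf_gt.W

end

section

/-! No atoms. -/

set_option autoImplicit false

open MeasureTheory Set Filter Topology Metric
open scoped ENNReal symmDiff Classical InnerProductSpace ContDiff

namespace Pool.Agent.MP_5cfeaf_gt.W

variable {d : ℕ}

theorem a18_bump (d : ℕ) : ∃ C : ℝ, 0 ≤ C ∧ ∀ (q : R d) (r : ℝ), 0 < r → ∃ ψ : R d → ℝ,
    ContDiff ℝ 1 ψ ∧ (∀ x, 0 ≤ ψ x) ∧ (∀ x, ψ x ≤ 1) ∧ ψ q = 1 ∧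
      (∀ x, x ∉ closedBall q r → ψ x = 0 ∧ fderiv ℝ ψ x = 0) ∧ ∀ x, ‖fderiv ℝ ψ x‖ ≤ C / r := by
  let b : ContDiffBump (0 : R d) := ⟨1 / 2, 1, by norm_num, by norm_num⟩
  have hb : ContDiff ℝ 1 b := b.contDiff
  obtain ⟨C, hC⟩ := (hb.continuous_fderiv one_ne_zero).bounded_above_of_compact_support
    (b.hasCompactSupport.fderiv ℝ)
  refine ⟨C, (norm_nonneg _).trans (hC 0), fun q r hr => ⟨fun x => b (r⁻¹ • (x - q)), by fun_prop,
    fun _ => b.nonneg, fun _ => b.le_one, ?_, ?_, fun x => ?_⟩⟩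
  · exact b.one_of_mem_closedBall (by simp only [one_div, sub_self, smul_zero, mem_closedBall, dist_self, inv_nonneg, Nat.ofNat_nonneg, b])
  · have h0 : ∀ x, x ∉ closedBall q r → b (r⁻¹ • (x - q)) = 0 := by
      intro x hx
      refine b.zero_of_le_dist ?_
      rw [mem_closedBall, dist_eq_norm, not_le] at hx
      rw [dist_zero_right, norm_smul, norm_inv, Real.norm_of_nonneg hr.le]
      exact (one_le_inv_mul₀ hr).2 hx.le
    refine fun x hx => ⟨h0 x hx, ?_⟩
    have : (fun x => b (r⁻¹ • (x - q))) =ᶠ[𝓝 x] fun _ => 0 := by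
      filter_upwards [isClosed_closedBall.isOpen_compl.mem_nhds hx] with y hy using h0 y hy
    rw [this.fderiv_eq, fderiv_fun_const]
    rfl
  · have h1 : HasFDerivAt (fun x : R d => r⁻¹ • (x - q)) (r⁻¹ • ContinuousLinearMap.id ℝ (R d)) x :=
      ((hasFDerivAt_id x).sub_const q).const_smul r⁻¹
    have h2 := ((hb.differentiable one_ne_zero) (r⁻¹ • (x - q))).hasFDerivAt.comp x h1
    have h3 : fderiv ℝ (fun x => b (r⁻¹ • (x - q))) x = _ := h2.fderiv
    rw [h3]
    refine (ContinuousLinearMap.opNorm_comp_le _ _).trans ?_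
    rw [div_eq_mul_inv]
    refine mul_le_mul (hC _) ?_ (norm_nonneg _) ((norm_nonneg _).trans (hC 0))
    rw [norm_smul, norm_inv, Real.norm_of_nonneg hr.le]
    exact mul_le_of_le_one_right (by positivity) ContinuousLinearMap.norm_id_le

theorem a18_cut {Ω U : Set (R d)} (hΩ : MeasurableSet Ω) (hU : IsOpen U) (q : R d) :
    ∃ C : ℝ, ∀ r : ℝ, 0 < r → ∃ F : Set (R d), MeasurableSet F ∧ F ∆ Ω ⊆ closedBall q r ∧
      pm F U ≤ pm Ω (U \ {q}) + ENNReal.ofReal (C * r ^ d) * volume (ball (0 : R d) 1) := by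
  obtain ⟨C, C0, hC⟩ := a18_bump d
  refine ⟨C, fun r hr => ?_⟩
  obtain ⟨ψ, h1, h2, h3, h4, h5, h6⟩ := hC q r hr
  obtain ⟨s, hs, h⟩ := paste_fun MeasurableSet.empty hΩ hU h1 h2 h3
  rw [empty_inter, empty_union, pm_empty, Measure.restrict_zero, lintegral_zero_measure,
    zero_add] at h
  refine ⟨_, hΩ.diff (isOpen_lt continuous_const h1.continuous).measurableSet, ?_,
    h.trans (add_le_add ?_ ?_)⟩
  · intro x hx
    by_contra hc
    have : ¬ s < ψ x := by rw [(h5 x hc).1]; exact not_lt.2 hs.1.le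
    simp [mem_symmDiff, this] at hx
  · rw [sdiff_eq, inter_comm, ← Measure.restrict_apply (measurableSet_singleton q).compl,
      ← lintegral_indicator_one (measurableSet_singleton q).compl]
    refine lintegral_mono fun x => ?_
    by_cases hx : x = q
    · simp [hx, h4]
    · rw [indicator_of_mem (by simpa using hx)]
      exact ENNReal.ofReal_le_one.2 (by linarith [h2 x])
  · calc _ ≤ ∫⁻ x, ‖fderiv ℝ ψ x‖ₑ := setLIntegral_le_lintegral _ _
      _ ≤ ∫⁻ x, (closedBall q r).indicator (fun _ => ENNReal.ofReal (C / r)) x := by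
        refine lintegral_mono fun x => ?_
        by_cases hx : x ∈ closedBall q r
        · rw [indicator_of_mem hx, ← ofReal_norm]
          exact ENNReal.ofReal_le_ofReal (h6 x)
        · rw [(h5 x hx).2, ← ofReal_norm, norm_zero, ENNReal.ofReal_zero]
          exact zero_le
      _ = _ := by
        rw [lintegral_indicator_const isClosed_closedBall.measurableSet,
          Measure.addHaar_closedBall _ _ hr.le, ← mul_assoc, ← ENNReal.ofReal_mul (by positivity),
          finrank_euclideanSpace_fin]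
        congr 2
        field_simp
        ring

theorem pm_atom (hd : 1 ≤ d) {Ω : Set (R d)} (hΩ : MeasurableSet Ω) {q : R d} (hq : q ∈ lf Ω) :
    pm Ω {q} = 0 := by
  obtain ⟨r, hr, hf⟩ := hq
  obtain ⟨C, hC⟩ := a18_cut hΩ (isOpen_ball (x := q) (ε := r)) q
  choose F h1 h2 h3 using fun k => hC (rr k) (rr_pos k)
  have hV : volume (ball (0 : R d) 1) ≠ ⊤ := measure_ball_lt_top.ne
  have lim : ∀ (c : ℝ) (m : ℕ), 1 ≤ m → Tendsto (fun k => ENNReal.ofReal (c * rr k ^ m) *
      volume (ball (0 : R d) 1)) atTop (𝓝 0) := by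
    intro c m hm
    have a1 := ENNReal.tendsto_ofReal ((rr_tendsto.pow m).const_mul c)
    rw [zero_pow (by omega), mul_zero, ENNReal.ofReal_zero] at a1
    simpa only [zero_mul] using ENNReal.Tendsto.mul_const a1 (Or.inr hV)
  have h4 := pm_lsc (l := atTop) (Ω := F) (isOpen_ball (x := q) (ε := r)) (.of_forall h1) hΩ
    fun K _ _ => by
      refine tendsto_of_tendsto_of_tendsto_of_le_of_le tendsto_const_nhds (lim 1 (d + 1) (by omega))
        (fun _ => zero_le) fun k => ?_
      refine (measure_mono (inter_subset_left.trans (h2 k))).trans ?_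
      rw [Measure.addHaar_closedBall _ _ (rr_pos k).le, finrank_euclideanSpace_fin, one_mul]
  have h5 := (liminf_le_liminf (.of_forall h3)).trans
    (tendsto_const_nhds.add (lim C d hd)).liminf_eq.le
  have h6 := measure_sdiff_add_inter (μ := pm Ω) (ball q r) (measurableSet_singleton q)
  rw [inter_eq_right.2 (singleton_subset_iff.2 (mem_ball_self hr))] at h6
  have h7 := h6.le.trans (h4.trans h5)
  rwa [ENNReal.add_le_add_iff_left ((measure_mono sdiff_subset).trans_lt hf).ne,
    nonpos_iff_eq_zero] at h7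

/-- no atoms, uniformly -/
theorem pm_small (hd : 1 ≤ d) {Ω : Set (R d)} (hΩ : MeasurableSet Ω) (hf : pm Ω (B d) < ⊤) :
    Tendsto (fun r : ℝ => ⨆ q ∈ closedBall (0 : R d) 1, pm Ω (ball q r ∩ B d)) (𝓝[>] 0) (𝓝 0) := by
  have : IsFiniteMeasure ((pm Ω).restrict (B d)) := ⟨by rwa [Measure.restrict_apply_univ]⟩
  rw [ENNReal.tendsto_nhds_zero]
  intro ε hε
  have h1 : ∀ q : R d, ∃ U, U ⊇ {q} ∧ IsOpen U ∧ (pm Ω).restrict (B d) U < ε := by
    intro q
    refine Set.exists_isOpen_lt_of_lt _ _ (lt_of_eq_of_lt ?_ hε)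
    rw [Measure.restrict_apply (measurableSet_singleton q)]
    by_cases hq : q ∈ B d
    · exact measure_mono_null inter_subset_left (pm_atom hd hΩ (subset_lf isOpen_ball hf hq))
    · rw [singleton_inter_eq_empty.2 hq, measure_empty]
  choose U h2 h3 h4 using h1
  obtain ⟨δ, hδ, h5⟩ := lebesgue_number_lemma_of_metric (isCompact_closedBall (0 : R d) 1) h3
    fun x _ => mem_iUnion.2 ⟨x, h2 x rfl⟩
  filter_upwards [Ioo_mem_nhdsGT hδ] with r hr
  refine iSup₂_le fun q hq => ?_
  obtain ⟨i, hi⟩ := h5 q hq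
  refine le_trans ?_ (h4 i).le
  rw [Measure.restrict_apply (h3 i).measurableSet]
  exact measure_mono (inter_subset_inter_left _ ((ball_subset_ball hr.2.le).trans hi))

end Pool.Agent.MP_5cfeaf_gt.W

end
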