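import Pool.Agent.MP_5cfeaf_gt.Defs

attribute [-instance] ProperSMul.toContinuousSMul TotallySeparatedSpace.t2Space RKHS.instFunLike
  MeasureTheory.instSFiniteRestrict IsScalarTower.complexToReal
  Group.IsPerfect.subsingleton_of_isMulCommutative ContinuousLinearMap.toNormedRing
  NonarchimedeanAddGroup.toIsTopologicalAddGroup AddGroupWithOne.toAddGroup
  AddQuantale.instAddLeftMono CoalgHomClass.toSemilinearMapClass Valued.toUniformSpace
  NonUnitalNonAssocSemiring.toMulZeroClass ContinuousLinearMap.toSeminormedRing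
  NonUnitalNonAssocSemiring.toDistrib littleWedderburn IdemSemiring.toCanonicallyOrderedAdd
  IsTopologicalTorsor.toContinuousSMul NonUnitalNonAssocSemiring.toAddCommMonoid
  AlexandrovDiscrete.toLocallyCompactSpace NonUnitalAlgSemiHomClass.toDistribMulActionSemiHomClass
  RingHomClass.toLinearMapClassNNRat RingHomClass.toLinearMapClassRat CompactSpace.sigmaCompact
  continuousSub_of_discreteTopology
  ContinuousMonoidHom.instCoeOutOfMonoidHomClassOfContinuousMapClass MulZeroOneClass.toMulZeroClass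
  instCoeTCOfCoe IsTopologicalSemiring.toContinuousAdd AddQuantale.instAddRightMono
  MonoidWithZeroHomClass.toZeroHomClass NumberField.to_charZero
  IsValuativeTopology.instIsTopologicalAddGroup LinearOrderedCommMonoidWithZero.toPosMulStrictMono
  IdemSemiring.toSemiring CStarAlgebra.instOrderClosedTopology Unique.instSubsingleton
  NonUnitalCStarAlgebra.toNonUnitalNormedRing CStarAlgebra.toNormedRing EuclideanDomain.toCommRing
  IsIsometricSMul.to_continuousConstSMul FunLike.toDecidableEq NonUnitalNonAssocRing.toAddCommGroup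
  CommRing.toRing ContinuousMap.instSeminormedAddCommGroup AddCommMonoidWithOne.toAddCommMonoid
  Prod.instAddSemigroup Quantale.instMulRightMono IsometryClass.instCoeOutIsometryEquiv
  MulSemiringAction.toDistribMulAction LieAdmissibleAlgebra.toSMulCommClass
  ESeminormedAddCommMonoid.toAddCommMonoid Topology.IsScott.instClosedIicTopologyOfUnivSet
  continuousSub_of_indiscreteTopology LieAdmissibleAlgebra.toIsScalarTower instIsModuleTopology
  SeminormedCommRing.toCommRing instCoeTOfCoeDep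
  ContinuousAddMonoidHom.instCoeOutOfAddMonoidHomClassOfContinuousMapClass
  NonAssocSemiring.toAddCommMonoidWithOne UpgradedStandardBorel.toTopologicalSpace
  LinearOrderedCommMonoidWithZero.toIsBotZeroClass ContMDiffMul.toIsManifold
  HomeomorphClass.instCoeOutHomeomorph MetricSpace.toPseudoMetricSpace
  CommCStarAlgebra.toNormedCommRing

/-! Block D: varifolds. -/

set_option autoImplicit false

open MeasureTheory Set Filter Topology Metric
open scoped ENNReal symmDiff Classical InnerProductSpace ContDiff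

namespace Pool.Agent.MP_5cfeaf_gt.W

variable {d : ℕ}

section D0

/-- smooth cut-off -/
theorem exists_cutoff {n : ℕ} {K U : Set (E n)} (hK : IsCompact K) (hU : IsOpen U) (hKU : K ⊆ U) :
    ∃ g : E n → ℝ, ContDiff ℝ ∞ g ∧ C1c g U ∧ (∀ x, 0 ≤ g x ∧ g x ≤ 1) ∧ ∀ x ∈ K, g x = 1 := by
  obtain ⟨L, hL, hKL, hLU⟩ := exists_compact_between hK hU hKU
  have hd : Disjoint (interior L)ᶜ K := by
    rw [Set.disjoint_left]
    intro x hx hxK
    exact hx (hKL hxK)
  obtain ⟨f, hf0, hf1, hf⟩ := exists_contMDiffMap_zero_one_of_isClosed (n := ⊤)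
    (modelWithCornersSelf ℝ (E n)) isOpen_interior.isClosed_compl hK.isClosed hd
  have hs : ContDiff ℝ ∞ (f : E n → ℝ) := f.contMDiff.contDiff
  have hz : ∀ x, x ∉ L → f x = 0 := fun x hx => hf0 fun h => hx (interior_subset h)
  have hsub : tsupport (f : E n → ℝ) ⊆ L := by
    refine closure_minimal ?_ hL.isClosed
    intro x hx
    by_contra h
    exact hx (hz x h)
  refine ⟨f, hs, ⟨hs.of_le (by exact_mod_cast le_top), HasCompactSupport.intro hL hz,
    hsub.trans hLU⟩, fun x => hf x, fun x hx => hf1 hx⟩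

/-- exhaustion of an open set by compact sets -/
theorem exists_exhaust {n : ℕ} {O : Set (E n)} (hO : IsOpen O) : ∃ K : ℕ → Set (E n),
    (∀ j, IsCompact (K j) ∧ K j ⊆ O ∧ K j ⊆ interior (K (j + 1))) ∧ ⋃ j, K j = O := by
  haveI : LocallyCompactSpace O := hO.locallyCompactSpace
  let C : CompactExhaustion O := CompactExhaustion.choice O
  have hemb : IsOpenEmbedding (Subtype.val : O → E n) := hO.isOpenEmbedding_subtypeVal
  refine ⟨fun j => Subtype.val '' C j, fun j => ⟨(C.isCompact j).image continuous_subtype_val,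
    ?_, ?_⟩, ?_⟩
  · rintro _ ⟨x, -, rfl⟩
    exact x.2
  · exact (Set.image_mono (C.subset_interior_succ j)).trans (hemb.isOpenMap.image_interior_subset _)
  · rw [← Set.image_iUnion, C.iUnion_eq]
    simp

theorem c1c_of_vanish {n : ℕ} {F : Type} [NormedAddCommGroup F] [NormedSpace ℝ F] {T : E n → F}
    {K U : Set (E n)} (hT : ContDiff ℝ 1 T) (hK : IsCompact K) (hKU : K ⊆ U)
    (h0 : ∀ x, x ∉ K → T x = 0) : C1c T U := by
  refine ⟨hT, HasCompactSupport.intro hK h0, Subset.trans ?_ hKU⟩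
  refine closure_minimal ?_ hK.isClosed
  intro x hx
  by_contra h
  exact hx (h0 x h)

theorem D0_dv_eq_trace {n : ℕ} (T : E n → E n) (x : E n) :
    dv T x = LinearMap.trace ℝ (E n) (fderiv ℝ T x).toLinearMap := by
  rw [LinearMap.trace_eq_sum_inner _ (EuclideanSpace.basisFun (Fin n) ℝ)]
  unfold dv
  refine Finset.sum_congr rfl fun i _ => ?_
  simp [EuclideanSpace.inner_single_left]

theorem divT_continuous {X : R d → R d} (hX : ContDiff ℝ 1 X) : Continuous (divT X) := by
  have hc : Continuous (fderiv ℝ X) := hX.continuous_fderiv (by norm_num)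
  have h1 : Continuous fun p : R d × S d => fderiv ℝ X p.1 := hc.comp continuous_fst
  have h2 : Continuous fun p : R d × S d => (p.2 : R d) := continuous_subtype_val.comp continuous_snd
  unfold divT dv
  refine Continuous.sub (continuous_finset_sum _ fun i _ => ?_) (h2.inner (h1.clm_apply h2))
  exact (EuclideanSpace.proj (𝕜 := ℝ) i).continuous.comp (h1.clm_apply continuous_const)

theorem divT_eq_zero {X : R d → R d} {p : R d × S d} (h : p.1 ∉ tsupport X) : divT X p = 0 := by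
  have h0 : fderiv ℝ X p.1 = 0 := by
    by_contra hne
    exact h (support_fderiv_subset ℝ hne)
  simp [divT, dv, h0]

theorem abs_divT_le (X : R d → R d) (p : R d × S d) :
    |divT X p| ≤ (d + 2) * ‖fderiv ℝ X p.1‖ := by
  have hν : ‖(p.2 : R d)‖ = 1 := by simpa using p.2.2
  have h1 : |dv X p.1| ≤ (d + 1) * ‖fderiv ℝ X p.1‖ := by
    unfold dv
    refine (Finset.abs_sum_le_sum_abs _ _).trans ?_
    have hb : ∀ i : Fin (d + 1), |fderiv ℝ X p.1 (EuclideanSpace.single i 1) i| ≤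
        ‖fderiv ℝ X p.1‖ := by
      intro i
      have h2 := PiLp.norm_apply_le (fderiv ℝ X p.1 (EuclideanSpace.single i 1)) i
      have h3 := (fderiv ℝ X p.1).le_opNorm (EuclideanSpace.single i 1)
      rw [Real.norm_eq_abs] at h2
      simp only [EuclideanSpace.norm_single, norm_one, mul_one] at h3
      exact h2.trans h3
    refine (Finset.sum_le_sum fun i _ => hb i).trans ?_
    simp only [Finset.sum_const, Finset.card_univ, Fintype.card_fin, nsmul_eq_mul, Nat.cast_add, Nat.cast_one, Std.le_refl]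
  have h2 : |⟪(p.2 : R d), fderiv ℝ X p.1 p.2⟫_ℝ| ≤ ‖fderiv ℝ X p.1‖ := by
    refine (abs_real_inner_le_norm _ _).trans ?_
    have h3 := (fderiv ℝ X p.1).le_opNorm (p.2 : R d)
    rw [hν] at h3 ⊢
    linarith
  unfold divT
  refine (abs_sub _ _).trans ?_
  linarith

theorem divT_add {X Y : R d → R d} {p : R d × S d} (hX : DifferentiableAt ℝ X p.1)
    (hY : DifferentiableAt ℝ Y p.1) : divT (fun x => X x + Y x) p = divT X p + divT Y p := by
  unfold divT dv
  rw [fderiv_fun_add hX hY]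
  simp only [ContinuousLinearMap.add_apply, PiLp.add_apply, Finset.sum_add_distrib, inner_add_right]
  ring

theorem divT_sub {X Y : R d → R d} {p : R d × S d} (hX : DifferentiableAt ℝ X p.1)
    (hY : DifferentiableAt ℝ Y p.1) : divT (fun x => X x - Y x) p = divT X p - divT Y p := by
  unfold divT dv
  rw [fderiv_fun_sub hX hY]
  simp only [ContinuousLinearMap.sub_apply, PiLp.sub_apply, Finset.sum_sub_distrib, inner_sub_right]
  ring

theorem D0_sum_single (L : R d →L[ℝ] ℝ) (v : R d) :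
    ∑ i, L (EuclideanSpace.single i 1) * v i = L v := by
  have hv : v = ∑ i, v i • EuclideanSpace.single i (1 : ℝ) := by
    conv_lhs => rw [← (EuclideanSpace.basisFun (Fin (d + 1)) ℝ).sum_repr v]
    simp only [EuclideanSpace.basisFun_repr, EuclideanSpace.basisFun_apply]
  conv_rhs => rw [hv]
  rw [map_sum]
  refine Finset.sum_congr rfl fun i _ => ?_
  rw [map_smul, smul_eq_mul, mul_comm]

/-- product rule -/
theorem divT_smul {f : R d → ℝ} {Y : R d → R d} {p : R d × S d} (hf : DifferentiableAt ℝ f p.1)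
    (hY : DifferentiableAt ℝ Y p.1) : divT (fun x => f x • Y x) p =
      f p.1 * divT Y p + fderiv ℝ f p.1 (Y p.1 - ⟪(p.2 : R d), Y p.1⟫_ℝ • (p.2 : R d)) := by
  unfold divT dv
  rw [fderiv_fun_smul hf hY]
  simp only [ContinuousLinearMap.add_apply, ContinuousLinearMap.smul_apply,
    ContinuousLinearMap.smulRight_apply, PiLp.add_apply, PiLp.smul_apply, smul_eq_mul,
    Finset.sum_add_distrib, inner_add_right, inner_smul_right, map_sub, map_smul]
  rw [D0_sum_single, ← Finset.mul_sum]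
  ring

theorem divT_const (e : R d) (p : R d × S d) : divT (fun _ => e) p = 0 := by
  simp only [divT, dv, fderiv_fun_const, Pi.zero_apply, zero_apply, PiLp.zero_apply, Finset.sum_const_zero, inner_zero_right, sub_self]

theorem divT_sub_const (x : R d) (p : R d × S d) : divT (fun y => y - x) p = d := by
  have hν : ‖(p.2 : R d)‖ = 1 := by simpa using p.2.2
  have h : fderiv ℝ (fun y : R d => y - x) p.1 = ContinuousLinearMap.id ℝ (R d) :=
    ((hasFDerivAt_id p.1).sub_const x).fderiv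
  unfold divT dv
  rw [h]
  simp only [ContinuousLinearMap.id_apply, PiLp.single_eq_same, Finset.sum_const, Finset.card_univ, Fintype.card_fin, nsmul_eq_mul, Nat.cast_add, Nat.cast_one, mul_one, inner_self_eq_norm_sq_to_K, hν, Real.ringHom_apply, one_pow, add_sub_cancel_right]

end D0

section D1

theorem fst_eq_prod (W : Vf d) {A : Set (R d)} (hA : MeasurableSet A) :
    W.fst A = W (A ×ˢ univ) := by
  rw [Measure.fst_apply hA]
  congr 1
  ext p
  simp

theorem integral_fst_eq (W : Vf d) {f : R d → ℝ} (hf : Measurable f) :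
    ∫ x, f x ∂W.fst = ∫ p, f p.1 ∂W := by
  rw [Measure.fst, integral_map measurable_fst.aemeasurable hf.aestronglyMeasurable]

/-- continuous functions vanishing off a compact set of finite weight are integrable -/
theorem integrable_vf {W : Vf d} {K : Set (R d)} (hK : IsCompact K) (hW : W.fst K < ⊤)
    {g : R d × S d → ℝ} (hg : Continuous g) (h0 : ∀ p, p.1 ∉ K → g p = 0) : Integrable g W := by
  have hc : IsCompact (K ×ˢ (univ : Set (S d))) := hK.prod isCompact_univ
  have hm : MeasurableSet (K ×ˢ (univ : Set (S d))) := hK.measurableSet.prod MeasurableSet.univ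
  have h1 : IntegrableOn g (K ×ˢ (univ : Set (S d))) W :=
    hg.continuousOn.integrableOn_of_subset_isCompact hc hm subset_rfl
      (by rw [← fst_eq_prod W hK.measurableSet]; exact hW.ne)
  exact h1.integrable_of_forall_notMem_eq_zero fun p hp => h0 p fun h => hp ⟨h, mem_univ _⟩

theorem integrable_cpt {μ : Measure (R d)} {K : Set (R d)} (hK : IsCompact K) (hμ : μ K < ⊤)
    {g : R d → ℝ} (hg : Continuous g) (h0 : ∀ x, x ∉ K → g x = 0) : Integrable g μ := by
  have h1 : IntegrableOn g K μ :=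
    hg.continuousOn.integrableOn_of_subset_isCompact hK hK.measurableSet subset_rfl hμ.ne
  exact h1.integrable_of_forall_notMem_eq_zero h0

theorem abs_integral_vf_le {W : Vf d} {K : Set (R d)} (hK : MeasurableSet K) (hW : W.fst K < ⊤)
    {g : R d × S d → ℝ} {M : ℝ} (h0 : ∀ p, p.1 ∉ K → g p = 0) (hM : ∀ᵐ p ∂W, p.1 ∈ K → |g p| ≤ M) :
    |∫ p, g p ∂W| ≤ M * (W.fst K).toReal := by
  rw [← setIntegral_eq_integral_of_forall_compl_eq_zero (s := K ×ˢ (univ : Set (S d)))
    (fun p hp => h0 p fun h => hp ⟨h, mem_univ _⟩), fst_eq_prod W hK, ← Real.norm_eq_abs]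
  refine norm_setIntegral_le_of_norm_le_const_ae' (by rw [← fst_eq_prod W hK]; exact hW) ?_
  filter_upwards [hM] with p hp h
  exact hp h.1

theorem Stat.integrable {W : Vf d} {O : Set (R d)} (h : Stat W O) {X : R d → R d} (hX : C1c X O) :
    Integrable (divT X) W :=
  integrable_vf hX.2.1 (h.1 _ hX.2.1 hX.2.2) (divT_continuous hX.1) fun _ hp => divT_eq_zero hp

theorem LocFin.mono {W : Vf d} {O O' : Set (R d)} (h : LocFin W O) (hO : O' ⊆ O) : LocFin W O' :=
  fun K hK hKO => h K hK (hKO.trans hO)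

theorem Con.mono {W : Vf d} {A A' : Set (R d)} {L L' : Submodule ℝ (R d)} (h : Con W A L)
    (hA : A' ⊆ A) (hL : L' ≤ L) : Con W A' L' := by
  filter_upwards [h] with p hp hpA
  exact ⟨(hp (hA hpA)).1, fun e he => (hp (hA hpA)).2 e (hL he)⟩

/-- the spine condition can be checked vector by vector -/
theorem con_of_forall {W : Vf d} {A : Set (R d)} {L : Submodule ℝ (R d)}
    (h0 : ∀ᵐ p ∂W, p.1 ∈ A → ⟪p.1, (p.2 : R d)⟫_ℝ = 0)
    (h1 : ∀ e ∈ L, ∀ᵐ p ∂W, p.1 ∈ A → ⟪e, (p.2 : R d)⟫_ℝ = 0) : Con W A L := by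
  let b := Module.finBasis ℝ L
  have h2 : ∀ᵐ p ∂W, ∀ i, p.1 ∈ A → ⟪((b i : L) : R d), (p.2 : R d)⟫_ℝ = 0 :=
    ae_all_iff.2 fun i => h1 _ (b i).2
  filter_upwards [h0, h2] with p hp hp2 hpA
  refine ⟨hp hpA, fun e he => ?_⟩
  have h3 : e = ∑ i, b.repr ⟨e, he⟩ i • ((b i : L) : R d) := by
    have h4 := congrArg (fun z : L => (z : R d)) (b.sum_repr ⟨e, he⟩)
    simp only [Submodule.coe_sum, Submodule.coe_smul] at h4
    exact h4.symm
  rw [h3, sum_inner]
  refine Finset.sum_eq_zero fun i _ => ?_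
  rw [real_inner_smul_left, hp2 i hpA, mul_zero]

/-- a closed set of full measure contains the support -/
theorem support_subset_of_ae {W : Vf d} {C : Set (R d)} (hC : IsClosed C)
    (h : ∀ᵐ p ∂W, p.1 ∈ C) : W.fst.support ⊆ C := by
  refine Measure.support_subset_of_isClosed hC ?_
  rw [Measure.fst]
  exact (ae_map_iff measurable_fst.aemeasurable hC.measurableSet).2 h

theorem VConv.mono {ι : Type} {l : Filter ι} {V : ι → Vf d} {W : Vf d} {O O' : Set (R d)}
    (h : VConv l V W O) (hO : O' ⊆ O) : VConv l V W O' :=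
  fun g hg ⟨K, hK, hKO, h0⟩ => h g hg ⟨K, hK, hKO.trans hO, h0⟩

/-- convergence only sees the varifolds over compact subsets of `O` -/
theorem VConv.congr {ι : Type} {l : Filter ι} {V V' : ι → Vf d} {W : Vf d} {O : Set (R d)}
    (h : VConv l V W O) (he : ∀ K, IsCompact K → K ⊆ O → ∀ᶠ i in l,
      (V i).restrict (K ×ˢ univ) = (V' i).restrict (K ×ˢ univ)) : VConv l V' W O := by
  rintro g hg ⟨K, hK, hKO, h0⟩
  refine (h g hg ⟨K, hK, hKO, h0⟩).congr' ?_
  filter_upwards [he K hK hKO] with i hi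
  have h1 : ∀ p : R d × S d, p ∉ K ×ˢ (univ : Set (S d)) → g p = 0 :=
    fun p hp => h0 p fun h => hp ⟨h, mem_univ _⟩
  rw [← setIntegral_eq_integral_of_forall_compl_eq_zero (μ := V i) h1,
    ← setIntegral_eq_integral_of_forall_compl_eq_zero (μ := V' i) h1, hi]

theorem Stat.mono {W : Vf d} {O O' : Set (R d)} (h : Stat W O) (hO : O' ⊆ O) : Stat W O' :=
  ⟨h.1.mono hO, fun X hX => h.2 X ⟨hX.1, hX.2.1, hX.2.2.trans hO⟩⟩

theorem Stat.congr {W W' : Vf d} {O : Set (R d)} (hO : IsOpen O) (h : Stat W O)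
    (he : W.restrict (O ×ˢ univ) = W'.restrict (O ×ˢ univ)) : Stat W' O := by
  refine ⟨fun K hK hKO => ?_, fun X hX => ?_⟩
  · have hm : MeasurableSet (K ×ˢ (univ : Set (S d))) := hK.measurableSet.prod MeasurableSet.univ
    have hs : K ×ˢ (univ : Set (S d)) ⊆ O ×ˢ univ := prod_mono hKO subset_rfl
    have h1 := h.1 K hK hKO
    rw [fst_eq_prod _ hK.measurableSet] at h1 ⊢
    rw [← inter_eq_left.2 hs, ← Measure.restrict_apply hm] at h1 ⊢
    rwa [← he]
  · have h1 : ∀ p : R d × S d, p ∉ O ×ˢ (univ : Set (S d)) → divT X p = 0 :=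
      fun p hp => divT_eq_zero fun h => hp ⟨hX.2.2 h, mem_univ _⟩
    rw [← setIntegral_eq_integral_of_forall_compl_eq_zero h1, ← he,
      setIntegral_eq_integral_of_forall_compl_eq_zero h1]
    exact h.2 X hX

theorem VConv.divT {ι : Type} {l : Filter ι} {V : ι → Vf d} {W : Vf d} {O : Set (R d)}
    (h : VConv l V W O) {X : R d → R d} (hX : C1c X O) :
    Tendsto (fun i => ∫ p, divT X p ∂V i) l (𝓝 (∫ p, divT X p ∂W)) :=
  h _ (divT_continuous hX.1) ⟨tsupport X, hX.2.1, hX.2.2, fun _ hp => divT_eq_zero hp⟩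

theorem VConv.stat {ι : Type} {l : Filter ι} [l.NeBot] {V : ι → Vf d} {W : Vf d} {O : Set (R d)}
    {O' : ι → Set (R d)} (h : VConv l V W O) (hW : LocFin W O) (hs : ∀ᶠ i in l, Stat (V i) (O' i))
    (hO : ∀ K, IsCompact K → K ⊆ O → ∀ᶠ i in l, K ⊆ O' i) : Stat W O := by
  refine ⟨hW, fun X hX => ?_⟩
  refine tendsto_nhds_unique (h.divT hX) (tendsto_const_nhds.congr' ?_)
  filter_upwards [hs, hO _ hX.2.1 hX.2.2] with i h1 h2
  exact (h1.2 X ⟨hX.1, hX.2.1, h2⟩).symm

theorem support_congr {μ ν : Measure (R d)} {O : Set (R d)} (hO : IsOpen O)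
    (he : μ.restrict O = ν.restrict O) : μ.support ∩ O = ν.support ∩ O := by
  have key : ∀ {μ ν : Measure (R d)}, μ.restrict O = ν.restrict O → μ.support ∩ O ⊆ ν.support ∩ O := by
    intro μ ν he x hx
    refine ⟨(Measure.mem_support_iff_forall x).2 fun U hU => ?_, hx.2⟩
    have h1 := (Measure.mem_support_iff_forall x).1 hx.1 (U ∩ O) (inter_mem hU (hO.mem_nhds hx.2))
    rw [← Measure.restrict_apply' hO.measurableSet, he, Measure.restrict_apply' hO.measurableSet] at h1
    exact h1.trans_le (measure_mono inter_subset_left)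
  exact Subset.antisymm (key he) (key he.symm)

theorem D1_defFn {M M' O : Set (R d)} (hO : IsOpen O) (he : M ∩ O = M' ∩ O) {x : R d} (hx : x ∈ O)
    {f : R d → ℝ} (h : DefFn M x f) : DefFn M' x f := by
  refine ⟨h.1, h.2.1, ?_⟩
  filter_upwards [h.2.2, hO.mem_nhds hx] with y hy hyO
  rw [← hy]
  exact ⟨fun h1 => (he ▸ (⟨h1, hyO⟩ : y ∈ M' ∩ O) : y ∈ M ∩ O).1,
    fun h1 => (he ▸ (⟨h1, hyO⟩ : y ∈ M ∩ O) : y ∈ M' ∩ O).1⟩

theorem WReg.congr {M M' O : Set (R d)} (hO : IsOpen O) (he : M ∩ O = M' ∩ O) {x : R d} (hx : x ∈ O)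
    (h : WReg M x) : WReg M' x := by
  obtain ⟨f, hf⟩ := h
  exact ⟨f, D1_defFn hO he hx hf⟩

theorem Stab.congr {μ ν : Measure (R d)} {O : Set (R d)} (hO : IsOpen O) (h : Stab μ O)
    (he : μ.restrict O = ν.restrict O) : Stab ν O := by
  intro U P hU hUO hP ζ hζ
  have hs := support_congr hO he
  have hP' : Adapted μ.support U P := by
    refine ⟨hP.1, fun x hx => ?_⟩
    have hx' : x ∈ ν.support ∩ O := hs ▸ (⟨hx.1, hUO hx.2⟩ : x ∈ μ.support ∩ O)
    obtain ⟨f, hf, hf'⟩ := hP.2 x ⟨hx'.1, hx.2⟩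
    exact ⟨f, D1_defFn hO hs.symm hx'.2 hf, hf'⟩
  have h1 : ∀ x, x ∉ O → c2 P x * ζ x ^ 2 = 0 := fun x hx => by
    rw [image_eq_zero_of_notMem_tsupport fun h => hx (hUO (hζ.2.2 h))]
    simp
  have h2 : ∀ x, x ∉ O → gs P ζ x = 0 := fun x hx => by
    have h3 : fderiv ℝ ζ x = 0 := by
      by_contra h4
      exact hx (hUO (hζ.2.2 (support_fderiv_subset ℝ (Function.mem_support.2 h4))))
    simp [gs, dl, pd, h3]
  rw [← setIntegral_eq_integral_of_forall_compl_eq_zero h1,
    ← setIntegral_eq_integral_of_forall_compl_eq_zero h2, ← he,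
    setIntegral_eq_integral_of_forall_compl_eq_zero h1,
    setIntegral_eq_integral_of_forall_compl_eq_zero h2]
  exact h U P hU hUO hP' ζ hζ

end D1

section D2

open CompactlySupported in
theorem D2_ext {O : Set (R d)} (hO : IsOpen O) (f : C_c(↥(O ×ˢ (univ : Set (S d))), ℝ)) :
    ∃ (g : R d × S d → ℝ) (K : Set (R d)), Continuous g ∧ IsCompact K ∧ K ⊆ O ∧
      (∀ p, p.1 ∉ K → g p = 0) ∧ ∀ x : ↥(O ×ˢ (univ : Set (S d))), g x = f x := by
  have h := f.hasCompactSupport
  refine ⟨Subtype.val.extend f 0, Prod.fst '' (Subtype.val '' tsupport f),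
    HasCompactSupport.continuous_extend_zero (hO.prod isOpen_univ) f.continuous h,
    (IsCompact.image h continuous_subtype_val).image continuous_fst, ?_, fun p hp => ?_,
    fun x => Subtype.val_injective.extend_apply _ _ x⟩
  · rintro _ ⟨_, ⟨x, -, rfl⟩, rfl⟩
    exact x.2.1
  · exact image_eq_zero_of_notMem_tsupport fun h' =>
      hp (mem_image_of_mem _ (h.tsupport_extend_zero_subset continuous_subtype_val h'))

theorem D2_int {O K : Set (R d)} (hO : IsOpen O) (hK : K ⊆ O) {g : R d × S d → ℝ}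
    (hg : ∀ p, p.1 ∉ K → g p = 0) (V : Vf d) :
    ∫ x : ↥(O ×ˢ (univ : Set (S d))), g x ∂V.comap Subtype.val = ∫ p, g p ∂V := by
  rw [integral_subtype_comap (hO.prod isOpen_univ).measurableSet]
  exact setIntegral_eq_integral_of_forall_compl_eq_zero fun p hp => hg p fun h => hp ⟨hK h, trivial⟩

theorem D2_cpt {O K : Set (R d)} (hK : IsCompact K) (hKO : K ⊆ O) :
    IsCompact (Subtype.val ⁻¹' (K ×ˢ univ) : Set ↥(O ×ˢ (univ : Set (S d)))) := by
  rw [Subtype.isCompact_iff, Subtype.image_preimage_coe,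
    inter_eq_right.2 (prod_mono hKO Subset.rfl)]
  exact hK.prod isCompact_univ

open CompactlySupported in
/-- compactness (Riesz-Markov-Kakutani on `O × S`) -/
theorem vf_compact {ι : Type} (𝓤 : Ultrafilter ι) {V : ι → Vf d} {O : Set (R d)} (hO : IsOpen O)
    (hb : LocBd (𝓤 : Filter ι) V O) : ∃ W, LocFin W O ∧ VConv (𝓤 : Filter ι) V W O := by
  have hU : IsOpen (O ×ˢ (univ : Set (S d))) := hO.prod isOpen_univ
  have := hU.locallyCompactSpace
  have hj := MeasurableEmbedding.subtype_coe hU.measurableSet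
  have key : ∀ f : C_c(↥(O ×ˢ (univ : Set (S d))), ℝ),
      (∀ᶠ i in (𝓤 : Filter ι), Integrable f ((V i).comap Subtype.val)) ∧
      ∃ a, Tendsto (fun i => ∫ x, f x ∂(V i).comap Subtype.val) (𝓤 : Filter ι) (𝓝 a) := fun f => by
    obtain ⟨g, K, h1, h2, h3, h4, h5⟩ := D2_ext hO f
    obtain ⟨C, hC, h6⟩ := hb K h2 h3
    obtain ⟨M, hM⟩ := f.continuous.bounded_above_of_compact_support f.hasCompactSupport
    have e : ⇑f = fun x : ↥(O ×ˢ (univ : Set (S d))) => g x := funext fun x => (h5 x).symm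
    refine ⟨h6.mono fun i hi => ?_, ?_⟩
    · rw [e]
      refine hj.integrable_map_iff.1 ?_
      rw [map_comap_subtype_coe hU.measurableSet]
      exact (integrable_vf h2 (hi.trans_lt hC) h1 h4).restrict
    · obtain ⟨a, -, ha⟩ := (isCompact_Icc (a := -(|M| * C.toReal)) (b := |M| * C.toReal)
        ).ultrafilter_le_nhds (𝓤.map fun i => ∫ x, f x ∂(V i).comap Subtype.val) (by
          rw [le_principal_iff, Ultrafilter.coe_map, mem_map]
          filter_upwards [h6] with i hi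
          refine abs_le.1 ?_
          simp only [← h5, D2_int hO h3 h4]
          refine (abs_integral_vf_le (M := |M|) h2.measurableSet (hi.trans_lt hC) h4
            (Eventually.of_forall fun p hp => ?_)).trans
            (mul_le_mul_of_nonneg_left (ENNReal.toReal_mono hC.ne hi) (abs_nonneg _))
          exact (congrArg abs (h5 ⟨p, h3 hp, trivial⟩)).trans_le ((hM _).trans (le_abs_self _)))
      exact ⟨a, ha⟩
  choose h1 a ha using key
  let Λ : C_c(↥(O ×ˢ (univ : Set (S d))), ℝ) →ₚ[ℝ] ℝ := PositiveLinearMap.mk₀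
    { toFun := a
      map_add' := fun f g => tendsto_nhds_unique (ha (f + g)) (((ha f).add (ha g)).congr' (by
        filter_upwards [h1 f, h1 g] with i h2 h3
        exact (integral_add' h2 h3).symm))
      map_smul' := fun c f => tendsto_nhds_unique (ha (c • f)) (((ha f).const_smul c).congr
        fun i => (integral_smul c f).symm) }
    fun f hf => ge_of_tendsto' (ha f) fun i => integral_nonneg hf
  refine ⟨(RealRMK.rieszMeasure Λ).map Subtype.val, fun K h2 h3 => ?_, ?_⟩
  · rw [fst_eq_prod _ h2.measurableSet, hj.map_apply]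
    exact (D2_cpt h2 h3).measure_lt_top
  · rintro g hg ⟨K, h2, h3, h4⟩
    let f : C_c(↥(O ×ˢ (univ : Set (S d))), ℝ) :=
      ⟨⟨fun x => g x, hg.comp continuous_subtype_val⟩, HasCompactSupport.intro (D2_cpt h2 h3)
        fun x hx => h4 _ fun h => hx ⟨h, trivial⟩⟩
    rw [hj.integral_map]
    exact (RealRMK.integral_rieszMeasure Λ f).symm ▸ (ha f).congr fun i => D2_int hO h3 h4 (V i)

/-- uniqueness of limits -/
theorem VConv.unique {ι : Type} {l : Filter ι} [l.NeBot] {V : ι → Vf d} {W W' : Vf d} {O : Set (R d)}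
    (hO : IsOpen O) (h : VConv l V W O) (h' : VConv l V W' O) (hW : LocFin W O) (hW' : LocFin W' O) :
    W.restrict (O ×ˢ univ) = W'.restrict (O ×ˢ univ) := by
  have hU : IsOpen (O ×ˢ (univ : Set (S d))) := hO.prod isOpen_univ
  have := hU.locallyCompactSpace
  have key : ∀ Z : Vf d, LocFin Z O → IsFiniteMeasureOnCompacts
      (Z.comap Subtype.val : Measure ↥(O ×ˢ (univ : Set (S d)))) := fun Z hZ => ⟨fun K hK => by
    have h1 := (hK.image continuous_subtype_val).image continuous_fst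
    rw [comap_subtype_coe_apply hU.measurableSet]
    refine lt_of_le_of_lt ?_ (hZ _ h1 ?_)
    · rw [fst_eq_prod _ h1.measurableSet]
      exact measure_mono fun p hp => ⟨mem_image_of_mem _ hp, trivial⟩
    · rintro _ ⟨_, ⟨x, -, rfl⟩, rfl⟩
      exact x.2.1⟩
  have := key W hW
  have := key W' hW'
  rw [← map_comap_subtype_coe hU.measurableSet, ← map_comap_subtype_coe hU.measurableSet]
  refine congrArg _ (Measure.ext_of_integral_eq_on_compactlySupported fun f => ?_)
  obtain ⟨g, K, h1, h2, h3, h4, h5⟩ := D2_ext hO f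
  simp only [← h5, D2_int hO h3 h4]
  exact tendsto_nhds_unique (h g h1 ⟨K, h2, h3, h4⟩) (h' g h1 ⟨K, h2, h3, h4⟩)

end D2

section D3

theorem D3_up (μ : Measure (R d)) {U : Set (R d)} (hU : IsOpen U) {g : R d → ℝ}
    (h01 : ∀ x, 0 ≤ g x ∧ g x ≤ 1) (hs : tsupport g ⊆ U) :
    ENNReal.ofReal (∫ x, g x ∂μ) ≤ μ U := by
  by_cases hi : Integrable g μ
  · rw [ofReal_integral_eq_lintegral_ofReal hi (Eventually.of_forall fun x => (h01 x).1),
      ← lintegral_indicator_one hU.measurableSet]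
    refine lintegral_mono fun x => ?_
    by_cases hx : x ∈ U
    · simpa [hx] using (h01 x).2
    · simp [hx, image_eq_zero_of_notMem_tsupport fun c => hx (hs c)]
  · simp [integral_undef hi]

theorem D3_low {μ : Measure (R d)} {K : Set (R d)} (hK : IsCompact K) {g : R d → ℝ}
    (h01 : ∀ x, 0 ≤ g x ∧ g x ≤ 1) (h1 : ∀ x ∈ K, g x = 1) (hi : Integrable g μ) :
    μ K ≤ ENNReal.ofReal (∫ x, g x ∂μ) := by
  rw [ofReal_integral_eq_lintegral_ofReal hi (Eventually.of_forall fun x => (h01 x).1),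
    ← lintegral_indicator_one hK.measurableSet]
  refine lintegral_mono fun x => ?_
  by_cases hx : x ∈ K
  · simp [hx, h1 x hx]
  · simp [hx]

theorem D3_key {ι : Type} {l : Filter ι} {V : ι → Vf d} {W : Vf d} {O K U : Set (R d)}
    (h : VConv l V W O) (hb : LocBd l V O) (hW : LocFin W O) (hK : IsCompact K) (hU : IsOpen U)
    (hKU : K ⊆ U) (hUO : U ⊆ O) : ∃ (a : ι → ℝ≥0∞) (A : ℝ≥0∞), Tendsto a l (𝓝 A) ∧
      (∀ᶠ i in l, (V i).fst K ≤ a i) ∧ (∀ i, a i ≤ (V i).fst U) ∧ W.fst K ≤ A ∧ A ≤ W.fst U := by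
  obtain ⟨g, hg, ⟨-, hc, hs⟩, h01, h1⟩ := exists_cutoff hK hU hKU
  have hz : ∀ x, x ∉ tsupport g → g x = 0 := fun x hx => image_eq_zero_of_notMem_tsupport hx
  have ht := h (fun p => g p.1) (hg.continuous.comp continuous_fst)
    ⟨tsupport g, hc, hs.trans hUO, fun p hp => hz _ hp⟩
  simp only [← integral_fst_eq _ hg.continuous.measurable] at ht
  obtain ⟨C, hC, hb'⟩ := hb _ hc (hs.trans hUO)
  exact ⟨_, _, ENNReal.tendsto_ofReal ht,
    hb'.mono fun i hi => D3_low hK h01 h1 (integrable_cpt hc (hi.trans_lt hC) hg.continuous hz),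
    fun i => D3_up _ hU h01 hs,
    D3_low hK h01 h1 (integrable_cpt hc (hW _ hc (hs.trans hUO)) hg.continuous hz),
    D3_up _ hU h01 hs⟩

theorem VConv.limsup_le {ι : Type} {l : Filter ι} {V : ι → Vf d} {W : Vf d} {O K : Set (R d)}
    (hO : IsOpen O) (h : VConv l V W O) (hb : LocBd l V O) (hW : LocFin W O) (hK : IsCompact K)
    (hKO : K ⊆ O) : limsup (fun i => (V i).fst K) l ≤ W.fst K := by
  rcases l.eq_or_neBot with rfl | hl
  · simp
  obtain ⟨δ, hδ, hs⟩ := hK.exists_cthickening_subset_open hO hKO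
  have h1 := tendsto_measure_thickening_of_isClosed (μ := W.fst) ⟨δ, hδ,
    ((measure_mono (thickening_subset_cthickening δ K)).trans_lt
      (hW _ hK.cthickening hs)).ne⟩ hK.isClosed
  refine ge_of_tendsto h1 ?_
  filter_upwards [Ioo_mem_nhdsGT hδ] with r hr
  obtain ⟨a, A, ha, h2, -, -, h3⟩ := D3_key h hb hW hK isOpen_thickening
    (self_subset_thickening hr.1 K) ((thickening_subset_cthickening_of_le hr.2.le K).trans hs)
  exact (limsup_le_limsup h2).trans (ha.limsup_eq.trans_le h3)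

theorem VConv.le_liminf {ι : Type} {l : Filter ι} {V : ι → Vf d} {W : Vf d} {O U : Set (R d)}
    (h : VConv l V W O) (hb : LocBd l V O) (hW : LocFin W O) (hU : IsOpen U)
    (hUO : U ⊆ O) : W.fst U ≤ liminf (fun i => (V i).fst U) l := by
  rcases l.eq_or_neBot with rfl | hl
  · simp
  obtain ⟨K, hK, hKU⟩ := exists_exhaust hU
  have hm : Monotone K := monotone_nat_of_le_succ fun j => (hK j).2.2.trans interior_subset
  have h1 := hm.measure_iUnion (μ := W.fst)
  rw [hKU] at h1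
  refine h1.trans_le (iSup_le fun j => ?_)
  obtain ⟨a, A, ha, -, h2, h3, -⟩ := D3_key h hb hW (hK j).1 hU (hK j).2.1 hUO
  exact (h3.trans_eq ha.liminf_eq.symm).trans (liminf_le_liminf (Eventually.of_forall h2))

/-- with a density lower bound the supports converge -/
theorem VConv.support_near {ι : Type} {l : Filter ι} {V : ι → Vf d} {W : Vf d} {O K : Set (R d)}
    (hO : IsOpen O) (h : VConv l V W O) (hb : LocBd l V O) (hW : LocFin W O) (hK : IsCompact K)
    (hKO : K ⊆ O) {c : ℝ} (hc : 0 < c)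
    (hd : ∀ r > 0, cthickening r K ⊆ O → ∀ᶠ i in l, ∀ y ∈ (V i).fst.support ∩ K,
      ENNReal.ofReal (c * r ^ d) ≤ (V i).fst (closedBall y r)) {ε : ℝ} (hε : 0 < ε) :
    ∀ᶠ i in l, ∀ y ∈ (V i).fst.support ∩ K, ∃ x ∈ W.fst.support, dist y x < ε := by
  obtain ⟨δ, hδ, hs⟩ := hK.exists_cthickening_subset_open hO hKO
  obtain ⟨r, hr, hrδ, hrε⟩ : ∃ r : ℝ, 0 < r ∧ r ≤ δ ∧ r < ε :=
    ⟨min δ (ε / 2), lt_min hδ (half_pos hε), min_le_left _ _,
      (min_le_right _ _).trans_lt (half_lt_self hε)⟩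
  have hs' : cthickening r K ⊆ O := (cthickening_mono hrδ K).trans hs
  have hK' : IsCompact (K ∩ ⋂ x ∈ W.fst.support, {y | ε ≤ dist y x}) :=
    hK.inter_right (isClosed_biInter fun x _ =>
      isClosed_le continuous_const (continuous_id.dist continuous_const))
  have h0 : W.fst (cthickening r (K ∩ ⋂ x ∈ W.fst.support, {y | ε ≤ dist y x})) = 0 := by
    refine measure_mono_null ?_ Measure.measure_compl_support
    intro z hz hz'
    rw [hK'.cthickening_eq_biUnion_closedBall hr.le] at hz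
    obtain ⟨y, hy, hzy⟩ := mem_iUnion₂.1 hz
    have h1 : ε ≤ dist y z := mem_iInter₂.1 hy.2 z hz'
    rw [mem_closedBall, dist_comm] at hzy
    linarith
  have h1 := h.limsup_le hO hb hW hK'.cthickening
    ((cthickening_subset_of_subset r inter_subset_left).trans hs')
  rw [h0] at h1
  have h2 : 0 < ENNReal.ofReal (c * r ^ d) := ENNReal.ofReal_pos.2 (by positivity)
  filter_upwards [eventually_lt_of_limsup_lt (h1.trans_lt h2), hd r hr hs'] with i hi hi' y hy
  by_contra hn
  refine hi.not_ge ((hi' y hy).trans (measure_mono (closedBall_subset_cthickening ?_ r)))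
  exact ⟨hy.2, mem_iInter₂.2 fun x hx => not_lt.1 fun c => hn ⟨x, hx, c⟩⟩

end D3

section D4

/-- measures finite on compact subsets of `O` that agree near every point of `O` agree on `O` -/
theorem restrict_eq_of_local {μ ν : Measure (R d)} {O : Set (R d)}
    (h : ∀ x ∈ O, ∃ U ∈ 𝓝 x, μ.restrict U = ν.restrict U) (hO : IsOpen O) :
    μ.restrict O = ν.restrict O := by
  have _ := hO
  choose! U hU hUe using h
  obtain ⟨t, htO, htc, hcov⟩ := TopologicalSpace.countable_cover_nhdsWithin (f := U) (s := O)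
    (fun x hx => mem_nhdsWithin_of_mem_nhds (hU x hx))
  exact Measure.restrict_congr_mono hcov
    ((Measure.restrict_biUnion_congr htc).2 fun x hx => hUe x (htO hx))

theorem D4_open_le {μ ν : Measure (R d)} {O : Set (R d)}
    (hμ : ∀ K, IsCompact K → K ⊆ O → μ K < ⊤) (hν : ∀ K, IsCompact K → K ⊆ O → ν K < ⊤)
    (h : ∀ g : R d → ℝ, C1c g O → ∫ x, g x ∂μ = ∫ x, g x ∂ν) {V : Set (R d)} (hV : IsOpen V)
    (hVO : V ⊆ O) : μ V ≤ ν V := by
  obtain ⟨K, hK, hKV⟩ := exists_exhaust hV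
  have hmono : Monotone K :=
    monotone_nat_of_le_succ fun j => (hK j).2.2.trans interior_subset
  have hsup : μ V = ⨆ j, μ (K j) := by
    rw [← hKV]
    exact hmono.measure_iUnion
  rw [hsup]
  refine iSup_le fun j => ?_
  obtain ⟨g, -, hg, hg01, hg1⟩ := exists_cutoff (hK j).1 hV (hK j).2.1
  have hgO : C1c g O := ⟨hg.1, hg.2.1, hg.2.2.trans hVO⟩
  have hz : ∀ x, x ∉ tsupport g → g x = 0 := fun x hx => image_eq_zero_of_notMem_tsupport hx
  have hiμ : Integrable g μ :=
    integrable_cpt hg.2.1.isCompact (hμ _ hg.2.1.isCompact hgO.2.2) hg.1.continuous hz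
  have hiν : Integrable g ν :=
    integrable_cpt hg.2.1.isCompact (hν _ hg.2.1.isCompact hgO.2.2) hg.1.continuous hz
  calc μ (K j) = ∫⁻ x, (K j).indicator (fun _ => (1 : ℝ≥0∞)) x ∂μ := by
        rw [lintegral_indicator (hK j).1.measurableSet]
        simp only [lintegral_const, MeasurableSet.univ, Measure.restrict_apply, univ_inter, one_mul]
    _ ≤ ∫⁻ x, ENNReal.ofReal (g x) ∂μ := by
        refine lintegral_mono fun x => ?_
        by_cases hx : x ∈ K j
        · simp [hx, hg1 x hx]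
        · simp [hx]
    _ = ENNReal.ofReal (∫ x, g x ∂μ) :=
        (ofReal_integral_eq_lintegral_ofReal hiμ (Eventually.of_forall fun x => (hg01 x).1)).symm
    _ = ENNReal.ofReal (∫ x, g x ∂ν) := by rw [h g hgO]
    _ = ∫⁻ x, ENNReal.ofReal (g x) ∂ν :=
        ofReal_integral_eq_lintegral_ofReal hiν (Eventually.of_forall fun x => (hg01 x).1)
    _ ≤ ∫⁻ x, V.indicator (fun _ => (1 : ℝ≥0∞)) x ∂ν := by
        refine lintegral_mono fun x => ?_
        by_cases hx : x ∈ V
        · simp only [hx, indicator_of_mem]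
          exact ENNReal.ofReal_le_one.2 (hg01 x).2
        · have : g x = 0 := hz x fun hx' => hx (hg.2.2 hx')
          simp [this]
    _ = ν V := by
        rw [lintegral_indicator hV.measurableSet]
        simp only [lintegral_const, MeasurableSet.univ, Measure.restrict_apply, univ_inter, one_mul]

theorem restrict_eq_of_integral {μ ν : Measure (R d)} {O : Set (R d)} (hO : IsOpen O)
    (hμ : ∀ K, IsCompact K → K ⊆ O → μ K < ⊤) (hν : ∀ K, IsCompact K → K ⊆ O → ν K < ⊤)
    (h : ∀ g : R d → ℝ, C1c g O → ∫ x, g x ∂μ = ∫ x, g x ∂ν) : μ.restrict O = ν.restrict O := by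
  have hop : ∀ V : Set (R d), IsOpen V → V ⊆ O → μ V = ν V := fun V hV hVO =>
    le_antisymm (D4_open_le hμ hν h hV hVO)
      (D4_open_le hν hμ (fun g hg => (h g hg).symm) hV hVO)
  refine restrict_eq_of_local (fun x hx => ?_) hO
  obtain ⟨C, hC, hxC, hCO⟩ := exists_compact_subset hO hx
  refine ⟨interior C, isOpen_interior.mem_nhds hxC, ?_⟩
  have hfin : IsFiniteMeasure (μ.restrict (interior C)) :=
    ⟨by
      rw [Measure.restrict_apply_univ]
      exact (measure_mono interior_subset).trans_lt (hμ C hC hCO)⟩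
  have hsub : interior C ⊆ O := interior_subset.trans hCO
  refine ext_of_generate_finite {s : Set (R d) | IsOpen s} BorelSpace.measurable_eq
    isPiSystem_isOpen (fun s hs => ?_) ?_
  · have hs' : IsOpen s := hs
    rw [Measure.restrict_apply hs'.measurableSet, Measure.restrict_apply hs'.measurableSet]
    exact hop _ (hs'.inter isOpen_interior) (inter_subset_right.trans hsub)
  · rw [Measure.restrict_apply_univ, Measure.restrict_apply_univ]
    exact hop _ isOpen_interior hsub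

theorem D4_stat_empty (W : Vf d) : Stat W ∅ := by
  refine ⟨fun K _ hK => ?_, fun X hX => ?_⟩
  · rw [subset_empty_iff.1 hK]
    simp
  · have : ∀ p, divT X p = 0 := fun p => divT_eq_zero fun hp => hX.2.2 hp
    simp [this]

theorem D4_stat_union {W : Vf d} {U V : Set (R d)} (hU : IsOpen U) (hV : IsOpen V)
    (h1 : Stat W U) (h2 : Stat W V) : Stat W (U ∪ V) := by
  refine ⟨fun K hK hKs => ?_, fun X hX => ?_⟩
  · obtain ⟨K1, K2, hK1, hK2, hK1U, hK2V, rfl⟩ := hK.binary_compact_cover hU hV hKs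
    exact (measure_union_le _ _).trans_lt
      (ENNReal.add_lt_top.2 ⟨h1.1 K1 hK1 hK1U, h2.1 K2 hK2 hK2V⟩)
  · obtain ⟨K1, K2, hK1, hK2, hK1U, hK2V, hKe⟩ :=
      hX.2.1.isCompact.binary_compact_cover hU hV hX.2.2
    obtain ⟨g, -, hg, -, hg1⟩ := exists_cutoff hK1 hU hK1U
    have hY : C1c (fun x => g x • X x) U :=
      c1c_of_vanish (hg.1.smul hX.1) hg.2.1.isCompact hg.2.2 fun x hx => by
        rw [image_eq_zero_of_notMem_tsupport hx, zero_smul]
    have hZ : C1c (fun x => (1 - g x) • X x) V :=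
      c1c_of_vanish ((contDiff_const.sub hg.1).smul hX.1) hK2 hK2V fun x hx => by
        by_cases hx1 : x ∈ K1
        · rw [hg1 x hx1, sub_self, zero_smul]
        · have : x ∉ tsupport X := by
            rw [hKe]
            rintro (h | h)
            exacts [hx1 h, hx h]
          rw [image_eq_zero_of_notMem_tsupport this, smul_zero]
    have hsum : ∀ p, divT X p =
        divT (fun x => g x • X x) p + divT (fun x => (1 - g x) • X x) p := fun p => by
      rw [← divT_add (hY.1.differentiable one_ne_zero _) (hZ.1.differentiable one_ne_zero _)]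
      congr 1
      funext x
      rw [← add_smul, add_sub_cancel, one_smul]
    simp only [hsum]
    rw [integral_add (h1.integrable hY) (h2.integrable hZ), h1.2 _ hY, h2.2 _ hZ, add_zero]

/-- stationarity is local -/
theorem stat_of_local {W : Vf d} {O : Set (R d)} (h : ∀ x ∈ O, ∃ U ∈ 𝓝 x, Stat W U) : Stat W O := by
  have key : ∀ K, IsCompact K → K ⊆ O → ∃ V, IsOpen V ∧ K ⊆ V ∧ Stat W V := fun K hK hKO => by
    refine hK.induction_on (p := fun s => ∃ V, IsOpen V ∧ s ⊆ V ∧ Stat W V)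
      ⟨∅, isOpen_empty, Subset.rfl, D4_stat_empty W⟩ ?_ ?_ ?_
    · rintro s t hst ⟨V, hV, htV, hS⟩
      exact ⟨V, hV, hst.trans htV, hS⟩
    · rintro s t ⟨U, hU, hsU, hS⟩ ⟨V, hV, htV, hT⟩
      exact ⟨U ∪ V, hU.union hV, union_subset_union hsU htV, D4_stat_union hU hV hS hT⟩
    · intro x hx
      obtain ⟨U, hU, hS⟩ := h x (hKO hx)
      exact ⟨interior U, mem_nhdsWithin_of_mem_nhds (interior_mem_nhds.2 hU), interior U,
        isOpen_interior, Subset.rfl, hS.mono interior_subset⟩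
  refine ⟨fun K hK hKO => ?_, fun X hX => ?_⟩
  · obtain ⟨V, -, hKV, hS⟩ := key K hK hKO
    exact hS.1 K hK hKV
  · obtain ⟨V, -, hKV, hS⟩ := key _ hX.2.1.isCompact hX.2.2
    exact hS.2 X ⟨hX.1, hX.2.1, hKV⟩

/-- an a.e. vanishing continuous function of `(x, ν)` passes to the limit -/
theorem VConv.ae_zero {ι : Type} {l : Filter ι} [l.NeBot] {V : ι → Vf d} {W : Vf d} {O : Set (R d)}
    (hO : IsOpen O) (h : VConv l V W O) (hb : LocBd l V O) (hW : LocFin W O) {f : R d × S d → ℝ}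
    (hf : Continuous f) (h0 : ∀ K, IsCompact K → K ⊆ O → ∀ ε > 0, ∀ᶠ i in l,
      ∀ᵐ p ∂V i, p.1 ∈ K → |f p| ≤ ε) : ∀ᵐ p ∂W, p.1 ∈ O → f p = 0 := by
  have key : ∀ K, IsCompact K → K ⊆ O → ∀ᵐ p ∂W, p.1 ∈ K → f p = 0 := fun K hK hKO => by
    obtain ⟨χ, -, hχ, h01, h1⟩ := exists_cutoff hK hO hKO
    have hT : IsCompact (tsupport χ) := hχ.2.1.isCompact
    have hgc : Continuous fun p : R d × S d => χ p.1 * |f p| :=
      (hχ.1.continuous.comp continuous_fst).mul hf.abs
    have hgz : ∀ p : R d × S d, p.1 ∉ tsupport χ → χ p.1 * |f p| = 0 := fun p hp => by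
      rw [image_eq_zero_of_notMem_tsupport hp, zero_mul]
    have hg0 : ∀ p : R d × S d, 0 ≤ χ p.1 * |f p| := fun p => mul_nonneg (h01 _).1 (abs_nonneg _)
    have hlim := h _ hgc ⟨tsupport χ, hT, hχ.2.2, hgz⟩
    obtain ⟨C, hC, hCb⟩ := hb _ hT hχ.2.2
    have hle : ∀ ε > 0, ∫ p, χ p.1 * |f p| ∂W ≤ ε * C.toReal := fun ε hε => by
      refine le_of_tendsto hlim ?_
      filter_upwards [hCb, h0 _ hT hχ.2.2 ε hε] with i hi1 hi2
      have hM : ∀ᵐ p ∂V i, p.1 ∈ tsupport χ → |χ p.1 * (|f p|)| ≤ ε := by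
        filter_upwards [hi2] with p hp hpT
        rw [abs_of_nonneg (hg0 p)]
        exact (mul_le_of_le_one_left (abs_nonneg _) (h01 _).2).trans (hp hpT)
      have := abs_integral_vf_le hT.measurableSet (hi1.trans_lt hC) hgz hM
      exact (le_abs_self _).trans (this.trans
        (mul_le_mul_of_nonneg_left (ENNReal.toReal_mono hC.ne hi1) hε.le))
    have hI0 : ∫ p, χ p.1 * |f p| ∂W = 0 := by
      refine le_antisymm ?_ (integral_nonneg hg0)
      refine le_of_forall_pos_le_add fun ε hε => ?_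
      have hC1 : 0 < C.toReal + 1 := by positivity
      have h2 := hle (ε / (C.toReal + 1)) (div_pos hε hC1)
      have h3 : ε / (C.toReal + 1) * C.toReal ≤ ε := by
        rw [div_mul_eq_mul_div, div_le_iff₀ hC1]
        exact mul_le_mul_of_nonneg_left (by linarith only []) hε.le
      linarith only [h2, h3]
    have hint : Integrable (fun p : R d × S d => χ p.1 * |f p|) W :=
      integrable_vf hT (hW _ hT hχ.2.2) hgc hgz
    have hae := (integral_eq_zero_iff_of_nonneg hg0 hint).1 hI0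
    filter_upwards [hae] with p hp hpK
    have hp' : χ p.1 * |f p| = 0 := hp
    rw [h1 _ hpK, one_mul] at hp'
    exact abs_eq_zero.1 hp'
  obtain ⟨K, hK, hKO⟩ := exists_exhaust hO
  have hall := ae_all_iff.2 fun j => key (K j) (hK j).1 (hK j).2.1
  filter_upwards [hall] with p hp hpO
  rw [← hKO] at hpO
  obtain ⟨j, hj⟩ := mem_iUnion.1 hpO
  exact hp j hj

end D4

section D5

theorem hasDerivAt_phi (t : ℝ) :
    HasDerivAt (fun s : ℝ => (max (1 - s) 0) ^ 2) (-2 * max (1 - t) 0) t := by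
  rcases lt_trichotomy t 1 with h | h | h
  · have h1 : HasDerivAt (fun s : ℝ => (1 - s) ^ 2) (-2 * (1 - t)) t := by
      exact (((hasDerivAt_id t).const_sub 1).fun_pow 2).congr_deriv (by simp)
    rw [max_eq_left (by linarith)]
    refine h1.congr_of_eventuallyEq ?_
    filter_upwards [Iio_mem_nhds h] with s hs
    rw [max_eq_left (by simp only [mem_Iio] at hs; linarith)]
  · subst h
    rw [hasDerivAt_iff_isLittleO]
    refine Asymptotics.IsBigO.trans_isLittleO ?_ (Asymptotics.isLittleO_pow_sub_sub (1 : ℝ) (m := 2) (by norm_num))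
    refine Asymptotics.IsBigO.of_bound 1 (Eventually.of_forall fun s => ?_)
    simp only [sub_self, max_self, mul_zero, smul_zero, sub_zero, Real.norm_eq_abs, one_mul]
    rcases le_total (1 - s) 0 with h | h
    · rw [max_eq_right h]
      simp only [ne_eq, OfNat.ofNat_ne_zero, not_false_eq_true, zero_pow, sub_self, abs_zero, sq_abs, abs_pow, sq_nonneg]
    · rw [max_eq_left h]
      simp only [ne_eq, OfNat.ofNat_ne_zero, not_false_eq_true, zero_pow, sub_zero, abs_pow, abs_abs]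
      rw [abs_sub_comm]
  · have h1 : HasDerivAt (fun _ : ℝ => (0 : ℝ)) 0 t := hasDerivAt_const t 0
    rw [max_eq_right (by linarith), mul_zero]
    refine h1.congr_of_eventuallyEq ?_
    filter_upwards [Ioi_mem_nhds h] with s hs
    rw [max_eq_right (by simp only [mem_Ioi] at hs; linarith)]
    simp

theorem contDiff_phi : ContDiff ℝ 1 fun s : ℝ => (max (1 - s) 0) ^ 2 := by
  rw [contDiff_one_iff_deriv]
  refine ⟨fun t => (hasDerivAt_phi t).differentiableAt, ?_⟩
  have : deriv (fun s : ℝ => (max (1 - s) 0) ^ 2) = fun t => -2 * max (1 - t) 0 :=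
    funext fun t => (hasDerivAt_phi t).deriv
  rw [this]
  fun_prop

theorem D5_bound {K : Set (R d)} (hK : IsCompact K) {a b : ℝ} {g : ℝ → R d × S d → ℝ}
    (hc : ContinuousOn (fun q : ℝ × (R d × S d) => g q.1 q.2) (Icc a b ×ˢ univ))
    (h0 : ∀ s ∈ Icc a b, ∀ p, p.1 ∉ K → g s p = 0) :
    ∃ C : ℝ, 0 ≤ C ∧ ∀ s ∈ Icc a b, ∀ p, ‖g s p‖ ≤ C := by
  have hcpt : IsCompact (Icc a b ×ˢ (K ×ˢ (univ : Set (S d)))) :=
    isCompact_Icc.prod (hK.prod isCompact_univ)
  obtain ⟨C, hC⟩ := hcpt.exists_bound_of_continuousOn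
    (hc.mono (prod_mono subset_rfl (subset_univ _)))
  refine ⟨max C 0, le_max_right _ _, fun s hs p => ?_⟩
  by_cases hp : p.1 ∈ K
  · exact (hC (s, p) ⟨hs, hp, mem_univ _⟩).trans (le_max_left _ _)
  · rw [h0 s hs p hp, norm_zero]
    exact le_max_right _ _

theorem D5_cont_right {a b : ℝ} {g : ℝ → R d × S d → ℝ}
    (hc : ContinuousOn (fun q : ℝ × (R d × S d) => g q.1 q.2) (Icc a b ×ˢ univ))
    {s : ℝ} (hs : s ∈ Icc a b) : Continuous (g s) := by
  rw [← continuousOn_univ]
  exact hc.comp (f := fun p : R d × S d => (s, p)) (by fun_prop) fun p _ => ⟨hs, mem_univ _⟩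

theorem D5_cont_left {a b : ℝ} {g : ℝ → R d × S d → ℝ}
    (hc : ContinuousOn (fun q : ℝ × (R d × S d) => g q.1 q.2) (Icc a b ×ˢ univ))
    (p : R d × S d) : ContinuousOn (fun s => g s p) (Icc a b) :=
  hc.comp (f := fun s : ℝ => (s, p)) (by fun_prop) fun _ hs => ⟨hs, mem_univ _⟩

theorem D5_restrict (W : Vf d) {K : Set (R d)} {g : R d × S d → ℝ} (h0 : ∀ p, p.1 ∉ K → g p = 0) :
    ∫ p, g p ∂(W.restrict (K ×ˢ univ)) = ∫ p, g p ∂W :=
  setIntegral_eq_integral_of_forall_compl_eq_zero fun p hp => h0 p fun h => hp ⟨h, mem_univ _⟩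

/-- fundamental theorem of calculus under the integral sign -/
theorem integral_transport {W : Vf d} {K : Set (R d)} (hK : IsCompact K) (hW : W.fst K < ⊤)
    {a b : ℝ} (hab : a ≤ b) {g g' : ℝ → R d × S d → ℝ}
    (hg : ∀ s ∈ Icc a b, ∀ p, HasDerivAt (fun t => g t p) (g' s p) s)
    (hc : ContinuousOn (fun q : ℝ × (R d × S d) => g' q.1 q.2) (Icc a b ×ˢ univ))
    (ha : Continuous (g a)) (hb : Continuous (g b))
    (h0 : ∀ s ∈ Icc a b, ∀ p, p.1 ∉ K → g s p = 0 ∧ g' s p = 0) :
    ∫ p, g b p ∂W - ∫ p, g a p ∂W = ∫ s in a..b, ∫ p, g' s p ∂W := by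
  have haI : a ∈ Icc a b := left_mem_Icc.2 hab
  have hbI : b ∈ Icc a b := right_mem_Icc.2 hab
  have hia : Integrable (g a) W := integrable_vf hK hW ha fun p hp => (h0 a haI p hp).1
  have hib : Integrable (g b) W := integrable_vf hK hW hb fun p hp => (h0 b hbI p hp).1
  set μ : Vf d := W.restrict (K ×ˢ univ) with hμ
  have : IsFiniteMeasure μ := ⟨by
    rw [hμ, Measure.restrict_apply_univ, ← fst_eq_prod W hK.measurableSet]; exact hW⟩
  obtain ⟨C, -, hC⟩ := D5_bound hK hc fun s hs p hp => (h0 s hs p hp).2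
  have hint : Integrable (Function.uncurry g') ((volume.restrict (uIoc a b)).prod μ) := by
    rw [uIoc_of_le hab]
    have : IsFiniteMeasure ((volume : Measure ℝ).restrict (Ioc a b)) := ⟨by simp only [MeasurableSet.univ, Measure.restrict_apply, univ_inter, Real.volume_Ioc, ENNReal.ofReal_lt_top]⟩
    have hm : MeasurableSet (Ioc a b ×ˢ (univ : Set (R d × S d))) :=
      measurableSet_Ioc.prod MeasurableSet.univ
    refine Integrable.of_bound ?_ C ?_
    · rw [Measure.restrict_prod_eq_prod_univ]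
      exact (hc.mono (prod_mono Ioc_subset_Icc_self subset_rfl)).aestronglyMeasurable hm
    · rw [Measure.restrict_prod_eq_prod_univ]
      filter_upwards [ae_restrict_mem hm] with q hq
      exact hC q.1 (Ioc_subset_Icc_self hq.1) q.2
  have h1 : ∫ s in a..b, ∫ p, g' s p ∂W = ∫ s in a..b, ∫ p, g' s p ∂μ := by
    refine intervalIntegral.integral_congr fun s hs => ?_
    rw [uIcc_of_le hab] at hs
    exact (D5_restrict W fun p hp => (h0 s hs p hp).2).symm
  rw [h1, intervalIntegral_integral_swap hint, ← integral_sub hib hia,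
    ← D5_restrict W (K := K) (g := fun p => g b p - g a p) fun p hp => by
      simp [(h0 a haI p hp).1, (h0 b hbI p hp).1]]
  refine integral_congr_ae (Eventually.of_forall fun p => ?_)
  refine (intervalIntegral.integral_eq_sub_of_hasDerivAt (f := fun t => g t p) (fun s hs => ?_) ?_).symm
  · rw [uIcc_of_le hab] at hs
    exact hg s hs p
  · exact (D5_cont_left hc p).intervalIntegrable_of_Icc hab

/-- continuity of parametric integrals -/
theorem continuousOn_integral_vf {W : Vf d} {K : Set (R d)} (hK : IsCompact K) (hW : W.fst K < ⊤)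
    {a b : ℝ} {g : ℝ → R d × S d → ℝ}
    (hc : ContinuousOn (fun q : ℝ × (R d × S d) => g q.1 q.2) (Icc a b ×ˢ univ))
    (h0 : ∀ s ∈ Icc a b, ∀ p, p.1 ∉ K → g s p = 0) :
    ContinuousOn (fun s => ∫ p, g s p ∂W) (Icc a b) := by
  obtain ⟨C, -, hC⟩ := D5_bound hK hc h0
  have hm : MeasurableSet (K ×ˢ (univ : Set (S d))) := hK.measurableSet.prod MeasurableSet.univ
  refine continuousOn_of_dominated (bound := (K ×ˢ (univ : Set (S d))).indicator fun _ => C)
    (fun s hs => (D5_cont_right hc hs).aestronglyMeasurable)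
    (fun s hs => Eventually.of_forall fun p => ?_) ?_ (Eventually.of_forall fun p => D5_cont_left hc p)
  · by_cases hp : p.1 ∈ K
    · rw [indicator_of_mem (show p ∈ K ×ˢ (univ : Set (S d)) from ⟨hp, mem_univ _⟩)]
      exact hC s hs p
    · rw [indicator_of_notMem (fun h => hp h.1), h0 s hs p hp, norm_zero]
  · refine (integrable_indicator_iff hm).2 (integrableOn_const ?_)
    rw [← fst_eq_prod W hK.measurableSet]
    exact hW.ne

theorem D5_max_zero {x y : R d} {s b : ℝ} (hs : 0 < s) (hsb : s ≤ b) (hy : y ∉ closedBall x b) :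
    max (1 - ‖y - x‖ ^ 2 / s ^ 2) 0 = 0 := by
  rw [mem_closedBall, dist_eq_norm, not_le] at hy
  refine max_eq_right ?_
  have h1 : s ^ 2 ≤ ‖y - x‖ ^ 2 := pow_le_pow_left₀ hs.le (by linarith) 2
  have h2 : 1 ≤ ‖y - x‖ ^ 2 / s ^ 2 := (one_le_div (by positivity)).2 h1
  linarith

/-- derivative in the radius -/
theorem D5_deriv (d : ℕ) (c n : ℝ) {s : ℝ} (hs : 0 < s) :
    HasDerivAt (fun t : ℝ => (t ^ d)⁻¹ * (c * (max (1 - n / t ^ 2) 0) ^ 2))
      ((s ^ (d + 1))⁻¹ * (-(d : ℝ) * (c * (max (1 - n / s ^ 2) 0) ^ 2) +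
        4 * c * max (1 - n / s ^ 2) 0 * n / s ^ 2)) s := by
  have h1 : HasDerivAt (fun t : ℝ => (t ^ d)⁻¹) (-(d : ℝ) * (s ^ (d + 1))⁻¹) s := by
    refine ((hasDerivAt_pow d s).fun_inv (pow_ne_zero d hs.ne')).congr_deriv ?_
    rcases d with _ | d
    · simp
    · simp only [Nat.add_sub_cancel]
      field_simp
      ring
  have h2 : HasDerivAt (fun t : ℝ => n / t ^ 2) (-2 * n / s ^ 3) s := by
    refine (((hasDerivAt_pow 2 s).fun_inv (pow_ne_zero 2 hs.ne')).const_mul n).congr_deriv ?_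
    simp only [Nat.cast_ofNat, Nat.add_one_sub_one, pow_one]
    field_simp
  have h3 := (hasDerivAt_phi (n / s ^ 2)).comp s h2
  refine (h1.fun_mul (h3.const_mul c)).congr_deriv ?_
  simp only [Function.comp_apply]
  field_simp
  ring

theorem D5_hasFDeriv (x y : R d) (s : ℝ) :
    HasFDerivAt (fun z : R d => (max (1 - ‖z - x‖ ^ 2 / s ^ 2) 0) ^ 2)
      ((-2 * max (1 - ‖y - x‖ ^ 2 / s ^ 2) 0) • ((s ^ 2)⁻¹ • (2 • innerSL ℝ (y - x)))) y := by
  have h1 : HasFDerivAt (fun z : R d => ‖z - x‖ ^ 2) (2 • innerSL ℝ (y - x)) y := by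
    have := ((hasFDerivAt_id (𝕜 := ℝ) y).sub_const x).norm_sq
    simpa only [map_sub, id_eq, ContinuousLinearMap.comp_id] using this
  have h2 : HasFDerivAt (fun z : R d => ‖z - x‖ ^ 2 / s ^ 2) ((s ^ 2)⁻¹ • (2 • innerSL ℝ (y - x))) y := by
    have := h1.const_mul (s ^ 2)⁻¹
    simp only [div_eq_inv_mul]
    exact this
  exact (hasDerivAt_phi (‖y - x‖ ^ 2 / s ^ 2)).comp_hasFDerivAt y h2

theorem D5_contDiff (x : R d) (s : ℝ) :
    ContDiff ℝ 1 fun z : R d => (max (1 - ‖z - x‖ ^ 2 / s ^ 2) 0) ^ 2 := by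
  have h1 : ContDiff ℝ 1 fun z : R d => ‖z - x‖ ^ 2 / s ^ 2 :=
    ((contDiff_id.sub contDiff_const).norm_sq ℝ).div_const _
  exact contDiff_phi.comp h1

/-- tangential divergence of the radial field -/
theorem D5_div (x : R d) (s : ℝ) {h : R d → ℝ} (hh : ContDiff ℝ 1 h) (p : R d × S d) :
    divT (fun y => (h y * (max (1 - ‖y - x‖ ^ 2 / s ^ 2) 0) ^ 2) • (y - x)) p =
      (d : ℝ) * (h p.1 * (max (1 - ‖p.1 - x‖ ^ 2 / s ^ 2) 0) ^ 2) +
      (max (1 - ‖p.1 - x‖ ^ 2 / s ^ 2) 0) ^ 2 *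
          fderiv ℝ h p.1 ((p.1 - x) - ⟪(p.2 : R d), p.1 - x⟫_ℝ • (p.2 : R d)) -
        4 * h p.1 * max (1 - ‖p.1 - x‖ ^ 2 / s ^ 2) 0 *
          (‖p.1 - x‖ ^ 2 - ⟪p.1 - x, (p.2 : R d)⟫_ℝ ^ 2) / s ^ 2 := by
  have hd : HasFDerivAt h (fderiv ℝ h p.1) p.1 := (hh.differentiable (by norm_num) p.1).hasFDerivAt
  have hm := hd.mul (D5_hasFDeriv x p.1 s)
  have hm' : HasFDerivAt (fun y => h y * (max (1 - ‖y - x‖ ^ 2 / s ^ 2) 0) ^ 2) _ p.1 := hm
  rw [divT_smul hm'.differentiableAt (by fun_prop), divT_sub_const, hm'.fderiv]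
  generalize p.1 - x = v
  have hv : ⟪v, v - ⟪(p.2 : R d), v⟫_ℝ • (p.2 : R d)⟫_ℝ = ‖v‖ ^ 2 - ⟪v, (p.2 : R d)⟫_ℝ ^ 2 := by
    rw [inner_sub_right, inner_smul_right, real_inner_self_eq_norm_sq, real_inner_comm v]
    ring
  simp only [add_apply, smul_apply, smul_eq_mul, innerSL_apply_apply, nsmul_eq_mul, Nat.cast_ofNat, hv]
  ring

/-- weighted monotonicity formula -/
theorem mono_formula {W : Vf d} {O : Set (R d)} (hs : Stat W O) {x : R d} {a b : ℝ} (ha : 0 < a)
    (hab : a ≤ b) (hb : closedBall x b ⊆ O) {h : R d → ℝ} (hh : ContDiff ℝ 1 h) :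
    (b ^ d)⁻¹ * ∫ y, h y * (max (1 - ‖y - x‖ ^ 2 / b ^ 2) 0) ^ 2 ∂W.fst -
      (a ^ d)⁻¹ * ∫ y, h y * (max (1 - ‖y - x‖ ^ 2 / a ^ 2) 0) ^ 2 ∂W.fst =
    ∫ s in a..b, ∫ p, (s ^ (d + 1))⁻¹ *
      (4 * h p.1 * max (1 - ‖p.1 - x‖ ^ 2 / s ^ 2) 0 * ⟪p.1 - x, (p.2 : R d)⟫_ℝ ^ 2 / s ^ 2 +
        (max (1 - ‖p.1 - x‖ ^ 2 / s ^ 2) 0) ^ 2 *
          fderiv ℝ h p.1 ((p.1 - x) - ⟪(p.2 : R d), p.1 - x⟫_ℝ • (p.2 : R d))) ∂W := by
  have hK : IsCompact (closedBall x b) := isCompact_closedBall x b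
  have hW : W.fst (closedBall x b) < ⊤ := hs.1 _ hK hb
  have hhc : Continuous h := hh.continuous
  have hc : ContinuousOn (fun q : ℝ × (R d × S d) => (q.1 ^ (d + 1))⁻¹ *
      (-(d : ℝ) * (h q.2.1 * (max (1 - ‖q.2.1 - x‖ ^ 2 / q.1 ^ 2) 0) ^ 2) +
        4 * h q.2.1 * max (1 - ‖q.2.1 - x‖ ^ 2 / q.1 ^ 2) 0 * ‖q.2.1 - x‖ ^ 2 / q.1 ^ 2))
      (Icc a b ×ˢ univ) := by
    have h1 : ∀ q ∈ Icc a b ×ˢ (univ : Set (R d × S d)), q.1 ^ (d + 1) ≠ 0 := fun q hq =>
      pow_ne_zero _ (ha.trans_le hq.1.1).ne'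
    have h2 : ∀ q ∈ Icc a b ×ˢ (univ : Set (R d × S d)), q.1 ^ 2 ≠ 0 := fun q hq =>
      pow_ne_zero _ (ha.trans_le hq.1.1).ne'
    have h3 : ContinuousOn (fun q : ℝ × (R d × S d) => max (1 - ‖q.2.1 - x‖ ^ 2 / q.1 ^ 2) 0)
        (Icc a b ×ˢ univ) :=
      ContinuousOn.sup (continuousOn_const.sub (ContinuousOn.div (by fun_prop) (by fun_prop) h2))
        continuousOn_const
    have h4 : ContinuousOn (fun q : ℝ × (R d × S d) => h q.2.1) (Icc a b ×ˢ univ) := by fun_prop
    refine (ContinuousOn.inv₀ (by fun_prop) h1).mul (ContinuousOn.add ?_ ?_)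
    · exact continuousOn_const.mul (h4.mul (h3.pow 2))
    · exact ContinuousOn.div (((continuousOn_const.mul h4).mul h3).mul (by fun_prop)) (by fun_prop) h2
  have hT := integral_transport (W := W) hK hW hab
    (g := fun t p => (t ^ d)⁻¹ * (h p.1 * (max (1 - ‖p.1 - x‖ ^ 2 / t ^ 2) 0) ^ 2))
    (g' := fun s p => (s ^ (d + 1))⁻¹ *
      (-(d : ℝ) * (h p.1 * (max (1 - ‖p.1 - x‖ ^ 2 / s ^ 2) 0) ^ 2) +
        4 * h p.1 * max (1 - ‖p.1 - x‖ ^ 2 / s ^ 2) 0 * ‖p.1 - x‖ ^ 2 / s ^ 2))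
    (fun s hs p => D5_deriv d (h p.1) (‖p.1 - x‖ ^ 2) (ha.trans_le hs.1)) hc
    (by fun_prop) (by fun_prop) (fun s hs p hp => by
      simp only [D5_max_zero (ha.trans_le hs.1) hs.2 hp, ne_eq, OfNat.ofNat_ne_zero, not_false_eq_true, zero_pow, mul_zero, zero_mul, zero_div, add_zero, and_self])
  have hmeas : ∀ s : ℝ, Measurable fun y : R d => h y * (max (1 - ‖y - x‖ ^ 2 / s ^ 2) 0) ^ 2 :=
    fun s => (hhc.mul (D5_contDiff x s).continuous).measurable
  rw [integral_fst_eq W (hmeas b), integral_fst_eq W (hmeas a), ← integral_const_mul,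
    ← integral_const_mul, hT]
  refine intervalIntegral.integral_congr fun s hsI => ?_
  rw [uIcc_of_le hab] at hsI
  have hs0 : 0 < s := ha.trans_le hsI.1
  have hX : C1c (fun y => (h y * (max (1 - ‖y - x‖ ^ 2 / s ^ 2) 0) ^ 2) • (y - x)) O :=
    c1c_of_vanish ((hh.mul (D5_contDiff x s)).smul (contDiff_id.sub contDiff_const)) hK hb
      fun y hy => by simp only [D5_max_zero hs0 hsI.2 hy, ne_eq, OfNat.ofNat_ne_zero, not_false_eq_true, zero_pow, mul_zero, zero_smul]
  have hi1 : Integrable (fun p : R d × S d => (s ^ (d + 1))⁻¹ *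
      (-(d : ℝ) * (h p.1 * (max (1 - ‖p.1 - x‖ ^ 2 / s ^ 2) 0) ^ 2) +
        4 * h p.1 * max (1 - ‖p.1 - x‖ ^ 2 / s ^ 2) 0 * ‖p.1 - x‖ ^ 2 / s ^ 2)) W :=
    integrable_vf hK hW (D5_cont_right (g := fun s p => (s ^ (d + 1))⁻¹ *
      (-(d : ℝ) * (h p.1 * (max (1 - ‖p.1 - x‖ ^ 2 / s ^ 2) 0) ^ 2) +
        4 * h p.1 * max (1 - ‖p.1 - x‖ ^ 2 / s ^ 2) 0 * ‖p.1 - x‖ ^ 2 / s ^ 2)) hc hsI)
      fun p hp => by simp only [D5_max_zero hs0 hsI.2 hp, ne_eq, OfNat.ofNat_ne_zero, not_false_eq_true, zero_pow, mul_zero, zero_mul, zero_div, add_zero]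
  have hi2 := (hs.integrable hX).const_mul (s ^ (d + 1))⁻¹
  have hz : ∫ p, (s ^ (d + 1))⁻¹ *
      divT (fun y => (h y * (max (1 - ‖y - x‖ ^ 2 / s ^ 2) 0) ^ 2) • (y - x)) p ∂W = 0 := by
    rw [integral_const_mul, hs.2 _ hX, mul_zero]
  have hsum := integral_add hi1 hi2
  rw [hz, add_zero] at hsum
  rw [← hsum]
  refine integral_congr_ae (Eventually.of_forall fun p => ?_)
  simp only
  rw [D5_div x s hh p]
  ring

end D5

section D6

/-- the integrand of the unweighted monotonicity formula -/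
noncomputable def D6_g (x : R d) (s : ℝ) (p : R d × S d) : ℝ :=
  (s ^ (d + 1))⁻¹ *
    (4 * max (1 - ‖p.1 - x‖ ^ 2 / s ^ 2) 0 * ⟪p.1 - x, (p.2 : R d)⟫_ℝ ^ 2 / s ^ 2)

theorem D6_formula {W : Vf d} {O : Set (R d)} (h : Stat W O) {x : R d} {a b : ℝ}
    (ha : 0 < a) (hab : a ≤ b) (hb : closedBall x b ⊆ O) :
    theta W x b - theta W x a = ∫ s in a..b, ∫ p, D6_g x s p ∂W := by
  have hm := mono_formula h ha hab hb (h := fun _ => (1 : ℝ)) contDiff_const
  simp only [one_mul, mul_one, fderiv_fun_const, Pi.zero_apply, zero_apply,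
    mul_zero, add_zero] at hm
  exact hm

theorem D6_g_nonneg (x : R d) {s : ℝ} (hs : 0 ≤ s) (p : R d × S d) : 0 ≤ D6_g x s p := by
  unfold D6_g
  have h1 : 0 ≤ max (1 - ‖p.1 - x‖ ^ 2 / s ^ 2) 0 := le_max_right _ _
  positivity

theorem D6_g_contOn (x : R d) {a b : ℝ} (ha : 0 < a) :
    ContinuousOn (fun q : ℝ × (R d × S d) => D6_g x q.1 q.2) (Icc a b ×ˢ univ) := by
  unfold D6_g
  have hne : ∀ q ∈ (Icc a b ×ˢ (univ : Set (R d × S d))), q.1 ≠ 0 := fun q hq =>
    (lt_of_lt_of_le ha hq.1.1).ne'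
  refine ContinuousOn.mul ?_ ?_
  · exact ContinuousOn.inv₀ (by fun_prop) fun q hq => pow_ne_zero _ (hne q hq)
  · refine ContinuousOn.div ?_ (by fun_prop) fun q hq => pow_ne_zero _ (hne q hq)
    refine ContinuousOn.mul (ContinuousOn.mul continuousOn_const ?_) ?_
    · refine ContinuousOn.sup ?_ continuousOn_const
      refine ContinuousOn.sub continuousOn_const ?_
      exact ContinuousOn.div (by fun_prop) (by fun_prop) fun q hq => pow_ne_zero _ (hne q hq)
    · refine ContinuousOn.pow ?_ 2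
      refine Continuous.continuousOn ?_
      exact Continuous.inner (by fun_prop) (by fun_prop)

theorem D6_g_zero (x : R d) {s b : ℝ} (hs : 0 < s) (hsb : s ≤ b) (p : R d × S d)
    (hp : p.1 ∉ closedBall x b) : D6_g x s p = 0 := by
  unfold D6_g
  rw [mem_closedBall, dist_eq_norm, not_le] at hp
  have h1 : 1 ≤ ‖p.1 - x‖ ^ 2 / s ^ 2 := by
    rw [le_div_iff₀ (by positivity), one_mul]
    exact pow_le_pow_left₀ hs.le (hsb.trans hp.le) 2
  rw [max_eq_right (by linarith)]
  simp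

theorem theta_mono {W : Vf d} {O : Set (R d)} (hd : 1 ≤ d) (h : Stat W O) {x : R d} {a b : ℝ}
    (ha : 0 < a) (hab : a ≤ b) (hb : closedBall x b ⊆ O) : theta W x a ≤ theta W x b := by
  have hf := D6_formula h ha hab hb
  have h0 : 0 ≤ ∫ s in a..b, ∫ p, D6_g x s p ∂W :=
    intervalIntegral.integral_nonneg hab fun s hs =>
      integral_nonneg fun p => D6_g_nonneg x (ha.le.trans hs.1) p
  linarith only [hf, h0]

theorem theta_rigid {W : Vf d} {O : Set (R d)} (hd : 1 ≤ d) (h : Stat W O) {x : R d} {a b : ℝ}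
    (ha : 0 < a) (hab : a < b) (hb : closedBall x b ⊆ O) (he : theta W x b ≤ theta W x a) :
    ∀ᵐ p ∂W, p.1 ∈ ball x b → ⟪p.1 - x, (p.2 : R d)⟫_ℝ = 0 := by
  have hf := D6_formula h ha hab.le hb
  have hK : IsCompact (closedBall x b) := isCompact_closedBall x b
  have hW : W.fst (closedBall x b) < ⊤ := h.1 _ hK hb
  have hb0 : 0 < b := ha.trans hab
  have hc : ContinuousOn (fun s => ∫ p, D6_g x s p ∂W) (Icc a b) :=
    continuousOn_integral_vf hK hW (D6_g_contOn x ha) fun s hs p hp =>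
      D6_g_zero x (lt_of_lt_of_le ha hs.1) hs.2 p hp
  have hFb : ∫ p, D6_g x b p ∂W = 0 := by
    by_contra hne
    have hpos : 0 < ∫ p, D6_g x b p ∂W :=
      lt_of_le_of_ne (integral_nonneg fun p => D6_g_nonneg x hb0.le p) (Ne.symm hne)
    have hlt := intervalIntegral.integral_lt_integral_of_continuousOn_of_le_of_exists_lt
      (f := fun _ => (0 : ℝ)) (g := fun s => ∫ p, D6_g x s p ∂W) hab continuousOn_const hc
      (fun s hs => integral_nonneg fun p => D6_g_nonneg x (ha.le.trans hs.1.le) p)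
      ⟨b, right_mem_Icc.2 hab.le, hpos⟩
    simp only [intervalIntegral.integral_zero] at hlt
    linarith only [he, hf, hlt]
  have hcb : Continuous (D6_g x b) := by
    have h1 := (D6_g_contOn (d := d) x (b := b) ha).comp_continuous
      (f := fun p : R d × S d => (b, p)) (by fun_prop)
      (fun p => ⟨right_mem_Icc.2 hab.le, mem_univ _⟩)
    exact h1
  have hi : Integrable (D6_g x b) W :=
    integrable_vf hK hW hcb fun p hp => D6_g_zero x hb0 le_rfl p hp
  have hz := (integral_eq_zero_iff_of_nonneg (fun p => D6_g_nonneg x hb0.le p) hi).1 hFb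
  filter_upwards [hz] with p hp hpb
  rw [mem_ball, dist_eq_norm] at hpb
  have h1 : ‖p.1 - x‖ ^ 2 / b ^ 2 < 1 := by
    rw [div_lt_one (by positivity)]
    exact pow_lt_pow_left₀ hpb (norm_nonneg _) two_ne_zero
  have h2 : 0 < max (1 - ‖p.1 - x‖ ^ 2 / b ^ 2) 0 := lt_max_of_lt_left (by linarith only [h1])
  have h3 : D6_g x b p = 0 := hp
  unfold D6_g at h3
  have h4 : (b ^ (d + 1))⁻¹ ≠ 0 := by positivity
  have h5 : (b ^ 2) ≠ 0 := by positivity
  have h6 := (mul_eq_zero.1 h3).resolve_left h4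
  rw [div_eq_zero_iff] at h6
  have h7 := h6.resolve_right h5
  have h8 := (mul_eq_zero.1 h7).resolve_left (by positivity)
  exact pow_eq_zero_iff two_ne_zero |>.1 h8

end D6

section D7

theorem D7_cont {n : ℕ} (x : E n) (r : ℝ) :
    Continuous fun y : E n => (max (1 - ‖y - x‖ ^ 2 / r ^ 2) 0) ^ 2 := by fun_prop

theorem D7_zero {n : ℕ} {x y : E n} {r : ℝ} (hr : 0 < r) (h : y ∉ ball x r) :
    (max (1 - ‖y - x‖ ^ 2 / r ^ 2) 0) ^ 2 = 0 := by
  rw [mem_ball_iff_norm, not_lt] at h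
  rw [max_eq_right, zero_pow two_ne_zero]
  exact sub_nonpos.2 ((one_le_div (by positivity)).2 (pow_le_pow_left₀ hr.le h 2))

theorem D7_le {n : ℕ} (x y : E n) (r : ℝ) : (max (1 - ‖y - x‖ ^ 2 / r ^ 2) 0) ^ 2 ≤ 1 :=
  pow_le_one₀ (le_max_right _ _) (max_le (sub_le_self _ (by positivity)) zero_le_one)

theorem D7_ge {n : ℕ} {x y : E n} {r : ℝ} (hr : 0 < r) (h : y ∈ closedBall x r) :
    1 / 2 ≤ (max (1 - ‖y - x‖ ^ 2 / (2 * r) ^ 2) 0) ^ 2 := by
  rw [mem_closedBall_iff_norm] at h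
  have h1 : ‖y - x‖ ^ 2 / (2 * r) ^ 2 ≤ 1 / 4 := by
    rw [div_le_iff₀ (by positivity)]
    nlinarith [norm_nonneg (y - x)]
  have h2 : 3 / 4 ≤ max (1 - ‖y - x‖ ^ 2 / (2 * r) ^ 2) 0 := le_max_of_le_left (by linarith only [h1])
  nlinarith only [h2]

theorem D7_pt {ζ : R d → ℝ} (hζ : ContDiff ℝ 1 ζ) {e : R d} (he : ‖e‖ = 1) (c : ℝ)
    (p : R d × S d) : 0 ≤ 1 - ⟪e, (p.2 : R d)⟫_ℝ ^ 2 ∧
      ζ p.1 ^ 2 * (1 - ⟪e, (p.2 : R d)⟫_ℝ ^ 2) ≤
        2 * divT (fun y => (ζ y ^ 2 * (⟪e, y⟫_ℝ - c)) • e) p +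
          4 * ((⟪e, p.1⟫_ℝ - c) ^ 2 * ‖gradient ζ p.1‖ ^ 2) := by
  have h1 := (hζ.differentiable one_ne_zero p.1).hasFDerivAt
  have h2 : HasFDerivAt (fun y : R d => ⟪e, y⟫_ℝ - c) (innerSL ℝ e) p.1 :=
    (innerSL ℝ e).hasFDerivAt.sub_const c
  have h3 : HasFDerivAt (fun y => ζ y ^ 2 * (⟪e, y⟫_ℝ - c)) _ p.1 := (h1.pow 2).mul h2
  have hν : ‖(p.2 : R d)‖ = 1 := norm_eq_of_mem_sphere p.2
  rw [divT_smul h3.differentiableAt (differentiableAt_const e), divT_const, h3.fderiv,
    real_inner_comm e]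
  set t := e - ⟪e, (p.2 : R d)⟫_ℝ • (p.2 : R d) with ht
  have h4 : ⟪e, t⟫_ℝ = 1 - ⟪e, (p.2 : R d)⟫_ℝ ^ 2 := by
    rw [ht, inner_sub_right, inner_smul_right, real_inner_self_eq_norm_sq, he]
    ring
  have h5 : ‖t‖ ^ 2 = 1 - ⟪e, (p.2 : R d)⟫_ℝ ^ 2 := by
    rw [ht, norm_sub_sq_real, inner_smul_right, norm_smul, he, hν, mul_one, Real.norm_eq_abs,
      sq_abs]
    ring
  have h6 : |fderiv ℝ ζ p.1 t| ≤ ‖gradient ζ p.1‖ * ‖t‖ := by
    rw [gradient, LinearIsometryEquiv.norm_map]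
    exact (fderiv ℝ ζ p.1).le_opNorm t
  have h7 := mul_le_mul_of_nonneg_left h6
    (mul_nonneg (abs_nonneg (ζ p.1)) (abs_nonneg (⟪e, p.1⟫_ℝ - c)))
  rw [← abs_mul, ← abs_mul, abs_mul (ζ p.1)] at h7
  simp only [_root_.add_apply, _root_.smul_apply, innerSL_apply_apply,
    smul_eq_mul, nsmul_eq_mul, h4]
  rw [← h5]
  refine ⟨sq_nonneg _, ?_⟩
  have h8 := sq_nonneg (|ζ p.1| * ‖t‖ - 2 * |⟪e, p.1⟫_ℝ - c| * ‖gradient ζ p.1‖)
  rw [sub_sq, mul_pow, mul_pow, mul_pow, sq_abs, sq_abs] at h8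
  norm_num only [mul_zero, pow_one, zero_add, ge_iff_le]
  linarith only [neg_abs_le (ζ p.1 * (⟪e, p.1⟫_ℝ - c) * fderiv ℝ ζ p.1 t), h7, h8]

theorem cd_pos (d : ℕ) : 0 < cd d := by
  refine Continuous.integral_pos_of_hasCompactSupport_nonneg_nonzero (x := 0) (by fun_prop)
    (HasCompactSupport.intro (isCompact_closedBall 0 1) fun y hy => ?_) (fun _ => sq_nonneg _)
    (by simp)
  simpa only [ne_eq, OfNat.ofNat_ne_zero, not_false_eq_true, pow_eq_zero_iff, sup_eq_right, tsub_le_iff_right, zero_add, one_le_sq_iff_one_le_abs, abs_norm, sub_zero, one_pow, div_one] using D7_zero one_pos fun h => hy (ball_subset_closedBall h)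

theorem theta_nonneg (W : Vf d) (x : R d) {r : ℝ} (hr : 0 < r) : 0 ≤ theta W x r :=
  mul_nonneg (by positivity) (integral_nonneg fun _ => sq_nonneg _)

theorem theta_le {W : Vf d} {x : R d} {r Λ : ℝ} (hr : 0 < r) (hΛ : 0 ≤ Λ)
    (h : W.fst (ball x r) ≤ ENNReal.ofReal (Λ * r ^ d)) : theta W x r ≤ Λ := by
  rw [theta, inv_mul_le_iff₀ (by positivity), mul_comm]
  refine le_trans ?_ (ENNReal.toReal_le_of_le_ofReal (by positivity) h)
  rw [← measureReal_def, ← integral_indicator_one measurableSet_ball]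
  refine integral_mono_of_nonneg (.of_forall fun _ => sq_nonneg _)
    ((integrable_indicator_iff measurableSet_ball).2
      (integrableOn_const (h.trans_lt ENNReal.ofReal_lt_top).ne)) (.of_forall fun y => ?_)
  by_cases c : y ∈ ball x r
  · rw [indicator_of_mem c]
    exact D7_le x y r
  · rw [indicator_of_notMem c]
    exact (D7_zero hr c).le

theorem le_theta {W : Vf d} {x : R d} {r : ℝ} (hr : 0 < r) (h : W.fst (closedBall x (2 * r)) < ⊤) :
    W.fst (closedBall x r) ≤ ENNReal.ofReal (2 ^ (d + 1) * theta W x (2 * r) * r ^ d) := by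
  have h1 : W.fst (closedBall x r) ≠ ⊤ :=
    ((measure_mono (closedBall_subset_closedBall (by linarith))).trans_lt h).ne
  have h2 : ∫ y, (closedBall x r).indicator (fun _ => (1 / 2 : ℝ)) y ∂W.fst ≤
      ∫ y, (max (1 - ‖y - x‖ ^ 2 / (2 * r) ^ 2) 0) ^ 2 ∂W.fst := by
    refine integral_mono_of_nonneg
      (.of_forall fun y => indicator_nonneg (fun _ _ => by norm_num) y)
      (integrable_cpt (isCompact_closedBall x _) h (D7_cont x _) fun y hy =>
        D7_zero (by positivity) fun c => hy (ball_subset_closedBall c)) (.of_forall fun y => ?_)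
    by_cases c : y ∈ closedBall x r
    · rw [indicator_of_mem c]
      exact D7_ge hr c
    · rw [indicator_of_notMem c]
      exact sq_nonneg _
  rw [integral_indicator_const _ measurableSet_closedBall, measureReal_def, smul_eq_mul] at h2
  rw [← ENNReal.ofReal_toReal h1]
  refine ENNReal.ofReal_le_ofReal ?_
  have h3 : ∀ J : ℝ, 2 ^ (d + 1) * (((2 * r) ^ d)⁻¹ * J) * r ^ d = 2 * J := fun J => by
    rw [mul_pow, pow_succ]
    field_simp
  rw [theta, h3]
  linarith only [h2]

theorem VConv.theta {ι : Type} {l : Filter ι} {V : ι → Vf d} {W : Vf d} {O : Set (R d)}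
    (h : VConv l V W O) {x : R d} {r : ℝ} (hr : 0 < r) (hb : closedBall x r ⊆ O) :
    Tendsto (fun i => theta (V i) x r) l (𝓝 (theta W x r)) := by
  simp only [Pool.Agent.MP_5cfeaf_gt.W.theta, integral_fst_eq _ (D7_cont x r).measurable]
  exact (h _ ((D7_cont x r).comp continuous_fst) ⟨_, isCompact_closedBall x r, hb, fun p hp =>
    D7_zero hr fun c => hp (ball_subset_closedBall c)⟩).const_mul _

/-- height controls tilt -/
theorem tilt_le_height {W : Vf d} {O : Set (R d)} (h : Stat W O) {ζ : R d → ℝ} (hζ : C1c ζ O)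
    {e : R d} (he : ‖e‖ = 1) (c : ℝ) :
    ∫ p, ζ p.1 ^ 2 * (1 - ⟪e, (p.2 : R d)⟫_ℝ ^ 2) ∂W ≤
      4 * ∫ x, (⟪e, x⟫_ℝ - c) ^ 2 * ‖gradient ζ x‖ ^ 2 ∂W.fst := by
  have hX : C1c (fun y => (ζ y ^ 2 * (⟪e, y⟫_ℝ - c)) • e) O :=
    c1c_of_vanish (((hζ.1.pow 2).mul ((innerSL ℝ e).contDiff.sub contDiff_const)).smul
      contDiff_const) hζ.2.1 hζ.2.2 fun y hy => by simp [image_eq_zero_of_notMem_tsupport hy]
  have hg : Continuous (gradient ζ) :=
    (InnerProductSpace.toDual ℝ (R d)).symm.continuous.comp (hζ.1.continuous_fderiv one_ne_zero)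
  have hG : Continuous fun x : R d => (⟪e, x⟫_ℝ - c) ^ 2 * ‖gradient ζ x‖ ^ 2 := by fun_prop
  have hI : Integrable (fun p : R d × S d => (⟪e, p.1⟫_ℝ - c) ^ 2 * ‖gradient ζ p.1‖ ^ 2) W :=
    integrable_vf hζ.2.1 (h.1 _ hζ.2.1 hζ.2.2) (hG.comp continuous_fst) fun p hp => by
      simp [gradient, fderiv_of_notMem_tsupport ℝ hp]
  refine (integral_mono_of_nonneg (.of_forall fun p => mul_nonneg (sq_nonneg _)
    (D7_pt hζ.1 he c p).1) (((h.integrable hX).const_mul 2).add (hI.const_mul 4))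
    (.of_forall fun p => (D7_pt hζ.1 he c p).2)).trans_eq ?_
  simp only [Pi.add_apply]
  rw [integral_add ((h.integrable hX).const_mul 2) (hI.const_mul 4), integral_const_mul,
    integral_const_mul, h.2 _ hX, mul_zero, zero_add, integral_fst_eq _ hG.measurable]

end D7

section D8

theorem D8_dil_integral {W : Vf d} {O : Set (R d)} (h : Stat W O) (hc : Con W O ⊥)
    {g : R d → ℝ} (hg : ContDiff ℝ 1 g) (hk : HasCompactSupport g) {t : ℝ} (ht : 1 ≤ t)
    (hs : ∀ s ∈ Icc 1 t, ∀ y ∈ tsupport g, s⁻¹ • y ∈ O) :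
    t ^ d * ∫ x, g (t • x) ∂W.fst = ∫ x, g x ∂W.fst := by
  set K : Set (R d) := (fun q : ℝ × R d => q.1⁻¹ • q.2) '' (Icc 1 t ×ˢ tsupport g) with hK
  have hKc : IsCompact K := by
    refine (isCompact_Icc.prod hk).image_of_continuousOn ?_
    refine ContinuousOn.smul (ContinuousOn.inv₀ continuousOn_fst ?_) continuousOn_snd
    intro q hq
    have := hq.1.1
    exact ne_of_gt (by linarith)
  have hKO : K ⊆ O := by
    rintro _ ⟨q, hq, rfl⟩
    exact hs q.1 hq.1 q.2 hq.2
  have hout : ∀ s ∈ Icc (1 : ℝ) t, ∀ x : R d, x ∉ K → s • x ∉ tsupport g := by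
    intro s hs' x hx hm
    refine hx ⟨(s, s • x), ⟨hs', hm⟩, ?_⟩
    have : s ≠ 0 := ne_of_gt (by linarith only [hs'.1])
    simp [smul_smul, inv_mul_cancel₀ this]
  have hgd : Differentiable ℝ g := hg.differentiable (by simp)
  have hgc : Continuous g := hg.continuous
  have hfc : Continuous (fderiv ℝ g) := hg.continuous_fderiv (by simp)
  have key := integral_transport (W := W) hKc (h.1 K hKc hKO) ht
    (g := fun s p => s ^ d * g (s • p.1))
    (g' := fun s p => (d : ℝ) * s ^ (d - 1) * g (s • p.1) + s ^ d * fderiv ℝ g (s • p.1) p.1)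
    (by
      intro s _ p
      have h1 : HasDerivAt (fun u : ℝ => u • p.1) p.1 s := by
        simpa using (hasDerivAt_id s).smul_const p.1
      have h2 : HasDerivAt (fun u : ℝ => g (u • p.1)) (fderiv ℝ g (s • p.1) p.1) s :=
        (hgd (s • p.1)).hasFDerivAt.comp_hasDerivAt s h1
      exact (hasDerivAt_pow d s).mul h2)
    (by
      refine Continuous.continuousOn ?_
      have h1 : Continuous fun q : ℝ × (R d × S d) => q.1 • q.2.1 := by fun_prop
      have h2 : Continuous fun q : ℝ × (R d × S d) => fderiv ℝ g (q.1 • q.2.1) q.2.1 :=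
        (hfc.comp h1).clm_apply (by fun_prop)
      have h3 : Continuous fun q : ℝ × (R d × S d) => g (q.1 • q.2.1) := hgc.comp h1
      exact ((continuous_const.mul (continuous_fst.pow _)).mul h3).add ((continuous_fst.pow _).mul h2))
    (continuous_const.mul (hgc.comp (by fun_prop)))
    (continuous_const.mul (hgc.comp (by fun_prop)))
    (by
      intro s hs' p hp
      have h1 := hout s hs' p.1 hp
      have h2 : g (s • p.1) = 0 := image_eq_zero_of_notMem_tsupport h1
      have h3 : fderiv ℝ g (s • p.1) = 0 := by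
        by_contra h4
        exact h1 (support_fderiv_subset ℝ h4)
      simp [h2, h3])
  have hz : ∀ s ∈ Icc (1 : ℝ) t, ∫ p, ((d : ℝ) * s ^ (d - 1) * g (s • p.1) +
      s ^ d * fderiv ℝ g (s • p.1) p.1) ∂W = 0 := by
    intro s hs'
    have hs0 : s ≠ 0 := ne_of_gt (by linarith only [hs'.1])
    have hf1 : ContDiff ℝ 1 fun y : R d => g (s • y) := hg.comp (contDiff_id.const_smul s)
    have hX : C1c (fun y : R d => g (s • y) • (y - 0)) O := by
      refine c1c_of_vanish (hf1.smul (contDiff_id.sub contDiff_const)) hKc hKO ?_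
      intro x hx
      have h2 : g (s • x) = 0 := image_eq_zero_of_notMem_tsupport (hout s hs' x hx)
      simp [h2]
    have h0 := h.2 _ hX
    have h5 : ∫ p, (s ^ d * s⁻¹) * divT (fun y : R d => g (s • y) • (y - 0)) p ∂W = 0 := by
      rw [integral_const_mul, h0, mul_zero]
    rw [← h5]
    refine integral_congr_ae ?_
    filter_upwards [hc] with p hp
    have hdv : fderiv ℝ (fun y : R d => g (s • y)) p.1 =
        (fderiv ℝ g (s • p.1)).comp (s • ContinuousLinearMap.id ℝ (R d)) := by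
      have h1 : HasFDerivAt (fun y : R d => s • y) (s • ContinuousLinearMap.id ℝ (R d)) p.1 :=
        (hasFDerivAt_id p.1).const_smul s
      exact ((hgd (s • p.1)).hasFDerivAt.comp p.1 h1).fderiv
    rw [divT_smul (f := fun y : R d => g (s • y)) (Y := fun y : R d => y - 0)
      (hf1.differentiable (by simp) _) (differentiableAt_id.sub_const _), divT_sub_const, hdv]
    by_cases hpO : p.1 ∈ O
    · have h6 : ⟪(p.2 : R d), p.1⟫_ℝ = 0 := by rw [real_inner_comm]; exact (hp hpO).1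
      have h7 : (d : ℝ) * s ^ (d - 1) = s ^ d * s⁻¹ * d := by
        rcases Nat.eq_zero_or_pos d with h8 | h8
        · simp [h8]
        · obtain ⟨m, hm⟩ : ∃ m, d = m + 1 := ⟨d - 1, by omega⟩
          have h9 : s ^ d = s ^ (d - 1) * s := by
            conv_lhs => rw [hm, pow_succ]
            simp [hm]
          rw [h9]; field_simp
      simp only [sub_zero, h6, zero_smul, ContinuousLinearMap.comp_apply,
        smul_apply, ContinuousLinearMap.id_apply, map_smul, smul_eq_mul]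
      rw [h7]; field_simp
    · have h1 := hout s hs' p.1 (fun hh => hpO (hKO hh))
      have h2 : g (s • p.1) = 0 := image_eq_zero_of_notMem_tsupport h1
      have h3 : fderiv ℝ g (s • p.1) = 0 := by
        by_contra h4
        exact h1 (support_fderiv_subset ℝ h4)
      simp [h2, h3]
  have hz' : ∫ s in (1 : ℝ)..t, ∫ p, ((d : ℝ) * s ^ (d - 1) * g (s • p.1) +
      s ^ d * fderiv ℝ g (s • p.1) p.1) ∂W = 0 := by
    rw [← intervalIntegral.integral_zero (a := 1) (b := t) (μ := volume) (E := ℝ)]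
    refine intervalIntegral.integral_congr ?_
    intro s hs'
    rw [uIcc_of_le ht] at hs'
    exact hz s hs'
  rw [hz', sub_eq_zero, integral_const_mul] at key
  have hm : Measurable fun x : R d => g (t • x) := (hgc.comp (by fun_prop)).measurable
  rw [integral_fst_eq W hm, integral_fst_eq W hgc.measurable, key]
  simp

theorem D8_transl_integral {W : Vf d} {L : Submodule ℝ (R d)} (h : Stat W univ) (hc : Con W univ L)
    {z : R d} (hz : z ∈ L) {g : R d → ℝ} (hg : ContDiff ℝ 1 g) (hk : HasCompactSupport g) :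
    ∫ x, g (x + z) ∂W.fst = ∫ x, g x ∂W.fst := by
  set K : Set (R d) := (fun q : ℝ × R d => q.2 - q.1 • z) '' (Icc 0 1 ×ˢ tsupport g) with hK
  have hKc : IsCompact K := (isCompact_Icc.prod hk).image (by fun_prop)
  have hout : ∀ s ∈ Icc (0 : ℝ) 1, ∀ x : R d, x ∉ K → x + s • z ∉ tsupport g := by
    intro s hs' x hx hm
    exact hx ⟨(s, x + s • z), ⟨hs', hm⟩, by simp⟩
  have hgd : Differentiable ℝ g := hg.differentiable (by simp)
  have hgc : Continuous g := hg.continuous
  have hfc : Continuous (fderiv ℝ g) := hg.continuous_fderiv (by simp)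
  have key := integral_transport (W := W) hKc (h.1 K hKc (subset_univ _)) zero_le_one
    (g := fun s p => g (p.1 + s • z))
    (g' := fun s p => fderiv ℝ g (p.1 + s • z) z)
    (by
      intro s _ p
      have h1 : HasDerivAt (fun u : ℝ => p.1 + u • z) z s := by
        simpa using ((hasDerivAt_id s).smul_const z).const_add p.1
      exact (hgd (p.1 + s • z)).hasFDerivAt.comp_hasDerivAt s h1)
    (by
      refine Continuous.continuousOn ?_
      have h1 : Continuous fun q : ℝ × (R d × S d) => q.2.1 + q.1 • z := by fun_prop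
      exact (hfc.comp h1).clm_apply continuous_const)
    (hgc.comp (by fun_prop)) (hgc.comp (by fun_prop))
    (by
      intro s hs' p hp
      have h1 := hout s hs' p.1 hp
      have h2 : g (p.1 + s • z) = 0 := image_eq_zero_of_notMem_tsupport h1
      have h3 : fderiv ℝ g (p.1 + s • z) = 0 := by
        by_contra h4
        exact h1 (support_fderiv_subset ℝ h4)
      simp [h2, h3])
  have hz0 : ∀ s ∈ Icc (0 : ℝ) 1, ∫ p, fderiv ℝ g (p.1 + s • z) z ∂W = 0 := by
    intro s hs'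
    have hf1 : ContDiff ℝ 1 fun y : R d => g (y + s • z) := hg.comp (contDiff_id.add contDiff_const)
    have hX : C1c (fun y : R d => g (y + s • z) • z) univ := by
      refine c1c_of_vanish (hf1.smul contDiff_const) hKc (subset_univ _) ?_
      intro x hx
      have h2 : g (x + s • z) = 0 := image_eq_zero_of_notMem_tsupport (hout s hs' x hx)
      simp [h2]
    rw [← h.2 _ hX]
    refine integral_congr_ae ?_
    filter_upwards [hc] with p hp
    have hdv : fderiv ℝ (fun y : R d => g (y + s • z)) p.1 = fderiv ℝ g (p.1 + s • z) := by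
      have h1 : HasFDerivAt (fun y : R d => y + s • z) (ContinuousLinearMap.id ℝ (R d)) p.1 :=
        (hasFDerivAt_id p.1).add_const _
      have h2 := ((hgd (p.1 + s • z)).hasFDerivAt.comp p.1 h1).fderiv
      rw [ContinuousLinearMap.comp_id] at h2
      exact h2
    rw [divT_smul (f := fun y : R d => g (y + s • z)) (Y := fun _ : R d => z)
      (hf1.differentiable (by simp) _) (differentiableAt_const _), divT_const, hdv]
    have h6 : ⟪(p.2 : R d), z⟫_ℝ = 0 := by
      rw [real_inner_comm]; exact (hp (mem_univ _)).2 z hz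
    simp [h6]
  have hz' : ∫ s in (0 : ℝ)..(1 : ℝ), (∫ p, fderiv ℝ g (p.1 + s • z) z ∂W : ℝ) = (0 : ℝ) := by
    refine Eq.trans (intervalIntegral.integral_congr (g := fun _ => (0 : ℝ)) ?_)
      intervalIntegral.integral_zero
    intro s hs'
    rw [uIcc_of_le zero_le_one] at hs'
    exact hz0 s hs'
  rw [hz', sub_eq_zero] at key
  have hm : Measurable fun x : R d => g (x + z) := (hgc.comp (by fun_prop)).measurable
  rw [integral_fst_eq W hm, integral_fst_eq W hgc.measurable]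
  simpa only [one_smul, zero_smul, add_zero] using key

theorem D8_tube {O : Set (R d)} (hO : IsOpen O) {x : R d} {t : ℝ} (hs : ∀ s ∈ Icc 1 t, s • x ∈ O) :
    ∃ A : Set (R d), IsOpen A ∧ x ∈ A ∧ ∀ s ∈ Icc 1 t, ∀ y ∈ A, s • y ∈ O := by
  have hn : IsOpen {q : ℝ × R d | q.1 • q.2 ∈ O} := hO.preimage (by fun_prop)
  obtain ⟨u, v, _, hv, hu', hv', huv⟩ := generalized_tube_lemma (isCompact_Icc (a := (1 : ℝ)) (b := t))
    (isCompact_singleton (x := x)) hn (by
      rintro ⟨s, y⟩ ⟨h1, h2⟩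
      have : y = x := h2
      subst this
      exact hs s h1)
  exact ⟨v, hv, hv' rfl, fun s h1 y h2 => huv (mk_mem_prod (hu' h1) h2)⟩

/-- dilation invariance of the weight of a conical stationary varifold -/
theorem cone_dil {W : Vf d} {O : Set (R d)} (hO : IsOpen O) (h : Stat W O) (hc : Con W O ⊥)
    {A : Set (R d)} (hA : IsOpen A) {t : ℝ} (ht : 1 ≤ t) (hs : ∀ s ∈ Icc 1 t, ∀ x ∈ A, s • x ∈ O) :
    (W.fst.restrict A).map (fun x => t • x) =
      ENNReal.ofReal ((t ^ d)⁻¹) • W.fst.restrict ((fun x => t • x) '' A) := by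
  have ht0 : t ≠ 0 := ne_of_gt (by linarith)
  have hinj : Function.Injective fun x : R d => t • x := smul_right_injective _ ht0
  have hU : IsOpen ((fun x : R d => t • x) '' A) := isOpenMap_smul₀ ht0 A hA
  have hme : Measurable fun x : R d => t • x := by fun_prop
  have hpre : (fun x : R d => t • x) ⁻¹' ((fun x => t • x) '' A) = A := preimage_image_eq A hinj
  have hUO : (fun x : R d => t • x) '' A ⊆ O := by
    rintro _ ⟨x, hx, rfl⟩
    exact hs t ⟨ht, le_rfl⟩ x hx
  have hAO : A ⊆ O := fun x hx => by simpa using hs 1 ⟨le_rfl, ht⟩ x hx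
  have key := restrict_eq_of_integral (μ := (W.fst.restrict A).map (fun x => t • x))
    (ν := ENNReal.ofReal ((t ^ d)⁻¹) • W.fst) hU
    (by
      intro K hK hKU
      rw [Measure.map_apply hme hK.measurableSet]
      have h1 : IsCompact ((fun x : R d => t • x) ⁻¹' K) :=
        (Homeomorph.smulOfNeZero t ht0).isCompact_preimage.2 hK
      refine lt_of_le_of_lt (Measure.restrict_le_self _) (h.1 _ h1 ?_)
      refine Subset.trans ?_ hAO
      rw [← hpre]
      exact preimage_mono hKU)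
    (by
      intro K hK hKU
      rw [Measure.smul_apply, smul_eq_mul]
      exact ENNReal.mul_lt_top ENNReal.ofReal_lt_top (h.1 K hK (hKU.trans hUO)))
    (by
      intro g hg
      have htp : 0 < t ^ d := pow_pos (by linarith only [ht]) d
      rw [integral_map hme.aemeasurable hg.1.continuous.aestronglyMeasurable, integral_smul_measure,
        ENNReal.toReal_ofReal (inv_nonneg.2 htp.le), smul_eq_mul,
        setIntegral_eq_integral_of_forall_compl_eq_zero, ← D8_dil_integral h hc hg.1 hg.2.1 ht,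
        ← mul_assoc, inv_mul_cancel₀ htp.ne', one_mul]
      · intro s hs' y hy
        obtain ⟨x, hx, rfl⟩ := hg.2.2 hy
        have hs0 : 0 < s := by linarith [hs'.1]
        simp only [smul_smul]
        refine hs _ ⟨?_, ?_⟩ x hx
        · rw [inv_mul_eq_div, le_div_iff₀ hs0]; linarith [hs'.2]
        · rw [inv_mul_eq_div, div_le_iff₀ hs0]; nlinarith only [hs'.1, ht]
      · intro x hx
        refine image_eq_zero_of_notMem_tsupport fun hm => hx ?_
        rw [← hpre]
        exact hg.2.2 hm)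
  rw [Measure.restrict_map hme hU.measurableSet, hpre, Measure.restrict_restrict hA.measurableSet,
    inter_self, Measure.restrict_smul] at key
  exact key

/-- translation invariance along the spine -/
theorem cone_transl {W : Vf d} {L : Submodule ℝ (R d)} (h : Stat W univ) (hc : Con W univ L)
    {z : R d} (hz : z ∈ L) : W.fst.map (fun x => x + z) = W.fst := by
  have hme : Measurable fun x : R d => x + z := by fun_prop
  have key := restrict_eq_of_integral (μ := W.fst.map (fun x => x + z)) (ν := W.fst) isOpen_univ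
    (by
      intro K hK _
      rw [Measure.map_apply hme hK.measurableSet]
      exact h.1 _ ((Homeomorph.addRight z).isCompact_preimage.2 hK) (subset_univ _))
    h.1
    (by
      intro g hg
      rw [integral_map hme.aemeasurable hg.1.continuous.aestronglyMeasurable]
      exact D8_transl_integral h hc hz hg.1 hg.2.1)
  simpa using key

theorem cone_support_dil {W : Vf d} {O : Set (R d)} (hO : IsOpen O) (h : Stat W O) (hc : Con W O ⊥)
    {x : R d} {t : ℝ} (ht : 0 < t) (hs : ∀ s ∈ uIcc 1 t, s • x ∈ O) (hx : x ∈ W.fst.support) :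
    t • x ∈ W.fst.support := by
  rw [Measure.mem_support_iff_forall] at hx ⊢
  intro U hU
  rcases le_total 1 t with h1 | h1
  · rw [uIcc_of_le h1] at hs
    obtain ⟨A, hA, hxA, hAO⟩ := D8_tube hO hs
    have key := cone_dil hO h hc hA h1 hAO
    have hme : Measurable fun y : R d => t • y := by fun_prop
    have h2 : 0 < (W.fst.restrict A).map (fun y => t • y) U := by
      refine lt_of_lt_of_le ?_ (Measure.le_map_apply hme.aemeasurable U)
      rw [Measure.restrict_apply' hA.measurableSet]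
      refine hx _ (inter_mem ?_ (hA.mem_nhds hxA))
      exact (continuous_const_smul t).continuousAt.preimage_mem_nhds hU
    rw [key, Measure.smul_apply, smul_eq_mul] at h2
    exact lt_of_lt_of_le (pos_iff_ne_zero.2 (right_ne_zero_of_mul h2.ne')) (Measure.restrict_le_self _)
  · rw [uIcc_of_ge h1] at hs
    have h3 : 1 ≤ t⁻¹ := (one_le_inv₀ ht).2 h1
    have h4 : t⁻¹ ≠ 0 := inv_ne_zero ht.ne'
    obtain ⟨A, hA, hxA, hAO⟩ := D8_tube (x := t • x) (t := t⁻¹) hO (by
      intro s hs'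
      rw [smul_smul]
      refine hs _ ⟨by nlinarith only [hs'.1, ht], ?_⟩
      have := mul_le_mul_of_nonneg_right hs'.2 ht.le
      rwa [inv_mul_cancel₀ ht.ne'] at this)
    have key := cone_dil hO h hc hA h3 hAO
    have hme : Measurable fun y : R d => t⁻¹ • y := by fun_prop
    have hinj : Function.Injective fun y : R d => t⁻¹ • y := smul_right_injective _ h4
    have hV : IsOpen ((fun y : R d => t⁻¹ • y) '' interior U) := isOpenMap_smul₀ h4 _ isOpen_interior
    have hA' : IsOpen ((fun y : R d => t⁻¹ • y) '' A) := isOpenMap_smul₀ h4 _ hA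
    have hxx : t⁻¹ • t • x = x := by rw [smul_smul, inv_mul_cancel₀ ht.ne', one_smul]
    have h5 : 0 < (W.fst.restrict A).map (fun y => t⁻¹ • y) ((fun y : R d => t⁻¹ • y) '' interior U) := by
      rw [key, Measure.smul_apply, smul_eq_mul, Measure.restrict_apply hV.measurableSet]
      refine ENNReal.mul_pos ?_ (hx _ (inter_mem (hV.mem_nhds ?_) (hA'.mem_nhds ?_))).ne'
      · exact (ENNReal.ofReal_pos.2 (inv_pos.2 (pow_pos (inv_pos.2 ht) d))).ne'
      · exact ⟨t • x, mem_interior_iff_mem_nhds.2 hU, hxx⟩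
      · exact ⟨t • x, hxA, hxx⟩
    rw [Measure.map_apply hme hV.measurableSet, preimage_image_eq _ hinj] at h5
    exact lt_of_lt_of_le h5 ((Measure.restrict_le_self _).trans (measure_mono interior_subset))

theorem cone_support_transl {W : Vf d} {L : Submodule ℝ (R d)} (h : Stat W univ) (hc : Con W univ L)
    {z : R d} (hz : z ∈ L) {x : R d} (hx : x ∈ W.fst.support) : x + z ∈ W.fst.support := by
  rw [Measure.mem_support_iff_forall] at hx ⊢
  intro U hU
  have hme : Measurable fun y : R d => y + z := by fun_prop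
  rw [← cone_transl h hc hz]
  refine lt_of_lt_of_le (hx _ ?_) (Measure.le_map_apply hme.aemeasurable U)
  exact (continuous_add_const z).continuousAt.preimage_mem_nhds hU

end D8

section D9

/-- the similarity as a homeomorphism -/
noncomputable def D9_H {r : ℝ} (hr : 0 < r) (x : R d) (Q : R d ≃ₗᵢ[ℝ] R d) : R d ≃ₜ R d where
  toFun y := simP r x Q y
  invFun y := x + r • Q.symm y
  left_inv y := by
    simp only [simP, map_smul, LinearIsometryEquiv.symm_apply_apply, smul_smul,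
      mul_inv_cancel₀ hr.ne', one_smul]
    abel
  right_inv y := by
    simp only [simP, add_sub_cancel_left, map_smul, LinearIsometryEquiv.apply_symm_apply, smul_smul,
      inv_mul_cancel₀ hr.ne', one_smul]
  continuous_toFun := by
    unfold simP
    fun_prop
  continuous_invFun := by fun_prop

theorem D9_mem (Q : R d ≃ₗᵢ[ℝ] R d) (p : S d) : Q p ∈ Metric.sphere (0 : R d) 1 := by simp only [mem_sphere_iff_norm, sub_zero, norm_map, norm_eq_of_mem_sphere]

/-- the rotation of the sphere -/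
noncomputable def D9_S (Q : R d ≃ₗᵢ[ℝ] R d) : S d ≃ₜ S d where
  toFun p := ⟨Q p, D9_mem Q p⟩
  invFun p := ⟨Q.symm p, D9_mem Q.symm p⟩
  left_inv p := Subtype.ext (Q.symm_apply_apply p)
  right_inv p := Subtype.ext (Q.apply_symm_apply p)
  continuous_toFun := (Q.continuous.comp continuous_subtype_val).subtype_mk _
  continuous_invFun := (Q.symm.continuous.comp continuous_subtype_val).subtype_mk _

theorem D9_simV (W : Vf d) {r : ℝ} (hr : 0 < r) (x : R d) (Q : R d ≃ₗᵢ[ℝ] R d) :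
    simV r x Q W = ENNReal.ofReal ((r ^ d)⁻¹) •
      W.map ((D9_H hr x Q).prodCongr (D9_S Q)).toMeasurableEquiv := rfl

theorem D9_c_ne {r : ℝ} (hr : 0 < r) (d : ℕ) : ENNReal.ofReal ((r ^ d)⁻¹) ≠ 0 := by
  have : 0 < (r ^ d)⁻¹ := by positivity
  simpa only [ne_eq, ENNReal.ofReal_eq_zero, inv_nonpos, not_le, gt_iff_lt, inv_pos] using this

theorem D9_norm {r : ℝ} (hr : 0 < r) (x y z : R d) (Q : R d ≃ₗᵢ[ℝ] R d) :
    ‖simP r x Q z - simP r x Q y‖ = r⁻¹ * ‖z - y‖ := by
  have : simP r x Q z - simP r x Q y = r⁻¹ • Q (z - y) := by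
    simp only [simP, ← smul_sub, ← map_sub]
    congr 2
    abel
  rw [this, norm_smul, LinearIsometryEquiv.norm_map, Real.norm_eq_abs, abs_of_pos (inv_pos.2 hr)]

theorem exists_simH {r : ℝ} (hr : 0 < r) (x : R d) (Q : R d ≃ₗᵢ[ℝ] R d) :
    ∃ φ : R d ≃ₜ R d, (∀ y, φ y = simP r x Q y) ∧ (∀ y, φ.symm y = x + r • Q.symm y) := 
  ⟨D9_H hr x Q, fun _ => rfl, fun _ => rfl⟩

theorem simV_fst_eq (W : Vf d) {r : ℝ} (hr : 0 < r) (x : R d) (Q : R d ≃ₗᵢ[ℝ] R d) :
    (simV r x Q W).fst = ENNReal.ofReal ((r ^ d)⁻¹) • W.fst.map (simP r x Q) := by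
  have h1 : Measurable (simP r x Q) := (D9_H hr x Q).continuous.measurable
  rw [D9_simV W hr, Measure.fst, Measure.map_smul, Measure.fst,
    Measure.map_map measurable_fst (MeasurableEquiv.measurable _), Measure.map_map h1 measurable_fst]
  rfl

theorem integral_simV (W : Vf d) {r : ℝ} (hr : 0 < r) (x : R d) (Q : R d ≃ₗᵢ[ℝ] R d)
    (g : R d × S d → ℝ) : ∫ p, g p ∂simV r x Q W =
      (r ^ d)⁻¹ * ∫ p, g (simP r x Q p.1, (⟨Q p.2, by simp only [mem_sphere_iff_norm, sub_zero, norm_map, norm_eq_of_mem_sphere]⟩ : S d)) ∂W := by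
  rw [D9_simV W hr, integral_smul_measure, integral_map_equiv,
    ENNReal.toReal_ofReal (by positivity), smul_eq_mul]
  rfl

theorem integral_simV_fst (W : Vf d) {r : ℝ} (hr : 0 < r) (x : R d) (Q : R d ≃ₗᵢ[ℝ] R d)
    (g : R d → ℝ) : ∫ y, g y ∂(simV r x Q W).fst = (r ^ d)⁻¹ * ∫ y, g (simP r x Q y) ∂W.fst := by
  have : W.fst.map (simP r x Q) = W.fst.map (D9_H hr x Q).toMeasurableEquiv := rfl
  rw [simV_fst_eq W hr, integral_smul_measure, this, integral_map_equiv,
    ENNReal.toReal_ofReal (by positivity), smul_eq_mul]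
  rfl

theorem ae_simV {W : Vf d} {r : ℝ} (hr : 0 < r) (x : R d) (Q : R d ≃ₗᵢ[ℝ] R d)
    {q : R d × S d → Prop} : (∀ᵐ p ∂simV r x Q W, q p) ↔
      ∀ᵐ p ∂W, q (simP r x Q p.1, (⟨Q p.2, by simp only [mem_sphere_iff_norm, sub_zero, norm_map, norm_eq_of_mem_sphere]⟩ : S d)) := by
  rw [D9_simV W hr, Measure.ae_ennreal_smul_measure_iff (D9_c_ne hr d),
    (MeasurableEquiv.measurableEmbedding _).ae_map_iff]
  rfl

theorem simV_fst (W : Vf d) {r : ℝ} (hr : 0 < r) (x : R d) (Q : R d ≃ₗᵢ[ℝ] R d) (A : Set (R d)) :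
    (simV r x Q W).fst (simP r x Q '' A) = ENNReal.ofReal ((r ^ d)⁻¹) * W.fst A := by
  have : W.fst.map (simP r x Q) = W.fst.map (D9_H hr x Q).toMeasurableEquiv := rfl
  have hi : Function.Injective (simP r x Q) := (D9_H hr x Q).injective
  rw [simV_fst_eq W hr, Measure.smul_apply, this, MeasurableEquiv.map_apply, smul_eq_mul]
  congr 2
  exact preimage_image_eq A hi

theorem simV_support (W : Vf d) {r : ℝ} (hr : 0 < r) (x : R d) (Q : R d ≃ₗᵢ[ℝ] R d) :
    (simV r x Q W).fst.support = simP r x Q '' W.fst.support := by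
  ext z
  obtain ⟨y, rfl⟩ := (D9_H hr x Q).surjective z
  have hi : Function.Injective (simP r x Q) := (D9_H hr x Q).injective
  have hc : Continuous (simP r x Q) := (D9_H hr x Q).continuous
  change simP r x Q y ∈ _ ↔ simP r x Q y ∈ _
  rw [hi.mem_set_image, Measure.mem_support_iff_forall, Measure.mem_support_iff_forall]
  constructor
  · intro h U hU
    have h1 := h _ ((D9_H hr x Q).isOpenMap.image_mem_nhds hU)
    change 0 < (simV r x Q W).fst (simP r x Q '' U) at h1
    rw [simV_fst W hr] at h1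
    exact pos_iff_ne_zero.2 fun h0 => by simp only [h0, mul_zero, lt_self_iff_false] at h1
  · intro h U hU
    have h1 := h _ (hc.continuousAt.preimage_mem_nhds hU)
    have h2 : simP r x Q '' (simP r x Q ⁻¹' U) = U :=
      image_preimage_eq U (D9_H hr x Q).surjective
    rw [← h2, simV_fst W hr]
    exact ENNReal.mul_pos (D9_c_ne hr d) h1.ne'

theorem simP_ball {r : ℝ} (hr : 0 < r) (x y : R d) (Q : R d ≃ₗᵢ[ℝ] R d) (s : ℝ) :
    simP r x Q '' ball y (r * s) = ball (simP r x Q y) s := by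
  ext z
  obtain ⟨w, rfl⟩ := (D9_H hr x Q).surjective z
  have hi : Function.Injective (simP r x Q) := (D9_H hr x Q).injective
  change simP r x Q w ∈ _ ↔ simP r x Q w ∈ _
  rw [hi.mem_set_image, mem_ball, mem_ball, dist_eq_norm, dist_eq_norm, D9_norm hr,
    inv_mul_lt_iff₀ hr]

theorem simP_closedBall {r : ℝ} (hr : 0 < r) (x y : R d) (Q : R d ≃ₗᵢ[ℝ] R d) (s : ℝ) :
    simP r x Q '' closedBall y (r * s) = closedBall (simP r x Q y) s := by
  ext z
  obtain ⟨w, rfl⟩ := (D9_H hr x Q).surjective z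
  have hi : Function.Injective (simP r x Q) := (D9_H hr x Q).injective
  change simP r x Q w ∈ _ ↔ simP r x Q w ∈ _
  rw [hi.mem_set_image, mem_closedBall, mem_closedBall, dist_eq_norm, dist_eq_norm, D9_norm hr,
    inv_mul_le_iff₀ hr]

theorem theta_sim (W : Vf d) {r s : ℝ} (hr : 0 < r) (hs : 0 < s) (x y : R d) (Q : R d ≃ₗᵢ[ℝ] R d) :
    theta (simV r x Q W) (simP r x Q y) s = theta W y (r * s) := by
  unfold theta
  rw [integral_simV_fst W hr, ← mul_assoc]
  congr 1
  · rw [mul_pow, mul_inv, mul_comm]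
  · congr 1
    funext z
    rw [D9_norm hr]
    congr 3
    field_simp

theorem LocFin.sim {W : Vf d} {O : Set (R d)} (h : LocFin W O) {r : ℝ} (hr : 0 < r) (x : R d)
    (Q : R d ≃ₗᵢ[ℝ] R d) : LocFin (simV r x Q W) (simP r x Q '' O) := by
  intro K hK hKO
  have hi : Function.Injective (simP r x Q) := (D9_H hr x Q).injective
  have h2 : simP r x Q '' (simP r x Q ⁻¹' K) = K := image_preimage_eq K (D9_H hr x Q).surjective
  have h3 : IsCompact (simP r x Q ⁻¹' K) := (D9_H hr x Q).isCompact_preimage.2 hK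
  have h4 : simP r x Q ⁻¹' K ⊆ O := fun z hz => hi.mem_set_image.1 (hKO hz)
  rw [← h2, simV_fst W hr]
  exact ENNReal.mul_lt_top ENNReal.ofReal_lt_top (h _ h3 h4)

theorem LocBd.sim {ι : Type} {l : Filter ι} {V : ι → Vf d} {O : Set (R d)} (h : LocBd l V O) {r : ℝ}
    (hr : 0 < r) (x : R d) (Q : R d ≃ₗᵢ[ℝ] R d) :
    LocBd l (fun i => simV r x Q (V i)) (simP r x Q '' O) := by
  intro K hK hKO
  have hi : Function.Injective (simP r x Q) := (D9_H hr x Q).injective
  have h2 : simP r x Q '' (simP r x Q ⁻¹' K) = K := image_preimage_eq K (D9_H hr x Q).surjective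
  have h3 : IsCompact (simP r x Q ⁻¹' K) := (D9_H hr x Q).isCompact_preimage.2 hK
  have h4 : simP r x Q ⁻¹' K ⊆ O := fun z hz => hi.mem_set_image.1 (hKO hz)
  obtain ⟨C, hC, hl⟩ := h _ h3 h4
  refine ⟨ENNReal.ofReal ((r ^ d)⁻¹) * C, ENNReal.mul_lt_top ENNReal.ofReal_lt_top hC, ?_⟩
  filter_upwards [hl] with i hi'
  rw [← h2, simV_fst _ hr]
  gcongr

end D9

section D10

/-- matrix of the isometry -/
noncomputable def D10_q (Q : R d ≃ₗᵢ[ℝ] R d) : Matrix (Fin (d + 1)) (Fin (d + 1)) ℝ :=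
  fun i k => Q (EuclideanSpace.single i 1) k

theorem D10_q_mul (Q : R d ≃ₗᵢ[ℝ] R d) : D10_q Q * (D10_q Q).transpose = 1 := by
  ext i j
  have h := Q.inner_map_map (EuclideanSpace.single j (1 : ℝ)) (EuclideanSpace.single i (1 : ℝ))
  rw [EuclideanSpace.inner_single_left, PiLp.inner_apply] at h
  simp only [Matrix.mul_apply, Matrix.transpose_apply, D10_q, Matrix.one_apply]
  simp only [RCLike.inner_apply, conj_trivial, map_one, one_mul, PiLp.single_apply] at h
  rw [h]
  by_cases hij : i = j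
  · simp [hij]
  · simp [hij, Ne.symm hij]

theorem D10_q_mul' (Q : R d ≃ₗᵢ[ℝ] R d) : (D10_q Q).transpose * D10_q Q = 1 :=
  mul_eq_one_comm.1 (D10_q_mul Q)

theorem D10_orth (Q : R d ≃ₗᵢ[ℝ] R d) (k l : Fin (d + 1)) :
    ∑ i, D10_q Q i k * D10_q Q i l = if k = l then 1 else 0 := by
  have h := congrFun (congrFun (D10_q_mul' Q) k) l
  simpa [Matrix.mul_apply, Matrix.one_apply] using h

theorem D10_back (Q : R d ≃ₗᵢ[ℝ] R d) (v : Fin (d + 1) → ℝ) (l : Fin (d + 1)) :
    ∑ j, D10_q Q j l * ∑ m, D10_q Q j m * v m = v l := by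
  simp only [Finset.mul_sum, ← mul_assoc]
  rw [Finset.sum_comm]
  simp only [← Finset.sum_mul, D10_orth]
  simp

theorem D10_sq (Q : R d ≃ₗᵢ[ℝ] R d) (v : Fin (d + 1) → ℝ) :
    ∑ i, (∑ k, D10_q Q i k * v k) ^ 2 = ∑ k, v k ^ 2 := by
  calc ∑ i, (∑ k, D10_q Q i k * v k) ^ 2
      = ∑ i, ∑ k, v k * (D10_q Q i k * ∑ m, D10_q Q i m * v m) := by
        refine Finset.sum_congr rfl fun i _ => ?_
        rw [sq, Finset.sum_mul]
        refine Finset.sum_congr rfl fun k _ => ?_
        ring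
    _ = ∑ k, v k * ∑ i, D10_q Q i k * ∑ m, D10_q Q i m * v m := by
        rw [Finset.sum_comm]
        refine Finset.sum_congr rfl fun k _ => ?_
        rw [Finset.mul_sum]
    _ = ∑ k, v k ^ 2 := by
        refine Finset.sum_congr rfl fun k _ => ?_
        rw [D10_back, sq]

theorem D10_hasFDerivAt (r : ℝ) (x : R d) (Q : R d ≃ₗᵢ[ℝ] R d) (y : R d) :
    HasFDerivAt (simP r x Q) (r⁻¹ • (Q.toContinuousLinearEquiv : R d →L[ℝ] R d)) y := by
  have h1 : HasFDerivAt (fun z : R d => z - x) (ContinuousLinearMap.id ℝ (R d)) y :=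
    (hasFDerivAt_id y).sub_const x
  have h2 := ((Q.toContinuousLinearEquiv : R d →L[ℝ] R d).hasFDerivAt.comp y h1).const_smul r⁻¹
  rw [ContinuousLinearMap.comp_id] at h2
  exact h2

theorem D10_contDiff (r : ℝ) (x : R d) (Q : R d ≃ₗᵢ[ℝ] R d) {n : WithTop ℕ∞} :
    ContDiff ℝ n (simP r x Q) := by
  have h1 : ContDiff ℝ n fun z : R d => z - x := contDiff_id.sub contDiff_const
  exact ((Q.toContinuousLinearEquiv : R d →L[ℝ] R d).contDiff.comp h1).const_smul r⁻¹

theorem D10_lin (L : R d →L[ℝ] ℝ) (v : R d) :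
    L v = ∑ k, v k * L (EuclideanSpace.single k 1) := by
  have hv : v = ∑ k, v k • (EuclideanSpace.single k (1 : ℝ) : R d) := by
    have := (EuclideanSpace.basisFun (Fin (d + 1)) ℝ).sum_repr v
    simpa only [EuclideanSpace.basisFun_repr, EuclideanSpace.basisFun_apply] using this.symm
  conv_lhs => rw [hv]
  simp only [map_sum, map_smul, smul_eq_mul]

theorem D10_fderiv (r : ℝ) (x : R d) (Q : R d ≃ₗᵢ[ℝ] R d) {g : R d → ℝ} {y : R d}
    (hg : DifferentiableAt ℝ g (simP r x Q y)) (v : R d) :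
    fderiv ℝ (fun z => g (simP r x Q z)) y v = r⁻¹ * fderiv ℝ g (simP r x Q y) (Q v) := by
  have h := (hg.hasFDerivAt.comp y (D10_hasFDerivAt r x Q y)).fderiv
  have h' : fderiv ℝ (fun z => g (simP r x Q z)) y = _ := h
  rw [h']
  simp

theorem D10_pd (r : ℝ) (x : R d) (Q : R d ≃ₗᵢ[ℝ] R d) {g : R d → ℝ} {y : R d}
    (hg : DifferentiableAt ℝ g (simP r x Q y)) (i : Fin (d + 1)) :
    pd i (fun z => g (simP r x Q z)) y =
      r⁻¹ * ∑ k, D10_q Q i k * pd k g (simP r x Q y) := by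
  unfold pd
  rw [D10_fderiv r x Q hg, D10_lin]
  rfl

/-- conjugated matrix field -/
noncomputable def D10_P (r : ℝ) (x : R d) (Q : R d ≃ₗᵢ[ℝ] R d)
    (P : R d → Fin (d + 1) → Fin (d + 1) → ℝ) (y : R d) (i j : Fin (d + 1)) : ℝ :=
  ∑ k, D10_q Q i k * ∑ l, D10_q Q j l * P (simP r x Q y) k l

theorem D10_dl (r : ℝ) (x : R d) (Q : R d ≃ₗᵢ[ℝ] R d) (P : R d → Fin (d + 1) → Fin (d + 1) → ℝ)
    {g : R d → ℝ} {y : R d} (hg : DifferentiableAt ℝ g (simP r x Q y)) (i : Fin (d + 1)) :
    dl (D10_P r x Q P) i (fun z => g (simP r x Q z)) y =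
      r⁻¹ * ∑ k, D10_q Q i k * dl P k g (simP r x Q y) := by
  unfold dl
  simp only [D10_pd r x Q hg, D10_P]
  set a : Fin (d + 1) → ℝ := fun k => pd k g (simP r x Q y) with ha
  set p := P (simP r x Q y) with hp
  have key : ∑ j, (∑ k, D10_q Q i k * ∑ l, D10_q Q j l * p k l) * (r⁻¹ * ∑ m, D10_q Q j m * a m) =
      r⁻¹ * ∑ k, D10_q Q i k * ∑ l, p k l * a l := by
    calc ∑ j, (∑ k, D10_q Q i k * ∑ l, D10_q Q j l * p k l) * (r⁻¹ * ∑ m, D10_q Q j m * a m)
        = ∑ j, ∑ k, ∑ l, r⁻¹ * (D10_q Q i k * (p k l *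
            (D10_q Q j l * ∑ m, D10_q Q j m * a m))) := by
          refine Finset.sum_congr rfl fun j _ => ?_
          rw [Finset.sum_mul]
          refine Finset.sum_congr rfl fun k _ => ?_
          rw [Finset.mul_sum Finset.univ (fun l => D10_q Q j l * p k l), Finset.sum_mul]
          refine Finset.sum_congr rfl fun l _ => ?_
          ring
      _ = ∑ k, ∑ l, ∑ j, r⁻¹ * (D10_q Q i k * (p k l *
            (D10_q Q j l * ∑ m, D10_q Q j m * a m))) := by
          rw [Finset.sum_comm]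
          refine Finset.sum_congr rfl fun k _ => ?_
          rw [Finset.sum_comm]
      _ = r⁻¹ * ∑ k, D10_q Q i k * ∑ l, p k l * a l := by
          rw [Finset.mul_sum]
          refine Finset.sum_congr rfl fun k _ => ?_
          rw [Finset.mul_sum Finset.univ (fun l => p k l * a l), Finset.mul_sum]
          refine Finset.sum_congr rfl fun l _ => ?_
          rw [← Finset.mul_sum, ← Finset.mul_sum, ← Finset.mul_sum, D10_back]
  rw [key, ← mul_sub, ← Finset.sum_sub_distrib]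
  simp only [ha, mul_sub]

theorem D10_gs (r : ℝ) (x : R d) (Q : R d ≃ₗᵢ[ℝ] R d) (P : R d → Fin (d + 1) → Fin (d + 1) → ℝ)
    {g : R d → ℝ} {y : R d} (hg : DifferentiableAt ℝ g (simP r x Q y)) :
    gs (D10_P r x Q P) (fun z => g (simP r x Q z)) y = r⁻¹ ^ 2 * gs P g (simP r x Q y) := by
  unfold gs
  simp only [D10_dl r x Q P hg, mul_pow]
  rw [← Finset.mul_sum, D10_sq]

theorem D10_pd_sum {ι : Type} [Fintype ι] (c : ι → ℝ) {g : ι → R d → ℝ} {z : R d}
    (hg : ∀ a, DifferentiableAt ℝ (g a) z) (i : Fin (d + 1)) :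
    pd i (fun w => ∑ a, c a * g a w) z = ∑ a, c a * pd i (g a) z := by
  have h : HasFDerivAt (fun w => ∑ a, c a * g a w) (∑ a, c a • fderiv ℝ (g a) z) z :=
    HasFDerivAt.fun_sum fun a _ => (hg a).hasFDerivAt.const_mul (c a)
  unfold pd
  rw [h.fderiv]
  simp only [sum_apply, smul_apply, smul_eq_mul]

theorem D10_dl_sum (P : R d → Fin (d + 1) → Fin (d + 1) → ℝ) {ι : Type} [Fintype ι] (c : ι → ℝ)
    {g : ι → R d → ℝ} {z : R d} (hg : ∀ a, DifferentiableAt ℝ (g a) z) (i : Fin (d + 1)) :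
    dl P i (fun w => ∑ a, c a * g a w) z = ∑ a, c a * dl P i (g a) z := by
  unfold dl
  simp only [D10_pd_sum c hg, mul_sub, Finset.sum_sub_distrib, Finset.mul_sum]
  congr 1
  rw [Finset.sum_comm]
  refine Finset.sum_congr rfl fun a _ => Finset.sum_congr rfl fun j _ => ?_
  ring

theorem D10_c2 (r : ℝ) (x : R d) (Q : R d ≃ₗᵢ[ℝ] R d) {P : R d → Fin (d + 1) → Fin (d + 1) → ℝ}
    (hP : ∀ i j, Differentiable ℝ fun z => P z i j) (y : R d) :
    c2 (D10_P r x Q P) y = r⁻¹ ^ 2 * c2 P (simP r x Q y) := by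
  have hd1 : ∀ (j k : Fin (d + 1)),
      Differentiable ℝ fun z => ∑ l, D10_q Q j l * P z k l := fun j k =>
    Differentiable.fun_sum fun l _ => (hP k l).const_mul _
  have hd2 : ∀ (i j : Fin (d + 1)),
      Differentiable ℝ fun z => ∑ k, D10_q Q i k * ∑ l, D10_q Q j l * P z k l := fun i j =>
    Differentiable.fun_sum fun k _ => (hd1 j k).const_mul _
  have h1 : ∀ i j, gs (D10_P r x Q P) (fun z => D10_P r x Q P z i j) y =
      r⁻¹ ^ 2 * ∑ m, (∑ k, D10_q Q i k * ∑ l, D10_q Q j l *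
        dl P m (fun z => P z k l) (simP r x Q y)) ^ 2 := by
    intro i j
    have := D10_gs r x Q P (y := y) (hd2 i j (simP r x Q y))
    refine this.trans ?_
    congr 1
    unfold gs
    refine Finset.sum_congr rfl fun m _ => ?_
    rw [D10_dl_sum P (D10_q Q i) (fun k => hd1 j k (simP r x Q y))]
    congr 1
    refine Finset.sum_congr rfl fun k _ => ?_
    rw [D10_dl_sum P (D10_q Q j) (fun l => hP k l (simP r x Q y))]
  unfold c2
  simp only [h1, ← Finset.mul_sum]
  rw [mul_div_assoc]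
  congr 2
  unfold gs
  set T : Fin (d + 1) → Fin (d + 1) → Fin (d + 1) → ℝ :=
    fun m k l => dl P m (fun z => P z k l) (simP r x Q y) with hT
  calc ∑ i, ∑ j, ∑ m, (∑ k, D10_q Q i k * ∑ l, D10_q Q j l * T m k l) ^ 2
      = ∑ j, ∑ m, ∑ i, (∑ k, D10_q Q i k * ∑ l, D10_q Q j l * T m k l) ^ 2 := by
        rw [Finset.sum_comm]
        refine Finset.sum_congr rfl fun j _ => ?_
        rw [Finset.sum_comm]
    _ = ∑ j, ∑ m, ∑ k, (∑ l, D10_q Q j l * T m k l) ^ 2 := by
        simp only [D10_sq]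
    _ = ∑ m, ∑ k, ∑ j, (∑ l, D10_q Q j l * T m k l) ^ 2 := by
        rw [Finset.sum_comm]
        refine Finset.sum_congr rfl fun m _ => ?_
        rw [Finset.sum_comm]
    _ = ∑ m, ∑ k, ∑ l, T m k l ^ 2 := by
        simp only [D10_sq]
    _ = ∑ k, ∑ l, ∑ m, T m k l ^ 2 := by
        rw [Finset.sum_comm]
        refine Finset.sum_congr rfl fun k _ => ?_
        rw [Finset.sum_comm]

theorem D10_inj {r : ℝ} (hr : 0 < r) (x : R d) (Q : R d ≃ₗᵢ[ℝ] R d) :
    Function.Injective (simP r x Q) := by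
  obtain ⟨φ, hφ, -⟩ := exists_simH hr x Q
  intro a b hab
  exact φ.injective (by rw [hφ, hφ, hab])

theorem D10_adapted {r : ℝ} (hr : 0 < r) (x : R d) (Q : R d ≃ₗᵢ[ℝ] R d) {M U : Set (R d)}
    {P : R d → Fin (d + 1) → Fin (d + 1) → ℝ} (h : Adapted (simP r x Q '' M) U P) :
    Adapted M (simP r x Q ⁻¹' U) (D10_P r x Q P) := by
  refine ⟨fun i j => ?_, fun y hy => ?_⟩
  · exact ContDiff.sum fun k _ => contDiff_const.mul (ContDiff.sum fun l _ =>
      contDiff_const.mul ((h.1 k l).comp (D10_contDiff r x Q)))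
  · obtain ⟨f, ⟨hf1, hf2, hf3⟩, hf4⟩ := h.2 (simP r x Q y) ⟨⟨y, hy.1, rfl⟩, hy.2⟩
    have hfd : DifferentiableAt ℝ f (simP r x Q y) := (hf1.differentiable (by simp)) _
    refine ⟨fun z => f (simP r x Q z), ⟨hf1.comp (D10_contDiff r x Q), fun h0 => hf2 ?_, ?_⟩, ?_⟩
    · ext v
      have h1 := D10_fderiv r x Q hfd (Q.symm v)
      rw [h0, Q.apply_symm_apply] at h1
      have h2 : r⁻¹ ≠ 0 := inv_ne_zero hr.ne'
      simpa only [zero_apply, mul_eq_zero, h2, false_or] using h1.symm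
    · have hc : ContinuousAt (simP r x Q) y :=
        (D10_contDiff r x Q (n := 0)).continuous.continuousAt
      filter_upwards [hc.eventually hf3] with z hz
      rw [← hz]
      exact ((D10_inj hr x Q).mem_set_image).symm
    · intro i j
      simp only [D10_pd r x Q hfd, mul_pow]
      rw [← Finset.mul_sum, D10_sq]
      unfold D10_P
      set a : Fin (d + 1) → ℝ := fun k => pd k f (simP r x Q y) with ha
      calc (∑ k, D10_q Q i k * ∑ l, D10_q Q j l * P (simP r x Q y) k l) * (r⁻¹ ^ 2 * ∑ m, a m ^ 2)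
          = ∑ k, ∑ l, r⁻¹ ^ 2 * (D10_q Q i k * D10_q Q j l *
              (P (simP r x Q y) k l * ∑ m, a m ^ 2)) := by
            rw [Finset.sum_mul]
            refine Finset.sum_congr rfl fun k _ => ?_
            rw [Finset.mul_sum Finset.univ (fun l => D10_q Q j l * P (simP r x Q y) k l),
              Finset.sum_mul]
            refine Finset.sum_congr rfl fun l _ => ?_
            ring
        _ = ∑ k, ∑ l, r⁻¹ ^ 2 * (D10_q Q i k * a k * (D10_q Q j l * a l)) := by
            refine Finset.sum_congr rfl fun k _ => Finset.sum_congr rfl fun l _ => ?_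
            rw [hf4 k l]
            ring
        _ = r⁻¹ * (∑ k, D10_q Q i k * a k) * (r⁻¹ * ∑ l, D10_q Q j l * a l) := by
            simp only [← Finset.mul_sum]
            rw [← Finset.sum_mul]
            ring

theorem Stab.sim {W : Vf d} {O : Set (R d)} (h : Stab W.fst O) {r : ℝ} (hr : 0 < r) (x : R d)
    (Q : R d ≃ₗᵢ[ℝ] R d) : Stab (simV r x Q W).fst (simP r x Q '' O) := by
  intro U P hU hUO hA ζ hζ
  rw [simV_support W hr] at hA
  obtain ⟨φ, hφ, -⟩ := exists_simH hr x Q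
  have hφ' : (φ : R d → R d) = simP r x Q := funext hφ
  have hc : Continuous (simP r x Q) := (D10_contDiff r x Q (n := 0)).continuous
  have hU' : simP r x Q ⁻¹' U ⊆ O := fun y hy =>
    ((D10_inj hr x Q).mem_set_image).1 (hUO hy)
  have hζ' : C1c (fun z => ζ (simP r x Q z)) (simP r x Q ⁻¹' U) := by
    refine ⟨hζ.1.comp (D10_contDiff r x Q), ?_, ?_⟩
    · have := hζ.2.1.comp_homeomorph φ
      rwa [hφ'] at this
    · refine Subset.trans ?_ (preimage_mono hζ.2.2)
      refine closure_minimal (fun z hz => subset_tsupport ζ hz) ?_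
      exact (isClosed_tsupport ζ).preimage hc
  have key := h _ _ (hU.preimage hc) hU' (D10_adapted hr x Q hA) _ hζ'
  have hP : ∀ i j, Differentiable ℝ fun z => P z i j := fun i j =>
    (hA.1 i j).differentiable (by simp)
  have hζd : Differentiable ℝ ζ := hζ.1.differentiable (by simp)
  simp only [D10_c2 r x Q hP, D10_gs r x Q P (hζd _), mul_assoc] at key
  rw [integral_const_mul, integral_const_mul] at key
  have hpos : 0 < r⁻¹ ^ 2 := by positivity
  have key' := le_of_mul_le_mul_left key hpos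
  rw [integral_simV_fst W hr, integral_simV_fst W hr]
  exact mul_le_mul_of_nonneg_left key' (by positivity)

end D10

section D11

/-- countably many fields detect stationarity in the ball -/
theorem exists_fields (d : ℕ) : ∃ X : ℕ → R d → R d, (∀ j, C1c (X j) (B d) ∧ ∀ x, ‖fderiv ℝ (X j) x‖ ≤ 1) ∧
    ∀ W : Vf d, W.fst (B d) < ⊤ → (∀ j, ∫ p, divT (X j) p ∂W = 0) → Stat W (B d) := by
  let F := {X : R d → R d // C1c X (B d) ∧ ∀ x, ‖fderiv ℝ X x‖ ≤ 1}
  let D : F → C(closedBall (0 : R d) 1, R d →L[ℝ] R d) := fun X =>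
    ⟨fun x => fderiv ℝ X.1 x, (X.2.1.1.continuous_fderiv one_ne_zero).comp continuous_subtype_val⟩
  have : Nonempty (range D) := ⟨⟨_, ⟨fun _ => 0, ⟨contDiff_const, HasCompactSupport.zero, by simp⟩,
    by simp only [fderiv_fun_const, Pi.zero_apply, norm_zero, zero_le_one, implies_true]⟩, rfl⟩⟩
  obtain ⟨u, hu⟩ := TopologicalSpace.exists_dense_seq (range D)
  choose Y hY using fun j => (u j).2
  refine ⟨fun j => (Y j).1, fun j => (Y j).2, fun W hW h0 => ?_⟩
  have lf : LocFin W (B d) := fun K _ hK => (measure_mono hK).trans_lt hW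
  have int : ∀ X, C1c X (B d) → Integrable (divT X) W := fun X hX =>
    integrable_vf hX.2.1 (lf _ hX.2.1 hX.2.2) (divT_continuous hX.1) fun _ => divT_eq_zero
  have key : ∀ X : F, ∫ p, divT X.1 p ∂W = 0 := fun X => by
    have c0 : 0 < (d + 2) * (W.fst (B d)).toReal + 1 := by positivity
    refine abs_nonpos_iff.1 (le_of_forall_pos_le_add fun ε hε => ?_)
    obtain ⟨j, hj⟩ := DenseRange.exists_dist_lt (α := range D) hu ⟨D X, X, rfl⟩ (div_pos hε c0)
    have e : ∫ p, divT X.1 p ∂W = ∫ p, (divT X.1 p - divT (Y j).1 p) ∂W := by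
      rw [integral_sub (int _ X.2.1) (int _ (Y j).2.1), h0, sub_zero]
    have := abs_integral_vf_le (W := W) (g := fun p => divT X.1 p - divT (Y j).1 p)
      (M := (d + 2) * (ε / ((d + 2) * (W.fst (B d)).toReal + 1))) measurableSet_ball hW
      (fun p h => by
        rw [divT_eq_zero fun z => h (X.2.1.2.2 z), divT_eq_zero fun z => h ((Y j).2.1.2.2 z), sub_zero])
      (Eventually.of_forall fun p h => by
        have a := X.2.1.1.differentiable one_ne_zero p.1
        have b := (Y j).2.1.1.differentiable one_ne_zero p.1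
        rw [← divT_sub a b]
        refine (abs_divT_le _ _).trans (mul_le_mul_of_nonneg_left ?_ (by positivity))
        rw [fderiv_fun_sub a b, ← dist_eq_norm]
        rw [Subtype.dist_eq, ← hY] at hj
        exact (ContinuousMap.dist_apply_le_dist (f := D X) (g := D (Y j))
          ⟨p.1, ball_subset_closedBall h⟩).trans hj.le)
    rw [e, zero_add]
    refine this.trans ?_
    rw [mul_right_comm, ← mul_div_assoc, div_le_iff₀ c0]
    linarith only [hε]
  refine ⟨lf, fun X hX => ?_⟩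
  obtain ⟨C, hC⟩ := (hX.2.1.fderiv ℝ).exists_bound_of_continuous (hX.1.continuous_fderiv one_ne_zero)
  have C0 : 0 < C + 1 := by linarith [(norm_nonneg _).trans (hC 0)]
  have a := hX.1.differentiable one_ne_zero
  have := key ⟨fun x => (C + 1)⁻¹ • X x, c1c_of_vanish (hX.1.const_smul _) hX.2.1 hX.2.2
    fun x h => by rw [image_eq_zero_of_notMem_tsupport h, smul_zero], fun x => by
      rw [fderiv_fun_const_smul (a x), norm_smul, norm_inv, Real.norm_of_nonneg C0.le,
        inv_mul_le_iff₀ C0]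
      linarith [hC x]⟩
  simp only [divT_smul (differentiableAt_const _) (a _), fderiv_fun_const, Pi.zero_apply,
    zero_apply, add_zero, integral_const_mul] at this
  exact (mul_eq_zero.1 this).resolve_left (inv_ne_zero C0.ne')

end D11

section D12

theorem D12_contDiff {n : WithTop ℕ∞} (r : ℝ) (x : R d) (Q : R d ≃ₗᵢ[ℝ] R d) :
    ContDiff ℝ n (simP r x Q) := by
  unfold simP
  exact (Q.toContinuousLinearEquiv.contDiff.comp (contDiff_id.sub contDiff_const)).const_smul _

theorem D12_hasFDerivAt (r : ℝ) (x : R d) (Q : R d ≃ₗᵢ[ℝ] R d) (y : R d) :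
    HasFDerivAt (simP r x Q) (r⁻¹ • (Q.toContinuousLinearEquiv : R d →L[ℝ] R d)) y := by
  unfold simP
  have h1 : HasFDerivAt (fun z : R d => z - x) (ContinuousLinearMap.id ℝ (R d)) y :=
    (hasFDerivAt_id y).sub_const x
  have h2 := ((Q.toContinuousLinearEquiv : R d →L[ℝ] R d).hasFDerivAt (x := y - x)).comp y h1
  rw [ContinuousLinearMap.comp_id] at h2
  exact h2.const_smul r⁻¹

theorem D12_divT {X : R d → R d} (hX : ContDiff ℝ 1 X) (r : ℝ) (x : R d) (Q : R d ≃ₗᵢ[ℝ] R d)
    (p : R d × S d) :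
    divT (fun y => Q.symm (X (simP r x Q y))) p =
      r⁻¹ * divT X (simP r x Q p.1, (⟨Q p.2, by simp only [mem_sphere_iff_norm, sub_zero, norm_map, norm_eq_of_mem_sphere]⟩ : S d)) := by
  have hXd : HasFDerivAt X (fderiv ℝ X (simP r x Q p.1)) (simP r x Q p.1) :=
    (hX.differentiable one_ne_zero _).hasFDerivAt
  have h1 := hXd.comp p.1 (D12_hasFDerivAt r x Q p.1)
  have h2 := ((Q.symm.toContinuousLinearEquiv : R d →L[ℝ] R d).hasFDerivAt).comp p.1 h1
  have h3 : fderiv ℝ (fun y => Q.symm (X (simP r x Q y))) p.1 =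
      (Q.symm.toContinuousLinearEquiv : R d →L[ℝ] R d).comp
        ((fderiv ℝ X (simP r x Q p.1)).comp (r⁻¹ • (Q.toContinuousLinearEquiv : R d →L[ℝ] R d))) :=
    h2.fderiv
  unfold divT
  rw [D0_dv_eq_trace, D0_dv_eq_trace, h3]
  set A := fderiv ℝ X (simP r x Q p.1) with hA
  have ht : ((Q.symm.toContinuousLinearEquiv : R d →L[ℝ] R d).comp
      (A.comp (r⁻¹ • (Q.toContinuousLinearEquiv : R d →L[ℝ] R d)))).toLinearMap =
      r⁻¹ • (Q.symm.toLinearEquiv.conj A.toLinearMap) := by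
    ext1 v
    simp [LinearEquiv.conj_apply]
  rw [ht, map_smul, LinearMap.trace_conj']
  have hi : ⟪(p.2 : R d), ((Q.symm.toContinuousLinearEquiv : R d →L[ℝ] R d).comp
      (A.comp (r⁻¹ • (Q.toContinuousLinearEquiv : R d →L[ℝ] R d)))) p.2⟫_ℝ =
      r⁻¹ * ⟪Q p.2, A (Q p.2)⟫_ℝ := by
    have : ⟪(p.2 : R d), Q.symm (A (Q p.2))⟫_ℝ = ⟪Q p.2, A (Q p.2)⟫_ℝ := by
      rw [← Q.inner_map_map, Q.apply_symm_apply]
    simp [inner_smul_right, this]
  rw [hi]
  simp only [smul_eq_mul]
  ring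

theorem Stat.sim {W : Vf d} {O : Set (R d)} (h : Stat W O) {r : ℝ} (hr : 0 < r) (x : R d)
    (Q : R d ≃ₗᵢ[ℝ] R d) : Stat (simV r x Q W) (simP r x Q '' O) := by
  refine ⟨h.1.sim hr x Q, fun X hX => ?_⟩
  obtain ⟨φ, hφ, -⟩ := exists_simH hr x Q
  have hφ' : (φ : R d → R d) = simP r x Q := funext hφ
  have hY : C1c (fun y => Q.symm (X (simP r x Q y))) O := by
    refine c1c_of_vanish (K := φ ⁻¹' tsupport X)
      (Q.symm.toContinuousLinearEquiv.contDiff.comp (hX.1.comp (D12_contDiff r x Q)))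
      (φ.isCompact_preimage.2 hX.2.1) ?_ ?_
    · intro y hy
      obtain ⟨z, hz, hzy⟩ := hX.2.2 hy
      rw [← hφ] at hzy
      rwa [← φ.injective hzy]
    · intro y hy
      have : X (simP r x Q y) = 0 := by
        rw [← hφ]
        exact image_eq_zero_of_notMem_tsupport hy
      simp [this]
  have h0 := h.2 _ hY
  simp only [D12_divT hX.1 r x Q] at h0
  rw [integral_const_mul] at h0
  rw [integral_simV W hr x Q, (mul_eq_zero.1 h0).resolve_left (inv_ne_zero hr.ne'), mul_zero]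

theorem VConv.sim {ι : Type} {l : Filter ι} {V : ι → Vf d} {W : Vf d} {O : Set (R d)}
    (h : VConv l V W O) {r : ℝ} (hr : 0 < r) (x : R d) (Q : R d ≃ₗᵢ[ℝ] R d) :
    VConv l (fun i => simV r x Q (V i)) (simV r x Q W) (simP r x Q '' O) := by
  rintro g hg ⟨K, hK, hKO, h0⟩
  obtain ⟨φ, hφ, -⟩ := exists_simH hr x Q
  simp only [integral_simV _ hr x Q]
  refine Tendsto.const_mul _ (h (fun p => g (simP r x Q p.1, (⟨Q p.2, by simp only [mem_sphere_iff_norm, sub_zero, norm_map, norm_eq_of_mem_sphere]⟩ : S d))) ?_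
    ⟨φ ⁻¹' K, φ.isCompact_preimage.2 hK, ?_, ?_⟩)
  · refine hg.comp (Continuous.prodMk ?_ ?_)
    · exact (D12_contDiff (n := 0) r x Q).continuous.comp continuous_fst
    · exact (Q.continuous.comp (continuous_subtype_val.comp continuous_snd)).subtype_mk _
  · intro y hy
    obtain ⟨z, hz, hzy⟩ := hKO hy
    rw [← hφ] at hzy
    rwa [← φ.injective hzy]
  · intro p hp
    apply h0
    rwa [mem_preimage, hφ] at hp

/-- transport of a defining function along a smooth homeomorphism with onto derivative -/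
theorem D12_wreg {M N : Set (R d)} {y : R d} {ψ : R d → R d} {L : R d →L[ℝ] R d}
    (hψ : ContDiff ℝ ∞ ψ) (hL : HasFDerivAt ψ L y) (hs : Function.Surjective L)
    (hM : ∀ z, z ∈ M ↔ ψ z ∈ N) (h : WReg N (ψ y)) : WReg M y := by
  obtain ⟨f, hf, hf0, hfe⟩ := h
  refine ⟨f ∘ ψ, hf.comp hψ, ?_, ?_⟩
  · have hfd : HasFDerivAt f (fderiv ℝ f (ψ y)) (ψ y) :=
      (hf.differentiable (by simp) _).hasFDerivAt
    rw [(hfd.comp y hL).fderiv]
    intro h0
    apply hf0
    ext1 v
    obtain ⟨w, rfl⟩ := hs v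
    exact DFunLike.congr_fun h0 w
  · filter_upwards [hψ.continuous.continuousAt.tendsto.eventually hfe] with z hz
    rw [hM z, hz]
    rfl

theorem wreg_sim {M : Set (R d)} {y : R d} {r : ℝ} (hr : 0 < r) (x : R d) (Q : R d ≃ₗᵢ[ℝ] R d) :
    WReg (simP r x Q '' M) (simP r x Q y) ↔ WReg M y := by
  obtain ⟨φ, hφ, hφs⟩ := exists_simH hr x Q
  have hφ' : simP r x Q = (φ : R d → R d) := (funext hφ).symm
  constructor
  · intro h
    refine D12_wreg (D12_contDiff r x Q) (D12_hasFDerivAt r x Q y) ?_ ?_ h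
    · intro v
      exact ⟨r • Q.symm v, by simp [smul_smul, hr.ne']⟩
    · intro z
      rw [hφ']
      exact φ.injective.mem_set_image.symm
  · intro h
    have hs : (φ.symm : R d → R d) = fun z => x + r • Q.symm z := funext hφs
    have hL : HasFDerivAt φ.symm (r • (Q.symm.toContinuousLinearEquiv : R d →L[ℝ] R d))
        (simP r x Q y) := by
      rw [hs]
      exact (((Q.symm.toContinuousLinearEquiv : R d →L[ℝ] R d).hasFDerivAt).const_smul r).const_add x
    refine D12_wreg (N := M) ?_ hL ?_ ?_ ?_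
    · rw [hs]
      exact contDiff_const.add (Q.symm.toContinuousLinearEquiv.contDiff.const_smul r)
    · intro v
      exact ⟨r⁻¹ • Q v, by simp [smul_smul, hr.ne']⟩
    · intro z
      rw [hφ', φ.image_eq_preimage_symm]
      rfl
    · rwa [hφ', φ.symm_apply_apply]

end D12

section D13

end D13

end Pool.Agent.MP_5cfeaf_gt.W
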