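import Pool.Agent.MP_5cfeaf_gt.SimA
import Pool.Agent.MP_5cfeaf_gt.Var

attribute [-instance] ProperSMul.toContinuousSMul instCompleteSpaceSubtypeMemSubmoduleOfIsClosedCoe
  instCoeHTCTOfCoeTailOfCoeHTC ContinuousMonoidHom.instCoeOutOfMonoidHomClassOfContinuousMapClass
  TotallySeparatedSpace.t2Space AddQuantale.instAddLeftMono IsScalarTower.complexToReal
  NonUnitalNonAssocSemiring.toAddCommMonoid instCoeHTCOfCoeHeadOfCoeOTC instCoeTCOfCoe
  ContinuousAddMonoidHom.instCoeOutOfAddMonoidHomClassOfContinuousMapClass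
  NonUnitalNonAssocSemiring.toDistrib NonarchimedeanAddGroup.toIsTopologicalAddGroup
  IdemSemiring.toCanonicallyOrderedAdd NumberField.to_charZero littleWedderburn RKHS.instFunLike
  GrpTypeEquivalenceGrp.grpGroup AddGroupWithOne.toAddGroup Valued.toUniformSpace
  NonUnitalNonAssocSemiring.toMulZeroClass LinearOrderedCommMonoidWithZero.toPosMulStrictMono
  AddQuantale.instAddRightMono CStarAlgebra.instOrderClosedTopology
  CoalgHomClass.toSemilinearMapClass IdemSemiring.toSemilatticeSup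
  ContDiffMapSupportedInClass.toDFunLike IdemSemiring.toSemiring
  IsometryClass.instCoeOutIsometryEquiv NormedCommRing.toCommRing TestFunctionClass.toDFunLike
  IsTopologicalTorsor.toContinuousSMul IsTopologicalSemiring.toContinuousAdd
  Quantale.instMulRightMono SeminormedCommRing.toCommRing Fintype.decidableExistsFintype
  Submodule.IsLattice.finite LinearOrderedAddCommGroupWithTop.toAddCommMonoid
  AddCommMonoidWithOne.toAddCommMonoid BooleanRing.toRing Unique.instSubsingleton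
  EuclideanDomain.toCommRing instCoeTOfCoeDep HomeomorphClass.instCoeOutHomeomorph
  instIsModuleTopology CStarAlgebra.toNormedRing LinearOrderedAddCommMonoidWithTop.toAddCommMonoid
  NonUnitalAlgSemiHomClass.toDistribMulActionSemiHomClass DiscreteUniformity.instDiscreteTopology
  RingHomClass.toLinearMapClassNNRat NonAssocRing.toNonUnitalNonAssocRing CommRing.toRing
  RingHomClass.toLinearMapClassRat Group.IsPerfect.subsingleton_of_isMulCommutative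
  MulZeroOneClass.toMulZeroClass instZeroLEOneClass NonAssocCommSemiring.toNonAssocSemiring
  NonAssocSemiring.toNonUnitalNonAssocSemiring Quantale.instMulLeftMono
  IsValuativeTopology.instIsTopologicalAddGroup LieAdmissibleRing.toNonUnitalNonAssocRing
  IdemSemiring.toMulLeftMono instCoeTC MonoidWithZeroHomClass.toZeroHomClass
  MulSemiringAction.toDistribMulAction SetLike.GradeZero.instCommSemiring SubringClass.toRing

section

/-! Block S, file 6: stability inequality and Simons' identity integrated. -/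

set_option autoImplicit false

open MeasureTheory Set Filter Topology Metric
open scoped ENNReal symmDiff Classical InnerProductSpace ContDiff

namespace Pool.Agent.MP_5cfeaf_gt.W

variable {d : ℕ}

section
variable {W : Vf d} {U : Set (R d)} {P : PF d} {L : Submodule ℝ (R d)}

theorem S6_amgm {X A B : ℝ} (hA : 0 ≤ A) (hB : 0 ≤ B) (h : X ^ 2 ≤ 4 * (A * B)) : |X| ≤ A + B :=
  abs_le_of_sq_le_sq (by linarith only [sq_nonneg (A - B), h]) (add_nonneg hA hB)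

theorem S6_add {μ : Measure (R d)} {f g : R d → ℝ} (hf : Integrable f μ) (hg : Integrable g μ) :
    Integrable (fun x => f x + g x) μ := hf.add hg

theorem S6_sub {μ : Measure (R d)} {f g : R d → ℝ} (hf : Integrable f μ) (hg : Integrable g μ) :
    Integrable (fun x => f x - g x) μ := hf.sub hg

theorem S6_off {φ : R d → ℝ} (P : PF d) {x : R d} (h : x ∉ tsupport φ) :
    φ x = 0 ∧ (∀ i, dl P i φ x = 0) ∧ gs P φ x = 0 := by
  have h2 : ∀ i, dl P i φ x = 0 := fun i => S0_dl_zero P i h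
  exact ⟨image_eq_zero_of_notMem_tsupport h, h2, by simp [gs, h2]⟩

theorem S6_int (c : Cx W U P L) {φ : R d → ℝ} (hφ : C1c φ U) {g : R d → ℝ} (hg : Continuous g)
    (h0 : ∀ x, φ x = 0 → (∀ i, dl P i φ x = 0) → gs P φ x = 0 → g x = 0) : Integrable g W.fst :=
  S0_int c.st.1 hφ.2.1 hφ.2.2 hg fun x hx =>
    h0 x (S6_off P hx).1 (S6_off P hx).2.1 (S6_off P hx).2.2

theorem S6_int_sq (c : Cx W U P L) {φ : R d → ℝ} (hφ : C1c φ U) {g : R d → ℝ} (hg : Continuous g) :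
    Integrable (fun x => φ x ^ 2 * g x) W.fst :=
  S6_int c hφ ((hφ.1.continuous.pow 2).mul hg) fun x h _ _ => by simp [h]

theorem S6_int_gs (c : Cx W U P L) {φ : R d → ℝ} (hφ : C1c φ U) {g : R d → ℝ} (hg : Continuous g) :
    Integrable (fun x => g x * gs P φ x) W.fst :=
  S6_int c hφ (hg.mul (S0_cont_gs c.ad.1 hφ.1)) fun x _ _ h => by simp [h]

/-- cross term -/
noncomputable def S6_X (P : PF d) (φ g : R d → ℝ) (x : R d) : ℝ :=
  φ x * ∑ i, dl P i φ x * dl P i g x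

theorem S6_one_le : (1 : WithTop ℕ∞) ≤ ((⊤ : ℕ∞) : WithTop ℕ∞) := by exact_mod_cast le_top

theorem S6_int_X (c : Cx W U P L) {φ : R d → ℝ} (hφ : C1c φ U) {g : R d → ℝ}
    (hg : ContDiff ℝ ∞ g) : Integrable (S6_X P φ g) W.fst :=
  S6_int c hφ (hφ.1.continuous.mul (continuous_finsetSum _ fun i _ =>
    (S0_cont_dl c.ad.1 i hφ.1).mul (S0_cont_dl c.ad.1 i (hg.of_le S6_one_le))))
    fun x h _ _ => by simp [S6_X, h]

theorem S6_X_sq (P : PF d) (φ g : R d → ℝ) (x : R d) :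
    S6_X P φ g x ^ 2 ≤ φ x ^ 2 * (gs P φ x * gs P g x) := by
  rw [S6_X, mul_pow]
  exact mul_le_mul_of_nonneg_left (Finset.sum_mul_sq_le_sq_mul_sq _ _ _) (sq_nonneg _)

theorem S6_ibp (c : Cx W U P L) {φ : R d → ℝ} (hφ : C1c φ U) {g : R d → ℝ} (hg : ContDiff ℝ ∞ g) :
    ∫ x, φ x ^ 2 * lap P g x ∂W.fst = -2 * ∫ x, S6_X P φ g x ∂W.fst := by
  have h := S0_div c.ad c.op c.st (S0_c1c_mul hφ hφ.1) (Y := fun i => dl P i g)
    fun i => (S0_sm_dl c.ad.1 i hg).of_le S6_one_le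
  have hd : ∀ x, DifferentiableAt ℝ φ x := fun x => hφ.1.differentiable one_ne_zero x
  have e1 : (fun x => φ x ^ 2 * lap P g x) = fun x => φ x * φ x * ∑ i, dl P i (dl P i g) x := by
    funext x; rw [lap, sq]
  have e2 : (fun x => ∑ i, dl P i (fun y => φ y * φ y) x * dl P i g x) =
      fun x => 2 * S6_X P φ g x := by
    funext x
    simp only [S0_dl_mul P _ (hd x) (hd x), S6_X, Finset.mul_sum]
    exact Finset.sum_congr rfl fun i _ => by ring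
  rw [e1, h, e2, integral_const_mul]
  ring

theorem S6_mono {φ : R d → ℝ} (hφ : C1c φ U) {f g : R d → ℝ}
    (hf : Integrable f W.fst) (hg : Integrable g W.fst)
    (h0 : ∀ x, φ x = 0 → (∀ i, dl P i φ x = 0) → gs P φ x = 0 → f x ≤ g x)
    (h : ∀ x ∈ W.fst.support ∩ U, f x ≤ g x) : ∫ x, f x ∂W.fst ≤ ∫ x, g x ∂W.fst :=
  S0_mono hf hg fun x hx => by
    by_cases hU : x ∈ U
    · exact h x ⟨hx, hU⟩
    · have hx' : x ∉ tsupport φ := fun h' => hU (hφ.2.2 h')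
      exact h0 x (S6_off P hx').1 (S6_off P hx').2.1 (S6_off P hx').2.2

theorem S6_cont_q (c : Cx W U P L) {ε : ℝ} (hε : 0 < ε) :
    Continuous fun x => gs P (c2 P) x / (4 * (c2 P x + ε)) :=
  (S0_sm_gs c.ad.1 (S0_sm_c2 c.ad.1)).continuous.div
    (continuous_const.mul ((S0_sm_c2 c.ad.1).continuous.add continuous_const)) fun x => by
      have := S0_c2_nonneg P x
      positivity

theorem S6_F (c : Cx W U P L) {x : R d} (hx : x ∈ W.fst.support ∩ U) : PtF P L x :=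
  S4_ptF c.hd c.ad c.op c.st c.tg hx

theorem S6_kato (c : Cx W U P L) {x : R d} (hx : x ∈ W.fst.support ∩ U) :
    gs P (c2 P) x ≤ 4 * (c2 P x * tau P x) := by
  have F := S6_F c hx
  have h1 := F.kato
  have h2 := mul_nonneg (S0_c2_nonneg P x) F.tau0
  have h3 : 0 ≤ 2 / (3 * ((d : ℝ) + 1)) := by positivity
  linarith only [mul_nonneg h3 h2, h1]

/-- `Stab` with `ζ = φ √(c+ε)`, `c = c2 P`:
`gs ζ = (c+ε) gs φ + φ ∑ dl φ * dl c + φ^2 gs c/(4(c+ε))` (at every point), and by `S0_div`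
`∫ φ ∑ dl φ * dl c = -(1/2) ∫ φ^2 lap c = - ∫ φ^2 (tau - c^2)`; drop `ε ∫ c φ^2 ≥ 0`. -/
theorem S6_stab (c : Cx W U P L) {φ : R d → ℝ} (hφ : C1c φ U) {ε : ℝ} (hε : 0 < ε) :
    ∫ x, φ x ^ 2 * (tau P x - gs P (c2 P) x / (4 * (c2 P x + ε))) ∂W.fst ≤
      ∫ x, (c2 P x + ε) * gs P φ x ∂W.fst := by
  have hP : SmP P := c.ad.1
  have hc := S0_sm_c2 hP
  have hpos : ∀ x, 0 < c2 P x + ε := fun x => add_pos_of_nonneg_of_pos (S0_c2_nonneg P x) hε
  have hs : ContDiff ℝ 1 fun x => √(c2 P x + ε) :=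
    ((hc.of_le S6_one_le).add contDiff_const).sqrt fun x => (hpos x).ne'
  have hst := c.sb U P c.op subset_rfl c.ad _ (S0_c1c_mul hφ hs)
  have hd : ∀ x, DifferentiableAt ℝ φ x := fun x => hφ.1.differentiable one_ne_zero x
  have hdc : ∀ x, DifferentiableAt ℝ (c2 P) x := fun x =>
    (hc.of_le S6_one_le).differentiable one_ne_zero x
  have hds : ∀ i x, dl P i (fun x => √(c2 P x + ε)) x =
      1 / (2 * √(c2 P x + ε)) * dl P i (c2 P) x := by
    intro i x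
    have h1 : HasDerivAt (fun t : ℝ => √(t + ε)) (1 / (2 * √(c2 P x + ε))) (c2 P x) :=
      ((hasDerivAt_id (c2 P x)).add_const ε).sqrt (hpos x).ne'
    exact S0_dl_comp P i h1 (hdc x)
  have e1 : (fun x => gs P (fun x => φ x * √(c2 P x + ε)) x) = fun x =>
      φ x ^ 2 * (gs P (c2 P) x / (4 * (c2 P x + ε))) + S6_X P φ (c2 P) x +
        (c2 P x + ε) * gs P φ x := by
    funext x
    have hsq : √(c2 P x + ε) ^ 2 = c2 P x + ε := Real.sq_sqrt (hpos x).le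
    have hs0 : √(c2 P x + ε) ≠ 0 := (Real.sqrt_pos.2 (hpos x)).ne'
    simp only [gs, S0_dl_mul P _ (hd x) (hs.differentiable one_ne_zero x), hds, S6_X,
      Finset.mul_sum, Finset.sum_div, ← Finset.sum_add_distrib]
    refine Finset.sum_congr rfl fun i _ => ?_
    generalize √(c2 P x + ε) = s at hsq hs0
    rw [← hsq]
    field_simp
    ring
  have i1 := S6_int_sq c hφ (S6_cont_q c hε)
  have i2 := S6_int_X c hφ hc
  have i3 := S6_int_gs c hφ (g := fun x => c2 P x + ε) (hc.continuous.add continuous_const)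
  have i4 := S6_int_sq c hφ (S0_sm_lap hP hc).continuous
  have i5 := S6_int_sq c hφ (g := fun x => c2 P x ^ 2) (hc.continuous.pow 2)
  have h5 : ∫ x, φ x ^ 2 * c2 P x ^ 2 ∂W.fst ≤
      ∫ x, c2 P x * (φ x * √(c2 P x + ε)) ^ 2 ∂W.fst := by
    refine S0_mono i5 (S6_int c hφ (hc.continuous.mul ((hφ.1.continuous.mul hs.continuous).pow 2))
      fun x h _ _ => by simp [h]) fun x _ => ?_
    rw [mul_pow, Real.sq_sqrt (hpos x).le]
    linarith only [mul_nonneg (mul_nonneg (S0_c2_nonneg P x) (sq_nonneg (φ x))) hε.le]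
  have e2 : (fun x => φ x ^ 2 * (tau P x - gs P (c2 P) x / (4 * (c2 P x + ε)))) = fun x =>
      1 / 2 * (φ x ^ 2 * lap P (c2 P) x) + φ x ^ 2 * c2 P x ^ 2 -
        φ x ^ 2 * (gs P (c2 P) x / (4 * (c2 P x + ε))) := by
    funext x; rw [tau]; ring
  rw [e1, integral_add (S6_add i1 i2) i3, integral_add i1 i2] at hst
  rw [e2, integral_sub (S6_add (i4.const_mul _) i5) i1, integral_add (i4.const_mul _) i5,
    integral_const_mul, S6_ibp c hφ hc]
  linarith only [hst, h5]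

/-- `S6_stab` and `PtF.kato` -/
theorem S6_tau (c : Cx W U P L) {φ : R d → ℝ} (hφ : C1c φ U) {ε : ℝ} (hε : 0 < ε) :
    ∫ x, φ x ^ 2 * tau P x ∂W.fst ≤
      3 * ((d : ℝ) + 1) / 2 * ∫ x, (c2 P x + ε) * gs P φ x ∂W.fst := by
  have hP : SmP P := c.ad.1
  have h := S6_stab c hφ hε
  have i1 := S6_int_sq c hφ (S0_sm_tau hP).continuous
  have i2 := S6_int_sq c hφ (g := fun x => tau P x - gs P (c2 P) x / (4 * (c2 P x + ε)))
    ((S0_sm_tau hP).continuous.sub (S6_cont_q c hε))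
  have hd : (0 : ℝ) ≤ d := Nat.cast_nonneg d
  have h2 : ∫ x, 2 / (3 * ((d : ℝ) + 1)) * (φ x ^ 2 * tau P x) ∂W.fst ≤
      ∫ x, φ x ^ 2 * (tau P x - gs P (c2 P) x / (4 * (c2 P x + ε))) ∂W.fst := by
    refine S6_mono (P := P) hφ (i1.const_mul _) i2 (fun x h _ _ => by simp [h]) fun x hx => ?_
    have F := S6_F c hx
    have hc0 := S0_c2_nonneg P x
    have h3 : 2 / (3 * ((d : ℝ) + 1)) ≤ 1 := by
      rw [div_le_one (by positivity)]; linarith
    have h4 : gs P (c2 P) x / (4 * (c2 P x + ε)) ≤ (1 - 2 / (3 * ((d : ℝ) + 1))) * tau P x := by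
      rw [div_le_iff₀ (by positivity)]
      have := mul_nonneg (mul_nonneg (sub_nonneg.2 h3) F.tau0) hε.le
      linarith only [F.kato, this]
    linarith only [mul_le_mul_of_nonneg_left h4 (sq_nonneg (φ x))]
  rw [integral_const_mul] at h2
  have h3 := mul_le_mul_of_nonneg_left (h2.trans h)
    (show 0 ≤ 3 * ((d : ℝ) + 1) / 2 by positivity)
  have h4 : 3 * ((d : ℝ) + 1) / 2 * (2 / (3 * ((d : ℝ) + 1))) = 1 := by field_simp
  rwa [← mul_assoc, h4, one_mul] at h3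

/-- `∫ φ^2 c^2 = ∫ φ^2 tau + ∫ φ ∑ dl φ * dl c`, `|φ ∑ dl φ * dl c| ≤ φ^2 tau + c gs φ`
(Cauchy-Schwarz and `gs c ≤ 4 c tau`) -/
theorem S6_c4 (c : Cx W U P L) {φ : R d → ℝ} (hφ : C1c φ U) :
    ∫ x, φ x ^ 2 * c2 P x ^ 2 ∂W.fst ≤
      2 * ∫ x, φ x ^ 2 * tau P x ∂W.fst + ∫ x, c2 P x * gs P φ x ∂W.fst := by
  have hP : SmP P := c.ad.1
  have hc := S0_sm_c2 hP
  have i1 := S6_int_sq c hφ (S0_sm_tau hP).continuous
  have i2 := S6_int_X c hφ hc
  have i3 := S6_int_gs c hφ hc.continuous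
  have i4 := S6_int_sq c hφ (S0_sm_lap hP hc).continuous
  have i5 := S6_int_sq c hφ (g := fun x => c2 P x ^ 2) (hc.continuous.pow 2)
  have h : ∫ x, (φ x ^ 2 * c2 P x ^ 2 + 1 / 2 * (φ x ^ 2 * lap P (c2 P) x)) + S6_X P φ (c2 P) x
      ∂W.fst ≤ ∫ x, 2 * (φ x ^ 2 * tau P x) + c2 P x * gs P φ x ∂W.fst := by
    refine S6_mono (P := P) hφ ((i5.add (i4.const_mul _)).add i2) ((i1.const_mul _).add i3)
      (fun x h _ h' => by simp [h, h', S6_X]) fun x hx => ?_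
    have F := S6_F c hx
    have h1 : |S6_X P φ (c2 P) x| ≤ φ x ^ 2 * tau P x + c2 P x * gs P φ x := by
      refine S6_amgm (mul_nonneg (sq_nonneg _) F.tau0)
        (mul_nonneg (S0_c2_nonneg P x) (S0_gs_nonneg P φ x)) ((S6_X_sq P φ _ x).trans ?_)
      have := mul_le_mul_of_nonneg_left (mul_le_mul_of_nonneg_left (S6_kato c hx)
        (S0_gs_nonneg P φ x)) (sq_nonneg (φ x))
      linarith
    have h2 := (abs_le.1 h1).2
    have h3 : φ x ^ 2 * tau P x =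
        φ x ^ 2 * c2 P x ^ 2 + 1 / 2 * (φ x ^ 2 * lap P (c2 P) x) := by rw [tau]; ring
    linarith
  rw [integral_add (S6_add i5 (i4.const_mul _)) i2, integral_add i5 (i4.const_mul _),
    integral_add (i1.const_mul _) i3, integral_const_mul, integral_const_mul, S6_ibp c hφ hc] at h
  linarith

/-- `g2 = lap w2 / 2 + c w2`, `∫ φ^2 lap w2 / 2 = - ∫ φ ∑ dl φ * dl w2`,
`|φ ∑ dl φ * dl w2| ≤ φ^2 g2/2 + 2 w2 gs φ` (`PtF.gsw`) -/
theorem S6_g2 (c : Cx W U P L) {φ : R d → ℝ} (hφ : C1c φ U) :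
    ∫ x, φ x ^ 2 * g2 P L x ∂W.fst ≤
      4 * ∫ x, w2 P L x * gs P φ x ∂W.fst + 2 * ∫ x, φ x ^ 2 * (c2 P x * w2 P L x) ∂W.fst := by
  have hP : SmP P := c.ad.1
  have hc := S0_sm_c2 hP
  have hw := S0_sm_w2 hP L
  have i1 := S6_int_sq c hφ (S0_sm_g2 hP L).continuous
  have i2 := S6_int_X c hφ hw
  have i3 := S6_int_gs c hφ hw.continuous
  have i4 := S6_int_sq c hφ (S0_sm_lap hP hw).continuous
  have i5 := S6_int_sq c hφ (g := fun x => c2 P x * w2 P L x) (hc.continuous.mul hw.continuous)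
  have h : ∫ x, φ x ^ 2 * g2 P L x ∂W.fst ≤
      ∫ x, (4 * (w2 P L x * gs P φ x) + 2 * (φ x ^ 2 * (c2 P x * w2 P L x))) +
        (φ x ^ 2 * lap P (w2 P L) x + 2 * S6_X P φ (w2 P L) x) ∂W.fst := by
    refine S6_mono (P := P) hφ i1 (((i3.const_mul _).add (i5.const_mul _)).add
      (i4.add (i2.const_mul _))) (fun x h _ h' => by simp [h, h', S6_X]) fun x hx => ?_
    have F := S6_F c hx
    have h1 : |S6_X P φ (w2 P L) x| ≤ φ x ^ 2 * g2 P L x / 2 + 2 * (w2 P L x * gs P φ x) := by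
      have a1 := mul_nonneg (sq_nonneg (φ x)) F.g20
      have a2 := mul_nonneg F.w20 (S0_gs_nonneg P φ x)
      refine S6_amgm (by linarith) (by linarith) ((S6_X_sq P φ _ x).trans (le_of_eq ?_))
      rw [F.gsw]; ring
    have h2 := (abs_le.1 h1).1
    rw [F.lapw]
    linarith only [h2]
  rw [integral_add (S6_add (i3.const_mul _) (i5.const_mul _)) (S6_add i4 (i2.const_mul _)),
    integral_add (i3.const_mul _) (i5.const_mul _), integral_add i4 (i2.const_mul _),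
    integral_const_mul, integral_const_mul, integral_const_mul, S6_ibp c hφ hw] at h
  linarith

/-- approximate homogeneity.  `Xc/2 + c = div Y - E`, `E^2 ≤ w2 c^3` (`PtF.divY`), `S0_div`,
`|∑ dl Θ * Y| ≤ b √(c g2) ≤ b (η c + g2/η)`, `|Θ E| ≤ b √(c^2 (c w2)) ≤ b (η c^2 + c w2/η)`; both vanish off
`tsupport Θ`, where `φ = 1`. -/
theorem S6_hom (c : Cx W U P L) {Θ φ : R d → ℝ} (hΘ : C1c Θ U) (hφ : C1c φ U)
    (h1 : ∀ x ∈ tsupport Θ, φ x = 1) {b η : ℝ} (hb : ∀ x, |Θ x| ≤ b ∧ ‖fderiv ℝ Θ x‖ ≤ b) (hη : 0 < η) :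
    |∫ x, Θ x * (Xc P L x / 2 + c2 P x) ∂W.fst| ≤
      b * (η * (∫ x, φ x ^ 2 * c2 P x ∂W.fst + ∫ x, φ x ^ 2 * c2 P x ^ 2 ∂W.fst) +
        η⁻¹ * (∫ x, φ x ^ 2 * g2 P L x ∂W.fst +
          ∫ x, φ x ^ 2 * (c2 P x * w2 P L x) ∂W.fst)) := by
  have hP : SmP P := c.ad.1
  have hc := S0_sm_c2 hP
  have hw := S0_sm_w2 hP L
  have hb0 : 0 ≤ b := (abs_nonneg _).trans (hb 0).1
  have hη' : 0 < η⁻¹ := inv_pos.2 hη
  have hηη : η * η⁻¹ = 1 := mul_inv_cancel₀ hη.ne'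
  have hY : ∀ i, ContDiff ℝ 1 (Yv P L i) := fun i => (S0_sm_Yv hP L i).of_le S6_one_le
  have i1 := S6_int_sq c hφ hc.continuous
  have i2 := S6_int_sq c hφ (g := fun x => c2 P x ^ 2) (hc.continuous.pow 2)
  have i3 := S6_int_sq c hφ (S0_sm_g2 hP L).continuous
  have i4 := S6_int_sq c hφ (g := fun x => c2 P x * w2 P L x) (hc.continuous.mul hw.continuous)
  have j1 : Integrable (fun x => Θ x * (Xc P L x / 2 + c2 P x)) W.fst :=
    S6_int c hΘ (hΘ.1.continuous.mul (((S0_sm_Xc hP L).continuous.div_const 2).add hc.continuous))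
      fun x h _ _ => by simp [h]
  have j2 : Integrable (fun x => Θ x * ∑ i, dl P i (Yv P L i) x) W.fst :=
    S6_int c hΘ (hΘ.1.continuous.mul (continuous_finsetSum _ fun i _ => S0_cont_dl hP i (hY i)))
      fun x h _ _ => by simp [h]
  have j3 : Integrable (fun x => ∑ i, dl P i Θ x * Yv P L i x) W.fst :=
    S6_int c hΘ (continuous_finsetSum _ fun i _ => (S0_cont_dl hP i hΘ.1).mul (hY i).continuous)
      fun x _ h _ => by simp [h]
  have hdiv := S0_div c.ad c.op c.st hΘ hY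
  have e1 : ∫ x, Θ x * (Xc P L x / 2 + c2 P x) ∂W.fst =
      ∫ x, (Θ x * (Xc P L x / 2 + c2 P x) - Θ x * ∑ i, dl P i (Yv P L i) x) -
        ∑ i, dl P i Θ x * Yv P L i x ∂W.fst := by
    rw [integral_sub (S6_sub j1 j2) j3, integral_sub j1 j2, hdiv]; ring
  have iR := ((((i1.add i2).const_mul η).add ((i3.add i4).const_mul η⁻¹))).const_mul b
  have h : ∫ x, |(Θ x * (Xc P L x / 2 + c2 P x) - Θ x * ∑ i, dl P i (Yv P L i) x) -
        ∑ i, dl P i Θ x * Yv P L i x| ∂W.fst ≤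
      ∫ x, b * (η * (φ x ^ 2 * c2 P x + φ x ^ 2 * c2 P x ^ 2) +
        η⁻¹ * (φ x ^ 2 * g2 P L x + φ x ^ 2 * (c2 P x * w2 P L x))) ∂W.fst := by
    refine S0_mono ((j1.sub j2).sub j3).abs iR fun x hx => ?_
    have hc0 := S0_c2_nonneg P x
    by_cases hT : x ∈ tsupport Θ
    · have hxU : x ∈ W.fst.support ∩ U := ⟨hx, hΘ.2.2 hT⟩
      have F := S6_F c hxU
      have G := S4_ptG c.ad c.tg hxU
      have g0 := F.g20
      have w0 := F.w20
      have a1 : |∑ i, dl P i Θ x * Yv P L i x| ≤ b * η * c2 P x + b * η⁻¹ * g2 P L x := by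
        refine S6_amgm (by positivity) (by positivity)
          ((Finset.sum_mul_sq_le_sq_mul_sq _ _ _).trans ?_)
        have b1 : ∑ i, dl P i Θ x ^ 2 ≤ b ^ 2 :=
          (G.gsle Θ).trans (pow_le_pow_left₀ (norm_nonneg _) (hb x).2 2)
        have b2 := mul_le_mul b1 F.yle (Finset.sum_nonneg fun i _ => sq_nonneg _) (sq_nonneg b)
        have b3 : b * η * c2 P x * (b * η⁻¹ * g2 P L x) =
            b ^ 2 * (c2 P x * g2 P L x) * (η * η⁻¹) := by ring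
        have b4 : 0 ≤ b ^ 2 * (c2 P x * g2 P L x) := by positivity
        rw [b3, hηη]
        linarith only [b2, b4]
      have a2 : |Θ x * (Xc P L x / 2 + c2 P x) - Θ x * ∑ i, dl P i (Yv P L i) x| ≤
          b * η * c2 P x ^ 2 + b * η⁻¹ * (c2 P x * w2 P L x) := by
        refine S6_amgm (by positivity) (by positivity) ?_
        have b1 : Θ x ^ 2 ≤ b ^ 2 := by
          rw [← sq_abs]; exact pow_le_pow_left₀ (abs_nonneg _) (hb x).1 2
        have b2 := mul_le_mul b1 F.divY (sq_nonneg _) (sq_nonneg b)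
        have b3 : b * η * c2 P x ^ 2 * (b * η⁻¹ * (c2 P x * w2 P L x)) =
            b ^ 2 * (w2 P L x * c2 P x ^ 3) * (η * η⁻¹) := by ring
        have b4 : 0 ≤ b ^ 2 * (w2 P L x * c2 P x ^ 3) := by positivity
        have b5 : (Θ x * (Xc P L x / 2 + c2 P x) - Θ x * ∑ i, dl P i (Yv P L i) x) ^ 2 =
            Θ x ^ 2 * (∑ i, dl P i (Yv P L i) x - Xc P L x / 2 - c2 P x) ^ 2 := by ring
        rw [b3, hηη, b5]
        linarith only [b2, b4]
      refine (abs_sub _ _).trans ?_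
      rw [h1 x hT]
      linarith
    · obtain ⟨z1, z2, -⟩ := S6_off P hT
      simp only [z1, z2, zero_mul, Finset.sum_const_zero, sub_zero, abs_zero]
      by_cases hU : x ∈ U
      · have F := S6_F c ⟨hx, hU⟩
        have g0 := F.g20
        have w0 := F.w20
        positivity
      · have : φ x = 0 := image_eq_zero_of_notMem_tsupport fun h' => hU (hφ.2.2 h')
        simp [this]
  rw [integral_const_mul, integral_add ((S6_add i1 i2).const_mul η) ((S6_add i3 i4).const_mul η⁻¹),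
    integral_const_mul, integral_const_mul, integral_add i1 i2, integral_add i3 i4] at h
  rw [e1]
  exact (abs_integral_le_integral_abs).trans h

end

end Pool.Agent.MP_5cfeaf_gt.W

end

section

/-! Block S, file 7: the Hardy step. -/

set_option autoImplicit false

open MeasureTheory Set Filter Topology Metric
open scoped ENNReal symmDiff Classical InnerProductSpace ContDiff

namespace Pool.Agent.MP_5cfeaf_gt.W

variable {d : ℕ}

section
variable {W : Vf d} {U : Set (R d)} {P : PF d} {L : Submodule ℝ (R d)}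

theorem S7_deriv_le {f : ℝ → ℝ} (hf : Differentiable ℝ f) {c : ℝ} (h : ∀ t, t ≤ c → f t = 0)
    {t : ℝ} (ht : t ≤ c) : deriv f t = 0 := by
  have h1 : HasDerivWithinAt f 0 (Iic t) t :=
    (hasDerivWithinAt_const t (Iic t) (0 : ℝ)).congr (fun s hs => h s (le_trans hs ht)) (h t ht)
  exact (uniqueDiffWithinAt_Iic t).eq_deriv _ (hf t).hasDerivAt.hasDerivWithinAt h1

theorem S7_deriv_ge {f : ℝ → ℝ} (hf : Differentiable ℝ f) {c : ℝ} (h : ∀ t, c ≤ t → f t = 0)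
    {t : ℝ} (ht : c ≤ t) : deriv f t = 0 := by
  have h1 : HasDerivWithinAt f 0 (Ici t) t :=
    (hasDerivWithinAt_const t (Ici t) (0 : ℝ)).congr (fun s hs => h s (le_trans ht hs)) (h t ht)
  exact (uniqueDiffWithinAt_Ici t).eq_deriv _ (hf t).hasDerivAt.hasDerivWithinAt h1

theorem S7_deriv_out {f : ℝ → ℝ} (hf : ContDiff ℝ 1 f) {a b : ℝ}
    (h : ∀ t, t ≤ a ∨ b ≤ t → f t = 0) (t : ℝ) (ht : t ≤ a ∨ b ≤ t) : deriv f t = 0 :=
  ht.elim (S7_deriv_le (hf.differentiable one_ne_zero) fun s hs => h s (Or.inl hs))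
    (S7_deriv_ge (hf.differentiable one_ne_zero) fun s hs => h s (Or.inr hs))

/-- off the shell one of the two factors is in its vanishing range -/
theorem S7_out {a b : ℝ} {x : R d} (hx : x ∉ K0 L a b) :
    (rh L x ≤ (a ^ 2)⁻¹ ∨ a ^ 2 ≤ rh L x) ∨ b ^ 2 ≤ sg L x := by
  by_contra h
  push Not at h
  exact hx ⟨h.1.1.le, h.1.2.le, h.2.le⟩

theorem S7_dl (P : PF d) (L : Submodule ℝ (R d)) {f g : ℝ → ℝ} (hf : ContDiff ℝ 1 f)
    (hg : ContDiff ℝ 1 g) (i : Fin (d + 1)) (x : R d) :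
    dl P i (fun x => f (rh L x) * g (sg L x)) x =
      f (rh L x) * (deriv g (sg L x) * dl P i (sg L) x) +
        deriv f (rh L x) * dl P i (rh L) x * g (sg L x) := by
  have h1 := (S0_sm_rh L).differentiable (by simp) x
  have h2 := (S0_sm_sg L).differentiable (by simp) x
  have h3 := hf.differentiable one_ne_zero (rh L x)
  have h4 := hg.differentiable one_ne_zero (sg L x)
  rw [S0_dl_mul P i (f := fun x => f (rh L x)) (g := fun x => g (sg L x)) (h3.comp x h1)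
    (h4.comp x h2), S0_dl_comp P i h3.hasDerivAt h1, S0_dl_comp P i h4.hasDerivAt h2]

theorem S7_dlc {P : PF d} (hP : SmP P) {Y : Fin (d + 1) → R d → ℝ} (hY : ∀ i, ContDiff ℝ ∞ (Y i))
    (x : R d) : ∑ i, dl P i (fun y => c2 P y * Y i y) x =
      c2 P x * ∑ i, dl P i (Y i) x + ∑ i, Y i x * dl P i (c2 P) x := by
  rw [Finset.mul_sum, ← Finset.sum_add_distrib]
  refine Finset.sum_congr rfl fun i _ => ?_
  rw [S0_dl_mul P i ((S0_sm_c2 hP).differentiable (by simp) x)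
    ((hY i).differentiable (by simp) x)]
  ring

/-- functions of `rh` and `sg` supported in the shell -/
theorem S7_c1c {a b : ℝ} (ha : 0 < a) (hK : K0 L a b ⊆ U) {f g : ℝ → ℝ} (hf : ContDiff ℝ 1 f)
    (hg : ContDiff ℝ 1 g) (hf0 : ∀ t, t ≤ (a ^ 2)⁻¹ ∨ a ^ 2 ≤ t → f t = 0)
    (hg0 : ∀ t, b ^ 2 ≤ t → g t = 0) :
    C1c (fun x => f (rh L x) * g (sg L x)) U ∧
      tsupport (fun x => f (rh L x) * g (sg L x)) ⊆ K0 L a b := by
  have h0 : ∀ x, x ∉ K0 L a b → f (rh L x) * g (sg L x) = 0 := fun x hx =>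
    (S7_out hx).elim (fun h => by rw [hf0 _ h, zero_mul]) fun h => by rw [hg0 _ h, mul_zero]
  have h1 : tsupport (fun x => f (rh L x) * g (sg L x)) ⊆ K0 L a b :=
    closure_minimal (fun x hx => by_contra fun h => hx (h0 x h)) (S0_K0 L a b).isClosed
  exact ⟨⟨(hf.comp ((S0_sm_rh L).of_le (by simp))).mul (hg.comp ((S0_sm_sg L).of_le (by simp))),
    HasCompactSupport.intro (S0_K0 L a b) h0, h1.trans hK⟩, h1⟩

/-- divergence theorem for the fields `c2 * Y`, as one integral -/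
theorem S7_div (c : Cx W U P L) {Φ : R d → ℝ} (hΦ : C1c Φ U) {Y : Fin (d + 1) → R d → ℝ}
    (hY : ∀ i, ContDiff ℝ ∞ (Y i)) {h : R d → ℝ}
    (h1 : ∀ x ∈ W.fst.support ∩ U, h x = Φ x * (c2 P x * ∑ i, dl P i (Y i) x +
      ∑ i, Y i x * dl P i (c2 P) x) + c2 P x * ∑ i, Y i x * dl P i Φ x)
    (h2 : ∀ x, x ∉ U → h x = 0) : ∫ x, h x ∂W.fst = 0 := by
  have hP : SmP P := c.ad.1
  have hc := S0_sm_c2 hP
  have hY1 : ∀ i, ContDiff ℝ 1 fun y => c2 P y * Y i y := fun i => (hc.mul (hY i)).of_le (by simp)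
  have h3 := S0_div c.ad c.op c.st hΦ hY1
  have i1 : Integrable (fun x => Φ x * ∑ i, dl P i (fun y => c2 P y * Y i y) x) W.fst :=
    S0_int_mul c.st.1 hΦ.1.continuous hΦ.2.1 hΦ.2.2
      (continuous_finsetSum _ fun i _ => S0_cont_dl hP i (hY1 i))
  have i2 : Integrable (fun x => ∑ i, dl P i Φ x * (c2 P x * Y i x)) W.fst :=
    S0_int c.st.1 hΦ.2.1 hΦ.2.2
      (continuous_finsetSum _ fun i _ => (S0_cont_dl hP i hΦ.1).mul (hY1 i).continuous)
      fun x hx => Finset.sum_eq_zero fun i _ => by rw [S0_dl_zero P i hx, zero_mul]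
  rw [← add_eq_zero_iff_eq_neg, ← integral_add i1 i2] at h3
  rw [← h3]
  refine integral_congr_ae ((S0_ae W.fst).mono fun x hx => ?_)
  by_cases hU : x ∈ U
  · simp only
    rw [h1 x ⟨hx, hU⟩, S7_dlc hP hY]
    congr 1
    rw [Finset.mul_sum]
    exact Finset.sum_congr rfl fun i _ => by ring
  · have hx' : x ∉ tsupport Φ := fun h => hU (hΦ.2.2 h)
    simp only
    rw [h2 x hU, image_eq_zero_of_notMem_tsupport hx', zero_mul, zero_add]
    exact (Finset.sum_eq_zero fun i _ => by rw [S0_dl_zero P i hx', zero_mul]).symm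

/-- radial integration by parts: `S0_div` with `Y i = c2 * Xf i`, `PtG.divX`, `PtG.xrh`, `PtG.dsg`, `PtG.xz` -/
theorem S7_rad (c : Cx W U P L) {a b : ℝ} (ha : 0 < a) (hK : K0 L a b ⊆ U) {f g : ℝ → ℝ}
    (hf : ContDiff ℝ 1 f) (hg : ContDiff ℝ 1 g) (hf0 : ∀ t, t ≤ (a ^ 2)⁻¹ ∨ a ^ 2 ≤ t → f t = 0)
    (hg0 : ∀ t, b ^ 2 ≤ t → g t = 0) :
    ∫ x, f (rh L x) * g (sg L x) * (Xc P L x / 2 + c2 P x) ∂W.fst =
      ∫ x, c2 P x * g (sg L x) * ((1 - ((d : ℝ) - Module.finrank ℝ L) / 2) * f (rh L x) -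
        (rh L x - w2 P L x) * deriv f (rh L x)) ∂W.fst := by
  have hP : SmP P := c.ad.1
  obtain ⟨hΦ, -⟩ := S7_c1c ha hK hf hg hf0 hg0
  have hc := (S0_sm_c2 hP).continuous
  have hr := (S0_sm_rh L).continuous
  have hs := (S0_sm_sg L).continuous
  have hw := (S0_sm_w2 hP L).continuous
  have hX := (S0_sm_Xc hP L).continuous
  have hf1 := hf.continuous
  have hg1 := hg.continuous
  have hf2 := hf.continuous_deriv le_rfl
  have z1 : ∀ x, x ∉ K0 L a b → f (rh L x) * g (sg L x) * (Xc P L x / 2 + c2 P x) = 0 :=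
    fun x hx => (S7_out hx).elim (fun h => by rw [hf0 _ h]; ring) fun h => by rw [hg0 _ h]; ring
  have z2 : ∀ x, x ∉ K0 L a b → c2 P x * g (sg L x) * ((1 - ((d : ℝ) - Module.finrank ℝ L) / 2) *
      f (rh L x) - (rh L x - w2 P L x) * deriv f (rh L x)) = 0 :=
    fun x hx => (S7_out hx).elim (fun h => by rw [hf0 _ h, S7_deriv_out hf hf0 _ h]; ring)
      fun h => by rw [hg0 _ h]; ring
  have i1 := S0_int c.st.1 (S0_K0 L a b) hK (by fun_prop) z1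
  have i2 := S0_int c.st.1 (S0_K0 L a b) hK (by fun_prop) z2
  rw [← sub_eq_zero, ← integral_sub i1 i2, ← mul_eq_zero_iff_left (two_ne_zero (α := ℝ)),
    ← integral_const_mul]
  refine S7_div c hΦ (S0_sm_Xf L) (fun x hx => ?_) fun x hx => ?_
  · have G := S4_ptG c.ad c.tg hx
    have e1 : ∑ i, Xf L i x * dl P i (fun x => f (rh L x) * g (sg L x)) x =
        2 * f (rh L x) * deriv g (sg L x) * ∑ i, Xf L i x * Zf L i x +
          deriv f (rh L x) * g (sg L x) * ∑ i, Xf L i x * dl P i (rh L) x := by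
      rw [Finset.mul_sum, Finset.mul_sum, ← Finset.sum_add_distrib]
      refine Finset.sum_congr rfl fun i _ => ?_
      rw [S7_dl P L hf hg, G.dsg]
      ring
    rw [e1, G.xz, G.xrh, G.divX]
    unfold Xc
    ring
  · rw [z1 x fun h => hx (hK h), z2 x fun h => hx (hK h)]
    ring

/-- integration by parts along the spine: `S0_div` with `Y i = c2 * Zf i`, `PtF.zc`, `PtG.divZ`,
`PtG.zrh`, `PtG.dsg` -/
theorem S7_spine (c : Cx W U P L) {a b : ℝ} (ha : 0 < a) (hK : K0 L a b ⊆ U) {f g : ℝ → ℝ}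
    (hf : ContDiff ℝ 1 f) (hg : ContDiff ℝ 1 g) (hf0 : ∀ t, t ≤ (a ^ 2)⁻¹ ∨ a ^ 2 ≤ t → f t = 0)
    (hg0 : ∀ t, b ^ 2 ≤ t → g t = 0) :
    ∫ x, c2 P x * f (rh L x) * ((Module.finrank ℝ L : ℝ) * g (sg L x) +
      2 * sg L x * deriv g (sg L x)) ∂W.fst = 0 := by
  obtain ⟨hΦ, -⟩ := S7_c1c ha hK hf hg hf0 hg0
  refine S7_div c hΦ (S0_sm_Zf L) (fun x hx => ?_) fun x hx => ?_
  · have G := S4_ptG c.ad c.tg hx
    have F := S4_ptF c.hd c.ad c.op c.st c.tg hx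
    have e1 : ∑ i, Zf L i x * dl P i (fun x => f (rh L x) * g (sg L x)) x =
        2 * f (rh L x) * deriv g (sg L x) * ∑ i, Zf L i x ^ 2 +
          deriv f (rh L x) * g (sg L x) * ∑ i, Zf L i x * dl P i (rh L) x := by
      rw [Finset.mul_sum, Finset.mul_sum, ← Finset.sum_add_distrib]
      refine Finset.sum_congr rfl fun i _ => ?_
      rw [S7_dl P L hf hg, G.dsg]
      ring
    rw [e1, G.zrh, F.zc, G.divZ, show ∑ i, Zf L i x ^ 2 = sg L x from rfl]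
    ring
  · refine (S7_out fun h => hx (hK h)).elim (fun h => by rw [hf0 _ h]; ring) fun h => ?_
    rw [hg0 _ h, S7_deriv_ge (hg.differentiable one_ne_zero) hg0 h]
    ring

/-- gradient of the test function on the support -/
theorem S7_gs {x : R d} (hx : PtG P L x) {f g : ℝ → ℝ} (hf : ContDiff ℝ 1 f) (hg : ContDiff ℝ 1 g) :
    gs P (fun x => f (rh L x) * g (sg L x)) x =
      4 * (rh L x - w2 P L x) * deriv f (rh L x) ^ 2 * g (sg L x) ^ 2 +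
        4 * sg L x * deriv g (sg L x) ^ 2 * f (rh L x) ^ 2 := by
  have e1 : gs P (fun x => f (rh L x) * g (sg L x)) x =
      (deriv f (rh L x) * g (sg L x)) ^ 2 * ∑ i, dl P i (rh L) x ^ 2 +
        4 * (f (rh L x) * deriv g (sg L x)) ^ 2 * ∑ i, Zf L i x ^ 2 +
        4 * (f (rh L x) * deriv g (sg L x) * deriv f (rh L x) * g (sg L x)) *
          ∑ i, Zf L i x * dl P i (rh L) x := by
    unfold gs
    rw [Finset.mul_sum, Finset.mul_sum, Finset.mul_sum, ← Finset.sum_add_distrib,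
      ← Finset.sum_add_distrib]
    refine Finset.sum_congr rfl fun i _ => ?_
    rw [S7_dl P L hf hg, hx.dsg]
    ring
  rw [e1, hx.zrh, show ∑ i, Zf L i x ^ 2 = sg L x from rfl,
    show ∑ i, dl P i (rh L) x ^ 2 = gs P (rh L) x from rfl, hx.gsrh]
  ring

end

end Pool.Agent.MP_5cfeaf_gt.W

end

section

/-! Block S, file 7b: the core inequality. -/

set_option autoImplicit false

open MeasureTheory Set Filter Topology Metric
open scoped ENNReal symmDiff Classical InnerProductSpace ContDiff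

namespace Pool.Agent.MP_5cfeaf_gt.W

variable {d : ℕ}

theorem S7b_div {φ : ℝ → ℝ} (hφ : ContDiff ℝ 1 φ) {c : ℝ} (hc : 0 < c) (h : ∀ t, t ≤ c → φ t = 0)
    (n : ℕ) : ContDiff ℝ 1 fun t => φ t ^ 2 / t ^ n := by
  rw [contDiff_iff_contDiffAt]
  intro t
  by_cases ht : t = 0
  · refine (contDiffAt_const (c := (0 : ℝ))).congr_of_eventuallyEq ?_
    filter_upwards [Iio_mem_nhds (show t < c by rwa [ht])] with s hs
    rw [h s (le_of_lt hs)]
    simp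
  · exact (hφ.contDiffAt.pow 2).div (contDiffAt_id.pow n) (pow_ne_zero n ht)

theorem S7b_bd {f : R d → ℝ} (hf : C1c f univ) :
    ∃ b, 0 < b ∧ ∀ x, |f x| ≤ b ∧ ‖fderiv ℝ f x‖ ≤ b := by
  obtain ⟨b1, h1⟩ := hf.1.continuous.bounded_above_of_compact_support hf.2.1
  obtain ⟨b2, h2⟩ := (hf.1.continuous_fderiv one_ne_zero).bounded_above_of_compact_support
    (hf.2.1.fderiv (𝕜 := ℝ))
  exact ⟨max 1 (max b1 b2), lt_max_of_lt_left one_pos, fun x =>
    ⟨(h1 x).trans (le_max_of_le_right (le_max_left _ _)),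
      (h2 x).trans (le_max_of_le_right (le_max_right _ _))⟩⟩

/-- the pointwise inequality in the shell -/
theorem S7b_pt {κ m k ε η b r s w c τ g X D f f' p p' θ θ' q q' G : ℝ} (hr : 0 < r) (hε : 0 < ε)
    (hη : 0 < η) (hη1 : η ≤ 1) (hc : 0 ≤ c) (hw : 0 ≤ w) (hτ : 0 ≤ τ) (hg : 0 ≤ g)
    (hD : -2 * X / r - 2 * c / r - η * τ - (2 + 4 / η) * g / r ^ 2 ≤ D)
    (hG : G = 4 * (r - w) * f' ^ 2 * p ^ 2 + 4 * s * p' ^ 2 * f ^ 2) (hGb : G ≤ b)
    (hH : κ * f ^ 2 + (1 - m / 2) * θ - r * θ' ≤ 2 * f ^ 2 / r - 4 * r * f' ^ 2)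
    (hS : 4 * s * p' ^ 2 + k * q + 2 * s * q' ≤ κ / 2 * p ^ 2)
    (b1 : (f * p) ^ 2 ≤ b) (b2 : f ^ 2 / r ^ 2 * p ^ 2 ≤ b) (b3 : θ' * p ^ 2 ≤ b) :
    κ / 2 * ((f * p) ^ 2 * c) ≤ (f * p) ^ 2 * D - (c + ε) * G -
      c * p ^ 2 * ((1 - m / 2) * θ - (r - w) * θ') - c * f ^ 2 * (k * q + 2 * s * q') +
      4 * (f ^ 2 / r ^ 1 * p ^ 2 * (X / 2 + c)) +
      b * (ε + η * τ + η⁻¹ * (6 * g + c * w)) := by
  have hb : 0 ≤ b := (sq_nonneg _).trans b1
  have hi : 1 ≤ η⁻¹ := (one_le_inv₀ hη).2 hη1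
  have e1 := mul_le_mul_of_nonneg_left hD (sq_nonneg (f * p))
  have e2 := mul_le_mul_of_nonneg_left hH (mul_nonneg hc (sq_nonneg p))
  have e3 := mul_le_mul_of_nonneg_left hS (mul_nonneg hc (sq_nonneg f))
  have e4 := mul_le_mul_of_nonneg_left hGb hε.le
  have e5 := mul_le_mul_of_nonneg_left b1 (mul_nonneg hη.le hτ)
  have e6 : (2 + 4 / η) * g * (f ^ 2 / r ^ 2 * p ^ 2) ≤ 6 * η⁻¹ * g * b := by
    refine mul_le_mul (mul_le_mul_of_nonneg_right ?_ hg) b2 (by positivity) (by positivity)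
    rw [div_eq_mul_inv]
    linarith only [hi]
  have e7 : c * w * (θ' * p ^ 2) ≤ η⁻¹ * (c * w * b) :=
    (mul_le_mul_of_nonneg_left b3 (mul_nonneg hc hw)).trans
      (le_mul_of_one_le_left (by positivity) hi)
  have e8 : 0 ≤ c * (w * (f' ^ 2 * p ^ 2)) := by positivity
  have e9 : c * G = c * (4 * (r - w) * f' ^ 2 * p ^ 2 + 4 * s * p' ^ 2 * f ^ 2) := by rw [hG]
  simp only [div_eq_mul_inv, ← inv_pow, pow_one] at e1 e2 e3 e6 ⊢
  linear_combination e1 + e2 + e3 + e4 + e5 + e6 + e7 + 4 * e8 + e9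

theorem S7b_int {μ : Measure (R d)} {f0 f1 f2 f3 f4 f5 f6 f7 f8 f9 : R d → ℝ} {k β ε η : ℝ}
    (i0 : Integrable f0 μ) (i1 : Integrable f1 μ) (i2 : Integrable f2 μ) (i3 : Integrable f3 μ)
    (i4 : Integrable f4 μ) (i5 : Integrable f5 μ) (i6 : Integrable f6 μ) (i7 : Integrable f7 μ)
    (i8 : Integrable f8 μ) (i9 : Integrable f9 μ)
    (h : ∀ x ∈ μ.support, k * f0 x ≤ f1 x - f2 x - f3 x - f4 x + 4 * f5 x +
      β * (ε * f6 x + η * f7 x + η⁻¹ * (6 * f8 x + f9 x))) :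
    k * ∫ x, f0 x ∂μ ≤ ∫ x, f1 x ∂μ - ∫ x, f2 x ∂μ - ∫ x, f3 x ∂μ - ∫ x, f4 x ∂μ +
      4 * ∫ x, f5 x ∂μ + β * (ε * ∫ x, f6 x ∂μ + η * ∫ x, f7 x ∂μ +
        η⁻¹ * (6 * ∫ x, f8 x ∂μ + ∫ x, f9 x ∂μ)) := by
  have j1 : Integrable (fun x => f1 x - f2 x) μ := i1.sub i2
  have j2 : Integrable (fun x => f1 x - f2 x - f3 x) μ := j1.sub i3
  have j3 : Integrable (fun x => f1 x - f2 x - f3 x - f4 x) μ := j2.sub i4
  have j4 : Integrable (fun x => f1 x - f2 x - f3 x - f4 x + 4 * f5 x) μ := j3.add (i5.const_mul 4)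
  have j5 : Integrable (fun x => ε * f6 x + η * f7 x) μ := (i6.const_mul ε).add (i7.const_mul η)
  have j6 : Integrable (fun x => 6 * f8 x + f9 x) μ := (i8.const_mul 6).add i9
  have j7 : Integrable (fun x => ε * f6 x + η * f7 x + η⁻¹ * (6 * f8 x + f9 x)) μ :=
    j5.add (j6.const_mul _)
  have key := S0_mono (g := fun x => f1 x - f2 x - f3 x - f4 x + 4 * f5 x +
    β * (ε * f6 x + η * f7 x + η⁻¹ * (6 * f8 x + f9 x))) (i0.const_mul k)
    (j4.add (j7.const_mul β)) h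
  rwa [integral_add j4 (j7.const_mul β), integral_add j3 (i5.const_mul 4), integral_sub j2 i4,
    integral_sub j1 i3, integral_sub i1 i2, integral_const_mul, integral_const_mul,
    integral_const_mul, integral_add j5 (j6.const_mul _),
    integral_add (i6.const_mul ε) (i7.const_mul η), integral_const_mul, integral_const_mul,
    integral_const_mul, integral_add (i8.const_mul 6) i9, integral_const_mul] at key

/-- `Φ = φ(rh) ψ(sg)`, `Θ₁ = Φ^2/rh`, `Θ₂ = θ(rh) ψ(sg)^2`.  `S6_stab` + `PtF.dual`: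
`∫ Θ₁ (-2 Xc - 2 c) ≤ ∫ (c+ε) gs Φ + η ∫ Φ^2 tau + (2+4/η) ∫ Φ^2 g2/rh^2`;
`Θ₁ (-2 Xc - 2 c) = 2 Θ₁ c - 4 Θ₁ (Xc/2 + c)`; `S7_gs`; `hH` times `c ψ^2`; `S7_rad` for `Θ₂`; `hS` times `c φ^2`
and `S7_spine` (with `f = φ^2`, `g = ϑ`); `S6_hom` for `Θ₁`, `Θ₂`.  `C` comes from sup bounds of the fixed
functions `Φ, Θ₁, Θ₂`, their derivatives, `Φ^2/rh^2`, `θ'(rh) ψ(sg)^2` (continuous, compact support in `K0`). -/
theorem S7_core (L : Submodule ℝ (R d)) {a b κ : ℝ} (ha : 0 < a) {φ θ ψ ϑ : ℝ → ℝ}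
    (hφ : ContDiff ℝ 1 φ) (hθ : ContDiff ℝ 1 θ) (hψ : ContDiff ℝ 1 ψ) (hϑ : ContDiff ℝ 1 ϑ)
    (h0 : ∀ t, t ≤ (a ^ 2)⁻¹ ∨ a ^ 2 ≤ t → φ t = 0 ∧ θ t = 0)
    (h0' : ∀ t, b ^ 2 ≤ t → ψ t = 0 ∧ ϑ t = 0)
    (hH : ∀ t, 0 < t → κ * φ t ^ 2 + (1 - ((d : ℝ) - Module.finrank ℝ L) / 2) * θ t - t * deriv θ t ≤
      2 * φ t ^ 2 / t - 4 * t * deriv φ t ^ 2)
    (hS : ∀ t, 0 ≤ t → 4 * t * deriv ψ t ^ 2 + (Module.finrank ℝ L : ℝ) * ϑ t + 2 * t * deriv ϑ t ≤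
      κ / 2 * ψ t ^ 2) :
    ∃ C > 0, ∀ (W : Vf d) (U : Set (R d)) (P : PF d), Cx W U P L → K0 L a b ⊆ U →
      ∀ φ₁ : R d → ℝ, C1c φ₁ U → (∀ x ∈ K0 L a b, φ₁ x = 1) → ∀ ε η : ℝ, 0 < ε → 0 < η → η ≤ 1 →
      κ / 2 * ∫ x, (φ (rh L x) * ψ (sg L x)) ^ 2 * c2 P x ∂W.fst ≤
        C * (ε * ∫ x, φ₁ x ^ 2 ∂W.fst + η * (∫ x, φ₁ x ^ 2 * tau P x ∂W.fst +
          ∫ x, φ₁ x ^ 2 * c2 P x ∂W.fst + ∫ x, φ₁ x ^ 2 * c2 P x ^ 2 ∂W.fst) +
          η⁻¹ * (∫ x, φ₁ x ^ 2 * g2 P L x ∂W.fst +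
            ∫ x, φ₁ x ^ 2 * (c2 P x * w2 P L x) ∂W.fst)) := by
  have ha2 : 0 < (a ^ 2)⁻¹ := by positivity
  have hl : ∀ t, t ≤ (a ^ 2)⁻¹ → φ t = 0 := fun t ht => (h0 t (Or.inl ht)).1
  have hφ0 : ∀ t, t ≤ (a ^ 2)⁻¹ ∨ a ^ 2 ≤ t → φ t = 0 := fun t ht => (h0 t ht).1
  have hθ0 : ∀ t, t ≤ (a ^ 2)⁻¹ ∨ a ^ 2 ≤ t → θ t = 0 := fun t ht => (h0 t ht).2
  have hψ0 : ∀ t, b ^ 2 ≤ t → ψ t = 0 := fun t ht => (h0' t ht).1
  have hϑ0 : ∀ t, b ^ 2 ≤ t → ϑ t = 0 := fun t ht => (h0' t ht).2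
  have hψ2 : ∀ t, b ^ 2 ≤ t → ψ t ^ 2 = 0 := fun t ht => by rw [hψ0 t ht]; ring
  have hφ2 : ∀ t, t ≤ (a ^ 2)⁻¹ ∨ a ^ 2 ≤ t → φ t ^ 2 = 0 := fun t ht => by rw [hφ0 t ht]; ring
  have hφn : ∀ (n : ℕ) t, t ≤ (a ^ 2)⁻¹ ∨ a ^ 2 ≤ t → φ t ^ 2 / t ^ n = 0 := fun n t ht => by
    rw [hφ2 t ht, zero_div]
  have hθ' := S7_deriv_out hθ hθ0
  have hϑ' := fun t => S7_deriv_ge (hϑ.differentiable one_ne_zero) hϑ0 (t := t)
  have cr := (S0_sm_rh L).continuous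
  have cs := (S0_sm_sg L).continuous
  have cφ := hφ.continuous
  have cθ := hθ.continuous
  have cψ := hψ.continuous
  have cϑ := hϑ.continuous
  have cθ' := hθ.continuous_deriv le_rfl
  have cϑ' := hϑ.continuous_deriv le_rfl
  have c1 := (S7b_div hφ ha2 hl 1).continuous
  obtain ⟨b1, p1, B1⟩ := S7b_bd (S7_c1c (L := L) ha (subset_univ _) hφ hψ hφ0 hψ0).1
  obtain ⟨b2, p2, B2⟩ := S7b_bd
    (S7_c1c (L := L) ha (subset_univ _) (S7b_div hφ ha2 hl 1) (hψ.pow 2) (hφn 1) hψ2).1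
  obtain ⟨b3, p3, B3⟩ := S7b_bd (S7_c1c (L := L) ha (subset_univ _) hθ (hψ.pow 2) hθ0 hψ2).1
  obtain ⟨b4, p4, B4⟩ := S7b_bd
    (S7_c1c (L := L) ha (subset_univ _) (S7b_div hφ ha2 hl 2) (hψ.pow 2) (hφn 2) hψ2).1
  obtain ⟨b5, B5⟩ := Continuous.bounded_above_of_compact_support
    (f := fun x => deriv θ (rh L x) * ψ (sg L x) ^ 2) (by fun_prop)
    (HasCompactSupport.intro (S0_K0 L a b) fun x hx =>
      (S7_out hx).elim (fun h => by rw [hθ' _ h, zero_mul]) fun h => by rw [hψ2 _ h, mul_zero])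
  have p5 : 0 ≤ b5 := (norm_nonneg _).trans (B5 0)
  obtain ⟨β, hβ, q1, q2, q3, q4, q5⟩ : ∃ β : ℝ, 0 < β ∧ b1 ^ 2 ≤ β ∧ b2 ≤ β ∧ b3 ≤ β ∧ b4 ≤ β ∧
      b5 ≤ β := ⟨b1 ^ 2 + b2 + b3 + b4 + b5, by positivity, by linarith, by nlinarith only [p3, p4, p5],
        by nlinarith only [p2, p4, p5], by nlinarith only [p2, p3, p5], by nlinarith only [p2, p3, p4]⟩
  refine ⟨11 * β, by positivity, fun W U P c hK φ₁ hφ₁ h1 ε η hε hη hη1 => ?_⟩
  have hP : SmP P := c.ad.1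
  have cc := (S0_sm_c2 hP).continuous
  have cw := (S0_sm_w2 hP L).continuous
  have cX := (S0_sm_Xc hP L).continuous
  have cτ := (S0_sm_tau hP).continuous
  have cg := (S0_sm_g2 hP L).continuous
  have cgs := (S0_sm_gs hP (S0_sm_c2 hP)).continuous
  obtain ⟨hΦ, sΦ⟩ := S7_c1c ha hK hφ hψ hφ0 hψ0
  obtain ⟨hΘ1, sΘ1⟩ := S7_c1c ha hK (S7b_div hφ ha2 hl 1) (hψ.pow 2) (hφn 1) hψ2
  obtain ⟨hΘ2, sΘ2⟩ := S7_c1c ha hK hθ (hψ.pow 2) hθ0 hψ2
  have cG := S0_cont_gs hP hΦ.1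
  have E1 := S6_stab c hΦ hε
  have E2 := S7_rad c ha hK hθ (hψ.pow 2) hθ0 hψ2
  have E3 := S7_spine c ha hK (hφ.pow 2) hϑ hφ2 hϑ0
  have E4 := S6_hom c hΘ1 hφ₁ (fun x hx => h1 x (sΘ1 hx))
    (fun x => ⟨(B2 x).1.trans q2, (B2 x).2.trans q2⟩) hη
  have E5 := S6_hom c hΘ2 hφ₁ (fun x hx => h1 x (sΘ2 hx))
    (fun x => ⟨(B3 x).1.trans q3, (B3 x).2.trans q3⟩) hη
  have z0 : ∀ x, x ∉ K0 L a b → φ (rh L x) * ψ (sg L x) = 0 := fun x hx =>
    image_eq_zero_of_notMem_tsupport (f := fun x => φ (rh L x) * ψ (sg L x)) fun h => hx (sΦ h)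
  have z1 : ∀ x, x ∉ K0 L a b → gs P (fun x => φ (rh L x) * ψ (sg L x)) x = 0 := fun x hx =>
    Finset.sum_eq_zero fun i _ => by
      rw [S0_dl_zero P i fun h => hx (sΦ h)]
      ring
  have z2 : ∀ x, x ∉ K0 L a b → c2 P x * ψ (sg L x) ^ 2 *
      ((1 - ((d : ℝ) - Module.finrank ℝ L) / 2) * θ (rh L x) -
        (rh L x - w2 P L x) * deriv θ (rh L x)) = 0 := fun x hx =>
    (S7_out hx).elim (fun h => by rw [hθ0 _ h, hθ' _ h]; ring) fun h => by rw [hψ2 _ h]; ring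
  have z3 : ∀ x, x ∉ K0 L a b → c2 P x * φ (rh L x) ^ 2 * ((Module.finrank ℝ L : ℝ) * ϑ (sg L x) +
      2 * sg L x * deriv ϑ (sg L x)) = 0 := fun x hx =>
    (S7_out hx).elim (fun h => by rw [hφ2 _ h]; ring) fun h => by rw [hϑ0 _ h, hϑ' _ h]; ring
  have z4 : ∀ x, x ∉ K0 L a b → φ (rh L x) ^ 2 / rh L x ^ 1 * ψ (sg L x) ^ 2 = 0 := fun x hx =>
    (S7_out hx).elim (fun h => by rw [hφn 1 _ h]; ring) fun h => by rw [hψ2 _ h]; ring
  have I0 : ∀ {g : R d → ℝ}, Continuous g → (∀ x, x ∉ K0 L a b → g x = 0) → Integrable g W.fst :=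
    fun hg h => S0_int c.st.1 (S0_K0 L a b) hK hg h
  have I1 : ∀ {g : R d → ℝ}, Continuous g → Integrable (fun x => φ₁ x ^ 2 * g x) W.fst :=
    fun hg => S0_int c.st.1 hφ₁.2.1 hφ₁.2.2 ((hφ₁.1.continuous.pow 2).mul hg) fun x hx => by
      rw [image_eq_zero_of_notMem_tsupport hx]
      ring
  have N1 : ∀ {g : R d → ℝ}, (∀ x ∈ W.fst.support ∩ U, 0 ≤ g x) → ∀ x ∈ W.fst.support,
      0 ≤ φ₁ x ^ 2 * g x := fun hg x hx => by
    by_cases hU : x ∈ U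
    · exact mul_nonneg (sq_nonneg _) (hg x ⟨hx, hU⟩)
    · rw [image_eq_zero_of_notMem_tsupport fun h => hU (hφ₁.2.2 h)]
      simp
  have N2 : ∀ {g : R d → ℝ}, (∀ x ∈ W.fst.support ∩ U, 0 ≤ g x) →
      0 ≤ ∫ x, φ₁ x ^ 2 * g x ∂W.fst := fun hg =>
    integral_nonneg_of_ae ((S0_ae W.fst).mono fun x hx => N1 hg x hx)
  have F : ∀ x ∈ W.fst.support ∩ U, PtF P L x := fun x hx => S4_ptF c.hd c.ad c.op c.st c.tg hx
  have n1 : ∀ x ∈ W.fst.support ∩ U, 0 ≤ tau P x := fun x hx => (F x hx).tau0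
  have n2 : ∀ x ∈ W.fst.support ∩ U, 0 ≤ g2 P L x := fun x hx => (F x hx).g20
  have n3 : ∀ x ∈ W.fst.support ∩ U, 0 ≤ c2 P x * w2 P L x := fun x hx =>
    mul_nonneg (S0_c2_nonneg P x) (F x hx).w20
  have i0 : Integrable (fun x => (φ (rh L x) * ψ (sg L x)) ^ 2 * c2 P x) W.fst :=
    I0 (by fun_prop) fun x hx => by rw [z0 x hx]; ring
  have i1 : Integrable (fun x => (φ (rh L x) * ψ (sg L x)) ^ 2 *
      (tau P x - gs P (c2 P) x / (4 * (c2 P x + ε)))) W.fst := by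
    refine I0 (Continuous.mul (by fun_prop) (cτ.sub (cgs.div (by fun_prop) fun x => ?_)))
      fun x hx => by rw [z0 x hx]; ring
    have := S0_c2_nonneg P x
    positivity
  have i2 : Integrable (fun x => (c2 P x + ε) * gs P (fun x => φ (rh L x) * ψ (sg L x)) x) W.fst :=
    I0 (by fun_prop) fun x hx => by rw [z1 x hx]; ring
  have i3 := I0 (by fun_prop) z2
  have i4 := I0 (by fun_prop) z3
  have i5 : Integrable (fun x => φ (rh L x) ^ 2 / rh L x ^ 1 * ψ (sg L x) ^ 2 *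
      (Xc P L x / 2 + c2 P x)) W.fst :=
    I0 (((c1.comp cr).mul (by fun_prop)).mul (by fun_prop)) fun x hx => by rw [z4 x hx]; ring
  have i6 : Integrable (fun x => φ₁ x ^ 2) W.fst := by
    simpa only [mul_one] using I1 (g := fun _ => 1) continuous_const
  have i7 := I1 cτ
  have i8 := I1 cg
  have i9 := I1 (g := fun x => c2 P x * w2 P L x) (cc.mul cw)
  have key := S7b_int (k := κ / 2) (β := β) (ε := ε) (η := η) i0 i1 i2 i3 i4 i5 i6 i7 i8 i9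
    fun x hx => by
    by_cases hxK : x ∈ K0 L a b
    · have hx' : x ∈ W.fst.support ∩ U := ⟨hx, hK hxK⟩
      have G := S4_ptG c.ad c.tg hx'
      have hr : 0 < rh L x := ha2.trans_le hxK.1
      have hs : 0 ≤ sg L x := Finset.sum_nonneg fun i _ => sq_nonneg _
      have := S7b_pt hr hε hη hη1 (S0_c2_nonneg P x) (F x hx').w20 (n1 x hx') (n2 x hx')
        ((F x hx').dual ε η hε hη hr) (S7_gs G hφ hψ)
        ((G.gsle _).trans ((pow_le_pow_left₀ (norm_nonneg _) (B1 x).2 2).trans q1))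
        (hH _ hr) (hS _ hs)
        ((sq_abs _).symm.trans_le ((pow_le_pow_left₀ (abs_nonneg _) (B1 x).1 2).trans q1))
        ((le_abs_self _).trans ((B4 x).1.trans q4)) ((le_abs_self _).trans ((B5 x).trans q5))
      rw [h1 x hxK]
      simpa only [one_pow, one_mul, mul_one] using this
    · rw [z0 x hxK, z1 x hxK, z2 x hxK, z3 x hxK, z4 x hxK]
      have m1 := N1 n1 x hx
      have m2 := N1 n2 x hx
      have m3 := N1 n3 x hx
      have : 0 ≤ β * (ε * φ₁ x ^ 2 + η * (φ₁ x ^ 2 * tau P x) +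
        η⁻¹ * (6 * (φ₁ x ^ 2 * g2 P L x) + φ₁ x ^ 2 * (c2 P x * w2 P L x))) := by positivity
      linarith only [this]
  rw [← E2, E3] at key
  have m0 : 0 ≤ β * (ε * ∫ x, φ₁ x ^ 2 ∂W.fst) :=
    mul_nonneg hβ.le (mul_nonneg hε.le (integral_nonneg fun x => sq_nonneg _))
  have m1 := mul_nonneg hβ.le (mul_nonneg hη.le (N2 n1))
  have m3 := mul_nonneg hβ.le (mul_nonneg (inv_pos.2 hη).le (N2 n3))
  have m4 := mul_nonneg hβ.le (mul_nonneg hη.le (N2 fun x _ => S0_c2_nonneg P x))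
  have m5 := mul_nonneg hβ.le (mul_nonneg hη.le (N2 fun x _ => sq_nonneg (c2 P x)))
  have e4 := (abs_le.1 E4).2
  have e5 := (abs_le.1 E5).1
  linear_combination key + E1 + 4 * e4 + e5 + 10 * m0 + 10 * m1 + 5 * m3 + 6 * m4 + 6 * m5

end Pool.Agent.MP_5cfeaf_gt.W

end

section

/-! Block S, file 8: Simons theorem for cones. -/

set_option autoImplicit false

open MeasureTheory Set Filter Topology Metric
open scoped ENNReal symmDiff Classical InnerProductSpace ContDiff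

namespace Pool.Agent.MP_5cfeaf_gt.W

variable {d : ℕ}

/-- an a.e. vanishing continuous function vanishes on the support -/
theorem S8_aux_zero {W : Vf d} {U : Set (R d)} (hU : IsOpen U) {f : R d → ℝ} (hf : Continuous f)
    (h : ∀ᵐ p ∂W, p.1 ∈ U → f p.1 = 0) {x : R d} (hx : x ∈ W.fst.support ∩ U) : f x = 0 := by
  by_contra hne
  have ho : IsOpen (U ∩ {y | f y ≠ 0}) := hU.inter (isOpen_ne_fun hf continuous_const)
  have hpos := (Measure.mem_support_iff_forall x).1 hx.1 _ (ho.mem_nhds ⟨hx.2, hne⟩)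
  rw [Measure.fst_apply ho.measurableSet] at hpos
  refine hpos.ne' (measure_mono_null (fun p hp => ?_) (ae_iff.1 h))
  exact fun hh => hp.2 (hh hp.1)

theorem S8_aux_inner (u v : R d) : ∑ j, u j * v j = ⟪v, u⟫_ℝ := by
  simp [PiLp.inner_apply]

/-- a.e. statements about the normal hold at every support point (`Adapted.nu_eq`, continuity of `P`) -/
theorem S8_con {W : Vf d} {U : Set (R d)} {P : PF d} {L : Submodule ℝ (R d)}
    (h : Adapted W.fst.support U P) (hU : IsOpen U) (hs : Stat W U) (hc : Con W U L) :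
    Tang W.fst.support U P L ∧ ∀ x ∈ W.fst.support ∩ U, w2 P L x = 0 := by
  have hP : ∀ i j, Continuous fun x => P x i j := fun i j => (h.1 i j).continuous
  have hn := h.nu_eq hU hs
  refine ⟨fun x hx e he i => ?_, fun x hx => ?_⟩
  · refine S8_aux_zero hU (f := fun x => ∑ j, P x i j * e j)
      (continuous_finsetSum _ fun j _ => (hP i j).mul continuous_const) ?_ hx
    filter_upwards [hn, hc] with p h1 h2 hp
    simp only [h1 hp, mul_assoc, ← Finset.mul_sum]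
    rw [S8_aux_inner, (h2 hp).2 e he, mul_zero]
  · refine S8_aux_zero hU (S0_sm_w2 h.1 L).continuous ?_ hx
    filter_upwards [hn, hc] with p h1 h2 hp
    have h0 : ∑ j, (p.2 : R d) j * Xf L j p.1 = 0 := by
      have := S8_aux_inner (p.2 : R d) (Lᗮ.starProjection p.1)
      simp only [Xf]
      rw [this, Submodule.starProjection_orthogonal_val, inner_sub_left, (h2 hp).1,
        (h2 hp).2 _ (L.starProjection_apply_mem p.1), sub_zero]
    have h3 : w2 P L p.1 = (∑ j, (p.2 : R d) j * Xf L j p.1) * ∑ j, (p.2 : R d) j * Xf L j p.1 := by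
      rw [w2, Finset.sum_mul_sum]
      refine Finset.sum_congr rfl fun i _ => Finset.sum_congr rfl fun j _ => ?_
      rw [h1 hp]; ring
    rw [h3, h0, mul_zero]

/-- `S5_hardy` (`m = d - finrank L`), `S5_spine` (`κ/2`, `T = 4`), `ρ = max ρ₀ R₁`, `φ₁` from `S0_cut`;
`w2 = 0` on the support kills the `η⁻¹` terms (`S6_g2`); let `ε, η → 0`; `S0_zero`. -/
theorem simons_zero (hd : d ≤ 6) : ∃ ρ : ℝ, 4 ≤ ρ ∧ ∀ (W : Vf d) (U : Set (R d))
    (P : R d → Fin (d + 1) → Fin (d + 1) → ℝ) (L : Submodule ℝ (R d)),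
    Module.finrank ℝ L + 2 ≤ d → IsOpen U → Adapted W.fst.support U P → Stat W U → Stab W.fst U →
    Con W U L → (∀ y ∈ Lᗮ, ∀ z ∈ L, ρ⁻¹ ≤ ‖y‖ → ‖y‖ ≤ ρ → ‖z‖ ≤ ρ → y + z ∈ U) →
    ∀ y ∈ Lᗮ, ∀ z ∈ L, 1 / 3 ≤ ‖y‖ → ‖y‖ ≤ 3 → ‖z‖ ≤ 2 → y + z ∈ W.fst.support →
      c2 P (y + z) = 0 := by
  obtain ⟨ρ₀, κ, hρ₀, hκ, hH⟩ := S5_hardy
  obtain ⟨R₁, hR₁, hS⟩ := S5_spine (half_pos hκ) 4
  refine ⟨max ρ₀ R₁, le_max_of_le_right hR₁, ?_⟩
  intro W U P L hL hU hA hs hb hc hUU y hy z hz hy1 hy2 hz1 hsup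
  have hρ : 0 < ρ₀ := by linarith only [hρ₀]
  obtain ⟨φ, θ, hφ, hθ, h0, h1, hH'⟩ := hH (d - Module.finrank ℝ L) (by omega) (by omega)
  obtain ⟨ψ, ϑ, hψ, hϑ, h0', h1', hS'⟩ := hS (Module.finrank ℝ L) (by omega)
  have hcast : ((d - Module.finrank ℝ L : ℕ) : ℝ) = (d : ℝ) - Module.finrank ℝ L :=
    Nat.cast_sub (by omega)
  rw [hcast] at hH'
  obtain ⟨C, hC, hcore⟩ := S7_core L hρ hφ hθ hψ hϑ h0 h0' hH' hS'
  obtain ⟨hT, hw⟩ := S8_con hA hU hs hc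
  have cx : Cx W U P L := ⟨by omega, hA, hU, hs, hb, hT⟩
  have hK : K0 L ρ₀ R₁ ⊆ U := by
    rintro x ⟨a1, a2, a3⟩
    rw [S0_rh_eq] at a1 a2
    rw [S0_sg_eq] at a3
    have e : Lᗮ.starProjection x + L.starProjection x = x := by
      rw [Submodule.starProjection_orthogonal_val, sub_add_cancel]
    rw [← e]
    refine hUU _ (Lᗮ.starProjection_apply_mem x) _ (L.starProjection_apply_mem x) ?_ ?_ ?_
    · refine le_trans (inv_anti₀ hρ (le_max_left _ _)) ?_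
      rw [← inv_pow] at a1
      exact le_of_sq_le_sq a1 (norm_nonneg _)
    · exact le_trans (le_of_sq_le_sq a2 hρ.le) (le_max_left _ _)
    · exact le_trans (le_of_sq_le_sq a3 (by linarith only [hR₁])) (le_max_right _ _)
  obtain ⟨φ₁, hφ₁, -, hone⟩ := S0_cut (S0_K0 L ρ₀ R₁) hU hK
  have z1 : ∫ x, w2 P L x * gs P φ₁ x ∂W.fst = 0 := by
    refine integral_eq_zero_of_ae ?_
    filter_upwards [S0_ae W.fst] with x hx
    by_cases hxU : x ∈ U
    · simp [hw x ⟨hx, hxU⟩]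
    · have : x ∉ tsupport φ₁ := fun hh => hxU (hφ₁.2.2 hh)
      simp [gs, S0_dl_zero P _ this]
  have z2 : ∫ x, φ₁ x ^ 2 * (c2 P x * w2 P L x) ∂W.fst = 0 := by
    refine integral_eq_zero_of_ae ?_
    filter_upwards [S0_ae W.fst] with x hx
    by_cases hxU : x ∈ U
    · simp [hw x ⟨hx, hxU⟩]
    · have : x ∉ tsupport φ₁ := fun hh => hxU (hφ₁.2.2 hh)
      simp [image_eq_zero_of_notMem_tsupport this]
  have z3 := S6_g2 cx hφ₁
  rw [z1, z2] at z3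
  set I := ∫ x, (φ (rh L x) * ψ (sg L x)) ^ 2 * c2 P x ∂W.fst with hI
  set A := ∫ x, φ₁ x ^ 2 ∂W.fst + (∫ x, φ₁ x ^ 2 * tau P x ∂W.fst +
          ∫ x, φ₁ x ^ 2 * c2 P x ∂W.fst + ∫ x, φ₁ x ^ 2 * c2 P x ^ 2 ∂W.fst) with hAA
  have key : ∀ ε : ℝ, 0 < ε → ε ≤ 1 → κ / 2 * I ≤ ε * (C * A) := by
    intro ε hε hε1
    refine (hcore W U P cx hK φ₁ hφ₁ hone ε ε hε hε hε1).trans ?_
    rw [z2, hAA]
    have : ε⁻¹ * (∫ x, φ₁ x ^ 2 * g2 P L x ∂W.fst + 0) ≤ 0 :=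
      mul_nonpos_of_nonneg_of_nonpos (inv_nonneg.2 hε.le) (by linarith only [z3])
    linarith only [mul_nonpos_of_nonneg_of_nonpos hC.le this]
  have hI0 : κ / 2 * I ≤ 0 := by
    have ht : Tendsto (fun ε : ℝ => ε * (C * A)) (𝓝[>] 0) (𝓝 (0 * (C * A))) :=
      (tendsto_id.mul_const _).mono_left nhdsWithin_le_nhds
    rw [zero_mul] at ht
    refine ge_of_tendsto ht ?_
    filter_upwards [Ioc_mem_nhdsGT (zero_lt_one' ℝ)] with ε hε using key ε hε.1 hε.2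
  have hI1 : I ≤ 0 := by
    by_contra hh
    exact absurd hI0 (not_le.2 (mul_pos (half_pos hκ) (not_le.1 hh)))
  have hcont : Continuous fun x => (φ (rh L x) * ψ (sg L x)) ^ 2 * c2 P x :=
    (((hφ.continuous.comp (S0_sm_rh L).continuous).mul
      (hψ.continuous.comp (S0_sm_sg L).continuous)).pow 2).mul (S0_sm_c2 hA.1).continuous
  have hint : Integrable (fun x => (φ (rh L x) * ψ (sg L x)) ^ 2 * c2 P x) W.fst := by
    refine S0_int hs.1 (S0_K0 L ρ₀ R₁) hK hcont fun x hx => ?_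
    have : φ (rh L x) = 0 ∨ ψ (sg L x) = 0 := by
      by_contra hh
      push Not at hh
      refine hx ⟨?_, ?_, ?_⟩
      · by_contra h2; exact hh.1 (h0 _ (Or.inl (not_le.1 h2).le)).1
      · by_contra h2; exact hh.1 (h0 _ (Or.inr (not_le.1 h2).le)).1
      · by_contra h2; exact hh.2 (h0' _ (not_le.1 h2).le).1
    rcases this with h | h <;> simp [h]
  have hz0 := S0_zero hcont hint (fun x => mul_nonneg (sq_nonneg _) (S0_c2_nonneg P x)) hI1 hsup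
  have e1 : L.starProjection (y + z) = z := by
    rw [map_add, (Submodule.starProjection_apply_eq_zero_iff L).2 hy,
      Submodule.starProjection_eq_self_iff.2 hz, zero_add]
  have e2 : rh L (y + z) = ‖y‖ ^ 2 := by
    rw [S0_rh_eq, Submodule.starProjection_orthogonal_val, e1, add_sub_cancel_right]
  have e3 : sg L (y + z) = ‖z‖ ^ 2 := by rw [S0_sg_eq, e1]
  have b1 := h1 (rh L (y + z)) (by rw [e2]; nlinarith only [hy1]) (by rw [e2]; nlinarith only [hy1, hy2])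
  have b2 := h1' (sg L (y + z)) (by rw [e3]; positivity) (by rw [e3]; nlinarith only [norm_nonneg z, hz1])
  rw [mul_pow] at hz0
  rcases mul_eq_zero.1 hz0 with h | h
  · exact absurd h (ne_of_gt (mul_pos (by linarith only [b1]) (by linarith only [b2])))
  · exact h

end Pool.Agent.MP_5cfeaf_gt.W

end

section

/-! Block S, file 8b: quantitative Simons theorem. -/

set_option autoImplicit false

open MeasureTheory Set Filter Topology Metric
open scoped ENNReal symmDiff Classical InnerProductSpace ContDiff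

namespace Pool.Agent.MP_5cfeaf_gt.W

variable {d : ℕ}

theorem S8b_bd {K : Set (R d)} {φ : R d → ℝ} (h : C1c φ K) :
    ∃ b, 0 ≤ b ∧ ∀ x, |φ x| ≤ b ∧ ‖fderiv ℝ φ x‖ ≤ b := by
  obtain ⟨b₁, hb₁⟩ := h.1.continuous.bounded_above_of_compact_support h.2.1
  obtain ⟨b₂, hb₂⟩ := (h.1.continuous_fderiv one_ne_zero).bounded_above_of_compact_support
    (h.2.1.fderiv ℝ)
  refine ⟨max (max b₁ b₂) 0, le_max_right _ _, fun x => ⟨?_, ?_⟩⟩
  · exact (hb₁ x).trans ((le_max_left _ _).trans (le_max_left _ _))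
  · exact (hb₂ x).trans ((le_max_right _ _).trans (le_max_left _ _))

theorem S8b_gs0 (P : PF d) {f : R d → ℝ} {x : R d} (h : x ∉ tsupport f) : gs P f x = 0 := by
  simp [gs, S0_dl_zero P _ h]

theorem S8b_intOn {W : Vf d} {U K : Set (R d)} (h : LocFin W U) (hK : IsCompact K) (hKU : K ⊆ U)
    {g : R d → ℝ} (hg : Continuous g) : IntegrableOn g K W.fst := by
  obtain ⟨B, hB⟩ := hK.exists_bound_of_continuousOn hg.continuousOn
  refine Measure.integrableOn_of_bounded (M := B) (h K hK hKU).ne hg.aestronglyMeasurable ?_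
  exact (ae_restrict_mem hK.measurableSet).mono hB

theorem S8b_le {W : Vf d} {U K : Set (R d)} (h : LocFin W U) (hK : IsCompact K) (hKU : K ⊆ U)
    {f g : R d → ℝ} (hf : Continuous f) (hg : Continuous g) (h0 : ∀ x, x ∉ K → f x = 0)
    (hle : ∀ x ∈ W.fst.support ∩ K, f x ≤ g x) : ∫ x, f x ∂W.fst ≤ ∫ x in K, g x ∂W.fst := by
  rw [← setIntegral_eq_integral_of_forall_compl_eq_zero h0]
  refine integral_mono_ae (S8b_intOn h hK hKU hf) (S8b_intOn h hK hKU hg) ?_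
  filter_upwards [ae_restrict_mem hK.measurableSet, ae_restrict_of_ae (S0_ae W.fst)] with x hx hx'
  exact hle x ⟨hx', hx⟩

theorem S8b_lec {W : Vf d} {U K : Set (R d)} (h : LocFin W U) (hK : IsCompact K) (hKU : K ⊆ U)
    {f : R d → ℝ} (hf : Continuous f) (h0 : ∀ x, x ∉ K → f x = 0) {B Λ : ℝ} (hB : 0 ≤ B) (hΛ : 0 ≤ Λ)
    (hm : W.fst K ≤ ENNReal.ofReal Λ)
    (hle : ∀ x ∈ W.fst.support ∩ K, f x ≤ B) : ∫ x, f x ∂W.fst ≤ B * Λ := by
  refine (S8b_le h hK hKU hf continuous_const h0 hle).trans ?_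
  rw [setIntegral_const, smul_eq_mul, mul_comm]
  exact mul_le_mul_of_nonneg_left (ENNReal.toReal_le_of_le_ofReal hΛ hm) hB

/-- a priori bounds (Schoen-Simon-Yau with `q = 0`): fixed cut-offs `φ₁, φ₂` supported in the compact set `K`,
`φ₂ = 1` on `tsupport φ₁`.  `Stab`: `∫ c φ₂^2 ≤ ∫ gs φ₂ ≤ b^2 Λ`; `gs φ₁ ≤ b^2 φ₂^2`; `S6_tau` (`ε = 1`), `S6_c4`;
`c w2 ≤ η c^2 + w2^2/η`, `w2 ≤ rh ≤ sup over K`; `S6_g2`. -/
theorem S8_apriori (L : Submodule ℝ (R d)) {K : Set (R d)} (hK : IsCompact K) {φ₁ φ₂ : R d → ℝ}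
    (h₁ : C1c φ₁ K) (h₂ : C1c φ₂ K) (h : ∀ x ∈ tsupport φ₁, φ₂ x = 1) :
    ∃ C > 0, ∀ (W : Vf d) (U : Set (R d)) (P : PF d) (Λ δ η : ℝ), Cx W U P L → K ⊆ U → 0 ≤ Λ →
      W.fst K ≤ ENNReal.ofReal Λ → ∫ x in K, w2 P L x ∂W.fst ≤ δ → 0 < η → η ≤ 1 →
      ∫ x, φ₁ x ^ 2 ∂W.fst ≤ C * Λ ∧
      ∫ x, φ₁ x ^ 2 * tau P x ∂W.fst + ∫ x, φ₁ x ^ 2 * c2 P x ∂W.fst +
        ∫ x, φ₁ x ^ 2 * c2 P x ^ 2 ∂W.fst ≤ C * Λ ∧
      ∫ x, φ₁ x ^ 2 * g2 P L x ∂W.fst + ∫ x, φ₁ x ^ 2 * (c2 P x * w2 P L x) ∂W.fst ≤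
        C * (η * Λ + η⁻¹ * δ) := by
  obtain ⟨b₁, hb₁0, hb₁⟩ := S8b_bd h₁
  obtain ⟨b₂, hb₂0, hb₂⟩ := S8b_bd h₂
  obtain ⟨r₀, hr₀⟩ := hK.exists_bound_of_continuousOn (S0_sm_rh L).continuous.continuousOn
  obtain ⟨r, hr0, hr⟩ : ∃ r : ℝ, 0 ≤ r ∧ ∀ x ∈ K, rh L x ≤ r :=
    ⟨max r₀ 0, le_max_right _ _, fun x hx => ((le_abs_self _).trans (hr₀ x hx)).trans (le_max_left _ _)⟩
  obtain ⟨D, hD⟩ : ∃ D : ℝ, D = 3 * ((d : ℝ) + 1) / 2 := ⟨_, rfl⟩
  have hD0 : 0 ≤ D := by rw [hD]; positivity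
  obtain ⟨a, ha⟩ : ∃ a : ℝ, a = b₁ ^ 2 := ⟨_, rfl⟩
  obtain ⟨e, he⟩ : ∃ e : ℝ, e = b₂ ^ 2 := ⟨_, rfl⟩
  have ha0 : 0 ≤ a := by rw [ha]; positivity
  have he0 : 0 ≤ e := by rw [he]; positivity
  obtain ⟨C₀, hC₀⟩ : ∃ C₀ : ℝ, C₀ = D * (a * e + a) := ⟨_, rfl⟩
  have hC₀0 : 0 ≤ C₀ := by rw [hC₀]; positivity
  refine ⟨9 * C₀ + 7 * a + 3 * (a * e) + 3 * (a * r) + 1, by positivity, ?_⟩
  intro W U P Λ δ η c hKU hΛ hm hδ hη hη1
  have hP : SmP P := c.ad.1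
  have lf : LocFin W U := c.st.1
  have u₁ : C1c φ₁ U := ⟨h₁.1, h₁.2.1, h₁.2.2.trans hKU⟩
  have u₂ : C1c φ₂ U := ⟨h₂.1, h₂.2.1, h₂.2.2.trans hKU⟩
  have cφ₁ := h₁.1.continuous
  have cφ₂ := h₂.1.continuous
  have cc := (S0_sm_c2 hP).continuous
  have cw := (S0_sm_w2 hP L).continuous
  have cg₁ := S0_cont_gs hP h₁.1
  have cg₂ := S0_cont_gs hP h₂.1
  have z₁ : ∀ x, x ∉ K → φ₁ x = 0 := fun x hx =>
    image_eq_zero_of_notMem_tsupport fun h' => hx (h₁.2.2 h')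
  have z₂ : ∀ x, x ∉ K → φ₂ x = 0 := fun x hx =>
    image_eq_zero_of_notMem_tsupport fun h' => hx (h₂.2.2 h')
  have zg₁ : ∀ x, x ∉ K → gs P φ₁ x = 0 := fun x hx => S8b_gs0 P fun h' => hx (h₁.2.2 h')
  have zg₂ : ∀ x, x ∉ K → gs P φ₂ x = 0 := fun x hx => S8b_gs0 P fun h' => hx (h₂.2.2 h')
  have pG : ∀ x ∈ W.fst.support ∩ K, PtG P L x := fun x hx => S4_ptG c.ad c.tg ⟨hx.1, hKU hx.2⟩
  have pF : ∀ x ∈ W.fst.support ∩ K, PtF P L x := fun x hx =>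
    S4_ptF c.hd c.ad c.op c.st c.tg ⟨hx.1, hKU hx.2⟩
  have sq₁ : ∀ x, φ₁ x ^ 2 ≤ a := fun x => by
    rw [ha, ← sq_abs]; exact pow_le_pow_left₀ (abs_nonneg _) (hb₁ x).1 2
  have gl₁ : ∀ x ∈ W.fst.support ∩ K, gs P φ₁ x ≤ a := fun x hx => by
    rw [ha]; exact ((pG x hx).gsle _).trans (pow_le_pow_left₀ (norm_nonneg _) (hb₁ x).2 2)
  have gl₂ : ∀ x ∈ W.fst.support ∩ K, gs P φ₂ x ≤ e := fun x hx => by
    rw [he]; exact ((pG x hx).gsle _).trans (pow_le_pow_left₀ (norm_nonneg _) (hb₂ x).2 2)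
  have I1 : ∫ x, φ₁ x ^ 2 ∂W.fst ≤ a * Λ :=
    S8b_lec lf hK hKU (by fun_prop) (fun x hx => by simp [z₁ x hx]) ha0 hΛ hm fun x _ => sq₁ x
  have G1 : ∫ x, gs P φ₁ x ∂W.fst ≤ a * Λ := S8b_lec lf hK hKU cg₁ zg₁ ha0 hΛ hm gl₁
  have G2 : ∫ x, gs P φ₂ x ∂W.fst ≤ e * Λ := S8b_lec lf hK hKU cg₂ zg₂ he0 hΛ hm gl₂
  have A1 : ∫ x, φ₁ x ^ 2 * c2 P x ∂W.fst ≤ a * Λ := by
    have := (c.sb U P c.op subset_rfl c.ad φ₁ u₁).trans G1
    simpa only [mul_comm] using this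
  have A2 : ∫ x, c2 P x * φ₂ x ^ 2 ∂W.fst ≤ e * Λ := (c.sb U P c.op subset_rfl c.ad φ₂ u₂).trans G2
  have iG : Integrable (fun x => c2 P x * gs P φ₁ x) W.fst :=
    S0_int lf hK hKU (cc.mul cg₁) fun x hx => by simp [zg₁ x hx]
  have iG1 : Integrable (gs P φ₁) W.fst := S0_int lf hK hKU cg₁ zg₁
  have G : ∫ x, c2 P x * gs P φ₁ x ∂W.fst ≤ a * e * Λ := by
    have i2 : Integrable (fun x => a * (c2 P x * φ₂ x ^ 2)) W.fst :=
      S0_int lf hK hKU (by fun_prop) fun x hx => by simp [z₂ x hx]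
    refine (S0_mono iG i2 fun x hx => ?_).trans ?_
    · by_cases hx' : x ∈ tsupport φ₁
      · rw [h x hx', one_pow, mul_one, mul_comm a]
        exact mul_le_mul_of_nonneg_left (gl₁ x ⟨hx, h₁.2.2 hx'⟩) (S0_c2_nonneg P x)
      · rw [S8b_gs0 P hx', mul_zero]
        have := S0_c2_nonneg P x
        positivity
    · rw [integral_const_mul, mul_assoc]
      exact mul_le_mul_of_nonneg_left A2 ha0
  have T : ∫ x, φ₁ x ^ 2 * tau P x ∂W.fst ≤ C₀ * Λ := by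
    refine (S6_tau c u₁ one_pos).trans ?_
    rw [← hD, hC₀, mul_assoc]
    refine mul_le_mul_of_nonneg_left ?_ hD0
    have : ∫ x, (c2 P x + 1) * gs P φ₁ x ∂W.fst =
        ∫ x, c2 P x * gs P φ₁ x ∂W.fst + ∫ x, gs P φ₁ x ∂W.fst := by
      rw [← integral_add iG iG1]; congr 1; funext x; ring
    rw [this]; linarith only [G1, G]
  have Q : ∫ x, φ₁ x ^ 2 * c2 P x ^ 2 ∂W.fst ≤ (2 * C₀ + a * e) * Λ := by
    have := S6_c4 c u₁
    linarith only [G, T, this]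
  have hδ0 : 0 ≤ δ := by
    have := S8b_le (f := fun _ => (0 : ℝ)) lf hK hKU continuous_const cw (fun _ _ => rfl)
      fun x hx => (pF x hx).w20
    simp only [integral_zero] at this
    linarith only [hδ, this]
  have V1 : ∫ x, w2 P L x * gs P φ₁ x ∂W.fst ≤ a * δ := by
    refine (S8b_le (g := fun x => a * w2 P L x) lf hK hKU (cw.mul cg₁) (by fun_prop)
      (fun x hx => by simp [zg₁ x hx]) fun x hx => ?_).trans ?_
    · rw [mul_comm a]; exact mul_le_mul_of_nonneg_left (gl₁ x hx) (pF x hx).w20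
    · rw [integral_const_mul]; exact mul_le_mul_of_nonneg_left hδ ha0
  have V2 : ∫ x, φ₁ x ^ 2 * w2 P L x ^ 2 ∂W.fst ≤ a * r * δ := by
    refine (S8b_le (g := fun x => a * r * w2 P L x) lf hK hKU (by fun_prop) (by fun_prop)
      (fun x hx => by simp [z₁ x hx]) fun x hx => ?_).trans ?_
    · have h0 := (pF x hx).w20
      have h1 := (pG x hx).wle.trans (hr x hx.2)
      rw [mul_assoc]
      exact mul_le_mul (sq₁ x) (by nlinarith only [h0, h1]) (sq_nonneg _) ha0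
    · rw [integral_const_mul]; exact mul_le_mul_of_nonneg_left hδ (by positivity)
  have hi : 1 ≤ η⁻¹ := (one_le_inv₀ hη).2 hη1
  have hi0 : 0 < η⁻¹ := inv_pos.2 hη
  have Wc : ∫ x, φ₁ x ^ 2 * (c2 P x * w2 P L x) ∂W.fst ≤
      η * ((2 * C₀ + a * e) * Λ) + η⁻¹ * (a * r * δ) := by
    have i1 : Integrable (fun x => φ₁ x ^ 2 * c2 P x ^ 2) W.fst :=
      S0_int lf hK hKU (by fun_prop) fun x hx => by simp [z₁ x hx]
    have i2 : Integrable (fun x => φ₁ x ^ 2 * w2 P L x ^ 2) W.fst :=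
      S0_int lf hK hKU (by fun_prop) fun x hx => by simp [z₁ x hx]
    have i3 : Integrable (fun x => φ₁ x ^ 2 * (c2 P x * w2 P L x)) W.fst :=
      S0_int lf hK hKU (by fun_prop) fun x hx => by simp [z₁ x hx]
    refine (S0_mono i3 ((i1.const_mul η).add (i2.const_mul η⁻¹)) fun x _ => ?_).trans ?_
    · have h1 : c2 P x * w2 P L x ≤ η * c2 P x ^ 2 + η⁻¹ * w2 P L x ^ 2 := by
        have h2 : η * η⁻¹ = 1 := mul_inv_cancel₀ hη.ne'
        have h3 : 0 ≤ η * (c2 P x - η⁻¹ * w2 P L x) ^ 2 := by positivity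
        have h4 : η * (c2 P x - η⁻¹ * w2 P L x) ^ 2 = η * c2 P x ^ 2 -
            2 * (η * η⁻¹) * (c2 P x * w2 P L x) + (η * η⁻¹) * (η⁻¹ * w2 P L x ^ 2) := by ring
        rw [h2] at h4
        have h5 : 0 ≤ η * c2 P x ^ 2 := by positivity
        have h6 : 0 ≤ η⁻¹ * w2 P L x ^ 2 := by positivity
        linarith only [h3, h4, h5, h6]
      have := mul_le_mul_of_nonneg_left h1 (sq_nonneg (φ₁ x))
      simp only [Pi.add_apply]
      linarith only [this]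
    · rw [integral_add' (i1.const_mul η) (i2.const_mul η⁻¹), integral_const_mul, integral_const_mul]
      exact add_le_add (mul_le_mul_of_nonneg_left Q hη.le) (mul_le_mul_of_nonneg_left V2 hi0.le)
  have G3 := S6_g2 c u₁
  have p1 := mul_nonneg hC₀0 hΛ
  have p2 := mul_nonneg ha0 hΛ
  have p3 := mul_nonneg (mul_nonneg ha0 he0) hΛ
  have p4 := mul_nonneg (mul_nonneg ha0 hr0) hΛ
  refine ⟨by linarith only [hΛ, I1, p1, p2, p3, p4], by linarith only [hΛ, A1, T, Q, p1, p2, p3, p4], ?_⟩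
  obtain ⟨s, hs⟩ : ∃ s, s = η * Λ := ⟨_, rfl⟩
  obtain ⟨t, ht⟩ : ∃ t, t = η⁻¹ * δ := ⟨_, rfl⟩
  have hs0 : 0 ≤ s := hs ▸ mul_nonneg hη.le hΛ
  have ht0 : 0 ≤ t := ht ▸ mul_nonneg hi0.le hδ0
  have htδ : δ ≤ t := by rw [ht]; nlinarith only [hδ0, hi]
  have e1 : η * ((2 * C₀ + a * e) * Λ) + η⁻¹ * (a * r * δ) = (2 * C₀ + a * e) * s + a * r * t := by
    rw [hs, ht]; ring
  rw [e1] at Wc
  rw [← hs, ← ht]
  have q1 := mul_le_mul_of_nonneg_left htδ ha0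
  have q2 := mul_nonneg hC₀0 hs0
  have q3 := mul_nonneg hC₀0 ht0
  have q4 := mul_nonneg ha0 hs0
  have q5 := mul_nonneg ha0 ht0
  have q6 := mul_nonneg (mul_nonneg ha0 he0) ht0
  have q7 := mul_nonneg (mul_nonneg ha0 hr0) hs0
  linarith only [V1, G3, Wc, hs0, ht0, q1, q2, q3, q4, q5, q6, q7]

/-- `L = ⊥` (`rh = ‖x‖^2`, `sg = 0`), `ρ = 4 ρ₀`, `S7_core` with `ε = η`, `S8_apriori` with `η^2`;
`∫ x in K, w2 = ∫ ⟪x, ν⟫^2` by `Adapted.nu_eq`. -/
theorem simons_quant (h2 : 2 ≤ d) (hd : d ≤ 6) : ∃ ρ : ℝ, 32 ≤ ρ ∧ ∀ Λ ε : ℝ, 0 < ε → ∃ δ > 0,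
    ∀ (W : Vf d) (U : Set (R d)) (P : R d → Fin (d + 1) → Fin (d + 1) → ℝ),
    IsOpen U → Adapted W.fst.support U P → Stat W U → Stab W.fst U →
    {x : R d | ρ⁻¹ ≤ ‖x‖ ∧ ‖x‖ ≤ ρ} ⊆ U →
    W.fst {x : R d | ρ⁻¹ ≤ ‖x‖ ∧ ‖x‖ ≤ ρ} ≤ ENNReal.ofReal Λ →
    ∫ p in {x : R d | ρ⁻¹ ≤ ‖x‖ ∧ ‖x‖ ≤ ρ} ×ˢ univ, ⟪p.1, (p.2 : R d)⟫_ℝ ^ 2 ∂W ≤ δ →
    ∫ x in An 16⁻¹ 16, c2 P x ∂W.fst ≤ ε := by
  obtain ⟨ρ₀, κ, hρ₀, hκ, H⟩ := S5_hardy
  obtain ⟨φ, θ, hφ, hθ, h0, h1, hH⟩ := H d h2 hd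
  obtain ⟨R₁, -, H'⟩ := S5_spine (half_pos hκ) 0
  obtain ⟨ψ, ϑ, hψ, hϑ, h0', h1', hS⟩ := H' 0 (by norm_num)
  have hρ : 0 < ρ₀ := by linarith only [hρ₀]
  have eX : ∀ (x : R d) i, Xf ⊥ i x = x i := fun x i => by simp [Xf, Submodule.starProjection_top]
  have erh : ∀ x : R d, rh ⊥ x = ‖x‖ ^ 2 := fun x => by simp only [S0_rh_eq, Submodule.bot_orthogonal_eq_top, Submodule.starProjection_top, ContinuousLinearMap.id_apply]
  have esg : ∀ x : R d, sg ⊥ x = 0 := fun x => by simp [S0_sg_eq]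
  obtain ⟨K, hKe⟩ : ∃ K : Set (R d), K = {x : R d | (2 * ρ₀)⁻¹ ≤ ‖x‖ ∧ ‖x‖ ≤ 2 * ρ₀} := ⟨_, rfl⟩
  have hK : IsCompact K := by
    rw [hKe]
    refine (isCompact_closedBall (0 : R d) (2 * ρ₀)).of_isClosed_subset ?_ fun x hx => by simpa only [mem_closedBall, dist_zero_right] using hx.2
    exact (isClosed_le continuous_const continuous_norm).inter (isClosed_le continuous_norm continuous_const)
  have hO : IsOpen (An (2 * ρ₀)⁻¹ (2 * ρ₀) : Set (R d)) :=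
    (isOpen_lt continuous_const continuous_norm).inter (isOpen_lt continuous_norm continuous_const)
  have hOK : (An (2 * ρ₀)⁻¹ (2 * ρ₀) : Set (R d)) ⊆ K := fun x hx => hKe ▸ ⟨hx.1.le, hx.2.le⟩
  have hK0 : K0 (⊥ : Submodule ℝ (R d)) ρ₀ R₁ ⊆ An (2 * ρ₀)⁻¹ (2 * ρ₀) := by
    rintro x ⟨a1, a2, -⟩
    rw [erh] at a1 a2
    rw [← inv_pow] at a1
    have b1 := (pow_le_pow_iff_left₀ (by positivity) (norm_nonneg x) two_ne_zero).1 a1
    have b2 := (pow_le_pow_iff_left₀ (norm_nonneg x) hρ.le two_ne_zero).1 a2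
    exact ⟨lt_of_lt_of_le (inv_strictAnti₀ hρ (by linarith only [hρ₀])) b1, by linarith only [hρ₀, b2]⟩
  obtain ⟨φ₁, u₁, -, v₁⟩ := S0_cut (S0_K0 ⊥ ρ₀ R₁) hO hK0
  obtain ⟨φ₂, u₂, -, v₂⟩ := S0_cut u₁.2.1 hO u₁.2.2
  obtain ⟨C₁, hC₁, HA⟩ := S8_apriori ⊥ hK (φ₁ := φ₁) (φ₂ := φ₂) ⟨u₁.1, u₁.2.1, u₁.2.2.trans hOK⟩
    ⟨u₂.1, u₂.2.1, u₂.2.2.trans hOK⟩ v₂
  obtain ⟨C₂, hC₂, HC⟩ := S7_core (⊥ : Submodule ℝ (R d)) (b := R₁) (κ := κ) hρ hφ hθ hψ hϑ h0 h0'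
    (by simpa only [finrank_bot, CharP.cast_eq_zero, sub_zero, tsub_le_iff_right] using hH) (by simpa only [finrank_bot, CharP.cast_eq_zero, zero_mul, add_zero] using hS)
  refine ⟨2 * ρ₀, by linarith only [hρ₀], fun Λ ε hε => ?_⟩
  obtain ⟨Λ', hΛ0, hΛ1⟩ : ∃ Λ' : ℝ, 0 ≤ Λ' ∧ Λ ≤ Λ' := ⟨max Λ 0, le_max_right _ _, le_max_left _ _⟩
  obtain ⟨η, hη, hη1, hη2⟩ : ∃ η : ℝ, 0 < η ∧ η ≤ 1 ∧ C₂ * C₁ * (3 * Λ' + 1) * η ≤ κ / 2 * ε := by
    have hp : 0 < C₂ * C₁ * (3 * Λ' + 1) := by positivity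
    refine ⟨min 1 (κ / 2 * ε / (C₂ * C₁ * (3 * Λ' + 1))), by positivity, min_le_left _ _, ?_⟩
    rw [mul_comm, ← le_div_iff₀ hp]
    exact min_le_right _ _
  refine ⟨η ^ 4, by positivity, fun W U P hU ad st sb hKU hm hw => ?_⟩
  rw [← hKe] at hKU hm hw
  have c : Cx W U P ⊥ := ⟨by omega, ad, hU, st, sb, fun x _ e he i => by
    simp [(Submodule.mem_bot ℝ).1 he]⟩
  have hP : SmP P := ad.1
  have cc := (S0_sm_c2 hP).continuous
  have hw' : ∫ x in K, w2 P ⊥ x ∂W.fst ≤ η ^ 4 := by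
    refine le_of_eq_of_le ?_ hw
    rw [Measure.fst, setIntegral_map hK.measurableSet (S0_sm_w2 hP ⊥).continuous.aestronglyMeasurable
      measurable_fst.aemeasurable, ← prod_univ]
    refine setIntegral_congr_ae (hK.measurableSet.prod MeasurableSet.univ) ?_
    filter_upwards [ad.nu_eq hU st] with p hp hp'
    have := hp (hKU hp'.1)
    simp only [w2, eX, this, PiLp.inner_apply, sq, Finset.sum_mul_sum, RCLike.inner_apply, conj_trivial]
    exact Finset.sum_congr rfl fun i _ => Finset.sum_congr rfl fun j _ => by ring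
  obtain ⟨A1, A2, A3⟩ := HA W U P Λ' (η ^ 4) (η ^ 2) c hKU hΛ0
    (hm.trans (ENNReal.ofReal_le_ofReal hΛ1)) hw' (by positivity) (pow_le_one₀ hη.le hη1)
  have hK0U := (hK0.trans hOK).trans hKU
  have B := HC W U P c hK0U φ₁ ⟨u₁.1, u₁.2.1, (u₁.2.2.trans hOK).trans hKU⟩ v₁ η η hη hη hη1
  have B' : κ / 2 * ∫ x, (φ (rh ⊥ x) * ψ (sg ⊥ x)) ^ 2 * c2 P x ∂W.fst ≤ κ / 2 * ε := by
    refine B.trans (le_trans ?_ hη2)
    have e1 : C₂ * C₁ * (3 * Λ' + 1) * η = C₂ * (η * (C₁ * Λ') + η * (C₁ * Λ') +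
        η⁻¹ * (C₁ * (η ^ 2 * Λ' + (η ^ 2)⁻¹ * η ^ 4))) := by
      field_simp
      ring
    rw [e1]
    gcongr
  have B'' := le_of_mul_le_mul_left B' (half_pos hκ)
  refine le_trans ?_ B''
  obtain ⟨s₁, s₂⟩ := S7_c1c (L := (⊥ : Submodule ℝ (R d))) hρ hK0U hφ hψ (fun t ht => (h0 t ht).1)
    (fun t ht => (h0' t ht).1)
  have cΦ := s₁.1.continuous
  have iΦ : Integrable (fun x => (φ (rh ⊥ x) * ψ (sg ⊥ x)) ^ 2 * c2 P x) W.fst :=
    S0_int st.1 (S0_K0 ⊥ ρ₀ R₁) hK0U ((cΦ.pow 2).mul cc) fun x hx => by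
      have : φ (rh ⊥ x) * ψ (sg ⊥ x) = 0 :=
        image_eq_zero_of_notMem_tsupport (f := fun x => φ (rh ⊥ x) * ψ (sg ⊥ x)) fun h' => hx (s₂ h')
      simp [this]
  have hA : IsOpen (An 16⁻¹ 16 : Set (R d)) :=
    (isOpen_lt continuous_const continuous_norm).inter (isOpen_lt continuous_norm continuous_const)
  have hAK : (An 16⁻¹ 16 : Set (R d)) ⊆ K := fun x hx => hKe ▸
    ⟨le_trans (inv_anti₀ (by norm_num) (by linarith only [hρ₀])) hx.1.le, by linarith only [hx.2, hρ₀]⟩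
  refine le_trans (setIntegral_mono_on ((S8b_intOn st.1 hK hKU cc).mono_set hAK) iΦ.integrableOn
    hA.measurableSet fun x hx => ?_) (setIntegral_le_integral iΦ (Eventually.of_forall fun x =>
      mul_nonneg (sq_nonneg _) (S0_c2_nonneg P x)))
  have a1 : 1 ≤ φ (rh ⊥ x) ^ 2 := by
    rw [erh]
    have b1 := hx.1
    have b2 := hx.2
    exact h1 _ (by nlinarith only [b1]) (by nlinarith only [b1, b2])
  have a2 : 1 ≤ ψ (sg ⊥ x) ^ 2 := by rw [esg]; exact h1' 0 le_rfl le_rfl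
  rw [mul_pow]
  exact le_mul_of_one_le_left (S0_c2_nonneg P x) (one_le_mul_of_one_le_of_one_le a1 a2)

end Pool.Agent.MP_5cfeaf_gt.W

end

section

/-! Block H: calculus on the smooth part of the support (`IH0`), Simons (`IS`), flatness. -/

set_option autoImplicit false

open MeasureTheory Set Filter Topology Metric
open scoped ENNReal symmDiff Classical InnerProductSpace ContDiff

namespace Pool.Agent.MP_5cfeaf_gt.W

variable {d : ℕ}

theorem H_plane {n n' a : R d} (ha : ⟪n, a⟫_ℝ = 0) (h : ∀ᶠ y in 𝓝 a, ⟪n, y⟫_ℝ = 0 → ⟪n', y⟫_ℝ = 0)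
    (v : R d) (hv : ⟪n, v⟫_ℝ = 0) : ⟪n', v⟫_ℝ = 0 := by
  have h1 : Tendsto (fun t : ℝ => a + t • v) (𝓝[≠] 0) (𝓝 a) :=
    (Continuous.tendsto' (by fun_prop) _ _ (by simp)).mono_left nhdsWithin_le_nhds
  obtain ⟨t, h2, h3⟩ := ((h1.eventually h).and self_mem_nhdsWithin).exists
  simpa [inner_add_right, inner_smul_right, ha, hv, h.self_of_nhds ha, show t ≠ 0 from h3] using h2

theorem H_glob {M s : Set (R d)} (hM : IsClosed M) (hs : IsPreconnected s)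
    (h : ∀ x ∈ M ∩ s, ∃ n : R d, ∀ᶠ y in 𝓝 x, (y ∈ M ↔ ⟪n, y⟫_ℝ = 0)) {n x : R d}
    (hn : ∀ w ∈ s, ⟪n, w⟫_ℝ = 0) (hx : x ∈ s) (hx' : ∀ᶠ y in 𝓝 x, (y ∈ M ↔ ⟪n, y⟫_ℝ = 0)) :
    ∀ w ∈ s, ∀ᶠ y in 𝓝 w, (y ∈ M ↔ ⟪n, y⟫_ℝ = 0) := by
  let u := {w | ∀ᶠ y in 𝓝 w, (y ∈ M ↔ ⟪n, y⟫_ℝ = 0)}
  have h1 : ∀ w ∈ s, w ∈ closure (s ∩ u) → w ∈ u := fun w hw hc => by
    have h2 : s ∩ u ⊆ M := fun a ha => (Eventually.self_of_nhds ha.2).2 (hn a ha.1)
    obtain ⟨n', h3⟩ := h w ⟨closure_minimal h2 hM hc, hw⟩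
    obtain ⟨a, h4, h5⟩ := mem_closure_iff_nhds.1 hc _ h3.eventually_nhds
    have h6 : ∀ᶠ y in 𝓝 a, (y ∈ M ↔ ⟪n, y⟫_ℝ = 0) := h5.2
    have h7 : ∀ᶠ y in 𝓝 a, (y ∈ M ↔ ⟪n', y⟫_ℝ = 0) := h4
    exact h3.mono fun y hy => hy.trans ⟨H_plane (h7.self_of_nhds.1 (h2 h5))
      ((h6.and h7).mono fun _ b c => b.1.1 (b.2.2 c)) y, H_plane (hn a h5.1)
      ((h6.and h7).mono fun _ b c => b.2.1 (b.1.2 c)) y⟩
  intro w hw
  by_contra h2
  obtain ⟨a, h3, h4, h5⟩ := hs u (closure (s ∩ u))ᶜ isOpen_setOfPred_eventually_nhds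
    isClosed_closure.isOpen_compl (fun a ha => or_iff_not_imp_right.2 fun b => h1 a ha (not_not.1 b))
    ⟨x, hx, hx'⟩ ⟨w, hw, fun b => h2 (h1 w hw b)⟩
  exact h5 (subset_closure ⟨h3, h4⟩)

theorem H_const {g : R d → ℝ} {x : R d} (hg : ContDiff ℝ ∞ g) (h : ∀ᶠ w in 𝓝 x, fderiv ℝ g w = 0) :
    ∀ᶠ w in 𝓝 x, g w = g x := by
  obtain ⟨ε, h1, h2⟩ := Metric.eventually_nhds_iff_ball.1 h
  filter_upwards [ball_mem_nhds x h1] with w hw
  exact isOpen_ball.is_const_of_fderiv_eq_zero (𝕜 := ℝ) (convex_ball x ε).isPreconnected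
    (fun y _ => (H_diff hg y).differentiableWithinAt) h2 hw (mem_ball_self h1)

theorem Adapted.chain {M U : Set (R d)} {P} (h : Adapted M U P) {γ : R d → R d} {w : R d}
    (hγ : ContDiff ℝ ∞ γ) (hU : γ w ∈ U) (hM : ∀ᶠ y in 𝓝 w, γ y ∈ M) {g : R d → ℝ}
    (hg : ContDiff ℝ ∞ g) (h0 : ∀ i, dl P i g (γ w) = 0) : fderiv ℝ (fun y => g (γ y)) w = 0 := by
  obtain ⟨f, h1, h2⟩ := h.2 _ ⟨hM.self_of_nhds, hU⟩
  have h3 : (fun y => f (γ y)) =ᶠ[𝓝 w] fun _ => 0 :=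
    (hM.and (hγ.continuous.continuousAt.eventually h1.2.2)).mono fun y a => a.2.1 a.1
  have h4 := h3.fderiv_eq (𝕜 := ℝ)
  rw [fderiv_fun_comp w (H_diff h1.1 _) (H_diff hγ w), fderiv_fun_const] at h4
  rw [fderiv_fun_comp w (H_diff hg _) (H_diff hγ w)]
  ext1 v
  have h5 : fderiv ℝ f (γ w) (fderiv ℝ γ w v) = 0 := congrArg (fun A => A v) h4
  change fderiv ℝ g (γ w) (fderiv ℝ γ w v) = 0
  rw [H_fd] at h5 ⊢
  refine (mul_eq_zero.1 ?_).resolve_right h1.pos.ne'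
  have h6 : ∀ i, pd i g (γ w) * ∑ k, pd k f (γ w) ^ 2 =
      pd i f (γ w) * ∑ j, pd j f (γ w) * pd j g (γ w) := fun i => by
    rw [sub_eq_zero.1 (h0 i), Finset.sum_mul, Finset.mul_sum _ _ (pd i f _)]
    exact Finset.sum_congr rfl fun j _ => by linear_combination pd j g (γ w) * h2 i j
  simp only [Finset.sum_mul, mul_assoc, h6]
  simp only [← mul_assoc, ← Finset.sum_mul, h5, zero_mul]

/-- a smooth surface without curvature is locally a hyperplane -/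
theorem Adapted.flat {M U : Set (R d)} {P} (h : Adapted M U P) (hU : IsOpen U) {x n : R d}
    (hx : x ∈ M ∩ U) (hn : ‖n‖ = 1) (hP : ∀ i j, P x i j = n i * n j)
    (hc : ∀ᶠ y in 𝓝 x, y ∈ M → c2 P y = 0) : ∀ᶠ y in 𝓝 x, (y ∈ M ↔ ⟪n, y⟫_ℝ = ⟪n, x⟫_ℝ) := by
  obtain ⟨f, h1, h2⟩ := h.2 x hx
  have h3 : fderiv ℝ f x n ≠ 0 := fun h3 => h1.pos.ne' (by
    have h4 : ∑ i, ∑ j, n i * n j * (P x i j * ∑ k, pd k f x ^ 2) = fderiv ℝ f x n ^ 2 := by
      simp only [h2]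
      rw [H_fd, sq, Finset.sum_mul_sum]
      exact Finset.sum_congr rfl fun i _ => Finset.sum_congr rfl fun j _ => by ring
    have h5 : ∀ i j, n i * n j * (P x i j * ∑ k, pd k f x ^ 2) =
        (∑ k, pd k f x ^ 2) * (n i ^ 2 * n j ^ 2) := fun i j => by rw [hP]; ring
    simpa only [h5, ← Finset.mul_sum, H_normsq.1 hn, mul_one, h3, ne_eq, OfNat.ofNat_ne_zero, not_false_eq_true, zero_pow] using h4)
  obtain ⟨τ, h4, h5⟩ := h1.chart hx.1 hn h3
  obtain ⟨γ, hγ⟩ : ∃ γ : R d → R d,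
    γ = fun w => w - ⟪n, w⟫_ℝ • n + τ (w - ⟪n, w⟫_ℝ • n) • n := ⟨_, rfl⟩
  have h6 : ContDiff ℝ ∞ fun w : R d => w - ⟪n, w⟫_ℝ • n :=
    contDiff_id.sub ((contDiff_const.inner ℝ contDiff_id).smul contDiff_const)
  have h7 : ContDiff ℝ ∞ γ := hγ ▸ h6.add ((h4.comp h6).smul contDiff_const)
  have h8 : γ x = x := by simp [hγ, ← h5.self_of_nhds.1 hx.1]
  have h9 : ∀ w, ⟪n, γ w⟫_ℝ = τ (w - ⟪n, w⟫_ℝ • n) := fun w => by
    simp [hγ, inner_add_right, inner_sub_right, inner_smul_right, hn]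
  have h10 : Tendsto γ (𝓝 x) (𝓝 x) := h7.continuous.tendsto' _ _ h8
  have h11 : ∀ᶠ w in 𝓝 x, γ w ∈ M := (h10.eventually h5).mono fun w hw => hw.2 (by
    rw [h9]
    simp [hγ])
  have h12 := h10.eventually (hU.mem_nhds hx.2)
  have h13 : ∀ j k, ∀ᶠ w in 𝓝 x, P (γ w) j k = P (γ x) j k := fun j k =>
    H_const ((h.1 j k).comp h7) (by
      filter_upwards [h11.eventually_nhds, h12, h10.eventually hc] with w a b c
      refine h.chain h7 b a (h.1 j k) fun i => pow_eq_zero_iff two_ne_zero |>.1 ?_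
      have h13 := (div_eq_zero_iff.1 (c a.self_of_nhds)).resolve_right two_ne_zero
      exact (Finset.sum_eq_zero_iff_of_nonneg fun _ _ => sq_nonneg _).1
        ((Finset.sum_eq_zero_iff_of_nonneg fun _ _ => gs_nonneg _ _ _).1
        ((Finset.sum_eq_zero_iff_of_nonneg fun _ _ => Finset.sum_nonneg
        fun _ _ => gs_nonneg _ _ _).1 h13 j (Finset.mem_univ _)) k (Finset.mem_univ _)) i
        (Finset.mem_univ _))
  have h14 : ContDiff ℝ ∞ fun y : R d => ⟪n, y⟫_ℝ := contDiff_const.inner ℝ contDiff_id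
  have h15 : ∀ᶠ w in 𝓝 x, ⟪n, γ w⟫_ℝ = ⟪n, γ x⟫_ℝ := H_const (h14.comp h7) (by
    filter_upwards [h11.eventually_nhds, h12,
      eventually_all.2 fun j => eventually_all.2 (h13 j)] with w a b c
    refine h.chain h7 b a h14 fun i => ?_
    have h15 : ∀ j, pd j (fun y : R d => ⟪n, y⟫_ℝ) (γ w) = n j := fun j => by
      change fderiv ℝ (innerSL ℝ n) _ _ = _
      rw [ContinuousLinearMap.fderiv]
      simp [EuclideanSpace.inner_single_right]
    simp only [dl, h15, c, h8, hP, mul_assoc, ← Finset.mul_sum, ← sq, H_normsq.1 hn, mul_one,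
      sub_self])
  filter_upwards [h5, h15] with y a b
  rw [a, ← h9, b, h8]

theorem H_rank (V : Submodule ℝ (R d)) (n : R d) :
    Module.finrank ℝ V ≤ Module.finrank ℝ (V ⊓ (ℝ ∙ n)ᗮ : Submodule ℝ (R d)) + 1 := by
  have h1 := Submodule.finrank_sup_add_finrank_inf_eq V (ℝ ∙ n)ᗮ
  have h2 := Submodule.finrank_add_finrank_orthogonal (ℝ ∙ n)
  have h3 := Submodule.finrank_le (V ⊔ (ℝ ∙ n)ᗮ)
  have h4 : Module.finrank ℝ (ℝ ∙ n) ≤ 1 := (finrank_span_le_card _).trans (by simp)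
  omega

theorem H_unit {V : Submodule ℝ (R d)} (h : 1 ≤ Module.finrank ℝ V) : ∃ y ∈ V, ‖y‖ = 1 := by
  have := Module.finrank_pos_iff.1 h
  obtain ⟨y, hy⟩ := exists_norm_eq V zero_le_one
  exact ⟨y, y.2, hy⟩

/-- Simons + Hardy + flatness: a stable cone with spine of codimension at least 2 in it is flat -/
theorem simons_flat (hd : d ≤ 6) : ∃ ρ : ℝ, 2 ≤ ρ ∧ ∀ (W : Vf d) (O : Set (R d)) (L : Submodule ℝ (R d)),
    Module.finrank ℝ L + 2 ≤ d → IsOpen O → Stat W O → Stab W.fst O → Con W O L →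
    (∀ x ∈ W.fst.support ∩ O, WReg W.fst.support x) →
    (∀ y ∈ Lᗮ, ∀ z ∈ L, ρ⁻¹ ≤ ‖y‖ → ‖y‖ ≤ ρ → ‖z‖ ≤ ρ → y + z ∈ O) →
    ∃ n : R d, ‖n‖ = 1 ∧ (∀ z ∈ L, ⟪n, z⟫_ℝ = 0) ∧ ∀ y ∈ Lᗮ, ∀ z ∈ L, 1 / 2 < ‖y‖ → ‖y‖ < 2 → ‖z‖ < 1 →
      y + z ∈ W.fst.support → ⟪n, y⟫_ℝ = 0 := by
  obtain ⟨ρ, hρ, hz⟩ := simons_zero hd
  refine ⟨ρ, by linarith only [hρ], fun W O L hL hO hs hb hc hr hK => ?_⟩
  have h1 : ∀ y ∈ Lᗮ, ∀ z ∈ L, L.starProjection (y + z) = z := fun y hy z hz => by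
    rw [map_add, (Submodule.starProjection_apply_eq_zero_iff L).2 hy,
      Submodule.starProjection_eq_self_iff.2 hz, zero_add]
  have h2 := fun w => L.sub_starProjection_mem_orthogonal w
  have h3 := fun w => L.starProjection_apply_mem w
  have c1 : Continuous fun w => ‖w - L.starProjection w‖ := by fun_prop
  have c2 : Continuous fun w => ‖L.starProjection w‖ := by fun_prop
  obtain ⟨U, P, hU, hKU, hUO, hP⟩ := exists_adapted (K := {w | ρ⁻¹ ≤ ‖w - L.starProjection w‖ ∧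
    ‖w - L.starProjection w‖ ≤ ρ ∧ ‖L.starProjection w‖ ≤ ρ}) Measure.isClosed_support hO
    (isCompact_of_isClosed_isBounded ((isClosed_le continuous_const c1).inter
      ((isClosed_le c1 continuous_const).inter (isClosed_le c2 continuous_const)))
      (isBounded_iff_forall_norm_le.2 ⟨ρ + ρ, fun w hw =>
        (norm_le_norm_sub_add w _).trans (add_le_add hw.2.1 hw.2.2)⟩))
    (fun w hw => sub_add_cancel w (L.starProjection w) ▸ hK _ (h2 w) _ (h3 w) hw.1 hw.2.1 hw.2.2) hr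
  have h4 := hz W U P L hL hU hP (hs.mono hUO) (fun _ _ a b => hb _ _ a (b.trans hUO))
    (Filter.Eventually.mono hc fun _ a b => a (hUO b)) fun y hy z hz a b c => hKU (by simpa only [mem_ofPred_eq, h1 y hy z hz, add_sub_cancel_right] using ⟨a, b, c⟩)
  obtain ⟨G, hG⟩ : ∃ G, G = {w | 1 / 3 < ‖w - L.starProjection w‖ ∧
    ‖w - L.starProjection w‖ < 3 ∧ ‖L.starProjection w‖ < 2} := ⟨_, rfl⟩
  have h5 : IsOpen G := hG ▸ (isOpen_lt continuous_const c1).inter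
    ((isOpen_lt c1 continuous_const).inter (isOpen_lt c2 continuous_const))
  have h6 : ∀ x ∈ W.fst.support ∩ G, ∃ n : R d, ‖n‖ = 1 ∧ (∀ z ∈ L, ⟪n, z⟫_ℝ = 0) ∧
      ∀ᶠ y in 𝓝 x, (y ∈ W.fst.support ↔ ⟪n, y⟫_ℝ = 0) := fun x hx => by
    have h6 : x ∈ W.fst.support ∩ U := ⟨hx.1, hKU (by
      obtain ⟨a, b, c⟩ := hG ▸ hx.2
      exact ⟨(inv_anti₀ three_pos (by linarith only [hρ])).trans (by linarith only [a]), by linarith only [hρ, b], by linarith only [hρ, c]⟩)⟩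
    obtain ⟨n, hn, h7⟩ := hP.normal h6
    have h8 : ∀ v : R d, (∀ i, ∑ j, P x i j * v j = 0) → ⟪n, v⟫_ℝ = 0 := fun v hv => by
      simp only [h7, mul_assoc, ← Finset.mul_sum, ← H_inner, mul_eq_zero] at hv
      by_contra h8
      simpa [fun i => (hv i).resolve_right h8] using H_normsq.1 hn
    have h9 := hP.con hU (hs.mono hUO) hc hUO h6
    refine ⟨n, hn, fun z hz => h8 z fun i => (h9 i).2 z hz, ?_⟩
    rw [← h8 x fun i => (h9 i).1]
    refine hP.flat hU h6 hn h7 ((h5.eventually_mem hx.2).mono fun y hy a => ?_)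
    obtain ⟨b, c, e⟩ := hG ▸ hy
    rw [← sub_add_cancel y (L.starProjection y)] at a ⊢
    exact h4 _ (h2 y) _ (h3 y) b.le c.le e.le a
  have h7 : 3 ≤ Module.finrank ℝ Lᗮ := by
    have := L.finrank_add_finrank_orthogonal
    rw [finrank_euclideanSpace_fin] at this
    omega
  have h8 : ∀ y ∈ Lᗮ, ∀ z ∈ L, 1 / 2 < ‖y‖ → ‖y‖ < 2 → ‖z‖ < 1 → y + z ∈ W.fst.support →
      ∃ n : R d, ‖n‖ = 1 ∧ (∀ z ∈ L, ⟪n, z⟫_ℝ = 0) ∧ ⟪n, y⟫_ℝ = 0 ∧ ∀ a ∈ Lᗮ ⊓ (ℝ ∙ n)ᗮ, ‖a‖ = 1 →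
        ∀ᶠ y in 𝓝 a, (y ∈ W.fst.support ↔ ⟪n, y⟫_ℝ = 0) := fun y hy z hz a b c e => by
    obtain ⟨n, hn, h8, h9⟩ := h6 _ ⟨e, by
      rw [hG]
      simp only [mem_ofPred_eq, h1 y hy z hz, add_sub_cancel_right]
      exact ⟨by linarith only [a], by linarith only [b], by linarith only [c]⟩⟩
    have h10 : ⟪n, y⟫_ℝ = 0 := by simpa [inner_add_right, h8 z hz] using h9.self_of_nhds.1 e
    have h11 : 1 < Module.rank ℝ (Lᗮ ⊓ (ℝ ∙ n)ᗮ : Submodule ℝ (R d)) := by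
      have := H_rank Lᗮ n
      rw [← Module.finrank_eq_rank]
      exact_mod_cast (by omega)
    have h12 := (((isConnected_sphere h11 0 zero_le_one).isPreconnected.prod
      (isPreconnected_Ioo (a := (1 / 3 : ℝ)) (b := 3))).prod
      (convex_ball (0 : L) 2).isPreconnected).image (fun p => p.1.2 • (p.1.1 : R d) + (p.2 : R d))
      (by fun_prop)
    have h13 : 0 < ‖y‖ := by linarith only [a]
    refine ⟨n, hn, h8, h10, fun w hw hw' => H_glob Measure.isClosed_support h12 (fun x hx => ?_)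
      ?_ ⟨((⟨‖y‖⁻¹ • y, Submodule.smul_mem _ _
        ⟨hy, Submodule.mem_orthogonal_singleton_iff_inner_right.2 h10⟩⟩, ‖y‖), ⟨z, hz⟩),
        ⟨⟨by simp only [mem_sphere_iff_norm, sub_zero, Submodule.coe_norm, norm_smul, norm_inv, norm_norm, ne_eq, h13.ne', not_false_eq_true, inv_mul_cancel₀], by linarith only [a, h10], by linarith only [b, h10]⟩, by simpa only [mem_ball, dist_zero_right, Submodule.coe_norm] using by linarith only [c]⟩,
        by simp [smul_smul, h13.ne']⟩ h9 w ⟨((⟨w, hw⟩, 1), 0),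
        ⟨⟨by simpa only [mem_sphere_iff_norm, sub_zero, Submodule.coe_norm] using hw', by norm_num, by norm_num⟩, by simp⟩, by simp⟩⟩
    · obtain ⟨n', -, -, h14⟩ := h6 x ⟨hx.1, by
        obtain ⟨⟨⟨p, t⟩, q⟩, ⟨⟨a, b, c⟩, e⟩, rfl⟩ := hx.2
        rw [hG]
        simp only [mem_ofPred_eq, h1 _ (Submodule.smul_mem _ t p.2.1) _ q.2, add_sub_cancel_right,
          norm_smul, show ‖(p : R d)‖ = 1 by simpa only [mem_sphere_iff_norm, sub_zero, Submodule.coe_norm] using a, mul_one,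
          Real.norm_of_nonneg (show 0 ≤ t by linarith only [b])]
        exact ⟨b, c, by simpa only [mem_ball, dist_zero_right, Submodule.coe_norm] using e⟩⟩
      exact ⟨n', h14⟩
    · rintro _ ⟨⟨⟨p, t⟩, q⟩, -, rfl⟩
      simp only [inner_add_right, inner_smul_right, Submodule.mem_orthogonal_singleton_iff_inner_right.1 p.2.2, mul_zero, h8 _ q.2, add_zero]
  by_cases h9 : ∃ y ∈ Lᗮ, ∃ z ∈ L, 1 / 2 < ‖y‖ ∧ ‖y‖ < 2 ∧ ‖z‖ < 1 ∧ y + z ∈ W.fst.support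
  · obtain ⟨y, hy, z, hz, a, b, c, e⟩ := h9
    obtain ⟨n, hn, h9, -, h10⟩ := h8 y hy z hz a b c e
    refine ⟨n, hn, h9, fun y hy z hz a b c e => ?_⟩
    obtain ⟨n', -, -, h11, h12⟩ := h8 y hy z hz a b c e
    obtain ⟨w, h13, h14⟩ := H_unit (V := (Lᗮ ⊓ (ℝ ∙ n)ᗮ) ⊓ (ℝ ∙ n')ᗮ) (by
      have := H_rank Lᗮ n
      have := H_rank (Lᗮ ⊓ (ℝ ∙ n)ᗮ) n'
      omega)
    exact H_plane (Submodule.mem_orthogonal_singleton_iff_inner_right.1 h13.2)
      (((h10 w h13.1 h14).and (h12 w ⟨h13.1.1, h13.2⟩ h14)).mono fun _ b c => b.1.1 (b.2.2 c)) y h11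
  · obtain ⟨n, h10, hn⟩ := H_unit (V := Lᗮ) (by omega)
    exact ⟨n, hn, fun z hz => Submodule.inner_left_of_mem_orthogonal hz h10,
      fun y hy z hz a b c e => (h9 ⟨y, hy, z, hz, a, b, c, e⟩).elim⟩

end Pool.Agent.MP_5cfeaf_gt.W

end

section

/-! Block J: abstract dimension reduction. -/

set_option autoImplicit false

open MeasureTheory Set Filter Topology Metric
open scoped ENNReal symmDiff Classical InnerProductSpace ContDiff

namespace Pool.Agent.MP_5cfeaf_gt.W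

variable {d : ℕ}

section J1

/-- `W'` is a blow-up of `W` at `x` -/
def Blow (W : Vf d) (x : R d) (W' : Vf d) : Prop :=
  ∃ (𝓤 : Ultrafilter ℕ) (r : ℕ → ℝ), (∀ i, 0 < r i) ∧ Tendsto r (𝓤 : Filter ℕ) (𝓝 0) ∧
    LocBd (𝓤 : Filter ℕ) (fun i => simV (r i) x (LinearIsometryEquiv.refl ℝ (R d)) W) univ ∧
    LocFin W' univ ∧
    VConv (𝓤 : Filter ℕ) (fun i => simV (r i) x (LinearIsometryEquiv.refl ℝ (R d)) W) W' univ

/-- contained in a hyperplane through the origin -/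
def Flat (M : Set (R d)) : Prop := ∃ n : R d, ‖n‖ = 1 ∧ ∀ y ∈ M, ⟪n, y⟫_ℝ = 0

/-- Euclidean mass growth -/
def MB (W : Vf d) : Prop :=
  ∃ Λ : ℝ, ∀ ρ : ℝ, 0 < ρ → W.fst (ball 0 ρ) ≤ ENNReal.ofReal (Λ * ρ ^ d)

theorem mass_bound (hd : 1 ≤ d) {W : Vf d} {O : Set (R d)} (hO : IsOpen O) (h : Stat W O) {x : R d}
    (hx : x ∈ O) : ∃ Λ : ℝ, 0 ≤ Λ ∧ ∃ r₀ > 0, closedBall x r₀ ⊆ O ∧ ∀ s, 0 < s → s ≤ r₀ →
      W.fst (closedBall x s) ≤ ENNReal.ofReal (Λ * s ^ d) := by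
  obtain ⟨ε, hε, hb⟩ := nhds_basis_closedBall.mem_iff.1 (hO.mem_nhds hx)
  refine ⟨2 ^ (d + 1) * theta W x ε, mul_nonneg (by positivity) (theta_nonneg W x hε), ε / 2,
    half_pos hε, (closedBall_subset_closedBall (half_le_self hε.le)).trans hb, fun s hs hs' => ?_⟩
  have h2 : 2 * s ≤ ε := by linarith only [hs']
  refine (le_theta hs (h.1 _ (isCompact_closedBall _ _)
    ((closedBall_subset_closedBall h2).trans hb))).trans (ENNReal.ofReal_le_ofReal ?_)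
  have := theta_mono hd h (x := x) (by positivity : 0 < 2 * s) h2 hb
  gcongr

theorem J1_simP_self (r : ℝ) (x : R d) (Q : R d ≃ₗᵢ[ℝ] R d) : simP r x Q x = 0 := by
  simp [simP]

theorem blow_bound {W : Vf d} {x : R d} {Λ r₀ : ℝ}
    (h : ∀ s, 0 < s → s ≤ r₀ → W.fst (closedBall x s) ≤ ENNReal.ofReal (Λ * s ^ d))
    {r ρ : ℝ} (hr : 0 < r) (hρ : 0 < ρ) (hrρ : r * ρ ≤ r₀) (Q : R d ≃ₗᵢ[ℝ] R d) :
    (simV r x Q W).fst (closedBall 0 ρ) ≤ ENNReal.ofReal (Λ * ρ ^ d) := by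
  rw [← J1_simP_self r x Q, ← simP_closedBall hr, simV_fst W hr]
  refine (mul_le_mul_right (h _ (mul_pos hr hρ) hrρ) _).trans (le_of_eq ?_)
  rw [← ENNReal.ofReal_mul (by positivity), mul_pow]
  congr 1
  field_simp

theorem J1_small {ι : Type} {l : Filter ι} {r : ι → ℝ} (hr : Tendsto r l (𝓝 0)) (ρ : ℝ) {r₀ : ℝ}
    (h : 0 < r₀) : ∀ᶠ i in l, r i * ρ ≤ r₀ :=
  (hr.mul_const ρ).eventually (eventually_le_nhds (by simpa using h))

theorem Cls.exists_blow (C : Cls d) (hd : 1 ≤ d) {W : Vf d} {O : Set (R d)} (hO : IsOpen O)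
    (h : C.K O W) {x : R d} (hx : x ∈ O) : ∃ W', C.K univ W' ∧ Blow W x W' := by
  obtain ⟨Λ, -, r₀, hr₀, hb, hm⟩ := mass_bound hd hO (C.stat O W hO h) hx
  have hr : ∀ i : ℕ, (0 : ℝ) < 1 / ((i : ℝ) + 1) := fun i => by positivity
  have ht : Tendsto (fun i : ℕ => 1 / ((i : ℝ) + 1)) (hyperfilter ℕ : Filter ℕ) (𝓝 0) :=
    tendsto_one_div_add_atTop_nhds_zero_nat.mono_left Nat.hyperfilter_le_atTop
  have hl : LocBd (hyperfilter ℕ : Filter ℕ)
      (fun i : ℕ => simV (1 / ((i : ℝ) + 1)) x (LinearIsometryEquiv.refl ℝ (R d)) W) univ := by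
    intro K hK _
    obtain ⟨ρ, hρ, hK'⟩ := hK.isBounded.subset_closedBall_lt 0 0
    exact ⟨_, ENNReal.ofReal_lt_top, (J1_small ht ρ hr₀).mono fun i hi =>
      (measure_mono hK').trans (blow_bound hm (hr i) hρ hi _)⟩
  obtain ⟨W', h1, h2⟩ := C.lim (hyperfilter ℕ)
    (fun i => simP (1 / ((i : ℝ) + 1)) x (LinearIsometryEquiv.refl ℝ (R d)) '' O) _
    (fun i => ⟨by
      obtain ⟨φ, hφ, -⟩ := exists_simH (hr i) x (LinearIsometryEquiv.refl ℝ (R d))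
      rw [← funext hφ]
      exact φ.isOpenMap O hO, C.sim O W _ x _ hO (hr i) h⟩)
    (fun ρ => (J1_small ht ρ hr₀).mono fun i hi => by
      rw [← J1_simP_self (1 / ((i : ℝ) + 1)) x (LinearIsometryEquiv.refl ℝ (R d)),
        ← simP_ball (hr i)]
      exact image_mono ((ball_subset_closedBall.trans (closedBall_subset_closedBall hi)).trans hb))
    hl
  exact ⟨W', h1, _, _, hr, ht, hl, (C.stat _ _ isOpen_univ h1).1, h2⟩

theorem Blow.mb (hd : 1 ≤ d) {W W' : Vf d} {O : Set (R d)} (hO : IsOpen O) (h : Stat W O) {x : R d}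
    (hx : x ∈ O) (hb : Blow W x W') : MB W' := by
  obtain ⟨Λ, -, r₀, hr₀, -, hm⟩ := mass_bound hd hO h hx
  obtain ⟨𝓤, r, hr, ht, h1, h2, h3⟩ := hb
  refine ⟨Λ, fun ρ hρ => (h3.le_liminf h1 h2 isOpen_ball (subset_univ _)).trans ?_⟩
  exact liminf_le_of_frequently_le' ((J1_small ht ρ hr₀).mono fun i hi =>
    (measure_mono ball_subset_closedBall).trans (blow_bound hm (hr i) hρ hi _)).frequently

end J1

section J2

theorem J2_open {O : Set (R d)} (hO : IsOpen O) {r : ℝ} (hr : 0 < r) (x : R d)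
    (Q : R d ≃ₗᵢ[ℝ] R d) : IsOpen (simP r x Q '' O) := by
  obtain ⟨φ, hφ, -⟩ := exists_simH hr x Q
  have : simP r x Q = φ := by funext y; exact (hφ y).symm
  rw [this]
  exact φ.isOpenMap O hO

theorem J2_self (r : ℝ) (x : R d) (Q : R d ≃ₗᵢ[ℝ] R d) : simP r x Q x = 0 := by
  simp [simP]

theorem J2_sub {O : Set (R d)} {r r₀ ρ : ℝ} (hr : 0 < r) {x : R d} (h0 : closedBall x r₀ ⊆ O)
    (hρ : r * ρ ≤ r₀) (Q : R d ≃ₗᵢ[ℝ] R d) : closedBall (0 : R d) ρ ⊆ simP r x Q '' O := by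
  have h1 := simP_closedBall hr x x Q ρ
  rw [J2_self] at h1
  rw [← h1]
  exact image_mono ((closedBall_subset_closedBall hρ).trans h0)

theorem J2_refl (n : R d) (hn : ‖n‖ = 1) :
    ∃ Q : R d ≃ₗᵢ[ℝ] R d, ∀ y, ht (Q y) = ⟪n, y⟫_ℝ := by
  have he : ‖n‖ = ‖(EuclideanSpace.single (Fin.last d) (1 : ℝ) : R d)‖ := by simp [hn]
  refine ⟨Submodule.reflection (ℝ ∙ (n - EuclideanSpace.single (Fin.last d) (1 : ℝ)))ᗮ, fun y => ?_⟩
  have h1 := Submodule.reflection_sub he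
  rw [← LinearIsometryEquiv.inner_map_map
    (Submodule.reflection (ℝ ∙ (n - EuclideanSpace.single (Fin.last d) (1 : ℝ)))ᗮ) n y, h1]
  simp [ht, EuclideanSpace.inner_single_left]

theorem Cls.wreg_of_flat (C : Cls d) (hd : 1 ≤ d) {W W' : Vf d} {O : Set (R d)} (hO : IsOpen O)
    (h : C.K O W) {x : R d} (hx : x ∈ W.fst.support ∩ O) (hb : Blow W x W')
    (hf : Flat W'.fst.support) : WReg W.fst.support x := by
  obtain ⟨𝓤, r, hr, hr0, hbd, hlf, hcv⟩ := hb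
  obtain ⟨n, hn, hfl⟩ := hf
  obtain ⟨Q, hQ⟩ := J2_refl n hn
  obtain ⟨Λ, -, r₀, hr₀, hO₀, hm⟩ := mass_bound hd hO (C.stat O W hO h) hx.2
  obtain ⟨ε, hε, heps⟩ := C.eps (Λ * 4 ^ d)
  obtain ⟨c, hc, hdens⟩ := C.dens
  have hev : ∀ ρ : ℝ, ∀ᶠ i in (𝓤 : Filter ℕ), r i * ρ ≤ r₀ := by
    intro ρ
    have h1 : Tendsto (fun i => r i * ρ) (𝓤 : Filter ℕ) (𝓝 (0 * ρ)) := hr0.mul_const ρ
    rw [zero_mul] at h1
    exact h1.eventually (eventually_le_nhds hr₀)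
  have hnear := VConv.support_near isOpen_univ hcv hbd hlf (isCompact_closedBall (0 : R d) 4)
    (subset_univ _) hc (fun s hs _ => (hev (4 + s)).mono fun i hi y hy => by
      refine hdens _ _ y s (J2_open hO (hr i) x _) (C.sim O W (r i) x _ hO (hr i) h) hy.1 hs ?_
      refine Subset.trans ?_ (J2_sub (hr i) hO₀ hi _)
      intro z hz
      have h1 := hy.2
      rw [mem_closedBall] at hz h1 ⊢
      linarith only [dist_triangle z y 0, hz, h1]) hε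
  obtain ⟨i, hi, hi4⟩ := (hnear.and (hev 4)).exists
  have hK : C.K (ball 0 4) (simV (r i) x Q W) :=
    C.mono _ _ _ (J2_open hO (hr i) x Q) isOpen_ball
      (ball_subset_closedBall.trans (J2_sub (hr i) hO₀ hi4 Q)) (C.sim O W (r i) x Q hO (hr i) h)
  have hM : (simV (r i) x Q W).fst (ball 0 4) ≤ ENNReal.ofReal (Λ * 4 ^ d) :=
    (measure_mono ball_subset_closedBall).trans (blow_bound hm (hr i) (by norm_num) hi4 Q)
  have h0 : (0 : R d) ∈ (simV (r i) x Q W).fst.support := by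
    rw [simV_support W (hr i)]
    exact ⟨x, hx.1, J2_self _ _ _⟩
  have hh : ∀ y ∈ (simV (r i) x Q W).fst.support ∩ ball 0 4, |ht y| ≤ ε := by
    rintro y ⟨hy, hy4⟩
    rw [simV_support W (hr i)] at hy
    obtain ⟨z, hz, rfl⟩ := hy
    have e1 : simP (r i) x Q z = Q (simP (r i) x (LinearIsometryEquiv.refl ℝ (R d)) z) := by
      simp [simP]
    set w := simP (r i) x (LinearIsometryEquiv.refl ℝ (R d)) z with hw
    have hw1 : w ∈ (simV (r i) x (LinearIsometryEquiv.refl ℝ (R d)) W).fst.support := by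
      rw [simV_support W (hr i)]
      exact ⟨z, hz, rfl⟩
    have hw2 : w ∈ closedBall (0 : R d) 4 := by
      rw [e1, mem_ball_zero_iff, LinearIsometryEquiv.norm_map] at hy4
      rw [mem_closedBall_zero_iff]
      exact hy4.le
    obtain ⟨p, hp, hd'⟩ := hi w ⟨hw1, hw2⟩
    rw [e1, hQ]
    have e2 : ⟪n, w⟫_ℝ = ⟪n, w - p⟫_ℝ := by rw [inner_sub_right, hfl p hp, sub_zero]
    rw [e2]
    have e3 := abs_real_inner_le_norm n (w - p)
    rw [hn, one_mul, ← dist_eq_norm] at e3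
    linarith only [hd', e3]
  have hW := heps _ hK hM hh h0
  rw [simV_support W (hr i), ← J2_self (r i) x Q] at hW
  exact (wreg_sim (hr i) x Q).1 hW

end J2

section J3

theorem J3_angle {a b : R d} (ha : ‖a‖ = 1) (hb : ‖b‖ = 1) (h1 : a ≠ b) (h2 : a ≠ -b) {s t : ℝ}
    (hs : 0 < s) (ht : 0 < t) : ⟪a, b⟫_ℝ * ‖s • a + t • b‖ < ⟪a, s • a + t • b⟫_ℝ := by
  have c1 := (inner_lt_one_iff_real_of_norm_eq_one ha hb).2 h1
  have c2 := (inner_lt_one_iff_real_of_norm_eq_one ha ((norm_neg b).trans hb)).2 h2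
  have e1 : ‖s • a‖ = s := by rw [norm_smul, ha, mul_one, Real.norm_of_nonneg hs.le]
  have e2 : ‖t • b‖ = t := by rw [norm_smul, hb, mul_one, Real.norm_of_nonneg ht.le]
  have n1 := norm_add_le (s • a) (t • b)
  have n2 := norm_sub_le (s • a + t • b) (s • a)
  rw [add_sub_cancel_left, e1, e2] at n2
  rw [e1, e2] at n1
  rw [inner_neg_right] at c2
  rw [inner_add_right, real_inner_smul_right, real_inner_smul_right, real_inner_self_eq_norm_sq, ha]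
  rcases le_total 0 ⟪a, b⟫_ℝ with h | h <;> nlinarith only [hs, c1, n1, h, c2, n2]

theorem J3_normal {H : Submodule ℝ (R d)} (hH : Module.finrank ℝ H ≤ d) :
    ∃ n : R d, ‖n‖ = 1 ∧ ∀ y ∈ H, ⟪n, y⟫_ℝ = 0 := by
  have h : Hᗮ ≠ ⊥ := fun h => by
    rw [Submodule.orthogonal_eq_bot_iff.1 h, finrank_top, finrank_euclideanSpace_fin] at hH
    omega
  obtain ⟨v, hv, h0⟩ := (Submodule.ne_bot_iff _).1 h
  refine ⟨‖v‖⁻¹ • v, norm_smul_inv_norm h0, fun y hy => ?_⟩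
  rw [real_inner_smul_left, Submodule.inner_left_of_mem_orthogonal hy hv, mul_zero]

theorem flat_of_subset {M : Set (R d)} {H : Submodule ℝ (R d)} (hH : Module.finrank ℝ H ≤ d)
    (hM : M ⊆ H) : Flat M := by
  obtain ⟨n, h1, h2⟩ := J3_normal hH
  exact ⟨n, h1, fun y hy => h2 y (hM hy)⟩

theorem J3_rolle {f : R d → ℝ} {x n : R d} (hf : ContDiff ℝ ∞ f) (h0 : fderiv ℝ f x ≠ 0)
    (hn : ‖n‖ = 1) (hx : ⟪n, x⟫_ℝ = 0) (h : ∀ᶠ y in 𝓝 x, ⟪n, y⟫_ℝ = 0 → f y = 0) :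
    ∀ᶠ y in 𝓝 x, f y = 0 → ⟪n, y⟫_ℝ = 0 := by
  have hd : Differentiable ℝ f := hf.differentiable (by simp)
  have hl : ∀ (y v : R d) (u : ℝ),
      HasDerivAt (fun u : ℝ => f (y + u • v)) (fderiv ℝ f (y + u • v) v) u := fun y v u => by
    have := (hd (y + u • v)).hasFDerivAt.comp_hasDerivAt u
      (((hasDerivAt_id u).smul_const v).const_add y)
    rwa [one_smul] at this
  have nn : ⟪n, n⟫_ℝ = 1 := by rw [real_inner_self_eq_norm_sq, hn, one_pow]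
  have h1 : ∀ v, ⟪n, v⟫_ℝ = 0 → fderiv ℝ f x v = 0 := fun v hv => by
    have t : Tendsto (fun u : ℝ => x + u • v) (𝓝 0) (𝓝 x) :=
      Continuous.tendsto' (by fun_prop) _ _ (by simp)
    have e : (fun u : ℝ => f (x + u • v)) =ᶠ[𝓝 0] fun _ => 0 := (t.eventually h).mono fun u hu =>
      hu (by rw [inner_add_right, real_inner_smul_right, hx, hv, mul_zero, add_zero])
    simpa only [zero_smul, add_zero] using (hl x v 0).unique ((hasDerivAt_const (0 : ℝ) (0 : ℝ)).congr_of_eventuallyEq e)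
  have h2 : fderiv ℝ f x n ≠ 0 := fun h2 => h0 (ContinuousLinearMap.ext fun v => by
    have := h1 (v - ⟪n, v⟫_ℝ • n) (by rw [inner_sub_right, real_inner_smul_right, nn]; ring)
    simpa only [zero_apply, map_sub, map_smul, h2, smul_eq_mul, mul_zero, sub_zero] using this)
  have h3 : ∀ᶠ y in 𝓝 x, fderiv ℝ f y n ≠ 0 :=
    ((hf.continuous_fderiv (by simp)).clm_apply continuous_const).continuousAt.eventually_ne h2
  obtain ⟨ε, hε, hb⟩ := Metric.eventually_nhds_iff.1 (h.and h3)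
  refine Metric.eventually_nhds_iff.2 ⟨ε / 2, half_pos hε, fun y hy hf0 => ?_⟩
  have hs : ‖(-⟪n, y⟫_ℝ) • n‖ ≤ dist y x := by
    have := abs_real_inner_le_norm n (y - x)
    rwa [norm_smul, norm_neg, dist_eq_norm, hn, mul_one, Real.norm_eq_abs, ← sub_zero ⟪n, y⟫_ℝ, ← hx,
      ← inner_sub_right, ← one_mul ‖y - x‖, ← hn]
  have hin : ∀ u ∈ Icc (0 : ℝ) 1, dist (y + u • (-⟪n, y⟫_ℝ) • n) x < ε := fun u hu => by
    have := dist_triangle (y + u • (-⟪n, y⟫_ℝ) • n) y x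
    rw [dist_self_add_left, norm_smul, Real.norm_of_nonneg hu.1] at this
    nlinarith only [hu.1, hu.2, hε, hy, hs, this]
  obtain ⟨u, hu, e⟩ := exists_hasDerivAt_eq_zero one_pos
    (fun u _ => (hl y ((-⟪n, y⟫_ℝ) • n) u).continuousAt.continuousWithinAt)
    (by
      simp only [zero_smul, add_zero, hf0]
      refine ((hb (hin 1 ⟨one_pos.le, le_rfl⟩)).1 ?_).symm
      rw [one_smul, inner_add_right, real_inner_smul_right, nn]; ring)
    fun u _ => hl y ((-⟪n, y⟫_ℝ) • n) u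
  rw [map_smul, smul_eq_mul, mul_eq_zero, neg_eq_zero] at e
  exact e.resolve_right (hb (hin u (Ioo_subset_Icc_self hu))).2

theorem fl_of_wreg {M : Set (R d)} {L : Submodule ℝ (R d)} (hL : Module.finrank ℝ L + 1 = d)
    (tr : ∀ x ∈ M, ∀ z ∈ L, x + z ∈ M) (dil : ∀ x ∈ M, ∀ t : ℝ, 0 < t → t • x ∈ M)
    {x : R d} (hx : x ∈ M) (hxL : x ∉ L) (hw : WReg M x) :
    ∃ n : R d, ‖n‖ = 1 ∧ (∀ z ∈ L, ⟪n, z⟫_ℝ = 0) ∧ ∀ᶠ y in 𝓝 x, (y ∈ M ↔ ⟪n, y⟫_ℝ = 0) := by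
  have hH : Module.finrank ℝ (L ⊔ ℝ ∙ x : Submodule ℝ (R d)) = d := by
    rw [Submodule.finrank_sup_span_singleton hxL, hL]
  obtain ⟨n, hn, ho⟩ := J3_normal hH.le
  have : Fact (Module.finrank ℝ (R d) = d + 1) := ⟨finrank_euclideanSpace_fin⟩
  have he : L ⊔ ℝ ∙ x = (ℝ ∙ n)ᗮ := Submodule.eq_of_le_of_finrank_eq
    (fun y hy => Submodule.mem_orthogonal_singleton_iff_inner_right.2 (ho y hy))
    (hH.trans (Submodule.finrank_orthogonal_span_singleton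
      (fun h => by simp [h] at hn)).symm)
  obtain ⟨p, hp, x', hx', hd⟩ := L.exists_add_mem_mem_orthogonal x
  have h0 : 0 < ⟪x', x⟫_ℝ := by
    have : x' ≠ 0 := fun h => hxL (by rw [hd, h, add_zero]; exact hp)
    nth_rw 1 [hd]
    rw [inner_add_right, Submodule.inner_left_of_mem_orthogonal hp hx', zero_add]
    exact real_inner_self_pos.2 this
  have h1 : ∀ᶠ y in 𝓝 x, ⟪n, y⟫_ℝ = 0 → y ∈ M := by
    have ho' : IsOpen {y : R d | 0 < ⟪x', y⟫_ℝ} := isOpen_lt continuous_const (by fun_prop)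
    filter_upwards [ho'.mem_nhds h0] with y (hy : 0 < ⟪x', y⟫_ℝ) hny
    have hm := Submodule.mem_orthogonal_singleton_iff_inner_right.2 hny
    rw [← he] at hm
    obtain ⟨z, hz, w, hw, rfl⟩ := Submodule.mem_sup.1 hm
    obtain ⟨t, rfl⟩ := Submodule.mem_span_singleton.1 hw
    rw [inner_add_right, Submodule.inner_left_of_mem_orthogonal hz hx', zero_add,
      real_inner_smul_right] at hy
    rw [add_comm]
    exact tr _ (dil x hx t ((mul_pos_iff_of_pos_right h0).1 hy)) z hz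
  obtain ⟨f, hf, hf0, hM⟩ := hw
  refine ⟨n, hn, fun z hz => ho z (Submodule.mem_sup_left hz), ?_⟩
  filter_upwards [h1, hM, J3_rolle hf hf0 hn
    (ho x (Submodule.mem_sup_right (Submodule.mem_span_singleton_self x)))
    ((h1.and hM).mono fun y hy h => hy.2.1 (hy.1 h))] with y a b c using ⟨fun h => c (b.1 h), a⟩

end J3

section J4

theorem J4_simP_self (r : ℝ) (x : R d) (Q : R d ≃ₗᵢ[ℝ] R d) : simP r x Q x = 0 := by
  simp [simP]

theorem J4_lim (hd : 1 ≤ d) {W : Vf d} {O : Set (R d)} (hO : IsOpen O) (h : Stat W O) {x : R d}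
    (hx : x ∈ O) : ∃ θ : ℝ, Tendsto (theta W x) (𝓝[>] 0) (𝓝 θ) := by
  obtain ⟨r₀, hr₀, hsub⟩ := Metric.nhds_basis_closedBall.mem_iff.1 (hO.mem_nhds hx)
  have hbdd : BddBelow (theta W x '' Ioc 0 r₀) :=
    ⟨0, by rintro _ ⟨u, hu, rfl⟩; exact theta_nonneg W x hu.1⟩
  have hne : (theta W x '' Ioc 0 r₀).Nonempty := ⟨_, r₀, ⟨hr₀, le_rfl⟩, rfl⟩
  refine ⟨sInf (theta W x '' Ioc 0 r₀), tendsto_order.2 ⟨fun a ha => ?_, fun a ha => ?_⟩⟩
  · filter_upwards [Ioc_mem_nhdsGT hr₀] with u hu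
    exact ha.trans_le (csInf_le hbdd ⟨u, hu, rfl⟩)
  · obtain ⟨_, ⟨v, hv, rfl⟩, hlt⟩ := exists_lt_of_csInf_lt hne ha
    filter_upwards [Ioc_mem_nhdsGT hv.1] with u hu
    exact (theta_mono hd h hu.1 hu.2 ((closedBall_subset_closedBall hv.2).trans hsub)).trans_lt hlt

theorem Blow.con (hd : 1 ≤ d) {W W' : Vf d} {O : Set (R d)} (hO : IsOpen O) (h : Stat W O) {x : R d}
    (hx : x ∈ O) (hb : Blow W x W') (h' : Stat W' univ) : Con W' univ ⊥ := by
  obtain ⟨𝓤, r, hr, hr0, -, -, hc⟩ := hb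
  obtain ⟨θ, hθ⟩ := J4_lim hd hO h hx
  have key : ∀ s : ℝ, 0 < s → theta W' 0 s = θ := by
    intro s hs
    have h1 := hc.theta (x := 0) hs (subset_univ _)
    have h2 : Tendsto (fun i => theta W x (r i * s)) (𝓤 : Filter ℕ) (𝓝 θ) := by
      refine hθ.comp (tendsto_nhdsWithin_iff.2 ⟨?_, Eventually.of_forall fun i => mul_pos (hr i) hs⟩)
      simpa using hr0.mul_const s
    refine tendsto_nhds_unique h1 (h2.congr fun i => ?_)
    rw [← theta_sim W (hr i) hs x x (LinearIsometryEquiv.refl ℝ (R d)), J4_simP_self]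
  refine con_of_forall ?_ fun e he => Eventually.of_forall fun p _ => by
    rw [(Submodule.mem_bot ℝ).1 he, inner_zero_left]
  have hj : ∀ j : ℕ, ∀ᵐ p ∂W', p.1 ∈ ball (0 : R d) (j + 2) → ⟪p.1 - 0, (p.2 : R d)⟫_ℝ = 0 := by
    intro j
    have hj0 : (0 : ℝ) ≤ j := Nat.cast_nonneg j
    exact theta_rigid hd h' (a := 1) one_pos (by linarith only []) (subset_univ _)
      (by rw [key _ one_pos, key _ (by linarith only [])])
  filter_upwards [ae_all_iff.2 hj] with p hp _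
  obtain ⟨j, hj⟩ := exists_nat_gt ‖p.1‖
  simpa only [sub_zero] using hp j (by rw [mem_ball_zero_iff]; linarith only [hj])

theorem Blow.spine {W W' : Vf d} {L : Submodule ℝ (R d)} {x : R d} (hc : Con W univ L)
    (hb : Blow W x W') (h' : Con W' univ ⊥) : Con W' univ (L ⊔ Submodule.span ℝ {x}) := by
  obtain ⟨𝓤, r, hr, hr0, hbd, hf, hv⟩ := hb
  refine con_of_forall (Eventually.mono h' fun p hp h => (hp h).1) fun e he => ?_
  obtain ⟨z, hz, w, hw, rfl⟩ := Submodule.mem_sup.1 he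
  obtain ⟨t, rfl⟩ := Submodule.mem_span_singleton.1 hw
  refine hv.ae_zero isOpen_univ hbd hf (f := fun p => ⟪z + t • x, (p.2 : R d)⟫_ℝ) (by fun_prop) ?_
  intro K hK _ ε hε
  obtain ⟨ρ, hρ⟩ := hK.isBounded.subset_closedBall 0
  have h0 : Tendsto (fun i => |t| * (r i * ρ)) (𝓤 : Filter ℕ) (𝓝 0) := by
    simpa using (hr0.mul_const ρ).const_mul |t|
  filter_upwards [h0.eventually (ge_mem_nhds hε)] with i hi
  rw [ae_simV (hr i)]
  filter_upwards [hc] with p hp hpK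
  obtain ⟨h1, h2⟩ := hp (mem_univ _)
  have hn : ‖(p.2 : R d)‖ = 1 := by simp only [norm_eq_of_mem_sphere]
  have h3 : ‖p.1 - x‖ ≤ r i * ρ := by
    have := mem_closedBall_zero_iff.1 (hρ hpK)
    simp only [simP, LinearIsometryEquiv.coe_refl, id, norm_smul, norm_inv, Real.norm_eq_abs,
      abs_of_pos (hr i)] at this
    rwa [inv_mul_le_iff₀ (hr i)] at this
  have h4 : |⟪x, (p.2 : R d)⟫_ℝ| ≤ r i * ρ := by
    have : ⟪x, (p.2 : R d)⟫_ℝ = -⟪p.1 - x, (p.2 : R d)⟫_ℝ := by rw [inner_sub_left, h1]; ring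
    rw [this, abs_neg]
    exact (abs_real_inner_le_norm _ _).trans (by rw [hn, mul_one]; exact h3)
  show |⟪z + t • x, (p.2 : R d)⟫_ℝ| ≤ ε
  rw [inner_add_left, h2 z hz, zero_add, real_inner_smul_left, abs_mul]
  exact (mul_le_mul_of_nonneg_left h4 (abs_nonneg t)).trans hi

end J4

section J5

theorem J5_pm {L : Submodule ℝ (R d)} (hL : Module.finrank ℝ L + 1 = d) {n a y : R d}
    (hn : ‖n‖ = 1) (hnL : ∀ z ∈ L, ⟪n, z⟫_ℝ = 0) (ha : ‖a‖ = 1) (haL : a ∈ Lᗮ)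
    (han : ⟪n, a⟫_ℝ = 0) (hy : ‖y‖ = 1) (hyL : y ∈ Lᗮ) (hyn : ⟪n, y⟫_ℝ = 0) :
    y = a ∨ y = -a := by
  have hn' : n ∉ L := fun h => by
    have := hnL n h
    rw [real_inner_self_eq_norm_sq, hn] at this
    norm_num at this
  have h1 : Module.finrank ℝ (L ⊔ Submodule.span ℝ {n} : Submodule ℝ (R d)) = d := by
    rw [Submodule.finrank_sup_span_singleton hn', hL]
  have h2 := Submodule.finrank_add_finrank_orthogonal (L ⊔ Submodule.span ℝ {n})
  rw [h1, finrank_euclideanSpace_fin] at h2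
  have h3 : Module.finrank ℝ (L ⊔ Submodule.span ℝ {n} : Submodule ℝ (R d))ᗮ = 1 := by omega
  have mem : ∀ v : R d, v ∈ Lᗮ → ⟪n, v⟫_ℝ = 0 → v ∈ (L ⊔ Submodule.span ℝ {n})ᗮ := by
    intro v h h'
    rw [← Submodule.inf_orthogonal]
    exact ⟨h, Submodule.mem_orthogonal_singleton_iff_inner_right.2 h'⟩
  have a0 : (⟨a, mem a haL han⟩ : (L ⊔ Submodule.span ℝ {n} : Submodule ℝ (R d))ᗮ) ≠ 0 := by
    intro h
    have : a = 0 := congrArg Subtype.val h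
    rw [this, norm_zero] at ha
    norm_num at ha
  obtain ⟨c, hc⟩ := (finrank_eq_one_iff_of_nonzero' _ a0).1 h3 ⟨y, mem y hyL hyn⟩
  have hc' : c • a = y := congrArg Subtype.val hc
  have hcn : |c| = 1 := by
    rw [← hc', norm_smul, ha, mul_one, Real.norm_eq_abs] at hy
    exact hy
  rcases (abs_eq zero_le_one).1 hcn with h | h
  · left; rw [← hc', h, one_smul]
  · right; rw [← hc', h, neg_one_smul]

theorem exists_wedge {M : Set (R d)} {L : Submodule ℝ (R d)} (hM : IsClosed M)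
    (hL : Module.finrank ℝ L + 1 = d)
    (tr : ∀ x ∈ M, ∀ z ∈ L, x + z ∈ M) (dil : ∀ x ∈ M, ∀ t : ℝ, 0 < t → t • x ∈ M)
    (fl : ∀ x ∈ M, x ∉ L → ∃ n : R d, ‖n‖ = 1 ∧ (∀ z ∈ L, ⟪n, z⟫_ℝ = 0) ∧
      ∀ᶠ y in 𝓝 x, (y ∈ M ↔ ⟪n, y⟫_ℝ = 0))
    (hf : ¬ Flat M) : ∃ a b, Wedge M L a b := by
  set D : Set (R d) := {x | x ∈ M ∧ x ∈ Lᗮ ∧ ‖x‖ = 1} with hD
  have nrm : ∀ y : R d, y ∈ M → y ∈ Lᗮ → y ≠ 0 → ‖y‖⁻¹ • y ∈ D := fun y h1 h2 h3 =>
    ⟨dil y h1 _ (inv_pos.2 (norm_pos_iff.2 h3)), Submodule.smul_mem _ _ h2, by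
      rw [norm_smul, norm_inv, norm_norm, inv_mul_cancel₀ (norm_ne_zero_iff.2 h3)]⟩
  have nL : ∀ a ∈ D, a ∉ L := fun a ha h => by
    have h1 := (Submodule.mem_orthogonal L a).1 ha.2.1 a h
    rw [real_inner_self_eq_norm_sq, ha.2.2] at h1
    norm_num at h1
  have cpt : IsCompact D := by
    refine (isCompact_sphere (0 : R d) 1).of_isClosed_subset ?_ fun x hx => by simpa using hx.2.2
    exact hM.inter ((Submodule.isClosed_orthogonal L).inter
      (isClosed_eq continuous_norm continuous_const))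
  have disc : ∀ a ∈ D, {y | y ∈ D → y = a} ∈ 𝓝 a := fun a ha => by
    obtain ⟨n, hn, hnL, hev⟩ := fl a ha.1 (nL a ha)
    have han : ⟪n, a⟫_ℝ = 0 := hev.self_of_nhds.1 ha.1
    have hne : a ≠ -a := fun h => by
      have h2 : (2 : ℝ) • a = 0 := by rw [two_smul]; nth_rewrite 2 [h]; simp
      have h3 : a = 0 := by simpa using h2
      have := ha.2.2
      rw [h3, norm_zero] at this
      norm_num at this
    filter_upwards [hev, isOpen_ne.mem_nhds hne] with y h1 h2 hy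
    rcases J5_pm hL hn hnL ha.2.2 ha.2.1 han hy.2.2 hy.2.1 (h1.1 hy.1) with h | h
    · exact h
    · exact absurd h h2
  have fin : D.Finite := by
    obtain ⟨t, -, ht⟩ := cpt.elim_nhds_subcover (fun a => {y | y ∈ D → y = a}) disc
    refine t.finite_toSet.subset fun y hy => ?_
    obtain ⟨a, ha, h⟩ := mem_iUnion₂.1 (ht hy)
    rw [h hy]; exact ha
  have dec : ∀ w ∈ M, ∃ z ∈ L, w = z ∨ ∃ c : ℝ, ∃ e ∈ D, w = z + c • e := fun w hw => by
    obtain ⟨z, hz, y, hy, h⟩ := L.exists_add_mem_mem_orthogonal w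
    refine ⟨z, hz, ?_⟩
    by_cases h0 : y = 0
    · left; rw [h, h0, add_zero]
    · right
      have hyM : y ∈ M := by
        have := tr w hw (-z) (L.neg_mem hz)
        rwa [h, add_comm z y, add_neg_cancel_right] at this
      refine ⟨‖y‖, _, nrm y hyM hy h0, ?_⟩
      rw [smul_smul, mul_inv_cancel₀ (norm_ne_zero_iff.2 h0), one_smul, h]
  have two : ∃ a ∈ D, ∃ b ∈ D, a ≠ b ∧ a ≠ -b := by
    by_contra hc
    push Not at hc
    apply hf
    rcases D.eq_empty_or_nonempty with h | ⟨a, ha⟩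
    · refine flat_of_subset (H := L) (by omega) fun w hw => ?_
      obtain ⟨z, hz, h1 | ⟨c, e, he, -⟩⟩ := dec w hw
      · rw [h1]; exact hz
      · rw [h] at he; exact he.elim
    · refine flat_of_subset (H := L ⊔ Submodule.span ℝ {a})
        (by rw [Submodule.finrank_sup_span_singleton (nL a ha), hL]) fun w hw => ?_
      have ma : a ∈ L ⊔ Submodule.span ℝ {a} :=
        Submodule.mem_sup_right (Submodule.mem_span_singleton_self a)
      obtain ⟨z, hz, h1 | ⟨c, e, he, h1⟩⟩ := dec w hw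
      · rw [h1]; exact Submodule.mem_sup_left hz
      · rw [h1]
        refine Submodule.add_mem _ (Submodule.mem_sup_left hz) (Submodule.smul_mem _ _ ?_)
        by_cases h2 : e = a
        · rw [h2]; exact ma
        · rw [hc e he a ha h2]; exact Submodule.neg_mem _ ma
  obtain ⟨a', ha', b', hb', hne, hne'⟩ := two
  have finP : {p : R d × R d | p.1 ∈ D ∧ p.2 ∈ D ∧ p.1 ≠ p.2}.Finite :=
    (fin.prod fin).subset fun p hp => ⟨hp.1, hp.2.1⟩
  obtain ⟨⟨a, b⟩, ⟨ha, hb, hab⟩, hmax⟩ := Set.exists_max_image _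
    (fun p : R d × R d => ⟪p.1, p.2⟫_ℝ) finP ⟨(a', b'), ha', hb', hne⟩
  simp only at ha hb hab
  have hmax' : ∀ x ∈ D, ∀ y ∈ D, x ≠ y → ⟪x, y⟫_ℝ ≤ ⟪a, b⟫_ℝ :=
    fun x hx y hy h => hmax (x, y) ⟨hx, hy, h⟩
  have hab' : a ≠ -b := fun h => by
    have h1 := hmax' a' ha' b' hb' hne
    rw [h, inner_neg_left, real_inner_self_eq_norm_sq, hb.2.2] at h1
    have h2 : 0 < ‖a' + b'‖ := norm_pos_iff.2 fun h0 => hne' (eq_neg_of_add_eq_zero_left h0)
    have h3 := norm_add_sq_real a' b'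
    rw [ha'.2.2, hb'.2.2] at h3
    nlinarith only [h1, h2, h3]
  have orth : ∀ x ∈ D, ∀ z ∈ L, ⟪x, z⟫_ℝ = 0 := fun x hx z hz =>
    (Submodule.mem_orthogonal' L x).1 hx.2.1 z hz
  refine ⟨a, b, hL, ha.2.2, hb.2.2, orth a ha, orth b hb, hab, hab', ha.1, hb.1, tr, dil, ?_, fl⟩
  intro s t hs ht z hz hm
  have g1 := J3_angle ha.2.2 hb.2.2 hab hab' hs ht
  have g2 := J3_angle hb.2.2 ha.2.2 hab.symm (fun h => hab' (by rw [h, neg_neg])) ht hs
  rw [add_comm (t • b), real_inner_comm] at g2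
  set v := s • a + t • b with hv
  have vM : v ∈ M := by
    have := tr _ hm (-z) (L.neg_mem hz)
    rwa [add_neg_cancel_right] at this
  have vL : v ∈ Lᗮ :=
    Submodule.add_mem _ (Submodule.smul_mem _ _ ha.2.1) (Submodule.smul_mem _ _ hb.2.1)
  have v0 : v ≠ 0 := fun h => by rw [h] at g1; simp at g1
  have vp : 0 < ‖v‖ := norm_pos_iff.2 v0
  have he := nrm v vM vL v0
  have key : ∀ x ∈ D, ⟪a, b⟫_ℝ * ‖v‖ < ⟪x, v⟫_ℝ → x = ‖v‖⁻¹ • v := fun x hx h => by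
    by_contra hc
    have h1 := hmax' x hx _ he hc
    rw [real_inner_smul_right, inv_mul_le_iff₀ vp] at h1
    linarith only [h, h1]
  exact hab ((key a ha g1).trans (key b hb g2).symm)

end J5

section J6

theorem J6_finrank : Module.finrank ℝ (R d) = d + 1 := by simp

/-- big spine -/
theorem J6_big {W : Vf d} {L : Submodule ℝ (R d)} (hc : Con W univ L)
    (hL : d ≤ Module.finrank ℝ L) : Flat W.fst.support := by
  have hle : Module.finrank ℝ L ≤ d + 1 := (Submodule.finrank_le L).trans J6_finrank.le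
  rcases hL.eq_or_lt with h | h
  · refine flat_of_subset h.symm.le (support_subset_of_ae L.closed_of_finiteDimensional ?_)
    filter_upwards [hc] with p hp
    obtain ⟨h1, h2⟩ := hp (mem_univ _)
    have hn : ‖(p.2 : R d)‖ = 1 := by simp only [norm_eq_of_mem_sphere]
    have hne : (p.2 : R d) ≠ 0 := by intro h0; rw [h0] at hn; simp at hn
    have hsub : L ≤ (Submodule.span ℝ {(p.2 : R d)})ᗮ := fun e he => by
      rw [Submodule.mem_orthogonal_singleton_iff_inner_left]; exact h2 e he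
    have hr : Module.finrank ℝ (Submodule.span ℝ {(p.2 : R d)})ᗮ = d := by
      have := Submodule.finrank_add_finrank_orthogonal (Submodule.span ℝ {(p.2 : R d)})
      rw [finrank_span_singleton hne, J6_finrank] at this; omega
    have heq : L = (Submodule.span ℝ {(p.2 : R d)})ᗮ :=
      Submodule.eq_of_le_of_finrank_eq hsub (by rw [hr, ← h])
    show p.1 ∈ L
    rw [heq, Submodule.mem_orthogonal_singleton_iff_inner_left]; exact h1
  · have htop : L = ⊤ := Submodule.eq_top_of_finrank_eq (by rw [J6_finrank]; omega)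
    have hs : W.fst.support ⊆ ∅ := by
      refine support_subset_of_ae isClosed_empty ?_
      filter_upwards [hc] with p hp
      have h2 := (hp (mem_univ _)).2 p.2 (by rw [htop]; trivial)
      have hn : ‖(p.2 : R d)‖ = 1 := by simp only [norm_eq_of_mem_sphere]
      rw [real_inner_self_eq_norm_sq, hn] at h2
      norm_num at h2
    exact flat_of_subset (H := ⊥) (by simp) (hs.trans (empty_subset _))

/-- small spine -/
theorem J6_small (h6 : d ≤ 6) {W : Vf d} {L : Submodule ℝ (R d)} (hs : Stat W univ)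
    (hst : Stab W.fst (L : Set (R d))ᶜ) (hc : Con W univ L) (hL : Module.finrank ℝ L + 2 ≤ d)
    (hr : ∀ x ∈ W.fst.support, x ∉ L → WReg W.fst.support x) : Flat W.fst.support := by
  obtain ⟨ρ, hρ, H⟩ := simons_flat h6
  obtain ⟨n, hn, hnL, hf⟩ := H W (L : Set (R d))ᶜ L hL L.closed_of_finiteDimensional.isOpen_compl
    (hs.mono (subset_univ _)) hst (hc.mono (subset_univ _) le_rfl) (fun x hx => hr x hx.1 hx.2) (by
      intro y hy z hz h1 _ _ hyz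
      have hyL : y ∈ L := by simpa using L.sub_mem hyz hz
      have : y = 0 := by
        have := Submodule.inner_right_of_mem_orthogonal hyL hy
        exact inner_self_eq_zero.1 this
      rw [this, norm_zero] at h1
      have : 0 < ρ⁻¹ := inv_pos.2 (by linarith only [hρ])
      linarith only [h1, this])
  refine ⟨n, hn, fun w hw => ?_⟩
  obtain ⟨z, hz, y, hy, rfl⟩ := L.exists_add_mem_mem_orthogonal w
  rw [inner_add_right, hnL z hz, zero_add]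
  by_cases hy0 : y = 0
  · rw [hy0, inner_zero_right]
  have hpos : 0 < ‖y‖ := norm_pos_iff.2 hy0
  have h1 : y ∈ W.fst.support := by
    have := cone_support_transl hs hc (L.neg_mem hz) hw
    simpa only [add_neg_cancel_comm] using this
  have h2 : ‖y‖⁻¹ • y ∈ W.fst.support :=
    cone_support_dil isOpen_univ hs (hc.mono subset_rfl bot_le) (inv_pos.2 hpos)
      (fun _ _ => mem_univ _) h1
  have h3 : ‖‖y‖⁻¹ • y‖ = 1 := by
    rw [norm_smul, norm_inv, norm_norm, inv_mul_cancel₀ hpos.ne']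
  have h4 := hf (‖y‖⁻¹ • y) (Submodule.smul_mem _ _ hy) 0 L.zero_mem (by rw [h3]; norm_num)
    (by rw [h3]; norm_num) (by simp) (by simpa using h2)
  rw [inner_smul_right] at h4
  exact (mul_eq_zero.1 h4).resolve_left (inv_pos.2 hpos).ne'

theorem J6_ind (C : Cls d) (h2 : 2 ≤ d) (h6 : d ≤ 6) (j : ℕ) : ∀ (W : Vf d) (L : Submodule ℝ (R d)),
    C.K univ W → MB W → Con W univ L → d ≤ Module.finrank ℝ L + j → Flat W.fst.support := by
  induction j with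
  | zero => exact fun W L _ _ hc hL => J6_big hc hL
  | succ j ih =>
    intro W L hK hM hc hL
    by_cases hbig : d ≤ Module.finrank ℝ L
    · exact J6_big hc hbig
    have hs := C.stat _ _ isOpen_univ hK
    have hr : ∀ x ∈ W.fst.support, x ∉ L → WReg W.fst.support x := by
      intro x hx hxL
      obtain ⟨W', hK', hb⟩ := C.exists_blow (by omega) isOpen_univ hK (mem_univ x)
      have hc' := hb.con (by omega) isOpen_univ hs (mem_univ x) (C.stat _ _ isOpen_univ hK')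
      have hlt : L < L ⊔ Submodule.span ℝ {x} := lt_of_le_of_ne le_sup_left fun h => hxL (by
        rw [h]; exact Submodule.mem_sup_right (Submodule.mem_span_singleton_self x))
      have := Submodule.finrank_lt_finrank_of_lt hlt
      exact C.wreg_of_flat (by omega) isOpen_univ hK ⟨hx, mem_univ _⟩ hb
        (ih W' _ hK' (hb.mb (by omega) isOpen_univ hs (mem_univ x)) (hb.spine hc hc') (by omega))
    by_cases h1 : Module.finrank ℝ L + 1 = d
    · by_contra hf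
      have tr : ∀ x ∈ W.fst.support, ∀ z ∈ L, x + z ∈ W.fst.support :=
        fun x hx z hz => cone_support_transl hs hc hz hx
      have dil : ∀ x ∈ W.fst.support, ∀ t : ℝ, 0 < t → t • x ∈ W.fst.support :=
        fun x hx t ht => cone_support_dil isOpen_univ hs (hc.mono subset_rfl bot_le) ht
          (fun _ _ => mem_univ _) hx
      obtain ⟨a, b, hw⟩ := exists_wedge Measure.isClosed_support h1 tr dil
        (fun x hx hxL => fl_of_wreg h1 tr dil hx hxL (hr x hx hxL)) hf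
      obtain ⟨Λ, hΛ⟩ := hM
      exact C.nocl W L a b Λ hK hΛ hc hw
    · have ho := L.closed_of_finiteDimensional.isOpen_compl
      exact J6_small h6 hs (C.stab _ _ ho (C.mono _ _ _ isOpen_univ ho (subset_univ _) hK)) hc
        (by omega) hr

theorem Cls.regular (C : Cls d) (h2 : 2 ≤ d) (h6 : d ≤ 6) {O : Set (R d)} {W : Vf d} (hO : IsOpen O)
    (h : C.K O W) {x : R d} (hx : x ∈ W.fst.support ∩ O) : WReg W.fst.support x := by
  have hs := C.stat _ _ hO h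
  obtain ⟨W', hK', hb⟩ := C.exists_blow (by omega) hO h hx.2
  have hc' := hb.con (by omega) hO hs hx.2 (C.stat _ _ isOpen_univ hK')
  exact C.wreg_of_flat (by omega) hO h hx hb
    (J6_ind C h2 h6 d W' ⊥ hK' (hb.mb (by omega) hO hs hx.2) hc' (by omega))

end J6

end Pool.Agent.MP_5cfeaf_gt.W

end
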