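import Pool.Agent.MP_5cfeaf_gt.ConeA
import Pool.Agent.MP_5cfeaf_gt.SimB
import Pool.Agent.MP_5cfeaf_gt.PerB

attribute [-instance] AddQuantale.instAddLeftMono
  ContinuousAddMonoidHom.instCoeOutOfAddMonoidHomClassOfContinuousMapClass RKHS.instFunLike
  instTotallySeparatedSpaceOfTotallyDisconnectedSpace CoalgHomClass.toSemilinearMapClass
  NonarchimedeanAddGroup.instTotallySeparated NumberField.to_charZero
  NonUnitalAlgSemiHomClass.toDistribMulActionSemiHomClass Valued.toUniformSpace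
  AddGroupWithOne.toAddGroup NonUnitalNonAssocSemiring.toMulZeroClass
  NonUnitalNonAssocSemiring.toAddCommMonoid IdemSemiring.toCanonicallyOrderedAdd
  CategoryTheory.CountableCategory.countableObj IsSemitopologicalRing.toContinuousNeg
  RingHomClass.toLinearMapClassNNRat AddQuantale.instAddRightMono
  ContinuousMonoidHom.instCoeOutOfMonoidHomClassOfContinuousMapClass RingHomClass.toLinearMapClassRat
  IsTopologicalRing.toContinuousNeg CStarAlgebra.instOrderClosedTopology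
  MonoidWithZeroHomClass.toZeroHomClass littleWedderburn CommRing.toCommSemiring
  LinearOrderedCommMonoidWithZero.toPosMulStrictMono Group.IsPerfect.subsingleton_of_isMulCommutative
  ProperSMul.toContinuousSMul NonarchimedeanAddGroup.toIsTopologicalAddGroup
  continuousSub_of_discreteTopology Quantale.instMulRightMono
  ZeroAtInftyContinuousMapClass.toContinuousMapClass Prod.pseudoEMetricSpaceMax AddSemigroup.toAdd
  IsometryClass.instCoeOutIsometryEquiv instTotallySeparatedSpaceOfIsUltrametricDist instCoeTCOfCoe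
  MulZeroOneClass.toMulZeroClass IsLeftCancelMul.mulLeftStrictMono_of_mulLeftMono
  NonUnitalRing.toNonUnitalNonAssocRing ESeminormedAddCommMonoid.toAddCommMonoid
  BoundedContinuousMapClass.toContinuousMapClass IdemSemiring.toSemiring instIndiscreteTopology
  MeasurableSingletonClass.toDiscreteMeasurableSpace CommRing.toRing DivisionRing.toRing
  MulSemiringActionSemiHomClass.toDistribMulActionSemiHomClass instCoeTOfCoeDep
  AddCommMonoidWithOne.toAddCommMonoid CStarAlgebra.toNormedRing IsModuleTopology.toContinuousSMul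

section

/-! Block I, file 4: rotations. -/

set_option autoImplicit false

open MeasureTheory Set Filter Topology Metric
open scoped ENNReal symmDiff Classical InnerProductSpace ContDiff

namespace Pool.Agent.MP_5cfeaf_gt.W

variable {d : ℕ}

theorem I4_simP (Q : R d ≃ₗᵢ[ℝ] R d) (y : R d) : simP 1 0 Q y = Q y := by simp [simP]

theorem I4_An (a b : ℝ) (Q : R d ≃ₗᵢ[ℝ] R d) : simP 1 0 Q '' An a b = An a b := by
  ext y
  constructor
  · rintro ⟨z, hz, rfl⟩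
    simpa [An, I4_simP] using hz
  · intro hy
    exact ⟨Q.symm y, by simpa only [An, mem_ofPred_eq, norm_map] using hy, by simp [I4_simP]⟩

theorem I4_open {O : Set (R d)} (hO : IsOpen O) {r : ℝ} (hr : 0 < r) (x : R d)
    (Q : R d ≃ₗᵢ[ℝ] R d) : IsOpen (simP r x Q '' O) := by
  obtain ⟨φ, hφ, -⟩ := exists_simH hr x Q
  have h : simP r x Q = φ := funext fun y => (hφ y).symm
  rw [h]
  exact φ.isOpenMap _ hO

theorem I4_ss {Ω O : Set (R d)} (hO : IsOpen O) (h : SS Ω O) {r : ℝ} (hr : 0 < r) (x : R d)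
    (Q : R d ≃ₗᵢ[ℝ] R d) : SS (simP r x Q '' Ω) (simP r x Q '' O) := by
  obtain ⟨hm, hl, hw, hst, hsb⟩ := h
  have hO' := I4_open hO hr x Q
  obtain ⟨hl', hv⟩ := vf_sim hm hO hl hr x Q
  have e1 : (pm Ω).restrict O = ((vf Ω O).fst).restrict O := by
    rw [vf_fst, Measure.restrict_restrict hO.measurableSet, inter_self]
  have e2 : ((simV r x Q (vf Ω O)).fst).restrict (simP r x Q '' O) =
      (pm (simP r x Q '' Ω)).restrict (simP r x Q '' O) := by
    rw [← hv, vf_fst, Measure.restrict_restrict hO'.measurableSet, inter_self]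
  refine ⟨?_, hl', ?_, ?_, ?_⟩
  · obtain ⟨φ, hφ, -⟩ := exists_simH hr x Q
    have h : simP r x Q = φ := funext fun y => (hφ y).symm
    rw [h]
    exact φ.measurableEmbedding.measurableSet_image.2 hm
  · intro z hz
    have s2 := support_congr hO' e2
    have s1 := support_congr hO e1
    have hz' : z ∈ ((simV r x Q (vf Ω O)).fst).support ∩ simP r x Q '' O := by rw [s2]; exact hz
    refine WReg.congr hO' s2 hz.2 ?_
    rw [simV_support _ hr] at hz' ⊢
    obtain ⟨⟨y, hy, rfl⟩, y', hy', he⟩ := hz'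
    obtain ⟨φ, hφ, -⟩ := exists_simH hr x Q
    have hyy : y' = y := φ.injective (by rw [hφ, hφ, he])
    subst hyy
    rw [wreg_sim hr]
    refine WReg.congr hO s1 hy' (hw _ ?_)
    rw [s1]
    exact ⟨hy, hy'⟩
  · rw [hv]
    exact hst.sim hr x Q
  · exact ((hsb.congr hO e1).sim hr x Q).congr hO' e2

/-- rotation invariance (push the ultrafilter forward by `q ↦ (simP 1 0 Q '' q.1, simP 1 0 Q '' q.2)`;
`vf_sim`, `vf_fst`, `pm_sim`, `support_congr`, `simV_support`, `wreg_sim`, `WReg.congr`, `Stat.sim`, `Stab.sim`,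
`Stab.congr`, `LocFin.sim`, `LocBd.sim`, `VConv.sim`) -/
theorem I4_rot {W : Vf d} {a b : ℝ} (h : KS (An a b) W) (Q : R d ≃ₗᵢ[ℝ] R d) :
    KS (An a b) (simV 1 0 Q W) := by
  obtain ⟨hf, 𝓤, h1, h2, h3, h4⟩ := h
  have hv : ∀ᶠ q in (𝓤 : Filter (Set (R d) × Set (R d))),
      vf (simP 1 0 Q '' q.1) (simP 1 0 Q '' q.2) = simV 1 0 Q (vf q.1 q.2) :=
    h1.mono fun q hq => (vf_sim hq.2.1 hq.1 hq.2.2.1 one_pos 0 Q).2
  have hf' := hf.sim one_pos 0 Q
  have h3' := h3.sim one_pos 0 Q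
  have h4' := h4.sim one_pos 0 Q
  rw [I4_An] at hf' h3' h4'
  refine ⟨hf', 𝓤.map fun q => (simP 1 0 Q '' q.1, simP 1 0 Q '' q.2), ?_, ?_, ?_, ?_⟩
  · rw [Ultrafilter.coe_map, eventually_map]
    exact h1.mono fun q hq => ⟨I4_open hq.1 one_pos 0 Q, I4_ss hq.1 hq.2 one_pos 0 Q⟩
  · intro K hK hKA
    rw [Ultrafilter.coe_map, eventually_map]
    have hK' : IsCompact (Q.symm '' K) := hK.image Q.symm.continuous
    have hKA' : Q.symm '' K ⊆ An a b := by
      rintro _ ⟨y, hy, rfl⟩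
      simpa [An] using hKA hy
    refine (h2 _ hK' hKA').mono fun q hq y hy => ?_
    exact ⟨Q.symm y, hq (mem_image_of_mem _ hy), by simp [I4_simP]⟩
  · intro K hK hKA
    obtain ⟨C, hC, hb⟩ := h3' K hK hKA
    refine ⟨C, hC, ?_⟩
    rw [Ultrafilter.coe_map, eventually_map]
    filter_upwards [hb, hv] with q hq hq'
    rw [hq']
    exact hq
  · intro g hg hK
    rw [Ultrafilter.coe_map, tendsto_map'_iff]
    refine (h4' g hg hK).congr' ?_
    filter_upwards [hv] with q hq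
    simp only [Function.comp_apply, hq]

theorem I4_rot_eq (W : Vf d) (Q : R d ≃ₗᵢ[ℝ] R d) :
    simV 1 0 Q W = W.map fun p => (Q p.1, (⟨Q p.2, by simp only [mem_sphere_iff_norm, sub_zero, norm_map, norm_eq_of_mem_sphere]⟩ : S d)) := by
  simp only [simV, one_pow, inv_one, ENNReal.ofReal_one, I4_simP, one_smul]

theorem I4_cont (Q : R d ≃ₗᵢ[ℝ] R d) :
    Continuous fun p : R d × S d => ((Q p.1, (⟨Q p.2, by simp only [mem_sphere_iff_norm, sub_zero, norm_map, norm_eq_of_mem_sphere]⟩ : S d)) : R d × S d) :=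
  (Q.continuous.comp continuous_fst).prodMk
    (Continuous.subtype_mk (Q.continuous.comp (continuous_subtype_val.comp continuous_snd)) _)

theorem I4_rot_con {W : Vf d} {a b : ℝ} (h : Con W (An a b) ⊥) (Q : R d ≃ₗᵢ[ℝ] R d) :
    Con (simV 1 0 Q W) (An a b) ⊥ := by
  rw [I4_rot_eq, Con]
  have hc : Continuous fun p : R d × S d => ⟪p.1, (p.2 : R d)⟫_ℝ := by fun_prop
  have hA : MeasurableSet (An a b : Set (R d)) :=
    ((isOpen_lt continuous_const continuous_norm).inter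
      (isOpen_lt continuous_norm continuous_const)).measurableSet
  have hm : MeasurableSet {p : R d × S d | p.1 ∈ An a b → ⟪p.1, (p.2 : R d)⟫_ℝ = 0} := by
    have e : {p : R d × S d | p.1 ∈ An a b → ⟪p.1, (p.2 : R d)⟫_ℝ = 0} =
        (Prod.fst ⁻¹' An a b)ᶜ ∪ {p : R d × S d | ⟪p.1, (p.2 : R d)⟫_ℝ = 0} := by
      ext p
      simp only [mem_ofPred_eq, mem_union, mem_compl_iff, mem_preimage]
      tauto
    rw [e]
    exact (measurable_fst hA).compl.union (isClosed_eq hc continuous_const).measurableSet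
  have h1 : ∀ᵐ p ∂(W.map fun p : R d × S d => ((Q p.1, (⟨Q p.2, by simp only [mem_sphere_iff_norm, sub_zero, norm_map, norm_eq_of_mem_sphere]⟩ : S d)) : R d × S d)),
      p.1 ∈ An a b → ⟪p.1, (p.2 : R d)⟫_ℝ = 0 := by
    rw [ae_map_iff (I4_cont Q).measurable.aemeasurable hm]
    filter_upwards [h] with p hp hq
    have hq' : p.1 ∈ An a b := by simpa [An] using hq
    simpa using (hp hq').1
  filter_upwards [h1] with p hp hq
  refine ⟨hp hq, fun e he => ?_⟩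
  rw [(Submodule.mem_bot ℝ).1 he, inner_zero_left]

theorem I4_rot_supp {W : Vf d} (Q : R d ≃ₗᵢ[ℝ] R d) {p : R d × S d} (h : p ∈ W.support) :
    (Q p.1, (⟨Q p.2, by simp only [mem_sphere_iff_norm, sub_zero, norm_map, norm_eq_of_mem_sphere]⟩ : S d)) ∈ (simV 1 0 Q W).support := by
  rw [I4_rot_eq, Measure.mem_support_iff_forall]
  intro U hU
  rw [Measure.mem_support_iff_forall] at h
  exact (h _ ((I4_cont Q).continuousAt.preimage_mem_nhds hU)).trans_le
    (Measure.le_map_apply (I4_cont Q).measurable.aemeasurable U)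

end Pool.Agent.MP_5cfeaf_gt.W

end

section

/-! Block I, file 4b: the approximating surfaces. -/

set_option autoImplicit false

open MeasureTheory Set Filter Topology Metric
open scoped ENNReal symmDiff Classical InnerProductSpace ContDiff

namespace Pool.Agent.MP_5cfeaf_gt.W

variable {d : ℕ}

theorem I4b_cpt (a b : ℝ) : IsCompact {x : R d | a ≤ ‖x‖ ∧ ‖x‖ ≤ b} :=
  (isCompact_closedBall (0 : R d) b).of_isClosed_subset
    ((isClosed_le continuous_const continuous_norm).inter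
      (isClosed_le continuous_norm continuous_const))
    fun _ hx => mem_closedBall_zero_iff.2 hx.2

theorem I4b_open (a b : ℝ) : IsOpen (An a b : Set (R d)) :=
  (isOpen_lt continuous_const continuous_norm).inter (isOpen_lt continuous_norm continuous_const)

theorem I4b_cut {K O : Set (R d)} (hK : IsCompact K) (hO : IsOpen O) (h : K ⊆ O) :
    ∃ (ξ : R d → ℝ) (L : Set (R d)), Continuous ξ ∧ IsCompact L ∧ L ⊆ O ∧ (∀ x ∈ K, ξ x = 1) ∧
      (∀ x, 0 ≤ ξ x) ∧ ∀ x, x ∉ L → ξ x = 0 := by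
  obtain ⟨L, hL, h1, h2⟩ := exists_compact_between hK hO h
  obtain ⟨f, f1, f0, -, f01⟩ := exists_continuous_one_zero_of_isCompact hK
    isOpen_interior.isClosed_compl (disjoint_compl_right_iff_subset.2 h1)
  exact ⟨f, L, f.continuous, hL, h2, fun x hx => f1 hx, fun x => (f01 x).1,
    fun x hx => f0 fun h' => hx (interior_subset h')⟩

theorem I4b_integrable {V : Vf d} {L : Set (R d)} (hL : IsCompact L) (h : V.fst L < ⊤)
    {F : R d × S d → ℝ} (hF : Continuous F) (h0 : ∀ p : R d × S d, p.1 ∉ L → F p = 0) :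
    Integrable F V := by
  have hc : IsCompact (L ×ˢ (univ : Set (S d))) := hL.prod isCompact_univ
  obtain ⟨C, hC⟩ := hc.exists_bound_of_continuousOn hF.continuousOn
  have hs : Function.support F ⊆ L ×ˢ (univ : Set (S d)) := fun p hp =>
    ⟨by_contra fun h' => hp (h0 p h'), mem_univ _⟩
  refine (integrableOn_iff_integrable_of_support_subset hs).1 ?_
  refine Measure.integrableOn_of_bounded (M := C) ?_ hF.aestronglyMeasurable ?_
  · rw [Measure.fst_apply hL.measurableSet, ← prod_univ] at h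
    exact h.ne
  · filter_upwards [ae_restrict_mem hc.measurableSet] with p hp using hC p hp

theorem I4b_c2 (P : PF d) (x : R d) : 0 ≤ c2 P x := by
  unfold c2 gs
  positivity

theorem I4b_pr_le (x : R d) : ‖pr x‖ ≤ ‖x‖ := by
  have h := norm_sq_coord x
  refine abs_le_of_sq_le_sq' ?_ (norm_nonneg _) |>.2
  linarith only [sq_nonneg (ht x), h]

theorem I4b_ad {Ω O K : Set (R d)} (hO : IsOpen O) (h : SS Ω O) (hK : IsCompact K) (hKO : K ⊆ O) :
    ∃ (U : Set (R d)) (P : PF d), IsOpen U ∧ K ⊆ U ∧ U ⊆ O ∧ Adapted (vf Ω O).fst.support U P ∧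
      Stat (vf Ω O) U ∧ Stab (vf Ω O).fst U := by
  have he : (pm Ω).restrict O = (vf Ω O).fst.restrict O := by
    rw [vf_fst, Measure.restrict_restrict hO.measurableSet, inter_self]
  have hs := support_congr hO he
  obtain ⟨U, P, h1, h2, h3, h4⟩ := exists_adapted (M := (vf Ω O).fst.support)
    Measure.isClosed_support hO hK hKO fun x hx =>
      WReg.congr hO hs hx.2 (h.2.2.1 x (hs ▸ hx))
  exact ⟨U, P, h1, h2, h3, h4, h.2.2.2.1.mono h3, fun U' P' a b =>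
    Stab.congr hO h.2.2.2.2 he U' P' a (b.trans h3)⟩

/-- `ρ = 2 ρ'` with `ρ'` from `simons_quant`; `exists_adapted` on the closed annulus of ratio `ρ'` (choose `U q`,
`P q`); `∫ ⟪x,ν⟫^2` over that annulus is bounded by `∫ ξ(x) ⟪x,ν⟫^2 ∂(vf q) → ∫ ξ ⟪x,ν⟫^2 ∂W = 0`. -/
theorem I4_apx (h2 : 2 ≤ d) (h6 : d ≤ 6) : ∃ ρ : ℝ, 32 ≤ ρ ∧ ∀ W : Vf d, KS (An ρ⁻¹ ρ) W →
    Con W (An ρ⁻¹ ρ) ⊥ → Nonempty (Apx W) := by
  obtain ⟨ρ, hρ, H⟩ := simons_quant h2 h6
  refine ⟨2 * ρ, by linarith only [hρ], ?_⟩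
  rintro W ⟨hfin, 𝓤, hev, hK, hbd, hconv⟩ hcon
  have hρ0 : 0 < ρ := by linarith only [hρ]
  set K : Set (R d) := {x | ρ⁻¹ ≤ ‖x‖ ∧ ‖x‖ ≤ ρ} with hKdef
  have hKc : IsCompact K := I4b_cpt _ _
  have hKA : K ⊆ An (2 * ρ)⁻¹ (2 * ρ) := fun x hx =>
    ⟨lt_of_lt_of_le (inv_strictAnti₀ hρ0 (by linarith only [hρ])) hx.1, lt_of_le_of_lt hx.2 (by linarith)⟩
  have hcK : Kc d ⊆ K := fun x hx =>
    ⟨le_trans (inv_anti₀ (by norm_num) (by linarith)) hx.1, le_trans hx.2 (by linarith)⟩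
  have h17 : (An 17⁻¹ 17 : Set (R d)) ⊆ An (2 * ρ)⁻¹ (2 * ρ) := fun x hx =>
    ⟨lt_trans (inv_strictAnti₀ (by norm_num) (by linarith)) hx.1, lt_trans hx.2 (by linarith)⟩
  have hch : ∀ q : Set (R d) × Set (R d), (IsOpen q.2 ∧ SS q.1 q.2) ∧ K ⊆ q.2 →
      ∃ (U : Set (R d)) (P : PF d), IsOpen U ∧ K ⊆ U ∧ U ⊆ q.2 ∧
        Adapted (vf q.1 q.2).fst.support U P ∧ Stat (vf q.1 q.2) U ∧ Stab (vf q.1 q.2).fst U :=
    fun q hq => I4b_ad hq.1.1 hq.1.2 hKc hq.2
  choose! U P hUP using hch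
  obtain ⟨C, hC, hCe⟩ := hbd K hKc hKA
  have hCΛ : C = ENNReal.ofReal C.toReal := (ENNReal.ofReal_toReal hC.ne).symm
  have hgood := hev.and (hK K hKc hKA)
  refine ⟨⟨𝓤, U, P, C.toReal, ?_, hconv.mono h17, ?_, fun L hL hLA => hfin L hL (hLA.trans h17), ?_⟩⟩
  · filter_upwards [hgood, hCe] with q hq hq'
    obtain ⟨a1, a2, a3, a4, a5, -⟩ := hUP q hq
    exact ⟨hq.1.1, hq.1.2, a1, hcK.trans a2, a3, a4, a5,
      (measure_mono hcK).trans (hq'.trans hCΛ.le)⟩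
  · obtain ⟨ξ, L, x1, x2, x3, x4, x5, x6⟩ := I4b_cut hKc (I4b_open _ _) hKA
    have hg : Continuous fun p : R d × S d => ξ p.1 * ⟪p.1, (p.2 : R d)⟫_ℝ ^ 2 := by fun_prop
    have hg0 : ∀ p : R d × S d, p.1 ∉ L → ξ p.1 * ⟪p.1, (p.2 : R d)⟫_ℝ ^ 2 = 0 := fun p hp => by
      rw [x6 _ hp, zero_mul]
    have hlim := hconv _ hg ⟨L, x2, x3, hg0⟩
    have hz : ∫ p, ξ p.1 * ⟪p.1, (p.2 : R d)⟫_ℝ ^ 2 ∂W = 0 := by
      refine integral_eq_zero_of_ae ?_
      filter_upwards [hcon] with p hp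
      by_cases hL : p.1 ∈ L
      · simp [(hp (x3 hL)).1]
      · exact hg0 p hL
    rw [hz] at hlim
    obtain ⟨C', hC', hCe'⟩ := hbd L x2 x3
    refine tendsto_order.2 ⟨fun a ha => Eventually.of_forall fun q =>
      lt_of_lt_of_le ha (integral_nonneg fun x => I4b_c2 _ x), fun ε hε => ?_⟩
    obtain ⟨δ, hδ, Hδ⟩ := H C.toReal (ε / 2) (by positivity)
    filter_upwards [hgood, hCe, hCe', (tendsto_order.1 hlim).2 δ hδ] with q hq hq1 hq2 hq3
    obtain ⟨a1, a2, -, a4, a5, a6⟩ := hUP q hq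
    refine lt_of_le_of_lt (Hδ _ _ _ a1 a4 a5 a6 a2 (hq1.trans hCΛ.le) ?_) (by linarith only [hε])
    have hi := I4b_integrable x2 (lt_of_le_of_lt hq2 hC') hg hg0
    refine le_trans (le_of_eq ?_) ((setIntegral_le_integral (s := K ×ˢ univ) hi
      (Eventually.of_forall fun p => mul_nonneg (x5 _) (sq_nonneg _))).trans hq3.le)
    refine setIntegral_congr_fun (hKc.measurableSet.prod MeasurableSet.univ) fun p hp => ?_
    simp only [x4 _ hp.1, one_mul]
  · filter_upwards [hcon] with p hp h using hp (h17 h)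

section
variable {χ : R d → ℝ} {α : ℝ → ℝ} {e : R d} {κ : ℝ} {W : Vf d}

/-- `I3_aflat`, `A.c0`, and `∫ er ∂(vf q) → ∫ er ∂W = 0` (`I3_er`, `A.con`) -/
theorem I4_flat (A : Apx W) (c : Cap χ α e κ) : ∃ m : Set (R d) × Set (R d) → Measure (R d),
    (∀ᶠ q in (A.𝓤 : Filter (Set (R d) × Set (R d))), AFlat (capM χ α e (vf q.1 q.2)) (m q) (D6 d)) ∧
    Tendsto (fun q => (m q).real univ) (A.𝓤 : Filter (Set (R d) × Set (R d))) (𝓝 0) := by
  obtain ⟨C, hC, H⟩ := I3_aflat c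
  have hch : ∀ q : Set (R d) × Set (R d), (IsOpen q.2 ∧ SS q.1 q.2 ∧ IsOpen (A.U q) ∧
      Kc d ⊆ A.U q ∧ A.U q ⊆ q.2 ∧ Adapted (vf q.1 q.2).fst.support (A.U q) (A.P q) ∧
      Stat (vf q.1 q.2) (A.U q) ∧ (vf q.1 q.2).fst (Kc d) ≤ ENNReal.ofReal A.Λ) →
      ∃ m, AFlat (capM χ α e (vf q.1 q.2)) m (D6 d) ∧ ∀ η > 0, m.real univ ≤
        C * (η * (vf q.1 q.2).fst.real (Kc d) +
          η⁻¹ * ∫ x in An 16⁻¹ 16, c2 (A.P q) x ∂(vf q.1 q.2).fst +
            ∫ p, er χ α e p ∂vf q.1 q.2) :=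
    fun q hq => H _ _ _ hq.2.2.2.2.2.1 hq.2.2.1 hq.2.2.2.2.2.2.1 hq.2.2.2.1
  choose! m hm using hch
  refine ⟨m, A.ev.mono fun q hq => (hm q hq).1, ?_⟩
  obtain ⟨e1, -, e3, e4⟩ := I3_er c
  have hsub : {x : R d | 14 ≤ ‖x‖ ∧ ‖x‖ ≤ 15} ⊆ An 17⁻¹ 17 := fun x hx =>
    ⟨lt_of_lt_of_le (by norm_num) hx.1, lt_of_le_of_lt hx.2 (by norm_num)⟩
  have hlim := A.conv _ e1 ⟨_, I4b_cpt 14 15, hsub, fun p hp => by_contra fun h => hp (e3 p h)⟩
  have hz : ∫ p, er χ α e p ∂W = 0 := by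
    refine integral_eq_zero_of_ae ?_
    filter_upwards [A.con] with p hp
    by_contra h
    exact h (e4 p (hp (hsub (e3 p h))).1)
  rw [hz] at hlim
  refine tendsto_order.2 ⟨fun a ha => Eventually.of_forall fun q =>
    lt_of_lt_of_le ha measureReal_nonneg, fun ε hε => ?_⟩
  have hΛ : 0 < |A.Λ| + 1 := by positivity
  set η := ε / (2 * C * (|A.Λ| + 1)) with hη
  have hη0 : 0 < η := by positivity
  have ht := (((tendsto_const_nhds (x := η * (|A.Λ| + 1))).add (A.c0.const_mul η⁻¹)).add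
    hlim).const_mul C
  have hv : C * (η * (|A.Λ| + 1) + η⁻¹ * 0 + 0) < ε := by
    have : C * (η * (|A.Λ| + 1) + η⁻¹ * 0 + 0) = ε / 2 := by
      rw [hη]
      field_simp
      ring
    linarith only [hε, this]
  filter_upwards [A.ev, (tendsto_order.1 ht).2 ε hv] with q hq hq'
  refine lt_of_le_of_lt (((hm q hq).2 η hη0).trans ?_) hq'
  have h1 : (vf q.1 q.2).fst.real (Kc d) ≤ |A.Λ| + 1 :=
    ENNReal.toReal_le_of_le_ofReal hΛ.le (hq.2.2.2.2.2.2.2.trans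
      (ENNReal.ofReal_le_ofReal (by linarith only [le_abs_self A.Λ])))
  gcongr

/-- `I3_int`; `g p.1 * wt p` vanishes unless `p.1` lies in the compact set `pr ⁻¹' K ∩ closedBall 0 15` -/
theorem I4_conv (A : Apx W) (c : Cap χ α e κ) {g : R d → ℝ} (hg : Continuous g) {K : Set (E d)}
    (hK : IsCompact K) (hKD : K ⊆ D6 d) (h0 : ∀ x, pr x ∉ K → g x = 0) :
    Tendsto (fun q => ∫ x, g x ∂capM χ α e (vf q.1 q.2)) (A.𝓤 : Filter (Set (R d) × Set (R d)))
      (𝓝 (∫ x, g x ∂capM χ α e W)) := by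
  have hs : ∀ p : R d × S d, g p.1 * wt χ α e p ≠ 0 → 1 / 8 ≤ ‖p.1‖ ∧ ‖p.1‖ ≤ 15 := by
    intro p hp
    constructor
    · have h1 : pr p.1 ∈ K := by_contra fun h => hp (by rw [h0 _ h, zero_mul])
      exact (hKD h1).1.le.trans (I4b_pr_le _)
    · by_contra h
      exact hp (by simp [wt, c.χzero _ (not_le.1 h).le])
  have hi : ∀ V : Vf d, ∫ x, g x ∂capM χ α e V = ∫ p, g p.1 * wt χ α e p ∂V := by
    intro V
    rw [I3_int c V hg]
    refine setIntegral_eq_integral_of_forall_compl_eq_zero fun p hp => by_contra fun h => hp ?_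
    exact ⟨⟨lt_of_lt_of_le (by norm_num) (hs p h).1, lt_of_le_of_lt (hs p h).2 (by norm_num)⟩,
      mem_univ _⟩
  simp only [hi]
  refine A.conv _ ((hg.comp continuous_fst).mul (I3_wt c).1) ⟨_, I4b_cpt (1 / 8) 15, ?_,
    fun p hp => by_contra fun h => hp (hs p h)⟩
  exact fun x hx => ⟨lt_of_lt_of_le (by norm_num) hx.1, lt_of_le_of_lt hx.2 (by norm_num)⟩

end

end Pool.Agent.MP_5cfeaf_gt.W

end

section

/-! Block I, file 5: the limit cap measures. -/

set_option autoImplicit false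

open MeasureTheory Set Filter Topology Metric
open scoped ENNReal symmDiff Classical InnerProductSpace ContDiff

namespace Pool.Agent.MP_5cfeaf_gt.W

variable {d : ℕ}

section
variable {χ : R d → ℝ} {α : ℝ → ℝ} {e : R d} {κ : ℝ} {W : Vf d}

theorem I5_conn (h2 : 2 ≤ d) : IsPreconnected {y : E d | 1 / 7 < ‖y‖ ∧ ‖y‖ < 5} := by
  have hr : 1 < Module.rank ℝ (E d) := by
    rw [← Module.finrank_eq_rank, finrank_euclideanSpace_fin]
    exact_mod_cast h2
  have h1 := ((isPreconnected_sphere hr (0 : E d) 1).prod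
    (isPreconnected_Ioo (a := (1 / 7 : ℝ)) (b := 5))).image (fun q => q.2 • q.1)
    (continuous_snd.smul continuous_fst).continuousOn
  convert h1 using 1
  ext y
  constructor
  · rintro ⟨ha, hb⟩
    have h0 : 0 < ‖y‖ := lt_trans (by norm_num) ha
    refine ⟨(‖y‖⁻¹ • y, ‖y‖), ⟨?_, ha, hb⟩, ?_⟩
    · rw [mem_sphere_zero_iff_norm, norm_smul, norm_inv, norm_norm, inv_mul_cancel₀ h0.ne']
    · simp only [smul_smul, mul_inv_cancel₀ h0.ne', one_smul]
  · rintro ⟨⟨u, t⟩, ⟨hu, ha, hb⟩, rfl⟩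
    have h0 : 0 < t := lt_trans (by norm_num) ha
    have h3 : ‖t • u‖ = t := by
      rw [norm_smul, mem_sphere_zero_iff_norm.1 hu, mul_one, Real.norm_of_nonneg h0.le]
    exact ⟨h3.symm ▸ ha, h3.symm ▸ hb⟩

theorem I5_pr_cont : Continuous (pr : R d → E d) := by
  obtain ⟨L, hL⟩ := exists_prL d
  rw [← funext hL]
  exact L.continuous

theorem I5_k_cont (k : Ker d) (r : ℝ) (y : E d) : Continuous fun x : R d => k.k r (y - pr x) :=
  (I1_k_sm k r).continuous.comp (continuous_const.sub I5_pr_cont)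

theorem I5_isOpen_an (a b : ℝ) : IsOpen (An a b : Set (R d)) :=
  (isOpen_lt continuous_const continuous_norm).inter (isOpen_lt continuous_norm continuous_const)

theorem I5_av (k : Ker d) (A : Apx W) (c : Cap χ α e κ) {r : ℝ} (hr : 0 < r) {y : E d}
    (hy : closedBall y r ⊆ D6 d) :
    Tendsto (fun q => k.av r (capM χ α e (vf q.1 q.2)) y) (A.𝓤 : Filter (Set (R d) × Set (R d)))
      (𝓝 (k.av r (capM χ α e W) y)) := by
  refine I4_conv A c (I5_k_cont k r y) (isCompact_closedBall y r) hy fun x hx => ?_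
  refine I1_k_supp k hr ?_
  rw [mem_closedBall, not_le, dist_comm, dist_eq_norm] at hx
  exact hx.le

/-- locally constant by `I1_lip`, `I4_flat`, `I5_av`; `I5_conn` -/
theorem I5_const (h2 : 2 ≤ d) (k : Ker d) (A : Apx W) (c : Cap χ α e κ) {r : ℝ} (hr : 0 < r)
    (hr' : r ≤ 1 / 200) : ∃ Θ : ℝ, 0 ≤ Θ ∧ ∀ y : E d, 1 / 7 < ‖y‖ → ‖y‖ < 5 →
      k.av r (capM χ α e W) y = Θ := by
  obtain ⟨C, hC, hlip⟩ := I1_lip k hr
  obtain ⟨m, hm, hm0⟩ := I4_flat A c
  have hloc : ∀ y : E d, 1 / 7 < ‖y‖ → ‖y‖ < 5 → ∀ z ∈ ball y r,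
      k.av r (capM χ α e W) z = k.av r (capM χ α e W) y := by
    intro y ha hb z hz
    have hD : closedBall y (2 * r) ⊆ D6 d := by
      intro w hw
      rw [mem_closedBall, dist_eq_norm] at hw
      have h3 := abs_le.1 (abs_norm_sub_norm_le w y)
      exact ⟨by linarith only [h3.1, hr', ha, hw], by linarith only [h3.2, hr, hr', hb, hw]⟩
    have hz' : closedBall z r ⊆ closedBall y (2 * r) :=
      closedBall_subset_closedBall' (by linarith only [mem_ball.1 hz])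
    have h1 := ((I5_av k A c hr (hz'.trans hD)).sub
      (I5_av k A c hr ((closedBall_subset_closedBall (by linarith only [hr])).trans hD))).abs
    have h3 := hm0.const_mul C
    rw [mul_zero] at h3
    have h4 := le_of_tendsto_of_tendsto h1 h3 (hm.mono fun q hq => hlip _ _ _ y hq hD z hz)
    exact sub_eq_zero.1 (abs_nonpos_iff.1 h4)
  rcases eq_empty_or_nonempty {y : E d | 1 / 7 < ‖y‖ ∧ ‖y‖ < 5} with h | ⟨y₀, hy₀⟩
  · exact ⟨0, le_rfl, fun y ha hb => absurd ⟨ha, hb⟩ (eq_empty_iff_forall_notMem.1 h y)⟩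
  · refine ⟨k.av r (capM χ α e W) y₀, I1_nn k hr _ _, fun y ha hb => ?_⟩
    refine (I5_conn h2).induction₂'
      (fun a b => k.av r (capM χ α e W) a = k.av r (capM χ α e W) b) (fun x hx => ?_)
      (fun _ _ _ _ _ _ h h' => h.trans h') ⟨ha, hb⟩ hy₀
    filter_upwards [mem_nhdsWithin_of_mem_nhds (ball_mem_nhds x hr)] with z hz
    exact ⟨(hloc x hx.1 hx.2 z hz).symm, hloc x hx.1 hx.2 z hz⟩

/-- `⟪p.1, p.2⟫ = 0` at the support point (`A.con`, continuity), so `‖pr p.1‖^2 ≥ ‖p.1‖^2/2`; `y = pr p.1 + w`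
with `w` from `I1_k_pos`; the integrand of `I3_int` is continuous, nonnegative, positive at `p` -/
theorem I5_pos (k : Ker d) (A : Apx W) (c : Cap χ α e κ) {r : ℝ} (hr : 0 < r) (hr' : r ≤ 1 / 200)
    {p : R d × S d} (hp : p ∈ W.support) (h1 : p.1 ∈ An (1 / 4) 4)
    (he : (p.2 : R d) = e ∨ (p.2 : R d) = -e) :
    ∃ y : E d, 1 / 7 < ‖y‖ ∧ ‖y‖ < 5 ∧ 0 < k.av r (capM χ α e W) y := by
  have hsupp := Measure.mem_support_iff_forall p |>.1 hp
  have hcoe : Continuous fun q : R d × S d => (q.2 : R d) := continuous_subtype_val.comp continuous_snd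
  have hperp : ⟪p.1, (p.2 : R d)⟫_ℝ = 0 := by
    by_contra hne
    have ho : IsOpen {q : R d × S d | q.1 ∈ An 17⁻¹ 17 ∧ ⟪q.1, (q.2 : R d)⟫_ℝ ≠ 0} :=
      ((I5_isOpen_an _ _).preimage continuous_fst).inter
        (isOpen_ne_fun (continuous_fst.inner hcoe) continuous_const)
    have h3 := hsupp _ (ho.mem_nhds ⟨⟨by linarith only [h1.1], by linarith only [h1.2, hr, hr']⟩, hne⟩)
    refine h3.ne' (measure_eq_zero_iff_ae_notMem.2 ?_)
    filter_upwards [A.con] with q hq h4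
    exact h4.2 (hq h4.1).1
  have hpe : ⟪p.1, e⟫_ℝ = 0 := by
    rcases he with h | h
    · rwa [h] at hperp
    · rwa [h, inner_neg_right, neg_eq_zero] at hperp
  have hpr : 1 / 6 < ‖pr p.1‖ := by
    have a1 := inner_coord p.1 e
    have a2 := norm_sq_coord p.1
    have a3 := norm_sq_coord e
    have a4 := abs_real_inner_le_norm (pr p.1) (pr e)
    have a5 : ⟪pr p.1, pr e⟫_ℝ ^ 2 ≤ ‖pr p.1‖ ^ 2 * ‖pr e‖ ^ 2 := by
      rw [← mul_pow]
      exact sq_le_sq' (abs_le.1 a4).1 (abs_le.1 a4).2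
    have a6 : ⟪pr p.1, pr e⟫_ℝ = -(ht p.1 * ht e) := by linarith only [hpe, a1]
    rw [a6, neg_sq, mul_pow] at a5
    rw [c.unit] at a3
    have a7 := c.steep
    have a8 : ‖pr e‖ ^ 2 ≤ 1 / 2 := by linarith only [a3, a7]
    have a9 : ht p.1 ^ 2 * (1 / 2) ≤ ‖pr p.1‖ ^ 2 * (1 / 2) :=
      (mul_le_mul_of_nonneg_left a7 (sq_nonneg _)).trans
        (a5.trans (mul_le_mul_of_nonneg_left a8 (sq_nonneg _)))
    have b1 : (1 / 4 : ℝ) ^ 2 < ‖p.1‖ ^ 2 := pow_lt_pow_left₀ h1.1 (by norm_num) two_ne_zero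
    refine lt_of_pow_lt_pow_left₀ 2 (norm_nonneg _) ?_
    linarith only [a2, a9, b1]
  have hpr' : ‖pr p.1‖ < 4 := by
    refine lt_of_pow_lt_pow_left₀ 2 (by norm_num) ?_
    have b1 : ‖p.1‖ ^ 2 < 4 ^ 2 := pow_lt_pow_left₀ h1.2 (norm_nonneg _) two_ne_zero
    linarith only [norm_sq_coord p.1, sq_nonneg (ht p.1), b1]
  obtain ⟨w, hw, hw0⟩ := I1_k_pos k hr
  have h3 := abs_le.1 (abs_norm_sub_norm_le (pr p.1 + w) (pr p.1))
  rw [add_sub_cancel_left] at h3
  refine ⟨pr p.1 + w, by linarith [h3.1], by linarith only [h3.2, hr, hr', hpr', hw], ?_⟩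
  obtain ⟨hwc, hw01⟩ := I3_wt c
  obtain ⟨C, -, hC⟩ := I1_k_bd k hr
  have hFc : Continuous fun q : R d × S d => k.k r (pr p.1 + w - pr q.1) * wt χ α e q :=
    ((I5_k_cont k r _).comp continuous_fst).mul hwc
  have hnn : ∀ q : R d × S d, 0 ≤ k.k r (pr p.1 + w - pr q.1) * wt χ α e q := fun q =>
    mul_nonneg (I1_k_nn k hr _) (hw01 q).1
  have hfin : W (An 16⁻¹ 16 ×ˢ univ) < ⊤ := by
    have hKc : IsClosed (Kc d) := (isClosed_le continuous_const continuous_norm).inter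
      (isClosed_le continuous_norm continuous_const)
    have hK : IsCompact (Kc d) := (isCompact_closedBall (0 : R d) 16).of_isClosed_subset hKc
      fun x hx => mem_closedBall_zero_iff.2 hx.2
    have h4 := A.fin (Kc d) hK fun x hx =>
      ⟨lt_of_lt_of_le (by norm_num) hx.1, lt_of_le_of_lt hx.2 (by norm_num)⟩
    rw [Measure.fst_apply hKc.measurableSet] at h4
    refine lt_of_le_of_lt (measure_mono fun q hq => ?_) h4
    exact ⟨hq.1.1.le, hq.1.2.le⟩
  unfold Ker.av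
  rw [I3_int c W (I5_k_cont k r _),
    setIntegral_pos_iff_support_of_nonneg_ae (Eventually.of_forall hnn) ?_]
  · refine hsupp _ ((hFc.isOpen_support.inter ((I5_isOpen_an _ _).prod isOpen_univ)).mem_nhds
      ⟨?_, ⟨by linarith only [h1.1], by linarith only [h1.2, hr, hr']⟩, mem_univ _⟩)
    have hee : ⟪e, e⟫_ℝ = 1 := by rw [real_inner_self_eq_norm_sq, c.unit]; norm_num
    have hneg : ht (-e) = -ht e := rfl
    have h5 : wt χ α e p = ht e := by
      have h6 : α 1 = 1 := c.αone 1 (by linarith only [c.κpos])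
      unfold wt
      rw [c.χone p.1 (by linarith only [h1.2, hr, hr'])]
      rcases he with h | h
      · rw [h, hee, one_pow, h6]; ring
      · rw [h, inner_neg_right, hee, neg_one_sq, h6, hneg]; ring
    rw [Function.mem_support, add_sub_cancel_left, h5]
    exact (mul_pos hw0 c.up).ne'
  · refine Measure.integrableOn_of_bounded (M := C) hfin.ne hFc.aestronglyMeasurable
      (Eventually.of_forall fun q => ?_)
    rw [Real.norm_of_nonneg (hnn q)]
    exact (mul_le_of_le_one_right (I1_k_nn k hr _) (hw01 q).2).trans (hC _).1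

/-- no mass away from the plane `e^⊥`: test `I4_conv` with `g x = ξ (pr x) * ζ ⟪x,e⟫`, `ξ = 1` on
`closedBall y r`, `0` off `ball y r'`, `ζ t = 1` for `|t| ≥ 2 γ`, `0` for `|t| ≤ γ`; `I3_geom`, `I3_ae` -/
theorem I5_thin (A : Apx W) (c : Cap χ α e κ) {y : E d} {r r' γ : ℝ} (hr : r < r')
    (hy : closedBall y r' ⊆ D6 d) (hγ : 0 < γ) (hκ : 256 * κ ≤ γ ^ 2) :
    Tendsto (fun q => (capM χ α e (vf q.1 q.2)).real {x | pr x ∈ ball y r ∧ 2 * γ ≤ |⟪x, e⟫_ℝ|})
      (A.𝓤 : Filter (Set (R d) × Set (R d))) (𝓝 0) := by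
  have hrr : 0 < r' - r := sub_pos.2 hr
  let cl : ℝ → ℝ := fun t => max 0 (min 1 t)
  have clc : Continuous cl := continuous_const.max (continuous_const.min continuous_id)
  have cl0 : ∀ t, t ≤ 0 → cl t = 0 := fun t h => max_eq_left ((min_le_right _ _).trans h)
  have cl1 : ∀ t, 1 ≤ t → cl t = 1 := fun t h => by
    show max 0 (min 1 t) = 1
    rw [min_eq_left h, max_eq_right zero_le_one]
  have cl01 : ∀ t, 0 ≤ cl t ∧ cl t ≤ 1 := fun t =>
    ⟨le_max_left _ _, max_le zero_le_one (min_le_left _ _)⟩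
  have hin : Continuous fun x : R d => |⟪x, e⟫_ℝ| := (continuous_id.inner continuous_const).abs
  let g : R d → ℝ := fun x => cl ((r' - dist (pr x) y) / (r' - r)) * cl (|⟪x, e⟫_ℝ| / γ - 1)
  have hg : Continuous g :=
    (clc.comp ((continuous_const.sub (I5_pr_cont.dist continuous_const)).div_const _)).mul
      (clc.comp ((hin.div_const γ).sub continuous_const))
  have hg01 : ∀ x, 0 ≤ g x ∧ g x ≤ 1 := fun x =>
    ⟨mul_nonneg (cl01 _).1 (cl01 _).1, mul_le_one₀ (cl01 _).2 (cl01 _).1 (cl01 _).2⟩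
  have hconv := I4_conv A c hg (isCompact_closedBall y r') hy fun x hx => by
    rw [mem_closedBall, not_le] at hx
    show cl _ * cl _ = 0
    rw [cl0 _ (div_nonpos_of_nonpos_of_nonneg (by linarith) hrr.le), zero_mul]
  have hz : ∫ x, g x ∂capM χ α e W = 0 := by
    refine integral_eq_zero_of_ae ?_
    have h1 : ∀ᵐ x ∂capM χ α e W, |⟪x, e⟫_ℝ| ≤ γ := by
      refine I3_ae c W (isClosed_le hin continuous_const).measurableSet ?_
      filter_upwards [A.con] with p hp h2 h3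
      have h4 := (hp ⟨lt_trans (by norm_num) h2.1, lt_trans h2.2 (by norm_num)⟩).1
      have h5 : α (⟪e, (p.2 : R d)⟫_ℝ ^ 2) ≠ 0 := fun h => h3 (by unfold wt; rw [h]; ring)
      have h6 := ((I3_geom c (mem_sphere_zero_iff_norm.1 p.2.2) h5).2.2 p.1 h4).2
      have h7 : ‖p.1‖ ^ 2 ≤ 16 ^ 2 := pow_le_pow_left₀ (norm_nonneg _) h2.2.le 2
      have h8 := mul_le_mul_of_nonneg_left h7 c.κpos.le
      exact abs_le_of_sq_le_sq (by linarith) hγ.le
    filter_upwards [h1] with x hx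
    show cl _ * cl _ = 0
    rw [cl0 (|⟪x, e⟫_ℝ| / γ - 1) (sub_nonpos.2 ((div_le_one hγ).2 hx)), mul_zero]
  rw [hz] at hconv
  have hS : MeasurableSet {x : R d | pr x ∈ ball y r ∧ 2 * γ ≤ |⟪x, e⟫_ℝ|} :=
    (isOpen_ball.preimage I5_pr_cont).measurableSet.inter
      (isClosed_le continuous_const hin).measurableSet
  refine squeeze_zero' (Eventually.of_forall fun q => measureReal_nonneg) ?_ hconv
  filter_upwards [A.ev] with q hq
  have := I3_fin c (V := vf q.1 q.2) (lt_of_le_of_lt hq.2.2.2.2.2.2.2 ENNReal.ofReal_lt_top)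
  rw [← integral_indicator_one hS]
  refine integral_mono ((integrable_const (1 : ℝ)).indicator hS) ?_ fun x => ?_
  · exact (integrable_const (1 : ℝ)).mono' hg.aestronglyMeasurable
      (Eventually.of_forall fun x => by rw [Real.norm_of_nonneg (hg01 x).1]; exact (hg01 x).2)
  · by_cases hx : x ∈ {x : R d | pr x ∈ ball y r ∧ 2 * γ ≤ |⟪x, e⟫_ℝ|}
    · rw [indicator_of_mem hx]
      show 1 ≤ cl _ * cl _
      rw [cl1 _ ((one_le_div hrr).2 (by linarith only [mem_ball.1 hx.1])),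
        cl1 _ (le_sub_iff_add_le.2 ((le_div_iff₀ hγ).2 (by linarith [hx.2]))), one_mul]
    · rw [indicator_of_notMem hx]
      exact (hg01 x).1

end

end Pool.Agent.MP_5cfeaf_gt.W

end

section

/-! Block I, file 5b: the limit has only one direction. -/

set_option autoImplicit false

open MeasureTheory Set Filter Topology Metric
open scoped ENNReal symmDiff Classical InnerProductSpace ContDiff

namespace Pool.Agent.MP_5cfeaf_gt.W

variable {d : ℕ}

theorem I5b_perp (h2 : 2 ≤ d) (v : E d) (hv : v ≠ 0) : ∃ z : E d, ‖z‖ = 1 ∧ ⟪z, v⟫_ℝ = 0 := by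
  have h1 := Submodule.finrank_add_finrank_orthogonal (𝕜 := ℝ) (ℝ ∙ v)
  rw [finrank_span_singleton hv, finrank_euclideanSpace_fin] at h1
  have h3 : (ℝ ∙ v)ᗮ ≠ ⊥ := by
    intro h
    rw [h, finrank_bot] at h1
    omega
  obtain ⟨w, hw, hw0⟩ := Submodule.exists_mem_ne_zero_of_ne_bot h3
  have hn : ‖w‖ ≠ 0 := norm_ne_zero_iff.2 hw0
  refine ⟨‖w‖⁻¹ • w, by rw [norm_smul, norm_inv, norm_norm, inv_mul_cancel₀ hn], ?_⟩
  rw [real_inner_smul_left, real_inner_comm, Submodule.mem_orthogonal_singleton_iff_inner_right.1 hw,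
    mul_zero]

theorem I5b_pr_le {e : R d} (h : ‖e‖ = 1) : ‖pr e‖ ≤ 1 := by
  have h1 := norm_sq_coord e
  rw [h] at h1
  nlinarith only [h1]

theorem I5b_near {e : R d} (h : ‖e‖ = 1) {x : R d} {y : E d} {r : ℝ} (hx : pr x ∈ ball y r) :
    |⟪x, e⟫_ℝ - (⟪y, pr e⟫_ℝ + ht x * ht e)| ≤ r := by
  have h1 : ⟪x, e⟫_ℝ - (⟪y, pr e⟫_ℝ + ht x * ht e) = ⟪pr x - y, pr e⟫_ℝ := by
    rw [inner_coord, inner_sub_left]; ring
  have h2 : ‖pr x - y‖ < r := by rwa [mem_ball, dist_eq_norm] at hx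
  rw [h1]
  calc _ ≤ ‖pr x - y‖ * ‖pr e‖ := abs_real_inner_le_norm _ _
    _ ≤ ‖pr x - y‖ * 1 := mul_le_mul_of_nonneg_left (I5b_pr_le h) (norm_nonneg _)
    _ ≤ r := by linarith

theorem I5b_side {e₁ e₂ : R d} (h₁ : ‖e₁‖ = 1) (h₂ : ‖e₂‖ = 1) (he : ht e₁ = ht e₂) (hp : 0 < ht e₁)
    {y : E d} {s : ℝ} (hs : ⟪y, pr e₁⟫_ℝ - ⟪y, pr e₂⟫_ℝ = -(1000 * s)) (h0 : 0 < s) :
    ∃ t : ℝ, ∀ x : R d, pr x ∈ ball y (2 * s) →
      (ht x ≤ t → 2 * s ≤ |⟪x, e₁⟫_ℝ|) ∧ (t ≤ ht x → 2 * s ≤ |⟪x, e₂⟫_ℝ|) := by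
  refine ⟨-(⟪y, pr e₁⟫_ℝ + ⟪y, pr e₂⟫_ℝ) / (2 * ht e₁), fun x hx => ⟨fun h => ?_, fun h => ?_⟩⟩
  · have h3 := abs_le.1 (I5b_near h₁ hx)
    rw [le_div_iff₀ (by positivity)] at h
    exact le_abs.2 (Or.inr (by linarith [h3.2]))
  · have h3 := abs_le.1 (I5b_near h₂ hx)
    rw [div_le_iff₀ (by positivity)] at h
    rw [← he] at h3
    exact le_abs.2 (Or.inl (by linarith only [h3.1, hs, h0, h]))

theorem I5b_D6 {y : E d} {r : ℝ} (h1 : 1 ≤ ‖y‖) (h2 : ‖y‖ ≤ 2) (hr : r ≤ 1 / 2) :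
    closedBall y r ⊆ D6 d := fun z hz => by
  rw [mem_closedBall, dist_eq_norm] at hz
  have := abs_le.1 ((abs_norm_sub_norm_le z y).trans hz)
  constructor <;> linarith only [this.1, this.2, h1, hr, h2]

theorem I5b_Kc : IsCompact (Kc d) :=
  (isCompact_closedBall (0 : R d) 16).of_isClosed_subset
    ((isClosed_le continuous_const continuous_norm).inter (isClosed_le continuous_norm continuous_const))
    fun x hx => mem_closedBall_zero_iff.2 hx.2

theorem I5b_cpt {μ : Measure (R d)} {U : Set (R d)} {P : PF d} (h : Adapted μ.support U P) (e : R d)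
    (κ : ℝ) : IsCompact (μ.support ∩ Kc d ∩ {x | 1 - κ ≤ ∑ i, ∑ j, P x i j * e i * e j}) := by
  refine (I5b_Kc.inter_left μ.isClosed_support).inter_right (isClosed_le continuous_const ?_)
  exact continuous_finset_sum _ fun i _ => continuous_finset_sum _ fun j _ =>
    ((h.1 i j).continuous.mul continuous_const).mul continuous_const

theorem I5b_sum {Q : Fin (d + 1) → Fin (d + 1) → ℝ} {n : R d} (h : ∀ i j, Q i j = n i * n j) (e : R d) :
    ∑ i, ∑ j, Q i j * e i * e j = ⟪e, n⟫_ℝ ^ 2 := by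
  rw [PiLp.inner_apply, sq, Finset.sum_mul_sum]
  refine Finset.sum_congr rfl fun i _ => Finset.sum_congr rfl fun j _ => ?_
  rw [h]
  simp only [RCLike.inner_apply, conj_trivial]
  ring

/-- plane geometry: `σ = ht e₁ = ht e₂`, `v = pr e₁ - pr e₂ ≠ 0`, `u = v/‖v‖`, `z ⟂ v` a unit vector (`2 ≤ d`),
`y = z - u`, `τ = 2 u`; `⟪x,eᵢ⟫ = ⟪pr x, pr eᵢ⟫ + σ ht x`; `t₀ = -⟪y, pr e₁ + pr e₂⟫/(2σ)`, `t₁` the same at `y + τ`;
at `pr x = y`, `ht x = t₀`: `⟪x,e₁⟫ = -‖v‖/2`, `⟪x,e₂⟫ = ‖v‖/2`; `γ = r = ‖v‖/1000`. -/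
theorem I5_geom (h2 : 2 ≤ d) {e₁ e₂ : R d} (h₁ : ‖e₁‖ = 1) (h₂ : ‖e₂‖ = 1) (he : ht e₁ = ht e₂)
    (hp : 0 < ht e₁) (hne : e₁ ≠ e₂) : ∃ (y τ : E d) (t₀ t₁ r γ : ℝ), 0 < r ∧ r ≤ 1 / 200 ∧ 0 < γ ∧
      (∀ t ∈ Icc (0 : ℝ) 1, 1 ≤ ‖y + t • τ‖ ∧ ‖y + t • τ‖ ≤ 2) ∧
      (∀ x : R d, pr x ∈ ball y (2 * r) →
        (ht x ≤ t₀ → 2 * γ ≤ |⟪x, e₁⟫_ℝ|) ∧ (t₀ ≤ ht x → 2 * γ ≤ |⟪x, e₂⟫_ℝ|)) ∧
      ∀ x : R d, pr x ∈ ball (y + τ) (2 * r) →
        (t₁ ≤ ht x → 2 * γ ≤ |⟪x, e₁⟫_ℝ|) ∧ (ht x ≤ t₁ → 2 * γ ≤ |⟪x, e₂⟫_ℝ|) := by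
  obtain ⟨v, hv⟩ : ∃ v, v = pr e₁ - pr e₂ := ⟨_, rfl⟩
  have hv0 : v ≠ 0 := by
    intro h
    rw [hv, sub_eq_zero] at h
    exact hne (by rw [← mk_pr_ht e₁, ← mk_pr_ht e₂, h, he])
  have hn : 0 < ‖v‖ := norm_pos_iff.2 hv0
  have hn2 : ‖v‖ ≤ 2 := by
    rw [hv]
    linarith only [norm_sub_le (pr e₁) (pr e₂), I5b_pr_le h₁, I5b_pr_le h₂]
  obtain ⟨z, hz, hzv⟩ := I5b_perp h2 v hv0
  obtain ⟨u, hu⟩ : ∃ u : E d, u = ‖v‖⁻¹ • v := ⟨_, rfl⟩
  have hu1 : ‖u‖ = 1 := by rw [hu, norm_smul, norm_inv, norm_norm, inv_mul_cancel₀ hn.ne']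
  have huv : ⟪u, v⟫_ℝ = ‖v‖ := by
    rw [hu, real_inner_smul_left, real_inner_self_eq_norm_sq]; field_simp
  have hzu : ⟪z, u⟫_ℝ = 0 := by rw [hu, real_inner_smul_right, hzv, mul_zero]
  have hs : 0 < ‖v‖ / 1000 := by positivity
  obtain ⟨t₀, ht₀⟩ := I5b_side h₁ h₂ he hp (y := z - u) (s := ‖v‖ / 1000)
    (by rw [← inner_sub_right, ← hv, inner_sub_left, hzv, huv]; ring) hs
  obtain ⟨t₁, ht₁⟩ := I5b_side h₂ h₁ he.symm (he ▸ hp) (y := z - u + (2 : ℝ) • u) (s := ‖v‖ / 1000)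
    (by
      rw [← neg_sub, ← inner_sub_right, ← hv, inner_add_left, inner_sub_left, real_inner_smul_left, hzv,
        huv]
      ring) hs
  refine ⟨z - u, (2 : ℝ) • u, t₀, t₁, ‖v‖ / 1000, ‖v‖ / 1000, hs, by linarith only [hn2], hs, fun t ht' => ?_, ht₀,
    fun x hx => (ht₁ x hx).symm⟩
  have e1 : z - u + t • (2 : ℝ) • u = z + (2 * t - 1) • u := by module
  have e2 : ‖z + (2 * t - 1) • u‖ ^ 2 = 1 + (2 * t - 1) ^ 2 := by
    rw [norm_add_sq_real, real_inner_smul_right, hzu, hz, norm_smul, hu1, Real.norm_eq_abs, mul_one, sq_abs]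
    ring
  rw [e1]
  have h3 := norm_nonneg (z + (2 * t - 1) • u)
  constructor
  · nlinarith only [e2, h3]
  · nlinarith only [ht'.1, ht'.2, e2]

/-- small caps around `± e₁`, `± e₂` are disjoint -/
theorem I5_caps {e₁ e₂ : R d} (h₁ : ‖e₁‖ = 1) (h₂ : ‖e₂‖ = 1) (hne : e₁ ≠ e₂) (hne' : e₁ ≠ -e₂) :
    ∃ κ₀ > 0, ∀ n : R d, ‖n‖ = 1 → 1 - κ₀ ≤ ⟪e₁, n⟫_ℝ ^ 2 → 1 - κ₀ ≤ ⟪e₂, n⟫_ℝ ^ 2 → False := by
  have c1 : ⟪e₁, e₂⟫_ℝ ≠ 1 := fun h => hne ((inner_eq_one_iff_of_norm_eq_one h₁ h₂).1 h)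
  have c2 : ⟪e₁, e₂⟫_ℝ ≠ -1 := fun h => hne' ((inner_eq_one_iff_of_norm_eq_one (𝕜 := ℝ) h₁
    (by rw [norm_neg, h₂])).1 (by rw [inner_neg_right, h, neg_neg]))
  have c3 : |⟪e₁, e₂⟫_ℝ| ≤ 1 := by simpa [h₁, h₂] using abs_real_inner_le_norm e₁ e₂
  have c4 : |⟪e₁, e₂⟫_ℝ| < 1 := by
    refine lt_of_le_of_ne c3 fun h => ?_
    rcases (abs_eq zero_le_one).1 h with h | h
    exacts [c1 h, c2 h]
  refine ⟨(1 - |⟪e₁, e₂⟫_ℝ|) / 4, by linarith, fun n hn ha hb => ?_⟩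
  have key : ∀ e : R d, ‖e‖ = 1 → ‖e - ⟪e, n⟫_ℝ • n‖ ^ 2 = 1 - ⟪e, n⟫_ℝ ^ 2 := fun e he => by
    rw [norm_sub_sq_real, real_inner_smul_right, norm_smul, hn, he, Real.norm_eq_abs, mul_one, sq_abs]
    ring
  have e1 : ⟪e₁ - ⟪e₁, n⟫_ℝ • n, e₂ - ⟪e₂, n⟫_ℝ • n⟫_ℝ = ⟪e₁, e₂⟫_ℝ - ⟪e₁, n⟫_ℝ * ⟪e₂, n⟫_ℝ := by
    rw [inner_sub_left, inner_sub_right, inner_sub_right, real_inner_smul_right, real_inner_smul_left,
      real_inner_smul_left, real_inner_smul_right, real_inner_self_eq_norm_sq, hn, real_inner_comm e₂ n]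
    ring
  have e2 := abs_real_inner_le_norm (e₁ - ⟪e₁, n⟫_ℝ • n) (e₂ - ⟪e₂, n⟫_ℝ • n)
  rw [e1] at e2
  have k1 := key e₁ h₁
  have k2 := key e₂ h₂
  generalize ‖e₁ - ⟪e₁, n⟫_ℝ • n‖ = A at k1 e2
  generalize ‖e₂ - ⟪e₂, n⟫_ℝ • n‖ = B' at k2 e2
  generalize ⟪e₁, n⟫_ℝ = a at *
  generalize ⟪e₂, n⟫_ℝ = b at *
  generalize ⟪e₁, e₂⟫_ℝ = c at *
  have e3 : |a * b| ≤ |c| + |c - a * b| := by
    have := abs_sub c (c - a * b)
    rwa [sub_sub_cancel] at this
  have e4 : A * B' ≤ (1 - |c|) / 4 := by linarith only [sq_nonneg (A - B'), k1, k2, ha, hb]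
  have e5 : 1 - (1 - |c|) / 4 ≤ |a * b| := by
    have h0 : 0 ≤ 1 - (1 - |c|) / 4 := by linarith only [abs_nonneg c]
    refine (pow_le_pow_iff_left₀ h0 (abs_nonneg _) two_ne_zero).1 ?_
    rw [sq_abs, mul_pow, sq]
    exact mul_le_mul ha hb h0 (sq_nonneg _)
  linarith only [c4, e2, e3, e4, e5]

/-- `I5_geom`, `κ = min`, `I3_exists` twice, `I5_const` + `I5_pos` + `I5_av` give `c, M`; `I4_flat`, `I5_thin`,
carriers from `I3_carr` (compact; disjoint by `S0_unit`, `I5_caps`), `I2b_nc`. -/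
theorem I5_dir (h2 : 2 ≤ d) {W : Vf d} (A : Apx W) {p₁ p₂ : R d × S d} {e₁ e₂ : R d}
    (hp₁ : p₁ ∈ W.support) (hp₂ : p₂ ∈ W.support) (ha₁ : p₁.1 ∈ An (1 / 4) 4) (ha₂ : p₂.1 ∈ An (1 / 4) 4)
    (h₁ : (p₁.2 : R d) = e₁ ∨ (p₁.2 : R d) = -e₁) (h₂ : (p₂.2 : R d) = e₂ ∨ (p₂.2 : R d) = -e₂)
    (he : ht e₁ = ht e₂) (hp : 0 < ht e₁) (hs : 1 / 2 ≤ ht e₁ ^ 2) : e₁ = e₂ := by
  by_contra hne
  have nrm : ∀ (p : R d × S d) (e : R d), (p.2 : R d) = e ∨ (p.2 : R d) = -e → ‖e‖ = 1 := fun p e h => by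
    have h0 : ‖(p.2 : R d)‖ = 1 := mem_sphere_zero_iff_norm.1 p.2.2
    rcases h with h | h
    · rwa [h] at h0
    · rwa [h, norm_neg] at h0
  have n₁ := nrm p₁ e₁ h₁
  have n₂ := nrm p₂ e₂ h₂
  have hne' : e₁ ≠ -e₂ := by
    intro h
    have h3 : ht e₁ = -ht e₂ := by rw [h]; rfl
    linarith only [he, hp, h3]
  obtain ⟨y, τ, t₀, t₁, r, γ, hr, hr', hγ, hseg, hy₀, hy₁⟩ := I5_geom h2 n₁ n₂ he hp hne
  obtain ⟨κ₀, hκ₀, hcap⟩ := I5_caps n₁ n₂ hne hne'
  obtain ⟨κ, hκ, hκ1, hκ2, hκ3⟩ : ∃ κ : ℝ, 0 < κ ∧ κ ≤ κ₀ ∧ κ ≤ 1 / 100 ∧ 256 * κ ≤ γ ^ 2 := by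
    refine ⟨min (min κ₀ (1 / 100)) (γ ^ 2 / 256), by positivity, (min_le_left _ _).trans (min_le_left _ _),
      (min_le_left _ _).trans (min_le_right _ _), ?_⟩
    linarith only [min_le_right (min κ₀ (1 / 100)) (γ ^ 2 / 256)]
  obtain ⟨χ₁, α₁, c₁⟩ := I3_exists hκ hκ2 n₁ hp hs
  obtain ⟨χ₂, α₂, c₂⟩ := I3_exists hκ hκ2 n₂ (he ▸ hp) (he ▸ hs)
  obtain ⟨k⟩ := I0_ker (m := d) (by omega)
  obtain ⟨Θ₁, -, hΘ₁⟩ := I5_const h2 k A c₁ hr hr'
  obtain ⟨Θ₂, -, hΘ₂⟩ := I5_const h2 k A c₂ hr hr'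
  have q₁ : 0 < Θ₁ := by
    obtain ⟨z, z1, z2, z3⟩ := I5_pos k A c₁ hr hr' hp₁ ha₁ h₁
    rwa [hΘ₁ z z1 z2] at z3
  have q₂ : 0 < Θ₂ := by
    obtain ⟨z, z1, z2, z3⟩ := I5_pos k A c₂ hr hr' hp₂ ha₂ h₂
    rwa [hΘ₂ z z1 z2] at z3
  have hD : ∀ t ∈ Icc (0 : ℝ) 1, closedBall (y + t • τ) (3 * r) ⊆ D6 d := fun t ht' =>
    I5b_D6 (hseg t ht').1 (hseg t ht').2 (by linarith only [hr, hr'])
  have hy0 : closedBall y (3 * r) ⊆ D6 d := by simpa only [zero_smul, add_zero] using hD 0 ⟨le_rfl, zero_le_one⟩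
  have hy1 : closedBall (y + τ) (3 * r) ⊆ D6 d := by simpa only [one_smul] using hD 1 ⟨zero_le_one, le_rfl⟩
  have hyn : 1 / 7 < ‖y‖ ∧ ‖y‖ < 5 := by
    have := hseg 0 ⟨le_rfl, zero_le_one⟩
    rw [zero_smul, add_zero] at this
    constructor <;> linarith only [this.1, this.2, hr, hr']
  have hyr : closedBall y r ⊆ D6 d := (closedBall_subset_closedBall (by linarith only [hr])).trans hy0
  have hc : 0 < min Θ₁ Θ₂ / 2 := by positivity
  obtain ⟨η, hη, nc⟩ := I2b_nc k hr hc (Θ₁ + Θ₂) τ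
  obtain ⟨m₁, f₁, g₁⟩ := I4_flat A c₁
  obtain ⟨m₂, f₂, g₂⟩ := I4_flat A c₂
  have v₁ := I5_av k A c₁ hr hyr
  have v₂ := I5_av k A c₂ hr hyr
  rw [hΘ₁ y hyn.1 hyn.2] at v₁
  rw [hΘ₂ y hyn.1 hyn.2] at v₂
  have r23 : 2 * r < 3 * r := by linarith only [hr]
  have l₁ : min Θ₁ Θ₂ / 2 < Θ₁ := by linarith only [min_le_left Θ₁ Θ₂, q₁]
  have l₂ : min Θ₁ Θ₂ / 2 < Θ₂ := by linarith only [min_le_right Θ₁ Θ₂, q₂]
  have u₁ : Θ₁ < Θ₁ + Θ₂ := by linarith only [q₂]
  have u₂ : Θ₂ < Θ₁ + Θ₂ := by linarith only [q₁]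
  obtain ⟨q, ⟨-, -, hU, hK, -, had, hst, -⟩, ⟨F₁, F₂, G₁, G₂⟩, ⟨L₁, U₁, L₂, U₂⟩, T₁, T₂, T₃, T₄⟩ :=
    (A.ev.and ((f₁.and (f₂.and ((g₁.eventually_le_const hη).and (g₂.eventually_le_const hη)))).and
      (((v₁.eventually_const_le l₁).and ((v₁.eventually_le_const u₁).and ((v₂.eventually_const_le l₂).and
        (v₂.eventually_le_const u₂)))).and
      (((I5_thin A c₁ r23 hy0 hγ hκ3).eventually_le_const hη).and
      (((I5_thin A c₂ r23 hy0 hγ hκ3).eventually_le_const hη).and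
      (((I5_thin A c₁ r23 hy1 hγ hκ3).eventually_le_const hη).and
      ((I5_thin A c₂ r23 hy1 hγ hκ3).eventually_le_const hη))))))).exists
  have := F₁.fa
  have := F₂.fa
  refine nc _ _ _ _ _ y t₀ t₁ _ _ F₁ F₂
    (fun t ht' => (closedBall_subset_closedBall r23.le).trans (hD t ht'))
    (I5b_cpt had e₁ κ) (I5b_cpt had e₂ κ) ?_
    ((I3_carr c₁ had hU hst hK).mono fun x hx _ => hx) ((I3_carr c₂ had hU hst hK).mono fun x hx _ => hx)
    L₁ U₁ L₂ U₂ G₁ G₂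
    (le_trans (measureReal_mono fun x hx => And.intro hx.1 ((hy₀ x hx.1).1 hx.2)) T₁)
    (le_trans (measureReal_mono fun x hx => And.intro hx.1 ((hy₀ x hx.1).2 hx.2)) T₂)
    (le_trans (measureReal_mono fun x hx => And.intro hx.1 ((hy₁ x hx.1).1 hx.2)) T₃)
    (le_trans (measureReal_mono fun x hx => And.intro hx.1 ((hy₁ x hx.1).2 hx.2)) T₄)
  refine Set.disjoint_left.2 fun x x₁ x₂ => ?_
  obtain ⟨n, hn, hP⟩ := S0_unit had ⟨x₁.1.1, hK x₁.1.2⟩
  have b₁ : 1 - κ ≤ ∑ i, ∑ j, A.P q x i j * e₁ i * e₁ j := x₁.2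
  have b₂ : 1 - κ ≤ ∑ i, ∑ j, A.P q x i j * e₂ i * e₂ j := x₂.2
  rw [I5b_sum hP] at b₁ b₂
  exact hcap n hn (by linarith only [hκ1, b₁]) (by linarith only [hκ1, b₂])

end Pool.Agent.MP_5cfeaf_gt.W

end

section

/-! Block I, file 6: the projection of a smooth boundary has integer density. -/

set_option autoImplicit false

open MeasureTheory Set Filter Topology Metric
open scoped ENNReal symmDiff Classical InnerProductSpace ContDiff

namespace Pool.Agent.MP_5cfeaf_gt.W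

variable {d : ℕ}

theorem I6_cpr : Continuous (pr : R d → E d) := by
  obtain ⟨L, hL⟩ := exists_prL d
  exact L.continuous.congr hL

theorem I6_cht : Continuous (ht : R d → ℝ) := by
  obtain ⟨L, hL⟩ := exists_htL d
  exact L.continuous.congr hL

theorem I6_cmk {X : Type} [TopologicalSpace X] {a : X → E d} {b : X → ℝ} (ha : Continuous a)
    (hb : Continuous b) : Continuous fun z => mk (a z) (b z) := by
  obtain ⟨L, hL⟩ := exists_mkL d
  exact (L.continuous.comp (ha.prodMk hb)).congr fun z => hL _ _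

theorem I6_cF {g : E d → ℝ} (hg : Continuous g) :
    Continuous fun p : R d × S d => g (pr p.1) * |ht (p.2 : R d)| :=
  (hg.comp (I6_cpr.comp continuous_fst)).mul
    (I6_cht.comp (continuous_subtype_val.comp continuous_snd)).abs

theorem I6_norm (a : E d) : ‖mk (-a) 1‖ = √(1 + ‖a‖ ^ 2) := by
  rw [← Real.sqrt_sq (norm_nonneg (mk (-a) 1)), norm_sq_coord, pr_mk, ht_mk, norm_neg, one_pow,
    add_comm]

theorem I6_toS (a : E d) : (toS (mk (-a) 1) : R d) = (√(1 + ‖a‖ ^ 2))⁻¹ • mk (-a) 1 := by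
  have h : mk (-a) 1 ≠ 0 := by
    rw [← norm_ne_zero_iff, I6_norm]
    positivity
  rw [toS, dif_neg h, ← I6_norm]

theorem I6_graph {Ω : Set (R d)} (hΩ : MeasurableSet Ω) {u : E d → ℝ} (hu : ContDiff ℝ 1 u)
    {y : E d} {r t h : ℝ} (hb : ∀ z ∈ ball y r, |u z - t| < h)
    (he : volume ((Ω ∆ {x | ht x < u (pr x)}) ∩ cyl y r t h) = 0) {G : Set (R d)}
    (hG : MeasurableSet G) : ∃ G' : Set (E d), MeasurableSet G' ∧ ∀ g : E d → ℝ, Continuous g →
      ∫ p in G ×ˢ univ, g (pr p.1) * |ht (p.2 : R d)| ∂vf Ω (cyl y r t h) = ∫ y in G', g y := by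
  have hg : Continuous (gradient u) :=
    (InnerProductSpace.toDual ℝ (E d)).symm.continuous.comp (hu.continuous_fderiv one_ne_zero)
  have hw : Continuous fun z => √(1 + ‖gradient u z‖ ^ 2) := by fun_prop
  have hw0 : ∀ z, 0 < √(1 + ‖gradient u z‖ ^ 2) := fun z => by positivity
  have h1 : Continuous fun z => mk z (u z) := I6_cmk continuous_id hu.continuous
  have h2 : Continuous fun z => toS (mk (-gradient u z) 1) := by
    refine continuous_induced_rng.2 ?_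
    have : (Subtype.val ∘ fun z => toS (mk (-gradient u z) 1)) =
        fun z => (√(1 + ‖gradient u z‖ ^ 2))⁻¹ • mk (-gradient u z) 1 := funext fun z => I6_toS _
    rw [this]
    exact (hw.inv₀ fun z => (hw0 z).ne').smul (I6_cmk hg.neg continuous_const)
  have hΦ := (h1.prodMk h2).measurable
  have hGG : MeasurableSet (G ×ˢ (univ : Set (S d))) := hG.prod MeasurableSet.univ
  refine ⟨_ ∩ ball y r, (hΦ hGG).inter measurableSet_ball, fun g hgc => ?_⟩
  rw [(vf_graph hΩ hu hb he).2, setIntegral_map hGG (I6_cF hgc).aestronglyMeasurable hΦ.aemeasurable,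
    setIntegral_withDensity_eq_setIntegral_toReal_smul hw.measurable.ennreal_ofReal
      (Eventually.of_forall fun z => ENNReal.ofReal_lt_top) _ (hΦ hGG),
    Measure.restrict_restrict (hΦ hGG)]
  refine integral_congr_ae (Eventually.of_forall fun z => ?_)
  obtain ⟨L, hL⟩ := exists_htL d
  have h3 : ht (toS (mk (-gradient u z) 1) : R d) = (√(1 + ‖gradient u z‖ ^ 2))⁻¹ := by
    rw [I6_toS, ← hL, map_smul, hL, ht_mk, smul_eq_mul, mul_one]
  simp only [pr_mk, h3, ENNReal.toReal_ofReal (hw0 z).le, smul_eq_mul, abs_inv, abs_of_pos (hw0 z)]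
  field_simp [(hw0 z).ne']

theorem I6_cyl {x : R d} {s : Set (R d)} (hs : s ∈ 𝓝 x) {u : E d → ℝ} (hu : Continuous u)
    (hx : ht x = u (pr x)) : ∃ r h : ℝ, IsOpen (cyl (pr x) r (ht x) h) ∧ x ∈ cyl (pr x) r (ht x) h ∧
      cyl (pr x) r (ht x) h ⊆ s ∧ ∀ z ∈ ball (pr x) r, |u z - ht x| < h := by
  obtain ⟨ρ, hρ, hs'⟩ := Metric.mem_nhds_iff.1 hs
  obtain ⟨δ, hδ, hd⟩ := Metric.continuousAt_iff.1 (hu.continuousAt (x := pr x)) (ρ / 2) (by positivity)
  obtain ⟨L, hL⟩ := exists_prL d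
  obtain ⟨L', hL'⟩ := exists_htL d
  refine ⟨min δ (ρ / 2), ρ / 2, ?_, ⟨mem_ball_self (by positivity), by simpa using hρ⟩,
    fun y hy => hs' ?_, fun z hz => ?_⟩
  · exact (isOpen_ball.preimage I6_cpr).inter
      (isOpen_lt (I6_cht.sub continuous_const).abs continuous_const)
  · have h1 : ‖pr y - pr x‖ < ρ / 2 := (mem_ball_iff_norm.1 hy.1).trans_le (min_le_right _ _)
    have h2 : |ht y - ht x| < ρ / 2 := hy.2
    have h3 : ‖y - x‖ ^ 2 = ‖pr y - pr x‖ ^ 2 + |ht y - ht x| ^ 2 := by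
      rw [norm_sq_coord, sq_abs, ← hL, ← hL', map_sub, map_sub, hL, hL, hL', hL']
    rw [mem_ball_iff_norm]
    refine lt_of_pow_lt_pow_left₀ 2 hρ.le ?_
    nlinarith only [norm_nonneg (pr y - pr x), abs_nonneg (ht y - ht x), h1, h2, h3]
  · rw [hx, ← Real.dist_eq]
    exact hd ((mem_ball.1 hz).trans_le (min_le_left _ _))

/-- local area formula.  `DefFn.graph` (after moving to `(pm Ω).support`: `vf_fst`, `support_congr`),
`sub_or_super`, a small cylinder inside `O`, `vf_graph` for `Ω` or `Ωᶜ` (`vf_compl`, `vf_restrict`);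
`|ht (toS (mk (-∇u) 1))| * √(1 + ‖∇u‖^2) = 1`. -/
theorem I6_loc {Ω O : Set (R d)} (hO : IsOpen O) (h : SS Ω O) {x : R d}
    (hx : x ∈ (vf Ω O).fst.support ∩ O) {f : R d → ℝ} (hf : DefFn (vf Ω O).fst.support x f)
    (hn : pd (Fin.last d) f x ≠ 0) : ∃ N ∈ 𝓝 x, ∀ G : Set (R d), MeasurableSet G → G ⊆ N →
      ∃ G' : Set (E d), MeasurableSet G' ∧ ∀ g : E d → ℝ, Continuous g →
        ∫ p in G ×ˢ univ, g (pr p.1) * |ht (p.2 : R d)| ∂vf Ω O = ∫ y in G', g y := by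
  obtain ⟨u, hu, hgr⟩ := hf.graph hx.1 hn
  have hsup : (vf Ω O).fst.support ∩ O = (pm Ω).support ∩ O := by
    refine support_congr hO ?_
    rw [vf_fst, Measure.restrict_restrict hO.measurableSet, inter_self]
  have hxs : x ∈ (pm Ω).support := (hsup ▸ hx : x ∈ (pm Ω).support ∩ O).1
  have hgr' : ∀ᶠ y in 𝓝 x, (y ∈ (pm Ω).support ↔ ht y = u (pr y)) := by
    filter_upwards [hgr, hO.mem_nhds hx.2] with y h1 h2
    rw [← h1]
    exact ⟨fun h3 => (hsup ▸ (⟨h3, h2⟩ : y ∈ (pm Ω).support ∩ O) :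
      y ∈ (vf Ω O).fst.support ∩ O).1, fun h3 => (hsup ▸ (⟨h3, h2⟩ :
      y ∈ (vf Ω O).fst.support ∩ O) : y ∈ (pm Ω).support ∩ O).1⟩
  obtain ⟨s, hs, hss⟩ := eventually_smallSets.1 (sub_or_super h.1 hxs hu.continuous hgr')
  obtain ⟨r, η, hC, hxC, hCs, hb⟩ := I6_cyl (inter_mem hs (hO.mem_nhds hx.2)) hu.continuous
    (hgr'.self_of_nhds.1 hxs)
  have hCO : cyl (pr x) r (ht x) η ⊆ O := fun y hy => (hCs hy).2
  have hu1 : ContDiff ℝ 1 u := hu.of_le (by exact_mod_cast le_top)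
  refine ⟨_, hC.mem_nhds hxC, fun G hG hGC => ?_⟩
  have hGG : MeasurableSet (G ×ˢ (univ : Set (S d))) := hG.prod MeasurableSet.univ
  have hres : (vf Ω O).restrict (G ×ˢ univ) = (vf Ω (cyl (pr x) r (ht x) η)).restrict (G ×ˢ univ) := by
    rw [← vf_restrict Ω hC.measurableSet hCO, Measure.restrict_restrict hGG,
      inter_eq_left.2 (prod_mono hGC subset_rfl)]
  rw [hres]
  rcases hss _ (fun y hy => (hCs hy).1) with he | he
  · exact I6_graph h.1 hu1 hb he hG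
  · obtain ⟨G', hG', hI⟩ := I6_graph h.1.compl hu1 hb he hG
    refine ⟨G', hG', fun g hg => ?_⟩
    have hm : Measurable fun p : R d × S d => (p.1, -p.2) := by
      refine (continuous_fst.prodMk (continuous_induced_rng.2 ?_)).measurable
      exact (continuous_subtype_val.comp continuous_snd).neg
    obtain ⟨L', hL'⟩ := exists_htL d
    rw [← hI g hg, vf_compl h.1 hC (hCO.trans h.2.1),
      setIntegral_map hGG (I6_cF hg).aestronglyMeasurable hm.aemeasurable]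
    have h1 : (fun p : R d × S d => (p.1, -p.2)) ⁻¹' (G ×ˢ univ) = G ×ˢ univ := by
      ext p; simp
    rw [h1]
    refine integral_congr_ae (Eventually.of_forall fun p => ?_)
    simp only [coe_neg_sphere, ← hL', map_neg, abs_neg]

/-- finite subcover, `disjointed`, `N = ∑` of indicators -/
theorem I6_area {Ω O K : Set (R d)} (hO : IsOpen O) (h : SS Ω O) (hK : IsCompact K)
    (hKO : K ⊆ (vf Ω O).fst.support ∩ O)
    (hn : ∀ x ∈ K, ∃ f, DefFn (vf Ω O).fst.support x f ∧ pd (Fin.last d) f x ≠ 0) :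
    ∃ (N : E d → ℕ) (M : ℕ), Measurable N ∧ (∀ y, N y ≤ M) ∧ ∀ g : E d → ℝ, Continuous g →
      HasCompactSupport g →
      ∫ p in K ×ˢ univ, g (pr p.1) * |ht (p.2 : R d)| ∂vf Ω O = ∫ y, g y * N y := by
  let Q : Set (R d) → Prop := fun G => ∃ (N : E d → ℕ) (M : ℕ), Measurable N ∧ (∀ y, N y ≤ M) ∧
    ∀ g : E d → ℝ, Continuous g → HasCompactSupport g →
      ∫ p in G ×ˢ univ, g (pr p.1) * |ht (p.2 : R d)| ∂vf Ω O = ∫ y, g y * N y
  have hfin : vf Ω O (K ×ˢ univ) < ⊤ := by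
    have := h.2.2.2.1.1 K hK fun y hy => (hKO hy).2
    rwa [Measure.fst_apply hK.measurableSet, ← prod_univ] at this
  have hint : ∀ g : E d → ℝ, Continuous g → ∀ G, G ⊆ K →
      IntegrableOn (fun p : R d × S d => g (pr p.1) * |ht (p.2 : R d)|) (G ×ˢ univ) (vf Ω O) := by
    intro g hg G hG
    obtain ⟨C, hC⟩ := (hK.prod isCompact_univ).exists_bound_of_continuousOn
      (I6_cF hg).continuousOn
    refine IntegrableOn.mono_set ?_ (prod_mono hG subset_rfl)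
    refine Measure.integrableOn_of_bounded (M := C) hfin.ne (I6_cF hg).aestronglyMeasurable ?_
    filter_upwards [ae_restrict_mem (hK.measurableSet.prod MeasurableSet.univ)] with p hp using hC p hp
  have hint' : ∀ g : E d → ℝ, Continuous g → HasCompactSupport g → ∀ (N : E d → ℕ) (M : ℕ),
      Measurable N → (∀ y, N y ≤ M) → Integrable fun y => g y * N y := by
    intro g hg hc N M hN hM
    refine (hg.integrable_of_hasCompactSupport hc).mul_bdd (c := M)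
      (measurable_from_top.comp hN).aestronglyMeasurable (Eventually.of_forall fun y => ?_)
    rw [Real.norm_natCast]
    exact_mod_cast hM y
  have key : ∃ s', MeasurableSet s' ∧ K ⊆ s' ∧ ∀ G, MeasurableSet G → G ⊆ s' → G ⊆ K → Q G := by
    refine hK.induction_on (p := fun s => ∃ s', MeasurableSet s' ∧ s ⊆ s' ∧
      ∀ G, MeasurableSet G → G ⊆ s' → G ⊆ K → Q G) ?_ ?_ ?_ ?_
    · refine ⟨∅, MeasurableSet.empty, subset_rfl, fun G _ hG _ => ?_⟩
      rw [subset_empty_iff.1 hG]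
      exact ⟨fun _ => 0, 0, measurable_const, fun _ => le_rfl, fun g _ _ => by simp⟩
    · rintro s t hst ⟨s', h1, h2, h3⟩
      exact ⟨s', h1, hst.trans h2, h3⟩
    · rintro s t ⟨s', h1, h2, h3⟩ ⟨t', h4, h5, h6⟩
      refine ⟨s' ∪ t', h1.union h4, union_subset_union h2 h5, fun G hG hGs hGK => ?_⟩
      obtain ⟨N, M, hN, hM, hI⟩ := h3 (G ∩ s') (hG.inter h1) inter_subset_right
        (inter_subset_left.trans hGK)
      obtain ⟨N', M', hN', hM', hI'⟩ := h6 (G \ s') (hG.diff h1)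
        (fun y hy => (hGs hy.1).resolve_left hy.2) (sdiff_subset.trans hGK)
      refine ⟨fun y => N y + N' y, M + M', hN.add hN', fun y => add_le_add (hM y) (hM' y),
        fun g hg hc => ?_⟩
      have hGe : G ×ˢ (univ : Set (S d)) = (G ∩ s') ×ˢ univ ∪ (G \ s') ×ˢ univ := by
        rw [← union_prod, inter_union_sdiff]
      rw [hGe, setIntegral_union (Disjoint.set_prod_left disjoint_sdiff_inter.symm _ _)
        ((hG.diff h1).prod MeasurableSet.univ) (hint g hg _ (inter_subset_left.trans hGK))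
        (hint g hg _ (sdiff_subset.trans hGK)), hI g hg hc, hI' g hg hc,
        ← integral_add (hint' g hg hc N M hN hM) (hint' g hg hc N' M' hN' hM')]
      simp only [Nat.cast_add, mul_add]
    · intro x hx
      obtain ⟨f, hf, hfn⟩ := hn x hx
      obtain ⟨N, hN, hl⟩ := I6_loc hO h (hKO hx) hf hfn
      refine ⟨interior N, mem_nhdsWithin_of_mem_nhds (interior_mem_nhds.2 hN), interior N,
        isOpen_interior.measurableSet, subset_rfl, fun G hG hGN _ => ?_⟩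
      obtain ⟨G', hG', hI⟩ := hl G hG (hGN.trans interior_subset)
      refine ⟨G'.indicator fun _ => 1, 1, measurable_const.indicator hG', fun y => ?_,
        fun g hg _ => ?_⟩
      · by_cases hy : y ∈ G' <;> simp [hy]
      · rw [hI g hg, ← integral_indicator hG']
        refine integral_congr_ae (Eventually.of_forall fun y => ?_)
        by_cases hy : y ∈ G' <;> simp [hy]
  obtain ⟨s', -, h2, h3⟩ := key
  exact h3 K hK.measurableSet h2 subset_rfl

end Pool.Agent.MP_5cfeaf_gt.W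

end

section

/-! Block I, file 7: identification of the limit. -/

set_option autoImplicit false

open MeasureTheory Set Filter Topology Metric
open scoped ENNReal symmDiff Classical InnerProductSpace ContDiff

namespace Pool.Agent.MP_5cfeaf_gt.W

variable {d : ℕ}

section
variable {χ : R d → ℝ} {α : ℝ → ℝ} {κ : ℝ} {W : Vf d}

/-- `I1_test` for the approximations, `I4_flat`, `I4_conv`, `I5_av` -/
theorem I7_test (k : Ker d) (A : Apx W) {e : R d} (c : Cap χ α e κ) {r : ℝ} (hr : 0 < r) {y : E d}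
    (hy : closedBall y (2 * r) ⊆ D6 d) {g : E d → ℝ} (hg : Continuous g)
    (h0 : ∀ z, z ∉ ball y r → g z = 0) :
    ∫ x, g (pr x) ∂capM χ α e W = k.av r (capM χ α e W) y * ∫ z, g z := by
  obtain ⟨C, -, hC⟩ := I1_test k hr
  obtain ⟨m, hm, hm0⟩ := I4_flat A c
  obtain ⟨L, hL⟩ := exists_prL d
  have hpr : Continuous (pr : R d → E d) := by
    rw [← funext hL]
    exact L.continuous
  have hy' : closedBall y r ⊆ D6 d := (closedBall_subset_closedBall (by linarith)).trans hy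
  obtain ⟨b, hb⟩ := hg.bounded_above_of_compact_support
    (HasCompactSupport.intro (isCompact_closedBall y r) fun z hz =>
      h0 z fun h => hz (ball_subset_closedBall h))
  have hb0 : 0 < b + 1 := by linarith [(norm_nonneg _).trans (hb y)]
  have h1 := (I4_conv A c (g := fun x => g (pr x)) (hg.comp hpr) (isCompact_closedBall y r) hy'
    fun x hx => h0 _ fun h => hx (ball_subset_closedBall h)).sub
    ((I5_av k A c hr hy').mul_const (∫ z, g z))
  have h2 := (hm0.const_mul C).const_mul (b + 1)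
  have h3 := le_of_tendsto_of_tendsto h1.abs h2 (hm.mono fun q hq => by
    have := hC _ _ _ y (fun z => (b + 1)⁻¹ * g z) hq hy (by fun_prop) (fun z => by
      rw [abs_mul, abs_of_pos (inv_pos.2 hb0), inv_mul_le_iff₀ hb0]
      linarith [hb z, Real.norm_eq_abs (g z)]) fun z hz => by rw [h0 z hz, mul_zero]
    rw [integral_const_mul, integral_const_mul, mul_left_comm, ← mul_sub, abs_mul,
      abs_of_pos (inv_pos.2 hb0), inv_mul_le_iff₀ hb0] at this
    exact this)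
  rw [mul_zero, mul_zero, abs_nonpos_iff, sub_eq_zero] at h3
  exact h3

theorem I7_mk (d : ℕ) : Continuous fun y : E d => mk y 0 := by
  obtain ⟨L, hL⟩ := exists_mkL d
  simp only [← hL]
  fun_prop

theorem I7_norm (y : E d) : ‖mk y 0‖ = ‖y‖ := by
  have := norm_sq_coord (mk y 0)
  rw [pr_mk, ht_mk, zero_pow two_ne_zero, add_zero] at this
  exact (sq_eq_sq₀ (norm_nonneg _) (norm_nonneg _)).1 this

theorem I7_ht (n : R d) : ⟪(EuclideanSpace.single (Fin.last d) (1 : ℝ) : R d), n⟫_ℝ = ht n := by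
  simp [EuclideanSpace.inner_single_left, ht]

/-- in the annulus the weight of the cone is the lift of the projection of the cap measure -/
theorem I7_lift (A : Apx W) (c : Cap χ α (EuclideanSpace.single (Fin.last d) 1) κ)
    (hν : ∀ᵐ p ∂W, p.1 ∈ An (1 / 4) 4 → ht (p.2 : R d) ^ 2 = 1) {g : R d → ℝ} (hg : Continuous g)
    (h0 : ∀ x, x ∉ An (1 / 2) 2 → g x = 0) :
    ∫ x, g x ∂W.fst = ∫ x, g (mk (pr x) 0) ∂capM χ α (EuclideanSpace.single (Fin.last d) 1) W := by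
  obtain ⟨L, hL⟩ := exists_prL d
  have hpr : Continuous (pr : R d → E d) := by
    rw [← funext hL]
    exact L.continuous
  have hAn : MeasurableSet (An 16⁻¹ 16 : Set (R d)) :=
    ((isOpen_lt continuous_const continuous_norm).inter
      (isOpen_lt continuous_norm continuous_const)).measurableSet
  rw [I3_int c W (g := fun x => g (mk (pr x) 0)) (hg.comp ((I7_mk d).comp hpr)),
    ← integral_indicator (hAn.prod MeasurableSet.univ), Measure.fst,
    integral_map measurable_fst.aemeasurable hg.aestronglyMeasurable]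
  refine integral_congr_ae ?_
  filter_upwards [hν, A.con] with p h1 h2
  have hn : ‖(p.2 : R d)‖ = 1 := norm_eq_of_mem_sphere p.2
  by_cases hp : p.1 ∈ An (1 / 4) 4
  · have h3 := h1 hp
    have h4 := (h2 ⟨by linarith [hp.1], by linarith [hp.2]⟩).1
    have h5 := norm_sq_coord (p.2 : R d)
    rw [hn, h3] at h5
    have h6 : pr (p.2 : R d) = 0 := by
      rw [← norm_eq_zero, ← sq_eq_zero_iff]
      linarith
    rw [inner_coord, h6, inner_zero_right, zero_add, mul_eq_zero] at h4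
    have h7 : ht p.1 = 0 := h4.resolve_right fun h => by
      rw [h] at h3
      norm_num at h3
    have h8 : mk (pr p.1) 0 = p.1 := by rw [← h7, mk_pr_ht]
    rw [indicator_of_mem (show p ∈ An 16⁻¹ 16 ×ˢ univ from
      ⟨⟨by linarith only [hp.1], by linarith [hp.2]⟩, mem_univ _⟩), h8, wt, I7_ht, ← sq, h3,
      c.χone _ (by linarith [hp.2]), c.αone _ (by linarith [c.κpos])]
    ring
  · rw [h0 _ fun h => hp ⟨by linarith [h.1], by linarith [h.2]⟩]
    by_cases hq : p ∈ An 16⁻¹ 16 ×ˢ (univ : Set (S d))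
    · rw [indicator_of_mem hq]
      by_contra hne
      obtain ⟨h3, h4⟩ := mul_ne_zero_iff.1 (Ne.symm hne)
      have h5 : mk (pr p.1) 0 ∈ An (1 / 2) 2 := by_contra fun h => h3 (h0 _ h)
      have h6 := ((I3_geom c hn fun h => h4 (by rw [wt, h]; ring)).2.2 p.1
        (h2 ⟨by linarith [hq.1.1], by linarith [hq.1.2]⟩).1).1
      have h7 := h5.1
      have h8 := h5.2
      rw [I7_norm] at h7 h8
      have h9 : ‖pr p.1‖ ≤ ‖p.1‖ := by
        refine le_of_sq_le_sq ?_ (norm_nonneg _)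
        rw [norm_sq_coord]
        exact le_add_of_nonneg_right (sq_nonneg _)
      exact hp ⟨by linarith, by linarith only [h6, h8]⟩
    · rw [indicator_of_notMem hq]

/-- `restrict_eq_of_local` + `restrict_eq_of_integral` on small balls.  For `g` supported in `An (1/2) 2` put
`φ y = g (mk y 0)`: `∫ g ∂W.fst = ∫ φ (pr x) ∂capM W` (a.e. on `An (1/4) 4`: `ht x = 0`, `wt = 1`; where `wt ≠ 0` and
`φ (pr x) ≠ 0`: `‖x‖ ≤ 2 ‖pr x‖ < 4` by `I3_geom`), then `I7_test`. -/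
theorem I7_id (k : Ker d) (A : Apx W) (c : Cap χ α (EuclideanSpace.single (Fin.last d) 1) κ)
    (hν : ∀ᵐ p ∂W, p.1 ∈ An (1 / 4) 4 → ht (p.2 : R d) ^ 2 = 1) {r Θ : ℝ} (hr : 0 < r)
    (hr' : r ≤ 1 / 200) (hΘ : 0 ≤ Θ) (h : ∀ y : E d, 1 / 7 < ‖y‖ → ‖y‖ < 5 →
      k.av r (capM χ α (EuclideanSpace.single (Fin.last d) 1) W) y = Θ) :
    W.fst.restrict (An (1 / 2) 2) =
      ENNReal.ofReal Θ • (pl (LinearIsometryEquiv.refl ℝ (R d))).restrict (An (1 / 2) 2) := by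
  have hAn : IsOpen (An (1 / 2) 2 : Set (R d)) :=
    (isOpen_lt continuous_const continuous_norm).inter (isOpen_lt continuous_norm continuous_const)
  have hpl : pl (LinearIsometryEquiv.refl ℝ (R d)) = (volume : Measure (E d)).map fun y => mk y 0 := rfl
  rw [← Measure.restrict_smul]
  refine restrict_eq_of_local (fun x hx => ⟨ball x r ∩ An (1 / 2) 2,
    (isOpen_ball.inter hAn).mem_nhds ⟨mem_ball_self hr, hx⟩,
    restrict_eq_of_integral (isOpen_ball.inter hAn) (fun K hK hKO => A.fin K hK fun z hz =>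
      ⟨by linarith only [(hKO hz).2.1], by linarith only [(hKO hz).2.2, hr, hr']⟩) (fun K hK hKO => ?_)
      fun g hg => ?_⟩) hAn
  · rw [Measure.smul_apply, smul_eq_mul, hpl, Measure.map_apply (I7_mk d).measurable hK.measurableSet]
    refine ENNReal.mul_lt_top ENNReal.ofReal_lt_top
      ((measure_mono fun z hz => ?_).trans_lt (measure_ball_lt_top (x := (0 : E d)) (r := 2)))
    rw [mem_ball_zero_iff, ← I7_norm]
    exact (hKO hz).2.2
  · have h0 : ∀ z, z ∉ ball x r ∩ An (1 / 2) 2 → g z = 0 := fun z hz =>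
      image_eq_zero_of_notMem_tsupport fun h => hz (hg.2.2 h)
    have h1 : ∀ z : E d, g (mk z 0) ≠ 0 → ‖z - pr x‖ ^ 2 + ht x ^ 2 < r ^ 2 := fun z hz => by
      have h2 : mk z 0 ∈ ball x r ∩ An (1 / 2) 2 := by_contra fun h => hz (h0 _ h)
      have h3 := h2.1
      rw [mem_ball_iff_norm] at h3
      obtain ⟨L, hL⟩ := exists_prL d
      obtain ⟨L', hL'⟩ := exists_htL d
      have h4 := norm_sq_coord (mk z 0 - x)
      rw [← hL, ← hL', map_sub, map_sub, hL, hL, hL', hL', pr_mk, ht_mk, zero_sub, neg_sq] at h4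
      rw [← h4]
      gcongr
    rw [I7_lift A c hν hg.1.continuous fun z hz => h0 z fun h => hz h.2, integral_smul_measure,
      ENNReal.toReal_ofReal hΘ, smul_eq_mul, hpl,
      integral_map (I7_mk d).aemeasurable hg.1.continuous.aestronglyMeasurable]
    by_cases hx' : ht x ^ 2 < r ^ 2
    · have h2 := norm_sq_coord x
      have h3 : 1 / 7 < ‖pr x‖ := by
        refine lt_of_pow_lt_pow_left₀ 2 (norm_nonneg _) ?_
        nlinarith only [hx.1, hr, hr', hx', h2]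
      have h4 : ‖pr x‖ < 5 := by
        refine lt_of_pow_lt_pow_left₀ 2 (by norm_num) ?_
        nlinarith only [hx.2, norm_nonneg x, h2]
      rw [← h _ h3 h4]
      refine I7_test k A c hr (fun z hz => ?_) (g := fun z => g (mk z 0))
        (hg.1.continuous.comp (I7_mk d)) fun z hz => by_contra fun hne => hz ?_
      · rw [mem_closedBall_iff_norm] at hz
        have h5 := abs_le.1 ((abs_norm_sub_norm_le z (pr x)).trans hz)
        exact ⟨by linarith [h5.1], by linarith only [h5.2, hr, hr', h4]⟩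
      · rw [mem_ball_iff_norm]
        refine lt_of_pow_lt_pow_left₀ 2 hr.le ?_
        linarith only [h1 z hne, sq_nonneg (ht x)]
    · have h2 : ∀ z : E d, g (mk z 0) = 0 := fun z => by_contra fun hne =>
        hx' (by linarith [h1 z hne, sq_nonneg ‖z - pr x‖])
      simp [h2]

end

end Pool.Agent.MP_5cfeaf_gt.W

end

section

/-! Block I, file 7b: integer multiplicity. -/

set_option autoImplicit false

open MeasureTheory Set Filter Topology Metric
open scoped ENNReal symmDiff Classical InnerProductSpace ContDiff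

namespace Pool.Agent.MP_5cfeaf_gt.W

variable {d : ℕ}

/-- clamp to the unit interval -/
noncomputable def I7b_cl (t : ℝ) : ℝ := max 0 (min 1 t)

theorem I7b_cl_cont : Continuous I7b_cl := by unfold I7b_cl; fun_prop
theorem I7b_cl_nn (t : ℝ) : 0 ≤ I7b_cl t := le_max_left _ _
theorem I7b_cl_le (t : ℝ) : I7b_cl t ≤ 1 := max_le zero_le_one (min_le_left _ _)
theorem I7b_cl_one {t : ℝ} (h : 1 ≤ t) : I7b_cl t = 1 := by
  unfold I7b_cl; rw [min_eq_left h, max_eq_right zero_le_one]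
theorem I7b_cl_zero {t : ℝ} (h : t ≤ 0) : I7b_cl t = 0 :=
  max_eq_left ((min_le_right _ _).trans h)

theorem I7b_cpr : Continuous (pr : R d → E d) := by
  obtain ⟨L, hL⟩ := exists_prL d
  exact L.continuous.congr hL

theorem I7b_cht : Continuous (ht : R d → ℝ) := by
  obtain ⟨L, hL⟩ := exists_htL d
  exact L.continuous.congr hL

theorem I7b_pr_le (x : R d) : ‖pr x‖ ≤ ‖x‖ := by
  refine le_of_sq_le_sq ?_ (norm_nonneg _)
  rw [norm_sq_coord x]
  exact le_add_of_nonneg_right (sq_nonneg _)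

theorem I7b_ht_le (ν : S d) : ht (ν : R d) ^ 2 ≤ 1 := by
  have h := norm_sq_coord (ν : R d)
  rw [norm_eq_of_mem_sphere, one_pow] at h
  linarith only [sq_nonneg ‖pr (ν : R d)‖, h]

theorem I7b_inner (x : R d) : ⟪(EuclideanSpace.single (Fin.last d) 1 : R d), x⟫_ℝ = ht x := by
  rw [EuclideanSpace.inner_single_left]
  simp [ht]

theorem I7b_Kc : IsCompact (Kc d) := by
  refine (isCompact_closedBall (0 : R d) 16).of_isClosed_subset ?_ fun x hx => ?_
  · exact (isClosed_le continuous_const continuous_norm).inter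
      (isClosed_le continuous_norm continuous_const)
  · exact mem_closedBall_zero_iff.mpr hx.2

theorem I7b_int {V : Vf d} (hV : V.fst (Kc d) < ⊤) {F : R d × S d → ℝ} (hF : Measurable F) {C : ℝ}
    (hb : ∀ p, |F p| ≤ C) (h0 : ∀ p, p.1 ∉ Kc d → F p = 0) : Integrable F V := by
  rw [← integrableOn_iff_integrable_of_support_subset (s := Prod.fst ⁻¹' Kc d)
    (fun p hp => by_contra fun h => hp (h0 p h))]
  rw [Measure.fst_apply I7b_Kc.measurableSet] at hV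
  exact Measure.integrableOn_of_bounded hV.ne hF.aestronglyMeasurable (Eventually.of_forall hb)

theorem I7b_norm {y z : E d} {r : ℝ} (hy : ‖y‖ = 1) (hz : ‖z - y‖ ≤ r) :
    1 - r ≤ ‖z‖ ∧ ‖z‖ ≤ 1 + r := by
  have h := abs_le.mp ((abs_norm_sub_norm_le z y).trans hz)
  constructor <;> linarith only [h.1, h.2, hy]

/-- the error density -/
noncomputable def I7b_Xi (χ : R d → ℝ) (α : ℝ → ℝ) (κ r : ℝ) (y : E d) (p : R d × S d) : ℝ :=
  I7b_cl (2 - ‖pr p.1 - y‖ / r) * (2 / κ * (1 - ht (p.2 : R d) ^ 2) * I7b_cl (3 - ‖p.1‖) +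
    χ p.1 * α (ht (p.2 : R d) ^ 2) * I7b_cl (2 * ‖p.1‖ - 3))

section
variable {χ : R d → ℝ} {α : ℝ → ℝ} {κ r : ℝ} {e : R d} {y : E d}

theorem I7b_Xi_cont (c : Cap χ α e κ) : Continuous (I7b_Xi χ α κ r y) := by
  have h1 := I7b_cl_cont
  have h2 := I7b_cpr (d := d)
  have h3 := I7b_cht (d := d)
  have h4 := c.χ1.continuous
  have h5 := c.α1.continuous
  unfold I7b_Xi
  fun_prop

theorem I7b_Xi_bd (c : Cap χ α e κ) (p : R d × S d) :
    0 ≤ I7b_Xi χ α κ r y p ∧ I7b_Xi χ α κ r y p ≤ 2 / κ + 1 := by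
  have hκ := c.κpos
  have h1 := I7b_ht_le p.2
  have h2 := c.χ01 p.1
  have h3 := c.α01 (ht (p.2 : R d) ^ 2)
  have a1 : 0 ≤ 2 / κ * (1 - ht (p.2 : R d) ^ 2) * I7b_cl (3 - ‖p.1‖) :=
    mul_nonneg (mul_nonneg (by positivity) (by linarith)) (I7b_cl_nn _)
  have a2 : 0 ≤ χ p.1 * α (ht (p.2 : R d) ^ 2) * I7b_cl (2 * ‖p.1‖ - 3) :=
    mul_nonneg (mul_nonneg h2.1 h3.1) (I7b_cl_nn _)
  have b1 : 2 / κ * (1 - ht (p.2 : R d) ^ 2) * I7b_cl (3 - ‖p.1‖) ≤ 2 / κ :=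
    (mul_le_of_le_one_right (mul_nonneg (by positivity) (by linarith only [h1])) (I7b_cl_le _)).trans
      (mul_le_of_le_one_right (by positivity) (sub_le_self _ (sq_nonneg _)))
  have b2 : χ p.1 * α (ht (p.2 : R d) ^ 2) * I7b_cl (2 * ‖p.1‖ - 3) ≤ 1 :=
    mul_le_one₀ (mul_le_one₀ h2.2 h3.1 h3.2) (I7b_cl_nn _) (I7b_cl_le _)
  refine ⟨mul_nonneg (I7b_cl_nn _) (add_nonneg a1 a2), ?_⟩
  exact (mul_le_of_le_one_left (add_nonneg a1 a2) (I7b_cl_le _)).trans (add_le_add b1 b2)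

theorem I7b_xi_ne (hr : 0 < r) {z : E d} (h : I7b_cl (2 - ‖z - y‖ / r) ≠ 0) : ‖z - y‖ ≤ 2 * r := by
  by_contra h'
  refine h (I7b_cl_zero ?_)
  rw [sub_nonpos, le_div_iff₀ hr]
  exact (not_le.mp h').le

theorem I7b_Xi_supp (c : Cap χ α e κ) (hr : 0 < r) (hr' : r ≤ 1 / 200) (hy : ‖y‖ = 1)
    (p : R d × S d) (hp : p.1 ∉ Kc d) : I7b_Xi χ α κ r y p = 0 := by
  unfold I7b_Xi
  by_cases h : I7b_cl (2 - ‖pr p.1 - y‖ / r) = 0
  · rw [h, zero_mul]
  have h1 := (I7b_norm hy (I7b_xi_ne hr h)).1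
  have h2 := I7b_pr_le p.1
  have h3 : 16 < ‖p.1‖ := by
    by_contra h4
    exact hp ⟨by linarith, not_lt.mp h4⟩
  rw [I7b_cl_zero (t := 3 - ‖p.1‖) (by linarith only [hr, hr', h3]), c.χzero _ (by linarith)]
  simp

theorem I7b_Xi_zero {W : Vf d} (c : Cap χ α (EuclideanSpace.single (Fin.last d) 1) κ) (hr : 0 < r)
    (hr' : r ≤ 1 / 200) (hy : ‖y‖ = 1) (hc : Con W (An 17⁻¹ 17) ⊥)
    (hν : ∀ᵐ p ∂W, p.1 ∈ An (1 / 4) 4 → ht (p.2 : R d) ^ 2 = 1) :
    ∫ p, I7b_Xi χ α κ r y p ∂W = 0 := by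
  refine integral_eq_zero_of_ae ?_
  filter_upwards [hc, hν] with p hp1 hp2
  unfold I7b_Xi
  by_cases h : I7b_cl (2 - ‖pr p.1 - y‖ / r) = 0
  · rw [h, zero_mul]; rfl
  have h1 := I7b_norm hy (I7b_xi_ne hr h)
  have h2 := I7b_pr_le p.1
  have a1 : 2 / κ * (1 - ht (p.2 : R d) ^ 2) * I7b_cl (3 - ‖p.1‖) = 0 := by
    by_cases h3 : 3 ≤ ‖p.1‖
    · rw [I7b_cl_zero (t := 3 - ‖p.1‖) (by linarith only [h3]), mul_zero]
    · rw [hp2 ⟨by linarith only [h1.1, hr', h2], by linarith⟩, sub_self, mul_zero, zero_mul]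
  have a2 : χ p.1 * α (ht (p.2 : R d) ^ 2) * I7b_cl (2 * ‖p.1‖ - 3) = 0 := by
    by_cases h3 : 15 ≤ ‖p.1‖
    · rw [c.χzero _ h3, zero_mul, zero_mul]
    by_cases h4 : α (ht (p.2 : R d) ^ 2) = 0
    · rw [h4, mul_zero, zero_mul]
    have h5 := (hp1 ⟨by linarith only [h1.1, hr', h2], by linarith only [hr, hr', h3]⟩).1
    have h6 := ((I3_geom c (norm_eq_of_mem_sphere p.2) (by rwa [I7b_inner])).2.2 p.1 h5).2
    rw [real_inner_comm, I7b_inner] at h6
    have h7 := norm_sq_coord p.1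
    have h8 : κ * ‖p.1‖ ^ 2 ≤ 1 / 100 * ‖p.1‖ ^ 2 := mul_le_mul_of_nonneg_right c.κle (sq_nonneg _)
    have h9 : ‖pr p.1‖ ^ 2 ≤ (101 / 100) ^ 2 :=
      pow_le_pow_left₀ (norm_nonneg _) (by linarith only [h1.2, hr']) 2
    have h10 : ‖p.1‖ ≤ 3 / 2 := le_of_sq_le_sq (by linarith only [h6, h7, h8, h9]) (by norm_num)
    rw [I7b_cl_zero (by linarith only [h10]), mul_zero]
  rw [a1, a2, add_zero, mul_zero]; rfl

theorem I7b_pt (c : Cap χ α e κ) {t : ℝ} (h1 : t ^ 2 ≤ 1) :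
    |α (t ^ 2) * (t * t) - abs t| ≤ 2 / κ * (1 - t ^ 2) := by
  have hκ := c.κpos
  have hκ' := c.κle
  have ha := c.α01 (t ^ 2)
  have ht1 : |t| ≤ 1 := by rwa [← sq_le_one_iff_abs_le_one]
  have ht0 := abs_nonneg t
  have hs : |t| * |t| = t * t := abs_mul_abs_self t
  have hq : t ^ 2 = t * t := sq t
  by_cases h : 1 - κ / 2 ≤ t ^ 2
  · have h3 : (1 : ℝ) ≤ 2 / κ := by rw [le_div_iff₀ hκ]; linarith only [hκ']
    rw [c.αone _ h, one_mul]
    refine le_trans ?_ (le_mul_of_one_le_left (by linarith only [h1]) h3)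
    rw [abs_le]
    constructor <;> nlinarith only [ht1, ht0, hs]
  · have h3 : 1 ≤ 2 / κ * (1 - t ^ 2) := by
      rw [div_mul_eq_mul_div, le_div_iff₀ hκ]; linarith only [h]
    refine le_trans ?_ h3
    have h4 : 0 ≤ α (t ^ 2) * (t * t) := mul_nonneg ha.1 (mul_self_nonneg t)
    have h5 : α (t ^ 2) * (t * t) ≤ 1 := mul_le_one₀ ha.2 (mul_self_nonneg t) (by linarith only [hκ, h])
    rw [abs_le]
    constructor <;> linarith only [ht1, h4, ht0, h5]

theorem I7b_area (c : Cap χ α (EuclideanSpace.single (Fin.last d) 1) κ) (hr : 0 < r)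
    (hr' : r ≤ 1 / 200) (hy : ‖y‖ = 1) {Ω O U : Set (R d)} {P : PF d} (hO : IsOpen O) (hS : SS Ω O)
    (hU : IsOpen U) (hK : Kc d ⊆ U) (hUO : U ⊆ O) (hA : Adapted (vf Ω O).fst.support U P)
    (hs : Stat (vf Ω O) U) : ∃ (N : E d → ℕ) (M : ℕ), Measurable N ∧ (∀ z, N z ≤ M) ∧
      ∀ g : E d → ℝ, Continuous g → (∀ z, 0 ≤ g z ∧ g z ≤ 1) → (∀ z, z ∉ ball y r → g z = 0) →
        |∫ x, g (pr x) ∂capM χ α (EuclideanSpace.single (Fin.last d) 1) (vf Ω O) - ∫ z, g z * N z| ≤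
          ∫ p, I7b_Xi χ α κ r y p ∂vf Ω O := by
  set V := vf Ω O with hV
  have hcp := I7b_cpr (d := d)
  have hch := I7b_cht (d := d)
  set K : Set (R d) := V.fst.support ∩ (closedBall 0 2 ∩ (pr ⁻¹' closedBall y r ∩
    {x | 3 / 4 ≤ P x (Fin.last d) (Fin.last d)})) with hKd
  have hKc : IsCompact K :=
    ((isCompact_closedBall 0 2).inter_right ((isClosed_closedBall.preimage hcp).inter
      (isClosed_le continuous_const (hA.1 _ _).continuous))).inter_left Measure.isClosed_support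
  have hlow : ∀ x : R d, pr x ∈ closedBall y r → 1 / 2 ≤ ‖x‖ := fun x hx => by
    have := (I7b_norm hy (mem_closedBall_iff_norm.mp hx)).1
    linarith only [I7b_pr_le x, hr', this]
  have hKK : K ⊆ Kc d := fun x hx =>
    ⟨by linarith only [hlow x hx.2.2.1], by linarith [mem_closedBall_zero_iff.mp hx.2.1]⟩
  obtain ⟨N, M, hN, hM, hI⟩ := I6_area hO hS hKc (fun x hx => ⟨hx.1, hUO (hK (hKK hx))⟩)
    fun x hx => by
      obtain ⟨f, hf, hP⟩ := hA.2 x ⟨hx.1, hK (hKK hx)⟩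
      refine ⟨f, hf, fun h0 => hf.2.1 ?_⟩
      have h1 := hP (Fin.last d) (Fin.last d)
      have h2 : 3 / 4 ≤ P x (Fin.last d) (Fin.last d) := hx.2.2.2
      rw [h0, mul_zero, mul_eq_zero] at h1
      have h3 := (Finset.sum_eq_zero_iff_of_nonneg fun k _ => sq_nonneg _).mp
        (h1.resolve_left (by linarith only [h2]))
      refine ContinuousLinearMap.coe_injective ((EuclideanSpace.basisFun _ ℝ).toBasis.ext fun k => ?_)
      simpa only [OrthonormalBasis.coe_toBasis, EuclideanSpace.basisFun_apply, ContinuousLinearMap.coe_coe, ContinuousLinearMap.toLinearMap_zero, LinearMap.zero_apply, pd, ne_eq, OfNat.ofNat_ne_zero, not_false_eq_true, pow_eq_zero_iff] using h3 k (Finset.mem_univ k)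
  refine ⟨N, M, hN, hM, fun g hg hg1 hg0 => ?_⟩
  have hfin : V.fst (Kc d) < ⊤ := hs.1 _ I7b_Kc hK
  have hAn : MeasurableSet (An (d := d) 16⁻¹ 16 ×ˢ (univ : Set (S d))) :=
    ((isOpen_lt continuous_const continuous_norm).inter
      (isOpen_lt continuous_norm continuous_const)).measurableSet.prod MeasurableSet.univ
  have hKm : MeasurableSet (K ×ˢ (univ : Set (S d))) := hKc.measurableSet.prod MeasurableSet.univ
  have hw := I3_wt c
  rw [← hI g hg (HasCompactSupport.intro (isCompact_closedBall y r)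
    fun z hz => hg0 z fun h => hz (ball_subset_closedBall h)),
    I3_int c V (g := fun x => g (pr x)) (hg.comp hcp), ← integral_indicator hAn, ← integral_indicator hKm]
  have hab : ∀ ν : S d, |ht (ν : R d)| ≤ 1 := fun ν => by
    rw [← sq_le_one_iff_abs_le_one]; exact I7b_ht_le ν
  have i1 : Integrable ((An (d := d) 16⁻¹ 16 ×ˢ (univ : Set (S d))).indicator fun p =>
      g (pr p.1) * wt χ α (EuclideanSpace.single (Fin.last d) 1) p) V := by
    refine I7b_int hfin (C := 1) (Measurable.indicator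
      (((hg.comp hcp).comp continuous_fst).mul hw.1).measurable hAn) (fun p => ?_) fun p hp => ?_
    · rw [← Real.norm_eq_abs]
      refine (norm_indicator_le_norm_self _ _).trans ?_
      rw [Real.norm_of_nonneg (mul_nonneg (hg1 _).1 (hw.2 p).1)]
      exact mul_le_one₀ (hg1 _).2 (hw.2 p).1 (hw.2 p).2
    · exact indicator_of_notMem (fun h => hp ⟨h.1.1.le, h.1.2.le⟩) _
  have i2 : Integrable ((K ×ˢ (univ : Set (S d))).indicator fun p =>
      g (pr p.1) * |ht (p.2 : R d)|) V := by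
    refine I7b_int hfin (C := 1) (Measurable.indicator (Continuous.measurable (by fun_prop)) hKm)
      (fun p => ?_) fun p hp => ?_
    · rw [← Real.norm_eq_abs]
      refine (norm_indicator_le_norm_self _ _).trans ?_
      rw [Real.norm_of_nonneg (mul_nonneg (hg1 _).1 (abs_nonneg _))]
      exact mul_le_one₀ (hg1 _).2 (abs_nonneg _) (hab _)
    · exact indicator_of_notMem (fun h => hp (hKK h.1)) _
  have i3 : Integrable (I7b_Xi χ α κ r y) V :=
    I7b_int hfin (I7b_Xi_cont c).measurable (C := 2 / κ + 1)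
      (fun p => by rw [abs_of_nonneg (I7b_Xi_bd c p).1]; exact (I7b_Xi_bd c p).2)
      (I7b_Xi_supp c hr hr' hy)
  rw [← integral_sub i1 i2, ← Real.norm_eq_abs]
  refine norm_integral_le_of_norm_le i3 ?_
  filter_upwards [hA.nu_eq hU hs, ae_of_ae_map measurable_fst.aemeasurable (S0_ae V.fst)]
    with p hp1 hp2
  rw [Real.norm_eq_abs]
  by_cases hb : pr p.1 ∈ ball y r
  swap
  · have h0 := hg0 _ hb
    have := (I7b_Xi_bd (r := r) (y := y) c p).1
    simpa only [indicator, mem_prod, mem_univ, and_true, h0, zero_mul, ite_self, sub_self, abs_zero, ge_iff_le] using this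
  have hl := hlow _ (ball_subset_closedBall hb)
  have hξ : I7b_cl (2 - ‖pr p.1 - y‖ / r) = 1 := by
    refine I7b_cl_one ?_
    have : ‖pr p.1 - y‖ / r ≤ 1 := (div_le_one hr).mpr (mem_ball_iff_norm.mp hb).le
    linarith only [this]
  have hκ := c.κpos
  have hκ' := c.κle
  have h1 := I7b_ht_le p.2
  have hχ := c.χ01 p.1
  have hα := c.α01 (ht (p.2 : R d) ^ 2)
  have hgp := hg1 (pr p.1)
  have a1 : 0 ≤ 2 / κ * (1 - ht (p.2 : R d) ^ 2) := mul_nonneg (by positivity) (by linarith only [h1])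
  have a2 : 0 ≤ χ p.1 * α (ht (p.2 : R d) ^ 2) := mul_nonneg hχ.1 hα.1
  unfold I7b_Xi
  rw [hξ, one_mul]
  by_cases h2 : ‖p.1‖ ≤ 2
  · have hm : p ∈ An (d := d) 16⁻¹ 16 ×ˢ (univ : Set (S d)) := ⟨⟨by linarith only [hl], by linarith only [hr, hr', h2]⟩, trivial⟩
    have hP : P p.1 (Fin.last d) (Fin.last d) = ht (p.2 : R d) ^ 2 := by
      rw [hp1 (hK ⟨by linarith only [hl], by linarith only [hr, hr', h2]⟩), sq]; rfl
    rw [indicator_of_mem hm, I7b_cl_one (t := 3 - ‖p.1‖) (by linarith only [h2]), mul_one]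
    refine le_trans ?_ (le_add_of_nonneg_right (mul_nonneg a2 (I7b_cl_nn _)))
    simp only [wt, I7b_inner, c.χone p.1 (by linarith only [hr, hr', h2]), one_mul]
    by_cases h3 : 3 / 4 ≤ ht (p.2 : R d) ^ 2
    · have hm' : p ∈ K ×ˢ (univ : Set (S d)) :=
        ⟨⟨hp2, mem_closedBall_zero_iff.mpr h2, ball_subset_closedBall hb, h3.trans hP.ge⟩, trivial⟩
      rw [indicator_of_mem hm', ← mul_sub, abs_mul, abs_of_nonneg hgp.1]
      exact (mul_le_of_le_one_left (abs_nonneg _) hgp.2).trans (I7b_pt c h1)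
    · have hm' : p ∉ K ×ˢ (univ : Set (S d)) := fun h => h3 (le_trans h.1.2.2.2 hP.le)
      rw [indicator_of_notMem hm', c.αzero _ (by linarith only [hκ', h3])]
      simpa only [zero_mul, mul_zero, sub_self, abs_zero, ge_iff_le] using a1
  · have hm' : p ∉ K ×ˢ (univ : Set (S d)) := fun h => h2 (mem_closedBall_zero_iff.mp h.1.2.1)
    rw [indicator_of_notMem hm', sub_zero, I7b_cl_one (t := 2 * ‖p.1‖ - 3) (by linarith only [h2]), mul_one]
    refine le_trans ?_ (le_add_of_nonneg_left (mul_nonneg a1 (I7b_cl_nn _)))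
    rw [← Real.norm_eq_abs]
    refine (norm_indicator_le_norm_self _ _).trans ?_
    rw [Real.norm_of_nonneg (mul_nonneg (hg1 _).1 (hw.2 p).1)]
    refine (mul_le_of_le_one_left (hw.2 p).1 hgp.2).trans ?_
    simp only [wt, I7b_inner]
    exact mul_le_of_le_one_right a2 (by linarith only [h1])

end

section
variable {χ : R d → ℝ} {α : ℝ → ℝ} {κ : ℝ} {W : Vf d}

/-- `‖y‖ = 1`.  `K q = support ∩ closedBall 0 2 ∩ pr ⁻¹' closedBall y r ∩ {3/4 ≤ P last last}` (compact), `I6_area`.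
For `0 ≤ g ≤ 1` supported in `ball y r`:
`|∫ g (pr x) ∂capM (vf q) - ∫ over K q of g |ht ν|| ≤ ∫ Ξ ∂(vf q) → ∫ Ξ ∂W = 0` with
`Ξ (x,ν) = ξ (pr x) * ((2/κ) (1 - ht ν^2) clamp (3 - ‖x‖) + χ x * α (ht ν^2) * clamp (2 ‖x‖ - 3))`, `ξ = 1` on
`ball y r`, `0` off `ball y (2 r)`; `I1_test`, `I5_av`, `I6_nat`; `ℕ` is closed in `ℝ`. -/
theorem I7_nat (h2 : 2 ≤ d) (k : Ker d) (A : Apx W)
    (c : Cap χ α (EuclideanSpace.single (Fin.last d) 1) κ)
    (hν : ∀ᵐ p ∂W, p.1 ∈ An (1 / 4) 4 → ht (p.2 : R d) ^ 2 = 1) {r Θ : ℝ} (hr : 0 < r)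
    (hr' : r ≤ 1 / 200) (hΘ : 0 ≤ Θ) (h : ∀ y : E d, 1 / 7 < ‖y‖ → ‖y‖ < 5 →
      k.av r (capM χ α (EuclideanSpace.single (Fin.last d) 1) W) y = Θ) : ∃ N : ℕ, Θ = N := by
  obtain ⟨y, hy⟩ : ∃ y : E d, ‖y‖ = 1 := ⟨EuclideanSpace.single ⟨0, by omega⟩ 1, by simp⟩
  have hD : closedBall y (2 * r) ⊆ D6 d := fun z hz => by
    have := I7b_norm hy (mem_closedBall_iff_norm.mp hz)
    exact ⟨by linarith only [this.1, hr'], by linarith only [this.2, hr, hr']⟩
  obtain ⟨C, -, hT⟩ := I1_test k hr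
  obtain ⟨m, hm, hm0⟩ := I4_flat A c
  have hav := I5_av k A c hr ((closedBall_subset_closedBall (by linarith only [hr])).trans hD)
  rw [h y (by linarith) (by linarith)] at hav
  have hX := A.conv _ (I7b_Xi_cont (r := r) (y := y) c) ⟨Kc d, I7b_Kc, fun x hx =>
    ⟨by linarith only [hx.1], by linarith [hx.2]⟩, I7b_Xi_supp c hr hr' hy⟩
  rw [I7b_Xi_zero c hr hr' hy A.con hν] at hX
  set v := (volume : Measure (E d)).real (ball y r) with hv
  have hv0 : 0 < v :=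
    ENNReal.toReal_pos (measure_ball_pos volume y hr).ne' measure_ball_lt_top.ne
  have hη := (hX.add (hm0.const_mul C)).add ((hav.sub_const Θ).abs.mul_const v)
  simp only [sub_self, abs_zero, zero_mul, mul_zero, add_zero] at hη
  have hcl : Θ ∈ closure (range ((↑) : ℕ → ℝ)) := by
    refine Metric.mem_closure_iff.mpr fun ε hε => ?_
    obtain ⟨q, hq, hq1, hq2⟩ := (A.ev.and (hm.and
      (hη.eventually (gt_mem_nhds (show (0 : ℝ) < ε * v / 4 by positivity))))).exists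
    obtain ⟨hO, hS, hU, hK, hUO, hA, hs, -⟩ := hq
    obtain ⟨N, M, hN, hM, hI⟩ := I7b_area c hr hr' hy hO hS hU hK hUO hA hs
    obtain ⟨n, hn⟩ := I6_nat (y := y) (r := r) hN hM hΘ (η := ε * v / 4) fun g hg hg1 hg0 => by
      have h1 := hI g hg hg1 hg0
      have hg2 : ∀ z, |g z| ≤ 1 := fun z => by rw [abs_of_nonneg (hg1 z).1]; exact (hg1 z).2
      have h2 := hT _ _ _ y g hq1 hD hg hg2 hg0
      have h3 : |∫ z, g z| ≤ v := by
        rw [← setIntegral_eq_integral_of_forall_compl_eq_zero hg0]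
        have := norm_setIntegral_le_of_norm_le_const (μ := volume) (f := g) (C := 1)
          (measure_ball_lt_top (x := y) (r := r)) fun z _ => hg2 z
        rwa [one_mul] at this
      refine le_trans ?_ hq2.le
      have h4 := mul_le_mul_of_nonneg_left h3 (abs_nonneg
        (k.av r (capM χ α (EuclideanSpace.single (Fin.last d) 1) (vf q.1 q.2)) y - Θ))
      rw [← abs_mul, sub_mul] at h4
      rw [abs_le] at h1 h2 h4 ⊢
      constructor <;> linarith only [h1.1, h1.2, h2.1, h2.2, h4.1, h4.2]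
    refine ⟨n, ⟨n, rfl⟩, ?_⟩
    rw [Real.dist_eq]
    refine lt_of_mul_lt_mul_right (hn.trans_lt ?_) hv0.le
    have := mul_pos hε hv0
    linarith only [this]
  obtain ⟨N, hN⟩ := Nat.isClosedEmbedding_coe_real.isClosed_range.closure_subset hcl
  exact ⟨N, hN.symm⟩

end

end Pool.Agent.MP_5cfeaf_gt.W

end

section

/-! Block I, file 8: the cone theorem. -/

set_option autoImplicit false

open MeasureTheory Set Filter Topology Metric
open scoped ENNReal symmDiff Classical InnerProductSpace ContDiff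

namespace Pool.Agent.MP_5cfeaf_gt.W

variable {d : ℕ}

theorem I8_plane (h2 : 2 ≤ d) {W : Vf d} (A : Apx W)
    (hν : ∀ᵐ p ∂W, p.1 ∈ An (1 / 4) 4 → ht (p.2 : R d) ^ 2 = 1) : ∃ N : ℕ,
      W.fst.restrict (An (1 / 2) 2) =
        (N : ℝ≥0∞) • (pl (LinearIsometryEquiv.refl ℝ (R d))).restrict (An (1 / 2) 2) := by
  obtain ⟨k⟩ := I0_ker (m := d) (by omega)
  obtain ⟨χ, α, c⟩ := I3_exists (e := (EuclideanSpace.single (Fin.last d) 1 : R d)) (κ := 1 / 100)
    (by norm_num) le_rfl (by simp) (by simp [ht]) (by norm_num [ht])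
  obtain ⟨Θ, hΘ, h⟩ := I5_const h2 k A c (r := 1 / 200) (by norm_num) le_rfl
  obtain ⟨N, rfl⟩ := I7_nat h2 k A c hν (by norm_num) le_rfl hΘ h
  exact ⟨N, by rw [I7_id k A c hν (by norm_num) le_rfl hΘ h, ENNReal.ofReal_natCast]⟩

theorem I8_An (Q : R d ≃ₗᵢ[ℝ] R d) (a b : ℝ) (x : R d) : Q x ∈ An a b ↔ x ∈ An a b := by
  simp only [An, mem_ofPred_eq, Q.norm_map]

theorem I8_dir (h2 : 2 ≤ d) {W : Vf d} (H : ∀ Q : R d ≃ₗᵢ[ℝ] R d, Nonempty (Apx (simV 1 0 Q W)))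
    {p₁ p₂ : R d × S d} (hp₁ : p₁ ∈ W.support) (hp₂ : p₂ ∈ W.support) (ha₁ : p₁.1 ∈ An (1 / 4) 4)
    (ha₂ : p₂.1 ∈ An (1 / 4) 4) : ⟪(p₁.2 : R d), (p₂.2 : R d)⟫_ℝ ^ 2 = 1 := by
  have n₁ : ‖(p₁.2 : R d)‖ = 1 := norm_eq_of_mem_sphere p₁.2
  have n₂ : ‖(p₂.2 : R d)‖ = 1 := norm_eq_of_mem_sphere p₂.2
  obtain ⟨e, he, hc⟩ : ∃ e : R d, ((p₂.2 : R d) = e ∨ (p₂.2 : R d) = -e) ∧ 0 ≤ ⟪(p₁.2 : R d), e⟫_ℝ := by
    rcases le_total 0 ⟪(p₁.2 : R d), (p₂.2 : R d)⟫_ℝ with h | h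
    · exact ⟨_, Or.inl rfl, h⟩
    · exact ⟨-(p₂.2 : R d), Or.inr (neg_neg _).symm, by rw [inner_neg_right]; linarith only [h]⟩
  have n₃ : ‖e‖ = 1 := by
    rcases he with h | h
    · rw [← h, n₂]
    · rw [← norm_neg, ← h, n₂]
  have hv : ‖(p₁.2 : R d) + e‖ ^ 2 = 2 * (1 + ⟪(p₁.2 : R d), e⟫_ℝ) := by
    rw [norm_add_sq_real, n₁, n₃]
    ring
  have hv0 : 0 < ‖(p₁.2 : R d) + e‖ := by
    refine (norm_nonneg _).lt_of_ne fun h => ?_
    rw [← h] at hv
    linarith only [hc, hv]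
  obtain ⟨Q, hQ⟩ := exists_rot (‖(p₁.2 : R d) + e‖⁻¹ • ((p₁.2 : R d) + e))
    (by rw [norm_smul, norm_inv, norm_norm, inv_mul_cancel₀ hv0.ne'])
  obtain ⟨A⟩ := H Q
  have e₁ : ht (Q p₁.2) = ‖(p₁.2 : R d) + e‖⁻¹ * (1 + ⟪(p₁.2 : R d), e⟫_ℝ) := by
    rw [hQ, real_inner_smul_left, inner_add_left, real_inner_self_eq_norm_sq, n₁, real_inner_comm, one_pow]
  have e₂ : ht (Q e) = ‖(p₁.2 : R d) + e‖⁻¹ * (1 + ⟪(p₁.2 : R d), e⟫_ℝ) := by
    rw [hQ, real_inner_smul_left, inner_add_left, real_inner_self_eq_norm_sq, n₃, one_pow, add_comm _ (1 : ℝ)]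
  have h := I5_dir h2 A (e₁ := Q p₁.2) (e₂ := Q e) (I4_rot_supp Q hp₁) (I4_rot_supp Q hp₂)
    ((I8_An Q _ _ _).2 ha₁) ((I8_An Q _ _ _).2 ha₂) (Or.inl rfl)
    (he.imp (fun h => congrArg Q h) fun h => (congrArg Q h).trans (map_neg Q e)) (e₁.trans e₂.symm)
    (by rw [e₁]; positivity) (by
      rw [e₁, mul_pow, inv_pow, hv, le_inv_mul_iff₀ (by positivity)]
      nlinarith only [hc])
  have h' : (p₁.2 : R d) = e := Q.injective h
  rcases he with h | h
  · rw [h, ← h', real_inner_self_eq_norm_sq, n₁]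
    norm_num
  · rw [h, ← h', inner_neg_right, real_inner_self_eq_norm_sq, n₁]
    norm_num

/-- a conical limit of smooth stable boundaries is an integer multiple of a plane -/
theorem ks_cone (h2 : 2 ≤ d) (h6 : d ≤ 6) : ∃ ρ : ℝ, 2 ≤ ρ ∧ ∀ W : Vf d, KS (An ρ⁻¹ ρ) W →
    Con W (An ρ⁻¹ ρ) ⊥ → ∃ (Q : R d ≃ₗᵢ[ℝ] R d) (N : ℕ),
      W.fst.restrict (An (1 / 2) 2) = (N : ℝ≥0∞) • (pl Q).restrict (An (1 / 2) 2) := by
  obtain ⟨ρ, hρ, H⟩ := I4_apx h2 h6
  refine ⟨ρ, by linarith only [hρ], fun W hW hc => ?_⟩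
  have H' : ∀ Q : R d ≃ₗᵢ[ℝ] R d, Nonempty (Apx (simV 1 0 Q W)) := fun Q =>
    H _ (I4_rot hW Q) (I4_rot_con hc Q)
  have hA : ∀ a b : ℝ, MeasurableSet (An a b : Set (R d)) := fun a b =>
    ((isOpen_lt continuous_const continuous_norm).inter
      (isOpen_lt continuous_norm continuous_const)).measurableSet
  obtain ⟨n, hn, h⟩ : ∃ n : R d, ‖n‖ = 1 ∧
      ∀ p ∈ W.support, p.1 ∈ An (1 / 4) 4 → ⟪n, (p.2 : R d)⟫_ℝ ^ 2 = 1 := by
    by_cases h : ∃ p ∈ W.support, p.1 ∈ An (1 / 4) 4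
    · obtain ⟨p, hp, ha⟩ := h
      exact ⟨p.2, norm_eq_of_mem_sphere p.2, fun q hq hb => I8_dir h2 H' hp hq ha hb⟩
    · exact ⟨(default : S d), norm_eq_of_mem_sphere _, fun q hq hb => (h ⟨q, hq, hb⟩).elim⟩
  obtain ⟨Q, hQ⟩ := exists_rot n hn
  obtain ⟨A⟩ := H' Q
  have hm : Measurable fun p : R d × S d => (Q p.1, (⟨Q p.2, by simp only [mem_sphere_iff_norm, sub_zero, norm_map, norm_eq_of_mem_sphere]⟩ : S d)) :=
    Continuous.measurable (by fun_prop)
  have hht : Continuous fun p : R d × S d => ht (p.2 : R d) ^ 2 := by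
    unfold ht
    fun_prop
  obtain ⟨N, hN⟩ := I8_plane h2 A (by
    rw [I4_rot_eq]
    refine (ae_map_iff hm.aemeasurable
      ((measurable_fst (hA _ _)).imp (hht.measurable (measurableSet_singleton 1)))).2 ?_
    filter_upwards [Measure.support_mem_ae (μ := W)] with p hp ha
    exact (congrArg (· ^ 2) (hQ p.2)).trans (h p hp ((I8_An Q _ _ _).1 ha)))
  have hs : Measurable (Q.symm : R d → R d) := Q.symm.continuous.measurable
  have hmk : Measurable fun y : E d => mk y 0 := by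
    obtain ⟨L, hL⟩ := exists_mkL d
    simp only [← hL]
    fun_prop
  have e₁ : W.fst = (simV 1 0 Q W).fst.map Q.symm := by
    rw [I4_rot_eq, Measure.fst, Measure.fst, Measure.map_map measurable_fst hm,
      Measure.map_map hs (measurable_fst.comp hm)]
    congr 1
    exact funext fun p => (Q.symm_apply_apply p.1).symm
  have e₂ : pl Q.symm = (pl (LinearIsometryEquiv.refl ℝ (R d))).map Q.symm :=
    (Measure.map_map hs hmk).symm
  have e₃ : (Q.symm : R d → R d) ⁻¹' An (1 / 2) 2 = An (1 / 2) 2 := Set.ext fun x => I8_An Q.symm _ _ x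
  refine ⟨Q.symm, N, ?_⟩
  rw [e₁, e₂, Measure.restrict_map hs (hA _ _), Measure.restrict_map hs (hA _ _), e₃, hN,
    Measure.map_smul]

end Pool.Agent.MP_5cfeaf_gt.W

end
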