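import Pool.Agent.MP_5cfeaf_gt.SwA
import Pool.Agent.MP_5cfeaf_gt.PerB

attribute [-instance] AddQuantale.instAddLeftMono IdemSemiring.toCanonicallyOrderedAdd
  RKHS.instFunLike Quantale.instMulRightMono NumberField.to_charZero AddQuantale.instAddRightMono
  AddCommGroupWithOne.toAddGroupWithOne instNonemptyOfMonad littleWedderburn
  IdemSemiring.toMulLeftMono instZeroLEOneClass TotallySeparatedSpace.t2Space CommRing.toRing
  Valued.toUniformSpace instCoeTOfCoeDep CommMonTypeEquivalenceCommMon.commMonCommMonoid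
  Field.toDivisionRing IdemSemiring.toSemiring Unique.fintype Quantale.instMulLeftMono
  Group.IsPerfect.subsingleton_of_isMulCommutative SeminormedRing.toRing
  MeasureTheory.Measure.instRegularOfIsAddHaarMeasureOfCompactSpace
  NonUnitalNonAssocSemiring.toMulZeroClass NormedRing.toRing CStarAlgebra.instOrderClosedTopology
  NeZero.of_gt' instCoeHTCOfCoeHeadOfCoeOTC Fintype.decidableExistsFintype IsEmpty.instSubsingleton
  DiscreteUniformity.instDiscreteTopology MeasureTheory.instSFiniteOfCountable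
  FloorSemiring.instZeroLEOneClass IsOrderedCancelMonoid.toIsOrderedMonoid EuclideanDomain.toCommRing
  LinearOrder.toDecidableEq instCoeTCOfCoe FirstOrder.Language.instDecidableEqRelations
  CompactSpace.sigmaCompact NonarchimedeanAddGroup.toIsTopologicalAddGroup
  FirstOrder.Language.instDecidableEqFunctions AlexandrovDiscrete.toLocallyCompactSpace
  TestFunctionClass.toDFunLike Fintype.decidableForallFintype CanonicallyOrderedMul.toMulLeftMono
  MulZeroOneClass.toMulZeroClass ContDiffMapSupportedInClass.toDFunLike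
  instSeparatelyContinuousMulOfContinuousMul

section

/-! Block C, interpolation: definitions (grids, sweeping regions, pasted sets). -/

set_option autoImplicit false

open MeasureTheory Set Filter Topology Metric
open scoped ENNReal symmDiff Classical InnerProductSpace ContDiff

namespace Pool.Agent.MP_5cfeaf_gt.W

variable {d : ℕ}

/-- index of the cell of mesh `ρ` and shift `a` containing `y` -/
noncomputable def cix (a ρ : ℝ) (y : R d) : Fin (d + 1) → ℤ := fun i => ⌊(y i - a) / ρ⌋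

/-- the walls of the cells -/
def grid (a ρ : ℝ) : Set (R d) := {y | ∃ i, ∃ m : ℤ, y i = a + ρ * m}

/-- neighbourhood of the walls -/
def gridN (a ρ h : ℝ) : Set (R d) := {y | ∃ i, ∃ m : ℤ, |y i - (a + ρ * m)| < h}

/-- closed box, thin in direction `i` -/
def tbox (p : R d) (i : Fin (d + 1)) (r w : ℝ) : Set (R d) :=
  {y | (∀ j, |y j - p j| ≤ r) ∧ |y i - p i| ≤ w}

/-- open cube -/
def cube (p : R d) (r : ℝ) : Set (R d) := {y | ∀ j, |y j - p j| < r}

/-- region swept at time `τ` when cell `κ` is swept during `[t κ, t κ + 1]` -/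
def Zs (a ρ : ℝ) (t : (Fin (d + 1) → ℤ) → ℕ) (τ : ℝ) : Set (R d) :=
  {y | (t (cix a ρ y) : ℝ) + Int.fract ((y 0 - a) / ρ) < τ}

/-- cells with label at most `n`, and the walls -/
def Zp (a ρ : ℝ) (lab : (Fin (d + 1) → ℤ) → ℕ) (n : ℕ) : Set (R d) :=
  {y | lab (cix a ρ y) ≤ n} ∪ grid a ρ

/-- cells with label at least `n`, and the walls -/
def Zm (a ρ : ℝ) (lab : (Fin (d + 1) → ℤ) → ℕ) (n : ℕ) : Set (R d) :=
  {y | n ≤ lab (cix a ρ y)} ∪ grid a ρ

/-- different cells near the ball get different times -/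
def InjB (a ρ : ℝ) (t : (Fin (d + 1) → ℤ) → ℕ) : Prop :=
  ∀ y ∈ ball (0 : R d) 2, ∀ z ∈ ball (0 : R d) 2, t (cix a ρ y) = t (cix a ρ z) → cix a ρ y = cix a ρ z

/-- error term of the region paste lemma -/
noncomputable def perr (D Z : Set (R d)) : ℝ≥0∞ :=
  liminf (fun h : ℝ => volume (D ∩ cthickening h (frontier Z)) / ENNReal.ofReal h) (𝓝[>] 0)

/-- the same for the walls -/
noncomputable def gerr (D : Set (R d)) (a ρ : ℝ) : ℝ≥0∞ :=
  liminf (fun h : ℝ => volume (D ∩ gridN a ρ (2 * h)) / ENNReal.ofReal h) (𝓝[>] 0)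

section
variable {α : Type}

/-- upper measure of a chain of pastings -/
noncomputable def nuC (μ : α → Measure (R d)) (P Q : Vx α → ℕ → Set (R d)) (u : α) :
    List (Vx α × ℕ) → Measure (R d)
  | [] => μ u
  | p :: c => (μ p.1.1).restrict (P p.1 p.2) + (nuC μ P Q u c).restrict (Q p.1 p.2)

/-- iterated pasting -/
def pasteL (H : α → Set (R d)) (Z : Vx α → Set (R d)) (u : α) : List (Vx α) → Set (R d)
  | [] => H u
  | v :: l => (H v.1 ∩ Z v) ∪ (pasteL H Z u l \ Z v)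

/-- the set given by the longest active vertex -/
def Gset (H : α → Set (R d)) (Z : Vx α → Set (R d)) : Set (R d) :=
  {y | ∃ v, y ∈ Z v ∧ y ∈ H v.1 ∧ ∀ w, y ∈ Z w → w.l.length ≤ v.l.length}

/-- `w` is a proper face of `v` -/
def Below (v w : Vx α) : Prop := w.l.Sublist v.l ∧ w.l.length < v.l.length

/-- where the sets attached to the entries of `v` differ from the set of its head -/
def Dv (H : α → Set (R d)) (v : Vx α) : Set (R d) := {y | y ∈ B d ∧ ∃ u ∈ v.l, y ∈ H v.1 ∆ H u}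

/-- the measure attached to an entry -/
noncomputable def muH (H : α → Set (R d)) (u : α) : Measure (R d) := (pm (H u)).restrict (B d)

/-- good shift and labels `b` for the vertex `v`, given the data `D` of the other vertices -/
def GoodV (H : α → Set (R d)) (k M : ℕ) (ρ e₁ e₂ : ℝ)
    (D : Vx α → ℝ × ((Fin (d + 1) → ℤ) → ℕ)) (v : Vx α) (b : ℝ × ((Fin (d + 1) → ℤ) → ℕ)) : Prop :=
  (∀ u ∈ v.l, muH H u (grid b.1 ρ) = 0) ∧ gerr (Dv H v) b.1 ρ ≤ ENNReal.ofReal e₁ ∧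
  ∀ u ∈ v.l, ∀ c : List (Vx α × ℕ), c.length ≤ k + 1 → (∀ p ∈ c, Below v p.1 ∧ p.2 ≤ M) → ∀ i : ℕ,
    nuC (muH H) (fun w n => Zp (D w).1 ρ (D w).2 n) (fun w n => Zm (D w).1 ρ (D w).2 n) u c
        {y | b.2 (cix b.1 ρ y) = i} ≤
      nuC (muH H) (fun w n => Zp (D w).1 ρ (D w).2 n) (fun w n => Zm (D w).1 ρ (D w).2 n) u c univ / M +
        ENNReal.ofReal e₂

/-- admissible vertex -/
def Adm (k : ℕ) (A : α → Prop) (Rl : α → α → Prop) (v : Vx α) : Prop :=
  v.l.length ≤ k + 1 ∧ (∀ a ∈ v.l, A a) ∧ ∀ a ∈ v.l, ∀ b ∈ v.l, Rl a b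

end

end Pool.Agent.MP_5cfeaf_gt.W

end

section

/-! Block C, interpolation: geometry of grids. -/

set_option autoImplicit false

open MeasureTheory Set Filter Topology Metric
open scoped ENNReal symmDiff Classical InnerProductSpace ContDiff

namespace Pool.Agent.MP_5cfeaf_gt.W

variable {d : ℕ}

theorem CI1_cont (i : Fin (d + 1)) : Continuous fun y : R d => (y i : ℝ) := by fun_prop

theorem CI1_sub {f : R d → ℝ} (hf : Continuous f) (c : ℝ) : Continuous fun y => f y - c :=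
  hf.sub continuous_const

theorem CI1_cont' (a ρ : ℝ) (i : Fin (d + 1)) : Continuous fun y : R d => (y i - a) / ρ :=
  (CI1_sub (CI1_cont i) a).div_const ρ

theorem measurable_cix (a ρ : ℝ) : Measurable (cix (d := d) a ρ) := by
  refine measurable_pi_lambda _ fun i => ?_
  exact Int.measurable_floor.comp (CI1_cont' a ρ i).measurable

theorem measurableSet_grid (a ρ : ℝ) : MeasurableSet (grid (d := d) a ρ) := by
  have : grid (d := d) a ρ = ⋃ i, ⋃ m : ℤ, {y : R d | y i = a + ρ * m} := by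
    ext y; simp only [grid, mem_ofPred_eq, mem_iUnion]
  rw [this]
  exact MeasurableSet.iUnion fun i => MeasurableSet.iUnion fun m =>
    (isClosed_eq (CI1_cont i) continuous_const).measurableSet

theorem CI1_meas (a ρ : ℝ) (t : (Fin (d + 1) → ℤ) → ℕ) :
    Measurable fun y : R d => t (cix a ρ y) :=
  (measurable_of_countable t).comp (measurable_cix a ρ)

theorem measurableSet_Zs (a ρ : ℝ) (t : (Fin (d + 1) → ℤ) → ℕ) (τ : ℝ) : MeasurableSet (Zs a ρ t τ) := by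
  refine measurableSet_lt (Measurable.add ?_ ?_) measurable_const
  · exact (measurable_of_countable (fun n : ℕ => (n : ℝ))).comp (CI1_meas a ρ t)
  · exact measurable_fract.comp (CI1_cont' a ρ 0).measurable

theorem measurableSet_Zp (a ρ : ℝ) (t : (Fin (d + 1) → ℤ) → ℕ) (n : ℕ) : MeasurableSet (Zp a ρ t n) :=
  (measurableSet_le (CI1_meas a ρ t) measurable_const).union (measurableSet_grid a ρ)

theorem measurableSet_Zm (a ρ : ℝ) (t : (Fin (d + 1) → ℤ) → ℕ) (n : ℕ) : MeasurableSet (Zm a ρ t n) :=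
  (measurableSet_le measurable_const (CI1_meas a ρ t)).union (measurableSet_grid a ρ)

theorem isClosed_tbox (p : R d) (i : Fin (d + 1)) (r w : ℝ) : IsClosed (tbox p i r w) := by
  have : tbox p i r w = (⋂ j, {y : R d | |y j - p j| ≤ r}) ∩ {y : R d | |y i - p i| ≤ w} := by
    ext y; simp only [tbox, mem_ofPred_eq, mem_inter_iff, mem_iInter]
  rw [this]
  exact (isClosed_iInter fun j =>
    isClosed_le (CI1_sub (CI1_cont j) _).abs continuous_const).inter
    (isClosed_le (CI1_sub (CI1_cont i) _).abs continuous_const)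

theorem isOpen_cube (p : R d) (r : ℝ) : IsOpen (cube p r) := by
  have : cube p r = ⋂ j, {y : R d | |y j - p j| < r} := by
    ext y; simp only [cube, mem_ofPred_eq, mem_iInter]
  rw [this]
  exact isOpen_iInter_of_finite fun j =>
    isOpen_lt (CI1_sub (CI1_cont j) _).abs continuous_const

theorem CI1_box (p : R d) (s : Fin (d + 1) → ℝ) :
    volume {y : R d | ∀ j, |y j - p j| ≤ s j} = ∏ j, ENNReal.ofReal (2 * s j) := by
  have h1 : {y : R d | ∀ j, |y j - p j| ≤ s j} =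
      (WithLp.ofLp : R d → Fin (d + 1) → ℝ) ⁻¹' Icc (fun j => p j - s j) (fun j => p j + s j) := by
    ext y
    simp only [mem_ofPred_eq, mem_preimage, mem_Icc, Pi.le_def, abs_le, ← forall_and]
    refine forall_congr' fun j => ?_
    constructor <;> rintro ⟨h1, h2⟩ <;> constructor <;> linarith
  rw [h1, (PiLp.volume_preserving_ofLp (Fin (d + 1))).measure_preimage
    measurableSet_Icc.nullMeasurableSet, Real.volume_Icc_pi]
  refine Finset.prod_congr rfl fun j _ => ?_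
  congr 1; ring

/-- product of intervals (`EuclideanSpace.volume_preserving_measurableEquiv` / `PiLp.volume_preserving_toLp`,
`Real.volume_pi_Icc` or `volume_pi_pi`) -/
theorem volume_tbox (p : R d) (i : Fin (d + 1)) {r w : ℝ} (hr : 0 ≤ r) (hw : 0 ≤ w) :
    volume (tbox p i r w) ≤ ENNReal.ofReal ((2 * r) ^ d * (2 * w)) := by
  have hsub : tbox p i r w ⊆ {y : R d | ∀ j, |y j - p j| ≤ (if j = i then w else r)} := by
    intro y hy j
    split_ifs with h
    · rw [h]; exact hy.2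
    · exact hy.1 j
  refine (measure_mono hsub).trans ?_
  rw [CI1_box p fun j => if j = i then w else r, Fin.prod_univ_succAbove _ i]
  simp only [if_true, Fin.succAbove_ne, if_false, Finset.prod_const, Finset.card_univ,
    Fintype.card_fin]
  rw [ENNReal.ofReal_mul (p := (2 * r) ^ d) (by positivity), ENNReal.ofReal_pow (by positivity),
    mul_comm]

theorem volume_cube (p : R d) {r : ℝ} (hr : 0 ≤ r) :
    volume (cube p r) ≤ ENNReal.ofReal ((2 * r) ^ (d + 1)) := by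
  have hsub : cube p r ⊆ {y : R d | ∀ j, |y j - p j| ≤ r} := fun y hy j => (hy j).le
  refine (measure_mono hsub).trans ?_
  rw [CI1_box p fun _ => r]
  simp only [Finset.prod_const, Finset.card_univ, Fintype.card_fin]
  rw [ENNReal.ofReal_pow (by positivity)]

/-- points of the same cell are close -/
theorem cix_close {a ρ : ℝ} (hρ : 0 < ρ) {y z : R d} (h : cix a ρ y = cix a ρ z) (j : Fin (d + 1)) :
    |y j - z j| < ρ := by
  have h1 := Int.abs_sub_lt_one_of_floor_eq_floor (congrFun h j)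
  have h2 : (y j - a) / ρ - (z j - a) / ρ = (y j - z j) / ρ := by ring
  rwa [h2, abs_div, abs_of_pos hρ, div_lt_one hρ] at h1

/-- off the walls the cell index is locally constant -/
theorem cix_eventually {a ρ : ℝ} (hρ : 0 < ρ) {y : R d} (hy : y ∉ grid a ρ) :
    ∀ᶠ z in 𝓝 y, cix a ρ z = cix a ρ y := by
  have key : ∀ i, ∀ᶠ z in 𝓝 y, cix a ρ z i = cix a ρ y i := by
    intro i
    have hc : Continuous fun z : R d => (z i - a) / ρ := CI1_cont' a ρ i
    have hlt : ((⌊(y i - a) / ρ⌋ : ℤ) : ℝ) < (y i - a) / ρ := by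
      refine lt_of_le_of_ne (Int.floor_le _) fun he => hy ⟨i, ⌊(y i - a) / ρ⌋, ?_⟩
      rw [he]; field_simp; ring
    have h1 := hc.continuousAt.eventually (Ioo_mem_nhds hlt (Int.lt_floor_add_one ((y i - a) / ρ)))
    filter_upwards [h1] with z hz
    exact Int.floor_eq_iff.2 ⟨hz.1.le, hz.2⟩
  filter_upwards [eventually_all.2 key] with z hz
  exact funext hz

/-- numbering of the finitely many cells near the ball (indices are bounded by `3 / ρ + 1`) -/
theorem exists_num (d : ℕ) {ρ : ℝ} (hρ : 0 < ρ) : ∃ (N : ℕ) (num : (Fin (d + 1) → ℤ) → ℕ),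
    (∀ κ, num κ < N) ∧ ∀ a ∈ Ico (0 : ℝ) ρ, InjB a ρ num := by
  obtain ⟨K, hK⟩ := exists_int_gt (2 / ρ + 1)
  set F : Finset (Fin (d + 1) → ℤ) := Fintype.piFinset fun _ => Finset.Icc (-K) K with hF
  have hmem : ∀ a ∈ Ico (0 : ℝ) ρ, ∀ y ∈ ball (0 : R d) 2, cix a ρ y ∈ F := by
    intro a ha y hy
    rw [hF, Fintype.mem_piFinset]
    intro i
    have h1 : |y i| < 2 := by
      have := PiLp.norm_apply_le y i
      rw [mem_ball_zero_iff] at hy
      rw [Real.norm_eq_abs] at this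
      linarith only [hy, this]
    rw [abs_lt] at h1
    have h2 : (y i - a) / ρ ≤ 2 / ρ := div_le_div_of_nonneg_right (by linarith only [ha.1, h1]) hρ.le
    have h3 : -(2 / ρ + 1) ≤ (y i - a) / ρ := by
      rw [le_div_iff₀ hρ]
      have : -(2 / ρ + 1) * ρ = -2 - ρ := by field_simp; ring
      linarith only [ha.2, h1, this]
    rw [Finset.mem_Icc]
    constructor
    · refine Int.le_floor.2 ?_
      push_cast; linarith only [hK, h3]
    · refine Int.floor_le_iff.2 ?_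
      linarith only [hK, h2]
  refine ⟨F.card + 1, fun κ => if h : κ ∈ F then (F.equivFin ⟨κ, h⟩ : ℕ) else 0, fun κ => ?_, ?_⟩
  · dsimp only
    split_ifs with h
    · exact (F.equivFin ⟨κ, h⟩).2.trans (Nat.lt_succ_self _)
    · exact Nat.succ_pos _
  · intro a ha y hy z hz h
    simp only [dif_pos (hmem a ha y hy), dif_pos (hmem a ha z hz)] at h
    exact congrArg Subtype.val (F.equivFin.injective (Fin.ext h))

theorem InjB.lab {a ρ : ℝ} {N : ℕ} {num : (Fin (d + 1) → ℤ) → ℕ} (hN : ∀ κ, num κ < N)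
    (h : InjB a ρ num) (lab : (Fin (d + 1) → ℤ) → ℕ) : InjB a ρ fun κ => lab κ * N + num κ := by
  intro y hy z hz he
  refine h y hy z hz ?_
  have h1 := congrArg (· % N) he
  simpa only [Nat.mul_add_mod_self_right, Nat.mod_eq_of_lt (hN _)] using h1

theorem Zs_zero (a ρ : ℝ) (t : (Fin (d + 1) → ℤ) → ℕ) : Zs a ρ t 0 = ∅ := by
  ext y
  simp only [Zs, mem_ofPred_eq, mem_empty_iff_false, iff_false, not_lt]
  exact add_nonneg (Nat.cast_nonneg _) (Int.fract_nonneg _)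

theorem Zs_top (a ρ : ℝ) {t : (Fin (d + 1) → ℤ) → ℕ} {T : ℕ} (h : ∀ κ, t κ < T) : Zs a ρ t T = univ := by
  ext y
  simp only [Zs, mem_ofPred_eq, mem_univ, iff_true]
  have h1 : ((t (cix a ρ y) + 1 : ℕ) : ℝ) ≤ T := by exact_mod_cast h _
  push_cast at h1
  linarith [Int.fract_lt_one ((y 0 - a) / ρ)]

theorem CI1_near {a ρ : ℝ} (hρ : 0 < ρ) {y : R d} (hy : y ∉ grid a ρ) {W : Set (R d)}
    (hW : y ∈ closure W) : ∃ z ∈ W, cix a ρ z = cix a ρ y := by
  obtain ⟨z, hz1, hz2⟩ := mem_closure_iff_nhds.1 hW _ (cix_eventually hρ hy)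
  exact ⟨z, hz2, hz1⟩

theorem closure_Zs {a ρ : ℝ} (hρ : 0 < ρ) {N : ℕ} {num : (Fin (d + 1) → ℤ) → ℕ} (hN : ∀ κ, num κ < N)
    (lab : (Fin (d + 1) → ℤ) → ℕ) {σ : ℝ} (hσ : 0 ≤ σ) :
    closure (Zs a ρ (fun κ => lab κ * N + num κ) (σ * N)) ⊆ Zp a ρ lab ⌊σ⌋₊ ∧
    closure (Zs a ρ (fun κ => lab κ * N + num κ) (σ * N))ᶜ ⊆ Zm a ρ lab ⌊σ⌋₊ := by
  have hN0 : (0 : ℝ) < N := by exact_mod_cast (Nat.zero_le _).trans_lt (hN 0)
  constructor
  · intro y hy
    by_cases hg : y ∈ grid a ρ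
    · exact Or.inr hg
    obtain ⟨z, hz, he⟩ := CI1_near hρ hg hy
    simp only [Zs, mem_ofPred_eq, he] at hz
    push_cast at hz
    refine Or.inl (Nat.le_floor ?_)
    refine (lt_of_mul_lt_mul_right ?_ hN0.le).le
    linarith [Int.fract_nonneg ((z 0 - a) / ρ), (Nat.cast_nonneg (num (cix a ρ y)) : (0 : ℝ) ≤ _)]
  · intro y hy
    by_cases hg : y ∈ grid a ρ
    · exact Or.inr hg
    obtain ⟨z, hz, he⟩ := CI1_near hρ hg hy
    simp only [Zs, mem_compl_iff, mem_ofPred_eq, he, not_lt] at hz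
    push_cast at hz
    refine Or.inl (Nat.lt_succ_iff.1 ((Nat.floor_lt hσ).2 ?_))
    refine lt_of_mul_lt_mul_right ?_ hN0.le
    have h1 : ((num (cix a ρ y) + 1 : ℕ) : ℝ) ≤ N := by exact_mod_cast hN _
    push_cast at h1 ⊢
    linarith [Int.fract_lt_one ((z 0 - a) / ρ)]

theorem CI1_class {a ρ : ℝ} (hρ : 0 < ρ) {t : (Fin (d + 1) → ℤ) → ℕ} (ht : InjB a ρ t)
    {W : Set (R d)} (hW : W ⊆ ball 0 2) {δ : ℝ}
    (hδ : ∀ y ∈ W, ∀ z ∈ W, |((t (cix a ρ y) : ℝ) + Int.fract ((y 0 - a) / ρ)) -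
      ((t (cix a ρ z) : ℝ) + Int.fract ((z 0 - a) / ρ))| ≤ δ) (n : ℤ) :
    ∃ p : R d, ∀ y ∈ W, (t (cix a ρ y) : ℤ) = n → y ∈ tbox p 0 ρ (ρ * δ) := by
  by_cases hex : ∃ p ∈ W, (t (cix a ρ p) : ℤ) = n
  · obtain ⟨p, hp, hpn⟩ := hex
    refine ⟨p, fun y hy hyn => ?_⟩
    have h1 : t (cix a ρ y) = t (cix a ρ p) := by exact_mod_cast hyn.trans hpn.symm
    have h2 := ht y (hW hy) p (hW hp) h1
    refine ⟨fun j => (cix_close hρ h2 j).le, ?_⟩
    have h3 := hδ y hy p hp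
    have h4 : ⌊(y 0 - a) / ρ⌋ = ⌊(p 0 - a) / ρ⌋ := congrFun h2 0
    rw [h1, Int.fract, Int.fract, h4] at h3
    have h5 : (t (cix a ρ p) : ℝ) + ((y 0 - a) / ρ - ⌊(p 0 - a) / ρ⌋) -
        ((t (cix a ρ p) : ℝ) + ((p 0 - a) / ρ - ⌊(p 0 - a) / ρ⌋)) = (y 0 - p 0) / ρ := by ring
    rwa [h5, abs_div, abs_of_pos hρ, div_le_iff₀ hρ, mul_comm] at h3
  · exact ⟨0, fun y hy hyn => absurd ⟨y, hy, hyn⟩ hex⟩

theorem CI1_floor (n : ℕ) (x : ℝ) : ⌊(n : ℝ) + Int.fract x⌋ = n := by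
  rw [Int.floor_eq_iff]
  push_cast
  constructor <;> linarith [Int.fract_nonneg x, Int.fract_lt_one x]

theorem CI1_front {a ρ : ℝ} (hρ : 0 < ρ) {t : (Fin (d + 1) → ℤ) → ℕ} {τ : ℝ} {y : R d}
    (hg : y ∉ grid a ρ) (hy : y ∈ frontier (Zs a ρ t τ)) :
    (t (cix a ρ y) : ℝ) + Int.fract ((y 0 - a) / ρ) = τ := by
  have hc : ContinuousAt (fun z : R d => (t (cix a ρ z) : ℝ) + Int.fract ((z 0 - a) / ρ)) y := by
    have h1 : ∀ (f : R d → ℝ) (b c : ℝ), Continuous f → ContinuousAt (fun z => b + (f z - c)) y :=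
      fun f b c hf => (continuous_const.add (hf.sub continuous_const)).continuousAt
    have h0 := h1 _ (t (cix a ρ y) : ℝ) (cix a ρ y 0 : ℤ) (CI1_cont' a ρ 0)
    refine h0.congr ?_
    filter_upwards [cix_eventually hρ hg] with z hz
    rw [← hz]; rfl
  rcases lt_trichotomy ((t (cix a ρ y) : ℝ) + Int.fract ((y 0 - a) / ρ)) τ with h | h | h
  · exact absurd (mem_interior_iff_mem_nhds.2 (hc.eventually (gt_mem_nhds h))) hy.2
  · exact h
  · obtain ⟨z, hz1, hz2⟩ := mem_closure_iff_nhds.1 hy.1 _ (hc.eventually (lt_mem_nhds h))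
    exact (lt_asymm (show τ < _ from hz1) hz2).elim

/-- off the walls a frontier point `z` has `t (cix z) + fract = τ` (both terms are continuous near `z`),
so all such points lie in one cell and have the same first coordinate; `p` is any one of them -/
theorem frontier_Zs {a ρ : ℝ} (hρ : 0 < ρ) {t : (Fin (d + 1) → ℤ) → ℕ} (ht : InjB a ρ t) (τ : ℝ) :
    ∃ p : R d, frontier (Zs a ρ t τ) ∩ ball 0 2 ⊆ grid a ρ ∪ tbox p 0 ρ 0 := by
  obtain ⟨p, hp⟩ := CI1_class hρ ht (W := (frontier (Zs a ρ t τ) ∩ ball 0 2) \ grid a ρ)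
    (fun y hy => hy.1.2) (δ := 0) (fun y hy z hz => by
      rw [CI1_front hρ hy.2 hy.1.1, CI1_front hρ hz.2 hz.1.1, sub_self, abs_zero]) ⌊τ⌋
  refine ⟨p, fun y hy => ?_⟩
  by_cases hg : y ∈ grid a ρ
  · exact Or.inl hg
  have := hp y ⟨hy, hg⟩ (by rw [← CI1_front hρ hg hy.1, CI1_floor])
  rw [mul_zero] at this
  exact Or.inr this

/-- between two close times at most two cells change (`t (cix y)` is `⌊τ⌋` or `⌊τ⌋ + 1`) -/
theorem symmDiff_Zs {a ρ : ℝ} (hρ : 0 < ρ) {t : (Fin (d + 1) → ℤ) → ℕ} (ht : InjB a ρ t) {τ τ' : ℝ}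
    (h : |τ - τ'| ≤ 1) : ∃ p q : R d, (Zs a ρ t τ ∆ Zs a ρ t τ') ∩ B d ⊆
      tbox p 0 ρ (ρ * |τ - τ'|) ∪ tbox q 0 ρ (ρ * |τ - τ'|) := by
  have hrange : ∀ y ∈ (Zs a ρ t τ ∆ Zs a ρ t τ') ∩ B d,
      min τ τ' ≤ (t (cix a ρ y) : ℝ) + Int.fract ((y 0 - a) / ρ) ∧
      (t (cix a ρ y) : ℝ) + Int.fract ((y 0 - a) / ρ) < min τ τ' + |τ - τ'| := by
    intro y hy
    have hm : max τ τ' = min τ τ' + |τ - τ'| := by
      rw [← max_sub_min_eq_abs' τ τ']; ring
    rw [← hm]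
    rcases Set.mem_symmDiff.1 hy.1 with ⟨h1, h2⟩ | ⟨h1, h2⟩
    · exact ⟨(min_le_right _ _).trans (not_lt.1 h2), lt_of_lt_of_le h1 (le_max_left _ _)⟩
    · exact ⟨(min_le_left _ _).trans (not_lt.1 h2), lt_of_lt_of_le h1 (le_max_right _ _)⟩
  have hW : (Zs a ρ t τ ∆ Zs a ρ t τ') ∩ B d ⊆ ball 0 2 :=
    fun y hy => ball_subset_ball (by norm_num) hy.2
  have hδ : ∀ y ∈ (Zs a ρ t τ ∆ Zs a ρ t τ') ∩ B d, ∀ z ∈ (Zs a ρ t τ ∆ Zs a ρ t τ') ∩ B d,
      |((t (cix a ρ y) : ℝ) + Int.fract ((y 0 - a) / ρ)) -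
        ((t (cix a ρ z) : ℝ) + Int.fract ((z 0 - a) / ρ))| ≤ |τ - τ'| := by
    intro y hy z hz
    have h1 := hrange y hy
    have h2 := hrange z hz
    rw [abs_le]
    constructor <;> linarith only [h1.1, h1.2, h2.1, h2.2]
  obtain ⟨p, hp⟩ := CI1_class hρ ht hW hδ ⌊min τ τ'⌋
  obtain ⟨q, hq⟩ := CI1_class hρ ht hW hδ (⌊min τ τ'⌋ + 1)
  refine ⟨p, q, fun y hy => ?_⟩
  have h1 := hrange y hy
  have h2 : ⌊min τ τ'⌋ ≤ (t (cix a ρ y) : ℤ) := by
    rw [← CI1_floor (t (cix a ρ y)) ((y 0 - a) / ρ)]; exact Int.floor_mono h1.1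
  have h3 : (t (cix a ρ y) : ℤ) ≤ ⌊min τ τ'⌋ + 1 := by
    rw [← CI1_floor (t (cix a ρ y)) ((y 0 - a) / ρ), ← Int.floor_add_one]
    exact Int.floor_mono (by linarith only [h1.2, h])
  rcases eq_or_lt_of_le h2 with h4 | h4
  · exact Or.inl (hp y hy h4.symm)
  · exact Or.inr (hq y hy (by omega))

end Pool.Agent.MP_5cfeaf_gt.W

end

section

/-! Block C, interpolation: good shifts. -/

set_option autoImplicit false

open MeasureTheory Set Filter Topology Metric
open scoped ENNReal symmDiff Classical InnerProductSpace ContDiff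

namespace Pool.Agent.MP_5cfeaf_gt.W

variable {d : ℕ}

theorem CI2a_len {ρ h : ℝ} (hρ : 0 < ρ) (hh : 4 * h ≤ ρ) (y : R d) :
    volume.restrict (Ico (0 : ℝ) ρ) {a | y ∈ gridN a ρ (2 * h)} ≤
      (3 * (d + 1) : ℕ) * ENNReal.ofReal (4 * h) := by
  rw [Measure.restrict_apply' measurableSet_Ico]
  have hs : {a | y ∈ gridN a ρ (2 * h)} ∩ Ico (0 : ℝ) ρ ⊆ ⋃ p : Fin 3 × Fin (d + 1),
      ball (y p.2 - ρ * (⌊y p.2 / ρ⌋ + (p.1 : ℕ) - 1 : ℤ)) (2 * h) := by
    rintro a ⟨⟨i, m, hm⟩, h0, h1⟩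
    have f1 := (le_div_iff₀ hρ).1 (Int.floor_le (y i / ρ))
    have f2 := (div_lt_iff₀ hρ).1 (Int.lt_floor_add_one (y i / ρ))
    obtain ⟨g1, g2⟩ := abs_lt.1 hm
    have k1 : ⌊y i / ρ⌋ - 2 < m := by
      have : ((⌊y i / ρ⌋ : ℝ) - 2) * ρ < m * ρ := by linarith
      exact_mod_cast lt_of_mul_lt_mul_right this hρ.le
    have k2 : m < ⌊y i / ρ⌋ + 2 := by
      have : m * ρ < ((⌊y i / ρ⌋ : ℝ) + 2) * ρ := by linarith only [hh, h0, f2, g1, g2]
      exact_mod_cast lt_of_mul_lt_mul_right this hρ.le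
    refine mem_iUnion.2 ⟨(⟨(m + 1 - ⌊y i / ρ⌋).toNat, by omega⟩, i), ?_⟩
    rw [mem_ball, Real.dist_eq, show (⌊y i / ρ⌋ + ((m + 1 - ⌊y i / ρ⌋).toNat : ℕ) - 1 : ℤ) = m by
      omega, abs_lt]
    constructor <;> linarith only [g2, g1, k1, k2]
  refine (measure_mono hs).trans ((measure_iUnion_fintype_le _ _).trans_eq ?_)
  simp only [Real.volume_ball, Finset.sum_const, Finset.card_univ, Fintype.card_prod,
    Fintype.card_fin, nsmul_eq_mul, ← mul_assoc]
  norm_num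

theorem CI2a_meas (ρ h : ℝ) {D : Set (R d)} (hD : MeasurableSet D) :
    MeasurableSet {p : ℝ × R d | p.2 ∈ D ∩ gridN p.1 ρ h} := by
  refine (measurable_snd hD).inter (IsOpen.measurableSet
    (s := {p : ℝ × R d | ∃ i, ∃ m : ℤ, |p.2 i - (p.1 + ρ * m)| < h}) ?_)
  simp only [ofPred_exists]
  exact isOpen_iUnion fun i => isOpen_iUnion fun m => isOpen_lt (by fun_prop) continuous_const

theorem CI2a_int {ρ h : ℝ} (hρ : 0 < ρ) (h0 : 0 < h) (hh : 4 * h ≤ ρ) {D : Set (R d)}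
    (hD : MeasurableSet D) :
    ∫⁻ a in Ico (0 : ℝ) ρ, volume (D ∩ gridN a ρ (2 * h)) / ENNReal.ofReal h ≤
      ENNReal.ofReal (12 * (d + 1)) * volume D := by
  have hm := CI2a_meas ρ (2 * h) hD
  have h1 : ∫⁻ a in Ico (0 : ℝ) ρ, volume (D ∩ gridN a ρ (2 * h)) ≤
      (3 * (d + 1) : ℕ) * ENNReal.ofReal (4 * h) * volume D := by
    refine ((Measure.prod_apply hm).symm.trans (Measure.prod_apply_symm hm)).trans_le ?_
    rw [← lintegral_indicator_const hD]
    refine lintegral_mono fun y => ?_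
    by_cases hy : y ∈ D
    · rw [indicator_of_mem hy]
      exact (measure_mono fun a ha => ha.2).trans (CI2a_len hρ hh y)
    · exact (measure_mono_null (fun a ha => hy ha.1) measure_empty).trans_le zero_le
  have hp := ENNReal.ofReal_pos.2 h0
  simp only [div_eq_mul_inv]
  rw [lintegral_mul_const' _ _ (ENNReal.inv_ne_top.2 hp.ne'), ← div_eq_mul_inv]
  refine ENNReal.div_le_of_le_mul (h1.trans_eq ?_)
  rw [mul_right_comm _ (volume D), ← ENNReal.ofReal_natCast, ← ENNReal.ofReal_mul (by positivity),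
    ← ENNReal.ofReal_mul (by positivity)]
  congr 2
  push_cast
  ring

/-- Good shift.  For fixed `y`, `i` and `h < ρ / 4` the set of `a ∈ [0, ρ)` with `|y i - (a + ρ m)| < 2 h` for some `m` has
length at most `12 h` (only `m = ⌊y i / ρ⌋ + {-1, 0, 1}` matter).  Tonelli and Fatou along `h n → 0`
(`lintegral_liminf_le`; the liminf along `𝓝[>] 0` is at most the liminf along the sequence) give
`∫ a in Ico 0 ρ, gerr D a ρ ≤ 12 (d+1) η`; Markov: the set of `a` where the bound fails has length at most `ρ / 2`.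
The sets `{y | ∃ m, y i = a + ρ m}`, `a ∈ [0, ρ)`, are level sets of `y ↦ ρ * fract (y i / ρ)`, so only countably many have
positive `m`-measure (`countable_meas_level_set_pos`). -/
theorem exists_shift (d : ℕ) : ∃ C > 0, ∀ (ρ η : ℝ) (D : Set (R d)) (m : Measure (R d)), 0 < ρ → 0 < η →
    MeasurableSet D → volume D ≤ ENNReal.ofReal η → m univ < ⊤ →
    ∃ a ∈ Ico (0 : ℝ) ρ, m (grid a ρ) = 0 ∧ gerr D a ρ ≤ ENNReal.ofReal (C * η / ρ) := by
  refine ⟨12 * (d + 1), by positivity, fun ρ η D m hρ hη hD hv hm => ?_⟩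
  have : IsFiniteMeasure m := ⟨hm⟩
  let u : ℕ → ℝ := fun n => ρ / 4 * (1 / (n + 1))
  have u0 : ∀ n, 0 < u n := fun n => by positivity
  have u1 : ∀ n, 4 * u n ≤ ρ := fun n => by
    have : 1 / ((n : ℝ) + 1) ≤ 1 :=
      (div_le_one (by positivity)).2 (le_add_of_nonneg_left n.cast_nonneg)
    simp only [u]
    nlinarith only [hρ, this]
  have ut : Tendsto u atTop (𝓝[>] 0) := tendsto_nhdsWithin_iff.2
    ⟨mul_zero (ρ / 4) ▸ tendsto_one_div_add_atTop_nhds_zero_nat.const_mul (ρ / 4),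
      Eventually.of_forall u0⟩
  let F : ℕ → ℝ → ℝ≥0∞ := fun n a => volume (D ∩ gridN a ρ (2 * u n)) / ENNReal.ofReal (u n)
  have hF : ∀ n, Measurable (F n) := fun n =>
    (measurable_measure_prodMk_left (CI2a_meas ρ _ hD)).div_const _
  have hN : (⋃ i, {t : ℝ | 0 < m {y | ρ * Int.fract (y i / ρ) = t}}).Countable :=
    countable_iUnion fun i => Measure.countable_meas_level_set_pos (by fun_prop)
  have hI : volume.restrict (Ico (0 : ℝ) ρ) univ = ENNReal.ofReal ρ := by simp only [MeasurableSet.univ, Measure.restrict_apply, univ_inter, Real.volume_Ico, sub_zero]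
  have hp := ENNReal.ofReal_pos.2 hρ
  obtain ⟨a, ha, hb⟩ := exists_notMem_null_le_laverage (μ := volume.restrict (Ico (0 : ℝ) ρ))
    (f := fun a => liminf (fun n => F n a) atTop)
    (Measure.measure_univ_ne_zero.1 (hI ▸ hp.ne')) (Measurable.liminf hF).aemeasurable
    (measure_union_null (s := (Ico (0 : ℝ) ρ)ᶜ)
      (by rw [Measure.restrict_apply measurableSet_Ico.compl, compl_inter_self, measure_empty])
      (hN.measure_zero _))
  rw [mem_union, not_or, notMem_compl_iff, mem_iUnion, not_exists] at ha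
  refine ⟨a, ha.1, ?_, ?_⟩
  · refine measure_mono_null (t := ⋃ i, {y | ρ * Int.fract (y i / ρ) = a}) ?_
      (measure_iUnion_null fun i => nonpos_iff_eq_zero.1 (not_lt.1 (ha.2 i)))
    rintro y ⟨i, k, hk⟩
    refine mem_iUnion.2 ⟨i, ?_⟩
    rw [mem_ofPred_eq, hk, add_div, mul_div_cancel_left₀ _ hρ.ne', Int.fract_add_intCast,
      Int.fract_eq_self.2 ⟨div_nonneg ha.1.1 hρ.le, (div_lt_one hρ).2 ha.1.2⟩,
      mul_div_cancel₀ _ hρ.ne']
  · refine (liminf_le_liminf_of_le ut).trans (hb.trans ?_)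
    rw [laverage_eq, hI, ENNReal.ofReal_div_of_pos hρ, ENNReal.ofReal_mul (by positivity)]
    refine ENNReal.div_le_div_right ((lintegral_liminf_le hF).trans ?_) _
    refine liminf_le_of_frequently_le' (Frequently.of_forall fun n => ?_)
    exact (CI2a_int hρ (u0 n) (u1 n) hD).trans (mul_le_mul_right hv _)

end Pool.Agent.MP_5cfeaf_gt.W

end

section

/-! Block C, interpolation: error terms. -/

set_option autoImplicit false

open MeasureTheory Set Filter Topology Metric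
open scoped ENNReal symmDiff Classical InnerProductSpace ContDiff

namespace Pool.Agent.MP_5cfeaf_gt.W

variable {d : ℕ}

theorem gerr_mono {D D' : Set (R d)} (h : D ⊆ D') (a ρ : ℝ) : gerr D a ρ ≤ gerr D' a ρ :=
  liminf_le_liminf (Eventually.of_forall fun _ =>
    ENNReal.div_le_div_right (measure_mono (inter_subset_inter_left _ h)) _)

theorem perr_mono {D D' : Set (R d)} (h : D ⊆ D') (Z : Set (R d)) : perr D Z ≤ perr D' Z :=
  liminf_le_liminf (Eventually.of_forall fun _ =>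
    ENNReal.div_le_div_right (measure_mono (inter_subset_inter_left _ h)) _)

theorem CI2b_lim {f g : ℝ → ℝ≥0∞} {c : ℝ}
    (H : ∀ᶠ h in 𝓝[>] (0 : ℝ), f h ≤ g h + ENNReal.ofReal (c * h)) :
    liminf (fun h : ℝ => f h / ENNReal.ofReal h) (𝓝[>] 0) ≤
      liminf (fun h : ℝ => g h / ENNReal.ofReal h) (𝓝[>] 0) + ENNReal.ofReal c := by
  rw [← liminf_add_const _ _ _ (by isBoundedDefault) (by isBoundedDefault)]
  refine liminf_le_liminf ?_
  filter_upwards [H, self_mem_nhdsWithin] with h hh h0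
  refine (ENNReal.div_le_div_right hh _).trans_eq ?_
  rw [ENNReal.add_div, ← ENNReal.ofReal_div_of_pos h0, mul_div_cancel_right₀ _ (ne_of_gt h0)]

theorem CI2b_near {F : Set (R d)} {h : ℝ} (h0 : 0 < h) {y : R d} (hy : y ∈ cthickening h F) :
    ∃ z ∈ F, dist y z < 2 * h ∧ ∀ j, |y j - z j| < 2 * h := by
  obtain ⟨z, hz, hd⟩ := mem_thickening_iff.1
    (cthickening_subset_thickening' (δ₂ := 2 * h) (by linarith) (by linarith) F hy)
  exact ⟨z, hz, hd, fun j => (PiLp.dist_apply_le y z j).trans_lt hd⟩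

theorem CI2b_small {ρ : ℝ} (hρ : 0 < ρ) : ∀ᶠ h in 𝓝[>] (0 : ℝ), 0 < h ∧ 2 * h ≤ ρ := by
  filter_upwards [Ioo_mem_nhdsGT (half_pos hρ)] with h hh
  exact ⟨hh.1, by linarith [hh.2]⟩

theorem CI2b_front {a ρ : ℝ} (hρ : 0 < ρ) {t : (Fin (d + 1) → ℤ) → ℕ} (ht : InjB a ρ t) (τ : ℝ) :
    ∃ p : R d, ∀ᶠ h in 𝓝[>] (0 : ℝ), B d ∩ cthickening h (frontier (Zs a ρ t τ)) ⊆
      gridN a ρ (2 * h) ∪ tbox p 0 (2 * ρ) (2 * h) := by
  obtain ⟨p, hp⟩ := frontier_Zs hρ ht τ
  refine ⟨p, ?_⟩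
  filter_upwards [CI2b_small hρ, CI2b_small one_pos] with h hh h1 y hy
  obtain ⟨z, hz, hd, hj⟩ := CI2b_near hh.1 hy.2
  have hz2 : z ∈ ball (0 : R d) 2 := by
    have := dist_triangle_left z 0 y
    have h2 : dist y 0 < 1 := hy.1
    rw [mem_ball]
    linarith [h1.2]
  rcases hp ⟨hz, hz2⟩ with ⟨i, m, h⟩ | ⟨h, h'⟩
  · exact Or.inl ⟨i, m, h ▸ hj i⟩
  · refine Or.inr ⟨fun j => ?_, ?_⟩
    · linarith [abs_sub_le (y j) (z j) (p j), hj j, h j, hh.2]
    · linarith [abs_sub_le (y 0) (z 0) (p 0), hj 0]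

theorem CI2b_fin {D Z : Set (R d)} (q : R d) {r : ℝ} (hr : 0 < r) (s : Finset (Fin (d + 1) × ℝ)) {N : ℕ}
    (hs : s.card ≤ N) (H : ∀ᶠ h in 𝓝[>] (0 : ℝ), ∀ y ∈ D ∩ cthickening h (frontier Z),
      (∀ j, |y j - q j| ≤ r) ∧ ∃ x ∈ s, |y x.1 - x.2| ≤ 2 * h) :
    perr D Z ≤ ENNReal.ofReal (N * 4 * 2 ^ d * r ^ d) := by
  refine (CI2b_lim (g := fun _ => 0) (c := N * 4 * 2 ^ d * r ^ d) ?_).trans_eq (by simp only [ENNReal.zero_div, liminf_const, zero_add])
  filter_upwards [H, CI2b_small hr] with h hh h0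
  have h1 : D ∩ cthickening h (frontier Z) ⊆
      ⋃ x ∈ s, tbox (WithLp.toLp 2 (Function.update q.ofLp x.1 x.2)) x.1 r (2 * h) := by
    intro y hy
    obtain ⟨h1, x, hx, h2⟩ := hh y hy
    refine mem_iUnion₂.2 ⟨x, hx, fun j => ?_, by simpa only [Function.update_self] using h2⟩
    by_cases hj : j = x.1
    · subst hj
      simpa using h2.trans h0.2
    · simpa [hj] using h1 j
  have h2 := h0.1
  calc _ ≤ _ := measure_mono h1
    _ ≤ _ := measure_biUnion_finset_le _ _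
    _ ≤ ∑ _x ∈ s, ENNReal.ofReal ((2 * r) ^ d * (2 * (2 * h))) :=
        Finset.sum_le_sum fun x _ => volume_tbox _ _ hr.le (by positivity)
    _ ≤ N * ENNReal.ofReal ((2 * r) ^ d * (2 * (2 * h))) := by
        rw [Finset.sum_const, nsmul_eq_mul]
        gcongr
    _ = _ := by
        rw [zero_add, ← ENNReal.ofReal_natCast, ← ENNReal.ofReal_mul (Nat.cast_nonneg _), mul_pow]
        congr 1
        ring

/-- For `y ∈ D ⊆ B` in the `h`-thickening of the frontier there is a frontier point `z` with `dist y z < 2 h`, `‖z‖ < 2`;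
`frontier_Zs` puts `y` in `gridN a ρ (2 h)` or in `tbox p 0 (2 ρ) (2 h)` (for `2 h ≤ ρ`, `h < 1 / 2`);
`liminf (f + c) = liminf f + c`. -/
theorem perr_Zs (d : ℕ) : ∃ C > 0, ∀ (a ρ : ℝ) (t : (Fin (d + 1) → ℤ) → ℕ) (τ : ℝ) (D : Set (R d)),
    0 < ρ → InjB a ρ t → D ⊆ B d →
    perr D (Zs a ρ t τ) ≤ gerr D a ρ + ENNReal.ofReal (C * ρ ^ d) := by
  refine ⟨4 * 4 ^ d, by positivity, fun a ρ t τ D hρ ht hD => CI2b_lim ?_⟩
  obtain ⟨p, hp⟩ := CI2b_front hρ ht τ
  filter_upwards [hp, CI2b_small hρ] with h hh h0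
  have h1 : D ∩ cthickening h (frontier (Zs a ρ t τ)) ⊆
      D ∩ gridN a ρ (2 * h) ∪ tbox p 0 (2 * ρ) (2 * h) := fun y hy =>
    (hh ⟨hD hy.1, hy.2⟩).imp_left fun h => ⟨hy.1, h⟩
  have h2 := h0.1
  refine (measure_mono h1).trans ((measure_union_le _ _).trans (add_le_add le_rfl
    ((volume_tbox _ _ (by positivity) (by positivity)).trans_eq ?_)))
  rw [show 2 * (2 * ρ) = 4 * ρ by ring, mul_pow]
  congr 1
  ring

/-- Trivial local bound.  As above, `y ∈ ball q r ∩ B` is within `2 h` of one of the finitely many hyperplanes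
`y i = a + ρ m` (`|m| ≤ 3 / ρ + 1`) or of `y 0 = p 0`; each piece lies in a `tbox` of volume `(2 r)^d (4 h)`
(centre: `q` with the `i`-th coordinate changed; or a point of the piece and sides `2 r`, `4 h`). -/
theorem perr_local (d : ℕ) {ρ : ℝ} (hρ : 0 < ρ) : ∃ C > 0, ∀ a ∈ Ico (0 : ℝ) ρ,
    ∀ (t : (Fin (d + 1) → ℤ) → ℕ) (τ : ℝ) (q : R d) (r : ℝ), InjB a ρ t → 0 < r →
    perr (ball q r ∩ B d) (Zs a ρ t τ) ≤ ENNReal.ofReal (C * r ^ d) := by
  obtain ⟨M, hM⟩ := exists_int_gt (2 / ρ + 1)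
  set s : Finset (Fin (d + 1) × ℤ) := Finset.univ ×ˢ Finset.Icc (-M) M
  refine ⟨(s.card + 1 : ℕ) * 4 * 2 ^ d, by positivity, fun a ha t τ q r ht hr => ?_⟩
  obtain ⟨p, hp⟩ := CI2b_front hρ ht τ
  refine CI2b_fin q hr (insert (0, p 0) (s.image fun x => (x.1, a + ρ * x.2)))
    ((Finset.card_insert_le _ _).trans (Nat.succ_le_succ Finset.card_image_le)) ?_
  filter_upwards [hp, CI2b_small one_pos] with h hh h1 y hy
  refine ⟨fun j => ((PiLp.dist_apply_le y q j).trans_lt hy.1.1).le, ?_⟩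
  rcases hh ⟨hy.1.2, hy.2⟩ with ⟨i, m, h⟩ | h
  · refine ⟨(i, a + ρ * m), Finset.mem_insert_of_mem (Finset.mem_image.2 ⟨(i, m), ?_, rfl⟩), h.le⟩
    have h2 : |y i - (0 : R d) i| < 1 := (PiLp.dist_apply_le y 0 i).trans_lt hy.1.2
    have h3 : 2 + ρ < ρ * M := by
      have := mul_lt_mul_of_pos_left hM hρ
      rwa [mul_add, mul_div_cancel₀ _ hρ.ne', mul_one] at this
    rw [PiLp.zero_apply, sub_zero, abs_lt] at h2
    rw [abs_lt] at h
    refine Finset.mem_product.2 ⟨Finset.mem_univ _, Finset.mem_Icc.2 ⟨?_, ?_⟩⟩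
    · have : ρ * (-M : ℤ) ≤ ρ * m := by
        push_cast
        linarith only [ha.2, h1.2, h, h2, h3]
      exact_mod_cast le_of_mul_le_mul_left this hρ
    · have : ρ * m ≤ ρ * M := by linarith only [ha.1, h1.2, hρ, h, h2, h3]
      exact_mod_cast le_of_mul_le_mul_left this hρ
  · exact ⟨_, Finset.mem_insert_self _ _, h.2⟩

/-- the thickened frontier of a cube lies in `2 (d+1)` thin boxes -/
theorem perr_cube (d : ℕ) : ∃ C > 0, ∀ (p : R d) (r : ℝ), 0 < r →
    perr univ (cube p r) ≤ ENNReal.ofReal (C * r ^ d) := by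
  refine ⟨(d + 1 + (d + 1) : ℕ) * 4 * 2 ^ d * 2 ^ d, by positivity, fun p r hr => ?_⟩
  refine (CI2b_fin p (r := 2 * r) (N := d + 1 + (d + 1)) (by positivity)
    ((Finset.univ.image fun i => (i, p i + r)) ∪ Finset.univ.image fun i => (i, p i - r))
    ((Finset.card_union_le _ _).trans (add_le_add (Finset.card_image_le.trans (by simp))
      (Finset.card_image_le.trans (by simp)))) ?_).trans_eq (by rw [mul_pow, ← mul_assoc])
  filter_upwards [CI2b_small hr] with h hh y hy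
  obtain ⟨z, hz, -, hj⟩ := CI2b_near hh.1 hy.2
  rw [(isOpen_cube p r).frontier_eq] at hz
  have h1 : ∀ j, |z j - p j| ≤ r :=
    (closure_minimal (fun w hw => And.intro (fun j => (hw j).le) (hw 0).le) (isClosed_tbox p 0 r r) hz.1).1
  obtain ⟨i, hi⟩ := not_forall.1 hz.2
  refine ⟨fun j => by linarith [abs_sub_le (y j) (z j) (p j), hj j, h1 j, hh.2], ?_⟩
  rcases (abs_eq hr.le).1 ((h1 i).antisymm (not_lt.1 hi)) with h | h
  · refine ⟨(i, p i + r), Finset.mem_union_left _ (Finset.mem_image.2 ⟨i, Finset.mem_univ _, rfl⟩), ?_⟩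
    rw [show p i + r = z i by linarith]
    exact (hj i).le
  · refine ⟨(i, p i - r), Finset.mem_union_right _ (Finset.mem_image.2 ⟨i, Finset.mem_univ _, rfl⟩), ?_⟩
    rw [show p i - r = z i by linarith]
    exact (hj i).le

end Pool.Agent.MP_5cfeaf_gt.W

end

section

/-! Block C, interpolation: balanced labels. -/

set_option autoImplicit false

open MeasureTheory Set Filter Topology Metric
open scoped ENNReal symmDiff Classical InnerProductSpace ContDiff

namespace Pool.Agent.MP_5cfeaf_gt.W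

variable {d : ℕ}

theorem CI3a_sq (x : ℕ → ℝ) (m : ℝ) {M l : ℕ} (hl : l < M) :
    ∑ i ∈ Finset.range M, (x i + m * ((if l = i then 1 else 0) - 1 / (M : ℝ))) ^ 2 ≤
      ∑ i ∈ Finset.range M, x i ^ 2 + 2 * (m * x l - (∑ i ∈ Finset.range M, m * x i) / M) + m ^ 2 := by
  have hM : (0 : ℝ) < M := by exact_mod_cast (Nat.zero_le l).trans_lt hl
  have h1 : ∀ i ∈ Finset.range M, (x i + m * ((if l = i then 1 else 0) - 1 / (M : ℝ))) ^ 2 =
      x i ^ 2 + (if l = i then 2 * (m * x l) + m ^ 2 * (1 - 2 / M) else 0) - 2 * (m * x i / M) +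
        m ^ 2 / M ^ 2 := by
    intro i _
    by_cases h : l = i
    · subst h
      simp only [if_true]
      field_simp
      ring
    · simp only [h, if_false]
      field_simp
      ring
  rw [Finset.sum_congr rfl h1, Finset.sum_add_distrib, Finset.sum_sub_distrib, Finset.sum_add_distrib,
    Finset.sum_ite_eq, if_pos (Finset.mem_range.2 hl), ← Finset.mul_sum, ← Finset.sum_div,
    Finset.sum_const, Finset.card_range, nsmul_eq_mul]
  have h2 : (M : ℝ) * (m ^ 2 / M ^ 2) = m ^ 2 / M := by field_simp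
  have h3 : m ^ 2 * (1 - 2 / M) = m ^ 2 - 2 * (m ^ 2 / M) := by ring
  have h4 : 0 ≤ m ^ 2 / M := by positivity
  rw [h2, h3]
  linarith only [h4]

theorem CI3a_pot {γ ι : Type} (C : Finset γ) (J : Finset ι) (m : ι → γ → ℝ) {M : ℕ} (hM : 0 < M) :
    ∃ lab : γ → ℕ, (∀ c, lab c < M) ∧ ∑ j ∈ J, ∑ i ∈ Finset.range M,
      (∑ c ∈ C with lab c = i, m j c - (∑ c ∈ C, m j c) / M) ^ 2 ≤ ∑ j ∈ J, ∑ c ∈ C, m j c ^ 2 := by
  have hM' : (0 : ℝ) < M := by exact_mod_cast hM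
  induction C using Finset.induction_on with
  | empty => exact ⟨fun _ => 0, fun _ => hM, by simp⟩
  | insert c₀ C hc ih =>
    obtain ⟨lab, hlab, hpot⟩ := ih
    set x : ι → ℕ → ℝ := fun j i => ∑ c ∈ C with lab c = i, m j c - (∑ c ∈ C, m j c) / M with hx
    obtain ⟨l, hl, hmin⟩ := Finset.exists_min_image (Finset.range M) (fun i => ∑ j ∈ J, m j c₀ * x j i)
      ⟨0, Finset.mem_range.2 hM⟩
    have hl' := Finset.mem_range.1 hl
    refine ⟨Function.update lab c₀ l, fun c => ?_, ?_⟩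
    · by_cases h : c = c₀
      · subst h; simpa using hl'
      · rw [Function.update_of_ne h]; exact hlab c
    have hnew : ∀ j i, ∑ c ∈ insert c₀ C with Function.update lab c₀ l c = i, m j c -
        (∑ c ∈ insert c₀ C, m j c) / M =
        x j i + m j c₀ * ((if l = i then 1 else 0) - 1 / (M : ℝ)) := by
      intro j i
      have e1 : ∑ c ∈ insert c₀ C with Function.update lab c₀ l c = i, m j c =
          (if l = i then m j c₀ else 0) + ∑ c ∈ C with lab c = i, m j c := by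
        rw [Finset.sum_filter, Finset.sum_insert hc, Function.update_self, Finset.sum_filter]
        congr 1
        refine Finset.sum_congr rfl fun c hcC => ?_
        rw [Function.update_of_ne (fun h : c = c₀ => hc (h ▸ hcC))]
      rw [e1, Finset.sum_insert hc, hx]
      by_cases h : l = i
      · simp only [h, if_true]; ring
      · simp only [h, if_false]; ring
    have hcross : ∑ j ∈ J, (m j c₀ * x j l - (∑ i ∈ Finset.range M, m j c₀ * x j i) / M) ≤ 0 := by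
      rw [Finset.sum_sub_distrib, ← Finset.sum_div, Finset.sum_comm, sub_nonpos, le_div_iff₀ hM']
      have := Finset.card_nsmul_le_sum (Finset.range M) (fun i => ∑ j ∈ J, m j c₀ * x j i) _ hmin
      rw [Finset.card_range, nsmul_eq_mul] at this
      linarith only [this]
    calc ∑ j ∈ J, ∑ i ∈ Finset.range M, (∑ c ∈ insert c₀ C with Function.update lab c₀ l c = i, m j c -
          (∑ c ∈ insert c₀ C, m j c) / M) ^ 2
        ≤ ∑ j ∈ J, (∑ i ∈ Finset.range M, x j i ^ 2 +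
            2 * (m j c₀ * x j l - (∑ i ∈ Finset.range M, m j c₀ * x j i) / M) + m j c₀ ^ 2) := by
          refine Finset.sum_le_sum fun j _ => ?_
          simp only [hnew]
          exact CI3a_sq (x j) (m j c₀) hl'
      _ ≤ ∑ j ∈ J, ∑ c ∈ insert c₀ C, m j c ^ 2 := by
          simp only [Finset.sum_insert hc]
          rw [Finset.sum_add_distrib, Finset.sum_add_distrib, ← Finset.mul_sum, Finset.sum_add_distrib]
          linarith only [hpot, hcross]

/-- Greedy second moment.  Induction on `C` for the potential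
`∑ j ∈ J, ∑ i < M, (∑ c ∈ C with lab c = i, m j c - (∑ c ∈ C, m j c) / M) ^ 2 ≤ ∑ j ∈ J, ∑ c ∈ C, m j c ^ 2`:
the average over the `M` labels of the new cell of the new potential is at most the old one plus `∑ j, m j c ^ 2`
(the cross terms cancel), so some label is good. -/
theorem exists_labels {γ ι : Type} (C : Finset γ) (J : Finset ι) (m : ι → γ → ℝ) {M : ℕ} (hM : 0 < M) :
    ∃ lab : γ → ℕ, (∀ c, lab c < M) ∧ ∀ j ∈ J, ∀ i < M,
      (∑ c ∈ C with lab c = i, m j c - (∑ c ∈ C, m j c) / M) ^ 2 ≤ ∑ j ∈ J, ∑ c ∈ C, m j c ^ 2 := by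
  obtain ⟨lab, hlab, hpot⟩ := CI3a_pot C J m hM
  refine ⟨lab, hlab, fun j hj i hi => le_trans ?_ hpot⟩
  refine le_trans ?_ (Finset.single_le_sum (f := fun j => ∑ i ∈ Finset.range M,
    (∑ c ∈ C with lab c = i, m j c - (∑ c ∈ C, m j c) / M) ^ 2)
    (fun j _ => Finset.sum_nonneg fun i _ => sq_nonneg _) hj)
  exact Finset.single_le_sum (f := fun i =>
    (∑ c ∈ C with lab c = i, m j c - (∑ c ∈ C, m j c) / M) ^ 2)
    (fun i _ => sq_nonneg _) (Finset.mem_range.2 hi)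

theorem CI3a_cells {a ρ : ℝ} (hρ : 0 < ρ) : ∃ C : Finset (Fin (d + 1) → ℤ),
    ∀ y ∈ B d, cix a ρ y ∈ C := by
  refine ⟨Fintype.piFinset fun _ => Finset.Icc ⌊(-1 - a) / ρ⌋ ⌊(1 - a) / ρ⌋, fun y hy => ?_⟩
  rw [Fintype.mem_piFinset]
  intro i
  have h1 : ‖y‖ < 1 := by simpa using hy
  have h2 : |y i| ≤ ‖y‖ := by simpa using PiLp.norm_apply_le y i
  have h3 := abs_le.1 (h2.trans h1.le)
  rw [Finset.mem_Icc]
  exact ⟨Int.floor_le_floor (div_le_div_of_nonneg_right (by linarith [h3.1]) hρ.le),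
    Int.floor_le_floor (div_le_div_of_nonneg_right (by linarith [h3.2]) hρ.le)⟩

/-- Balanced labels for measures: `C` = the finite set of indices of cells meeting `B`, `m j c` = mass of the cell
`{y | cix a ρ y = c}` (it lies in `cube p (2 ρ)` for any of its points `p`, `cix_close`). For `i ≥ M` the set is empty. -/
theorem exists_labels_meas {a ρ : ℝ} (hρ : 0 < ρ) (𝓜 : Finset (Measure (R d))) {M : ℕ} (hM : 0 < M)
    {Λ μ₁ e : ℝ} (hΛ : 0 ≤ Λ) (hμ : 0 ≤ μ₁) (he : 0 ≤ e) (h : 𝓜.card * μ₁ * Λ ≤ e ^ 2)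
    (h𝓜 : ∀ m ∈ 𝓜, m (B d)ᶜ = 0 ∧ m univ ≤ ENNReal.ofReal Λ ∧
      ∀ q, m (cube q (2 * ρ)) ≤ ENNReal.ofReal μ₁) :
    ∃ lab : (Fin (d + 1) → ℤ) → ℕ, (∀ κ, lab κ < M) ∧ ∀ m ∈ 𝓜, ∀ i : ℕ,
      m {y | lab (cix a ρ y) = i} ≤ m univ / M + ENNReal.ofReal e := by
  obtain ⟨C, hC⟩ := CI3a_cells (d := d) (a := a) hρ
  have hM' : (0 : ℝ) < M := by exact_mod_cast hM
  obtain ⟨lab, hlab, hb⟩ := exists_labels C 𝓜 (fun m c => (m (cix a ρ ⁻¹' {c})).toReal) hM
  have hms : ∀ c : Fin (d + 1) → ℤ, MeasurableSet (cix (d := d) a ρ ⁻¹' {c}) := fun c =>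
    measurable_cix a ρ (measurableSet_singleton c)
  have hfin : ∀ m ∈ 𝓜, ∀ s : Set (R d), m s ≠ ⊤ := fun m hm s =>
    ne_top_of_le_ne_top ENNReal.ofReal_ne_top ((measure_mono (subset_univ s)).trans (h𝓜 m hm).2.1)
  have hsum : ∀ m ∈ 𝓜, ∀ D : Finset (Fin (d + 1) → ℤ),
      ∑ c ∈ D, (m (cix a ρ ⁻¹' {c})).toReal = (m (cix a ρ ⁻¹' (D : Set _))).toReal := by
    intro m hm D
    rw [← ENNReal.toReal_sum (fun c _ => hfin m hm _), sum_measure_preimage_singleton D fun c _ => hms c]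
  have htot : ∀ m ∈ 𝓜, ∑ c ∈ C, (m (cix a ρ ⁻¹' {c})).toReal ≤ (m univ).toReal := by
    intro m hm
    rw [hsum m hm]
    exact ENNReal.toReal_mono (hfin m hm _) (measure_mono (subset_univ _))
  have hcell : ∀ m ∈ 𝓜, ∀ c, (m (cix a ρ ⁻¹' {c})).toReal ≤ μ₁ := by
    intro m hm c
    rcases (cix (d := d) a ρ ⁻¹' {c}).eq_empty_or_nonempty with h0 | ⟨p, hp⟩
    · rw [h0]; simpa only [measure_empty, ENNReal.toReal_zero] using hμ
    · refine ENNReal.toReal_le_of_le_ofReal hμ (le_trans (measure_mono ?_) ((h𝓜 m hm).2.2 p))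
      intro y hy j
      have : cix a ρ y = cix a ρ p := (mem_singleton_iff.1 hy).trans (mem_singleton_iff.1 hp).symm
      linarith only [cix_close hρ this j, hρ]
  have hsq : ∑ m ∈ 𝓜, ∑ c ∈ C, (m (cix a ρ ⁻¹' {c})).toReal ^ 2 ≤ e ^ 2 := by
    refine le_trans ?_ h
    have : ∀ m ∈ 𝓜, ∑ c ∈ C, (m (cix a ρ ⁻¹' {c})).toReal ^ 2 ≤ μ₁ * Λ := by
      intro m hm
      calc ∑ c ∈ C, (m (cix a ρ ⁻¹' {c})).toReal ^ 2
          ≤ ∑ c ∈ C, μ₁ * (m (cix a ρ ⁻¹' {c})).toReal := Finset.sum_le_sum fun c _ => by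
            rw [sq]; exact mul_le_mul_of_nonneg_right (hcell m hm c) ENNReal.toReal_nonneg
        _ ≤ μ₁ * Λ := by
            rw [← Finset.mul_sum]
            exact mul_le_mul_of_nonneg_left ((htot m hm).trans
              (ENNReal.toReal_le_of_le_ofReal hΛ (h𝓜 m hm).2.1)) hμ
    have h2 := Finset.sum_le_card_nsmul 𝓜 _ _ this
    rw [nsmul_eq_mul] at h2
    linarith only [h2]
  refine ⟨lab, hlab, fun m hm i => ?_⟩
  rcases lt_or_ge i M with hi | hi
  swap
  · have : {y : R d | lab (cix a ρ y) = i} = ∅ := by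
      ext y
      simp only [mem_ofPred_eq, mem_empty_iff_false, iff_false]
      intro hy
      have := hlab (cix a ρ y)
      omega
    rw [this, measure_empty]
    exact zero_le
  have h1 := (abs_le.1 (abs_le_of_sq_le_sq ((hb m hm i hi).trans hsq) he)).2
  have h2 : (∑ c ∈ C, (m (cix a ρ ⁻¹' {c})).toReal) / M ≤ (m univ).toReal / M :=
    div_le_div_of_nonneg_right (htot m hm) hM'.le
  rw [hsum m hm] at h1
  have h3 : m {y | lab (cix a ρ y) = i} ≤ m (cix a ρ ⁻¹' ((C.filter fun c => lab c = i : Finset _) : Set _)) := by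
    calc m {y | lab (cix a ρ y) = i}
        ≤ m (cix a ρ ⁻¹' ((C.filter fun c => lab c = i : Finset _) : Set _) ∪ (B d)ᶜ) := by
          refine measure_mono fun y hy => ?_
          by_cases hB : y ∈ B d
          · left
            simp only [mem_preimage, Finset.coe_filter, mem_ofPred_eq]
            exact ⟨hC y hB, hy⟩
          · exact Or.inr hB
      _ ≤ _ := (measure_union_le _ _).trans (by rw [(h𝓜 m hm).1, add_zero])
  refine h3.trans ?_
  refine (ENNReal.ofReal_toReal (hfin m hm _)).symm.le.trans ?_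
  refine (ENNReal.ofReal_le_ofReal (show _ ≤ (m univ).toReal / M + e by linarith only [h1, h2])).trans ?_
  refine ENNReal.ofReal_add_le.trans (le_of_eq ?_)
  rw [ENNReal.ofReal_div_of_pos hM', ENNReal.ofReal_toReal (hfin m hm _), ENNReal.ofReal_natCast]

/-- mass of the threshold regions: sum over the labels `i ≤ n`, resp. `n ≤ i < M` -/
theorem meas_Zp_Zm {a ρ : ℝ} {lab : (Fin (d + 1) → ℤ) → ℕ} {M n : ℕ} (hl : ∀ κ, lab κ < M)
    {m : Measure (R d)} (hg : m (grid a ρ) = 0) {c : ℝ≥0∞}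
    (h : ∀ i : ℕ, m {y | lab (cix a ρ y) = i} ≤ c) :
    m (Zp a ρ lab n) ≤ (n + 1 : ℕ) * c ∧ m (Zm a ρ lab n) ≤ (M - n : ℕ) * c := by
  have key : ∀ (I : Finset ℕ) (Z : Set (R d)), (∀ y ∈ Z, lab (cix a ρ y) ∈ I) →
      m (Z ∪ grid a ρ) ≤ (I.card : ℕ) * c := by
    intro I Z hZ
    calc m (Z ∪ grid a ρ) ≤ m Z := (measure_union_le _ _).trans (by rw [hg, add_zero])
      _ ≤ m (⋃ i ∈ I, {y | lab (cix a ρ y) = i}) := measure_mono fun y hy =>
          mem_biUnion (hZ y hy) rfl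
      _ ≤ ∑ i ∈ I, m {y | lab (cix a ρ y) = i} := measure_biUnion_finset_le _ _
      _ ≤ I.card • c := Finset.sum_le_card_nsmul _ _ _ fun i _ => h i
      _ = _ := nsmul_eq_mul _ _
  constructor
  · have := key (Finset.range (n + 1)) {y | lab (cix a ρ y) ≤ n} fun y hy =>
      Finset.mem_range.2 (Nat.lt_succ_of_le hy)
    rwa [Finset.card_range] at this
  · have := key (Finset.Ico n M) {y | n ≤ lab (cix a ρ y)} fun y hy =>
      Finset.mem_Ico.2 ⟨hy, hl _⟩
    rwa [Nat.card_Ico] at this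

end Pool.Agent.MP_5cfeaf_gt.W

end

section

/-! Block C, interpolation: chains of vertices. -/

set_option autoImplicit false

open MeasureTheory Set Filter Topology Metric
open scoped ENNReal symmDiff Classical InnerProductSpace ContDiff

namespace Pool.Agent.MP_5cfeaf_gt.W

variable {d : ℕ}

section
variable {α : Type}

theorem CI4a_list (F : Finset (Vx α)) (h : ∀ v ∈ F, ∀ w ∈ F, v = w ∨ Below w v ∨ Below v w) :
    ∃ l : List (Vx α), (∀ v, v ∈ l ↔ v ∈ F) ∧ l.Pairwise Below ∧ l.length = F.card := by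
  induction F using Finset.induction_on_max_value (fun v : Vx α => v.l.length) with
  | empty => exact ⟨[], by simp, .nil, rfl⟩
  | insert a s ha hm ih =>
    obtain ⟨l, h1, h2, h3⟩ := ih fun v hv w hw =>
      h v (Finset.mem_insert_of_mem hv) w (Finset.mem_insert_of_mem hw)
    refine ⟨a :: l, fun v => by simp [h1], .cons (fun w hw => ?_) h2, ?_⟩
    · have hw' := (h1 w).1 hw
      rcases h a (Finset.mem_insert_self _ _) w (Finset.mem_insert_of_mem hw') with e | e | e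
      · exact absurd (e ▸ hw') ha
      · exact absurd e.2 (not_lt.2 (hm w hw'))
      · exact e
    · rw [Finset.card_insert_of_notMem ha, List.length_cons, h3]

theorem CI4a_eq {l : List (Vx α)} (hl : l.Pairwise Below) {v w : Vx α} (hv : v ∈ l) (hw : w ∈ l)
    (e : v.l.length = w.l.length) : v = w := by
  induction l with
  | nil => cases hv
  | cons a l ih =>
    obtain ⟨h1, h2⟩ := List.pairwise_cons.1 hl
    rcases List.mem_cons.1 hv with rfl | hv' <;> rcases List.mem_cons.1 hw with rfl | hw'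
    · rfl
    · exact absurd e (h1 w hw').2.ne'
    · exact absurd e (h1 v hv').2.ne
    · exact ih h2 hv' hw'

/-- a flag as a list, longest vertex first -/
theorem IsFlag.exists_list {k : ℕ} {A : α → Prop} {Rl : α → α → Prop} {F : Finset (Vx α)}
    (h : IsFlag k A Rl F) : ∃ l : List (Vx α), (∀ v, v ∈ l ↔ v ∈ F) ∧ l.Pairwise Below ∧
      l.length ≤ k + 1 ∧ F.card ≤ k + 1 ∧ ∃ u, ∀ v ∈ l, u ∈ v.l := by
  obtain ⟨hne, hb, hc⟩ := h
  obtain ⟨l, h1, h2, h3⟩ := CI4a_list F hc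
  have hcard : F.card ≤ k + 1 := by
    rw [← Finset.card_range (k + 1)]
    refine Finset.card_le_card_of_injOn (fun v => v.2.length) (fun v hv => ?_) fun v hv w hw e => ?_
    · have := (hb v hv).1
      simp only [Vx.l, List.length_cons] at this
      simp only [Finset.coe_range, Set.mem_Iio]
      omega
    · refine CI4a_eq h2 ((h1 v).2 hv) ((h1 w).2 hw) ?_
      simp only [Vx.l, List.length_cons]
      exact congrArg (· + 1) e
  obtain ⟨v₀, hv₀, hm⟩ := F.exists_min_image (fun v => v.l.length) hne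
  refine ⟨l, h1, h2, h3 ▸ hcard, hcard, v₀.1, fun v hv => ?_⟩
  have h0 : v₀.1 ∈ v₀.l := List.mem_cons_self
  rcases hc v₀ hv₀ v ((h1 v).1 hv) with e | e | e
  · exact e ▸ h0
  · exact e.1.subset h0
  · exact absurd e.2 (not_lt.2 (hm v ((h1 v).1 hv)))

theorem exists_big {k : ℕ} {F : Finset (Vx α)} (hF : F.card ≤ k + 1) {x : Vx α → ℝ}
    (hx : x ∈ simplex F) : ∃ v ∈ F, 1 ≤ (k + 1 : ℝ) * x v := by
  by_contra hn
  push Not at hn
  obtain ⟨-, -, h3⟩ := hx
  have hne : F.Nonempty := by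
    rcases F.eq_empty_or_nonempty with rfl | h
    · simp at h3
    · exact h
  have h1 := Finset.sum_lt_sum_of_nonempty hne hn
  rw [← Finset.mul_sum, h3, Finset.sum_const, nsmul_eq_mul] at h1
  have h2 : (F.card : ℝ) ≤ k + 1 := by exact_mod_cast hF
  linarith only [h1, h2]

theorem measurableSet_pasteL {H : α → Set (R d)} {Z : Vx α → Set (R d)} {u : α} {l : List (Vx α)}
    (hu : MeasurableSet (H u)) (h : ∀ v ∈ l, MeasurableSet (H v.1) ∧ MeasurableSet (Z v)) :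
    MeasurableSet (pasteL H Z u l) := by
  induction l with
  | nil => exact hu
  | cons a l ih =>
    have ha := h a List.mem_cons_self
    exact (ha.1.inter ha.2).union ((ih fun v hv => h v (List.mem_cons_of_mem _ hv)).diff ha.2)

theorem mem_pasteL (H : α → Set (R d)) (Z : Vx α → Set (R d)) (u : α) (l : List (Vx α)) (y : R d) :
    (y ∈ pasteL H Z u l ↔ y ∈ H u) ∨ ∃ v ∈ l, (y ∈ pasteL H Z u l ↔ y ∈ H v.1) := by
  induction l with
  | nil => exact .inl Iff.rfl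
  | cons a l ih =>
    by_cases hy : y ∈ Z a
    · exact .inr ⟨a, List.mem_cons_self, by simp [pasteL, hy]⟩
    · have e : y ∈ pasteL H Z u (a :: l) ↔ y ∈ pasteL H Z u l := by simp [pasteL, hy]
      rcases ih with h | ⟨v, hv, h⟩
      · exact .inl (e.trans h)
      · exact .inr ⟨v, List.mem_cons_of_mem _ hv, e.trans h⟩

theorem CI4a_top (H : α → Set (R d)) {Z : Vx α → Set (R d)} (u : α) {l : List (Vx α)}
    (hl : l.Pairwise Below) {y : R d} (h1 : ∃ v ∈ l, y ∈ Z v) :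
    ∃ v ∈ l, y ∈ Z v ∧ (∀ w ∈ l, y ∈ Z w → w.l.length ≤ v.l.length) ∧
      (y ∈ pasteL H Z u l ↔ y ∈ H v.1) := by
  induction l with
  | nil => simp only [List.not_mem_nil, false_and, exists_false] at h1
  | cons a l ih =>
    obtain ⟨h2, h3⟩ := List.pairwise_cons.1 hl
    by_cases hy : y ∈ Z a
    · refine ⟨a, List.mem_cons_self, hy, fun w hw _ => ?_, by simp [pasteL, hy]⟩
      rcases List.mem_cons.1 hw with rfl | hw
      · exact le_rfl
      · exact (h2 w hw).2.le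
    · obtain ⟨v, hv, h4, h5, h6⟩ := ih h3 (by
        obtain ⟨v, hv, h⟩ := h1
        rcases List.mem_cons.1 hv with rfl | hv
        · exact absurd h hy
        · exact ⟨v, hv, h⟩)
      refine ⟨v, List.mem_cons_of_mem _ hv, h4, fun w hw h7 => ?_, ?_⟩
      · rcases List.mem_cons.1 hw with rfl | hw
        · exact absurd h7 hy
        · exact h5 w hw h7
      · rw [← h6]
        simp [pasteL, hy]

theorem CI4a_top' (H : α → Set (R d)) {Z : Vx α → Set (R d)} (u : α) {l : List (Vx α)}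
    (hl : l.Pairwise Below) (h0 : ∀ w, w ∉ l → Z w = ∅) (h1 : ∃ v ∈ l, Z v = univ) (y : R d) :
    ∃ v, y ∈ Z v ∧ (∀ w, y ∈ Z w → w.l.length ≤ v.l.length) ∧
      (∀ w, y ∈ Z w → v.l.length ≤ w.l.length → w = v) ∧ (y ∈ pasteL H Z u l ↔ y ∈ H v.1) := by
  have hm : ∀ w, y ∈ Z w → w ∈ l := fun w hw => by
    by_contra hn
    rw [h0 w hn] at hw
    exact hw
  obtain ⟨v, hv, h2, h3, h4⟩ := CI4a_top H u hl (y := y) (Z := Z) (by
    obtain ⟨v, hv, h⟩ := h1
    exact ⟨v, hv, h ▸ mem_univ y⟩)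
  exact ⟨v, h2, fun w hw => h3 w (hm w hw) hw, fun w hw h5 =>
    CI4a_eq hl (hm w hw) hv (le_antisymm (h3 w (hm w hw) hw) h5), h4⟩

theorem Gset_eq {H : α → Set (R d)} {Z : Vx α → Set (R d)} (u : α) {l : List (Vx α)}
    (hl : l.Pairwise Below) (h0 : ∀ w, w ∉ l → Z w = ∅) (h1 : ∃ v ∈ l, Z v = univ) :
    Gset H Z = pasteL H Z u l := by
  ext y
  obtain ⟨v, h2, h3, h4, h5⟩ := CI4a_top' H u hl h0 h1 y
  rw [h5]
  constructor
  · rintro ⟨w, h6, h7, h8⟩
    exact h4 w h6 (h8 v h2) ▸ h7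
  · exact fun h => ⟨v, h2, h, h3⟩

theorem CI4a_inv_inv {τ : α → α} (hτ : ∀ a, τ (τ a) = a) (v : Vx α) :
    Vx.inv τ (Vx.inv τ v) = v := by
  have e : τ ∘ τ = id := funext hτ
  simp [Vx.inv, hτ, e]

theorem CI4a_inv_len (τ : α → α) (v : Vx α) : (Vx.inv τ v).l.length = v.l.length := by
  simp [Vx.inv, Vx.l]

theorem Gset_inv {τ : α → α} (hτ : ∀ a, τ (τ a) = a) {H : α → Set (R d)} (hH : ∀ a, H (τ a) = (H a)ᶜ)
    {Z : Vx α → Set (R d)} {l : List (Vx α)} (hl : l.Pairwise Below) (h0 : ∀ w, w ∉ l → Z w = ∅)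
    (h1 : ∃ v ∈ l, Z v = univ) : Gset H (fun v => Z (Vx.inv τ v)) = (Gset H Z)ᶜ := by
  ext y
  obtain ⟨v₁, -⟩ := id h1
  obtain ⟨v, h2, h3, h4, -⟩ := CI4a_top' H v₁.1 hl h0 h1 y
  have e : y ∈ Gset H Z ↔ y ∈ H v.1 := by
    constructor
    · rintro ⟨w, h6, h7, h8⟩
      exact h4 w h6 (h8 v h2) ▸ h7
    · exact fun h => ⟨v, h2, h, h3⟩
  have h2' : y ∈ Z (Vx.inv τ (Vx.inv τ v)) := by rwa [CI4a_inv_inv hτ]
  rw [mem_compl_iff, e]
  constructor
  · rintro ⟨w, h6, h7, h8⟩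
    have h9 := h8 (Vx.inv τ v) h2'
    rw [CI4a_inv_len, ← CI4a_inv_len τ w] at h9
    rw [← h4 _ h6 h9]
    show y ∉ H (τ w.1)
    rw [hH]
    exact fun h => h h7
  · intro h
    refine ⟨Vx.inv τ v, h2', ?_, fun w hw => ?_⟩
    · show y ∈ H (τ v.1)
      rw [hH]
      exact h
    · rw [CI4a_inv_len, ← CI4a_inv_len τ w]
      exact h3 _ hw

theorem Gset_symmDiff (H : α → Set (R d)) (Z Z' : Vx α → Set (R d)) :
    Gset H Z ∆ Gset H Z' ⊆ ⋃ v, Z v ∆ Z' v := by
  intro y hy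
  by_contra hn
  have e : ∀ v, y ∈ Z v ↔ y ∈ Z' v := fun v => by
    have : y ∉ Z v ∆ Z' v := fun h => hn (mem_iUnion.2 ⟨v, h⟩)
    rw [Set.mem_symmDiff] at this
    tauto
  have e' : y ∈ Gset H Z ↔ y ∈ Gset H Z' := by simp only [Gset, mem_ofPred_eq, e]
  rw [Set.mem_symmDiff] at hy
  tauto

theorem nuC_le' {μ : α → Measure (R d)} (P Q : Vx α → ℕ → Set (R d)) {u : α} {c : List (Vx α × ℕ)}
    {A : Set (R d)} {b : ℝ≥0∞} (hu : μ u A ≤ b) (h : ∀ p ∈ c, μ p.1.1 A ≤ b) :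
    nuC μ P Q u c A ≤ (c.length + 1 : ℕ) * b := by
  induction c with
  | nil => simpa [nuC] using hu
  | cons p c ih =>
    rw [nuC, Measure.add_apply, List.length_cons, Nat.cast_succ (c.length + 1), add_mul, one_mul,
      add_comm]
    exact add_le_add ((Measure.restrict_le_self A).trans
      (ih fun q hq => h q (List.mem_cons_of_mem _ hq)))
      ((Measure.restrict_le_self A).trans (h p List.mem_cons_self))

theorem nuC_congr (μ : α → Measure (R d)) {P Q P' Q' : Vx α → ℕ → Set (R d)} (u : α)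
    {c : List (Vx α × ℕ)} (h : ∀ p ∈ c, P p.1 = P' p.1 ∧ Q p.1 = Q' p.1) :
    nuC μ P Q u c = nuC μ P' Q' u c := by
  induction c with
  | nil => rfl
  | cons p c ih =>
    rw [nuC, nuC, ih fun q hq => h q (List.mem_cons_of_mem _ hq), (h p List.mem_cons_self).1,
      (h p List.mem_cons_self).2]

end

end Pool.Agent.MP_5cfeaf_gt.W

end

section

/-! Block C, interpolation: the data of a vertex. -/

set_option autoImplicit false

open MeasureTheory Set Filter Topology Metric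
open scoped ENNReal symmDiff Classical InnerProductSpace ContDiff

namespace Pool.Agent.MP_5cfeaf_gt.W

variable {d : ℕ}

theorem CI4b_lists {β : Type} (T : Finset β) (n : ℕ) : ∃ s : Finset (List β),
    s.card ≤ (T.card + 1) ^ n ∧ ∀ c, c ∈ s ↔ c.length ≤ n ∧ ∀ p ∈ c, p ∈ T := by
  induction n with
  | zero =>
    refine ⟨{[]}, by simp, fun c => ?_⟩
    cases c <;> simp only [Finset.mem_singleton, List.length_nil, Std.le_refl, List.not_mem_nil, IsEmpty.forall_iff, implies_true, and_self, reduceCtorEq, List.length_cons, nonpos_iff_eq_zero, Nat.add_eq_zero_iff, List.length_eq_zero_iff, one_ne_zero, and_false, List.mem_cons, forall_eq_or_imp, false_and]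
  | succ n ih =>
    obtain ⟨s, hs, hm⟩ := ih
    refine ⟨insert [] ((T ×ˢ s).image fun q => q.1 :: q.2), ?_, fun c => ?_⟩
    · refine (Finset.card_insert_le _ _).trans ?_
      have h1 : ((T ×ˢ s).image fun q => q.1 :: q.2).card ≤ T.card * (T.card + 1) ^ n := by
        refine Finset.card_image_le.trans ?_
        rw [Finset.card_product]
        exact Nat.mul_le_mul_left _ hs
      have h2 : 1 ≤ (T.card + 1) ^ n := Nat.one_le_pow _ _ (Nat.succ_pos _)
      rw [pow_succ]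
      linarith only [h1, h2]
    · cases c with
      | nil => simp only [Finset.mem_insert, Finset.mem_image, Finset.mem_product, reduceCtorEq, and_false, exists_false, or_false, List.length_nil, le_add_iff_nonneg_left, zero_le, List.not_mem_nil, IsEmpty.forall_iff, implies_true, and_self]
      | cons a c =>
        simp only [Finset.mem_insert, Finset.mem_image, Finset.mem_product, List.length_cons,
          List.mem_cons, forall_eq_or_imp]
        constructor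
        · rintro (h | ⟨q, ⟨h1, h2⟩, h3⟩)
          · cases h
          · obtain ⟨h4, h5⟩ := List.cons.inj h3
            subst h4 h5
            have := (hm _).1 h2
            exact ⟨by omega, h1, this.2⟩
        · rintro ⟨h1, h2, h3⟩
          exact Or.inr ⟨(a, c), ⟨h2, (hm c).2 ⟨by omega, h3⟩⟩, rfl⟩

theorem CI4b_l_inj {α : Type} : Function.Injective (Vx.l : Vx α → List α) := by
  rintro ⟨a, l⟩ ⟨b, m⟩ h
  obtain ⟨h1, h2⟩ := List.cons.inj h
  exact Prod.ext h1 h2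

theorem CI4b_below {α : Type} (v : Vx α) : ∃ s : Finset (Vx α), s.card ≤ 2 ^ v.l.length ∧
    ∀ w, w ∈ s ↔ Below v w := by
  refine ⟨((v.l.sublists.toFinset).preimage Vx.l CI4b_l_inj.injOn).filter (Below v), ?_, fun w => ?_⟩
  · refine (Finset.card_filter_le _ _).trans ?_
    rw [← List.length_sublists]
    refine le_trans ?_ (List.toFinset_card_le _)
    refine Finset.card_le_card_of_injOn Vx.l (fun w hw => ?_) CI4b_l_inj.injOn
    simpa using hw
  · simp only [Finset.mem_filter, Finset.mem_preimage, List.mem_toFinset, List.mem_sublists]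
    exact ⟨fun h => h.2, fun h => ⟨h.1, h⟩⟩

/-- the number of chains below a vertex is bounded (`List.sublists`, `List.length_sublists`; lists of length `≤ n` over a
set with `s` elements: at most `(s + 1) ^ n`, induction on `n`) -/
theorem card_chains (k M : ℕ) : ∃ J : ℕ, ∀ (α : Type) (v : Vx α), v.l.length ≤ k + 1 →
    ∃ s : Finset (α × List (Vx α × ℕ)), s.card ≤ J ∧ ∀ q, q ∈ s ↔
      q.1 ∈ v.l ∧ q.2.length ≤ k + 1 ∧ ∀ p ∈ q.2, Below v p.1 ∧ p.2 ≤ M := by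
  refine ⟨(k + 1) * (2 ^ (k + 1) * (M + 1) + 1) ^ (k + 1), fun α v hv => ?_⟩
  obtain ⟨w, hw, hwm⟩ := CI4b_below v
  obtain ⟨s, hs, hm⟩ := CI4b_lists (w ×ˢ Finset.range (M + 1)) (k + 1)
  refine ⟨v.l.toFinset ×ˢ s, ?_, fun q => ?_⟩
  · rw [Finset.card_product]
    refine Nat.mul_le_mul ((List.toFinset_card_le _).trans hv) (hs.trans ?_)
    refine Nat.pow_le_pow_left (Nat.succ_le_succ ?_) _
    rw [Finset.card_product, Finset.card_range]
    exact Nat.mul_le_mul_right _ (hw.trans (Nat.pow_le_pow_right (by norm_num) hv))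
  · simp only [Finset.mem_product, List.mem_toFinset, hm, hwm, Finset.mem_range, Nat.lt_succ_iff]

theorem CI4b_inv_inv {α : Type} {τ : α → α} (hτ : ∀ a, τ (τ a) = a) (v : Vx α) :
    Vx.inv τ (Vx.inv τ v) = v := by
  obtain ⟨a, l⟩ := v
  have h : τ ∘ τ = id := funext hτ
  simp [Vx.inv, hτ, h]

theorem CI4b_inv_len {α : Type} (τ : α → α) (v : Vx α) : (Vx.inv τ v).l.length = v.l.length := by
  simp [Vx.inv, Vx.l]

theorem CI4b_good_congr {α : Type} (H : α → Set (R d)) (k M : ℕ) (ρ e₁ e₂ : ℝ)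
    {D D' : Vx α → ℝ × ((Fin (d + 1) → ℤ) → ℕ)} {v : Vx α}
    (h : ∀ w : Vx α, w.l.length < v.l.length → D w = D' w) (b : ℝ × ((Fin (d + 1) → ℤ) → ℕ))
    (hg : GoodV H k M ρ e₁ e₂ D v b) : GoodV H k M ρ e₁ e₂ D' v b := by
  refine ⟨hg.1, hg.2.1, fun u hu c hc hb i => ?_⟩
  have e : nuC (muH H) (fun w n => Zp (D w).1 ρ (D w).2 n) (fun w n => Zm (D w).1 ρ (D w).2 n) u c =
      nuC (muH H) (fun w n => Zp (D' w).1 ρ (D' w).2 n) (fun w n => Zm (D' w).1 ρ (D' w).2 n) u c := by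
    refine nuC_congr _ u fun p hp => ?_
    have := h p.1 (hb p hp).1.2
    constructor <;> (funext n; simp only [this])
  rw [← e]
  exact hg.2.2 u hu c hc hb i

theorem CI4b_Dv {α : Type} {k : ℕ} {A : α → Prop} {Rl : α → α → Prop} {H : α → Set (R d)} {η : ℝ}
    (hA : ∀ a, A a → MeasurableSet (H a)) (hR : ∀ a b, A a → A b → Rl a b → FR η (H a) (H b))
    {v : Vx α} (hv : Adm k A Rl v) :
    MeasurableSet (Dv H v) ∧ volume (Dv H v) ≤ (k + 1 : ℕ) * ENNReal.ofReal η := by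
  have e : Dv H v = ⋃ u ∈ v.l.toFinset, (H v.1 ∆ H u) ∩ B d := by
    ext y
    simp only [Dv, mem_ofPred_eq, mem_iUnion, List.mem_toFinset, mem_inter_iff, exists_prop]
    exact ⟨fun ⟨h1, u, h2, h3⟩ => ⟨u, h2, h3, h1⟩, fun ⟨u, h2, h3, h1⟩ => ⟨h1, u, h2, h3⟩⟩
  have h1 : v.1 ∈ v.l := by simp [Vx.l]
  rw [e]
  constructor
  · refine Finset.measurableSet_biUnion _ fun u hu => ?_
    exact ((hA _ (hv.2.1 _ h1)).symmDiff (hA _ (hv.2.1 _ (List.mem_toFinset.1 hu)))).inter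
      measurableSet_ball
  · refine (measure_biUnion_finset_le _ _).trans ?_
    refine (Finset.sum_le_card_nsmul _ _ (ENNReal.ofReal η) fun u hu => ?_).trans ?_
    · have hu' := List.mem_toFinset.1 hu
      exact hR _ _ (hv.2.1 _ h1) (hv.2.1 _ hu') (hv.2.2 _ h1 _ hu')
    · rw [nsmul_eq_mul]
      refine mul_le_mul_left ?_ _
      exact_mod_cast (List.toFinset_card_le _).trans hv.1

theorem CI4b_exists (d k M : ℕ) (hM : 0 < M) : ∃ C > 0, ∀ (α : Type)
    (A : α → Prop) (Rl : α → α → Prop) (H : α → Set (R d)) (ρ η L μ₀ e₂ : ℝ), 0 < ρ → 0 < η → 0 ≤ L →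
    0 ≤ μ₀ → 0 ≤ e₂ → C * μ₀ * L ≤ e₂ ^ 2 →
    (∀ a, A a → FA L (H a) ∧ ∀ q, pm (H a) (cube q (2 * ρ) ∩ B d) ≤ ENNReal.ofReal μ₀) →
    (∀ a b, A a → A b → Rl a b → FR η (H a) (H b)) →
    ∀ (D : Vx α → ℝ × ((Fin (d + 1) → ℤ) → ℕ)) (S : Finset (Vx α)), S.card ≤ 2 →
      (∀ v ∈ S, Adm k A Rl v) → ∃ b : ℝ × ((Fin (d + 1) → ℤ) → ℕ), b.1 ∈ Ico (0 : ℝ) ρ ∧
        (∀ κ, b.2 κ < M) ∧ ∀ v ∈ S, GoodV H k M ρ (C * η / ρ) e₂ D v b := by
  obtain ⟨Cs, hCs, hs⟩ := exists_shift d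
  obtain ⟨J, hJ⟩ := card_chains k M
  refine ⟨Cs * (2 * (k + 1)) + 2 * J * (k + 2) ^ 2, by positivity, ?_⟩
  intro α A Rl H ρ η L μ₀ e₂ hρ hη hL hμ he hC hA hR D S hS hadm
  have hD := fun v hv => CI4b_Dv (fun a ha => (hA a ha).1.1) hR (hadm v hv)
  have hmu : ∀ u, A u → muH H u univ ≤ ENNReal.ofReal L := fun u hu => by
    rw [muH, Measure.restrict_apply_univ]; exact (hA u hu).1.2
  obtain ⟨a, ha, hg, hge⟩ := hs ρ (2 * (k + 1) * η) (⋃ v ∈ S, Dv H v)
    (∑ v ∈ S, ∑ u ∈ v.l.toFinset, muH H u) hρ (by positivity)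
    (Finset.measurableSet_biUnion _ fun v hv => (hD v hv).1)
    (by
      refine (measure_biUnion_finset_le _ _).trans ?_
      refine (Finset.sum_le_card_nsmul _ _ _ fun v hv => (hD v hv).2).trans ?_
      rw [nsmul_eq_mul, ENNReal.ofReal_mul (by positivity), ENNReal.ofReal_mul (by positivity),
        mul_assoc]
      refine mul_le_mul' ?_ (mul_le_mul_left (le_of_eq ?_) _)
      · rw [ENNReal.ofReal_ofNat]; exact_mod_cast hS
      · rw [← ENNReal.ofReal_natCast]; push_cast; rfl)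
    (by
      simp only [Measure.coe_finsetSum, Finset.sum_apply]
      refine ENNReal.sum_lt_top.2 fun v hv => ENNReal.sum_lt_top.2 fun u hu => ?_
      exact (hmu u ((hadm v hv).2.1 u (List.mem_toFinset.1 hu))).trans_lt ENNReal.ofReal_lt_top)
  have hJ' : ∀ v : Vx α, ∃ s : Finset (α × List (Vx α × ℕ)), v ∈ S → s.card ≤ J ∧ ∀ q, q ∈ s ↔
      q.1 ∈ v.l ∧ q.2.length ≤ k + 1 ∧ ∀ p ∈ q.2, Below v p.1 ∧ p.2 ≤ M := fun v => by
    by_cases hv : v ∈ S
    · obtain ⟨s, h⟩ := hJ α v (hadm v hv).1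
      exact ⟨s, fun _ => h⟩
    · exact ⟨∅, fun h => absurd h hv⟩
  choose s hsm using hJ'
  obtain ⟨N, hN⟩ : ∃ N : α × List (Vx α × ℕ) → Measure (R d), ∀ q, N q =
      nuC (muH H) (fun w n => Zp (D w).1 ρ (D w).2 n) (fun w n => Zm (D w).1 ρ (D w).2 n) q.1 q.2 :=
    ⟨_, fun _ => rfl⟩
  have hcard : ((S.biUnion fun v => (s v).image N).card : ℝ) ≤ 2 * J := by
    have h1 : (S.biUnion fun v => (s v).image N).card ≤ S.card * J :=
      Finset.card_biUnion_le_card_mul _ _ _ fun v hv => Finset.card_image_le.trans (hsm v hv).1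
    have h2 : S.card * J ≤ 2 * J := Nat.mul_le_mul_right _ hS
    exact_mod_cast h1.trans h2
  have hle : ∀ v ∈ S, ∀ q ∈ s v, ∀ (X : Set (R d)) (x : ℝ), 0 ≤ x →
      (∀ u, A u → muH H u X ≤ ENNReal.ofReal x) → N q X ≤ ENNReal.ofReal ((k + 2) * x) := by
    intro v hv q hq X x hx h
    obtain ⟨h1, h2, h3⟩ := ((hsm v hv).2 q).1 hq
    rw [hN]
    refine (nuC_le' _ _ (h _ ((hadm v hv).2.1 _ h1)) fun p hp => h _ ((hadm v hv).2.1 _ ?_)).trans ?_
    · exact (h3 p hp).1.1.subset (by simp [Vx.l])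
    · rw [ENNReal.ofReal_mul (by positivity)]
      refine mul_le_mul_left ?_ _
      have e : ((k : ℝ) + 2) = ((k + 2 : ℕ) : ℝ) := by push_cast; rfl
      rw [e, ENNReal.ofReal_natCast]
      exact_mod_cast (by omega : q.2.length + 1 ≤ k + 2)
  obtain ⟨lab, hlab, hm⟩ := exists_labels_meas (a := a) hρ (S.biUnion fun v => (s v).image N) hM
    (Λ := (k + 2) * L) (μ₁ := (k + 2) * μ₀) (e := e₂) (by positivity) (by positivity) he
    (by
      refine le_trans ?_ hC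
      have h1 : 0 ≤ ((k : ℝ) + 2) * μ₀ * ((k + 2) * L) := by positivity
      have h2 : 0 ≤ Cs * (2 * (k + 1)) * μ₀ * L := by positivity
      have h3 := mul_le_mul_of_nonneg_right hcard h1
      linarith only [h2, h3])
    (by
      intro m hm
      obtain ⟨v, hv, hm⟩ := Finset.mem_biUnion.1 hm
      obtain ⟨q, hq, rfl⟩ := Finset.mem_image.1 hm
      refine ⟨?_, hle v hv q hq _ _ hL hmu, fun p => hle v hv q hq _ _ hμ fun u hu => ?_⟩
      · have := hle v hv q hq (B d)ᶜ 0 le_rfl fun u _ => by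
          rw [muH, Measure.restrict_apply' measurableSet_ball]; simp
        simpa only [mul_zero, ENNReal.ofReal_zero, nonpos_iff_eq_zero] using this
      · rw [muH, Measure.restrict_apply' measurableSet_ball]
        exact (hA u hu).2 p)
  refine ⟨(a, lab), ha, hlab, fun v hv => ⟨fun u hu => ?_, ?_, fun u hu c hc hb i => ?_⟩⟩
  · simp only [Measure.coe_finsetSum, Finset.sum_apply, Finset.sum_eq_zero_iff] at hg
    exact hg v hv u (List.mem_toFinset.2 hu)
  · refine (gerr_mono (subset_biUnion_of_mem (u := fun v => Dv H v) (s := (S : Set (Vx α))) hv) a ρ).trans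
      (hge.trans (ENNReal.ofReal_le_ofReal ?_))
    refine div_le_div_of_nonneg_right ?_ hρ.le
    have h2 : 0 ≤ 2 * (J : ℝ) * (k + 2) ^ 2 * η := by positivity
    linarith only [h2]
  · have h := hm (N (u, c)) (Finset.mem_biUnion.2 ⟨v, hv, Finset.mem_image.2
      ⟨(u, c), ((hsm v hv).2 _).2 ⟨hu, hc, hb⟩, rfl⟩⟩) i
    rw [hN] at h
    exact h

/-- Data of all vertices.  `exists_rec_choice` with
`Q v D b := b.1 ∈ Ico 0 ρ ∧ (∀ κ, b.2 κ < M) ∧ (Adm v → GoodV D v b) ∧ (Adm (inv v) → GoodV D (inv v) b)` (symmetric by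
construction; locality by `nuC_congr`).  Existence: `exists_shift` for the union of the sets `Dv` of the admissible ones among
`v`, `inv v` (volume at most `2 (k+1) η`) and the sum of the measures `muH H u`; `exists_labels_meas` for the union of the two
images of `card_chains` (at most `2 J` measures, mass `≤ (k+2) L`, cubes `≤ (k+2) μ₀` by `nuC_le'`). -/
theorem exists_data (d k M : ℕ) (hM : 0 < M) : ∃ C > 0, ∀ (α : Type) (τ : α → α), (∀ a, τ (τ a) = a) →
    ∀ (A : α → Prop) (Rl : α → α → Prop) (H : α → Set (R d)) (ρ η L μ₀ e₂ : ℝ), 0 < ρ → 0 < η → 0 ≤ L →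
    0 ≤ μ₀ → 0 ≤ e₂ → C * μ₀ * L ≤ e₂ ^ 2 →
    (∀ a, A a → FA L (H a) ∧ ∀ q, pm (H a) (cube q (2 * ρ) ∩ B d) ≤ ENNReal.ofReal μ₀) →
    (∀ a b, A a → A b → Rl a b → FR η (H a) (H b)) →
    ∃ D : Vx α → ℝ × ((Fin (d + 1) → ℤ) → ℕ), (∀ v, D (Vx.inv τ v) = D v) ∧
      ∀ v, (D v).1 ∈ Ico (0 : ℝ) ρ ∧ (∀ κ, (D v).2 κ < M) ∧
        (Adm k A Rl v → GoodV H k M ρ (C * η / ρ) e₂ D v (D v)) := by
  obtain ⟨C, hC, h⟩ := CI4b_exists d k M hM
  refine ⟨C, hC, ?_⟩
  intro α τ hτ A Rl H ρ η L μ₀ e₂ hρ hη hL hμ he hCe hA hR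
  obtain ⟨D, hD, hi⟩ := exists_rec_choice (β := ℝ × ((Fin (d + 1) → ℤ) → ℕ)) hτ
    (Q := fun v D b => b.1 ∈ Ico (0 : ℝ) ρ ∧ (∀ κ, b.2 κ < M) ∧
      (Adm k A Rl v → GoodV H k M ρ (C * η / ρ) e₂ D v b) ∧
      (Adm k A Rl (Vx.inv τ v) → GoodV H k M ρ (C * η / ρ) e₂ D (Vx.inv τ v) b))
    (fun v D => by
      obtain ⟨b, h1, h2, h3⟩ := h α A Rl H ρ η L μ₀ e₂ hρ hη hL hμ he hCe hA hR D
        (({v, Vx.inv τ v} : Finset (Vx α)).filter (Adm k A Rl))
        ((Finset.card_filter_le _ _).trans Finset.card_le_two)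
        (fun w hw => (Finset.mem_filter.1 hw).2)
      exact ⟨b, h1, h2, fun hv => h3 _ (Finset.mem_filter.2 ⟨by simp, hv⟩),
        fun hv => h3 _ (Finset.mem_filter.2 ⟨by simp, hv⟩)⟩)
    (fun v D D' hDD => by
      have hDD' : ∀ w : Vx α, w.l.length < (Vx.inv τ v).l.length → D w = D' w := fun w hw =>
        hDD w (by rwa [CI4b_inv_len] at hw)
      funext b
      refine propext ⟨fun hb => ⟨hb.1, hb.2.1, fun hv => ?_, fun hv => ?_⟩,
        fun hb => ⟨hb.1, hb.2.1, fun hv => ?_, fun hv => ?_⟩⟩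
      · exact CI4b_good_congr _ _ _ _ _ _ hDD b (hb.2.2.1 hv)
      · exact CI4b_good_congr _ _ _ _ _ _ hDD' b (hb.2.2.2 hv)
      · exact CI4b_good_congr _ _ _ _ _ _ (fun w hw => (hDD w hw).symm) b (hb.2.2.1 hv)
      · exact CI4b_good_congr _ _ _ _ _ _ (fun w hw => (hDD' w hw).symm) b (hb.2.2.2 hv))
    (fun v D _ => by
      funext b
      rw [CI4b_inv_inv hτ]
      exact propext ⟨fun hb => ⟨hb.1, hb.2.1, hb.2.2.2, hb.2.2.1⟩,
        fun hb => ⟨hb.1, hb.2.1, hb.2.2.2, hb.2.2.1⟩⟩)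
  exact ⟨D, hi, fun v => ⟨(hD v).1, (hD v).2.1, (hD v).2.2.1⟩⟩

end Pool.Agent.MP_5cfeaf_gt.W

end

section

/-! Block C, interpolation: light sets, pasting of measures. -/

set_option autoImplicit false

open MeasureTheory Set Filter Topology Metric
open scoped ENNReal symmDiff Classical InnerProductSpace ContDiff

namespace Pool.Agent.MP_5cfeaf_gt.W

variable {d : ℕ}

theorem CI3b_pm_empty (A : Set (R d)) : pm (∅ : Set (R d)) A = 0 := by
  have h : pm (∅ : Set (R d)) univ = 0 := by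
    rw [pm_open _ isOpen_univ]
    simp only [Per, subset_univ, true_and, Measure.restrict_empty, integral_zero_measure, ENNReal.ofReal_zero, ENNReal.iSup_zero, ciSup_const]
  exact le_antisymm ((measure_mono (subset_univ A)).trans h.le) bot_le

theorem CI3b_step {Ω Z : Set (R d)} (hΩ : MeasurableSet Ω) (hZ : IsOpen Z) (hf : pm Ω (B d) < ⊤)
    {m : ℝ≥0∞} (hp : 3 * perr univ Z ≤ m) (hh : m + m ≤ pm Ω (Z ∩ B d)) :
    pm (Ω \ Z) (B d) + m ≤ pm Ω (B d) := by
  have h := paste_reg (G := ∅) (Ω := Ω) (U := B d) (Z := Z) MeasurableSet.empty hΩ isOpen_ball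
    hZ.measurableSet (by rw [CI3b_pm_empty]; exact ENNReal.zero_lt_top) hf
  rw [empty_inter, empty_union, CI3b_pm_empty, zero_add, hZ.isClosed_compl.closure_eq] at h
  have h2 : perr ((∅ ∆ Ω) ∩ B d) Z ≤ perr univ Z := perr_mono (subset_univ _) Z
  have h3 : pm (Ω \ Z) (B d) ≤ pm Ω (B d \ Z) + m :=
    h.trans (add_le_add le_rfl ((mul_le_mul_right h2 3).trans hp))
  calc pm (Ω \ Z) (B d) + m ≤ pm Ω (B d \ Z) + m + m := add_le_add h3 le_rfl
    _ = (m + m) + pm Ω (B d \ Z) := by ring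
    _ ≤ pm Ω (B d ∩ Z) + pm Ω (B d \ Z) := by
        rw [inter_comm (B d) Z]; exact add_le_add hh le_rfl
    _ = pm Ω (B d) := measure_inter_add_sdiff _ hZ.measurableSet

theorem CI3b_ind {μ₀ ρ : ℝ} (hμ : 0 < μ₀) (hρ : 0 < ρ)
    (hp : ∀ q : R d, 3 * perr univ (cube q (2 * ρ)) ≤ ENNReal.ofReal (μ₀ / 2)) (n : ℕ) :
    ∀ Ω : Set (R d), MeasurableSet Ω → pm Ω (B d) ≤ ENNReal.ofReal (n * (μ₀ / 2)) →
      ∃ Ω', MeasurableSet Ω' ∧ pm Ω' (B d) ≤ pm Ω (B d) ∧
        volume (Ω ∆ Ω') ≤ ENNReal.ofReal (n * (4 * ρ) ^ (d + 1)) ∧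
        ∀ q, pm Ω' (cube q (2 * ρ) ∩ B d) ≤ ENNReal.ofReal μ₀ := by
  induction n with
  | zero =>
    intro Ω hΩ h
    refine ⟨Ω, hΩ, le_rfl, by simp only [symmDiff_self, bot_eq_empty, measure_empty, CharP.cast_eq_zero, zero_mul, ENNReal.ofReal_zero, Std.le_refl], fun q => ?_⟩
    refine (measure_mono inter_subset_right).trans (h.trans ?_)
    simp
  | succ n ih =>
    intro Ω hΩ h
    by_cases hl : ∀ q, pm Ω (cube q (2 * ρ) ∩ B d) ≤ ENNReal.ofReal μ₀
    · exact ⟨Ω, hΩ, le_rfl, by simp only [symmDiff_self, bot_eq_empty, measure_empty, Nat.cast_add, Nat.cast_one, zero_le], hl⟩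
    obtain ⟨q, hq⟩ := not_forall.1 hl
    have hq' := (not_le.1 hq).le
    have hZ := isOpen_cube q (2 * ρ)
    have hs := CI3b_step hΩ hZ (h.trans_lt ENNReal.ofReal_lt_top) (hp q) (by
      rw [← ENNReal.ofReal_add (by positivity) (by positivity), add_halves]; exact hq')
    have h1 : pm (Ω \ cube q (2 * ρ)) (B d) ≤ ENNReal.ofReal (n * (μ₀ / 2)) := by
      have e : ENNReal.ofReal (((n + 1 : ℕ) : ℝ) * (μ₀ / 2)) =
          ENNReal.ofReal (n * (μ₀ / 2)) + ENNReal.ofReal (μ₀ / 2) := by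
        rw [← ENNReal.ofReal_add (by positivity) (by positivity)]
        push_cast
        rw [add_mul, one_mul]
      rw [e] at h
      exact ENNReal.le_of_add_le_add_right ENNReal.ofReal_ne_top (hs.trans h)
    obtain ⟨Ω', m', p', v', l'⟩ := ih _ (hΩ.diff hZ.measurableSet) h1
    refine ⟨Ω', m', p'.trans (le_self_add.trans hs), ?_, l'⟩
    have hsub : Ω ∆ Ω' ⊆ (Ω \ cube q (2 * ρ)) ∆ Ω' ∪ cube q (2 * ρ) := by
      intro x hx
      simp only [mem_union, mem_symmDiff, Set.mem_sdiff] at hx ⊢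
      tauto
    have hv := volume_cube q (r := 2 * ρ) (by positivity)
    refine (measure_mono hsub).trans ((measure_union_le _ _).trans ((add_le_add v' hv).trans ?_))
    rw [← ENNReal.ofReal_add (by positivity) (by positivity)]
    apply ENNReal.ofReal_le_ofReal
    have e : 2 * (2 * ρ) = 4 * ρ := by ring
    rw [e]
    push_cast
    rw [add_mul, one_mul]

/-- Removing heavy cubes.  Induction on `n` with `pm Ω B ≤ n μ₀ / 2`: if some cube `Z = cube q (2 ρ)` has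
`pm Ω (Z ∩ B) > μ₀`, then `paste_reg` with `G = ∅` (`pm ∅ = 0`) and `perr_cube` give
`pm (Ω \ Z) B ≤ pm Ω (B \ Z) + 3 C (2 ρ)^d ≤ pm Ω B - μ₀ / 2` for small `ρ` (`Zᶜ` is closed). -/
theorem exists_light (hd : 1 ≤ d) (L : ℝ) {μ₀ : ℝ} (hμ : 0 < μ₀) : ∃ C > 0, ∃ ρ₀ > 0, ∀ ρ ∈ Ioc (0 : ℝ) ρ₀,
    ∀ Ω : Set (R d), FA L Ω → ∃ Ω', FA L Ω' ∧ volume (Ω ∆ Ω') ≤ ENNReal.ofReal (C * ρ ^ (d + 1)) ∧
      ∀ q, pm Ω' (cube q (2 * ρ) ∩ B d) ≤ ENNReal.ofReal μ₀ := by
  obtain ⟨C, hC, hc⟩ := perr_cube d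
  refine ⟨(⌈L / (μ₀ / 2)⌉₊ + 1) * 4 ^ (d + 1), by positivity, min (1 / 2) (μ₀ / (12 * C)),
    by positivity, fun ρ hρ Ω hΩ => ?_⟩
  have hρ0 := hρ.1
  have hρ1 : ρ ≤ 1 / 2 := hρ.2.trans (min_le_left _ _)
  have hρ2 : ρ ≤ μ₀ / (12 * C) := hρ.2.trans (min_le_right _ _)
  have hp : ∀ q : R d, 3 * perr univ (cube q (2 * ρ)) ≤ ENNReal.ofReal (μ₀ / 2) := by
    intro q
    refine (mul_le_mul_right (hc q (2 * ρ) (by positivity)) 3).trans ?_
    have e : (3 : ℝ≥0∞) = ENNReal.ofReal 3 := by simp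
    rw [e, ← ENNReal.ofReal_mul (by norm_num)]
    apply ENNReal.ofReal_le_ofReal
    have h1 : (2 * ρ) ^ d ≤ 2 * ρ := pow_le_of_le_one (by positivity) (by linarith only [hρ1]) (by omega)
    have h2 : ρ * (12 * C) ≤ μ₀ := (le_div_iff₀ (by positivity)).1 hρ2
    have h3 : C * (2 * ρ) ^ d ≤ C * (2 * ρ) := mul_le_mul_of_nonneg_left h1 hC.le
    linarith only [h2, h3]
  have hL : L ≤ (⌈L / (μ₀ / 2)⌉₊ : ℝ) * (μ₀ / 2) :=
    (div_le_iff₀ (by positivity)).1 (Nat.le_ceil _)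
  obtain ⟨Ω', m', p', v', l'⟩ := CI3b_ind hμ hρ0 hp ⌈L / (μ₀ / 2)⌉₊ Ω hΩ.1
    (hΩ.2.trans (ENNReal.ofReal_le_ofReal hL))
  refine ⟨Ω', ⟨m', p'.trans hΩ.2⟩, v'.trans (ENNReal.ofReal_le_ofReal ?_), l'⟩
  rw [mul_pow, ← mul_assoc]
  apply mul_le_mul_of_nonneg_right _ (by positivity)
  apply mul_le_mul_of_nonneg_right _ (by positivity)
  linarith only []

/-- equivariant version (`exists_equiv_choice`, `pm_compl`, `compl_symmDiff_compl`) -/
theorem exists_light_equiv (hd : 1 ≤ d) (L : ℝ) {μ₀ : ℝ} (hμ : 0 < μ₀) : ∃ C > 0, ∃ ρ₀ > 0,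
    ∀ ρ ∈ Ioc (0 : ℝ) ρ₀, ∃ H : Set (R d) → Set (R d), (∀ Ω, H Ωᶜ = (H Ω)ᶜ) ∧ ∀ Ω, FA L Ω →
      FA L (H Ω) ∧ volume (Ω ∆ H Ω) ≤ ENNReal.ofReal (C * ρ ^ (d + 1)) ∧
      ∀ q, pm (H Ω) (cube q (2 * ρ) ∩ B d) ≤ ENNReal.ofReal μ₀ := by
  obtain ⟨C, hC, ρ₀, hρ₀, h⟩ := exists_light hd L hμ
  refine ⟨C, hC, ρ₀, hρ₀, fun ρ hρ => ?_⟩
  obtain ⟨H, hH, hH'⟩ := exists_equiv_choice (τ := (compl : Set (R d) → Set (R d)))
    (κ := (compl : Set (R d) → Set (R d))) compl_compl compl_compl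
    (Q := fun Ω Ω' => FA L Ω → FA L Ω' ∧ volume (Ω ∆ Ω') ≤ ENNReal.ofReal (C * ρ ^ (d + 1)) ∧
      ∀ q, pm Ω' (cube q (2 * ρ) ∩ B d) ≤ ENNReal.ofReal μ₀)
    (fun Ω => by
      by_cases hΩ : FA L Ω
      · obtain ⟨Ω', h'⟩ := h ρ hρ Ω hΩ
        exact ⟨Ω', fun _ => h'⟩
      · exact ⟨Ω, fun h' => absurd h' hΩ⟩)
    (fun Ω Ω' hQ hΩ => by
      have hm : MeasurableSet Ω := MeasurableSet.compl_iff.1 hΩ.1
      have hΩ' : FA L Ω := ⟨hm, by rw [← pm_compl hm]; exact hΩ.2⟩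
      obtain ⟨h1, h2, h3⟩ := hQ hΩ'
      refine ⟨⟨h1.1.compl, by rw [pm_compl h1.1]; exact h1.2⟩, ?_, ?_⟩
      · rw [compl_symmDiff_compl]; exact h2
      · rw [pm_compl h1.1]; exact h3)
  refine ⟨H, fun Ω => hH' Ω fun he => ?_, hH⟩
  have h0 : (0 : R d) ∈ Ωᶜ ↔ (0 : R d) ∈ Ω := by rw [he]
  exact not_iff_self h0

/-- Region paste at the level of measures.  For open `V` with `A ⊆ V ⊆ U` use `paste_reg` in `V` and the hypotheses for
`V ∩ closure Z`, `V ∩ closure Zᶜ`; then outer regularity of the finite measure on the right (`Set.exists_isOpen_lt_add` or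
`Set.measure_eq_iInf_isOpen`). -/
theorem paste_meas {G Ω U Z P Q D : Set (R d)} (hG : MeasurableSet G) (hΩ : MeasurableSet Ω)
    (hU : IsOpen U) (hZ : MeasurableSet Z) (hP : MeasurableSet P) (hQ : MeasurableSet Q)
    (hZP : closure Z ⊆ P) (hZQ : closure Zᶜ ⊆ Q) (hD : (G ∆ Ω) ∩ U ⊆ D) {α β : Measure (R d)}
    (hα : α univ < ⊤) (hβ : β univ < ⊤) {e : ℝ≥0∞} (he : e < ⊤)
    (h₁ : ∀ A, MeasurableSet A → A ⊆ U → pm G A ≤ α A)
    (h₂ : ∀ A, MeasurableSet A → A ⊆ U → pm Ω A ≤ β A + e) (A : Set (R d)) (hA : MeasurableSet A)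
    (hAU : A ⊆ U) :
    pm ((G ∩ Z) ∪ (Ω \ Z)) A ≤ (α.restrict P + β.restrict Q) A + (e + 3 * perr D Z) := by
  have : IsFiniteMeasure α := ⟨hα⟩
  have : IsFiniteMeasure β := ⟨hβ⟩
  refine ENNReal.le_of_forall_pos_le_add fun ε hε _ => ?_
  obtain ⟨V₀, hAV, hV₀, hlt⟩ := Set.exists_isOpen_lt_add (μ := α.restrict P + β.restrict Q) A
    (measure_ne_top _ _) (ε := (ε : ℝ≥0∞)) (by exact_mod_cast hε.ne')
  have hV : IsOpen (V₀ ∩ U) := hV₀.inter hU
  have hVm := hV.measurableSet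
  have hVU : V₀ ∩ U ⊆ U := inter_subset_right
  have h := paste_reg hG hΩ hV hZ ((h₁ _ hVm hVU).trans_lt (measure_lt_top _ _))
    ((h₂ _ hVm hVU).trans_lt (ENNReal.add_lt_top.2 ⟨measure_lt_top _ _, he⟩))
  have e₁ : pm G (V₀ ∩ U ∩ closure Z) ≤ α.restrict P V₀ := by
    refine (h₁ _ (hVm.inter isClosed_closure.measurableSet) (inter_subset_left.trans hVU)).trans ?_
    rw [Measure.restrict_apply hV₀.measurableSet]
    exact measure_mono (inter_subset_inter inter_subset_left hZP)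
  have e₂ : pm Ω (V₀ ∩ U ∩ closure Zᶜ) ≤ β.restrict Q V₀ + e := by
    refine (h₂ _ (hVm.inter isClosed_closure.measurableSet) (inter_subset_left.trans hVU)).trans ?_
    rw [Measure.restrict_apply hV₀.measurableSet]
    exact add_le_add (measure_mono (inter_subset_inter inter_subset_left hZQ)) le_rfl
  have e₃ : perr ((G ∆ Ω) ∩ (V₀ ∩ U)) Z ≤ perr D Z :=
    perr_mono ((inter_subset_inter_right _ hVU).trans hD) Z
  calc pm ((G ∩ Z) ∪ (Ω \ Z)) A ≤ pm ((G ∩ Z) ∪ (Ω \ Z)) (V₀ ∩ U) :=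
        measure_mono (subset_inter hAV hAU)
    _ ≤ α.restrict P V₀ + (β.restrict Q V₀ + e) + 3 * perr D Z :=
        h.trans (add_le_add (add_le_add e₁ e₂) (mul_le_mul_right e₃ 3))
    _ = (α.restrict P + β.restrict Q) V₀ + (e + 3 * perr D Z) := by
        rw [Measure.add_apply]; ring
    _ ≤ (α.restrict P + β.restrict Q) A + ε + (e + 3 * perr D Z) := add_le_add hlt.le le_rfl
    _ = (α.restrict P + β.restrict Q) A + (e + 3 * perr D Z) + ε := by ring

end Pool.Agent.MP_5cfeaf_gt.W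

end

section

/-! Block C, interpolation: estimates along a chain. -/

set_option autoImplicit false

open MeasureTheory Set Filter Topology Metric
open scoped ENNReal symmDiff Classical InnerProductSpace ContDiff

namespace Pool.Agent.MP_5cfeaf_gt.W

variable {d : ℕ}

section
variable {α : Type}

theorem CI5_head {v w : Vx α} (h : Below v w) : w.1 ∈ v.l :=
  h.1.subset (by simp [Vx.l])

theorem CI5_muH_univ {H : α → Set (R d)} {L : ℝ} {u : α} (hu : FA L (H u)) :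
    muH H u univ ≤ ENNReal.ofReal L := by
  simpa only [muH, MeasurableSet.univ, Measure.restrict_apply, univ_inter] using hu.2

theorem CI5_div {m : ℝ≥0∞} {X e : ℝ} {M : ℕ} (hM : 0 < M) (hX : 0 ≤ X) (he : 0 ≤ e)
    (h : m ≤ ENNReal.ofReal X) : m / M + ENNReal.ofReal e ≤ ENNReal.ofReal (X / M + e) := by
  have hM' : (0 : ℝ) < M := by exact_mod_cast hM
  rw [ENNReal.ofReal_add (by positivity) he, ENNReal.ofReal_div_of_pos hM', ENNReal.ofReal_natCast]
  gcongr

/-- Total mass of the upper measure.  Induction on `c`: for `p :: c` use `GoodV` at `p.1` for the chains `[]` (base `p.1.1`)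
and `c` (base `u`), `meas_Zp_Zm` (walls are null by `nuC_le'` with `b = 0`), and `(n + 1) + (M - n) = M + 1`. -/
theorem nuC_mass {H : α → Set (R d)} {k M : ℕ} (hM : 0 < M) {ρ e₁ e₂ L : ℝ} (hL : 0 ≤ L) (he : 0 ≤ e₂)
    {D : Vx α → ℝ × ((Fin (d + 1) → ℤ) → ℕ)} {u : α} (hu : FA L (H u)) {c : List (Vx α × ℕ)}
    (hc : c.length ≤ k + 1) (hp : c.Pairwise fun p q => Below p.1 q.1)
    (h : ∀ p ∈ c, p.2 ≤ M ∧ u ∈ p.1.l ∧ FA L (H p.1.1) ∧ (∀ κ, (D p.1).2 κ < M) ∧
      GoodV H k M ρ e₁ e₂ D p.1 (D p.1)) :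
    nuC (muH H) (fun w n => Zp (D w).1 ρ (D w).2 n) (fun w n => Zm (D w).1 ρ (D w).2 n) u c univ ≤
      ENNReal.ofReal (L + c.length * (L / M + (M + 1) * e₂)) := by
  induction c with
  | nil => simpa only [nuC, List.length_nil, CharP.cast_eq_zero, zero_mul, add_zero] using CI5_muH_univ hu
  | cons p c ih =>
    have hM' : (0 : ℝ) < M := by exact_mod_cast hM
    rw [List.pairwise_cons] at hp
    have hc' : c.length ≤ k + 1 := by simp only [List.length_cons] at hc; omega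
    have ih' := ih hc' hp.2 fun q hq => h q (List.mem_cons_of_mem _ hq)
    obtain ⟨hn, hup, hF, hlab, hg, -, hG⟩ := h p List.mem_cons_self
    have hhead : p.1.1 ∈ p.1.l := by simp [Vx.l]
    set X : ℝ := L + c.length * (L / M + (M + 1) * e₂) with hX
    have hLX : L ≤ X := by rw [hX]; exact le_add_of_nonneg_right (by positivity)
    have h1 : muH H p.1.1 (Zp (D p.1).1 ρ (D p.1).2 p.2) ≤
        (p.2 + 1 : ℕ) * ENNReal.ofReal (L / M + e₂) := by
      refine (meas_Zp_Zm hlab (hg _ hhead) fun i => ?_).1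
      have := hG _ hhead [] (by simp) (by simp) i
      exact this.trans (CI5_div hM hL he (CI5_muH_univ hF))
    have h2 : nuC (muH H) (fun w n => Zp (D w).1 ρ (D w).2 n) (fun w n => Zm (D w).1 ρ (D w).2 n) u c
        (Zm (D p.1).1 ρ (D p.1).2 p.2) ≤ (M - p.2 : ℕ) * ENNReal.ofReal (X / M + e₂) := by
      refine (meas_Zp_Zm hlab ?_ fun i => ?_).2
      · refine le_antisymm ?_ zero_le
        have := nuC_le' (μ := muH H) (fun w n => Zp (D w).1 ρ (D w).2 n)
          (fun w n => Zm (D w).1 ρ (D w).2 n) (u := u) (c := c) (A := grid (D p.1).1 ρ) (b := 0)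
          (hg _ hup).le fun q hq => (hg _ (CI5_head (hp.1 q hq))).le
        simpa only [nonpos_iff_eq_zero, Nat.cast_add, Nat.cast_one, mul_zero] using this
      · have := hG _ hup c hc' (fun q hq => ⟨hp.1 q hq, (h q (List.mem_cons_of_mem _ hq)).1⟩) i
        exact this.trans (CI5_div hM (hL.trans hLX) he ih')
    simp only [nuC, Measure.add_apply, Measure.restrict_apply_univ]
    refine (add_le_add h1 h2).trans ?_
    have hX0 : 0 ≤ X := hL.trans hLX
    rw [← ENNReal.ofReal_natCast, ← ENNReal.ofReal_natCast, ← ENNReal.ofReal_mul (by positivity),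
      ← ENNReal.ofReal_mul (by positivity), ← ENNReal.ofReal_add (by positivity) (by positivity)]
    refine ENNReal.ofReal_le_ofReal ?_
    have hn' : (0 : ℝ) ≤ p.2 := by positivity
    have hd : L / M ≤ X / M := by gcongr
    have hXM : (M : ℝ) * (X / M) = X := by field_simp
    rw [Nat.cast_sub hn]
    simp only [List.length_cons, Nat.cast_add, Nat.cast_one]
    have : L + (c.length + 1) * (L / M + (M + 1) * e₂) = X + (L / M + (M + 1) * e₂) := by
      rw [hX]; ring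
    rw [this]
    linarith only [mul_le_mul_of_nonneg_left hd hn', hXM]

/-- The perimeter measure of the pasted set.  Induction on `l` with `paste_meas`; `mem_pasteL` puts
`(H v.1 ∆ pasteL l) ∩ U` into `Dv H v ∩ U` (heads of vertices below `v` are entries of `v.l`). -/
theorem pm_pasteL {H : α → Set (R d)} {Z : Vx α → Set (R d)} {P Q : Vx α → ℕ → Set (R d)}
    {n : Vx α → ℕ} {u : α} {L : ℝ} (hu : FA L (H u)) {U : Set (R d)} (hU : IsOpen U) (hUB : U ⊆ B d)
    {e : ℝ≥0∞} (he : e < ⊤) {l : List (Vx α)} (hl : l.Pairwise Below)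
    (h : ∀ v ∈ l, u ∈ v.l ∧ FA L (H v.1) ∧ MeasurableSet (Z v) ∧ MeasurableSet (P v (n v)) ∧
      MeasurableSet (Q v (n v)) ∧ closure (Z v) ⊆ P v (n v) ∧ closure (Z v)ᶜ ⊆ Q v (n v) ∧
      3 * perr (Dv H v ∩ U) (Z v) ≤ e)
    (A : Set (R d)) (hA : MeasurableSet A) (hAU : A ⊆ U) :
    pm (pasteL H Z u l) A ≤ nuC (muH H) P Q u (l.map fun v => (v, n v)) A + l.length * e := by
  have hmu : ∀ (w : α) (A : Set (R d)), MeasurableSet A → A ⊆ U → pm (H w) A ≤ muH H w A := by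
    intro w A hA hAU
    rw [muH, Measure.restrict_apply hA, inter_eq_left.2 (hAU.trans hUB)]
  induction l generalizing A with
  | nil => simpa [pasteL, nuC] using hmu u A hA hAU
  | cons v l ih =>
    rw [List.pairwise_cons] at hl
    have h' : ∀ w ∈ l, _ := fun w hw => h w (List.mem_cons_of_mem _ hw)
    obtain ⟨huv, hF, hZ, hP, hQ, hZP, hZQ, hpe⟩ := h v List.mem_cons_self
    have hΩ : MeasurableSet (pasteL H Z u l) :=
      measurableSet_pasteL hu.1 fun w hw => ⟨(h' w hw).2.1.1, (h' w hw).2.2.1⟩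
    have hD : (H v.1 ∆ pasteL H Z u l) ∩ U ⊆ Dv H v ∩ U := by
      rintro y ⟨hy, hyU⟩
      refine ⟨⟨hUB hyU, ?_⟩, hyU⟩
      rcases mem_pasteL H Z u l y with h1 | ⟨w, hw, h1⟩
      · exact ⟨u, huv, by simpa only [mem_symmDiff, h1] using hy⟩
      · exact ⟨w.1, CI5_head (hl.1 w hw), by simpa only [mem_symmDiff, h1] using hy⟩
    have hβ : nuC (muH H) P Q u (l.map fun v => (v, n v)) univ < ⊤ := by
      refine (nuC_le' P Q (b := ENNReal.ofReal L) (CI5_muH_univ hu) fun q hq => ?_).trans_lt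
        (ENNReal.mul_lt_top (ENNReal.natCast_lt_top _) ENNReal.ofReal_lt_top)
      obtain ⟨w, hw, rfl⟩ := List.mem_map.1 hq
      exact CI5_muH_univ (h' w hw).2.1
    have := paste_meas hF.1 hΩ hU hZ hP hQ hZP hZQ hD
      ((CI5_muH_univ hF).trans_lt ENNReal.ofReal_lt_top) hβ
      (ENNReal.mul_lt_top (ENNReal.natCast_lt_top l.length) he) (hmu v.1)
      (fun A hA hAU => ih hl.2 h' A hA hAU) A hA hAU
    refine this.trans ?_
    simp only [List.map_cons, nuC, List.length_cons, Nat.cast_add, Nat.cast_one, add_mul, one_mul]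
    gcongr

end

end Pool.Agent.MP_5cfeaf_gt.W

end

section

/-! Block C: the interpolation theorem. -/

set_option autoImplicit false

open MeasureTheory Set Filter Topology Metric
open scoped ENNReal symmDiff Classical InnerProductSpace ContDiff

namespace Pool.Agent.MP_5cfeaf_gt.W

variable {d : ℕ}

/-- progress of a vertex -/
noncomputable def CI_s (k M : ℕ) (t : ℝ) : ℝ := M * min 1 ((k + 1 : ℝ) * t)

theorem CI_s_nonneg (k M : ℕ) {t : ℝ} (ht : 0 ≤ t) : 0 ≤ CI_s k M t := by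
  unfold CI_s; positivity

theorem CI_s_floor (k M : ℕ) (t : ℝ) : ⌊CI_s k M t⌋₊ ≤ M := by
  apply Nat.floor_le_of_le
  unfold CI_s
  calc (M : ℝ) * min 1 ((k + 1 : ℝ) * t) ≤ M * 1 := by gcongr; exact min_le_left _ _
    _ = M := mul_one _

theorem CI_s_lip (k M N : ℕ) {t t' σ : ℝ} (h : |t - t'| ≤ σ) :
    |CI_s k M t * N - CI_s k M t' * N| ≤ M * N * (k + 1) * σ := by
  unfold CI_s
  have h1 : |min 1 ((k + 1 : ℝ) * t) - min 1 ((k + 1 : ℝ) * t')| ≤ (k + 1) * σ := by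
    refine (abs_min_sub_min_le_max _ _ _ _).trans ?_
    rw [sub_self, abs_zero, ← mul_sub, abs_mul, abs_of_nonneg (by positivity : (0 : ℝ) ≤ k + 1)]
    have := (abs_nonneg _).trans h
    exact max_le (by positivity) (by gcongr)
  calc _ = |(M * N : ℝ) * (min 1 ((k + 1 : ℝ) * t) - min 1 ((k + 1 : ℝ) * t'))| := by ring_nf
    _ = M * N * |min 1 ((k + 1 : ℝ) * t) - min 1 ((k + 1 : ℝ) * t')| := by
      rw [abs_mul, abs_of_nonneg (by positivity : (0 : ℝ) ≤ M * N)]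
    _ ≤ M * N * ((k + 1) * σ) := by gcongr
    _ = _ := by ring

theorem CI_tbox_cube (p : R d) {ρ : ℝ} (hρ : 0 < ρ) (w : ℝ) : tbox p 0 ρ w ⊆ cube p (2 * ρ) :=
  fun y hy j => (hy.1 j).trans_lt (by linarith)

theorem CI_FR {H : Set (R d) → Set (R d)} {a b : Set (R d)} {η c : ℝ} (hη : 0 ≤ η) (hc : 0 ≤ c)
    (ha : volume (a ∆ H a) ≤ ENNReal.ofReal c) (hb : volume (b ∆ H b) ≤ ENNReal.ofReal c)
    (h : FR η a b) : FR (η + 2 * c) (H a) (H b) := by
  have hs : (H a ∆ H b) ∩ B d ⊆ (a ∆ b) ∩ B d ∪ (a ∆ H a ∪ b ∆ H b) := by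
    intro y hy
    simp only [mem_inter_iff, mem_union, mem_symmDiff] at hy ⊢
    tauto
  refine (measure_mono hs).trans ((measure_union_le _ _).trans ?_)
  rw [ENNReal.ofReal_add hη (by positivity), two_mul, ENNReal.ofReal_add hc hc]
  exact add_le_add h ((measure_union_le _ _).trans (add_le_add ha hb))

theorem CI_cont {V : Type} {F : Finset V} {f : (V → ℝ) → ℝ≥0∞} {x : V → ℝ} (hx : x ∈ simplex F)
    (h : ∀ η > 0, ∃ σ > 0, ∀ y ∈ simplex F, (∀ v, |y v - x v| ≤ σ) → f y ≤ ENNReal.ofReal η) :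
    Tendsto f (𝓝[simplex F] x) (𝓝 0) := by
  rw [ENNReal.tendsto_nhds_zero]
  intro ε hε
  obtain ⟨η, hη, hηε⟩ : ∃ η : ℝ, 0 < η ∧ ENNReal.ofReal η ≤ ε := by
    obtain ⟨r, -, h1, h2⟩ := ENNReal.lt_iff_exists_real_btwn.1 hε
    exact ⟨r, ENNReal.ofReal_pos.1 h1, h2.le⟩
  obtain ⟨σ, hσ, hf⟩ := h η hη
  have h1 : ∀ᶠ y in 𝓝 x, ∀ v ∈ F, |y v - x v| ≤ σ := by
    rw [eventually_all_finset]
    intro v _
    have : Tendsto (fun y : V → ℝ => |y v - x v|) (𝓝 x) (𝓝 |x v - x v|) :=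
      (((continuous_apply v).sub continuous_const).abs).tendsto x
    rw [sub_self, abs_zero] at this
    exact this.eventually (ge_mem_nhds hσ)
  filter_upwards [self_mem_nhdsWithin, nhdsWithin_le_nhds h1] with y hy hy'
  refine (hf y hy fun v => ?_).trans hηε
  by_cases hv : v ∈ F
  · exact hy' v hv
  · rw [hy.2.1 v hv, hx.2.1 v hv, sub_self, abs_zero]; exact hσ.le

/-- the construction, with all parameters fixed -/
theorem CI_core (hd : 1 ≤ d) (k : ℕ) {L δ η ρ μ₀ e₁ e₂ Cz : ℝ} {M : ℕ} (hL : 0 ≤ L) (hM : 0 < M)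
    (hρ : 0 < ρ) (hμ : 0 ≤ μ₀) (he₁ : 0 ≤ e₁) (he₂ : 0 ≤ e₂) (hCz : 0 ≤ Cz)
    (hz : ∀ (a : ℝ) (t : (Fin (d + 1) → ℤ) → ℕ) (τ : ℝ) (D : Set (R d)), InjB a ρ t → D ⊆ B d →
      perr D (Zs a ρ t τ) ≤ gerr D a ρ + ENNReal.ofReal Cz)
    (h1 : (k + 1) * (L / M + (M + 1) * e₂) + (k + 1) * (3 * (e₁ + Cz)) ≤ δ)
    (h2 : (k + 2) * ((k + 1) * (2 * μ₀)) + (k + 1) * (3 * (e₁ + Cz)) ≤ δ)
    {H : Set (R d) → Set (R d)} (hH : ∀ Ω, H Ωᶜ = (H Ω)ᶜ)
    (hH' : ∀ Ω, FA L Ω → FA L (H Ω) ∧ ∀ q, pm (H Ω) (cube q (2 * ρ) ∩ B d) ≤ ENNReal.ofReal μ₀)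
    {D : Vx (Set (R d)) → ℝ × ((Fin (d + 1) → ℤ) → ℕ)} (hD : ∀ v, D (Vx.inv compl v) = D v)
    (hD' : ∀ v, (D v).1 ∈ Ico (0 : ℝ) ρ ∧ (∀ κ, (D v).2 κ < M) ∧
      (Adm k (FA L) (FR η) v → GoodV H k M ρ e₁ e₂ D v (D v))) :
    ∃ G : (Vx (Set (R d)) → ℝ) → Set (R d), ∀ F, IsFlag k (FA L) (FR η) F →
      (∀ x ∈ simplex F, G (x ∘ Vx.inv compl) = (G x)ᶜ ∧ FA (L + δ) (G x) ∧
        Tendsto (fun y => volume ((G y ∆ G x) ∩ B d)) (𝓝[simplex F] x) (𝓝 0)) ∧
      (∀ η' > 0, ∃ σ > 0, ∀ x ∈ simplex F, ∀ x' ∈ simplex F, (∀ v, |x v - x' v| ≤ σ) →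
        FR η' (G x) (G x') ∧ Loc δ (G x) (G x')) ∧
      Tendsto (fun r : ℝ => ⨆ x ∈ simplex F, ⨆ q ∈ closedBall (0 : R d) 1,
        pm (G x) (ball q r ∩ B d)) (𝓝[>] 0) (𝓝 0) := by
  obtain ⟨N, num, hN, hnum⟩ := exists_num d hρ
  set t : Vx (Set (R d)) → (Fin (d + 1) → ℤ) → ℕ := fun v κ => (D v).2 κ * N + num κ with ht
  have hinj : ∀ v, InjB (D v).1 ρ (t v) := fun v => (hnum _ (hD' v).1).lab hN _
  set Z : (Vx (Set (R d)) → ℝ) → Vx (Set (R d)) → Set (R d) :=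
    fun x v => Zs (D v).1 ρ (t v) (CI_s k M (x v) * N) with hZ
  refine ⟨fun x => Gset H (Z x), fun F hF => ?_⟩
  obtain ⟨l, hlF, hl, hlk, hFk, u, hu⟩ := hF.exists_list
  have hadm : ∀ v ∈ l, Adm k (FA L) (FR η) v := fun v hv => hF.2.1 v ((hlF v).1 hv)
  have hhead : ∀ v ∈ l, FA L v.1 := fun v hv => (hadm v hv).2.1 _ (by simp [Vx.l])
  have huA : FA L u := by
    obtain ⟨v, hv⟩ := hF.1
    exact (hadm v ((hlF v).2 hv)).2.1 _ (hu v ((hlF v).2 hv))
  have hZ0 : ∀ x ∈ simplex F, ∀ w, w ∉ l → Z x w = ∅ := by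
    intro x hx w hw
    have : x w = 0 := hx.2.1 w fun h => hw ((hlF w).2 h)
    simp only [hZ, this, CI_s, mul_zero, min_eq_right (zero_le_one' ℝ), zero_mul]
    exact Zs_zero _ _ _
  have hZ1 : ∀ x ∈ simplex F, ∃ v ∈ l, Z x v = univ := by
    intro x hx
    obtain ⟨v, hv, h⟩ := exists_big hFk hx
    refine ⟨v, (hlF v).2 hv, ?_⟩
    simp only [hZ, CI_s, min_eq_left h, mul_one]
    rw [← Nat.cast_mul]
    refine Zs_top _ _ fun κ => ?_
    calc (D v).2 κ * N + num κ < (D v).2 κ * N + N := Nat.add_lt_add_left (hN κ) _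
      _ = ((D v).2 κ + 1) * N := by ring
      _ ≤ M * N := Nat.mul_le_mul_right _ ((hD' v).2.1 κ)
  have hG : ∀ x ∈ simplex F, Gset H (Z x) = pasteL H (Z x) u l := fun x hx =>
    Gset_eq u hl (hZ0 x hx) (hZ1 x hx)
  set ν : (Vx (Set (R d)) → ℝ) → Measure (R d) := fun x => nuC (muH H)
    (fun w n => Zp (D w).1 ρ (D w).2 n) (fun w n => Zm (D w).1 ρ (D w).2 n) u
    (l.map fun v => (v, ⌊CI_s k M (x v)⌋₊)) with hν
  have hmeas : ∀ x ∈ simplex F, ∀ U, IsOpen U → U ⊆ B d → ∀ e : ℝ, 0 ≤ e →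
      (∀ v ∈ l, 3 * perr (Dv H v ∩ U) (Z x v) ≤ ENNReal.ofReal e) → ∀ A, MeasurableSet A → A ⊆ U →
      pm (Gset H (Z x)) A ≤ ν x A + ENNReal.ofReal ((k + 1) * e) := by
    intro x hx U hU hUB e he h A hA hAU
    rw [hG x hx]
    refine (pm_pasteL (P := fun w n => Zp (D w).1 ρ (D w).2 n) (Q := fun w n => Zm (D w).1 ρ (D w).2 n)
      (n := fun v => ⌊CI_s k M (x v)⌋₊) (e := ENNReal.ofReal e) (hH' u huA).1 hU hUB
      ENNReal.ofReal_lt_top hl
      (fun v hv => ?_) A hA hAU).trans ?_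
    · have hc := closure_Zs (a := (D v).1) hρ hN (D v).2 (CI_s_nonneg k M (hx.1 v))
      exact ⟨hu v hv, (hH' _ (hhead v hv)).1, measurableSet_Zs _ _ _ _, measurableSet_Zp _ _ _ _,
        measurableSet_Zm _ _ _ _, hc.1, hc.2, h v hv⟩
    · rw [ENNReal.ofReal_mul (by positivity)]
      gcongr
      rw [← ENNReal.ofReal_natCast]
      exact ENNReal.ofReal_le_ofReal (by exact_mod_cast hlk)
  have hglob : ∀ x ∈ simplex F, ∀ A, MeasurableSet A → A ⊆ B d →
      pm (Gset H (Z x)) A ≤ ν x A + ENNReal.ofReal ((k + 1) * (3 * (e₁ + Cz))) := by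
    intro x hx
    refine hmeas x hx _ isOpen_ball subset_rfl _ (by positivity) fun v hv => ?_
    rw [ENNReal.ofReal_mul (by norm_num), ENNReal.ofReal_ofNat, ENNReal.ofReal_add he₁ hCz]
    gcongr
    refine (hz _ _ _ _ (hinj v) inter_subset_right).trans ?_
    gcongr
    exact (gerr_mono inter_subset_left _ _).trans ((hD' v).2.2 (hadm v hv)).2.1
  have hνle : ∀ x A (b : ℝ≥0∞), MeasurableSet A → (∀ w, (w = u ∨ ∃ v ∈ l, w = v.1) →
      pm (H w) (A ∩ B d) ≤ b) → ν x A ≤ (k + 2 : ℕ) * b := by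
    intro x A b hA h
    refine (nuC_le' _ _ (b := b) ?_ fun p hp => ?_).trans ?_
    · rw [muH, Measure.restrict_apply hA]; exact h u (Or.inl rfl)
    · obtain ⟨v, hv, rfl⟩ := List.mem_map.1 hp
      rw [muH, Measure.restrict_apply hA]; exact h _ (Or.inr ⟨v, hv, rfl⟩)
    · rw [List.length_map]
      exact mul_le_mul_left (Nat.cast_le.2 (by omega)) _
  have hwA : ∀ w, (w = u ∨ ∃ v ∈ l, w = v.1) → FA L w := by
    rintro w (rfl | ⟨v, hv, rfl⟩)
    exacts [huA, hhead v hv]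
  have hpair : ∀ η' > 0, ∃ σ > 0, ∀ x ∈ simplex F, ∀ x' ∈ simplex F, (∀ v, |x v - x' v| ≤ σ) →
      FR η' (Gset H (Z x)) (Gset H (Z x')) ∧ Loc δ (Gset H (Z x)) (Gset H (Z x')) := by
    intro η' hη'
    set T : ℝ := M * N * (k + 1) with hT
    have hT0 : 0 ≤ T := by positivity
    set c : ℝ := (k + 1) * (2 * ((2 * ρ) ^ d * (2 * ρ))) with hc
    have hc0 : 0 < c := by positivity
    refine ⟨min 1 (η' / c) / (T + 1), by positivity, fun x hx x' hx' h => ?_⟩
    have hτ : ∀ v, |CI_s k M (x v) * N - CI_s k M (x' v) * N| ≤ min 1 (η' / c) := by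
      intro v
      refine (CI_s_lip k M N (h v)).trans ?_
      rw [← hT, mul_div_assoc', div_le_iff₀ (by positivity)]
      have : 0 ≤ min 1 (η' / c) := by positivity
      linarith only [this]
    have hb := fun v => symmDiff_Zs hρ (hinj v) ((hτ v).trans (min_le_left _ _))
    choose p q hpq using hb
    set w : ℝ := ρ * min 1 (η' / c) with hw
    set K : Set (R d) := ⋃ v ∈ F, (tbox (p v) 0 ρ w ∪ tbox (q v) 0 ρ w) with hK
    have hKc : IsClosed K :=
      isClosed_biUnion_finset fun v _ => (isClosed_tbox _ _ _ _).union (isClosed_tbox _ _ _ _)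
    have hsub : (Gset H (Z x) ∆ Gset H (Z x')) ∩ B d ⊆ K := by
      rintro y ⟨hy, hyB⟩
      obtain ⟨v, hv⟩ := mem_iUnion.1 (Gset_symmDiff H _ _ hy)
      have hvF : v ∈ F := by
        by_contra hn
        have hn' : v ∉ l := fun h => hn ((hlF v).1 h)
        rw [hZ0 x hx v hn', hZ0 x' hx' v hn'] at hv
        simp only [symmDiff_self, bot_eq_empty, mem_empty_iff_false] at hv
      refine mem_biUnion hvF ?_
      have hle : ρ * |CI_s k M (x v) * N - CI_s k M (x' v) * N| ≤ w := by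
        rw [hw]; gcongr; exact hτ v
      rcases hpq v ⟨hv, hyB⟩ with h | h
      · exact Or.inl ⟨h.1, h.2.trans hle⟩
      · exact Or.inr ⟨h.1, h.2.trans hle⟩
    have hsum : ∀ (m : Measure (R d)) (b : ℝ), 0 ≤ b →
        (∀ z, m (tbox z 0 ρ w) ≤ ENNReal.ofReal b) → m K ≤ ENNReal.ofReal ((k + 1) * (2 * b)) := by
      intro m b hb hm
      refine (measure_biUnion_finset_le _ _).trans ?_
      refine (Finset.sum_le_card_nsmul _ _ (ENNReal.ofReal (2 * b)) fun v _ => ?_).trans ?_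
      · rw [two_mul, ENNReal.ofReal_add hb hb]
        exact (measure_union_le _ _).trans (add_le_add (hm _) (hm _))
      · rw [nsmul_eq_mul, ENNReal.ofReal_mul (p := k + 1) (by positivity)]
        gcongr
        rw [← ENNReal.ofReal_natCast]
        exact ENNReal.ofReal_le_ofReal (by exact_mod_cast hFk)
    have hw0 : 0 ≤ w := by positivity
    have hloc : ∀ z ∈ simplex F, pm (Gset H (Z z)) (K ∩ B d) ≤ ENNReal.ofReal δ := by
      intro z hz'
      have hm : MeasurableSet (K ∩ B d) := hKc.measurableSet.inter measurableSet_ball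
      refine (hglob z hz' _ hm inter_subset_right).trans ?_
      refine le_trans ?_ (ENNReal.ofReal_le_ofReal h2)
      rw [ENNReal.ofReal_add (by positivity) (by positivity)]
      gcongr
      refine (hνle z _ (ENNReal.ofReal ((k + 1) * (2 * μ₀))) hm fun a ha => ?_).trans ?_
      · rw [inter_assoc, inter_self, ← Measure.restrict_apply hKc.measurableSet]
        refine hsum _ _ hμ fun y => ?_
        rw [Measure.restrict_apply (isClosed_tbox _ _ _ _).measurableSet]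
        exact (measure_mono (inter_subset_inter_left _ (CI_tbox_cube y hρ w))).trans
          ((hH' a (hwA a ha)).2 y)
      · rw [ENNReal.ofReal_mul (p := k + 2) (by positivity)]
        gcongr
        rw [← ENNReal.ofReal_natCast]
        exact ENNReal.ofReal_le_ofReal (by push_cast; rfl)
    refine ⟨(measure_mono hsub).trans ((hsum volume _ (by positivity)
      fun z => volume_tbox z 0 hρ.le hw0).trans (ENNReal.ofReal_le_ofReal ?_)),
      K, hKc, hsub, hloc x hx, hloc x' hx'⟩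
    calc (k + 1 : ℝ) * (2 * ((2 * ρ) ^ d * (2 * w))) = c * min 1 (η' / c) := by rw [hw, hc]; ring
      _ ≤ c * (η' / c) := by gcongr; exact min_le_right _ _
      _ = η' := by field_simp
  refine ⟨fun x hx => ⟨?_, ⟨?_, ?_⟩, ?_⟩, hpair, ?_⟩
  · rw [← Gset_inv (τ := compl) compl_compl hH hl (hZ0 x hx) (hZ1 x hx)]
    simp only [hZ, ht, hD, Function.comp_apply]
  · beta_reduce
    rw [hG x hx]
    exact measurableSet_pasteL (hH' u huA).1.1 fun v hv =>
      ⟨(hH' _ (hhead v hv)).1.1, measurableSet_Zs _ _ _ _⟩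
  · refine (hglob x hx _ measurableSet_ball subset_rfl).trans ?_
    have hm := nuC_mass (k := k) (ρ := ρ) (e₁ := e₁) (D := D) hM hL he₂ (hH' u huA).1
      (c := l.map fun v => (v, ⌊CI_s k M (x v)⌋₊)) (by rwa [List.length_map])
      (by rw [List.pairwise_map]; exact hl) (fun p hp => by
        obtain ⟨v, hv, rfl⟩ := List.mem_map.1 hp
        exact ⟨CI_s_floor _ _ _, hu v hv, (hH' _ (hhead v hv)).1, (hD' v).2.1,
          (hD' v).2.2 (hadm v hv)⟩)
    refine (add_le_add ((measure_mono (subset_univ _)).trans hm) le_rfl).trans ?_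
    rw [← ENNReal.ofReal_add (by positivity) (by positivity), List.length_map]
    refine ENNReal.ofReal_le_ofReal ?_
    have : (l.length : ℝ) * (L / M + (M + 1) * e₂) ≤ (k + 1) * (L / M + (M + 1) * e₂) := by
      gcongr; exact_mod_cast hlk
    linarith only [h1, this]
  · refine CI_cont hx fun η' hη' => ?_
    obtain ⟨σ, hσ, h⟩ := hpair η' hη'
    exact ⟨σ, hσ, fun y hy hyx => (h y hy x hx hyx).1⟩
  · obtain ⟨C, hC, hloc⟩ := perr_local d hρ
    set T : Finset (Set (R d)) := insert u (F.image fun v => v.1) with hT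
    set b : ℝ → ℝ≥0∞ := fun r => ∑ w ∈ T, ⨆ q ∈ closedBall (0 : R d) 1, pm (H w) (ball q r ∩ B d)
      with hb
    have hTm : ∀ w, w ∈ T ↔ (w = u ∨ ∃ v ∈ l, w = v.1) := by
      intro w
      simp only [hT, Finset.mem_insert, Finset.mem_image, hlF, eq_comm]
    have hb0 : Tendsto b (𝓝[>] 0) (𝓝 0) := by
      have := tendsto_finsetSum T fun w hw => pm_small hd (hH' w (hwA w ((hTm w).1 hw))).1.1
        ((hH' w (hwA w ((hTm w).1 hw))).1.2.trans_lt ENNReal.ofReal_lt_top)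
      rwa [Finset.sum_const_zero] at this
    have hr0 : Tendsto (fun r : ℝ => ENNReal.ofReal ((k + 1) * (3 * (C * r ^ d)))) (𝓝[>] 0) (𝓝 0) := by
      rw [← ENNReal.ofReal_zero]
      refine ENNReal.tendsto_ofReal (tendsto_nhdsWithin_of_tendsto_nhds ?_)
      have : Continuous fun r : ℝ => (k + 1 : ℝ) * (3 * (C * r ^ d)) := by fun_prop
      simpa [zero_pow (by omega : d ≠ 0)] using this.tendsto 0
    have hlim := (ENNReal.Tendsto.const_mul (a := ((k + 2 : ℕ) : ℝ≥0∞)) hb0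
      (Or.inr (ENNReal.natCast_ne_top _))).add hr0
    rw [mul_zero, add_zero] at hlim
    refine tendsto_of_tendsto_of_tendsto_of_le_of_le' tendsto_const_nhds hlim
      (Eventually.of_forall fun _ => zero_le) ?_
    filter_upwards [self_mem_nhdsWithin] with r hr
    have hr : 0 < r := hr
    refine iSup₂_le fun x hx => iSup₂_le fun q hq => ?_
    have hm : MeasurableSet (ball q r ∩ B d) := measurableSet_ball.inter measurableSet_ball
    refine (hmeas x hx _ (isOpen_ball.inter isOpen_ball) inter_subset_right (3 * (C * r ^ d))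
      (by positivity) (fun v _ => ?_) _ hm subset_rfl).trans ?_
    · rw [ENNReal.ofReal_mul (by norm_num), ENNReal.ofReal_ofNat]
      gcongr
      exact (perr_mono inter_subset_right _).trans (hloc _ (hD' v).1 _ _ q r (hinj v) hr)
    · gcongr
      refine hνle x _ _ hm fun w hw => ?_
      rw [inter_assoc, inter_self]
      refine le_trans ?_ (Finset.single_le_sum (f := fun w => ⨆ q ∈ closedBall (0 : R d) 1,
        pm (H w) (ball q r ∩ B d)) (fun _ _ => zero_le) ((hTm w).2 hw))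
      exact le_iSup₂_of_le (f := fun q (_ : q ∈ closedBall (0 : R d) 1) =>
        pm (H w) (ball q r ∩ B d)) q hq le_rfl

/-- interpolation -/
theorem interp (hd : 1 ≤ d) (k : ℕ) {L : ℝ} (hL : 0 ≤ L) {δ : ℝ} (hδ : 0 < δ) : ∃ η > 0,
    ∃ G : (Vx (Set (R d)) → ℝ) → Set (R d), ∀ F, IsFlag k (FA L) (FR η) F →
      (∀ x ∈ simplex F, G (x ∘ Vx.inv compl) = (G x)ᶜ ∧ FA (L + δ) (G x) ∧
        Tendsto (fun y => volume ((G y ∆ G x) ∩ B d)) (𝓝[simplex F] x) (𝓝 0)) ∧
      (∀ η' > 0, ∃ σ > 0, ∀ x ∈ simplex F, ∀ x' ∈ simplex F, (∀ v, |x v - x' v| ≤ σ) →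
        FR η' (G x) (G x') ∧ Loc δ (G x) (G x')) ∧
      Tendsto (fun r : ℝ => ⨆ x ∈ simplex F, ⨆ q ∈ closedBall (0 : R d) 1,
        pm (G x) (ball q r ∩ B d)) (𝓝[>] 0) (𝓝 0) := by
  obtain ⟨M, hM⟩ := exists_nat_gt (4 * (k + 1) * L / δ)
  have hM0 : (0 : ℝ) < M := lt_of_le_of_lt (by positivity) hM
  have hM' : 0 < M := by exact_mod_cast hM0
  have hM1 : (k + 1) * (L / M) ≤ δ / 4 := by
    rw [div_lt_iff₀ hδ] at hM
    rw [mul_div_assoc', div_le_iff₀ hM0]
    linarith only [hM]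
  set e₂ : ℝ := δ / (4 * (k + 1) * (M + 1)) with he₂
  have he0 : 0 < e₂ := by positivity
  have he1 : (k + 1) * ((M + 1) * e₂) = δ / 4 := by rw [he₂]; field_simp
  obtain ⟨Cd, hCd, hdata⟩ := exists_data d k M hM'
  set μ₀ : ℝ := min (e₂ ^ 2 / (Cd * (L + 1))) (δ / (4 * (k + 2) * (k + 1))) with hμ₀
  have hμ0 : 0 < μ₀ := by positivity
  have hμ1 : Cd * μ₀ * L ≤ e₂ ^ 2 := by
    have : μ₀ * (Cd * (L + 1)) ≤ e₂ ^ 2 := (le_div_iff₀ (by positivity)).1 (min_le_left _ _)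
    linarith only [mul_pos hμ0 hCd, this]
  have hμ2 : (k + 2) * ((k + 1) * (2 * μ₀)) ≤ δ / 2 := by
    have : μ₀ * (4 * (k + 2) * (k + 1)) ≤ δ := (le_div_iff₀ (by positivity)).1 (min_le_right _ _)
    linarith only [this]
  obtain ⟨Cl, hCl, ρ₀, hρ₀, hlight⟩ := exists_light_equiv hd L hμ0
  obtain ⟨Cz, hCz, hperr⟩ := perr_Zs d
  set C : ℝ := (k + 1) * (3 * (Cd * (1 + 2 * Cl) + Cz)) with hC
  have hC0 : 0 < C := by positivity
  set ρ : ℝ := min (min ρ₀ 1) (δ / (2 * C)) with hρ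
  have hρ0 : 0 < ρ := by positivity
  have hρ1 : ρ ≤ 1 := (min_le_left _ _).trans (min_le_right _ _)
  have hρ2 : C * ρ ^ d ≤ δ / 2 := by
    have h1 : ρ * (2 * C) ≤ δ := (le_div_iff₀ (by positivity)).1 (min_le_right _ _)
    have h2 : ρ ^ d ≤ ρ := pow_le_of_le_one hρ0.le hρ1 (by omega)
    nlinarith only [hC0, h1, h2]
  obtain ⟨H, hH, hH'⟩ := hlight ρ ⟨hρ0, (min_le_left _ _).trans (min_le_left _ _)⟩
  obtain ⟨D, hD, hD'⟩ := hdata (Set (R d)) compl compl_compl (FA L) (FR (ρ ^ (d + 1))) H ρ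
    (ρ ^ (d + 1) + 2 * (Cl * ρ ^ (d + 1))) L μ₀ e₂ hρ0 (by positivity) hL hμ0.le he0.le hμ1
    (fun a ha => ⟨(hH' a ha).1, (hH' a ha).2.2⟩)
    (fun a b ha hb h => CI_FR (by positivity) (by positivity) (hH' a ha).2.1 (hH' b hb).2.1 h)
  have key : (k + 1) * (3 * (Cd * (ρ ^ (d + 1) + 2 * (Cl * ρ ^ (d + 1))) / ρ + Cz * ρ ^ d)) =
      C * ρ ^ d := by
    rw [hC, pow_succ]; field_simp
  refine ⟨ρ ^ (d + 1), by positivity, CI_core hd k hL hM' hρ0 hμ0.le (by positivity) he0.le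
    (Cz := Cz * ρ ^ d) (by positivity) (fun a t τ D h h' => hperr a ρ t τ D hρ0 h h') ?_ ?_ hH
    (fun a ha => ⟨(hH' a ha).1, (hH' a ha).2.2⟩) hD hD'⟩
  · rw [key, mul_add]; linarith only [hM1, he1, hρ2]
  · rw [key]; linarith only [hμ2, hρ2]

end Pool.Agent.MP_5cfeaf_gt.W

end

section

/-! Block C3: deformation of a discrete sweepout in disjoint regions. -/

set_option autoImplicit false

open MeasureTheory Set Filter Topology Metric
open scoped ENNReal symmDiff Classical InnerProductSpace ContDiff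

namespace Pool.Agent.MP_5cfeaf_gt.W

variable {d : ℕ}

theorem CA_congr {Ω Ω' Z A : Set (R d)} (hΩ : MeasurableSet Ω) (hΩ' : MeasurableSet Ω')
    (hZ : IsClosed Z) (h : Ω ∆ Ω' ⊆ Z) (hA : A ⊆ Zᶜ) : (pm Ω).restrict A = (pm Ω').restrict A := by
  have h1 := pm_congr hΩ hΩ' hZ.isOpen_compl
    (by rw [eq_empty_of_forall_notMem fun y (hy : y ∈ (Ω ∆ Ω') ∩ Zᶜ) => hy.2 (h hy.1), measure_empty])
  rw [← Measure.restrict_restrict_of_subset hA, h1, Measure.restrict_restrict_of_subset hA]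

/-- a change inside `U` changes a weighted perimeter by the change on `closure U` -/
theorem CA_inside {a D U : Set (R d)} (ha : MeasurableSet a) (hD : MeasurableSet D) (hDU : D ⊆ U)
    (hU : closure U ⊆ B d) {g : R d → ℝ≥0∞} (hg : ∀ y ∈ closure U, g y = 1) {s t : ℝ≥0∞}
    (h : pm (a ∆ D) (closure U) + s ≤ pm a (closure U) + t) :
    ∫⁻ y in B d, g y ∂pm (a ∆ D) + s ≤ ∫⁻ y in B d, g y ∂pm a + t := by
  have h1 : ∀ μ : Measure (R d), ∫⁻ y in B d, g y ∂μ =
      ∫⁻ y in B d \ closure U, g y ∂μ + μ (closure U) := fun μ => by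
    rw [← lintegral_inter_add_sdiff g (B d) isClosed_closure.measurableSet, inter_eq_right.2 hU,
      setLIntegral_congr_fun isClosed_closure.measurableSet hg, setLIntegral_one, add_comm]
  rw [h1, h1, CA_congr (ha.symmDiff hD) ha isClosed_closure
    (by rw [symmDiff_comm, symmDiff_symmDiff_cancel_left]; exact hDU.trans subset_closure)
    fun _ hy => hy.2, add_assoc, add_assoc]
  exact add_le_add le_rfl h

/-- one pasting step -/
theorem CA_one {U Z G E₀ a D : Set (R d)} {ψ : R d → ℝ} (hψ : C1c ψ (B d))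
    (h01 : ∀ x, 0 ≤ ψ x ∧ ψ x ≤ 1) (h1 : ∀ x ∈ closure U, ∀ᶠ y in 𝓝 x, ψ y = 1) {K γ δ η : ℝ}
    (hK : ∀ x, ‖fderiv ℝ ψ x‖ ≤ K) (hG : MeasurableSet G) (hE : MeasurableSet E₀)
    (ha : MeasurableSet a) (hD : MeasurableSet D) (hDU : D ⊆ U) (hZ : IsClosed Z)
    (hGZ : G ∆ E₀ ⊆ Z) (hd : tsupport ψ ⊆ Zᶜ)
    (h2 : pm (a ∆ D) (closure U) ≤ pm a (closure U) + ENNReal.ofReal δ)
    (h3 : ∫⁻ x in B d, ENNReal.ofReal (ψ x) ∂pm a ≤
      ∫⁻ x in B d, ENNReal.ofReal (ψ x) ∂pm E₀ + ENNReal.ofReal γ) (h4 : FR η a E₀) :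
    ∃ Y, MeasurableSet Y ∧ U ⊆ Y ∧ Y ⊆ tsupport ψ ∧ pm (((a ∆ D) ∩ Y) ∪ (G \ Y)) (B d) ≤
      pm G (B d) + (ENNReal.ofReal γ + ENNReal.ofReal δ + ENNReal.ofReal K * ENNReal.ofReal η) := by
  have hc := hψ.1.continuous
  have h1' : ∀ x ∈ closure U, ψ x = 1 := fun x hx => (h1 x hx).self_of_nhds
  have hU : closure U ⊆ tsupport ψ := fun x hx => subset_tsupport _ (by simp [h1' x hx])
  obtain ⟨s, hs, h5⟩ := paste_fun (ha.symmDiff hD) hG (isOpen_ball (x := (0 : R d)) (ε := 1)) hψ.1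
    (fun x => (h01 x).1) fun x => (h01 x).2
  refine ⟨_, (isOpen_lt continuous_const hc).measurableSet,
    fun y hy => by simpa [h1' y (subset_closure hy)] using hs.2,
    fun y hy => subset_tsupport _ (hs.1.trans hy).ne', h5.trans ?_⟩
  have e1 : ∀ μ : Measure (R d), ∫⁻ x in B d, ENNReal.ofReal (ψ x) ∂μ =
      ∫⁻ x in B d ∩ tsupport ψ, ENNReal.ofReal (ψ x) ∂μ := fun μ => by
    rw [← lintegral_inter_add_sdiff _ (B d) (isClosed_tsupport ψ).measurableSet,
      setLIntegral_congr_fun (measurableSet_ball.diff (isClosed_tsupport ψ).measurableSet)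
        (g := fun _ => 0) fun y hy => by simp [image_eq_zero_of_notMem_tsupport hy.2],
      lintegral_zero, add_zero]
  have e2 : ∫⁻ x in B d, ENNReal.ofReal (ψ x) ∂pm E₀ = ∫⁻ x in B d, ENNReal.ofReal (ψ x) ∂pm G := by
    rw [e1, e1, CA_congr hG hE hZ hGZ (inter_subset_right.trans hd)]
  have e3 : ∫⁻ x in B d, ENNReal.ofReal (ψ x) ∂pm G + ∫⁻ x in B d, ENNReal.ofReal (1 - ψ x) ∂pm G =
      pm G (B d) := by
    rw [← lintegral_add_left hc.measurable.ennreal_ofReal, ← setLIntegral_one]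
    refine lintegral_congr fun y => ?_
    rw [← ENNReal.ofReal_add (h01 y).1 (sub_nonneg.2 (h01 y).2)]
    simp
  have e4 := CA_inside ha hD hDU (hU.trans hψ.2.2) (g := fun x => ENNReal.ofReal (ψ x))
    (fun y hy => by simp [h1' y hy]) (s := 0) (by rwa [add_zero])
  have e5 : ∫⁻ x in B d ∩ ((a ∆ D) ∆ G), ‖fderiv ℝ ψ x‖ₑ ≤ ENNReal.ofReal K * ENNReal.ofReal η := by
    have hm : MeasurableSet ((a ∆ E₀) ∩ B d) := (ha.symmDiff hE).inter measurableSet_ball
    calc _ ≤ ∫⁻ x in B d ∩ ((a ∆ D) ∆ G),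
          ((a ∆ E₀) ∩ B d).indicator (fun _ => ENNReal.ofReal K) x := by
          refine setLIntegral_mono' (measurableSet_ball.inter ((ha.symmDiff hD).symmDiff hG))
            fun y hy => ?_
          by_cases hy1 : y ∈ closure U
          · rw [(EventuallyEq.fderiv_eq (h1 y hy1) : fderiv ℝ ψ y = fderiv ℝ (fun _ => 1) y),
              fderiv_const_apply, ← ofReal_norm, norm_zero, ENNReal.ofReal_zero]
            exact zero_le
          by_cases hy2 : y ∈ tsupport ψ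
          · have b1 : y ∉ D := fun h => hy1 (subset_closure (hDU h))
            have b2 : y ∉ G ∆ E₀ := fun h => hd hy2 (hGZ h)
            have b3 := hy.2
            rw [indicator_of_mem (show y ∈ (a ∆ E₀) ∩ B d from
              ⟨by simp only [mem_symmDiff] at b2 b3 ⊢; clear * - b1 b2 b3; tauto, hy.1⟩), ← ofReal_norm]
            exact ENNReal.ofReal_le_ofReal (hK y)
          · rw [notMem_tsupport_iff_eventuallyEq] at hy2
            rw [hy2.fderiv_eq, fderiv_zero, Pi.zero_apply, ← ofReal_norm, norm_zero,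
              ENNReal.ofReal_zero]
            exact zero_le
      _ ≤ ∫⁻ x, ((a ∆ E₀) ∩ B d).indicator (fun _ => ENNReal.ofReal K) x :=
          setLIntegral_le_lintegral _ _
      _ ≤ _ := by
          rw [lintegral_indicator_const hm]
          exact mul_le_mul_right h4 _
  rw [add_zero] at e4
  rw [← e3, ← e2]
  calc _ ≤ (∫⁻ x in B d, ENNReal.ofReal (ψ x) ∂pm E₀ + ENNReal.ofReal γ + ENNReal.ofReal δ) +
        ∫⁻ x in B d, ENNReal.ofReal (1 - ψ x) ∂pm G + ENNReal.ofReal K * ENNReal.ofReal η :=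
        add_le_add (add_le_add (e4.trans (add_le_add h3 le_rfl)) le_rfl) e5
    _ = _ := by ring

/-- a chain written through its differences with the initial set, constant after time `N` -/
def CA_Ch (a U : Set (R d)) (ε δ η : ℝ) (N : ℕ) (D : ℕ → Set (R d)) : Prop :=
  MeasurableSet a ∧ D 0 = ∅ ∧ ∀ i, MeasurableSet (D i) ∧ D i ⊆ U ∧
    pm (a ∆ D i) (closure U) ≤ pm a (closure U) + ENNReal.ofReal δ ∧
    volume (D i ∆ D (i + 1)) ≤ ENNReal.ofReal η ∧
    (N ≤ i → pm (a ∆ D i) (closure U) + ENNReal.ofReal ε ≤ pm a (closure U))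

theorem CA_ch {a U : Set (R d)} {ε δ η : ℝ} (h : ¬ AM a U ε δ η) : ∃ N D, CA_Ch a U ε δ η N D := by
  obtain ⟨N, F, h0, h1, h2, h3⟩ := not_not.1 h
  have ha : MeasurableSet a := h0 ▸ (h1 0 (Nat.zero_le _)).1
  refine ⟨N, fun i => a ∆ F (min i N), ha, by simp only [zero_le, inf_of_le_left, h0, symmDiff_self, bot_eq_empty], fun i => ?_⟩
  obtain ⟨b1, b2, b3⟩ := h1 _ (min_le_right i N)
  simp only [symmDiff_symmDiff_cancel_left]
  refine ⟨ha.symmDiff b1, symmDiff_comm a _ ▸ b2, b3, ?_, fun hi => by rwa [min_eq_right hi]⟩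
  rcases lt_or_ge i N with hi | hi
  · rw [min_eq_left hi.le, min_eq_left (Nat.succ_le_of_lt hi), symmDiff_symmDiff_symmDiff_comm,
      symmDiff_self, bot_symmDiff]
    exact h2 i hi
  · rw [min_eq_right hi, min_eq_right (hi.trans (Nat.le_succ i))]
    simp only [symmDiff_self, bot_eq_empty, measure_empty, zero_le]

theorem CA_compl_symm (a D : Set (R d)) : aᶜ ∆ D = (a ∆ D)ᶜ := by
  ext y
  simp only [mem_symmDiff, mem_compl_iff]
  tauto

theorem CA_Ch_compl {a U : Set (R d)} {ε δ η : ℝ} {N : ℕ} {D : ℕ → Set (R d)}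
    (h : CA_Ch a U ε δ η N D) : CA_Ch aᶜ U ε δ η N D := by
  refine ⟨h.1.compl, h.2.1, fun i => ?_⟩
  rw [CA_compl_symm, pm_compl h.1, pm_compl (h.1.symmDiff (h.2.2 i).1)]
  exact h.2.2 i

theorem CA_inv_inv {α : Type} {τ : α → α} (hτ : ∀ a, τ (τ a) = a) (v : Vx α) :
    Vx.inv τ (Vx.inv τ v) = v := by
  simp [Vx.inv, hτ, Function.comp_def]

theorem CA_inv_l {α : Type} (τ : α → α) (v : Vx α) : (Vx.inv τ v).l = v.l.map τ := rfl

theorem CA_card {α : Type} {k : ℕ} {A : α → Prop} {Rl : α → α → Prop} {F : Finset (Vx α)}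
    (hF : IsFlag k A Rl F) : F.card ≤ k + 1 := by
  rw [← Finset.card_range (k + 1)]
  refine Finset.card_le_card_of_injOn (fun v => v.2.length) (fun v hv => ?_) fun v hv w hw h => ?_
  · have := (hF.2.1 v hv).1
    simp only [Vx.l, List.length_cons] at this
    simpa only [Finset.coe_range, mem_Iio, Order.lt_add_one_iff, ge_iff_le, Nat.succ_eq_add_one] using Nat.lt_succ_of_le (Nat.le_of_succ_le_succ this)
  · rcases hF.2.2 v hv w hw with h1 | h1 | h1
    · exact h1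
    all_goals
      have := h1.2
      simp only [Vx.l, List.length_cons] at this h
      omega

theorem CA_rel {α : Type} {k : ℕ} {A : α → Prop} {Rl : α → α → Prop} {F : Finset (Vx α)}
    (hF : IsFlag k A Rl F) {v w : Vx α} (hv : v ∈ F) (hw : w ∈ F) : A v.1 ∧ Rl v.1 w.1 := by
  have h : ∀ v : Vx α, v.1 ∈ v.l := fun v => List.mem_cons_self
  refine ⟨(hF.2.1 v hv).2.1 _ (h v), ?_⟩
  rcases hF.2.2 v hv w hw with rfl | h1 | h1
  · exact (hF.2.1 v hv).2.2 _ (h v) _ (h v)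
  · exact (hF.2.1 w hw).2.2 _ (h1.1.subset (h v)) _ (h w)
  · exact (hF.2.1 v hv).2.2 _ (h v) _ (h1.1.subset (h w))

/-- invariant choice of a region and of a chain for every vertex -/
theorem CA_data {M : ℕ} (U : Fin M → Set (R d)) (k : ℕ) (ε δ η : ℝ) :
    ∃ (o : Vx (Set (R d)) → Option (Fin M)) (N : Vx (Set (R d)) → ℕ)
      (D : Vx (Set (R d)) → ℕ → Set (R d)),
      (∀ v, N (Vx.inv compl v) = N v ∧ D (Vx.inv compl v) = D v) ∧
      (∀ v j, o v = some j → CA_Ch v.1 (U j) ε δ η (N v) (D v) ∧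
        ∀ w : Vx (Set (R d)), w.l.Sublist v.l → w.l.length < v.l.length → o w ≠ some j) ∧
      ∀ v, o v = none → (∀ i, D v i = ∅) ∧ (v.l.length ≤ k + 1 →
        (Finset.univ.filter fun j => ¬ AM v.1 (U j) ε δ η).card ≤ 2 ^ (k + 1)) := by
  let Q : Vx (Set (R d)) → (Vx (Set (R d)) → Option (Fin M) × ℕ × (ℕ → Set (R d))) →
      Option (Fin M) × ℕ × (ℕ → Set (R d)) → Prop := fun v D b =>
    (∀ j, b.1 = some j → CA_Ch v.1 (U j) ε δ η b.2.1 b.2.2 ∧
      ∀ w : Vx (Set (R d)), w.l.Sublist v.l → w.l.length < v.l.length → (D w).1 ≠ some j) ∧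
    (b.1 = none → (∀ i, b.2.2 i = ∅) ∧ (v.l.length ≤ k + 1 → (Finset.univ.filter fun j =>
      ∃ N D, CA_Ch v.1 (U j) ε δ η N D).card ≤ 2 ^ (k + 1)))
  have key : ∀ v D b, (∀ w, D (Vx.inv compl w) = D w) → Q v D b → Q (Vx.inv compl v) D b := by
    intro v D b hD h
    refine ⟨fun j hj => ⟨CA_Ch_compl (h.1 j hj).1, fun w h1 h2 => ?_⟩,
      fun hb => ⟨(h.2 hb).1, fun h1 => le_trans (Finset.card_le_card fun j hj => ?_)
        ((h.2 hb).2 (by simpa [CA_inv_l] using h1))⟩⟩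
    · rw [← hD]
      refine (h.1 j hj).2 _ ?_ (by simpa [CA_inv_l] using h2)
      rw [← CA_inv_inv compl_compl v, CA_inv_l, CA_inv_l (v := Vx.inv compl v)]
      exact h1.map _
    · obtain ⟨N, D', h2⟩ := (Finset.mem_filter.1 hj).2
      exact Finset.mem_filter.2 ⟨Finset.mem_univ _, N, D', compl_compl v.1 ▸ CA_Ch_compl h2⟩
  obtain ⟨D, h1, h2⟩ := exists_rec_choice (τ := (compl : Set (R d) → Set (R d))) compl_compl (Q := Q)
    (fun v D => by
      by_cases h : v.l.length ≤ k + 1 → (Finset.univ.filter fun j =>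
          ∃ N D, CA_Ch v.1 (U j) ε δ η N D).card ≤ 2 ^ (k + 1)
      · exact ⟨(none, 0, fun _ => ∅), fun j hj => by simp at hj, fun _ => ⟨fun _ => rfl, h⟩⟩
      push Not at h
      let f : List (Set (R d)) → Option (Fin M) := fun l => (D (l.headI, l.tail)).1
      have h3 : (v.l.sublists.toFinset.image f).card < ((Finset.univ.filter fun j =>
          ∃ N D, CA_Ch v.1 (U j) ε δ η N D).image some).card := by
        rw [Finset.card_image_of_injective _ (Option.some_injective _)]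
        refine lt_of_le_of_lt (Finset.card_image_le.trans ((List.toFinset_card_le _).trans ?_)) h.2
        rw [List.length_sublists]
        exact Nat.pow_le_pow_right two_pos h.1
      obtain ⟨b, b1, b2⟩ := Finset.exists_mem_notMem_of_card_lt_card h3
      obtain ⟨j, b3, rfl⟩ := Finset.mem_image.1 b1
      obtain ⟨N, D', b4⟩ := (Finset.mem_filter.1 b3).2
      refine ⟨(some j, N, D'), fun j' hj => ?_, fun h => by simp at h⟩
      obtain rfl : j = j' := Option.some_injective _ hj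
      exact ⟨b4, fun w hw _ he => b2 (Finset.mem_image.2
        ⟨w.l, List.mem_toFinset.2 (List.mem_sublists.2 hw), he⟩)⟩)
    (fun v D D' h => by
      funext b
      simp only [Q]
      congr! 6 with j _ w _
      exact imp_congr_right fun hw => by rw [h w hw])
    (fun v D hD => funext fun b => propext ⟨fun h => by
      simpa only [CA_inv_inv compl_compl] using key _ D b hD h, key v D b hD⟩)
  refine ⟨fun v => (D v).1, fun v => (D v).2.1, fun v => (D v).2.2, fun v => by simp [h2],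
    fun v => (h1 v).1, fun v hv => ⟨((h1 v).2 hv).1, fun h => le_trans
      (Finset.card_le_card fun j hj => ?_) (((h1 v).2 hv).2 h)⟩⟩
  exact Finset.mem_filter.2 ⟨Finset.mem_univ _, CA_ch (Finset.mem_filter.1 hj).2⟩

/-- pasting the chain elements of all vertices of `T` into the chain element of `v₀` -/
theorem CA_many {M : ℕ} {U : Fin M → Set (R d)} {ψ : Fin M → R d → ℝ}
    (hψ : ∀ j, C1c (ψ j) (B d) ∧ (∀ x, 0 ≤ ψ j x ∧ ψ j x ≤ 1) ∧
      ∀ x ∈ closure (U j), ∀ᶠ y in 𝓝 x, ψ j y = 1)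
    (hdis : ∀ i j, i ≠ j → Disjoint (tsupport (ψ i)) (tsupport (ψ j))) {K γ δ η : ℝ}
    (hK : ∀ j x, ‖fderiv ℝ (ψ j) x‖ ≤ K) {ι : Type} [DecidableEq ι] {a D : ι → Set (R d)} {o : ι → Option (Fin M)}
    {v₀ : ι} (T : Finset ι) (hm : ∀ v ∈ insert v₀ T, MeasurableSet (a v) ∧ MeasurableSet (D v))
    (h0 : ∀ v, o v = none → D v = ∅) (h1 : ∀ v j, o v = some j → D v ⊆ U j ∧
      pm (a v ∆ D v) (closure (U j)) ≤ pm (a v) (closure (U j)) + ENNReal.ofReal δ)
    (h2 : ∀ v ∈ insert v₀ T, ∀ w ∈ insert v₀ T, ∀ j, o v = some j → o w = some j → v = w)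
    (h3 : ∀ v ∈ T, FR η (a v) (a v₀) ∧ Near γ ψ (a v) (a v₀)) (hT : v₀ ∉ T) :
    ∃ G, MeasurableSet G ∧ (∀ y ∈ G ∆ a v₀, ∃ v ∈ insert v₀ T, ∃ j, o v = some j ∧ y ∈ tsupport (ψ j)) ∧
      pm G (B d) ≤ pm (a v₀ ∆ D v₀) (B d) + T.card *
        (ENNReal.ofReal γ + ENNReal.ofReal δ + ENNReal.ofReal K * ENNReal.ofReal η) ∧
      ∀ y, ∃ w ∈ insert v₀ T, (y ∈ G ∆ (⋃ v ∈ insert v₀ T, D v) ↔ y ∈ a w) := by
  have hD : ∀ v, ∀ y ∈ D v, ∃ j, o v = some j ∧ y ∈ tsupport (ψ j) := fun v y hy => by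
    rcases h : o v with _ | j
    · simp [h0 v h] at hy
    · exact ⟨j, rfl, subset_tsupport _
        (by simp [((hψ j).2.2 y (subset_closure ((h1 v j h).1 hy))).self_of_nhds])⟩
  induction T using Finset.induction_on with
  | empty =>
    refine ⟨a v₀ ∆ D v₀, (hm v₀ (by simp)).1.symmDiff (hm v₀ (by simp)).2, fun y hy => ?_, by simp,
      fun y => ⟨v₀, by simp, by simp only [insert_empty_eq, Finset.mem_singleton, iUnion_iUnion_eq_left, symmDiff_symmDiff_cancel_right]⟩⟩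
    rw [symmDiff_comm, symmDiff_symmDiff_cancel_left] at hy
    exact ⟨v₀, by simp, hD v₀ y hy⟩
  | insert v T hv ih =>
    have hs : insert v₀ T ⊆ insert v₀ (insert v T) :=
      Finset.insert_subset_insert _ (Finset.subset_insert _ _)
    have hv' : v ∈ insert v₀ (insert v T) := by simp
    have hv0 : v ∉ insert v₀ T := by
      simp only [Finset.mem_insert, not_or] at hT ⊢
      exact ⟨fun h => hT.1 h.symm, hv⟩
    obtain ⟨G, g1, g2, g3, g4⟩ := ih (fun w hw => hm w (hs hw))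
      (fun w hw w' hw' => h2 w (hs hw) w' (hs hw')) (fun w hw => h3 w (Finset.mem_insert_of_mem hw))
      fun h => hT (Finset.mem_insert_of_mem h)
    rw [Finset.card_insert_of_notMem hv, Nat.cast_succ, add_mul, one_mul, ← add_assoc,
      Finset.insert_comm, Finset.set_biUnion_insert]
    rcases h : o v with _ | j
    · refine ⟨G, g1, fun y hy => ?_, g3.trans le_self_add, fun y => ?_⟩
      · obtain ⟨w, hw, b⟩ := g2 y hy
        exact ⟨w, Finset.mem_insert_of_mem hw, b⟩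
      · obtain ⟨w, hw, b⟩ := g4 y
        exact ⟨w, Finset.mem_insert_of_mem hw, by rwa [h0 v h, empty_union]⟩
    have hd : ∀ y ∈ tsupport (ψ j), ∀ w ∈ insert v₀ T, ∀ i, o w = some i → y ∉ tsupport (ψ i) :=
      fun y hy w hw i hi => disjoint_left.1 (hdis j i (by
        rintro rfl
        exact hv0 (h2 v hv' w (hs hw) j h hi ▸ hw))) hy
    obtain ⟨Y, y1, y2, y3, y4⟩ := CA_one (Z := ⋃ i ∈ {i | i ≠ j}, tsupport (ψ i)) (hψ j).1 (hψ j).2.1
      (hψ j).2.2 (hK j) g1 (hm v₀ (by simp)).1 (hm v hv').1 (hm v hv').2 (h1 v j h).1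
      ((toFinite _).isClosed_biUnion fun i _ => isClosed_tsupport _)
      (fun y hy => by
        obtain ⟨w, hw, i, b1, b2⟩ := g2 y hy
        exact mem_biUnion (x := i) (fun e => hd y (e ▸ b2) w hw i b1 b2) b2)
      (fun y hy hy' => by
        obtain ⟨i, b1, b2⟩ := mem_iUnion₂.1 hy'
        exact disjoint_left.1 (hdis i j b1) b2 hy)
      (h1 v j h).2 ((h3 v (by simp)).2.2 j) (h3 v (by simp)).1
    refine ⟨_, (((hm v hv').1.symmDiff (hm v hv').2).inter y1).union (g1.diff y1), fun y hy => ?_,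
      y4.trans (add_le_add g3 le_rfl), fun y => ?_⟩
    · by_cases hy1 : y ∈ Y
      · exact ⟨v, by simp, j, h, y3 hy1⟩
      · obtain ⟨w, hw, b⟩ := g2 y (by simpa [mem_symmDiff, hy1] using hy)
        exact ⟨w, Finset.mem_insert_of_mem hw, b⟩
    · by_cases hy1 : y ∈ Y
      · have : y ∉ ⋃ w ∈ insert v₀ T, D w := fun hy => by
          obtain ⟨w, hw, b⟩ := mem_iUnion₂.1 hy
          obtain ⟨i, b1, b2⟩ := hD w y b
          exact hd y (y3 hy1) w hw i b1 b2
        refine ⟨v, by simp, ?_⟩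
        simp only [mem_symmDiff, mem_union, mem_inter_iff, Set.mem_sdiff, hy1, this]
        clear * -
        tauto
      · have : y ∉ D v := fun hy => hy1 (y2 ((h1 v j h).1 hy))
        obtain ⟨w, hw, b⟩ := g4 y
        refine ⟨w, Finset.mem_insert_of_mem hw, Iff.trans ?_ b⟩
        simp only [mem_symmDiff, mem_union, mem_inter_iff, Set.mem_sdiff, hy1, this]
        clear * -
        tauto

theorem CA_step {D : ℕ → Set (R d)} {η : ℝ} (h : ∀ i, volume (D i ∆ D (i + 1)) ≤ ENNReal.ofReal η)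
    {s t : ℝ} (hs : 0 ≤ s) (ht : 0 ≤ t) (hst : |s - t| ≤ 1) :
    volume (D ⌊s⌋₊ ∆ D ⌊t⌋₊) ≤ ENNReal.ofReal η := by
  have h1 : ⌊s⌋₊ ≤ ⌊t⌋₊ + 1 := by
    rw [← Nat.floor_add_one ht]
    exact Nat.floor_mono (by linarith [(abs_le.1 hst).2])
  have h2 : ⌊t⌋₊ ≤ ⌊s⌋₊ + 1 := by
    rw [← Nat.floor_add_one hs]
    exact Nat.floor_mono (by linarith only [(abs_le.1 hst).1])
  rcases lt_trichotomy ⌊s⌋₊ ⌊t⌋₊ with h3 | h3 | h3
  · rw [le_antisymm h2 h3]
    exact h _
  · simp only [h3, symmDiff_self, bot_eq_empty, measure_empty, zero_le]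
  · rw [le_antisymm h1 h3, symmDiff_comm]
    exact h _

/-- deformation in disjoint regions -/
theorem amdef {M : ℕ} (U : Fin M → Set (R d)) (ψ : Fin M → R d → ℝ) (hU : ∀ j, IsOpen (U j))
    (hψ : ∀ j, C1c (ψ j) (B d) ∧ (∀ x, 0 ≤ ψ j x ∧ ψ j x ≤ 1) ∧
      ∀ x ∈ closure (U j), ∀ᶠ y in 𝓝 x, ψ j y = 1)
    (hdis : ∀ i j, i ≠ j → Disjoint (tsupport (ψ i)) (tsupport (ψ j))) (k : ℕ) {ε ε₁ : ℝ}
    (hε : 0 < ε) (hε₁ : 0 < ε₁) : ∃ γ > 0, ∃ δ > 0, ∃ c > 0, ∀ (L : ℝ), ∀ η'' > 0, ∃ η' > 0, ∃ η > 0,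
      SwS k (fun a => FA L a ∧ (pm a (B d) + ENNReal.ofReal ε₁ ≤ ENNReal.ofReal L ∨
        2 ^ (k + 1) < (Finset.univ.filter fun j => ¬ AM a (U j) ε δ η').card))
        (fun a b => FR η a b ∧ Near γ ψ a b) →
      SwS k (fun a => MeasurableSet a ∧ pm a (B d) + ENNReal.ofReal c ≤ ENNReal.ofReal L) (FR η'') := by
  obtain ⟨K, hK0, hK⟩ : ∃ K : ℝ, 0 < K ∧ ∀ j x, ‖fderiv ℝ (ψ j) x‖ ≤ K := by
    choose K hK using fun j => ((hψ j).1.1.continuous_fderiv one_ne_zero).bounded_above_of_compact_support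
      ((hψ j).1.2.1.fderiv ℝ)
    have h0 : ∀ j, 0 ≤ K j := fun j => (norm_nonneg _).trans (hK j 0)
    have h1 := Finset.sum_nonneg fun j (_ : j ∈ Finset.univ) => h0 j
    exact ⟨∑ j, K j + 1, by linarith, fun j x => by
      linarith [hK j x, Finset.single_le_sum (fun j _ => h0 j) (Finset.mem_univ j)]⟩
  obtain ⟨n, hn⟩ : ∃ n : ℝ, n = (k + 1 : ℕ) := ⟨_, rfl⟩
  have hn0 : 0 < n := hn ▸ Nat.cast_pos.2 k.succ_pos
  obtain ⟨c, hc⟩ : ∃ c : ℝ, c = min ε ε₁ / 4 := ⟨_, rfl⟩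
  have hc0 : 0 < c := hc ▸ by positivity
  refine ⟨c / n, by positivity, c / n, by positivity, c, hc0, fun L η'' hη => ⟨η'' / (2 * n),
    by positivity, min (c / n / K) (η'' / (2 * n * n)), by positivity, fun h => ?_⟩⟩
  generalize hη' : min (c / n / K) (η'' / (2 * n * n)) = η at h
  have hη0 : 0 ≤ η := hη' ▸ by positivity
  obtain ⟨o, N, D, d1, d2, d3⟩ := CA_data U k ε (c / n) (η'' / (2 * n))
  have d0 : ∀ v, D v 0 = ∅ := fun v => by
    rcases h : o v with _ | j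
    exacts [(d3 v h).1 0, (d2 v j h).1.2.1]
  let Z : (Vx (Set (R d)) → ℝ) → Set (R d) := fun x => ⋃ v, D v ⌊n * N v * x v⌋₊
  let P : (Vx (Set (R d)) → ℝ) → Set (R d) → Prop := fun x G => (MeasurableSet G ∧
    pm G (B d) + ENNReal.ofReal c ≤ ENNReal.ofReal L) ∧ ∀ y, ∃ w, x w ≠ 0 ∧ (y ∈ G ∆ Z x ↔ y ∈ w.1)
  have hi : ∀ x : Vx (Set (R d)) → ℝ, (x ∘ Vx.inv compl) ∘ Vx.inv compl = x :=
    fun x => funext fun v => congrArg x (CA_inv_inv compl_compl v)
  have hP : ∀ x G, P x G → P (x ∘ Vx.inv compl) Gᶜ := fun x G h => by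
    have hZ : Z (x ∘ Vx.inv compl) = Z x := by
      refine Eq.trans (iUnion_congr fun v => ?_) ((Function.Involutive.surjective
        (CA_inv_inv (compl_compl (α := Set (R d))))).iUnion_comp fun v => D v ⌊n * N v * x v⌋₊)
      rw [(d1 v).1, (d1 v).2, Function.comp_apply]
    refine ⟨⟨h.1.1.compl, by rw [pm_compl h.1.1]; exact h.1.2⟩, fun y => ?_⟩
    obtain ⟨w, h1, h2⟩ := h.2 y
    refine ⟨Vx.inv compl w, by rwa [Function.comp_apply, CA_inv_inv compl_compl], ?_⟩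
    rw [hZ, CA_compl_symm]
    exact not_congr h2
  obtain ⟨G, g1, g2⟩ := exists_equiv_choice (τ := fun x : Vx (Set (R d)) → ℝ => x ∘ Vx.inv compl)
    (κ := compl) hi compl_compl (Q := fun x G => (∃ G', P x G') → P x G)
    (fun x => by
      by_cases h : ∃ G', P x G'
      exacts [⟨h.choose, fun _ => h.choose_spec⟩, ⟨∅, fun h' => absurd h' h⟩])
    fun x G h ⟨G', h'⟩ => hP x G (h ⟨G'ᶜ, hi x ▸ hP _ _ h'⟩)
  have hv : ∀ F : Finset (Vx (Set (R d))), F.Nonempty → F.card ≤ k + 1 → ∀ x ∈ simplex F,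
      ∃ v ∈ F, 1 / n ≤ x v := fun F h0 hF x hx => Finset.exists_le_of_sum_le h0 (by
    rw [hx.2.2, Finset.sum_const, nsmul_eq_mul, mul_one_div, div_le_one hn0, hn]
    exact_mod_cast hF)
  have hmem : ∀ F : Finset (Vx (Set (R d))), ∀ x ∈ simplex F, ∀ v, x v ≠ 0 → v ∈ F :=
    fun F x hx v h => by_contra fun h' => h (hx.2.1 v h')
  have main : ∀ F, IsFlag k (fun a => FA L a ∧ (pm a (B d) + ENNReal.ofReal ε₁ ≤ ENNReal.ofReal L ∨
      2 ^ (k + 1) < (Finset.univ.filter fun j => ¬ AM a (U j) ε (c / n) (η'' / (2 * n))).card))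
      (fun a b => FR η a b ∧ Near (c / n) ψ a b) F → ∀ x ∈ simplex F, P x (G x) := by
    intro F hF x hx
    obtain ⟨v₀, v1, v2⟩ := hv F hF.1 (CA_card hF) x hx
    have v3 : x v₀ ≠ 0 := (lt_of_lt_of_le (by positivity) v2).ne'
    have hT : ∀ v, v ∈ insert v₀ ((F.filter (x · ≠ 0)).erase v₀) ↔ x v ≠ 0 := fun v => by
      rw [Finset.insert_erase (Finset.mem_filter.2 ⟨v1, v3⟩), Finset.mem_filter]
      exact ⟨fun h => h.2, fun h => ⟨hmem F x hx v h, h⟩⟩
    have hT' := fun v hv => hmem F x hx v ((hT v).1 hv)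
    obtain ⟨G', a1, -, a2, a3⟩ := CA_many hψ hdis hK (a := fun v => v.1) (o := o) (v₀ := v₀)
      (D := fun v => D v ⌊n * N v * x v⌋₊) (γ := c / n) (δ := c / n) (η := η)
      ((F.filter (x · ≠ 0)).erase v₀)
      (fun v hv => ⟨(CA_rel hF (hT' v hv) v1).1.1.1, by
        rcases h : o v with _ | j
        exacts [((d3 v h).1 _).symm ▸ MeasurableSet.empty, ((d2 v j h).1.2.2 _).1]⟩)
      (fun v h => (d3 v h).1 _) (fun v j h => ⟨((d2 v j h).1.2.2 _).2.1, ((d2 v j h).1.2.2 _).2.2.1⟩)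
      (fun v hv w hw j b1 b2 => by
        rcases hF.2.2 v (hT' v hv) w (hT' w hw) with h | h | h
        exacts [h, absurd b1 ((d2 w j b2).2 v h.1 h.2), absurd b2 ((d2 v j b1).2 w h.1 h.2)])
      (fun v hv => (CA_rel hF (hT' v (Finset.mem_insert_of_mem hv)) v1).2) (Finset.notMem_erase _ _)
    refine g1 x ⟨G', ⟨a1, ?_⟩, fun y => ?_⟩
    · obtain ⟨⟨b1, b2⟩, b3⟩ := (CA_rel hF v1 v1).1
      have b4 : pm (v₀.1 ∆ D v₀ ⌊n * N v₀ * x v₀⌋₊) (B d) + ENNReal.ofReal (4 * c) ≤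
          ENNReal.ofReal L := by
        rcases h : o v₀ with _ | j
        · rw [(d3 v₀ h).1, ← bot_eq_empty, symmDiff_bot]
          exact le_trans (add_le_add le_rfl (ENNReal.ofReal_le_ofReal (by
            linarith only [min_le_right ε ε₁, hc])))
            (b3.resolve_right ((d3 v₀ h).2 (hF.2.1 v₀ v1).1).not_gt)
        · obtain ⟨c1, c2, -, -, c3⟩ := (d2 v₀ j h).1.2.2 ⌊n * N v₀ * x v₀⌋₊
          have c4 := CA_inside b1 c1 c2 (fun y hy => (hψ j).1.2.2 (subset_tsupport _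
            (by simp [((hψ j).2.2 y hy).self_of_nhds]))) (g := fun _ => 1) (fun _ _ => rfl)
            (s := ENNReal.ofReal ε) (t := 0) (by
              rw [add_zero]
              refine c3 (Nat.le_floor ?_)
              rw [div_le_iff₀ hn0] at v2
              nlinarith only [v2])
          rw [setLIntegral_one, setLIntegral_one, add_zero] at c4
          exact le_trans (add_le_add le_rfl (ENNReal.ofReal_le_ofReal (by
            linarith only [min_le_left ε ε₁, hc]))) (c4.trans b2)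
      refine le_trans (add_le_add a2 le_rfl) (le_trans ?_ b4)
      rw [add_assoc, ← ENNReal.ofReal_mul hK0.le, ← ENNReal.ofReal_add (by positivity) (by positivity),
        ← ENNReal.ofReal_add (by positivity) (by positivity), ← ENNReal.ofReal_natCast,
        ← ENNReal.ofReal_mul (by positivity), ← ENNReal.ofReal_add (by positivity) hc0.le]
      refine add_le_add le_rfl (ENNReal.ofReal_le_ofReal ?_)
      have e1 : (((F.filter (x · ≠ 0)).erase v₀).card : ℝ) ≤ n := hn ▸ Nat.cast_le.2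
        (Finset.card_erase_le.trans ((Finset.card_filter_le _ _).trans (CA_card hF)))
      have e2 : K * η ≤ c / n := (le_div_iff₀' hK0).1 (hη' ▸ min_le_left _ _)
      have e3 := mul_le_mul e1 (add_le_add (le_refl (c / n + c / n)) e2) (by positivity) hn0.le
      have e4 : n * (c / n) = c := mul_div_cancel₀ c hn0.ne'
      linarith only [e3, e4]
    · obtain ⟨w, b1, b2⟩ := a3 y
      refine ⟨w, (hT w).1 b1, Iff.trans ?_ b2⟩
      rw [show Z x = _ from iUnion_congr fun v => ?_]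
      by_cases h : x v = 0
      · rw [h, mul_zero, Nat.floor_zero, d0, iUnion_empty]
      · rw [eq_true ((hT v).2 h), iUnion_true]
  refine Sw.family odd2_S odd2_S h G (fun F hF x hx => g2 x fun he => ?_)
    (fun F hF x hx => (main F hF x hx).1) fun F hF => ?_
  · obtain ⟨v, v1, v2⟩ := hv F hF.1 (CA_card hF) x hx
    have v3 := hmem F x hx (Vx.inv compl v)
      ((congrFun he v).trans_ne (lt_of_lt_of_le (by positivity) v2).ne')
    rcases hF.2.2 v v1 _ v3 with h | h | h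
    · have : (0 : R d) ∈ v.1 ↔ (0 : R d) ∈ v.1ᶜ := by rw [← show v.1 = v.1ᶜ from congrArg Prod.fst h]
      exact iff_not_self this
    all_goals simpa [CA_inv_l] using h.2
  have hs : (0 : ℝ) ≤ ∑ v ∈ F, (N v : ℝ) := by positivity
  refine ⟨1 / (n * (∑ v ∈ F, (N v : ℝ) + 1)), by positivity, fun x hx x' hx' hxx => ?_⟩
  have hsub : (G x ∆ G x') ∩ B d ⊆ (⋃ v ∈ F, D v ⌊n * N v * x v⌋₊ ∆ D v ⌊n * N v * x' v⌋₊) ∪
      ⋃ v ∈ F, ⋃ w ∈ F, (v.1 ∆ w.1) ∩ B d := fun y hy => by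
    obtain ⟨w, b1, b2⟩ := (main F hF x hx).2 y
    obtain ⟨w', b3, b4⟩ := (main F hF x' hx').2 y
    by_cases h1 : y ∈ w.1 ∆ w'.1
    · exact Or.inr (mem_biUnion (hmem F x hx w b1) (mem_biUnion (hmem F x' hx' w' b3) ⟨h1, hy.2⟩))
    have h2 : y ∈ Z x ∆ Z x' := by
      have := hy.1
      simp only [mem_symmDiff] at this h1 b2 b4 ⊢
      clear * - this h1 b2 b4
      tauto
    refine Or.inl (by_contra fun h3 => ?_)
    have h4 : ∀ v, y ∈ D v ⌊n * N v * x v⌋₊ ↔ y ∈ D v ⌊n * N v * x' v⌋₊ := fun v => by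
      by_cases h : v ∈ F
      · have : y ∉ _ ∆ _ := fun h' => h3 (mem_biUnion h h')
        rw [mem_symmDiff] at this
        clear * - this
        tauto
      · rw [hx.2.1 v h, hx'.2.1 v h]
    simp only [mem_symmDiff, Z, mem_iUnion, h4, and_not_self, or_self] at h2
  have e1 : (F.card : ℝ≥0∞) ≤ ENNReal.ofReal n := by
    rw [hn, ENNReal.ofReal_natCast]
    exact Nat.cast_le.2 (CA_card hF)
  have e2 : ∀ (f : Vx (Set (R d)) → Set (R d)) (t : ℝ), (∀ v ∈ F, volume (f v) ≤ ENNReal.ofReal t) →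
      volume (⋃ v ∈ F, f v) ≤ ENNReal.ofReal (n * t) := fun f t h => by
    refine (measure_biUnion_finset_le F f).trans ((Finset.sum_le_card_nsmul _ _ _ h).trans ?_)
    rw [nsmul_eq_mul, ENNReal.ofReal_mul hn0.le]
    exact mul_le_mul_left e1 _
  refine (measure_mono hsub).trans ((measure_union_le _ _).trans ((add_le_add
    (e2 _ (η'' / (2 * n)) fun v hv => ?_)
    (e2 _ _ fun v hv => e2 _ η fun w hw => (CA_rel hF hv hw).2.1)).trans ?_))
  · rcases h : o v with _ | j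
    · simp only [(d3 v h).1, symmDiff_self, bot_eq_empty, measure_empty, zero_le]
    refine CA_step (fun i => ((d2 v j h).1.2.2 i).2.2.2.1) (by have := hx.1 v; positivity)
      (by have := hx'.1 v; positivity) ?_
    have b1 := Finset.single_le_sum (f := fun v => (N v : ℝ)) (fun _ _ => by positivity) hv
    have b2 := hxx v
    rw [le_div_iff₀ (by positivity)] at b2
    rw [← mul_sub, abs_mul, abs_of_nonneg (by positivity), mul_comm]
    exact le_trans (mul_le_mul_of_nonneg_left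
      (mul_le_mul_of_nonneg_left (by linarith only [b1]) hn0.le) (abs_nonneg _)) b2
  · rw [← ENNReal.ofReal_add (by positivity) (by positivity)]
    refine ENNReal.ofReal_le_ofReal ?_
    have b1 : η * (2 * n * n) ≤ η'' := (le_div_iff₀ (by positivity)).1 (hη' ▸ min_le_right _ _)
    have b2 : n * (η'' / (2 * n)) = η'' / 2 := by field_simp
    linarith only [b1, b2]

end Pool.Agent.MP_5cfeaf_gt.W

end
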