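import Pool.Agent.MP_5cfeaf_gt.Stmt

attribute [-instance] ProperSMul.toContinuousSMul TotallySeparatedSpace.t2Space
  instCompleteSpaceSubtypeMemSubmoduleOfIsClosedCoe NonarchimedeanAddGroup.toIsTopologicalAddGroup
  NonUnitalNonAssocSemiring.toAddCommMonoid RKHS.instFunLike AddGroupWithOne.toAddGroup
  NonUnitalNonAssocSemiring.toDistrib instCoeHTCTOfCoeTailOfCoeHTC CompactSpace.sigmaCompact
  CoalgHomClass.toSemilinearMapClass Valued.toUniformSpace littleWedderburn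
  IsTopologicalTorsor.toContinuousSMul bot_nonempty
  NonUnitalAlgSemiHomClass.toDistribMulActionSemiHomClass NonUnitalNonAssocSemiring.toMulZeroClass

section

/-! Shared proof-side definitions of campaign h87w (ambient space `R d = ℝ^(d+1)`, hypersurfaces of dimension `d`). -/

set_option autoImplicit false

open MeasureTheory Set Filter Topology Metric
open scoped ENNReal symmDiff Classical InnerProductSpace ContDiff

namespace Pool.Agent.MP_5cfeaf_gt.W

/-- ambient space -/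
abbrev R (d : ℕ) := E (d + 1)
/-- unit sphere of normals -/
abbrev S (d : ℕ) := Metric.sphere (0 : R d) 1
/-- varifolds: measures on points x normals -/
abbrev Vf (d : ℕ) := Measure (R d × S d)
/-- open unit ball -/
abbrev B (d : ℕ) : Set (R d) := ball 0 1

variable {d : ℕ}

noncomputable instance : Inhabited (S d) := ⟨⟨EuclideanSpace.single 0 1, by simp⟩⟩

/-- normalisation of a vector -/
noncomputable def toS (v : R d) : S d :=
  if h : v = 0 then default else ⟨‖v‖⁻¹ • v, by simp [norm_smul, h]⟩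

/-- `C^1` with compact support inside `U` -/
def C1c {n : ℕ} {F : Type} [NormedAddCommGroup F] [NormedSpace ℝ F] (T : E n → F) (U : Set (E n)) :
    Prop :=
  ContDiff ℝ 1 T ∧ HasCompactSupport T ∧ tsupport T ⊆ U

/-- partial derivative -/
noncomputable def pd {n : ℕ} (i : Fin n) (g : E n → ℝ) (x : E n) : ℝ :=
  fderiv ℝ g x (EuclideanSpace.single i 1)

/-! ### coordinates `x = (y, t)` -/

/-- horizontal part -/
noncomputable def pr (x : R d) : E d := WithLp.toLp 2 fun i => x i.castSucc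
/-- height -/
def ht (x : R d) : ℝ := x (Fin.last d)
/-- the point `(y, t)` -/
noncomputable def mk (y : E d) (t : ℝ) : R d := WithLp.toLp 2 (Fin.snoc (α := fun _ => ℝ) (fun i => y i) t)
/-- open cylinder -/
def cyl (y : E d) (r t h : ℝ) : Set (R d) := {x | pr x ∈ ball y r ∧ |ht x - t| < h}
/-- open annulus about the origin -/
def An (a b : ℝ) : Set (R d) := {x | a < ‖x‖ ∧ ‖x‖ < b}

/-! ### perimeter measure, normal, varifold of a set -/

/-- perimeter measure -/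
noncomputable def pm (Ω : Set (R d)) : Measure (R d) :=
  if h : ∃ μ : Measure (R d), ∀ A, μ A = ⨅ (U : Set (R d)) (_ : IsOpen U ∧ A ⊆ U), Per Ω U
  then h.choose else 0

/-- the open set where the perimeter is locally finite -/
def lf (Ω : Set (R d)) : Set (R d) := {x | ∃ r > 0, pm Ω (ball x r) < ⊤}

/-- outer unit normal -/
noncomputable def nu (Ω : Set (R d)) : R d → S d :=
  Classical.epsilon fun ν : R d → S d => Measurable ν ∧
    ∀ T : R d → R d, C1c T (lf Ω) → ∫ x in Ω, dv T x = ∫ x, ⟪T x, (ν x : R d)⟫_ℝ ∂pm Ω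

/-- varifold of the boundary of `Ω` in `O` -/
noncomputable def vf (Ω O : Set (R d)) : Vf d :=
  ((pm Ω).restrict O).map fun x => (x, nu Ω x)

/-- image of the area element `ν` under the linear map `M` -/
noncomputable def cofv (M : R d →L[ℝ] R d) (ν : R d) : R d :=
  |M.det| • ContinuousLinearMap.adjoint M.inverse ν

/-! ### varifolds -/

/-- tangential divergence -/
noncomputable def divT (X : R d → R d) (p : R d × S d) : ℝ :=
  dv X p.1 - ⟪(p.2 : R d), fderiv ℝ X p.1 p.2⟫_ℝ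

/-- finite on compact subsets of `O` -/
def LocFin (W : Vf d) (O : Set (R d)) : Prop := ∀ K, IsCompact K → K ⊆ O → W.fst K < ⊤

/-- eventually bounded on compact subsets of `O` -/
def LocBd {ι : Type} (l : Filter ι) (V : ι → Vf d) (O : Set (R d)) : Prop :=
  ∀ K, IsCompact K → K ⊆ O → ∃ C < ⊤, ∀ᶠ i in l, (V i).fst K ≤ C

/-- weak convergence in `O` -/
def VConv {ι : Type} (l : Filter ι) (V : ι → Vf d) (W : Vf d) (O : Set (R d)) : Prop :=
  ∀ g : R d × S d → ℝ, Continuous g → (∃ K, IsCompact K ∧ K ⊆ O ∧ ∀ p, p.1 ∉ K → g p = 0) →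
    Tendsto (fun i => ∫ p, g p ∂V i) l (𝓝 (∫ p, g p ∂W))

/-- stationary in `O` -/
def Stat (W : Vf d) (O : Set (R d)) : Prop :=
  LocFin W O ∧ ∀ X : R d → R d, C1c X O → ∫ p, divT X p ∂W = 0

/-- similarity `y ↦ r⁻¹ Q (y - x)` -/
noncomputable def simP (r : ℝ) (x : R d) (Q : R d ≃ₗᵢ[ℝ] R d) (y : R d) : R d := r⁻¹ • Q (y - x)

/-- image of a varifold under a similarity -/
noncomputable def simV (r : ℝ) (x : R d) (Q : R d ≃ₗᵢ[ℝ] R d) (W : Vf d) : Vf d :=
  ENNReal.ofReal ((r ^ d)⁻¹) •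
    W.map fun p => (simP r x Q p.1, (⟨Q p.2, by simp⟩ : S d))

/-- smooth density ratio -/
noncomputable def theta (W : Vf d) (x : R d) (r : ℝ) : ℝ :=
  (r ^ d)⁻¹ * ∫ y, (max (1 - ‖y - x‖ ^ 2 / r ^ 2) 0) ^ 2 ∂W.fst

/-- density ratio of a multiplicity one plane -/
noncomputable def cd (d : ℕ) : ℝ := ∫ y : E d, (max (1 - ‖y‖ ^ 2) 0) ^ 2

/-- conical in `A` (vertex 0) with spine containing `L` -/
def Con (W : Vf d) (A : Set (R d)) (L : Submodule ℝ (R d)) : Prop :=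
  ∀ᵐ p ∂W, p.1 ∈ A → ⟪p.1, (p.2 : R d)⟫_ℝ = 0 ∧ ∀ e ∈ L, ⟪e, (p.2 : R d)⟫_ℝ = 0

/-! ### smooth hypersurfaces -/

/-- `f` is a smooth defining function of `M` near `x` -/
def DefFn (M : Set (R d)) (x : R d) (f : R d → ℝ) : Prop :=
  ContDiff ℝ ∞ f ∧ fderiv ℝ f x ≠ 0 ∧ ∀ᶠ y in 𝓝 x, (y ∈ M ↔ f y = 0)

/-- `M` is a smooth hypersurface near `x` -/
def WReg (M : Set (R d)) (x : R d) : Prop := ∃ f, DefFn M x f

/-- smooth matrix field which is the normal projection of `M` on `M ∩ U` -/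
def Adapted (M U : Set (R d)) (P : R d → Fin (d + 1) → Fin (d + 1) → ℝ) : Prop :=
  (∀ i j, ContDiff ℝ ∞ fun x => P x i j) ∧
  ∀ x ∈ M ∩ U, ∃ f, DefFn M x f ∧ ∀ i j, P x i j * ∑ k, pd k f x ^ 2 = pd i f x * pd j f x

/-- tangential derivative -/
noncomputable def dl (P : R d → Fin (d + 1) → Fin (d + 1) → ℝ) (i : Fin (d + 1)) (g : R d → ℝ)
    (x : R d) : ℝ :=
  pd i g x - ∑ j, P x i j * pd j g x

/-- squared tangential gradient -/
noncomputable def gs (P : R d → Fin (d + 1) → Fin (d + 1) → ℝ) (g : R d → ℝ) (x : R d) : ℝ :=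
  ∑ i, dl P i g x ^ 2

/-- tangential Laplacian -/
noncomputable def lap (P : R d → Fin (d + 1) → Fin (d + 1) → ℝ) (g : R d → ℝ) (x : R d) : ℝ :=
  ∑ i, dl P i (dl P i g) x

/-- squared second fundamental form -/
noncomputable def c2 (P : R d → Fin (d + 1) → Fin (d + 1) → ℝ) (x : R d) : ℝ :=
  (∑ j, ∑ k, gs P (fun y => P y j k) x) / 2

/-- stability inequality wherever the support is smooth -/
def Stab (μ : Measure (R d)) (O : Set (R d)) : Prop :=
  ∀ U P, IsOpen U → U ⊆ O → Adapted μ.support U P → ∀ ζ : R d → ℝ, C1c ζ U →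
    ∫ x, c2 P x * ζ x ^ 2 ∂μ ≤ ∫ x, gs P ζ x ∂μ

/-- classical singularity: `M` is a union of half-hyperplanes along `L`, `a`, `b` adjacent -/
structure Wedge (M : Set (R d)) (L : Submodule ℝ (R d)) (a b : R d) : Prop where
  rk : Module.finrank ℝ L + 1 = d
  na : ‖a‖ = 1
  nb : ‖b‖ = 1
  oa : ∀ z ∈ L, ⟪a, z⟫_ℝ = 0
  ob : ∀ z ∈ L, ⟪b, z⟫_ℝ = 0
  ne : a ≠ b
  ne' : a ≠ -b
  ma : a ∈ M
  mb : b ∈ M
  tr : ∀ x ∈ M, ∀ z ∈ L, x + z ∈ M
  dil : ∀ x ∈ M, ∀ t : ℝ, 0 < t → t • x ∈ M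
  gap : ∀ s t : ℝ, 0 < s → 0 < t → ∀ z ∈ L, s • a + t • b + z ∉ M
  fl : ∀ x ∈ M, x ∉ L → ∃ n : R d, ‖n‖ = 1 ∧ (∀ z ∈ L, ⟪n, z⟫_ℝ = 0) ∧
    ∀ᶠ y in 𝓝 x, (y ∈ M ↔ ⟪n, y⟫_ℝ = 0)

/-- area measure of the hyperplane `Q (ℝ^d × 0)` -/
noncomputable def pl (Q : R d ≃ₗᵢ[ℝ] R d) : Measure (R d) :=
  (volume : Measure (E d)).map fun y => Q (mk y 0)

/-- weak minimal surface equation -/
def WeakMSE {m : ℕ} (u : E m → ℝ) (D : Set (E m)) : Prop :=
  ∀ ζ : E m → ℝ, C1c ζ D →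
    ∫ y, ⟪gradient u y, gradient ζ y⟫_ℝ / √(1 + ‖gradient u y‖ ^ 2) = 0

/-! ### the classes -/

/-- perimeter minimiser in (the balls of) `O` -/
def Min (Ω O : Set (R d)) : Prop :=
  MeasurableSet Ω ∧ O ⊆ lf Ω ∧ ∀ x ρ ρ' F, ρ < ρ' → closedBall x ρ' ⊆ O → MeasurableSet F →
    F ∆ Ω ⊆ ball x ρ → pm Ω (ball x ρ') ≤ pm F (ball x ρ')

/-- smooth stationary stable boundary in `O` -/
def SS (Ω O : Set (R d)) : Prop :=
  MeasurableSet Ω ∧ O ⊆ lf Ω ∧ (∀ x ∈ (pm Ω).support ∩ O, WReg (pm Ω).support x) ∧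
    Stat (vf Ω O) O ∧ Stab (pm Ω) O

/-- class of minimisers -/
def KA (O : Set (R d)) (W : Vf d) : Prop :=
  Stat W O ∧ ∃ Ω, Min Ω O ∧ W.fst.restrict O = (pm Ω).restrict O

/-- class of limits of smooth stable boundaries -/
def KS (O : Set (R d)) (W : Vf d) : Prop :=
  LocFin W O ∧ ∃ 𝓤 : Ultrafilter (Set (R d) × Set (R d)),
    (∀ᶠ q in (𝓤 : Filter (Set (R d) × Set (R d))), IsOpen q.2 ∧ SS q.1 q.2) ∧
    (∀ K, IsCompact K → K ⊆ O → ∀ᶠ q in (𝓤 : Filter (Set (R d) × Set (R d))), K ⊆ q.2) ∧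
    LocBd (𝓤 : Filter (Set (R d) × Set (R d))) (fun q => vf q.1 q.2) O ∧ VConv (𝓤 : Filter (Set (R d) × Set (R d))) (fun q => vf q.1 q.2) W O

/-- the abstract class of the dimension reduction -/
structure Cls (d : ℕ) where
  K : Set (R d) → Vf d → Prop
  stat : ∀ O W, IsOpen O → K O W → Stat W O
  mono : ∀ O O' W, IsOpen O → IsOpen O' → O' ⊆ O → K O W → K O' W
  sim : ∀ O W r x Q, IsOpen O → 0 < r → K O W → K (simP r x Q '' O) (simV r x Q W)
  lim : ∀ (𝓤 : Ultrafilter ℕ) (O : ℕ → Set (R d)) (W : ℕ → Vf d), (∀ i, IsOpen (O i) ∧ K (O i) (W i)) →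
    (∀ ρ : ℝ, ∀ᶠ i in (𝓤 : Filter ℕ), ball 0 ρ ⊆ O i) → LocBd (𝓤 : Filter ℕ) W univ →
    ∃ W', K univ W' ∧ VConv (𝓤 : Filter ℕ) W W' univ
  dens : ∃ c > 0, ∀ O W x r, IsOpen O → K O W → x ∈ W.fst.support → 0 < r → closedBall x r ⊆ O →
    ENNReal.ofReal (c * r ^ d) ≤ W.fst (closedBall x r)
  eps : ∀ Λ : ℝ, ∃ ε > 0, ∀ W, K (ball 0 4) W → W.fst (ball 0 4) ≤ ENNReal.ofReal Λ →
    (∀ y ∈ W.fst.support ∩ ball 0 4, |ht y| ≤ ε) → (0 : R d) ∈ W.fst.support → WReg W.fst.support 0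
  stab : ∀ O W, IsOpen O → K O W → Stab W.fst O
  nocl : ∀ W L a b (Λ : ℝ), K univ W → (∀ ρ : ℝ, 0 < ρ → W.fst (ball 0 ρ) ≤ ENNReal.ofReal (Λ * ρ ^ d)) →
    Con W univ L → ¬ Wedge W.fst.support L a b

/-! ### almost minimising sets -/

/-- no `η`-fine chain inside `U` with cost at most `δ` gains `ε` -/
def AM (Ω U : Set (R d)) (ε δ η : ℝ) : Prop :=
  ¬ ∃ (N : ℕ) (F : ℕ → Set (R d)), F 0 = Ω ∧
    (∀ j ≤ N, MeasurableSet (F j) ∧ F j ∆ Ω ⊆ U ∧
      pm (F j) (closure U) ≤ pm Ω (closure U) + ENNReal.ofReal δ) ∧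
    (∀ j < N, volume (F j ∆ F (j + 1)) ≤ ENNReal.ofReal η) ∧
    pm (F N) (closure U) + ENNReal.ofReal ε ≤ pm Ω (closure U)

/-- limits in `O` of sets that are almost minimising in `U` -/
def KAM (O U : Set (R d)) (W : Vf d) : Prop :=
  LocFin W O ∧ ∃ 𝓤 : Ultrafilter (Set (R d)),
    (∀ᶠ Ω in (𝓤 : Filter (Set (R d))), MeasurableSet Ω ∧ O ⊆ lf Ω) ∧
    (∀ ε > 0, ∀ᶠ Ω in (𝓤 : Filter (Set (R d))), ∃ δ > 0, ∃ η > 0, AM Ω U ε δ η) ∧
    LocBd (𝓤 : Filter (Set (R d))) (fun Ω => vf Ω O) O ∧ VConv (𝓤 : Filter (Set (R d))) (fun Ω => vf Ω O) W O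

/-! ### discrete sweepouts -/

section chains
variable {α : Type}

/-- boundary of a list (augmented complex) -/
noncomputable def bdL : List α → (List α →₀ ZMod 2)
  | [] => 0
  | a :: l => Finsupp.single l 1 + (bdL l).mapDomain (List.cons a)

/-- boundary of a chain -/
noncomputable def bd (c : List α →₀ ZMod 2) : List α →₀ ZMod 2 := c.sum fun l z => z • bdL l

/-- cup power of the coboundary of `u` -/
def Lam (u : α → ZMod 2) : List α → ZMod 2
  | [] => 0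
  | [_] => 1
  | a :: b :: l => (u a + u b) * Lam u (b :: l)

/-- evaluation of a cochain -/
noncomputable def ev (F : List α → ZMod 2) (c : List α →₀ ZMod 2) : ZMod 2 := c.sum fun l z => z * F l

/-- free involution with an odd function -/
def Odd2 (τ : α → α) (u : α → ZMod 2) : Prop := (∀ a, τ (τ a) = a) ∧ ∀ a, u (τ a) = u a + 1

/-- discrete `k`-sweepout with entries in `A` and pairs in `Rl` -/
def Sw (τ : α → α) (u : α → ZMod 2) (k : ℕ) (A : α → Prop) (Rl : α → α → Prop) : Prop :=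
  ∃ c : List α →₀ ZMod 2, (∀ l ∈ c.support, l.length = k + 1) ∧
    (bd c).mapDomain (List.map τ) = bd c ∧ ev (Lam u) c = 1 ∧
    ∀ l ∈ c.support, (∀ a ∈ l, A a) ∧ ∀ a ∈ l, ∀ b ∈ l, Rl a b

/-- vertices of the subdivision: nonempty lists `v.1 :: v.2` -/
abbrev Vx (α : Type) := α × List α

/-- the list of a vertex -/
def Vx.l (v : Vx α) : List α := v.1 :: v.2

/-- involution on vertices -/
def Vx.inv (τ : α → α) (v : Vx α) : Vx α := (τ v.1, v.2.map τ)

/-- simplices of the subdivision: flags of admissible lists -/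
def IsFlag (k : ℕ) (A : α → Prop) (Rl : α → α → Prop) (F : Finset (Vx α)) : Prop :=
  F.Nonempty ∧ (∀ v ∈ F, v.l.length ≤ k + 1 ∧ (∀ a ∈ v.l, A a) ∧ ∀ a ∈ v.l, ∀ b ∈ v.l, Rl a b) ∧
    ∀ v ∈ F, ∀ w ∈ F, v = w ∨ (v.l.Sublist w.l ∧ v.l.length < w.l.length) ∨
      (w.l.Sublist v.l ∧ w.l.length < v.l.length)

end chains

/-- odd function on sets -/
noncomputable def uS (Ω : Set (R d)) : ZMod 2 := if (0 : R d) ∈ Ω then 1 else 0

/-- discrete sweepouts by sets -/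
def SwS (k : ℕ) (A : Set (R d) → Prop) (Rl : Set (R d) → Set (R d) → Prop) : Prop :=
  Sw compl uS k A Rl

/-- measurable with perimeter at most `L` in the ball -/
def FA (L : ℝ) (Ω : Set (R d)) : Prop := MeasurableSet Ω ∧ pm Ω (B d) ≤ ENNReal.ofReal L

/-- `L^1`-close in the ball -/
def FR (η : ℝ) (Ω Ω' : Set (R d)) : Prop := volume ((Ω ∆ Ω') ∩ B d) ≤ ENNReal.ofReal η

/-- the two sets differ only in a closed set where both have small perimeter -/
def Loc (δ : ℝ) (Ω Ω' : Set (R d)) : Prop :=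
  ∃ D, IsClosed D ∧ (Ω ∆ Ω') ∩ B d ⊆ D ∧ pm Ω (D ∩ B d) ≤ ENNReal.ofReal δ ∧
    pm Ω' (D ∩ B d) ≤ ENNReal.ofReal δ

/-- perimeter measures are close when tested with `1` and with the `ψ j` -/
def Near {M : ℕ} (γ : ℝ) (ψ : Fin M → R d → ℝ) (Ω Ω' : Set (R d)) : Prop :=
  pm Ω (B d) ≤ pm Ω' (B d) + ENNReal.ofReal γ ∧
    ∀ j, ∫⁻ x in B d, ENNReal.ofReal (ψ j x) ∂pm Ω ≤
      ∫⁻ x in B d, ENNReal.ofReal (ψ j x) ∂pm Ω' + ENNReal.ofReal γ

/-- first variation in the ball -/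
noncomputable def fv (Ω : Set (R d)) (X : R d → R d) : ℝ := ∫ p, divT X p ∂vf Ω (B d)

end Pool.Agent.MP_5cfeaf_gt.W

end

section

/-! Coordinates. -/

set_option autoImplicit false

open MeasureTheory Set Filter Topology Metric
open scoped ENNReal symmDiff Classical InnerProductSpace ContDiff

namespace Pool.Agent.MP_5cfeaf_gt.W

variable {d : ℕ}

theorem measurePreserving_coord :
    MeasurePreserving (fun q : E d × ℝ => mk q.1 q.2) (volume.prod volume) (volume : Measure (R d)) := by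
  have h1 := (volume_preserving_piFinSuccAbove (fun _ : Fin (d + 1) => ℝ) (Fin.last d)).symm
  have h2 : MeasurePreserving (fun q : E d × ℝ => ((q.2, q.1.ofLp) : ℝ × (Fin d → ℝ)))
      (volume.prod volume) (volume.prod volume) :=
    ((MeasurePreserving.id (volume : Measure ℝ)).prod (PiLp.volume_preserving_ofLp (Fin d))).comp
      Measure.measurePreserving_swap
  have h3 := (PiLp.volume_preserving_toLp (Fin (d + 1))).comp (h1.comp h2)
  have h4 : (fun q : E d × ℝ => mk q.1 q.2) = (WithLp.toLp 2 ∘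
      ⇑(MeasurableEquiv.piFinSuccAbove (fun _ : Fin (d + 1) => ℝ) (Fin.last d)).symm ∘
        fun q : E d × ℝ => ((q.2, q.1.ofLp) : ℝ × (Fin d → ℝ))) := by
    funext q
    simp [mk, MeasurableEquiv.piFinSuccAbove, Fin.snocEquiv]
  rw [h4]
  exact h3

@[simp] theorem pr_mk (y : E d) (t : ℝ) : pr (mk y t) = y := by
  ext i
  simp [pr, mk]

@[simp] theorem ht_mk (y : E d) (t : ℝ) : ht (mk y t) = t := by
  simp [ht, mk]

@[simp] theorem mk_pr_ht (x : R d) : mk (pr x) (ht x) = x := by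
  ext i
  refine Fin.lastCases ?_ (fun j => ?_) i <;> simp [pr, mk, ht]

theorem inner_coord (x x' : R d) : ⟪x, x'⟫_ℝ = ⟪pr x, pr x'⟫_ℝ + ht x * ht x' := by
  simp only [PiLp.inner_apply, Fin.sum_univ_castSucc, pr, ht]
  simp [mul_comm]

theorem norm_sq_coord (x : R d) : ‖x‖ ^ 2 = ‖pr x‖ ^ 2 + ht x ^ 2 := by
  rw [← real_inner_self_eq_norm_sq, ← real_inner_self_eq_norm_sq, inner_coord, sq]

theorem exists_prL (d : ℕ) : ∃ L : R d →L[ℝ] E d, ∀ x, L x = pr x := by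
  let L : R d →ₗ[ℝ] E d :=
    { toFun := pr
      map_add' := fun x y => by ext i; simp [pr]
      map_smul' := fun c x => by ext i; simp [pr] }
  exact ⟨LinearMap.toContinuousLinearMap L, fun _ => rfl⟩

theorem exists_htL (d : ℕ) : ∃ L : R d →L[ℝ] ℝ, ∀ x, L x = ht x := by
  exact ⟨EuclideanSpace.proj (Fin.last d), fun _ => rfl⟩

theorem exists_mkL (d : ℕ) : ∃ L : (E d × ℝ) ≃L[ℝ] R d, ∀ y t, L (y, t) = mk y t := by
  let L : (E d × ℝ) ≃ₗ[ℝ] R d :=
    { toFun := fun q => mk q.1 q.2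
      invFun := fun x => (pr x, ht x)
      map_add' := fun x y => by
        ext i
        refine Fin.lastCases ?_ (fun j => ?_) i <;> simp [mk]
      map_smul' := fun c x => by
        ext i
        refine Fin.lastCases ?_ (fun j => ?_) i <;> simp [mk]
      left_inv := fun q => by simp
      right_inv := fun x => by simp }
  exact ⟨L.toContinuousLinearEquiv, fun _ _ => rfl⟩

theorem exists_rot (n : R d) (hn : ‖n‖ = 1) :
    ∃ Q : R d ≃ₗᵢ[ℝ] R d, ∀ x, ht (Q x) = ⟪n, x⟫_ℝ := by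
  have h1 : ‖n‖ = ‖(EuclideanSpace.single (Fin.last d) (1 : ℝ) : R d)‖ := by simp [hn]
  refine ⟨Submodule.reflection (ℝ ∙ (n - EuclideanSpace.single (Fin.last d) 1))ᗮ, fun x => ?_⟩
  rw [← (Submodule.reflection (ℝ ∙ (n - EuclideanSpace.single (Fin.last d) (1 : ℝ)))ᗮ).inner_map_map n x,
    Submodule.reflection_sub h1, EuclideanSpace.inner_single_left]
  simp [ht]

theorem continuous_pr : Continuous (pr : R d → E d) := by
  obtain ⟨L, hL⟩ := exists_prL d
  exact L.continuous.congr hL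

theorem continuous_ht : Continuous (ht : R d → ℝ) := by
  obtain ⟨L, hL⟩ := exists_htL d
  exact L.continuous.congr hL

theorem continuous_mk : Continuous fun q : E d × ℝ => mk q.1 q.2 := by
  obtain ⟨L, hL⟩ := exists_mkL d
  exact L.continuous.congr fun q => hL q.1 q.2

theorem isOpen_cyl (y : E d) (r t h : ℝ) : IsOpen (cyl y r t h) := by
  exact (isOpen_ball.preimage continuous_pr).inter
    (isOpen_lt (continuous_ht.sub continuous_const).abs continuous_const)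

open scoped Pointwise in
theorem vol_sim (A : Set (R d)) {r : ℝ} (hr : 0 < r) (x : R d) (Q : R d ≃ₗᵢ[ℝ] R d) :
    volume (simP r x Q '' A) = ENNReal.ofReal ((r ^ (d + 1))⁻¹) * volume A := by
  have h1 : simP r x Q '' A = r⁻¹ • (Q.symm.toHomeomorph.toMeasurableEquiv ⁻¹' ((fun y => x + y) ⁻¹' A)) := by
    ext z
    constructor
    · rintro ⟨y, hy, rfl⟩
      refine ⟨Q (y - x), ?_, rfl⟩
      simpa using hy
    · rintro ⟨w, hw, rfl⟩
      refine ⟨x + Q.symm w, by simpa using hw, ?_⟩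
      simp [simP]
  have h2 : MeasurePreserving Q.symm.toHomeomorph.toMeasurableEquiv (volume : Measure (R d)) volume :=
    Q.symm.measurePreserving
  rw [h1, Measure.addHaar_smul_of_nonneg _ (inv_nonneg.2 hr.le), h2.measure_preimage_equiv,
    measure_preimage_add, finrank_euclideanSpace_fin, inv_pow]

end Pool.Agent.MP_5cfeaf_gt.W

end
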