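import Pool.Agent.MP_5cfeaf_gt.PdeA
import Pool.Agent.MP_5cfeaf_gt.Defs

attribute [-instance] NonUnitalNonAssocRing.toAddCommGroup Action.FintypeCat.instMulActionObjFiniteOf
  Valued.toUniformSpace IsScalarTower.complexToReal TotallySeparatedSpace.t2Space
  IdemSemiring.toCanonicallyOrderedAdd RightPreLieAlgebra.toModule CommRing.toRing
  LeftPreLieAlgebra.toModule AddQuantale.instAddLeftMono NonUnitalNonAssocSemiring.toAddCommMonoid
  NonarchimedeanAddGroup.toIsTopologicalAddGroup NonUnitalSeminormedRing.toPseudoMetricSpace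
  GrpTypeEquivalenceGrp.grpGroup littleWedderburn NonUnitalNonAssocSemiring.toDistrib
  ProperSMul.toContinuousSMul Algebra.toSMul NonUnitalNonAssocSemiring.toMulZeroClass
  LieRing.toAddCommGroup CStarAlgebra.toNormedRing NonUnitalCStarAlgebra.toNonUnitalNormedRing
  LieRinehartAlgebra.toIsScalarTower Module.complexToReal NumberField.to_charZero
  NonUnitalNormedCommRing.toNonUnitalSeminormedCommRing IsTopologicalTorsor.toContinuousSMul
  RKHS.instFunLike DiscreteUniformity.instCompleteSpace NormedDivisionRing.toNormedRing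
  MulSemiringAction.toDistribMulAction LinearOrderedCommMonoidWithZero.toPosMulStrictMono
  IdemSemiring.toMulLeftMono spectralNorm.completeSpace continuousSub_of_discreteTopology
  AddQuantale.instAddRightMono SeminormedRing.toNonUnitalSeminormedRing IsOrderedMonoid.toMulLeftMono
  MulZeroOneClass.toMulZeroClass NonAssocRing.toAddCommGroupWithOne
  CoalgHomClass.toSemilinearMapClass Quantale.instMulLeftMono IdemSemiring.toSemiring
  CommCStarAlgebra.toNormedCommRing NonUnitalAlgSemiHomClass.toDistribMulActionSemiHomClass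
  AddCommGroupWithOne.toAddCommGroup IsTopologicalSemiring.toContinuousAdd BooleanRing.toRing
  SeminormedCommGroup.toPseudoMetricSpace Quantale.instMulRightMono
  completeSpace_of_cauSeq_isComplete instCoeOTCOfCoeOut instSMulZeroClass
  IsIsometricSMul.to_continuousConstSMul Topology.IsScott.instClosedIicTopologyOfUnivSet
  AddCommMonoidWithOne.toAddCommMonoid Group.IsPerfect.subsingleton_of_isMulCommutative
  IsValuativeTopology.instIsTopologicalAddGroup instCoeHTCOfCoeHeadOfCoeOTC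
  CStarAlgebra.toCompleteSpace NormedSpace.complexToReal EuclideanDomain.toCommRing
  LieAlgebra.toModule SeminormedCommRing.toCommRing NormedCommRing.toCommRing
  RingHomClass.toLinearMapClassNNRat CanonicallyOrderedAdd.toMulLeftMono instCoeHTCTOfCoeTailOfCoeHTC
  instIsModuleTopology NonAssocSemiring.toNonUnitalNonAssocSemiring
  NonUnitalCStarAlgebra.toCompleteSpace
  TopologicalSpace.UpgradedIsCompletelyPseudoMetrizableSpace.toPseudoMetricSpace
  UpgradedStandardBorel.toTopologicalSpace LinearOrderedAddCommMonoidWithTop.toAddCommMonoid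
  RightPreLieRing.instLieAdmissibleRing

section

/-! Higher regularity, the minimal surface equation, maximum principle, kernels. -/

open MeasureTheory Metric Set Filter Topology
open scoped InnerProductSpace Gradient ContDiff

namespace Pool.Agent.MP_5cfeaf_gt.G

variable {E : Type} [NormedAddCommGroup E] [InnerProductSpace ℝ E] [FiniteDimensional ℝ E]
  [MeasurableSpace E] [BorelSpace E]

section Lim

omit [MeasurableSpace E] [BorelSpace E]

variable {F : Type} [NormedAddCommGroup F] [NormedSpace ℝ F]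

theorem hol_grad_iff {S : Set E} {r C : ℝ} {w : E → ℝ} :
    Hol S r C (∇ w) ↔ Hol S r C (fderiv ℝ w) := by
  simp only [Hol, gradient, ← map_sub, LinearIsometryEquiv.norm_map]

omit [FiniteDimensional ℝ E] [InnerProductSpace ℝ E] [NormedSpace ℝ F] in
theorem lim_aux {ι : Type} {l : Filter ι} [l.NeBot] {S : Set E} {r C : ℝ} {f : ι → E → F}
    {u : E → F} (hh : ∀ᶠ n in l, Hol S r C (f n))
    (hl : ∀ x ∈ S, Tendsto (fun n => f n x) l (𝓝 (u x))) : Hol S r C u :=
  ⟨fun x hx => le_of_tendsto (hl x hx).norm (hh.mono fun _ h => h.1 x hx), fun x hx y hy =>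
    le_of_tendsto ((hl x hx).sub (hl y hy)).norm (hh.mono fun _ h => h.2 x hx y hy)⟩

omit [NormedSpace ℝ F] in
/-- Equi-Hoelder and pointwise convergent implies uniformly convergent (finite net of the totally
bounded ball). -/
theorem hol_unif {ι : Type} {l : Filter ι} [l.NeBot] {x₀ : E} {r s C : ℝ} {f : ι → E → F}
    {u : E → F} (hh : ∀ᶠ n in l, Hol (ball x₀ s) r C (f n))
    (hl : ∀ x ∈ ball x₀ s, Tendsto (fun n => f n x) l (𝓝 (u x))) :
    TendstoUniformlyOn f u l (ball x₀ s) := by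
  have hu := lim_aux hh hl
  refine Metric.tendstoUniformlyOn_iff.2 fun ε hε => ?_
  have hc : Continuous fun t : ℝ => C * √(t / r) := by fun_prop
  obtain ⟨δ, hδ, h⟩ := Metric.eventually_nhds_iff.1
    ((hc.tendsto' 0 0 (by simp)).eventually (gt_mem_nhds (show 0 < ε / 3 by positivity)))
  obtain ⟨t, ht, hf, hn⟩ := Metric.finite_approx_of_totallyBounded
    ((isCompact_closedBall x₀ s).totallyBounded.subset ball_subset_closedBall) δ hδ
  filter_upwards [hh, hf.eventually_all.2 fun y hy =>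
    Metric.tendsto_nhds.1 (hl y (ht hy)) (ε / 3) (by positivity)] with n h1 h2 x hx
  obtain ⟨y, hy, hxy⟩ := mem_iUnion₂.1 (hn hx)
  have h3 : C * √(‖x - y‖ / r) < ε / 3 := h (by simpa [dist_eq_norm] using hxy)
  have h4 := h1.2 x hx y (ht hy)
  have h5 := hu.2 x hx y (ht hy)
  rw [← dist_eq_norm] at h4 h5
  linarith [dist_triangle4 (u x) (u y) (f n y) (f n x), dist_comm (u y) (f n y),
    dist_comm (f n y) (f n x), h2 y hy]

/-- |f n y - f n x - D(f n) x (y - x)| ≤ C √(|y-x|/r) |y-x| on the ball (mean value inequality).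
Along any ultrafilter below l the bounded derivatives converge (proper space) to some P x and the
inequality passes to the limit, so HasFDerivAt u (P x) x; uniqueness of the derivative gives
convergence along l (tendsto_iff_ultrafilter), and the bounds pass to the limit. -/
theorem c1h_lim [FiniteDimensional ℝ F] {ι : Type} {l : Filter ι} [l.NeBot] {x₀ : E} {r s C : ℝ}
    (hr : 0 < r) {f : ι → E → F} {u : E → F}
    (hd : ∀ᶠ n in l, ∀ x ∈ ball x₀ s, DifferentiableAt ℝ (f n) x)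
    (hh : ∀ᶠ n in l, Hol (ball x₀ s) r C (fderiv ℝ (f n)))
    (hl : ∀ x ∈ ball x₀ s, Tendsto (fun n => f n x) l (𝓝 (u x))) :
    (∀ x ∈ ball x₀ s, DifferentiableAt ℝ u x) ∧ Hol (ball x₀ s) r C (fderiv ℝ u) ∧
      ∀ x ∈ ball x₀ s, Tendsto (fun n => fderiv ℝ (f n) x) l (𝓝 (fderiv ℝ u x)) := by
  have key : ∀ 𝓤 : Ultrafilter ι, (𝓤 : Filter ι) ≤ l → ∀ x ∈ ball x₀ s, DifferentiableAt ℝ u x ∧
      Tendsto (fun n => fderiv ℝ (f n) x) 𝓤 (𝓝 (fderiv ℝ u x)) := by
    intro 𝓤 hU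
    have h1 : ∀ x, ∃ P, x ∈ ball x₀ s → Tendsto (fun n => fderiv ℝ (f n) x) 𝓤 (𝓝 P) := by
      intro x
      by_cases hx : x ∈ ball x₀ s
      · obtain ⟨P, -, hP⟩ := (isCompact_closedBall (0 : E →L[ℝ] F) C).ultrafilter_le_nhds
          (𝓤.map fun n => fderiv ℝ (f n) x) (le_principal_iff.2
            ((hh.filter_mono hU).mono fun n h => mem_closedBall_zero_iff.2 (h.1 x hx)))
        exact ⟨P, fun _ => hP⟩
      · exact ⟨0, fun h => (hx h).elim⟩
    choose P hP using h1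
    intro x hx
    have hn := isOpen_ball.mem_nhds hx
    have h2 : HasFDerivAt u (P x) x := hasFDerivAt_of_tendstoUniformlyOnFilter (l := 𝓤)
      (((hol_unif (hh.filter_mono hU) hP).tendstoUniformlyOnFilter).mono_right
        (le_principal_iff.2 hn))
      (((hd.filter_mono hU).prod_mk hn).mono fun n h => (h.1 _ h.2).hasFDerivAt)
      (mem_of_superset hn fun y hy => (hl y hy).mono_left hU)
    exact ⟨h2.differentiableAt, h2.fderiv ▸ hP x hx⟩
  have h3 : ∀ x ∈ ball x₀ s, Tendsto (fun n => fderiv ℝ (f n) x) l (𝓝 (fderiv ℝ u x)) :=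
    fun x hx => tendsto_iff_ultrafilter _ _ _ |>.2 fun 𝓤 hU => (key 𝓤 hU x hx).2
  exact ⟨fun x hx => (key _ (Ultrafilter.of_le l) x hx).1, lim_aux hh h3, h3⟩

theorem c1h_lim_grad {ι : Type} {l : Filter ι} [l.NeBot] {x₀ : E} {r s C : ℝ}
    (hr : 0 < r) {f : ι → E → ℝ} {u : E → ℝ}
    (hd : ∀ᶠ n in l, ∀ x ∈ ball x₀ s, DifferentiableAt ℝ (f n) x)
    (hh : ∀ᶠ n in l, Hol (ball x₀ s) r C (∇ (f n)))
    (hl : ∀ x ∈ ball x₀ s, Tendsto (fun n => f n x) l (𝓝 (u x))) :
    (∀ x ∈ ball x₀ s, DifferentiableAt ℝ u x) ∧ Hol (ball x₀ s) r C (∇ u) ∧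
      ∀ x ∈ ball x₀ s, Tendsto (fun n => ∇ (f n) x) l (𝓝 (∇ u x)) := by
  obtain ⟨h1, h2, h3⟩ := c1h_lim hr hd (hh.mono fun _ => hol_grad_iff.1) hl
  exact ⟨h1, hol_grad_iff.2 h2, fun x hx =>
    ((InnerProductSpace.toDual ℝ E).symm.continuous.tendsto _).comp (h3 x hx)⟩

end Lim

section Hk

omit [MeasurableSpace E] [BorelSpace E]

variable {F F₁ F₂ F₃ : Type} [NormedAddCommGroup F] [NormedSpace ℝ F] [NormedAddCommGroup F₁]
  [NormedSpace ℝ F₁] [NormedAddCommGroup F₂] [NormedSpace ℝ F₂] [NormedAddCommGroup F₃]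
  [NormedSpace ℝ F₃]

theorem Hk.mono {k : ℕ} {U V : Set E} {f : E → F} (h : Hk k U f) (hV : V ⊆ U) : Hk k V f := by
  induction k generalizing f with
  | zero => exact fun x hx => h x (hV hx)
  | succ k ih => exact ⟨fun x hx => h.1 x (hV hx), fun v => ih (h.2 v)⟩

theorem hk_of_local {k : ℕ} {U : Set E} {f : E → F}
    (h : ∀ x ∈ U, ∃ V : Set E, x ∈ V ∧ Hk k V f) : Hk k U f := by
  induction k generalizing f with
  | zero =>
    intro x hx
    obtain ⟨V, hV, hh⟩ := h x hx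
    exact hh x hV
  | succ k ih =>
    refine ⟨fun x hx => ?_, fun v => ih fun x hx => ?_⟩
    · obtain ⟨V, hV, hh⟩ := h x hx
      exact hh.1 x hV
    · obtain ⟨V, hV, hh⟩ := h x hx
      exact ⟨V, hV, hh.2 v⟩

theorem hk_zb {U : Set E} {f : E → F} (hU : IsOpen U) (h : Hk 0 U f) {x : E} (hx : x ∈ U) :
    ∃ r₀ > 0, ∃ C, 0 ≤ C ∧ ball x r₀ ⊆ U ∧ ∀ r, 0 < r → r ≤ r₀ → Hol (ball x r) r C f := by
  obtain ⟨r, hr, C, hh⟩ := h x hx
  obtain ⟨s, hs, hsU⟩ := Metric.isOpen_iff.1 hU x hx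
  refine ⟨min r s, lt_min hr hs, C, (norm_nonneg _).trans (hh.1 x (mem_ball_self hr)),
    (ball_subset_ball (min_le_right _ _)).trans hsU, fun t ht htr => ?_⟩
  have := htr.trans (min_le_left _ _)
  exact (hh.mono (ball_subset_ball this) le_rfl).scale_le ht this

theorem Hk.congr {k : ℕ} {U : Set E} {f g : E → F} (hU : IsOpen U) (h : Hk k U f)
    (hfg : EqOn f g U) : Hk k U g := by
  induction k generalizing f g with
  | zero =>
    intro x hx
    obtain ⟨r, hr, C, -, hs, hh⟩ := hk_zb hU h hx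
    exact ⟨r, hr, C, (hh r hr le_rfl).congr (hfg.mono hs)⟩
  | succ k ih =>
    have he : ∀ x ∈ U, f =ᶠ[𝓝 x] g := fun x hx => hfg.eventuallyEq_of_mem (hU.mem_nhds hx)
    refine ⟨fun x hx => (h.1 x hx).congr_of_eventuallyEq (he x hx).symm, fun v => ih (h.2 v) ?_⟩
    intro x hx
    simp only [(he x hx).fderiv_eq]

theorem hk_const (k : ℕ) (U : Set E) (c : F) : Hk k U fun _ => c := by
  induction k generalizing c with
  | zero =>
    refine fun x _ => ⟨1, one_pos, ‖c‖, fun _ _ => le_rfl, fun y _ z _ => ?_⟩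
    rw [sub_self, norm_zero]; positivity
  | succ k ih =>
    refine ⟨fun x _ => differentiableAt_const c, fun v => ?_⟩
    simpa using ih 0

theorem Hk.add {k : ℕ} {U : Set E} {f g : E → F} (hU : IsOpen U) (h : Hk k U f) (h' : Hk k U g) :
    Hk k U fun x => f x + g x := by
  induction k generalizing f g with
  | zero =>
    intro x hx
    obtain ⟨r, hr, C, -, -, hh⟩ := hk_zb hU h hx
    obtain ⟨r', hr', C', -, -, hh'⟩ := hk_zb hU h' hx
    have h0 := lt_min hr hr'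
    exact ⟨min r r', h0, C + C', (hh _ h0 (min_le_left _ _)).add (hh' _ h0 (min_le_right _ _))⟩
  | succ k ih =>
    refine ⟨fun x hx => (h.1 x hx).add (h'.1 x hx), fun v => (ih (h.2 v) (h'.2 v)).congr hU ?_⟩
    intro x hx
    simp only [fderiv_fun_add (h.1 x hx) (h'.1 x hx), ContinuousLinearMap.add_apply]

theorem hk_sum {k : ℕ} {U : Set E} {ι : Type} (s : Finset ι) {f : ι → E → F} (hU : IsOpen U)
    (h : ∀ i ∈ s, Hk k U (f i)) : Hk k U fun x => ∑ i ∈ s, f i x := by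
  classical
  induction s using Finset.induction_on with
  | empty => simpa using hk_const k U (0 : F)
  | insert a s ha ih =>
    simp only [Finset.sum_insert ha]
    exact (h a (Finset.mem_insert_self _ _)).add hU
      (ih fun i hi => h i (Finset.mem_insert_of_mem hi))

theorem Hk.clm {k : ℕ} {U : Set E} {f : E → F₁} (hU : IsOpen U) (T : F₁ →L[ℝ] F₂)
    (h : Hk k U f) : Hk k U fun x => T (f x) := by
  induction k generalizing f with
  | zero =>
    intro x hx
    obtain ⟨r, hr, C, hh⟩ := h x hx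
    exact ⟨r, hr, _, hh.clm T⟩
  | succ k ih =>
    refine ⟨fun x hx => T.differentiableAt.comp x (h.1 x hx), fun v => (ih (h.2 v)).congr hU ?_⟩
    intro x hx
    have := (T.hasFDerivAt.comp x (h.1 x hx).hasFDerivAt).fderiv
    simp only [Function.comp_def] at this
    simp only [this, ContinuousLinearMap.comp_apply]

/-- Finitely many locally Hoelder functions are Hoelder on a common small ball inside U. -/
theorem Hk.zero_ball {U : Set E} {f : E → F} (hU : IsOpen U) (h : Hk 0 U f) {x : E} (hx : x ∈ U) :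
    ∃ r₀ > 0, ∃ C, 0 ≤ C ∧ ball x r₀ ⊆ U ∧ ∀ r, 0 < r → r ≤ r₀ → Hol (ball x r) r C f := by
  exact hk_zb hU h hx

/-- Base case: the derivative is bounded near x (sum over stdOrthonormalBasis), so f is Lipschitz
on a small ball. -/
theorem Hk.pred {k : ℕ} {U : Set E} {f : E → F} (hU : IsOpen U) (h : Hk (k + 1) U f) :
    Hk k U f := by
  induction k generalizing f with
  | zero =>
    intro x hx
    have hD : Hk 0 U (fderiv ℝ f) := by
      have := hk_sum (k := 0) (U := U) Finset.univ hU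
        (f := fun i z => ContinuousLinearMap.smulRightL ℝ E F
          (innerSL ℝ (stdOrthonormalBasis ℝ E i)) (fderiv ℝ f z (stdOrthonormalBasis ℝ E i)))
        fun i _ => (h.2 (stdOrthonormalBasis ℝ E i)).clm hU _
      refine this.congr hU fun z _ => ?_
      ext v
      conv_rhs => rw [← (stdOrthonormalBasis ℝ E).sum_repr' v]
      simp only [ContinuousLinearMap.smulRightL_apply_apply, sum_apply, ContinuousLinearMap.smulRight_apply, coe_innerSL_apply, map_sum, map_smul]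
    obtain ⟨r, hr, C, hC, hs, hh⟩ := hk_zb hU hD hx
    have hl : ∀ y ∈ ball x r, ∀ z ∈ ball x r, ‖f y - f z‖ ≤ C * ‖y - z‖ := fun y hy z hz =>
      (convex_ball x r).norm_image_sub_le_of_norm_fderiv_le (fun w hw => h.1 w (hs hw))
        (hh r hr le_rfl).1 hz hy
    refine ⟨r, hr, ‖f x‖ + 2 * C * r, fun y hy => ?_, fun y hy z hz => ?_⟩
    · have h1 := hl y hy x (mem_ball_self hr)
      have h2 : ‖y - x‖ ≤ r := (mem_ball_iff_norm.1 hy).le
      have h3 := norm_sub_norm_le (f y) (f x)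
      nlinarith only [mul_le_mul_of_nonneg_left h2 hC, hr, hC, h1, h3]
    · have h2 : ‖y - z‖ / r ≤ 4 := by
        rw [div_le_iff₀ hr]
        have := dist_triangle_right y z x
        rw [mem_ball] at hy hz
        rw [← dist_eq_norm]; linarith
      have h3 : √(‖y - z‖ / r) ≤ 2 := Real.sqrt_le_iff.2 ⟨by norm_num, by linarith⟩
      have h4 : √(‖y - z‖ / r) * √(‖y - z‖ / r) = ‖y - z‖ / r := Real.mul_self_sqrt (by positivity)
      have h5 : ‖y - z‖ = r * (√(‖y - z‖ / r) * √(‖y - z‖ / r)) := by rw [h4]; field_simp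
      have h6 := Real.sqrt_nonneg (‖y - z‖ / r)
      refine (hl y hy z hz).trans ?_
      generalize √(‖y - z‖ / r) = q at *
      rw [h5]
      have h7 : 0 ≤ C * r * q := by positivity
      linarith only [mul_nonneg (norm_nonneg (f x)) h6, mul_le_mul_of_nonneg_left h3 h7]
  | succ k ih => exact ⟨h.1, fun v => ih (h.2 v)⟩

theorem Hk.continuousOn {k : ℕ} {U : Set E} {f : E → F} (h : Hk k U f) : ContinuousOn f U := by
  intro x hx
  cases k with
  | zero =>
    obtain ⟨r, hr, C, hh⟩ := h x hx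
    exact (hh.continuousOn.continuousAt (ball_mem_nhds x hr)).continuousWithinAt
  | succ k => exact (h.1 x hx).continuousAt.continuousWithinAt

end Hk

section Hk2

omit [MeasurableSpace E] [BorelSpace E]

variable {F F₁ F₂ F₃ : Type} [NormedAddCommGroup F] [NormedSpace ℝ F] [NormedAddCommGroup F₁]
  [NormedSpace ℝ F₁] [NormedAddCommGroup F₂] [NormedSpace ℝ F₂] [NormedAddCommGroup F₃]
  [NormedSpace ℝ F₃]

/-- Induction on k (Leibniz rule, ContinuousLinearMap.fderiv_of_bilinear or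
HasFDerivAt.clm_apply). -/
theorem Hk.bilin {k : ℕ} {U : Set E} {f : E → F₁} {g : E → F₂} (hU : IsOpen U)
    (B : F₁ →L[ℝ] F₂ →L[ℝ] F₃) (h : Hk k U f) (h' : Hk k U g) :
    Hk k U fun x => B (f x) (g x) := by
  induction k generalizing f g with
  | zero =>
    intro x hx
    obtain ⟨r₁, hr₁, C₁, -, -, h₁⟩ := h.zero_ball hU hx
    obtain ⟨r₂, hr₂, C₂, -, -, h₂⟩ := h'.zero_ball hU hx
    have hr : 0 < min r₁ r₂ := lt_min hr₁ hr₂
    exact ⟨min r₁ r₂, hr, _, Hol.bilin B (h₁ _ hr (min_le_left _ _)) (h₂ _ hr (min_le_right _ _))⟩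
  | succ k ih =>
    have hD : ∀ x ∈ U, HasFDerivAt (fun x => B (f x) (g x))
        (B.precompR E (f x) (fderiv ℝ g x) + B.precompL E (fderiv ℝ f x) (g x)) x := fun x hx =>
      B.hasFDerivAt_of_bilinear (h.1 x hx).hasFDerivAt (h'.1 x hx).hasFDerivAt
    refine ⟨fun x hx => (hD x hx).differentiableAt, fun v => ?_⟩
    refine Hk.congr hU (Hk.add hU (ih (h.pred hU) (h'.2 v)) (ih (h.2 v) (h'.pred hU))) fun x hx => ?_
    simp only [(hD x hx).fderiv]
    simp

theorem Hk.app {k : ℕ} {U : Set E} {B : E → F₁ →L[ℝ] F₂} {g : E → F₁} (hU : IsOpen U)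
    (h : Hk k U B) (h' : Hk k U g) : Hk k U fun x => B x (g x) :=
  Hk.bilin hU (ContinuousLinearMap.id ℝ (F₁ →L[ℝ] F₂)) h h'

/-- Induction on k generalizing the target space (apply the hypothesis to fderiv Φ); base case:
ContDiffAt.exists_lipschitzOnWith and continuity of f. -/
theorem Hk.comp {k : ℕ} {U : Set E} {f : E → F₁} (hU : IsOpen U) {Φ : F₁ → F₂}
    (hΦ : ContDiff ℝ ∞ Φ) (h : Hk k U f) : Hk k U fun x => Φ (f x) := by
  induction k generalizing F₂ with
  | zero =>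
    intro x hx
    obtain ⟨r₀, hr₀, C, hC, -, h₀⟩ := h.zero_ball hU hx
    obtain ⟨K, t, ht, hK⟩ := (hΦ.contDiffAt.of_le (by simp) : ContDiffAt ℝ 1 Φ (f x)).exists_lipschitzOnWith
    have hc : ContinuousAt f x := h.continuousOn.continuousAt (hU.mem_nhds hx)
    obtain ⟨ε, hε, hb⟩ := Metric.mem_nhds_iff.1 (hc.preimage_mem_nhds ht)
    have hr : 0 < min r₀ ε := lt_min hr₀ hε
    have hH := h₀ _ hr (min_le_left _ _)
    have hin : ∀ y ∈ ball x (min r₀ ε), f y ∈ t := fun y hy =>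
      hb (ball_subset_ball (min_le_right _ _) hy)
    have hx' : x ∈ ball x (min r₀ ε) := mem_ball_self hr
    have hK0 : (0 : ℝ) ≤ K := K.2
    have hL : ∀ y ∈ ball x (min r₀ ε), ∀ z ∈ ball x (min r₀ ε),
        ‖Φ (f y) - Φ (f z)‖ ≤ K * ‖f y - f z‖ := fun y hy z hz => by
      simpa only [dist_eq_norm] using hK.dist_le_mul _ (hin y hy) _ (hin z hz)
    refine ⟨min r₀ ε, hr, ‖Φ (f x)‖ + 2 * (K * C), fun y hy => ?_, fun y hy z hz => ?_⟩
    · have h1 := hL y hy x hx'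
      have h2 : ‖f y - f x‖ ≤ 2 * C :=
        (norm_sub_le _ _).trans (by linarith [hH.1 y hy, hH.1 x hx'])
      have h3 := norm_le_norm_add_norm_sub' (Φ (f y)) (Φ (f x))
      have h4 := mul_le_mul_of_nonneg_left h2 hK0
      linarith
    · have h1 := hL y hy z hz
      have h2 := mul_le_mul_of_nonneg_left (hH.2 y hy z hz) hK0
      have h3 : 0 ≤ √(‖y - z‖ / min r₀ ε) := Real.sqrt_nonneg _
      have h4 : 0 ≤ (‖Φ (f x)‖ + K * C) * √(‖y - z‖ / min r₀ ε) := by positivity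
      linarith
  | succ k ih =>
    have hd : Differentiable ℝ Φ := hΦ.differentiable (by simp)
    have hD : ∀ x ∈ U, HasFDerivAt (fun x => Φ (f x)) ((fderiv ℝ Φ (f x)).comp (fderiv ℝ f x)) x :=
      fun x hx => (hd (f x)).hasFDerivAt.comp x (h.1 x hx).hasFDerivAt
    refine ⟨fun x hx => (hD x hx).differentiableAt, fun v => ?_⟩
    have h1 : ContDiff ℝ ∞ (fderiv ℝ Φ) := hΦ.fderiv_right (by simp)
    refine Hk.congr hU (Hk.app hU (ih h1 (h.pred hU)) (h.2 v)) fun x hx => ?_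
    simp only [(hD x hx).fderiv]
    simp

/-- contDiffOn_succ_iff_fderiv_of_isOpen and contDiffOn_clm_apply. -/
theorem Hk.contDiffOn {k : ℕ} {U : Set E} {f : E → F} (hU : IsOpen U) (h : Hk k U f) :
    ContDiffOn ℝ k f U := by
  induction k generalizing f with
  | zero => exact contDiffOn_zero.2 h.continuousOn
  | succ k ih =>
    rw [Nat.cast_succ, contDiffOn_succ_iff_fderiv_of_isOpen hU]
    refine ⟨fun x hx => (h.1 x hx).differentiableWithinAt, fun hk => absurd hk (by simp), ?_⟩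
    exact contDiffOn_clm_apply.2 fun v => ih (h.2 v)

theorem hk2_succ_of_grad {k : ℕ} {U : Set E} {w : E → ℝ} (hU : IsOpen U)
    (hd : ∀ x ∈ U, DifferentiableAt ℝ w x) (h : Hk k U (∇ w)) : Hk (k + 1) U w := by
  refine ⟨hd, fun v => Hk.congr hU (h.clm hU (innerSL ℝ v)) fun x _ => ?_⟩
  simp only [innerSL_apply_apply]
  rw [real_inner_comm, inner_gradient_left]

/-- grad_eq_sum, hk_sum, Hk.clm. -/
theorem hk_grad_succ {k : ℕ} {U : Set E} {w : E → ℝ} (hU : IsOpen U)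
    (hd : ∀ e, ∀ x ∈ U, DifferentiableAt ℝ (fun z => fderiv ℝ w z e) x)
    (h : ∀ e, Hk k U (∇ fun z => fderiv ℝ w z e)) : Hk (k + 1) U (∇ w) := by
  have h1 : ∇ w = fun x => ∑ i, fderiv ℝ w x (stdOrthonormalBasis ℝ E i) • stdOrthonormalBasis ℝ E i :=
    funext fun x => grad_eq_sum w x
  rw [h1]
  refine hk_sum _ hU fun i _ => ?_
  exact (hk2_succ_of_grad hU (hd _) (h _)).clm hU
    (ContinuousLinearMap.toSpanSingleton ℝ (stdOrthonormalBasis ℝ E i))

theorem contDiffOn_of_hk_grad {U : Set E} {w : E → ℝ} (hU : IsOpen U)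
    (hd : ∀ x ∈ U, DifferentiableAt ℝ w x) (h : ∀ k, Hk k U (∇ w)) : ContDiffOn ℝ ∞ w U := by
  refine contDiffOn_infty.2 fun n => ?_
  exact ((hk2_succ_of_grad hU hd (h n)).pred hU).contDiffOn hU

end Hk2

section Lin

/-- g = B grad w + f, c = B y p + f y. -/
theorem sch_lin {x₀ : E} {r δ K L : ℝ} {B : E → E →L[ℝ] E} {f : E → E} {w : E → ℝ}
    (hB : Hol (ball x₀ r) r K B) (hf : Hol (ball x₀ r) r L f) (hδ : ∀ x ∈ ball x₀ r, ‖B x‖ ≤ δ)
    (hw : ContDiffOn ℝ 1 w (ball x₀ r))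
    (hk : WDiv (ball x₀ r) fun x => ∇ w x - (B x (∇ w x) + f x)) :
    Sch x₀ r w (fun x => B x (∇ w x) + f x) δ L K := by
  have hg : ContinuousOn (∇ w) (ball x₀ r) := grad_contOn isOpen_ball hw
  refine ⟨hw, (hB.continuousOn.clm_apply hg).add hf.continuousOn, hk, fun y hy p => ?_⟩
  refine ⟨B y p + f y, fun x hx => ?_⟩
  have e : B x (∇ w x) + f x - (B y p + f y) =
      B x (∇ w x - p) + ((f x - f y) + (B x - B y) p) := by
    rw [map_sub, sub_apply]; abel
  have h1 : ‖B x (∇ w x - p)‖ ≤ δ * ‖∇ w x - p‖ :=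
    ((B x).le_opNorm _).trans (mul_le_mul_of_nonneg_right (hδ x hx) (norm_nonneg _))
  have h2 : ‖(B x - B y) p‖ ≤ K * √(‖x - y‖ / r) * ‖p‖ :=
    ((B x - B y).le_opNorm _).trans (mul_le_mul_of_nonneg_right (hB.2 x hx y hy) (norm_nonneg _))
  have h3 := hf.2 x hx y hy
  rw [e]
  refine (norm_add_le _ _).trans (add_le_add h1 ((norm_add_le _ _).trans ?_))
  calc ‖f x - f y‖ + ‖(B x - B y) p‖ ≤ L * √(‖x - y‖ / r) + K * √(‖x - y‖ / r) * ‖p‖ :=
        add_le_add h3 h2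
    _ = √(‖x - y‖ / r) * (L + K * ‖p‖) := by ring

/-- w is bounded on a small ball; sch_lin and hS. -/
theorem lin_zero {δ : ℝ} (hS : SchEst E δ) {U : Set E} (hU : IsOpen U) {B : E → E →L[ℝ] E}
    {f : E → E} {w : E → ℝ} (hB : Hk 0 U B) (hf : Hk 0 U f) (hδ : ∀ x ∈ U, ‖B x‖ ≤ δ)
    (hw : ContDiffOn ℝ 1 w U) (hk : WDiv U fun x => ∇ w x - (B x (∇ w x) + f x)) :
    Hk 0 U (∇ w) := by
  intro x hx
  obtain ⟨r₀, hr₀, K, -, hs₀, h₀⟩ := hB.zero_ball hU hx
  obtain ⟨r₁, hr₁, L, hL, -, h₁⟩ := hf.zero_ball hU hx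
  have hc : ContinuousAt w x := hw.continuousOn.continuousAt (hU.mem_nhds hx)
  obtain ⟨r₂, hr₂, h₂⟩ := Metric.continuousAt_iff.1 hc 1 one_pos
  obtain ⟨C, -, hC⟩ := hS K
  set r : ℝ := min r₀ (min r₁ r₂) with hr
  have hr0 : 0 < r := lt_min hr₀ (lt_min hr₁ hr₂)
  have l₀ : r ≤ r₀ := min_le_left _ _
  have l₁ : r ≤ r₁ := (min_le_right _ _).trans (min_le_left _ _)
  have l₂ : r ≤ r₂ := (min_le_right _ _).trans (min_le_right _ _)
  have hs : ball x r ⊆ U := (ball_subset_ball l₀).trans hs₀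
  have hsch := sch_lin (h₀ r hr0 l₀) (h₁ r hr0 l₁) (fun z hz => hδ z (hs hz)) (hw.mono hs)
    (hk.mono hs)
  have hA : 0 ≤ (|w x| + 1) / r := by positivity
  have hb : ∀ z ∈ ball x r, |w z| ≤ (|w x| + 1) / r * r := by
    intro z hz
    rw [div_mul_cancel₀ _ hr0.ne']
    have h3 : dist (w z) (w x) < 1 := h₂ (lt_of_lt_of_le hz l₂)
    rw [Real.dist_eq] at h3
    have h4 := abs_sub_abs_le_abs_sub (w z) (w x)
    linarith only [h3, h4]
  exact ⟨r / 2, half_pos hr0, _,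
    (hC x r w _ L _ hr0 hL hA hsch hb).scale_le (half_pos hr0) (half_le_self hr0.le)⟩

end Lin

section LinD

omit [FiniteDimensional ℝ E] [MeasurableSpace E] [BorelSpace E] in
theorem lind_app {S : Set E} {r C C' : ℝ} {B : E → E →L[ℝ] E} {g : E → E} (h : Hol S r C B)
    (h' : Hol S r C' g) :
    Hol S r (2 * ‖ContinuousLinearMap.id ℝ (E →L[ℝ] E)‖ * C * C') fun x => B x (g x) :=
  Hol.bilin (ContinuousLinearMap.id ℝ (E →L[ℝ] E)) h h'

/-- Difference quotients with h n → 0 on ball x r, ball x (2r) ⊆ U: w_n = dq (h n) e w solves the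
same equation with f_n z = dq (h n) e B z (grad w (z + h n • e)) + dq (h n) e f z (WDiv.dq,
grad_dq), uniformly Hoelder (dq_hol, Hol.shift, Hol.bilin), |w_n| bounded (dq_bd). hS, c1h_lim_grad,
dq_tendsto, wdiv_lim on ball x (r/2), contDiffOn_of_grad. -/
theorem lin_diff {δ : ℝ} (hS : SchEst E δ) {U : Set E} (hU : IsOpen U) {B : E → E →L[ℝ] E}
    {f : E → E} {w : E → ℝ} (hB : Hk 1 U B) (hf : Hk 1 U f) (hδ : ∀ x ∈ U, ‖B x‖ ≤ δ)
    (hw : ContDiffOn ℝ 1 w U) (hk : WDiv U fun x => ∇ w x - (B x (∇ w x) + f x)) (e : E) {x : E}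
    (hx : x ∈ U) : ∃ s > 0, ball x s ⊆ U ∧ ContDiffOn ℝ 1 (fun z => fderiv ℝ w z e) (ball x s) ∧
      WDiv (ball x s) fun z => ∇ (fun y => fderiv ℝ w y e) z -
        (B z (∇ (fun y => fderiv ℝ w y e) z) + (fderiv ℝ B z e (∇ w z) + fderiv ℝ f z e)) := by
  have hg := lin_zero hS hU (hB.pred hU) (hf.pred hU) hδ hw hk
  obtain ⟨r1, p1, K, -, s1, b1⟩ := (hB.pred hU).zero_ball hU hx
  obtain ⟨r2, p2, C2, c2, -, b2⟩ := (hB.2 e).zero_ball hU hx
  obtain ⟨r3, p3, C3, c3, -, b3⟩ := (hf.2 e).zero_ball hU hx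
  obtain ⟨r4, p4, C4, c4, -, b4⟩ := hg.zero_ball hU hx
  obtain ⟨r, hr, q1, q2, q3, q4⟩ : ∃ r > 0, 2 * r ≤ r1 ∧ 2 * r ≤ r2 ∧ 2 * r ≤ r3 ∧ 2 * r ≤ r4 :=
    ⟨min (min r1 r2) (min r3 r4) / 2, by positivity, by
      simp only [mul_div_cancel₀ _ (two_ne_zero' ℝ), min_le_iff, le_refl, true_or, or_true,
        and_self]⟩
  have a1 := (b1 _ (by positivity) q1).scale_le hr (by linarith)
  have a2 := (b2 _ (by positivity) q2).scale_le hr (by linarith only [hr])
  have a3 := (b3 _ (by positivity) q3).scale_le hr (by linarith)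
  have a4 := (b4 _ (by positivity) q4).scale_le hr (by linarith)
  have u2 : ball x (2 * r) ⊆ U := (ball_subset_ball q1).trans s1
  have t1 : ball x r ⊆ ball x (2 * r) := ball_subset_ball (by linarith)
  have t2 : ball x (r / 2) ⊆ ball x r := ball_subset_ball (by linarith only [hr])
  have dw : ∀ z ∈ U, DifferentiableAt ℝ w z := fun z hz =>
    (hw.differentiableOn one_ne_zero).differentiableAt (hU.mem_nhds hz)
  obtain ⟨h, h0, h1, h2⟩ : ∃ h : ℕ → ℝ, (∀ n, h n ≠ 0) ∧ (∀ n, r + |h n| * ‖e‖ ≤ 2 * r) ∧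
      Tendsto h atTop (𝓝 0) := by
    refine ⟨fun n => r / (‖e‖ + 1) * (1 / (n + 1)), fun n => by positivity, fun n => ?_, ?_⟩
    · have e1 : r / (‖e‖ + 1) * ‖e‖ ≤ r := by
        rw [div_mul_eq_mul_div, div_le_iff₀ (by positivity)]
        linarith only [hr]
      have e2 : 1 / ((n : ℝ) + 1) ≤ 1 := (div_le_one (by positivity)).2 (by simp)
      rw [abs_of_pos (by positivity), mul_right_comm]
      linarith only [mul_le_mul e1 e2 (by positivity) hr.le]
    · simpa only [one_div, mul_zero] using tendsto_one_div_add_atTop_nhds_zero_nat.const_mul (r / (‖e‖ + 1))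
  have h3 : ∀ n, r + ‖h n • e‖ ≤ 2 * r := fun n => by rw [norm_smul]; exact h1 n
  obtain ⟨g, hgd⟩ : ∃ g : ℕ → E → E,
      g = fun n z => dq (h n) e B z (∇ w (z + h n • e)) + dq (h n) e f z := ⟨_, rfl⟩
  have g1 : ∀ n, Hol (ball x r) r
      (2 * ‖ContinuousLinearMap.id ℝ (E →L[ℝ] E)‖ * C2 * C4 + C3) (g n) := fun n => by
    rw [hgd]
    exact (lind_app (dq_hol (fun z hz => hB.1 z (u2 hz)) a2 (h1 n) (h0 n))
      (a4.shift (h3 n))).add (dq_hol (fun z hz => hf.1 z (u2 hz)) a3 (h1 n) (h0 n))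
  have w1 : ∀ n, ContDiffOn ℝ 1 (dq (h n) e w) (ball x r) := fun n =>
    dq_contDiffOn (hw.mono u2) (h1 n)
  have w2 : ∀ n, WDiv (ball x r) fun z =>
      ∇ (dq (h n) e w) z - (B z (∇ (dq (h n) e w) z) + g n z) := fun n => by
    refine ((hk.mono u2).dq ((a4.continuousOn.sub ((a1.continuousOn.clm_apply
      a4.continuousOn).add (hf.continuousOn.mono u2)))) (h1 n)).congr fun z hz => ?_
    have m : z + h n • e ∈ ball x (2 * r) := by
      rw [mem_ball_iff_norm] at hz ⊢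
      rw [add_sub_right_comm]
      linarith only [norm_add_le (z - x) (h n • e), h3 n, hz]
    simp only [grad_dq (dw z (u2 (t1 hz))) (dw _ (u2 m)), hgd, dq, map_smul, map_sub,
      _root_.smul_apply, _root_.sub_apply]
    module
  have w3 : ∀ n, ∀ z ∈ ball x r, |dq (h n) e w z| ≤ C4 * ‖e‖ / r * r := fun n z hz => by
    rw [div_mul_cancel₀ _ hr.ne']
    simpa using dq_bd (c := 0) (fun z hz => dw z (u2 hz)) (fun z hz => by
      rw [sub_zero]
      exact (fderiv ℝ w z).le_of_opNorm_le (norm_grad w z ▸ a4.1 z hz) e) (h1 n) (h0 n) z hz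
  obtain ⟨C, -, hC⟩ := hS K
  have w4 := fun n => hC x r _ _ _ _ hr (by positivity) (by positivity)
    (sch_lin (a1.mono t1 le_rfl) (g1 n) (fun z hz => hδ z (u2 (t1 hz))) (w1 n) (w2 n)) (w3 n)
  obtain ⟨l1, l2, l3⟩ := c1h_lim_grad (l := atTop) (u := fun z => fderiv ℝ w z e) hr
    (.of_forall fun n z hz => ((w1 n).differentiableOn one_ne_zero).differentiableAt
      (isOpen_ball.mem_nhds (t2 hz))) (.of_forall w4)
    fun z hz => dq_tendsto (dw z (u2 (t1 (t2 hz)))) h0 h2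
  refine ⟨r / 2, by positivity, t2.trans (t1.trans u2),
    contDiffOn_of_grad isOpen_ball l1 l2.continuousOn, wdiv_lim isOpen_ball
      (fun n => (w4 n).continuousOn.sub (((a1.continuousOn.mono (t2.trans t1)).clm_apply
        (w4 n).continuousOn).add ((g1 n).continuousOn.mono t2))) (fun n => (w2 n).mono t2)
      (fun n z hz => (norm_sub_le _ _).trans (add_le_add ((w4 n).1 z hz) ((norm_add_le _ _).trans
        (add_le_add ((B z).le_of_opNorm_le_of_le (a1.1 z (t1 (t2 hz))) ((w4 n).1 z hz))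
          ((g1 n).1 z (t2 hz)))))) fun z hz => ?_⟩
  have hz' := u2 (t1 (t2 hz))
  have e1 : Tendsto (fun n => ∇ w (z + h n • e)) atTop (𝓝 (∇ w z)) :=
    (hg.continuousOn.continuousAt (hU.mem_nhds hz')).tendsto.comp
      (by simpa using (h2.smul_const e).const_add z)
  rw [hgd]
  exact (l3 z hz).sub ((((B z).continuous.tendsto _).comp (l3 z hz)).add
    (((isBoundedBilinearMap_apply.continuous.tendsto (_, _)).comp
      ((dq_tendsto (hB.1 z hz') h0 h2).prodMk_nhds e1)).add (dq_tendsto (hf.1 z hz') h0 h2)))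

end LinD

section LinK

/-- Induction on k: lin_diff, the hypothesis on the small balls, hk_of_local, hk_grad_succ. -/
theorem lin {δ : ℝ} (hS : SchEst E δ) (k : ℕ) {U : Set E} (hU : IsOpen U) {B : E → E →L[ℝ] E}
    {f : E → E} {w : E → ℝ} (hB : Hk k U B) (hf : Hk k U f) (hδ : ∀ x ∈ U, ‖B x‖ ≤ δ)
    (hw : ContDiffOn ℝ 1 w U) (hk : WDiv U fun x => ∇ w x - (B x (∇ w x) + f x)) :
    Hk k U (∇ w) := by
  induction k generalizing U f w with
  | zero => exact lin_zero hS hU hB hf hδ hw hk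
  | succ k ih =>
    have h1 : ∀ {F : Type} [NormedAddCommGroup F] [NormedSpace ℝ F] (j : ℕ) (g : E → F),
        Hk (j + 1) U g → Hk 1 U g := by
      intro F _ _ j
      induction j with
      | zero => exact fun g h => h
      | succ j ihj => exact fun g h => ihj g (h.pred hU)
    have hw0 : Hk k U (∇ w) := ih hU (hB.pred hU) (hf.pred hU) hδ hw hk
    have key : ∀ e, ∀ x ∈ U, ∃ s > 0, ContDiffOn ℝ 1 (fun z => fderiv ℝ w z e) (ball x s) ∧
        Hk k (ball x s) (∇ fun z => fderiv ℝ w z e) := by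
      intro e x hx
      obtain ⟨s, hs, hsU, hc, hwk⟩ := lin_diff hS hU (h1 k B hB) (h1 k f hf) hδ hw hk e hx
      refine ⟨s, hs, hc, ?_⟩
      refine ih isOpen_ball ((hB.pred hU).mono hsU) ?_ (fun y hy => hδ y (hsU hy)) hc hwk
      exact (Hk.add hU (Hk.app hU (hB.2 e) hw0) (hf.2 e)).mono hsU
    refine hk_grad_succ hU (fun e x hx => ?_) fun e => hk_of_local fun x hx => ?_
    · obtain ⟨s, hs, hc, -⟩ := key e x hx
      exact (hc.contDiffAt (ball_mem_nhds x hs)).differentiableAt one_ne_zero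
    · obtain ⟨s, hs, -, hh⟩ := key e x hx
      exact ⟨ball x s, mem_ball_self hs, hh⟩

end LinK

section Quasi

omit [MeasurableSpace E] [BorelSpace E] [FiniteDimensional ℝ E] in
theorem quasi_lip {G : E → E} {δ Λ : ℝ} (hG : Nl G δ Λ) (a b : E) : ‖G a - G b‖ ≤ δ * ‖a - b‖ :=
  convex_univ.norm_image_sub_le_of_norm_fderiv_le (𝕜 := ℝ)
    (fun x _ => hG.cd.differentiable (by simp) x) (fun x _ => hG.sm x) (mem_univ b) (mem_univ a)

/-- w = u - a - (p, . - x₀), g = G (grad u) - p, c = G (p + q) - p, L = 0, K = 0 (grad_sub_aff). -/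
theorem quasi_one {δ : ℝ} (hS : SchEst E δ) : ∃ C : ℝ, 0 < C ∧ ∀ (G : E → E) (Λ : ℝ) (x₀ : E)
    (r : ℝ) (u : E → ℝ) (a : ℝ) (p : E) (A : ℝ), Nl G δ Λ → 0 < r → 0 ≤ A →
    ContDiffOn ℝ 1 u (ball x₀ r) → WDiv (ball x₀ r) (fun x => ∇ u x - G (∇ u x)) →
    (∀ x ∈ ball x₀ r, |u x - a - ⟪p, x - x₀⟫_ℝ| ≤ A * r) →
    Hol (ball x₀ (r / 2)) r (C * A) fun x => ∇ u x - p := by
  obtain ⟨C, hC, h⟩ := hS 0
  refine ⟨C, hC, fun G Λ x₀ r u a p A hG hr hA hu hk hb => ?_⟩
  have hg : ∀ x ∈ ball x₀ r, ∇ (fun z => u z - a - ⟪p, z - x₀⟫_ℝ) x = ∇ u x - p := fun x hx =>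
    grad_sub_aff ((hu.contDiffAt (isOpen_ball.mem_nhds hx)).differentiableAt one_ne_zero)
  have := h x₀ r (fun z => u z - a - ⟪p, z - x₀⟫_ℝ) (fun x => G (∇ u x) - p) 0 A hr le_rfl hA
    ⟨(hu.sub contDiffOn_const).sub
        (contDiff_const.inner ℝ (contDiff_id.sub contDiff_const)).contDiffOn,
      (hG.cd.continuous.comp_continuousOn (grad_contOn isOpen_ball hu)).sub continuousOn_const,
      hk.congr fun x hx => by simp only [hg x hx, sub_sub_sub_cancel_right],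
      fun y _ q => ⟨G (p + q) - p, fun x hx => by
        rw [hg x hx, sub_sub_sub_cancel_right, sub_sub, zero_mul, add_zero, mul_zero, add_zero]
        exact quasi_lip hG _ _⟩⟩ hb
  rw [add_zero] at this
  exact this.congr fun x hx => hg x (ball_subset_ball (by linarith) hx)

omit [MeasurableSpace E] [BorelSpace E] [FiniteDimensional ℝ E] in
/-- Two mean value inequalities: in q with constant δ, in a with t ↦ G (a + t p) - G (b + t p). -/
theorem Nl.dq_le {G : E → E} {δ Λ : ℝ} (hG : Nl G δ Λ) {h : ℝ} (h0 : h ≠ 0) (a b q p : E) :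
    ‖dq h q G a - dq h p G b‖ ≤ δ * ‖q - p‖ + |Λ| * ‖a - b‖ * ‖p‖ := by
  have hd : Differentiable ℝ G := hG.cd.differentiable (by simp)
  have h1 : ‖G (a + h • q) - G (a + h • p)‖ ≤ |h| * (δ * ‖q - p‖) := by
    refine (quasi_lip hG _ _).trans_eq ?_
    rw [add_sub_add_left_eq_sub, ← smul_sub, norm_smul, Real.norm_eq_abs]
    ring
  have hf : ∀ z, HasFDerivAt (fun z => G (a + z) - G (b + z))
      (fderiv ℝ G (a + z) - fderiv ℝ G (b + z)) z := fun z =>
    ((hasFDerivAt_comp_add_left a).2 (hd _).hasFDerivAt).sub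
      ((hasFDerivAt_comp_add_left b).2 (hd _).hasFDerivAt)
  have h2 : ‖G (a + h • p) - G (b + h • p) - (G a - G b)‖ ≤ |h| * (|Λ| * ‖a - b‖ * ‖p‖) := by
    have := convex_univ.norm_image_sub_le_of_norm_hasFDerivWithin_le (𝕜 := ℝ)
      (C := |Λ| * ‖a - b‖) (fun z _ => (hf z).hasFDerivWithinAt)
      (fun z _ => (hG.lp _ _).trans (by
        rw [add_sub_add_right_eq_sub]
        exact mul_le_mul_of_nonneg_right (le_abs_self _) (norm_nonneg _)))
      (mem_univ (0 : E)) (mem_univ (h • p))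
    simp only [add_zero, sub_zero, norm_smul, Real.norm_eq_abs] at this
    exact this.trans_eq (by ring)
  have e : dq h q G a - dq h p G b = h⁻¹ • ((G (a + h • q) - G (a + h • p)) +
      (G (a + h • p) - G (b + h • p) - (G a - G b))) := by
    simp only [dq, ← smul_sub]
    congr 1
    abel
  rw [e, norm_smul, Real.norm_eq_abs, abs_inv, inv_mul_le_iff₀ (abs_pos.2 h0), mul_add]
  exact (norm_add_le _ _).trans (add_le_add h1 h2)

/-- quasi_one on a small ball where u is bounded (a = 0, p = 0). -/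
theorem quasi_zero {δ Λ : ℝ} (hS : SchEst E δ) {G : E → E} (hG : Nl G δ Λ) {U : Set E}
    (hU : IsOpen U) {u : E → ℝ} (hu : ContDiffOn ℝ 1 u U)
    (hk : WDiv U fun x => ∇ u x - G (∇ u x)) : Hk 0 U (∇ u) := by
  intro x hx
  obtain ⟨C, -, h⟩ := quasi_one hS
  have hc : ContinuousAt u x := hu.continuousOn.continuousAt (hU.mem_nhds hx)
  obtain ⟨r, hr, hb⟩ := Metric.mem_nhds_iff.1
    (inter_mem (hU.mem_nhds hx) (hc (ball_mem_nhds (u x) one_pos)))
  have hs : ball x r ⊆ U := fun y hy => (hb hy).1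
  have := h G Λ x r u (u x) 0 r⁻¹ hG hr (inv_pos.2 hr).le (hu.mono hs) (hk.mono hs) fun y hy => by
    have h1 : |u y - u x| < 1 := (hb hy).2
    rw [inner_zero_left, sub_zero, inv_mul_cancel₀ hr.ne']
    exact h1.le
  exact ⟨r / 2, half_pos hr, _, (this.scale_le (half_pos hr) (by linarith)).congr fun y _ =>
    sub_zero _⟩

end Quasi

section QuasiD

omit [MeasurableSpace E] [BorelSpace E] [FiniteDimensional ℝ E] in
theorem quasiD_aux1 {G X : E → E} {h : ℝ} (h0 : h ≠ 0) (e z : E) :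
    dq h e (fun y => G (X y)) z = dq h (dq h e X z) G (X z) := by
  simp only [dq, smul_smul, mul_inv_cancel₀ h0, one_smul, add_sub_cancel]

omit [MeasurableSpace E] [BorelSpace E] [FiniteDimensional ℝ E] in
theorem quasiD_aux2 {G : E → E} {δ Λ : ℝ} (hG : Nl G δ Λ) {h : ℝ} (h0 : h ≠ 0) (a q : E) :
    ‖dq h q G a‖ ≤ δ * ‖q‖ := by
  have h1 := hG.dq_le h0 a a q 0
  have h2 : dq h (0 : E) G a = 0 := by simp [dq]
  simpa only [ge_iff_le, h2, sub_zero, sub_self, norm_zero, mul_zero, add_zero] using h1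

omit [MeasurableSpace E] [BorelSpace E] [FiniteDimensional ℝ E] in
theorem quasiD_aux3 {G : E → E} {δ Λ : ℝ} (hG : Nl G δ Λ) {h : ℕ → ℝ} (h0 : ∀ n, h n ≠ 0)
    (hl : Tendsto h atTop (𝓝 0)) (a : E) {q : ℕ → E} {p : E} (hq : Tendsto q atTop (𝓝 p)) :
    Tendsto (fun n => dq (h n) (q n) G a) atTop (𝓝 (fderiv ℝ G a p)) := by
  have h1 : Tendsto (fun n => dq (h n) p G a) atTop (𝓝 (fderiv ℝ G a p)) :=
    dq_tendsto (hG.cd.differentiable (by simp) a) h0 hl
  have h2 : Tendsto (fun n => dq (h n) (q n) G a - dq (h n) p G a) atTop (𝓝 0) := by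
    have h3 : Tendsto (fun n => δ * ‖q n - p‖) atTop (𝓝 0) := by
      have := (tendsto_iff_norm_sub_tendsto_zero.mp hq).const_mul δ
      simpa using this
    refine squeeze_zero_norm (fun n => ?_) h3
    simpa only [sub_self, norm_zero, mul_zero, zero_mul, add_zero] using hG.dq_le (h0 n) a a (q n) p
  simpa only [sub_add_cancel, zero_add] using h2.add h1

/-- Take r with ball x (2r) ⊆ U and Hol (ball x (2r)) (2r) C (grad u) (quasi_zero, Hk.zero_ball,
Hol.scale_le). On ball x r: w_n = dq (h n) e u, g_n z = dq (h n) (grad w_n z) G (grad u z)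
= dq (h n) e (G ∘ grad u) z (grad_dq, WDiv.dq), Sch with c = dq (h n) q G (grad u y), L = 0,
K = |Λ| C (Nl.dq_le), |w_n| ≤ C |e| (dq_bd). hS, c1h_lim_grad, dq_tendsto and Nl.dq_le for the
pointwise limit of g_n, wdiv_lim on ball x (r/2), contDiffOn_of_grad. -/
theorem quasi_diff {δ Λ : ℝ} (hS : SchEst E δ) {G : E → E} (hG : Nl G δ Λ) {U : Set E}
    (hU : IsOpen U) {u : E → ℝ} (hu : ContDiffOn ℝ 1 u U)
    (hk : WDiv U fun x => ∇ u x - G (∇ u x)) (e : E) {x : E} (hx : x ∈ U) :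
    ∃ s > 0, ball x s ⊆ U ∧ ContDiffOn ℝ 1 (fun z => fderiv ℝ u z e) (ball x s) ∧
      WDiv (ball x s) fun z => ∇ (fun y => fderiv ℝ u y e) z -
        (fderiv ℝ G (∇ u z) (∇ (fun y => fderiv ℝ u y e) z) + 0) := by
  obtain ⟨r₀, hr₀, C, hC, hsub, hH⟩ := (quasi_zero hS hG hU hu hk).zero_ball hU hx
  have H : Hol (ball x r₀) r₀ C (∇ u) := hH r₀ hr₀ le_rfl
  obtain ⟨r, rfl⟩ : ∃ r, r₀ = 2 * r := ⟨r₀ / 2, by ring⟩
  have hr : 0 < r := by linarith
  have H' : Hol (ball x (2 * r)) r C (∇ u) := H.scale_le hr (by linarith)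
  have hδ : 0 ≤ δ := (norm_nonneg _).trans (hG.sm 0)
  have he : 0 < ‖e‖ + 1 := by positivity
  let h : ℕ → ℝ := fun n => r / (‖e‖ + 1) * (1 / ((n : ℝ) + 1))
  have hpos : ∀ n, 0 < h n := fun n => by positivity
  have h0 : ∀ n, h n ≠ 0 := fun n => (hpos n).ne'
  have hl : Tendsto h atTop (𝓝 0) := by
    have := (tendsto_one_div_add_atTop_nhds_zero_nat (𝕜 := ℝ)).const_mul (r / (‖e‖ + 1))
    simpa only [h, one_div, mul_zero] using this
  have hs : ∀ n, r + |h n| * ‖e‖ ≤ 2 * r := fun n => by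
    rw [abs_of_pos (hpos n)]
    have h1 : 1 / ((n : ℝ) + 1) ≤ 1 := by
      rw [div_le_one (by positivity)]
      linarith [Nat.cast_nonneg (α := ℝ) n]
    have h2 : h n ≤ r / (‖e‖ + 1) := mul_le_of_le_one_right (by positivity) h1
    have h3 : r / (‖e‖ + 1) * ‖e‖ ≤ r := by
      rw [div_mul_eq_mul_div, div_le_iff₀ he]
      linarith only [hr]
    nlinarith only [norm_nonneg e, h2, h3]
  have hu2 : ContDiffOn ℝ 1 u (ball x (2 * r)) := hu.mono hsub
  have hd : ∀ z ∈ ball x (2 * r), DifferentiableAt ℝ u z := fun z hz =>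
    (hu2.differentiableOn (by simp)).differentiableAt (isOpen_ball.mem_nhds hz)
  have hb1 : ball x r ⊆ ball x (2 * r) := ball_subset_ball (by linarith)
  have hb2 : ball x (r / 2) ⊆ ball x r := ball_subset_ball (by linarith)
  have hsh : ∀ n, ∀ z ∈ ball x r, z + h n • e ∈ ball x (2 * r) := fun n z hz => by
    rw [mem_ball_iff_norm] at hz ⊢
    have h1 : z + h n • e - x = (z - x) + h n • e := by abel
    have h2 := norm_add_le (z - x) (h n • e)
    rw [norm_smul, Real.norm_eq_abs] at h2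
    have := hs n
    rw [h1]
    linarith only [hz, h2, this]
  have hgc : ContinuousOn (∇ u) (ball x (2 * r)) := H.continuousOn
  have hGc : ContinuousOn (fun y => G (∇ u y)) (ball x (2 * r)) :=
    hG.cd.continuous.comp_continuousOn hgc
  have hgw : ∀ n, ∀ z ∈ ball x r, ∇ (dq (h n) e u) z = dq (h n) e (∇ u) z := fun n z hz =>
    grad_dq (hd z (hb1 hz)) (hd _ (hsh n z hz))
  have hg : ∀ n, ∀ z ∈ ball x r, dq (h n) e (fun y => G (∇ u y)) z =
      dq (h n) (∇ (dq (h n) e u) z) G (∇ u z) := fun n z hz => by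
    rw [hgw n z hz, quasiD_aux1 (h0 n)]
  have hSch : ∀ n, Sch x r (dq (h n) e u) (dq (h n) e fun y => G (∇ u y)) δ 0 (|Λ| * C) := by
    intro n
    refine ⟨dq_contDiffOn hu2 (hs n), ?_, ?_, ?_⟩
    · exact contDiffOn_zero.mp (dq_contDiffOn (contDiffOn_zero.mpr hGc) (hs n))
    · refine ((hk.mono hsub).dq (hgc.sub hGc) (hs n)).congr fun z hz => ?_
      rw [hgw n z hz]
      simp only [dq, ← smul_sub]
      congr 1
      abel
    · intro y hy p
      refine ⟨dq (h n) p G (∇ u y), fun z hz => ?_⟩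
      rw [hg n z hz]
      refine (hG.dq_le (h0 n) _ _ _ _).trans ?_
      have h1 := H'.2 z (hb1 hz) y (hb1 hy)
      have h2 : |Λ| * ‖∇ u z - ∇ u y‖ * ‖p‖ ≤ |Λ| * (C * √(‖z - y‖ / r)) * ‖p‖ := by gcongr
      linarith only [h2]
  have hA : 0 ≤ C * ‖e‖ / r := by positivity
  have hwb : ∀ n, ∀ z ∈ ball x r, |dq (h n) e u z| ≤ C * ‖e‖ / r * r := fun n z hz => by
    have h1 := dq_bd (c := (0 : ℝ)) (C := C * ‖e‖) hd (fun y hy => by
      rw [sub_zero]
      refine ((fderiv ℝ u y).le_opNorm e).trans ?_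
      rw [← norm_grad]
      exact mul_le_mul_of_nonneg_right (H.1 y hy) (norm_nonneg _)) (hs n) (h0 n) z hz
    rw [div_mul_cancel₀ _ hr.ne']
    simpa only [ge_iff_le, sub_zero, Real.norm_eq_abs] using h1
  obtain ⟨C', hC', hest⟩ := hS (|Λ| * C)
  have hhol : ∀ n, Hol (ball x (r / 2)) r (C' * (C * ‖e‖ / r + 0)) (∇ (dq (h n) e u)) := fun n =>
    hest x r _ _ 0 _ hr le_rfl hA (hSch n) (hwb n)
  obtain ⟨k1, k2, k3⟩ := c1h_lim_grad (l := atTop) (f := fun n => dq (h n) e u)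
    (u := fun z => fderiv ℝ u z e) hr
    (Eventually.of_forall fun n z hz =>
      ((hSch n).cd.differentiableOn (by simp)).differentiableAt (isOpen_ball.mem_nhds (hb2 hz)))
    (Eventually.of_forall hhol) fun z hz => dq_tendsto (hd z (hb1 (hb2 hz))) h0 hl
  refine ⟨r / 2, by linarith only [hr], (hb2.trans hb1).trans hsub,
    contDiffOn_of_grad isOpen_ball k1 k2.continuousOn, ?_⟩
  refine wdiv_lim isOpen_ball
    (X := fun n z => ∇ (dq (h n) e u) z - dq (h n) e (fun y => G (∇ u y)) z)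
    (M := C' * (C * ‖e‖ / r + 0) + δ * (C' * (C * ‖e‖ / r + 0)))
    (fun n => (hhol n).continuousOn.sub ((hSch n).cg.mono hb2)) (fun n => (hSch n).wk.mono hb2)
    (fun n z hz => ?_) fun z hz => ?_
  · refine (norm_sub_le _ _).trans (add_le_add ((hhol n).1 z hz) ?_)
    rw [hg n z (hb2 hz)]
    exact (quasiD_aux2 hG (h0 n) _ _).trans (mul_le_mul_of_nonneg_left ((hhol n).1 z hz) hδ)
  · rw [add_zero]
    refine (k3 z hz).sub ?_
    refine (quasiD_aux3 hG h0 hl (∇ u z) (k3 z hz)).congr fun n => (hg n z (hb2 hz)).symm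

end QuasiD

section QuasiS

/-- Hk k (grad u) gives Hk k (fderiv G (grad u)) (Hk.comp), lin on the balls of quasi_diff,
hk_of_local, hk_grad_succ; contDiffOn_of_hk_grad. -/
theorem quasi_smooth {δ Λ : ℝ} (hS : SchEst E δ) {G : E → E} (hG : Nl G δ Λ) {U : Set E}
    (hU : IsOpen U) {u : E → ℝ} (hu : ContDiffOn ℝ 1 u U)
    (hk : WDiv U fun x => ∇ u x - G (∇ u x)) : ContDiffOn ℝ ∞ u U := by
  refine contDiffOn_of_hk_grad hU
    (fun x hx => (hu.contDiffAt (hU.mem_nhds hx)).differentiableAt one_ne_zero) fun k => ?_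
  induction k with
  | zero => exact quasi_zero hS hG hU hu hk
  | succ k ih =>
    have hB : Hk k U fun z => fderiv ℝ G (∇ u z) :=
      Hk.comp hU (hG.cd.fderiv_right (m := ∞) le_rfl) ih
    have key : ∀ e, ∀ x ∈ U, ∃ s > 0, ContDiffOn ℝ 1 (fun z => fderiv ℝ u z e) (ball x s) ∧
        Hk k (ball x s) (∇ fun z => fderiv ℝ u z e) := by
      intro e x hx
      obtain ⟨s, hs, hsU, hc, hwk⟩ := quasi_diff hS hG hU hu hk e hx
      exact ⟨s, hs, hc, lin hS k isOpen_ball (hB.mono hsU) (hk_const k _ 0)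
        (fun y _ => hG.sm _) hc hwk⟩
    refine hk_grad_succ hU (fun e x hx => ?_) fun e => hk_of_local fun x hx => ?_
    · obtain ⟨s, hs, hc, -⟩ := key e x hx
      exact (hc.contDiffAt (ball_mem_nhds x hs)).differentiableAt one_ne_zero
    · obtain ⟨s, hs, -, hh⟩ := key e x hx
      exact ⟨ball x s, mem_ball_self hs, hh⟩

end QuasiS

section Loc

end Loc

section Trc

omit [MeasurableSpace E] [BorelSpace E]

theorem trc_add (S T : E →L[ℝ] E) : trc (S + T) = trc S + trc T := by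
  simp only [trc, add_apply, inner_add_left, Finset.sum_add_distrib]

theorem trc_smul (c : ℝ) (T : E →L[ℝ] E) : trc (c • T) = c * trc T := by
  simp only [trc, smul_apply, real_inner_smul_left, Finset.mul_sum]

theorem trc_id : trc (ContinuousLinearMap.id ℝ E) = Module.finrank ℝ E := by
  simp only [trc, ContinuousLinearMap.id_apply, inner_self_eq_norm_sq_to_K, OrthonormalBasis.norm_eq_one, Real.ringHom_apply, one_pow, Finset.sum_const, Finset.card_univ, Fintype.card_fin, nsmul_eq_mul, mul_one]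

theorem trc_rank_one (a b : E) : trc ((innerSL ℝ a).smulRight b) = ⟪a, b⟫_ℝ := by
  rw [← (stdOrthonormalBasis ℝ E).sum_inner_mul_inner a b, trc]
  refine Finset.sum_congr rfl fun i _ => ?_
  rw [ContinuousLinearMap.smulRight_apply, innerSL_apply_apply, real_inner_smul_left,
    real_inner_comm (stdOrthonormalBasis ℝ E i) b]

end Trc

section Point

omit [MeasurableSpace E] [BorelSpace E] [FiniteDimensional ℝ E] in
theorem contDiff_mseF : ContDiff ℝ ∞ (mseF : E → E) := by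
  have h1 : ContDiff ℝ ∞ fun p : E => 1 + ‖p‖ ^ 2 := contDiff_const.add (contDiff_norm_sq ℝ)
  have h2 : ∀ p : E, 0 < 1 + ‖p‖ ^ 2 := fun p => by positivity
  exact ((h1.sqrt fun p => (h2 p).ne').inv fun p => (Real.sqrt_pos.2 (h2 p)).ne').smul contDiff_id

end Point

section Mse

omit [MeasurableSpace E] [BorelSpace E] [FiniteDimensional ℝ E] in
theorem mse_aux_zero : HasFDerivAt (fun p : E => p - mseF p) (0 : E →L[ℝ] E) 0 := by
  have hc : DifferentiableAt ℝ (fun p : E => (√(1 + ‖p‖ ^ 2))⁻¹) 0 := by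
    have h1 : DifferentiableAt ℝ (fun p : E => 1 + ‖p‖ ^ 2) 0 :=
      (differentiableAt_const _).add
        ((contDiff_norm_sq ℝ (n := 1)).differentiable (by norm_num)).differentiableAt
    refine (h1.sqrt ?_).inv ?_ <;> simp
  have h2 := (hasFDerivAt_id (𝕜 := ℝ) (0 : E)).sub (hc.hasFDerivAt.smul (hasFDerivAt_id (0 : E)))
  convert h2 using 1
  · rfl
  · ext v; simp

omit [MeasurableSpace E] [BorelSpace E] in
/-- G₀ p = p - mseF p has G₀ 0 = 0 and fderiv G₀ 0 = 0. G p = b (ε⁻¹ • p) • G₀ p with a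
ContDiffBump b of radii 1, 2: |DG| ≤ δ' (1 + 2 sup |Db|) when |DG₀| ≤ δ' on closedBall 0 (2ε);
fderiv G is smooth with compact support, hence Lipschitz. -/
theorem exists_nl {δ : ℝ} (hδ : 0 < δ) : ∃ ε : ℝ, 0 < ε ∧ ∃ (G : E → E) (Λ : ℝ),
    Nl G δ Λ ∧ ∀ p : E, ‖p‖ ≤ ε → p - G p = mseF p := by
  let b : ContDiffBump (0 : E) := ⟨1, 2, one_pos, one_lt_two⟩
  have hb : ContDiff ℝ ∞ (b : E → ℝ) := b.contDiff
  have hbd : Differentiable ℝ (b : E → ℝ) := hb.differentiable (by simp)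
  obtain ⟨M, hM⟩ := (hb.continuous_fderiv (by simp)).bounded_above_of_compact_support
    (b.hasCompactSupport.fderiv (𝕜 := ℝ))
  have hM0 : 0 ≤ M := (norm_nonneg _).trans (hM 0)
  set G₀ : E → E := fun p => p - mseF p with hG₀
  have h0 : ContDiff ℝ ∞ G₀ := contDiff_id.sub contDiff_mseF
  have h0d : Differentiable ℝ G₀ := h0.differentiable (by simp)
  have hz : fderiv ℝ G₀ 0 = 0 := mse_aux_zero.fderiv
  have hz0 : G₀ 0 = 0 := by simp [hG₀, mseF]
  set δ' : ℝ := δ / (1 + 2 * M) with hδ'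
  have hδ0 : 0 < δ' := by positivity
  obtain ⟨ρ, hρ, hρ'⟩ := Metric.continuousAt_iff.1
    ((h0.continuous_fderiv (by simp)).continuousAt (x := 0)) δ' hδ0
  have hD : ∀ p ∈ ball (0 : E) ρ, ‖fderiv ℝ G₀ p‖ ≤ δ' := fun p hp => by
    have := hρ' (mem_ball.1 hp)
    rw [hz, dist_zero_right] at this
    exact this.le
  have hV : ∀ p ∈ ball (0 : E) ρ, ‖G₀ p‖ ≤ δ' * ‖p‖ := fun p hp => by
    have := (convex_ball (0 : E) ρ).norm_image_sub_le_of_norm_fderiv_le (𝕜 := ℝ)
      (fun x _ => h0d x) hD (mem_ball_self hρ) hp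
    simpa only [ge_iff_le, hz0, sub_zero] using this
  set ε : ℝ := ρ / 3 with hε
  have hε0 : 0 < ε := by positivity
  set G : E → E := fun p => b (ε⁻¹ • p) • G₀ p with hG
  have hGc : ContDiff ℝ ∞ G := (hb.comp (contDiff_const.smul contDiff_id)).smul h0
  have hout : ∀ p : E, 2 * ε < ‖p‖ → ε⁻¹ • p ∉ tsupport (b : E → ℝ) := fun p hp => by
    rw [b.tsupport_eq, mem_closedBall_zero_iff, norm_smul, norm_inv, Real.norm_of_nonneg hε0.le,
      not_le, lt_inv_mul_iff₀ hε0]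
    show ε * 2 < ‖p‖
    linarith only [hp]
  have hcs : HasCompactSupport G := by
    refine HasCompactSupport.intro (isCompact_closedBall (0 : E) (2 * ε)) fun p hp => ?_
    rw [mem_closedBall_zero_iff, not_le] at hp
    simp only [hG, image_eq_zero_of_notMem_tsupport (hout p hp), zero_smul]
  obtain ⟨Λ, hΛ⟩ := ContDiff.lipschitzWith_of_hasCompactSupport (hcs.fderiv (𝕜 := ℝ))
    (hGc.fderiv_right (m := 1) (by norm_cast)) (by simp)
  refine ⟨ε, hε0, G, Λ, ⟨hGc, fun a => ?_, fun a c => ?_⟩, fun p hp => ?_⟩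
  · have h1 : HasFDerivAt (fun p : E => b (ε⁻¹ • p))
        ((fderiv ℝ (b : E → ℝ) (ε⁻¹ • a)).comp (ε⁻¹ • ContinuousLinearMap.id ℝ E)) a :=
      (hbd _).hasFDerivAt.comp a ((hasFDerivAt_id a).const_smul ε⁻¹)
    have h2 := (h1.smul (h0d a).hasFDerivAt).fderiv
    have h3 : fderiv ℝ G a = b (ε⁻¹ • a) • fderiv ℝ G₀ a + ((fderiv ℝ (b : E → ℝ) (ε⁻¹ • a)).comp
        (ε⁻¹ • ContinuousLinearMap.id ℝ E)).smulRight (G₀ a) := h2
    rw [h3]
    by_cases ha : 2 * ε < ‖a‖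
    · rw [image_eq_zero_of_notMem_tsupport (hout a ha), fderiv_of_notMem_tsupport ℝ (hout a ha)]
      simp [hδ.le]
    · have ha' : a ∈ ball (0 : E) ρ := by rw [mem_ball_zero_iff]; linarith only [hε, hε0, ha]
      have e1 : ‖b (ε⁻¹ • a) • fderiv ℝ G₀ a‖ ≤ δ' := by
        rw [norm_smul, Real.norm_of_nonneg b.nonneg]
        calc _ ≤ 1 * δ' := mul_le_mul b.le_one (hD a ha') (norm_nonneg _) zero_le_one
          _ = δ' := one_mul _
      have e2 : ‖(fderiv ℝ (b : E → ℝ) (ε⁻¹ • a)).comp (ε⁻¹ • ContinuousLinearMap.id ℝ E)‖ ≤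
          M * ε⁻¹ := by
        refine (ContinuousLinearMap.opNorm_comp_le _ _).trans
          (mul_le_mul (hM _) ?_ (norm_nonneg _) hM0)
        rw [norm_smul, norm_inv, Real.norm_of_nonneg hε0.le]
        calc _ ≤ ε⁻¹ * 1 := by gcongr; exact ContinuousLinearMap.norm_id_le
          _ = ε⁻¹ := mul_one _
      have e3 : ‖G₀ a‖ ≤ δ' * (2 * ε) := (hV a ha').trans (by gcongr; exact not_lt.1 ha)
      refine (norm_add_le _ _).trans ?_
      rw [ContinuousLinearMap.norm_smulRight_apply]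
      have e4 := mul_le_mul e2 e3 (norm_nonneg _) (by positivity)
      have e5 : M * ε⁻¹ * (δ' * (2 * ε)) = δ' * (2 * M) := by field_simp
      have e6 : δ' + δ' * (2 * M) = δ := by rw [hδ']; field_simp
      linarith only [e1, e4, e5, e6]
  · have := hΛ.dist_le_mul a c
    rwa [dist_eq_norm, dist_eq_norm] at this
  · have : b (ε⁻¹ • p) = 1 := by
      refine b.one_of_mem_closedBall ?_
      rw [mem_closedBall_zero_iff, norm_smul, norm_inv, Real.norm_of_nonneg hε0.le,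
        inv_mul_le_iff₀ hε0]
      show ‖p‖ ≤ ε * 1
      linarith only [hp]
    simp [hG, this, hG₀]

/-- exists_schEst, exists_nl, WDiv.congr, quasi_smooth, quasi_one with a = u y, p = 0, A = ε
(mean value inequality on the ball). -/
theorem mse_reg : ∃ ε > 0, ∃ C > 0, ∀ (u : E → ℝ) (y : E) (r : ℝ), 0 < r → Mse (ball y r) ε u →
    ContDiffOn ℝ ∞ u (ball y r) ∧ ∀ z ∈ ball y (r / 2), ∀ z' ∈ ball y (r / 2),
      ‖∇ u z - ∇ u z'‖ ≤ C * √(‖z - z'‖ / r) := by
  obtain ⟨δ, hδ, hS⟩ := exists_schEst (E := E)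
  obtain ⟨ε, hε, G, Λ, hG, hGe⟩ := exists_nl (E := E) hδ
  obtain ⟨C, hC, hq⟩ := quasi_one hS
  refine ⟨ε, hε, C * ε, mul_pos hC hε, fun u y r hr hu => ?_⟩
  have hk : WDiv (ball y r) fun x => ∇ u x - G (∇ u x) :=
    hu.wk.congr fun x hx => (hGe _ (hu.sm x hx)).symm
  refine ⟨quasi_smooth hS hG isOpen_ball hu.cd hk, fun z hz z' hz' => ?_⟩
  have hb : ∀ x ∈ ball y r, |u x - u y - ⟪(0 : E), x - y⟫_ℝ| ≤ ε * r := fun x hx => by
    have := (convex_ball y r).norm_image_sub_le_of_norm_fderiv_le (𝕜 := ℝ) (f := u) (C := ε)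
      (fun x hx => (hu.cd.differentiableOn (by simp)).differentiableAt (isOpen_ball.mem_nhds hx))
      (fun x hx => by rw [← norm_grad]; exact hu.sm x hx) (mem_ball_self hr) hx
    rw [inner_zero_left, sub_zero, ← Real.norm_eq_abs]
    refine this.trans ?_
    gcongr
    exact (mem_ball_iff_norm.1 hx).le
  have := (hq G Λ y r u (u y) 0 ε hG hr hε.le hu.cd hk hb).2 z hz z' hz'
  simpa only [norm_nonneg, Real.sqrt_div, ge_iff_le, sub_zero] using this

end Mse

section MseL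

end MseL

section Hopf

omit [MeasurableSpace E] [BorelSpace E]

end Hopf

section HopfT

omit [MeasurableSpace E] [BorelSpace E]

end HopfT

section Hopf2

end Hopf2

section Gam

/-- Profile: η smooth, monotone, 0 for τ ≤ 1/4, constant for τ ≥ 1; K τ = τ^(-m/2) η τ. -/
structure Prof (m : ℕ) (K : ℝ → ℝ) (c : ℝ) : Prop where
  cd : ContDiff ℝ ∞ K
  c0 : 0 < c
  z : ∀ τ, τ ≤ 1 / 4 → K τ = 0
  nn : ∀ τ, 0 ≤ K τ
  le : ∀ u : ℝ, 0 < u → K (u ^ 2) ≤ c * u⁻¹ ^ m
  eq : ∀ u : ℝ, 1 ≤ u → K (u ^ 2) = c * u⁻¹ ^ m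
  dn : ∀ τ, 0 ≤ m * K τ + 2 * τ * deriv K τ
  dz : ∀ τ, 1 ≤ τ → m * K τ + 2 * τ * deriv K τ = 0
  ne : ∃ u : ℝ, 0 ≤ u ∧ m * K (u ^ 2) + 2 * u ^ 2 * deriv K (u ^ 2) ≠ 0

theorem gam_aux_pow (m : ℕ) {u : ℝ} (hu : 0 < u) : (u ^ 2) ^ (-((m : ℝ) / 2)) = u⁻¹ ^ m := by
  rw [← Real.rpow_natCast u 2, ← Real.rpow_mul hu.le, inv_pow, ← Real.rpow_natCast u m,
    ← Real.rpow_neg hu.le]
  congr 1
  push_cast
  ring

theorem gam_aux_der (m : ℕ) {τ : ℝ} (hτ : 0 < τ) :
    m * (τ ^ (-((m : ℝ) / 2)) * Real.smoothTransition ((4 * τ - 1) / 3)) + 2 * τ *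
      deriv (fun τ : ℝ => τ ^ (-((m : ℝ) / 2)) * Real.smoothTransition ((4 * τ - 1) / 3)) τ =
      8 / 3 * τ * τ ^ (-((m : ℝ) / 2)) * deriv Real.smoothTransition ((4 * τ - 1) / 3) := by
  have h1 : HasDerivAt (fun τ : ℝ => τ ^ (-((m : ℝ) / 2)))
      (-((m : ℝ) / 2) * τ ^ (-((m : ℝ) / 2) - 1)) τ := Real.hasDerivAt_rpow_const (Or.inl hτ.ne')
  have h2 : HasDerivAt (fun τ : ℝ => (4 * τ - 1) / 3) (4 / 3) τ := by
    simpa using (((hasDerivAt_id τ).const_mul 4).sub_const 1).div_const 3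
  have h3 : HasDerivAt Real.smoothTransition (deriv Real.smoothTransition ((4 * τ - 1) / 3))
      ((4 * τ - 1) / 3) :=
    ((Real.smoothTransition.contDiff (n := 1)).differentiable (by simp) _).hasDerivAt
  have h4 := h1.mul (h3.comp τ h2)
  have h5 : deriv (fun τ : ℝ => τ ^ (-((m : ℝ) / 2)) * Real.smoothTransition ((4 * τ - 1) / 3)) τ
      = _ := h4.deriv
  rw [h5, Real.rpow_sub_one hτ.ne']
  simp only [Function.comp]
  field_simp
  ring

/-- K τ = τ ^ (-(m/2) : ℝ) * Real.smoothTransition ((4 τ - 1) / 3); for τ > 0,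
m K + 2 τ K' = 2 τ^(1 - m/2) η'. If this vanished for all τ ≥ 0 then η would be constant. -/
theorem exists_prof (m : ℕ) : ∃ K : ℝ → ℝ, Prof m K 1 := by
  have hz : ∀ τ : ℝ, τ ≤ 1 / 4 →
      τ ^ (-((m : ℝ) / 2)) * Real.smoothTransition ((4 * τ - 1) / 3) = 0 := fun τ h => by
    rw [Real.smoothTransition.zero_of_nonpos (by linarith), mul_zero]
  have hev : ∀ τ : ℝ, τ < 1 / 4 →
      (fun τ : ℝ => τ ^ (-((m : ℝ) / 2)) * Real.smoothTransition ((4 * τ - 1) / 3)) =ᶠ[𝓝 τ]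
        fun _ => 0 := fun τ h => by
    filter_upwards [Iio_mem_nhds h] with t ht using hz t (le_of_lt ht)
  refine ⟨fun τ : ℝ => τ ^ (-((m : ℝ) / 2)) * Real.smoothTransition ((4 * τ - 1) / 3),
    ?_, one_pos, hz, ?_, ?_, ?_, ?_, ?_, ?_⟩
  · rw [contDiff_iff_contDiffAt]
    intro τ
    by_cases h : τ < 1 / 4
    · exact contDiffAt_const.congr_of_eventuallyEq (hev τ h)
    · have hτ : τ ≠ 0 := by
        intro h0
        rw [h0] at h
        norm_num at h
      refine (Real.contDiffAt_rpow_const_of_ne hτ).mul ?_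
      exact Real.smoothTransition.contDiffAt.comp τ (by fun_prop)
  · intro τ
    by_cases h : τ ≤ 1 / 4
    · exact (hz τ h).ge
    · exact mul_nonneg (Real.rpow_nonneg (by linarith only [h]) _) (Real.smoothTransition.nonneg _)
  · intro u hu
    rw [gam_aux_pow m hu, one_mul]
    exact mul_le_of_le_one_right (by positivity) (Real.smoothTransition.le_one _)
  · intro u hu
    rw [gam_aux_pow m (by linarith), one_mul, Real.smoothTransition.one_of_one_le (by nlinarith only [hu]),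
      mul_one]
  · intro τ
    by_cases h : τ < 1 / 4
    · rw [(hev τ h).deriv_eq, hz τ h.le]
      simp
    · have hτ : 0 < τ := by linarith only [h]
      rw [gam_aux_der m hτ]
      have := Real.smoothTransition.monotone.deriv_nonneg (x := (4 * τ - 1) / 3)
      positivity
  · intro τ hτ
    rw [gam_aux_der m (by linarith)]
    have : IsLocalMax Real.smoothTransition ((4 * τ - 1) / 3) := by
      refine Filter.Eventually.of_forall fun t => ?_
      rw [Real.smoothTransition.one_of_one_le (x := (4 * τ - 1) / 3) (by linarith)]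
      exact Real.smoothTransition.le_one _
    rw [this.deriv_eq_zero, mul_zero]
  · obtain ⟨ξ, hξ, h⟩ := exists_deriv_eq_slope Real.smoothTransition one_pos
      Real.smoothTransition.continuous.continuousOn
      ((Real.smoothTransition.contDiff (n := 1)).differentiable (by simp)).differentiableOn
    have hτ : 0 < (3 * ξ + 1) / 4 := by linarith only [hξ.1]
    refine ⟨√((3 * ξ + 1) / 4), Real.sqrt_nonneg _, ?_⟩
    rw [Real.sq_sqrt hτ.le, gam_aux_der m hτ,
      show (4 * ((3 * ξ + 1) / 4) - 1) / 3 = ξ by ring, h]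
    simp only [Real.smoothTransition.one, Real.smoothTransition.zero]
    positivity

theorem Prof.smul {m : ℕ} {K : ℝ → ℝ} {c a : ℝ} (h : Prof m K c) (ha : 0 < a) :
    Prof m (fun τ => a * K τ) (a * c) := by
  have hd : ∀ τ, deriv (fun τ => a * K τ) τ = a * deriv K τ := fun τ => deriv_const_mul_field a
  have he : ∀ τ t, m * (a * K τ) + 2 * t * deriv (fun τ => a * K τ) τ =
      a * (m * K τ + 2 * t * deriv K τ) := fun τ t => by
    rw [hd]
    ring
  refine ⟨contDiff_const.mul h.cd, mul_pos ha h.c0, fun τ hτ => by rw [h.z τ hτ, mul_zero],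
    fun τ => mul_nonneg ha.le (h.nn τ), fun u hu => ?_, fun u hu => ?_, fun τ => ?_,
    fun τ hτ => ?_, ?_⟩
  · rw [mul_assoc]
    exact mul_le_mul_of_nonneg_left (h.le u hu) ha.le
  · rw [h.eq u hu, mul_assoc]
  · rw [he]
    exact mul_nonneg ha.le (h.dn τ)
  · rw [he, h.dz τ hτ, mul_zero]
  · obtain ⟨u, hu, hne⟩ := h.ne
    refine ⟨u, hu, ?_⟩
    rw [he]
    exact mul_ne_zero ha.ne' hne

/-- The mollifier of the profile. -/
noncomputable def rhoK (K : ℝ → ℝ) (y : E) : ℝ :=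
  Module.finrank ℝ E * K (‖y‖ ^ 2) + 2 * ‖y‖ ^ 2 * deriv K (‖y‖ ^ 2)

/-- Normalise: the integral of rhoK is positive (continuous, compact support, nonnegative,
nonzero at u • e for a unit vector e). -/
theorem exists_prof_one (hm : 1 ≤ Module.finrank ℝ E) : ∃ (K : ℝ → ℝ) (c : ℝ),
    Prof (Module.finrank ℝ E) K c ∧ ∫ y : E, rhoK K y = 1 := by
  obtain ⟨K, hK⟩ := exists_prof (Module.finrank ℝ E)
  have hc : Continuous (rhoK K : E → ℝ) := by
    have h1 := hK.cd.continuous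
    have h2 : Continuous (deriv K) := hK.cd.continuous_deriv (by simp)
    unfold rhoK
    fun_prop
  have hs : HasCompactSupport (rhoK K : E → ℝ) := by
    refine HasCompactSupport.intro (isCompact_closedBall (0 : E) 1) fun y hy => ?_
    rw [mem_closedBall_zero_iff, not_le] at hy
    exact hK.dz _ (by nlinarith only [hy])
  have hn : 0 ≤ (rhoK K : E → ℝ) := fun y => hK.dn _
  obtain ⟨u, hu, hne⟩ := hK.ne
  have : Nontrivial E := Module.nontrivial_of_finrank_pos (R := ℝ) hm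
  obtain ⟨e, he⟩ := exists_norm_eq E hu
  have hpos : 0 < ∫ y : E, rhoK K y := by
    refine hc.integral_pos_of_hasCompactSupport_nonneg_nonzero hs hn (x := e) ?_
    unfold rhoK
    rwa [he]
  refine ⟨fun τ => (∫ y : E, rhoK K y)⁻¹ * K τ, _, hK.smul (inv_pos.2 hpos), ?_⟩
  have : ∀ y : E, rhoK (fun τ => (∫ y : E, rhoK K y)⁻¹ * K τ) y =
      (∫ y : E, rhoK K y)⁻¹ * rhoK K y := fun y => by
    generalize (∫ y : E, rhoK K y)⁻¹ = a
    unfold rhoK
    rw [deriv_const_mul_field a]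
    ring
  simp only [this]
  rw [integral_const_mul, inv_mul_cancel₀ hpos.ne']

end Gam

section GamC

/-- The radial profile of the gradient of the kernel. -/
noncomputable def kap (m : ℕ) (K : ℝ → ℝ) (s r τ : ℝ) : ℝ :=
  (r ^ m)⁻¹ * K (τ / r ^ 2) - (s ^ m)⁻¹ * K (τ / s ^ 2)

/-- The kernel. -/
noncomputable def gam (K : ℝ → ℝ) (s r : ℝ) (y : E) : ℝ :=
  (1 / 2) * ∫ τ in (r ^ 2)..(‖y‖ ^ 2), kap (Module.finrank ℝ E) K s r τ

theorem gamC_cd {m : ℕ} {K : ℝ → ℝ} {c : ℝ} (h : Prof m K c) (s r : ℝ) :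
    ContDiff ℝ ∞ (kap m K s r) := by
  have := h.cd
  unfold kap
  fun_prop

theorem gamC_zero {m : ℕ} {K : ℝ → ℝ} {c s r τ : ℝ} (h : Prof m K c) (hs : 0 < s) (hr : s ≤ r)
    (hτ : r ^ 2 ≤ τ) : kap m K s r τ = 0 := by
  have hr0 : 0 < r := hs.trans_le hr
  have hτ0 : 0 < τ := lt_of_lt_of_le (by positivity) hτ
  have hq : r ≤ √τ := Real.le_sqrt_of_sq_le hτ
  have key : ∀ t : ℝ, 0 < t → t ≤ r → (t ^ m)⁻¹ * K (τ / t ^ 2) = c * (√τ)⁻¹ ^ m := by
    intro t ht htr
    have h1 : τ / t ^ 2 = (√τ / t) ^ 2 := by rw [div_pow, Real.sq_sqrt hτ0.le]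
    rw [h1, h.eq _ ((one_le_div ht).2 (htr.trans hq)), inv_div, div_pow, inv_pow]
    field_simp
  unfold kap
  rw [key r hr0 le_rfl, key s hs hr, sub_self]

theorem gamC_prim {k : ℝ → ℝ} (hk : ContDiff ℝ ∞ k) (a : ℝ) :
    ContDiff ℝ ∞ (fun t => ∫ τ in a..t, k τ) ∧ ∀ t, HasDerivAt (fun t => ∫ τ in a..t, k τ) (k t) t := by
  have hd : ∀ t, HasDerivAt (fun t => ∫ τ in a..t, k τ) (k t) t := fun t =>
    (hk.continuous.integral_hasStrictDerivAt a t).hasDerivAt
  refine ⟨contDiff_infty_iff_deriv.2 ⟨fun t => (hd t).differentiableAt, ?_⟩, hd⟩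
  have : deriv (fun t => ∫ τ in a..t, k τ) = k := funext fun t => (hd t).deriv
  rwa [this]

omit [MeasurableSpace E] [BorelSpace E] in
/-- The primitive of a smooth function is smooth (contDiff_infty_iff_deriv and
Continuous.deriv_integral or integral_hasDerivAt_right); kap vanishes for τ ≥ r^2. -/
theorem gam_calc {K : ℝ → ℝ} {c s r : ℝ} (h : Prof (Module.finrank ℝ E) K c) (hs : 0 < s)
    (hr : s ≤ r) : ContDiff ℝ ∞ (gam K s r : E → ℝ) ∧ (∀ y : E, r ≤ ‖y‖ → gam K s r y = 0) ∧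
      ∀ y : E, ∇ (gam K s r) y = kap (Module.finrank ℝ E) K s r (‖y‖ ^ 2) • y := by
  obtain ⟨h1, h2⟩ := gamC_prim (gamC_cd h s r) (r ^ 2)
  refine ⟨contDiff_const.mul (h1.comp (contDiff_norm_sq ℝ)), fun y hy => ?_, fun y => ?_⟩
  · have hr0 : 0 ≤ r := hs.le.trans hr
    have hy2 : r ^ 2 ≤ ‖y‖ ^ 2 := by gcongr
    unfold gam
    rw [intervalIntegral.integral_congr (g := fun _ => 0), intervalIntegral.integral_zero, mul_zero]
    intro τ hτ
    rw [uIcc_of_le hy2] at hτ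
    exact gamC_zero h hs hr hτ.1
  · have h3 := ((h2 (‖y‖ ^ 2)).comp_hasFDerivAt y (hasStrictFDerivAt_norm_sq y).hasFDerivAt).const_mul
      (1 / 2 : ℝ)
    have h4 : fderiv ℝ (gam K s r) y = _ := h3.fderiv
    refine ext_inner_right ℝ fun v => ?_
    rw [inner_gradient_left, h4, real_inner_smul_left]
    simp only [smul_apply, nsmul_eq_mul, smul_eq_mul, innerSL_apply_apply]
    push_cast
    ring

omit [MeasurableSpace E] [BorelSpace E] in
/-- fderiv (k(|y|^2) • y) = k • id + 2 k' (y, .) y; trc_id, trc_rank_one. -/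
theorem gam_lap {K : ℝ → ℝ} {c s r : ℝ} (h : Prof (Module.finrank ℝ E) K c) (hs : 0 < s)
    (hr : s ≤ r) (y : E) : trc (fderiv ℝ (∇ (gam K s r)) y) =
      (r ^ Module.finrank ℝ E)⁻¹ * rhoK K (r⁻¹ • y) - (s ^ Module.finrank ℝ E)⁻¹ * rhoK K (s⁻¹ • y) := by
  have h1 : (∇ (gam K s r) : E → E) = fun y => kap (Module.finrank ℝ E) K s r (‖y‖ ^ 2) • y :=
    funext (gam_calc h hs hr).2.2
  have hK : ∀ t, HasDerivAt K (deriv K t) t := fun t =>
    (h.cd.differentiable (by simp) t).hasDerivAt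
  have h2 : ∀ t τ : ℝ, HasDerivAt (fun τ => (t ^ Module.finrank ℝ E)⁻¹ * K (τ / t ^ 2))
      ((t ^ Module.finrank ℝ E)⁻¹ * (deriv K (τ / t ^ 2) * (1 / t ^ 2))) τ := fun t τ =>
    ((hK (τ / t ^ 2)).comp τ ((hasDerivAt_id τ).div_const (t ^ 2))).const_mul _
  have h3 : HasDerivAt (kap (Module.finrank ℝ E) K s r) _ (‖y‖ ^ 2) := (h2 r _).sub (h2 s _)
  have h4 := (h3.comp_hasFDerivAt y (hasStrictFDerivAt_norm_sq y).hasFDerivAt).smul
    (hasFDerivAt_id y)
  have h5 : fderiv ℝ (fun y : E => kap (Module.finrank ℝ E) K s r (‖y‖ ^ 2) • y) y =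
      kap (Module.finrank ℝ E) K s r (‖y‖ ^ 2) • ContinuousLinearMap.id ℝ E +
      (2 * ((r ^ Module.finrank ℝ E)⁻¹ * (deriv K (‖y‖ ^ 2 / r ^ 2) * (1 / r ^ 2)) -
        (s ^ Module.finrank ℝ E)⁻¹ * (deriv K (‖y‖ ^ 2 / s ^ 2) * (1 / s ^ 2)))) •
        (innerSL ℝ y).smulRight y := by
    refine h4.fderiv.trans ?_
    ext v
    simp only [Function.comp, id, add_apply, smul_apply,
      ContinuousLinearMap.smulRight_apply, smul_smul, nsmul_eq_mul, smul_eq_mul]
    congr 2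
    push_cast
    ring
  have hn : ∀ t : ℝ, ‖t⁻¹ • y‖ ^ 2 = ‖y‖ ^ 2 / t ^ 2 := fun t => by
    rw [norm_smul, mul_pow, Real.norm_eq_abs, sq_abs]
    ring
  rw [h1, h5, trc_add, trc_smul, trc_smul, trc_id, trc_rank_one, real_inner_self_eq_norm_sq]
  unfold rhoK kap
  rw [hn, hn]
  ring

end GamC

section GamB

theorem gamB_one {K : ℝ → ℝ} {c : ℝ} {n : ℕ} (h : Prof (n + 1) K c) {t u : ℝ} (ht : 0 < t)
    (hu : 0 < u) : (t ^ (n + 1))⁻¹ * K (u ^ 2 / t ^ 2) * u ≤ c * u⁻¹ ^ n := by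
  have h1 := h.le (u / t) (by positivity)
  rw [div_pow] at h1
  calc (t ^ (n + 1))⁻¹ * K (u ^ 2 / t ^ 2) * u ≤ (t ^ (n + 1))⁻¹ * (c * (u / t)⁻¹ ^ (n + 1)) * u := by
        gcongr
    _ = c * u⁻¹ ^ n := by
        rw [inv_div, div_pow, inv_pow, pow_succ u]
        field_simp

theorem gamB_two {K : ℝ → ℝ} {c : ℝ} {n : ℕ} (h : Prof (n + 1) K c) {t u : ℝ} (ht : 0 < t)
    (hu : 0 ≤ u) : (t ^ (n + 1))⁻¹ * K (u ^ 2 / t ^ 2) * u ≤ c * 2 ^ n * t⁻¹ ^ n := by
  have hc := h.c0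
  rcases le_or_gt u (t / 2) with h1 | h1
  · rw [h.z _ (by rw [div_le_iff₀ (by positivity)]; nlinarith), mul_zero, zero_mul]
    positivity
  · have hu' : 0 < u := lt_trans (by positivity) h1
    refine (gamB_one h ht hu').trans ?_
    rw [mul_assoc, ← mul_pow]
    have : u⁻¹ ≤ 2 * t⁻¹ := by
      rw [inv_le_iff_one_le_mul₀ hu']
      have : t⁻¹ * t = 1 := inv_mul_cancel₀ ht.ne'
      nlinarith only [ht, h1, this]
    gcongr

theorem gamB_abs {K : ℝ → ℝ} {c : ℝ} {m : ℕ} (h : Prof m K c) {s r u : ℝ} (hs : 0 < s) (hr : 0 < r)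
    (hu : 0 ≤ u) : |kap m K s r (u ^ 2)| * u ≤
      (r ^ m)⁻¹ * K (u ^ 2 / r ^ 2) * u + (s ^ m)⁻¹ * K (u ^ 2 / s ^ 2) * u := by
  rw [← add_mul]
  refine mul_le_mul_of_nonneg_right ?_ hu
  have h1 : 0 ≤ (r ^ m)⁻¹ * K (u ^ 2 / r ^ 2) := mul_nonneg (by positivity) (h.nn _)
  have h2 : 0 ≤ (s ^ m)⁻¹ * K (u ^ 2 / s ^ 2) := mul_nonneg (by positivity) (h.nn _)
  rw [kap, abs_le]
  constructor <;> linarith only [h1, h2]

theorem gamB_zero {K : ℝ → ℝ} {c : ℝ} {m : ℕ} (h : Prof m K c) {s r u : ℝ} (hs : 0 < s) (hr : s ≤ r)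
    (hu : r ≤ u) : kap m K s r (u ^ 2) = 0 := by
  have key : ∀ t : ℝ, 0 < t → t ≤ u → (t ^ m)⁻¹ * K (u ^ 2 / t ^ 2) = c * u⁻¹ ^ m := by
    intro t ht htu
    have hu0 : 0 < u := ht.trans_le htu
    rw [← div_pow, h.eq _ ((one_le_div ht).2 htu), inv_div, div_pow, inv_pow]
    field_simp
  rw [kap, key r (hs.trans_le hr) hu, key s hs (hr.trans hu), sub_self]

/-- With u = |y|: u t^-m K(u^2/t^2) ≤ c u^(1-m), and it vanishes for u ≤ t/2, so it is at most
c 2^(m-1) t^(1-m). For the integral use polar coordinates (integral_fun_norm_addHaar): the radial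
integrand is at most 2c on (0, r] and 0 beyond. -/
theorem gam_bd {K : ℝ → ℝ} {c : ℝ} (h : Prof (Module.finrank ℝ E) K c)
    (hm : 1 ≤ Module.finrank ℝ E) : ∃ C : ℝ, 0 < C ∧ ∀ s r : ℝ, 0 < s → s ≤ r →
      (∀ y : E, ‖∇ (gam K s r) y‖ ≤ C * s⁻¹ ^ (Module.finrank ℝ E - 1)) ∧
      ∫ y : E, ‖∇ (gam K s r) y‖ ≤ C * r := by
  obtain ⟨n, hn⟩ : ∃ n, Module.finrank ℝ E = n + 1 := ⟨_, (Nat.sub_add_cancel hm).symm⟩
  haveI : Nontrivial E := Module.nontrivial_of_finrank_pos (R := ℝ) hm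
  have hc := h.c0
  have h' : Prof (n + 1) K c := hn ▸ h
  set v : ℝ := (volume : Measure E).real (ball 0 1) with hv
  have hv0 : 0 ≤ v := measureReal_nonneg
  refine ⟨2 * c * 2 ^ n + (n + 1) * v * (2 * c), by positivity, fun s r hs hr => ?_⟩
  have hr0 : 0 < r := hs.trans_le hr
  have hnorm : ∀ y : E, ‖∇ (gam K s r) y‖ = |kap (n + 1) K s r (‖y‖ ^ 2)| * ‖y‖ := fun y => by
    rw [(gam_calc h hs hr).2.2 y, norm_smul, Real.norm_eq_abs, hn]
  refine ⟨fun y => ?_, ?_⟩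
  · rw [hnorm, hn, Nat.add_sub_cancel]
    have h1 := gamB_two h' hr0 (norm_nonneg y)
    have h2 := gamB_two h' hs (norm_nonneg y)
    have h3 : c * 2 ^ n * r⁻¹ ^ n ≤ c * 2 ^ n * s⁻¹ ^ n := by gcongr
    have h4 : 0 ≤ (n + 1) * v * (2 * c) * s⁻¹ ^ n := by positivity
    have := gamB_abs h' hs hr0 (norm_nonneg y)
    linarith only [h1, h2, h3, h4, this]
  · simp_rw [hnorm]
    rw [integral_fun_norm_addHaar (volume : Measure E) fun u => |kap (n + 1) K s r (u ^ 2)| * u, hn,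
      Nat.add_sub_cancel, ← hv]
    have hI : ∫ u in Ioi (0 : ℝ), u ^ n • (|kap (n + 1) K s r (u ^ 2)| * u) ≤ 2 * c * r := by
      calc ∫ u in Ioi (0 : ℝ), u ^ n • (|kap (n + 1) K s r (u ^ 2)| * u)
          ≤ ∫ u in Ioi (0 : ℝ), (Ioc 0 r).indicator (fun _ => 2 * c) u := by
            refine integral_mono_of_nonneg ?_ ?_ ?_
            · filter_upwards [ae_restrict_mem measurableSet_Ioi] with u hu
              have hu' : (0 : ℝ) < u := hu
              simp only [smul_eq_mul, Pi.zero_apply]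
              positivity
            · refine Integrable.integrableOn ?_
              rw [integrable_indicator_iff measurableSet_Ioc]
              exact integrableOn_const (by simp only [Real.volume_Ioc, sub_zero, ne_eq, ENNReal.ofReal_ne_top, not_false_eq_true])
            · filter_upwards [ae_restrict_mem measurableSet_Ioi] with u hu
              have hu' : (0 : ℝ) < u := hu
              rcases le_or_gt u r with hur | hur
              · rw [indicator_of_mem (show u ∈ Ioc 0 r from ⟨hu', hur⟩), smul_eq_mul]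
                have h1 := gamB_one h' hr0 hu'
                have h2 := gamB_one h' hs hu'
                have h3 := gamB_abs h' hs hr0 hu'.le
                calc u ^ n * (|kap (n + 1) K s r (u ^ 2)| * u) ≤ u ^ n * (2 * c * u⁻¹ ^ n) := by
                      exact mul_le_mul_of_nonneg_left (by linarith only [h1, h2, h3]) (by positivity)
                  _ = 2 * c := by rw [inv_pow]; field_simp
              · rw [gamB_zero h' hs hr hur.le, indicator_of_notMem fun hh => not_le.2 hur hh.2]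
                simp
        _ = 2 * c * r := by
            rw [integral_indicator measurableSet_Ioc, Measure.restrict_restrict measurableSet_Ioc,
              inter_eq_left.2 Ioc_subset_Ioi_self]
            simp only [mul_comm, integral_const, MeasurableSet.univ, measureReal_restrict_apply, univ_inter, Real.volume_real_Ioc, sub_zero, hr0.le, sup_of_le_left, smul_eq_mul]
    rw [nsmul_eq_mul, smul_eq_mul]
    push_cast
    have h5 : (n + 1 : ℝ) * (v * ∫ u in Ioi (0 : ℝ), u ^ n • (|kap (n + 1) K s r (u ^ 2)| * u)) ≤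
        (n + 1) * (v * (2 * c * r)) := by gcongr
    have h6 : 0 ≤ 2 * c * 2 ^ n * r := by positivity
    linarith only [h5, h6]

end GamB

end Pool.Agent.MP_5cfeaf_gt.G

end

section

/-! Interface of block G: radial kernel, minimal surface equation. -/

set_option autoImplicit false

open MeasureTheory Set Filter Topology Metric
open scoped ENNReal symmDiff Classical InnerProductSpace ContDiff

namespace Pool.Agent.MP_5cfeaf_gt.W

variable {d : ℕ}

theorem IG_trc {m : ℕ} (T : E m →L[ℝ] E m) :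
    ∑ i, T (EuclideanSpace.single i 1) i = G.trc T := by
  have h1 := LinearMap.trace_eq_sum_inner (T : E m →ₗ[ℝ] E m) (stdOrthonormalBasis ℝ (E m))
  have h2 := LinearMap.trace_eq_sum_inner (T : E m →ₗ[ℝ] E m) (EuclideanSpace.basisFun (Fin m) ℝ)
  unfold G.trc
  simp only [real_inner_comm (stdOrthonormalBasis ℝ (E m) _)]
  refine Eq.trans ?_ (h2.symm.trans h1)
  refine Finset.sum_congr rfl fun i _ => ?_
  simp [EuclideanSpace.inner_single_left]

theorem IG_weak {m : ℕ} {u : E m → ℝ} {D : Set (E m)} :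
    WeakMSE u D ↔ G.WDiv D fun x => G.mseF (gradient u x) := by
  have h : ∀ (ζ : E m → ℝ) (y : E m), fderiv ℝ ζ y (G.mseF (gradient u y)) =
      ⟪gradient u y, gradient ζ y⟫_ℝ / √(1 + ‖gradient u y‖ ^ 2) := by
    intro ζ y
    rw [G.mseF, map_smul, real_inner_comm, inner_gradient_left, smul_eq_mul, div_eq_inv_mul]
  unfold WeakMSE G.WDiv C1c
  simp only [h]
  exact ⟨fun H φ h1 h2 h3 => H φ ⟨h1, h2, h3⟩, fun H φ h1 => H φ h1.1 h1.2.1 h1.2.2⟩

/-- radial mollifier and the kernels `Γ s r` with `Δ Γ = ρ_r - ρ_s` -/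
theorem exists_kernel (m : ℕ) (hm : 1 ≤ m) : ∃ (ρ : E m → ℝ) (Γ : ℝ → ℝ → E m → ℝ) (C : ℝ), 0 < C ∧
    ContDiff ℝ ∞ ρ ∧ (∀ y, 0 ≤ ρ y) ∧ (∀ y, 1 ≤ ‖y‖ → ρ y = 0) ∧ (∀ y, ρ (-y) = ρ y) ∧ ∫ y, ρ y = 1 ∧
    ∀ s r : ℝ, 0 < s → s ≤ r → ContDiff ℝ ∞ (Γ s r) ∧ (∀ y, r ≤ ‖y‖ → Γ s r y = 0) ∧
      (∀ y, Γ s r (-y) = Γ s r y) ∧
      (∀ y, dv (gradient (Γ s r)) y = (r ^ m)⁻¹ * ρ (r⁻¹ • y) - (s ^ m)⁻¹ * ρ (s⁻¹ • y)) ∧
      (∀ y, ‖gradient (Γ s r) y‖ ≤ C * s⁻¹ ^ (m - 1)) ∧ ∫ y, ‖gradient (Γ s r) y‖ ≤ C * r := by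
  have hd : Module.finrank ℝ (E m) = m := finrank_euclideanSpace_fin
  have hm' : 1 ≤ Module.finrank ℝ (E m) := hd.symm ▸ hm
  obtain ⟨K, c, hK, h1⟩ := G.exists_prof_one (E := E m) hm'
  obtain ⟨C, hC, hb⟩ := G.gam_bd (E := E m) hK hm'
  have hn : ContDiff ℝ ∞ fun y : E m => ‖y‖ ^ 2 := contDiff_norm_sq ℝ
  refine ⟨G.rhoK K, G.gam K, C, hC, ?_, fun y => hK.dn _, fun y hy => hK.dz _ (by nlinarith only [hy]),
    fun y => by simp only [G.rhoK, finrank_euclideanSpace, Fintype.card_fin, norm_neg], h1, fun s r hs hr => ?_⟩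
  · exact (contDiff_const.mul (hK.cd.comp hn)).add ((contDiff_const.mul hn).mul
      ((contDiff_infty_iff_deriv.1 hK.cd).2.comp hn))
  · obtain ⟨a1, a2, -⟩ := G.gam_calc (E := E m) hK hs hr
    refine ⟨a1, a2, fun y => by simp only [G.gam, one_div, finrank_euclideanSpace, Fintype.card_fin, norm_neg], fun y => ?_, ?_, (hb s r hs hr).2⟩
    · rw [dv, IG_trc, G.gam_lap hK hs hr, hd]
    · have := (hb s r hs hr).1
      rwa [hd] at this

/-- small gradient solutions: uniform Hoelder bound for the gradient, and smoothness -/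
theorem mse_reg (m : ℕ) (hm : 1 ≤ m) : ∃ κ > 0, ∃ C > 0, ∀ (u : E m → ℝ) (y : E m) (r : ℝ), 0 < r →
    ContDiffOn ℝ 1 u (ball y r) → (∀ z ∈ ball y r, ‖gradient u z‖ ≤ κ) → WeakMSE u (ball y r) →
    ContDiffOn ℝ ∞ u (ball y r) ∧ ∀ z ∈ ball y (r / 2), ∀ z' ∈ ball y (r / 2),
      ‖gradient u z - gradient u z'‖ ≤ C * √(‖z - z'‖ / r) := by
  obtain ⟨κ, hκ, C, hC, h⟩ := G.mse_reg (E := E m)
  exact ⟨κ, hκ, C, hC, fun u y r hr h1 h2 h3 => h u y r hr ⟨h1, h2, IG_weak.1 h3⟩⟩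

end Pool.Agent.MP_5cfeaf_gt.W

end
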