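import Pool.Agent.MP_5cfeaf_gt.PerA
import Pool.Agent.MP_5cfeaf_gt.Var
import Pool.Agent.MP_5cfeaf_gt.PdeB

attribute [-instance] ProperSMul.toContinuousSMul IsScalarTower.complexToReal
  TotallySeparatedSpace.t2Space RKHS.instFunLike IdemSemiring.toCanonicallyOrderedAdd
  AddQuantale.instAddLeftMono NonarchimedeanAddGroup.toIsTopologicalAddGroup
  AddGroupWithOne.toAddGroup CoalgHomClass.toSemilinearMapClass Valued.toUniformSpace
  littleWedderburn NonUnitalRing.toNonUnitalNonAssocRing continuousSub_of_discreteTopology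
  NumberField.to_charZero GrpTypeEquivalenceGrp.grpGroup IdemSemiring.toMulLeftMono
  NonUnitalAlgSemiHomClass.toDistribMulActionSemiHomClass NonUnitalNonAssocSemiring.toAddCommMonoid
  AddQuantale.instAddRightMono RingHomClass.toLinearMapClassRat CStarAlgebra.instOrderClosedTopology
  MulZeroOneClass.toMulZeroClass LinearOrderedCommMonoidWithZero.toPosMulStrictMono
  RingHomClass.toLinearMapClassNNRat IsTopologicalTorsor.toContinuousSMul
  TopologicalSpace.NoetherianSpace.compactSpace continuousSub_of_indiscreteTopology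
  ContinuousMonoidHom.instCoeOutOfMonoidHomClassOfContinuousMapClass Quantale.instMulLeftMono
  instCoeHTCTOfCoeTailOfCoeHTC Quantale.instMulRightMono MeasureTheory.instSFiniteOfCountable
  IdemSemiring.toSemiring ContinuousMul.measurableMul CommRing.toRing
  LieAdmissibleRing.toNonUnitalNonAssocRing IdemSemiring.toMulRightMono CStarAlgebra.toNormedRing
  MonoidWithZeroHomClass.toZeroHomClass MulZeroClass.negZeroClass
  NonUnitalNormedCommRing.toNonUnitalCommRing AlexandrovDiscrete.toLocallyCompactSpace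
  instCoeHTCOfCoeHeadOfCoeOTC instCoeTCOfCoe IsTopologicalSemiring.toContinuousAdd
  IsOrderedCancelMonoid.toIsOrderedMonoid IsValuativeTopology.instIsTopologicalAddGroup
  AddCommMonoidWithOne.toAddCommMonoid LinearOrderedCommMonoidWithZero.toIsBotZeroClass
  MulSemiringActionSemiHomClass.toDistribMulActionSemiHomClass
  BoundedContinuousMapClass.toContinuousMapClass
  NonUnitalNonAssocCommSemiring.toNonUnitalNonAssocSemiring
  Topology.IsScott.instClosedIicTopologyOfUnivSet IsModuleTopology.instSubsingleton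
  NonAssocCommSemiring.toNonAssocSemiring EuclideanDomain.toCommRing
  NonUnitalSeminormedCommRing.toNonUnitalCommRing SeminormedCommRing.toCommRing
  NonUnitalNonAssocRing.toAddCommGroup bot_nonempty
  MeasurableSingletonClass.toDiscreteMeasurableSpace instCoeTOfCoeDep
  UpgradedStandardBorel.toTopologicalSpace CanonicallyOrderedAdd.toMulLeftMono

/-! Epsilon regularity of minimisers, analytic core. -/

set_option autoImplicit false

open MeasureTheory Set Filter Topology Metric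
open scoped ENNReal symmDiff Classical InnerProductSpace ContDiff

namespace Pool.Agent.MP_5cfeaf_gt.W

variable {d : ℕ}

section FE0
/-- vertical unit vector -/
noncomputable def en (d : ℕ) : R d := mk 0 1
/-- the weight `(1 - |y-x|^2/r^2)_+` -/
noncomputable def FEw (x : R d) (r : ℝ) (y : R d) : ℝ := max (1 - ‖y - x‖ ^ 2 / r ^ 2) 0
/-- the convex test function `((w.y - c)_+)^3` -/
noncomputable def FEh (w : R d) (c : ℝ) (y : R d) : ℝ := (max (⟪w, y⟫_ℝ - c) 0) ^ 3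
/-- big cylinder -/
def Cy (d : ℕ) : Set (R d) := cyl 0 3 0 1
/-- small cylinder -/
def Cz (d : ℕ) : Set (R d) := cyl 0 2 0 1
/-- lower half space -/
def Hs (d : ℕ) : Set (R d) := {x | ht x < 0}
/-- column function -/
noncomputable def colU (Ω : Set (R d)) (ε : ℝ) (z : E d) : ℝ :=
  (volume {t : ℝ | t ∈ Icc (-ε) ε ∧ mk z t ∈ Ω}).toReal - ε

/-- normalised stationary set in a thin slab, with mass, oriented excess and density bounds -/
structure Sl (Ω : Set (R d)) (ε Λ e c : ℝ) : Prop where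
  meas : MeasurableSet Ω
  pos : 0 < ε
  small : ε ≤ 1 / 4
  lo : ∀ x, ht x < -ε → x ∈ Ω
  hi : ∀ x ∈ Ω, ht x ≤ ε
  fin : Cy d ⊆ lf Ω
  stat : Stat (vf Ω (Cy d)) (Cy d)
  mass : pm Ω (Cy d) ≤ ENNReal.ofReal Λ
  exc : ∫⁻ p, ENNReal.ofReal (1 - ht (p.2 : R d)) ∂vf Ω (Cy d) ≤ ENNReal.ofReal e
  dens : ∀ x ∈ (pm Ω).support, ∀ r, 0 < r → closedBall x r ⊆ Cy d →
    ENNReal.ofReal (c * r ^ d) ≤ pm Ω (closedBall x r)

/-- density lower bound for minimisers (proved elsewhere in block F) -/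
def MinDens (d : ℕ) (c : ℝ) : Prop :=
  ∀ (O Ω : Set (R d)) (x : R d) (r : ℝ), IsOpen O → Min Ω O → x ∈ (pm Ω).support → 0 < r →
    closedBall x r ⊆ O → ENNReal.ofReal (c * r ^ d) ≤ pm Ω (closedBall x r)

/-- minimisers are stationary (proved elsewhere in block F) -/
def MinStat (d : ℕ) : Prop := ∀ O Ω : Set (R d), IsOpen O → Min Ω O → Stat (vf Ω O) O
end FE0

section FE1a
theorem inner_en (x : R d) : ⟪en d, x⟫_ℝ = ht x := by
  rw [inner_coord]
  simp [en]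
theorem norm_en : ‖en d‖ = 1 := by
  have h := norm_sq_coord (en d)
  simp only [en, pr_mk, ht_mk, norm_zero] at h
  exact (pow_eq_one_iff_of_nonneg (norm_nonneg _) two_ne_zero).1 (by rw [en, h]; norm_num)
theorem FE_abs_ht_le (x : R d) : |ht x| ≤ ‖x‖ := by
  refine abs_le_of_sq_le_sq' ?_ (norm_nonneg _) |> abs_le.2
  rw [norm_sq_coord]
  linarith only [sq_nonneg ‖pr x‖]
theorem FE_norm_pr_le (x : R d) : ‖pr x‖ ≤ ‖x‖ := by
  refine (abs_le_of_sq_le_sq' ?_ (norm_nonneg _)).2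
  rw [norm_sq_coord x]
  linarith only [sq_nonneg (ht x)]
theorem FE_norm_le (x : R d) : ‖x‖ ≤ ‖pr x‖ + |ht x| := by
  refine (abs_le_of_sq_le_sq' ?_ (by positivity)).2
  rw [norm_sq_coord x, ← sq_abs (ht x)]
  linarith only [mul_nonneg (norm_nonneg (pr x)) (abs_nonneg (ht x))]
theorem FE_pr_add (x y : R d) : pr (x + y) = pr x + pr y := rfl
theorem FE_pr_sub (x y : R d) : pr (x - y) = pr x - pr y := rfl
theorem FE_pr_smul (a : ℝ) (x : R d) : pr (a • x) = a • pr x := rfl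
theorem FE_pr_zero : pr (0 : R d) = 0 := rfl
theorem FE_ht_add (x y : R d) : ht (x + y) = ht x + ht y := rfl
theorem FE_ht_sub (x y : R d) : ht (x - y) = ht x - ht y := rfl
theorem FE_ht_smul (a : ℝ) (x : R d) : ht (a • x) = a * ht x := rfl
theorem FE_ht_zero : ht (0 : R d) = 0 := rfl
theorem FE_mk_add (y y' : E d) (t t' : ℝ) : mk y t + mk y' t' = mk (y + y') (t + t') := by
  rw [← mk_pr_ht (mk y t + mk y' t'), FE_pr_add, FE_ht_add, pr_mk, pr_mk, ht_mk, ht_mk]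
theorem FE_contDiff_pr : ContDiff ℝ ∞ (pr : R d → E d) := by
  obtain ⟨L, hL⟩ := exists_prL d
  rw [← funext hL]
  exact L.contDiff
theorem FE_contDiff_ht : ContDiff ℝ ∞ (ht : R d → ℝ) := by
  obtain ⟨L, hL⟩ := exists_htL d
  rw [← funext hL]
  exact L.contDiff
theorem FE_continuous_mk : Continuous fun q : E d × ℝ => mk q.1 q.2 := by
  obtain ⟨L, hL⟩ := exists_mkL d
  exact L.continuous.congr fun q => hL q.1 q.2
theorem FE_sphere_sq (ν : S d) : ‖pr (ν : R d)‖ ^ 2 = 1 - ht (ν : R d) ^ 2 := by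
  have h := norm_sq_coord (ν : R d)
  rw [norm_eq_of_mem_sphere ν] at h
  linarith
theorem FE_isOpen_cyl (y : E d) (r t h : ℝ) : IsOpen (cyl y r t h) := by
  have h1 : Continuous (pr : R d → E d) := FE_contDiff_pr.continuous
  have h2 : Continuous (ht : R d → ℝ) := FE_contDiff_ht.continuous
  exact (isOpen_ball.preimage h1).inter
    (isOpen_lt (h2.sub continuous_const).abs continuous_const)
theorem FE_convex_cyl (y : E d) (r t h : ℝ) : Convex ℝ (cyl y r t h) := by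
  obtain ⟨L, hL⟩ := exists_prL d
  obtain ⟨M, hM⟩ := exists_htL d
  have e : cyl y r t h = (L : R d →ₗ[ℝ] E d) ⁻¹' ball y r ∩ (M : R d →ₗ[ℝ] ℝ) ⁻¹' ball t h := by
    ext x
    simp only [cyl, mem_ofPred_eq, mem_inter_iff, mem_preimage, ContinuousLinearMap.coe_coe, hL, hM,
      mem_ball (x := t), Real.dist_eq]
  rw [e]
  exact ((convex_ball y r).linear_preimage _).inter ((convex_ball t h).linear_preimage _)
theorem FE_cyl_subset_ball (r h : ℝ) : cyl (0 : E d) r 0 h ⊆ ball 0 (r + h) := by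
  rintro x ⟨h1, h2⟩
  rw [mem_ball_zero_iff] at h1 ⊢
  rw [sub_zero] at h2
  linarith [FE_norm_le x]
theorem FE_ball_subset_cyl {r h ρ : ℝ} (h1 : ρ ≤ r) (h2 : ρ ≤ h) :
    ball (0 : R d) ρ ⊆ cyl 0 r 0 h := by
  intro x hx
  rw [mem_ball_zero_iff] at hx
  refine ⟨?_, ?_⟩
  · rw [mem_ball_zero_iff]
    linarith [FE_norm_pr_le x]
  · rw [sub_zero]
    linarith [FE_abs_ht_le x]
/-- `3^2 + 1 < 3.2^2` -/
theorem FE_Cy_subset : Cy d ⊆ ball 0 (16 / 5) := by
  rintro x ⟨h1, h2⟩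
  rw [mem_ball_zero_iff] at h1 ⊢
  rw [sub_zero] at h2
  refine lt_of_pow_lt_pow_left₀ 2 (by norm_num) ?_
  rw [norm_sq_coord x, ← sq_abs (ht x)]
  nlinarith only [norm_nonneg (pr x), abs_nonneg (ht x), h1, h2]
theorem FE_Cz_subset : Cz d ⊆ Cy d := by
  rintro x ⟨h1, h2⟩
  exact ⟨ball_subset_ball (by norm_num) h1, h2⟩
end FE1a

section FE1
theorem FE1_meas (Ω : Set (R d)) : Measurable fun x : R d => (x, nu Ω x) :=
  measurable_id.prodMk (measurable_nu Ω)

/-- `lintegral_map` with `measurable_nu` -/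
theorem FE_lint_vf (Ω O : Set (R d)) {F : R d × S d → ℝ≥0∞} (hF : Measurable F) :
    ∫⁻ p, F p ∂vf Ω O = ∫⁻ x in O, F (x, nu Ω x) ∂pm Ω :=
  lintegral_map hF (FE1_meas Ω)

theorem FE_int_vf (Ω O : Set (R d)) {F : R d × S d → ℝ} (hF : Measurable F) :
    ∫ p, F p ∂vf Ω O = ∫ x in O, F (x, nu Ω x) ∂pm Ω :=
  integral_map (FE1_meas Ω).aemeasurable hF.aestronglyMeasurable

/-- continuous functions with compact `x`-support are integrable (bounded on `K × S`, `W.fst K < ⊤`) -/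
theorem FE_integrable {W : Vf d} {O K : Set (R d)} (h : LocFin W O) (hK : IsCompact K) (hKO : K ⊆ O)
    {F : R d × S d → ℝ} (hF : Continuous F) (h0 : ∀ p : R d × S d, p.1 ∉ K → F p = 0) :
    Integrable F W := by
  have hK' : IsCompact (K ×ˢ (univ : Set (S d))) := hK.prod isCompact_univ
  have hfin : W (K ×ˢ (univ : Set (S d))) < ⊤ := by
    have h1 := h K hK hKO
    rw [Measure.fst_apply hK.measurableSet] at h1
    rwa [prod_univ]
  obtain ⟨M, hM⟩ := hK'.exists_bound_of_continuousOn hF.continuousOn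
  have hon : IntegrableOn F (K ×ˢ (univ : Set (S d))) W :=
    Measure.integrableOn_of_bounded hfin.ne hF.aestronglyMeasurable
      ((ae_restrict_mem hK'.measurableSet).mono hM)
  refine (integrableOn_iff_integrable_of_support_subset fun p hp => ?_).1 hon
  by_contra hp'
  exact hp (h0 p fun hpK => hp' ⟨hpK, mem_univ _⟩)

theorem FE1_meas_neg : Measurable fun p : R d × S d => (p.1, -p.2) :=
  (continuous_fst.prodMk continuous_snd.neg).measurable

/-- From `vf_compl`: the measurable set `{p | p.2 ≠ nu Ωᶜ p.1}` is null for `vf Ωᶜ U`; read this on the right side. -/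
theorem FE_nu_compl {Ω U : Set (R d)} (hΩ : MeasurableSet Ω) (hU : IsOpen U) (hl : U ⊆ lf Ω) :
    ∀ᵐ x ∂(pm Ω).restrict U, (nu Ωᶜ x : R d) = -(nu Ω x : R d) := by
  have hN : MeasurableSet {p : R d × S d | (nu Ωᶜ p.1 : R d) = (p.2 : R d)} :=
    measurableSet_eq_fun (measurable_subtype_coe.comp ((measurable_nu Ωᶜ).comp measurable_fst))
      (measurable_subtype_coe.comp measurable_snd)
  have h1 : ∀ᵐ p ∂vf Ωᶜ U, (nu Ωᶜ p.1 : R d) = (p.2 : R d) :=
    (ae_map_iff (FE1_meas Ωᶜ).aemeasurable hN).2 (Eventually.of_forall fun _ => rfl)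
  rw [vf_compl hΩ hU hl] at h1
  have h2 := ae_of_ae_map FE1_meas_neg.aemeasurable h1
  have h3 := ae_of_ae_map (FE1_meas Ω).aemeasurable h2
  filter_upwards [h3] with x hx
  simpa only [coe_neg_sphere] using hx

theorem FE_lf_compl {Ω : Set (R d)} (hΩ : MeasurableSet Ω) : lf Ωᶜ = lf Ω := by
  unfold lf
  rw [pm_compl hΩ]

/-- `divT` is even in the normal -/
theorem FE_stat_compl {Ω U : Set (R d)} (hΩ : MeasurableSet Ω) (hU : IsOpen U) (hl : U ⊆ lf Ω)
    (h : Stat (vf Ω U) U) : Stat (vf Ωᶜ U) U := by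
  refine ⟨fun K hK hKU => ?_, fun X hX => ?_⟩
  · have h1 := h.1 K hK hKU
    rw [vf_fst] at h1 ⊢
    rwa [pm_compl hΩ]
  · have he : MeasurableEmbedding fun p : R d × S d => (p.1, -p.2) :=
      ((Homeomorph.refl (R d)).prodCongr (Homeomorph.neg (S d))).measurableEmbedding
    rw [vf_compl hΩ hU hl, he.integral_map, ← h.2 X hX]
    congr 1
    funext p
    simp only [divT, coe_neg_sphere, map_neg, inner_neg_right, inner_neg_left, neg_neg]

/-- restriction of stationarity (`Stat.mono`, `Stat.congr`, `vf_restrict`) -/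
theorem FE_stat_sub {Ω U O : Set (R d)} (hU : IsOpen U) (hUO : U ⊆ O) (h : Stat (vf Ω O) O) :
    Stat (vf Ω U) U :=
  (h.mono hUO).congr hU (by
    rw [vf_restrict Ω hU.measurableSet hUO, vf_restrict Ω hU.measurableSet Subset.rfl])

theorem FE_pm_empty : pm (∅ : Set (R d)) = 0 := by
  rw [← Measure.measure_univ_eq_zero, pm_open _ isOpen_univ]
  simp only [Per, subset_univ, true_and, Measure.restrict_empty, integral_zero_measure, ENNReal.ofReal_zero, ENNReal.iSup_zero, ciSup_const]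

/-- `pm_congr` with the empty set on `{ε < ht}` and with `univ` on `{ht < -ε}` -/
theorem FE_pm_out {Ω : Set (R d)} {ε : ℝ} (hΩ : MeasurableSet Ω) (lo : ∀ x, ht x < -ε → x ∈ Ω)
    (hi : ∀ x ∈ Ω, ht x ≤ ε) : pm Ω {x | ε < |ht x|} = 0 := by
  have hc : Continuous (ht : R d → ℝ) := FE_contDiff_ht.continuous
  have o1 : IsOpen {x : R d | ε < ht x} := isOpen_lt continuous_const hc
  have o2 : IsOpen {x : R d | ht x < -ε} := isOpen_lt hc continuous_const
  have h1 : pm Ω {x : R d | ε < ht x} = 0 := by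
    have e : (Ω ∆ ∅) ∩ {x : R d | ε < ht x} = ∅ := by
      refine eq_empty_of_forall_notMem fun x hx => ?_
      rcases hx.1 with h | h
      · exact absurd (hi x h.1) (not_le.2 hx.2)
      · exact h.1
    have := pm_congr hΩ MeasurableSet.empty o1 (by rw [e, measure_empty])
    rw [← Measure.restrict_eq_zero, this, FE_pm_empty, Measure.restrict_zero]
  have h2 : pm Ω {x : R d | ht x < -ε} = 0 := by
    have e : (Ω ∆ (∅ : Set (R d))ᶜ) ∩ {x : R d | ht x < -ε} = ∅ := by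
      refine eq_empty_of_forall_notMem fun x hx => ?_
      rcases hx.1 with h | h
      · exact h.2 (notMem_empty x)
      · exact h.2 (lo x hx.2)
    have := pm_congr hΩ MeasurableSet.empty.compl o2 (by rw [e, measure_empty])
    rw [← Measure.restrict_eq_zero, this, pm_compl MeasurableSet.empty, FE_pm_empty,
      Measure.restrict_zero]
  refine measure_mono_null (fun x hx => ?_) (measure_union_null h1 h2)
  rcases lt_abs.1 (show ε < |ht x| from hx) with h | h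
  · exact Or.inl h
  · exact Or.inr (show ht x < -ε by linarith)

theorem FE_supp_slab {Ω : Set (R d)} {ε : ℝ} (hΩ : MeasurableSet Ω) (lo : ∀ x, ht x < -ε → x ∈ Ω)
    (hi : ∀ x ∈ Ω, ht x ≤ ε) {x : R d} (hx : x ∈ (pm Ω).support) : |ht x| ≤ ε := by
  by_contra hlt
  have o : IsOpen {x : R d | ε < |ht x|} :=
    isOpen_lt continuous_const FE_contDiff_ht.continuous.abs
  have := (Measure.mem_support_iff_forall x).1 hx _ (o.mem_nhds (not_le.1 hlt))
  exact this.ne' (FE_pm_out hΩ lo hi)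
end FE1

section FE2
theorem FE2_pos (k : ℕ) (s : ℝ) :
    HasDerivAt (fun s : ℝ => max s 0 ^ (k + 2)) ((k + 2 : ℝ) * max s 0 ^ (k + 1)) s := by
  rcases lt_trichotomy s 0 with h | rfl | h
  · have e : (fun s : ℝ => max s 0 ^ (k + 2)) =ᶠ[𝓝 s] fun _ => 0 := by
      filter_upwards [gt_mem_nhds h] with t ht
      simp only [max_eq_right ht.le, ne_eq, Nat.add_eq_zero_iff, OfNat.ofNat_ne_zero, and_false, not_false_eq_true, zero_pow]
    simpa only [max_eq_right h.le, ne_eq, Nat.add_eq_zero_iff, one_ne_zero, and_false, not_false_eq_true, zero_pow, mul_zero] using (hasDerivAt_const s (0 : ℝ)).congr_of_eventuallyEq e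
  · rw [hasDerivAt_iff_isLittleO_nhds_zero]
    have h1 : (fun t : ℝ => t ^ (k + 2)) =o[𝓝 0] fun t => t :=
      Asymptotics.isLittleO_pow_id (by omega)
    refine (Asymptotics.IsBigO.of_bound 1 (Eventually.of_forall fun t => ?_)).trans_isLittleO h1
    simp only [zero_add, max_self, ne_eq, Nat.add_eq_zero_iff, OfNat.ofNat_ne_zero, and_false,
      not_false_eq_true, zero_pow, sub_zero, one_ne_zero, mul_zero, smul_eq_mul, norm_pow,
      Real.norm_eq_abs, one_mul]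
    refine pow_le_pow_left₀ (abs_nonneg _) ?_ _
    rw [abs_of_nonneg (le_max_right t 0)]
    exact max_le (le_abs_self _) (abs_nonneg _)
  · have e : (fun s : ℝ => max s 0 ^ (k + 2)) =ᶠ[𝓝 s] fun t => t ^ (k + 2) := by
      filter_upwards [lt_mem_nhds h] with t ht
      simp only [max_eq_left ht.le]
    simpa only [max_eq_left h.le, Nat.cast_add, Nat.cast_ofNat, Nat.add_one_sub_one] using (hasDerivAt_pow (k + 2) s).congr_of_eventuallyEq e

theorem FE2_pos_cd (k : ℕ) : ContDiff ℝ 1 fun s : ℝ => max s 0 ^ (k + 2) := by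
  rw [contDiff_one_iff_deriv]
  refine ⟨fun s => (FE2_pos k s).differentiableAt, ?_⟩
  have e : deriv (fun s : ℝ => max s 0 ^ (k + 2)) = fun s => (k + 2 : ℝ) * max s 0 ^ (k + 1) :=
    funext fun s => (FE2_pos k s).deriv
  rw [e]
  fun_prop

theorem FE2_cont {X : R d → R d} (hX : ContDiff ℝ 1 X) : Continuous (divT X) := by
  have h := hX.continuous_fderiv one_ne_zero
  unfold divT dv
  fun_prop

theorem FE2_sum (φ : R d →L[ℝ] ℝ) (v : R d) :
    ∑ i, φ (EuclideanSpace.single i 1) * v i = φ v := by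
  conv_rhs => rw [← (EuclideanSpace.basisFun (Fin (d + 1)) ℝ).sum_repr v]
  simp [mul_comm]

theorem FE2_div {X : R d → R d} {y z w : R d} {a : ℝ} {φ ψ : R d →L[ℝ] ℝ} (ν : S d)
    (h : HasFDerivAt X (a • ContinuousLinearMap.id ℝ (R d) + φ.smulRight z + ψ.smulRight w) y) :
    divT X (y, ν) = d * a + (φ z - φ ν * ⟪(ν : R d), z⟫_ℝ) + (ψ w - ψ ν * ⟪(ν : R d), w⟫_ℝ) := by
  have hν : ⟪(ν : R d), (ν : R d)⟫_ℝ = 1 := by
    rw [real_inner_self_eq_norm_sq, norm_eq_of_mem_sphere ν, one_pow]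
  simp only [divT, dv, h.fderiv, add_apply, smul_apply,
    ContinuousLinearMap.id_apply, ContinuousLinearMap.smulRight_apply, PiLp.add_apply,
    PiLp.smul_apply, smul_eq_mul, Finset.sum_add_distrib, FE2_sum, inner_add_right,
    inner_smul_right, hν]
  simp only [PiLp.single_eq_same, mul_one, Finset.sum_const, Finset.card_univ, Fintype.card_fin, nsmul_eq_mul, Nat.cast_add, Nat.cast_one]
  ring

/-- the test field -/
noncomputable def FE2_X (x : R d) (r : ℝ) (w : R d) (c : ℝ) (y : R d) : R d :=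
  (max (⟪w, y⟫_ℝ - c) 0 ^ 3 * FEw x r y ^ 2) • (y - x) +
    (r ^ 2 / 2 * (FEw x r y ^ 3 * max (⟪w, y⟫_ℝ - c) 0 ^ 2)) • w

theorem FE2_w_zero {x y : R d} {r : ℝ} (hr : 0 < r) (h : y ∉ closedBall x r) : FEw x r y = 0 := by
  rw [mem_closedBall, dist_eq_norm, not_le] at h
  refine max_eq_right ?_
  rw [sub_nonpos, one_le_div (by positivity)]
  gcongr

theorem FE2_C1c (x : R d) {r : ℝ} (hr : 0 < r) (w : R d) (c : ℝ) :
    C1c (FE2_X x r w c) (closedBall x r) := by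
  have ha : ContDiff ℝ 1 fun y : R d => ⟪w, y⟫_ℝ - c :=
    (contDiff_const.inner ℝ contDiff_id).sub contDiff_const
  have hb : ContDiff ℝ 1 fun y : R d => 1 - ‖y - x‖ ^ 2 / r ^ 2 :=
    contDiff_const.sub (((contDiff_id.sub contDiff_const).norm_sq ℝ).div_const _)
  have hs : tsupport (FE2_X x r w c) ⊆ closedBall x r := by
    refine closure_minimal (fun y hy => ?_) isClosed_closedBall
    by_contra h
    exact hy (by simp only [FE2_X, FE2_w_zero hr h, ne_eq, OfNat.ofNat_ne_zero, not_false_eq_true, zero_pow, mul_zero, zero_smul, zero_mul, add_zero])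
  refine ⟨?_, (isCompact_closedBall x r).of_isClosed_subset (isClosed_tsupport _) hs, hs⟩
  exact ((((FE2_pos_cd 1).comp ha).mul ((FE2_pos_cd 0).comp hb)).smul
    (contDiff_id.sub contDiff_const)).add
    ((contDiff_const.mul (((FE2_pos_cd 1).comp hb).mul ((FE2_pos_cd 0).comp ha))).smul contDiff_const)

theorem FE2_pt (x : R d) {r : ℝ} (hr : 0 < r) (w : R d) (c : ℝ) (y : R d) (ν : S d) :
    FEh w c y * (d * FEw x r y ^ 2 - 4 * FEw x r y * (‖y - x‖ ^ 2 / r ^ 2)) ≤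
      divT (FE2_X x r w c) (y, ν) := by
  have ha : HasFDerivAt (fun y : R d => ⟪w, y⟫_ℝ - c) (innerSL ℝ w) y :=
    (innerSL ℝ w).hasFDerivAt.sub_const c
  have hz : HasFDerivAt (fun y : R d => y - x) (ContinuousLinearMap.id ℝ (R d)) y :=
    (hasFDerivAt_id y).sub_const x
  have hb : HasFDerivAt (fun y : R d => 1 - ‖y - x‖ ^ 2 / r ^ 2)
      ((-2 / r ^ 2) • innerSL ℝ (y - x)) y := by
    have h1 := ((hz.norm_sq.mul_const (r ^ 2)⁻¹).const_sub 1)
    refine (h1.congr_fderiv ?_ :)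
    ext v
    simp
    ring
  have a2 := (FE2_pos 0 _).comp_hasFDerivAt y ha
  have a3 := (FE2_pos 1 _).comp_hasFDerivAt y ha
  have b2 := (FE2_pos 0 _).comp_hasFDerivAt y hb
  have b3 := (FE2_pos 1 _).comp_hasFDerivAt y hb
  have h1 := ((a3.mul b2).smul hz).add (((b3.mul a2).const_mul (r ^ 2 / 2)).smul_const w)
  have h2 := FE2_div (X := FE2_X x r w c) ν h1
  rw [h2]
  have hw : ⟪w, (ν : R d)⟫_ℝ ^ 2 ≤ ⟪w, w⟫_ℝ := by
    have h3 := abs_real_inner_le_norm w (ν : R d)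
    rw [norm_eq_of_mem_sphere ν, mul_one] at h3
    rw [real_inner_self_eq_norm_sq, ← sq_abs]
    gcongr
  simp only [Function.comp_apply, Pi.mul_apply, add_apply,
    smul_apply, innerSL_apply_apply, smul_eq_mul, FEh, FEw,
    real_inner_self_eq_norm_sq (y - x), real_inner_comm (ν : R d), real_inner_comm w (y - x)]
  rw [real_inner_comm] at hw
  have hm : 0 ≤ max (⟪w, y⟫_ℝ - c) 0 := le_max_right _ _
  have hf : 0 ≤ max (1 - ‖y - x‖ ^ 2 / r ^ 2) 0 := le_max_right _ _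
  generalize max (⟪w, y⟫_ℝ - c) 0 = m at hm ⊢
  generalize max (1 - ‖y - x‖ ^ 2 / r ^ 2) 0 = f at hf ⊢
  have h3 : 0 ≤ 4 * m ^ 3 * f * ⟪(ν : R d), y - x⟫_ℝ ^ 2 / r ^ 2 +
      r ^ 2 * f ^ 3 * m * (⟪w, w⟫_ℝ - ⟪(ν : R d), w⟫_ℝ ^ 2) := by
    have := sub_nonneg.2 hw
    positivity
  refine sub_nonneg.1 (h3.trans_eq ?_)
  push_cast
  field_simp
  ring

/-- Write `z = y - x`, `m = max (⟪w,y⟫ - c) 0`, `f = FEw x r y`.  Fields `X1 y = (m^3 * f^2) • z`, `X2 y = (f^3 * m^2) • w`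
are `C1c` in `O` (tsupport in `closedBall x r`; `s ↦ (max s 0)^2`, `(max s 0)^3` are `C^1` with derivatives `2 max s 0`, `3 (max s 0)^2`).
For a field `g • Z`: `divT (g • Z) (y,ν) = g * divT Z + Dg (Z - ⟪ν,Z⟫ ν)`; `divT z = d`, `divT w = 0`; `D f^k v = -2 k f^(k-1) ⟪z,v⟫ / r^2`.
With `zT = z - ⟪ν,z⟫ ν`, `wT` likewise: `divT X1 = d m^3 f^2 + 3 m^2 f^2 ⟪w,zT⟫ - 4 m^3 f |zT|^2 / r^2`,
`divT X2 = -6 m^2 f^2 ⟪w,zT⟫ / r^2 + 2 f^3 m |wT|^2`.  So the integrand is `≤ divT X1 + (r^2/2) divT X2` pointwise (`|zT| ≤ |z|`).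
Integrate (`FE_integrable`, `W.fst = W.map Prod.fst`, `integral_map`). -/
theorem FE_mv1 {W : Vf d} {O : Set (R d)} (h : Stat W O) {x : R d} {r : ℝ} (hr : 0 < r)
    (hb : closedBall x r ⊆ O) (w : R d) (c : ℝ) :
    ∫ y, FEh w c y * (d * FEw x r y ^ 2 - 4 * FEw x r y * (‖y - x‖ ^ 2 / r ^ 2)) ∂W.fst ≤ 0 := by
  have hX := FE2_C1c x hr w c
  have hG : Continuous fun y : R d =>
      FEh w c y * (d * FEw x r y ^ 2 - 4 * FEw x r y * (‖y - x‖ ^ 2 / r ^ 2)) := by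
    unfold FEh FEw
    fun_prop
  rw [Measure.fst, integral_map measurable_fst.aemeasurable hG.aestronglyMeasurable,
    ← h.2 _ ⟨hX.1, hX.2.1, hX.2.2.trans hb⟩]
  refine integral_mono ?_ ?_ fun p => FE2_pt x hr w c p.1 p.2
  · refine FE_integrable h.1 (isCompact_closedBall x r) hb (hG.comp continuous_fst) fun p hp => ?_
    simp [FE2_w_zero hr hp]
  · refine FE_integrable h.1 (isCompact_closedBall x r) hb (FE2_cont hX.1) fun p hp => ?_
    have h0 : fderiv ℝ (FE2_X x r w c) p.1 = 0 :=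
      fderiv_of_notMem_tsupport ℝ fun h' => hp (hX.2.2 h')
    simp [divT, dv, h0]
end FE2

section FE3
theorem FE3_sq (s : ℝ) : HasDerivAt (fun t : ℝ => (max t 0) ^ 2) (2 * max s 0) s := by
  rcases lt_trichotomy s 0 with h | h | h
  · rw [max_eq_right h.le, mul_zero]
    refine (hasDerivAt_const s (0 : ℝ)).congr_of_eventuallyEq ?_
    filter_upwards [gt_mem_nhds h] with t ht
    rw [max_eq_right ht.le]; ring
  · subst h
    rw [max_self, mul_zero, hasDerivAt_iff_isLittleO_nhds_zero]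
    refine (Asymptotics.IsBigO.of_bound 1 (Eventually.of_forall fun t => ?_)).trans_isLittleO
      (Asymptotics.isLittleO_pow_id (𝕜 := ℝ) one_lt_two)
    rcases le_total t 0 with h | h
    · simp only [zero_add, max_eq_right h, ne_eq, OfNat.ofNat_ne_zero, not_false_eq_true, zero_pow, max_self, sub_self, smul_eq_mul, mul_zero, norm_zero, norm_pow, Real.norm_eq_abs, sq_abs, one_mul]; positivity
    · simp only [zero_add, max_eq_left h, max_self, ne_eq, OfNat.ofNat_ne_zero, not_false_eq_true, zero_pow, sub_zero, smul_eq_mul, mul_zero, norm_pow, Real.norm_eq_abs, sq_abs, one_mul, Std.le_refl]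
  · rw [max_eq_left h.le]
    have h1 : HasDerivAt (fun t : ℝ => t ^ 2) (2 * s) s := by simpa using hasDerivAt_pow 2 s
    refine h1.congr_of_eventuallyEq ?_
    filter_upwards [lt_mem_nhds h] with t ht
    rw [max_eq_left ht.le]

theorem FE3_w (x y : R d) {r : ℝ} (hr : 0 < r) :
    HasDerivAt (fun t : ℝ => FEw x t y ^ 2) (4 * FEw x r y * (‖y - x‖ ^ 2 / r ^ 3)) r := by
  have h1 : HasDerivAt (fun t : ℝ => 1 - ‖y - x‖ ^ 2 / t ^ 2) (2 * (‖y - x‖ ^ 2 / r ^ 3)) r := by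
    have h2 := (((hasDerivAt_pow 2 r).fun_inv (pow_pos hr 2).ne').const_mul (‖y - x‖ ^ 2)).const_sub 1
    refine h2.congr_deriv ?_
    field_simp
    ring
  have h3 := (FE3_sq (1 - ‖y - x‖ ^ 2 / r ^ 2)).comp r h1
  refine h3.congr_deriv ?_
  unfold FEw
  ring

theorem FE3_inv (n : ℕ) {r : ℝ} (hr : 0 < r) :
    HasDerivAt (fun t : ℝ => (t ^ n)⁻¹) (-(n * (r ^ n)⁻¹ / r)) r := by
  have h := (hasDerivAt_pow n r).fun_inv (pow_pos hr n).ne'
  refine h.congr_deriv ?_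
  rcases n with _ | n
  · simp
  · simp only [Nat.add_sub_cancel]
    field_simp
    ring

theorem FE3_int {μ : Measure (R d)} {K : Set (R d)} (hK : IsCompact K) (hμ : μ K < ⊤) {f : R d → ℝ}
    (hf : Continuous f) (h0 : ∀ y, y ∉ K → f y = 0) : Integrable f μ := by
  obtain ⟨C, hC⟩ := hK.exists_bound_of_continuousOn hf.continuousOn
  have hs : Function.support f ⊆ K := fun y hy => by_contra fun h => hy (h0 y h)
  exact (integrableOn_iff_integrable_of_support_subset hs).1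
    (Measure.integrableOn_of_bounded hμ.ne hf.aestronglyMeasurable
      (ae_restrict_of_forall_mem hK.measurableSet hC))

theorem FE3_ch (w : R d) (c : ℝ) : Continuous (FEh w c) := by
  unfold FEh
  fun_prop

theorem FE3_cw (x : R d) (r : ℝ) : Continuous (FEw x r) := by
  unfold FEw
  fun_prop

theorem FE3_w0 (x y : R d) (r : ℝ) : 0 ≤ FEw x r y := le_max_right _ _

theorem FE3_h0 (w : R d) (c : ℝ) (y : R d) : 0 ≤ FEh w c y := pow_nonneg (le_max_right _ _) _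

theorem FE3_mono (x y : R d) {r s : ℝ} (hr : 0 < r) (hrs : r ≤ s) : FEw x r y ≤ FEw x s y := by
  refine max_le_max ?_ le_rfl
  have : ‖y - x‖ ^ 2 / s ^ 2 ≤ ‖y - x‖ ^ 2 / r ^ 2 :=
    div_le_div_of_nonneg_left (by positivity) (by positivity) (by gcongr)
  linarith

theorem FE3_out {x y : R d} {r s : ℝ} (hr : 0 < r) (hrs : r ≤ s) (hy : y ∉ closedBall x s) :
    FEw x r y = 0 := by
  rw [mem_closedBall_iff_norm, not_le] at hy
  refine max_eq_right ?_
  have : 1 ≤ ‖y - x‖ ^ 2 / r ^ 2 := by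
    rw [one_le_div (by positivity)]
    have : r ≤ ‖y - x‖ := by linarith
    gcongr
  linarith

theorem FE3_der {μ : Measure (R d)} {x : R d} {a b' r : ℝ} (ha : 0 < a) (har : a < r) (hr : r < b')
    (hμ : μ (closedBall x b') < ⊤) (w : R d) (c : ℝ) :
    HasDerivAt (fun t : ℝ => ∫ y, FEh w c y * FEw x t y ^ 2 ∂μ)
      (∫ y, FEh w c y * (4 * FEw x r y * (‖y - x‖ ^ 2 / r ^ 3)) ∂μ) r := by
  have hK := isCompact_closedBall x b'
  have hch := FE3_ch w c
  have hcw := FE3_cw x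
  have hr0 : 0 < r := ha.trans har
  refine (hasDerivAt_integral_of_dominated_loc_of_deriv_le (μ := μ) (Ioo_mem_nhds har hr)
    (F := fun t y => FEh w c y * FEw x t y ^ 2)
    (F' := fun t y => FEh w c y * (4 * FEw x t y * (‖y - x‖ ^ 2 / t ^ 3)))
    (bound := fun y => FEh w c y * (4 * FEw x b' y * (‖y - x‖ ^ 2 / a ^ 3)))
    (Eventually.of_forall fun t => ?_) ?_ ?_ (Eventually.of_forall fun y t ht => ?_) ?_
    (Eventually.of_forall fun y t ht => ?_)).2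
  · exact (hch.mul ((hcw t).pow 2)).aestronglyMeasurable
  · refine FE3_int hK hμ (hch.mul ((hcw r).pow 2)) fun y hy => ?_
    rw [FE3_out hr0 hr.le hy]; ring
  · have := hcw r
    exact Continuous.aestronglyMeasurable (by fun_prop)
  · have ht0 : 0 < t := ha.trans ht.1
    have h1 := FE3_w0 x y t
    have h2 := FE3_h0 w c y
    have h3 := FE3_mono x y ht0 ht.2.le
    have h5 := FE3_w0 x y b'
    have h4 : ‖y - x‖ ^ 2 / t ^ 3 ≤ ‖y - x‖ ^ 2 / a ^ 3 :=
      div_le_div_of_nonneg_left (by positivity) (by positivity) (by gcongr; exact ht.1.le)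
    rw [Real.norm_eq_abs, abs_of_nonneg (by positivity)]
    gcongr
  · have := hcw b'
    refine FE3_int hK hμ (by fun_prop) fun y hy => ?_
    rw [FE3_out (hr0.trans hr) le_rfl hy]; ring
  · exact (FE3_w x y (ha.trans ht.1)).const_mul _

/-- `I r = (r^d)⁻¹ ∫ h f_r^2`.  `hasDerivAt_integral_of_dominated_loc_of_deriv_le` at each `r ∈ [a,b]` (neighbourhood of `r` inside `(a/2,b')`,
bound = constant times indicator of `closedBall x b'`, finite measure by `LocFin`):  `d/dr f_r^2 = 4 f_r |y-x|^2 / r^3`, so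
`I' r = -(r^(d+1))⁻¹ ∫ h (d f^2 - 4 f |y-x|^2/r^2) ≥ 0` by `FE_mv1`; `monotoneOn_of_deriv_nonneg`. -/
theorem FE_mv2 {W : Vf d} {O : Set (R d)} (h : Stat W O) {x : R d} {a b b' : ℝ} (ha : 0 < a)
    (hab : a ≤ b) (hb' : b < b') (hb : closedBall x b' ⊆ O) (w : R d) (c : ℝ) :
    (a ^ d)⁻¹ * ∫ y, FEh w c y * FEw x a y ^ 2 ∂W.fst ≤
      (b ^ d)⁻¹ * ∫ y, FEh w c y * FEw x b y ^ 2 ∂W.fst := by
  have hK := isCompact_closedBall x b'
  have hμ : W.fst (closedBall x b') < ⊤ := h.1 _ hK hb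
  have hch := FE3_ch w c
  have hD : ∀ r ∈ Icc a b, ∃ D, 0 ≤ D ∧
      HasDerivAt (fun t : ℝ => (t ^ d)⁻¹ * ∫ y, FEh w c y * FEw x t y ^ 2 ∂W.fst) D r := by
    intro r hr
    have hr0 : 0 < r := ha.trans_le hr.1
    have hrb : r < b' := hr.2.trans_lt hb'
    have h1 := FE3_der (half_pos ha) ((half_lt_self ha).trans_le hr.1) hrb hμ w c
    refine ⟨_, ?_, (FE3_inv d hr0).mul h1⟩
    have h2 := FE_mv1 h hr0 ((closedBall_subset_closedBall hrb.le).trans hb) w c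
    have hcw := FE3_cw x r
    have i1 : Integrable (fun y => FEh w c y * FEw x r y ^ 2) W.fst := by
      refine FE3_int hK hμ (by fun_prop) fun y hy => ?_
      rw [FE3_out hr0 hrb.le hy]; ring
    have i2 : Integrable (fun y => FEh w c y * (4 * FEw x r y * (‖y - x‖ ^ 2 / r ^ 3))) W.fst := by
      refine FE3_int hK hμ (by fun_prop) fun y hy => ?_
      rw [FE3_out hr0 hrb.le hy]; ring
    have h3 : ∫ y, FEh w c y * (d * FEw x r y ^ 2 - 4 * FEw x r y * (‖y - x‖ ^ 2 / r ^ 2)) ∂W.fst =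
        d * ∫ y, FEh w c y * FEw x r y ^ 2 ∂W.fst -
          r * ∫ y, FEh w c y * (4 * FEw x r y * (‖y - x‖ ^ 2 / r ^ 3)) ∂W.fst := by
      rw [← integral_const_mul, ← integral_const_mul, ← integral_sub (i1.const_mul _) (i2.const_mul _)]
      refine integral_congr_ae (Eventually.of_forall fun y => ?_)
      dsimp only
      field_simp
    rw [h3] at h2
    generalize ∫ y, FEh w c y * FEw x r y ^ 2 ∂W.fst = A at h2 ⊢
    generalize ∫ y, FEh w c y * (4 * FEw x r y * (‖y - x‖ ^ 2 / r ^ 3)) ∂W.fst = A' at h2 ⊢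
    have h4 : -(d * (r ^ d)⁻¹ / r) * A + (r ^ d)⁻¹ * A' = ((r ^ d)⁻¹ / r) * (-(d * A - r * A')) := by
      field_simp
      ring
    rw [h4]
    exact mul_nonneg (by positivity) (by linarith only [h2])
  choose! D hD0 hD1 using hD
  exact monotoneOn_of_hasDerivWithinAt_nonneg (convex_Icc a b)
    (fun r hr => (hD1 r hr).continuousAt.continuousWithinAt)
    (fun r hr => (hD1 r (interior_subset hr)).hasDerivWithinAt)
    (fun r hr => hD0 r (interior_subset hr)) (left_mem_Icc.2 hab) (right_mem_Icc.2 hab) hab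
end FE3

section FE4a
theorem FE4a_ch (w : R d) (c : ℝ) : Continuous (FEh w c) := by
  unfold FEh
  fun_prop

theorem FE4a_cw (x : R d) (r : ℝ) : Continuous (FEw x r) := by
  unfold FEw
  fun_prop

theorem FE4a_h0 (w : R d) (c : ℝ) (y : R d) : 0 ≤ FEh w c y := pow_nonneg (le_max_right _ _) _

theorem FE4a_out {x y : R d} {a : ℝ} (ha : 0 < a) (hy : y ∉ closedBall x a) : FEw x a y = 0 := by
  rw [mem_closedBall, dist_eq_norm, not_le] at hy
  refine max_eq_right ?_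
  rw [sub_nonpos, le_div_iff₀ (pow_pos ha 2), one_mul]
  exact pow_le_pow_left₀ ha.le hy.le 2

theorem FE4a_in {x y : R d} {a : ℝ} (ha : 0 < a) (hy : y ∈ closedBall x (a / 2)) :
    1 / 2 ≤ FEw x a y ^ 2 := by
  rw [mem_closedBall, dist_eq_norm] at hy
  have h1 : ‖y - x‖ ^ 2 / a ^ 2 ≤ 1 / 4 := by
    rw [div_le_iff₀ (pow_pos ha 2)]
    have := pow_le_pow_left₀ (norm_nonneg _) hy 2
    linarith only [this]
  have h2 : 3 / 4 ≤ FEw x a y := le_trans (by linarith only [h1]) (le_max_left _ _)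
  nlinarith only [h2]

/-- For small `a`: on `closedBall x (a/2)`, `FEw^2 ≥ 9/16 ≥ 1/2` and `FEh ≥ FEh x - δ` (continuity); `FE_mv2`; let `δ → 0`. -/
theorem FE_mv {W : Vf d} {O : Set (R d)} (h : Stat W O) {x : R d} {b b' c₀ : ℝ} (hb0 : 0 < b)
    (hb' : b < b') (hb : closedBall x b' ⊆ O) (hc : 0 < c₀)
    (hd : ∀ r, 0 < r → r ≤ b → ENNReal.ofReal (c₀ * r ^ d) ≤ W.fst (closedBall x r)) (w : R d) (c : ℝ) :
    c₀ / 2 ^ (d + 1) * FEh w c x ≤ (b ^ d)⁻¹ * ∫ y, FEh w c y * FEw x b y ^ 2 ∂W.fst := by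
  have hK : 0 < c₀ / 2 ^ (d + 1) := by positivity
  have hn : ∀ (r : ℝ) (y : R d), 0 ≤ FEh w c y * FEw x r y ^ 2 := fun r y =>
    mul_nonneg (FE4a_h0 w c y) (sq_nonneg _)
  have hR : 0 ≤ (b ^ d)⁻¹ * ∫ y, FEh w c y * FEw x b y ^ 2 ∂W.fst :=
    mul_nonneg (inv_nonneg.2 (pow_pos hb0 d).le) (integral_nonneg (hn b))
  rw [← le_div_iff₀' hK]
  refine le_of_forall_lt_imp_le_of_dense fun t ht => ?_
  rw [le_div_iff₀' hK]
  rcases le_or_gt t 0 with ht0 | ht0
  · exact le_trans (mul_nonpos_of_nonneg_of_nonpos hK.le ht0) hR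
  obtain ⟨ρ, hρ, hρt⟩ : ∃ ρ > 0, ∀ y ∈ ball x ρ, t < FEh w c y :=
    Metric.eventually_nhds_iff_ball.1 ((FE4a_ch w c).continuousAt.eventually (lt_mem_nhds ht))
  set a := min b ρ with ha
  have ha0 : 0 < a := lt_min hb0 hρ
  have hab : a ≤ b := min_le_left _ _
  have haρ : a ≤ ρ := min_le_right _ _
  refine le_trans ?_ (FE_mv2 h ha0 hab hb' hb w c)
  have hsub : closedBall x a ⊆ O := (closedBall_subset_closedBall (by linarith only [hb', hab])).trans hb
  have hg : Continuous fun y => FEh w c y * FEw x a y ^ 2 := (FE4a_ch w c).mul ((FE4a_cw x a).pow 2)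
  have hint : Integrable (fun y => FEh w c y * FEw x a y ^ 2) W.fst :=
    (integrable_map_measure hg.aestronglyMeasurable measurable_fst.aemeasurable).2
      (FE_integrable h.1 (isCompact_closedBall x a) hsub (hg.comp continuous_fst) fun p hp => by
        simp [FE4a_out ha0 hp])
  have h1 := mul_meas_ge_le_integral_of_nonneg (Eventually.of_forall (hn a)) hint (t / 2)
  have hfin : W.fst {y | t / 2 ≤ FEh w c y * FEw x a y ^ 2} ≠ ⊤ := by
    refine ne_top_of_le_ne_top (h.1 _ (isCompact_closedBall x a) hsub).ne (measure_mono fun y hy => ?_)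
    by_contra hc'
    have : t / 2 ≤ FEh w c y * FEw x a y ^ 2 := hy
    rw [FE4a_out ha0 hc'] at this
    simp only [ne_eq, OfNat.ofNat_ne_zero, not_false_eq_true, zero_pow, mul_zero] at this
    linarith only [ht0, this]
  have h2 : c₀ * (a / 2) ^ d ≤ W.fst.real {y | t / 2 ≤ FEh w c y * FEw x a y ^ 2} := by
    rw [measureReal_def, ← ENNReal.ofReal_le_iff_le_toReal hfin]
    refine (hd (a / 2) (by linarith only [ha0]) (by linarith only [hb0, hab])).trans (measure_mono fun y hy => ?_)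
    have k1 := hρt y (closedBall_subset_ball (by linarith only [hρ, haρ]) hy)
    have k2 := FE4a_in ha0 hy
    show t / 2 ≤ FEh w c y * FEw x a y ^ 2
    nlinarith only [ht0, k1, k2]
  have h3 : c₀ / 2 ^ (d + 1) * t = (a ^ d)⁻¹ * (t / 2 * (c₀ * (a / 2) ^ d)) := by
    rw [div_pow, pow_succ]
    field_simp
  rw [h3]
  refine mul_le_mul_of_nonneg_left (le_trans ?_ h1) (inv_nonneg.2 (pow_pos ha0 d).le)
  exact mul_le_mul_of_nonneg_left h2 (by linarith only [ht0])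
end FE4a

section FE4
theorem FE4_pos_deriv (n : ℕ) (s : ℝ) :
    HasDerivAt (fun s : ℝ => (max s 0) ^ (n + 2)) (((n : ℝ) + 2) * (max s 0) ^ (n + 1)) s := by
  have hp : ∀ s : ℝ, HasDerivAt (fun s : ℝ => s ^ (n + 2)) (((n : ℝ) + 2) * s ^ (n + 1)) s := by
    intro s
    have := hasDerivAt_pow (n + 2) s
    push_cast at this
    exact this
  rcases lt_trichotomy s 0 with h | h | h
  · have e : (fun s : ℝ => (max s 0) ^ (n + 2)) =ᶠ[𝓝 s] fun _ => 0 := by
      filter_upwards [Iio_mem_nhds h] with t ht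
      rw [max_eq_right (le_of_lt ht)]; simp
    rw [max_eq_right h.le, zero_pow (by omega), mul_zero]
    exact (hasDerivAt_const s (0 : ℝ)).congr_of_eventuallyEq e
  · subst h
    rw [max_self, zero_pow (by omega), mul_zero]
    have h1 : HasDerivWithinAt (fun s : ℝ => (max s 0) ^ (n + 2)) 0 (Iic 0) 0 := by
      refine (hasDerivWithinAt_const (0 : ℝ) (Iic 0) (0 : ℝ)).congr (fun t ht => ?_) (by simp)
      rw [max_eq_right ht]; simp
    have h2 : HasDerivWithinAt (fun s : ℝ => (max s 0) ^ (n + 2)) 0 (Ici 0) 0 := by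
      have := (hp 0).hasDerivWithinAt (s := Ici 0)
      rw [zero_pow (by omega), mul_zero] at this
      refine this.congr (fun t ht => ?_) (by simp)
      rw [max_eq_left ht]
    have := h1.union h2
    rwa [Iic_union_Ici, hasDerivWithinAt_univ] at this
  · have e : (fun s : ℝ => (max s 0) ^ (n + 2)) =ᶠ[𝓝 s] fun s => s ^ (n + 2) := by
      filter_upwards [Ioi_mem_nhds h] with t ht
      rw [max_eq_left (le_of_lt ht)]
    rw [max_eq_left h.le]
    exact (hp s).congr_of_eventuallyEq e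

theorem FE4_pos_cd (n : ℕ) : ContDiff ℝ 1 fun s : ℝ => (max s 0) ^ (n + 2) := by
  rw [contDiff_one_iff_deriv]
  refine ⟨fun s => (FE4_pos_deriv n s).differentiableAt, ?_⟩
  have : deriv (fun s : ℝ => (max s 0) ^ (n + 2)) =
      fun s => ((n : ℝ) + 2) * (max s 0) ^ (n + 1) := funext fun s => (FE4_pos_deriv n s).deriv
  rw [this]
  fun_prop

theorem FE4_cd (x w : R d) (r c : ℝ) : ContDiff ℝ 1 fun y => FEh w c y * FEw x r y ^ 2 := by
  have h1 : ContDiff ℝ 1 fun y : R d => ⟪w, y⟫_ℝ - c :=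
    (contDiff_const.inner ℝ contDiff_id).sub contDiff_const
  have h2 : ContDiff ℝ 1 fun y : R d => 1 - ‖y - x‖ ^ 2 / r ^ 2 :=
    contDiff_const.sub (((contDiff_id.sub contDiff_const).norm_sq ℝ).div_const _)
  exact ((FE4_pos_cd 1).comp h1).mul ((FE4_pos_cd 0).comp h2)

theorem FE4_fd (x w e y : R d) (r c : ℝ) :
    fderiv ℝ (fun y => FEh w c y * FEw x r y ^ 2) y e =
      3 * (max (⟪w, y⟫_ℝ - c) 0) ^ 2 * FEw x r y ^ 2 * ⟪w, e⟫_ℝ -
        4 * (max (⟪w, y⟫_ℝ - c) 0) ^ 3 * FEw x r y * (⟪y - x, e⟫_ℝ / r ^ 2) := by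
  have hd := ((FE4_cd x w r c).differentiable one_ne_zero y).hasFDerivAt
  have hl : HasDerivAt (fun t : ℝ => y + t • e) e 0 := by
    simpa using ((hasDerivAt_id (0 : ℝ)).smul_const e).const_add y
  have h0 : y + (0 : ℝ) • e = y := by simp
  have hc := HasFDerivAt.comp_hasDerivAt_of_eq (0 : ℝ) hd hl h0.symm
  have h1 : HasDerivAt (fun t : ℝ => ⟪w, y + t • e⟫_ℝ - c) ⟪w, e⟫_ℝ 0 := by
    simpa using ((hasDerivAt_const (0 : ℝ) w).inner ℝ hl).sub_const c
  have h2 : HasDerivAt (fun t : ℝ => 1 - ‖y + t • e - x‖ ^ 2 / r ^ 2)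
      (-(2 * ⟪y - x, e⟫_ℝ / r ^ 2)) 0 := by
    have := (((hl.sub_const x).norm_sq).div_const (r ^ 2)).const_sub 1
    simpa only [zero_smul, add_zero] using this
  have h3 := ((FE4_pos_deriv 1 _).comp (0 : ℝ) h1).mul ((FE4_pos_deriv 0 _).comp (0 : ℝ) h2)
  have h4 := hc.unique h3
  rw [h4]
  simp only [Function.comp, FEw, h0]
  push_cast
  ring

theorem FE4_dv {g : R d → ℝ} (hg : ContDiff ℝ 1 g) (e y : R d) :
    dv (fun y => g y • e) y = fderiv ℝ g y e := by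
  have hd := (hg.differentiable one_ne_zero y).hasFDerivAt
  unfold dv
  rw [(hd.smul_const e).fderiv]
  have he : e = ∑ i, e i • EuclideanSpace.single i (1 : ℝ) := by
    ext j
    simp [Finset.sum_apply, Pi.single_apply]
  conv_rhs => rw [he, map_sum]
  refine Finset.sum_congr rfl fun i _ => ?_
  simp [mul_comm]

theorem FE4_w0 {x y : R d} {r : ℝ} (hr : 0 < r) (h : y ∉ ball x r) : FEw x r y = 0 := by
  rw [mem_ball, dist_eq_norm, not_lt] at h
  refine max_eq_right ?_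
  rw [sub_nonpos, le_div_iff₀ (by positivity), one_mul]
  exact pow_le_pow_left₀ hr.le h 2

theorem FE4_w1 (x y : R d) (r : ℝ) : 0 ≤ FEw x r y ∧ FEw x r y ≤ 1 :=
  ⟨le_max_right _ _, max_le (sub_le_self _ (by positivity)) zero_le_one⟩

theorem FE4_bd {m f p q M r : ℝ} (hr : 0 < r) (hm : 0 ≤ m) (hM : m ≤ M) (hf : 0 ≤ f) (hf1 : f ≤ 1)
    (hp : p ≤ 2) (hq : -r ≤ q) :
    3 * m ^ 2 * f ^ 2 * p - 4 * m ^ 3 * f * (q / r ^ 2) ≤ 4 * M ^ 3 / r + 6 * M ^ 2 := by
  have h1 : m ^ 2 * f ^ 2 ≤ M ^ 2 :=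
    (mul_le_of_le_one_right (by positivity) (pow_le_one₀ hf hf1)).trans (pow_le_pow_left₀ hm hM 2)
  have h2 : m ^ 3 * f ≤ M ^ 3 :=
    (mul_le_of_le_one_right (by positivity) hf1).trans (pow_le_pow_left₀ hm hM 3)
  have h3 : m ^ 2 * f ^ 2 * p ≤ m ^ 2 * f ^ 2 * 2 := mul_le_mul_of_nonneg_left hp (by positivity)
  have h4 : -(q / r ^ 2) ≤ 1 / r := by
    rw [← neg_div, div_le_div_iff₀ (by positivity) hr]
    nlinarith only [hr, hq]
  have h5 : m ^ 3 * f * -(q / r ^ 2) ≤ m ^ 3 * f * (1 / r) :=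
    mul_le_mul_of_nonneg_left h4 (by positivity)
  have h6 : m ^ 3 * f * (1 / r) ≤ M ^ 3 * (1 / r) := mul_le_mul_of_nonneg_right h2 (by positivity)
  have h7 : 4 * M ^ 3 / r = 4 * (M ^ 3 * (1 / r)) := by ring
  rw [h7]
  linarith

/-- `g = FEh * FEw^2` is `C^1` with support in `closedBall x r`, `0 ≤ g ≤ M^3` a.e.;  `g = g ⟪e,ν⟫ + g (1 - ⟪e,ν⟫)`;
`gauss` with `T = g • e`, `dv T = Dg e = 3 m^2 f^2 ⟪w,e⟫ - 4 m^3 f ⟪y-x,e⟫ / r^2 ≤ 6 M^2 + 4 M^3 / r` on `Ω ∩ ball ∩ {c < ⟪w,y⟫}`, and `= 0` off `ball ∩ {c < ⟪w,y⟫}`. -/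
theorem FE_vol {Ω : Set (R d)} (hΩ : MeasurableSet Ω) {x : R d} {r : ℝ} (hr : 0 < r)
    (hb : closedBall x r ⊆ lf Ω) {e w : R d} (he : ‖e‖ = 1) (hw : ‖w‖ ≤ 2) {c M a V : ℝ} (hM : 0 ≤ M)
    (ha : 0 ≤ a) (hV0 : 0 ≤ V) (h1 : ∀ y ∈ ball x r ∩ Ω, ⟪w, y⟫_ℝ - c ≤ M)
    (h2 : ∀ᵐ y ∂pm Ω, y ∈ ball x r → ⟪w, y⟫_ℝ - c ≤ M)
    (hE : ∫⁻ y in ball x r, ENNReal.ofReal (1 - ⟪e, (nu Ω y : R d)⟫_ℝ) ∂pm Ω ≤ ENNReal.ofReal a)
    (hV : volume (Ω ∩ ball x r ∩ {y | c < ⟪w, y⟫_ℝ}) ≤ ENNReal.ofReal V) :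
    ∫ y, FEh w c y * FEw x r y ^ 2 ∂pm Ω ≤ M ^ 3 * a + (4 * M ^ 3 / r + 6 * M ^ 2) * V := by
  set g : R d → ℝ := fun y => FEh w c y * FEw x r y ^ 2 with hg
  have hcd : ContDiff ℝ 1 g := FE4_cd x w r c
  have hg0 : ∀ y, y ∉ ball x r → g y = 0 := fun y hy => by simp [hg, FE4_w0 hr hy]
  have hg0' : ∀ y, y ∉ closedBall x r → g y = 0 := fun y hy =>
    hg0 y fun h => hy (ball_subset_closedBall h)
  have hK := isCompact_closedBall x r
  have hT : C1c (fun y => g y • e) (lf Ω) := by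
    refine ⟨hcd.smul contDiff_const, HasCompactSupport.intro hK fun y hy => by
      simp [hg0' y hy], ?_⟩
    refine (closure_minimal (fun y hy => ?_) isClosed_closedBall).trans hb
    by_contra h
    exact hy (by simp [hg0' y h])
  have hG := gauss Ω hT
  have hfin : pm Ω (closedBall x r) < ⊤ := pm_lt_top hK hb
  have hfin' : pm Ω (ball x r) < ⊤ := (measure_mono ball_subset_closedBall).trans_lt hfin
  set n : R d → ℝ := fun y => ⟪e, (nu Ω y : R d)⟫_ℝ with hn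
  have hnm : Measurable n :=
    (continuous_const.inner continuous_subtype_val).measurable.comp (measurable_nu Ω)
  have hnb : ∀ y, |n y| ≤ 1 := fun y => by
    have := abs_real_inner_le_norm e (nu Ω y : R d)
    rwa [he, one_mul, norm_eq_of_mem_sphere] at this
  have hgi : Integrable g (pm Ω) := by
    rw [← integrableOn_iff_integrable_of_support_subset (s := closedBall x r)
      (fun y hy => by_contra fun h => hy (hg0' y h))]
    obtain ⟨C, hC⟩ := hK.exists_bound_of_continuousOn hcd.continuous.continuousOn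
    exact Measure.integrableOn_of_bounded hfin.ne hcd.continuous.aestronglyMeasurable
      ((ae_restrict_iff' measurableSet_closedBall).mpr (Eventually.of_forall hC))
  have hgn : Integrable (fun y => g y * n y) (pm Ω) :=
    hgi.mul_bdd hnm.aestronglyMeasurable (Eventually.of_forall hnb)
  have hni : IntegrableOn (fun y => 1 - n y) (ball x r) (pm Ω) := by
    refine Measure.integrableOn_of_bounded (M := 2) hfin'.ne
      (measurable_const.sub hnm).aestronglyMeasurable (Eventually.of_forall fun y => ?_)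
    have := abs_le.mp (hnb y)
    rw [Real.norm_eq_abs, abs_le]
    constructor <;> linarith only [this.1, this.2]
  have hn0 : ∀ y, 0 ≤ 1 - n y := fun y => by linarith [(abs_le.mp (hnb y)).2]
  have e1 : ∫ y in ball x r, (1 - n y) ∂pm Ω ≤ a := by
    rw [integral_eq_lintegral_of_nonneg_ae (Eventually.of_forall hn0) hni.aestronglyMeasurable]
    exact ENNReal.toReal_le_of_le_ofReal ha hE
  have e2 : ∫ y, (g y - g y * n y) ∂pm Ω ≤ M ^ 3 * a := by
    have hi : Integrable ((ball x r).indicator fun y => M ^ 3 * (1 - n y)) (pm Ω) :=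
      (integrable_indicator_iff measurableSet_ball).mpr (hni.const_mul _)
    refine (integral_mono_ae (hgi.sub hgn) hi ?_).trans ?_
    · filter_upwards [h2] with y hy
      by_cases hy' : y ∈ ball x r
      · rw [indicator_of_mem hy']
        have hw1 := FE4_w1 x y r
        have : g y ≤ M ^ 3 := by
          refine (mul_le_of_le_one_right ?_ (pow_le_one₀ hw1.1 hw1.2)).trans ?_
          · exact pow_nonneg (le_max_right _ _) 3
          · exact pow_le_pow_left₀ (le_max_right _ _) (max_le (hy hy') hM) 3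
        have := mul_le_mul_of_nonneg_right this (hn0 y)
        simp only [Pi.sub_apply]
        linarith only [this]
      · rw [indicator_of_notMem hy']
        simp [hg0 y hy']
    · rw [integral_indicator measurableSet_ball, integral_const_mul]
      exact mul_le_mul_of_nonneg_left e1 (by positivity)
  have e3 : ∫ y, g y * n y ∂pm Ω = ∫ y in Ω, fderiv ℝ g y e := by
    simp only [FE4_dv hcd, real_inner_smul_left] at hG
    exact hG.symm
  have hK0 : 0 ≤ 4 * M ^ 3 / r + 6 * M ^ 2 := by positivity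
  have e4 : ∫ y in Ω, fderiv ℝ g y e ≤ (4 * M ^ 3 / r + 6 * M ^ 2) * V := by
    by_cases hi : Integrable (fun y => fderiv ℝ g y e) (volume.restrict Ω)
    swap
    · rw [integral_undef hi]; positivity
    set A : Set (R d) := ball x r ∩ {y | c < ⟪w, y⟫_ℝ} with hA
    have hAm : MeasurableSet A :=
      measurableSet_ball.inter (isOpen_lt continuous_const (by fun_prop)).measurableSet
    have hAV : volume.restrict Ω A ≤ ENNReal.ofReal V := by
      rw [Measure.restrict_apply hAm, inter_comm, hA, ← inter_assoc]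
      exact hV
    have hi' : Integrable (A.indicator fun _ => 4 * M ^ 3 / r + 6 * M ^ 2) (volume.restrict Ω) :=
      (integrable_indicator_iff hAm).mpr
        (integrableOn_const (hAV.trans_lt ENNReal.ofReal_lt_top).ne)
    refine (integral_mono_ae hi hi' ?_).trans ?_
    · rw [EventuallyLE, ae_restrict_iff' hΩ]
      refine Eventually.of_forall fun y hy => ?_
      rw [hg, FE4_fd]
      by_cases hy' : y ∈ A
      · rw [indicator_of_mem hy']
        have hw1 := FE4_w1 x y r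
        refine FE4_bd hr (le_max_right _ _) (max_le (h1 y ⟨hy'.1, hy⟩) hM) hw1.1 hw1.2 ?_ ?_
        · have := real_inner_le_norm w e
          rw [he, mul_one] at this
          linarith only [hw, this]
        · have := (abs_le.mp (abs_real_inner_le_norm (y - x) e)).1
          have h3 := hy'.1
          rw [mem_ball, dist_eq_norm] at h3
          rw [he, mul_one] at this
          linarith only [this, h3]
      · rw [indicator_of_notMem hy']
        by_cases hy1 : y ∈ ball x r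
        · have : ⟪w, y⟫_ℝ - c ≤ 0 := by
            by_contra h
            exact hy' ⟨hy1, by show c < ⟪w, y⟫_ℝ; linarith only [h]⟩
          simp only [max_eq_right this, ne_eq, OfNat.ofNat_ne_zero, not_false_eq_true, zero_pow, mul_zero, zero_mul, sub_self, Std.le_refl]
        · simp only [FE4_w0 hr hy1, ne_eq, OfNat.ofNat_ne_zero, not_false_eq_true, zero_pow, mul_zero, zero_mul, sub_self, Std.le_refl]
    · rw [integral_indicator hAm, setIntegral_const, smul_eq_mul, mul_comm]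
      exact mul_le_mul_of_nonneg_left (ENNReal.toReal_le_of_le_ofReal hV0 hAV) hK0
  rw [integral_sub hgi hgn] at e2
  linarith only [e2, e3, e4]
end FE4

section FE5
theorem FE_colU_meas {Ω : Set (R d)} (hΩ : MeasurableSet Ω) (ε : ℝ) : Measurable (colU Ω ε) := by
  have hS : MeasurableSet {q : E d × ℝ | q.2 ∈ Icc (-ε) ε ∧ mk q.1 q.2 ∈ Ω} :=
    (measurable_snd measurableSet_Icc).inter (FE_continuous_mk.measurable hΩ)
  exact (measurable_measure_prodMk_left (ν := (volume : Measure ℝ)) hS).ennreal_toReal.sub_const ε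

theorem FE5_le (Ω : Set (R d)) (ε : ℝ) (z : E d) :
    volume {t : ℝ | t ∈ Icc (-ε) ε ∧ mk z t ∈ Ω} ≤ ENNReal.ofReal (ε - -ε) := by
  rw [← Real.volume_Icc]
  exact measure_mono fun t ht => ht.1

theorem FE5_ne (Ω : Set (R d)) (ε : ℝ) (z : E d) :
    volume {t : ℝ | t ∈ Icc (-ε) ε ∧ mk z t ∈ Ω} ≠ ⊤ :=
  ((FE5_le Ω ε z).trans_lt ENNReal.ofReal_lt_top).ne

theorem FE_colU_abs (Ω : Set (R d)) {ε : ℝ} (hε : 0 ≤ ε) (z : E d) : |colU Ω ε z| ≤ ε := by
  have h1 := ENNReal.toReal_le_of_le_ofReal (by linarith) (FE5_le Ω ε z)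
  have h2 := ENNReal.toReal_nonneg (a := volume {t : ℝ | t ∈ Icc (-ε) ε ∧ mk z t ∈ Ω})
  unfold colU
  rw [abs_le]
  constructor <;> linarith

/-- `{t' ∈ Icc (-ε) ε, in Ω} ⊆ Icc (-ε) t ∪ (t + {s ∈ Ioc 0 (2ε) | ..})` -/
theorem FE_col_up {Ω : Set (R d)} {ε : ℝ} (hε : 0 < ε) (z : E d) {t : ℝ} (ht : -ε ≤ t) :
    ENNReal.ofReal (colU Ω ε z - t) ≤ volume {s : ℝ | s ∈ Ioc 0 (2 * ε) ∧ mk z (t + s) ∈ Ω} := by
  have e1 : colU Ω ε z - t =
      (volume {t : ℝ | t ∈ Icc (-ε) ε ∧ mk z t ∈ Ω}).toReal - (t - -ε) := by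
    unfold colU
    ring
  rw [e1, ENNReal.ofReal_sub _ (by linarith), ENNReal.ofReal_toReal (FE5_ne Ω ε z),
    tsub_le_iff_left, ← Real.volume_Icc,
    ← measure_preimage_add volume (-t) {s : ℝ | s ∈ Ioc 0 (2 * ε) ∧ mk z (t + s) ∈ Ω}]
  refine (measure_mono ?_).trans (measure_union_le _ _)
  rintro t' ⟨⟨h1, h2⟩, h3⟩
  rcases le_or_gt t' t with h | h
  · exact Or.inl ⟨h1, h⟩
  · refine Or.inr ⟨⟨by linarith, by linarith⟩, ?_⟩
    have e2 : t + (-t + t') = t' := by ring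
    rw [e2]
    exact h3

/-- `Ico (-ε) t ⊆ {t' ∈ Icc (-ε) ε, in Ω} ∪ (t - {s ∈ Ioc 0 (2ε) | ..})` -/
theorem FE_col_down {Ω : Set (R d)} {ε : ℝ} (hε : 0 < ε) (z : E d) {t : ℝ} (ht : t ≤ ε) :
    ENNReal.ofReal (t - colU Ω ε z) ≤ volume {s : ℝ | s ∈ Ioc 0 (2 * ε) ∧ mk z (t - s) ∉ Ω} := by
  have e1 : t - colU Ω ε z =
      (t - -ε) - (volume {t : ℝ | t ∈ Icc (-ε) ε ∧ mk z t ∈ Ω}).toReal := by
    unfold colU
    ring
  have e3 := (Measure.measurePreserving_sub_left (volume : Measure ℝ) t).measure_preimage_emb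
    (MeasurableEquiv.subLeft t).measurableEmbedding
    {s : ℝ | s ∈ Ioc 0 (2 * ε) ∧ mk z (t - s) ∉ Ω}
  rw [e1, ENNReal.ofReal_sub _ ENNReal.toReal_nonneg, ENNReal.ofReal_toReal (FE5_ne Ω ε z),
    tsub_le_iff_left, ← Real.volume_Ico, ← e3]
  refine (measure_mono ?_).trans (measure_union_le _ _)
  rintro t' ⟨h1, h2⟩
  by_cases h : mk z t' ∈ Ω
  · exact Or.inl ⟨⟨h1, by linarith only [ht, h2]⟩, h⟩
  · refine Or.inr ⟨⟨by linarith only [h2], by linarith⟩, ?_⟩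
    have e2 : t - (t - t') = t' := by ring
    rw [e2]
    exact h

/-- Tonelli. -/
theorem FE_tonelli {A G : Set (R d)} (hA : MeasurableSet A) (hG : MeasurableSet G) {k : E d → ℝ≥0∞}
    (hk : Measurable k) {I : Set ℝ} (hI : MeasurableSet I) (σ : ℝ) {α β : ℝ≥0∞}
    (h1 : ∀ x ∈ A, α ≤ ∫⁻ z, k z * volume {s : ℝ | s ∈ I ∧ x + mk z (σ * s) ∈ G})
    (h2 : ∀ z, k z ≠ 0 → ∀ s ∈ I, volume {x | x ∈ A ∧ x + mk z (σ * s) ∈ G} ≤ β) :
    α * volume A ≤ (∫⁻ z, k z) * volume I * β := by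
  have hm : Measurable fun q : (R d × E d) × ℝ => q.1.1 + mk q.1.2 (σ * q.2) :=
    (Continuous.add (continuous_fst.comp continuous_fst)
      (FE_continuous_mk.comp ((continuous_snd.comp continuous_fst).prodMk
        (continuous_const.mul continuous_snd)))).measurable
  have hT : MeasurableSet
      {q : (R d × E d) × ℝ | q.1.1 ∈ A ∧ q.2 ∈ I ∧ q.1.1 + mk q.1.2 (σ * q.2) ∈ G} :=
    ((measurable_fst.comp measurable_fst) hA).inter ((measurable_snd hI).inter (hm hG))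
  have hf : Measurable fun q : R d × E d =>
      volume {s : ℝ | q.1 ∈ A ∧ s ∈ I ∧ q.1 + mk q.2 (σ * s) ∈ G} :=
    measurable_measure_prodMk_left (ν := (volume : Measure ℝ)) hT
  have hz : ∀ z, k z ≠ 0 →
      ∫⁻ x, volume {s : ℝ | x ∈ A ∧ s ∈ I ∧ x + mk z (σ * s) ∈ G} ≤ volume I * β := by
    intro z hz
    have hS : MeasurableSet {q : R d × ℝ | q.1 ∈ A ∧ q.2 ∈ I ∧ q.1 + mk z (σ * q.2) ∈ G} :=
      ((measurable_fst.prodMk measurable_const).prodMk measurable_snd :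
        Measurable fun q : R d × ℝ => ((q.1, z), q.2)) hT
    have e1 := Measure.prod_apply (μ := (volume : Measure (R d))) (ν := (volume : Measure ℝ)) hS
    have e2 := Measure.prod_apply_symm (μ := (volume : Measure (R d)))
      (ν := (volume : Measure ℝ)) hS
    refine (le_of_eq (e1.symm.trans e2)).trans ?_
    rw [mul_comm, ← lintegral_indicator_const hI]
    refine lintegral_mono fun s => ?_
    by_cases hs : s ∈ I
    · rw [indicator_of_mem hs]
      refine le_trans (measure_mono fun x hx => ?_) (h2 z hz s hs)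
      exact ⟨hx.1, hx.2.2⟩
    · rw [indicator_of_notMem hs]
      refine (measure_mono (t := ∅) fun x hx => hs hx.2.1).trans ?_
      simp
  calc α * volume A = ∫⁻ _ in A, α := (setLIntegral_const A α).symm
    _ ≤ ∫⁻ x in A, ∫⁻ z, k z * volume {s : ℝ | x ∈ A ∧ s ∈ I ∧ x + mk z (σ * s) ∈ G} := by
        refine setLIntegral_mono' hA fun x hx => (h1 x hx).trans (le_of_eq ?_)
        simp only [hx, true_and]
    _ ≤ ∫⁻ x, ∫⁻ z, k z * volume {s : ℝ | x ∈ A ∧ s ∈ I ∧ x + mk z (σ * s) ∈ G} :=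
        setLIntegral_le_lintegral _ _
    _ = ∫⁻ z, ∫⁻ x, k z * volume {s : ℝ | x ∈ A ∧ s ∈ I ∧ x + mk z (σ * s) ∈ G} :=
        lintegral_lintegral_swap ((hk.comp measurable_snd).mul hf).aemeasurable
    _ ≤ ∫⁻ z, k z * (volume I * β) := by
        refine lintegral_mono fun z => ?_
        have hfz : Measurable fun x : R d =>
            volume {s : ℝ | x ∈ A ∧ s ∈ I ∧ x + mk z (σ * s) ∈ G} :=
          hf.comp (measurable_id.prodMk measurable_const : Measurable fun x : R d => (x, z))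
        rw [lintegral_const_mul _ hfz]
        by_cases h0 : k z = 0
        · simp [h0]
        · exact mul_le_mul_right (hz z h0) _
    _ = (∫⁻ z, k z) * volume I * β := by rw [lintegral_mul_const _ hk, mul_assoc]
end FE5

section FE6a
theorem FE6a_int {Ω : Set (R d)} {ε Λ e c : ℝ} (h : Sl Ω ε Λ e c) (he : 0 ≤ e) {T s : ℝ} (hT0 : 0 ≤ T)
    (hT : ∫⁻ x in Cz d, ‖pr (nu Ω x : R d)‖ₑ ∂pm Ω ≤ ENNReal.ofReal T) {z : E d}
    (hz : ‖z‖ ≤ s) {τ : ℝ} (hτ : τ ∈ Ioc 0 (2 * ε)) :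
    ∫⁻ x in Cz d, ENNReal.ofReal (⟪z, pr (nu Ω x : R d)⟫_ℝ - τ * ht (nu Ω x : R d)) ∂pm Ω ≤
      ENNReal.ofReal (s * T + 2 * ε * e) := by
  have hs : 0 ≤ s := (norm_nonneg _).trans hz
  have hε := h.pos
  have hm : Measurable fun p : R d × S d => ENNReal.ofReal (1 - ht (p.2 : R d)) :=
    (measurable_const.sub (FE_contDiff_ht.continuous.measurable.comp
      (measurable_subtype_coe.comp measurable_snd))).ennreal_ofReal
  have h1 : ∫⁻ x in Cz d, ENNReal.ofReal (1 - ht (nu Ω x : R d)) ∂pm Ω ≤ ENNReal.ofReal e :=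
    (lintegral_mono_set FE_Cz_subset).trans ((FE_lint_vf Ω (Cy d) hm).symm.trans_le h.exc)
  calc _ ≤ ∫⁻ x in Cz d, (ENNReal.ofReal s * ‖pr (nu Ω x : R d)‖ₑ +
        ENNReal.ofReal (2 * ε) * ENNReal.ofReal (1 - ht (nu Ω x : R d))) ∂pm Ω := by
        refine lintegral_mono fun x => ?_
        have h2 : ht (nu Ω x : R d) ≤ 1 :=
          (le_abs_self _).trans ((FE_abs_ht_le _).trans_eq (norm_eq_of_mem_sphere _))
        have h3 := (real_inner_le_norm z (pr (nu Ω x : R d))).trans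
          (mul_le_mul_of_nonneg_right hz (norm_nonneg _))
        rw [← ofReal_norm, ← ENNReal.ofReal_mul hs, ← ENNReal.ofReal_mul (by positivity)]
        refine (ENNReal.ofReal_le_ofReal ?_).trans ENNReal.ofReal_add_le
        linarith only [hτ.1, mul_le_mul_of_nonneg_right hτ.2 (sub_nonneg.2 h2), h3]
    _ = ENNReal.ofReal s * ∫⁻ x in Cz d, ‖pr (nu Ω x : R d)‖ₑ ∂pm Ω +
        ENNReal.ofReal (2 * ε) * ∫⁻ x in Cz d, ENNReal.ofReal (1 - ht (nu Ω x : R d)) ∂pm Ω := by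
        have h2 : Measurable fun x => ENNReal.ofReal (1 - ht (nu Ω x : R d)) :=
          hm.comp (measurable_id.prodMk (measurable_nu Ω))
        rw [lintegral_add_right _ (h2.const_mul _),
          lintegral_const_mul' _ _ ENNReal.ofReal_ne_top, lintegral_const_mul' _ _ ENNReal.ofReal_ne_top]
    _ ≤ ENNReal.ofReal s * ENNReal.ofReal T + ENNReal.ofReal (2 * ε) * ENNReal.ofReal e := by gcongr
    _ = _ := by
        rw [← ENNReal.ofReal_mul hs, ← ENNReal.ofReal_mul (by positivity),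
          ← ENNReal.ofReal_add (by positivity) (by positivity)]

theorem FE6a_seg {x : R d} {z : E d} {τ : ℝ} (hx : pr x ∈ ball (0 : E d) 1) (hz : ‖z‖ ≤ 1)
    (h1 : |ht x| < 1) (h2 : |ht x + τ| < 1) : segment ℝ x (x + mk z τ) ⊆ Cz d := by
  rw [mem_ball_zero_iff] at hx
  refine (FE_convex_cyl 0 2 0 1).segment_subset ⟨mem_ball_zero_iff.2 (by linarith), by simpa using h1⟩
    ⟨mem_ball_zero_iff.2 ?_, by simpa [FE_ht_add] using h2⟩
  rw [FE_pr_add, pr_mk]
  linarith [norm_add_le (pr x) z]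

/-- `transl` in `U = Cz d` (convex; both end points lie in the slab `|ht| ≤ ε` by `lo`, `hi`, and `‖pr‖ < 2`),
`-⟪h,ν⟫ ≤ s ‖pr ν‖ + 2 ε (1 - ht ν)` for `h = mk z τ`. -/
theorem FE_tr_up {Ω : Set (R d)} {ε Λ e c : ℝ} (h : Sl Ω ε Λ e c) (he : 0 ≤ e) {T s : ℝ} (hT0 : 0 ≤ T)
    (hT : ∫⁻ x in Cz d, ‖pr (nu Ω x : R d)‖ₑ ∂pm Ω ≤ ENNReal.ofReal T) (hs : s ≤ 1) {z : E d}
    (hz : ‖z‖ ≤ s) {τ : ℝ} (hτ : τ ∈ Ioc 0 (2 * ε)) :
    volume {x : R d | pr x ∈ ball 0 1 ∧ x ∉ Ω ∧ x + mk z τ ∈ Ω} ≤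
      ENNReal.ofReal (s * T + 2 * ε * e) := by
  refine le_trans (measure_mono fun x hx => ?_) ((transl h.meas (FE_isOpen_cyl 0 2 0 1)
    (FE_Cz_subset.trans h.fin) (mk z τ)).trans (le_trans (le_of_eq ?_)
      (FE6a_int h he hT0 hT (z := -z) (by rwa [norm_neg]) hτ)))
  · have h1 := not_lt.1 fun h' => hx.2.1 (h.lo x h')
    have h2 := h.hi _ hx.2.2
    rw [FE_ht_add, ht_mk] at h2
    refine ⟨FE6a_seg hx.1 (hz.trans hs) (abs_lt.2 ⟨?_, ?_⟩) (abs_lt.2 ⟨?_, ?_⟩), hx.2⟩ <;>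
      linarith [h.small, hτ.1]
  · simp only [inner_coord, pr_mk, ht_mk, inner_neg_left, neg_add', Cz]

/-- the same for the complement (`transl` for `Ωᶜ`, `FE_nu_compl`, `pm_compl`), `h = mk z (-τ)` -/
theorem FE_tr_down {Ω : Set (R d)} {ε Λ e c : ℝ} (h : Sl Ω ε Λ e c) (he : 0 ≤ e) {T s : ℝ} (hT0 : 0 ≤ T)
    (hT : ∫⁻ x in Cz d, ‖pr (nu Ω x : R d)‖ₑ ∂pm Ω ≤ ENNReal.ofReal T) (hs : s ≤ 1) {z : E d}
    (hz : ‖z‖ ≤ s) {τ : ℝ} (hτ : τ ∈ Ioc 0 (2 * ε)) :
    volume {x : R d | pr x ∈ ball 0 1 ∧ x ∈ Ω ∧ x + mk z (-τ) ∉ Ω} ≤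
      ENNReal.ofReal (s * T + 2 * ε * e) := by
  have hl := FE_Cz_subset.trans h.fin
  refine le_trans (measure_mono fun x hx => ?_) ((transl h.meas.compl (FE_isOpen_cyl 0 2 0 1)
    (hl.trans_eq (FE_lf_compl h.meas).symm) (mk z (-τ))).trans (le_trans (le_of_eq ?_)
      (FE6a_int h he hT0 hT hz hτ)))
  · have h1 := not_lt.1 fun h' => hx.2.2 (h.lo _ h')
    have h2 := h.hi _ hx.2.1
    rw [FE_ht_add, ht_mk] at h1
    refine ⟨FE6a_seg hx.1 (hz.trans hs) (abs_lt.2 ⟨?_, ?_⟩) (abs_lt.2 ⟨?_, ?_⟩),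
      not_not.2 hx.2.1, hx.2.2⟩ <;> linarith only [h.small, hτ.1, h1, h2]
  · rw [pm_compl h.meas]
    refine lintegral_congr_ae ((FE_nu_compl h.meas (FE_isOpen_cyl 0 2 0 1) hl).mono fun x hx => ?_)
    simp only [hx, inner_neg_right, neg_neg, inner_coord, pr_mk, ht_mk, neg_mul, sub_eq_add_neg]
end FE6a

section FE6
theorem FE6_avg {k f : E d → ℝ} (hki : Integrable k) (hk0 : ∀ y, 0 ≤ k y) (hf : Measurable f)
    {M a : ℝ} (hM : ∀ z, |f z| ≤ M) (ha : a ≤ ∫ z, k z * f z) :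
    ENNReal.ofReal a ≤ ∫⁻ z, ENNReal.ofReal (k z) * ENNReal.ofReal (f z) := by
  have hi : Integrable fun z => k z * f z :=
    hki.mul_bdd hf.aestronglyMeasurable (c := M)
      (Eventually.of_forall fun z => by simpa [Real.norm_eq_abs] using hM z)
  have hp : Integrable fun z => max (k z * f z) 0 := hi.pos_part
  have h1 : a ≤ ∫ z, max (k z * f z) 0 :=
    ha.trans (integral_mono hi hp fun z => le_max_left _ _)
  calc ENNReal.ofReal a ≤ ENNReal.ofReal (∫ z, max (k z * f z) 0) := ENNReal.ofReal_le_ofReal h1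
    _ = ∫⁻ z, ENNReal.ofReal (max (k z * f z) 0) :=
        ofReal_integral_eq_lintegral_ofReal hp (Eventually.of_forall fun z => le_max_right _ _)
    _ = ∫⁻ z, ENNReal.ofReal (k z) * ENNReal.ofReal (f z) := by
        refine lintegral_congr fun z => ?_
        rw [← ENNReal.ofReal_mul (hk0 z)]
        rcases le_total (k z * f z) 0 with h | h
        · rw [max_eq_right h, ENNReal.ofReal_zero, ENNReal.ofReal_of_nonpos h]
        · rw [max_eq_left h]

theorem FE6_shift {k u : E d → ℝ} (hki : Integrable k) (hk1 : ∫ y, k y = 1) (hu : Measurable u)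
    {M : ℝ} (hM : ∀ z, |u z| ≤ M) (t : ℝ) :
    ∫ z, k z * (u z - t) = (∫ z, k z * u z) - t := by
  have hi : Integrable fun z => k z * u z :=
    hki.mul_bdd hu.aestronglyMeasurable (c := M)
      (Eventually.of_forall fun z => by simpa [Real.norm_eq_abs] using hM z)
  have e : (fun z => k z * (u z - t)) = fun z => k z * u z - k z * t := by
    funext z; ring
  rw [e, integral_sub hi (hki.mul_const t), integral_mul_const, hk1, one_mul]

theorem FE6_add (x : R d) (z : E d) (τ : ℝ) : x + mk z τ = mk (pr x + z) (ht x + τ) := by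
  rw [← FE_mk_add, mk_pr_ht]

theorem FE6_div {a ε β : ℝ} (ha : 0 < a) (hε : 0 < ε) {v : ℝ≥0∞}
    (h : ENNReal.ofReal a * v ≤ 1 * ENNReal.ofReal (2 * ε) * ENNReal.ofReal β) :
    v ≤ ENNReal.ofReal (2 * ε * β / a) := by
  rw [ENNReal.ofReal_div_of_pos ha, ENNReal.ofReal_mul (by positivity),
    ENNReal.le_div_iff_mul_le (Or.inl (by simpa using ha)) (Or.inl ENNReal.ofReal_ne_top), mul_comm]
  simpa only [Nat.ofNat_nonneg, ENNReal.ofReal_mul, ENNReal.ofReal_ofNat, one_mul] using h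

/-- `FE_tonelli` with `G = Ω`, `σ = 1` (resp. `G = Ωᶜ`, `σ = -1`), `I = Ioc 0 (2ε)`, `α = ofReal a`:
`a ≤ ∫ k z (u (y+z) - t) ≤ ∫ k z (u (y+z) - t)_+`, then `FE_col_up` (`x ∉ Ω` gives `-ε ≤ ht x`). -/
theorem FE_pairs {Ω : Set (R d)} {ε Λ e c : ℝ} (h : Sl Ω ε Λ e c) (he : 0 ≤ e) {T s a : ℝ} (hT0 : 0 ≤ T)
    (hT : ∫⁻ x in Cz d, ‖pr (nu Ω x : R d)‖ₑ ∂pm Ω ≤ ENNReal.ofReal T) (hs0 : 0 < s) (hs : s ≤ 1)
    (ha : 0 < a) {k : E d → ℝ} (hk : Continuous k) (hk0 : ∀ y, 0 ≤ k y) (hks : ∀ y, s ≤ ‖y‖ → k y = 0)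
    (hk1 : ∫ y, k y = 1) {A : Set (R d)} (hA : MeasurableSet A) (hA1 : ∀ x ∈ A, pr x ∈ ball 0 1)
    (hA2 : (∀ x ∈ A, x ∉ Ω ∧ a ≤ (∫ z, k z * colU Ω ε (pr x + z)) - ht x) ∨
      (∀ x ∈ A, x ∈ Ω ∧ a ≤ ht x - ∫ z, k z * colU Ω ε (pr x + z))) :
    volume A ≤ ENNReal.ofReal (2 * ε * (s * T + 2 * ε * e) / a) := by
  have hε := h.pos
  have hki : Integrable k := Integrable.of_integral_ne_zero (by rw [hk1]; exact one_ne_zero)
  have hkm : Measurable fun z => ENNReal.ofReal (k z) := hk.measurable.ennreal_ofReal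
  have hkI : ∫⁻ z, ENNReal.ofReal (k z) = 1 := by
    rw [← ofReal_integral_eq_lintegral_ofReal hki (Eventually.of_forall hk0), hk1,
      ENNReal.ofReal_one]
  have hI : volume (Ioc (0 : ℝ) (2 * ε)) = ENNReal.ofReal (2 * ε) := by
    rw [Real.volume_Ioc, sub_zero]
  have hz : ∀ z, ENNReal.ofReal (k z) ≠ 0 → ‖z‖ ≤ s := by
    intro z hz
    by_contra hc
    exact hz (by rw [hks z (le_of_lt (not_le.1 hc)), ENNReal.ofReal_zero])
  have hum : ∀ y : E d, Measurable fun z => colU Ω ε (y + z) := fun y =>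
    (FE_colU_meas h.meas ε).comp (measurable_const_add y)
  have hub : ∀ y z : E d, |colU Ω ε (y + z)| ≤ ε := fun y z => FE_colU_abs Ω hε.le _
  apply FE6_div ha hε
  rw [← hkI, ← hI]
  rcases hA2 with hA2 | hA2
  · refine FE_tonelli hA h.meas hkm measurableSet_Ioc 1 (fun x hx => ?_) (fun z hz0 τ hτ => ?_)
    · obtain ⟨hxΩ, hxa⟩ := hA2 x hx
      have hlo : -ε ≤ ht x := by
        by_contra hc
        exact hxΩ (h.lo x (not_le.1 hc))
      rw [← FE6_shift hki hk1 (hum (pr x)) (hub (pr x))] at hxa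
      refine (FE6_avg hki hk0 ((hum (pr x)).sub_const (ht x)) (M := ε + |ht x|)
        (fun z => (abs_sub _ _).trans (by linarith [hub (pr x) z])) hxa).trans
        (lintegral_mono fun z => ?_)
      refine mul_le_mul_right ((FE_col_up hε (pr x + z) hlo).trans (le_of_eq ?_)) _
      congr 1
      ext τ
      simp only [mem_ofPred_eq, FE6_add, one_mul]
    · refine le_trans (measure_mono ?_) (FE_tr_up h he hT0 hT hs (hz z hz0) hτ)
      rintro x ⟨hx, hx'⟩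
      rw [one_mul] at hx'
      exact ⟨hA1 x hx, (hA2 x hx).1, hx'⟩
  · refine FE_tonelli hA h.meas.compl hkm measurableSet_Ioc (-1) (fun x hx => ?_)
      (fun z hz0 τ hτ => ?_)
    · obtain ⟨hxΩ, hxa⟩ := hA2 x hx
      have hhi : ht x ≤ ε := h.hi x hxΩ
      have e1 : ∫ z, k z * (ht x - colU Ω ε (pr x + z)) =
          ht x - ∫ z, k z * colU Ω ε (pr x + z) := by
        have e2 := FE6_shift hki hk1 (hum (pr x)) (hub (pr x)) (ht x)
        have e3 : (fun z => k z * (ht x - colU Ω ε (pr x + z))) =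
            fun z => -(k z * (colU Ω ε (pr x + z) - ht x)) := by
          funext z; ring
        rw [e3, integral_neg, e2]; ring
      rw [← e1] at hxa
      refine (FE6_avg hki hk0 ((hum (pr x)).const_sub (ht x)) (M := |ht x| + ε)
        (fun z => (abs_sub _ _).trans (by linarith only [hub (pr x) z])) hxa).trans
        (lintegral_mono fun z => ?_)
      refine mul_le_mul_right ((FE_col_down hε (pr x + z) hhi).trans (le_of_eq ?_)) _
      congr 1
      ext τ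
      simp only [mem_ofPred_eq, FE6_add, neg_mul, one_mul, mem_compl_iff, sub_eq_add_neg]
    · refine le_trans (measure_mono ?_) (FE_tr_down h he hT0 hT hs (hz z hz0) hτ)
      rintro x ⟨hx, hx'⟩
      rw [neg_mul, one_mul] at hx'
      exact ⟨hA1 x hx, (hA2 x hx).1, hx'⟩
end FE6

section FE7a
theorem FE7a_int {F : Type} [NormedAddCommGroup F] [NormedSpace ℝ F] {f : E d → F}
    (hf : Integrable f) {u : E d → ℝ} {ε : ℝ} (hu : Measurable u) (hb : ∀ y, |u y| ≤ ε) :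
    Integrable (fun z => u z • f z) ∧ ‖∫ z, u z • f z‖ ≤ (∫ z, ‖f z‖) * ε := by
  have hle : ∀ z, ‖u z • f z‖ ≤ ‖f z‖ * ε := fun z => by
    rw [norm_smul, mul_comm]
    exact mul_le_mul_of_nonneg_left (hb z) (norm_nonneg _)
  refine ⟨(hf.norm.mul_const ε).mono' (hu.aestronglyMeasurable.smul hf.aestronglyMeasurable)
    (Eventually.of_forall hle), ?_⟩
  rw [← integral_mul_const]
  exact norm_integral_le_of_norm_le (hf.norm.mul_const ε) (Eventually.of_forall hle)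

theorem FE7a_taylor {ρ : E d → ℝ} (hρ : Differentiable ℝ ρ) {K : NNReal}
    (hK : LipschitzWith K (fderiv ℝ ρ)) (z y : E d) :
    |ρ (z - y) - ρ z + fderiv ℝ ρ z y| ≤ K * ‖y‖ ^ 2 := by
  have h := (convex_closedBall z ‖y‖).norm_image_sub_le_of_norm_fderiv_le' (f := ρ)
    (φ := fderiv ℝ ρ z) (C := K * ‖y‖) (x := z) (y := z - y) (fun x _ => hρ x)
    (fun x hx => by
      rw [← dist_eq_norm]
      exact (hK.dist_le_mul x z).trans
        (mul_le_mul_of_nonneg_left (mem_closedBall.1 hx) K.coe_nonneg))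
    (mem_closedBall_self (norm_nonneg _)) (by simp [mem_closedBall, dist_eq_norm])
  have e : z - y - z = -y := by abel
  rw [e, map_neg, norm_neg, sub_neg_eq_add, Real.norm_eq_abs] at h
  calc _ ≤ K * ‖y‖ * ‖y‖ := h
    _ = K * ‖y‖ ^ 2 := by ring

/-- Taylor: `ρ (z - y) - ρ z + Dρ z y = O(|y|^2)`, zero for `‖z‖ ≥ 2`, `‖y‖ ≤ 1`; `c₀ = ∫ u ρ`, `⟪g,y⟫ = -∫ u z * Dρ z y`
(e.g. `g = -∫ u z • gradient ρ z`, or coordinates). -/
theorem FE_taylor {ρ : E d → ℝ} (hρ : ContDiff ℝ ∞ ρ) (h1 : ∀ y, 1 ≤ ‖y‖ → ρ y = 0) :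
    ∃ C > 0, ∀ (u : E d → ℝ) (ε : ℝ), Measurable u → (∀ y, |u y| ≤ ε) →
      ∃ (c₀ : ℝ) (g : E d), |c₀| ≤ C * ε ∧ ‖g‖ ≤ C * ε ∧ ∀ y ∈ ball (0 : E d) 1,
        |(∫ z, u z * ρ (z - y)) - c₀ - ⟪g, y⟫_ℝ| ≤ C * ε * ‖y‖ ^ 2 := by
  have hc : HasCompactSupport ρ := HasCompactSupport.intro (isCompact_closedBall (0 : E d) 1)
    fun x hx => h1 x (le_of_lt (by simpa only [mem_closedBall, dist_eq_norm, sub_zero, not_le] using hx))
  have hc' : HasCompactSupport (fderiv ℝ ρ) := hc.fderiv ℝ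
  have hd1 : ContDiff ℝ 1 (fderiv ℝ ρ) := hρ.fderiv_right (m := 1) (by norm_cast)
  obtain ⟨K, hK⟩ := hd1.lipschitzWith_of_hasCompactSupport hc' one_ne_zero
  have hdiff : Differentiable ℝ ρ := hρ.differentiable (by simp)
  have hi0 : Integrable ρ := hρ.continuous.integrable_of_hasCompactSupport hc
  have hi1 : Integrable (fderiv ℝ ρ) := hd1.continuous.integrable_of_hasCompactSupport hc'
  have hA : 0 ≤ ∫ z, ‖ρ z‖ := integral_nonneg fun z => norm_nonneg _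
  have hB : 0 ≤ ∫ z, ‖fderiv ℝ ρ z‖ := integral_nonneg fun z => norm_nonneg _
  have hV : 0 ≤ (K : ℝ) * volume.real (closedBall (0 : E d) 2) :=
    mul_nonneg K.coe_nonneg measureReal_nonneg
  refine ⟨(∫ z, ‖ρ z‖) + (∫ z, ‖fderiv ℝ ρ z‖) + K * volume.real (closedBall (0 : E d) 2) + 1,
    by linarith, fun u ε hu hb => ?_⟩
  have hε : 0 ≤ ε := (abs_nonneg _).trans (hb 0)
  obtain ⟨hu0, hn0⟩ := FE7a_int hi0 hu hb
  obtain ⟨hu1, hn1⟩ := FE7a_int hi1 hu hb
  refine ⟨∫ z, u z • ρ z, (InnerProductSpace.toDual ℝ (E d)).symm (-∫ z, u z • fderiv ℝ ρ z),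
    ?_, ?_, fun y hy => ?_⟩
  · refine le_trans (le_of_eq (Real.norm_eq_abs _).symm) (hn0.trans ?_)
    exact mul_le_mul_of_nonneg_right (by linarith) hε
  · rw [LinearIsometryEquiv.norm_map, norm_neg]
    exact hn1.trans (mul_le_mul_of_nonneg_right (by linarith) hε)
  · have hy1 : ‖y‖ < 1 := by simpa using hy
    have hiy : Integrable fun z => u z • ρ (z - y) := (FE7a_int (hi0.comp_sub_right y) hu hb).1
    have hu2 : Integrable fun z => (u z • fderiv ℝ ρ z) y := hu1.apply_continuousLinearMap y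
    have e1 : (∫ z, u z * ρ (z - y)) - (∫ z, u z • ρ z) -
        ⟪(InnerProductSpace.toDual ℝ (E d)).symm (-∫ z, u z • fderiv ℝ ρ z), y⟫_ℝ =
        ∫ z, u z * (ρ (z - y) - ρ z + fderiv ℝ ρ z y) := by
      rw [InnerProductSpace.toDual_symm_apply, ContinuousLinearMap.neg_apply, sub_neg_eq_add,
        ContinuousLinearMap.integral_apply hu1]
      have e2 : (∫ z, u z * ρ (z - y)) = ∫ z, u z • ρ (z - y) := rfl
      have hs : Integrable fun z => u z • ρ (z - y) - u z • ρ z := hiy.sub hu0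
      rw [e2, ← integral_sub hiy hu0, ← integral_add hs hu2]
      refine integral_congr_ae (Eventually.of_forall fun z => ?_)
      simp only [ContinuousLinearMap.smul_apply, smul_eq_mul, Pi.sub_apply]
      ring
    have hz : ∀ z, z ∉ closedBall (0 : E d) 2 → u z * (ρ (z - y) - ρ z + fderiv ℝ ρ z y) = 0 := by
      intro z hz
      have hz2 : 2 < ‖z‖ := by simpa [mem_closedBall, dist_eq_norm] using hz
      have a1 : ρ (z - y) = 0 := h1 _ (by linarith only [norm_sub_norm_le z y, hy1, hz2])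
      have a2 : ρ z = 0 := h1 _ (by linarith only [hz2])
      have a3 : fderiv ℝ ρ z = 0 := by
        have : ρ =ᶠ[𝓝 z] fun _ => 0 := by
          filter_upwards [(isOpen_lt continuous_const continuous_norm).mem_nhds
            (show (1 : ℝ) < ‖z‖ by linarith only [hz2])] with w hw
          exact h1 w (le_of_lt hw)
        rw [this.fderiv_eq, fderiv_fun_const]
        rfl
      rw [a1, a2, a3]
      simp
    rw [e1, ← setIntegral_eq_integral_of_forall_compl_eq_zero hz, ← Real.norm_eq_abs]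
    refine (norm_setIntegral_le_of_norm_le_const (C := ε * (K * ‖y‖ ^ 2))
      measure_closedBall_lt_top fun z _ => ?_).trans ?_
    · rw [norm_mul, Real.norm_eq_abs, Real.norm_eq_abs]
      exact mul_le_mul (hb z) (FE7a_taylor hdiff hK z y) (abs_nonneg _) hε
    · have e3 : ε * (K * ‖y‖ ^ 2) * volume.real (closedBall (0 : E d) 2) =
          (K * volume.real (closedBall (0 : E d) 2)) * (ε * ‖y‖ ^ 2) := by ring
      rw [e3, mul_assoc _ ε]
      exact mul_le_mul_of_nonneg_right (by linarith only [hA, hB]) (by positivity)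
end FE7a

section FE7
theorem FE7_int {f u : E d → ℝ} {ε : ℝ} (hf : Continuous f) (h1 : ∀ z, 1 ≤ ‖z‖ → f z = 0)
    (hu : Measurable u) (hb : ∀ y, |u y| ≤ ε) (y : E d) : Integrable fun z => u z * f (z - y) := by
  have h2 : Integrable fun z => f (z - y) := by
    refine Continuous.integrable_of_hasCompactSupport (by fun_prop) ?_
    refine HasCompactSupport.intro (isCompact_closedBall y 1) fun z hz => h1 _ ?_
    rw [mem_closedBall, dist_eq_norm, not_le] at hz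
    exact hz.le
  exact h2.bdd_mul hu.aestronglyMeasurable (Eventually.of_forall fun z => by simpa using hb z)

theorem FE7_grad (Γ : E d → ℝ) (y : E d) :
    gradient (fun z => Γ (z - y)) = fun z => gradient Γ (z - y) := by
  funext z
  unfold gradient
  rw [fderiv_comp_sub]

theorem FE7_dv (T : E d → E d) (y z : E d) : dv (fun z => T (z - y)) z = dv T (z - y) := by
  unfold dv
  rw [fderiv_comp_sub]

/-- `exists_kernel d`: `k s z = (s^d)⁻¹ ρ (s⁻¹ • z)`; test with `G z = Γ s 1 (z - y)` (tsupport in `closedBall y 1`):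
`∫ u z (ρ (z - y) - k s (z - y)) dz` is at most `C s⁻¹^(d-1) β`; translate (`integral_add_left_eq_self`); `FE_taylor`. -/
theorem FE_ah (hd : 1 ≤ d) : ∃ (k : ℝ → E d → ℝ) (C : ℝ), 0 < C ∧
    (∀ s, 0 < s → Continuous (k s) ∧ (∀ y, 0 ≤ k s y) ∧ (∀ y, s ≤ ‖y‖ → k s y = 0) ∧ ∫ y, k s y = 1) ∧
    ∀ (u : E d → ℝ) (ε β : ℝ), Measurable u → (∀ y, |u y| ≤ ε) → 0 ≤ β →
      (∀ (G : E d → ℝ) (M : ℝ), ContDiff ℝ ∞ G → tsupport G ⊆ ball 0 2 → (∀ y, ‖gradient G y‖ ≤ M) →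
        |∫ y, u y * dv (gradient G) y| ≤ M * β) →
      ∃ (c₀ : ℝ) (g : E d), |c₀| ≤ C * ε ∧ ‖g‖ ≤ C * ε ∧ ∀ s, 0 < s → s ≤ 1 → ∀ y ∈ ball (0 : E d) 1,
        |(∫ z, k s z * u (y + z)) - c₀ - ⟪g, y⟫_ℝ| ≤ C * ε * ‖y‖ ^ 2 + C * β * s⁻¹ ^ (d - 1) := by
  obtain ⟨ρ, Γ, C, hC, hρ, h0, h1, -, hint, hΓ⟩ := exists_kernel d hd
  obtain ⟨C', hC', hT⟩ := FE_taylor hρ h1
  have hρc := hρ.continuous
  have hk0 : ∀ s : ℝ, 0 < s → ∀ y : E d, s ≤ ‖y‖ → (s ^ d)⁻¹ * ρ (s⁻¹ • y) = 0 := by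
    intro s hs y hy
    rw [h1, mul_zero]
    rw [norm_smul, Real.norm_eq_abs, abs_of_pos (inv_pos.2 hs), ← div_eq_inv_mul, one_le_div hs]
    exact hy
  refine ⟨fun s z => (s ^ d)⁻¹ * ρ (s⁻¹ • z), max C C', lt_max_of_lt_left hC, fun s hs =>
    ⟨by fun_prop, fun y => mul_nonneg (by positivity) (h0 _), hk0 s hs, ?_⟩, ?_⟩
  · rw [integral_const_mul, Measure.integral_comp_inv_smul_of_nonneg _ _ hs.le, hint]
    simp only [finrank_euclideanSpace_fin, smul_eq_mul, mul_one]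
    exact inv_mul_cancel₀ (by positivity)
  intro u ε β hu hb hβ hG
  have hε : 0 ≤ ε := (abs_nonneg _).trans (hb 0)
  obtain ⟨c₀, g, hc₀, hg, hy⟩ := hT u ε hu hb
  have hm : C' * ε ≤ max C C' * ε := mul_le_mul_of_nonneg_right (le_max_right _ _) hε
  refine ⟨c₀, g, hc₀.trans hm, hg.trans hm, fun s hs hs1 y hy1 => ?_⟩
  obtain ⟨g1, g2, -, g4, g5, -⟩ := hΓ s 1 hs hs1
  have hsupp : tsupport (fun z => Γ s 1 (z - y)) ⊆ ball 0 2 := by
    refine (closure_minimal (t := closedBall y 1) (fun z hz => ?_) isClosed_closedBall).trans ?_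
    · by_contra hz'
      rw [mem_closedBall, dist_eq_norm, not_le] at hz'
      exact hz (g2 _ hz'.le)
    · refine closedBall_subset_ball' ?_
      have := mem_ball.1 hy1
      linarith only [this]
  have h2 := hG (fun z => Γ s 1 (z - y)) (C * s⁻¹ ^ (d - 1))
    (g1.comp (contDiff_id.sub contDiff_const)) hsupp (fun z => by rw [FE7_grad]; exact g5 _)
  rw [FE7_grad] at h2
  simp_rw [FE7_dv, g4, one_pow, inv_one, one_smul, one_mul, mul_sub] at h2
  rw [integral_sub (FE7_int hρc h1 hu hb y) (FE7_int (f := fun z => (s ^ d)⁻¹ * ρ (s⁻¹ • z))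
    (by fun_prop) (fun z hz => hk0 s hs z (hs1.trans hz)) hu hb y)] at h2
  have h3 : ∫ z, (s ^ d)⁻¹ * ρ (s⁻¹ • z) * u (y + z) =
      ∫ z, u z * ((s ^ d)⁻¹ * ρ (s⁻¹ • (z - y))) := by
    rw [← integral_sub_right_eq_self (fun z => (s ^ d)⁻¹ * ρ (s⁻¹ • z) * u (y + z)) y]
    congr 1
    funext z
    rw [add_sub_cancel, mul_comm]
  have h4 := hy y hy1
  have h5 : C' * ε * ‖y‖ ^ 2 ≤ max C C' * ε * ‖y‖ ^ 2 :=
    mul_le_mul_of_nonneg_right hm (by positivity)
  have h6 : C * s⁻¹ ^ (d - 1) * β ≤ max C C' * β * s⁻¹ ^ (d - 1) := by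
    rw [mul_right_comm]
    gcongr
    exact le_max_left _ _
  simp only []
  rw [h3]
  rw [abs_le] at h2 h4 ⊢
  constructor <;> linarith only [h2.1, h2.2, h4.1, h4.2, h5, h6]
end FE7

section FE8
theorem FE8_fd {n : ℕ} {Z : E n → E n} {U : Set (E n)} (hZ : C1c Z U) (v : E n) :
    Integrable fun y => fderiv ℝ Z y v :=
  ((hZ.1.continuous_fderiv one_ne_zero).clm_apply continuous_const).integrable_of_hasCompactSupport
    (hZ.2.1.fderiv_apply ℝ v)

theorem FE8_int {n : ℕ} {Z : E n → E n} {U : Set (E n)} (hZ : C1c Z U) : Integrable (dv Z) :=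
  integrable_finsetSum _ fun i _ =>
    (EuclideanSpace.proj (𝕜 := ℝ) i).integrable_comp (FE8_fd hZ _)

theorem FE_int_dv {n : ℕ} {Z : E n → E n} (hZ : C1c Z univ) : ∫ y, dv Z y = 0 := by
  have h : ∀ v, ∫ y, fderiv ℝ Z y v = 0 := fun v => by
    simpa using integral_smul_fderiv_eq_neg_fderiv_smul_of_integrable (μ := volume)
      (f := fun _ => (1 : ℝ)) (g := Z) (v := v) (by simp only [fderiv_fun_const, Pi.zero_apply, zero_apply, zero_smul, integrable_fun_zero]) (by simpa only [one_smul] using FE8_fd hZ v)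
      (by simpa using hZ.1.continuous.integrable_of_hasCompactSupport hZ.2.1)
      (fun _ _ => differentiableAt_const _) fun x _ => hZ.1.differentiable one_ne_zero x
  refine (integral_finsetSum _ fun i _ =>
    (EuclideanSpace.proj (𝕜 := ℝ) i).integrable_comp (FE8_fd hZ _)).trans
    (Finset.sum_eq_zero fun i _ => ?_)
  exact ((EuclideanSpace.proj (𝕜 := ℝ) i).integral_comp_comm (FE8_fd hZ _)).trans
    (by rw [h, map_zero])

/-- vertical cutoff -/
theorem FE_cut {a b : ℝ} (ha : 0 < a) (hab : a < b) : ∃ ψ : ℝ → ℝ, ContDiff ℝ ∞ ψ ∧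
    (∀ t, |t| ≤ a → ψ t = 1) ∧ (∀ t, |t| < a → deriv ψ t = 0) ∧ (∀ t, b ≤ |t| → ψ t = 0) := by
  let f : ContDiffBump (0 : ℝ) := ⟨a, b, ha, hab⟩
  refine ⟨f, f.contDiff, fun t h => f.one_of_mem_closedBall (mem_closedBall_zero_iff.2 h),
    fun t h => ?_, fun t h => f.zero_of_le_dist (h.trans_eq (dist_zero_right t).symm)⟩
  rw [(f.eventuallyEq_one_of_mem_ball (mem_ball_zero_iff.2 h)).deriv_eq]
  exact deriv_const _ _

theorem FE8_field {ψ : ℝ → ℝ} (hψ : ContDiff ℝ ∞ ψ) (h0 : ∀ t, 3 / 4 ≤ |t| → ψ t = 0)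
    {Z : E d → E d} (hZ : C1c Z (ball 0 2)) : C1c (fun x => ψ (ht x) • mk (Z (pr x)) 0) (Cz d) ∧
      ∀ x, dv (fun x => ψ (ht x) • mk (Z (pr x)) 0) x = ψ (ht x) * dv Z (pr x) := by
  obtain ⟨L, hL⟩ := exists_prL d
  obtain ⟨H, hH⟩ := exists_htL d
  obtain ⟨M, hM⟩ := exists_mkL d
  have h1 : ContDiff ℝ 1 ψ := hψ.of_le (by simp)
  have hs : tsupport (fun x => ψ (ht x) • mk (Z (pr x)) 0) ⊆
      M '' tsupport Z ×ˢ closedBall 0 (3 / 4) := closure_minimal (fun x hx =>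
    ⟨(pr x, ht x), ⟨subset_tsupport _ fun h => hx (by
      simp only [h, ← hM, Prod.mk_zero_zero, map_zero, smul_zero]),
      mem_closedBall_zero_iff.2 (not_lt.1 fun h => hx (by simp only [h0 _ h.le, zero_smul]))⟩,
      (hM _ _).trans (mk_pr_ht x)⟩)
    ((hZ.2.1.isCompact.prod (isCompact_closedBall _ _)).image M.continuous).isClosed
  refine ⟨⟨?_, ((hZ.2.1.isCompact.prod (isCompact_closedBall _ _)).image
    M.continuous).of_isClosed_subset (isClosed_tsupport _) hs, hs.trans ?_⟩, fun x => ?_⟩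
  · simp only [← hL, ← hH, ← hM]
    exact (h1.comp H.contDiff).smul
      (M.contDiff.comp ((hZ.1.comp L.contDiff).prodMk contDiff_const))
  · rintro _ ⟨⟨y, t⟩, ⟨h2, h3⟩, rfl⟩
    rw [hM]
    refine ⟨by simpa using hZ.2.2 h2, ?_⟩
    rw [ht_mk, sub_zero]
    exact (mem_closedBall_zero_iff.1 h3).trans_lt (by norm_num)
  · have hd := ((h1.differentiable one_ne_zero (H x)).hasFDerivAt.comp x H.hasFDerivAt).smul
      (M.hasFDerivAt.comp x (((hZ.1.differentiable one_ne_zero (L x)).hasFDerivAt.comp x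
        L.hasFDerivAt).prodMk (hasFDerivAt_const (0 : ℝ) x)))
    have e : (fun x => ψ (ht x) • mk (Z (pr x)) 0) = (ψ ∘ H) • M ∘ fun x => ((Z ∘ L) x, 0) :=
      funext fun x => by simp only [Function.comp_apply, hL, Pi.smul_apply', hH, hM]
    have e1 : ∀ j : Fin d, L (EuclideanSpace.single j.castSucc 1) = EuclideanSpace.single j 1 :=
      fun j => by rw [hL]; ext i; simp [pr]
    have e2 : ∀ j : Fin d, H (EuclideanSpace.single j.castSucc 1) = 0 := fun j => by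
      rw [hH]; simp [ht, (Fin.castSucc_lt_last j).ne']
    have e3 : L (EuclideanSpace.single (Fin.last d) 1) = 0 := by
      rw [hL]; ext i; simp [pr]
    rw [dv, e, hd.fderiv, Fin.sum_univ_castSucc]
    simp [e1, e2, e3, hM, mk, dv, Finset.mul_sum, ← hL, ← hH]

theorem FE8_col {Ω : Set (R d)} {ε Λ e c : ℝ} (h : Sl Ω ε Λ e c) {ψ : ℝ → ℝ} (hψ : Integrable ψ)
    (h1 : ∀ t, |t| ≤ 1 / 2 → ψ t = 1) (y : E d) (a : ℝ) :
    ∫ t, Ω.indicator (fun x => ψ (ht x) * a) (mk y t) =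
      colU Ω ε y * a + ((∫ t in Iio (-ε), ψ t) + ε) * a := by
  have hS : MeasurableSet {t : ℝ | t ∈ Icc (-ε) ε ∧ mk y t ∈ Ω} := measurableSet_Icc.inter
    ((FE_continuous_mk.comp (Continuous.prodMk_right y)).measurable h.meas)
  have hf : volume {t : ℝ | t ∈ Icc (-ε) ε ∧ mk y t ∈ Ω} ≠ ⊤ :=
    ((measure_mono fun _ h => h.1).trans_lt measure_Icc_lt_top).ne
  have e1 : ∀ t, Ω.indicator (fun x => ψ (ht x) * a) (mk y t) = ((Iio (-ε)).indicator ψ t +
      {t : ℝ | t ∈ Icc (-ε) ε ∧ mk y t ∈ Ω}.indicator (fun _ => 1) t) * a := fun t => by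
    rcases lt_or_ge t (-ε) with h2 | h2
    · simp only [h.lo (mk y t) (by simpa using h2), indicator_of_mem, ht_mk, mem_Iio, h2, mem_Icc, mem_ofPred_eq, h2.not_ge, false_and, and_true, not_false_eq_true, indicator_of_notMem, add_zero]
    by_cases h3 : mk y t ∈ Ω
    · have h4 : t ≤ ε := by simpa using h.hi _ h3
      simp only [h3, indicator_of_mem, ht_mk, h1 t (abs_le.2 ⟨by linarith [h.small], by linarith only [h.small, h4]⟩), one_mul, mem_Iio, h2.not_gt, not_false_eq_true, indicator_of_notMem, mem_Icc, mem_ofPred_eq, h2, h4, and_self, zero_add]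
    · simp only [h3, not_false_eq_true, indicator_of_notMem, mem_Iio, h2.not_gt, mem_Icc, mem_ofPred_eq, and_false, add_zero, zero_mul]
  simp only [e1]
  rw [integral_mul_const, integral_add (hψ.indicator measurableSet_Iio)
    ((integrableOn_const hf).integrable_indicator hS), integral_indicator measurableSet_Iio,
    integral_indicator_const _ hS, colU, Measure.real]
  simp only [smul_eq_mul]
  ring

/-- `gauss` with `T x = ψ (ht x) • mk (Z (pr x)) 0`, `ψ` from `FE_cut (1/2) (3/4)`; `dv T x = ψ (ht x) * dv Z (pr x)` (`Fin.sum_univ_castSucc`);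
Fubini (`measurePreserving_coord`): `∫ t, ψ t 1_Ω (mk y t) = c₁ + colU Ω ε y + ε` with `c₁ = ∫ t in Iio (-ε), ψ t`; `FE_int_dv`;
on the right `ψ (ht x) = 1` a.e. (`FE_pm_out`) and `T = 0` off `Cz`. -/
theorem FE_grad {Ω : Set (R d)} {ε Λ e c : ℝ} (h : Sl Ω ε Λ e c) {Z : E d → E d} (hZ : C1c Z (ball 0 2)) :
    ∫ y, colU Ω ε y * dv Z y = ∫ x in Cz d, ⟪Z (pr x), pr (nu Ω x : R d)⟫_ℝ ∂pm Ω := by
  obtain ⟨ψ, hψ, h1, -, h0⟩ := FE_cut (a := 1 / 2) (b := 3 / 4) (by norm_num) (by norm_num)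
  obtain ⟨hT, hd⟩ := FE8_field hψ h0 hZ
  obtain ⟨M, hM⟩ := exists_mkL d
  have hψi : Integrable ψ := hψ.continuous.integrable_of_hasCompactSupport
    (HasCompactSupport.intro (isCompact_closedBall 0 (3 / 4)) fun t ht =>
      h0 t (not_le.1 fun h => ht (mem_closedBall_zero_iff.2 h)).le)
  have hE : MeasurableEmbedding fun q : E d × ℝ => mk q.1 q.2 :=
    (funext fun q => hM q.1 q.2 : ⇑M = _) ▸ M.toHomeomorph.measurableEmbedding
  have hZi := FE8_int hZ
  have g := gauss Ω ⟨hT.1, hT.2.1, hT.2.2.trans (FE_Cz_subset.trans h.fin)⟩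
  rw [← integral_indicator h.meas, ← measurePreserving_coord.integral_comp hE, integral_prod _ (by
    exact measurePreserving_coord.integrable_comp_of_integrable ((FE8_int hT).indicator h.meas)),
    ← setIntegral_eq_integral_of_forall_compl_eq_zero (s := Cz d) (μ := pm Ω) fun x hx => by
      rw [image_eq_zero_of_notMem_tsupport fun h => hx (hT.2.2 h), inner_zero_left]] at g
  refine Eq.trans ?_ (g.trans (integral_congr_ae ?_))
  · have e1 : ∀ y, ∫ t, Ω.indicator (dv fun x => ψ (ht x) • mk (Z (pr x)) 0) (mk y t) =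
        colU Ω ε y * dv Z y + ((∫ t in Iio (-ε), ψ t) + ε) * dv Z y := fun y => by
      rw [← FE8_col h hψi h1]
      simp only [indicator, hd, pr_mk]
    simp only [e1]
    rw [integral_add (hZi.bdd_mul (FE_colU_meas h.meas ε).aestronglyMeasurable
      (Eventually.of_forall (FE_colU_abs Ω h.pos.le))) (hZi.const_mul _), integral_const_mul,
      FE_int_dv ⟨hZ.1, hZ.2.1, subset_univ _⟩, mul_zero, add_zero]
  · filter_upwards [ae_restrict_of_ae (measure_eq_zero_iff_ae_notMem.1 (FE_pm_out h.meas h.lo h.hi))]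
      with x hx
    rw [h1 _ ((not_lt.1 hx).trans (by linarith [h.small])), one_smul, inner_coord, pr_mk, ht_mk,
      zero_mul, add_zero]
end FE8

section FE9a
theorem FE_vert_c1c {ζ : E d → ℝ} {ψ : ℝ → ℝ} {y : E d} {r t h h' : ℝ} (hζ : C1c ζ (ball y r))
    (hψ : ContDiff ℝ 1 ψ) (h0 : ∀ s, h' ≤ |s - t| → ψ s = 0) (hh : h' < h) :
    C1c (fun x : R d => (ψ (ht x) * ζ (pr x)) • en d) (cyl y r t h) := by
  have hpr : ContDiff ℝ 1 (pr : R d → E d) := FE_contDiff_pr.of_le (by exact_mod_cast le_top)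
  have hht : ContDiff ℝ 1 (ht : R d → ℝ) := FE_contDiff_ht.of_le (by exact_mod_cast le_top)
  have hK : IsCompact ((fun q : E d × ℝ => mk q.1 q.2) '' (tsupport ζ ×ˢ closedBall t h')) :=
    (hζ.2.1.isCompact.prod (isCompact_closedBall t h')).image FE_continuous_mk
  have hs : Function.support (fun x : R d => (ψ (ht x) * ζ (pr x)) • en d) ⊆
      (fun q : E d × ℝ => mk q.1 q.2) '' (tsupport ζ ×ˢ closedBall t h') := by
    intro x hx
    have hx' : ψ (ht x) * ζ (pr x) ≠ 0 := fun h => hx (by simp only [h, zero_smul])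
    refine ⟨(pr x, ht x), ⟨subset_tsupport _ (right_ne_zero_of_mul hx'), ?_⟩, mk_pr_ht x⟩
    rw [mem_closedBall, Real.dist_eq]
    by_contra hc
    exact left_ne_zero_of_mul hx' (h0 _ (not_le.1 hc).le)
  refine ⟨((hψ.comp hht).mul (hζ.1.comp hpr)).smul contDiff_const,
    HasCompactSupport.of_support_subset_isCompact hK hs, ?_⟩
  refine (closure_minimal hs hK.isClosed).trans ?_
  rintro _ ⟨⟨z, s⟩, ⟨hz, hs'⟩, rfl⟩
  rw [mem_closedBall, Real.dist_eq] at hs'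
  refine ⟨?_, ?_⟩
  · simpa using hζ.2.2 hz
  · simpa using lt_of_le_of_lt hs' hh

theorem FE_vert_divT {ζ : E d → ℝ} {ψ : ℝ → ℝ} (hζ : ContDiff ℝ 1 ζ) (hψ : ContDiff ℝ 1 ψ) (p : R d × S d) :
    divT (fun x : R d => (ψ (ht x) * ζ (pr x)) • en d) p =
      deriv ψ (ht p.1) * ζ (pr p.1) * (1 - ht (p.2 : R d) ^ 2) -
        ψ (ht p.1) * ht (p.2 : R d) * ⟪gradient ζ (pr p.1), pr (p.2 : R d)⟫_ℝ := by
  obtain ⟨A, hA⟩ := exists_prL d
  obtain ⟨H, hH⟩ := exists_htL d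
  have eA : (pr : R d → E d) = A := funext fun x => (hA x).symm
  have eH : (ht : R d → ℝ) = H := funext fun x => (hH x).symm
  have h1 : HasFDerivAt (fun x : R d => ψ (ht x)) (deriv ψ (ht p.1) • H) p.1 := by
    have := ((hψ.differentiable one_ne_zero) (ht p.1)).hasDerivAt
    exact this.comp_hasFDerivAt p.1 (eH ▸ H.hasFDerivAt)
  have h2 : HasFDerivAt (fun x : R d => ζ (pr x)) ((fderiv ℝ ζ (pr p.1)).comp A) p.1 := by
    have := ((hζ.differentiable one_ne_zero) (pr p.1)).hasFDerivAt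
    exact this.comp p.1 (eA ▸ A.hasFDerivAt)
  have h3 := (h1.mul h2).smul_const (en d)
  set G : R d →L[ℝ] ℝ := ψ (ht p.1) • (fderiv ℝ ζ (pr p.1)).comp A +
    ζ (pr p.1) • deriv ψ (ht p.1) • H with hG
  have h4 : fderiv ℝ (fun x : R d => (ψ (ht x) * ζ (pr x)) • en d) p.1 = G.smulRight (en d) :=
    h3.fderiv
  have hGv : ∀ v, G v = ψ (ht p.1) * ⟪gradient ζ (pr p.1), pr v⟫_ℝ +
      ζ (pr p.1) * (deriv ψ (ht p.1) * ht v) := by
    intro v
    simp [hG, hA, hH, inner_gradient_left]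
  have hsum : ∑ i, G (EuclideanSpace.single i 1) * en d i = G (en d) := by
    conv_rhs => rw [← (EuclideanSpace.basisFun (Fin (d + 1)) ℝ).sum_repr (en d), map_sum]
    refine Finset.sum_congr rfl fun i _ => ?_
    simp [mul_comm]
  have hen1 : pr (en d) = 0 := pr_mk _ _
  have hen2 : ht (en d) = 1 := ht_mk _ _
  simp only [divT, dv, h4, ContinuousLinearMap.smulRight_apply, PiLp.smul_apply, smul_eq_mul]
  rw [hsum, inner_smul_right, real_inner_comm, inner_en, hGv, hGv, hen1, hen2, inner_zero_right]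
  ring
end FE9a

section FE9
theorem FE9_grad_cont {n : ℕ} {G : E n → ℝ} (hG : ContDiff ℝ 1 G) : Continuous (gradient G) :=
  (InnerProductSpace.toDual ℝ (E n)).symm.continuous.comp (hG.continuous_fderiv (by simp))

theorem FE9_grad_c1 {n : ℕ} {G : E n → ℝ} (hG : ContDiff ℝ ∞ G) : ContDiff ℝ 1 (gradient G) := by
  have h : ContDiff ℝ 1 (fderiv ℝ G) := hG.fderiv_right (by norm_cast)
  exact (InnerProductSpace.toDual ℝ (E n)).symm.contDiff.comp h

theorem FE9_grad_supp {n : ℕ} (G : E n → ℝ) : tsupport (gradient G) ⊆ tsupport G := by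
  refine closure_minimal (fun y hy => support_fderiv_subset ℝ fun h => hy ?_) (isClosed_tsupport G)
  simp [gradient, h]

theorem FE9_meas {ζ : E d → ℝ} (hζ : ContDiff ℝ 1 ζ) (Ω : Set (R d)) :
    Measurable (fun x => ht (nu Ω x : R d)) ∧
      Measurable fun x => ⟪gradient ζ (pr x), pr (nu Ω x : R d)⟫_ℝ := by
  have h1 : Measurable fun x => (nu Ω x : R d) := measurable_subtype_coe.comp (measurable_nu Ω)
  exact ⟨FE_contDiff_ht.continuous.measurable.comp h1,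
    (((FE9_grad_cont hζ).comp FE_contDiff_pr.continuous).measurable).inner
      (FE_contDiff_pr.continuous.measurable.comp h1)⟩

/-- stationarity with the vertical field, `FE_int_vf`, `FE_pm_out` -/
theorem FE_vert {Ω : Set (R d)} {ε Λ e c : ℝ} (h : Sl Ω ε Λ e c) {ζ : E d → ℝ} (hζ : C1c ζ (ball 0 2)) :
    ∫ x in Cz d, ht (nu Ω x : R d) * ⟪gradient ζ (pr x), pr (nu Ω x : R d)⟫_ℝ ∂pm Ω = 0 := by
  obtain ⟨ψ, hψ, h1, h2, h3⟩ := FE_cut (a := 1 / 2) (b := 3 / 4) (by norm_num) (by norm_num)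
  have hψ1 : ContDiff ℝ 1 ψ := hψ.of_le (by norm_cast)
  have hX : C1c (fun x : R d => (ψ (ht x) * ζ (pr x)) • en d) (Cz d) :=
    FE_vert_c1c (t := 0) (h' := 3 / 4) hζ hψ1 (fun s hs => h3 s (by simpa only [sub_zero] using hs)) (by norm_num)
  have h4 := (FE_stat_sub (FE_isOpen_cyl _ _ _ _) FE_Cz_subset h.stat).2 _ hX
  have hc : Continuous (divT fun x : R d => (ψ (ht x) * ζ (pr x)) • en d) := by
    rw [funext (FE_vert_divT hζ.1 hψ1)]
    have c1 := hψ1.continuous_deriv le_rfl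
    have c2 := hψ1.continuous
    have c3 := hζ.1.continuous
    have c4 := FE9_grad_cont hζ.1
    have c5 := (FE_contDiff_pr (d := d)).continuous
    have c6 := (FE_contDiff_ht (d := d)).continuous
    fun_prop
  rw [FE_int_vf _ _ hc.measurable] at h4
  rw [← neg_eq_zero, ← integral_neg, ← h4]
  refine integral_congr_ae (ae_restrict_of_ae ?_)
  have h5 : ∀ᵐ x ∂pm Ω, x ∉ {x : R d | ε < |ht x|} :=
    measure_eq_zero_iff_ae_notMem.1 (FE_pm_out h.meas h.lo h.hi)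
  filter_upwards [h5] with x hx
  have h6 : |ht x| < 1 / 2 := by
    have h7 : |ht x| ≤ ε := not_lt.1 hx
    linarith [h.small]
  rw [FE_vert_divT hζ.1 hψ1, h1 _ h6.le, h2 _ h6]
  ring

/-- `FE_grad` with `Z = gradient G` minus `FE_vert`; `pm Ω (Cz d) < ⊤` -/
theorem FE_col {Ω : Set (R d)} {ε Λ e c : ℝ} (h : Sl Ω ε Λ e c) {β : ℝ} (hβ0 : 0 ≤ β)
    (hβ : ∫⁻ x in Cz d, ENNReal.ofReal ((1 - ht (nu Ω x : R d)) * ‖pr (nu Ω x : R d)‖) ∂pm Ω ≤
      ENNReal.ofReal β) (G : E d → ℝ) (M : ℝ) (hG : ContDiff ℝ ∞ G) (hs : tsupport G ⊆ ball 0 2)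
    (hM : ∀ y, ‖gradient G y‖ ≤ M) : |∫ y, colU Ω ε y * dv (gradient G) y| ≤ M * β := by
  have hM0 : 0 ≤ M := (norm_nonneg _).trans (hM 0)
  have hG1 : ContDiff ℝ 1 G := hG.of_le (by norm_cast)
  have hK : HasCompactSupport G :=
    (isCompact_closedBall (0 : E d) 2).of_isClosed_subset (isClosed_tsupport G)
      (hs.trans ball_subset_closedBall)
  have hZ : C1c (gradient G) (ball 0 2) :=
    ⟨FE9_grad_c1 hG, hK.of_isClosed_subset (isClosed_tsupport _) (FE9_grad_supp G),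
      (FE9_grad_supp G).trans hs⟩
  have hfin : IsFiniteMeasure ((pm Ω).restrict (Cz d)) := ⟨by
    rw [Measure.restrict_apply_univ]
    exact ((measure_mono FE_Cz_subset).trans h.mass).trans_lt ENNReal.ofReal_lt_top⟩
  obtain ⟨m1, m2⟩ := FE9_meas hG1 Ω
  have b1 : ∀ x, |ht (nu Ω x : R d)| ≤ 1 := fun x =>
    (FE_abs_ht_le _).trans (by simp only [norm_eq_of_mem_sphere, Std.le_refl])
  have b2 : ∀ x, |⟪gradient G (pr x), pr (nu Ω x : R d)⟫_ℝ| ≤ M * ‖pr (nu Ω x : R d)‖ := fun x =>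
    (abs_real_inner_le_norm _ _).trans (mul_le_mul_of_nonneg_right (hM _) (norm_nonneg _))
  have b3 : ∀ x, |⟪gradient G (pr x), pr (nu Ω x : R d)⟫_ℝ| ≤ M := fun x =>
    (b2 x).trans (mul_le_of_le_one_right hM0 ((FE_norm_pr_le _).trans (by simp only [norm_eq_of_mem_sphere, Std.le_refl])))
  have i2 : Integrable (fun x => ⟪gradient G (pr x), pr (nu Ω x : R d)⟫_ℝ) ((pm Ω).restrict (Cz d)) :=
    Integrable.of_bound m2.aestronglyMeasurable M (Eventually.of_forall b3)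
  have i1 : Integrable (fun x => ht (nu Ω x : R d) * ⟪gradient G (pr x), pr (nu Ω x : R d)⟫_ℝ)
      ((pm Ω).restrict (Cz d)) :=
    i2.bdd_mul m1.aestronglyMeasurable (Eventually.of_forall b1)
  rw [FE_grad h hZ, ← sub_zero (∫ x in Cz d, _ ∂pm Ω), ← FE_vert h ⟨hG1, hK, hs⟩, ← integral_sub i2 i1,
    ← Real.norm_eq_abs]
  refine (norm_integral_le_lintegral_norm _).trans
    (ENNReal.toReal_le_of_le_ofReal (mul_nonneg hM0 hβ0) ?_)
  rw [ENNReal.ofReal_mul hM0]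
  refine le_trans ?_ (mul_le_mul_right hβ _)
  rw [← lintegral_const_mul' _ _ ENNReal.ofReal_ne_top]
  refine lintegral_mono fun x => ?_
  rw [← ENNReal.ofReal_mul hM0]
  refine ENNReal.ofReal_le_ofReal ?_
  have h1 : 0 ≤ 1 - ht (nu Ω x : R d) := by linarith [(abs_le.1 (b1 x)).2]
  rw [← one_sub_mul, Real.norm_eq_abs, abs_mul, abs_of_nonneg h1, mul_left_comm]
  exact mul_le_mul_of_nonneg_left (b2 x) h1
end FE9

section FE10
/-- a fixed cutoff: `C1c` in `Cy`, equal to 1 on `cyl 0 2 0 (1/2)` (product of two `ContDiffBump`s) -/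
theorem FE_cut2 (d : ℕ) : ∃ (ζ : R d → ℝ) (C : ℝ), 0 < C ∧ C1c ζ (Cy d) ∧ (∀ x ∈ cyl (0 : E d) 2 0 (1 / 2), ζ x = 1) ∧
    ∀ x, ‖gradient ζ x‖ ≤ C := by
  let b1 : ContDiffBump (0 : E d) := ⟨2, 5 / 2, by norm_num, by norm_num⟩
  let b2 : ContDiffBump (0 : ℝ) := ⟨1 / 2, 3 / 4, by norm_num, by norm_num⟩
  let ζ : R d → ℝ := fun x => b1 (pr x) * b2 (ht x)
  have hs : ContDiff ℝ 1 ζ :=
    (b1.contDiff.comp (FE_contDiff_pr.of_le (by simp))).mul
      (b2.contDiff.comp (FE_contDiff_ht.of_le (by simp)))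
  let K : Set (R d) := {x | ‖pr x‖ ≤ 5 / 2 ∧ |ht x| ≤ 3 / 4}
  have hKc : IsClosed K :=
    (isClosed_le FE_contDiff_pr.continuous.norm continuous_const).inter
      (isClosed_le FE_contDiff_ht.continuous.abs continuous_const)
  have hK : IsCompact K := by
    refine (isCompact_closedBall (0 : R d) 4).of_isClosed_subset hKc fun x hx => ?_
    rw [mem_closedBall_zero_iff]
    linarith [FE_norm_le x, hx.1, hx.2]
  have hsub : Function.support ζ ⊆ K := by
    intro x hx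
    have h1 : pr x ∈ Function.support b1 := left_ne_zero_of_mul hx
    have h2 : ht x ∈ Function.support b2 := right_ne_zero_of_mul hx
    rw [b1.support_eq, mem_ball_zero_iff] at h1
    rw [b2.support_eq, mem_ball_zero_iff] at h2
    exact ⟨h1.le, h2.le⟩
  have ht' : tsupport ζ ⊆ K := closure_minimal hsub hKc
  have hc : HasCompactSupport ζ := hK.of_isClosed_subset (isClosed_tsupport ζ) ht'
  obtain ⟨C, hC⟩ := (hs.continuous_fderiv one_ne_zero).bounded_above_of_compact_support (hc.fderiv ℝ)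
  refine ⟨ζ, max C 1, lt_max_of_lt_right one_pos, ⟨hs, hc, ht'.trans fun x hx => ?_⟩,
    fun x hx => ?_, fun x => ?_⟩
  · refine ⟨mem_ball_zero_iff.2 (by linarith only [hx.1]), ?_⟩
    rw [sub_zero]
    linarith [hx.2]
  · have h1 : b1 (pr x) = 1 := b1.one_of_mem_closedBall (ball_subset_closedBall hx.1)
    have h2 : b2 (ht x) = 1 := b2.one_of_mem_closedBall (by
      have := hx.2
      rw [sub_zero] at this
      exact mem_closedBall_zero_iff.2 this.le)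
    simp [ζ, h1, h2]
  · rw [gradient, LinearIsometryEquiv.norm_map]
    exact (hC x).trans (le_max_left _ _)

theorem FE10_meas_pr (Ω : Set (R d)) : Measurable fun x => ‖pr (nu Ω x : R d)‖ :=
  (FE_contDiff_pr.continuous.norm.measurable).comp (measurable_subtype_coe.comp (measurable_nu Ω))

theorem FE10_meas_ht (Ω : Set (R d)) : Measurable fun x => ht (nu Ω x : R d) :=
  (FE_contDiff_ht.continuous.measurable).comp (measurable_subtype_coe.comp (measurable_nu Ω))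

theorem FE10_sq (d : ℕ) : ∃ A > 0, ∀ (Ω : Set (R d)) (ε Λ e c : ℝ), Sl Ω ε Λ e c → 0 ≤ Λ →
    ∫⁻ x in Cz d, ENNReal.ofReal (‖pr (nu Ω x : R d)‖ ^ 2) ∂pm Ω ≤ ENNReal.ofReal (A * Λ * ε ^ 2) := by
  obtain ⟨ζ, C, hC, hζ, h1, hg⟩ := FE_cut2 d
  refine ⟨4 * C ^ 2, by positivity, fun Ω ε Λ e c h hΛ => ?_⟩
  have hout : ∀ᵐ x ∂pm Ω, |ht x| ≤ ε := by
    rw [ae_iff]
    simpa only [not_le] using FE_pm_out h.meas h.lo h.hi
  have : IsFiniteMeasure ((pm Ω).restrict (Cy d)) :=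
    ⟨by rw [Measure.restrict_apply_univ]; exact h.mass.trans_lt ENNReal.ofReal_lt_top⟩
  have hm : ((pm Ω).restrict (Cy d)).real univ ≤ Λ := by
    rw [Measure.real, Measure.restrict_apply_univ]
    exact ENNReal.toReal_le_of_le_ofReal hΛ h.mass
  have ht1 := tilt_le_height h.stat hζ norm_en 0
  have hζc := hζ.1.continuous
  rw [vf_fst, FE_int_vf Ω (Cy d) (F := fun p => ζ p.1 ^ 2 * (1 - ⟪en d, (p.2 : R d)⟫_ℝ ^ 2))
    (Continuous.measurable (by fun_prop))] at ht1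
  simp only [inner_en, ← FE_sphere_sq, sub_zero] at ht1
  have ht2 : ∫ x in Cy d, ht x ^ 2 * ‖gradient ζ x‖ ^ 2 ∂pm Ω ≤ ∫ x in Cy d, ε ^ 2 * C ^ 2 ∂pm Ω := by
    refine integral_mono_of_nonneg (Eventually.of_forall fun x => by positivity) (integrable_const _) ?_
    filter_upwards [ae_restrict_of_ae hout] with x hx
    exact mul_le_mul (sq_le_sq' (abs_le.1 hx).1 (abs_le.1 hx).2)
      (pow_le_pow_left₀ (norm_nonneg _) (hg x) 2) (by positivity) (by positivity)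
  rw [integral_const, smul_eq_mul] at ht2
  have ht3 : ∫ x in Cy d, ζ x ^ 2 * ‖pr (nu Ω x : R d)‖ ^ 2 ∂pm Ω ≤ 4 * C ^ 2 * Λ * ε ^ 2 := by
    have := mul_le_mul_of_nonneg_right hm (show 0 ≤ ε ^ 2 * C ^ 2 by positivity)
    linarith only [ht1, ht2, this]
  obtain ⟨M, hM⟩ := hζc.bounded_above_of_compact_support hζ.2.1
  have hi : Integrable (fun x => ζ x ^ 2 * ‖pr (nu Ω x : R d)‖ ^ 2) ((pm Ω).restrict (Cy d)) := by
    refine Integrable.of_bound
      (((hζc.measurable.pow_const 2).mul ((FE10_meas_pr Ω).pow_const 2)).aestronglyMeasurable) (M ^ 2)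
      (Eventually.of_forall fun x => ?_)
    rw [Real.norm_of_nonneg (by positivity), FE_sphere_sq]
    have h2 : ζ x ^ 2 ≤ M ^ 2 := by
      rw [← sq_abs]
      exact pow_le_pow_left₀ (abs_nonneg _) (hM x) 2
    linarith only [sq_nonneg (ζ x), sq_nonneg (ht (nu Ω x : R d)), mul_nonneg (sq_nonneg (ζ x))
      (sq_nonneg (ht (nu Ω x : R d))), h2]
  have hz : MeasurableSet (Cz d) := (FE_isOpen_cyl _ _ _ _).measurableSet
  calc ∫⁻ x in Cz d, ENNReal.ofReal (‖pr (nu Ω x : R d)‖ ^ 2) ∂pm Ω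
      = ∫⁻ x in Cz d, ENNReal.ofReal (ζ x ^ 2 * ‖pr (nu Ω x : R d)‖ ^ 2) ∂pm Ω := by
        refine lintegral_congr_ae ?_
        filter_upwards [ae_restrict_of_ae hout, ae_restrict_mem hz] with x hx hxz
        have : ζ x = 1 := h1 x ⟨hxz.1, by rw [sub_zero]; linarith [h.small]⟩
        rw [this, one_pow, one_mul]
    _ ≤ ∫⁻ x in Cy d, ENNReal.ofReal (ζ x ^ 2 * ‖pr (nu Ω x : R d)‖ ^ 2) ∂pm Ω :=
        lintegral_mono_set FE_Cz_subset
    _ = ENNReal.ofReal (∫ x in Cy d, ζ x ^ 2 * ‖pr (nu Ω x : R d)‖ ^ 2 ∂pm Ω) :=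
        (ofReal_integral_eq_lintegral_ofReal hi (Eventually.of_forall fun x => by positivity)).symm
    _ ≤ _ := ENNReal.ofReal_le_ofReal ht3

theorem FE10_comb {μ : Measure (R d)} {f g k : R d → ℝ} (hg : Measurable g) (hk : Measurable k)
    {a b G K : ℝ} (ha : 0 ≤ a) (hb : 0 ≤ b) (hG0 : 0 ≤ G) (hK0 : 0 ≤ K)
    (h : ∀ x, f x ≤ a * g x + b * k x) (hG : ∫⁻ x, ENNReal.ofReal (g x) ∂μ ≤ ENNReal.ofReal G)
    (hK : ∫⁻ x, ENNReal.ofReal (k x) ∂μ ≤ ENNReal.ofReal K) :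
    ∫⁻ x, ENNReal.ofReal (f x) ∂μ ≤ ENNReal.ofReal (a * G + b * K) := by
  calc ∫⁻ x, ENNReal.ofReal (f x) ∂μ
      ≤ ∫⁻ x, (ENNReal.ofReal a * ENNReal.ofReal (g x) + ENNReal.ofReal b * ENNReal.ofReal (k x)) ∂μ := by
        refine lintegral_mono fun x => ?_
        rw [← ENNReal.ofReal_mul ha, ← ENNReal.ofReal_mul hb]
        exact (ENNReal.ofReal_le_ofReal (h x)).trans ENNReal.ofReal_add_le
    _ = ENNReal.ofReal a * ∫⁻ x, ENNReal.ofReal (g x) ∂μ +
        ENNReal.ofReal b * ∫⁻ x, ENNReal.ofReal (k x) ∂μ := by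
        rw [lintegral_add_left (hg.ennreal_ofReal.const_mul _), lintegral_const_mul _ hg.ennreal_ofReal,
          lintegral_const_mul _ hk.ennreal_ofReal]
    _ ≤ ENNReal.ofReal a * ENNReal.ofReal G + ENNReal.ofReal b * ENNReal.ofReal K := by gcongr
    _ = _ := by
        rw [ENNReal.ofReal_add (by positivity) (by positivity), ENNReal.ofReal_mul ha,
          ENNReal.ofReal_mul hb]

/-- `tilt_le_height` with `e = en d`, `c = 0`: `∫_(Cz) ‖pr ν‖^2 ≤ 4 C^2 ε^2 Λ` (`FE_pm_out`, `FE_sphere_sq`).  Then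
`‖pr ν‖ ≤ ε + ‖pr ν‖^2 / ε` and `(1 - ν_n) ‖pr ν‖ ≤ lam (1 - ν_n) + ‖pr ν‖^2 / lam` (as `(1-ν_n)^2 ≤ 2 (1-ν_n)`). -/
theorem FE_tilt (d : ℕ) : ∃ C > 0, ∀ (Ω : Set (R d)) (ε Λ e c : ℝ), Sl Ω ε Λ e c → 0 ≤ Λ → 0 ≤ e →
    ∫⁻ x in Cz d, ‖pr (nu Ω x : R d)‖ₑ ∂pm Ω ≤ ENNReal.ofReal (C * Λ * ε) ∧ ∀ lam > 0,
      ∫⁻ x in Cz d, ENNReal.ofReal ((1 - ht (nu Ω x : R d)) * ‖pr (nu Ω x : R d)‖) ∂pm Ω ≤
        ENNReal.ofReal (lam * e + C * Λ * ε ^ 2 / lam) := by
  obtain ⟨A, hA, hsq⟩ := FE10_sq d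
  refine ⟨A + 1, by positivity, fun Ω ε Λ e c h hΛ he => ⟨?_, fun lam hl => ?_⟩⟩
  · have hε := h.pos
    have h1 : ∫⁻ x in Cz d, ENNReal.ofReal (1 : ℝ) ∂pm Ω ≤ ENNReal.ofReal Λ := by
      rw [ENNReal.ofReal_one, setLIntegral_one]
      exact (measure_mono FE_Cz_subset).trans h.mass
    have h2 := FE10_comb (μ := (pm Ω).restrict (Cz d)) (f := fun x => ‖pr (nu Ω x : R d)‖)
      (a := ε) (b := ε⁻¹) measurable_const ((FE10_meas_pr Ω).pow_const 2) hε.le (by positivity) hΛ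
      (by positivity) (fun x => ?_) h1 (hsq Ω ε Λ e c h hΛ)
    · simp only [ofReal_norm] at h2
      refine h2.trans (le_of_eq ?_)
      congr 1
      field_simp
      ring
    · set t := ‖pr (nu Ω x : R d)‖
      have h3 : ε * 1 + ε⁻¹ * t ^ 2 - t = ε⁻¹ * ((t - ε / 2) ^ 2 + 3 / 4 * ε ^ 2) := by
        field_simp
        ring
      have h4 : 0 ≤ ε⁻¹ * ((t - ε / 2) ^ 2 + 3 / 4 * ε ^ 2) := by positivity
      linarith
  · have h1 : ∫⁻ x in Cz d, ENNReal.ofReal (1 - ht (nu Ω x : R d)) ∂pm Ω ≤ ENNReal.ofReal e := by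
      have h0 := h.exc
      rw [FE_lint_vf Ω (Cy d) (F := fun p => ENNReal.ofReal (1 - ht (p.2 : R d)))
        (Measurable.ennreal_ofReal (measurable_const.sub (FE_contDiff_ht.continuous.measurable.comp
          (measurable_subtype_coe.comp measurable_snd))))] at h0
      exact (lintegral_mono_set FE_Cz_subset).trans h0
    have h2 := FE10_comb (μ := (pm Ω).restrict (Cz d))
      (f := fun x => (1 - ht (nu Ω x : R d)) * ‖pr (nu Ω x : R d)‖) (g := fun x => 1 - ht (nu Ω x : R d))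
      (a := lam) (b := lam⁻¹) (measurable_const.sub (FE10_meas_ht Ω)) ((FE10_meas_pr Ω).pow_const 2)
      hl.le (by positivity) he (by positivity) (fun x => ?_) h1 (hsq Ω ε Λ e c h hΛ)
    · refine h2.trans (ENNReal.ofReal_le_ofReal ?_)
      have h3 : (A + 1) * Λ * ε ^ 2 / lam = lam⁻¹ * (A * Λ * ε ^ 2) + Λ * ε ^ 2 / lam := by
        field_simp
      have h4 : 0 ≤ Λ * ε ^ 2 / lam := by positivity
      linarith
    · have h5 : |ht (nu Ω x : R d)| ≤ 1 := by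
        simpa only [norm_eq_of_mem_sphere] using FE_abs_ht_le (nu Ω x : R d)
      set t := ‖pr (nu Ω x : R d)‖
      obtain ⟨h6, h7⟩ := abs_le.1 h5
      set u := ht (nu Ω x : R d)
      have h3 : lam * (1 - u) + lam⁻¹ * t ^ 2 - (1 - u) * t =
          lam⁻¹ * (t - lam * (1 - u) / 2) ^ 2 + lam * ((1 - u) * (3 + u) / 4) := by
        field_simp
        ring
      have h8 : 0 ≤ 1 - u := by linarith only [h7]
      have h9 : 0 ≤ 3 + u := by linarith only [h6]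
      have h4 : 0 ≤ lam⁻¹ * (t - lam * (1 - u) / 2) ^ 2 + lam * ((1 - u) * (3 + u) / 4) := by positivity
      linarith
end FE10

section FE11
theorem FE11_sub {θ : ℝ} (hθ' : θ ≤ 1 / 4) {x : R d} (hx : x ∈ ball (0 : R d) θ) :
    closedBall x (2 * θ) ⊆ ball 0 1 := fun y hy => by
  have := norm_le_norm_sub_add y x
  rw [mem_closedBall, dist_eq_norm] at hy
  rw [mem_ball_zero_iff] at hx ⊢
  linarith

theorem FE11_Cy : ball (0 : R d) 1 ⊆ Cy d := FE_ball_subset_cyl (by norm_num) le_rfl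

theorem FE11_mv {Ω : Set (R d)} {ε Λ e c : ℝ} (h : Sl Ω ε Λ e c) (hc : 0 < c) {θ : ℝ} (hθ : 0 < θ)
    (hθ' : θ ≤ 1 / 4) {x : R d} (hx : x ∈ (pm Ω).support ∩ ball 0 θ) (w : R d) (b : ℝ) :
    c / 2 ^ (d + 1) * FEh w b x * θ ^ d ≤ ∫ y, FEh w b y * FEw x θ y ^ 2 ∂pm Ω := by
  have hs := (FE11_sub hθ' hx.2).trans FE11_Cy
  have := FE_mv h.stat hθ (by linarith only [hθ] : θ < 2 * θ) hs hc (fun r hr hr' => by
    have h1 := (closedBall_subset_closedBall (by linarith only [hθ, hr'] : r ≤ 2 * θ)).trans hs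
    rw [vf_fst, Measure.restrict_apply measurableSet_closedBall, inter_eq_left.2 h1]
    exact h.dens x hx.1 r hr h1) w b
  rw [vf_fst, setIntegral_eq_integral_of_forall_compl_eq_zero, le_inv_mul_iff₀ (pow_pos hθ d)]
    at this
  · linarith
  · intro y hy
    have h1 : 2 * θ < ‖y - x‖ := by
      by_contra h2
      exact hy (hs (by rw [mem_closedBall, dist_eq_norm]; exact not_lt.1 h2))
    have h2 : 1 ≤ ‖y - x‖ ^ 2 / θ ^ 2 := by
      rw [one_le_div (pow_pos hθ 2)]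
      exact pow_le_pow_left₀ hθ.le (by linarith only [hθ, h1]) 2
    rw [FEw, max_eq_right (by linarith only [h2])]
    simp

theorem FE11_in {g : E d} {y : R d} (hy : y ∈ ball (0 : R d) 1) : |⟪g, pr y⟫_ℝ| ≤ ‖g‖ :=
  (abs_real_inner_le_norm _ _).trans (mul_le_of_le_one_right (norm_nonneg _)
    ((FE_norm_pr_le y).trans (mem_ball_zero_iff.1 hy).le))

theorem FE11_ae {Ω : Set (R d)} {ε Λ e c : ℝ} (h : Sl Ω ε Λ e c) : ∀ᵐ y ∂pm Ω, |ht y| ≤ ε := by
  rw [ae_iff]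
  simpa only [not_le] using FE_pm_out h.meas h.lo h.hi

theorem FE11_exc {Ω : Set (R d)} {ε Λ e c : ℝ} (h : Sl Ω ε Λ e c) {A : Set (R d)} (hA : A ⊆ Cy d) :
    ∫⁻ y in A, ENNReal.ofReal (1 - ht (nu Ω y : R d)) ∂pm Ω ≤ ENNReal.ofReal e := by
  refine (lintegral_mono_set hA).trans (le_of_eq_of_le ?_ h.exc)
  rw [FE_lint_vf]
  exact (continuous_const.sub (FE_contDiff_ht.continuous.comp
    (continuous_subtype_val.comp continuous_snd))).measurable.ennreal_ofReal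

/-- `FE_mv` (W = vf Ω (Cy d), b = θ, b' = 2θ, `vf_fst`) and `FE_vol` with `e = en d`, `w = mk (-g) 1`, `c = b`, `M = ε + N` where
`⟪w,y⟫ - b = ht y - ⟪g, pr y⟫ - b ≤ ε + N` on `Ω ∩ ball x θ` (`hi`) and a.e. (`FE_pm_out`). -/
theorem FE_ht_up {Ω : Set (R d)} {ε Λ e c : ℝ} (h : Sl Ω ε Λ e c) (he : 0 ≤ e) (hc : 0 < c) {θ : ℝ} (hθ : 0 < θ)
    (hθ' : θ ≤ 1 / 4) {x : R d} (hx : x ∈ (pm Ω).support ∩ ball 0 θ) {g : E d} {b N V : ℝ} (hg : ‖g‖ ≤ 1)
    (hN : ‖g‖ - b ≤ N) (hN0 : 0 ≤ N) (hV0 : 0 ≤ V)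
    (hV : volume (Ω ∩ ball x θ ∩ {y | b < ht y - ⟪g, pr y⟫_ℝ}) ≤ ENNReal.ofReal V) :
    c / 2 ^ (d + 1) * (max (ht x - ⟪g, pr x⟫_ℝ - b) 0) ^ 3 * θ ^ d ≤
      (ε + N) ^ 3 * e + (4 * (ε + N) ^ 3 / θ + 6 * (ε + N) ^ 2) * V := by
  have e1 : ∀ y : R d, ⟪mk (-g) 1, y⟫_ℝ = ht y - ⟪g, pr y⟫_ℝ := fun y => by
    rw [inner_coord, pr_mk, ht_mk, inner_neg_left]; ring
  have s1 : closedBall x θ ⊆ ball 0 1 :=
    (closedBall_subset_closedBall (by linarith only [hθ])).trans (FE11_sub hθ' hx.2)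
  have s2 := ball_subset_closedBall.trans s1
  have k := FE11_mv h hc hθ hθ' hx (mk (-g) 1) b
  rw [FEh, e1] at k
  refine k.trans (FE_vol h.meas hθ ((s1.trans FE11_Cy).trans h.fin) norm_en ?_
    (by linarith only [h.pos, hN0]) he hV0 (fun y hy => ?_) ?_ ?_ (by simpa only [e1] using hV))
  · refine (FE_norm_le _).trans ?_
    rw [pr_mk, ht_mk, norm_neg, abs_one]
    linarith only [hg]
  · rw [e1]
    linarith only [h.hi y hy.2, (abs_le.1 (FE11_in (g := g) (s2 hy.1))).1, hN]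
  · filter_upwards [FE11_ae h] with y h1 hy
    rw [e1]
    linarith only [(abs_le.1 h1).2, (abs_le.1 (FE11_in (g := g) (s2 hy))).1, hN]
  · simpa only [inner_en] using FE11_exc h (s2.trans FE11_Cy)

/-- the same with `FE_vol` for `Ωᶜ`, `e = -en d`, `w = mk g (-1)`, `c = -b` (`FE_nu_compl`, `pm_compl`, `lo`) -/
theorem FE_ht_down {Ω : Set (R d)} {ε Λ e c : ℝ} (h : Sl Ω ε Λ e c) (he : 0 ≤ e) (hc : 0 < c) {θ : ℝ} (hθ : 0 < θ)
    (hθ' : θ ≤ 1 / 4) {x : R d} (hx : x ∈ (pm Ω).support ∩ ball 0 θ) {g : E d} {b N V : ℝ} (hg : ‖g‖ ≤ 1)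
    (hN : ‖g‖ + b ≤ N) (hN0 : 0 ≤ N) (hV0 : 0 ≤ V)
    (hV : volume (Ωᶜ ∩ ball x θ ∩ {y | ht y - ⟪g, pr y⟫_ℝ < b}) ≤ ENNReal.ofReal V) :
    c / 2 ^ (d + 1) * (max (b - (ht x - ⟪g, pr x⟫_ℝ)) 0) ^ 3 * θ ^ d ≤
      (ε + N) ^ 3 * e + (4 * (ε + N) ^ 3 / θ + 6 * (ε + N) ^ 2) * V := by
  have e1 : ∀ y : R d, ⟪mk g (-1), y⟫_ℝ = ⟪g, pr y⟫_ℝ - ht y := fun y => by
    rw [inner_coord, pr_mk, ht_mk]; ring
  have s1 : closedBall x θ ⊆ ball 0 1 :=
    (closedBall_subset_closedBall (by linarith only [hθ])).trans (FE11_sub hθ' hx.2)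
  have s2 := ball_subset_closedBall.trans s1
  have k := FE11_mv h hc hθ hθ' hx (mk g (-1)) (-b)
  rw [FEh, e1, ← pm_compl h.meas,
    show ⟪g, pr x⟫_ℝ - ht x - -b = b - (ht x - ⟪g, pr x⟫_ℝ) by ring] at k
  refine k.trans (FE_vol h.meas.compl hθ (e := -en d)
    (by rw [FE_lf_compl h.meas]; exact (s1.trans FE11_Cy).trans h.fin) (by rw [norm_neg, norm_en]) ?_
    (by linarith only [h.pos, hN0]) he hV0 (fun y hy => ?_) ?_ ?_ (le_of_eq_of_le ?_ hV))
  · refine (FE_norm_le _).trans ?_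
    rw [pr_mk, ht_mk, abs_neg, abs_one]
    linarith only [hg]
  · rw [e1]
    linarith only [not_lt.1 fun t => hy.2 (h.lo y t), (abs_le.1 (FE11_in (g := g) (s2 hy.1))).2, hN]
  · rw [pm_compl h.meas]
    filter_upwards [FE11_ae h] with y h1 hy
    rw [e1]
    linarith only [(abs_le.1 h1).1, (abs_le.1 (FE11_in (g := g) (s2 hy))).2, hN]
  · rw [pm_compl h.meas]
    refine le_of_eq_of_le (lintegral_congr_ae ?_) (FE11_exc h (s2.trans FE11_Cy))
    filter_upwards [FE_nu_compl h.meas isOpen_ball ((s2.trans FE11_Cy).trans h.fin)] with y hy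
    rw [hy, inner_neg_neg, inner_en]
  · congr 2
    ext y
    simp only [mem_ofPred_eq, e1]
    constructor <;> intro t <;> linarith only [t]
end FE11

section FE12
/-- volume above and below the approximating plane.  `C1` from `FE_ah`, `C2` from `FE_tilt`; `C = 4 C1 + 2`.  Given `θ, κ` choose
`s` with `2 s C2 Λ ≤ κ θ^2 / 2`, then `η` with `C1 η s⁻¹^(d-1) ≤ θ^2`, `lam = 2 C2 Λ ε / η`, so `β = lam e + C2 Λ ε^2 / lam ≤ η ε` for small `e`;
`FE_col` gives the hypothesis of `FE_ah`; for `‖pr y‖ < 2θ`, `|u_s - c₀ - ⟪g,.⟫| ≤ (4 C1 + 1) ε θ^2`; `FE_pairs` with `a = ε θ^2`. -/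
theorem FE_vols (hd : 1 ≤ d) {Λ : ℝ} (hΛ : 0 < Λ) : ∃ C > 0, ∀ θ κ : ℝ, 0 < θ → θ ≤ 1 / 4 → 0 < κ → ∃ e₀ > 0,
    ∀ (Ω : Set (R d)) (ε e c : ℝ), Sl Ω ε Λ e c → 0 ≤ e → e ≤ e₀ →
      ∃ (c₀ : ℝ) (g : E d), |c₀| ≤ C * ε ∧ ‖g‖ ≤ C * ε ∧
        volume (Ω ∩ ball 0 (2 * θ) ∩ {y | c₀ + C * ε * θ ^ 2 < ht y - ⟪g, pr y⟫_ℝ}) ≤ ENNReal.ofReal (κ * ε) ∧
        volume (Ωᶜ ∩ ball 0 (2 * θ) ∩ {y | ht y - ⟪g, pr y⟫_ℝ < c₀ - C * ε * θ ^ 2}) ≤ ENNReal.ofReal (κ * ε) := by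
  obtain ⟨k, C1, hC1, hk, hah⟩ := FE_ah hd
  obtain ⟨C2, hC2, htl⟩ := FE_tilt d
  refine ⟨4 * C1 + 2, by positivity, fun θ κ hθ hθ' hκ => ?_⟩
  obtain ⟨s, hs0, hs1, hs2⟩ : ∃ s : ℝ, 0 < s ∧ s ≤ 1 ∧ 4 * C2 * Λ * s ≤ κ * θ ^ 2 := by
    refine ⟨min 1 (κ * θ ^ 2 / (4 * C2 * Λ)), by positivity, min_le_left _ _, ?_⟩
    have := min_le_right 1 (κ * θ ^ 2 / (4 * C2 * Λ))
    rwa [le_div_iff₀' (by positivity)] at this
  obtain ⟨η, hη0, hη⟩ : ∃ η : ℝ, 0 < η ∧ C1 * η * s⁻¹ ^ (d - 1) = θ ^ 2 :=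
    ⟨θ ^ 2 / (C1 * s⁻¹ ^ (d - 1)), by positivity, by field_simp⟩
  refine ⟨min (κ * θ ^ 2 / 8) (η ^ 2 / (4 * C2 * Λ)), by positivity, fun Ω ε e c h he he0 => ?_⟩
  have hε := h.pos
  have he1 : e ≤ κ * θ ^ 2 / 8 := he0.trans (min_le_left _ _)
  have he2 : 4 * C2 * Λ * e ≤ η ^ 2 := by
    have := he0.trans (min_le_right _ _)
    rwa [le_div_iff₀' (by positivity)] at this
  obtain ⟨hT, hβ⟩ := htl Ω ε Λ e c h hΛ.le he
  have hβ' := (hβ (2 * C2 * Λ * ε / η) (by positivity)).trans (ENNReal.ofReal_le_ofReal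
    (show _ ≤ η * ε by
      have h1 : C2 * Λ * ε ^ 2 / (2 * C2 * Λ * ε / η) = η * ε / 2 := by field_simp
      have h2 : 2 * C2 * Λ * ε / η * e ≤ η * ε / 2 := by
        rw [div_mul_eq_mul_div, div_le_iff₀ hη0]
        linarith only [mul_le_mul_of_nonneg_left he2 hε.le]
      linarith only [h1, h2]))
  obtain ⟨c₀, g, hc₀, hg, hu⟩ := hah (colU Ω ε) ε (η * ε) (FE_colU_meas h.meas ε)
    (FE_colU_abs Ω hε.le) (by positivity) (FE_col h (by positivity) hβ')
  obtain ⟨hkc, hk0, hks, hk1⟩ := hk s hs0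
  have hpr : ∀ x ∈ ball (0 : R d) (2 * θ), ‖pr x‖ < 2 * θ := fun x hx =>
    (FE_norm_pr_le x).trans_lt (mem_ball_zero_iff.1 hx)
  have hpr1 : ∀ x ∈ ball (0 : R d) (2 * θ), pr x ∈ ball (0 : E d) 1 := fun x hx =>
    mem_ball_zero_iff.2 ((hpr x hx).trans_le (by linarith only [hθ, hθ']))
  have hu' : ∀ x ∈ ball (0 : R d) (2 * θ),
      |(∫ z, k s z * colU Ω ε (pr x + z)) - c₀ - ⟪g, pr x⟫_ℝ| ≤ (4 * C1 + 1) * ε * θ ^ 2 := by
    intro x hx
    refine (hu s hs0 hs1 _ (hpr1 x hx)).trans ?_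
    have h1 : ‖pr x‖ ^ 2 ≤ (2 * θ) ^ 2 := by
      have := (hpr x hx).le
      gcongr
    have h2 : C1 * (η * ε) * s⁻¹ ^ (d - 1) = ε * θ ^ 2 := by rw [← hη]; ring
    have h3 : C1 * ε * ‖pr x‖ ^ 2 ≤ C1 * ε * (2 * θ) ^ 2 := by gcongr
    rw [h2]
    linarith only [h3]
  have hfin : ENNReal.ofReal (2 * ε * (s * (C2 * Λ * ε) + 2 * ε * e) / (ε * θ ^ 2)) ≤
      ENNReal.ofReal (κ * ε) := by
    refine ENNReal.ofReal_le_ofReal ?_
    rw [div_le_iff₀ (by positivity)]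
    linarith only [mul_le_mul_of_nonneg_left hs2 (sq_nonneg ε), mul_le_mul_of_nonneg_left he1 (sq_nonneg ε)]
  have hcont : Continuous fun y : R d => ht y - ⟪g, pr y⟫_ℝ :=
    FE_contDiff_ht.continuous.sub (continuous_const.inner FE_contDiff_pr.continuous)
  have hCε : C1 * ε ≤ (4 * C1 + 2) * ε := by gcongr; linarith only [hC1, hθ, hθ']
  refine ⟨c₀, g, hc₀.trans hCε, hg.trans hCε, ?_, ?_⟩
  · refine (FE_pairs h he (by positivity) hT hs0 hs1 (a := ε * θ ^ 2) (by positivity) hkc hk0 hks hk1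
      ((h.meas.inter measurableSet_ball).inter (isOpen_lt continuous_const hcont).measurableSet)
      (fun x hx => hpr1 x hx.1.2) (Or.inr fun x hx => ⟨hx.1.1, ?_⟩)).trans hfin
    have h1 := (abs_le.1 (hu' x hx.1.2)).2
    have h2 : c₀ + (4 * C1 + 2) * ε * θ ^ 2 < ht x - ⟪g, pr x⟫_ℝ := hx.2
    linarith only [h1, h2]
  · refine (FE_pairs h he (by positivity) hT hs0 hs1 (a := ε * θ ^ 2) (by positivity) hkc hk0 hks hk1
      ((h.meas.compl.inter measurableSet_ball).inter (isOpen_lt hcont continuous_const).measurableSet)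
      (fun x hx => hpr1 x hx.1.2) (Or.inl fun x hx => ⟨hx.1.1, ?_⟩)).trans hfin
    have h1 := (abs_le.1 (hu' x hx.1.2)).1
    have h2 : ht x - ⟪g, pr x⟫_ℝ < c₀ - (4 * C1 + 2) * ε * θ ^ 2 := hx.2
    linarith only [h1, h2]
end FE12

section FE13
theorem FE13_alg {A M ε θ K e κ : ℝ} (hA : 0 < A) (hM : 0 ≤ M) (hε : 0 < ε) (hθ : 0 < θ) (hεθ : ε ≤ θ)
    (hK : 0 < K) (hκ0 : 0 ≤ κ) (he : K ^ 3 * e ≤ A * θ ^ 6 / 2)
    (hκ : (4 * K ^ 3 + 6 * K ^ 2) * κ ≤ A * θ ^ 6 / 2)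
    (h : A * M ^ 3 ≤ (K * ε) ^ 3 * e + (4 * (K * ε) ^ 3 / θ + 6 * (K * ε) ^ 2) * (κ * ε)) :
    M ≤ ε * θ ^ 2 := by
  have h1 : ε / θ ≤ 1 := (div_le_one hθ).2 hεθ
  have h2 : (K * ε) ^ 3 * e + (4 * (K * ε) ^ 3 / θ + 6 * (K * ε) ^ 2) * (κ * ε) =
      ε ^ 3 * (K ^ 3 * e + (4 * K ^ 3 * (ε / θ) + 6 * K ^ 2) * κ) := by ring
  have h3 : (4 * K ^ 3 * (ε / θ) + 6 * K ^ 2) * κ ≤ (4 * K ^ 3 + 6 * K ^ 2) * κ := by
    refine mul_le_mul_of_nonneg_right ?_ hκ0
    have h4 : 4 * K ^ 3 * (ε / θ) ≤ 4 * K ^ 3 * 1 := mul_le_mul_of_nonneg_left h1 (by positivity)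
    linarith only [h4]
  have h5 : ε ^ 3 * (K ^ 3 * e + (4 * K ^ 3 * (ε / θ) + 6 * K ^ 2) * κ) ≤ ε ^ 3 * (A * θ ^ 6) :=
    mul_le_mul_of_nonneg_left (by linarith only [he, hκ, h3]) (by positivity)
  have h6 : A * M ^ 3 ≤ A * (ε * θ ^ 2) ^ 3 := by
    have h7 : A * (ε * θ ^ 2) ^ 3 = ε ^ 3 * (A * θ ^ 6) := by ring
    rw [h7]
    exact h.trans (h2.le.trans h5)
  exact (pow_le_pow_iff_left₀ hM (by positivity) (by norm_num)).1 (le_of_mul_le_mul_left h6 hA)

/-- `FE_vols` (constant `C0`), `FE_ht_up` / `FE_ht_down` with `b = c₀ ± C0 ε θ^2`, `N = 2 C0 ε`, `V = κ ε`, `K = 1 + 2 C0`: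
right side `≤ ε^3 (K^3 e + (4 K^3 + 6 K^2) κ)` when `ε ≤ θ`; choose `κ, e₀` so that this is `≤ c / 2^(d+1) (ε θ^2)^3 θ^d`; `C = C0 + 1`. -/
theorem FE_core (hd : 1 ≤ d) {Λ c : ℝ} (hΛ : 0 < Λ) (hc : 0 < c) : ∃ C > 0, ∀ θ : ℝ, 0 < θ → θ ≤ 1 / 4 →
    ∃ e₀ > 0, ∀ (Ω : Set (R d)) (ε e : ℝ), Sl Ω ε Λ e c → ε ≤ e₀ → 0 ≤ e → e ≤ e₀ →
      ∃ (c₀ : ℝ) (g : E d), ‖g‖ ≤ C * ε ∧ ∀ x ∈ (pm Ω).support ∩ ball 0 θ,
        |ht x - c₀ - ⟪g, pr x⟫_ℝ| ≤ C * ε * θ ^ 2 := by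
  obtain ⟨C0, hC0, hv⟩ := FE_vols hd hΛ
  refine ⟨C0 + 1, by linarith only [hC0], fun θ hθ hθ' => ?_⟩
  obtain ⟨K, hKd⟩ : ∃ K : ℝ, K = 1 + 2 * C0 := ⟨_, rfl⟩
  have hK : 0 < K := by rw [hKd]; linarith only [hC0, hθ, hθ']
  obtain ⟨A, hAd⟩ : ∃ A : ℝ, A = c / 2 ^ (d + 1) * θ ^ d := ⟨_, rfl⟩
  have hA : 0 < A := by rw [hAd]; positivity
  have hD : 0 < 4 * K ^ 3 + 6 * K ^ 2 := by positivity
  have hK3 : 0 < K ^ 3 := by positivity
  have hm : 0 < A * θ ^ 6 / 2 := by positivity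
  obtain ⟨κ, hκd⟩ : ∃ κ : ℝ, κ = A * θ ^ 6 / 2 / (4 * K ^ 3 + 6 * K ^ 2) := ⟨_, rfl⟩
  have hκ : 0 < κ := by rw [hκd]; exact div_pos hm hD
  have hκ1 : (4 * K ^ 3 + 6 * K ^ 2) * κ ≤ A * θ ^ 6 / 2 := by
    rw [hκd, mul_div_cancel₀ _ hD.ne']
  obtain ⟨e₁, he₁, hv⟩ := hv θ κ hθ hθ' hκ
  refine ⟨min (min e₁ θ) (min (1 / C0) (A * θ ^ 6 / 2 / K ^ 3)),
    lt_min (lt_min he₁ hθ) (lt_min (by positivity) (div_pos hm hK3)), fun Ω ε e h hε he0 he => ?_⟩
  have hεp := h.pos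
  have a1 : ε ≤ θ := hε.trans ((min_le_left _ _).trans (min_le_right _ _))
  have a2 : ε ≤ 1 / C0 := hε.trans ((min_le_right _ _).trans (min_le_left _ _))
  have a3 : e ≤ e₁ := he.trans ((min_le_left _ _).trans (min_le_left _ _))
  have a4 : e ≤ A * θ ^ 6 / 2 / K ^ 3 := he.trans ((min_le_right _ _).trans (min_le_right _ _))
  have a5 : K ^ 3 * e ≤ A * θ ^ 6 / 2 := by
    rw [le_div_iff₀ hK3] at a4
    linarith only [a4]
  have a6 : C0 * ε ≤ 1 := by
    rw [le_div_iff₀ hC0] at a2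
    linarith only [a2]
  obtain ⟨c₀, g, b1, b2, b3, b4⟩ := hv Ω ε e c h he0 a3
  have hCε : 0 < C0 * ε := mul_pos hC0 hεp
  have hCθ : 0 ≤ C0 * ε * θ ^ 2 := by positivity
  refine ⟨c₀, g, by linarith only [hεp, b2], fun x hx => ?_⟩
  have hb : ball x θ ⊆ ball (0 : R d) (2 * θ) := by
    refine ball_subset_ball' ?_
    have := mem_ball.1 hx.2
    linarith only [this]
  have hKε : ε + 2 * (C0 * ε) = K * ε := by rw [hKd]; ring
  obtain ⟨b5, b6⟩ := abs_le.1 b1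
  have u1 := FE_ht_up h he0 hc hθ hθ' hx (g := g) (b := c₀ + C0 * ε * θ ^ 2) (N := 2 * (C0 * ε))
    (V := κ * ε) (by linarith only [a6, b2]) (by linarith only [b2, hCθ, b5]) (by linarith only [hCε]) (by positivity)
    ((measure_mono (inter_subset_inter_left _ (inter_subset_inter_right _ hb))).trans b3)
  have u2 := FE_ht_down h he0 hc hθ hθ' hx (g := g) (b := c₀ - C0 * ε * θ ^ 2) (N := 2 * (C0 * ε))
    (V := κ * ε) (by linarith only [a6, b2]) (by linarith only [b2, hCθ, b6]) (by linarith only [hCε]) (by positivity)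
    ((measure_mono (inter_subset_inter_left _ (inter_subset_inter_right _ hb))).trans b4)
  rw [hKε, mul_right_comm, ← hAd] at u1 u2
  have v1 := FE13_alg hA (le_max_right _ _) hεp hθ a1 hK hκ.le a5 hκ1 u1
  have v2 := FE13_alg hA (le_max_right _ _) hεp hθ a1 hK hκ.le a5 hκ1 u2
  have w1 := (le_max_left _ _).trans v1
  have w2 := (le_max_left _ _).trans v2
  have e1 : (C0 + 1) * ε * θ ^ 2 = C0 * ε * θ ^ 2 + ε * θ ^ 2 := by ring
  rw [e1, abs_le]
  constructor <;> linarith only [w2, w1]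
end FE13

end Pool.Agent.MP_5cfeaf_gt.W
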