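import Pool.Agent.MP_5cfeaf_gt.EpsA
import Pool.Agent.MP_5cfeaf_gt.PerB
import Pool.Agent.MP_5cfeaf_gt.SimA

attribute [-instance] ProperSMul.toContinuousSMul IsScalarTower.complexToReal
  AddQuantale.instAddLeftMono IdemSemiring.toCanonicallyOrderedAdd
  NonUnitalNonAssocSemiring.toMulZeroClass TotallySeparatedSpace.t2Space AddGroupWithOne.toAddGroup
  NonUnitalAlgSemiHomClass.toDistribMulActionSemiHomClass NumberField.to_charZero
  CoalgHomClass.toSemilinearMapClass littleWedderburn RingHomClass.toLinearMapClassNNRat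
  AddQuantale.instAddRightMono Valued.toUniformSpace
  MeasureTheory.Measure.IsHaarMeasure.toIsOpenPosMeasure
  NonarchimedeanAddGroup.toIsTopologicalAddGroup MulZeroOneClass.toMulZeroClass
  LinearOrderedCommMonoidWithZero.toPosMulStrictMono FunLike.toDecidableEq
  MonoidWithZeroHomClass.toZeroHomClass RingHomClass.toLinearMapClassRat
  GrpTypeEquivalenceGrp.grpGroup Quantale.instMulRightMono Quantale.instMulLeftMono
  IsSemitopologicalRing.toContinuousNeg IdemSemiring.toMulLeftMono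
  CStarAlgebra.instOrderClosedTopology IsTopologicalRing.toContinuousNeg
  NonUnitalNonAssocSemiring.toDistrib IdemSemiring.toSemiring
  NonUnitalNormedRing.toNormedAddCommGroup NormedCommRing.toCommRing SeminormedCommRing.toCommRing
  IsTopologicalTorsor.toContinuousSMul MeasurableSingletonClass.toDiscreteMeasurableSpace
  CStarAlgebra.toNormedRing IsModuleTopology.instSubsingleton

/-! Epsilon regularity of minimisers. -/

set_option autoImplicit false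

open MeasureTheory Set Filter Topology Metric
open scoped ENNReal symmDiff Classical InnerProductSpace ContDiff

namespace Pool.Agent.MP_5cfeaf_gt.W

variable {d : ℕ}

section FE14a
/-- `paste_fun` in `U = ball 0 ρ'`, minimality, cancel the finite term `∫⁻ (1 - ψ)` -/
theorem FE_cmp {Ω G O : Set (R d)} (h : Min Ω O) (hG : MeasurableSet G) {ρ ρ' : ℝ} (hρ : ρ < ρ')
    (hO : closedBall 0 ρ' ⊆ O) {ψ : R d → ℝ} (hψ : ContDiff ℝ 1 ψ) (h0 : ∀ x, 0 ≤ ψ x) (h1 : ∀ x, ψ x ≤ 1)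
    (hs : ∀ x, x ∉ ball (0 : R d) ρ → ψ x = 0) :
    ∫⁻ x, ENNReal.ofReal (ψ x) ∂pm Ω ≤ ∫⁻ x, ENNReal.ofReal (ψ x) ∂pm G +
      ∫⁻ x in ball 0 ρ' ∩ (G ∆ Ω), ‖fderiv ℝ ψ x‖ₑ := by
  obtain ⟨s, hs01, hp⟩ := paste_fun hG h.1 (isOpen_ball (x := (0 : R d)) (ε := ρ')) hψ h0 h1
  have hZ : MeasurableSet {x | s < ψ x} := (isOpen_lt continuous_const hψ.continuous).measurableSet
  have hmin := h.2.2 0 ρ ρ' _ hρ hO ((hG.inter hZ).union (h.1.diff hZ)) (by
    intro x hx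
    by_contra hxb
    have : x ∉ {x | s < ψ x} := fun hlt => by
      have h2 : s < ψ x := hlt
      rw [hs x hxb] at h2
      exact absurd hs01.1 h2.not_gt
    simp only [Set.mem_symmDiff, Set.mem_union, Set.mem_inter_iff, Set.mem_sdiff, this] at hx
    tauto)
  have hm : Measurable fun x => ENNReal.ofReal (ψ x) := hψ.continuous.measurable.ennreal_ofReal
  have hsum : ∫⁻ x in ball 0 ρ', ENNReal.ofReal (ψ x) ∂pm Ω +
      ∫⁻ x in ball 0 ρ', ENNReal.ofReal (1 - ψ x) ∂pm Ω = pm Ω (ball 0 ρ') := by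
    rw [← lintegral_add_left hm, ← setLIntegral_one]
    refine lintegral_congr fun x => ?_
    rw [← ENNReal.ofReal_add (h0 x) (sub_nonneg.2 (h1 x)), add_sub_cancel, ENNReal.ofReal_one]
  have hfin : ∫⁻ x in ball 0 ρ', ENNReal.ofReal (1 - ψ x) ∂pm Ω ≠ ⊤ := by
    refine ne_top_of_le_ne_top (pm_lt_top (isCompact_closedBall (0 : R d) ρ') (hO.trans h.2.1)).ne ?_
    refine le_trans ?_ (measure_mono ball_subset_closedBall)
    rw [← hsum]
    exact le_add_self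
  have h2 := hmin.trans hp
  rw [← hsum, add_right_comm, ENNReal.add_le_add_iff_right hfin,
    setLIntegral_eq_of_support_subset (fun x hx => by
      by_contra hxb
      exact hx (by simp [hs x fun hb => hxb (ball_subset_ball hρ.le hb)]))] at h2
  exact h2.trans (add_le_add (setLIntegral_le_lintegral _ _) le_rfl)

/-- Fubini or a box: the slab in the ball has volume `O(ε)` -/
theorem FE_slab_vol (d : ℕ) : ∃ C > 0, ∀ ε : ℝ, 0 < ε →
    volume (ball (0 : R d) 4 ∩ {x | |ht x| ≤ ε}) ≤ ENNReal.ofReal (C * ε) := by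
  refine ⟨(volume (ball (0 : E d) 4)).toReal * 2,
    mul_pos (ENNReal.toReal_pos (measure_ball_pos volume _ (by norm_num)).ne' measure_ball_lt_top.ne)
      two_pos, fun ε hε => ?_⟩
  have hT : MeasurableSet ((pr : R d → E d) ⁻¹' ball 0 4 ∩ ht ⁻¹' Icc (-ε) ε) :=
    (FE_contDiff_pr.continuous.measurable measurableSet_ball).inter
      (FE_contDiff_ht.continuous.measurable measurableSet_Icc)
  refine (measure_mono (t := (pr : R d → E d) ⁻¹' ball 0 4 ∩ ht ⁻¹' Icc (-ε) ε) ?_).trans ?_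
  · intro x hx
    exact ⟨mem_ball_zero_iff.2 ((FE_norm_pr_le x).trans_lt (mem_ball_zero_iff.1 hx.1)), abs_le.1 hx.2⟩
  · rw [← measurePreserving_coord.measure_preimage hT.nullMeasurableSet]
    have : (fun q : E d × ℝ => mk q.1 q.2) ⁻¹' ((pr : R d → E d) ⁻¹' ball 0 4 ∩ ht ⁻¹' Icc (-ε) ε) =
        ball (0 : E d) 4 ×ˢ Icc (-ε) ε := by
      ext q
      simp only [Set.mem_preimage, Set.mem_inter_iff, pr_mk, ht_mk, Set.mem_prod]
    rw [this, Measure.prod_prod, Real.volume_Icc, mul_assoc, ENNReal.ofReal_mul ENNReal.toReal_nonneg,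
      ENNReal.ofReal_toReal measure_ball_lt_top.ne]
    exact le_of_eq (by ring_nf)

theorem FE14a_dv {f : R d → ℝ} (hf : ContDiff ℝ 1 f) (e x : R d) :
    dv (fun y => f y • e) x = fderiv ℝ f x e := by
  unfold dv
  rw [fderiv_smul_const (hf.differentiable one_ne_zero x)]
  conv_rhs => rw [← (EuclideanSpace.basisFun (Fin (d + 1)) ℝ).sum_repr e]
  simp [mul_comm]

theorem FE14a_nu : cyl (0 : E d) 5 0 5 ⊆ lf (Hs d) ∧
    ∀ᵐ x ∂pm (Hs d), x ∈ cyl (0 : E d) 5 0 5 → (nu (Hs d) x : R d) = en d := by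
  have hH : MeasurableSet (Hs d) := (isOpen_lt FE_contDiff_ht.continuous continuous_const).measurableSet
  obtain ⟨h1, h2⟩ := vf_graph hH (u := fun _ => 0) contDiff_const (y := 0) (r := 5) (t := 0) (h := 5)
    (fun _ _ => by norm_num) (by
      have : Hs d ∆ {x : R d | ht x < 0} = ∅ := symmDiff_self _
      rw [this, Set.empty_inter, measure_empty])
  refine ⟨h1, (ae_restrict_iff' (FE_isOpen_cyl _ _ _ _).measurableSet).1 ?_⟩
  have hN : MeasurableSet {p : R d × S d | (p.2 : R d) = en d} :=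
    (isClosed_eq (continuous_subtype_val.comp continuous_snd) continuous_const).measurableSet
  have h3 : ∀ᵐ p ∂vf (Hs d) (cyl (0 : E d) 5 0 5), (p.2 : R d) = en d := by
    rw [h2]
    simp only [gradient_fun_const, neg_zero]
    refine (ae_map_iff (((FE_continuous_mk.comp (continuous_id.prodMk continuous_const)).prodMk
      continuous_const).measurable.aemeasurable) hN).2 (Eventually.of_forall fun z => ?_)
    have h4 : en d ≠ 0 := norm_ne_zero_iff.1 (by rw [norm_en]; exact one_ne_zero)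
    show (toS (en d) : R d) = en d
    simp [toS, h4, norm_en]
  exact ae_of_ae_map (measurable_id.prodMk (measurable_nu _)).aemeasurable h3

/-- `vf_graph` with `u = 0` on `cyl 0 5 0 5`: the normal of the half space is `en d` a.e.; `gauss` with `T = ψ • en d` -/
theorem FE_half {ψ : R d → ℝ} (hψ : C1c ψ (ball 0 4)) (h0 : ∀ x, 0 ≤ ψ x) :
    ∫⁻ x, ENNReal.ofReal (ψ x) ∂pm (Hs d) = ENNReal.ofReal (∫ x in Hs d, fderiv ℝ ψ x (en d)) ∧
      0 ≤ ∫ x in Hs d, fderiv ℝ ψ x (en d) := by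
  obtain ⟨h1, h2⟩ := FE14a_nu (d := d)
  have hb : tsupport ψ ⊆ cyl (0 : E d) 5 0 5 :=
    hψ.2.2.trans (FE_ball_subset_cyl (by norm_num) (by norm_num))
  have hT : C1c (fun x => ψ x • en d) (lf (Hs d)) :=
    ⟨hψ.1.smul contDiff_const, hψ.2.1.smul_right, (tsupport_smul_subset_left _ _).trans (hb.trans h1)⟩
  have hg := gauss (Hs d) hT
  simp only [FE14a_dv hψ.1] at hg
  have h3 : ∫ x, ⟪ψ x • en d, (nu (Hs d) x : R d)⟫_ℝ ∂pm (Hs d) = ∫ x, ψ x ∂pm (Hs d) := by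
    refine integral_congr_ae (h2.mono fun x hx => ?_)
    by_cases hxc : x ∈ cyl (0 : E d) 5 0 5
    · simp only [hx hxc, real_inner_smul_left, real_inner_self_eq_norm_sq, norm_en]
      ring
    · simp [image_eq_zero_of_notMem_tsupport fun hx' => hxc (hb hx')]
  have hi : Integrable ψ (pm (Hs d)) :=
    (integrableOn_iff_integrable_of_support_subset (subset_tsupport ψ)).1
      (hψ.1.continuous.continuousOn.integrableOn_of_subset_isCompact hψ.2.1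
        (isClosed_tsupport ψ).measurableSet subset_rfl (pm_lt_top hψ.2.1 (hb.trans h1)).ne)
  rw [hg, h3]
  exact ⟨(ofReal_integral_eq_lintegral_ofReal hi (Eventually.of_forall h0)).symm, integral_nonneg h0⟩
end FE14a

section FE14
theorem FE14_dv {ψ : R d → ℝ} (hψ : ContDiff ℝ 1 ψ) (v x : R d) :
    dv (fun y => ψ y • v) x = fderiv ℝ ψ x v := by
  have h1 : HasFDerivAt (fun y => ψ y • v) ((fderiv ℝ ψ x).smulRight v) x :=
    (hψ.differentiable one_ne_zero x).hasFDerivAt.smul_const v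
  unfold dv
  rw [h1.fderiv]
  conv_rhs => rw [← (EuclideanSpace.basisFun (Fin (d + 1)) ℝ).sum_repr v]
  rw [map_sum]
  refine Finset.sum_congr rfl fun i _ => ?_
  rw [map_smul, smul_eq_mul, mul_comm]
  simp

theorem FE14_diff {g : R d → ℝ} (hg : Integrable g) {A A' D : Set (R d)} (hA : MeasurableSet A)
    (hA' : MeasurableSet A') (hD : MeasurableSet D) {K v : ℝ} (hK0 : 0 ≤ K) (hv0 : 0 ≤ v)
    (hK : ∀ x, |g x| ≤ K) (h0 : ∀ x, x ∉ D → g x = 0)
    (hv : volume ((A ∆ A') ∩ D) ≤ ENNReal.ofReal v) :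
    ∫ x in A', g x ≤ (∫ x in A, g x) + K * v := by
  have hm : MeasurableSet ((A ∆ A') ∩ D) := (hA.symmDiff hA').inter hD
  have hfin : volume ((A ∆ A') ∩ D) ≠ ⊤ := ne_top_of_le_ne_top ENNReal.ofReal_ne_top hv
  have h1 : (∫ x in A', g x) - ∫ x in A, g x ≤ ∫ x, ((A ∆ A') ∩ D).indicator (fun _ => K) x := by
    rw [← integral_indicator hA, ← integral_indicator hA',
      ← integral_sub (hg.indicator hA') (hg.indicator hA)]
    refine integral_mono ((hg.indicator hA').sub (hg.indicator hA))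
      ((integrableOn_const hfin).integrable_indicator hm) fun x => ?_
    have h2 := abs_le.1 (hK x)
    by_cases hx : x ∈ D
    · by_cases ha : x ∈ A <;> by_cases ha' : x ∈ A' <;>
        simp [indicator, ha, ha', hx, Set.mem_symmDiff] <;> linarith [h2.1, h2.2]
    · simp [indicator, hx, h0 x hx]
  rw [integral_indicator hm, setIntegral_const, smul_eq_mul, Measure.real] at h1
  have h3 : (volume ((A ∆ A') ∩ D)).toReal ≤ v := ENNReal.toReal_le_of_le_ofReal hv0 hv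
  nlinarith only [hK0, h1, h3]

/-- `ψ` a `ContDiffBump 0` with `rIn = 16/5`, `rOut = 7/2`, `|Dψ| ≤ K`; `v = vol ((Ω ∆ Hs) ∩ ball 0 4) ≤ C ε`;
`∫ ψ dpm Ω ≤ ∫_Hs ∂_n ψ + K v` (`FE_cmp`, `FE_half`), `∫ ψ ν_n dpm Ω = ∫_Ω ∂_n ψ ≥ ∫_Hs ∂_n ψ - K v` (`gauss`). -/
theorem FE_exc (d : ℕ) : ∃ Λ > 0, ∃ C > 0, ∀ (Ω : Set (R d)) (ε : ℝ), 0 < ε → ε ≤ 1 → Min Ω (ball 0 4) →
    volume (((Ω ∆ Hs d) ∩ ball 0 4) \ {x | |ht x| ≤ ε}) = 0 →
    pm Ω (Cy d) ≤ ENNReal.ofReal Λ ∧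
      ∫⁻ p, ENNReal.ofReal (1 - ht (p.2 : R d)) ∂vf Ω (Cy d) ≤ ENNReal.ofReal (C * ε) := by
  obtain ⟨C₀, hC₀, hsl⟩ := FE_slab_vol d
  let b : ContDiffBump (0 : R d) := ⟨16 / 5, 7 / 2, by norm_num, by norm_num⟩
  have hψ : ContDiff ℝ 1 b := b.contDiff
  have hts : tsupport b ⊆ ball (0 : R d) 4 := by
    rw [b.tsupport_eq]
    exact closedBall_subset_ball (by norm_num [b])
  have hC1 : C1c b (ball (0 : R d) 4) := ⟨hψ, b.hasCompactSupport, hts⟩
  have hDc : Continuous (fderiv ℝ b) := hψ.continuous_fderiv one_ne_zero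
  obtain ⟨K, hK⟩ := hDc.bounded_above_of_compact_support (b.hasCompactSupport.fderiv ℝ)
  have hK0 : 0 ≤ K := (norm_nonneg _).trans (hK 0)
  obtain ⟨hH, hH0⟩ := FE_half hC1 fun x => b.nonneg
  set I : ℝ := ∫ x in Hs d, fderiv ℝ b x (en d) with hI
  have hKC : 0 ≤ K * C₀ := mul_nonneg hK0 hC₀.le
  refine ⟨I + K * C₀ + 1, by linarith, 2 * (K * C₀) + 1, by linarith only [hKC], ?_⟩
  intro Ω ε hε hε1 hmin hnull
  have hΩ : MeasurableSet Ω := hmin.1
  have hhtc : Continuous (ht : R d → ℝ) := FE_contDiff_ht.continuous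
  have hHs : MeasurableSet (Hs d) := (isOpen_lt hhtc continuous_const).measurableSet
  have hv : volume ((Ω ∆ Hs d) ∩ ball 0 4) ≤ ENNReal.ofReal (C₀ * ε) := by
    calc volume ((Ω ∆ Hs d) ∩ ball 0 4)
        ≤ volume ((((Ω ∆ Hs d) ∩ ball 0 4) \ {x | |ht x| ≤ ε}) ∪
            (ball (0 : R d) 4 ∩ {x | |ht x| ≤ ε})) := by
          refine measure_mono fun x hx => ?_
          by_cases h : |ht x| ≤ ε
          · exact Or.inr ⟨hx.2, h⟩
          · exact Or.inl ⟨hx, h⟩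
      _ ≤ ENNReal.ofReal (C₀ * ε) := by
          refine (measure_union_le _ _).trans ?_
          rw [hnull, zero_add]
          exact hsl ε hε
  have hCε : 0 ≤ C₀ * ε := mul_nonneg hC₀.le hε.le
  have hcmp : ∫⁻ x, ENNReal.ofReal (b x) ∂pm Ω ≤ ENNReal.ofReal (I + K * (C₀ * ε)) := by
    have h1 := FE_cmp hmin hHs (ρ := 7 / 2) (ρ' := 15 / 4) (by norm_num)
      (closedBall_subset_ball (by norm_num)) hψ (fun x => b.nonneg) (fun x => b.le_one)
      (fun x hx => b.zero_of_le_dist (not_lt.1 hx))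
    rw [hH] at h1
    refine h1.trans ?_
    rw [ENNReal.ofReal_add hH0 (mul_nonneg hK0 hCε), ENNReal.ofReal_mul hK0]
    gcongr
    calc ∫⁻ x in ball 0 (15 / 4) ∩ (Hs d ∆ Ω), ‖fderiv ℝ b x‖ₑ
        ≤ ∫⁻ _ in ball 0 (15 / 4) ∩ (Hs d ∆ Ω), ENNReal.ofReal K := by
          refine lintegral_mono fun x => ?_
          rw [← ofReal_norm]
          exact ENNReal.ofReal_le_ofReal (hK x)
      _ ≤ ENNReal.ofReal K * ENNReal.ofReal (C₀ * ε) := by
          rw [setLIntegral_const]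
          gcongr
          refine le_trans (measure_mono fun x hx => ?_) hv
          exact ⟨symmDiff_comm (Hs d) Ω ▸ hx.2, ball_subset_ball (by norm_num) hx.1⟩
  have hCy : MeasurableSet (Cy d) := (FE_isOpen_cyl _ _ _ _).measurableSet
  have hone : ∀ x ∈ Cy d, b x = 1 := fun x hx =>
    b.one_of_mem_closedBall (ball_subset_closedBall (FE_Cy_subset hx))
  have hnu : Measurable fun x => ht (nu Ω x : R d) :=
    hhtc.measurable.comp (measurable_subtype_coe.comp (measurable_nu Ω))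
  have habs : ∀ x, |ht (nu Ω x : R d)| ≤ 1 := fun x =>
    (FE_abs_ht_le _).trans (mem_sphere_zero_iff_norm.mp (nu Ω x).2).le
  constructor
  · calc pm Ω (Cy d) = ∫⁻ x in Cy d, ENNReal.ofReal (b x) ∂pm Ω := by
          rw [setLIntegral_congr_fun hCy (g := fun _ => 1) fun x hx => by simp [hone x hx]]
          simp only [lintegral_const, MeasurableSet.univ, Measure.restrict_apply, univ_inter, one_mul]
      _ ≤ ENNReal.ofReal (I + K * (C₀ * ε)) := (setLIntegral_le_lintegral _ _).trans hcmp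
      _ ≤ _ := ENNReal.ofReal_le_ofReal (by nlinarith only [hKC, hε1])
  · have hi1 : Integrable b (pm Ω) :=
      (lintegral_ofReal_ne_top_iff_integrable hψ.continuous.aestronglyMeasurable
        (Eventually.of_forall fun x => b.nonneg)).1 (ne_top_of_le_ne_top ENNReal.ofReal_ne_top hcmp)
    have hi2 : Integrable (fun x => b x * ht (nu Ω x : R d)) (pm Ω) := by
      refine hi1.mono' (hψ.continuous.measurable.mul hnu).aestronglyMeasurable
        (Eventually.of_forall fun x => ?_)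
      rw [Real.norm_eq_abs, abs_mul, abs_of_nonneg b.nonneg]
      exact mul_le_of_le_one_right b.nonneg (habs x)
    have h1 : ∫ x, b x ∂pm Ω ≤ I + K * (C₀ * ε) := by
      rw [integral_eq_lintegral_of_nonneg_ae (Eventually.of_forall fun x => b.nonneg)
        hψ.continuous.aestronglyMeasurable]
      exact ENNReal.toReal_le_of_le_ofReal (add_nonneg hH0 (mul_nonneg hK0 hCε)) hcmp
    have hT : C1c (fun y => b y • en d) (lf Ω) :=
      ⟨hψ.smul contDiff_const, b.hasCompactSupport.smul_right,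
        ((tsupport_smul_subset_left _ _).trans hts).trans hmin.2.1⟩
    have h2 : ∫ x in Ω, fderiv ℝ b x (en d) = ∫ x, b x * ht (nu Ω x : R d) ∂pm Ω := by
      have h3 := gauss Ω hT
      simp only [FE14_dv hψ, real_inner_smul_left, inner_en] at h3
      exact h3
    have h4 : I ≤ (∫ x in Ω, fderiv ℝ b x (en d)) + K * (C₀ * ε) := by
      refine FE14_diff ?_ hΩ hHs measurableSet_ball hK0 hCε (fun x => ?_) (fun x hx => ?_) hv
      · exact (hDc.clm_apply continuous_const).integrable_of_hasCompactSupport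
          (b.hasCompactSupport.fderiv_apply ℝ (en d))
      · have h5 := (fderiv ℝ b x).le_opNorm (en d)
        rw [norm_en, mul_one] at h5
        exact h5.trans (hK x)
      · have h5 : fderiv ℝ b x = 0 := by
          by_contra h6
          exact hx (hts (support_fderiv_subset ℝ h6))
        simp [h5]
    have hF : Measurable fun p : R d × S d => ENNReal.ofReal (1 - ht (p.2 : R d)) :=
      (measurable_const.sub (hhtc.measurable.comp
        (measurable_subtype_coe.comp measurable_snd))).ennreal_ofReal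
    rw [FE_lint_vf Ω (Cy d) hF]
    calc ∫⁻ x in Cy d, ENNReal.ofReal (1 - ht (nu Ω x : R d)) ∂pm Ω
        = ∫⁻ x in Cy d, ENNReal.ofReal (b x - b x * ht (nu Ω x : R d)) ∂pm Ω :=
          setLIntegral_congr_fun hCy fun x hx => by simp [hone x hx]
      _ ≤ ∫⁻ x, ENNReal.ofReal (b x - b x * ht (nu Ω x : R d)) ∂pm Ω :=
          setLIntegral_le_lintegral _ _
      _ = ENNReal.ofReal (∫ x, b x - b x * ht (nu Ω x : R d) ∂pm Ω) := by
          refine (ofReal_integral_eq_lintegral_ofReal (hi1.sub hi2)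
            (Eventually.of_forall fun x => ?_)).symm
          exact sub_nonneg.2 (mul_le_of_le_one_right b.nonneg (abs_le.1 (habs x)).2)
      _ ≤ _ := by
          rw [integral_sub hi1 hi2, ← h2]
          exact ENNReal.ofReal_le_ofReal (by linarith only [hε, h1, h4])
end FE14

section FE15a
theorem FE_min_compl {Ω O : Set (R d)} (h : Min Ω O) : Min Ωᶜ O := by
  refine ⟨h.1.compl, by rw [FE_lf_compl h.1]; exact h.2.1, fun x ρ ρ' F h1 h2 hF h3 => ?_⟩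
  rw [pm_compl h.1, ← pm_compl hF]
  refine h.2.2 x ρ ρ' Fᶜ h1 h2 hF.compl fun y hy => h3 ?_
  simp only [mem_symmDiff, mem_compl_iff] at hy ⊢
  tauto

theorem FE15a_bump (d : ℕ) : ∃ ψ : R d → ℝ, ∃ K > 0, ContDiff ℝ 1 ψ ∧ (∀ x, 0 ≤ ψ x) ∧ (∀ x, ψ x ≤ 1) ∧
    (∀ x, x ∉ ball (0 : R d) 2 → ψ x = 0) ∧ (∀ x ∈ closedBall (0 : R d) 1, ψ x = 1) ∧
    ∀ x, ‖fderiv ℝ ψ x‖ ≤ K := by
  let b : ContDiffBump (0 : R d) := ⟨1, 2, one_pos, one_lt_two⟩
  have hb : ContDiff ℝ 1 (b : R d → ℝ) := b.contDiff (n := 1)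
  obtain ⟨K, hK⟩ := (hb.continuous_fderiv one_ne_zero).bounded_above_of_compact_support
    (b.hasCompactSupport.fderiv ℝ)
  refine ⟨b, max K 1, lt_max_of_lt_right one_pos, hb, fun _ => b.nonneg, fun _ => b.le_one,
    fun x hx => b.zero_of_le_dist (by simpa using hx), fun x hx => b.one_of_mem_closedBall hx,
    fun x => (hK x).trans (le_max_left _ _)⟩

/-- if `Ω` is null in the ball outside the slab, `FE_cmp` with `G = ∅` gives `pm Ω (closedBall 0 1) ≤ C ε < c` -/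
theorem FE_not_null {c : ℝ} (hc : 0 < c) (hD : MinDens d c) : ∃ ε₀ > 0, ∀ (Ω : Set (R d)) (ε : ℝ), 0 < ε →
    ε ≤ ε₀ → Min Ω (ball 0 4) → (0 : R d) ∈ (pm Ω).support →
    volume ((Ω ∩ ball 0 4) \ {x | |ht x| ≤ ε}) ≠ 0 := by
  obtain ⟨ψ, K, hK, h1, h2, h3, h4, h5, h6⟩ := FE15a_bump d
  obtain ⟨C, hC, hv⟩ := FE_slab_vol d
  refine ⟨c / (2 * (K * C)), by positivity, fun Ω ε hε hε' hm h0 hn => ?_⟩
  have a1 := hD _ Ω 0 1 isOpen_ball hm h0 one_pos (closedBall_subset_ball (by norm_num))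
  rw [one_pow, mul_one] at a1
  have a2 : pm Ω (closedBall 0 1) ≤ ∫⁻ x, ENNReal.ofReal (ψ x) ∂pm Ω := by
    rw [← lintegral_indicator_one measurableSet_closedBall]
    refine lintegral_mono fun x => ?_
    by_cases hx : x ∈ closedBall (0 : R d) 1
    · simp only [indicator_of_mem hx, Pi.one_apply, h5 x hx, ENNReal.ofReal_one, Std.le_refl]
    · simp only [indicator_of_notMem hx, zero_le]
  have a3 := FE_cmp hm MeasurableSet.empty (ρ := 2) (ρ' := 3) (by norm_num)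
    (closedBall_subset_ball (by norm_num)) h1 h2 h3 h4
  rw [FE_pm_empty, lintegral_zero_measure, zero_add] at a3
  have a4 : volume (ball (0 : R d) 3 ∩ (∅ ∆ Ω)) ≤ ENNReal.ofReal (C * ε) := by
    refine le_trans ?_ (hv ε hε)
    refine (measure_mono (t := ((Ω ∩ ball 0 4) \ {x | |ht x| ≤ ε}) ∪
      (ball (0 : R d) 4 ∩ {x | |ht x| ≤ ε})) fun x hx => ?_).trans ?_
    · have b1 : x ∈ ball (0 : R d) 4 := ball_subset_ball (by norm_num) hx.1
      have b2 : x ∈ Ω := by simpa [mem_symmDiff] using hx.2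
      by_cases b3 : |ht x| ≤ ε
      · exact Or.inr ⟨b1, b3⟩
      · exact Or.inl ⟨⟨b2, b1⟩, b3⟩
    · exact (measure_union_le _ _).trans (by rw [hn, zero_add])
  have a5 : ∫⁻ x in ball (0 : R d) 3 ∩ (∅ ∆ Ω), ‖fderiv ℝ ψ x‖ₑ ≤ ENNReal.ofReal (K * (C * ε)) := by
    refine (lintegral_mono (g := fun _ => ENNReal.ofReal K) fun x => ?_).trans ?_
    · rw [← ofReal_norm]; exact ENNReal.ofReal_le_ofReal (h6 x)
    · rw [setLIntegral_const, ENNReal.ofReal_mul hK.le]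
      exact mul_le_mul_right a4 _
  have a6 := (ENNReal.ofReal_le_ofReal_iff (by positivity)).1 (a1.trans (a2.trans (a3.trans a5)))
  rw [le_div_iff₀ (by positivity)] at hε'
  linarith only [hc, hε', a6]

theorem FE15a_cap {Ω : Set (R d)} (hΩ : MeasurableSet Ω) {ε : ℝ}
    (hs : ∀ y ∈ (pm Ω).support ∩ ball 0 4, |ht y| ≤ ε) {s : ℝ} (h1 : |s| = 1) :
    volume (Ω ∩ (ball 0 4 ∩ {x | ε < s * ht x})) = 0 ∨
      volume ((ball 0 4 ∩ {x | ε < s * ht x}) \ Ω) = 0 := by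
  obtain ⟨L, hL⟩ := exists_htL d
  have e : {x : R d | ε < s * ht x} = (s • L) ⁻¹' Ioi ε := by
    ext x; simp [hL]
  refine const_of_pm hΩ (isOpen_ball.inter ?_) (Convex.isPreconnected ((convex_ball _ _).inter ?_)) ?_
  · rw [e]; exact isOpen_Ioi.preimage (s • L).continuous
  · rw [e]; exact (convex_Ioi ε).linear_preimage (s • L : R d →L[ℝ] ℝ).toLinearMap
  · refine measure_mono_null (t := (pm Ω).supportᶜ) (fun x hx hx' => ?_) Measure.measure_compl_support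
    have a1 := hs x ⟨hx', hx.1⟩
    have a2 : ε < s * ht x := hx.2
    have a3 := le_abs_self (s * ht x)
    rw [abs_mul, h1, one_mul] at a3
    linarith

theorem FE15a_null {A A₁ A₂ : Set (R d)} {ε : ℝ}
    (h₁ : volume (A₁ ∩ (ball 0 4 ∩ {x | ε < 1 * ht x})) = 0)
    (h₂ : volume (A₂ ∩ (ball 0 4 ∩ {x | ε < -1 * ht x})) = 0)
    (k₁ : ∀ x ∈ A, ε < ht x → x ∈ A₁) (k₂ : ∀ x ∈ A, ht x < -ε → x ∈ A₂) :
    volume ((A ∩ ball 0 4) \ {x | |ht x| ≤ ε}) = 0 := by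
  refine measure_mono_null (fun x hx => ?_) (measure_union_null h₁ h₂)
  have a1 : ε < |ht x| := not_le.1 hx.2
  rcases lt_abs.1 a1 with a | a
  · exact Or.inl ⟨k₁ x hx.1.1 a, hx.1.2, by simpa using a⟩
  · exact Or.inr ⟨k₂ x hx.1.1 (by linarith), hx.1.2, by simpa using a⟩

/-- `const_of_pm` on the two convex caps `ball 0 4 ∩ {ε < ht}`, `ball 0 4 ∩ {ht < -ε}` (disjoint from the support, `Measure.measure_compl_support`);
four cases, two excluded by `FE_not_null` for `Ω` and `Ωᶜ`. -/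
theorem FE_orient {c : ℝ} (hc : 0 < c) (hD : MinDens d c) : ∃ ε₀ > 0, ∀ (Ω : Set (R d)) (ε : ℝ), 0 < ε →
    ε ≤ ε₀ → Min Ω (ball 0 4) → (0 : R d) ∈ (pm Ω).support →
    (∀ y ∈ (pm Ω).support ∩ ball 0 4, |ht y| ≤ ε) →
    ∃ Ω', Min Ω' (ball 0 4) ∧ pm Ω' = pm Ω ∧
      volume (((Ω' ∆ Hs d) ∩ ball 0 4) \ {x | |ht x| ≤ ε}) = 0 := by
  obtain ⟨ε₀, h0, h⟩ := FE_not_null hc hD
  refine ⟨ε₀, h0, fun Ω ε hε hε' hm hz hs => ?_⟩
  have hp := pm_compl hm.1
  have up : ∀ (A : Set (R d)) (x : R d), x ∈ A ∆ Hs d → ε < ht x → x ∈ A := fun A x hx a => by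
    rcases hx with b | b
    · exact b.1
    · exact absurd (show ht x < 0 from b.1) (by linarith)
  have dn : ∀ (A : Set (R d)) (x : R d), x ∈ A ∆ Hs d → ht x < -ε → x ∈ Aᶜ := fun A x hx a => by
    rcases hx with b | b
    · exact absurd (show ht x < 0 by linarith) b.2
    · exact b.2
  rcases FE15a_cap hm.1 hs (s := 1) abs_one with h₁ | h₁ <;>
    rcases FE15a_cap hm.1 hs (s := -1) (by simp) with h₂ | h₂
  · exact absurd (FE15a_null h₁ h₂ (fun _ a _ => a) fun _ a _ => a) (h Ω ε hε hε' hm hz)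
  · rw [Set.sdiff_eq_compl_inter] at h₂
    exact ⟨Ω, hm, rfl, FE15a_null h₁ h₂ (up Ω) (dn Ω)⟩
  · rw [Set.sdiff_eq_compl_inter] at h₁
    exact ⟨Ωᶜ, FE_min_compl hm, hp, FE15a_null h₁ h₂ (up Ωᶜ) fun x a b => by simpa using dn Ωᶜ x a b⟩
  · rw [Set.sdiff_eq_compl_inter] at h₁ h₂
    exact absurd (FE15a_null h₁ h₂ (fun _ a _ => a) fun _ a _ => a)
      (h Ωᶜ ε hε hε' (FE_min_compl hm) (by rwa [hp]))
end FE15a

section FE15
theorem FE15_eq {μ ν : Measure (R d)} {O A : Set (R d)} (he : μ.restrict O = ν.restrict O)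
    (hA : MeasurableSet A) (hAO : A ⊆ O) : μ A = ν A := by
  have h1 : μ.restrict O A = ν.restrict O A := by rw [he]
  rwa [Measure.restrict_apply hA, Measure.restrict_apply hA, inter_eq_left.mpr hAO] at h1

/-- `Ω'' = (Ω' ∩ {ht ≤ ε}) ∪ {ht < -ε}` agrees with `Ω'` a.e. in `ball 0 4`: `pm_congr`, `vf_congr`, `support_congr`, `FE_stat_sub`, `FE_exc`. -/
theorem FE_norm {c : ℝ} (hc : 0 < c) (hD : MinDens d c) (hS : MinStat d) : ∃ Λ > 0, ∃ C > 0, ∃ ε₀ > 0,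
    ∀ (Ω : Set (R d)) (ε : ℝ), 0 < ε → ε ≤ ε₀ → Min Ω (ball 0 4) → (0 : R d) ∈ (pm Ω).support →
    (∀ y ∈ (pm Ω).support ∩ ball 0 4, |ht y| ≤ ε) →
    ∃ Ω', Sl Ω' ε Λ (C * ε) c ∧ (pm Ω').support ∩ ball 0 4 = (pm Ω).support ∩ ball 0 4 := by
  obtain ⟨Λ, hΛ, C, hC, hE⟩ := FE_exc d
  obtain ⟨ε₁, hε₁, hO⟩ := FE_orient hc hD
  refine ⟨Λ, hΛ, C, hC, min ε₁ (1 / 4), lt_min hε₁ (by norm_num), ?_⟩
  intro Ω ε hε hε0 hM h0 hs
  have he1 : ε ≤ ε₁ := hε0.trans (min_le_left _ _)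
  have he2 : ε ≤ 1 / 4 := hε0.trans (min_le_right _ _)
  obtain ⟨Ω', hM', hpm, hv⟩ := hO Ω ε hε he1 hM h0 hs
  obtain ⟨hmass, hexc⟩ := hE Ω' ε hε (by linarith only [he2]) hM' hv
  have hht : Continuous (ht : R d → ℝ) := FE_contDiff_ht.continuous
  have hm1 : MeasurableSet {x : R d | ht x ≤ ε} := (isClosed_le hht continuous_const).measurableSet
  have hm2 : MeasurableSet {x : R d | ht x < -ε} := (isOpen_lt hht continuous_const).measurableSet
  have hm : MeasurableSet ((Ω' ∩ {x : R d | ht x ≤ ε}) ∪ {x : R d | ht x < -ε}) :=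
    (hM'.1.inter hm1).union hm2
  set Ω'' := (Ω' ∩ {x : R d | ht x ≤ ε}) ∪ {x : R d | ht x < -ε} with hΩ''
  have hae : volume ((Ω' ∆ Ω'') ∩ ball (0 : R d) 4) = 0 := by
    refine measure_mono_null (fun x hx => ?_) hv
    obtain ⟨hx1, hx2⟩ := hx
    simp only [mem_symmDiff, hΩ'', mem_union, mem_inter_iff, mem_ofPred_eq, not_or, not_and, not_le,
      not_lt] at hx1
    simp only [Set.mem_sdiff, mem_inter_iff, mem_symmDiff, Hs, mem_ofPred_eq, not_le, not_lt]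
    rcases hx1 with ⟨h1, h2, _⟩ | ⟨h1, h2⟩
    · have h3 := h2 h1
      exact ⟨⟨Or.inl ⟨h1, by linarith only [hε, h3]⟩, hx2⟩, h3.trans_le (le_abs_self _)⟩
    · rcases h1 with h1 | h1
      · exact absurd h1.1 h2
      · exact ⟨⟨Or.inr ⟨by linarith only [hε, h1], h2⟩, hx2⟩, lt_of_lt_of_le (by linarith only [h1]) (neg_le_abs _)⟩
  have hCy : Cy d ⊆ ball (0 : R d) 4 := FE_Cy_subset.trans (ball_subset_ball (by norm_num))
  have hCo : IsOpen (Cy d) := FE_isOpen_cyl _ _ _ _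
  have hre : (pm Ω').restrict (ball 0 4) = (pm Ω'').restrict (ball 0 4) :=
    pm_congr hM'.1 hm isOpen_ball hae
  have hsup := support_congr isOpen_ball hre
  have hmeq : pm Ω' (Cy d) = pm Ω'' (Cy d) := FE15_eq hre hCo.measurableSet hCy
  have hvf : vf Ω' (Cy d) = vf Ω'' (Cy d) :=
    vf_congr hM'.1 hm hCo (hCy.trans hM'.2.1)
      (measure_mono_null (inter_subset_inter_right _ hCy) hae)
  refine ⟨Ω'', ⟨hm, hε, he2, fun x hx => Or.inr hx, fun x hx => ?_, ?_, ?_, hmeq ▸ hmass,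
    hvf ▸ hexc, fun x hx r hr hb => ?_⟩, by rw [← hsup, hpm]⟩
  · rcases hx with hx | hx
    · exact hx.2
    · have : ht x < -ε := hx
      linarith only [hε, this]
  · exact subset_lf hCo (hmeq ▸ hmass.trans_lt ENNReal.ofReal_lt_top)
  · exact hvf ▸ FE_stat_sub hCo hCy (hS _ _ isOpen_ball hM')
  · have hx4 : x ∈ ball (0 : R d) 4 := hCy (hb (mem_closedBall_self hr.le))
    have hx' : x ∈ (pm Ω').support ∩ ball 0 4 := by rw [hsup]; exact ⟨hx, hx4⟩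
    rw [← FE15_eq hre isClosed_closedBall.measurableSet (hb.trans hCy)]
    exact hD _ _ _ _ isOpen_ball hM' hx'.1 hr (hb.trans hCy)
end FE15

section FE16a
theorem FE_min_mono {Ω O O' : Set (R d)} (h : Min Ω O) (hO : O' ⊆ O) : Min Ω O' :=
  ⟨h.1, hO.trans h.2.1, fun x ρ ρ' F h1 h2 h3 h4 => h.2.2 x ρ ρ' F h1 (h2.trans hO) h3 h4⟩

/-- `exists_simH`, `pm_sim`, `simP_ball`, `simP_closedBall`, `vf_sim` (or `pm_sim`) for `lf` -/
theorem FE_min_sim {Ω O : Set (R d)} (h : Min Ω O) (hO : IsOpen O) {r : ℝ} (hr : 0 < r) (x : R d)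
    (Q : R d ≃ₗᵢ[ℝ] R d) : Min (simP r x Q '' Ω) (simP r x Q '' O) := by
  obtain ⟨φ, hφ, -⟩ := exists_simH hr x Q
  have hφ' : (φ : R d → R d) = simP r x Q := funext hφ
  have hinj : Function.Injective (simP r x Q) := hφ' ▸ φ.injective
  have hsurj : Function.Surjective (simP r x Q) := hφ' ▸ φ.surjective
  have hme : MeasurableEmbedding (simP r x Q) := hφ' ▸ φ.measurableEmbedding
  refine ⟨hme.measurableSet_image.2 h.1, (vf_sim h.1 hO h.2.1 hr x Q).1, ?_⟩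
  intro y ρ ρ' F h1 h2 h3 h4
  obtain ⟨z, rfl⟩ := hsurj y
  obtain ⟨G, rfl⟩ : ∃ G, simP r x Q '' G = F :=
    ⟨simP r x Q ⁻¹' F, image_preimage_eq F hsurj⟩
  have hG : MeasurableSet G := hme.measurableSet_image.1 h3
  rw [← simP_closedBall hr, image_subset_image_iff hinj] at h2
  rw [← simP_ball hr, ← image_symmDiff hinj, image_subset_image_iff hinj] at h4
  rw [← simP_ball hr, pm_sim h.1 _ hr, pm_sim hG _ hr]
  exact mul_le_mul' le_rfl (h.2.2 z (r * ρ) (r * ρ') G (mul_lt_mul_of_pos_left h1 hr) h2 hG h4)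

theorem FE_supp_sim {Ω : Set (R d)} (hΩ : MeasurableSet Ω) {r : ℝ} (hr : 0 < r) (x : R d)
    (Q : R d ≃ₗᵢ[ℝ] R d) : (pm (simP r x Q '' Ω)).support = simP r x Q '' (pm Ω).support := by
  obtain ⟨φ, hφ, -⟩ := exists_simH hr x Q
  have hφ' : (φ : R d → R d) = simP r x Q := funext hφ
  have hinj : Function.Injective (simP r x Q) := hφ' ▸ φ.injective
  have hsurj : Function.Surjective (simP r x Q) := hφ' ▸ φ.surjective
  have hc : (0 : ℝ≥0∞) < ENNReal.ofReal ((r ^ d)⁻¹) := ENNReal.ofReal_pos.2 (by positivity)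
  ext y
  obtain ⟨z, rfl⟩ := hsurj y
  rw [hinj.mem_set_image, Measure.mem_support_iff_forall, Measure.mem_support_iff_forall]
  constructor
  · intro h U hU
    have h1 : simP r x Q '' U ∈ 𝓝 (simP r x Q z) := by
      rw [← hφ']
      exact φ.isOpenMap.image_mem_nhds hU
    have h2 := h _ h1
    rw [pm_sim hΩ _ hr] at h2
    exact (ENNReal.mul_pos_iff.1 h2).2
  · intro h U hU
    have h1 : simP r x Q ⁻¹' U ∈ 𝓝 z := by
      have hc : Continuous (simP r x Q) := hφ' ▸ φ.continuous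
      exact hc.continuousAt.preimage_mem_nhds hU
    rw [← image_preimage_eq U hsurj, pm_sim hΩ _ hr]
    exact ENNReal.mul_pos_iff.2 ⟨hc, h _ h1⟩
end FE16a

section FE16
theorem FE16_normal (g : E d) : ∃ e' : R d, ‖e'‖ = 1 ∧ ‖e' - en d‖ ≤ 2 * ‖g‖ ∧
    ∀ z : R d, |⟪e', z⟫_ℝ| ≤ |ht z - ⟪g, pr z⟫_ℝ| := by
  obtain ⟨w, hw⟩ : ∃ w : R d, w = mk (-g) 1 := ⟨_, rfl⟩
  have h1 : 1 ≤ ‖w‖ := by
    have h := FE_abs_ht_le w
    rwa [show ht w = 1 by rw [hw, ht_mk], abs_one] at h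
  have h0 : 0 < ‖w‖ := by linarith
  have h2 : ‖w - en d‖ ≤ ‖g‖ := by
    have h := FE_norm_le (w - en d)
    rwa [FE_pr_sub, FE_ht_sub, hw, en, pr_mk, pr_mk, ht_mk, ht_mk, sub_zero, sub_self, abs_zero,
      add_zero, norm_neg, ← en, ← hw] at h
  have h3 : ‖w‖ ≤ 1 + ‖g‖ := by
    have h := norm_sub_norm_le w (en d)
    rw [norm_en] at h
    linarith
  refine ⟨‖w‖⁻¹ • w, norm_smul_inv_norm (norm_pos_iff.1 h0), ?_, fun z => ?_⟩
  · have h4 : ‖‖w‖⁻¹ • w - w‖ = ‖w‖ - 1 := by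
      rw [show ‖w‖⁻¹ • w - w = (‖w‖⁻¹ - 1) • w by rw [sub_smul, one_smul], norm_smul,
        Real.norm_eq_abs, abs_of_nonpos (sub_nonpos.2 (inv_le_one_of_one_le₀ h1))]
      field_simp
      ring
    have h5 := norm_sub_le_norm_sub_add_norm_sub (‖w‖⁻¹ • w) w (en d)
    linarith
  · have h4 : ⟪w, z⟫_ℝ = ht z - ⟪g, pr z⟫_ℝ := by
      rw [inner_coord, hw, pr_mk, ht_mk, inner_neg_left]
      ring
    rw [real_inner_smul_left, h4, abs_mul, abs_of_pos (inv_pos.2 h0)]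
    exact mul_le_of_le_one_left (abs_nonneg _) (inv_le_one_of_one_le₀ h1)

/-- improvement of flatness at unit scale -/
theorem FE_step0 (hd : 1 ≤ d) {c : ℝ} (hc : 0 < c) (hD : MinDens d c) (hS : MinStat d) :
    ∃ C > 0, ∃ τ > 0, τ ≤ 1 / 2 ∧ ∃ ε₀ > 0, ∀ (Ω : Set (R d)) (ε : ℝ), 0 < ε → ε ≤ ε₀ → Min Ω (ball 0 4) →
      (0 : R d) ∈ (pm Ω).support → (∀ y ∈ (pm Ω).support ∩ ball 0 4, |ht y| ≤ ε) →
      ∃ e' : R d, ‖e'‖ = 1 ∧ ‖e' - en d‖ ≤ C * ε ∧
        ∀ z ∈ (pm Ω).support ∩ ball 0 (4 * τ), |⟪e', z⟫_ℝ| ≤ ε / 2 * τ := by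
  obtain ⟨Λ, hΛ, C₁, hC₁, ε₁, hε₁, hn⟩ := FE_norm hc hD hS
  obtain ⟨C, hC, hcore⟩ := FE_core hd hΛ hc
  obtain ⟨θ, hθ, hθ1, hθ2⟩ : ∃ θ : ℝ, 0 < θ ∧ θ ≤ 1 / 4 ∧ C * θ ≤ 1 / 16 :=
    ⟨min (1 / 4) (1 / (16 * C)), by positivity, min_le_left _ _,
      (mul_le_mul_of_nonneg_left (min_le_right _ _) hC.le).trans_eq (by field_simp)⟩
  obtain ⟨e₀, he₀, hk⟩ := hcore θ hθ hθ1
  refine ⟨2 * C, by positivity, θ / 4, by positivity, by linarith only [hθ1], min ε₁ (min e₀ (e₀ / C₁)),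
    by positivity, fun Ω ε hε hε' hM h0 hs => ?_⟩
  rw [le_min_iff, le_min_iff, le_div_iff₀ hC₁] at hε'
  obtain ⟨Ω', hSl, hsup⟩ := hn Ω ε hε hε'.1 hM h0 hs
  obtain ⟨c₀, g, hg, hb⟩ := hk Ω' ε (C₁ * ε) hSl hε'.2.1 (by positivity) (by linarith only [hε'.2.2])
  have hb' : ∀ x ∈ (pm Ω).support ∩ ball 0 θ,
      |ht x - c₀ - ⟪g, pr x⟫_ℝ| ≤ C * ε * θ ^ 2 := fun x hx =>
    hb x ⟨(hsup.ge ⟨hx.1, ball_subset_ball (by linarith only [hθ, hθ1]) hx.2⟩).1, hx.2⟩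
  have hc₀ := hb' 0 ⟨h0, mem_ball_self hθ⟩
  rw [FE_ht_zero, FE_pr_zero, inner_zero_right, zero_sub, sub_zero, abs_neg] at hc₀
  obtain ⟨e', h1, h2, h3⟩ := FE16_normal g
  refine ⟨e', h1, by linarith only [hg, h2], fun z hz => (h3 z).trans ?_⟩
  have h4 := hb' z (by rwa [show 4 * (θ / 4) = θ by ring] at hz)
  have h5 := abs_add_le (ht z - c₀ - ⟪g, pr z⟫_ℝ) c₀
  rw [show ht z - c₀ - ⟪g, pr z⟫_ℝ + c₀ = ht z - ⟪g, pr z⟫_ℝ by ring] at h5
  have h6 : C * ε * θ ^ 2 ≤ 1 / 16 * (ε * θ) := by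
    rw [show C * ε * θ ^ 2 = C * θ * (ε * θ) by ring]
    gcongr
  linarith only [hc₀, h4, h5, h6]

/-- improvement of flatness at every point and scale -/
theorem FE_step (hd : 1 ≤ d) {c : ℝ} (hc : 0 < c) (hD : MinDens d c) (hS : MinStat d) :
    ∃ C > 0, ∃ τ > 0, τ ≤ 1 / 2 ∧ ∃ ε₀ > 0, ∀ (Ω O : Set (R d)) (x : R d), Min Ω O → x ∈ (pm Ω).support →
      ∀ (r : ℝ) (e : R d) (ε : ℝ), 0 < r → ball x (4 * r) ⊆ O → ‖e‖ = 1 → 0 < ε → ε ≤ ε₀ →
      (∀ z ∈ (pm Ω).support ∩ ball x (4 * r), |⟪e, z - x⟫_ℝ| ≤ ε * r) →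
      ∃ e' : R d, ‖e'‖ = 1 ∧ ‖e' - e‖ ≤ C * ε ∧
        ∀ z ∈ (pm Ω).support ∩ ball x (4 * (τ * r)), |⟪e', z - x⟫_ℝ| ≤ ε / 2 * (τ * r) := by
  obtain ⟨C, hC, τ, hτ, hτ', ε₀, hε₀, h⟩ := FE_step0 hd hc hD hS
  refine ⟨C, hC, τ, hτ, hτ', ε₀, hε₀, fun Ω O x hM hx r e ε hr hO he hε hε' hs => ?_⟩
  obtain ⟨Q, hQ⟩ := exists_rot e he
  have hQe : Q.symm (en d) = e := ext_inner_right ℝ fun v => by
    rw [← hQ v, ← inner_en, ← Q.inner_map_map, Q.apply_symm_apply]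
  have hz : simP r x Q x = 0 := by simp [simP]
  have hball : ∀ s : ℝ, simP r x Q '' ball x (r * s) = ball 0 s := fun s => by
    rw [simP_ball hr, hz]
  have hinj : Function.Injective (simP r x Q) := by
    obtain ⟨φ, hφ, -⟩ := exists_simH hr x Q
    rw [← funext hφ]
    exact φ.injective
  have hin : ∀ (v z : R d), ⟪v, simP r x Q z⟫_ℝ = r⁻¹ * ⟪Q.symm v, z - x⟫_ℝ := fun v z => by
    rw [simP, real_inner_smul_right, ← Q.inner_map_map (Q.symm v), Q.apply_symm_apply]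
  have hM' := FE_min_sim (FE_min_mono hM hO) isOpen_ball hr x Q
  rw [mul_comm 4 r, hball] at hM'
  have hsup := FE_supp_sim hM.1 hr x Q
  obtain ⟨e', h1, h2, h3⟩ := h _ ε hε hε' hM' (hsup ▸ ⟨x, hx, hz⟩) (by
    rw [hsup, ← hball 4, ← image_inter hinj]
    rintro _ ⟨z, hzz, rfl⟩
    rw [← inner_en, hin, hQe, abs_mul, abs_of_pos (inv_pos.2 hr), inv_mul_le_iff₀ hr, mul_comm r ε]
    exact hs z (by rwa [mul_comm 4 r]))
  refine ⟨Q.symm e', by rw [Q.symm.norm_map, h1], by rw [← hQe, ← map_sub, Q.symm.norm_map]; exact h2,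
    fun z hzz => ?_⟩
  have h4 := h3 (simP r x Q z) (by
    rw [hsup, ← hball (4 * τ), ← image_inter hinj]
    exact ⟨z, by rwa [show r * (4 * τ) = 4 * (τ * r) by ring], rfl⟩)
  rw [hin, abs_mul, abs_of_pos (inv_pos.2 hr), inv_mul_le_iff₀ hr] at h4
  linarith only [h4]
end FE16

section FE17a
/-- Build `e_k` recursively (`r_k = τ^k r₀`, `ε_k = ε / 2^k`), `‖e_(k+1) - e_k‖ ≤ C ε / 2^k` (`cauchySeq_of_le_geometric_two`,
`dist_le_of_le_geometric_two_of_tendsto`), so `‖e - e_k‖ ≤ 2 C ε / 2^k` and `|⟪e,z-x⟫| ≤ (1 + 8 C) ε_j r_j` on `ball x (4 r_j)`.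
For `z ≠ x` take the largest `j ≥ k` with `‖z-x‖ < 4 r_j` (`Nat.find` on the failure), so `r_j ≤ ‖z-x‖ / (4 τ)`. -/
theorem FE_iter {M : Set (R d)} {x : R d} {C τ ε₀ r₀ ε : ℝ} (hC : 0 < C) (hτ : 0 < τ) (hτ' : τ ≤ 1 / 2)
    (hr : 0 < r₀) (hε : 0 < ε) (hε' : ε ≤ ε₀)
    (step : ∀ (r : ℝ) (e : R d) (η : ℝ), 0 < r → r ≤ r₀ → ‖e‖ = 1 → 0 < η → η ≤ ε₀ →
      (∀ z ∈ M ∩ ball x (4 * r), |⟪e, z - x⟫_ℝ| ≤ η * r) →
      ∃ e' : R d, ‖e'‖ = 1 ∧ ‖e' - e‖ ≤ C * η ∧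
        ∀ z ∈ M ∩ ball x (4 * (τ * r)), |⟪e', z - x⟫_ℝ| ≤ η / 2 * (τ * r))
    {e₀ : R d} (he : ‖e₀‖ = 1) (h0 : ∀ z ∈ M ∩ ball x (4 * r₀), |⟪e₀, z - x⟫_ℝ| ≤ ε * r₀) :
    ∃ e : R d, ‖e‖ = 1 ∧ ‖e - e₀‖ ≤ 2 * C * ε ∧ ∀ k : ℕ, ∀ z ∈ M, ‖z - x‖ < 4 * (τ ^ k * r₀) →
      |⟪e, z - x⟫_ℝ| ≤ (1 + 8 * C) / (4 * τ) * ε / 2 ^ k * ‖z - x‖ := by
  have hτ1 : τ ≤ 1 := by linarith
  have st : ∀ (k : ℕ) (e : R d), (‖e‖ = 1 ∧ ∀ z ∈ M ∩ ball x (4 * (τ ^ k * r₀)),
      |⟪e, z - x⟫_ℝ| ≤ ε / 2 ^ k * (τ ^ k * r₀)) → ∃ e' : R d, (‖e'‖ = 1 ∧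
      ∀ z ∈ M ∩ ball x (4 * (τ ^ (k + 1) * r₀)), |⟪e', z - x⟫_ℝ| ≤ ε / 2 ^ (k + 1) * (τ ^ (k + 1) * r₀)) ∧
      dist e e' ≤ 2 * C * ε / 2 / 2 ^ k := by
    intro k e h
    have h1 : τ ^ k * r₀ ≤ r₀ := mul_le_of_le_one_left hr.le (pow_le_one₀ hτ.le hτ1)
    have h2 : ε / 2 ^ k ≤ ε₀ := (div_le_self hε.le (one_le_pow₀ one_le_two)).trans hε'
    obtain ⟨e', h3, h4, h5⟩ := step (τ ^ k * r₀) e (ε / 2 ^ k) (by positivity) h1 h.1 (by positivity) h2 h.2
    have h6 : τ ^ (k + 1) * r₀ = τ * (τ ^ k * r₀) := by ring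
    refine ⟨e', ⟨h3, fun z hz => ?_⟩, ?_⟩
    · rw [h6] at hz ⊢
      rw [pow_succ, ← div_div]
      exact h5 z hz
    · rw [dist_comm, dist_eq_norm]
      refine h4.trans (le_of_eq ?_)
      ring
  choose! f hf using st
  let u : ℕ → R d := fun n => Nat.rec e₀ (fun k e => f k e) n
  have hu : ∀ k, ‖u k‖ = 1 ∧ ∀ z ∈ M ∩ ball x (4 * (τ ^ k * r₀)),
      |⟪u k, z - x⟫_ℝ| ≤ ε / 2 ^ k * (τ ^ k * r₀) := by
    intro k
    induction k with
    | zero =>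
      rw [pow_zero, pow_zero, one_mul, div_one]
      exact ⟨he, h0⟩
    | succ k ih => exact (hf k _ ih).1
  have hd : ∀ k, dist (u k) (u (k + 1)) ≤ 2 * C * ε / 2 / 2 ^ k := fun k => (hf k _ (hu k)).2
  obtain ⟨e, hlim⟩ := cauchySeq_tendsto_of_complete (cauchySeq_of_le_geometric_two hd)
  have hde : ∀ k, ‖e - u k‖ ≤ 2 * C * ε / 2 ^ k := fun k => by
    rw [← dist_eq_norm, dist_comm]
    exact dist_le_of_le_geometric_two_of_tendsto hd hlim k
  refine ⟨e, ?_, ?_, fun k z hz hk => ?_⟩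
  · refine tendsto_nhds_unique hlim.norm ?_
    simp only [fun k => (hu k).1]
    exact tendsto_const_nhds
  · have := hde 0
    rw [pow_zero, div_one] at this
    exact this
  rcases eq_or_lt_of_le (norm_nonneg (z - x)) with h0' | hρ
  · rw [norm_eq_zero.1 h0'.symm]
    simp
  have hex : ∃ j, 4 * (τ ^ (k + j + 1) * r₀) ≤ ‖z - x‖ := by
    obtain ⟨j, hj⟩ := exists_pow_lt_of_lt_one (div_pos hρ (by positivity : (0 : ℝ) < 4 * r₀))
      (by linarith only [hτ, hτ'] : τ < 1)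
    refine ⟨j, ?_⟩
    have h1 : τ ^ (k + j + 1) ≤ τ ^ j := pow_le_pow_of_le_one hτ.le hτ1 (by omega)
    rw [lt_div_iff₀ (by positivity)] at hj
    nlinarith only [hr, hj, h1]
  have h1 := Nat.find_spec hex
  have h2 : ‖z - x‖ < 4 * (τ ^ (k + Nat.find hex) * r₀) := by
    rcases Nat.eq_zero_or_pos (Nat.find hex) with h | h
    · rw [h]; exact hk
    · have h3 := Nat.find_min hex (Nat.sub_lt h one_pos)
      rw [show k + (Nat.find hex - 1) + 1 = k + Nat.find hex by omega] at h3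
      exact not_le.1 h3
  generalize Nat.find hex = j at h1 h2
  have h3 := (hu (k + j)).2 z ⟨hz, by rwa [mem_ball, dist_eq_norm]⟩
  have h4 : |⟪e - u (k + j), z - x⟫_ℝ| ≤ 2 * C * ε / 2 ^ (k + j) * ‖z - x‖ :=
    (abs_real_inner_le_norm _ _).trans (mul_le_mul_of_nonneg_right (hde _) hρ.le)
  have h5 : ⟪e, z - x⟫_ℝ = ⟪u (k + j), z - x⟫_ℝ + ⟪e - u (k + j), z - x⟫_ℝ := by
    rw [← inner_add_left, add_sub_cancel]
  have h6 : τ ^ (k + j) * r₀ ≤ ‖z - x‖ / (4 * τ) := by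
    rw [le_div_iff₀ (by positivity)]
    refine le_trans (le_of_eq ?_) h1
    ring
  have h7 : ε / 2 ^ (k + j) ≤ ε / 2 ^ k :=
    div_le_div_of_nonneg_left hε.le (by positivity) (pow_le_pow_right₀ one_le_two (by omega))
  have h8 : 2 * C ≤ 8 * C / (4 * τ) := by
    rw [le_div_iff₀ (by positivity)]
    nlinarith only [hC, hτ']
  have h9 : ε / 2 ^ (k + j) * (τ ^ (k + j) * r₀) ≤ ε / 2 ^ k * (‖z - x‖ / (4 * τ)) := by gcongr
  have h10 : 2 * C * ε / 2 ^ (k + j) * ‖z - x‖ ≤ 8 * C / (4 * τ) * (ε / 2 ^ k) * ‖z - x‖ := by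
    rw [mul_div_assoc]
    gcongr
  rw [h5]
  refine (abs_add_le _ _).trans ((add_le_add (h3.trans h9) (h4.trans h10)).trans (le_of_eq ?_))
  ring
end FE17a

section FE17
/-- uniformly differentiable functions are `C^1`.  Differentiability: `HasFDerivAt` with `innerSL ℝ (g y)` (or `HasGradientAt`).  Continuity of `g` at `y`:
for `y'` close, `ρ = ‖y - y'‖`, `p = y + ρ • v` with `v` the unit vector along `g y - g y'`: three uses of `h` give `‖g y - g y'‖ ≤ 4 η`.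
Then `contDiffOn_succ_iff_fderiv_of_isOpen` / `contDiffOn_one_iff..`. -/
theorem FE_c1 {u : E d → ℝ} {g : E d → E d} {D : Set (E d)} (hD : IsOpen D)
    (h : ∀ η > 0, ∃ δ > 0, ∀ y ∈ D, ∀ y' ∈ D, ‖y' - y‖ < δ →
      |u y' - u y - ⟪g y, y' - y⟫_ℝ| ≤ η * ‖y' - y‖) :
    ContDiffOn ℝ 1 u D ∧ ∀ y ∈ D, gradient u y = g y := by
  have hg : ∀ y ∈ D, HasGradientAt u (g y) y := by
    intro y hy
    rw [hasGradientAt_iff_isLittleO, Asymptotics.isLittleO_iff]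
    intro η hη
    obtain ⟨δ, hδ, h1⟩ := h η hη
    filter_upwards [hD.mem_nhds hy, ball_mem_nhds y hδ] with y' h2 h3
    exact h1 y hy y' h2 (mem_ball_iff_norm.1 h3)
  have hc : ContinuousOn g D := by
    intro y hy
    apply ContinuousAt.continuousWithinAt
    rw [Metric.continuousAt_iff]
    intro ε hε
    obtain ⟨δ, hδ, h1⟩ := h (ε / 5) (by positivity)
    obtain ⟨r, hr, hrD⟩ := Metric.isOpen_iff.1 hD y hy
    refine ⟨min (δ / 2) r, by positivity, fun y' hy' => ?_⟩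
    rw [dist_eq_norm, lt_min_iff] at hy'
    have hy'D : y' ∈ D := hrD (mem_ball_iff_norm.2 hy'.2)
    rw [dist_comm, dist_eq_norm]
    by_cases h0 : y' = y
    · simp [h0, hε]
    have hρ : 0 < ‖y' - y‖ := norm_pos_iff.2 (sub_ne_zero.2 h0)
    by_cases hw : g y - g y' = 0
    · simp [hw, hε]
    have hwn : 0 < ‖g y - g y'‖ := norm_pos_iff.2 hw
    set ρ := ‖y' - y‖ with hρd
    set w := g y - g y' with hwd
    set v := (ρ / ‖w‖) • w with hv
    have hvn : ‖v‖ = ρ := by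
      rw [hv, norm_smul, Real.norm_of_nonneg (by positivity)]
      field_simp
    have hwv : ⟪w, v⟫_ℝ = ρ * ‖w‖ := by
      rw [hv, inner_smul_right, real_inner_self_eq_norm_sq]
      field_simp
    have e1 : y + v - y = v := add_sub_cancel_left y v
    have e2 : y + v - y' = v + (y - y') := by abel
    have hyy : ‖y - y'‖ = ρ := norm_sub_rev _ _
    have hp : y + v ∈ D := hrD (mem_ball_iff_norm.2 (by rw [e1, hvn]; exact hy'.2))
    have hn : ‖v + (y - y')‖ ≤ 2 * ρ := (norm_add_le _ _).trans (by rw [hvn, hyy]; linarith only [])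
    have a1 := h1 y hy (y + v) hp (by rw [e1, hvn]; linarith only [hy'.1, hρ])
    have a2 := h1 y' hy'D (y + v) hp (by rw [e2]; linarith only [hy'.1, hn])
    have a3 := h1 y' hy'D y hy (by rw [hyy]; linarith only [hy'.1, hρ])
    rw [e1, hvn] at a1
    rw [e2, inner_add_right] at a2
    rw [hyy] at a3
    rw [hwd, inner_sub_left, ← hwd] at hwv
    have a4 : ε / 5 * ‖v + (y - y')‖ ≤ ε / 5 * (2 * ρ) := by gcongr
    have a5 : ρ * ‖w‖ ≤ ρ * (4 * (ε / 5)) := by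
      rw [abs_le] at a1 a2 a3
      linarith only [a1.1, a2.2, a3.1, hwv, a4]
    have a6 := le_of_mul_le_mul_left a5 hρ
    linarith only [hwn, a6]
  refine ⟨?_, fun y hy => (hg y hy).gradient⟩
  have h1 : (1 : WithTop ℕ∞) = 0 + 1 := by simp
  rw [h1, contDiffOn_succ_iff_fderiv_of_isOpen hD]
  refine ⟨fun y hy => (hg y hy).differentiableAt.differentiableWithinAt, by simp, ?_⟩
  rw [contDiffOn_zero]
  refine (((InnerProductSpace.toDual ℝ (E d)).continuous.comp_continuousOn hc).congr ?_)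
  intro y hy
  exact (hg y hy).hasFDerivAt.fderiv
end FE17

section FE18a
theorem FE18a_pr_en : pr (en d) = 0 := pr_mk _ _

theorem FE18a_ht_en : ht (en d) = 1 := ht_mk _ _

theorem FE18a_lip {κ : ℝ} (hκ : κ ≤ 1 / 4) {n v : R d} (h1 : ‖n - en d‖ ≤ κ)
    (h2 : |⟪n, v⟫_ℝ| ≤ κ * ‖v‖) : ‖v‖ ≤ 2 * ‖pr v‖ := by
  have e1 : ht v = ⟪n, v⟫_ℝ - ⟪n - en d, v⟫_ℝ := by
    rw [inner_sub_left, inner_en]
    ring
  have e2 : |⟪n - en d, v⟫_ℝ| ≤ κ * ‖v‖ :=
    (abs_real_inner_le_norm _ _).trans (mul_le_mul_of_nonneg_right h1 (norm_nonneg _))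
  have e3 : |ht v| ≤ κ * ‖v‖ + κ * ‖v‖ := by
    rw [e1]
    exact (abs_sub _ _).trans (add_le_add h2 e2)
  have e4 := FE_norm_le v
  have e5 : κ * ‖v‖ ≤ 1 / 4 * ‖v‖ := mul_le_mul_of_nonneg_right hκ (norm_nonneg _)
  linarith only [e3, e4, e5]

theorem FE18a_nrm {κ : ℝ} (hκ : κ ≤ 1 / 4) {n : R d} (h1 : ‖n - en d‖ ≤ κ) :
    3 / 4 ≤ ht n ∧ ‖pr n‖ ≤ κ := by
  have e1 := FE_abs_ht_le (n - en d)
  have e2 := FE_norm_pr_le (n - en d)
  rw [FE_ht_sub, FE18a_ht_en] at e1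
  rw [FE_pr_sub, FE18a_pr_en, sub_zero] at e2
  refine ⟨?_, e2.trans h1⟩
  have := (abs_le.1 (e1.trans h1)).1
  linarith

/-- For `x, z ∈ M ∩ cyl`: `|ht z - ht x| = |⟪en, z-x⟫| ≤ 2 κ ‖z-x‖`, so `|ht z - ht x| ≤ ‖pr z - pr x‖` and the point over `y` is unique;
`u y` by choice, `g y = -(ht n)⁻¹ • pr n` at `n = n (mk y (u y))`, `ht n ≥ 3/4`, `‖pr n‖ ≤ κ`; `FE_c1`. -/
theorem FE_graph {M : Set (R d)} {ρ κ : ℝ} (hκ : κ ≤ 1 / 4) {n : R d → R d}
    (ha : ∀ y ∈ ball (0 : E d) ρ, ∃ t, |t| < ρ ∧ mk y t ∈ M)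
    (hb : ∀ x ∈ M ∩ cyl 0 ρ 0 ρ, ‖n x‖ = 1 ∧ ‖n x - en d‖ ≤ κ ∧
      ∀ z ∈ M ∩ cyl 0 ρ 0 ρ, |⟪n x, z - x⟫_ℝ| ≤ κ * ‖z - x‖)
    (hc : ∀ η > 0, ∃ δ > 0, ∀ x ∈ M ∩ cyl 0 ρ 0 ρ, ∀ z ∈ M ∩ cyl 0 ρ 0 ρ, ‖z - x‖ < δ →
      |⟪n x, z - x⟫_ℝ| ≤ η * ‖z - x‖) :
    ∃ u : E d → ℝ, ContDiffOn ℝ 1 u (ball 0 ρ) ∧ (∀ y ∈ ball (0 : E d) ρ, ‖gradient u y‖ ≤ 2 * κ) ∧
      ∀ x ∈ cyl (0 : E d) ρ 0 ρ, (x ∈ M ↔ ht x = u (pr x)) := by
  choose! u hu1 hu2 using ha
  have hX : ∀ y ∈ ball (0 : E d) ρ, mk y (u y) ∈ M ∩ cyl 0 ρ 0 ρ := fun y hy =>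
    ⟨hu2 y hy, by rwa [pr_mk], by rw [ht_mk, sub_zero]; exact hu1 y hy⟩
  have hlip : ∀ x ∈ M ∩ cyl 0 ρ 0 ρ, ∀ z ∈ M ∩ cyl 0 ρ 0 ρ, ‖z - x‖ ≤ 2 * ‖pr z - pr x‖ := by
    intro x hx z hz
    rw [← FE_pr_sub]
    exact FE18a_lip hκ (hb x hx).2.1 ((hb x hx).2.2 z hz)
  have hmain := FE_c1 (u := u) (g := fun y => -(ht (n (mk y (u y))))⁻¹ • pr (n (mk y (u y))))
    (D := ball (0 : E d) ρ) isOpen_ball (by
      intro η hη
      obtain ⟨δ, hδ, H⟩ := hc (η / 3) (by positivity)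
      refine ⟨δ / 2, by positivity, fun y hy y' hy' hd => ?_⟩
      have h1 := hlip _ (hX y hy) _ (hX y' hy')
      rw [pr_mk, pr_mk] at h1
      have h2 := H _ (hX y hy) _ (hX y' hy') (by linarith)
      have h3 := (FE18a_nrm hκ (hb _ (hX y hy)).2.1).1
      set N := n (mk y (u y)) with hN
      have h4 : ⟪N, mk y' (u y') - mk y (u y)⟫_ℝ = ⟪pr N, y' - y⟫_ℝ + ht N * (u y' - u y) := by
        rw [inner_coord, FE_pr_sub, FE_ht_sub, pr_mk, pr_mk, ht_mk, ht_mk]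
      have hpos : 0 < ht N := by linarith only [h3]
      have h5 : u y' - u y - ⟪-(ht N)⁻¹ • pr N, y' - y⟫_ℝ =
          (ht N)⁻¹ * ⟪N, mk y' (u y') - mk y (u y)⟫_ℝ := by
        rw [h4, real_inner_smul_left]
        field_simp
        ring
      have h6 : (ht N)⁻¹ ≤ 4 / 3 := by
        rw [inv_le_comm₀ hpos (by norm_num)]
        linarith only [h3]
      rw [h5, abs_mul, abs_of_pos (inv_pos.2 hpos)]
      have h7 : |⟪N, mk y' (u y') - mk y (u y)⟫_ℝ| ≤ η / 3 * (2 * ‖y' - y‖) :=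
        h2.trans (mul_le_mul_of_nonneg_left h1 (by positivity))
      have h8 : 0 ≤ η * ‖y' - y‖ := by positivity
      calc (ht N)⁻¹ * |⟪N, mk y' (u y') - mk y (u y)⟫_ℝ|
          ≤ 4 / 3 * (η / 3 * (2 * ‖y' - y‖)) := mul_le_mul h6 h7 (abs_nonneg _) (by norm_num)
        _ ≤ η * ‖y' - y‖ := by linarith only [h8])
  refine ⟨u, hmain.1, fun y hy => ?_, fun x hx => ⟨fun hM => ?_, fun h => ?_⟩⟩
  · obtain ⟨h3, h4⟩ := FE18a_nrm hκ (hb _ (hX y hy)).2.1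
    have hpos : 0 < ht (n (mk y (u y))) := by linarith only [h3]
    have h6 : (ht (n (mk y (u y))))⁻¹ ≤ 2 := by
      rw [inv_le_comm₀ hpos (by norm_num)]
      linarith
    rw [hmain.2 y hy, norm_smul, norm_neg, Real.norm_eq_abs, abs_of_pos (inv_pos.2 hpos)]
    exact mul_le_mul h6 h4 (norm_nonneg _) (by norm_num)
  · have h1 := hlip _ (hX _ hx.1) x ⟨hM, hx⟩
    rw [pr_mk, sub_self, norm_zero, mul_zero, norm_le_zero_iff, sub_eq_zero] at h1
    conv_lhs => rw [h1]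
    rw [ht_mk]
  · have h1 := hu2 _ hx.1
    rwa [← h, mk_pr_ht] at h1
end FE18a

section FE18
/-- Otherwise the compact segment `{mk y t | |t| ≤ 1/2}` misses the closed support (`FE_supp_slab`), so does a tube `cyl y δ 0 (1/2)`;
`const_of_pm` on the tube contradicts `lo`, `hi` (nonempty open pieces have positive volume). -/
theorem FE_onto {Ω : Set (R d)} {ε : ℝ} (hΩ : MeasurableSet Ω) (hε : 0 ≤ ε) (hε' : ε < 1 / 2)
    (lo : ∀ x, ht x < -ε → x ∈ Ω) (hi : ∀ x ∈ Ω, ht x ≤ ε) (y : E d) :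
    ∃ t, |t| ≤ ε ∧ mk y t ∈ (pm Ω).support := by
  by_contra hc
  push Not at hc
  have hall : ∀ t, mk y t ∉ (pm Ω).support := fun t ht' => by
    have := FE_supp_slab hΩ lo hi ht'
    rw [ht_mk] at this
    exact hc t this ht'
  have hev : ∀ᶠ z in 𝓝 y, ∀ t ∈ Icc (-1 : ℝ) 1, mk z t ∉ (pm Ω).support := by
    refine isCompact_Icc.eventually_forall_of_forall_eventually fun t _ => ?_
    have ho : IsOpen ((fun q : E d × ℝ => mk q.1 q.2) ⁻¹' (pm Ω).supportᶜ) :=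
      (Measure.isOpen_compl_support (μ := pm Ω)).preimage FE_continuous_mk
    exact ho.mem_nhds (x := (y, t)) (hall t)
  obtain ⟨δ, hδ, hb⟩ := Metric.eventually_nhds_iff_ball.1 hev
  have hsub : cyl y δ 0 1 ⊆ (pm Ω).supportᶜ := by
    rintro x ⟨h1, h2⟩
    rw [sub_zero] at h2
    have := hb _ h1 (ht x) ⟨(abs_lt.1 h2).1.le, (abs_lt.1 h2).2.le⟩
    rwa [mk_pr_ht] at this
  have h0 : pm Ω (cyl y δ 0 1) = 0 := measure_mono_null hsub Measure.measure_compl_support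
  have hpos : ∀ t : ℝ, volume (cyl y δ t (1 / 4)) ≠ 0 := fun t =>
    ((FE_isOpen_cyl y δ t (1 / 4)).measure_pos volume
      ⟨mk y t, by simpa [cyl] using hδ⟩).ne'
  rcases const_of_pm hΩ (FE_isOpen_cyl y δ 0 1) (FE_convex_cyl y δ 0 1).isPreconnected h0 with h | h
  · refine hpos (-3 / 4) (measure_mono_null ?_ h)
    rintro x ⟨h1, h2⟩
    obtain ⟨h3, h4⟩ := abs_lt.1 h2
    exact ⟨lo x (by linarith only [hε', h4]), h1, abs_lt.2 ⟨by linarith only [h3], by linarith only [h4]⟩⟩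
  · refine hpos (3 / 4) (measure_mono_null ?_ h)
    rintro x ⟨h1, h2⟩
    obtain ⟨h3, h4⟩ := abs_lt.1 h2
    exact ⟨⟨h1, abs_lt.2 ⟨by linarith only [h3], by linarith only [h4]⟩⟩, fun hx => by linarith only [hi x hx, hε', h3]⟩
end FE18

section FE19a
theorem FE19a_norm (g : E d) : ‖(mk (-g) 1 : R d)‖ = √(1 + ‖g‖ ^ 2) := by
  rw [← Real.sqrt_sq (norm_nonneg (mk (-g) 1 : R d)), norm_sq_coord, pr_mk, ht_mk, norm_neg]
  congr 1; ring

theorem FE19a_pos (g : E d) : 0 < √(1 + ‖g‖ ^ 2) := Real.sqrt_pos.2 (by positivity)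

theorem FE19a_toS (g : E d) :
    (toS (mk (-g) 1) : R d) = (√(1 + ‖g‖ ^ 2))⁻¹ • mk (-g) 1 := by
  have h : (mk (-g) 1 : R d) ≠ 0 := by
    intro h
    have h1 := FE19a_norm g
    rw [h, norm_zero] at h1
    exact (FE19a_pos g).ne h1
  rw [toS, dif_neg h, ← FE19a_norm]

theorem FE19a_grad_cont {u : E d → ℝ} (hu : ContDiff ℝ 1 u) : Continuous (gradient u) := by
  have h := hu.continuous_fderiv one_ne_zero
  exact (InnerProductSpace.toDual ℝ (E d)).symm.continuous.comp h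

theorem FE19a_grad_zero {ζ : E d → ℝ} {z : E d} (hz : z ∉ tsupport ζ) : gradient ζ z = 0 := by
  have h : fderiv ℝ ζ z = 0 := by
    by_contra h
    exact hz (support_fderiv_subset ℝ (f := ζ) h)
  simp [gradient, h]

theorem FE19a_map_cont {u : E d → ℝ} (hu : ContDiff ℝ 1 u) :
    Continuous fun z : E d => ((mk z (u z), toS (mk (-gradient u z) 1)) : R d × S d) := by
  have hg := FE19a_grad_cont hu
  refine Continuous.prodMk (FE_continuous_mk.comp (continuous_id.prodMk hu.continuous)) ?_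
  refine continuous_induced_rng.2 ?_
  have h : (Subtype.val ∘ fun z : E d => toS (mk (-gradient u z) 1)) =
      fun z : E d => (√(1 + ‖gradient u z‖ ^ 2))⁻¹ • (mk (-gradient u z) 1 : R d) := by
    funext z
    exact FE19a_toS _
  rw [h]
  refine Continuous.smul (Continuous.inv₀ (by fun_prop) fun z => (FE19a_pos _).ne') ?_
  exact FE_continuous_mk.comp (hg.neg.prodMk continuous_const)

/-- test stationarity with `X x = (ψ (ht x) * ζ (pr x)) • en d`, `ψ = 1` near `|t| ≤ max over tsupport ζ of |u| < h` (`FE_cut`, `FE_vert_c1c`, `FE_vert_divT`);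
`vf_graph`; `toS (mk (-∇u) 1) = (1+|∇u|^2)^(-1/2) • mk (-∇u) 1`; `integral_map`, `integral_withDensity_eq_integral_toReal_smul`. -/
theorem FE_mse {Ω : Set (R d)} (hΩ : MeasurableSet Ω) {u : E d → ℝ} (hu : ContDiff ℝ 1 u) {r h : ℝ}
    (hb : ∀ z ∈ ball (0 : E d) r, |u z - 0| < h)
    (he : volume ((Ω ∆ {x | ht x < u (pr x)}) ∩ cyl 0 r 0 h) = 0)
    (hs : Stat (vf Ω (cyl 0 r 0 h)) (cyl 0 r 0 h)) : WeakMSE u (ball 0 r) := by
  intro ζ hζ
  rcases (tsupport ζ).eq_empty_or_nonempty with hK | hK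
  · have h0 : ∀ z, gradient ζ z = 0 := fun z => FE19a_grad_zero (by rw [hK]; exact notMem_empty z)
    simp [h0]
  obtain ⟨z₀, hz₀, hmax⟩ := hζ.2.1.isCompact.exists_isMaxOn hK
    (hu.continuous.abs.continuousOn (s := tsupport ζ))
  have hM : |u z₀| < h := by simpa using hb z₀ (hζ.2.2 hz₀)
  have hM0 : 0 ≤ |u z₀| := abs_nonneg _
  obtain ⟨ψ, hψ, hψ1, hψ', hψ0⟩ := FE_cut (a := (|u z₀| + h) / 2) (b := (|u z₀| + 3 * h) / 4)
    (by linarith) (by linarith only [hM])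
  have hψc : ContDiff ℝ 1 ψ := hψ.of_le (by exact_mod_cast le_top)
  have hX := FE_vert_c1c (y := (0 : E d)) (r := r) (t := 0) (h := h) (h' := (|u z₀| + 3 * h) / 4) hζ hψc
    (fun s hs => hψ0 s (by simpa only [sub_zero] using hs)) (by linarith only [hM])
  have h1 := hs.2 _ hX
  simp only [FE_vert_divT hζ.1 hψc] at h1
  have hgζ := FE19a_grad_cont hζ.1
  have hgu := FE19a_grad_cont hu
  have hht : Continuous (ht : R d → ℝ) := FE_contDiff_ht.continuous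
  have hpr : Continuous (pr : R d → E d) := FE_contDiff_pr.continuous
  have hdψ : Continuous (deriv ψ) := hψc.continuous_deriv le_rfl
  have hψ2 := hψc.continuous
  have hζc := hζ.1.continuous
  have hF : Continuous fun p : R d × S d =>
      deriv ψ (ht p.1) * ζ (pr p.1) * (1 - ht (p.2 : R d) ^ 2) -
        ψ (ht p.1) * ht (p.2 : R d) * ⟪gradient ζ (pr p.1), pr (p.2 : R d)⟫_ℝ := by
    fun_prop
  rw [(vf_graph hΩ hu hb he).2, integral_map (FE19a_map_cont hu).measurable.aemeasurable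
    hF.aestronglyMeasurable, integral_withDensity_eq_integral_toReal_smul
    (by fun_prop) (ae_of_all _ fun _ => ENNReal.ofReal_lt_top)] at h1
  rw [← h1, ← setIntegral_eq_integral_of_forall_compl_eq_zero (s := ball (0 : E d) r)]
  · refine setIntegral_congr_fun measurableSet_ball fun z _ => ?_
    have hW := FE19a_pos (gradient u z)
    simp only [ENNReal.toReal_ofReal hW.le, smul_eq_mul, FE19a_toS, pr_mk, ht_mk, FE_ht_smul,
      FE_pr_smul, inner_smul_right, inner_neg_right, mul_one]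
    by_cases hz : z ∈ tsupport ζ
    · have h2 : |u z| ≤ |u z₀| := hmax hz
      rw [hψ' _ (by linarith only [hM, h2]), hψ1 _ (by linarith), real_inner_comm]
      field_simp
      ring
    · rw [FE19a_grad_zero hz, image_eq_zero_of_notMem_tsupport hz]
      simp
  · intro z hz
    rw [FE19a_grad_zero fun h' => hz (hζ.2.2 h')]
    simp
end FE19a

section FE19
theorem FE19_ext {u : E d → ℝ} {ρ : ℝ} (hρ : 0 < ρ) (hu : ContDiffOn ℝ 1 u (ball 0 ρ)) :
    ∃ v : E d → ℝ, ContDiff ℝ 1 v ∧ ∀ y ∈ ball (0 : E d) (ρ / 2), v y = u y := by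
  let b : ContDiffBump (0 : E d) := ⟨ρ / 2, 3 * ρ / 4, by positivity, by linarith⟩
  refine ⟨fun y => b y * u y, contDiff_iff_contDiffAt.2 fun y => ?_, fun y hy => ?_⟩
  · by_cases hy : y ∈ ball (0 : E d) ρ
    · exact b.contDiff.contDiffAt.mul (hu.contDiffAt (isOpen_ball.mem_nhds hy))
    · have h1 : y ∉ tsupport b := by
        rw [b.tsupport_eq]
        exact fun h => hy (closedBall_subset_ball (show 3 * ρ / 4 < ρ by linarith) h)
      have h2 : (fun y => b y * u y) =ᶠ[𝓝 y] fun _ => 0 := by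
        filter_upwards [notMem_tsupport_iff_eventuallyEq.1 h1] with z hz
        simp [hz]
      exact contDiffAt_const.congr_of_eventuallyEq h2
  · have : b y = 1 := b.one_of_mem_closedBall (ball_subset_closedBall hy)
    simp [this]

/-- `κ` from `mse_reg`.  Multiply `u` by a bump to get a global `C^1` function equal to `u` near `0`; `u 0 = 0`; `sub_or_super` at `0`, take `U = cyl 0 r 0 h`
small (`FE_cyl_subset_ball`) with `|u| < h` on `ball 0 r`; `FE_mse` for `Ω` or `Ωᶜ` (`FE_stat_sub`, `FE_stat_compl`); `mse_reg`; `wreg_of_graph`. -/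
theorem FE_fin (hd : 1 ≤ d) : ∃ κ > 0, ∀ (Ω O : Set (R d)) (u : E d → ℝ) (ρ : ℝ), MeasurableSet Ω → IsOpen O →
    (0 : R d) ∈ O → O ⊆ lf Ω → Stat (vf Ω O) O → (0 : R d) ∈ (pm Ω).support → 0 < ρ →
    ContDiffOn ℝ 1 u (ball 0 ρ) → (∀ y ∈ ball (0 : E d) ρ, ‖gradient u y‖ ≤ κ) →
    (∀ x ∈ cyl (0 : E d) ρ 0 ρ, (x ∈ (pm Ω).support ↔ ht x = u (pr x))) → WReg (pm Ω).support 0 := by
  obtain ⟨κ, hκ, C, -, hreg⟩ := mse_reg d hd
  refine ⟨κ, hκ, fun Ω O u ρ hΩ hO h0 hl hs hx hρ hu hg hgr => ?_⟩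
  obtain ⟨v, hv, hvu⟩ := FE19_ext hρ hu
  have hρ2 : 0 < ρ / 2 := by positivity
  have hz : ∀ r h : ℝ, 0 < r → 0 < h → (0 : R d) ∈ cyl (0 : E d) r 0 h := fun r h hr hh =>
    ⟨by simpa [FE_pr_zero] using hr, by simpa [FE_ht_zero] using hh⟩
  have hv0 : v 0 = 0 := by
    have h1 := (hgr 0 (hz ρ ρ hρ hρ)).1 hx
    rw [FE_ht_zero, FE_pr_zero] at h1
    rw [hvu 0 (mem_ball_self hρ2), ← h1]
  have hev : ∀ᶠ y in 𝓝 (0 : R d), (y ∈ (pm Ω).support ↔ ht y = v (pr y)) := by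
    filter_upwards [(FE_isOpen_cyl (0 : E d) (ρ / 2) 0 ρ).mem_nhds (hz _ _ hρ2 hρ)] with y hy
    rw [hvu _ hy.1]
    exact hgr y ⟨ball_subset_ball (by linarith only [hρ]) hy.1, hy.2⟩
  obtain ⟨t, ht0, htt⟩ := eventually_smallSets.1 (sub_or_super hΩ hx hv.continuous hev)
  obtain ⟨δ, hδ, hδt⟩ := Metric.mem_nhds_iff.1 (inter_mem ht0 (hO.mem_nhds h0))
  obtain ⟨r₀, hr₀, hr⟩ := Metric.continuousAt_iff.1 (hv.continuous.continuousAt (x := 0)) (δ / 2)
    (by positivity)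
  obtain ⟨r, hrp, h1, h2, h3⟩ : ∃ r > 0, r ≤ r₀ ∧ r ≤ δ / 2 ∧ r ≤ ρ / 2 :=
    ⟨min r₀ (min (δ / 2) (ρ / 2)), by positivity, min_le_left _ _,
      (min_le_right _ _).trans (min_le_left _ _), (min_le_right _ _).trans (min_le_right _ _)⟩
  have hb : ∀ z ∈ ball (0 : E d) r, |v z - 0| < δ / 2 := fun z hz' => by
    have := hr (ball_subset_ball h1 hz')
    rwa [hv0, Real.dist_eq] at this
  have hsub : cyl (0 : E d) r 0 (δ / 2) ⊆ t ∩ O :=
    (FE_cyl_subset_ball _ _).trans ((ball_subset_ball (by linarith only [h2])).trans hδt)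
  have hcO : cyl (0 : E d) r 0 (δ / 2) ⊆ O := hsub.trans inter_subset_right
  have hs' := FE_stat_sub (FE_isOpen_cyl _ _ _ _) hcO hs
  have hw : WeakMSE v (ball 0 r) := by
    rcases htt _ (hsub.trans inter_subset_left) with he | he
    · exact FE_mse hΩ hv hb he hs'
    · exact FE_mse hΩ.compl hv hb he (FE_stat_compl hΩ (FE_isOpen_cyl _ _ _ _) (hcO.trans hl) hs')
  have hgv : ∀ z ∈ ball (0 : E d) r, ‖gradient v z‖ ≤ κ := fun z hz' => by
    have h4 : z ∈ ball (0 : E d) (ρ / 2) := ball_subset_ball h3 hz'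
    have h5 : v =ᶠ[𝓝 z] u := by
      filter_upwards [isOpen_ball.mem_nhds h4] with y hy using hvu y hy
    rw [h5.gradient_eq]
    exact hg z (ball_subset_ball (by linarith only [hrp, h3]) h4)
  refine wreg_of_graph (D := ball 0 r) ?_ (hreg v 0 r hrp hv.contDiffOn hgv hw).1 hev
  rw [FE_pr_zero]
  exact ball_mem_nhds _ hrp
end FE19

section FE
theorem FE_eps (hd : 1 ≤ d) {c : ℝ} (hc : 0 < c) (hD : MinDens d c) (hS : MinStat d) :
    ∃ ε > 0, ∀ Ω : Set (R d), Min Ω (ball 0 4) → (∀ y ∈ (pm Ω).support ∩ ball 0 4, |ht y| ≤ ε) →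
      (0 : R d) ∈ (pm Ω).support → WReg (pm Ω).support 0 := by
  obtain ⟨C, hC, τ, hτ, hτ', ε₀, hε₀, step⟩ := FE_step hd hc hD hS
  obtain ⟨κ, hκ, fin⟩ := FE_fin hd
  obtain ⟨Λ, -, C', -, ε₁, hε₁, nrm⟩ := FE_norm hc hD hS
  set K : ℝ := (1 + 8 * C) / (4 * τ) with hK
  have hK0 : 0 < K := by positivity
  set κ' : ℝ := min (1 / 4) (κ / 2) with hκ'
  have hκ'0 : 0 < κ' := lt_min (by norm_num) (by positivity)
  obtain ⟨ε, hε, h1, h2, h3, h4⟩ : ∃ ε > 0, 4 * ε ≤ ε₀ ∧ ε ≤ ε₁ ∧ 2 * C * (4 * ε) ≤ κ' ∧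
      K * (4 * ε) ≤ κ' := by
    refine ⟨min (min (ε₀ / 4) ε₁) (min (κ' / (8 * C)) (κ' / (4 * K))), by positivity, ?_, ?_, ?_, ?_⟩
    · have := (min_le_left (min (ε₀ / 4) ε₁) (min (κ' / (8 * C)) (κ' / (4 * K)))).trans (min_le_left _ _)
      linarith only [this]
    · exact (min_le_left _ _).trans (min_le_right _ _)
    · have := (min_le_right (min (ε₀ / 4) ε₁) (min (κ' / (8 * C)) (κ' / (4 * K)))).trans (min_le_left _ _)
      rw [le_div_iff₀ (by positivity)] at this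
      linarith only [this]
    · have := (min_le_right (min (ε₀ / 4) ε₁) (min (κ' / (8 * C)) (κ' / (4 * K)))).trans (min_le_right _ _)
      rw [le_div_iff₀ (by positivity)] at this
      linarith only [this]
  refine ⟨ε, hε, fun Ω hΩ hsl h0 => ?_⟩
  obtain ⟨Ω', hSl, hsup⟩ := nrm Ω ε hε h2 hΩ h0 hsl
  have hcyl : cyl (0 : E d) (1 / 2) 0 (1 / 2) ⊆ ball (0 : R d) 1 := by
    have := FE_cyl_subset_ball (d := d) (1 / 2) (1 / 2)
    norm_num at this ⊢
    exact this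
  have hb4 : ball (0 : R d) 1 ⊆ ball 0 4 := ball_subset_ball (by norm_num)
  have hto : ∀ x ∈ (pm Ω').support ∩ cyl (0 : E d) (1 / 2) 0 (1 / 2), x ∈ (pm Ω).support := by
    intro x hx
    have : x ∈ (pm Ω').support ∩ ball 0 4 := ⟨hx.1, hb4 (hcyl hx.2)⟩
    rw [hsup] at this
    exact this.1
  have key : ∀ x : R d, ∃ e : R d, x ∈ (pm Ω').support ∩ cyl (0 : E d) (1 / 2) 0 (1 / 2) →
      ‖e‖ = 1 ∧ ‖e - en d‖ ≤ 2 * C * (4 * ε) ∧ ∀ k : ℕ, ∀ z ∈ (pm Ω).support,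
        ‖z - x‖ < 4 * (τ ^ k * (1 / 2)) → |⟪e, z - x⟫_ℝ| ≤ K * (4 * ε) / 2 ^ k * ‖z - x‖ := by
    intro x
    by_cases hx : x ∈ (pm Ω').support ∩ cyl (0 : E d) (1 / 2) 0 (1 / 2)
    · have hx1 : ‖x‖ < 1 := by simpa using hcyl hx.2
      have hsub : ∀ r : ℝ, r ≤ 1 / 2 → ball x (4 * r) ⊆ ball (0 : R d) 4 := by
        intro r hr
        apply ball_subset_ball'
        rw [dist_zero_right]
        linarith only [hτ, hτ', hx1, hr]
      obtain ⟨e, he⟩ := FE_iter (M := (pm Ω).support) (x := x) (r₀ := 1 / 2) (ε := 4 * ε) hC hτ hτ'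
        (by norm_num) (by positivity) h1
        (fun r e η hr hr' he hη hη' hz => step Ω _ x hΩ (hto x hx) r e η hr (hsub r hr') he hη hη' hz)
        (e₀ := en d) norm_en (by
          intro z hz
          rw [inner_en, FE_ht_sub]
          have a1 := hsl z ⟨hz.1, hsub _ le_rfl hz.2⟩
          have a2 := hsl x ⟨hto x hx, hb4 (hcyl hx.2)⟩
          rw [abs_le] at a1 a2 ⊢
          constructor <;> linarith only [a1.1, a1.2, a2.1, a2.2])
      exact ⟨e, fun _ => he⟩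
    · exact ⟨0, fun h => absurd h hx⟩
  choose n hn using key
  have hκ4 : κ' ≤ 1 / 4 := min_le_left _ _
  obtain ⟨u, hu1, hu2, hu3⟩ := FE_graph (M := (pm Ω').support) (ρ := 1 / 2) (n := n) hκ4
    (by
      intro y _
      obtain ⟨t, ht1, ht2⟩ := FE_onto hSl.meas hε.le (by linarith only [hSl.small]) hSl.lo hSl.hi y
      exact ⟨t, by linarith only [hSl.small, ht1], ht2⟩)
    (by
      intro x hx
      obtain ⟨a1, a2, a3⟩ := hn x hx
      refine ⟨a1, a2.trans h3, fun z hz => ?_⟩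
      have hx1 : ‖x‖ < 1 := by simpa using hcyl hx.2
      have hz1 : ‖z‖ < 1 := by simpa using hcyl hz.2
      have := a3 0 z (hto z hz) (by
        have := norm_sub_le z x
        simp only [pow_zero]
        linarith only [hx1, hz1, this])
      simp only [pow_zero, div_one] at this
      exact this.trans (mul_le_mul_of_nonneg_right h4 (norm_nonneg _)))
    (by
      intro η hη
      obtain ⟨k, hk⟩ : ∃ k : ℕ, K * (4 * ε) / η < 2 ^ k := pow_unbounded_of_one_lt _ (by norm_num)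
      refine ⟨4 * (τ ^ k * (1 / 2)), by positivity, fun x hx z hz hzx => ?_⟩
      refine ((hn x hx).2.2 k z (hto z hz) hzx).trans (mul_le_mul_of_nonneg_right ?_ (norm_nonneg _))
      rw [div_lt_iff₀ hη] at hk
      rw [div_le_iff₀ (by positivity)]
      linarith only [hk])
  have h0' : (0 : R d) ∈ (pm Ω').support := by
    have : (0 : R d) ∈ (pm Ω).support ∩ ball 0 4 := ⟨h0, mem_ball_self (by norm_num)⟩
    rw [← hsup] at this
    exact this.1
  have hCy : (0 : R d) ∈ Cy d :=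
    FE_ball_subset_cyl (ρ := 1) (by norm_num) le_rfl (mem_ball_self one_pos)
  have hw := fin Ω' (Cy d) u (1 / 2) hSl.meas (FE_isOpen_cyl _ _ _ _) hCy hSl.fin hSl.stat h0'
    (by norm_num) hu1 (fun y hy => (hu2 y hy).trans (by
      have : κ' ≤ κ / 2 := min_le_right _ _
      linarith only [this])) hu3
  exact WReg.congr isOpen_ball hsup (mem_ball_self (by norm_num)) hw

/-- the field `Cls.eps` for `KA` -/
theorem ka_eps (hd : 1 ≤ d) {c : ℝ} (hc : 0 < c) (hD : MinDens d c) (hS : MinStat d) :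
    ∃ ε > 0, ∀ W : Vf d, KA (ball 0 4) W → (∀ y ∈ W.fst.support ∩ ball 0 4, |ht y| ≤ ε) →
      (0 : R d) ∈ W.fst.support → WReg W.fst.support 0 := by
  obtain ⟨ε, hε, h⟩ := FE_eps hd hc hD hS
  refine ⟨ε, hε, fun W ⟨_, Ω, hΩ, he⟩ hsl h0 => ?_⟩
  have hs := support_congr isOpen_ball he
  have hb : (0 : R d) ∈ ball (0 : R d) 4 := mem_ball_self (by norm_num)
  have h0' : (0 : R d) ∈ (pm Ω).support := by
    have : (0 : R d) ∈ W.fst.support ∩ ball 0 4 := ⟨h0, hb⟩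
    rw [hs] at this
    exact this.1
  exact WReg.congr isOpen_ball hs.symm hb (h Ω hΩ (fun y hy => hsl y (hs ▸ hy)) h0')
end FE

end Pool.Agent.MP_5cfeaf_gt.W
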