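import Pool.Agent.MP_5cfeaf_gt.PerB
import Pool.Agent.MP_5cfeaf_gt.Var
import Pool.Agent.MP_5cfeaf_gt.SimA

attribute [-instance] ProperSMul.toContinuousSMul
  ContinuousAddMonoidHom.instCoeOutOfAddMonoidHomClassOfContinuousMapClass
  TotallySeparatedSpace.t2Space RKHS.instFunLike AddQuantale.instAddLeftMono
  NonarchimedeanAddGroup.toIsTopologicalAddGroup IsScalarTower.complexToReal
  IdemSemiring.toCanonicallyOrderedAdd CoalgHomClass.toSemilinearMapClass littleWedderburn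
  Valued.toUniformSpace IsTopologicalTorsor.toContinuousSMul RingHomClass.toLinearMapClassNNRat
  AddQuantale.instAddRightMono ContinuousMonoidHom.instCoeOutOfMonoidHomClassOfContinuousMapClass
  LinearOrderedCommMonoidWithZero.toPosMulStrictMono Action.FintypeCat.instMulActionObjFiniteOf
  Group.IsPerfect.subsingleton_of_isMulCommutative NonAssocSemiring.toNonUnitalNonAssocSemiring
  NumberField.to_charZero IsTopologicalSemiring.toContinuousAdd RingHomClass.toLinearMapClassRat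
  AlexandrovDiscrete.toLocallyCompactSpace NonUnitalNormedRing.toNonUnitalRing
  AlgHom.instNonUnitalAlgHomClassOfAlgHomClass continuousSub_of_discreteTopology
  LieAdmissibleAlgebra.toSMulCommClass LieAdmissibleRing.toNonUnitalNonAssocRing
  Quantale.instMulRightMono CStarAlgebra.instOrderClosedTopology
  NonUnitalNormedCommRing.toNonUnitalCommRing LieAdmissibleAlgebra.toIsScalarTower
  IdemSemiring.toSemiring CStarAlgebra.toNormedRing IsValuativeTopology.instIsTopologicalAddGroup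
  MonoidWithZeroHomClass.toZeroHomClass LeftPreLieAlgebra.toSMulCommClass
  RightPreLieAlgebra.toSMulCommClass SeminormedCommRing.toCommRing ContMDiffMul.toIsManifold
  RightPreLieAlgebra.toIsScalarTower Quantale.instMulLeftMono LeftPreLieAlgebra.toIsScalarTower
  IdemSemiring.toMulLeftMono EuclideanDomain.toCommRing
  NonUnitalNonAssocCommSemiring.toNonUnitalNonAssocSemiring Unique.instSubsingleton
  AddCommGroupWithOne.toAddGroupWithOne NonUnitalSeminormedCommRing.toNonUnitalCommRing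
  IsIsometricSMul.to_continuousConstSMul CommMonoidWithZero.toMonoidWithZero
  AddCommMonoidWithOne.toAddCommMonoid IsOrderedCancelMonoid.toIsOrderedMonoid
  MulSemiringAction.toDistribMulAction NonUnitalAlgSemiHomClass.toDistribMulActionSemiHomClass
  NonAssocCommRing.toNonUnitalNonAssocCommRing CommCStarAlgebra.toNormedCommRing
  TopologicalSpace.NoetherianSpace.compactSpace BooleanRing.toRing instIsModuleTopology
  RightPreLieRing.toNonUnitalNonAssocRing BooleanRing.toCommRing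
  LinearOrderedCommMonoidWithZero.toIsBotZeroClass continuousSub_of_indiscreteTopology instCoeTCOfCoe
  MeasureTheory.Measure.IsHaarMeasure.toIsOpenPosMeasure instSMulZeroClass
  LeftPreLieRing.toNonUnitalNonAssocRing AlexandrovDiscrete.toFirstCountable
  NormedDivisionRing.toNormedRing CommGroupWithZero.toGroupWithZero
  NonUnitalCStarAlgebra.toNonUnitalNormedRing LinearOrderedAddCommMonoidWithTop.toAddCommMonoid
  IdemCommSemiring.toCommSemiring AddGroupSeminormClass.toNonnegHomClass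
  SeminormedRing.toNonUnitalSeminormedRing UpgradedStandardBorel.toTopologicalSpace
  LeftPreLieAlgebra.toModule SemigroupWithZero.toMulZeroClass RightPreLieAlgebra.toModule
  NormedDivisionRing.toDivisionRing

section

/-! Block F: basic properties of minimisers, density estimates. -/

set_option autoImplicit false

open MeasureTheory Set Filter Topology Metric
open scoped ENNReal symmDiff Classical InnerProductSpace ContDiff

namespace Pool.Agent.MP_5cfeaf_gt.W

variable {d : ℕ}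

/-- cut-off between two concentric balls -/
theorem FD_cut (d : ℕ) : ∃ C > 0, ∀ (x : R d) (a b : ℝ), 0 ≤ a → a < b → ∃ ψ : R d → ℝ,
    C1c ψ (closedBall x b) ∧ (∀ y, 0 ≤ ψ y) ∧ (∀ y, ψ y ≤ 1) ∧ (∀ y ∈ closedBall x a, ψ y = 1) ∧
      (∀ y, y ∉ ball x b → ψ y = 0) ∧ (∀ y, ‖fderiv ℝ ψ y‖ ≤ C / (b - a)) ∧
      ∀ y, y ∈ ball x a ∨ y ∉ ball x b → fderiv ℝ ψ y = 0 := by
  have hc : ContDiff ℝ 1 Real.smoothTransition := Real.smoothTransition.contDiff
  obtain ⟨L, hL⟩ := (isCompact_Icc (a := (0 : ℝ)) (b := 1)).exists_bound_of_continuousOn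
    (hc.continuous_deriv le_rfl).continuousOn
  have L0 : 0 ≤ L := (norm_nonneg _).trans (hL 0 ⟨le_rfl, zero_le_one⟩)
  refine ⟨2 * L + 1, by positivity, fun x a b ha hab => ?_⟩
  have hD : 0 < b ^ 2 - a ^ 2 := by nlinarith only [ha, hab]
  have hb : 0 < b := ha.trans_lt hab
  set ψ : R d → ℝ := fun y => Real.smoothTransition ((b ^ 2 - ‖y - x‖ ^ 2) / (b ^ 2 - a ^ 2))
  have p0 : ∀ y, 0 ≤ ψ y := fun y => Real.smoothTransition.nonneg _
  have p1 : ∀ y, ψ y ≤ 1 := fun y => Real.smoothTransition.le_one _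
  have p2 : ∀ y ∈ closedBall x a, ψ y = 1 := fun y hy => by
    rw [mem_closedBall, dist_eq_norm] at hy
    refine Real.smoothTransition.one_of_one_le ((one_le_div hD).2 ?_)
    nlinarith only [norm_nonneg (y - x), hy]
  have p3 : ∀ y, y ∉ ball x b → ψ y = 0 := fun y hy => by
    rw [mem_ball, dist_eq_norm, not_lt] at hy
    exact Real.smoothTransition.zero_of_nonpos (div_nonpos_of_nonpos_of_nonneg (by nlinarith only [ha, hab, hy]) hD.le)
  have p4 : ∀ y, y ∈ closedBall x a ∨ y ∉ ball x b → fderiv ℝ ψ y = 0 := fun y hy => by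
    rcases hy with hy | hy
    · exact IsLocalMax.fderiv_eq_zero (Eventually.of_forall fun z => (p1 z).trans (p2 y hy).ge)
    · exact IsLocalMin.fderiv_eq_zero (Eventually.of_forall fun z => (p3 y hy).le.trans (p0 z))
  have hs : ContDiff ℝ 1 ψ := hc.comp ((contDiff_const.sub
    ((contDiff_id.sub contDiff_const).norm_sq ℝ)).div_const _)
  have p5 : ∀ y, y ∉ closedBall x b → ψ y = 0 := fun y hy =>
    p3 y fun h => hy (ball_subset_closedBall h)
  refine ⟨ψ, ⟨hs, HasCompactSupport.intro (isCompact_closedBall x b) p5,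
    closure_minimal (fun y hy => by_contra fun h => hy (p5 y h)) isClosed_closedBall⟩, p0, p1, p2, p3,
    fun y => ?_, fun y hy => p4 y (hy.imp_left fun h => ball_subset_closedBall h)⟩
  have q0 : 0 < b - a := by linarith
  by_cases hy : y ∈ closedBall x a ∨ y ∉ ball x b
  · rw [p4 y hy, norm_zero]
    positivity
  rw [not_or, not_not, mem_closedBall, mem_ball, dist_eq_norm, not_le] at hy
  have n0 := norm_nonneg (y - x)
  have h1 := ((((hasFDerivAt_id y).sub_const x).norm_sq.const_sub (b ^ 2)).mul_const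
    (b ^ 2 - a ^ 2)⁻¹)
  have h2 := ((hc.differentiable one_ne_zero _).hasDerivAt.comp_hasFDerivAt y h1).fderiv
  have e : ψ = Real.smoothTransition ∘ fun z => (b ^ 2 - ‖id z - x‖ ^ 2) * (b ^ 2 - a ^ 2)⁻¹ := by
    funext z
    simp only [ψ, Function.comp, id, div_eq_mul_inv]
  rw [e, h2, norm_smul, norm_smul, norm_neg, two_smul]
  have h3 : ‖(innerSL ℝ (id y - x)).comp (ContinuousLinearMap.id ℝ (R d))‖ ≤ b := by
    rw [ContinuousLinearMap.comp_id, innerSL_apply_norm]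
    exact hy.2.le
  have h4 := hL ((b ^ 2 - ‖id y - x‖ ^ 2) * (b ^ 2 - a ^ 2)⁻¹) ⟨by
    simp only [id]
    exact mul_nonneg (by nlinarith only [ha, hy]) (by positivity), by
    simp only [id]
    rw [← div_eq_mul_inv, div_le_one hD]
    nlinarith only [ha, hy]⟩
  calc _ ≤ L * ((b ^ 2 - a ^ 2)⁻¹ * (b + b)) := by
        refine mul_le_mul h4 (mul_le_mul (by rw [Real.norm_of_nonneg (by positivity)])
          ((norm_add_le _ _).trans (add_le_add h3 h3)) (norm_nonneg _) (by positivity))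
          (by positivity) L0
    _ = 2 * L / (b - a) * (b / (b + a)) := by
        rw [show b ^ 2 - a ^ 2 = (b - a) * (b + a) by ring]
        field_simp
        ring
    _ ≤ (2 * L + 1) / (b - a) * 1 := by
        gcongr
        · linarith only []
        · exact (div_le_one (by linarith only [ha, hy])).2 (by linarith only [ha])
    _ = _ := mul_one _

theorem FD_pm_empty : pm (∅ : Set (R d)) = 0 := by
  rw [← Measure.measure_univ_eq_zero, pm_open _ isOpen_univ]
  simp only [Per, subset_univ, true_and, Measure.restrict_empty, integral_zero_measure, ENNReal.ofReal_zero, ENNReal.iSup_zero, ciSup_const]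

theorem FD_pm_univ : pm (univ : Set (R d)) = 0 := by
  rw [← compl_empty, pm_compl MeasurableSet.empty, FD_pm_empty]

theorem Min.mono {Ω O O' : Set (R d)} (h : Min Ω O) (hO : O' ⊆ O) : Min Ω O' := 
  ⟨h.1, hO.trans h.2.1, fun x ρ ρ' F a b => h.2.2 x ρ ρ' F a (b.trans hO)⟩

theorem Min.compl {Ω O : Set (R d)} (h : Min Ω O) : Min Ωᶜ O := by
  refine ⟨h.1.compl, fun x hx => ?_, fun x ρ ρ' F a b c e => ?_⟩
  · have := h.2.1 hx
    rwa [lf, pm_compl h.1]
  · rw [pm_compl h.1, ← pm_compl c]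
    refine h.2.2 x ρ ρ' _ a b c.compl ?_
    rwa [← compl_symmDiff_compl, compl_compl]

theorem Min.sim {Ω O : Set (R d)} (h : Min Ω O) {r : ℝ} (hr : 0 < r) (x : R d)
    (Q : R d ≃ₗᵢ[ℝ] R d) : Min (simP r x Q '' Ω) (simP r x Q '' O) := by
  obtain ⟨φ, hφ, -⟩ := exists_simH hr x Q
  have e : simP r x Q = φ := (funext hφ).symm
  have inj : Function.Injective (simP r x Q) := e ▸ φ.injective
  have sur : Function.Surjective (simP r x Q) := e ▸ φ.surjective
  refine ⟨e ▸ φ.measurableEmbedding.measurableSet_image.2 h.1, ?_, fun z ρ ρ' F a b c f => ?_⟩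
  · rintro _ ⟨y, hy, rfl⟩
    obtain ⟨s, s0, hs⟩ := h.2.1 hy
    refine ⟨s / r, by positivity, ?_⟩
    rw [← simP_ball hr, pm_sim h.1 _ hr, mul_div_cancel₀ _ hr.ne']
    exact ENNReal.mul_lt_top ENNReal.ofReal_lt_top hs
  · obtain ⟨y, rfl⟩ := sur z
    have m : MeasurableSet (simP r x Q ⁻¹' F) := e ▸ φ.continuous.measurable c
    rw [← image_preimage_eq F sur] at f ⊢
    rw [← simP_closedBall hr, image_subset_image_iff inj] at b
    rw [← simP_ball hr, ← image_symmDiff inj, image_subset_image_iff inj] at f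
    rw [← simP_ball hr, pm_sim h.1 _ hr, pm_sim m _ hr]
    exact mul_le_mul_right (h.2.2 y _ _ _ (mul_lt_mul_of_pos_left a hr) b m f) _

theorem FD_congr {Ω Ω' U A : Set (R d)} (hΩ : MeasurableSet Ω) (hΩ' : MeasurableSet Ω')
    (hU : IsOpen U) (h : volume ((Ω ∆ Ω') ∩ U) = 0) (hA : A ⊆ U) : pm Ω A = pm Ω' A := by
  rw [← Measure.restrict_eq_self _ hA, pm_congr hΩ hΩ' hU h, Measure.restrict_eq_self _ hA]

/-- localisation of a comparison -/
theorem FD_loc {Ω F U V K : Set (R d)} (hΩ : MeasurableSet Ω) (hF : MeasurableSet F)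
    (hU : MeasurableSet U) (hK : IsClosed K) (hKU : K ⊆ U) (hUV : U ⊆ V) (he : F ∆ Ω ⊆ K)
    (hf : pm Ω V < ⊤) (h : pm Ω V ≤ pm F V) : pm Ω U ≤ pm F U := by
  have e : pm F (V \ U) = pm Ω (V \ U) := FD_congr hF hΩ hK.isOpen_compl
    (measure_mono_null (fun y hy => absurd (he hy.1) hy.2) measure_empty)
    fun y hy hk => hy.2 (hKU hk)
  rw [← measure_inter_add_sdiff V hU, ← measure_inter_add_sdiff V hU, e,
    inter_eq_right.2 hUV] at h
  exact (ENNReal.add_le_add_iff_right ((measure_mono sdiff_subset).trans_lt hf).ne).1 h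

theorem Min.fin {Ω O : Set (R d)} (h : Min Ω O) {x : R d} {ρ : ℝ} (hO : closedBall x ρ ⊆ O) :
    pm Ω (ball x ρ) < ⊤ :=
  (measure_mono ball_subset_closedBall).trans_lt
    (pm_lt_top (isCompact_closedBall x ρ) (hO.trans h.2.1))

/-- comparison with an arbitrary set through a cut-off function -/
theorem Min.psi {Ω O G : Set (R d)} (h : Min Ω O) {x : R d} {ρ ρ' : ℝ} (hρ : ρ < ρ')
    (hO : closedBall x ρ' ⊆ O) (hG : MeasurableSet G) {ψ : R d → ℝ} (hψ : ContDiff ℝ 1 ψ)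
    (h0 : ∀ y, 0 ≤ ψ y) (h1 : ∀ y, ψ y ≤ 1) (hz : ∀ y, y ∉ ball x ρ → ψ y = 0) :
    ∫⁻ y, ENNReal.ofReal (ψ y) ∂pm Ω ≤
      ∫⁻ y, ENNReal.ofReal (ψ y) ∂pm G + ∫⁻ y in G ∆ Ω, ‖fderiv ℝ ψ y‖ₑ := by
  obtain ⟨s, hs, hp⟩ := paste_fun hG h.1 (isOpen_ball (x := x) (ε := ρ')) hψ h0 h1
  have mZ : MeasurableSet {y | s < ψ y} := (isOpen_lt continuous_const hψ.continuous).measurableSet
  have hm := (h.2.2 x ρ ρ' _ hρ hO ((hG.inter mZ).union (h.1.diff mZ)) fun y hy => by
    by_contra hk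
    have : ¬ s < ψ y := by rw [hz y hk]; exact not_lt.2 hs.1.le
    simp only [mem_symmDiff, mem_union, mem_inter_iff, Set.mem_sdiff, mem_ofPred_eq] at hy
    tauto).trans hp
  have m1 : Measurable fun y => ENNReal.ofReal (ψ y) := hψ.continuous.measurable.ennreal_ofReal
  have e : pm Ω (ball x ρ') = ∫⁻ y in ball x ρ', ENNReal.ofReal (ψ y) ∂pm Ω +
      ∫⁻ y in ball x ρ', ENNReal.ofReal (1 - ψ y) ∂pm Ω := by
    rw [← lintegral_add_left m1, ← setLIntegral_one]
    refine lintegral_congr fun y => ?_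
    rw [← ENNReal.ofReal_add (h0 y) (sub_nonneg.2 (h1 y)), add_sub_cancel, ENNReal.ofReal_one]
  have f : ∫⁻ y in ball x ρ', ENNReal.ofReal (1 - ψ y) ∂pm Ω ≠ ⊤ :=
    ((le_add_self.trans e.ge).trans_lt (h.fin hO)).ne
  rw [e, add_right_comm, ENNReal.add_le_add_iff_right f,
    setLIntegral_eq_of_support_subset fun y hy => by_contra fun hk =>
      hy (by rw [hz y fun k => hk (ball_subset_ball hρ.le k), ENNReal.ofReal_zero])] at hm
  exact hm.trans (add_le_add (setLIntegral_le_lintegral _ _) (lintegral_mono_set inter_subset_right))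

theorem FD_err {ψ : R d → ℝ} {A B : Set (R d)} (hB : MeasurableSet B) {c : ℝ}
    (h : ∀ y, ‖fderiv ℝ ψ y‖ ≤ c) (hz : ∀ y, y ∉ B → fderiv ℝ ψ y = 0) :
    ∫⁻ y in A, ‖fderiv ℝ ψ y‖ₑ ≤ ENNReal.ofReal c * volume (A ∩ B) := by
  calc _ ≤ ∫⁻ y in A, B.indicator (fun _ => ENNReal.ofReal c) y := lintegral_mono fun y => by
        by_cases hy : y ∈ B
        · rw [indicator_of_mem hy, ← ofReal_norm]
          exact ENNReal.ofReal_le_ofReal (h y)
        · rw [hz y hy, ← ofReal_norm, norm_zero, ENNReal.ofReal_zero]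
          exact zero_le
    _ = _ := by rw [lintegral_indicator_const hB, Measure.restrict_apply hB, inter_comm]

theorem FD_le_int {μ : Measure (R d)} {ψ : R d → ℝ} {A : Set (R d)} (hA : MeasurableSet A)
    (h : ∀ y ∈ A, ψ y = 1) : μ A ≤ ∫⁻ y, ENNReal.ofReal (ψ y) ∂μ := by
  rw [← lintegral_indicator_one hA]
  refine lintegral_mono fun y => ?_
  by_cases hy : y ∈ A
  · rw [indicator_of_mem hy, h y hy, ENNReal.ofReal_one, Pi.one_apply]
  · rw [indicator_of_notMem hy]
    exact zero_le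

theorem FD_iter {K B : ℝ} (hK : 0 < K) (hB : 1 ≤ B) (hd : 1 ≤ d) : ∃ ε > 0, ∀ a : ℕ → ℝ,
    (∀ l, 0 ≤ a l) → a 0 ≤ ε → (∀ l, a (l + 1) ^ d ≤ K * B ^ l * a l ^ (d + 1)) →
    Tendsto a atTop (𝓝 0) := by
  obtain ⟨q, q0, q1, q2⟩ : ∃ q : ℝ, 0 < q ∧ q < 1 ∧ B * q ≤ 1 :=
    ⟨1 / (2 * B), by positivity, (div_lt_one (by linarith only [hB])).2 (by linarith only [hB]),
      by rw [mul_one_div, div_le_one (by linarith)]; linarith⟩
  refine ⟨q ^ d / K, by positivity, fun a a0 h0 h => ?_⟩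
  have key : ∀ l, a l ≤ q ^ d / K * q ^ l := fun l => by
    induction l with
    | zero => simpa using h0
    | succ l ih =>
      refine (pow_le_pow_iff_left₀ (a0 _) (by positivity) (by omega : d ≠ 0)).1 ((h l).trans ?_)
      calc _ ≤ K * B ^ l * (q ^ d / K * q ^ l) ^ (d + 1) := by
            have := a0 l
            gcongr
        _ = (B * q) ^ l * (q ^ d / K * q ^ (l + 1)) ^ d := by
            rw [pow_succ _ d, pow_succ q l, ← mul_assoc (q ^ d / K), mul_pow _ q d, mul_pow B]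
            field_simp
        _ ≤ _ := mul_le_of_le_one_left (by positivity) (pow_le_one₀ (by positivity) q2)
  have t := (tendsto_pow_atTop_nhds_zero_of_lt_one q0.le q1).const_mul (q ^ d / K)
  rw [mul_zero] at t
  exact squeeze_zero a0 key t

theorem FD_step (hd : 1 ≤ d) : ∃ K > 0, ∀ (Ω O : Set (R d)) (x : R d) (a b r : ℝ), Min Ω O → 0 ≤ a →
    a < b → b < r → closedBall x r ⊆ O → (volume (Ω ∩ ball x a)).toReal ^ d ≤
      K * ((volume (Ω ∩ ball x b)).toReal / (b - a)) ^ (d + 1) := by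
  obtain ⟨C, C0, hC⟩ := FD_cut d
  obtain ⟨K, K0, hK⟩ := isoper hd
  refine ⟨(K.toReal + 1) * (2 * C) ^ (d + 1), by positivity, fun Ω O x a b r h ha hab hbr hO => ?_⟩
  obtain ⟨ψ, a1, a2, a3, a4, a5, a6, a7⟩ := hC x a b ha hab
  have q : 0 < b - a := by linarith only [hab]
  have p1 := h.psi hbr hO MeasurableSet.empty a1.1 a2 a3 a5
  obtain ⟨s, hs, p2⟩ := paste_fun h.1 MeasurableSet.empty isOpen_univ a1.1 a2 a3
  have p3 := FD_err (A := Ω) measurableSet_ball a6 fun y hy => a7 y (Or.inr hy)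
  have e1 : (∅ : Set (R d)) ∆ Ω = Ω := bot_symmDiff Ω
  have e2 : Ω ∆ (∅ : Set (R d)) = Ω := symmDiff_bot Ω
  simp only [FD_pm_empty, lintegral_zero_measure, zero_add, add_zero, Measure.restrict_univ,
    empty_sdiff, union_empty, univ_inter, e1, e2] at p1 p2
  have p4 := hK (Ω ∩ {y | s < ψ y})
    (h.1.inter (isOpen_lt continuous_const a1.1.continuous).measurableSet)
    (isBounded_ball.subset fun y hy => by_contra fun k =>
      absurd hy.2 (by rw [mem_ofPred_eq, a5 y k]; exact not_lt.2 hs.1.le))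
  have f : ∀ t, volume (Ω ∩ ball x t) ≠ ⊤ := fun t =>
    ((measure_mono inter_subset_right).trans_lt measure_ball_lt_top).ne
  have p5 : volume (Ω ∩ ball x a) ^ d ≤ K * (2 * (ENNReal.ofReal (C / (b - a)) *
      volume (Ω ∩ ball x b))) ^ (d + 1) := by
    refine le_trans (pow_le_pow_left' (measure_mono fun y hy => mem_inter hy.1 ?_) d) (p4.trans ?_)
    · rw [mem_ofPred_eq, a4 y (ball_subset_closedBall hy.2)]
      exact hs.2
    · rw [two_mul]
      gcongr
      exact p2.trans (add_le_add (p1.trans p3) p3)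
  have p6 := ENNReal.toReal_mono (ENNReal.mul_ne_top K0.ne (ENNReal.pow_ne_top (ENNReal.mul_ne_top
    ENNReal.ofNat_ne_top (ENNReal.mul_ne_top ENNReal.ofReal_ne_top (f b))))) p5
  simp only [ENNReal.toReal_pow, ENNReal.toReal_mul, ENNReal.toReal_ofNat,
    ENNReal.toReal_ofReal (div_pos C0 q).le] at p6
  refine p6.trans ?_
  rw [mul_assoc, ← mul_pow]
  refine mul_le_mul (by linarith only []) (le_of_eq (by congr 1; ring)) (by positivity) (by positivity)

theorem FD_vol (hd : 1 ≤ d) : ∃ c > 0, ∀ (Ω O : Set (R d)) (x : R d) (r : ℝ), Min Ω O →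
    x ∈ (pm Ω).support → 0 < r → closedBall x r ⊆ O →
    ENNReal.ofReal (c * r ^ (d + 1)) ≤ volume (Ω ∩ ball x r) := by
  obtain ⟨K, K0, hK⟩ := FD_step hd
  obtain ⟨ε, ε0, hε⟩ := FD_iter (K := K * 8 ^ (d + 1)) (B := 2 ^ (d + 1)) (by positivity)
    (one_le_pow₀ one_le_two) hd
  refine ⟨ε, ε0, fun Ω O x r h hx hr hO => ?_⟩
  have f : ∀ t, volume (Ω ∩ ball x t) ≠ ⊤ := fun t =>
    ((measure_mono inter_subset_right).trans_lt measure_ball_lt_top).ne
  have mo : ∀ {s t}, s ≤ t → (volume (Ω ∩ ball x s)).toReal ≤ (volume (Ω ∩ ball x t)).toReal :=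
    fun st => ENNReal.toReal_mono (f _) (measure_mono (inter_subset_inter_right _ (ball_subset_ball st)))
  rw [ENNReal.ofReal_le_iff_le_toReal (f r)]
  by_contra hc
  have t := hε (fun l => (volume (Ω ∩ ball x (r / 4 + r / 4 / 2 ^ l))).toReal / r ^ (d + 1))
    (fun l => by positivity)
    (by
      rw [div_le_iff₀ (by positivity)]
      exact (mo (by rw [pow_zero]; linarith only [hr])).trans (not_le.1 hc).le)
    (fun l => by
      have u : (1 : ℝ) ≤ 2 ^ l := one_le_pow₀ one_le_two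
      have v : r / 4 / 2 ^ l ≤ r / 4 := div_le_self (by positivity) u
      have e : r / 4 + r / 4 / 2 ^ l - (r / 4 + r / 4 / 2 ^ (l + 1)) = r / 8 / 2 ^ l := by
        field_simp
        ring
      have w : 0 < r / 8 / 2 ^ l := by positivity
      have := hK Ω O x (r / 4 + r / 4 / 2 ^ (l + 1)) (r / 4 + r / 4 / 2 ^ l) r h (by positivity)
        (by linarith only [e, w]) (by linarith only [hr, v]) hO
      rw [e] at this
      rw [div_pow, div_le_iff₀ (by positivity)]
      refine this.trans (le_of_eq ?_)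
      rw [← pow_mul 2, mul_comm (d + 1) l, pow_mul, ← pow_mul r, mul_comm (d + 1) d, pow_mul r,
        mul_assoc, mul_assoc, mul_assoc, ← mul_pow, ← mul_pow, ← mul_pow]
      congr 2
      field_simp
      ring)
  have z : (volume (Ω ∩ ball x (r / 4))).toReal / r ^ (d + 1) ≤ 0 :=
    ge_of_tendsto' t fun l => div_le_div_of_nonneg_right
      (mo (le_add_of_nonneg_right (by positivity))) (by positivity)
  rw [div_nonpos_iff, or_iff_right fun k => absurd k.2 (not_le.2 (by positivity))] at z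
  have z' := (ENNReal.toReal_eq_zero_iff _).1 (le_antisymm z.1 ENNReal.toReal_nonneg)
  have := (Measure.mem_support_iff_forall x).1 hx _ (ball_mem_nhds x (by positivity : 0 < r / 4))
  rw [FD_congr h.1 MeasurableSet.empty isOpen_ball
    (by rw [← bot_eq_empty, symmDiff_bot]; exact z'.resolve_right (f _)) Subset.rfl,
    FD_pm_empty] at this
  exact absurd this (by simp)

/-- volume density estimates -/
theorem min_vol (hd : 1 ≤ d) : ∃ c > 0, ∀ (Ω O : Set (R d)) (x : R d) (r : ℝ), Min Ω O →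
    x ∈ (pm Ω).support → 0 < r → closedBall x r ⊆ O →
    ENNReal.ofReal (c * r ^ (d + 1)) ≤ volume (Ω ∩ ball x r) ∧
      ENNReal.ofReal (c * r ^ (d + 1)) ≤ volume (ball x r \ Ω) := by
  obtain ⟨c, c0, hc⟩ := FD_vol hd
  refine ⟨c, c0, fun Ω O x r h hx hr hO => ⟨hc Ω O x r h hx hr hO, ?_⟩⟩
  rw [sdiff_eq, inter_comm]
  exact hc Ωᶜ O x r h.compl (by rwa [pm_compl h.1]) hr hO

/-- lower bound for the mass -/
theorem min_dens (hd : 1 ≤ d) : ∃ c > 0, ∀ (Ω O : Set (R d)) (x : R d) (r : ℝ), Min Ω O →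
    x ∈ (pm Ω).support → 0 < r → closedBall x r ⊆ O →
    ENNReal.ofReal (c * r ^ d) ≤ pm Ω (ball x r) := by
  obtain ⟨c, c0, hc⟩ := min_vol hd
  obtain ⟨C, C0, hC⟩ := poincare d
  refine ⟨c / C, by positivity, fun Ω O x r h hx hr hO => ?_⟩
  have := (le_min_iff.2 (hc Ω O x r h hx hr hO)).trans (hC Ω x r h.1)
  rw [show c * r ^ (d + 1) = C * r * (c / C * r ^ d) by field_simp; ring,
    ENNReal.ofReal_mul (by positivity)] at this
  exact (ENNReal.mul_le_mul_iff_right (ENNReal.ofReal_pos.2 (by positivity)).ne'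
    ENNReal.ofReal_ne_top).1 this

end Pool.Agent.MP_5cfeaf_gt.W

end

section

/-! Block F: limits of minimisers. -/

set_option autoImplicit false

open MeasureTheory Set Filter Topology Metric
open scoped ENNReal symmDiff Classical InnerProductSpace ContDiff

namespace Pool.Agent.MP_5cfeaf_gt.W

variable {d : ℕ}

theorem FL_inner (μ : Measure (R d)) {U : Set (R d)} (hU : IsOpen U) {a : ℝ≥0∞}
    (h : ∀ K, IsCompact K → K ⊆ U → μ K ≤ a) : μ U ≤ a := by
  rw [((Measure.InnerRegularWRT.isCompact_isClosed μ).trans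
    (Measure.InnerRegularWRT.of_pseudoMetrizableSpace μ)).measure_eq_iSup hU]
  exact iSup_le fun K => iSup_le fun a => iSup_le fun b => h K b a

theorem FL_int_le {μ : Measure (R d)} {ψ : R d → ℝ} {U : Set (R d)} (hU : MeasurableSet U)
    (h1 : ∀ y, ψ y ≤ 1) (hz : ∀ y, y ∉ U → ψ y = 0) : ∫⁻ y, ENNReal.ofReal (ψ y) ∂μ ≤ μ U := by
  rw [← lintegral_indicator_one hU]
  refine lintegral_mono fun y => ?_
  by_cases hy : y ∈ U
  · rw [indicator_of_mem hy]
    exact ENNReal.ofReal_le_one.2 (h1 y)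
  · rw [hz y hy, ENNReal.ofReal_zero]
    exact zero_le

theorem FL_psi {ι : Type} {l : Filter ι} [l.NeBot] {Ω O : ι → Set (R d)} {Ω₀ F V U : Set (R d)}
    (hM : ∀ i, Min (Ω i) (O i)) (hO : ∀ ρ : ℝ, ∀ᶠ i in l, ball 0 ρ ⊆ O i)
    (hc : ∀ K, Bornology.IsBounded K → Tendsto (fun i => volume ((Ω i ∆ Ω₀) ∩ K)) l (𝓝 0))
    (h₀ : MeasurableSet Ω₀) (hF : MeasurableSet F) (hV : MeasurableSet V) {ψ : R d → ℝ}
    (hψ : C1c ψ U) (hU : MeasurableSet U) (h0 : ∀ y, 0 ≤ ψ y) (h1 : ∀ y, ψ y ≤ 1)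
    (hv : ∀ y ∈ V, ψ y = 1) (hz : ∀ y ∈ F ∆ Ω₀, fderiv ℝ ψ y = 0) :
    liminf (fun i => pm (Ω i) V) l ≤ pm F U := by
  obtain ⟨ρ, hρ⟩ := hψ.2.1.isBounded.subset_ball 0
  obtain ⟨c, hb⟩ := (hψ.1.continuous_fderiv one_ne_zero).bounded_above_of_compact_support
    (hψ.2.1.fderiv ℝ)
  have t := ((ENNReal.Tendsto.const_mul (a := ENNReal.ofReal c) (hc (ball 0 ρ) isBounded_ball)
    (Or.inr ENNReal.ofReal_ne_top)).const_add (pm F U)).liminf_eq
  rw [mul_zero, add_zero] at t
  rw [← t]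
  refine liminf_le_liminf ?_
  filter_upwards [hO (ρ + 2)] with i hi
  refine (FD_le_int hV hv).trans (((hM i).psi (x := 0) (lt_add_one ρ)
    ((closedBall_subset_ball (by linarith)).trans hi) hF hψ.1 h0 h1
    fun y hy => image_eq_zero_of_notMem_tsupport fun k => hy (hρ k)).trans (add_le_add
      (FL_int_le hU h1 fun y hy => image_eq_zero_of_notMem_tsupport fun k => hy (hψ.2.2 k))
      ((FD_err (B := ball 0 ρ \ F ∆ Ω₀) (measurableSet_ball.diff (hF.symmDiff h₀)) hb
        fun y hy => ?_).trans (mul_le_mul_right (measure_mono fun y hy => ?_) _))))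
  · by_cases k : y ∈ F ∆ Ω₀
    · exact hz y k
    · exact fderiv_of_notMem_tsupport ℝ fun k' => hy ⟨hρ k', k⟩
  · simp only [mem_symmDiff, mem_inter_iff, Set.mem_sdiff] at hy ⊢
    tauto

theorem ka_lim (𝓤 : Ultrafilter ℕ) (O : ℕ → Set (R d)) (W : ℕ → Vf d)
    (h : ∀ i, IsOpen (O i) ∧ KA (O i) (W i)) (hO : ∀ ρ : ℝ, ∀ᶠ i in (𝓤 : Filter ℕ), ball 0 ρ ⊆ O i)
    (hb : LocBd (𝓤 : Filter ℕ) W univ) : ∃ W', KA univ W' ∧ VConv (𝓤 : Filter ℕ) W W' univ := by
  choose Ω hM hW using fun i => (h i).2.2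
  have hK : ∀ K, Bornology.IsBounded K → ∀ᶠ i in (𝓤 : Filter ℕ), ∀ A ⊆ K,
      A ⊆ O i ∧ pm (Ω i) A = (W i).fst A := fun K hK => by
    obtain ⟨ρ, hρ⟩ := hK.subset_ball 0
    filter_upwards [hO ρ] with i hi A hA
    have := hA.trans (hρ.trans hi)
    exact ⟨this, by rw [← Measure.restrict_eq_self _ this, ← hW, Measure.restrict_eq_self _ this]⟩
  obtain ⟨W', hf, hc⟩ := vf_compact 𝓤 isOpen_univ hb
  obtain ⟨Ω₀, h₀, hl⟩ := pm_compact 𝓤 isOpen_univ (Eventually.of_forall fun i => (hM i).1)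
    fun K k1 k2 => by
      obtain ⟨C, c1, c2⟩ := hb K k1 k2
      exact ⟨C, c1, ((hK K k1.isBounded).and c2).mono fun i hi => (hi.1 K Subset.rfl).2.trans_le hi.2⟩
  have lsc : ∀ U, IsOpen U → pm Ω₀ U ≤ liminf (fun i => pm (Ω i) U) 𝓤 := fun U hU =>
    pm_lsc hU (Eventually.of_forall fun i => (hM i).1) h₀ fun K k _ => hl K k.isBounded (subset_univ _)
  have low : ∀ U K, IsOpen U → IsCompact K → U ⊆ K → pm Ω₀ U ≤ W'.fst K := fun U K hU k hUK =>
    (lsc U hU).trans ((liminf_le_liminf ((hK K k.isBounded).mono fun i hi =>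
      (hi U hUK).2.trans_le (measure_mono hUK))).trans (le_trans liminf_le_limsup
        (hc.limsup_le isOpen_univ hb hf k (subset_univ _))))
  have fin : ∀ (x : R d) r, pm Ω₀ (ball x r) < ⊤ := fun x r =>
    (low _ _ isOpen_ball (isCompact_closedBall x r) ball_subset_closedBall).trans_lt
      (hf _ (isCompact_closedBall x r) (subset_univ _))
  refine ⟨W', ⟨hc.stat hf (Eventually.of_forall fun i => (h i).2.1) fun K k _ =>
    (hK K k.isBounded).mono fun i hi => (hi K Subset.rfl).1, Ω₀,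
    ⟨h₀, fun x _ => ⟨1, one_pos, fin x 1⟩, fun x ρ ρ' F a _ hF e => ?_⟩, ?_⟩, hc⟩
  · refine FL_inner _ isOpen_ball fun K k1 k2 => ?_
    obtain ⟨s, s1, s2⟩ := exists_lt_subset_ball k1.isClosed k2
    obtain ⟨C, -, hC⟩ := FD_cut d
    obtain ⟨t, t1, t2⟩ := exists_between (max_lt s1 a)
    rcases le_or_gt t 0 with t0 | t0
    · rw [ball_eq_empty.2 ((le_max_left _ _).trans (t1.le.trans t0)), subset_empty_iff] at s2
      rw [s2, measure_empty]
      exact zero_le
    obtain ⟨b, b1, b2⟩ := exists_between t2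
    obtain ⟨ψ, a1, a2, a3, a4, -, -, a7⟩ := hC x t b t0.le b1
    exact (measure_mono (s2.trans (ball_subset_ball ((le_max_left _ _).trans t1.le)))).trans
      ((lsc _ isOpen_ball).trans ((FL_psi hM hO (fun K k => hl K k (subset_univ _)) h₀ hF
        measurableSet_ball a1 measurableSet_closedBall a2 a3
        (fun y hy => a4 y (ball_subset_closedBall hy)) fun y hy => a7 y (Or.inl
          (ball_subset_ball ((le_max_right _ _).trans t1.le) (e hy)))).trans
            (measure_mono (closedBall_subset_ball b2))))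
  · have : IsLocallyFiniteMeasure W'.fst := ⟨fun x => ⟨_, closedBall_mem_nhds x one_pos,
      hf _ (isCompact_closedBall x 1) (subset_univ _)⟩⟩
    have : IsLocallyFiniteMeasure (pm Ω₀) := ⟨fun x => ⟨_, ball_mem_nhds x one_pos, fin x 1⟩⟩
    congr 1
    refine Measure.OuterRegular.ext_isOpen fun U hU => le_antisymm
      (FL_inner _ hU fun K k1 k2 => ?_) (FL_inner _ hU fun K k1 k2 => ?_)
    all_goals obtain ⟨L, l1, l2, l3⟩ := exists_compact_between k1 hU k2
    · obtain ⟨ψ, -, a1, a2, a3⟩ := exists_cutoff l1 hU l3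
      refine (measure_mono l2).trans ((hc.le_liminf hb hf isOpen_interior (subset_univ _)).trans
        (le_trans (liminf_le_liminf ((hK L l1.isBounded).mono fun i hi =>
          (hi _ interior_subset).2.ge)) (FL_psi hM hO (fun K k => hl K k (subset_univ _)) h₀ h₀
            isOpen_interior.measurableSet a1 hU.measurableSet (fun y => (a2 y).1) (fun y => (a2 y).2)
            (fun y hy => a3 y (interior_subset hy)) fun y hy => ?_)))
      rw [symmDiff_self] at hy
      exact hy.elim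
    · exact (measure_mono l2).trans ((low _ L isOpen_interior l1 interior_subset).trans
        (measure_mono l3))

theorem ka_mono {O O' : Set (R d)} {W : Vf d} (hO' : IsOpen O') (hO : O' ⊆ O) (h : KA O W) :
    KA O' W := by
  obtain ⟨s, Ω, m, e⟩ := h
  refine ⟨s.mono hO, Ω, m.mono hO, ?_⟩
  have := congrArg (fun μ : Measure (R d) => μ.restrict O') e
  simpa only [Measure.restrict_restrict hO'.measurableSet, inter_eq_left.2 hO] using this

theorem ka_sim {O : Set (R d)} {W : Vf d} {r : ℝ} (x : R d) (Q : R d ≃ₗᵢ[ℝ] R d) (hr : 0 < r)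
    (h : KA O W) : KA (simP r x Q '' O) (simV r x Q W) := by
  obtain ⟨s, Ω, m, e⟩ := h
  refine ⟨s.sim hr x Q, _, m.sim hr x Q, ?_⟩
  ext A hA
  rw [Measure.restrict_apply hA, Measure.restrict_apply hA, ← image_preimage_inter,
    simV_fst W hr, pm_sim m.1 _ hr, ← Measure.restrict_eq_self _ inter_subset_right, e,
    Measure.restrict_eq_self _ inter_subset_right]

theorem ka_dens (hd : 1 ≤ d) : ∃ c > 0, ∀ (O : Set (R d)) (W : Vf d) x r, IsOpen O → KA O W →
    x ∈ W.fst.support → 0 < r → closedBall x r ⊆ O →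
    ENNReal.ofReal (c * r ^ d) ≤ W.fst (closedBall x r) := by
  obtain ⟨c, c0, hc⟩ := min_dens hd
  refine ⟨c, c0, fun O W x r hO ⟨_, Ω, m, e⟩ hx hr hb => ?_⟩
  have : x ∈ W.fst.support ∩ O := ⟨hx, hb (mem_closedBall_self hr.le)⟩
  rw [support_congr hO e] at this
  rw [← Measure.restrict_eq_self _ hb, e, Measure.restrict_eq_self _ hb]
  exact (hc Ω O x r m this.1 hr hb).trans (measure_mono ball_subset_closedBall)

/-- a local minimiser is a minimiser in small balls -/
theorem min_of_locmin {Ω O O' : Set (R d)} (hΩ : MeasurableSet Ω) (hO : IsOpen O) (hO' : IsOpen O')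
    (hOO : O ⊆ O') (hf : pm Ω O' < ⊤) {η : ℝ} (hη : 0 < η)
    (h : ∀ F, MeasurableSet F → F ∆ Ω ⊆ O → volume (F ∆ Ω) ≤ ENNReal.ofReal η → pm Ω O' ≤ pm F O')
    {x : R d} (hx : x ∈ O) : ∃ r > 0, ball x r ⊆ O ∧ Min Ω (ball x r) := by
  obtain ⟨U, h1, h2, h3⟩ := ({x} : Set (R d)).exists_isOpen_lt_of_lt (μ := volume) (ENNReal.ofReal η)
    (by rw [measure_singleton]; exact ENNReal.ofReal_pos.2 hη)
  obtain ⟨r, r0, hr⟩ := isOpen_iff.1 (hO.inter h2) x ⟨hx, h1 rfl⟩
  have hr' := hr.trans inter_subset_left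
  refine ⟨r, r0, hr', hΩ, (hr'.trans hOO).trans (subset_lf hO' hf), fun y ρ ρ' F a b c e => ?_⟩
  have s := e.trans ((ball_subset_ball a.le).trans (ball_subset_closedBall.trans b))
  exact FD_loc hΩ c measurableSet_ball isClosed_closedBall (closedBall_subset_ball a)
    (ball_subset_closedBall.trans (b.trans (hr'.trans hOO))) (e.trans ball_subset_closedBall) hf
    (h F c (s.trans hr') ((measure_mono (s.trans (hr.trans inter_subset_right))).trans h3.le))

end Pool.Agent.MP_5cfeaf_gt.W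

end

section

/-! Block F, second variation: the second order expansion of the area element. -/

set_option autoImplicit false

open MeasureTheory Set Filter Topology Metric
open scoped ENNReal symmDiff Classical InnerProductSpace ContDiff

namespace Pool.Agent.MP_5cfeaf_gt.W

variable {d : ℕ}

theorem FVa_det {n : ℕ} (A : Matrix (Fin n) (Fin n) ℝ) : ∃ q : ℝ → ℝ, Continuous q ∧
    2 * q 0 = A.trace ^ 2 - (A * A).trace ∧
      ∀ t, (1 + t • A).det = 1 + A.trace * t + q t * t ^ 2 := by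
  have h : ∀ A : Matrix (Fin n) (Fin n) ℝ, ∃ q : ℝ → ℝ, Continuous q ∧
      ∀ t, (1 + t • A).det = 1 + A.trace * t + q t * t ^ 2 :=
    fun A => ⟨_, Polynomial.continuous _, fun t => Matrix.det_one_add_smul t A⟩
  obtain ⟨q, h1, h2⟩ := h A
  obtain ⟨r, h3, h4⟩ := h (A * A)
  refine ⟨q, h1, ?_, h2⟩
  have key := Continuous.ext_on (dense_compl_singleton (0 : ℝ))
    (f := fun t => q t + q (-t) - A.trace ^ 2 + t * A.trace * (q (-t) - q t) + t ^ 2 * q t * q (-t))
    (g := fun t => -(A * A).trace + t ^ 2 * r (-t ^ 2)) (by fun_prop) (by fun_prop) fun t ht => by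
      have h5 : (1 + t • A) * (1 + (-t) • A) = 1 + (-t ^ 2) • (A * A) := by
        simp only [mul_add, add_mul, mul_one, one_mul, Matrix.smul_mul, Matrix.mul_smul, smul_smul]
        module
      have h6 := congrArg Matrix.det h5
      rw [Matrix.det_mul, h2, h2, h4] at h6
      exact mul_left_cancel₀ (pow_ne_zero 2 ht) (by linear_combination h6)
  have := congrFun key 0
  simp only [neg_zero] at this
  linarith

theorem FVa_inv {V : Type} [NormedAddCommGroup V] [InnerProductSpace ℝ V] [CompleteSpace V]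
    (A : V →L[ℝ] V) {ν : V} (hν : ‖ν‖ = 1) : ∃ r : ℝ → ℝ, ContinuousAt r 0 ∧
      r 0 = ‖A.adjoint ν‖ ^ 2 + 2 * ⟪A ν, A.adjoint ν⟫_ℝ ∧ ∀ᶠ t : ℝ in 𝓝 0,
        ‖(1 + t • A).inverse.adjoint ν‖ ^ 2 = 1 - 2 * t * ⟪ν, A ν⟫_ℝ + t ^ 2 * r t := by
  obtain ⟨w, hw⟩ : ∃ w : ℝ → V, w = fun t => (Ring.inverse (1 + t • A)).adjoint ν := ⟨_, rfl⟩
  have c0 : Continuous fun t : ℝ => 1 + t • A := by fun_prop
  have z : (0 : ℝ) • A = 0 := zero_smul ℝ A
  have w0 : w 0 = ν := by
    simp only [hw, z, add_zero, Ring.inverse_one]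
    rw [ContinuousLinearMap.one_def, ContinuousLinearMap.adjoint_id]
    rfl
  have w1 : ContinuousAt w 0 := by
    rw [hw]
    refine (ContinuousLinearMap.adjoint.continuous.continuousAt.comp
      (ContinuousAt.comp_of_eq (NormedRing.inverse_continuousAt 1) c0.continuousAt ?_)).clm_apply
      continuousAt_const
    simp [z]
  have w2 : ∀ᶠ t : ℝ in 𝓝 0, w t = ν - t • A.adjoint (w t) := by
    have : ∀ᶠ t : ℝ in 𝓝 0, IsUnit (1 + t • A) :=
      c0.continuousAt.eventually (Units.isOpen.mem_nhds (by simp only [z, add_zero, mem_ofPred_eq, isUnit_one]))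
    filter_upwards [this] with t ht
    have h1 := congrArg (fun M : V →L[ℝ] V => M.adjoint ν) (Ring.inverse_mul_cancel _ ht)
    simp only [ContinuousLinearMap.mul_def, ContinuousLinearMap.adjoint_comp, map_add, map_smul,
      ContinuousLinearMap.one_def, ContinuousLinearMap.adjoint_id, ContinuousLinearMap.comp_apply,
      add_apply, smul_apply, ContinuousLinearMap.id_apply] at h1
    rw [eq_sub_iff_add_eq, hw]
    exact h1
  obtain ⟨r, hr⟩ : ∃ r : ℝ → ℝ, r = fun t => ‖A.adjoint ν‖ ^ 2 +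
    2 * ⟪A ν, A.adjoint (w t)⟫_ℝ - 2 * t * ⟪A.adjoint ν, A.adjoint (A.adjoint (w t))⟫_ℝ +
      t ^ 2 * ‖A.adjoint (A.adjoint (w t))‖ ^ 2 := ⟨_, rfl⟩
  have r1 : ContinuousAt r 0 := by
    rw [hr]
    fun_prop
  have r2 : ∀ᶠ t : ℝ in 𝓝 0, ‖w t‖ ^ 2 = 1 - 2 * t * ⟪ν, A ν⟫_ℝ + t ^ 2 * r t := by
    filter_upwards [w2] with t ht
    have h1 : w t = ν - t • A.adjoint ν + (t ^ 2) • A.adjoint (A.adjoint (w t)) := by
      conv_lhs => rw [ht, ht]
      simp only [map_sub, map_smul]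
      module
    have h2 : ⟪ν, A.adjoint ν⟫_ℝ = ⟪ν, A ν⟫_ℝ := by
      rw [ContinuousLinearMap.adjoint_inner_right, real_inner_comm]
    conv_lhs => rw [h1]
    rw [norm_add_sq_real, norm_sub_sq_real, inner_sub_left, hr]
    simp only [real_inner_smul_left, real_inner_smul_right, norm_smul, mul_pow, Real.norm_eq_abs,
      sq_abs, hν, h2, ContinuousLinearMap.adjoint_inner_right A ν]
    ring
  refine ⟨r, r1, by simp only [hr, w0, mul_zero, zero_mul, sub_zero, ne_eq, OfNat.ofNat_ne_zero, not_false_eq_true, zero_pow, add_zero], ?_⟩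
  rw [← ContinuousLinearMap.ringInverse_eq_inverse]
  simpa only [hw] using r2

/-- integrand of the second variation -/
noncomputable def FVa_Q (A : R d →L[ℝ] R d) (ν : R d) : ℝ :=
  ‖A.adjoint ν‖ ^ 2 + 2 * ⟪A ν, A.adjoint ν⟫_ℝ - 2 * ⟪ν, A ν⟫_ℝ ^ 2 -
    ∑ i, ∑ j, A (EuclideanSpace.single j 1) i * A (EuclideanSpace.single i 1) j

theorem FVa_lim (A : R d →L[ℝ] R d) {ν : R d} (hν : ‖ν‖ = 1)
    (h : ∑ i, A (EuclideanSpace.single i 1) i = ⟪ν, A ν⟫_ℝ) :
    Tendsto (fun t : ℝ => (‖cofv (1 + t • A) ν‖ ^ 2 - 1) / t ^ 2) (𝓝[>] 0)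
      (𝓝 (FVa_Q A ν)) := by
  let b := (EuclideanSpace.basisFun (Fin (d + 1)) ℝ).toBasis
  obtain ⟨q, q1, q2, q3⟩ := FVa_det (LinearMap.toMatrix b b (A : R d →ₗ[ℝ] R d))
  have e0 : ∀ i j, LinearMap.toMatrix b b (A : R d →ₗ[ℝ] R d) i j =
      A (EuclideanSpace.single j 1) i := fun i j => by simp [LinearMap.toMatrix_apply, b]
  simp only [Matrix.trace, Matrix.diag, Matrix.mul_apply, e0, h] at q2 q3
  have e1 : ∀ t : ℝ, (1 + t • A).det = 1 + ⟪ν, A ν⟫_ℝ * t + q t * t ^ 2 := fun t => by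
    rw [← q3, ContinuousLinearMap.det, ← LinearMap.det_toMatrix b]
    congr 1
    rw [← LinearMap.toMatrix_one b, ← map_smul, ← map_add]
    rfl
  obtain ⟨r, r1, hr, r2⟩ := FVa_inv A hν
  obtain ⟨a, ha⟩ : ∃ a, a = ⟪ν, A ν⟫_ℝ := ⟨_, rfl⟩
  have c1 : ContinuousAt (fun t => r t - 4 * a ^ 2 + (a ^ 2 + 2 * q t + 2 * t * a * q t +
      t ^ 2 * q t ^ 2) * (1 - 2 * t * a + t ^ 2 * r t) + 2 * t * a * r t) 0 := by fun_prop
  have c2 := c1.tendsto.mono_left (nhdsWithin_le_nhds (s := Ioi 0))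
  rw [← ha] at q2 e1 r2
  have c3 : r 0 - 4 * a ^ 2 + (a ^ 2 + 2 * q 0 + 2 * 0 * a * q 0 +
      0 ^ 2 * q 0 ^ 2) * (1 - 2 * 0 * a + 0 ^ 2 * r 0) + 2 * 0 * a * r 0 = FVa_Q A ν := by
    simp only [hr, FVa_Q, ← ha]
    linear_combination q2
  refine c3 ▸ c2.congr' ?_
  filter_upwards [nhdsWithin_le_nhds r2, self_mem_nhdsWithin] with t h1 h2
  rw [cofv, norm_smul, mul_pow, Real.norm_eq_abs, abs_abs, sq_abs, e1, h1,
    eq_div_iff (pow_ne_zero 2 (ne_of_gt h2))]
  ring

theorem FVa_alg {ι : Type} [Fintype ι] {m z β : ι → ℝ} {s A : ι → ι → ℝ} {ζ : ℝ}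
    (hA : ∀ i j, A i j = m i * z j + ζ * s i j + β i * m j) (hm : ∑ i, m i * m i = 1)
    (hz : ∑ i, m i * z i = 0) (hs : ∀ i j, s i j = s j i) (hsm : ∀ i, ∑ j, m j * s i j = 0)
    (htr : ∑ i, s i i = 0) : ∑ i, A i i = ∑ i, m i * ∑ j, m j * A i j ∧
      ∑ j, (∑ i, m i * A i j) ^ 2 + 2 * ∑ j, (∑ k, m k * A j k) * (∑ i, m i * A i j) -
        2 * (∑ i, m i * ∑ j, m j * A i j) ^ 2 - ∑ i, ∑ j, A i j * A j i =
          ∑ i, z i ^ 2 - ζ ^ 2 * ∑ i, ∑ j, s i j ^ 2 := by
  obtain ⟨a, ha⟩ : ∃ a, a = ∑ i, m i * β i := ⟨_, rfl⟩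
  have h1 : ∀ j, ∑ i, m i * A i j = z j + a * m j := fun j => by
    have : ∑ i, m i * A i j = (∑ i, m i * m i) * z j + ζ * (∑ i, m i * s j i) +
        (∑ i, m i * β i) * m j := by
      simp only [Finset.sum_mul, Finset.mul_sum, ← Finset.sum_add_distrib]
      exact Finset.sum_congr rfl fun i _ => by rw [hA, hs i j]; ring
    rw [this, hm, hsm, ha]
    ring
  have h2 : ∀ i, ∑ j, m j * A i j = β i := fun i => by
    have : ∑ j, m j * A i j = m i * (∑ j, m j * z j) + ζ * (∑ j, m j * s i j) +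
        β i * ∑ j, m j * m j := by
      simp only [Finset.mul_sum, ← Finset.sum_add_distrib]
      exact Finset.sum_congr rfl fun j _ => by rw [hA]; ring
    rw [this, hm, hsm, hz]
    ring
  have h3 : ∑ i, ∑ j, A i j * s j i = ζ * ∑ i, ∑ j, s i j ^ 2 := by
    have : ∑ i, ∑ j, A i j * s j i = ∑ i, ∑ j, z j * (m i * s j i) + ζ * ∑ i, ∑ j, s i j ^ 2 +
        ∑ i, β i * ∑ j, m j * s i j := by
      simp only [Finset.mul_sum, ← Finset.sum_add_distrib]
      exact Finset.sum_congr rfl fun i _ => Finset.sum_congr rfl fun j _ => by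
        rw [hA, hs j i]; ring
    rw [this, Finset.sum_comm]
    simp only [← Finset.mul_sum, hsm, mul_zero, Finset.sum_const_zero, zero_add, add_zero]
  have h4 : ∑ i, ∑ j, A i j * A j i = ∑ i, z i * (∑ j, m j * A i j) +
      ζ * ∑ i, ∑ j, A i j * s j i + ∑ j, β j * ∑ i, m i * A i j := by
    simp only [Finset.mul_sum]
    rw [Finset.sum_comm (f := fun j i => β j * (m i * A i j))]
    simp only [← Finset.sum_add_distrib]
    exact Finset.sum_congr rfl fun i _ => Finset.sum_congr rfl fun j _ => by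
      rw [hA j i]; ring
  have h5 : ∑ j, (z j + a * m j) ^ 2 =
      ∑ j, z j ^ 2 + 2 * a * ∑ j, m j * z j + a ^ 2 * ∑ j, m j * m j := by
    simp only [Finset.mul_sum, ← Finset.sum_add_distrib]
    exact Finset.sum_congr rfl fun j _ => by ring
  have h6 : ∑ j, β j * (z j + a * m j) = ∑ j, z j * β j + a * ∑ j, m j * β j := by
    simp only [Finset.mul_sum, ← Finset.sum_add_distrib]
    exact Finset.sum_congr rfl fun j _ => by ring
  have h7 : ∑ i, A i i = ∑ i, m i * z i + ζ * ∑ i, s i i + ∑ i, m i * β i := by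
    simp only [Finset.mul_sum, ← Finset.sum_add_distrib]
    exact Finset.sum_congr rfl fun j _ => by rw [hA]; ring
  rw [h4, h3, h7]
  simp only [h1, h2, h5, h6, hz, hm, htr, ← ha]
  exact ⟨by ring, by ring⟩

theorem FVa_c2 {ι : Type} [Fintype ι] {m : ι → ℝ} {s : ι → ι → ℝ} (hm : ∑ i, m i * m i = 1)
    (hsm : ∀ i, ∑ j, m j * s j i = 0) :
    (∑ j, ∑ k, ∑ i, (s j i * m k + m j * s k i) ^ 2) / 2 = ∑ i, ∑ j, s i j ^ 2 := by
  have h1 : ∀ j i, ∑ k, (s j i * m k + m j * s k i) ^ 2 =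
      s j i ^ 2 + m j * m j * ∑ k, s k i ^ 2 := fun j i => by
    have : ∑ k, (s j i * m k + m j * s k i) ^ 2 = s j i ^ 2 * ∑ k, m k * m k +
        2 * s j i * m j * ∑ k, m k * s k i + m j * m j * ∑ k, s k i ^ 2 := by
      simp only [Finset.mul_sum, ← Finset.sum_add_distrib]
      exact Finset.sum_congr rfl fun j _ => by ring
    rw [this, hm, hsm]
    ring
  rw [Finset.sum_congr rfl fun j _ => Finset.sum_comm]
  simp only [h1, Finset.sum_add_distrib, ← Finset.mul_sum, ← Finset.sum_mul, hm]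
  rw [Finset.sum_comm (f := fun i k => s k i ^ 2)]
  ring

end Pool.Agent.MP_5cfeaf_gt.W

end

section

/-! Block F, second variation: a global smooth unit normal of a smooth boundary. -/

set_option autoImplicit false

open MeasureTheory Set Filter Topology Metric
open scoped ENNReal symmDiff Classical InnerProductSpace ContDiff

namespace Pool.Agent.MP_5cfeaf_gt.W

variable {d : ℕ}

/-- `v` points out of the set -/
def FVb_Out (Ω : Set (R d)) (x v : R d) : Prop :=
  ∃ (f : R d → ℝ) (V : Set (R d)), V ∈ 𝓝 x ∧ ContDiff ℝ ∞ f ∧ f x = 0 ∧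
    volume ((V ∩ {y | f y < 0}) \ Ω) = 0 ∧ volume (V ∩ {y | 0 < f y} ∩ Ω) = 0 ∧ 0 < fderiv ℝ f x v

theorem FVb_pos {g : R d → ℝ} {L : R d →L[ℝ] ℝ} {x v : R d} (hg : HasFDerivAt g L x) (h0 : g x = 0)
    (h : 0 < L v) : ∀ᶠ t : ℝ in 𝓝[>] 0, 0 < g (x + t • v) := by
  have h1 := HasDerivAt.tendsto_slope_zero_right (hg.hasLineDerivAt v)
  filter_upwards [h1.eventually (lt_mem_nhds h), self_mem_nhdsWithin] with t h2 h3
  simp only [zero_add, zero_smul, add_zero, h0, sub_zero, smul_eq_mul] at h2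
  exact (mul_pos_iff_of_pos_left (inv_pos.2 h3)).1 h2

theorem FVb_not {Ω : Set (R d)} {x v : R d} (h : FVb_Out Ω x v) (h' : FVb_Out Ω x (-v)) : False := by
  obtain ⟨f, V, h1, h2, h3, -, h4, h5⟩ := h
  obtain ⟨g, U, k1, k2, k3, k4, -, k5⟩ := h'
  have c : Tendsto (fun t : ℝ => x + t • v) (𝓝[>] 0) (𝓝 x) :=
    (Continuous.tendsto' (by fun_prop) 0 x (by simp)).mono_left nhdsWithin_le_nhds
  obtain ⟨t, t1, t2, t3⟩ := ((FVb_pos (H_diff h2 x).hasFDerivAt h3 h5).and
    ((FVb_pos (v := v) (H_diff k2 x).hasFDerivAt.neg (by simp [k3]) (by simpa only [neg_apply, Left.neg_pos_iff, map_neg] using k5)).and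
      (c.eventually (interior_mem_nhds.2 (inter_mem h1 k1))))).exists
  have o : IsOpen (interior (V ∩ U) ∩ ({y | 0 < f y} ∩ {y | g y < 0})) :=
    isOpen_interior.inter ((isOpen_lt continuous_const h2.continuous).inter
      (isOpen_lt k2.continuous continuous_const))
  refine (o.measure_pos volume ⟨_, t3, t1, by simpa using t2⟩).ne'
    (measure_mono_null (fun y hy => ?_) (measure_union_null h4 k4))
  have := interior_subset hy.1
  by_cases h : y ∈ Ω
  exacts [Or.inl ⟨⟨this.1, hy.2.1⟩, h⟩, Or.inr ⟨⟨this.2, hy.2.2⟩, h⟩]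

theorem FVb_sign {v w : R d} (hv : ‖v‖ = 1) (hw : ‖w‖ = 1) (h : ∀ i j, v i * v j = w i * w j) :
    v = w ∨ v = -w := by
  have h1 : v = ⟪w, v⟫_ℝ • w := by
    ext i
    have := H_normsq.1 hv
    rw [PiLp.smul_apply, H_inner, smul_eq_mul, Finset.sum_mul, ← mul_one (v i), ← this,
      Finset.mul_sum]
    exact Finset.sum_congr rfl fun j _ => by linear_combination v j * h i j
  have h2 := congrArg norm h1
  rw [norm_smul, hv, hw, mul_one, Real.norm_eq_abs] at h2
  rcases (abs_eq zero_le_one).1 h2.symm with h3 | h3 <;> rw [h3] at h1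
  exacts [Or.inl (h1.trans (one_smul _ _)), Or.inr (h1.trans (neg_one_smul _ _))]

theorem FVb_rot (Q : R d ≃ₗᵢ[ℝ] R d) {M : Set (R d)} {x : R d} {f : R d → ℝ} (h : DefFn M (Q x) f) :
    DefFn (Q ⁻¹' M) x (fun y => f (Q y)) ∧
      ∀ v, fderiv ℝ (fun y => f (Q y)) x v = fderiv ℝ f (Q x) (Q v) := by
  have e : ∀ v, fderiv ℝ (fun y => f (Q y)) x v = fderiv ℝ f (Q x) (Q v) := fun v =>
    congrArg (fun A : R d →L[ℝ] ℝ => A v) ((H_diff h.1 (Q x)).hasFDerivAt.comp x
      Q.toContinuousLinearEquiv.hasFDerivAt).fderiv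
  refine ⟨⟨h.1.comp Q.contDiff, fun h0 => h.2.1 (ContinuousLinearMap.ext fun v => ?_),
    Q.continuous.continuousAt.eventually h.2.2⟩, e⟩
  rw [← Q.apply_symm_apply v, ← e, h0]
  rfl

theorem FVb_supp (Q : R d ≃ₗᵢ[ℝ] R d) {Ω : Set (R d)} (hΩ : MeasurableSet Ω) :
    (pm (Q '' Ω)).support = Q.symm ⁻¹' (pm Ω).support := by
  have e : simP 1 0 Q = Q := funext fun y => by simp [simP]
  have h : ∀ A, pm (Q '' Ω) A = pm Ω (Q ⁻¹' A) := fun A => by
    have := pm_sim hΩ (Q ⁻¹' A) one_pos 0 Q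
    rw [e, image_preimage_eq _ Q.surjective] at this
    simpa using this
  ext y
  simp only [mem_preimage, Measure.mem_support_iff_forall, h]
  refine ⟨fun k V hV => ?_, fun k V hV => k _ (Q.continuous.continuousAt.preimage_mem_nhds
    (by rwa [Q.apply_symm_apply]))⟩
  simpa [preimage_preimage] using k _ (Q.symm.continuous.continuousAt.preimage_mem_nhds hV)

theorem FVb_sides {Ω : Set (R d)} (hΩ : MeasurableSet Ω) {x : R d} (hx : x ∈ (pm Ω).support)
    {f : R d → ℝ} (hf : DefFn (pm Ω).support x f) : ∃ (g : R d → ℝ) (V : Set (R d)), V ∈ 𝓝 x ∧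
      DefFn (pm Ω).support x g ∧ volume ((V ∩ {y | g y < 0}) \ Ω) = 0 ∧
        volume (V ∩ {y | 0 < g y} ∩ Ω) = 0 := by
  obtain ⟨e, he⟩ := hf.unit
  have e0 : ‖e‖ ≠ 0 := fun h => by simp [norm_eq_zero.1 h] at he
  obtain ⟨Q, hQ⟩ := exists_rot (‖e‖⁻¹ • e) (by simp [norm_smul, e0])
  have q1 : Q.symm (EuclideanSpace.single (Fin.last d) 1) = ‖e‖⁻¹ • e :=
    ext_inner_right ℝ fun y => by
      rw [← hQ, ← Q.inner_map_map, Q.apply_symm_apply, EuclideanSpace.inner_single_left]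
      simp [ht]
  obtain ⟨h1, h2⟩ := FVb_rot Q.symm (x := Q x) (by rwa [Q.symm_apply_apply])
  rw [← FVb_supp Q hΩ] at h1
  have hx' : Q x ∈ (pm (Q '' Ω)).support := by
    rw [FVb_supp Q hΩ, mem_preimage, Q.symm_apply_apply]
    exact hx
  obtain ⟨u, u1, u2⟩ := h1.graph hx' (by simp [pd, h2, q1, he, e0])
  have m : MeasurableSet (Q '' Ω) := Q.toHomeomorph.measurableEmbedding.measurableSet_image' hΩ
  obtain ⟨U, hU, h3⟩ := eventually_smallSets.1 (sub_or_super m hx' u1.continuous u2)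
  obtain ⟨A, hA⟩ := exists_prL d
  obtain ⟨H, hH⟩ := exists_htL d
  have k : ∀ c : ℝ, c ≠ 0 → DefFn (pm Ω).support x fun y => c * (ht (Q y) - u (pr (Q y))) :=
    fun c hc => by
      have : DefFn (pm (Q '' Ω)).support (Q x) fun y => c * (H y - u (A y)) := by
        refine ⟨by fun_prop, fun h0 => hc ?_, u2.mono fun y hy => by
          simp only [hy, hA, hH, mul_eq_zero, sub_eq_zero, or_iff_right hc]⟩
        have h4 := congrArg (fun L : R d →L[ℝ] ℝ => L (mk 0 1)) (((H.hasFDerivAt (x := Q x)).sub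
          ((H_diff u1 _).hasFDerivAt.comp _ A.hasFDerivAt)).const_mul c).fderiv
        simpa [hA, hH] using h4.symm.trans (congrArg (fun L : R d →L[ℝ] ℝ => L (mk 0 1)) h0)
      have h5 := (FVb_rot Q this).1
      simp only [FVb_supp Q hΩ, preimage_preimage, Q.symm_apply_apply, preimage_id', hA, hH] at h5
      exact h5
  have hV := Q.continuous.continuousAt.preimage_mem_nhds hU
  have n := fun s => Q.measurePreserving.quasiMeasurePreserving.preimage_null (s := s)
  have i : ∀ y, Q y ∈ Q '' Ω ↔ y ∈ Ω := fun y => Q.injective.mem_set_image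
  rcases h3 U Subset.rfl with h4 | h4
  · refine ⟨_, _, hV, k 1 one_ne_zero, measure_mono_null (fun y hy => ?_) (n _ h4),
      measure_mono_null (fun y hy => ?_) (n _ h4)⟩
    · exact ⟨Or.inr ⟨by simpa using hy.1.2, (i y).not.2 hy.2⟩, hy.1.1⟩
    · exact ⟨Or.inl ⟨(i y).2 hy.2, not_lt.2 (le_of_lt (by simpa using hy.1.2))⟩, hy.1.1⟩
  · refine ⟨_, _, hV, k (-1) (by simp), measure_mono_null (fun y hy => ?_) (n _ h4),
      measure_mono_null (fun y hy => ?_) (n _ h4)⟩
    · exact ⟨Or.inl ⟨(i y).not.2 hy.2, not_lt.2 (le_of_lt (by simpa using hy.1.2))⟩, hy.1.1⟩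
    · exact ⟨Or.inr ⟨by simpa using hy.1.2, not_not.2 ((i y).2 hy.2)⟩, hy.1.1⟩

/-- local smooth unit normal -/
def FVb_N (M : Set (R d)) (P : R d → Fin (d + 1) → Fin (d + 1) → ℝ) (x : R d) (n : R d → R d) :
    Prop := ContDiff ℝ ∞ n ∧ ∀ᶠ y in 𝓝 x, ‖n y‖ = 1 ∧ (y ∈ M → (∀ i j, P y i j = n y i * n y j) ∧
      ∀ i j, dl P i (fun z => n z j) y = dl P j (fun z => n z i) y)

theorem FVb_coord {n : R d → R d} {x : R d} (hn : DifferentiableAt ℝ n x) (j : Fin (d + 1)) :
    DifferentiableAt ℝ (fun z => n z j) x :=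
  (EuclideanSpace.proj (𝕜 := ℝ) j).differentiableAt.comp x hn

theorem FVb_local {Ω U : Set (R d)} (hΩ : MeasurableSet Ω) {P} (h : Adapted (pm Ω).support U P)
    (hU : IsOpen U) {x : R d} (hx : x ∈ (pm Ω).support ∩ U) : ∃ m, FVb_N (pm Ω).support P x m ∧
      ∀ᶠ y in 𝓝 x, y ∈ (pm Ω).support → FVb_Out Ω y (m y) := by
  obtain ⟨f, hf, -⟩ := h.2 x hx
  obtain ⟨g, V, hV, hg, h1, h2⟩ := FVb_sides hΩ hx.1 hf
  obtain ⟨n, n1, n2⟩ := h.exists_normal hU hx
  have n3 := n2.self_of_nhds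
  have h3 : fderiv ℝ g x (n x) ≠ 0 := fun h0 => hg.2.1 (by
    have := H_gs n3.1 (n3.2 hx.1).1 g
    rw [gs, Finset.sum_eq_zero fun i _ => by
      rw [h.dl_zero hx (H_diff hg.1 x) (hg.2.2.mono fun _ a => a.1), sq, mul_zero], h0] at this
    simpa using this.symm)
  obtain ⟨c, c1, c2⟩ : ∃ c : ℝ, |c| = 1 ∧ 0 < c * fderiv ℝ g x (n x) := by
    rcases h3.lt_or_gt with h4 | h4
    exacts [⟨-1, by simp, by simpa using h4⟩, ⟨1, by simp, by simpa using h4⟩]
  have c3 : c * c = 1 := by rw [← abs_mul_abs_self, c1, one_mul]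
  refine ⟨fun y => c • n y, ⟨n1.const_smul c, n2.mono fun y hy => ⟨by simp [norm_smul, c1, hy.1],
    fun hm => ⟨fun i j => ?_, fun i j => ?_⟩⟩⟩, ?_⟩
  · simp only [PiLp.smul_apply, smul_eq_mul, (hy.2 hm).1]
    linear_combination -(n y i * n y j) * c3
  · simp only [PiLp.smul_apply, smul_eq_mul, dl_cmul c (FVb_coord (H_diff n1 y) _), (hy.2 hm).2 i j]
  · have k : Continuous fun y => c * fderiv ℝ g y (n y) :=
      continuous_const.mul ((hg.1.continuous_fderiv (by simp)).clm_apply n1.continuous)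
    filter_upwards [eventually_mem_nhds_iff.2 hV, hg.2.2,
      k.continuousAt.eventually (lt_mem_nhds c2)] with y k1 k2 k3 hm
    exact ⟨g, V, k1, hg.1, k2.1 hm, h1, h2, by simpa only [map_smul, smul_eq_mul] using k3⟩

theorem FVb_normal {Ω U K : Set (R d)} (hΩ : MeasurableSet Ω) {P} (h : Adapted (pm Ω).support U P)
    (hU : IsOpen U) (hK : IsCompact K) (hKU : K ⊆ U) : ∃ n : R d → R d, ContDiff ℝ ∞ n ∧
      ∀ x ∈ (pm Ω).support ∩ K, ∃ m, FVb_N (pm Ω).support P x m ∧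
        ∀ᶠ y in 𝓝 x, y ∈ (pm Ω).support → n y = m y := by
  obtain ⟨L, hL, hKL, hLU⟩ := exists_compact_between hK hU hKU
  obtain ⟨C, hC⟩ : ∃ C : R d → Set (R d), C = fun y => {v | ‖v‖ = 1 ∧
    (∀ i j, P y i j = v i * v j) ∧ FVb_Out Ω y v} := ⟨_, rfl⟩
  have h1 : ∀ y, (C y).Subsingleton := fun y v hv w hw => by
    rw [hC] at hv hw
    refine (FVb_sign hv.1 hw.1 fun i j => (hv.2.1 i j).symm.trans (hw.2.1 i j)).resolve_right
      fun e => FVb_not hw.2.2 (e ▸ hv.2.2)
  have h2 : ∀ x ∈ (pm Ω).support ∩ U, ∃ m, FVb_N (pm Ω).support P x m ∧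
      ∀ᶠ y in 𝓝 x, y ∈ (pm Ω).support → m y ∈ C y := fun x hx => by
    obtain ⟨m, m1, m2⟩ := FVb_local hΩ h hU hx
    refine ⟨m, m1, ?_⟩
    filter_upwards [m1.2, m2] with y k1 k2 hy
    rw [hC]
    exact ⟨k1.1, (k1.2 hy).1, k2 hy⟩
  obtain ⟨n, hn⟩ := exists_contMDiffMap_forall_mem_convex_of_local (n := ⊤)
    (modelWithCornersSelf ℝ (R d)) (M := R d) (F := R d)
    (t := fun y => {v | y ∈ (pm Ω).support ∩ L → v ∈ C y})
    (fun y v hv w hw a b ha hb hab hy => (h1 y).convex (hv hy) (hw hy) ha hb hab)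
    fun x => by
      by_cases hx : x ∈ (pm Ω).support ∩ L
      · obtain ⟨m, m1, m2⟩ := h2 x ⟨hx.1, hLU hx.2⟩
        exact ⟨_, m2, m, m1.1.contMDiff.contMDiffOn, fun y hy hy' => hy hy'.1⟩
      · exact ⟨_, (Measure.isClosed_support.inter hL.isClosed).isOpen_compl.mem_nhds hx, fun _ => 0,
          contMDiffOn_const, fun y hy hy' => absurd hy' hy⟩
  refine ⟨n, n.contMDiff.contDiff, fun x hx => ?_⟩
  obtain ⟨m, m1, m2⟩ := h2 x ⟨hx.1, hKU hx.2⟩
  refine ⟨m, m1, ?_⟩
  filter_upwards [m2, isOpen_interior.mem_nhds (hKL hx.2)] with y k1 k2 hy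
  exact h1 y (hn y ⟨hy, interior_subset k2⟩) (k1 hy)

end Pool.Agent.MP_5cfeaf_gt.W

end

section

/-! Block F: first and second variation of local minimisers. -/

set_option autoImplicit false

open MeasureTheory Set Filter Topology Metric
open scoped ENNReal symmDiff Classical InnerProductSpace ContDiff

namespace Pool.Agent.MP_5cfeaf_gt.W

variable {d : ℕ}

theorem Stab.mono {μ : Measure (R d)} {O O' : Set (R d)} (h : Stab μ O) (hO : O' ⊆ O) : Stab μ O' :=
  fun U P hU hUO => h U P hU (hUO.trans hO)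

theorem FV_toS : Measurable (toS : R d → S d) := by
  refine measurable_comap_iff.2 ?_
  have : Subtype.val ∘ (toS : R d → S d) =
      fun v => if v = 0 then ((default : S d) : R d) else ‖v‖⁻¹ • v := by
    funext v
    by_cases h : v = 0 <;> simp [toS, h]
  rw [this]
  exact Measurable.ite (measurableSet_singleton 0) measurable_const (by fun_prop)

theorem FV_cont {A : R d → R d →L[ℝ] R d} (h : Continuous A) (hb : ∀ x, ‖A x‖ ≤ 1 / 2) :
    Continuous fun p : R d × S d => cofv (1 + A p.1) p.2 := by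
  obtain ⟨C, C0, hC⟩ := cofv_expand d
  refine continuous_iff_continuousAt.2 fun q => ?_
  have h1 : Continuous fun p : R d × S d => cofv (1 + A q.1) (p.2 : R d) := by
    unfold cofv
    fun_prop
  have h2 : Tendsto (fun p : R d × S d => cofv (1 + A p.1) p.2 - cofv (1 + A q.1) (p.2 : R d))
      (𝓝 q) (𝓝 0) := by
    refine squeeze_zero_norm (fun p => (hC _ _ p.2 (hb p.1) (hb q.1)).2.1) ?_
    have : Continuous fun p : R d × S d => C * ‖A p.1 - A q.1‖ := by fun_prop
    simpa only [sub_self, norm_zero, mul_zero] using this.tendsto q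
  have h3 := h2.add (h1.tendsto q)
  simp only [sub_add_cancel, zero_add] at h3
  exact h3

theorem FV_sq (a : ℝ) : a ^ 2 - 1 = (a + 1) * (a - 1) := by ring

theorem FV_univ (Ω O : Set (R d)) : vf Ω O univ = pm Ω O := by
  rw [← Measure.fst_univ, vf_fst, Measure.restrict_apply_univ]

theorem FV_ineq {Ω O O' : Set (R d)} (hΩ : MeasurableSet Ω) (hO' : IsOpen O') (hOO : O ⊆ O')
    (hf : pm Ω O' < ⊤) {η : ℝ} (hη : 0 < η)
    (h : ∀ F, MeasurableSet F → F ∆ Ω ⊆ O → volume (F ∆ Ω) ≤ ENNReal.ofReal η → pm Ω O' ≤ pm F O')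
    {X : R d → R d} (hX : C1c X O) : ∀ᶠ t : ℝ in 𝓝 0, (∀ x, ‖t • fderiv ℝ X x‖ ≤ 1 / 2) ∧
      Integrable (fun p : R d × S d => ‖cofv (1 + t • fderiv ℝ X p.1) p.2‖) (vf Ω O') ∧
      0 ≤ ∫ p, (‖cofv (1 + t • fderiv ℝ X p.1) p.2‖ - 1) ∂vf Ω O' := by
  obtain ⟨C, C0, hC⟩ := cofv_expand d
  have c0 := hX.1.continuous_fderiv one_ne_zero
  obtain ⟨c, hc⟩ := c0.bounded_above_of_compact_support (hX.2.1.fderiv ℝ)
  obtain ⟨A, hA⟩ := hX.1.continuous.bounded_above_of_compact_support hX.2.1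
  obtain ⟨σ, σ0, hσ⟩ := image_cont hΩ hX.2.1 hη
  have : IsFiniteMeasure (vf Ω O') := ⟨by rwa [FV_univ]⟩
  have l : ∀ a : ℝ, Tendsto (fun t : ℝ => |t| * a) (𝓝 0) (𝓝 0) := fun a =>
    Continuous.tendsto' (by fun_prop) 0 0 (by simp)
  filter_upwards [(l c).eventually_le_const one_half_pos, (l A).eventually_le_const σ0] with t t1 t2
  have b : ∀ x, ‖t • fderiv ℝ X x‖ ≤ 1 / 2 := fun x => by
    rw [norm_smul]
    exact (mul_le_mul_of_nonneg_left (hc x) (abs_nonneg t)).trans t1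
  have e : ∀ x, fderiv ℝ (fun x => t • X x) x = t • fderiv ℝ X x := fun x =>
    fderiv_fun_const_smul (hX.1.differentiable one_ne_zero x) t
  have hY : C1c (fun x => t • X x) (tsupport X) :=
    ⟨hX.1.const_smul t, hX.2.1.smul_left (f := fun _ => t), tsupport_smul_subset_right _ _⟩
  have w := FV_cont (c0.const_smul t) b
  have iw : Integrable (fun p : R d × S d => ‖cofv (1 + t • fderiv ℝ X p.1) p.2‖) (vf Ω O') :=
    Integrable.of_bound w.norm.aestronglyMeasurable C (Eventually.of_forall fun p =>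
      (abs_norm _).trans_le (hC _ _ p.2 (b p.1) (b p.1)).2.2.2)
  refine ⟨b, iw, ?_⟩
  obtain ⟨φ, h1, h2, h3, h4, -⟩ := exists_diffeo ⟨hY.1, hY.2.1, subset_univ _⟩ fun x => e x ▸ b x
  have h5 : ⇑φ = fun x => x + t • X x := funext h1
  have h6 : ∀ x, fderiv ℝ φ x = 1 + t • fderiv ℝ X x := fun x => by
    rw [h5]
    exact ((hasFDerivAt_id x).add
      ((hX.1.differentiable one_ne_zero x).hasFDerivAt.const_smul t)).fderiv
  have h7 : ∀ y, y ∉ tsupport X → φ y = y := fun y hy => by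
    rw [h1, image_eq_zero_of_notMem_tsupport hy, smul_zero, add_zero]
  have h8 := h (φ '' Ω) (φ.measurableEmbedding.measurableSet_image' hΩ) (fun y hy => hX.2.2
    (by_contra fun k => by
      have : y ∈ φ '' Ω ↔ y ∈ Ω := by
        conv_lhs => rw [← h7 y k]
        exact φ.injective.mem_set_image
      exact hy.elim (fun a => a.2 (this.1 a.1)) fun a => a.2 (this.2 a.1))) (by
      have := hσ _ (fun _ => 0) hY ⟨contDiff_const, HasCompactSupport.zero, by simp⟩
        (fun x => e x ▸ b x) (by simp only [fderiv_fun_const, Pi.zero_apply, norm_zero, one_div, inv_nonneg, Nat.ofNat_nonneg, implies_true]) fun x => by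
          rw [sub_zero, norm_smul]
          exact (mul_le_mul_of_nonneg_left (hA x) (abs_nonneg t)).trans t2
      simpa only [h5, ge_iff_le, add_zero, image_id'] using this)
  have h9 := (vf_image hΩ hO' (subset_lf hO' hf) φ h2 h3).2
  rw [h4 O' (hY.2.2.trans (hX.2.2.trans hOO))] at h9
  simp only [h6] at h9
  have hm : Measurable fun p : R d × S d =>
      (φ p.1, toS (cofv (1 + t • fderiv ℝ X p.1) p.2)) :=
    (φ.measurable.comp measurable_fst).prodMk (FV_toS.comp w.measurable)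
  rw [← FV_univ (φ '' Ω), h9, Measure.map_apply hm MeasurableSet.univ, preimage_univ,
    withDensity_apply _ MeasurableSet.univ, Measure.restrict_univ,
    ← ofReal_integral_eq_lintegral_ofReal iw (Eventually.of_forall fun _ => norm_nonneg _),
    ← FV_univ] at h8
  rw [integral_sub iw (integrable_const _), integral_const, smul_eq_mul, mul_one, sub_nonneg]
  exact ENNReal.toReal_le_of_le_ofReal (integral_nonneg fun _ => norm_nonneg _) h8

theorem FV_stat {Ω O O' : Set (R d)} (hΩ : MeasurableSet Ω) (hO' : IsOpen O') (hOO : O ⊆ O')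
    (hf : pm Ω O' < ⊤) {η : ℝ} (hη : 0 < η)
    (h : ∀ F, MeasurableSet F → F ∆ Ω ⊆ O → volume (F ∆ Ω) ≤ ENNReal.ofReal η → pm Ω O' ≤ pm F O') :
    Stat (vf Ω O') O := by
  obtain ⟨C, C0, hC⟩ := cofv_expand d
  have : IsFiniteMeasure (vf Ω O') := ⟨by rwa [FV_univ]⟩
  have lf : LocFin (vf Ω O') O := fun K _ _ => measure_lt_top _ _
  have key : ∀ X : R d → R d, C1c X O → 0 ≤ ∫ p, divT X p ∂vf Ω O' := fun X hX => by
    obtain ⟨c, hc⟩ := (hX.1.continuous_fderiv one_ne_zero).bounded_above_of_compact_support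
      (hX.2.1.fderiv ℝ)
    have iv := lf.integrable hX.2.1 hX.2.2 (divT_continuous hX.1) fun p => H_divT_zero
    have l : Tendsto (fun t : ℝ => ∫ p, divT X p ∂vf Ω O' + t * (C * c ^ 2 * (vf Ω O').real univ))
        (𝓝[>] 0) (𝓝 (∫ p, divT X p ∂vf Ω O')) :=
      (Continuous.tendsto' (by fun_prop) 0 _ (by simp only [zero_mul, add_zero])).mono_left nhdsWithin_le_nhds
    refine ge_of_tendsto l ?_
    filter_upwards [nhdsWithin_le_nhds (FV_ineq hΩ hO' hOO hf hη h hX), self_mem_nhdsWithin]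
      with t ⟨t1, t2, t3⟩ t4
    have t0 : 0 < t := t4
    have k := t3.trans (integral_mono (g := fun p => t * divT X p + C * (t * c) ^ 2)
      (t2.sub (integrable_const _)) ((iv.const_mul t).add (integrable_const _)) fun p => by
        have k1 := (abs_le.1 (hC _ _ p.2 (t1 p.1) (t1 p.1)).1).2
        have k2 : C * ‖t • fderiv ℝ X p.1‖ ^ 2 ≤ C * (t * c) ^ 2 := by
          rw [norm_smul, Real.norm_of_nonneg t0.le]
          gcongr
          exact hc _
        simp only [smul_apply, PiLp.smul_apply, smul_eq_mul, real_inner_smul_right,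
          ← Finset.mul_sum] at k1
        simp only [divT, dv]
        linarith)
    rw [integral_add (iv.const_mul t) (integrable_const _), integral_const_mul, integral_const,
      smul_eq_mul] at k
    exact nonneg_of_mul_nonneg_right (a := t) (by linarith) t0
  refine ⟨lf, fun X hX => le_antisymm ?_ (key X hX)⟩
  have k := key (fun x => -X x) ⟨hX.1.neg, hX.2.1.neg, (tsupport_neg X).trans_subset hX.2.2⟩
  have e : ∀ p, divT (fun x => -X x) p = -divT X p := fun p => by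
    simp only [divT, dv, fderiv_fun_neg, neg_apply, PiLp.neg_apply, inner_neg_right,
      Finset.sum_neg_distrib]
    ring
  simpa only [e, integral_neg, neg_nonneg] using k

theorem FV_point {M U : Set (R d)} {P} (h : Adapted M U P) {x : R d} (hx : x ∈ M ∩ U)
    {n m : R d → R d} (hn : ContDiff ℝ ∞ n) (hm : FVb_N M P x m)
    (he : ∀ᶠ y in 𝓝 x, y ∈ M → n y = m y) {ζ : R d → ℝ} (hζ : ContDiff ℝ 1 ζ)
    (hH : ∀ j, ∑ i, dl P i (fun y => P y i j) x = 0) {A : R d →L[ℝ] R d}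
    (hA : A = fderiv ℝ (fun y => ζ y • n y) x) :
    ∑ i, A (EuclideanSpace.single i 1) i = ⟪m x, A (m x)⟫_ℝ ∧
      FVa_Q A (m x) = gs P ζ x - c2 P x * ζ x ^ 2 := by
  obtain ⟨m1, m2⟩ := hm.2.self_of_nhds
  obtain ⟨m2, m3⟩ := m2 hx.1
  have dζ := hζ.differentiable one_ne_zero x
  have dm := FVb_coord (H_diff hm.1 x)
  have dX : DifferentiableAt ℝ (fun y => ζ y • n y) x := dζ.smul (H_diff hn x)
  have m4 : ∑ i, m x i * m x i = 1 := by simpa only [sq] using H_normsq.1 m1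
  have m5 : ∀ i, ∑ j, m x j * dl P j (fun z => m z i) x = 0 := fun i => H_n_dl m1 m2 _
  have e1 : ∀ i j k, dl P i (fun y => P y j k) x =
      dl P i (fun z => m z j) x * m x k + m x j * dl P i (fun z => m z k) x := fun i j k => by
    rw [← dl_mul (dm j) (dm k)]
    exact h.dl_congr hx (H_diff (h.1 j k) x) ((dm j).mul (dm k))
      (hm.2.mono fun y a b => (a.2 b).1 j k) i
  have e2 : ∑ i, dl P i (fun z => m z i) x = 0 := by
    have : ∀ j, (∑ i, dl P i (fun z => m z i) x) * m x j = 0 := fun j => by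
      have := hH j
      simp only [e1, Finset.sum_add_distrib, m5, add_zero] at this
      rwa [Finset.sum_mul]
    rw [← mul_one (∑ i, _), ← m4, Finset.mul_sum]
    exact Finset.sum_eq_zero fun j _ => by rw [← mul_assoc, this, zero_mul]
  have e3 : ∀ i v, A v i = fderiv ℝ (fun y => (ζ y • n y) i) x v := fun i v => by
    rw [hA]
    exact (congrArg (fun L : R d →L[ℝ] ℝ => L v) ((EuclideanSpace.proj (𝕜 := ℝ) i).hasFDerivAt.comp x
      dX.hasFDerivAt).fderiv).symm
  have e4 : ∀ i j, A (EuclideanSpace.single j 1) i = m x i * dl P j ζ x +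
      ζ x * dl P j (fun z => m z i) x + (∑ k, m x k * A (EuclideanSpace.single k 1) i) * m x j :=
    fun i j => by
      have k := (h.dl_congr hx (FVb_coord dX i) (dζ.mul (dm i)) (he.mono fun y a b => by
        simp [a b]) j).trans (dl_mul dζ (dm i) j)
      simp only [dl, pd, ← e3, m2, mul_assoc, ← Finset.mul_sum] at k ⊢
      linarith only [k]
  obtain ⟨k1, k2⟩ := FVa_alg (A := fun i j => A (EuclideanSpace.single j 1) i) e4 m4
    (H_n_dl m1 m2 ζ) (fun i j => m3 j i) m5 e2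
  have e5 : ∀ i, A (m x) i = ∑ k, m x k * A (EuclideanSpace.single k 1) i := fun i => by
    simp only [e3]
    exact H_sum _ _
  have e6 : ∀ j, A.adjoint (m x) j = ∑ i, m x i * A (EuclideanSpace.single j 1) i := fun j => by
    rw [← H_inner, ← ContinuousLinearMap.adjoint_inner_left, EuclideanSpace.inner_single_right]
    simp
  have e7 := FVa_c2 (s := fun i j => dl P j (fun z => m z i) x) m4 fun i => by
    simpa only [m3 i] using m5 i
  simp only [FVa_Q, EuclideanSpace.real_norm_sq_eq, H_inner, e5, e6, c2, gs, e1, e7]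
  exact ⟨k1, k2.trans (by ring)⟩

/-- first and second variation of a set that minimises among small perturbations inside `O` -/
theorem locmin_stat_stab {Ω O O' : Set (R d)} (hΩ : MeasurableSet Ω) (hO : IsOpen O) (hO' : IsOpen O')
    (hOO : O ⊆ O') (hf : pm Ω O' < ⊤) {η : ℝ} (hη : 0 < η)
    (h : ∀ F, MeasurableSet F → F ∆ Ω ⊆ O → volume (F ∆ Ω) ≤ ENNReal.ofReal η → pm Ω O' ≤ pm F O') :
    Stat (vf Ω O) O ∧ Stab (pm Ω) O := by
  have hs := FV_stat hΩ hO' hOO hf hη h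
  refine ⟨hs.congr hO (by rw [vf_restrict Ω hO.measurableSet hOO,
    vf_restrict Ω hO.measurableSet Subset.rfl]), fun U P hU hUO hP ζ hζ => ?_⟩
  obtain ⟨C, C0, hC⟩ := cofv_expand d
  have : IsFiniteMeasure (vf Ω O') := ⟨by rwa [FV_univ]⟩
  obtain ⟨n, hn, hN⟩ := FVb_normal hΩ hP hU hζ.2.1 hζ.2.2
  have sp : (vf Ω O').fst.support ∩ U = (pm Ω).support ∩ U := support_congr hU (by
    rw [vf_fst, Measure.restrict_restrict_of_subset (hUO.trans hOO)])
  have hP' : Adapted (vf Ω O').fst.support U P := ⟨hP.1, fun x hx => by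
    obtain ⟨f, h1, h2⟩ := hP.2 x (sp ▸ hx)
    refine ⟨f, ⟨h1.1, h1.2.1, ?_⟩, h2⟩
    filter_upwards [h1.2.2, hU.mem_nhds hx.2] with y k1 k2
    rw [← k1]
    simpa [k2] using Set.ext_iff.1 sp y⟩
  obtain ⟨X, hX⟩ : ∃ X : R d → R d, X = fun y => ζ y • n y := ⟨_, rfl⟩
  have x1 : C1c X U := hX ▸ hζ.smul (H_one hn)
  have c0 := x1.1.continuous_fderiv one_ne_zero
  obtain ⟨c, hc⟩ := c0.bounded_above_of_compact_support (x1.2.1.fderiv ℝ)
  have g0 : ∀ x, x ∉ tsupport ζ → gs P ζ x = 0 ∧ c2 P x * ζ x ^ 2 = 0 := fun x hx =>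
    ⟨Finset.sum_eq_zero fun i _ => by simp [dl_notMem hx],
      by simp [image_eq_zero_of_notMem_tsupport hx]⟩
  have ae : ∀ᵐ p ∂vf Ω O', ∑ i, fderiv ℝ X p.1 (EuclideanSpace.single i 1) i =
      ⟪(p.2 : R d), fderiv ℝ X p.1 p.2⟫_ℝ ∧
        FVa_Q (fderiv ℝ X p.1) p.2 = gs P ζ p.1 - c2 P p.1 * ζ p.1 ^ 2 := by
    filter_upwards [H_ae_supp (vf Ω O'), hP'.nu_eq hU (hs.mono hUO)] with p p1 p2
    by_cases hp : p.1 ∈ tsupport ζ
    · have p3 : p.1 ∈ (vf Ω O').fst.support ∩ U := ⟨p1, hζ.2.2 hp⟩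
      obtain ⟨m, m1, m2⟩ := hN p.1 ⟨(sp ▸ p3).1, hp⟩
      have k := FV_point hP (sp ▸ p3) hn m1 m2 hζ.1 (hP'.minimal hU (hs.mono hUO) p3)
        (congrArg (fderiv ℝ · p.1) hX)
      have m3 := m1.2.self_of_nhds
      rcases FVb_sign (norm_eq_of_mem_sphere p.2) m3.1 fun i j =>
        (p2 p3.2 i j).symm.trans ((m3.2 (sp ▸ p3).1).1 i j) with e | e
      · rwa [e]
      · simpa only [e, map_neg, inner_neg_right, inner_neg_left, neg_neg, FVa_Q, norm_neg] using k
    · have : fderiv ℝ X p.1 = 0 := by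
        rw [hX, (notMem_tsupport_iff_eventuallyEq.1 fun k =>
          hp (tsupport_smul_subset_left ζ n k)).fderiv_eq, fderiv_zero]
        rfl
      simp [this, FVa_Q, g0 _ hp]
  have ev : ∀ᶠ t : ℝ in 𝓝[>] 0, _ ∧ t ∈ Ioi 0 := Eventually.and (nhdsWithin_le_nhds
    (FV_ineq hΩ hO' hOO hf hη h ⟨x1.1, x1.2.1, x1.2.2.trans hUO⟩)) self_mem_nhdsWithin
  have ms : ∀ t : ℝ, (∀ x, ‖t • fderiv ℝ X x‖ ≤ 1 / 2) → AEStronglyMeasurable
      (fun p : R d × S d => (‖cofv (1 + t • fderiv ℝ X p.1) p.2‖ ^ 2 - 1) / t ^ 2) (vf Ω O') :=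
    fun t ht => ((((FV_cont (c0.const_smul t) ht).norm.pow 2).sub
      continuous_const).div_const _).aestronglyMeasurable
  have bd : ∀ t : ℝ, 0 < t → (∀ x, ‖t • fderiv ℝ X x‖ ≤ 1 / 2) → ∀ᵐ p ∂vf Ω O',
      ‖(‖cofv (1 + t • fderiv ℝ X p.1) p.2‖ ^ 2 - 1) / t ^ 2‖ ≤ (C + 1) * (C * c ^ 2) :=
    fun t t0 ht => ae.mono fun p hp => by
      obtain ⟨k1, -, -, k2⟩ := hC _ _ p.2 (ht p.1) (ht p.1)
      simp only [smul_apply, PiLp.smul_apply, smul_eq_mul, real_inner_smul_right,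
        ← Finset.mul_sum, hp.1, sub_self, sub_zero, norm_smul, Real.norm_of_nonneg t0.le] at k1
      rw [norm_div, Real.norm_of_nonneg (sq_nonneg t), div_le_iff₀ (by positivity), FV_sq,
        norm_mul, Real.norm_of_nonneg (by positivity), mul_assoc, mul_assoc, ← mul_pow, mul_comm c]
      refine mul_le_mul (by linarith only [k2]) (k1.trans ?_) (norm_nonneg _) (by positivity)
      gcongr
      exact hc _
  have l := tendsto_integral_filter_of_dominated_convergence (μ := vf Ω O')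
    (f := fun p => gs P ζ p.1 - c2 P p.1 * ζ p.1 ^ 2) _ (ev.mono fun t ht => ms t ht.1.1)
    (ev.mono fun t ht => bd t ht.2 ht.1.1) (integrable_const _)
    (ae.mono fun p hp => hp.2 ▸ FVa_lim _ (norm_eq_of_mem_sphere p.2) hp.1)
  have k := ge_of_tendsto l (ev.mono fun t ⟨⟨t1, t2, t3⟩, t4⟩ => le_trans
    (mul_nonneg (by positivity : 0 ≤ 2 / t ^ 2) t3) (by
      rw [← integral_const_mul]
      refine integral_mono ((t2.sub (integrable_const _)).const_mul _)
        (Integrable.of_bound (ms t t1) _ (bd t t4 t1)) fun p => ?_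
      simp only [div_mul_eq_mul_div]
      gcongr
      linarith only [sq_nonneg (‖cofv (1 + t • fderiv ℝ X p.1) (p.2 : R d)‖ - 1)]))
  have c1 := gs_cont hP.1 hζ.1
  have c2' : Continuous fun x => c2 P x * ζ x ^ 2 :=
    (c2_smooth hP.1).continuous.mul (hζ.1.continuous.pow 2)
  have hK := hζ.2.2.trans (hUO.trans hOO)
  have lf : LocFin (vf Ω O') O' := fun K _ _ => measure_lt_top _ _
  rw [integral_sub (lf.integrable (g := fun p => gs P ζ p.1) hζ.2.1 hK (c1.comp continuous_fst)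
    fun p hp => (g0 _ hp).1) (lf.integrable (g := fun p => c2 P p.1 * ζ p.1 ^ 2) hζ.2.1 hK
    (c2'.comp continuous_fst) fun p hp => (g0 _ hp).2), sub_nonneg,
    ← H_integral_fst _ c1, ← H_integral_fst _ c2', vf_fst,
    setIntegral_eq_integral_of_forall_compl_eq_zero fun x hx => (g0 x fun k => hx (hK k)).1,
    setIntegral_eq_integral_of_forall_compl_eq_zero fun x hx => (g0 x fun k => hx (hK k)).2] at k
  exact k

theorem FV_ball {Ω O : Set (R d)} (h : Min Ω O) {x : R d} {r r' : ℝ} (hr : r < r')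
    (hb : closedBall x r' ⊆ O) : Stat (vf Ω (ball x r)) (ball x r) ∧ Stab (pm Ω) (ball x r) :=
  locmin_stat_stab h.1 isOpen_ball isOpen_ball (ball_subset_ball hr.le)
    ((measure_mono ball_subset_closedBall).trans_lt
      (pm_lt_top (isCompact_closedBall x r') (hb.trans h.2.1))) one_pos
    fun F h1 h2 _ => h.2.2 x r r' F hr hb h1 h2

theorem min_stat {Ω O : Set (R d)} (hO : IsOpen O) (h : Min Ω O) : Stat (vf Ω O) O :=
  stat_of_local fun x hx => by
    obtain ⟨r, r0, hr⟩ := nhds_basis_closedBall.mem_iff.1 (hO.mem_nhds hx)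
    have k := (ball_subset_ball (half_le_self r0.le)).trans (ball_subset_closedBall.trans hr)
    exact ⟨_, ball_mem_nhds x (half_pos r0), (FV_ball h (half_lt_self r0) hr).1.congr isOpen_ball
      (by rw [vf_restrict Ω measurableSet_ball Subset.rfl, vf_restrict Ω measurableSet_ball k])⟩

theorem min_stab_ball {Ω O : Set (R d)} (h : Min Ω O) {x : R d} {r : ℝ} (hb : closedBall x r ⊆ O) :
    Stab (pm Ω) (ball x r) := fun U P hU hUO hP ζ hζ => by
  obtain ⟨s, hs, h1⟩ := exists_lt_subset_ball (isClosed_tsupport ζ) (hζ.2.2.trans hUO)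
  exact (FV_ball h hs hb).2 (U ∩ ball x s) P (hU.inter isOpen_ball) inter_subset_right
    (hP.mono inter_subset_left) ζ ⟨hζ.1, hζ.2.1, subset_inter hζ.2.2 h1⟩

theorem min_stab {Ω : Set (R d)} (h : Min Ω univ) : Stab (pm Ω) univ := fun U P hU _ hP ζ hζ => by
  obtain ⟨s, h1⟩ := hζ.2.1.isCompact.isBounded.subset_ball 0
  exact min_stab_ball h (subset_univ _) (U ∩ ball 0 s) P (hU.inter isOpen_ball) inter_subset_right
    (hP.mono inter_subset_left) ζ ⟨hζ.1, hζ.2.1, subset_inter hζ.2.2 h1⟩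

end Pool.Agent.MP_5cfeaf_gt.W

end

section

/-! Block F: minimisers have no classical singularity (cutting the corner of a wedge). -/

set_option autoImplicit false

open MeasureTheory Set Filter Topology Metric
open scoped ENNReal symmDiff Classical InnerProductSpace ContDiff

namespace Pool.Agent.MP_5cfeaf_gt.W

variable {d : ℕ}

/-- `α`, `β` are dual to `a`, `b` -/
structure FN_C (a b : R d) (α β : R d →L[ℝ] ℝ) : Prop where
  aa : α a = 1
  ab : α b = 0
  ba : β a = 0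
  bb : β b = 1

/-- the open wedge -/
def FN_W (α β : R d →L[ℝ] ℝ) : Set (R d) := {x | 0 < α x ∧ 0 < β x}

/-- a conical neighbourhood of the side `β = 0` and of the wedge -/
def FN_O (α β : R d →L[ℝ] ℝ) (ε : ℝ) : Set (R d) := {x | 0 < α x ∧ 0 < β x + ε * α x}

/-- projection along `a` and `b` -/
noncomputable def FN_p (a b : R d) (α β : R d →L[ℝ] ℝ) : R d →L[ℝ] R d :=
  ContinuousLinearMap.id ℝ _ - α.smulRight a - β.smulRight b

theorem FN_p_apply (a b : R d) (α β : R d →L[ℝ] ℝ) (x : R d) :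
    FN_p a b α β x = x - α x • a - β x • b := rfl

theorem FN_W_open (α β : R d →L[ℝ] ℝ) : IsOpen (FN_W α β) :=
  (isOpen_lt continuous_const α.continuous).inter (isOpen_lt continuous_const β.continuous)

theorem FN_O_open (α β : R d →L[ℝ] ℝ) (ε : ℝ) : IsOpen (FN_O α β ε) :=
  (isOpen_lt continuous_const α.continuous).inter (isOpen_lt continuous_const
    (β.continuous.add (continuous_const.mul α.continuous)))

theorem FN_W_comm (α β : R d →L[ℝ] ℝ) : FN_W α β = FN_W β α := by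
  ext x
  exact and_comm

theorem FN_coord {M : Set (R d)} {L : Submodule ℝ (R d)} {a b : R d} (h : Wedge M L a b) :
    ∃ (α β : R d →L[ℝ] ℝ) (c s : ℝ), FN_C a b α β ∧ (∀ x, x - α x • a - β x • b ∈ L) ∧
      ‖c • a - b‖ ≤ s ∧ ‖c • b - a‖ ≤ s ∧ s * ‖α + β‖ < 2 := by
  obtain ⟨c, hc⟩ : ∃ c, c = ⟪a, b⟫_ℝ := ⟨_, rfl⟩
  have hc' : ⟪b, a⟫_ℝ = c := by rw [hc, real_inner_comm]
  have c1 : c < 1 := hc ▸ (inner_lt_one_iff_real_of_norm_eq_one h.na h.nb).2 h.ne
  have c2 : -1 < c := by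
    have := (inner_lt_one_iff_real_of_norm_eq_one h.na ((norm_neg b).trans h.nb)).2 h.ne'
    rw [inner_neg_right] at this
    linarith
  have c3 : 0 < 1 - c ^ 2 := by nlinarith only [c1, c2]
  have c4 : 0 < 1 + c := by linarith
  have ha : ⟪a, a⟫_ℝ = 1 := by rw [real_inner_self_eq_norm_sq, h.na, one_pow]
  have hb : ⟪b, b⟫_ℝ = 1 := by rw [real_inner_self_eq_norm_sq, h.nb, one_pow]
  have hs : ∀ a b : R d, ⟪a, a⟫_ℝ = 1 → ⟪b, b⟫_ℝ = 1 → ⟪a, b⟫_ℝ = c → ‖c • a - b‖ ≤ √(1 - c ^ 2) :=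
    fun a b h1 h2 h3 => Real.le_sqrt_of_sq_le (le_of_eq (by
      rw [← real_inner_self_eq_norm_sq, inner_sub_left, inner_sub_right, inner_sub_right,
        real_inner_smul_left, real_inner_smul_right, real_inner_smul_left, real_inner_smul_right,
        real_inner_comm a b, h1, h2, h3]
      ring))
  let f : R d → R d → R d →L[ℝ] ℝ := fun a b => (1 - c ^ 2)⁻¹ • (innerSL ℝ a - c • innerSL ℝ b)
  have hf : ∀ a b x, f a b x = (1 - c ^ 2)⁻¹ * (⟪a, x⟫_ℝ - c * ⟪b, x⟫_ℝ) := fun _ _ _ => rfl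
  refine ⟨f a b, f b a, c, √(1 - c ^ 2), ⟨?_, ?_, ?_, ?_⟩, fun x => ?_, hs a b ha hb hc.symm,
    hs b a hb ha hc', ?_⟩
  · rw [hf, ha, hc']; field_simp
  · rw [hf, hb, ← hc]; ring
  · rw [hf, ha, hc']; ring
  · rw [hf, hb, ← hc]; field_simp
  · have h1 : LinearIndependent ℝ ![a, b] := LinearIndependent.pair_iff.2 fun s t e => by
      have e1 := congrArg (fun y => ⟪a, y⟫_ℝ) e
      have e2 := congrArg (fun y => ⟪b, y⟫_ℝ) e
      simp only [inner_add_right, real_inner_smul_right, inner_zero_right, ha, hb, ← hc, hc'] at e1 e2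
      constructor
      · have : s * (1 - c ^ 2) = 0 := by linear_combination e1 - c * e2
        exact (mul_eq_zero.1 this).resolve_right c3.ne'
      · have : t * (1 - c ^ 2) = 0 := by linear_combination e2 - c * e1
        exact (mul_eq_zero.1 this).resolve_right c3.ne'
    have h2 : ∀ y, y ∈ (Submodule.span ℝ (range ![a, b]))ᗮ ↔ ⟪a, y⟫_ℝ = 0 ∧ ⟪b, y⟫_ℝ = 0 := fun y => by
      rw [Matrix.range_cons_cons_empty, Submodule.span_insert, ← Submodule.inf_orthogonal,
        Submodule.mem_inf, Submodule.mem_orthogonal_singleton_iff_inner_right,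
        Submodule.mem_orthogonal_singleton_iff_inner_right]
    have h3 := Submodule.finrank_add_finrank_orthogonal (Submodule.span ℝ (range ![a, b]))
    rw [finrank_span_eq_card h1, finrank_euclideanSpace, Fintype.card_fin, Fintype.card_fin] at h3
    rw [Submodule.eq_of_le_of_finrank_eq (fun z hz => (h2 z).2 ⟨h.oa z hz, h.ob z hz⟩)
      (by have := h.rk; omega), h2]
    simp only [inner_sub_right, real_inner_smul_right, hf, ha, hb, ← hc, hc']
    constructor <;> field_simp <;> ring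
  · have h1 : ‖f a b + f b a‖ ≤ (1 + c)⁻¹ * ‖a + b‖ :=
      ContinuousLinearMap.opNorm_le_bound _ (by positivity) fun x => by
        have : (f a b + f b a) x = (1 + c)⁻¹ * ⟪a + b, x⟫_ℝ := by
          have : 1 - c ≠ 0 := by linarith
          rw [add_apply, hf, hf, inner_add_left,
            show 1 - c ^ 2 = (1 - c) * (1 + c) by ring]
          field_simp
          ring
        rw [this, norm_mul, Real.norm_of_nonneg (by positivity), mul_assoc]
        exact mul_le_mul_of_nonneg_left (norm_inner_le_norm _ _) (by positivity)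
    have h2 : ‖a + b‖ ^ 2 = 2 * (1 + c) := by
      rw [norm_add_sq_real, h.na, h.nb, ← hc]; ring
    refine (mul_le_mul_of_nonneg_left h1 (Real.sqrt_nonneg _)).trans_lt
      (lt_of_pow_lt_pow_left₀ 2 two_pos.le ?_)
    rw [mul_pow, mul_pow, Real.sq_sqrt c3.le, h2, show 1 - c ^ 2 = (1 - c) * (1 + c) by ring]
    field_simp
    linarith only [c2]

theorem FN_pm_zero {Ω U : Set (R d)} (h : Disjoint U (pm Ω).support) : pm Ω U = 0 :=
  measure_mono_null h.subset_compl_right Measure.measure_compl_support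

/-- near a side the set is empty on the outer side -/
theorem FN_side {Ω : Set (R d)} (hΩ : MeasurableSet Ω) {L : Submodule ℝ (R d)} {a b : R d}
    (h : Wedge (pm Ω).support L a b) {α β : R d →L[ℝ] ℝ} (hc : FN_C a b α β)
    (hL : ∀ x, x - α x • a - β x • b ∈ L) (hW : volume (FN_W α β \ Ω) = 0) :
    ∃ ε > 0, volume ((Ω ∆ FN_W α β) ∩ FN_O α β ε) = 0 := by
  obtain ⟨n, -, -, h1⟩ := h.fl a h.ma fun ha => by
    have := h.oa a ha
    rw [real_inner_self_eq_norm_sq, h.na] at this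
    norm_num at this
  have h0 : ⟪n, a⟫_ℝ = 0 := h1.self_of_nhds.1 h.ma
  obtain ⟨ε, hε, h2⟩ := Metric.eventually_nhds_iff.1 h1
  have h3 : ∀ t : ℝ, |t| < ε → (a + t • b ∈ (pm Ω).support ↔ t * ⟪n, b⟫_ℝ = 0) := fun t ht => by
    rw [h2 (by rwa [dist_eq_norm, add_sub_cancel_left, norm_smul, h.nb, mul_one]), inner_add_right,
      h0, zero_add, real_inner_smul_right]
  have h4 : ⟪n, b⟫_ℝ ≠ 0 := fun e => h.gap 1 (ε / 2) one_pos (half_pos hε) 0 L.zero_mem (by
    rw [one_smul, add_zero, h3 _ (by rw [abs_of_pos (half_pos hε)]; exact half_lt_self hε), e,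
      mul_zero])
  have hD : pm Ω (FN_O α β ε ∩ {x | β x < 0}) = 0 := FN_pm_zero (disjoint_left.2 fun x hx hM => by
    obtain ⟨⟨b1, b2⟩, b3⟩ := hx
    have b4 := h.dil _ (h.tr x hM _ (L.neg_mem (hL x))) _ (inv_pos.2 b1)
    rw [show (α x)⁻¹ • (x + -(x - α x • a - β x • b)) = a + (β x / α x) • b by
      match_scalars <;> (field_simp; try ring), h3, mul_eq_zero] at b4
    · exact b4.elim (div_ne_zero (ne_of_lt b3) b1.ne') h4
    · rw [abs_of_neg (div_neg_of_neg_of_pos b3 b1), ← neg_div, div_lt_iff₀ b1]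
      linarith)
  have hz : volume {x | β x = 0} = 0 :=
    Measure.addHaar_submodule volume (LinearMap.ker (β : R d →ₗ[ℝ] ℝ)) fun e => by
      have : b ∈ LinearMap.ker (β : R d →ₗ[ℝ] ℝ) := e ▸ Submodule.mem_top
      exact one_ne_zero (hc.bb.symm.trans this)
  have hconv : Convex ℝ (FN_O α β ε ∩ {x | β x < 0}) :=
    ((convex_halfSpace_gt (α : R d →ₗ[ℝ] ℝ).isLinear 0).inter
      (convex_halfSpace_gt (β + ε • α : R d →L[ℝ] ℝ).toLinearMap.isLinear 0)).inter
      (convex_halfSpace_lt (β : R d →ₗ[ℝ] ℝ).isLinear 0)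
  rcases const_of_pm hΩ ((FN_O_open α β ε).inter (isOpen_lt β.continuous continuous_const))
    hconv.isPreconnected hD with h5 | h5
  · refine ⟨ε, hε, measure_mono_null (fun x hx => ?_)
      (measure_union_null h5 (measure_union_null hz hW))⟩
    rcases hx.1 with b1 | b1
    · rcases lt_trichotomy (β x) 0 with b2 | b2 | b2
      exacts [Or.inl ⟨b1.1, hx.2, b2⟩, Or.inr (Or.inl b2), absurd ⟨hx.2.1, b2⟩ b1.2]
    · exact Or.inr (Or.inr b1)
  · exfalso
    have h6 := pm_congr hΩ MeasurableSet.univ (FN_O_open α β ε) (measure_mono_null (fun x hx => ?_)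
      (measure_union_null h5 (measure_union_null hz hW)))
    · refine Measure.notMem_support_iff_exists.2 ⟨_, (FN_O_open α β ε).mem_nhds ?_, ?_⟩ h.ma
      · exact ⟨by rw [hc.aa]; exact one_pos, by rw [hc.aa, hc.ba]; linarith only [hε]⟩
      · rw [← Measure.restrict_apply_self, h6, FD_pm_univ]
        simp
    · have b1 : x ∉ Ω := by simpa [mem_symmDiff] using hx.1
      rcases lt_trichotomy (β x) 0 with b2 | b2 | b2
      exacts [Or.inl ⟨⟨hx.2, b2⟩, b1⟩, Or.inr (Or.inl b2), Or.inr (Or.inr ⟨⟨hx.2.1, b2⟩, b1⟩)]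

/-- scaling of the two wedge coordinates -/
theorem FN_scale {a b : R d} {α β : R d →L[ℝ] ℝ} (hc : FN_C a b α β) {w : ℝ → ℝ} (hw : Continuous w)
    {γ : R d → ℝ} (hγ : Continuous γ) {r : ℝ} (hr : 0 < r) :
    ∫ x in FN_W α β, w ((α + β) x / r) * γ (FN_p a b α β x) =
      r ^ 2 * ∫ x in FN_W α β, w ((α + β) x / 1) * γ (FN_p a b α β x) := by
  let A : R d →ₗ[ℝ] R d := LinearMap.transvection ((r⁻¹ - 1) • (α : R d →ₗ[ℝ] ℝ)) a ∘ₗ
    LinearMap.transvection ((r⁻¹ - 1) • (β : R d →ₗ[ℝ] ℝ)) b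
  have hA : ∀ x, A x = x + ((r⁻¹ - 1) * β x) • b + ((r⁻¹ - 1) * α x) • a := fun x => by
    simp [A, LinearMap.transvection.apply, hc.ab]
  have h1 : ∀ x, α (A x) = α x / r := fun x => by
    simp only [hA, map_add, map_smul, hc.aa, hc.ab, smul_eq_mul]; ring
  have h2 : ∀ x, β (A x) = β x / r := fun x => by
    simp only [hA, map_add, map_smul, hc.ba, hc.bb, smul_eq_mul]; ring
  have h3 : ∀ x, FN_p a b α β (A x) = FN_p a b α β x := fun x => by
    rw [FN_p_apply, FN_p_apply, h1, h2, hA]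
    match_scalars <;> ring
  have hd : LinearMap.det A = (r ^ 2)⁻¹ := by
    simp only [A, LinearMap.det_comp, LinearMap.transvection.det, LinearMap.smul_apply,
      ContinuousLinearMap.coe_coe, hc.aa, hc.bb, smul_eq_mul]
    ring
  have hm := (FN_W_open α β).measurableSet
  have h4 := integral_map (μ := volume) A.continuous_of_finiteDimensional.aemeasurable
    (f := (FN_W α β).indicator fun x => w ((α + β) x / 1) * γ (FN_p a b α β x))
    ((Continuous.stronglyMeasurable (by fun_prop)).indicator hm).aestronglyMeasurable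
  rw [Measure.map_linearMap_addHaar_eq_smul_addHaar volume (hd ▸ by positivity), hd, inv_inv,
    integral_smul_measure, abs_of_pos (by positivity), ENNReal.toReal_ofReal (by positivity),
    integral_indicator hm, smul_eq_mul] at h4
  rw [h4, ← integral_indicator hm]
  refine integral_congr_ae (Eventually.of_forall fun x => ?_)
  have h5 : A x ∈ FN_W α β ↔ x ∈ FN_W α β := by
    simp only [FN_W, mem_ofPred_eq, h1, h2, div_pos_iff_of_pos_right hr]
  simp only [indicator, h5, h3, add_apply, h1, h2, div_one, add_div]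

theorem FN_bdd {a b : R d} {α β : R d →L[ℝ] ℝ} (m t : ℝ) :
    IsCompact {x | -m ≤ α x ∧ -m ≤ β x ∧ (α + β) x ≤ t ∧ ‖FN_p a b α β x‖ ≤ 2} := by
  refine isCompact_of_isClosed_isBounded
    ((isClosed_le continuous_const α.continuous).inter ((isClosed_le continuous_const
      β.continuous).inter ((isClosed_le (α + β).continuous continuous_const).inter
      (isClosed_le (FN_p a b α β).continuous.norm continuous_const))))
    (isBounded_iff_forall_norm_le.2 ⟨2 + (|t| + |m|) * ‖a‖ + (|t| + |m|) * ‖b‖, fun x hx => ?_⟩)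
  obtain ⟨h1, h2, h3, h4⟩ := hx
  rw [add_apply] at h3
  have e : x = FN_p a b α β x + α x • a + β x • b := by rw [FN_p_apply]; abel
  have b1 := le_abs_self t
  have b2 := le_abs_self m
  have b3 := abs_nonneg t
  refine (e ▸ norm_add₃_le).trans (add_le_add (add_le_add h4 ?_) ?_) <;> rw [norm_smul] <;>
    exact mul_le_mul_of_nonneg_right (abs_le.2 ⟨by linarith, by linarith⟩) (norm_nonneg _)

theorem FN_int {a b : R d} {α β : R d →L[ℝ] ℝ} {w : ℝ → ℝ} (hw : Continuous w)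
    (hw0 : ∀ t, 2 < t → w t = 0) {γ : R d → ℝ} (hγ : Continuous γ) (hγ0 : ∀ z, 2 < ‖z‖ → γ z = 0)
    {r : ℝ} (hr : 0 < r) :
    IntegrableOn (fun x => w ((α + β) x / r) * γ (FN_p a b α β x)) (FN_W α β) := by
  refine ((Continuous.continuousOn (by fun_prop)).integrableOn_compact
    (FN_bdd (a := a) (b := b) (α := α) (β := β) 0 (2 * r))).of_forall_sdiff_eq_zero
    (FN_W_open α β).measurableSet fun x hx => ?_
  by_contra h
  obtain ⟨h1, h2⟩ := mul_ne_zero_iff.1 h
  exact hx.2 ⟨by linarith [hx.1.1], by linarith [hx.1.2],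
    (div_le_iff₀ hr).1 (not_lt.1 fun h => h1 (hw0 _ h)), not_lt.1 fun h => h2 (hγ0 _ h)⟩

theorem FN_intg {f : R d → ℝ} {U : Set (R d)} (hf : C1c f U) (v : R d) :
    Integrable fun x => fderiv ℝ f x v :=
  ((hf.1.continuous_fderiv one_ne_zero).clm_apply continuous_const).integrable_of_hasCompactSupport
    (hf.2.1.fderiv_apply ℝ v)

/-- tangential derivatives integrate to zero -/
theorem FN_tang {a : R d} {α β : R d →L[ℝ] ℝ} (ha : β a = 0) {f : R d → ℝ}
    (hf : C1c f {x | 0 < α x}) : ∫ x in FN_W α β, fderiv ℝ f x a = 0 := by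
  have hm : MeasurableSet {x | 0 < β x} := (isOpen_lt continuous_const β.continuous).measurableSet
  have e : ∀ g : R d → ℝ, (fun x => ContinuousLinearMap.mul ℝ ℝ
      ({x | 0 < β x}.indicator (fun _ => (1 : ℝ)) x) (g x)) = {x | 0 < β x}.indicator g := fun g => by
    funext x
    by_cases h : x ∈ {x | 0 < β x} <;> simp only [h, indicator_of_mem, ContinuousLinearMap.mul_apply', one_mul, not_false_eq_true, indicator_of_notMem, map_zero, zero_apply]
  have h := integral_bilinear_hasLineDerivAt_right_eq_neg_left_of_integrable (μ := volume)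
    (f := {x | 0 < β x}.indicator fun _ => (1 : ℝ)) (f' := fun _ => 0) (g := f)
    (g' := fun x => fderiv ℝ f x a) (v := a) (B := ContinuousLinearMap.mul ℝ ℝ) (by simp)
    (by rw [e]; exact (FN_intg hf a).indicator hm)
    (by rw [e]; exact (hf.1.continuous.integrable_of_hasCompactSupport hf.2.1).indicator hm)
    (fun x _ => by
      refine (hasDerivAt_const (0 : ℝ) ({x | 0 < β x}.indicator (fun _ => (1 : ℝ)) x)).congr_of_eventuallyEq
        (Eventually.of_forall fun t => ?_)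
      simp [indicator, ha])
    fun x _ => (hf.1.differentiable one_ne_zero x).hasFDerivAt.hasLineDerivAt a
  rw [e, integral_indicator hm] at h
  rw [← setIntegral_eq_of_subset_of_forall_sdiff_eq_zero hm (fun x hx => hx.2) fun x hx => ?_, h]
  · simp only [map_zero, zero_apply, integral_zero, neg_zero]
  · rw [image_eq_zero_of_notMem_tsupport fun h => hx.2 ⟨hf.2.2 (tsupport_fderiv_subset ℝ h), hx.1⟩]
    rfl

theorem FN_dv {f g : R d → ℝ} {x : R d} (hf : DifferentiableAt ℝ f x) (hg : DifferentiableAt ℝ g x)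
    (v w : R d) : dv (fun y => f y • v + g y • w) x = fderiv ℝ f x v + fderiv ℝ g x w := by
  have e : ∀ (l : R d →L[ℝ] ℝ) (v : R d), ∑ i, l (EuclideanSpace.single i 1) * v i = l v := by
    intro l v
    conv_rhs => rw [← (EuclideanSpace.basisFun (Fin (d + 1)) ℝ).sum_repr v]
    simp [mul_comm]
  rw [dv, ((hf.hasFDerivAt.smul_const v).fun_add (hg.hasFDerivAt.smul_const w)).fderiv]
  simp [Finset.sum_add_distrib, e]

/-- the two test functions -/
theorem FN_test {a b : R d} {α β : R d →L[ℝ] ℝ} {ε s r : ℝ} (hε : 0 < ε) (hs : 0 < s) {φ : R d → ℝ}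
    (hφ : ContDiff ℝ 1 φ) (h0 : ∀ x, 0 ≤ φ x ∧ φ x ≤ 1)
    (hK : ∀ x, φ x ≠ 0 → s ≤ (α + β) x ∧ (α + β) x ≤ r ∧ ‖FN_p a b α β x‖ ≤ 2) :
    ∃ f g : R d → ℝ, C1c f (FN_O α β ε) ∧ C1c g (FN_O β α ε) ∧ (∀ x, 0 ≤ f x ∧ 0 ≤ g x ∧ f x + g x ≤ 1) ∧
      ∀ x ∈ FN_W α β, f x + g x = φ x := by
  have hm : 0 < ε * s / 8 := by positivity
  let H := Real.smoothTransition
  let ψ : R d → ℝ := fun x => φ x * (H (α x / (ε * s / 8) + 1) * H (β x / (ε * s / 8) + 1))
  let κ : R d → ℝ := fun x => H (α x / (s / 4) - 1)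
  have hH : ContDiff ℝ 1 H := Real.smoothTransition.contDiff
  have hψ : ContDiff ℝ 1 ψ := hφ.mul ((hH.comp ((α.contDiff.div_const _).add contDiff_const)).mul
    (hH.comp ((β.contDiff.div_const _).add contDiff_const)))
  have hκ : ContDiff ℝ 1 κ := hH.comp ((α.contDiff.div_const _).sub contDiff_const)
  have H0 := Real.smoothTransition.nonneg
  have H1 := Real.smoothTransition.le_one
  have ψ0 : ∀ x, 0 ≤ ψ x := fun x => mul_nonneg (h0 x).1 (mul_nonneg (H0 _) (H0 _))
  have hp : ∀ t m : ℝ, 0 < m → H (t / m + 1) ≠ 0 → -m ≤ t := fun t m hm h => by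
    have := not_le.1 (mt Real.smoothTransition.zero_of_nonpos h)
    have := mul_pos hm this
    rw [mul_add, mul_div_cancel₀ _ hm.ne'] at this
    linarith only [this]
  have hS : ∀ (k : R d → ℝ) (Z U : Set (R d)), ContDiff ℝ 1 k → IsClosed Z → (∀ x, k x ≠ 0 → x ∈ Z) →
      (∀ x ∈ Z, -(ε * s / 8) ≤ α x → -(ε * s / 8) ≤ β x → s ≤ α x + β x → x ∈ U) →
      C1c (fun x => ψ x * k x) U := fun k Z U hk hZ h1 h2 => by
    have hc := FN_bdd (a := a) (b := b) (α := α) (β := β) (ε * s / 8) r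
    have h3 : tsupport (fun x => ψ x * k x) ⊆ _ ∩ (Z ∩ {x | s ≤ (α + β) x}) := closure_minimal
      (fun x hx => by
        obtain ⟨b1, b2⟩ := mul_ne_zero_iff.1 hx
        obtain ⟨b3, b4⟩ := mul_ne_zero_iff.1 b1
        obtain ⟨b5, b6⟩ := mul_ne_zero_iff.1 b4
        exact ⟨⟨hp _ _ hm b5, hp _ _ hm b6, (hK x b3).2⟩, h1 x b2, (hK x b3).1⟩)
      (hc.isClosed.inter (hZ.inter (isClosed_le continuous_const (α + β).continuous)))
    exact ⟨hψ.mul hk, hc.of_isClosed_subset (isClosed_tsupport _) (h3.trans inter_subset_left),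
      fun x hx => h2 x (h3 hx).2.1 (h3 hx).1.1 (h3 hx).1.2.1 (h3 hx).2.2⟩
  refine ⟨fun x => ψ x * κ x, fun x => ψ x * (1 - κ x),
    hS κ {x | s / 4 ≤ α x} _ hκ (isClosed_le continuous_const α.continuous) (fun x hx => ?_)
      fun x (h1 : s / 4 ≤ α x) _ h3 _ => ⟨by linarith only [hs, h1], by nlinarith only [hε, hm, h1, h3]⟩,
    hS _ {x | α x ≤ s / 2} _ (contDiff_const.sub hκ) (isClosed_le α.continuous continuous_const)
      (fun x hx => ?_) fun x (h1 : α x ≤ s / 2) h2 _ h4 => ⟨by linarith only [hs, h1, h4], by nlinarith⟩,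
    fun x => ⟨mul_nonneg (ψ0 x) (H0 _), mul_nonneg (ψ0 x) (sub_nonneg.2 (H1 _)), ?_⟩, fun x hx => ?_⟩
  · have := not_le.1 (mt Real.smoothTransition.zero_of_nonpos hx)
    exact ((one_lt_div (by positivity)).1 (sub_pos.1 this)).le
  · have : α x / (s / 4) - 1 < 1 := not_le.1 fun h =>
      hx (sub_eq_zero.2 (Real.smoothTransition.one_of_one_le h).symm)
    rw [sub_lt_iff_lt_add, div_lt_iff₀ (by positivity)] at this
    exact (by linarith : α x ≤ s / 2)
  · rw [← mul_add, add_sub_cancel, mul_one]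
    exact mul_le_one₀ (h0 x).2 (mul_nonneg (H0 _) (H0 _)) (mul_le_one₀ (H1 _) (H0 _) (H1 _))
  · have e : ∀ t, 0 < t → H (t / (ε * s / 8) + 1) = 1 := fun t ht =>
      Real.smoothTransition.one_of_one_le (le_add_of_nonneg_left (by positivity))
    rw [← mul_add, add_sub_cancel, mul_one]
    simp only [ψ, e _ hx.1, e _ hx.2, mul_one]

/-- comparison of the set with the set minus the wedge -/
theorem FN_cmp {Ω : Set (R d)} (h : Min Ω univ) {a b : R d} {α β : R d →L[ℝ] ℝ} (hc : FN_C a b α β)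
    {c S ε s r : ℝ} (h1 : ‖c • a - b‖ ≤ S) (h2 : ‖c • b - a‖ ≤ S) (hε : 0 < ε) (hs : 0 < s)
    (hO : volume ((Ω ∆ FN_W α β) ∩ (FN_O α β ε ∪ FN_O β α ε)) = 0) {φ y : R d → ℝ}
    (hφ : ContDiff ℝ 1 φ) (h0 : ∀ x, 0 ≤ φ x ∧ φ x ≤ 1)
    (hK : ∀ x, φ x ≠ 0 → s ≤ (α + β) x ∧ (α + β) x ≤ r ∧ ‖FN_p a b α β x‖ ≤ 2)
    (hy : IntegrableOn y (FN_W α β)) (hy' : ∀ x ∈ FN_W α β, ‖fderiv ℝ φ x‖ ≤ y x) :
    -∫ x in FN_W α β, fderiv ℝ φ x (a + b) ≤ S * ∫ x in FN_W α β, y x := by
  obtain ⟨f, g, hf, hg, b0, b1⟩ := FN_test hε hs hφ h0 hK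
  have hS : 0 ≤ S := (norm_nonneg _).trans h1
  have hWo := FN_W_open α β
  have hW := hWo.measurableSet
  have hOo := (FN_O_open α β ε).union (FN_O_open β α ε)
  have df := hf.1.differentiable one_ne_zero
  have dg := hg.1.differentiable one_ne_zero
  have hD : ∀ x ∈ FN_W α β, fderiv ℝ (fun x => f x + g x) x = fderiv ℝ φ x := fun x hx =>
    EventuallyEq.fderiv_eq (mem_of_superset (hWo.mem_nhds hx) b1)
  obtain ⟨ρ, hρ⟩ := (hf.2.1.isCompact.union hg.2.1.isCompact).isBounded.subset_ball 0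
  have hz : ∀ x, x ∉ tsupport f ∪ tsupport g → f x + g x = 0 := fun x hx => by
    rw [image_eq_zero_of_notMem_tsupport fun h => hx (Or.inl h),
      image_eq_zero_of_notMem_tsupport fun h => hx (Or.inr h), add_zero]
  have hsub : tsupport f ∪ tsupport g ⊆ FN_O α β ε ∪ FN_O β α ε := union_subset_union hf.2.2 hg.2.2
  have e1 := h.psi (lt_add_one ρ) (subset_univ _) (h.1.diff hW) (hf.1.add hg.1)
    (fun x => add_nonneg (b0 x).1 (b0 x).2.1) (fun x => (b0 x).2.2) fun x hx => hz x fun h => hx (hρ h)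
  have e2 : ∫⁻ x, ENNReal.ofReal (f x + g x) ∂pm (Ω \ FN_W α β) = 0 := by
    rw [← lintegral_add_compl _ hOo.measurableSet, pm_congr (h.1.diff hW) MeasurableSet.empty hOo
      (measure_mono_null (fun x hx => mem_inter (Or.inl (by simpa [mem_symmDiff] using hx.1)) hx.2)
        hO),
      FD_pm_empty, setLIntegral_congr_fun hOo.measurableSet.compl (g := fun _ => 0)
        fun x hx => by simp [hz x fun h => hx (hsub h)]]
    simp only [Measure.restrict_zero, lintegral_zero_measure, compl_union, lintegral_const, MeasurableSet.univ, Measure.restrict_apply, univ_inter, zero_mul, add_zero]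
  have hy0 : ∀ x ∈ FN_W α β, 0 ≤ y x := fun x hx => (norm_nonneg _).trans (hy' x hx)
  have e3 : ∫⁻ x in (Ω \ FN_W α β) ∆ Ω, ‖fderiv ℝ (fun x => f x + g x) x‖ₑ ≤
      ENNReal.ofReal (∫ x in FN_W α β, y x) := by
    rw [ofReal_integral_eq_lintegral_ofReal hy (ae_restrict_of_forall_mem hW hy0)]
    refine (lintegral_mono_set fun x hx => ?_).trans (setLIntegral_mono' hW fun x hx => ?_)
    · simp only [mem_symmDiff, Set.mem_sdiff] at hx
      tauto
    · rw [hD x hx, ← ofReal_norm]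
      exact ENNReal.ofReal_le_ofReal (hy' x hx)
  have e4 := int_dv_le Ω (T := fun x => f x • (c • a - b) + g x • (c • b - a))
    ⟨(hf.1.smul contDiff_const).add (hg.1.smul contDiff_const),
      (hf.2.1.smul_right (f' := fun _ => c • a - b)).add
        (hg.2.1.smul_right (f' := fun _ => c • b - a)), subset_univ _⟩
  have e5 : ∫⁻ x, ‖f x • (c • a - b) + g x • (c • b - a)‖ₑ ∂pm Ω ≤
      ENNReal.ofReal S * ∫⁻ x, ENNReal.ofReal (f x + g x) ∂pm Ω := by
    rw [← lintegral_const_mul' _ _ ENNReal.ofReal_ne_top]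
    refine lintegral_mono fun x => ?_
    rw [← ENNReal.ofReal_mul hS, ← ofReal_norm]
    refine ENNReal.ofReal_le_ofReal ((norm_add_le _ _).trans ?_)
    rw [norm_smul, norm_smul, Real.norm_of_nonneg (b0 x).1, Real.norm_of_nonneg (b0 x).2.1]
    linarith only [mul_le_mul_of_nonneg_left h1 (b0 x).1, mul_le_mul_of_nonneg_left h2 (b0 x).2.1]
  rw [e2, zero_add] at e1
  have e6 := e4.trans (e5.trans (mul_le_mul_right (e1.trans e3) _))
  rw [← ENNReal.ofReal_mul hS, ENNReal.ofReal_le_ofReal_iff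
    (mul_nonneg hS (setIntegral_nonneg hW hy0))] at e6
  refine le_trans (le_of_eq ?_) e6
  simp only [FN_dv (df _) (dg _)]
  have e7 : ∫ x in Ω, (fderiv ℝ f x (c • a - b) + fderiv ℝ g x (c • b - a)) =
      ∫ x in FN_W α β, (fderiv ℝ f x (c • a - b) + fderiv ℝ g x (c • b - a)) := by
    rw [← integral_indicator h.1, ← integral_indicator hW]
    refine integral_congr_ae (mem_of_superset (compl_mem_ae_iff.2 hO) fun x hx => ?_)
    by_cases hx' : x ∈ FN_O α β ε ∪ FN_O β α ε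
    · have : x ∈ Ω ↔ x ∈ FN_W α β := by
        have : x ∉ Ω ∆ FN_W α β := fun h => hx ⟨h, hx'⟩
        rw [mem_symmDiff] at this
        clear * - this
        tauto
      simp only [mem_ofPred_eq, indicator, this]
    · simp [indicator, image_eq_zero_of_notMem_tsupport fun h =>
        hx' (hsub (Or.inl (tsupport_fderiv_subset ℝ h))), image_eq_zero_of_notMem_tsupport fun h =>
        hx' (hsub (Or.inr (tsupport_fderiv_subset ℝ h)))]
  have t1 := FN_tang hc.ba (f := f) ⟨hf.1, hf.2.1, fun x hx => (hf.2.2 hx).1⟩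
  have t2 := FN_tang hc.ab (f := g) ⟨hg.1, hg.2.1, fun x hx => (hg.2.2 hx).1⟩
  rw [← FN_W_comm] at t2
  rw [e7, ← setIntegral_congr_fun hW (f := fun x => fderiv ℝ f x (a + b) + fderiv ℝ g x (a + b))
    fun x hx => by rw [← hD x hx, fderiv_fun_add (df x) (dg x), add_apply]]
  have i1 := fun v => (FN_intg hf v).integrableOn (s := FN_W α β)
  have i2 := fun v => (FN_intg hg v).integrableOn (s := FN_W α β)
  rw [integral_add (i1 _) (i2 _), integral_add (i1 _) (i2 _)]
  simp only [map_add, map_sub, map_smul, smul_eq_mul]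
  rw [integral_add (i1 _) (i1 _), integral_add (i2 _) (i2 _),
    integral_sub ((i1 _).const_mul _) (i1 _), integral_sub ((i2 _).const_mul _) (i2 _),
    integral_const_mul, integral_const_mul, t1, t2]
  ring

theorem FN_core {Ω : Set (R d)} (h : Min Ω univ) {a b : R d} {α β : R d →L[ℝ] ℝ} (hc : FN_C a b α β)
    {c S ε : ℝ} (h1 : ‖c • a - b‖ ≤ S) (h2 : ‖c • b - a‖ ≤ S) (h3 : S * ‖α + β‖ < 2) (hε : 0 < ε) :
    volume ((Ω ∆ FN_W α β) ∩ (FN_O α β ε ∪ FN_O β α ε)) ≠ 0 := by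
  intro hO
  have hS : 0 ≤ S := (norm_nonneg _).trans h1
  have hW := (FN_W_open α β).measurableSet
  let H := Real.smoothTransition
  have hH : ContDiff ℝ 1 H := Real.smoothTransition.contDiff
  let p : ℝ → ℝ := fun t => H (2 - t)
  let q : ℝ → ℝ := fun t => deriv H (2 - t)
  have hp : ContDiff ℝ 1 p := hH.comp (contDiff_const.sub contDiff_id)
  have hq : Continuous q := (hH.continuous_deriv le_rfl).comp (by fun_prop)
  have q0 : ∀ t, 0 ≤ q t := fun t => Real.smoothTransition.monotone.deriv_nonneg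
  have p0 : ∀ t, 0 ≤ p t := fun t => Real.smoothTransition.nonneg _
  have p1 : ∀ t, p t ≤ 1 := fun t => Real.smoothTransition.le_one _
  have p2 : ∀ t, 2 ≤ t → p t = 0 := fun t ht => Real.smoothTransition.zero_of_nonpos (by linarith)
  have p3 : ∀ t, t ≤ 1 → p t = 1 := fun t ht => Real.smoothTransition.one_of_one_le (by linarith only [ht])
  have q2 : ∀ t, 2 < t → q t = 0 := fun t ht => by
    have : H =ᶠ[𝓝 (2 - t)] fun _ => 0 := mem_of_superset (Iio_mem_nhds (sub_neg.2 ht)) fun s hs =>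
      Real.smoothTransition.zero_of_nonpos (le_of_lt hs)
    simp only [q, this.deriv_eq, deriv_const]
  have hpq : ∀ t, HasDerivAt p (-q t) t := fun t =>
    (hH.differentiable one_ne_zero (2 - t)).hasDerivAt.comp_const_sub 2 t
  let γ : ContDiffBump (0 : R d) := ⟨1, 2, one_pos, one_lt_two⟩
  have hγ : ContDiff ℝ 1 γ := γ.contDiff
  let γ' : R d → ℝ := fun z => ‖(fderiv ℝ γ z).comp (FN_p a b α β)‖
  have hγ' : Continuous γ' := ((hγ.continuous_fderiv one_ne_zero).clm_comp continuous_const).norm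
  have γ2 : ∀ z, 2 < ‖z‖ → z ∉ tsupport γ := fun z hz => by
    rw [γ.tsupport_eq, mem_closedBall_zero_iff]
    exact not_le.2 hz
  have γ3 : ∀ z, 2 < ‖z‖ → γ z = 0 := fun z hz => image_eq_zero_of_notMem_tsupport (γ2 z hz)
  have γ4 : ∀ z, 2 < ‖z‖ → γ' z = 0 := fun z hz => by
    simp only [γ', image_eq_zero_of_notMem_tsupport fun h => γ2 z hz (tsupport_fderiv_subset ℝ h),
      ContinuousLinearMap.zero_comp, norm_zero]
  have hab : FN_p a b α β (a + b) = 0 := by
    simp [FN_p_apply, hc.aa, hc.ab, hc.ba, hc.bb]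
  have hu : (α + β) (a + b) = 2 := by
    simp only [add_apply, map_add, hc.aa, hc.ab, hc.ba, hc.bb]; norm_num
  obtain ⟨J, hJ⟩ : ∃ J, J = ∫ x in FN_W α β, q ((α + β) x / 1) * γ (FN_p a b α β x) := ⟨_, rfl⟩
  obtain ⟨I, hI⟩ : ∃ I, I = ∫ x in FN_W α β, p ((α + β) x / 1) * γ' (FN_p a b α β x) := ⟨_, rfl⟩
  have iq := fun r hr => FN_int (a := a) (b := b) (α := α) (β := β) hq q2 hγ.continuous γ3 (r := r) hr
  have ip := fun r hr => FN_int (a := a) (b := b) (α := α) (β := β) hp.continuous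
    (fun t ht => p2 t ht.le) hγ' γ4 (r := r) hr
  have hI0 : 0 ≤ I := hI ▸ integral_nonneg fun x => mul_nonneg (p0 _) (norm_nonneg _)
  have hJ0 : 0 < J := by
    obtain ⟨t, ht, e⟩ := exists_deriv_eq_slope H one_pos hH.continuous.continuousOn
      (hH.differentiable one_ne_zero).differentiableOn
    rw [hJ, setIntegral_pos_iff_support_of_nonneg_ae
      (Eventually.of_forall fun x => mul_nonneg (q0 _) γ.nonneg) (iq 1 one_pos)]
    refine (((hq.comp (by fun_prop)).mul (hγ.continuous.comp (FN_p a b α β).continuous)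
      ).isOpen_support.inter (FN_W_open α β)).measure_pos _ ⟨((2 - t) / 2) • (a + b), ?_, ?_, ?_⟩
    · simp only [Function.mem_support, Pi.mul_apply, Function.comp_apply, map_smul, hab, hu,
        smul_zero, smul_eq_mul, q]
      rw [show 2 - (2 - t) / 2 * 2 / 1 = t by ring, e, γ.one_of_mem_closedBall (by simp only [mem_closedBall, dist_self, zero_le_one, γ])]
      simp [H]
    · simp only [map_smul, map_add, hc.aa, hc.ab, smul_eq_mul]
      linarith only [ht.2]
    · simp only [map_smul, map_add, hc.ba, hc.bb, smul_eq_mul]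
      linarith only [ht.2]
  obtain ⟨N, hN⟩ : ∃ N, N = ‖α + β‖ := ⟨_, rfl⟩
  have hN0 : 0 ≤ N := hN ▸ norm_nonneg _
  rw [← hN] at h3
  have key : ∀ r s : ℝ, 0 < s → s ≤ r → 2 * (r - s) * J ≤ S * (r ^ 2 * I + N * (r + s) * J) := by
    intro r s hs hsr
    have hr := hs.trans_le hsr
    have hd : ∀ x, HasFDerivAt (fun x => (p ((α + β) x / r) - p ((α + β) x / s)) * γ (FN_p a b α β x))
        ((p ((α + β) x / r) - p ((α + β) x / s)) • (fderiv ℝ γ (FN_p a b α β x)).comp (FN_p a b α β) +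
          (γ (FN_p a b α β x) * (q ((α + β) x / s) / s - q ((α + β) x / r) / r)) • (α + β)) x := by
      intro x
      have e : ∀ r : ℝ, HasDerivAt (fun t => p (t / r)) (-q ((α + β) x / r) / r) ((α + β) x) :=
        fun r => ((hpq _).comp _ ((hasDerivAt_id' _).div_const r)).congr_deriv (mul_one_div _ _)
      refine ((((e r).sub (e s)).comp_hasFDerivAt x (α + β).hasFDerivAt).fun_mul
        ((hγ.differentiable one_ne_zero _).hasFDerivAt.comp x (FN_p a b α β).hasFDerivAt)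
        ).congr_fderiv (congrArg₂ _ rfl ?_)
      rw [smul_smul]
      exact congrArg (· • (α + β)) (by rw [Function.comp_apply]; ring)
    have hm : ∀ x, 0 ≤ p ((α + β) x / r) - p ((α + β) x / s) := fun x => by
      rcases le_total ((α + β) x) 0 with h | h
      · rw [p3 _ ((div_nonpos_of_nonpos_of_nonneg h hr.le).trans zero_le_one)]
        exact sub_nonneg.2 (p1 _)
      · exact sub_nonneg.2 (Real.smoothTransition.monotone
          (sub_le_sub_left (div_le_div_of_nonneg_left h hs hsr) 2))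
    have e := FN_cmp h hc h1 h2 hε hs hO (r := 2 * r)
      (φ := fun x => (p ((α + β) x / r) - p ((α + β) x / s)) * γ (FN_p a b α β x))
      (y := fun x => p ((α + β) x / r) * γ' (FN_p a b α β x) +
        (N / r * (q ((α + β) x / r) * γ (FN_p a b α β x)) +
          N / s * (q ((α + β) x / s) * γ (FN_p a b α β x))))
      (((hp.comp ((α + β).contDiff.div_const r)).sub (hp.comp ((α + β).contDiff.div_const s))).mul
        (hγ.comp (FN_p a b α β).contDiff))
      (fun x => ⟨mul_nonneg (hm x) γ.nonneg,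
        mul_le_one₀ (by linarith only [p1 ((α + β) x / r), p0 ((α + β) x / s)]) γ.nonneg γ.le_one⟩)
      (fun x hx => by
        obtain ⟨b1, b2⟩ := mul_ne_zero_iff.1 hx
        refine ⟨not_lt.1 fun h => b1 ?_, not_lt.1 fun h => b1 ?_, not_lt.1 fun h => b2 (γ3 _ h)⟩
        · rw [p3 _ ((div_le_one hr).2 (h.le.trans hsr)), p3 _ ((div_le_one hs).2 h.le), sub_self]
        · rw [p2 _ ((le_div_iff₀ hr).2 h.le), p2 _ ((le_div_iff₀ hs).2 (by linarith only [hsr, h])), sub_self])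
      ((ip r hr).add (((iq r hr).const_mul _).add ((iq s hs).const_mul _)))
      (fun x _ => by
        have b1 := div_nonneg (q0 ((α + β) x / r)) hr.le
        have b2 := div_nonneg (q0 ((α + β) x / s)) hs.le
        rw [(hd x).fderiv]
        refine (norm_add_le _ _).trans (add_le_add ?_ ?_)
        · rw [norm_smul, Real.norm_of_nonneg (hm x)]
          exact mul_le_mul_of_nonneg_right (sub_le_self _ (p0 _)) (norm_nonneg _)
        · rw [norm_smul, ← hN, norm_mul, Real.norm_of_nonneg γ.nonneg]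
          have b3 : ‖q ((α + β) x / s) / s - q ((α + β) x / r) / r‖ ≤
              q ((α + β) x / s) / s + q ((α + β) x / r) / r := abs_le.2 ⟨by linarith only [b2], by linarith only [b1]⟩
          exact (mul_le_mul_of_nonneg_right (mul_le_mul_of_nonneg_left b3 γ.nonneg) hN0).trans
            (le_of_eq (by ring)))
    rw [integral_add (ip r hr) (((iq r hr).const_mul _).fun_add ((iq s hs).const_mul _)),
      integral_add ((iq r hr).const_mul _) ((iq s hs).const_mul _), integral_const_mul,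
      integral_const_mul, integral_congr_ae (g := fun x =>
        2 / s * (q ((α + β) x / s) * γ (FN_p a b α β x)) -
          2 / r * (q ((α + β) x / r) * γ (FN_p a b α β x))) (Eventually.of_forall fun x => by
        simp only [(hd x).fderiv, add_apply (_ • _), smul_apply, ContinuousLinearMap.comp_apply, hab, hu,
          map_zero, smul_eq_mul]
        ring), integral_sub ((iq s hs).const_mul _) ((iq r hr).const_mul _), integral_const_mul,
      integral_const_mul, FN_scale hc hq hγ.continuous hr, FN_scale hc hq hγ.continuous hs,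
      FN_scale hc hp.continuous hγ' hr, ← hI, ← hJ] at e
    refine le_trans (le_of_eq ?_) (e.trans (le_of_eq ?_)) <;> field_simp <;> ring
  have h4 : 0 ≤ S * N := mul_nonneg hS hN0
  have h5 : 0 ≤ S * I := mul_nonneg hS hI0
  obtain ⟨δ, hδ⟩ : ∃ δ, δ = 2 - S * N := ⟨_, rfl⟩
  have hδ0 : 0 < δ := by linarith only [h3, hδ]
  obtain ⟨r, hr⟩ : ∃ r, r = δ * J / (4 * (S * I + 1)) := ⟨_, rfl⟩
  have hr0 : 0 < r := hr ▸ by positivity
  have h6 : r * (4 * (S * I + 1)) = δ * J := hr ▸ div_mul_cancel₀ _ (by positivity)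
  have h7 := key r (δ / 8 * r) (by positivity) (mul_le_of_le_one_left hr0.le (by linarith only [h4, hδ]))
  have h8 : r * (2 * (1 - δ / 8) * J) ≤ r * (r * (S * I) + (2 - δ) * (1 + δ / 8) * J) := by
    rw [show 2 - δ = S * N by linarith only [hδ]]
    linarith only [h7]
  have h9 := le_of_mul_le_mul_left h8 hr0
  have h10 : 0 < δ * J := by positivity
  linarith only [mul_nonneg hδ0.le h10.le, hr0, h6, h9, h10]

/-- minimisers have no classical singularity -/
theorem ka_nocl (h2 : 2 ≤ d) : ∀ (W : Vf d) L a b (Λ : ℝ), KA univ W →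
    (∀ ρ : ℝ, 0 < ρ → W.fst (ball 0 ρ) ≤ ENNReal.ofReal (Λ * ρ ^ d)) →
    Con W univ L → ¬ Wedge W.fst.support L a b := by
  rintro W L a b Λ ⟨-, Ω, hΩ, he⟩ - - h
  rw [Measure.restrict_univ, Measure.restrict_univ] at he
  rw [he] at h
  obtain ⟨α, β, c, S, hc, hL, h1, h2, h3⟩ := FN_coord h
  have h4 : pm Ω (FN_W α β) = 0 := FN_pm_zero (disjoint_left.2 fun x hx hM =>
    h.gap _ _ hx.1 hx.2 _ (hL x) (by rwa [show α x • a + β x • b + (x - α x • a - β x • b) = x by abel]))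
  wlog h5 : volume (FN_W α β \ Ω) = 0 generalizing Ω
  · refine this Ωᶜ hΩ.compl (by rwa [pm_compl hΩ.1]) (by rwa [pm_compl hΩ.1])
      (by rwa [pm_compl hΩ.1]) ?_
    rw [Set.sdiff_compl, inter_comm]
    exact (const_of_pm hΩ.1 (FN_W_open α β) ((convex_halfSpace_gt (α : R d →ₗ[ℝ] ℝ).isLinear 0).inter
      (convex_halfSpace_gt (β : R d →ₗ[ℝ] ℝ).isLinear 0)).isPreconnected h4).resolve_right h5
  obtain ⟨ε, hε, h6⟩ := FN_side hΩ.1 h hc hL h5
  obtain ⟨ε', hε', h7⟩ := FN_side hΩ.1 (a := b) (b := a) (α := β) (β := α)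
    ⟨h.rk, h.nb, h.na, h.ob, h.oa, h.ne.symm, fun e => h.ne' (by rw [e, neg_neg]), h.mb, h.ma, h.tr,
      h.dil, fun s t hs ht z hz => add_comm (t • a) (s • b) ▸ h.gap t s ht hs z hz, h.fl⟩
    ⟨hc.bb, hc.ba, hc.ab, hc.aa⟩ (fun x => sub_right_comm x _ _ ▸ hL x) (FN_W_comm α β ▸ h5)
  rw [← FN_W_comm] at h7
  refine FN_core hΩ hc h1 h2 h3 (lt_min hε hε') (measure_mono_null (fun x hx => ?_)
    (measure_union_null h6 h7))
  rcases hx.2 with b1 | b1
  · exact Or.inl ⟨hx.1, b1.1, b1.2.trans_le (add_le_add le_rfl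
      (mul_le_mul_of_nonneg_right (min_le_left _ _) b1.1.le))⟩
  · exact Or.inr ⟨hx.1, b1.1, b1.2.trans_le (add_le_add le_rfl
      (mul_le_mul_of_nonneg_right (min_le_right _ _) b1.1.le))⟩

end Pool.Agent.MP_5cfeaf_gt.W

end

section

/-! Block E, definitions. -/

set_option autoImplicit false

open MeasureTheory Set Filter Topology Metric
open scoped ENNReal symmDiff Classical InnerProductSpace ContDiff

namespace Pool.Agent.MP_5cfeaf_gt.W

variable {d : ℕ}

/-- homogeneity of degree `d` along rays inside `O` -/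
def EHom (μ : Measure (R d)) (O : Set (R d)) : Prop :=
  ∀ A : Set (R d), IsOpen A → ∀ t : ℝ, 1 ≤ t → (∀ s ∈ Icc 1 t, ∀ x ∈ A, s • x ∈ O) →
    (μ.restrict A).map (fun x => t • x) =
      ENNReal.ofReal ((t ^ d)⁻¹) • μ.restrict ((fun x => t • x) '' A)

/-- identity isometry -/
noncomputable abbrev Eid (d : ℕ) : R d ≃ₗᵢ[ℝ] R d := LinearIsometryEquiv.refl ℝ (R d)

/-- centres of the normalised test balls -/
noncomputable def Etc (j : Fin (d + 1)) : R d := EuclideanSpace.single j (1 / 2)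

/-- radius of the normalised test balls -/
noncomputable def Etr (d : ℕ) : ℝ := 1 / (4 * (d + 1))

end Pool.Agent.MP_5cfeaf_gt.W

end

section

/-! Block E, file 2: limits of almost minimising sets are stationary. -/

set_option autoImplicit false

open MeasureTheory Set Filter Topology Metric
open scoped ENNReal symmDiff Classical InnerProductSpace ContDiff

namespace Pool.Agent.MP_5cfeaf_gt.W

variable {d : ℕ}

theorem E2_fderiv {X : R d → R d} {A : Set (R d)} (hX : C1c X A) (t : ℝ) (x : R d) :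
    fderiv ℝ (fun x => t • X x) x = t • fderiv ℝ X x :=
  ((hX.1.differentiable one_ne_zero x).hasFDerivAt.const_smul t).fderiv

theorem E2_smul {X : R d → R d} {A : Set (R d)} (hX : C1c X A) (t : ℝ) :
    C1c (fun x => t • X x) A := by
  have h : tsupport (fun x => t • X x) ⊆ tsupport X := tsupport_smul_subset_right (fun _ => t) X
  exact ⟨hX.1.const_smul t, hX.2.1.of_isClosed_subset (isClosed_tsupport _) h, h.trans hX.2.2⟩

theorem E2_half {X : R d → R d} {A : Set (R d)} (hX : C1c X A) (hb : ∀ x, ‖fderiv ℝ X x‖ ≤ 1)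
    {t : ℝ} (h0 : 0 ≤ t) (x : R d) : ‖fderiv ℝ (fun x => t • X x) x‖ ≤ t := by
  rw [E2_fderiv hX, norm_smul, Real.norm_of_nonneg h0]
  exact mul_le_of_le_one_right h0 (hb x)

theorem E2_divT_smul {X : R d → R d} {A : Set (R d)} (hX : C1c X A) (t : ℝ) (p : R d × S d) :
    divT (fun x => t • X x) p = t * divT X p := by
  simp only [divT, dv, E2_fderiv hX, smul_apply, inner_smul_right,
    PiLp.smul_apply, smul_eq_mul, ← Finset.mul_sum, mul_sub]

theorem E2_cont {X : R d → R d} (hX : ContDiff ℝ 1 X) : Continuous (divT X) := by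
  have h := hX.continuous_fderiv one_ne_zero
  unfold divT dv
  fun_prop

theorem E2_zero {X : R d → R d} {A : Set (R d)} (hX : C1c X A) {p : R d × S d} (hp : p.1 ∉ A) :
    divT X p = 0 := by
  have h : fderiv ℝ X p.1 = 0 := by
    by_contra h
    exact hp (hX.2.2 (support_fderiv_subset ℝ h))
  simp [divT, dv, h]

theorem E2_diffeo {X : R d → R d} {A : Set (R d)} (hX : C1c X A) (hb : ∀ x, ‖fderiv ℝ X x‖ ≤ 1)
    {t : ℝ} (h0 : 0 ≤ t) (h1 : t ≤ 1 / 2) : ∃ φ : R d ≃ₜ R d, ⇑φ = (fun x => x + t • X x) ∧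
      ContDiff ℝ 1 φ ∧ ContDiff ℝ 1 φ.symm ∧ ∀ U, A ⊆ U → φ '' U = U := by
  have h := E2_smul hX t
  obtain ⟨φ, e, a, b, c, -⟩ := exists_diffeo ⟨h.1, h.2.1, subset_univ _⟩
    fun x => (E2_half hX hb h0 x).trans h1
  exact ⟨φ, funext e, a, b, fun U hU => c U (h.2.2.trans hU)⟩

theorem E2_map_le {α β : Type} [MeasurableSpace α] [MeasurableSpace β] (μ : Measure α) (g : α → β)
    {s : Set β} (hs : MeasurableSet s) : μ.map g s ≤ μ (g ⁻¹' s) := by
  by_cases h : AEMeasurable g μ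
  · exact (Measure.map_apply_of_aemeasurable h hs).le
  · simp [Measure.map_of_not_aemeasurable h]

theorem E2_fvar (d : ℕ) : ∃ C > 0, ∀ (Ω O A : Set (R d)) (X : R d → R d) (t : ℝ), MeasurableSet Ω →
    IsOpen O → O ⊆ lf Ω → IsCompact A → A ⊆ O → C1c X A → (∀ x, ‖fderiv ℝ X x‖ ≤ 1) → 0 ≤ t →
    t ≤ 1 / 2 → 0 ≤ (pm Ω A).toReal + t * ∫ p, divT X p ∂vf Ω O + C * t ^ 2 * (pm Ω A).toReal ∧
      pm ((fun x => x + t • X x) '' Ω) A ≤ ENNReal.ofReal ((pm Ω A).toReal +
        t * ∫ p, divT X p ∂vf Ω O + C * t ^ 2 * (pm Ω A).toReal) := by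
  obtain ⟨C, hC, hc⟩ := cofv_expand d
  refine ⟨C, hC, fun Ω O A X t hΩ hO hl hA hAO hX hb h0 h1 => ?_⟩
  obtain ⟨φ, e, c1, c2, hφ⟩ := E2_diffeo hX hb h0 h1
  have mA := hA.measurableSet
  have ms : MeasurableSet (Prod.fst ⁻¹' A : Set (R d × S d)) := measurable_fst mA
  have hV : vf Ω O (Prod.fst ⁻¹' A) = pm Ω A := by
    rw [← Measure.fst_apply mA, vf_fst, Measure.restrict_eq_self _ hAO]
  have hfin : vf Ω O (Prod.fst ⁻¹' A) ≠ ⊤ := hV ▸ (pm_lt_top hA (hAO.trans hl)).ne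
  have hD : ∀ x, fderiv ℝ φ x = 1 + fderiv ℝ (fun x => t • X x) x := fun x => by
    rw [e]
    exact ((hasFDerivAt_id x).add
      ((E2_smul hX t).1.differentiable one_ne_zero x).hasFDerivAt).fderiv
  have hf : ∀ p : R d × S d, ‖cofv (fderiv ℝ φ p.1) p.2‖ ≤ 1 + t * divT X p + C * t ^ 2 := by
    intro p
    have a1 := E2_half hX hb h0 p.1
    have a2 := (abs_le.1 (hc _ 0 p.2 (a1.trans h1) (by simp)).1).2
    have a3 := E2_divT_smul hX t p
    have a4 := mul_le_mul_of_nonneg_left (pow_le_pow_left₀ (norm_nonneg _) a1 2) hC.le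
    rw [hD]
    unfold divT dv at a3
    unfold divT dv
    linarith only [a2, a3, a4]
  have hi : IntegrableOn (divT X) (Prod.fst ⁻¹' A) (vf Ω O) := by
    obtain ⟨M, hM⟩ := (hA.prod (isCompact_univ (X := S d))).exists_bound_of_continuousOn
      (E2_cont hX.1).continuousOn
    exact Measure.integrableOn_of_bounded hfin (E2_cont hX.1).aestronglyMeasurable
      ((ae_restrict_mem ms).mono fun p hp => hM p ⟨hp, trivial⟩)
  have i1 : ∀ c : ℝ, IntegrableOn (fun _ => c) (Prod.fst ⁻¹' A) (vf Ω O) := fun c =>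
    integrableOn_const hfin
  have i2 : IntegrableOn (fun p => 1 + t * divT X p) (Prod.fst ⁻¹' A) (vf Ω O) :=
    (i1 1).add (hi.const_mul t)
  have hI : ∫ p in Prod.fst ⁻¹' A, (1 + t * divT X p + C * t ^ 2) ∂vf Ω O = (pm Ω A).toReal +
      t * ∫ p, divT X p ∂vf Ω O + C * t ^ 2 * (pm Ω A).toReal := by
    rw [integral_add i2 (i1 _), integral_add (i1 1) (hi.const_mul t), integral_const_mul,
      setIntegral_eq_integral_of_forall_compl_eq_zero (f := divT X) (s := Prod.fst ⁻¹' A)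
        fun p hp => E2_zero hX hp]
    simp only [setIntegral_const, Measure.real, hV, smul_eq_mul]
    ring
  rw [← hI]
  refine ⟨integral_nonneg fun p => (norm_nonneg _).trans (hf p), ?_⟩
  have i3 : IntegrableOn (fun p => 1 + t * divT X p + C * t ^ 2) (Prod.fst ⁻¹' A) (vf Ω O) :=
    i2.add (i1 _)
  rw [ofReal_integral_eq_lintegral_ofReal i3
    (ae_of_all _ fun p => (norm_nonneg _).trans (hf p)), ← e]
  have h2 := (vf_image hΩ hO hl φ c1 c2).2
  rw [hφ O hAO] at h2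
  rw [← Measure.restrict_eq_self _ hAO, ← vf_fst, Measure.fst_apply mA, h2]
  refine (E2_map_le _ _ ms).trans ?_
  have h3 : (fun p : R d × S d => (φ p.1, toS (cofv (fderiv ℝ φ p.1) p.2))) ⁻¹'
      (Prod.fst ⁻¹' A) = Prod.fst ⁻¹' A := by
    conv_lhs => rw [← hφ A Subset.rfl]
    ext p
    exact φ.injective.mem_set_image
  rw [h3, withDensity_apply _ ms]
  exact lintegral_mono fun p => ENNReal.ofReal_le_ofReal (hf p)

theorem E2_main {O U : Set (R d)} {W : Vf d} (hO : IsOpen O) (hUb : Bornology.IsBounded U)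
    (hUO : closure U ⊆ O) (h : KAM O U W) {X : R d → R d} (hX : C1c X U)
    (hb : ∀ x, ‖fderiv ℝ X x‖ ≤ 1) {κ : ℝ} (hκ : 0 < κ) (hI : ∫ p, divT X p ∂W < -(2 * κ)) :
    False := by
  obtain ⟨-, 𝓤, h1, h2, h3, h4⟩ := h
  obtain ⟨C, hC, hv⟩ := E2_fvar d
  have hK := hUb.isCompact_closure
  have hXK : C1c X (closure U) := ⟨hX.1, hX.2.1, hX.2.2.trans subset_closure⟩
  obtain ⟨C₀, hC₀, h5⟩ := h3 _ hK hUO
  have h6 := (h4.divT ⟨hX.1, hX.2.1, hXK.2.2.trans hUO⟩).eventually (gt_mem_nhds hI)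
  obtain ⟨T, T0, T1, T2⟩ : ∃ T : ℝ, 0 < T ∧ T ≤ 1 / 2 ∧ T * (C * C₀.toReal + 1) ≤ κ :=
    ⟨min (1 / 2) (κ / (C * C₀.toReal + 1)), by positivity, min_le_left _ _,
      (le_div_iff₀ (by positivity)).1 (min_le_right _ _)⟩
  obtain ⟨Ω, ⟨hΩ, hl⟩, ⟨δ, -, η, hη, hAM⟩, h5, h6⟩ :=
    (h1.and ((h2 (T * κ) (by positivity)).and (h5.and h6))).exists
  rw [vf_fst, Measure.restrict_eq_self _ hUO] at h5
  have hP : (pm Ω (closure U)).toReal ≤ C₀.toReal := ENNReal.toReal_mono hC₀.ne h5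
  have key : ∀ t : ℝ, 0 ≤ t → t ≤ T → pm ((fun x => x + t • X x) '' Ω) (closure U) +
      ENNReal.ofReal (t * κ) ≤ pm Ω (closure U) := by
    intro t t0 t1
    obtain ⟨a, b⟩ := hv Ω O _ X t hΩ hO hl hK hUO hXK hb t0 (t1.trans T1)
    refine (add_le_add_left b _).trans ?_
    rw [← ENNReal.ofReal_add a (by positivity)]
    refine ENNReal.ofReal_le_of_le_toReal ?_
    have a1 := mul_le_mul_of_nonneg_left h6.le t0
    have a2 : t * (t * (C * (pm Ω (closure U)).toReal)) ≤ t * κ := by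
      refine mul_le_mul_of_nonneg_left (le_trans ?_ T2) t0
      gcongr
      exact (mul_le_mul_of_nonneg_left hP hC.le).trans (by linarith only [T0, T1])
    linarith only [a1, a2]
  obtain ⟨σ, σ0, hσ⟩ := image_cont hΩ hK hη
  obtain ⟨M, hM⟩ := hX.1.continuous.bounded_above_of_compact_support hX.2.1
  obtain ⟨N, hN⟩ := exists_nat_gt (T * M / σ)
  have M0 : 0 ≤ M := (norm_nonneg _).trans (hM 0)
  have N0 : (0 : ℝ) < N := lt_of_le_of_lt (by positivity) hN
  have ht : ∀ j ≤ N, 0 ≤ (j : ℝ) * (T / N) ∧ (j : ℝ) * (T / N) ≤ T := fun j hj =>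
    ⟨by positivity, (mul_le_mul_of_nonneg_right (Nat.cast_le.2 hj) (by positivity)).trans_eq
      (mul_div_cancel₀ _ N0.ne')⟩
  refine hAM ⟨N, fun j => (fun x => x + ((j : ℝ) * (T / N)) • X x) '' Ω, by simp,
    fun j hj => ?_, fun j hj => ?_, ?_⟩
  · obtain ⟨t0, t1⟩ := ht j hj
    obtain ⟨φ, e, -, -, -⟩ := E2_diffeo hX hb t0 (t1.trans T1)
    beta_reduce
    refine ⟨e ▸ φ.measurableEmbedding.measurableSet_image.2 hΩ, fun x hx => ?_,
      (le_self_add.trans (key _ t0 t1)).trans le_self_add⟩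
    by_contra hU
    have e1 : φ x = x := by
      simp [e, image_eq_zero_of_notMem_tsupport fun h => hU (hX.2.2 h)]
    have e2 : x ∈ φ '' Ω ↔ x ∈ Ω := by
      conv_lhs => rw [← e1]
      exact φ.injective.mem_set_image
    rw [← e, mem_symmDiff, e2] at hx
    tauto
  · obtain ⟨t0, t1⟩ := ht j hj.le
    obtain ⟨s0, s1⟩ := ht (j + 1) hj
    refine hσ _ _ (E2_smul hXK _) (E2_smul hXK _)
      (fun x => (E2_half hX hb t0 x).trans (t1.trans T1))
      (fun x => (E2_half hX hb s0 x).trans (s1.trans T1)) fun x => ?_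
    rw [← norm_neg, neg_sub, ← sub_smul, Nat.cast_succ, add_one_mul, add_sub_cancel_left, norm_smul,
      Real.norm_of_nonneg (by positivity)]
    refine (mul_le_mul_of_nonneg_left (hM x) (by positivity)).trans ?_
    rw [div_lt_iff₀ σ0] at hN
    rw [div_mul_eq_mul_div, div_le_iff₀ N0]
    linarith only [hN]
  · simpa only [mul_div_cancel₀ _ N0.ne'] using key T T0.le le_rfl

/-- If `∫ divT X dW ≠ 0`, normalise (`X ↦ c • X`, `divT` is linear in `X`, `fderiv X` is bounded) to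
`‖DX‖ ≤ 1`, `∫ divT X dW = -κ < 0`.  Eventually along the ultrafilter `∫ divT X d(vf Ω O) < -κ/2`
(`VConv.divT`) and `pm Ω (closure U) ≤ C₀` (`LocBd`, `vf_fst`).  With `t₀ ≤ 1/2`, `C t₀ C₀ ≤ κ/4`, `E_fvar` for
`A = closure U` gives `pm (φ_t Ω) A ≤ pm Ω A - t κ/4` for `0 ≤ t ≤ t₀`.  The chain
`F j = φ_(j t₀/N) '' Ω` (measurable: image under a homeomorphism; `F j ∆ Ω ⊆ tsupport X`; fine by
`image_cont` for `N` large) contradicts `AM Ω U (t₀ κ/4) δ η`. -/
theorem E_kam_stat {O U : Set (R d)} {W : Vf d} (hO : IsOpen O) (hU : IsOpen U)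
    (hUb : Bornology.IsBounded U) (hUO : closure U ⊆ O) (h : KAM O U W) : Stat W U := by
  refine ⟨fun K hK hKU => h.1 K hK (hKU.trans (subset_closure.trans hUO)), fun X hX => ?_⟩
  by_contra hne
  obtain ⟨L, hL⟩ := (hX.1.continuous_fderiv one_ne_zero).bounded_above_of_compact_support
    (hX.2.1.fderiv ℝ)
  have L0 : 0 ≤ L := (norm_nonneg _).trans (hL 0)
  obtain ⟨I, hI⟩ : ∃ I, I = ∫ p, divT X p ∂W := ⟨_, rfl⟩
  rw [← hI] at hne
  have M0 : 0 < |I| * L + 1 := by positivity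
  have h1 : 0 < I * I / (|I| * L + 1) := div_pos (mul_self_pos.2 hne) M0
  refine E2_main hO hUb hUO h (E2_smul hX (-I / (|I| * L + 1))) (fun x => ?_)
    (κ := I * I / (|I| * L + 1) / 4) (by positivity) ?_
  · rw [E2_fderiv hX, norm_smul, norm_div, norm_neg, Real.norm_of_nonneg M0.le, Real.norm_eq_abs,
      div_mul_eq_mul_div, div_le_one M0]
    linarith [mul_le_mul_of_nonneg_left (hL x) (abs_nonneg I)]
  · simp only [E2_divT_smul hX]
    rw [integral_const_mul, ← hI, div_mul_eq_mul_div, neg_mul, neg_div]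
    linarith only [h1]

end Pool.Agent.MP_5cfeaf_gt.W

end

section

/-! Block E, file 3: closure properties of the class of almost minimising limits. -/

set_option autoImplicit false

open MeasureTheory Set Filter Topology Metric
open scoped ENNReal symmDiff Classical InnerProductSpace ContDiff

namespace Pool.Agent.MP_5cfeaf_gt.W

variable {d : ℕ}

theorem E_am_mono {Ω U : Set (R d)} {ε ε' δ η : ℝ} (h : AM Ω U ε δ η) (he : ε ≤ ε') :
    AM Ω U ε' δ η := by
  rintro ⟨N, F, h0, h1, h2, h3⟩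
  exact h ⟨N, F, h0, h1, h2, le_trans (add_le_add le_rfl (ENNReal.ofReal_le_ofReal he)) h3⟩

/-- Pull a chain back by the inverse of the homeomorphism `exists_simH` (write every chain member as
`simP r x Q '' G`); `pm_sim`, `vol_sim`, `Homeomorph.image_closure`, images commute with `∆`. -/
theorem E_am_sim {Ω U : Set (R d)} (hΩ : MeasurableSet Ω) {ε δ η r : ℝ} (hr : 0 < r) (x : R d)
    (Q : R d ≃ₗᵢ[ℝ] R d) (h : AM Ω U ε δ η) :
    AM (simP r x Q '' Ω) (simP r x Q '' U) ((r ^ d)⁻¹ * ε) ((r ^ d)⁻¹ * δ) ((r ^ (d + 1))⁻¹ * η) := by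
  obtain ⟨φ, hφ, -⟩ := exists_simH hr x Q
  have hφ' : simP r x Q = φ := funext fun y => (hφ y).symm
  rintro ⟨N, F, h0, h1, h2, h3⟩
  have hc : (0 : ℝ) < (r ^ d)⁻¹ := by positivity
  have hc' : (0 : ℝ) < (r ^ (d + 1))⁻¹ := by positivity
  have hc0 : ENNReal.ofReal ((r ^ d)⁻¹) ≠ 0 := by simpa only [ne_eq, ENNReal.ofReal_eq_zero, inv_nonpos, not_le, inv_pos] using hc
  have hc0' : ENNReal.ofReal ((r ^ (d + 1))⁻¹) ≠ 0 := by simpa only [ne_eq, ENNReal.ofReal_eq_zero, inv_nonpos, not_le, inv_pos] using hc'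
  have him : ∀ A : Set (R d), simP r x Q '' (φ ⁻¹' A) = A := fun A => by
    rw [hφ']; exact image_preimage_eq A φ.surjective
  have hcl : closure (simP r x Q '' U) = simP r x Q '' closure U := by
    rw [hφ']; exact (φ.image_closure U).symm
  have hpm : ∀ A : Set (R d), MeasurableSet A → pm A (closure (simP r x Q '' U)) =
      ENNReal.ofReal ((r ^ d)⁻¹) * pm (φ ⁻¹' A) (closure U) := fun A hA => by
    rw [hcl, ← pm_sim (hA.preimage φ.continuous.measurable) (closure U) hr x Q, him]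
  have hΩ' : pm (simP r x Q '' Ω) (closure (simP r x Q '' U)) =
      ENNReal.ofReal ((r ^ d)⁻¹) * pm Ω (closure U) := by
    rw [hcl, pm_sim hΩ (closure U) hr x Q]
  have hpre : ∀ A : Set (R d), φ ⁻¹' (simP r x Q '' A) = A := fun A => by
    rw [hφ']; exact preimage_image_eq A φ.injective
  refine h ⟨N, fun j => φ ⁻¹' F j, ?_, fun j hj => ⟨?_, ?_, ?_⟩, fun j hj => ?_, ?_⟩
  · show φ ⁻¹' F 0 = Ω
    rw [h0, hpre]
  · exact (h1 j hj).1.preimage φ.continuous.measurable
  · have := preimage_mono (f := φ) (h1 j hj).2.1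
    rwa [preimage_symmDiff, hpre, hpre] at this
  · have := (h1 j hj).2.2
    rw [hpm _ (h1 j hj).1, hΩ', ENNReal.ofReal_mul hc.le, ← mul_add] at this
    exact (ENNReal.mul_le_mul_iff_right hc0 ENNReal.ofReal_ne_top).1 this
  · have := h2 j hj
    rw [← him (F j ∆ F (j + 1)), vol_sim _ hr, ENNReal.ofReal_mul hc'.le, preimage_symmDiff] at this
    exact (ENNReal.mul_le_mul_iff_right hc0' ENNReal.ofReal_ne_top).1 this
  · rw [hpm _ (h1 N le_rfl).1, hΩ', ENNReal.ofReal_mul hc.le, ← mul_add] at h3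
    exact (ENNReal.mul_le_mul_iff_right hc0 ENNReal.ofReal_ne_top).1 h3

/-- use `𝓥.map Ω` -/
theorem E_kam_of {ι : Type} (𝓥 : Ultrafilter ι) (Ω : ι → Set (R d)) {O U : Set (R d)} {W : Vf d}
    (hW : LocFin W O) (hm : ∀ᶠ i in (𝓥 : Filter ι), MeasurableSet (Ω i) ∧ O ⊆ lf (Ω i))
    (ha : ∀ ε > 0, ∀ᶠ i in (𝓥 : Filter ι), ∃ δ > 0, ∃ η > 0, AM (Ω i) U ε δ η)
    (hb : LocBd (𝓥 : Filter ι) (fun i => vf (Ω i) O) O)
    (hc : VConv (𝓥 : Filter ι) (fun i => vf (Ω i) O) W O) : KAM O U W := by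
  refine ⟨hW, 𝓥.map Ω, ?_, fun ε hε => ?_, fun K hK hKO => ?_, fun g hg hK => ?_⟩
  · rw [Ultrafilter.coe_map, eventually_map]; exact hm
  · rw [Ultrafilter.coe_map, eventually_map]; exact ha ε hε
  · obtain ⟨C, hC, h⟩ := hb K hK hKO
    refine ⟨C, hC, ?_⟩
    rw [Ultrafilter.coe_map, eventually_map]; exact h
  · rw [Ultrafilter.coe_map, tendsto_map'_iff]; exact hc g hg hK

/-- `vf_restrict`, `VConv.mono`, `VConv.congr`, `vf_fst` -/
theorem E_kam_mono {O O' U : Set (R d)} {W : Vf d} (h : KAM O U W) (hO' : IsOpen O') (hO : O' ⊆ O) :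
    KAM O' U W := by
  obtain ⟨hW, 𝓤, hm, ha, hb, hc⟩ := h
  refine ⟨fun K hK hKO => hW K hK (hKO.trans hO), 𝓤, ?_, ha, fun K hK hKO => ?_, ?_⟩
  · filter_upwards [hm] with Ω hΩ
    exact ⟨hΩ.1, hO.trans hΩ.2⟩
  · obtain ⟨C, hC, h⟩ := hb K hK (hKO.trans hO)
    refine ⟨C, hC, ?_⟩
    filter_upwards [h] with Ω hΩ
    refine le_trans ?_ hΩ
    rw [vf_fst, vf_fst]
    exact Measure.restrict_mono hO le_rfl K
  · refine (hc.mono hO).congr fun K hK hKO => Eventually.of_forall fun Ω => ?_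
    rw [vf_restrict Ω hK.measurableSet (hKO.trans hO), vf_restrict Ω hK.measurableSet hKO]

/-- `E_kam_of` with `Ω ↦ simP r x Q '' Ω`; `vf_sim`, `LocBd.sim`, `VConv.sim`, `LocFin.sim`, `E_am_sim`
(use `Tendsto.congr'` / `filter_upwards`, the identity `vf_sim` holds only eventually) -/
theorem E_kam_sim {O U : Set (R d)} {W : Vf d} (hO : IsOpen O) (h : KAM O U W) {r : ℝ} (hr : 0 < r)
    (x : R d) (Q : R d ≃ₗᵢ[ℝ] R d) : KAM (simP r x Q '' O) (simP r x Q '' U) (simV r x Q W) := by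
  obtain ⟨hW, 𝓤, hm, ha, hb, hc⟩ := h
  obtain ⟨φ, hφ, -⟩ := exists_simH hr x Q
  have hφ' : simP r x Q = φ := funext fun y => (hφ y).symm
  have he : ∀ᶠ Ω in (𝓤 : Filter (Set (R d))),
      simV r x Q (vf Ω O) = vf (simP r x Q '' Ω) (simP r x Q '' O) := by
    filter_upwards [hm] with Ω hΩ
    exact (vf_sim hΩ.1 hO hΩ.2 hr x Q).2.symm
  refine E_kam_of 𝓤 (fun Ω => simP r x Q '' Ω) (hW.sim hr x Q) ?_ (fun ε hε => ?_)
    (fun K hK hKO => ?_) (fun g hg hK => ?_)
  · filter_upwards [hm] with Ω hΩ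
    refine ⟨?_, (vf_sim hΩ.1 hO hΩ.2 hr x Q).1⟩
    rw [hφ']
    exact φ.measurableEmbedding.measurableSet_image.2 hΩ.1
  · have hp : (0 : ℝ) < r ^ d := by positivity
    filter_upwards [hm, ha (r ^ d * ε) (mul_pos hp hε)] with Ω hΩ hA
    obtain ⟨δ, hδ, η, hη, hA⟩ := hA
    refine ⟨(r ^ d)⁻¹ * δ, by positivity, (r ^ (d + 1))⁻¹ * η, by positivity, ?_⟩
    have := E_am_sim hΩ.1 hr x Q hA
    rwa [← mul_assoc, inv_mul_cancel₀ hp.ne', one_mul] at this
  · obtain ⟨C, hC, h⟩ := hb.sim hr x Q K hK hKO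
    refine ⟨C, hC, ?_⟩
    filter_upwards [h, he] with Ω h1 h2
    rw [← h2]; exact h1
  · refine (hc.sim hr x Q g hg hK).congr' ?_
    filter_upwards [he] with Ω h2
    rw [← h2]

/-- choose the ultrafilters `𝓤 i` (junk where `KAM` fails) and take `𝓥.bind 𝓤` (`Ultrafilter.bind`,
`Filter.eventually_bind`); `LocBd`: `VConv.limsup_le` gives the bound `C + 1` eventually. -/
theorem E_kam_lim {ι : Type} (𝓥 : Ultrafilter ι) {V : ι → Vf d} {W : Vf d} {O U : Set (R d)}
    (hO : IsOpen O) (hV : ∀ᶠ i in (𝓥 : Filter ι), KAM O U (V i)) (hb : LocBd (𝓥 : Filter ι) V O)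
    (hc : VConv (𝓥 : Filter ι) V W O) (hW : LocFin W O) : KAM O U W := by
  have hex : ∀ i, ∃ 𝓤 : Ultrafilter (Set (R d)), KAM O U (V i) →
      (∀ᶠ Ω in (𝓤 : Filter (Set (R d))), MeasurableSet Ω ∧ O ⊆ lf Ω) ∧
      (∀ ε > 0, ∀ᶠ Ω in (𝓤 : Filter (Set (R d))), ∃ δ > 0, ∃ η > 0, AM Ω U ε δ η) ∧
      LocBd (𝓤 : Filter (Set (R d))) (fun Ω => vf Ω O) O ∧
      VConv (𝓤 : Filter (Set (R d))) (fun Ω => vf Ω O) (V i) O := fun i => by
    by_cases hi : KAM O U (V i)
    · obtain ⟨𝓤, h⟩ := hi.2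
      exact ⟨𝓤, fun _ => h⟩
    · exact ⟨pure ∅, fun h => absurd h hi⟩
  choose 𝓤 h𝓤 using hex
  have hbind : ∀ p : Set (R d) → Prop,
      (∀ᶠ i in (𝓥 : Filter ι), ∀ᶠ Ω in (𝓤 i : Filter (Set (R d))), p Ω) →
      ∀ᶠ Ω in ((𝓥.bind 𝓤 : Ultrafilter (Set (R d))) : Filter (Set (R d))), p Ω := fun p hp =>
    Filter.eventually_bind.2 hp
  refine ⟨hW, 𝓥.bind 𝓤, hbind _ ?_, fun ε hε => hbind _ ?_, fun K hK hKO => ?_, fun g hg hK => ?_⟩
  · filter_upwards [hV] with i hi
    exact (h𝓤 i hi).1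
  · filter_upwards [hV] with i hi
    exact (h𝓤 i hi).2.1 ε hε
  · obtain ⟨C, hC, h⟩ := hb K hK hKO
    refine ⟨C + 1, ENNReal.add_lt_top.2 ⟨hC, ENNReal.one_lt_top⟩, hbind _ ?_⟩
    filter_upwards [hV, h] with i hi h1
    have h2 := (h𝓤 i hi).2.2.2.limsup_le hO (h𝓤 i hi).2.2.1 hi.1 hK hKO
    have h3 : C < C + 1 := ENNReal.lt_add_right hC.ne one_ne_zero
    exact (eventually_lt_of_limsup_lt (lt_of_le_of_lt (h2.trans h1) h3)).mono fun Ω h => h.le
  · refine tendsto_nhds.2 fun s hs hmem => hbind (fun Ω => ∫ p, g p ∂vf Ω O ∈ s) ?_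
    filter_upwards [hV, (hc g hg hK).eventually (hs.mem_nhds hmem)] with i hi h1
    exact ((h𝓤 i hi).2.2.2 g hg hK).eventually (hs.mem_nhds h1)

theorem E3_simP (r : ℝ) (y : R d) : simP r 0 (Eid d) y = r⁻¹ • y := by
  simp [simP]

/-- `ae_smul_measure`, `ae_map_iff` or `MeasurableEmbedding.ae_map_iff` -/
theorem E_con_sim {W : Vf d} {A : Set (R d)} (h : Con W A ⊥) {r : ℝ} (hr : 0 < r) :
    Con (simV r 0 (Eid d) W) (simP r 0 (Eid d) '' A) ⊥ := by
  obtain ⟨φ, hφ, -⟩ := exists_simH hr (0 : R d) (Eid d)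
  have hf : (fun p : R d × S d =>
      (simP r 0 (Eid d) p.1, (⟨Eid d p.2, by simp only [LinearIsometryEquiv.coe_refl, id_eq, mem_sphere_iff_norm, sub_zero, norm_eq_of_mem_sphere]⟩ : S d))) = φ.prodCongr (Homeomorph.refl (S d)) := by
    funext p
    exact Prod.ext (hφ p.1).symm rfl
  unfold Con simV
  refine Measure.ae_smul_measure ?_ _
  rw [hf, (φ.prodCongr (Homeomorph.refl (S d))).measurableEmbedding.ae_map_iff]
  filter_upwards [h] with p hp
  rintro ⟨y, hy, he⟩
  have hy' : y = p.1 := φ.injective ((hφ y).trans he)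
  refine ⟨?_, fun e he => ?_⟩
  · show ⟪φ p.1, (p.2 : R d)⟫_ℝ = 0
    rw [hφ, E3_simP, inner_smul_left, (hp (hy' ▸ hy)).1, mul_zero]
  · rw [(Submodule.mem_bot ℝ).1 he, inner_zero_left]

theorem E_sim_an {r : ℝ} (hr : 0 < r) (a b : ℝ) :
    simP r 0 (Eid d) '' An (r * a) (r * b) = An a b := by
  ext y
  constructor
  · rintro ⟨z, ⟨h1, h2⟩, rfl⟩
    have hn : ‖simP r 0 (Eid d) z‖ = r⁻¹ * ‖z‖ := by
      rw [E3_simP, norm_smul, Real.norm_of_nonneg (inv_pos.2 hr).le]
    refine ⟨?_, ?_⟩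
    · rw [hn, lt_inv_mul_iff₀ hr]; exact h1
    · rw [hn, inv_mul_lt_iff₀ hr]; exact h2
  · rintro ⟨h1, h2⟩
    have hn : ‖r • y‖ = r * ‖y‖ := by rw [norm_smul, Real.norm_of_nonneg hr.le]
    refine ⟨r • y, ⟨?_, ?_⟩, ?_⟩
    · rw [hn]; exact mul_lt_mul_of_pos_left h1 hr
    · rw [hn]; exact mul_lt_mul_of_pos_left h2 hr
    · rw [E3_simP, smul_smul, inv_mul_cancel₀ hr.ne', one_smul]

theorem E_sim_zero (r : ℝ) : simP r 0 (Eid d) 0 = 0 := by
  rw [E3_simP, smul_zero]

theorem E3_an_meas (a b : ℝ) : MeasurableSet (An a b : Set (R d)) :=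
  ((isOpen_lt continuous_const continuous_norm).inter
    (isOpen_lt continuous_norm continuous_const)).measurableSet

theorem E3_pl_sim {r : ℝ} (hr : 0 < r) (Q : R d ≃ₗᵢ[ℝ] R d) {A : Set (R d)} (hA : MeasurableSet A) :
    pl Q (simP r 0 (Eid d) '' A) = ENNReal.ofReal ((r ^ d)⁻¹) * pl Q A := by
  obtain ⟨φ, hφ, -⟩ := exists_simH hr (0 : R d) (Eid d)
  have hφ' : simP r 0 (Eid d) = φ := funext fun y => (hφ y).symm
  obtain ⟨L, hL⟩ := exists_mkL d
  have hm : Measurable fun y : E d => Q (mk y 0) := by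
    have : (fun y : E d => Q (mk y 0)) = fun y => Q (L (y, 0)) := funext fun y => by rw [hL]
    rw [this]
    exact (Q.continuous.comp (L.continuous.comp (continuous_id.prodMk continuous_const))).measurable
  have hA' : MeasurableSet (simP r 0 (Eid d) '' A) := by
    rw [hφ']; exact φ.measurableEmbedding.measurableSet_image.2 hA
  have hsm : ∀ y : E d, Q (mk (r • y) 0) = r • Q (mk y 0) := fun y => by
    rw [← hL, ← hL, ← map_smul, ← map_smul]
    simp
  have hpre : (fun y : E d => Q (mk y 0)) ⁻¹' (simP r 0 (Eid d) '' A) =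
      (fun y : E d => r • y) ⁻¹' ((fun y : E d => Q (mk y 0)) ⁻¹' A) := by
    ext y
    simp only [mem_preimage, hsm]
    constructor
    · rintro ⟨z, hz, he⟩
      rw [← he, E3_simP, smul_smul, mul_inv_cancel₀ hr.ne', one_smul]
      exact hz
    · intro hy
      exact ⟨_, hy, by rw [E3_simP, smul_smul, inv_mul_cancel₀ hr.ne', one_smul]⟩
  unfold pl
  rw [Measure.map_apply hm hA', Measure.map_apply hm hA, hpre,
    Measure.addHaar_preimage_smul _ hr.ne', finrank_euclideanSpace_fin,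
    abs_of_pos (by positivity)]

/-- undo a dilation: evaluate both sides on measurable sets with `simV_fst`; `pl Q` is homogeneous
(`pl Q (t • A) = t ^ d * pl Q A`, `Measure.addHaar_smul` or `map_addHaar_smul`, `mk (t • y) 0 = t • mk y 0`) -/
theorem E_unsim {W : Vf d} {r : ℝ} (hr : 0 < r) {a b : ℝ} (Q : R d ≃ₗᵢ[ℝ] R d) (c : ℝ≥0∞)
    (h : (simV r 0 (Eid d) W).fst.restrict (An a b) = c • (pl Q).restrict (An a b)) :
    W.fst.restrict (An (r * a) (r * b)) = c • (pl Q).restrict (An (r * a) (r * b)) := by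
  obtain ⟨φ, hφ, -⟩ := exists_simH hr (0 : R d) (Eid d)
  have hφ' : simP r 0 (Eid d) = φ := funext fun y => (hφ y).symm
  have hc : (0 : ℝ) < (r ^ d)⁻¹ := by positivity
  have hc0 : ENNReal.ofReal ((r ^ d)⁻¹) ≠ 0 := by simpa only [ne_eq, ENNReal.ofReal_eq_zero, inv_nonpos, not_le, inv_pos] using hc
  ext s hs
  have hs' : MeasurableSet (simP r 0 (Eid d) '' s) := by
    rw [hφ']; exact φ.measurableEmbedding.measurableSet_image.2 hs
  have hi : simP r 0 (Eid d) '' s ∩ An a b = simP r 0 (Eid d) '' (s ∩ An (r * a) (r * b)) := by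
    rw [← E_sim_an hr a b, hφ', image_inter φ.injective]
  have h1 := congrArg (fun μ : Measure (R d) => μ (simP r 0 (Eid d) '' s)) h
  simp only [Measure.smul_apply, smul_eq_mul] at h1
  rw [Measure.restrict_apply hs', Measure.restrict_apply hs', hi, simV_fst W hr,
    E3_pl_sim hr Q (hs.inter (E3_an_meas _ _)), mul_left_comm] at h1
  rw [Measure.smul_apply, smul_eq_mul, Measure.restrict_apply hs, Measure.restrict_apply hs]
  exact (ENNReal.mul_right_inj hc0 ENNReal.ofReal_ne_top).1 h1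

end Pool.Agent.MP_5cfeaf_gt.W

end

section

/-! Block E, file 4: homogeneous measures, planes, bumps. -/

set_option autoImplicit false

open MeasureTheory Set Filter Topology Metric
open scoped ENNReal symmDiff Classical InnerProductSpace ContDiff

namespace Pool.Agent.MP_5cfeaf_gt.W

variable {d : ℕ}

theorem E_isOpen_an (a b : ℝ) : IsOpen (An a b : Set (R d)) :=
  (isOpen_lt continuous_const continuous_norm).inter (isOpen_lt continuous_norm continuous_const)

theorem E_hom_of_con {W : Vf d} {O : Set (R d)} (hO : IsOpen O) (h : Stat W O) (hc : Con W O ⊥) :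
    EHom W.fst O := fun _ hA _ ht hs => cone_dil hO h hc hA ht hs

theorem E4_open {A : Set (R d)} (hA : IsOpen A) {t : ℝ} (ht : t ≠ 0) :
    IsOpen ((fun x : R d => t • x) '' A) := isOpenMap_smul₀ ht A hA

theorem E4_restr (μ : Measure (R d)) {A : Set (R d)} (hA : IsOpen A) {t : ℝ} (ht : t ≠ 0) :
    (μ.restrict A).map (fun x => t • x) = (μ.map fun x => t • x).restrict ((fun x => t • x) '' A) := by
  rw [Measure.restrict_map (measurable_const_smul t) (E4_open hA ht).measurableSet,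
    preimage_image_eq _ (smul_right_injective (R d) ht)]

theorem E4_cancel {μ ν : Measure (R d)} {c : ℝ≥0∞} (h0 : c ≠ 0) (h1 : c ≠ ⊤) (h : c • μ = c • ν) :
    μ = ν := by
  ext s _
  have := congrArg (fun m : Measure (R d) => m s) h
  simpa [ENNReal.mul_right_inj h0 h1] using this

theorem E4_lin (Q : R d ≃ₗᵢ[ℝ] R d) : ∃ L : E d →L[ℝ] R d, ∀ y, L y = Q (mk y 0) := by
  obtain ⟨L, hL⟩ := exists_mkL d
  exact ⟨(Q.toContinuousLinearEquiv : R d →L[ℝ] R d).comp
    ((L : (E d × ℝ) →L[ℝ] R d).comp (ContinuousLinearMap.inl ℝ (E d) ℝ)), fun y => by simp [hL]⟩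

theorem E4_cont (Q : R d ≃ₗᵢ[ℝ] R d) : Continuous fun y : E d => Q (mk y 0) := by
  obtain ⟨L, hL⟩ := E4_lin Q
  exact L.continuous.congr hL

theorem E4_norm (Q : R d ≃ₗᵢ[ℝ] R d) (y : E d) : ‖Q (mk y 0)‖ = ‖y‖ := by
  have h := norm_sq_coord (mk y 0)
  rw [pr_mk, ht_mk] at h
  rw [Q.norm_map]
  exact (pow_left_inj₀ (norm_nonneg _) (norm_nonneg _) two_ne_zero).1 (by rw [h]; ring)

theorem E4_pl_dil (Q : R d ≃ₗᵢ[ℝ] R d) {t : ℝ} (ht : 0 < t) :
    (pl Q).map (fun x => t • x) = ENNReal.ofReal ((t ^ d)⁻¹) • pl Q := by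
  obtain ⟨L, hL⟩ := E4_lin Q
  have e : pl Q = (volume : Measure (E d)).map L := by
    unfold pl; congr 1; ext1 y; exact (hL y).symm
  have hm : Measurable L := L.continuous.measurable
  rw [e, Measure.map_map (measurable_const_smul t) hm]
  have e2 : (fun x : R d => t • x) ∘ L = L ∘ fun y : E d => t • y := by
    ext1 y; simp
  rw [e2, ← Measure.map_map hm (measurable_const_smul t), Measure.map_addHaar_smul _ ht.ne',
    Measure.map_smul, finrank_euclideanSpace_fin, abs_of_pos (by positivity)]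

/-- `pl Q` is the image of Lebesgue measure under a linear map commuting with dilations -/
theorem E_hom_pl (Q : R d ≃ₗᵢ[ℝ] R d) (c : ℝ≥0∞) (O : Set (R d)) : EHom (c • pl Q) O := by
  intro A hA t ht _
  have ht0 : 0 < t := by linarith
  rw [E4_restr _ hA ht0.ne', Measure.map_smul, E4_pl_dil Q ht0, smul_comm, Measure.restrict_smul]

/-- `restrict_eq_of_local`.  Let `m = (a' + b')/2`.  If `‖x‖ ≥ m` put `t = ‖x‖/m ≥ 1` and take a small ball `A` about
`t⁻¹ • x` inside `An a' b'` with `s • A ⊆ An a b` for `s ∈ [1, t]`: the restrictions to `t • A` agree (cancel the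
factor `ofReal (t^d)⁻¹ ≠ 0, ⊤`).  If `‖x‖ ≤ m` put `t = m/‖x‖`, `A` a small ball about `x` with `t • A ⊆ An a' b'`: the
images of the restrictions to `A` under the measurable equivalence `t • ·` agree. -/
theorem E_hom_eq {μ ν : Measure (R d)} {a a' b' b : ℝ} (ha : 0 ≤ a) (haa : a ≤ a') (hab : a' < b')
    (hb : b' ≤ b) (hμ : EHom μ (An a b)) (hν : EHom ν (An a b))
    (h : μ.restrict (An a' b') = ν.restrict (An a' b')) :
    μ.restrict (An a b) = ν.restrict (An a b) := by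
  refine restrict_eq_of_local (fun x hx => ?_) (E_isOpen_an a b)
  obtain ⟨hx1, hx2⟩ := hx
  have hx0 : 0 < ‖x‖ := ha.trans_lt hx1
  obtain ⟨m, hm1, hm2⟩ := exists_between hab
  have hm0 : 0 < m := by linarith
  have hn : ∀ {s : ℝ}, 0 < s → ∀ y : R d, ‖s • y‖ = s * ‖y‖ := fun hs y => by
    rw [norm_smul, Real.norm_eq_abs, abs_of_pos hs]
  rcases le_total m ‖x‖ with hc | hc
  · obtain ⟨t, ht⟩ : ∃ t, t * m = ‖x‖ := ⟨‖x‖ / m, by field_simp⟩
    have ht1 : 1 ≤ t := by nlinarith only [ha, haa, hm1, hc, ht]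
    have ht0 : 0 < t := by linarith
    set A : Set (R d) := An a' b' ∩ {y | t * ‖y‖ < b} with hAd
    have hA : IsOpen A := (E_isOpen_an a' b').inter
      (isOpen_lt (continuous_const.mul continuous_norm) continuous_const)
    have hs : ∀ s ∈ Icc 1 t, ∀ y ∈ A, s • y ∈ An a b := by
      rintro s ⟨hs1, hs2⟩ y ⟨⟨hy1, _⟩, hy3⟩
      have hy3' : t * ‖y‖ < b := hy3
      have := norm_nonneg y
      constructor <;> rw [hn (by linarith only [hs1])] <;> nlinarith only [ha, haa, hs1, hy1, hab, hb, hs2, hy3']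
    refine ⟨(fun y => t • y) '' A, (E4_open hA ht0.ne').mem_nhds ⟨t⁻¹ • x, ?_, smul_inv_smul₀ ht0.ne' x⟩, ?_⟩
    · have e : ‖t⁻¹ • x‖ = m := by rw [hn (inv_pos.2 ht0), ← ht]; field_simp
      exact ⟨⟨by rw [e]; exact hm1, by rw [e]; exact hm2⟩, by
        show t * ‖t⁻¹ • x‖ < b
        rw [e, ht]; exact hx2⟩
    · refine E4_cancel (c := ENNReal.ofReal ((t ^ d)⁻¹)) (by simp only [ht0, pow_pos, ENNReal.ofReal_inv_of_pos, ne_eq, ENNReal.inv_eq_zero, ENNReal.ofReal_ne_top, not_false_eq_true]) ENNReal.ofReal_ne_top ?_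
      rw [← hμ A hA t ht1 hs, ← hν A hA t ht1 hs, Measure.restrict_congr_mono inter_subset_left h]
  · obtain ⟨t, ht⟩ : ∃ t, t * ‖x‖ = m := ⟨m / ‖x‖, by field_simp⟩
    have ht1 : 1 ≤ t := by nlinarith only [ha, hx1, hc, ht]
    have ht0 : 0 < t := by linarith
    set A : Set (R d) := {y | a < ‖y‖} ∩ ({y | a' < t * ‖y‖} ∩ {y | t * ‖y‖ < b'}) with hAd
    have hA : IsOpen A := (isOpen_lt continuous_const continuous_norm).inter
      ((isOpen_lt continuous_const (continuous_const.mul continuous_norm)).inter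
        (isOpen_lt (continuous_const.mul continuous_norm) continuous_const))
    have hs : ∀ s ∈ Icc 1 t, ∀ y ∈ A, s • y ∈ An a b := by
      rintro s ⟨hs1, hs2⟩ y ⟨hy1, _, hy3⟩
      have hy1' : a < ‖y‖ := hy1
      have hy3' : t * ‖y‖ < b' := hy3
      have := norm_nonneg y
      constructor <;> rw [hn (by linarith only [hs1])] <;> nlinarith only [ha, hs1, hy1', haa, hab, hb, hs2, hy3']
    have hsub : (fun y => t • y) '' A ⊆ An a' b' := by
      rintro _ ⟨y, ⟨_, hy2, hy3⟩, rfl⟩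
      exact ⟨by rw [hn ht0]; exact hy2, by rw [hn ht0]; exact hy3⟩
    refine ⟨A, hA.mem_nhds ⟨hx1, ?_, ?_⟩, ?_⟩
    · show a' < t * ‖x‖
      rw [ht]; exact hm1
    · show t * ‖x‖ < b'
      rw [ht]; exact hm2
    · refine (measurableEmbedding_const_smul₀ (α := R d) ht0.ne').map_injective ?_
      rw [hμ A hA t ht1 hs, hν A hA t ht1 hs, Measure.restrict_congr_mono hsub h]

/-- `le_theta`, `theta_mono`, radius to zero -/
theorem E_atom (hd : 1 ≤ d) {W : Vf d} {O : Set (R d)} (h : Stat W O) {b : ℝ} (hb : 0 < b)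
    (hO : closedBall 0 b ⊆ O) : W.fst {0} = 0 := by
  have hlim : Tendsto (fun r : ℝ => ENNReal.ofReal (2 ^ (d + 1) * theta W 0 b * r ^ d)) (𝓝[>] 0) (𝓝 0) := by
    have hc : Continuous fun r : ℝ => ENNReal.ofReal (2 ^ (d + 1) * theta W 0 b * r ^ d) :=
      ENNReal.continuous_ofReal.comp (by fun_prop)
    have := (hc.tendsto 0).mono_left (nhdsWithin_le_nhds (s := Ioi 0))
    simpa only [zero_pow (by omega : d ≠ 0), mul_zero, ENNReal.ofReal_zero] using this
  refine le_antisymm (ge_of_tendsto hlim ?_) zero_le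
  filter_upwards [Ioo_mem_nhdsGT (half_pos hb)] with r hr
  have h2 : 2 * r ≤ b := by linarith only [hr.2]
  have hf : W.fst (closedBall 0 (2 * r)) < ⊤ :=
    h.1 _ (isCompact_closedBall _ _) ((closedBall_subset_closedBall h2).trans hO)
  refine (measure_mono (singleton_subset_iff.2 (mem_closedBall_self hr.1.le))).trans
    ((le_theta hr.1 hf).trans (ENNReal.ofReal_le_ofReal ?_))
  have := theta_mono hd h (by linarith only [hr.1] : 0 < 2 * r) h2 hO
  have h0 := hr.1
  gcongr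

theorem E4_an {μ : Measure (R d)} (h0 : μ {0} = 0) :
    ∫ y in An 0 1, (max (1 - ‖y‖ ^ 2) 0) ^ 2 ∂μ = ∫ y, (max (1 - ‖y‖ ^ 2) 0) ^ 2 ∂μ := by
  refine setIntegral_eq_integral_of_ae_compl_eq_zero ?_
  filter_upwards [measure_eq_zero_iff_ae_notMem.1 h0] with y hy hn
  have h1 : 0 < ‖y‖ := norm_pos_iff.2 hy
  have h2 : 1 ≤ ‖y‖ := not_lt.1 fun h => hn ⟨h1, h⟩
  rw [max_eq_right (by nlinarith only [h2])]
  norm_num

/-- the integrand of `theta` vanishes off `ball 0 1 = An 0 1 ∪ {0}`; `pl Q {0} = 0`;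
`‖Q (mk y 0)‖ = ‖y‖` (`norm_sq_coord`); `integral_map` -/
theorem E_theta_pl (hd : 1 ≤ d) {W : Vf d} (Q : R d ≃ₗᵢ[ℝ] R d) (N : ℕ) (h0 : W.fst {0} = 0)
    (h : W.fst.restrict (An 0 1) = (N : ℝ≥0∞) • (pl Q).restrict (An 0 1)) :
    theta W 0 1 = N * cd d := by
  have : Nontrivial (E d) :=
    Module.nontrivial_of_finrank_pos (R := ℝ) (by rw [finrank_euclideanSpace_fin]; omega)
  have hp : pl Q {0} = 0 := by
    rw [pl, Measure.map_apply (E4_cont Q).measurable (measurableSet_singleton _)]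
    refine measure_mono_null (fun y hy => ?_) (measure_singleton (0 : E d))
    have h1 : Q (mk y 0) = 0 := hy
    have h2 := E4_norm Q y
    rw [h1, norm_zero] at h2
    exact norm_eq_zero.1 h2.symm
  have e : theta W 0 1 = ∫ y, (max (1 - ‖y‖ ^ 2) 0) ^ 2 ∂W.fst := by simp only [theta, one_pow, inv_one, sub_zero, div_one, one_mul]
  rw [e, ← E4_an h0, h, integral_smul_measure, E4_an hp, pl,
    integral_map (E4_cont Q).aemeasurable (Continuous.aestronglyMeasurable (by fun_prop))]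
  simp only [E4_norm, ENNReal.toReal_natCast, smul_eq_mul, cd]

/-- with `n = Q (mk 0 1)` (unit vector orthogonal to the plane) some coordinate has `|n j| ≥ 1/(d+1)`;
a point `z` of the plane in the ball would give `|n j|/2 = |⟪n, Etc j - z⟫| ≤ Etr d` -/
theorem E_pl_miss (Q : R d ≃ₗᵢ[ℝ] R d) : ∃ j : Fin (d + 1), pl Q (closedBall (Etc j) (Etr d)) = 0 := by
  set n : R d := Q (mk 0 1) with hn
  have hn1 : ‖n‖ ^ 2 = 1 := by
    rw [hn, Q.norm_map, norm_sq_coord, pr_mk, ht_mk]; simp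
  have hn2 : ‖n‖ = 1 := (pow_left_inj₀ (norm_nonneg _) zero_le_one two_ne_zero).1 (by rw [hn1]; ring)
  have hd1 : (1 : ℝ) ≤ d + 1 := by have : (0 : ℝ) ≤ d := Nat.cast_nonneg d; linarith
  obtain ⟨j, hj⟩ : ∃ j, 1 / ((d : ℝ) + 1) ≤ |n j| := by
    by_contra hc
    push Not at hc
    have h1 : ‖n‖ ^ 2 = ∑ j, |n j| ^ 2 := by rw [EuclideanSpace.norm_sq_eq]; rfl
    have h2 : ∑ j, |n j| ^ 2 < ∑ _j : Fin (d + 1), (1 / ((d : ℝ) + 1)) ^ 2 :=
      Finset.sum_lt_sum_of_nonempty Finset.univ_nonempty fun j _ =>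
        pow_lt_pow_left₀ (hc j) (abs_nonneg _) two_ne_zero
    rw [← h1, hn1, Finset.sum_const, Finset.card_univ, Fintype.card_fin, nsmul_eq_mul] at h2
    push_cast at h2
    have h3 : ((d : ℝ) + 1) * (1 / ((d : ℝ) + 1)) ^ 2 = 1 / ((d : ℝ) + 1) := by field_simp
    rw [h3, lt_div_iff₀ (by linarith only [])] at h2
    linarith only [h2]
  refine ⟨j, ?_⟩
  rw [pl, Measure.map_apply (E4_cont Q).measurable measurableSet_closedBall]
  refine measure_mono_null (fun y hy => ?_) measure_empty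
  exfalso
  have h1 : ‖Etc j - Q (mk y 0)‖ ≤ Etr d := by
    have : dist (Q (mk y 0)) (Etc j) ≤ Etr d := hy
    rwa [dist_comm, dist_eq_norm] at this
  have h2 : ⟪n, Etc j - Q (mk y 0)⟫_ℝ = n j / 2 := by
    rw [inner_sub_right, hn, Q.inner_map_map, inner_coord (mk 0 1), pr_mk, ht_mk, ht_mk, Etc,
      EuclideanSpace.inner_single_right]
    simp
    ring
  have h3 := abs_real_inner_le_norm n (Etc j - Q (mk y 0))
  rw [h2, hn2, one_mul, abs_div, abs_two] at h3
  have h4 : Etr d = 1 / ((d : ℝ) + 1) / 4 := by rw [Etr]; field_simp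
  have h5 : 0 < 1 / ((d : ℝ) + 1) := by positivity
  linarith only [hj, h1, h3, h4, h5]

theorem E_test_sub (j : Fin (d + 1)) : closedBall (Etc j : R d) (Etr d) ⊆ An 0 1 := by
  intro y hy
  have h1 : ‖(Etc j : R d)‖ = 1 / 2 := by simp [Etc]
  have h2 : Etr d ≤ 1 / 4 := by
    have : (0 : ℝ) ≤ d := Nat.cast_nonneg d
    exact one_div_le_one_div_of_le (by norm_num) (by linarith only [])
  have h3 : ‖y - Etc j‖ ≤ Etr d := mem_closedBall_iff_norm.1 hy
  have h4 := abs_le.1 (abs_norm_sub_norm_le y (Etc j))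
  exact ⟨by linarith only [h4.1, h1, h2, h3], by linarith [h4.2]⟩

theorem E_tr_pos (d : ℕ) : 0 < Etr d := by unfold Etr; positivity

/-- `exists_open_between_and_isCompact_closure` and `exists_contMDiffMap_zero_one_nhds_of_isClosed`
(or `exists_contMDiff_zero_one...`) -/
theorem E_bump {K V : Set (R d)} (hK : IsCompact K) (hV : IsOpen V) (hKV : K ⊆ V) :
    ∃ ψ : R d → ℝ, C1c ψ V ∧ (∀ x, 0 ≤ ψ x ∧ ψ x ≤ 1) ∧ ∀ x ∈ K, ∀ᶠ y in 𝓝 x, ψ y = 1 := by
  obtain ⟨L, hL, hKL, hLV⟩ := exists_compact_between hK hV hKV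
  obtain ⟨f, h1, h0, hf⟩ := exists_contMDiffMap_one_nhds_of_subset_interior (n := 1)
    (modelWithCornersSelf ℝ (R d)) hK.isClosed hKL
  have hs : tsupport f ⊆ L :=
    closure_minimal (fun x hx => by_contra fun h => hx (h0 x h)) hL.isClosed
  exact ⟨f, ⟨f.contMDiff.contDiff, hL.of_isClosed_subset (isClosed_tsupport _) hs, hs.trans hLV⟩,
    fun x => hf x, fun x hx => h1.filter_mono (nhds_le_nhdsSet hx)⟩

end Pool.Agent.MP_5cfeaf_gt.W

end
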