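import Pool.Agent.MP_5cfeaf_gt.SwA
import Pool.Agent.MP_5cfeaf_gt.PerB

attribute [-instance] ProperSMul.toContinuousSMul AddQuantale.instAddLeftMono
  IdemSemiring.toCanonicallyOrderedAdd NonarchimedeanAddGroup.toIsTopologicalAddGroup
  TotallySeparatedSpace.t2Space RCLike.charZero_rclike IsScalarTower.complexToReal
  AddQuantale.instAddRightMono RKHS.instFunLike Valued.toUniformSpace NumberField.to_charZero
  IdemSemiring.toMulLeftMono continuousSub_of_discreteTopology Quantale.instMulRightMono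
  LinearOrderedCommMonoidWithZero.toPosMulStrictMono NonUnitalNonAssocSemiring.toMulZeroClass
  littleWedderburn GrpTypeEquivalenceGrp.grpGroup CommRing.toRing
  IsTopologicalSemiring.toContinuousAdd CommRing.toCommSemiring CompactSpace.sigmaCompact
  Quantale.instMulLeftMono IdemSemiring.toSemiring NonUnitalRing.toNonUnitalNonAssocRing
  IsValuativeTopology.instIsTopologicalAddGroup Fintype.decidableExistsFintype
  continuousSub_of_indiscreteTopology Prod.normedAddCommGroup CStarAlgebra.instOrderClosedTopology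
  NegZeroClass.toNeg instCharZeroOfIsSemireal IsOrderedCancelMonoid.toIsOrderedMonoid
  MulZeroOneClass.toMulZeroClass IsTopologicalTorsor.toContinuousSMul
  NonUnitalNonAssocSemiring.toAddCommMonoid CStarAlgebra.toNormedRing
  AddCommGroupWithOne.toAddGroupWithOne
  ContinuousMonoidHom.instCoeOutOfMonoidHomClassOfContinuousMapClass

section

/-! Block B: lifts to the double cover, uniform continuity. -/

set_option autoImplicit false

open MeasureTheory Set Filter Topology Metric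
open scoped ENNReal symmDiff Classical InnerProductSpace ContDiff

namespace Pool.Agent.MP_5cfeaf_gt.W

variable {d : ℕ}

/-- the set or its complement -/
noncomputable def tw {n : ℕ} (b : ZMod 2) (Ω : Set (E n)) : Set (E n) := if b = 0 then Ω else Ωᶜ

/-- monodromy along the segment from `x` to `y` -/
noncomputable def monoP {n : ℕ} {V : Type} (Φ : (V → ℝ) → Set (E n)) (x y : V → ℝ) : ZMod 2 :=
  if ∃ γ : ℝ → Set (E n), γ 0 = Φ x ∧ γ 1 = (Φ y)ᶜ ∧
    ∀ t ∈ Icc (0 : ℝ) 1,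
      (γ t = Φ ((1 - t) • x + t • y) ∨ γ t = (Φ ((1 - t) • x + t • y))ᶜ) ∧
      Tendsto (fun s => volume ((γ s ∆ γ t) ∩ ball 0 1)) (𝓝[Icc 0 1] t) (𝓝 0)
  then 1 else 0

theorem mono_eq_monoP {n : ℕ} {V : Type} (Φ : (V → ℝ) → Set (E n)) (v w : V) :
    mono Φ v w = monoP Φ (Pi.single v 1) (Pi.single w 1) := rfl

theorem B4_cases (b : ZMod 2) : b = 0 ∨ b = 1 := by revert b; decide

theorem B4_tw_one {n : ℕ} (Ω : Set (E n)) : tw 1 Ω = Ωᶜ := by
  unfold tw; rw [if_neg (by decide)]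

theorem tw_zero {n : ℕ} (Ω : Set (E n)) : tw 0 Ω = Ω := by
  unfold tw; rw [if_pos rfl]
theorem tw_add_one {n : ℕ} (b : ZMod 2) (Ω : Set (E n)) : tw (b + 1) Ω = (tw b Ω)ᶜ := by
  rcases B4_cases b with rfl | rfl
  · rw [zero_add, B4_tw_one, tw_zero]
  · rw [show (1 : ZMod 2) + 1 = 0 by decide, B4_tw_one, tw_zero, compl_compl]
theorem tw_tw {n : ℕ} (b c : ZMod 2) (Ω : Set (E n)) : tw b (tw c Ω) = tw (b + c) Ω := by
  rcases B4_cases b with rfl | rfl
  · rw [zero_add, tw_zero]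
  · rw [add_comm, tw_add_one, B4_tw_one]
theorem tw_symmDiff {n : ℕ} (b : ZMod 2) (Ω Ω' : Set (E n)) : tw b Ω ∆ tw b Ω' = Ω ∆ Ω' := by
  rcases B4_cases b with rfl | rfl
  · rw [tw_zero, tw_zero]
  · rw [B4_tw_one, B4_tw_one, compl_symmDiff_compl]
theorem tw_meas {n : ℕ} (b : ZMod 2) {Ω : Set (E n)} (h : MeasurableSet Ω) : MeasurableSet (tw b Ω) := by
  rcases B4_cases b with rfl | rfl
  · rwa [tw_zero]
  · rw [B4_tw_one]; exact h.compl
theorem pm_tw (b : ZMod 2) {Ω : Set (R d)} (h : MeasurableSet Ω) : pm (tw b Ω) = pm Ω := by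
  rcases B4_cases b with rfl | rfl
  · rw [tw_zero]
  · rw [B4_tw_one, pm_compl h]

/-- closed subset of the product of the `Icc 0 1` (`isCompact_univ_pi`) -/
theorem isCompact_simplex {V : Type} (σ : Finset V) : IsCompact (simplex σ) := by
  have hc : IsCompact (Set.pi univ fun _ : V => Icc (0 : ℝ) 1) :=
    isCompact_univ_pi fun _ => isCompact_Icc
  refine hc.of_isClosed_subset ?_ ?_
  · have h1 : IsClosed {x : V → ℝ | ∀ v, 0 ≤ x v} := by
      rw [ofPred_forall]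
      exact isClosed_iInter fun v => isClosed_le continuous_const (continuous_apply v)
    have h2 : IsClosed {x : V → ℝ | ∀ v, v ∉ σ → x v = 0} := by
      rw [ofPred_forall]
      refine isClosed_iInter fun v => ?_
      rw [ofPred_forall]
      exact isClosed_iInter fun _ => isClosed_eq (continuous_apply v) continuous_const
    have h3 : IsClosed {x : V → ℝ | ∑ v ∈ σ, x v = 1} :=
      isClosed_eq (continuous_finsetSum _ fun v _ => continuous_apply v) continuous_const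
    exact h1.inter (h2.inter h3)
  · rintro x ⟨h1, h2, h3⟩ v -
    refine ⟨h1 v, ?_⟩
    by_cases hv : v ∈ σ
    · rw [← h3]; exact Finset.single_le_sum (fun w _ => h1 w) hv
    · rw [h2 v hv]; exact zero_le_one

/-- Uniform continuity, abstract form.  Plan: by contradiction take `x n`, `x' n` at distance
`1/(n+1)`, an ultrafilter limit `x` of `x n` in the compact simplex (`IsCompact.ultrafilter_le_nhds`,
`hyperfilter ℕ`); `x' n` has the same limit (`tendsto_pi_nhds`); triangle inequality. -/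
theorem unif_simplex {V : Type} (σ : Finset V) (m : (V → ℝ) → (V → ℝ) → ℝ≥0∞)
    (htri : ∀ x ∈ simplex σ, ∀ y ∈ simplex σ, ∀ z ∈ simplex σ, m x y ≤ m x z + m y z)
    (h : ∀ x ∈ simplex σ, Tendsto (fun y => m y x) (𝓝[simplex σ] x) (𝓝 0)) {η : ℝ≥0∞} (hη : 0 < η) :
    ∃ s > 0, ∀ x ∈ simplex σ, ∀ x' ∈ simplex σ, (∀ v, |x v - x' v| ≤ s) → m x x' ≤ η := by
  by_contra hc
  push Not at hc
  have hc' : ∀ n : ℕ, ∃ x ∈ simplex σ, ∃ x' ∈ simplex σ,
      (∀ v, |x v - x' v| ≤ 1 / ((n : ℝ) + 1)) ∧ η < m x x' :=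
    fun n => hc _ Nat.one_div_pos_of_nat
  choose x hx x' hx' hd hm using hc'
  let U : Ultrafilter ℕ := Filter.hyperfilter ℕ
  have hU : (U : Filter ℕ) ≤ atTop := by
    rw [← Nat.cofinite_eq_atTop]; exact Filter.hyperfilter_le_cofinite
  obtain ⟨z, hz, hzl⟩ := (isCompact_simplex σ).ultrafilter_le_nhds (U.map x) (by
    rw [Ultrafilter.coe_map, le_principal_iff, mem_map]
    exact Eventually.of_forall hx)
  have t1 : Tendsto x U (𝓝 z) := hzl
  have t2 : Tendsto x' U (𝓝 z) := by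
    rw [tendsto_pi_nhds] at t1 ⊢
    intro v
    have t0 : Tendsto (fun n => x n v - x' n v) U (𝓝 0) :=
      squeeze_zero_norm (fun n => hd n v)
        (tendsto_one_div_add_atTop_nhds_zero_nat.mono_left hU)
    have := (t1 v).sub t0
    simpa using this
  have s1 : Tendsto (fun n => m (x n) z) U (𝓝 0) :=
    (h z hz).comp (tendsto_nhdsWithin_iff.2 ⟨t1, Eventually.of_forall hx⟩)
  have s2 : Tendsto (fun n => m (x' n) z) U (𝓝 0) :=
    (h z hz).comp (tendsto_nhdsWithin_iff.2 ⟨t2, Eventually.of_forall hx'⟩)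
  have s3 := s1.add s2
  rw [add_zero] at s3
  obtain ⟨n, hn⟩ := (s3.eventually (gt_mem_nhds hη)).exists
  exact absurd ((hm n).trans_le (htri _ (hx n) _ (hx' n) z hz)) (not_lt.2 hn.le)

theorem unif_vol {V : Type} (σ : Finset V) (G : (V → ℝ) → Set (R d))
    (h : ∀ x ∈ simplex σ, Tendsto (fun y => volume ((G y ∆ G x) ∩ B d)) (𝓝[simplex σ] x) (𝓝 0))
    {η : ℝ} (hη : 0 < η) : ∃ s > 0, ∀ x ∈ simplex σ, ∀ x' ∈ simplex σ, (∀ v, |x v - x' v| ≤ s) →
      FR η (G x) (G x') := by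
  refine unif_simplex σ (fun y x => volume ((G y ∆ G x) ∩ B d)) ?_ h (ENNReal.ofReal_pos.2 hη)
  intro x _ y _ z _
  refine le_trans (measure_mono ?_) (measure_union_le _ _)
  rw [← union_inter_distrib_right]
  refine inter_subset_inter_left _ ?_
  rw [symmDiff_comm (G y) (G z)]
  exact symmDiff_triangle (G x) (G z) (G y)

end Pool.Agent.MP_5cfeaf_gt.W

end

section

/-! Block B: monodromy. -/

set_option autoImplicit false

open MeasureTheory Set Filter Topology Metric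
open scoped ENNReal symmDiff Classical InnerProductSpace ContDiff

namespace Pool.Agent.MP_5cfeaf_gt.W

variable {d : ℕ}

theorem B4m_tw_cases (b : ZMod 2) (Ω : Set (R d)) : tw b Ω = Ω ∨ tw b Ω = Ωᶜ := by
  unfold tw
  split_ifs
  · exact Or.inl rfl
  · exact Or.inr rfl

theorem B4m_ne_compl (Ω : Set (R d)) : Ωᶜ ≠ Ω := by
  intro h
  have h1 : (0 : R d) ∈ Ωᶜ ↔ (0 : R d) ∈ Ω := by rw [h]
  rw [mem_compl_iff] at h1
  tauto

theorem B4m_cover (A A' : Set (R d)) :
    volume (B d) ≤ volume ((A ∆ A'ᶜ) ∩ B d) + volume ((A ∆ A') ∩ B d) := by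
  refine le_trans (measure_mono ?_) (measure_union_le _ _)
  intro z hz
  simp only [mem_union, mem_inter_iff, Set.mem_symmDiff, mem_compl_iff]
  tauto

theorem B4m_const (γ G : ℝ → Set (R d))
    (h : ∀ t ∈ Icc (0 : ℝ) 1, γ t = G t ∨ γ t = (G t)ᶜ)
    (hγ : ∀ t ∈ Icc (0 : ℝ) 1,
      Tendsto (fun s => volume ((γ s ∆ γ t) ∩ B d)) (𝓝[Icc 0 1] t) (𝓝 0))
    (hG : ∀ t ∈ Icc (0 : ℝ) 1,
      Tendsto (fun s => volume ((G s ∆ G t) ∩ B d)) (𝓝[Icc 0 1] t) (𝓝 0))
    (h0 : γ 0 = G 0) : γ 1 = G 1 := by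
  have hv : (0 : ℝ≥0∞) < volume (B d) := measure_ball_pos _ _ one_pos
  have hv2 : (0 : ℝ≥0∞) < volume (B d) / 2 := ENNReal.half_pos hv.ne'
  have hc : ContinuousOn (fun t => decide (γ t = G t)) (Icc (0 : ℝ) 1) := by
    intro t ht
    refine tendsto_const_nhds.congr' ?_
    filter_upwards [(hγ t ht).eventually (gt_mem_nhds hv2), (hG t ht).eventually (gt_mem_nhds hv2),
      self_mem_nhdsWithin] with s h1 h2 hs
    have hlt := ENNReal.add_lt_add h1 h2
    rw [ENNReal.add_halves] at hlt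
    rw [decide_eq_decide]
    rcases h t ht with ht' | ht' <;> rcases h s hs with hs' | hs'
    · simp [ht', hs']
    · exfalso
      rw [ht', hs', symmDiff_comm (G s)ᶜ, symmDiff_comm (G s)] at hlt
      exact absurd (B4m_cover (G t) (G s)) (not_le.2 hlt)
    · exfalso
      rw [ht', hs'] at hlt
      exact absurd (B4m_cover (G s) (G t)) (not_le.2 hlt)
    · rw [ht', hs']
      exact iff_of_false (B4m_ne_compl _) (B4m_ne_compl _)
  have h01 := (isPreconnected_Icc (a := (0 : ℝ)) (b := 1)).constant hc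
    (left_mem_Icc.2 zero_le_one) (right_mem_Icc.2 zero_le_one)
  exact (decide_eq_decide.1 h01).1 h0

theorem B4m_seg_mem {V : Type} (σ : Finset V) {x y : V → ℝ} (hx : x ∈ simplex σ)
    (hy : y ∈ simplex σ) {t : ℝ} (ht : t ∈ Icc (0 : ℝ) 1) : (1 - t) • x + t • y ∈ simplex σ := by
  obtain ⟨hx1, hx2, hx3⟩ := hx
  obtain ⟨hy1, hy2, hy3⟩ := hy
  refine ⟨fun v => ?_, fun v hv => ?_, ?_⟩
  · simp only [Pi.add_apply, Pi.smul_apply, smul_eq_mul]
    exact add_nonneg (mul_nonneg (sub_nonneg.2 ht.2) (hx1 v)) (mul_nonneg ht.1 (hy1 v))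
  · simp [hx2 v hv, hy2 v hv]
  · simp only [Pi.add_apply, Pi.smul_apply, smul_eq_mul]
    rw [Finset.sum_add_distrib, ← Finset.mul_sum, ← Finset.mul_sum, hx3, hy3]
    ring

/-- Monodromy in terms of a continuous lift.  Plan: if `e x + e y = 1` take
`γ t = tw (e x + e (p t)) (Φ (p t))`, `p t = (1-t) x + t y`.  Conversely for any `γ` as in `monoP` the
function `t ↦ [γ t = tw (e (p t)) (Φ (p t))]` is locally constant on `Icc 0 1`, because
`volume (B d) > 0` and `B ⊆ (A ∆ A') ∪ (Aᶜ ∆ A')`; use `IsPreconnected` of `Icc` (e.g.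
`IsPreconnected.constant` or `IsPreconnected.induction₂'`); note `A ≠ Aᶜ`. -/
theorem monoP_eq {V : Type} (σ : Finset V) (Φ : (V → ℝ) → Set (R d)) (e : (V → ℝ) → ZMod 2)
    (he : ∀ x ∈ simplex σ, Tendsto (fun y => volume ((tw (e y) (Φ y) ∆ tw (e x) (Φ x)) ∩ B d))
      (𝓝[simplex σ] x) (𝓝 0)) {x y : V → ℝ} (hx : x ∈ simplex σ) (hy : y ∈ simplex σ) :
    monoP Φ x y = e x + e y := by
  have hpc : Continuous fun t : ℝ => (1 - t) • x + t • y := by fun_prop
  set G : ℝ → Set (R d) := fun t =>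
    tw (e x) (tw (e ((1 - t) • x + t • y)) (Φ ((1 - t) • x + t • y))) with hGdef
  have hG : ∀ t ∈ Icc (0 : ℝ) 1,
      Tendsto (fun s => volume ((G s ∆ G t) ∩ B d)) (𝓝[Icc 0 1] t) (𝓝 0) := by
    intro t ht
    have h1 : Tendsto (fun s : ℝ => (1 - s) • x + s • y) (𝓝[Icc 0 1] t)
        (𝓝[simplex σ] ((1 - t) • x + t • y)) :=
      (hpc.continuousWithinAt (s := Icc 0 1) (x := t)).tendsto_nhdsWithin
        fun s hs => B4m_seg_mem σ hx hy hs
    have h2 := (he _ (B4m_seg_mem σ hx hy ht)).comp h1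
    refine h2.congr fun s => ?_
    simp only [hGdef, Function.comp, tw_symmDiff]
  have hxx : e x + e x = 0 := CharTwo.add_self_eq_zero _
  have hG0 : G 0 = Φ x := by
    simp only [hGdef, sub_zero, one_smul, zero_smul, add_zero, tw_tw, hxx, tw_zero]
  have hG1 : G 1 = tw (e x + e y) (Φ y) := by
    simp only [hGdef, sub_self, one_smul, zero_smul, zero_add, tw_tw]
  have hGc : ∀ t : ℝ, G t = Φ ((1 - t) • x + t • y) ∨ G t = (Φ ((1 - t) • x + t • y))ᶜ := by
    intro t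
    simp only [hGdef, tw_tw]
    exact B4m_tw_cases _ _
  have hcases : ∀ z : ZMod 2, z = 0 ∨ z = 1 := by decide
  rcases hcases (e x + e y) with h0 | h1
  · rw [h0]
    unfold monoP
    rw [if_neg]
    rintro ⟨γ, hγ0, hγ1, hγ⟩
    have h2 : γ 1 = G 1 := by
      refine B4m_const γ G (fun t ht => ?_) (fun t ht => (hγ t ht).2) hG (hγ0.trans hG0.symm)
      rcases (hγ t ht).1 with ha | ha <;> rcases hGc t with hb | hb
      · exact Or.inl (ha.trans hb.symm)
      · exact Or.inr (by rw [ha, hb, compl_compl])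
      · exact Or.inr (by rw [ha, hb])
      · exact Or.inl (ha.trans hb.symm)
    rw [hγ1, hG1, h0, tw_zero] at h2
    exact B4m_ne_compl _ h2
  · rw [h1]
    unfold monoP
    rw [if_pos]
    refine ⟨G, hG0, ?_, fun t ht => ⟨hGc t, hG t ht⟩⟩
    have h3 := tw_add_one (0 : ZMod 2) (Φ y)
    rw [zero_add, tw_zero] at h3
    rw [hG1, h1, h3]

end Pool.Agent.MP_5cfeaf_gt.W

end

section

/-! Block B: existence of lifts on a simplex. -/

set_option autoImplicit false

open MeasureTheory Set Filter Topology Metric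
open scoped ENNReal symmDiff Classical InnerProductSpace ContDiff

namespace Pool.Agent.MP_5cfeaf_gt.W

variable {d : ℕ}

/-- volume distance in the ball -/
noncomputable def B5_D (A A' : Set (R d)) : ℝ≥0∞ := volume ((A ∆ A') ∩ B d)

/-- distance up to complement -/
noncomputable def B5_m (A A' : Set (R d)) : ℝ≥0∞ := min (B5_D A A') (B5_D A A'ᶜ)

/-- local transition function -/
noncomputable def B5_c (A A' : Set (R d)) : ZMod 2 := if B5_D A A' ≤ volume (B d) / 8 then 0 else 1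

theorem B5_D_symm (A A' : Set (R d)) : B5_D A A' = B5_D A' A := by
  unfold B5_D; rw [symmDiff_comm]

theorem B5_D_tri (A A' A'' : Set (R d)) : B5_D A A'' ≤ B5_D A A' + B5_D A' A'' := by
  unfold B5_D
  refine (measure_mono ?_).trans (measure_union_le _ _)
  intro x hx
  simp only [mem_union, mem_inter_iff, mem_symmDiff] at hx ⊢
  tauto

theorem B5_D_tw (b : ZMod 2) (A A' : Set (R d)) : B5_D (tw b A) (tw b A') = B5_D A A' := by
  unfold B5_D; rw [tw_symmDiff]

theorem B5_D_compl (A : Set (R d)) : B5_D A Aᶜ = volume (B d) := by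
  unfold B5_D
  have : A ∆ Aᶜ = univ := by
    ext x
    simp only [mem_symmDiff, mem_compl_iff, mem_univ]
    tauto
  rw [this, univ_inter]

theorem B5_two (a : ZMod 2) : a + a = 0 := by
  revert a; decide

theorem B5_cases (a b : ZMod 2) : a = b ∨ b = a + 1 := by
  revert a b; decide

theorem B5_D_tw2 (a b : ZMod 2) (A A' : Set (R d)) :
    B5_D (tw a A) (tw b A') = B5_D A (tw (a + b) A') := by
  rw [← B5_D_tw a A, tw_tw, ← add_assoc, B5_two, zero_add]

theorem B5_tw_one (A : Set (R d)) : tw 1 A = Aᶜ := by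
  have h := tw_add_one 0 A
  rwa [zero_add, tw_zero] at h

theorem B5_m_le (b : ZMod 2) (A A' : Set (R d)) : B5_m A A' ≤ B5_D A (tw b A') := by
  rcases B5_cases 0 b with h | h
  · rw [← h, tw_zero]; exact min_le_left _ _
  · rw [h, zero_add, B5_tw_one]; exact min_le_right _ _

theorem B5_m_eq (A A' : Set (R d)) : ∃ b, B5_m A A' = B5_D A (tw b A') := by
  rcases min_choice (B5_D A A') (B5_D A A'ᶜ) with h | h
  · exact ⟨0, by rw [tw_zero]; exact h⟩
  · exact ⟨1, by rw [B5_tw_one]; exact h⟩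

theorem B5_m_tri (A A' A'' : Set (R d)) : B5_m A A' ≤ B5_m A A'' + B5_m A' A'' := by
  obtain ⟨a, ha⟩ := B5_m_eq A A''
  obtain ⟨b, hb⟩ := B5_m_eq A' A''
  rw [ha, hb]
  refine (B5_m_le (a + b) A A').trans ((B5_D_tri _ (tw a A'') _).trans (add_le_add le_rfl (le_of_eq ?_)))
  rw [B5_D_symm, B5_D_tw2, add_comm a b, add_assoc, B5_two, add_zero]

theorem B5_lt : volume (B d) / 8 + volume (B d) / 8 + volume (B d) / 8 < volume (B d) := by
  have h0 : volume (B d) ≠ 0 := (measure_ball_pos volume _ one_pos).ne'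
  have h1 : volume (B d) ≠ ⊤ := measure_ball_lt_top.ne
  lift volume (B d) to NNReal using h1 with v
  have hv : 0 < v := by
    rcases eq_or_lt_of_le (zero_le (a := v)) with h | h
    · exact absurd (by rw [← h]; rfl) h0
    · exact h
  have e : (v : ℝ≥0∞) / 8 = ((v / 8 : NNReal) : ℝ≥0∞) := by
    rw [ENNReal.coe_div (by norm_num)]; rfl
  rw [e, ← ENNReal.coe_add, ← ENNReal.coe_add, ENNReal.coe_lt_coe, ← NNReal.coe_lt_coe]
  have hv' : (0 : ℝ) < v := hv
  push_cast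
  linarith

theorem B5_uniq {a b : ZMod 2} {A A' : Set (R d)}
    (ha : B5_D A (tw a A') ≤ volume (B d) / 8 + volume (B d) / 8)
    (hb : B5_D A (tw b A') ≤ volume (B d) / 8) : a = b := by
  rcases B5_cases a b with h | h
  · exact h
  · exfalso
    rw [h, tw_add_one] at hb
    have h1 := B5_D_tri (tw a A') A (tw a A')ᶜ
    rw [B5_D_compl, B5_D_symm] at h1
    exact absurd (h1.trans (add_le_add ha hb)) (not_le.2 B5_lt)

theorem B5_c_le {A A' : Set (R d)} (h : B5_m A A' ≤ volume (B d) / 8) :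
    B5_D A (tw (B5_c A A') A') ≤ volume (B d) / 8 := by
  unfold B5_c
  split_ifs with h1
  · rwa [tw_zero]
  · rw [B5_tw_one]
    rcases min_le_iff.1 h with h2 | h2
    · exact absurd h2 h1
    · exact h2

theorem B5_c_eq {A A' : Set (R d)} (h : B5_m A A' ≤ volume (B d) / 8) :
    B5_D A (tw (B5_c A A') A') = B5_m A A' := by
  obtain ⟨b, hb⟩ := B5_m_eq A A'
  have : b = B5_c A A' := B5_uniq ((hb ▸ h).trans le_self_add) (B5_c_le h)
  rw [hb, this]

theorem B5_c_self (A : Set (R d)) : B5_c A A = 0 := by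
  unfold B5_c B5_D
  rw [if_pos]
  simp only [symmDiff_self, bot_eq_empty, empty_inter, measure_empty, zero_le]

theorem B5_cocycle {A A' A'' : Set (R d)} (h1 : B5_m A A' ≤ volume (B d) / 8)
    (h2 : B5_m A' A'' ≤ volume (B d) / 8) (h3 : B5_m A A'' ≤ volume (B d) / 8) :
    B5_c A A' + B5_c A' A'' = B5_c A A'' := by
  refine B5_uniq (A := A) (A' := A'') ?_ (B5_c_le h3)
  refine (B5_D_tri _ (tw (B5_c A A') A') _).trans (add_le_add (B5_c_le h1) ?_)
  rw [← tw_tw, B5_D_tw]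
  exact B5_c_le h2

theorem B5_alg (a b c e f : ZMod 2) (h1 : a + b = e) (h2 : c + f = e) : a + (c + b) = f := by
  revert a b c e f; decide

/-- the segment from `x0` to `x` -/
def B5_P {V : Type} (x0 : V → ℝ) (t : ℝ) (x : V → ℝ) : V → ℝ := fun v => x0 v + t * (x v - x0 v)

theorem B5_P_mem {V : Type} {σ : Finset V} {x0 x : V → ℝ} (h0 : x0 ∈ simplex σ) (hx : x ∈ simplex σ)
    {t : ℝ} (ht0 : 0 ≤ t) (ht1 : t ≤ 1) : B5_P x0 t x ∈ simplex σ := by
  refine ⟨fun v => ?_, fun v hv => ?_, ?_⟩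
  · have := h0.1 v
    have := hx.1 v
    unfold B5_P
    nlinarith
  · unfold B5_P
    rw [h0.2.1 v hv, hx.2.1 v hv]; ring
  · unfold B5_P
    rw [Finset.sum_add_distrib, ← Finset.mul_sum, Finset.sum_sub_distrib, h0.2.2, hx.2.2]; ring

theorem B5_le_one {V : Type} {σ : Finset V} {x : V → ℝ} (hx : x ∈ simplex σ) (v : V) : x v ≤ 1 := by
  by_cases hv : v ∈ σ
  · rw [← hx.2.2]
    exact Finset.single_le_sum (fun w _ => hx.1 w) hv
  · rw [hx.2.1 v hv]; exact zero_le_one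

theorem B5_P_dist {V : Type} {σ : Finset V} {x0 x y : V → ℝ} (h0 : x0 ∈ simplex σ)
    (hy : y ∈ simplex σ) {t t' s : ℝ} (ht0 : 0 ≤ t) (ht1 : t ≤ 1) (htt : |t - t'| ≤ s / 2)
    (hxy : ∀ v, |x v - y v| ≤ s / 2) (v : V) : |B5_P x0 t x v - B5_P x0 t' y v| ≤ s := by
  have e : B5_P x0 t x v - B5_P x0 t' y v = t * (x v - y v) + (t - t') * (y v - x0 v) := by
    unfold B5_P; ring
  have h1 : |y v - x0 v| ≤ 1 := by
    have := h0.1 v
    have := hy.1 v
    have := B5_le_one h0 v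
    have := B5_le_one hy v
    rw [abs_le]; constructor <;> linarith
  have h2 : |t * (x v - y v)| ≤ s / 2 := by
    rw [abs_mul, abs_of_nonneg ht0]
    have := hxy v
    have := abs_nonneg (x v - y v)
    nlinarith
  have h3 : |(t - t') * (y v - x0 v)| ≤ s / 2 := by
    rw [abs_mul]
    have := abs_nonneg (t - t')
    nlinarith only [htt, h1, this]
  rw [e]
  linarith only [abs_add_le (t * (x v - y v)) ((t - t') * (y v - x0 v)), h2, h3]

theorem B5_near {V : Type} {σ : Finset V} {x : V → ℝ} (hx : x ∈ simplex σ) {s : ℝ} (hs : 0 < s) :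
    ∀ᶠ y in 𝓝[simplex σ] x, y ∈ simplex σ ∧ ∀ v, |y v - x v| ≤ s := by
  have h1 : ∀ᶠ y in 𝓝 x, ∀ v ∈ σ, |y v - x v| ≤ s := by
    rw [Filter.eventually_all_finset]
    intro v _
    have hc : Continuous fun y : V → ℝ => |y v - x v| := by fun_prop
    have : ∀ᶠ y in 𝓝 x, |y v - x v| < s := hc.continuousAt.eventually_lt continuousAt_const (by simpa using hs)
    exact this.mono fun y hy => hy.le
  filter_upwards [nhdsWithin_le_nhds h1, self_mem_nhdsWithin] with y hy hy'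
  refine ⟨hy', fun v => ?_⟩
  by_cases hv : v ∈ σ
  · exact hy v hv
  · rw [hx.2.1 v hv, hy'.2.1 v hv]; simpa only [sub_self, abs_zero] using hs.le

/-- Lift on a simplex (ladder argument).  Plan: `m x y = min (vol (Φ x ∆ Φ y ∩ B)) (vol (Φ x ∆ (Φ y)ᶜ ∩ B))`
is symmetric, satisfies the triangle inequality and tends to `0` (`le_flat`), so by `unif_simplex`
`m x y ≤ v/8` (`v = volume (B d)`) for `|x - y| ≤ s` coordinatewise.  Put `c x y = 0` if
`vol (Φ x ∆ Φ y ∩ B) ≤ v/8`, else `1`; then `vol (Φ x ∆ tw (c x y) (Φ y) ∩ B) = m x y ≤ v/8` for close points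
and `c` is a cocycle on triples of pairwise close points (`3 v/8 < v`).  Fix `x0` in the simplex, `N` with
`1/N ≤ s/2`, `p i x = x0 + (i/N) (x - x0)`, `e x = ∑ i < N, c (p i x) (p (i+1) x)`; by induction on `i`
the partial sums satisfy `e_i x + e_i y = c (p i x) (p i y)` when `|x - y| ≤ s/2`.  Points within `s/2` form
a neighbourhood inside the simplex (only the coordinates in `σ` matter). -/
theorem exists_lift {V : Type} (σ : Finset V) (Φ : (V → ℝ) → Set (R d))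
    (h : ∀ x ∈ simplex σ, MeasurableSet (Φ x) ∧
      Tendsto (fun y => flat (Φ y) (Φ x)) (𝓝[simplex σ] x) (𝓝 0)) :
    ∃ e : (V → ℝ) → ZMod 2, ∀ x ∈ simplex σ,
      Tendsto (fun y => volume ((tw (e y) (Φ y) ∆ tw (e x) (Φ x)) ∩ B d)) (𝓝[simplex σ] x) (𝓝 0) := by
  rcases (simplex σ).eq_empty_or_nonempty with he | ⟨x0, h0⟩
  · exact ⟨0, fun x hx => by rw [he] at hx; exact absurd hx (notMem_empty x)⟩
  obtain ⟨C, hC, hfl⟩ := le_flat d
  have hm : ∀ x ∈ simplex σ, Tendsto (fun y => B5_m (Φ y) (Φ x)) (𝓝[simplex σ] x) (𝓝 0) := by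
    intro x hx
    have h1 : Tendsto (fun y => C * flat (Φ y) (Φ x)) (𝓝[simplex σ] x) (𝓝 0) := by
      have := ENNReal.Tendsto.const_mul (a := C) (h x hx).2 (Or.inr hC.ne)
      rwa [mul_zero] at this
    refine tendsto_of_tendsto_of_tendsto_of_le_of_le' tendsto_const_nhds h1
      (Eventually.of_forall fun _ => bot_le) ?_
    filter_upwards [self_mem_nhdsWithin] with y hy
    exact hfl _ _ (h y hy).1 (h x hx).1
  have hv : 0 < volume (B d) / 8 :=
    ENNReal.div_pos (measure_ball_pos volume _ one_pos).ne' (by norm_num)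
  obtain ⟨s, hs, hu⟩ := unif_simplex σ (fun x y => B5_m (Φ x) (Φ y))
    (fun x _ y _ z _ => B5_m_tri _ _ _) hm hv
  obtain ⟨N, hN⟩ := exists_nat_gt (2 / s)
  have hN0 : (0 : ℝ) < N := lt_trans (by positivity) hN
  have hN1 : 1 / (N : ℝ) ≤ s / 2 := by
    rw [div_lt_iff₀ hs] at hN
    rw [div_le_iff₀ hN0]; linarith
  have key : ∀ x ∈ simplex σ, ∀ y ∈ simplex σ, (∀ v, |x v - y v| ≤ s / 2) → ∀ i : ℕ, i ≤ N →
      ∑ j ∈ Finset.range i, B5_c (Φ (B5_P x0 (j / N) x)) (Φ (B5_P x0 ((j + 1 : ℕ) / N) x)) +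
      ∑ j ∈ Finset.range i, B5_c (Φ (B5_P x0 (j / N) y)) (Φ (B5_P x0 ((j + 1 : ℕ) / N) y)) =
      B5_c (Φ (B5_P x0 (i / N) x)) (Φ (B5_P x0 (i / N) y)) := by
    intro x hx y hy hxy i
    induction i with
    | zero =>
      intro _
      have e : B5_P x0 (((0 : ℕ) : ℝ) / N) x = B5_P x0 (((0 : ℕ) : ℝ) / N) y := by
        funext v; simp [B5_P]
      rw [e, B5_c_self]; simp only [Finset.range_zero, Nat.cast_add, Nat.cast_one, Finset.sum_empty, add_zero]
    | succ i ih =>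
      intro hi
      have a0 : (0 : ℝ) ≤ (i : ℝ) / N := by positivity
      have b0 : (0 : ℝ) ≤ ((i + 1 : ℕ) : ℝ) / N := by positivity
      have b1 : ((i + 1 : ℕ) : ℝ) / N ≤ 1 := by
        rw [div_le_one hN0]; exact_mod_cast hi
      have a1 : (i : ℝ) / N ≤ 1 := by
        rw [div_le_one hN0]; exact_mod_cast (Nat.le_succ i).trans hi
      have ab : |(i : ℝ) / N - ((i + 1 : ℕ) : ℝ) / N| ≤ s / 2 := by
        have e : (i : ℝ) / N - ((i + 1 : ℕ) : ℝ) / N = -(1 / N) := by push_cast; ring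
        rw [e, abs_neg, abs_of_pos (by positivity)]; exact hN1
      have aa : ∀ t : ℝ, |t - t| ≤ s / 2 := fun t => by rw [sub_self, abs_zero]; positivity
      have cl : ∀ u ∈ simplex σ, ∀ w ∈ simplex σ, (∀ v, |u v - w v| ≤ s / 2) → ∀ t t' : ℝ, 0 ≤ t →
          t ≤ 1 → 0 ≤ t' → t' ≤ 1 → |t - t'| ≤ s / 2 →
          B5_m (Φ (B5_P x0 t u)) (Φ (B5_P x0 t' w)) ≤ volume (B d) / 8 :=
        fun u hu' w hw huw t t' t0 t1 t0' t1' htt =>
          hu _ (B5_P_mem h0 hu' t0 t1) _ (B5_P_mem h0 hw t0' t1') (B5_P_dist h0 hw t0 t1 htt huw)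
      have c1 := B5_cocycle (cl x hx y hy hxy _ _ a0 a1 a0 a1 (aa _))
        (cl y hy y hy (fun v => aa _) _ _ a0 a1 b0 b1 ab) (cl x hx y hy hxy _ _ a0 a1 b0 b1 ab)
      have c2 := B5_cocycle (cl x hx x hx (fun v => aa _) _ _ a0 a1 b0 b1 ab)
        (cl x hx y hy hxy _ _ b0 b1 b0 b1 (aa _)) (cl x hx y hy hxy _ _ a0 a1 b0 b1 ab)
      rw [Finset.sum_range_succ, Finset.sum_range_succ, add_add_add_comm, ih ((Nat.le_succ i).trans hi)]
      exact B5_alg _ _ _ _ _ c1 c2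
  refine ⟨fun x => ∑ j ∈ Finset.range N,
    B5_c (Φ (B5_P x0 (j / N) x)) (Φ (B5_P x0 ((j + 1 : ℕ) / N) x)), fun x hx => ?_⟩
  refine (hm x hx).congr' ?_
  filter_upwards [B5_near hx (half_pos hs)] with y hy
  have k := key y hy.1 x hx hy.2 N le_rfl
  have e : ∀ z : V → ℝ, B5_P x0 ((N : ℝ) / N) z = z := fun z => by
    funext v; rw [div_self hN0.ne']; simp [B5_P]
  rw [e, e] at k
  have hc : B5_m (Φ y) (Φ x) ≤ volume (B d) / 8 :=
    hu y hy.1 x hx fun v => (hy.2 v).trans (half_le_self hs.le)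
  rw [← B5_c_eq hc, ← k, ← B5_D_tw2]
  rfl

end Pool.Agent.MP_5cfeaf_gt.W

end

section

/-! Block B: from sweepouts to discrete sweepouts. -/

set_option autoImplicit false

open MeasureTheory Set Filter Topology Metric
open scoped ENNReal symmDiff Classical InnerProductSpace ContDiff

namespace Pool.Agent.MP_5cfeaf_gt.W

variable {d : ℕ}

/-- projection of the simplices of the double cover -/
def B6_pi {V : Type} (y : V × ZMod 2 → ℝ) : V → ℝ := fun v => y (v, 0) + y (v, 1)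

theorem B6_pi_cont {V : Type} : Continuous (B6_pi : (V × ZMod 2 → ℝ) → V → ℝ) :=
  continuous_pi fun v => (continuous_apply (v, (0 : ZMod 2))).add (continuous_apply (v, (1 : ZMod 2)))

theorem B6_pi_tau {V : Type} (y : V × ZMod 2 → ℝ) :
    B6_pi (y ∘ fun p : V × ZMod 2 => (p.1, p.2 + 1)) = B6_pi y := by
  funext v
  have h1 : (1 : ZMod 2) + 1 = 0 := by decide
  simp only [B6_pi, Function.comp_apply, zero_add, h1]
  exact add_comm _ _

theorem B6_pi_mem {V : Type} {F : Finset (V × ZMod 2)} {σ : Finset V} (h : ∀ p ∈ F, p.1 ∈ σ)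
    {y : V × ZMod 2 → ℝ} (hy : y ∈ simplex F) : B6_pi y ∈ simplex σ := by
  obtain ⟨h0, h1, h2⟩ := hy
  refine ⟨fun v => add_nonneg (h0 _) (h0 _), fun v hv => ?_, ?_⟩
  · have ha : y (v, 0) = 0 := h1 _ fun hm => hv (h _ hm)
    have hb : y (v, 1) = 0 := h1 _ fun hm => hv (h _ hm)
    simp [B6_pi, ha, hb]
  · have hs : ∑ p ∈ F, y p = ∑ p ∈ σ ×ˢ (Finset.univ : Finset (ZMod 2)), y p :=
      Finset.sum_subset (fun p hp => Finset.mem_product.2 ⟨h p hp, Finset.mem_univ _⟩)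
        fun p _ hp => h1 p hp
    rw [← h2, hs, Finset.sum_product]
    refine Finset.sum_congr rfl fun v _ => ?_
    have hu : (Finset.univ : Finset (ZMod 2)) = {0, 1} := by decide
    rw [hu, Finset.sum_pair (by decide)]
    rfl

/-- the sheet of a point of the double cover -/
noncomputable def B6_b {V : Type} (Φ : (V → ℝ) → Set (R d)) (y : V × ZMod 2 → ℝ) : ZMod 2 :=
  if h : ∃ p, y p ≠ 0 then h.choose.2 + monoP Φ (Pi.single h.choose.1 1) (B6_pi y) else 0

theorem B6_z1 (a b c e f : ZMod 2) (h : a + b = c + e) : a + (c + f) = b + e + f := by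
  revert a b c e f; decide

theorem B6_z2 (a b c e f : ZMod 2) (h : a + 1 + b = c + e) : a + (c + f) = b + e + f + 1 := by
  revert a b c e f; decide

theorem B6_z3 (a : ZMod 2) : a + 1 + 1 = a := by
  revert a; decide

theorem B6_key {V : Type} {σ : Finset V} {Φ : (V → ℝ) → Set (R d)} {e : (V → ℝ) → ZMod 2}
    (he : ∀ x ∈ simplex σ, Tendsto (fun y => volume ((tw (e y) (Φ y) ∆ tw (e x) (Φ x)) ∩ B d))
      (𝓝[simplex σ] x) (𝓝 0)) {F : Finset (V × ZMod 2)} (h : ∀ p ∈ F, p.1 ∈ σ)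
    (h' : ∀ p ∈ F, ∀ q ∈ F, p.2 + q.2 = mono Φ p.1 q.1) {q : V × ZMod 2} (hq : q ∈ F)
    {y : V × ZMod 2 → ℝ} (hy : y ∈ simplex F) :
    B6_b Φ y = q.2 + e (Pi.single q.1 1) + e (B6_pi y) ∧
      B6_b Φ (y ∘ fun p : V × ZMod 2 => (p.1, p.2 + 1)) =
        q.2 + e (Pi.single q.1 1) + e (B6_pi y) + 1 := by
  have hm : ∀ p ∈ F, p.2 + q.2 = e (Pi.single p.1 1) + e (Pi.single q.1 1) := fun p hp => by
    rw [h' p hp q hq, mono_eq_monoP,
      monoP_eq σ Φ e he (single_mem_simplex (h p hp)) (single_mem_simplex (h q hq))]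
  obtain ⟨p0, -, hp0⟩ := simplex_exists_ne hy
  have hin : ∀ p, y p ≠ 0 → p ∈ F := fun p hp => by
    by_contra hn
    exact hp (hy.2.1 p hn)
  constructor
  · have hex : ∃ p, y p ≠ 0 := ⟨p0, hp0⟩
    have hp := hin _ hex.choose_spec
    rw [B6_b, dif_pos hex,
      monoP_eq σ Φ e he (single_mem_simplex (h _ hp)) (B6_pi_mem h hy)]
    exact B6_z1 _ _ _ _ _ (hm _ hp)
  · have hex : ∃ p, (y ∘ fun p : V × ZMod 2 => (p.1, p.2 + 1)) p ≠ 0 :=
      ⟨(p0.1, p0.2 + 1), by simpa [B6_z3] using hp0⟩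
    have hp := hin _ hex.choose_spec
    have hp1 : hex.choose.1 ∈ σ := h (hex.choose.1, hex.choose.2 + 1) hp
    rw [B6_b, dif_pos hex, B6_pi_tau,
      monoP_eq σ Φ e he (single_mem_simplex hp1) (B6_pi_mem h hy)]
    exact B6_z2 _ _ _ _ _ (hm _ hp)

/-- From a sweepout to discrete sweepouts.  Plan: unfold `width` (`iInf_lt_iff`), `swl_lift` with
`lam = mono Φ`, `Q σ = σ ∈ X.faces` (`exists_lift`, `monoP_eq`, `mono_eq_monoP`), then `SwL.fam` with
`Q' F = ∃ σ ∈ X.faces, (∀ p ∈ F, p.1 ∈ σ) ∧ ∀ p ∈ F, ∀ q ∈ F, p.2 + q.2 = mono Φ p.1 q.1`,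
`π y v = y (v,0) + y (v,1)` (maps `simplex F` to `simplex σ`),
`G y = tw (p.2 + monoP Φ (Pi.single p.1 1) (π y)) (Φ (π y))` with `p = Classical.epsilon (y · ≠ 0)` (or a `dite`).
If `e` is a lift on `σ`, `c = p.2 + e (Pi.single p.1 1)` is constant on `F` and
`G y = tw c (tw (e (π y)) (Φ (π y)))`, `G (y ∘ τ) = tw (c+1) (..)`; `unif_vol`, `pm_tw`, `pm_open`, `odd2_S`. -/
theorem sw_of_width {k : ℕ} {L : ℝ} (h : width (d + 1) k < ENNReal.ofReal L) {η : ℝ} (hη : 0 < η) :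
    SwS (d := d) k (FA L) (FR η) := by
  rw [width] at h
  simp only [iInf_lt_iff] at h
  obtain ⟨V, X, Φ, ⟨⟨-, hF, -⟩, hS⟩, hL⟩ := h
  have hlift : ∀ σ ∈ X.faces, ∃ e : (V → ℝ) → ZMod 2, ∀ x ∈ simplex σ,
      Tendsto (fun y => volume ((tw (e y) (Φ y) ∆ tw (e x) (Φ x)) ∩ B d)) (𝓝[simplex σ] x) (𝓝 0) :=
    fun σ hσ => exists_lift σ Φ fun x hx => ⟨(hF σ hσ x hx).1, (hF σ hσ x hx).2.2⟩
  have h1 := swl_lift k (mono Φ) (fun σ => σ ∈ X.faces) (fun σ hσ => by
    obtain ⟨e, he⟩ := hlift σ hσ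
    exact ⟨fun v => e (Pi.single v 1), fun v hv w hw => by
      rw [mono_eq_monoP, monoP_eq σ Φ e he (single_mem_simplex hv) (single_mem_simplex hw)]⟩) hS
  have h2 := h1.mono (P' := fun l => ∃ F : Finset (V × ZMod 2), (∃ σ ∈ X.faces, (∀ p ∈ F, p.1 ∈ σ) ∧
      ∀ p ∈ F, ∀ q ∈ F, p.2 + q.2 = mono Φ p.1 q.1) ∧ ∀ a ∈ l, a ∈ F) (by
    rintro l - ⟨σ, hσ, ha, hb⟩
    exact ⟨l.toFinset, ⟨σ, hσ, fun p hp => ha p (List.mem_toFinset.1 hp),
      fun p hp q hq => hb p (List.mem_toFinset.1 hp) q (List.mem_toFinset.1 hq)⟩,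
      fun a ha => List.mem_toFinset.2 ha⟩)
  refine SwL.fam (fun a => Prod.ext rfl (B6_z3 _)) odd2_S h2 (fun _ _ _ _ => rfl)
    (fun y => tw (B6_b Φ y) (Φ (B6_pi y))) ?_ ?_ ?_
  · rintro F ⟨σ, hσ, ha, hb⟩ x hx
    obtain ⟨e, he⟩ := hlift σ hσ
    obtain ⟨q, hq, -⟩ := simplex_exists_ne hx
    obtain ⟨k1, k2⟩ := B6_key he ha hb hq hx
    simp only [k1, k2, B6_pi_tau, tw_add_one]
  · rintro F ⟨σ, hσ, ha, hb⟩ x hx
    have hm := B6_pi_mem ha hx
    refine ⟨tw_meas _ (hF σ hσ _ hm).1, ?_⟩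
    rw [pm_tw _ (hF σ hσ _ hm).1, pm_open _ isOpen_ball]
    refine le_trans ?_ hL.le
    exact le_iSup₂_of_le σ hσ (le_iSup₂_of_le (B6_pi x) hm le_rfl)
  · rintro F ⟨σ, hσ, ha, hb⟩
    obtain ⟨e, he⟩ := hlift σ hσ
    refine unif_vol F _ (fun x hx => ?_) hη
    obtain ⟨q, hq, -⟩ := simplex_exists_ne hx
    have ht : Tendsto (B6_pi : (V × ZMod 2 → ℝ) → V → ℝ) (𝓝[simplex F] x)
        (𝓝[simplex σ] (B6_pi x)) :=
      B6_pi_cont.continuousWithinAt.tendsto_nhdsWithin fun y hy => B6_pi_mem ha hy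
    refine ((he _ (B6_pi_mem ha hx)).comp ht).congr' ?_
    filter_upwards [self_mem_nhdsWithin] with y hy
    rw [(B6_key he ha hb hq hx).1, (B6_key he ha hb hq hy).1, ← tw_tw _ (e (B6_pi y)),
      ← tw_tw _ (e (B6_pi x)), tw_symmDiff]
    rfl

end Pool.Agent.MP_5cfeaf_gt.W

end

section

/-! Block B: from a continuous equivariant family to a sweepout. -/

set_option autoImplicit false

open MeasureTheory Set Filter Topology Metric
open scoped ENNReal symmDiff Classical InnerProductSpace ContDiff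

namespace Pool.Agent.MP_5cfeaf_gt.W

variable {d : ℕ}

theorem B7w_z (b : ZMod 2) : b = 0 ∨ b = 1 := by revert b; decide

theorem B7w_tw1 (Ω : Set (R d)) : tw 1 Ω = Ωᶜ := by
  have := tw_add_one 0 Ω
  rwa [zero_add, tw_zero] at this

theorem B7w_uS (b : ZMod 2) (Ω : Set (R d)) : uS (tw b Ω) = uS Ω + b := by
  rcases B7w_z b with rfl | rfl
  · rw [tw_zero, add_zero]
  · rw [B7w_tw1]; exact odd2_S.2 Ω

theorem B7w_flat (b c : ZMod 2) {Ω Ω' : Set (R d)} (h : MeasurableSet Ω) (h' : MeasurableSet Ω') :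
    flat (tw b Ω) (tw c Ω') ≤ volume ((Ω ∆ Ω') ∩ B d) := by
  refine (flat_le (tw_meas b h) (tw_meas c h')).trans ?_
  rcases B7w_z b with rfl | rfl <;> rcases B7w_z c with rfl | rfl <;>
    simp only [tw_zero, B7w_tw1, compl_compl, compl_symmDiff_compl]
  · exact min_le_left _ _
  · exact min_le_right _ _
  · exact min_le_right _ _
  · exact min_le_left _ _

theorem B7w_gen {ι : Type} {τ : ι → ι} {u : ι → ZMod 2} (ho : Odd2 τ u) {k : ℕ} (hk : 1 ≤ k)
    (𝓕 : Finset (Finset ι)) (h : SwL τ u k (fun l => ∃ F ∈ 𝓕, ∀ a ∈ l, a ∈ F))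
    (hinj : ∀ F ∈ 𝓕, ∀ v ∈ F, τ v ∉ F)
    (hsep : ∀ F ∈ 𝓕, ∀ F' ∈ 𝓕, ∀ T ⊆ F, (∀ v ∈ T, v ∈ F' ∨ τ v ∈ F') →
      (∀ v ∈ T, v ∈ F') ∨ ∀ v ∈ T, τ v ∈ F') {L : ℝ} (G : (ι → ℝ) → Set (R d))
    (hG : ∀ F ∈ 𝓕, ∀ x ∈ simplex F, G (x ∘ τ) = (G x)ᶜ)
    (hA : ∀ F ∈ 𝓕, ∀ x ∈ simplex F, FA L (G x) ∧
      Tendsto (fun y => volume ((G y ∆ G x) ∩ B d)) (𝓝[simplex F] x) (𝓝 0))
    (hN : ∀ F ∈ 𝓕, Tendsto (fun r : ℝ => ⨆ x ∈ simplex F, ⨆ q ∈ closedBall (0 : R d) 1,
      pm (G x) (ball q r ∩ B d)) (𝓝[>] 0) (𝓝 0)) : width (d + 1) k ≤ ENNReal.ofReal L := by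
  obtain ⟨rep, Φ, hrep, hΦ⟩ := exists_quot (κ := compl) ho 𝓕 hinj hsep G hG
  choose! y hyc hyv hy using hΦ
  let X : PreAbstractSimplicialComplex ι :=
    ⟨{σ | σ.Nonempty ∧ ∃ F ∈ 𝓕, σ ⊆ F.image rep}, fun σ hσ => ⟨hσ.1, fun σ' h1 h2 => by
      obtain ⟨-, F, hF, h3⟩ := hσ
      exact ⟨h2, F, hF, Finset.Subset.trans h1 h3⟩⟩⟩
  let e : Finset ι → (ι → ℝ) → ZMod 2 := fun F x => if Φ x = G (y F x) then 0 else 1
  have hΦ : ∀ F ∈ 𝓕, ∀ x ∈ simplex (F.image rep), Φ x = tw (e F x) (G (y F x)) := by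
    intro F hF x hx
    by_cases h1 : Φ x = G (y F x)
    · simp only [e, if_pos h1, tw_zero]; exact h1
    · simp only [e, if_neg h1, B7w_tw1]; exact (hy F hF x hx).2.resolve_left h1
  have htw : ∀ F ∈ 𝓕, ∀ x ∈ simplex (F.image rep), tw (e F x) (Φ x) = G (y F x) := by
    intro F hF x hx
    conv_lhs => rw [hΦ F hF x hx]
    rw [tw_tw, B1_two, tw_zero]
  have htend : ∀ F ∈ 𝓕, ∀ x ∈ simplex (F.image rep),
      Tendsto (fun x' => volume ((G (y F x') ∆ G (y F x)) ∩ B d)) (𝓝[simplex (F.image rep)] x) (𝓝 0) :=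
    fun F hF x hx => (hA F hF _ (hy F hF x hx).1).2.comp
      ((hyc F hF).continuousWithinAt.tendsto_nhdsWithin fun z hz => (hy F hF z hz).1)
  have hper : ∀ F ∈ 𝓕, ∀ x ∈ simplex (F.image rep), ∀ U, IsOpen U →
      Per (Φ x) U = pm (G (y F x)) U := by
    intro F hF x hx U hU
    rw [← pm_open _ hU, hΦ F hF x hx, pm_tw _ (hA F hF _ (hy F hF x hx).1).1.1]
  have hbd : ∀ σ ∈ X.faces, ∀ x ∈ simplex σ, Per (Φ x) (ball 0 1) ≤ ENNReal.ofReal L := by
    rintro σ ⟨-, F, hF, hσ⟩ x hx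
    have hx' := simplex_mono hσ hx
    rw [hper F hF x hx' _ isOpen_ball]
    exact (hA F hF _ (hy F hF x hx').1).1.2
  have hsw : IsSweepout k X Φ := by
    refine ⟨⟨⟨𝓕.sup Finset.card, ?_⟩, ?_, ?_⟩, ?_⟩
    · rintro σ ⟨-, F, hF, hσ⟩
      exact (Finset.card_le_card hσ).trans (Finset.card_image_le.trans (Finset.le_sup hF))
    · intro σ hσ x hx
      refine ⟨?_, (hbd σ hσ x hx).trans_lt ENNReal.ofReal_lt_top, ?_⟩
      · obtain ⟨-, F, hF, hσ⟩ := hσ
        have hx' := simplex_mono hσ hx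
        rw [hΦ F hF x hx']
        exact tw_meas _ (hA F hF _ (hy F hF x hx').1).1.1
      · obtain ⟨-, F, hF, hσ⟩ := hσ
        have hx' := simplex_mono hσ hx
        refine tendsto_of_tendsto_of_tendsto_of_le_of_le' tendsto_const_nhds
          ((htend F hF x hx').mono_left (nhdsWithin_mono _ (simplex_mono hσ)))
          (Eventually.of_forall fun _ => zero_le) ?_
        filter_upwards [self_mem_nhdsWithin] with z hz
        have hz' := simplex_mono hσ hz
        rw [hΦ F hF x hx', hΦ F hF z hz']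
        exact B7w_flat _ _ (hA F hF _ (hy F hF z hz').1).1.1 (hA F hF _ (hy F hF x hx').1).1.1
    · have hs := tendsto_finsetSum 𝓕 hN
      rw [Finset.sum_const_zero] at hs
      refine tendsto_of_tendsto_of_tendsto_of_le_of_le tendsto_const_nhds hs (fun _ => zero_le) ?_
      intro r
      refine iSup₂_le fun σ hσ => iSup₂_le fun x hx => iSup₂_le fun q hq => ?_
      obtain ⟨-, F, hF, hσ⟩ := hσ
      have hx' := simplex_mono hσ hx
      rw [hper F hF x hx' _ (isOpen_ball.inter isOpen_ball)]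
      refine le_trans ?_ (Finset.single_le_sum (f := fun F => ⨆ x ∈ simplex F,
        ⨆ q ∈ closedBall (0 : R d) 1, pm (G x) (ball q r ∩ B d)) (fun _ _ => zero_le) hF)
      exact le_iSup₂_of_le (y F x) (hy F hF x hx').1 (le_iSup₂_of_le q hq le_rfl)
    · rintro ⟨f, hf⟩
      let u2 : ι → ZMod 2 := fun v => uS (G (Pi.single v 1)) + uS (Φ (Pi.single (rep v) 1))
      have hmem : ∀ F : Finset ι, ∀ v ∈ F, (Pi.single (rep v) 1 : ι → ℝ) ∈ simplex (F.image rep) :=
        fun F v hv => single_mem_simplex (Finset.mem_image_of_mem _ hv)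
      have he : ∀ F ∈ 𝓕, ∀ v ∈ F, e F (Pi.single (rep v) 1) = u2 v := by
        intro F hF v hv
        simp only [u2]
        conv_rhs => rw [hΦ F hF _ (hmem F v hv), hyv F hF v hv, B7w_uS, ← add_assoc, B1_two, zero_add]
      have hmono : ∀ F ∈ 𝓕, ∀ v ∈ F, ∀ w ∈ F, mono Φ (rep v) (rep w) = u2 v + u2 w := by
        intro F hF v hv w hw
        rw [mono_eq_monoP, monoP_eq (F.image rep) Φ (e F) ?_ (hmem F v hv) (hmem F w hw),
          he F hF v hv, he F hF w hw]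
        intro x hx
        refine (htend F hF x hx).congr' ?_
        filter_upwards [self_mem_nhdsWithin] with z hz
        rw [htw F hF x hx, htw F hF z hz]
      have hodd : ∀ F ∈ 𝓕, ∀ v ∈ F, u2 (τ v) = u2 v + 1 := by
        intro F hF v hv
        have h1 : (Pi.single (τ v) 1 : ι → ℝ) = (Pi.single v 1 : ι → ℝ) ∘ τ := by
          funext w
          by_cases hw : w = τ v
          · subst hw; simp [ho.1]
          · have : τ w ≠ v := fun h => hw (by rw [← h, ho.1])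
            simp [hw, this]
        simp only [u2]
        rw [h1, hG F hF _ (single_mem_simplex hv), odd2_S.2, hrep]
        ring
      obtain ⟨c, hc, hinv, hev⟩ := h.indep ho.1 (u' := u2) fun l hl a ha => by
        obtain ⟨F, hF, hl⟩ := hl
        exact ⟨ho.2 a, hodd F hF a (hl a ha)⟩
      obtain ⟨v0⟩ : Nonempty ι := by
        by_contra hne
        have : c = 0 := by
          ext l
          by_contra hl
          have := (hc l (Finsupp.mem_support_iff.2 hl)).1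
          rcases l with _ | ⟨a, l⟩
          · simp at this
          · exact hne ⟨a⟩
        rw [this, ev_zero] at hev
        exact zero_ne_one hev
      let f2 : List ι → ZMod 2 := fun l => f fun i => rep (l.getD i v0)
      have h0 : ev f2 (bd c) = 0 := by
        refine ev_inv ho.1 hinv fun l hl => ?_
        obtain ⟨l', hl', -, hlen⟩ := supp_bd hl
        have hlk : l.length = k := by have := (hc l' hl').1; omega
        constructor
        · rcases l with _ | ⟨a, l⟩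
          · simp at hlk; omega
          · intro h1
            have h2 : τ a = a := (List.cons.inj h1).1
            have h3 := ho.2 a
            rw [h2] at h3
            exact zero_ne_one (by linear_combination h3 : (0 : ZMod 2) = 1)
        · simp only [f2]
          congr 1
          funext i
          have hi : (i : ℕ) < l.length := hlk ▸ i.2
          simp [List.getD_eq_getElem?_getD, hi, hrep]
      rw [ev_bd, ev_congr (F' := Lam u2), hev] at h0
      · exact one_ne_zero h0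
      intro l hl
      obtain ⟨hlen, F, hF, hlF⟩ := hc l hl
      obtain ⟨s, rfl⟩ : ∃ s : Fin (k + 1) → ι, l = List.ofFn s :=
        ⟨fun i => l.get (i.cast hlen.symm), List.ext_get (by simp [hlen]) fun i h1 h2 => by
          simp only [List.get_eq_getElem, List.getElem_ofFn, Fin.val_cast]⟩
      have hs : ∀ i, s i ∈ F := fun i => hlF _ (List.mem_ofFn.2 ⟨i, rfl⟩)
      have h1 := hf (rep ∘ s) ⟨by simp, F, hF, fun w hw => by
        obtain ⟨i, -, rfl⟩ := Finset.mem_image.1 hw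
        exact Finset.mem_image_of_mem _ (hs i)⟩
      rw [bdL_ofFn, Lam_ofFn, ev_eq, map_sum]
      simp only [Function.comp, hmono F hF _ (hs _) _ (hs _)] at h1
      rw [h1]
      refine Finset.sum_congr rfl fun i _ => ?_
      rw [← ev_eq, ev_single]
      simp only [f2]
      congr 1
      funext j
      simp [List.getD_eq_getElem?_getD]
  refine iInf_le_of_le ι (iInf_le_of_le X (iInf_le_of_le Φ (iInf_le_of_le hsw ?_)))
  exact iSup₂_le fun σ hσ => iSup₂_le fun x hx => hbd σ hσ x hx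

/-- From a continuous equivariant family to a sweepout.  Plan: `Sw.flags`, `SwL.fin`: finite set `𝓕` of flags
and a chain `c`; `exists_quot`; faces = nonempty subsets of the `F.image rep`.  On `F.image rep` put
`e x = 0` if `Φ x = G (y x)`, else `1`, so `tw (e x) (Φ x) = G (y x)`; `flat_le`, `pm_tw`, `pm_open`,
finite suprema for the concentration condition.  `monoP_eq` gives `mono Φ (rep v) (rep w) = u'' v + u'' w` on `F`
with `u'' v = uS (G (Pi.single v 1)) + uS (Φ (Pi.single (rep v) 1))`, odd on vertices of flags; `SwL.indep`.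
If `f` existed, the invariant cochain `l ↦ f (fun i => rep (l.getD i v0))` on lists of length `k ≥ 1`
contradicts `ev_inv`, `ev_bd`, `bdL_ofFn`, `Lam_ofFn` (write `l = List.ofFn s`). -/
theorem width_le_of_family {k : ℕ} (hk : 1 ≤ k) {A : Set (R d) → Prop}
    {Rl : Set (R d) → Set (R d) → Prop} (h : SwS k A Rl) (hfree : ∀ a, A a → ¬ Rl a aᶜ) {L : ℝ}
    (G : (Vx (Set (R d)) → ℝ) → Set (R d))
    (hG : ∀ F, IsFlag k A Rl F → ∀ x ∈ simplex F, G (x ∘ Vx.inv compl) = (G x)ᶜ)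
    (hA : ∀ F, IsFlag k A Rl F → ∀ x ∈ simplex F, FA L (G x) ∧
      Tendsto (fun y => volume ((G y ∆ G x) ∩ B d)) (𝓝[simplex F] x) (𝓝 0))
    (hN : ∀ F, IsFlag k A Rl F → Tendsto (fun r : ℝ => ⨆ x ∈ simplex F, ⨆ q ∈ closedBall (0 : R d) 1,
      pm (G x) (ball q r ∩ B d)) (𝓝[>] 0) (𝓝 0)) : width (d + 1) k ≤ ENNReal.ofReal L := by
  obtain ⟨s, hs, hsw⟩ := (Sw.flags odd2_S h).fin
  choose! Fl hFl using fun l hl => (hs l hl).2
  have hfl : ∀ F ∈ s.image Fl, IsFlag k A Rl F := fun F hF => by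
    obtain ⟨l, hl, rfl⟩ := Finset.mem_image.1 hF
    exact (hFl l hl).1
  have ho : Odd2 (Vx.inv (compl : Set (R d) → Set (R d))) (fun v => uS v.1) := by
    refine ⟨fun v => ?_, fun v => odd2_S.2 v.1⟩
    simp [Vx.inv]
  exact B7w_gen ho hk (s.image Fl)
    (hsw.mono fun l _ hl => ⟨Fl l, Finset.mem_image_of_mem _ hl, (hFl l hl).2⟩)
    (fun F hF => (flag_sep odd2_S hfree (hfl F hF) (hfl F hF)).1)
    (fun F hF F' hF' => (flag_sep odd2_S hfree (hfl F hF) (hfl F' hF')).2) G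
    (fun F hF => hG F (hfl F hF)) (fun F hF => hA F (hfl F hF)) (fun F hF => hN F (hfl F hF))

end Pool.Agent.MP_5cfeaf_gt.W

end

section

/-! Block B: perimeter of positivity sets. -/

set_option autoImplicit false

open MeasureTheory Set Filter Topology Metric
open scoped ENNReal symmDiff Classical InnerProductSpace ContDiff

namespace Pool.Agent.MP_5cfeaf_gt.W

variable {d : ℕ}

/-- the point with `i`-th coordinate `t` and the other coordinates `y` -/
noncomputable def B9_ins (i : Fin (d + 1)) (y : Fin d → ℝ) (t : ℝ) : R d :=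
  WithLp.toLp 2 (Fin.insertNth (α := fun _ => ℝ) i t y)

theorem B9_ins_eq (i : Fin (d + 1)) (y : Fin d → ℝ) (t : ℝ) :
    B9_ins i y t = B9_ins i y 0 + t • EuclideanSpace.single i (1 : ℝ) := by
  ext k
  refine Fin.succAboveCases i ?_ (fun l => ?_) k
  · simp [B9_ins]
  · simp [B9_ins]

theorem B9_deriv (i : Fin (d + 1)) (y : Fin d → ℝ) (t : ℝ) :
    HasDerivAt (B9_ins i y) (EuclideanSpace.single i (1 : ℝ)) t := by
  have e : B9_ins i y = fun t => B9_ins i y 0 + t • EuclideanSpace.single i (1 : ℝ) :=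
    funext (B9_ins_eq i y)
  rw [e]
  simpa using ((hasDerivAt_id t).smul_const (EuclideanSpace.single i (1 : ℝ) : R d)).const_add
    (B9_ins i y 0)

theorem B9_smooth (i : Fin (d + 1)) (y : Fin d → ℝ) : ContDiff ℝ 1 (B9_ins i y) := by
  have e : B9_ins i y = fun t => B9_ins i y 0 + t • EuclideanSpace.single i (1 : ℝ) :=
    funext (B9_ins_eq i y)
  rw [e]
  exact contDiff_const.add (contDiff_id.smul contDiff_const)

theorem B9_mp (i : Fin (d + 1)) :
    MeasurePreserving (fun z : ℝ × (Fin d → ℝ) => B9_ins i z.2 z.1) volume volume :=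
  (PiLp.volume_preserving_toLp (Fin (d + 1))).comp
    (volume_preserving_piFinSuccAbove (fun _ : Fin (d + 1) => ℝ) i).symm

theorem B9_poly {p q : ℕ} {ex : Fin p → Fin (d + 1) → ℕ} (hq : ∀ j i, ex j i < q + 1) (a : Fin p → ℝ)
    (i : Fin (d + 1)) (y : Fin d → ℝ) :
    ∃ f : Polynomial ℝ, f.natDegree ≤ q ∧ ∀ t, f.eval t = pol ex a (B9_ins i y t) := by
  refine ⟨∑ j, Polynomial.monomial (ex j i) (a j * ∏ l, y l ^ ex j (i.succAbove l)), ?_, fun t => ?_⟩
  · refine Polynomial.natDegree_sum_le_of_forall_le _ _ fun j _ => ?_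
    exact (Polynomial.natDegree_monomial_le _).trans (Nat.lt_succ_iff.1 (hq j i))
  · rw [Polynomial.eval_finsetSum, pol]
    refine Finset.sum_congr rfl fun j _ => ?_
    rw [Polynomial.eval_monomial, Fin.prod_univ_succAbove _ i]
    simp only [B9_ins, Fin.insertNth_apply_same, Fin.insertNth_apply_succAbove]
    ring

theorem B9_coord_le (x : R d) (k : Fin (d + 1)) : |x k| ≤ ‖x‖ := by
  simpa using PiLp.norm_apply_le x k

theorem B9_open {p : ℕ} (ex : Fin p → Fin (d + 1) → ℕ) (a : Fin p → ℝ) :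
    IsOpen {x : R d | 0 < pol ex a x} :=
  isOpen_lt continuous_const ((continuous_pol ex).comp (Continuous.prodMk_right a))

theorem B9_pd_cont {g : R d → ℝ} (hg : ContDiff ℝ 1 g) (i : Fin (d + 1)) : Continuous (pd i g) :=
  (hg.continuous_fderiv one_ne_zero).clm_apply continuous_const

theorem B9_pd_int {g : R d → ℝ} (hg : C1c g (B d)) (i : Fin (d + 1)) : Integrable (pd i g) :=
  (B9_pd_cont hg.1 i).integrable_of_hasCompactSupport (hg.2.1.fderiv_apply (𝕜 := ℝ) _)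

theorem B9_pd_zero {g : R d → ℝ} (hg : C1c g (B d)) (i : Fin (d + 1)) {x : R d} (hx : x ∉ B d) :
    pd i g x = 0 := by
  have h : x ∉ tsupport g := fun h => hx (hg.2.2 h)
  simp [pd, fderiv_of_notMem_tsupport ℝ h]

/-- One direction.  Plan: Fubini along the coordinate `i`: `PiLp.volume_preserving_toLp`,
`volume_preserving_piFinSuccAbove (fun _ => ℝ) i`, `x = toLp (Fin.insertNth i t y)`; on the line
`pol ex a x = eval t (∑ j, monomial (ex j i) (a j * ∏ l, y l ^ ex j (i.succAbove l)))` has `natDegree + 1 ≤ q`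
(if `p = 0` the set is empty), `pd i g` is the `t`-derivative, `one_dim`; the slice of `g` vanishes unless
`y ∈ Icc (-1) 1`, a set of volume `2 ^ d`. -/
theorem pol_dir {p q : ℕ} {ex : Fin p → Fin (d + 1) → ℕ} (hq : ∀ j i, ex j i < q) (a : Fin p → ℝ)
    {g : R d → ℝ} (hg : C1c g (B d)) (h1 : ∀ x, |g x| ≤ 1) (i : Fin (d + 1)) :
    |∫ x in {x : R d | 0 < pol ex a x}, pd i g x| ≤ 2 * q * 2 ^ d := by
  rcases q with _ | q
  · have he : {x : R d | 0 < pol ex a x} = ∅ := by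
      ext x
      have : IsEmpty (Fin p) := ⟨fun j => Nat.not_lt_zero _ (hq j 0)⟩
      simp [pol]
    simp [he]
  have hS := (B9_open ex a).measurableSet
  set F : R d → ℝ := indicator {x : R d | 0 < pol ex a x} (pd i g) with hF
  have hFi : Integrable F := (B9_pd_int hg i).indicator hS
  have hc : Integrable (fun z : ℝ × (Fin d → ℝ) => F (B9_ins i z.2 z.1)) :=
    (B9_mp i).integrable_comp_of_integrable hFi
  have e1 : ∫ x, F x = ∫ z : ℝ × (Fin d → ℝ), F (B9_ins i z.2 z.1) := by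
    have hm := (B9_mp (d := d) i).map_eq
    have := integral_map (μ := (volume : Measure (ℝ × (Fin d → ℝ))))
      (B9_mp (d := d) i).measurable.aemeasurable (f := F) (by rw [hm]; exact hFi.1)
    rw [hm] at this
    exact this
  rw [← integral_indicator hS, e1, Measure.volume_eq_prod, integral_prod_symm _ hc]
  have hI : MeasurableSet (Icc (fun _ : Fin d => (-1 : ℝ)) fun _ => 1) := measurableSet_Icc
  have hb : ∀ y : Fin d → ℝ, ‖∫ t, F (B9_ins i y t)‖ ≤
      indicator (Icc (fun _ : Fin d => (-1 : ℝ)) fun _ => 1) (fun _ => 2 * ((q + 1 : ℕ) : ℝ)) y := by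
    intro y
    by_cases hy : y ∈ Icc (fun _ : Fin d => (-1 : ℝ)) fun _ => 1
    · rw [indicator_of_mem hy]
      obtain ⟨f, hf, hfe⟩ := B9_poly hq a i y
      have hcs : HasCompactSupport (g ∘ B9_ins i y) := by
        refine HasCompactSupport.intro (isCompact_Icc (a := (-1 : ℝ)) (b := 1)) fun t ht => ?_
        refine image_eq_zero_of_notMem_tsupport (f := g) fun h => ht ?_
        have h2 := mem_ball_zero_iff.1 (hg.2.2 h)
        have h3 := B9_coord_le (B9_ins i y t) i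
        have h4 : B9_ins i y t i = t := by simp [B9_ins]
        rw [h4] at h3
        exact abs_le.1 (h3.trans h2.le)
      have h2 := one_dim f (hg.1.comp (B9_smooth i y)) hcs fun t => h1 _
      have hm : MeasurableSet {t | 0 < f.eval t} :=
        (isOpen_lt continuous_const f.continuous).measurableSet
      have e2 : ∫ t, F (B9_ins i y t) = ∫ t in {t | 0 < f.eval t}, deriv (g ∘ B9_ins i y) t := by
        rw [← integral_indicator hm]
        refine integral_congr_ae (Eventually.of_forall fun t => ?_)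
        have hd' : deriv (g ∘ B9_ins i y) t = pd i g (B9_ins i y t) :=
          (((hg.1.differentiable one_ne_zero) _).hasFDerivAt.comp_hasDerivAt t (B9_deriv i y t)).deriv
        by_cases ht : 0 < pol ex a (B9_ins i y t)
        · have ht' : t ∈ {t | 0 < f.eval t} := by simpa [hfe] using ht
          simp only [hF]
          rw [indicator_of_mem ht', indicator_of_mem (show B9_ins i y t ∈ {x : R d | 0 < pol ex a x} from ht), hd']
        · have ht' : t ∉ {t | 0 < f.eval t} := by simpa only [hfe, mem_ofPred_eq, not_lt] using ht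
          simp only [hF]
          rw [indicator_of_notMem ht',
            indicator_of_notMem (show B9_ins i y t ∉ {x : R d | 0 < pol ex a x} from ht)]
      rw [e2, Real.norm_eq_abs]
      refine h2.trans ?_
      have : (f.natDegree : ℝ) ≤ q := by exact_mod_cast hf
      push_cast
      linarith only [this]
    · rw [indicator_of_notMem hy]
      have h0 : ∀ t, F (B9_ins i y t) = 0 := by
        intro t
        have hx : B9_ins i y t ∉ B d := by
          intro h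
          apply hy
          have h2 := mem_ball_zero_iff.1 h
          have h3 : ∀ l, |y l| ≤ 1 := fun l => by
            have h3 := B9_coord_le (B9_ins i y t) (i.succAbove l)
            have h4 : B9_ins i y t (i.succAbove l) = y l := by simp [B9_ins]
            rw [h4] at h3
            exact h3.trans h2.le
          exact ⟨fun l => (abs_le.1 (h3 l)).1, fun l => (abs_le.1 (h3 l)).2⟩
        simp only [hF]
        by_cases ht : B9_ins i y t ∈ {x : R d | 0 < pol ex a x}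
        · rw [indicator_of_mem ht, B9_pd_zero hg i hx]
        · rw [indicator_of_notMem ht]
      simp [h0]
  have hv : (volume (Icc (fun _ : Fin d => (-1 : ℝ)) fun _ => 1)).toReal = 2 ^ d := by
    rw [Real.volume_Icc_pi_toReal (fun _ => by norm_num)]
    norm_num only [Finset.prod_const, Finset.card_univ, Fintype.card_fin]
  have hint : Integrable (indicator (Icc (fun _ : Fin d => (-1 : ℝ)) fun _ => 1)
      (fun _ => 2 * ((q + 1 : ℕ) : ℝ))) :=
    (integrable_indicator_iff hI).2 (integrableOn_const isCompact_Icc.measure_lt_top.ne)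
  have h5 := norm_integral_le_of_norm_le hint (Eventually.of_forall hb)
  rw [integral_indicator_const _ hI, Measure.real, hv, smul_eq_mul, mul_comm] at h5
  exact h5

/-- `dv T = ∑ i, pd i (T · i)`, `pol_dir`, `pm_open` -/
theorem pm_pol {p q : ℕ} {ex : Fin p → Fin (d + 1) → ℕ} (hq : ∀ j i, ex j i < q) (a : Fin p → ℝ) :
    pm {x : R d | 0 < pol ex a x} (B d) ≤ ENNReal.ofReal ((d + 1) * 2 ^ (d + 1) * q) := by
  rw [pm_open _ isOpen_ball, Per]
  refine iSup_le fun T => iSup_le fun ⟨hT, hc, hs, hb⟩ => ENNReal.ofReal_le_ofReal ?_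
  have hg : ∀ i : Fin (d + 1), C1c (fun x => T x i) (B d) := fun i => by
    have hsub : Function.support (fun x => T x i) ⊆ Function.support T := fun x hx h => hx (by simp [h])
    exact ⟨(EuclideanSpace.proj (𝕜 := ℝ) i).contDiff.comp hT, hc.mono hsub,
      (closure_mono hsub).trans hs⟩
  have e : ∀ x, dv T x = ∑ i, pd i (fun x => T x i) x := fun x => by
    refine Finset.sum_congr rfl fun i _ => ?_
    have h1 := ((EuclideanSpace.proj (𝕜 := ℝ) i).hasFDerivAt.comp x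
      ((hT.differentiable one_ne_zero) x).hasFDerivAt).fderiv
    have h2 : fderiv ℝ (fun x => T x i) x = _ := h1
    simp [pd, h2]
  simp only [e]
  rw [integral_finsetSum _ fun i _ => (B9_pd_int (hg i) i).integrableOn]
  calc ∑ i, ∫ x in {x : R d | 0 < pol ex a x}, pd i (fun x => T x i) x
      ≤ ∑ _i : Fin (d + 1), (2 * q * 2 ^ d : ℝ) := Finset.sum_le_sum fun i _ =>
        (le_abs_self _).trans (pol_dir hq a (hg i) (fun x => (B9_coord_le (T x) i).trans (hb x)) i)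
    _ = (d + 1) * 2 ^ (d + 1) * q := by simp only [Finset.sum_const, Finset.card_univ, Fintype.card_fin, nsmul_eq_mul, Nat.cast_add, Nat.cast_one]; ring

end Pool.Agent.MP_5cfeaf_gt.W

end

section

/-! Block B: polynomial sweepouts. -/

set_option autoImplicit false

open MeasureTheory Set Filter Topology Metric
open scoped ENNReal symmDiff Classical InnerProductSpace ContDiff

namespace Pool.Agent.MP_5cfeaf_gt.W

variable {d : ℕ}

/-- coefficient vector of a point of the cross-polytope -/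
def B11_c (p : ℕ) (y : ℕ × ZMod 2 → ℝ) : Fin (p + 1) → ℝ := fun j => y (j, 0) - y (j, 1)

theorem B11_c_inv (p : ℕ) (y : ℕ × ZMod 2 → ℝ) :
    B11_c p (y ∘ fun a : ℕ × ZMod 2 => (a.1, a.2 + 1)) = -B11_c p y := by
  funext j
  have h2 : (1 : ZMod 2) + 1 = 0 := by decide
  simp only [B11_c, Function.comp, Pi.neg_apply, zero_add, h2]
  ring

theorem B11_c_cont (p : ℕ) : Continuous (B11_c p) := by
  refine continuous_pi fun j => ?_
  exact (continuous_apply _).sub (continuous_apply _)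

theorem B11_c_ne {p : ℕ} {F : Finset (ℕ × ZMod 2)} (h1 : ∀ a ∈ F, a.1 ≤ p)
    (h2 : ∀ a ∈ F, ∀ b ∈ F, a.1 = b.1 → a = b) {y : ℕ × ZMod 2 → ℝ} (hy : y ∈ simplex F) :
    B11_c p y ≠ 0 := by
  obtain ⟨v, hv, hne⟩ := simplex_exists_ne hy
  intro h0
  have hj := congrFun h0 ⟨v.1, Nat.lt_succ_of_le (h1 v hv)⟩
  simp only [B11_c, Pi.zero_apply] at hj
  obtain ⟨j, b⟩ := v
  have hb : b = 0 ∨ b = 1 := (by decide : ∀ b : ZMod 2, b = 0 ∨ b = 1) b
  have h01 : (0 : ZMod 2) ≠ 1 := by decide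
  rcases hb with rfl | rfl
  · have : y (j, 1) = 0 := hy.2.1 _ fun hm => h01 (congrArg Prod.snd (h2 _ hv _ hm rfl))
    apply hne
    simpa [this] using hj
  · have : y (j, 0) = 0 := hy.2.1 _ fun hm => h01 (congrArg Prod.snd (h2 _ hm _ hv rfl))
    apply hne
    simpa [this] using hj

theorem B11_meas {p : ℕ} (ex : Fin p → Fin (d + 1) → ℕ) (a : Fin p → ℝ) :
    MeasurableSet {x : R d | 0 < pol ex a x} := by
  have : Continuous fun x : R d => pol ex a x :=
    (continuous_pol ex).comp (continuous_const.prodMk continuous_id)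
  exact (isOpen_lt continuous_const this).measurableSet

theorem B11_ae {p : ℕ} {ex : Fin p → Fin (d + 1) → ℕ} (hex : Function.Injective ex)
    {a : Fin p → ℝ} (ha : a ≠ 0) :
    ({x : R d | 0 < pol ex (-a) x}ᶜ : Set (R d)) =ᵐ[volume] {x : R d | 0 < pol ex a x} := by
  filter_upwards [pol_ae_ne hex ha] with x hx
  apply propext
  change ¬ (0 < pol ex (-a) x) ↔ 0 < pol ex a x
  rw [pol_neg]
  constructor
  · intro h
    exact lt_of_le_of_ne (by linarith [not_lt.1 h]) hx.symm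
  · intro h; linarith

theorem B11_ex {q p : ℕ} (h : p + 1 ≤ q ^ (d + 1)) :
    ∃ ex : Fin (p + 1) → Fin (d + 1) → ℕ, Function.Injective ex ∧ ∀ j i, ex j i < q := by
  have hc : Fintype.card (Fin (p + 1)) ≤ Fintype.card (Fin (d + 1) → Fin q) := by simpa only [Fintype.card_fin, Fintype.card_pi, Finset.prod_const, Finset.card_univ, Order.add_one_le_iff] using h
  obtain ⟨e⟩ := Function.Embedding.nonempty_of_card_le hc
  refine ⟨fun j i => (e j i : ℕ), fun j k hjk => e.injective ?_, fun j i => (e j i).2⟩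
  funext i
  exact Fin.ext (congrFun hjk i)

/-- Polynomial sweepouts.  Plan: `C = (d+1) 2^(d+1)`; an injection `Fin (p+1) → (Fin (d+1) → Fin q)` by
cardinality gives `ex`; `SwL.fam` on `swl_cross` with `Q F = (∀ a ∈ F, a.1 ≤ p) ∧ ∀ a ∈ F, ∀ b ∈ F, a.1 = b.1 → a = b`,
`c y j = y (j,0) - y (j,1)` (nonzero on `simplex F`, `c (y ∘ τ) = - c y`), `D` from `exists_equiv_choice` on
`Fin (p+1) → ℝ` with `τ = Neg.neg`, `κ = (· + 1)` on `ZMod 2`, `Q = True`;
`G y = {0 < pol ex (c y)}` if `D (c y) = 0`, else `{0 < pol ex (-c y)}ᶜ`; it differs from `{0 < pol ex (c y)}` by a null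
set (`pol_ae_ne`); `pm_pol`, `pm_compl`, `pol_cont`, `unif_vol`. -/
theorem sw_poly (d : ℕ) : ∃ C > 0, ∀ q p : ℕ, p + 1 ≤ q ^ (d + 1) → ∀ η > 0,
    SwS (d := d) p (FA (C * q)) (FR η) := by
  refine ⟨((d : ℝ) + 1) * 2 ^ (d + 1), by positivity, fun q p hpq η hη => ?_⟩
  obtain ⟨ex, hex, hq⟩ := B11_ex (d := d) hpq
  have h2 : ∀ b : ZMod 2, b + 1 + 1 = b := by decide
  obtain ⟨D, -, hD⟩ := exists_equiv_choice (α := Fin (p + 1) → ℝ) (β := ZMod 2) (τ := Neg.neg)
    (κ := fun b => b + 1) (Q := fun _ _ => True) neg_neg h2 (fun _ => ⟨0, trivial⟩)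
    (fun _ _ _ => trivial)
  have hD' : ∀ a : Fin (p + 1) → ℝ, a ≠ 0 → D (-a) = D a + 1 := fun a ha =>
    hD a fun h => ha (by
      funext j
      have := congrFun h j
      simp only [Pi.neg_apply] at this
      simp only [Pi.zero_apply]
      linarith only [this])
  let G : (ℕ × ZMod 2 → ℝ) → Set (R d) := fun y =>
    if D (B11_c p y) = 0 then {x | 0 < pol ex (B11_c p y) x}
    else {x | 0 < pol ex (-B11_c p y) x}ᶜ
  have hae : ∀ y, B11_c p y ≠ 0 → G y =ᵐ[volume] {x : R d | 0 < pol ex (B11_c p y) x} := by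
    intro y hy
    simp only [G]
    split_ifs
    · exact EventuallyEq.rfl
    · exact B11_ae hex hy
  refine SwL.fam (τ := fun a : ℕ × ZMod 2 => (a.1, a.2 + 1)) (u := Prod.snd)
    (Q := fun F => (∀ a ∈ F, a.1 ≤ p) ∧ ∀ a ∈ F, ∀ b ∈ F, a.1 = b.1 → a = b)
    (fun a => by simp only [h2]) odd2_S ((swl_cross p).mono fun l _ hl => ?_) (fun _ _ _ _ => rfl) G
    ?_ ?_ ?_
  · exact ⟨l.toFinset, by simpa only [List.mem_toFinset] using hl, fun a ha => List.mem_toFinset.2 ha⟩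
  · rintro F ⟨h1, h1'⟩ y hy
    have hne := B11_c_ne h1 h1' hy
    simp only [G, B11_c_inv, hD' _ hne, neg_neg]
    have h3 : ∀ b : ZMod 2, b + 1 = 0 ↔ ¬ b = 0 := by decide
    by_cases h0 : D (B11_c p y) = 0
    · rw [if_neg (by rw [h3]; exact fun h => h h0), if_pos h0]
    · rw [if_pos ((h3 _).2 h0), if_neg h0, compl_compl]
  · rintro F - y -
    simp only [G]
    split_ifs
    · exact ⟨B11_meas _ _, pm_pol hq _⟩
    · refine ⟨(B11_meas _ _).compl, ?_⟩
      rw [pm_compl (B11_meas _ _)]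
      exact pm_pol hq _
  · rintro F ⟨h1, h1'⟩
    refine unif_vol F G (fun x hx => ?_) hη
    have hx0 := B11_c_ne h1 h1' hx
    have ht := ((pol_cont hex hx0).comp ((B11_c_cont p).tendsto x)).mono_left
      (nhdsWithin_le_nhds (s := simplex F))
    refine ht.congr' ?_
    filter_upwards [self_mem_nhdsWithin] with y hy
    simp only [Function.comp]
    refine measure_congr ?_
    exact (((hae y (B11_c_ne h1 h1' hy)).symmDiff (hae x hx0)).symm).inter EventuallyEq.rfl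

end Pool.Agent.MP_5cfeaf_gt.W

end

section

/-! Block C2: images of sets under small vector fields. -/

set_option autoImplicit false

open MeasureTheory Set Filter Topology Metric
open scoped ENNReal symmDiff Classical InnerProductSpace ContDiff

namespace Pool.Agent.MP_5cfeaf_gt.W

variable {d : ℕ}

/-- admissible small fields -/
def CPa_adm (Y : R d → R d) : Prop := C1c Y (B d) ∧ ∀ x, ‖fderiv ℝ Y x‖ ≤ 1 / 2

/-- image of the area element -/
noncomputable def CPa_w (Y : R d → R d) (p : R d × S d) : R d := cofv (1 + fderiv ℝ Y p.1) p.2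

/-- the map on points and normals -/
noncomputable def CPa_phi (Y : R d → R d) (p : R d × S d) : R d × S d :=
  (p.1 + Y p.1, toS (CPa_w Y p))

/-- image of a set -/
def CPa_img (Y : R d → R d) (a : Set (R d)) : Set (R d) := (fun x => x + Y x) '' a

theorem CPa_mass (a : Set (R d)) {A : Set (R d)} (hA : MeasurableSet A) :
    vf a (B d) (A ×ˢ univ) = pm a (A ∩ B d) := by
  rw [← Measure.restrict_apply hA, ← vf_fst, Measure.fst_apply hA, prod_univ]

theorem CPa_univ (a : Set (R d)) : vf a (B d) univ = pm a (B d) := by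
  rw [← univ_prod_univ, CPa_mass a MeasurableSet.univ, univ_inter]

theorem CPa_fin {L : ℝ} {a : Set (R d)} (h : FA L a) : IsFiniteMeasure (vf a (B d)) :=
  ⟨by rw [CPa_univ]; exact h.2.trans_lt ENNReal.ofReal_lt_top⟩

theorem CPa_lf {L : ℝ} {a : Set (R d)} (h : FA L a) : B d ⊆ lf a :=
  subset_lf isOpen_ball (h.2.trans_lt ENNReal.ofReal_lt_top)

theorem CPa_ae (a : Set (R d)) : ∀ᵐ p ∂vf a (B d), p.1 ∈ B d := by
  refine ae_of_ae_map (f := Prod.fst) (p := fun x => x ∈ B d) measurable_fst.aemeasurable ?_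
  have := vf_fst a (B d)
  rw [Measure.fst] at this
  rw [this]
  exact ae_restrict_mem measurableSet_ball

theorem CPa_real {L : ℝ} {a : Set (R d)} (h : FA L a) (hL : 0 ≤ L) :
    (vf a (B d)).real univ ≤ L := by
  rw [Measure.real, CPa_univ]
  exact ENNReal.toReal_le_of_le_ofReal hL h.2

theorem CPa_int_le {L κ : ℝ} {a : Set (R d)} (h : FA L a) (hL : 0 ≤ L) (hκ : 0 ≤ κ)
    {g : R d × S d → ℝ} (hg : ∀ p, p.1 ∈ B d → |g p| ≤ κ) : |∫ p, g p ∂vf a (B d)| ≤ κ * L := by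
  have := CPa_fin h
  exact (norm_integral_le_of_norm_le_const (f := g) ((CPa_ae a).mono hg)).trans
    (mul_le_mul_of_nonneg_left (CPa_real h hL) hκ)

theorem CPa_intg {L C : ℝ} {a : Set (R d)} (h : FA L a) {g : R d × S d → ℝ} (hm : Measurable g)
    (hg : ∀ p, |g p| ≤ C) : Integrable g (vf a (B d)) :=
  have := CPa_fin h
  Integrable.of_bound hm.aestronglyMeasurable C (Eventually.of_forall hg)

theorem CPa_loc {L C δ : ℝ} {a b : Set (R d)} (ha : FA L a) (hb : FA L b) (h : Loc δ a b)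
    (hδ : 0 ≤ δ) {g : R d × S d → ℝ} (hm : Measurable g) (hg : ∀ p, |g p| ≤ C) :
    |∫ p, g p ∂vf a (B d) - ∫ p, g p ∂vf b (B d)| ≤ 2 * C * δ := by
  obtain ⟨D, hD, h1, h2, h3⟩ := h
  have hU : IsOpen (B d ∩ Dᶜ) := isOpen_ball.inter hD.isOpen_compl
  have C0 : 0 ≤ C := (abs_nonneg _).trans (hg default)
  have hM : MeasurableSet ((B d ∩ Dᶜ) ×ˢ (univ : Set (S d))) :=
    hU.measurableSet.prod MeasurableSet.univ
  have key : ∀ c : Set (R d), FA L c → pm c (D ∩ B d) ≤ ENNReal.ofReal δ →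
      |∫ p, g p ∂vf c (B d) - ∫ p, g p ∂vf c (B d ∩ Dᶜ)| ≤ C * δ := fun c hc h4 => by
    have := CPa_fin hc
    rw [← integral_add_compl hM (CPa_intg hc hm hg), vf_restrict c hU.measurableSet
      inter_subset_left, add_sub_cancel_left]
    refine (norm_integral_le_of_norm_le_const (f := g) (Eventually.of_forall hg)).trans
      (mul_le_mul_of_nonneg_left ?_ C0)
    rw [Measure.real, Measure.restrict_apply_univ, prod_univ, ← preimage_compl, ← prod_univ,
      CPa_mass c hU.measurableSet.compl]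
    refine ENNReal.toReal_le_of_le_ofReal hδ ((measure_mono fun x hx => ?_).trans h4)
    exact ⟨by_contra fun h5 => hx.1 ⟨hx.2, h5⟩, hx.2⟩
  have e : vf a (B d ∩ Dᶜ) = vf b (B d ∩ Dᶜ) :=
    vf_congr ha.1 hb.1 hU (inter_subset_left.trans (CPa_lf ha)) (by
      rw [eq_empty_of_forall_notMem (s := (a ∆ b) ∩ (B d ∩ Dᶜ))
        fun x hx => hx.2.2 (h1 ⟨hx.1, hx.2.1⟩), measure_empty])
  have k1 := abs_le.1 (key a ha h2)
  have k2 := abs_le.1 (key b hb h3)
  rw [e] at k1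
  exact abs_le.2 ⟨by linarith, by linarith only [k1, k2]⟩

theorem CPa_divT_cont {X : R d → R d} (hX : ContDiff ℝ 1 X) : Continuous (divT X) := by
  have h := hX.continuous_fderiv one_ne_zero
  unfold divT dv
  fun_prop

theorem CPa_divT_le {X : R d → R d} {c : ℝ} (hX : ∀ x, ‖fderiv ℝ X x‖ ≤ c) (p : R d × S d) :
    |divT X p| ≤ (d + 2) * c := by
  have h1 : |dv X p.1| ≤ (d + 1) * c := by
    refine (Finset.abs_sum_le_sum_abs _ _).trans ((Finset.sum_le_card_nsmul _ _ c fun i _ => ?_).trans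
      (by simp))
    have h3 := (fderiv ℝ X p.1).le_opNorm (EuclideanSpace.single i 1)
    have h4 := PiLp.norm_apply_le (fderiv ℝ X p.1 (EuclideanSpace.single i 1)) i
    rw [PiLp.norm_single, norm_one, mul_one] at h3
    exact h4.trans (h3.trans (hX p.1))
  have h2 : |⟪(p.2 : R d), fderiv ℝ X p.1 p.2⟫_ℝ| ≤ c := by
    refine (abs_real_inner_le_norm _ _).trans ?_
    have := (fderiv ℝ X p.1).le_opNorm p.2
    rw [norm_eq_of_mem_sphere] at this ⊢
    linarith [hX p.1]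
  rw [divT]
  exact (abs_sub _ _).trans (by linarith)

theorem CPa_fv_compl {L : ℝ} {a : Set (R d)} (h : FA L a) {X : R d → R d} (hX : ContDiff ℝ 1 X) :
    fv aᶜ X = fv a X := by
  have hc : Continuous fun p : R d × S d => (p.1, -p.2) := by fun_prop
  rw [fv, fv, vf_compl h.1 isOpen_ball (CPa_lf h), integral_map hc.measurable.aemeasurable
    (CPa_divT_cont hX).aestronglyMeasurable]
  simp only [divT, coe_neg_sphere, map_neg, inner_neg_right, inner_neg_left, neg_neg]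

theorem CPa_toS : Measurable (toS : R d → S d) := by
  refine measurable_comap_iff.2 ?_
  have : Subtype.val ∘ (toS : R d → S d) =
      fun v => if v = 0 then ((default : S d) : R d) else ‖v‖⁻¹ • v := by
    funext v
    by_cases h : v = 0 <;> simp [toS, h]
  rw [this]
  exact Measurable.ite (measurableSet_singleton 0) measurable_const (by fun_prop)

theorem CPa_w_cont {Y : R d → R d} (hY : CPa_adm Y) : Continuous (CPa_w Y) := by
  obtain ⟨C, C0, hC⟩ := cofv_expand d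
  have h := hY.1.1.continuous_fderiv one_ne_zero
  refine continuous_iff_continuousAt.2 fun q => ?_
  have h1 : Continuous fun p : R d × S d => cofv (1 + fderiv ℝ Y q.1) (p.2 : R d) := by
    unfold cofv
    fun_prop
  have h2 : Tendsto (fun p : R d × S d => CPa_w Y p - cofv (1 + fderiv ℝ Y q.1) (p.2 : R d))
      (𝓝 q) (𝓝 0) := by
    refine squeeze_zero_norm (fun p => (hC _ _ p.2 (hY.2 p.1) (hY.2 q.1)).2.1) ?_
    have : Continuous fun p : R d × S d => C * ‖fderiv ℝ Y p.1 - fderiv ℝ Y q.1‖ := by fun_prop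
    simpa only [sub_self, norm_zero, mul_zero] using this.tendsto q
  have h3 := h2.add (h1.tendsto q)
  simp only [sub_add_cancel, zero_add] at h3
  exact h3

theorem CPa_phi_meas {Y : R d → R d} (hY : CPa_adm Y) : Measurable (CPa_phi Y) :=
  (measurable_fst.add (hY.1.1.continuous.measurable.comp measurable_fst)).prodMk
    (CPa_toS.comp (CPa_w_cont hY).measurable)

theorem CPa_diffeo {Y : R d → R d} (hY : CPa_adm Y) : ∃ φ : R d ≃ₜ R d,
    (⇑φ = fun x => x + Y x) ∧ ContDiff ℝ 1 φ ∧ ContDiff ℝ 1 φ.symm ∧ φ '' B d = B d ∧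
      ∀ A, volume (φ '' A) ≤ 2 ^ (d + 1) * volume A := by
  obtain ⟨φ, h1, h2, h3, h4, h5⟩ := exists_diffeo ⟨hY.1.1, hY.1.2.1, subset_univ _⟩ hY.2
  exact ⟨φ, funext h1, h2, h3, h4 _ hY.1.2.2, h5⟩

theorem CPa_mem {Y : R d → R d} (hY : CPa_adm Y) {x : R d} (hx : x ∈ B d) : x + Y x ∈ B d := by
  obtain ⟨φ, h1, -, -, h4, -⟩ := CPa_diffeo hY
  rw [← h4, h1]
  exact mem_image_of_mem _ hx

theorem CPa_img_meas {Y : R d → R d} (hY : CPa_adm Y) {a : Set (R d)} (ha : MeasurableSet a) :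
    MeasurableSet (CPa_img Y a) := by
  obtain ⟨φ, h1, -⟩ := CPa_diffeo hY
  rw [CPa_img, ← h1]
  exact φ.measurableEmbedding.measurableSet_image' ha

theorem CPa_img_compl {Y : R d → R d} (hY : CPa_adm Y) (a : Set (R d)) :
    CPa_img Y aᶜ = (CPa_img Y a)ᶜ := by
  obtain ⟨φ, h1, -⟩ := CPa_diffeo hY
  rw [CPa_img, CPa_img, ← h1]
  exact image_compl_eq φ.bijective

theorem CPa_img_vol {Y : R d → R d} (hY : CPa_adm Y) (a b : Set (R d)) :
    volume ((CPa_img Y a ∆ CPa_img Y b) ∩ B d) ≤ 2 ^ (d + 1) * volume ((a ∆ b) ∩ B d) := by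
  obtain ⟨φ, h1, -, -, h4, h5⟩ := CPa_diffeo hY
  refine le_trans (le_of_eq ?_) (h5 _)
  rw [CPa_img, CPa_img, ← h1, image_inter φ.injective, image_symmDiff φ.injective, h4]

theorem CPa_img_vf {Y : R d → R d} (hY : CPa_adm Y) {L : ℝ} {a : Set (R d)} (ha : FA L a) :
    vf (CPa_img Y a) (B d) =
      ((vf a (B d)).withDensity fun p => ENNReal.ofReal ‖CPa_w Y p‖).map (CPa_phi Y) := by
  obtain ⟨φ, h1, h2, h3, h4, -⟩ := CPa_diffeo hY
  have h := (vf_image ha.1 isOpen_ball (CPa_lf ha) φ h2 h3).2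
  have e : ∀ x, fderiv ℝ φ x = 1 + fderiv ℝ Y x := fun x => by
    rw [h1]
    exact ((hasFDerivAt_id x).add (hY.1.1.differentiable one_ne_zero x).hasFDerivAt).fderiv
  rw [h4] at h
  simp only [e] at h
  rw [h1] at h
  exact h

theorem CPa_img_int {Y : R d → R d} (hY : CPa_adm Y) {L : ℝ} {a : Set (R d)} (ha : FA L a)
    {g : R d × S d → ℝ} (hg : Measurable g) : ∫ p, g p ∂vf (CPa_img Y a) (B d) =
      ∫ p, ‖CPa_w Y p‖ * g (CPa_phi Y p) ∂vf a (B d) := by
  rw [CPa_img_vf hY ha, integral_map (CPa_phi_meas hY).aemeasurable hg.aestronglyMeasurable,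
    integral_withDensity_eq_integral_toReal_smul (CPa_w_cont hY).norm.measurable.ennreal_ofReal
      (Eventually.of_forall fun _ => ENNReal.ofReal_lt_top)]
  simp

theorem CPa_img_pm {Y : R d → R d} (hY : CPa_adm Y) {L : ℝ} {a : Set (R d)} (ha : FA L a) :
    pm (CPa_img Y a) (B d) = ENNReal.ofReal (∫ p, ‖CPa_w Y p‖ ∂vf a (B d)) := by
  obtain ⟨C, C0, hC⟩ := cofv_expand d
  rw [← CPa_univ, CPa_img_vf hY ha, Measure.map_apply (CPa_phi_meas hY) MeasurableSet.univ,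
    preimage_univ, withDensity_apply _ MeasurableSet.univ, Measure.restrict_univ,
    ofReal_integral_eq_lintegral_ofReal (CPa_intg (C := C) ha (CPa_w_cont hY).norm.measurable
      fun p => (abs_norm _).trans_le (hC _ _ p.2 (hY.2 p.1) (hY.2 p.1)).2.2.2)
      (Eventually.of_forall fun _ => norm_nonneg _)]

theorem CPa_lint {L : ℝ} {a : Set (R d)} (ha : FA L a) {ψ : R d → ℝ} (hψ : Continuous ψ)
    (h : ∀ x, 0 ≤ ψ x ∧ ψ x ≤ 1) : ∫⁻ x in B d, ENNReal.ofReal (ψ x) ∂pm a =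
      ENNReal.ofReal (∫ p, ψ p.1 ∂vf a (B d)) := by
  rw [← vf_fst, Measure.fst, lintegral_map hψ.measurable.ennreal_ofReal measurable_fst,
    ofReal_integral_eq_lintegral_ofReal (CPa_intg (C := 1) (g := fun p => ψ p.1) ha
      (hψ.measurable.comp measurable_fst)
      fun p => abs_le.2 ⟨by linarith [(h p.1).1], (h p.1).2⟩)
      (Eventually.of_forall fun p => (h p.1).1)]

end Pool.Agent.MP_5cfeaf_gt.W

end

section

/-! Block C2: pull tight. -/

set_option autoImplicit false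

open MeasureTheory Set Filter Topology Metric
open scoped ENNReal symmDiff Classical InnerProductSpace ContDiff

namespace Pool.Agent.MP_5cfeaf_gt.W

variable {d : ℕ}

theorem CP_near {ψ : R d → ℝ} (hψ : Continuous ψ) (h : ∀ x, 0 ≤ ψ x ∧ ψ x ≤ 1) {κ : ℝ}
    (hκ : 0 < κ) : ∀ᶠ ρ in 𝓝[>] (0 : ℝ), ∀ Y Y' : R d → R d, CPa_adm Y → CPa_adm Y' →
      (∀ x, ‖Y x - Y' x‖ ≤ ρ) → (∀ x, ‖fderiv ℝ Y x - fderiv ℝ Y' x‖ ≤ ρ) → ∀ p : R d × S d,
      p.1 ∈ B d → |‖CPa_w Y p‖ * ψ (p.1 + Y p.1) - ‖CPa_w Y' p‖ * ψ (p.1 + Y' p.1)| ≤ κ := by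
  obtain ⟨C, C0, hC⟩ := cofv_expand d
  obtain ⟨r, r0, hr⟩ := Metric.uniformContinuousOn_iff.1
    ((isCompact_closedBall (0 : R d) 1).uniformContinuousOn_of_continuous hψ.continuousOn)
    (κ / (2 * C)) (by positivity)
  filter_upwards [Ioo_mem_nhdsGT r0, Ioo_mem_nhdsGT (by positivity : 0 < κ / (2 * C))]
    with ρ h1 h2 Y Y' hY hY' h3 h4 p hp
  have k1 := hr _ (ball_subset_closedBall (CPa_mem hY hp)) _
    (ball_subset_closedBall (CPa_mem hY' hp)) (by
      rw [dist_add_left, dist_eq_norm]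
      exact (h3 _).trans_lt h1.2)
  obtain ⟨-, k2, -, k3⟩ := hC _ _ p.2 (hY.2 p.1) (hY'.2 p.1)
  have k4 : |‖CPa_w Y p‖ - ‖CPa_w Y' p‖| ≤ C * (κ / (2 * C)) :=
    (abs_norm_sub_norm_le _ _).trans (k2.trans
      (mul_le_mul_of_nonneg_left ((h4 _).trans h2.2.le) C0.le))
  have e : C * (κ / (2 * C)) = κ / 2 := by field_simp
  rw [Real.dist_eq] at k1
  calc _ = |‖CPa_w Y p‖ * (ψ (p.1 + Y p.1) - ψ (p.1 + Y' p.1)) +
        (‖CPa_w Y p‖ - ‖CPa_w Y' p‖) * ψ (p.1 + Y' p.1)| := by ring_nf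
    _ ≤ C * (κ / (2 * C)) + C * (κ / (2 * C)) * 1 := by
      refine (abs_add_le _ _).trans ?_
      rw [abs_mul, abs_mul, abs_norm, abs_of_nonneg (h _).1]
      exact add_le_add (mul_le_mul k3 k1.le (abs_nonneg _) C0.le)
        (mul_le_mul k4 (h _).2 (h _).1 (by positivity))
    _ = κ := by rw [e]; ring

theorem CP_stat {X : R d → R d} (hX : ContDiff ℝ 1 X) (hb : ∀ x, ‖fderiv ℝ X x‖ ≤ 1) {κ : ℝ}
    (hκ : 0 < κ) : ∀ᶠ ρ in 𝓝[>] (0 : ℝ), ∀ Y : R d → R d, CPa_adm Y →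
      (∀ x, ‖Y x‖ ≤ ρ) → (∀ x, ‖fderiv ℝ Y x‖ ≤ ρ) → ∀ p : R d × S d,
      p.1 ∈ B d → |‖CPa_w Y p‖ * divT X (CPa_phi Y p) - divT X p| ≤ κ := by
  obtain ⟨C, C0, hC⟩ := cofv_expand d
  obtain ⟨r, r0, hr⟩ := Metric.uniformContinuousOn_iff.1
    (((isCompact_closedBall (0 : R d) 1).prod (isCompact_univ (X := S d))
      ).uniformContinuousOn_of_continuous (CPa_divT_cont hX).continuousOn) (κ / 2) (by positivity)
  filter_upwards [Ioo_mem_nhdsGT r0, Ioo_mem_nhdsGT (by positivity : 0 < r / C),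
    Ioo_mem_nhdsGT (by positivity : 0 < κ / (2 * C * (d + 2)))] with ρ h1 h2 h5 Y hY h3 h4 p hp
  obtain ⟨-, k2, k3, -⟩ := hC _ 0 p.2 (hY.2 p.1) (by simp)
  have k0 : ‖cofv (1 + 0) (p.2 : R d)‖ = 1 := by
    have := (hC 0 0 p.2 (by simp only [norm_zero, one_div, inv_nonneg, Nat.ofNat_nonneg]) (by simp)).1
    simpa [sub_eq_zero] using this
  have k1 := hr (CPa_phi Y p) ⟨ball_subset_closedBall (CPa_mem hY hp), mem_univ _⟩ p
    ⟨ball_subset_closedBall hp, mem_univ _⟩ (by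
      rw [Prod.dist_eq, max_lt_iff, Subtype.dist_eq, dist_eq_norm, dist_eq_norm]
      refine ⟨by simpa [CPa_phi] using (h3 _).trans_lt h1.2, k3.trans_lt ?_⟩
      rw [← lt_div_iff₀' C0]
      exact (h4 _).trans_lt h2.2)
  have k4 : |‖CPa_w Y p‖ - 1| ≤ C * (κ / (2 * C * (d + 2))) := by
    rw [← k0]
    refine (abs_norm_sub_norm_le _ _).trans (k2.trans (mul_le_mul_of_nonneg_left ?_ C0.le))
    rw [sub_zero]
    exact (h4 _).trans h5.2.le
  rw [Real.dist_eq] at k1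
  calc _ = |(‖CPa_w Y p‖ - 1) * divT X (CPa_phi Y p) + (divT X (CPa_phi Y p) - divT X p)| := by
        ring_nf
    _ ≤ C * (κ / (2 * C * (d + 2))) * ((d + 2) * 1) + κ / 2 := by
      refine (abs_add_le _ _).trans ?_
      rw [abs_mul]
      exact add_le_add (mul_le_mul k4 (CPa_divT_le hb _) (abs_nonneg _) (by positivity)) k1.le
    _ = κ := by field_simp; ring

/-- linear combination of the fields -/
noncomputable def CP_Y {N : ℕ} (X : Fin N → R d → R d) (c : Fin N → ℝ) (x : R d) : R d :=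
  ∑ j, c j • X j x

section fields

variable {N : ℕ} {X : Fin N → R d → R d}

theorem CP_fderiv (hX : ∀ j, ContDiff ℝ 1 (X j)) (c : Fin N → ℝ) (x : R d) :
    fderiv ℝ (CP_Y X c) x = ∑ j, c j • fderiv ℝ (X j) x :=
  (HasFDerivAt.fun_sum fun j _ =>
    ((hX j).differentiable one_ne_zero x).hasFDerivAt.fun_const_smul (c j)).fderiv

theorem CP_norm_sum {F : Type} [NormedAddCommGroup F] [NormedSpace ℝ F] (c : Fin N → ℝ)
    {v : Fin N → F} {A : ℝ} (h : ∀ j, ‖v j‖ ≤ A) : ‖∑ j, c j • v j‖ ≤ (∑ j, |c j|) * A := by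
  rw [Finset.sum_mul]
  refine norm_sum_le_of_le _ fun j _ => ?_
  rw [norm_smul, Real.norm_eq_abs]
  exact mul_le_mul_of_nonneg_left (h j) (abs_nonneg _)

theorem CP_sub {F : Type} [NormedAddCommGroup F] [NormedSpace ℝ F] (c c' : Fin N → ℝ)
    {v : Fin N → F} {A : ℝ} (h : ∀ j, ‖v j‖ ≤ A) :
    ‖∑ j, c j • v j - ∑ j, c' j • v j‖ ≤ (∑ j, |c j - c' j|) * A := by
  rw [← Finset.sum_sub_distrib]
  simpa only [sub_smul] using CP_norm_sum (fun j => c j - c' j) h

theorem CP_c1c (hX : ∀ j, C1c (X j) (B d)) : ∃ K, IsCompact K ∧ K ⊆ B d ∧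
    ∀ c, C1c (CP_Y X c) K := by
  have hK : IsCompact (⋃ j, tsupport (X j)) := isCompact_iUnion fun j => (hX j).2.1
  refine ⟨_, hK, iUnion_subset fun j => (hX j).2.2, fun c => ?_⟩
  have h : tsupport (CP_Y X c) ⊆ ⋃ j, tsupport (X j) := by
    refine closure_minimal (fun x hx => by_contra fun h => hx ?_) hK.isClosed
    refine Finset.sum_eq_zero fun j _ => ?_
    rw [image_eq_zero_of_notMem_tsupport fun h' => h (mem_iUnion.2 ⟨j, h'⟩), smul_zero]
  exact ⟨ContDiff.sum fun j _ => (hX j).1.const_smul (c j),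
    hK.of_isClosed_subset (isClosed_tsupport _) h, h⟩

theorem CP_adm (hX : ∀ j, C1c (X j) (B d) ∧ ∀ x, ‖fderiv ℝ (X j) x‖ ≤ 1) {c : Fin N → ℝ}
    (hc : ∑ j, |c j| ≤ 1 / 2) : CPa_adm (CP_Y X c) := by
  obtain ⟨K, -, h1, h2⟩ := CP_c1c fun j => (hX j).1
  refine ⟨⟨(h2 c).1, (h2 c).2.1, (h2 c).2.2.trans h1⟩, fun x => ?_⟩
  rw [CP_fderiv fun j => (hX j).1.1]
  exact (CP_norm_sum c fun j => (hX j).2 x).trans (by linarith)

theorem CP_bound (hX : ∀ j, C1c (X j) (B d)) : ∃ A, 1 ≤ A ∧ ∀ j x, ‖X j x‖ ≤ A := by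
  choose A hA using fun j => (hX j).1.continuous.bounded_above_of_compact_support (hX j).2.1
  refine ⟨1 + ∑ j, |A j|, le_add_of_nonneg_right (by positivity), fun j x => (hA j x).trans ?_⟩
  have := Finset.single_le_sum (f := fun j => |A j|) (fun _ _ => abs_nonneg _) (Finset.mem_univ j)
  linarith [le_abs_self (A j)]

theorem CP_fv (hX : ∀ j, C1c (X j) (B d) ∧ ∀ x, ‖fderiv ℝ (X j) x‖ ≤ 1) (c : Fin N → ℝ) {L : ℝ}
    {a : Set (R d)} (ha : FA L a) : fv a (CP_Y X c) = ∑ j, c j * fv a (X j) := by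
  have e : ∀ p, divT (CP_Y X c) p = ∑ j, c j * divT (X j) p := fun p => by
    simp only [divT, dv, CP_fderiv fun j => (hX j).1.1, mul_sub, Finset.sum_sub_distrib,
      Finset.mul_sum, sum_apply, smul_apply, inner_sum,
      real_inner_smul_right]
    rw [Finset.sum_comm]
    simp only [WithLp.ofLp_sum, WithLp.ofLp_smul, Finset.sum_apply, Pi.smul_apply, smul_eq_mul]
  simp only [fv, e]
  rw [integral_finsetSum _ fun j _ => (CPa_intg ha (CPa_divT_cont (hX j).1.1).measurable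
    (CPa_divT_le (hX j).2)).const_mul _]
  simp only [integral_const_mul]

theorem CP_point (hX : ∀ j, C1c (X j) (B d) ∧ ∀ x, ‖fderiv ℝ (X j) x‖ ≤ 1) (L₀ : ℝ) {ε : ℝ}
    (hε : 0 < ε) : ∃ t, 0 < t ∧ t ≤ 1 / 2 ∧ ∀ (L : ℝ) (a : Set (R d)) (c : Fin N → ℝ) (s : ℝ),
      0 ≤ L → L ≤ L₀ → FA L a → ∑ j, |c j| ≤ s → s ≤ t → ∑ j, c j * fv a (X j) ≤ -(ε / 4 * s) →
      pm (CPa_img (CP_Y X c) a) (B d) + ENNReal.ofReal (ε / 8 * s) ≤ ENNReal.ofReal L ∧
        ∀ j, |fv (CPa_img (CP_Y X c) a) (X j) - fv a (X j)| ≤ ε / 4 := by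
  obtain ⟨C, C0, hC⟩ := cofv_expand d
  obtain ⟨A, A1, hA⟩ := CP_bound fun j => (hX j).1
  obtain ⟨ρ, hρ, ρ0⟩ := ((eventually_all.2 fun j => CP_stat (hX j).1.1 (hX j).2
    (by positivity : 0 < ε / 4 / (|L₀| + 1))).and self_mem_nhdsWithin).exists
  have ρ1 : 0 < ρ := ρ0
  refine ⟨min (1 / 2) (min (ρ / A) (ε / 8 / (C * (|L₀| + 1)))), by positivity, min_le_left _ _,
    fun L a c s L0 L1 ha h1 h2 h3 => ?_⟩
  simp only [le_min_iff] at h2
  have s0 : 0 ≤ s := le_trans (by positivity) h1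
  have L2 : L ≤ |L₀| + 1 := by linarith only [le_abs_self L₀, L1]
  have hY := CP_adm hX (h1.trans h2.1)
  have hD : ∀ x, ‖fderiv ℝ (CP_Y X c) x‖ ≤ s := fun x => by
    rw [CP_fderiv fun j => (hX j).1.1]
    exact (CP_norm_sum c fun j => (hX j).2 x).trans (by linarith only [h1])
  have s1 : s * A ≤ ρ := (le_div_iff₀ (by positivity)).1 h2.2.1
  have iw : Integrable (fun p => ‖CPa_w (CP_Y X c) p‖) (vf a (B d)) :=
    CPa_intg ha (CPa_w_cont hY).norm.measurable
      fun p => (abs_norm _).trans_le (hC _ _ p.2 (hY.2 p.1) (hY.2 p.1)).2.2.2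
  have := CPa_fin ha
  refine ⟨?_, fun j => ?_⟩
  · rw [CPa_img_pm hY ha, ← ENNReal.ofReal_add (by positivity) (by positivity)]
    refine ENNReal.ofReal_le_ofReal ?_
    have iv := CPa_intg ha (CPa_divT_cont hY.1.1).measurable (CPa_divT_le hY.2)
    have k1 : ∫ p, ‖CPa_w (CP_Y X c) p‖ ∂vf a (B d) ≤
        ∫ p, ((1 + C * s ^ 2) + divT (CP_Y X c) p) ∂vf a (B d) :=
      integral_mono iw ((integrable_const _).add iv) fun p => by
        have k2 := (abs_le.1 (hC _ _ p.2 (hY.2 p.1) (hY.2 p.1)).1).2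
        have k3 : C * ‖fderiv ℝ (CP_Y X c) p.1‖ ^ 2 ≤ C * s ^ 2 := by gcongr; exact hD _
        simp only [CPa_w, divT, dv]
        linarith only [k2, k3]
    rw [integral_add (integrable_const _) iv, integral_const, ← fv, CP_fv hX c ha, smul_eq_mul] at k1
    have k4 := mul_le_mul_of_nonneg_right (CPa_real ha L0) (by positivity : 0 ≤ 1 + C * s ^ 2)
    have k5 := (le_div_iff₀ (by positivity)).1 h2.2.2
    have k6 : s * (C * L) ≤ s * (C * (|L₀| + 1)) := by gcongr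
    linarith only [mul_le_mul_of_nonneg_left (k6.trans k5) s0, h3, k1, k4]
  · have m := (CPa_divT_cont (hX j).1.1).measurable
    have iv := CPa_intg ha m (CPa_divT_le (hX j).2)
    rw [fv, fv, CPa_img_int hY ha m, ← integral_sub (iw.mul_bdd
      (g := fun p => divT (X j) (CPa_phi (CP_Y X c) p))
      (m.comp (CPa_phi_meas hY)).aestronglyMeasurable
      (Eventually.of_forall fun p => CPa_divT_le (hX j).2 _)) iv]
    refine (CPa_int_le ha L0 (by positivity) (hρ j _ hY (fun x => (CP_norm_sum c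
      fun j => hA j x).trans (le_trans (by gcongr) s1)) fun x => (hD x).trans (by nlinarith only [A1, s0, s1]))).trans ?_
    rw [div_mul_eq_mul_div, div_le_iff₀ (by positivity)]
    gcongr

end fields

theorem CP_pair {M : ℕ} (ψ : Fin M → R d → ℝ)
    (hψ : ∀ j, Continuous (ψ j) ∧ ∀ x, 0 ≤ ψ j x ∧ ψ j x ≤ 1) {γ : ℝ} (hγ : 0 < γ) :
    ∃ δ > 0, ∀ L : ℝ, 0 ≤ L → ∃ ρ > 0, ∀ (a b : Set (R d)) (Y Y' : R d → R d) (δ' : ℝ), FA L a →
      FA L b → 0 ≤ δ' → δ' ≤ δ → Loc δ' a b → CPa_adm Y → CPa_adm Y' → (∀ x, ‖Y x - Y' x‖ ≤ ρ) →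
      (∀ x, ‖fderiv ℝ Y x - fderiv ℝ Y' x‖ ≤ ρ) → FA L (CPa_img Y a) → FA L (CPa_img Y' b) →
      Near γ ψ (CPa_img Y a) (CPa_img Y' b) := by
  obtain ⟨C, C0, hC⟩ := cofv_expand d
  refine ⟨γ / (4 * C), by positivity, fun L L0 => ?_⟩
  obtain ⟨φ, hφ⟩ : ∃ φ : Option (Fin M) → R d → ℝ, φ = fun o => o.elim (fun _ => 1) ψ := ⟨_, rfl⟩
  have h1 : ∀ o, Continuous (φ o) ∧ ∀ x, 0 ≤ φ o x ∧ φ o x ≤ 1 := fun o => by
    rw [hφ]
    cases o
    exacts [⟨continuous_const, fun _ => ⟨zero_le_one, le_rfl⟩⟩, hψ _]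
  obtain ⟨ρ, hρ, ρ0⟩ := ((eventually_all.2 fun o => CP_near (h1 o).1 (h1 o).2
    (by positivity : 0 < γ / 2 / (L + 1))).and self_mem_nhdsWithin).exists
  refine ⟨ρ, ρ0, fun a b Y Y' δ' ha hb δ0 δ1 hl hY hY' h2 h3 ga gb => ?_⟩
  have key : ∀ o, ∫⁻ x in B d, ENNReal.ofReal (φ o x) ∂pm (CPa_img Y a) ≤
      ∫⁻ x in B d, ENNReal.ofReal (φ o x) ∂pm (CPa_img Y' b) + ENNReal.ofReal γ := fun o => by
    have m : Measurable fun p : R d × S d => φ o p.1 := (h1 o).1.measurable.comp measurable_fst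
    have mb : ∀ Z, CPa_adm Z → (Measurable fun p => ‖CPa_w Z p‖ * φ o (CPa_phi Z p).1) ∧
        ∀ p, |‖CPa_w Z p‖ * φ o (CPa_phi Z p).1| ≤ C := fun Z hZ => by
      refine ⟨(CPa_w_cont hZ).norm.measurable.mul (m.comp (CPa_phi_meas hZ)), fun p => ?_⟩
      rw [abs_mul, abs_norm, abs_of_nonneg ((h1 o).2 _).1]
      exact (mul_le_of_le_one_right (norm_nonneg _) ((h1 o).2 _).2).trans
        (hC _ _ p.2 (hZ.2 p.1) (hZ.2 p.1)).2.2.2
    rw [CPa_lint ga (h1 o).1 (h1 o).2, CPa_lint gb (h1 o).1 (h1 o).2, CPa_img_int hY ha m,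
      CPa_img_int hY' hb m]
    refine (ENNReal.ofReal_le_ofReal ?_).trans ENNReal.ofReal_add_le
    have k1 := (abs_le.1 (CPa_loc ha hb hl δ0 (mb Y hY).1 (mb Y hY).2)).2
    have k2 := (abs_le.1 (CPa_int_le (g := fun p => ‖CPa_w Y p‖ * φ o (CPa_phi Y p).1 -
      ‖CPa_w Y' p‖ * φ o (CPa_phi Y' p).1) hb L0 (by positivity) (hρ o Y Y' hY hY' h2 h3))).2
    rw [integral_sub (CPa_intg hb (mb Y hY).1 (mb Y hY).2)
      (CPa_intg hb (mb Y' hY').1 (mb Y' hY').2)] at k2
    have k3 : 2 * C * δ' ≤ γ / 2 := by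
      rw [le_div_iff₀ (by positivity)] at δ1
      linarith only [δ1]
    have k4 : γ / 2 / (L + 1) * L ≤ γ / 2 := by
      rw [div_mul_eq_mul_div, div_le_iff₀ (by positivity)]
      gcongr
      linarith only []
    linarith
  refine ⟨?_, fun j => ?_⟩
  · simpa only [hφ, Option.elim_none, ENNReal.ofReal_one, lintegral_const, MeasurableSet.univ, Measure.restrict_apply, univ_inter, one_mul] using key none
  · simpa only [hφ, Option.elim_some] using key (some j)

/-- truncated sign -/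
noncomputable def CP_h (ε u : ℝ) : ℝ := if ε / 2 < u then 1 else if u < -(ε / 2) then -1 else 0

theorem CP_h_le (ε u : ℝ) : |CP_h ε u| ≤ 1 := by
  unfold CP_h
  split_ifs <;> simp

theorem CP_h_mul {ε u f : ℝ} (h : |u - f| ≤ ε / 4) : ε / 4 * |CP_h ε u| ≤ CP_h ε u * f ∧
    (3 * ε / 4 < |f| → |CP_h ε u| = 1) := by
  obtain ⟨h1, h2⟩ := abs_le.1 h
  unfold CP_h
  split_ifs with h3 h4
  · exact ⟨by simp; linarith only [h2, h3], fun _ => by simp⟩
  · exact ⟨by simp only [abs_neg, abs_one, mul_one, neg_mul, one_mul]; linarith only [h1, h4], fun _ => by simp⟩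
  · exact ⟨by simp, fun h5 => absurd h5 (not_lt.2 (abs_le.2 ⟨by linarith only [h2, h4], by linarith only [h1, h3]⟩))⟩

theorem CP_flag {α : Type} {k : ℕ} {A : α → Prop} {Rl : α → α → Prop} {F : Finset (Vx α)}
    (h : IsFlag k A Rl F) {v w : Vx α} (hv : v ∈ F) (hw : w ∈ F) : A v.1 ∧ Rl v.1 w.1 := by
  have m : ∀ v : Vx α, v.1 ∈ v.l := fun v => List.mem_cons_self
  refine ⟨(h.2.1 v hv).2.1 _ (m v), ?_⟩
  rcases h.2.2 v hv w hw with rfl | h1 | h1
  · exact (h.2.1 v hv).2.2 _ (m v) _ (m v)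
  · exact (h.2.1 w hw).2.2 _ (h1.1.subset (m v)) _ (m w)
  · exact (h.2.1 v hv).2.2 _ (m v) _ (h1.1.subset (m w))

theorem CP_inv (v : Vx (Set (R d))) : Vx.inv compl (Vx.inv compl v) = v := by
  simp [Vx.inv]

theorem CP_supp {α : Type} {F : Finset α} {x : α → ℝ} (hx : x ∈ simplex F) :
    (∃ v, x v ≠ 0) ∧ ∀ v, x v ≠ 0 → v ∈ F := by
  refine ⟨by_contra fun h => ?_, fun v h => by_contra fun h' => h (hx.2.1 v h')⟩
  have := hx.2.2
  rw [Finset.sum_eq_zero fun v _ => by_contra fun h' => h ⟨v, h'⟩] at this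
  exact zero_ne_one this

theorem CP_base (d : ℕ) : ∃ D : (Vx (Set (R d)) → ℝ) → Set (R d), ∀ (k : ℕ) A Rl F,
    IsFlag k A Rl F → ∀ x ∈ simplex F, (∃ v ∈ F, D x = v.1) ∧ D (x ∘ Vx.inv compl) = (D x)ᶜ := by
  obtain ⟨D, h1, h2⟩ := exists_equiv_choice (τ := fun x : Vx (Set (R d)) → ℝ => x ∘ Vx.inv compl)
    (κ := (compl : Set (R d) → Set (R d))) (fun x => funext fun v => congrArg x (CP_inv v))
    compl_compl (Q := fun x a => (∃ v, x v ≠ 0) → ∃ v, x v ≠ 0 ∧ a = v.1)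
    (fun x => by
      by_cases h : ∃ v, x v ≠ 0
      · obtain ⟨v, hv⟩ := h
        exact ⟨v.1, fun _ => ⟨v, hv, rfl⟩⟩
      · exact ⟨∅, fun h' => absurd h' h⟩)
    (fun x a h ⟨v, hv⟩ => by
      obtain ⟨w, h3, h4⟩ := h ⟨_, hv⟩
      exact ⟨Vx.inv compl w, by simpa [CP_inv] using h3, congrArg compl h4⟩)
  refine ⟨D, fun k A Rl F hF x hx => ?_⟩
  obtain ⟨h3, h4⟩ := CP_supp hx
  obtain ⟨v, h5, h6⟩ := h1 x h3
  refine ⟨⟨v, h4 v h5, h6⟩, h2 x fun h => ?_⟩
  have h7 : Vx.inv compl v ∈ F := h4 _ ((congrFun h v).trans_ne h5)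
  rcases hF.2.2 v (h4 v h5) _ h7 with h8 | h8 | h8
  · have h9 : v.1 = v.1ᶜ := congrArg Prod.fst h8
    exact (iff_not_self (Set.ext_iff.1 h9 0))
  · simpa [Vx.l, Vx.inv] using h8.2
  · simpa [Vx.l, Vx.inv] using h8.2

/-- pull tight -/
theorem pull {N M : ℕ} (X : Fin N → R d → R d)
    (hX : ∀ j, C1c (X j) (B d) ∧ ∀ x, ‖fderiv ℝ (X j) x‖ ≤ 1) (ψ : Fin M → R d → ℝ)
    (hψ : ∀ j, Continuous (ψ j) ∧ ∀ x, 0 ≤ ψ j x ∧ ψ j x ≤ 1) (L₀ : ℝ) {ε : ℝ} (hε : 0 < ε) :
    ∃ ε₁ > 0, ∀ γ > 0, ∃ δ > 0, ∀ (k : ℕ) (L : ℝ), 0 ≤ L → L ≤ L₀ → ∀ η' > 0, ∃ η > 0,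
      SwS (d := d) k (FA L) (fun a b => FR η a b ∧ Loc δ a b) →
      SwS k (fun a => FA L a ∧ (pm a (B d) + ENNReal.ofReal ε₁ ≤ ENNReal.ofReal L ∨
        ∀ j, |fv a (X j)| ≤ ε)) (fun a b => FR η' a b ∧ Near γ ψ a b) := by
  obtain ⟨t, t0, t1, ht⟩ := CP_point hX L₀ hε
  obtain ⟨τ, hτ⟩ : ∃ τ : ℝ, τ = t / (N + 1) := ⟨_, rfl⟩
  have τ0 : 0 < τ := by rw [hτ]; positivity
  have τ1 : τ * N ≤ t := by
    rw [hτ, div_mul_eq_mul_div, div_le_iff₀ (by positivity)]
    gcongr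
    linarith only [t0, t1]
  refine ⟨ε / 8 * τ, by positivity, fun γ γ0 => ?_⟩
  obtain ⟨δ₁, δ0, hδ⟩ := CP_pair ψ hψ γ0
  obtain ⟨δ, hδe⟩ : ∃ δ : ℝ, δ = min δ₁ (ε / 8 / (d + 2)) := ⟨_, rfl⟩
  have δp : 0 < δ := by rw [hδe]; positivity
  have δ1 : δ ≤ δ₁ := hδe.trans_le (min_le_left _ _)
  have δ2 : δ * (d + 2) ≤ ε / 8 := (le_div_iff₀ (by positivity)).1 (hδe.trans_le (min_le_right _ _))
  refine ⟨δ, δp, fun k L L0 L1 η' η0 => ⟨η' / 2 / 2 ^ (d + 1), by positivity, fun h => ?_⟩⟩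
  obtain ⟨ρ, ρ0, hρ⟩ := hδ L L0
  obtain ⟨D, hD⟩ := CP_base d
  obtain ⟨K, hK, -, hK'⟩ := CP_c1c fun j => (hX j).1
  obtain ⟨A, A1, hA⟩ := CP_bound fun j => (hX j).1
  obtain ⟨c, hc⟩ : ∃ c : (Vx (Set (R d)) → ℝ) → Fin N → ℝ,
    c = fun x j => -τ * ∑ᶠ v, x v * CP_h ε (fv v.1 (X j)) := ⟨_, rfl⟩
  have c1 : ∀ (F : Finset (Vx (Set (R d)))), ∀ x ∈ simplex F, ∀ j,
      c x j = -τ * ∑ v ∈ F, x v * CP_h ε (fv v.1 (X j)) := fun F x hx j => by
    rw [hc]
    exact congrArg _ (finsum_eq_sum_of_support_subset _ fun v hv =>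
      (CP_supp hx).2 v (left_ne_zero_of_mul hv))
  have c2 : ∀ F, IsFlag k (FA L) (fun a b => FR (η' / 2 / 2 ^ (d + 1)) a b ∧ Loc δ a b) F →
      ∀ x ∈ simplex F, CPa_adm (CP_Y X (c x)) ∧ FA L (CPa_img (CP_Y X (c x)) (D x)) ∧
        (pm (CPa_img (CP_Y X (c x)) (D x)) (B d) + ENNReal.ofReal (ε / 8 * τ) ≤ ENNReal.ofReal L ∨
          ∀ j, |fv (CPa_img (CP_Y X (c x)) (D x)) (X j)| ≤ ε) := fun F hF x hx => by
    obtain ⟨⟨w, hw, e⟩, -⟩ := hD k _ _ F hF x hx
    have ha := (CP_flag hF hw hw).1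
    have k1 : ∀ j, ∀ v ∈ F, |fv v.1 (X j) - fv w.1 (X j)| ≤ ε / 4 := fun j v hv =>
      (CPa_loc (CP_flag hF hv hw).1 ha (CP_flag hF hv hw).2.2 δp.le
        (CPa_divT_cont (hX j).1.1).measurable (CPa_divT_le (hX j).2)).trans (by linarith only [δ2])
    obtain ⟨m, hm⟩ : ∃ m : Fin N → ℝ, m = fun j => ∑ v ∈ F, x v * |CP_h ε (fv v.1 (X j))| :=
      ⟨_, rfl⟩
    have m0 : ∀ j, 0 ≤ m j := fun j => by
      rw [hm]
      exact Finset.sum_nonneg fun v _ => mul_nonneg (hx.1 v) (abs_nonneg _)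
    have m1 : ∀ j, m j ≤ 1 := fun j => by
      rw [hm, ← hx.2.2]
      exact Finset.sum_le_sum fun v _ => mul_le_of_le_one_right (hx.1 v) (CP_h_le _ _)
    have k2 : ∑ j, |c x j| ≤ τ * ∑ j, m j := by
      rw [Finset.mul_sum]
      refine Finset.sum_le_sum fun j _ => ?_
      rw [c1 F x hx, abs_mul, abs_neg, abs_of_pos τ0, hm]
      refine mul_le_mul_of_nonneg_left ((Finset.abs_sum_le_sum_abs _ _).trans_eq
        (Finset.sum_congr rfl fun v _ => ?_)) τ0.le
      rw [abs_mul, abs_of_nonneg (hx.1 v)]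
    have k3 : τ * ∑ j, m j ≤ t := le_trans (mul_le_mul_of_nonneg_left
      ((Finset.sum_le_card_nsmul _ _ 1 fun j _ => m1 j).trans_eq (by simp only [Finset.card_univ, Fintype.card_fin, nsmul_eq_mul, mul_one])) τ0.le) τ1
    have k4 : ∑ j, c x j * fv w.1 (X j) ≤ -(ε / 4 * (τ * ∑ j, m j)) := by
      rw [Finset.mul_sum, Finset.mul_sum, ← Finset.sum_neg_distrib]
      refine Finset.sum_le_sum fun j _ => ?_
      have : ε / 4 * m j ≤ (∑ v ∈ F, x v * CP_h ε (fv v.1 (X j))) * fv w.1 (X j) := by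
        rw [hm, Finset.mul_sum, Finset.sum_mul]
        exact Finset.sum_le_sum fun v hv => by
          linarith only [mul_le_mul_of_nonneg_left (CP_h_mul (k1 j v hv)).1 (hx.1 v)]
      rw [c1 F x hx]
      nlinarith only [τ0, this]
    obtain ⟨k5, k6⟩ := ht L w.1 (c x) _ L0 L1 ha k2 k3 k4
    have hY := CP_adm hX (k2.trans (k3.trans t1))
    rw [e]
    refine ⟨hY, ⟨CPa_img_meas hY ha.1, le_self_add.trans k5⟩, or_iff_not_imp_right.2 fun k7 =>
      le_trans (add_le_add_right (ENNReal.ofReal_le_ofReal ?_) _) k5⟩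
    obtain ⟨j, hj⟩ := not_forall.1 k7
    have k8 : 3 * ε / 4 < |fv w.1 (X j)| := by
      have := abs_sub_abs_le_abs_sub (fv (CPa_img (CP_Y X (c x)) w.1) (X j)) (fv w.1 (X j))
      linarith only [k6 j, hj, this]
    have k9 : m j = 1 := by
      rw [hm, ← hx.2.2]
      exact Finset.sum_congr rfl fun v hv => by rw [(CP_h_mul (k1 j v hv)).2 k8, mul_one]
    have := Finset.single_le_sum (fun j _ => m0 j) (Finset.mem_univ j)
    rw [k9] at this
    gcongr
    exact le_mul_of_one_le_right τ0.le this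
  refine Sw.family odd2_S odd2_S h (fun x => CPa_img (CP_Y X (c x)) (D x)) (fun F hF x hx => ?_)
    (fun F hF x hx => (c2 F hF x hx).2) fun F hF => ?_
  · have : c (x ∘ Vx.inv compl) = c x := by
      rw [hc]
      funext j
      refine congrArg _ ?_
      rw [← finsum_comp (Vx.inv compl) (Function.Involutive.bijective CP_inv)]
      refine finsum_congr fun v => ?_
      rw [Function.comp_apply, CP_inv]
      by_cases h0 : x v = 0
      · rw [h0, zero_mul, zero_mul]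
      · have hv := (CP_supp hx).2 v h0
        rw [← CPa_fv_compl (CP_flag hF hv hv).1 (hX j).1.1]
        rfl
    simp only [this]
    rw [(hD k _ _ F hF x hx).2, CPa_img_compl (c2 F hF x hx).1]
  · have e1 : ∀ᶠ r in 𝓝[>] (0 : ℝ), ∀ w ∈ F, ∀ Y Y' : R d → R d, C1c Y K → C1c Y' K →
        (∀ x, ‖fderiv ℝ Y x‖ ≤ 1 / 2) → (∀ x, ‖fderiv ℝ Y' x‖ ≤ 1 / 2) → (∀ x, ‖Y x - Y' x‖ ≤ r) →
        volume (CPa_img Y w.1 ∆ CPa_img Y' w.1) ≤ ENNReal.ofReal (η' / 2) :=
      (eventually_all_finset F).2 fun w hw => by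
        obtain ⟨σ, σ0, hσ⟩ := image_cont (CP_flag hF hw hw).1.1 hK (half_pos η0)
        filter_upwards [Ioo_mem_nhdsGT σ0] with r hr Y Y' h1 h2 h3 h4 h5
        exact hσ Y Y' h1 h2 h3 h4 fun x => (h5 x).trans hr.2.le
    obtain ⟨r, hr, r0⟩ := (e1.and (Ioo_mem_nhdsGT ρ0)).exists
    have r1 := r0.1
    refine ⟨r / (A * (t * F.card + 1)), by positivity, fun x hx x' hx' hs => ?_⟩
    obtain ⟨⟨w, hw, e⟩, -⟩ := hD k _ _ F hF x hx
    obtain ⟨⟨w', hw', e'⟩, -⟩ := hD k _ _ F hF x' hx'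
    obtain ⟨hY, g, -⟩ := c2 F hF x hx
    obtain ⟨hY', g', -⟩ := c2 F hF x' hx'
    have k1 : (∑ j, |c x j - c x' j|) * A ≤ r := by
      rw [← le_div_iff₀ (by positivity)]
      refine (Finset.sum_le_card_nsmul _ _ (τ * (F.card * (r / (A * (t * F.card + 1)))))
        fun j _ => ?_).trans ?_
      · rw [c1 F x hx, c1 F x' hx', ← mul_sub, ← Finset.sum_sub_distrib, abs_mul, abs_neg,
          abs_of_pos τ0, ← nsmul_eq_mul]
        refine mul_le_mul_of_nonneg_left ((Finset.abs_sum_le_sum_abs _ _).trans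
          (Finset.sum_le_card_nsmul _ _ _ fun v _ => ?_)) τ0.le
        rw [← sub_mul, abs_mul]
        exact (mul_le_of_le_one_right (abs_nonneg _) (CP_h_le _ _)).trans (hs v)
      · rw [Finset.card_univ, Fintype.card_fin, nsmul_eq_mul, ← mul_assoc, mul_comm (N : ℝ)]
        calc _ ≤ (t * F.card) * (r / (A * (t * F.card + 1))) := by
              rw [mul_assoc t]
              exact mul_le_mul_of_nonneg_right τ1 (by positivity)
          _ ≤ (t * F.card + 1) * (r / (A * (t * F.card + 1))) := by gcongr; linarith only [t0, t1]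
          _ = r / A := by field_simp
    have k2 : ∀ y, ‖CP_Y X (c x) y - CP_Y X (c x') y‖ ≤ r := fun y =>
      (CP_sub _ _ fun j => hA j y).trans k1
    have k3 : ∀ y, ‖fderiv ℝ (CP_Y X (c x)) y - fderiv ℝ (CP_Y X (c x')) y‖ ≤ r := fun y => by
      rw [CP_fderiv fun j => (hX j).1.1, CP_fderiv fun j => (hX j).1.1]
      exact (CP_sub _ _ fun j => ((hX j).2 y).trans A1).trans k1
    simp only [e, e'] at g g' ⊢
    obtain ⟨ha, k4, k5⟩ := CP_flag hF hw hw'
    refine ⟨?_, hρ _ _ _ _ δ ha (CP_flag hF hw' hw').1 δp.le δ1 k5 hY hY'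
      (fun y => (k2 y).trans r0.2.le) (fun y => (k3 y).trans r0.2.le) g g'⟩
    have k6 := hr w' hw' _ _ (hK' (c x)) (hK' (c x')) hY.2 hY'.2 k2
    have k7 := (CPa_img_vol hY w.1 w'.1).trans (mul_le_mul_right k4 _)
    have k8 : (2 : ℝ≥0∞) ^ (d + 1) * ENNReal.ofReal (η' / 2 / 2 ^ (d + 1)) =
        ENNReal.ofReal (η' / 2) := by
      rw [← ENNReal.ofReal_ofNat, ← ENNReal.ofReal_pow zero_le_two,
        ← ENNReal.ofReal_mul (by positivity), mul_div_cancel₀ _ (by positivity)]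
    rw [k8] at k7
    rw [FR, ← add_halves η', ENNReal.ofReal_add (by positivity) (by positivity)]
    refine le_trans (measure_mono fun y hy => ?_) ((measure_union_le _ _).trans (add_le_add k7 k6))
    exact (symmDiff_triangle _ (CPa_img (CP_Y X (c x)) w'.1) _ hy.1).imp_left fun h => ⟨h, hy.2⟩

end Pool.Agent.MP_5cfeaf_gt.W

end
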