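import Pool.Agent.MP_5cfeaf_gt.EpsB
import Pool.Agent.MP_5cfeaf_gt.MinF
import Pool.Agent.MP_5cfeaf_gt.ConeB
import Pool.Agent.MP_5cfeaf_gt.SwB
import Pool.Agent.MP_5cfeaf_gt.Deform

attribute [-instance] ProperSMul.toContinuousSMul TotallySeparatedSpace.t2Space
  IsScalarTower.complexToReal IdemSemiring.toCanonicallyOrderedAdd AddQuantale.instAddLeftMono
  NonUnitalNonAssocSemiring.toMulZeroClass NumberField.to_charZero RKHS.instFunLike
  Fintype.decidableExistsFintype littleWedderburn NonarchimedeanAddGroup.toIsTopologicalAddGroup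
  covariant_swap_mul_of_covariant_mul MulZeroOneClass.toMulZeroClass
  LinearOrderedCommMonoidWithZero.toPosMulStrictMono CommRing.toCommSemiring
  AddQuantale.instAddRightMono Valued.toUniformSpace GrpTypeEquivalenceGrp.grpGroup
  Quantale.instMulRightMono AlexandrovDiscrete.toLocallyCompactSpace
  NonUnitalNonAssocSemiring.toAddCommMonoid CoalgHomClass.toSemilinearMapClass
  LieAdmissibleAlgebra.toModule CommRing.toRing IdemSemiring.toSemiring instCoeTCOfCoe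
  IsModuleTopology.toContinuousSMul AddGroup.addLeftReflectLE_of_addLeftMono Quantale.instMulLeftMono
  CStarAlgebra.toNormedRing RightPreLieAlgebra.toModule LeftPreLieAlgebra.toModule

section

/-! Interface of block F: perimeter minimisers (`locmin_stat_stab` is in FV). -/

set_option autoImplicit false

open MeasureTheory Set Filter Topology Metric
open scoped ENNReal symmDiff Classical InnerProductSpace ContDiff

namespace Pool.Agent.MP_5cfeaf_gt.W

variable {d : ℕ}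

/-- the stable minimisers form a class -/
theorem exists_clsA (h2 : 2 ≤ d) : ∃ C : Cls d, C.K = fun O W => KA O W ∧ Stab W.fst O := by
  have hd : 1 ≤ d := one_le_two.trans h2
  obtain ⟨c, c0, hc⟩ := min_dens hd
  obtain ⟨ε, ε0, hε⟩ := ka_eps hd c0 (fun O Ω x r _ m hx hr hb =>
    (hc Ω O x r m hx hr hb).trans (measure_mono ball_subset_closedBall)) fun _ _ => min_stat
  obtain ⟨c', c1, hc'⟩ := ka_dens hd
  refine ⟨⟨fun O W => KA O W ∧ Stab W.fst O, fun _ _ _ h => h.1.1,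
    fun _ _ _ _ b c h => ⟨ka_mono b c h.1, h.2.mono c⟩,
    fun _ _ _ x Q _ b h => ⟨ka_sim x Q b h.1, h.2.sim b x Q⟩, fun 𝓤 O W h a b => ?_,
    ⟨c', c1, fun O W x r a h => hc' O W x r a h.1⟩, fun _ => ⟨ε, ε0, fun W h _ => hε W h.1⟩,
    fun _ _ _ h => h.2, fun W L a b Λ h => ka_nocl h2 W L a b Λ h.1⟩, rfl⟩
  obtain ⟨W', k, v⟩ := ka_lim 𝓤 O W (fun i => ⟨(h i).1, (h i).2.1⟩) a b
  obtain ⟨Ω, m, e⟩ := k.2
  exact ⟨W', ⟨k, (min_stab m).congr isOpen_univ e.symm⟩, v⟩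

/-- local minimisers are smooth stable boundaries -/
theorem ss_of_locmin (h2 : 2 ≤ d) (h6 : d ≤ 6) {Ω O O' : Set (R d)} (hΩ : MeasurableSet Ω)
    (hO : IsOpen O) (hO' : IsOpen O') (hOO : O ⊆ O') (hf : pm Ω O' < ⊤) {η : ℝ} (hη : 0 < η)
    (h : ∀ F, MeasurableSet F → F ∆ Ω ⊆ O → volume (F ∆ Ω) ≤ ENNReal.ofReal η → pm Ω O' ≤ pm F O') :
    SS Ω O := by
  obtain ⟨s1, s2⟩ := locmin_stat_stab hΩ hO hO' hOO hf hη h
  refine ⟨hΩ, hOO.trans (subset_lf hO' hf), fun x hx => ?_, s1, s2⟩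
  obtain ⟨r, r0, hr, m⟩ := min_of_locmin hΩ hO hO' hOO hf hη h hx.2
  obtain ⟨C, hC⟩ := exists_clsA h2
  have e : (vf Ω (ball x r)).fst.restrict (ball x r) = (pm Ω).restrict (ball x r) := by
    rw [vf_fst, Measure.restrict_restrict measurableSet_ball, inter_self]
  have s := support_congr isOpen_ball e
  refine WReg.congr isOpen_ball s (mem_ball_self r0) (C.regular h2 h6 isOpen_ball ?_
    (s.ge ⟨hx.1, mem_ball_self r0⟩))
  rw [hC]
  exact ⟨⟨min_stat isOpen_ball m, Ω, m, e⟩, (s2.mono hr).congr isOpen_ball e.symm⟩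

end Pool.Agent.MP_5cfeaf_gt.W

end

section

/-! Block E, file 1: replacements. -/

set_option autoImplicit false

open MeasureTheory Set Filter Topology Metric
open scoped ENNReal symmDiff Classical InnerProductSpace ContDiff

namespace Pool.Agent.MP_5cfeaf_gt.W

variable {d : ℕ}

theorem E1_chain_of_rtg {α : Type} {P : α → Prop} {r : α → α → Prop} {x y : α} (hx : P x)
    (h : Relation.ReflTransGen (fun a b => P b ∧ r a b) x y) :
    ∃ (N : ℕ) (G : ℕ → α), G 0 = x ∧ G N = y ∧ (∀ j ≤ N, P (G j)) ∧ ∀ j < N, r (G j) (G (j + 1)) := by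
  induction h with
  | refl => exact ⟨0, fun _ => x, rfl, rfl, fun _ _ => hx, fun j hj => absurd hj (Nat.not_lt_zero j)⟩
  | @tail b c _ hbc ih =>
    obtain ⟨N, G, h0, hN, hP, hr⟩ := ih
    refine ⟨N + 1, fun j => if j ≤ N then G j else c, by simp [h0], by simp, ?_, ?_⟩
    · intro j _
      by_cases hj : j ≤ N
      · simpa [hj] using hP j hj
      · simpa [hj] using hbc.1
    · intro j hj
      have hj' : j ≤ N := by omega
      by_cases hj2 : j + 1 ≤ N
      · simpa [hj', hj2] using hr j (by omega)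
      · have : j = N := by omega
        subst this
        simpa [hN] using hbc.2

theorem E1_rtg_of_chain {α : Type} {P : α → Prop} {r : α → α → Prop} (G : ℕ → α) (N : ℕ)
    (hP : ∀ j ≤ N, P (G j)) (hr : ∀ j < N, r (G j) (G (j + 1))) :
    Relation.ReflTransGen (fun a b => P b ∧ r a b) (G 0) (G N) := by
  induction N with
  | zero => exact Relation.ReflTransGen.refl
  | succ N ih =>
    exact (ih (fun j hj => hP j (by omega)) fun j hj => hr j (by omega)).tail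
      ⟨hP _ le_rfl, hr N (by omega)⟩

theorem E1_off {F Ω K A : Set (R d)} (hF : MeasurableSet F) (hΩ : MeasurableSet Ω) (hK : IsClosed K)
    (h : F ∆ Ω ⊆ K) (hA : A ⊆ Kᶜ) : pm F A = pm Ω A := by
  have h1 := pm_congr hF hΩ hK.isOpen_compl (by
    rw [show (F ∆ Ω) ∩ Kᶜ = ∅ from Set.eq_empty_of_forall_notMem fun x hx => hx.2 (h hx.1)]
    exact measure_empty)
  rw [← Measure.restrict_eq_self (pm F) hA, h1, Measure.restrict_eq_self _ hA]

theorem E1_split {F Ω K C A : Set (R d)} (hF : MeasurableSet F) (hΩ : MeasurableSet Ω)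
    (hK : IsClosed K) (h : F ∆ Ω ⊆ K) (hC : MeasurableSet C) (hKC : K ⊆ C) (hA : C ⊆ A) :
    pm F A = pm F C + pm Ω (A \ C) := by
  rw [← E1_off hF hΩ hK h (A := A \ C) fun x hx hx' => hx.2 (hKC hx'),
    measure_add_sdiff hC.nullMeasurableSet, Set.union_eq_self_of_subset_left hA]

theorem E1_tri {F G Ω K : Set (R d)} (h1 : F ∆ G ⊆ K) (h2 : G ∆ Ω ⊆ K) : F ∆ Ω ⊆ K :=
  (symmDiff_triangle F G Ω).trans (Set.union_subset h1 h2)

/-- direct method -/
theorem E1_lim {Ω U O K : Set (R d)} (hΩ : MeasurableSet Ω) (hO : IsOpen O) (hl : O ⊆ lf Ω)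
    (hUb : Bornology.IsBounded U) (hUO : closure U ⊆ O) (hK : IsCompact K) (hKU : K ⊆ U)
    (F : ℕ → Set (R d)) (hm : ∀ i, MeasurableSet (F i)) (hF : ∀ i, F i ∆ Ω ⊆ K) {C m : ℝ≥0∞}
    (hC : C < ⊤) (hb : ∀ i, pm (F i) (closure U) ≤ C)
    (hlim : Tendsto (fun i => pm (F i) (closure U)) atTop (𝓝 m)) {η : ℝ} (hη : 0 < η) :
    ∃ Ω' : Set (R d), MeasurableSet Ω' ∧ Ω' ∆ Ω ⊆ K ∧ pm Ω' (closure U) ≤ m ∧
      ∃ i, volume (F i ∆ Ω') ≤ ENNReal.ofReal η := by
  have hUc : IsCompact (closure U) := hUb.isCompact_closure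
  obtain ⟨O', hO', hUO', hO'O, hO'c⟩ := exists_open_between_and_isCompact_closure hUc hO hUO
  have hKC : K ⊆ closure U := hKU.trans subset_closure
  have hCm : MeasurableSet (closure U) := isClosed_closure.measurableSet
  have hc : pm Ω (O' \ closure U) < ⊤ :=
    (measure_mono (Set.sdiff_subset.trans subset_closure)).trans_lt (pm_lt_top hO'c (hO'O.trans hl))
  have hsp : ∀ G, MeasurableSet G → G ∆ Ω ⊆ K →
      pm G O' = pm G (closure U) + pm Ω (O' \ closure U) :=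
    fun G hG hGK => E1_split hG hΩ hK.isClosed hGK hCm hKC hUO'
  have hle : ((hyperfilter ℕ : Ultrafilter ℕ) : Filter ℕ) ≤ atTop := by
    rw [← Nat.cofinite_eq_atTop]
    exact hyperfilter_le_cofinite
  obtain ⟨Ω₀, h₀m, h₀⟩ := pm_compact (hyperfilter ℕ) (Ω := F) hO' (Eventually.of_forall hm)
    fun K' _ hK' => ⟨C + pm Ω (O' \ closure U), ENNReal.add_lt_top.2 ⟨hC, hc⟩,
      Eventually.of_forall fun i => (measure_mono hK').trans (by
        rw [hsp _ (hm i) (hF i)]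
        exact add_le_add (hb i) le_rfl)⟩
  have hm' : MeasurableSet ((Ω₀ ∩ K) ∪ (Ω \ K)) :=
    (h₀m.inter hK.measurableSet).union (hΩ.diff hK.measurableSet)
  have hK' : ((Ω₀ ∩ K) ∪ (Ω \ K)) ∆ Ω ⊆ K := by
    intro x hx
    by_contra hxK
    simp [Set.mem_symmDiff, hxK] at hx
  have hsub : ∀ i, F i ∆ ((Ω₀ ∩ K) ∪ (Ω \ K)) ⊆ (F i ∆ Ω₀) ∩ K := by
    intro i x hx
    by_cases hxK : x ∈ K
    · refine ⟨?_, hxK⟩
      simpa [Set.mem_symmDiff, hxK] using hx
    · exact absurd (hF i (by simpa [Set.mem_symmDiff, hxK] using hx)) hxK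
  have ht : Tendsto (fun i => volume (F i ∆ ((Ω₀ ∩ K) ∪ (Ω \ K))))
      ((hyperfilter ℕ : Ultrafilter ℕ) : Filter ℕ) (𝓝 0) :=
    tendsto_of_tendsto_of_tendsto_of_le_of_le tendsto_const_nhds
      (h₀ K hK.isBounded (hKC.trans hUO')) (fun _ => zero_le) fun i => measure_mono (hsub i)
  refine ⟨_, hm', hK', ?_, ?_⟩
  · have h1 := pm_lsc (l := ((hyperfilter ℕ : Ultrafilter ℕ) : Filter ℕ)) (Ω := F) hO'
      (Eventually.of_forall hm) hm' fun K' _ _ =>
        tendsto_of_tendsto_of_tendsto_of_le_of_le tendsto_const_nhds ht (fun _ => zero_le)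
          fun i => measure_mono Set.inter_subset_left
    have h2 : Tendsto (fun i => pm (F i) O') ((hyperfilter ℕ : Ultrafilter ℕ) : Filter ℕ)
        (𝓝 (m + pm Ω (O' \ closure U))) := by
      simp only [fun i => hsp _ (hm i) (hF i)]
      exact (hlim.mono_left hle).add tendsto_const_nhds
    rw [h2.liminf_eq, hsp _ hm' hK'] at h1
    exact (ENNReal.add_le_add_iff_right hc.ne).1 h1
  · exact (ht.eventually (Iic_mem_nhds (ENNReal.ofReal_pos.2 hη))).exists

/-- Replacement.  Call `F` reachable if there is a chain as in `AM` from `Ω` to `F` all of whose members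
satisfy `F j ∆ Ω ⊆ K`.  `Ω` is reachable (N = 0), `pm Ω (closure U) < ⊤` (`pm_lt_top`).  Take a minimising
sequence `F i` for `pm · (closure U)`.  Let `O'` be an open bounded set with `closure U ⊆ O'`,
`closure O' ⊆ O` (`exists_open_between_and_isCompact_closure`).  On the open set `Kᶜ` all reachable
sets have the perimeter measure of `Ω` (`pm_congr`), so `pm F O' = pm F (closure U) + pm Ω (O' \ closure U)`.
`pm_compact` along `hyperfilter ℕ` (or `Ultrafilter.of atTop`) gives `Ω₀`; put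
`Ω' = (Ω₀ ∩ K) ∪ (Ω \ K)`; `F i ∆ Ω' ⊆ (F i ∆ Ω₀) ∩ K`; `pm_lsc` on `O'` and cancellation of the finite
term give `pm Ω' (closure U) ≤ inf`.  Append `Ω'` to the chain of `F i` (i large): `Ω'` is reachable.
A chain from `Ω'` inside `U` concatenated with it is a chain from `Ω`: `AM Ω'`.  A better `F` would be
reachable in one more step. -/
theorem E_repl {Ω U O K : Set (R d)} (hΩ : MeasurableSet Ω) (hO : IsOpen O) (hl : O ⊆ lf Ω)
    (hU : IsOpen U) (hUb : Bornology.IsBounded U) (hUO : closure U ⊆ O) (hK : IsCompact K)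
    (hKU : K ⊆ U) {ε δ η : ℝ} (hη : 0 < η) (h : AM Ω U ε δ η) :
    ∃ Ω' : Set (R d), MeasurableSet Ω' ∧ Ω' ∆ Ω ⊆ K ∧ pm Ω' (closure U) ≤ pm Ω (closure U) ∧
      AM Ω' U ε δ η ∧ ∀ F, MeasurableSet F → F ∆ Ω' ⊆ K → volume (F ∆ Ω') ≤ ENNReal.ofReal η →
        pm Ω' (closure U) ≤ pm F (closure U) := by
  have hUc : IsCompact (closure U) := hUb.isCompact_closure
  have hfin : pm Ω (closure U) < ⊤ := pm_lt_top hUc (hUO.trans hl)
  set P : Set (R d) → Set (R d) → Prop := fun A G => MeasurableSet G ∧ G ∆ Ω ⊆ A ∧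
    pm G (closure U) ≤ pm Ω (closure U) + ENNReal.ofReal δ with hP
  set r : Set (R d) → Set (R d) → Prop := fun G G' => volume (G ∆ G') ≤ ENNReal.ofReal η with hr
  have hP0 : ∀ A, P A Ω := fun A => ⟨hΩ, by simp only [symmDiff_self, bot_eq_empty, empty_subset], le_self_add⟩
  set T : Set (Set (R d)) := {G | Relation.ReflTransGen (fun a b => P K b ∧ r a b) Ω G} with hT
  have hTP : ∀ G ∈ T, P K G := by
    intro G hG
    rcases Relation.ReflTransGen.cases_tail hG with h1 | ⟨c, _, h1⟩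
    · rw [h1]
      exact hP0 K
    · exact h1.1
  have hΩT : Ω ∈ T := Relation.ReflTransGen.refl
  obtain ⟨u, -, hu, huT⟩ := exists_seq_tendsto_sInf (S := (fun G => pm G (closure U)) '' T)
    ⟨_, Ω, hΩT, rfl⟩ (OrderBot.bddBelow _)
  choose F hFT hFu using huT
  have hinf : ∀ G ∈ T, sInf ((fun G => pm G (closure U)) '' T) ≤ pm G (closure U) :=
    fun G hG => sInf_le ⟨G, hG, rfl⟩
  obtain ⟨Ω', hm', hK', hle, i, hi⟩ := E1_lim hΩ hO hl hUb hUO hK hKU F (fun i => (hTP _ (hFT i)).1)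
    (fun i => (hTP _ (hFT i)).2.1) (ENNReal.add_lt_top.2 ⟨hfin, ENNReal.ofReal_lt_top⟩)
    (fun i => (hTP _ (hFT i)).2.2) (m := sInf ((fun G => pm G (closure U)) '' T))
    (by simpa only [hFu] using hu) hη
  have hle' : pm Ω' (closure U) ≤ pm Ω (closure U) := hle.trans (hinf Ω hΩT)
  have hΩ'T : Ω' ∈ T := Relation.ReflTransGen.tail (hFT i) ⟨⟨hm', hK', hle'.trans le_self_add⟩, hi⟩
  refine ⟨Ω', hm', hK', hle', ?_, ?_⟩
  · rintro ⟨N, G, h0, hG, hGr, hGN⟩
    have h1 : Relation.ReflTransGen (fun a b => P U b ∧ r a b) Ω Ω' :=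
      Relation.ReflTransGen.mono (r := fun a b => P K b ∧ r a b) (p := fun a b => P U b ∧ r a b)
        (fun a b hab => ⟨⟨hab.1.1, hab.1.2.1.trans hKU, hab.1.2.2⟩, hab.2⟩) Ω Ω' hΩ'T
    have h2 := E1_rtg_of_chain (P := P U) (r := r) G N
      (fun j hj => ⟨(hG j hj).1, E1_tri (hG j hj).2.1 (hK'.trans hKU),
        (hG j hj).2.2.trans (add_le_add hle' le_rfl)⟩) hGr
    rw [h0] at h2
    obtain ⟨N', G', h0', hN', hP', hr'⟩ := E1_chain_of_rtg (hP0 U) (h1.trans h2)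
    exact h ⟨N', G', h0', hP', hr', by
      rw [hN']
      exact hGN.trans hle'⟩
  · intro G hG hGK hGη
    by_contra hlt
    have hlt' := not_le.1 hlt
    have hGT : G ∈ T := Relation.ReflTransGen.tail hΩ'T
      ⟨⟨hG, E1_tri hGK hK', (hlt'.le.trans hle').trans le_self_add⟩, by
        show volume (Ω' ∆ G) ≤ ENNReal.ofReal η
        rwa [symmDiff_comm]⟩
    exact hlt (hle.trans (hinf G hGT))

/-- From `E_repl`.  Off `K` the perimeter measures of `Ω'`, `Ω` (and of every competitor `F`) agree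
(`pm_congr` on `Kᶜ`), which gives the bound on `pm Ω' A`; `O ⊆ lf Ω'` by `subset_lf` on small balls;
`ss_of_locmin` with `O := V` and `O' :=` an open set with compact closure between `closure U` and `O`. -/
theorem E_repl_ss (h2 : 2 ≤ d) (h6 : d ≤ 6) {Ω U O K V : Set (R d)} (hΩ : MeasurableSet Ω)
    (hO : IsOpen O) (hl : O ⊆ lf Ω) (hU : IsOpen U) (hUb : Bornology.IsBounded U)
    (hUO : closure U ⊆ O) (hK : IsCompact K) (hKU : K ⊆ U) (hV : IsOpen V) (hVK : V ⊆ K)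
    {ε δ η : ℝ} (hη : 0 < η) (h : AM Ω U ε δ η) :
    ∃ Ω' : Set (R d), MeasurableSet Ω' ∧ Ω' ∆ Ω ⊆ K ∧ O ⊆ lf Ω' ∧
      (∀ A, MeasurableSet A → pm Ω' A ≤ pm Ω (A ∪ closure U)) ∧ AM Ω' U ε δ η ∧ SS Ω' V := by
  obtain ⟨Ω', hm', hK', hle, hAM, hmin⟩ := E_repl hΩ hO hl hU hUb hUO hK hKU hη h
  have hUc : IsCompact (closure U) := hUb.isCompact_closure
  have hfin : pm Ω (closure U) < ⊤ := pm_lt_top hUc (hUO.trans hl)
  have hKC : K ⊆ closure U := hKU.trans subset_closure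
  have hCm : MeasurableSet (closure U) := isClosed_closure.measurableSet
  have hA : ∀ A, pm Ω' A ≤ pm Ω (A ∪ closure U) := by
    intro A
    refine (measure_mono (Set.subset_union_left (t := closure U))).trans ?_
    rw [E1_split hm' hΩ hK.isClosed hK' hCm hKC Set.subset_union_right,
      E1_split hΩ hΩ hK.isClosed (by simp only [symmDiff_self, bot_eq_empty, empty_subset]) hCm hKC (A := A ∪ closure U) Set.subset_union_right]
    exact add_le_add hle le_rfl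
  have hl' : O ⊆ lf Ω' := by
    intro x hx
    obtain ⟨ρ, hρ, hb⟩ := hl hx
    exact ⟨ρ, hρ, ((hA _).trans (measure_union_le _ _)).trans_lt (ENNReal.add_lt_top.2 ⟨hb, hfin⟩)⟩
  obtain ⟨O', hO', hUO', hO'O, hO'c⟩ := exists_open_between_and_isCompact_closure hUc hO hUO
  refine ⟨Ω', hm', hK', hl', fun A _ => hA A, hAM, ?_⟩
  refine ss_of_locmin h2 h6 hm' hV hO' ((hVK.trans hKC).trans hUO')
    ((measure_mono subset_closure).trans_lt (pm_lt_top hO'c (hO'O.trans hl'))) hη ?_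
  intro F hF hFV hFη
  rw [E1_split hF hm' hK.isClosed (hFV.trans hVK) hCm hKC hUO',
    E1_split hm' hm' hK.isClosed (by simp only [symmDiff_self, bot_eq_empty, empty_subset]) hCm hKC hUO']
  exact add_le_add (hmin F hF (hFV.trans hVK) hFη) le_rfl

end Pool.Agent.MP_5cfeaf_gt.W

end

section

/-! Block E, file 5: the cone theorem. -/

set_option autoImplicit false

open MeasureTheory Set Filter Topology Metric
open scoped ENNReal symmDiff Classical InnerProductSpace ContDiff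

namespace Pool.Agent.MP_5cfeaf_gt.W

variable {d : ℕ}

theorem E5_divT_cont {X : R d → R d} (hX : ContDiff ℝ 1 X) : Continuous (divT X) := by
  have hf : Continuous (fderiv ℝ X) := hX.continuous_fderiv one_ne_zero
  unfold divT dv
  refine Continuous.sub ?_ ?_
  · refine continuous_finsetSum _ fun i _ => ?_
    have h1 : Continuous fun p : R d × S d => fderiv ℝ X p.1 (EuclideanSpace.single i 1) :=
      (hf.comp continuous_fst).clm_apply continuous_const
    exact (EuclideanSpace.proj i : R d →L[ℝ] ℝ).continuous.comp h1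
  · have h2 : Continuous fun p : R d × S d => (p.2 : R d) :=
      continuous_subtype_val.comp continuous_snd
    exact h2.inner ((hf.comp continuous_fst).clm_apply h2)

theorem E5_divT_zero {X : R d → R d} {p : R d × S d} (hp : p.1 ∉ tsupport X) : divT X p = 0 := by
  have h : fderiv ℝ X p.1 = 0 := by
    have h1 : X =ᶠ[𝓝 p.1] 0 := notMem_tsupport_iff_eventuallyEq.mp hp
    rw [h1.fderiv_eq]
    exact fderiv_const_apply _
  simp [divT, dv, h]

theorem E5_fst_restrict (W : Vf d) {A : Set (R d)} (hA : MeasurableSet A) :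
    W.fst.restrict A = (W.restrict (A ×ˢ univ)).fst := by
  unfold Measure.fst
  rw [Measure.restrict_map measurable_fst hA, Set.prod_univ]

theorem E5_integrable {W : Vf d} {U : Set (R d)} (hW : LocFin W U) {X : R d → R d} (hX : C1c X U) :
    Integrable (divT X) W := by
  have hC : IsCompact (tsupport X ×ˢ (univ : Set (S d))) := hX.2.1.isCompact.prod isCompact_univ
  have hfin : W (tsupport X ×ˢ univ) < ⊤ := by
    have := hW _ hX.2.1.isCompact hX.2.2
    rwa [Measure.fst_apply (isClosed_tsupport X).measurableSet, ← Set.prod_univ] at this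
  have hc := E5_divT_cont hX.1
  obtain ⟨M, hM⟩ := hC.exists_bound_of_continuousOn hc.continuousOn
  have hm : MeasurableSet (tsupport X ×ˢ (univ : Set (S d))) := hC.isClosed.measurableSet
  have h1 : IntegrableOn (divT X) (tsupport X ×ˢ univ) W := by
    refine Measure.integrableOn_of_bounded (M := M) hfin.ne hc.aestronglyMeasurable ?_
    exact (ae_restrict_iff' hm).2 (Eventually.of_forall hM)
  refine (integrableOn_iff_integrable_of_support_subset ?_).1 h1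
  intro p hp
  refine ⟨?_, mem_univ _⟩
  by_contra hq
  exact hp (E5_divT_zero hq)

theorem E5_divT_smul {X : R d → R d} {f : R d → ℝ} {f' : R d →L[ℝ] ℝ} {p : R d × S d}
    (hf : HasFDerivAt f f' p.1) (hX : X =ᶠ[𝓝 p.1] fun y => f y • y) :
    divT X p = d * f p.1 + f' p.1 - f' p.2 * ⟪p.1, (p.2 : R d)⟫_ℝ := by
  have h1 : HasFDerivAt (fun y : R d => f y • y)
      (f p.1 • ContinuousLinearMap.id ℝ (R d) + f'.smulRight p.1) p.1 :=
    hf.smul (hasFDerivAt_id p.1)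
  have h2 : fderiv ℝ X p.1 = f p.1 • ContinuousLinearMap.id ℝ (R d) + f'.smulRight p.1 := by
    rw [hX.fderiv_eq, h1.fderiv]
  have hn : ⟪(p.2 : R d), (p.2 : R d)⟫_ℝ = 1 := by
    rw [real_inner_self_eq_norm_sq, mem_sphere_zero_iff_norm.mp p.2.2]; norm_num
  have h3 : f' p.1 = ∑ i, f' (EuclideanSpace.single i 1) * p.1 i := by
    conv_lhs => rw [← (EuclideanSpace.basisFun (Fin (d + 1)) ℝ).sum_repr p.1]
    rw [map_sum]
    refine Finset.sum_congr rfl fun i _ => ?_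
    rw [map_smul, smul_eq_mul, mul_comm]
    simp
  unfold divT dv
  rw [h2, h3]
  simp only [add_apply, smul_apply,
    ContinuousLinearMap.id_apply, ContinuousLinearMap.smulRight_apply, PiLp.add_apply,
    PiLp.smul_apply, smul_eq_mul, inner_add_right, inner_smul_right, hn,
    PiLp.single_apply, if_true, Finset.sum_add_distrib, Finset.sum_const,
    Finset.card_univ, Fintype.card_fin, nsmul_eq_mul, real_inner_comm p.1 (p.2 : R d)]
  push_cast
  ring

theorem E5_field (hd : 1 ≤ d) {U K : Set (R d)} (hU : IsOpen U) (hK : IsCompact K) (hKU : K ⊆ U)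
    (h0 : (0 : R d) ∉ U) : ∃ X : R d → R d, C1c X U ∧ ∀ p : R d × S d, p.1 ∈ K →
      ∃ c : ℝ, 0 < c ∧ divT X p = c * ⟪p.1, (p.2 : R d)⟫_ℝ ^ 2 := by
  obtain ⟨ψ, hψ, -, h1⟩ := E_bump hK hU hKU
  have hs : tsupport (fun y : R d => (ψ y * (‖y‖ ^ 2) ^ (-(d : ℝ) / 2)) • y) ⊆ tsupport ψ :=
    (tsupport_smul_subset_left _ _).trans tsupport_mul_subset_left
  refine ⟨fun y => (ψ y * (‖y‖ ^ 2) ^ (-(d : ℝ) / 2)) • y, ⟨?_, ?_, hs.trans hψ.2.2⟩, ?_⟩
  · rw [contDiff_iff_contDiffAt]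
    intro x
    by_cases hx : x = 0
    · have hx' : x ∉ tsupport ψ := fun h => h0 (hx ▸ hψ.2.2 h)
      have h2 : ψ =ᶠ[𝓝 x] 0 := notMem_tsupport_iff_eventuallyEq.mp hx'
      refine (contDiffAt_const (c := (0 : R d))).congr_of_eventuallyEq ?_
      filter_upwards [h2] with y hy
      simp [hy]
    · have hn : ‖x‖ ^ 2 ≠ 0 := pow_ne_zero 2 (norm_ne_zero_iff.mpr hx)
      exact (hψ.1.contDiffAt.mul (((contDiff_norm_sq ℝ).contDiffAt).rpow_const_of_ne hn)).smul
        contDiffAt_id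
  · exact hψ.2.1.isCompact.of_isClosed_subset (isClosed_tsupport _) hs
  · intro p hp
    have hx : p.1 ≠ 0 := fun h => h0 (h ▸ hKU hp)
    have hn : 0 < ‖p.1‖ ^ 2 := pow_pos (norm_pos_iff.mpr hx) 2
    have hf : HasFDerivAt (fun y : R d => (‖y‖ ^ 2) ^ (-(d : ℝ) / 2))
        ((-(d : ℝ) / 2 * (‖p.1‖ ^ 2) ^ (-(d : ℝ) / 2 - 1)) • (2 • innerSL ℝ p.1)) p.1 :=
      (hasStrictFDerivAt_norm_sq p.1).hasFDerivAt.rpow_const (Or.inl hn.ne')
    have hd' : (0 : ℝ) < d := by exact_mod_cast hd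
    refine ⟨d * (‖p.1‖ ^ 2) ^ (-(d : ℝ) / 2 - 1), mul_pos hd' (Real.rpow_pos_of_pos hn _), ?_⟩
    rw [E5_divT_smul hf (by filter_upwards [h1 p.1 hp] with y hy; rw [hy, one_mul])]
    have h2 : (‖p.1‖ ^ 2) ^ (-(d : ℝ) / 2) = (‖p.1‖ ^ 2) ^ (-(d : ℝ) / 2 - 1) * ‖p.1‖ ^ 2 := by
      rw [Real.rpow_sub_one hn.ne', div_mul_cancel₀ _ hn.ne']
    rw [h2]
    simp only [smul_apply, smul_eq_mul, innerSL_apply_apply,
      real_inner_self_eq_norm_sq, nsmul_eq_mul]
    push_cast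
    ring

/-- Test both varifolds with `X x = ψ x • (‖x‖ ^ d)⁻¹ • x`, `ψ` from `E_bump hK hU` (`X` is `C^1`: it vanishes near `0`).
For `p.1 ∈ K`: `divT X p = d * ⟪p.1, p.2⟫ ^ 2 / ‖p.1‖ ^ (d + 2)`.  Split both integrals into `K ×ˢ univ` and
`(U \ K) ×ˢ univ` (`divT X` is continuous, zero off the compact support, so integrable by `LocFin`): the second parts agree,
the first part vanishes for `W`, hence for `W'`; nonnegative integrand with zero integral.  On `U \ K` use `hag`. -/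
theorem E_con_of_agree (hd : 1 ≤ d) {W W' : Vf d} {U K : Set (R d)} (hU : IsOpen U) (hK : IsCompact K)
    (hKU : K ⊆ U) (h0 : (0 : R d) ∉ U) (hW : Stat W U) (hW' : Stat W' U) (hc : Con W U ⊥)
    (hag : W'.restrict ((U \ K) ×ˢ univ) = W.restrict ((U \ K) ×ˢ univ)) : Con W' U ⊥ := by
  obtain ⟨X, hX, hXK⟩ := E5_field hd hU hK hKU h0
  have hKm : MeasurableSet (K ×ˢ (univ : Set (S d))) :=
    hK.isClosed.measurableSet.prod MeasurableSet.univ
  have hUK : MeasurableSet ((U \ K) ×ˢ (univ : Set (S d))) :=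
    (hU.measurableSet.diff hK.isClosed.measurableSet).prod MeasurableSet.univ
  have split : ∀ V : Vf d, Stat V U → ∫ p in K ×ˢ univ, divT X p ∂V =
      -∫ p in (U \ K) ×ˢ univ, divT X p ∂V := by
    intro V hV
    have h1 := integral_add_compl hKm (E5_integrable hV.1 hX)
    have h2 : ∫ p in (K ×ˢ (univ : Set (S d)))ᶜ, divT X p ∂V =
        ∫ p in (U \ K) ×ˢ univ, divT X p ∂V := by
      refine setIntegral_eq_of_subset_of_forall_sdiff_eq_zero hKm.compl ?_ ?_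
      · rintro p ⟨hp, -⟩ hq
        exact hp.2 hq.1
      · rintro p ⟨hp, hq⟩
        refine E5_divT_zero fun h => hq ⟨⟨hX.2.2 h, fun hk => hp ⟨hk, mem_univ _⟩⟩, mem_univ _⟩
    rw [hV.2 X hX, h2] at h1
    linarith only [h1]
  have hz : ∫ p in K ×ˢ univ, divT X p ∂W = 0 := by
    refine integral_eq_zero_of_ae ((ae_restrict_iff' hKm).2 ?_)
    filter_upwards [hc] with p hp hk
    obtain ⟨c, -, he⟩ := hXK p hk.1
    rw [he, (hp (hKU hk.1)).1]
    simp
  have hz' : ∫ p in K ×ˢ univ, divT X p ∂W' = 0 := by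
    rw [split W' hW', hag, ← split W hW, hz]
  have hnn : 0 ≤ᵐ[W'.restrict (K ×ˢ univ)] divT X := by
    refine (ae_restrict_iff' hKm).2 (Eventually.of_forall fun p hk => ?_)
    obtain ⟨c, hc0, he⟩ := hXK p hk.1
    rw [he]
    exact mul_nonneg hc0.le (sq_nonneg _)
  have h1 := (ae_restrict_iff' hKm).1
    ((setIntegral_eq_zero_iff_of_nonneg_ae hnn (E5_integrable hW'.1 hX).integrableOn).1 hz')
  have h2 : ∀ᵐ p ∂W'.restrict ((U \ K) ×ˢ univ), ⟪p.1, (p.2 : R d)⟫_ℝ = 0 := by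
    rw [hag]
    refine (ae_restrict_iff' hUK).2 ?_
    filter_upwards [hc] with p hp hk
    exact (hp hk.1.1).1
  filter_upwards [h1, (ae_restrict_iff' hUK).1 h2] with p hp hq hu
  refine ⟨?_, fun e he => by rw [Submodule.mem_bot] at he; rw [he, inner_zero_left]⟩
  by_cases hk : p.1 ∈ K
  · obtain ⟨c, hc0, he⟩ := hXK p hk
    have h3 : divT X p = 0 := hp ⟨hk, mem_univ _⟩
    rw [he] at h3
    exact pow_eq_zero_iff two_ne_zero |>.1 ((mul_eq_zero.1 h3).resolve_left hc0.ne')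
  · exact hq ⟨⟨hu, hk⟩, mem_univ _⟩

theorem E5_vf_fst (Ω : Set (R d)) {O C : Set (R d)} (hC : IsCompact C) (h : C ⊆ O) :
    (vf Ω O).fst C = pm Ω C := by
  rw [vf_fst, Measure.restrict_apply hC.isClosed.measurableSet, inter_eq_left.2 h]

theorem E5_restrict_eq {α : Type} [MeasurableSpace α] {μ ν : Measure α} {s t : Set α} (h : s ⊆ t)
    (he : μ.restrict t = ν.restrict t) : μ.restrict s = ν.restrict s := by
  rw [← Measure.restrict_restrict_of_subset (μ := μ) h, he, Measure.restrict_restrict_of_subset h]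

/-- Cone theorem.  `ρ` from `ks_cone`, `σ = ρ + 1`, `U = An σ⁻¹ σ`, `K = {ρ⁻¹ ≤ ‖x‖ ≤ ρ}`, `V = An ρ⁻¹ ρ`.
Let `𝓥` be an ultrafilter on `Set (R d) × ℕ` below
`(𝓤 ×ˢ atTop) ⊓ 𝓟 {q | MeasurableSet q.1 ∧ O ⊆ lf q.1 ∧ ∃ δ > 0, ∃ η > 0, AM q.1 U (1/(q.2+1)) δ η}` (`NeBot`), choose the
replacements `Ω' q` by `E_repl_ss`, `W'` their limit in `O` (`vf_compact`).  `E_kam_of`, `E_am_mono`, `E_kam_stat`: `W`, `W'`
are stationary in `U`.  `VConv.unique` on the open set `O \ K` (`VConv.congr`, `vf_congr`, `vf_restrict`) gives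
agreement off `K`; `E_con_of_agree`; `E_hom_of_con`, `E_hom_eq` with the shell `An ρ σ`: the weights agree on `U`.
`KS V W'` with the ultrafilter `𝓥.map fun q => (Ω' q, V)`; `ks_cone`. -/
theorem E_cone (h2 : 2 ≤ d) (h6 : d ≤ 6) : ∃ σ : ℝ, 3 ≤ σ ∧ ∀ (O : Set (R d)) (W : Vf d), IsOpen O →
    closedBall 0 σ ⊆ O → KAM O (An σ⁻¹ σ) W → Con W (An σ⁻¹ σ) ⊥ →
    ∃ (Q : R d ≃ₗᵢ[ℝ] R d) (N : ℕ),
      W.fst.restrict (An (1 / 2) 2) = (N : ℝ≥0∞) • (pl Q).restrict (An (1 / 2) 2) := by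
  obtain ⟨ρ, hρ, hks⟩ := ks_cone h2 h6
  refine ⟨ρ + 1, by linarith only [hρ], ?_⟩
  intro O W hO hσO hkam hcon
  set σ : ℝ := ρ + 1 with hσ
  have hρ0 : 0 < ρ := by linarith only [hρ]
  have hρσ : ρ < σ := by linarith only []
  have hσ0 : 0 < σ := by linarith only [hρ]
  have hinv : σ⁻¹ < ρ⁻¹ := (inv_lt_inv₀ hσ0 hρ0).2 hρσ
  have hσi : 0 < σ⁻¹ := inv_pos.2 hσ0
  have hσ2 : σ⁻¹ ≤ 1 / 2 := by
    rw [one_div]; exact (inv_le_inv₀ hσ0 two_pos).2 (by linarith only [hρ])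
  set U : Set (R d) := An σ⁻¹ σ with hUdef
  set V : Set (R d) := An ρ⁻¹ ρ with hVdef
  set K : Set (R d) := {x | ρ⁻¹ ≤ ‖x‖ ∧ ‖x‖ ≤ ρ} with hKdef
  have hU : IsOpen U := E_isOpen_an _ _
  have hV : IsOpen V := E_isOpen_an _ _
  have hUb' : U ⊆ closedBall 0 σ := fun x hx => mem_closedBall_zero_iff.2 hx.2.le
  have hUb : Bornology.IsBounded U := isBounded_closedBall.subset hUb'
  have hcl : closure U ⊆ closedBall 0 σ := closure_minimal hUb' isClosed_closedBall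
  have hUO : closure U ⊆ O := hcl.trans hσO
  have hUc : IsCompact (closure U) := hUb.isCompact_closure
  have hKc : IsClosed K :=
    (isClosed_le continuous_const continuous_norm).inter (isClosed_le continuous_norm continuous_const)
  have hK : IsCompact K := (isCompact_closedBall (0 : R d) ρ).of_isClosed_subset hKc
    fun x hx => mem_closedBall_zero_iff.2 hx.2
  have hKU : K ⊆ U := fun x hx => ⟨hinv.trans_le hx.1, hx.2.trans_lt hρσ⟩
  have hVK : V ⊆ K := fun x hx => ⟨hx.1.le, hx.2.le⟩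
  have hU0 : (0 : R d) ∉ U := fun h => by
    have := h.1
    rw [norm_zero] at this
    linarith only [hσi, this]
  have hUO' : U ⊆ O := subset_closure.trans hUO
  have hVO : V ⊆ O := (hVK.trans hKU).trans hUO'
  have hsW : Stat W U := E_kam_stat hO hU hUb hUO hkam
  obtain ⟨hW, 𝓤, hm, ha, hb, hc⟩ := hkam
  let 𝓥 : Ultrafilter (Set (R d) × ℕ) :=
    (hyperfilter ℕ).bind fun n => 𝓤.map fun Ω => (Ω, n)
  have hev : ∀ p : Set (R d) × ℕ → Prop, (∀ᶠ n in atTop, ∀ᶠ Ω in (𝓤 : Filter (Set (R d))), p (Ω, n)) →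
      ∀ᶠ q in (𝓥 : Filter (Set (R d) × ℕ)), p q := by
    intro p hp
    rw [← Nat.cofinite_eq_atTop] at hp
    exact Filter.eventually_bind.2 (hp.filter_mono hyperfilter_le_cofinite)
  have hfst : Tendsto Prod.fst (𝓥 : Filter (Set (R d) × ℕ)) (𝓤 : Filter (Set (R d))) :=
    fun s hs => hev (fun q => q.1 ∈ s) (Eventually.of_forall fun _ => hs)
  have hch : ∀ q : Set (R d) × ℕ, ∃ Ω' : Set (R d), (MeasurableSet q.1 ∧ O ⊆ lf q.1) →
      (∃ δ > 0, ∃ η > 0, AM q.1 U (1 / ((q.2 : ℝ) + 1)) δ η) →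
      MeasurableSet Ω' ∧ Ω' ∆ q.1 ⊆ K ∧ O ⊆ lf Ω' ∧
      (∀ A, MeasurableSet A → pm Ω' A ≤ pm q.1 (A ∪ closure U)) ∧
      (∃ δ > 0, ∃ η > 0, AM Ω' U (1 / ((q.2 : ℝ) + 1)) δ η) ∧ SS Ω' V := by
    intro q
    by_cases hq : (MeasurableSet q.1 ∧ O ⊆ lf q.1) ∧
        ∃ δ > 0, ∃ η > 0, AM q.1 U (1 / ((q.2 : ℝ) + 1)) δ η
    · obtain ⟨⟨h1, h3⟩, δ, hδ, η, hη, h4⟩ := hq
      obtain ⟨Ω', a1, a2, a3, a4, a5, a6⟩ := E_repl_ss h2 h6 h1 hO h3 hU hUb hUO hK hKU hV hVK hη h4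
      exact ⟨Ω', fun _ _ => ⟨a1, a2, a3, a4, ⟨δ, hδ, η, hη, a5⟩, a6⟩⟩
    · exact ⟨∅, fun h1 h3 => absurd ⟨h1, h3⟩ hq⟩
  choose Ω' hΩ' using hch
  have hP : ∀ᶠ q in (𝓥 : Filter (Set (R d) × ℕ)), (MeasurableSet q.1 ∧ O ⊆ lf q.1) ∧
      MeasurableSet (Ω' q) ∧ Ω' q ∆ q.1 ⊆ K ∧ O ⊆ lf (Ω' q) ∧
      (∀ A, MeasurableSet A → pm (Ω' q) A ≤ pm q.1 (A ∪ closure U)) ∧
      (∃ δ > 0, ∃ η > 0, AM (Ω' q) U (1 / ((q.2 : ℝ) + 1)) δ η) ∧ SS (Ω' q) V := by
    refine hev _ (Eventually.of_forall fun n => ?_)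
    filter_upwards [hm, ha (1 / ((n : ℝ) + 1)) Nat.one_div_pos_of_nat] with Ω h1 h3
    exact ⟨h1, hΩ' (Ω, n) h1 h3⟩
  have hbd : ∀ C, IsCompact C → C ⊆ O → ∃ M < ⊤, ∀ᶠ q in (𝓥 : Filter (Set (R d) × ℕ)),
      pm (Ω' q) C ≤ M := by
    intro C hC hCO
    obtain ⟨M, hM, h1⟩ := hb (C ∪ closure U) (hC.union hUc) (union_subset hCO hUO)
    refine ⟨M, hM, ?_⟩
    filter_upwards [hP, hfst.eventually h1] with q hq h3
    rw [E5_vf_fst _ (hC.union hUc) (union_subset hCO hUO)] at h3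
    exact (hq.2.2.2.2.1 C hC.isClosed.measurableSet).trans h3
  have hb' : LocBd (𝓥 : Filter (Set (R d) × ℕ)) (fun q => vf (Ω' q) O) O := by
    intro C hC hCO
    obtain ⟨M, hM, h1⟩ := hbd C hC hCO
    refine ⟨M, hM, h1.mono fun q hq => ?_⟩
    rwa [E5_vf_fst _ hC hCO]
  obtain ⟨W', hW', hc'⟩ := vf_compact 𝓥 hO hb'
  have hkam' : KAM O U W' := by
    refine E_kam_of 𝓥 Ω' hW' (hP.mono fun q hq => ⟨hq.2.1, hq.2.2.2.1⟩) ?_ hb' hc'
    intro ε hε
    have h1 : ∀ᶠ q in (𝓥 : Filter (Set (R d) × ℕ)), 1 / ((q.2 : ℝ) + 1) ≤ ε := by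
      refine hev _ ?_
      filter_upwards [(tendsto_one_div_add_atTop_nhds_zero_nat (𝕜 := ℝ)).eventually
        (ge_mem_nhds hε)] with n hn
      exact Eventually.of_forall fun _ => hn
    filter_upwards [hP, h1] with q hq h3
    obtain ⟨δ, hδ, η, hη, h4⟩ := hq.2.2.2.2.2.1
    exact ⟨δ, hδ, η, hη, E_am_mono h4 h3⟩
  have hsW' : Stat W' U := E_kam_stat hO hU hUb hUO hkam'
  have hOK : IsOpen (O \ K) := hO.sdiff hKc
  have hag : W.restrict ((O \ K) ×ˢ univ) = W'.restrict ((O \ K) ×ˢ univ) := by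
    have h1 : VConv (𝓥 : Filter (Set (R d) × ℕ)) (fun q => vf q.1 O) W O :=
      fun g hg hs => (hc g hg hs).comp hfst
    have h3 : VConv (𝓥 : Filter (Set (R d) × ℕ)) (fun q => vf (Ω' q) O) W (O \ K) := by
      refine (h1.mono sdiff_subset).congr fun C hC hCO => ?_
      filter_upwards [hP] with q hq
      refine E5_restrict_eq (Set.prod_mono_left hCO) ?_
      rw [vf_restrict _ hOK.measurableSet sdiff_subset, vf_restrict _ hOK.measurableSet sdiff_subset]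
      refine vf_congr hq.1.1 hq.2.1 hOK (sdiff_subset.trans hq.1.2) ?_
      have h4 : (q.1 ∆ Ω' q) ∩ (O \ K) = ∅ := by
        rw [symmDiff_comm]
        exact eq_empty_of_forall_notMem fun x hx => hx.2.2 (hq.2.2.1 hx.1)
      rw [h4, measure_empty]
    exact h3.unique hOK (hc'.mono sdiff_subset) (fun C hC h => hW C hC (h.trans sdiff_subset))
      (fun C hC h => hW' C hC (h.trans sdiff_subset))
  have hcon' : Con W' U ⊥ := E_con_of_agree (by omega) hU hK hKU hU0 hsW hsW' hcon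
    (E5_restrict_eq (Set.prod_mono_left (sdiff_subset_sdiff_left hUO')) hag.symm)
  have hfe : W.fst.restrict U = W'.fst.restrict U := by
    refine E_hom_eq (a' := ρ) (b' := σ) hσi.le (by linarith only [hρ, hσi, hσ2]) hρσ le_rfl
      (E_hom_of_con hU hsW hcon) (E_hom_of_con hU hsW' hcon') ?_
    have hm' : MeasurableSet (An ρ σ : Set (R d)) := (E_isOpen_an _ _).measurableSet
    rw [E5_fst_restrict _ hm', E5_fst_restrict _ hm']
    congr 1
    have hs : (An ρ σ : Set (R d)) ⊆ O \ K := fun x hx =>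
      ⟨hUO' ⟨lt_of_le_of_lt (by linarith only [hρ, hσi, hσ2]) hx.1, hx.2⟩, fun hk => absurd hx.1 (not_lt.2 hk.2)⟩
    exact E5_restrict_eq (Set.prod_mono_left hs) hag
  have hKS : KS V W' := by
    refine ⟨fun C hC h => hW' C hC (h.trans hVO), 𝓥.map fun q => (Ω' q, V), ?_, ?_, ?_, ?_⟩
    · exact Filter.eventually_map.2 (hP.mono fun q hq => ⟨hV, hq.2.2.2.2.2.2⟩)
    · exact fun C _ h => Filter.eventually_map.2 (Eventually.of_forall fun _ => h)
    · intro C hC hCV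
      obtain ⟨M, hM, h1⟩ := hbd C hC (hCV.trans hVO)
      refine ⟨M, hM, Filter.eventually_map.2 (h1.mono fun q hq => ?_)⟩
      show (vf (Ω' q) V).fst C ≤ M
      rwa [E5_vf_fst _ hC hCV]
    · have h1 : VConv (𝓥 : Filter (Set (R d) × ℕ)) (fun q => vf (Ω' q) V) W' V := by
        refine (hc'.mono hVO).congr fun C hC hCV => Eventually.of_forall fun q => ?_
        rw [← vf_restrict (Ω' q) hV.measurableSet hVO,
          Measure.restrict_restrict_of_subset (Set.prod_mono_left hCV)]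
      exact fun g hg hs => tendsto_map'_iff.2 (h1 g hg hs)
  obtain ⟨Q, N, hQ⟩ := hks W' hKS (Filter.Eventually.mono hcon' fun p hp hv => hp (hKU (hVK hv)))
  refine ⟨Q, N, ?_⟩
  rw [← hQ]
  have hs : (An (1 / 2) 2 : Set (R d)) ⊆ U := fun x hx =>
    ⟨lt_of_le_of_lt hσ2 hx.1, hx.2.trans_le (by linarith only [hρ, hσi, hσ2])⟩
  exact E5_restrict_eq hs hfe

end Pool.Agent.MP_5cfeaf_gt.W

end

section

/-! Block E, file 6: small density drop forces an integer density and an empty test ball. -/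

set_option autoImplicit false

open MeasureTheory Set Filter Topology Metric
open scoped ENNReal symmDiff Classical InnerProductSpace ContDiff

namespace Pool.Agent.MP_5cfeaf_gt.W

variable {d : ℕ}

theorem E6_an_sub {a b c : ℝ} (h : b ≤ c) : (An a b : Set (R d)) ⊆ ball 0 c := fun _ hx =>
  mem_ball_zero_iff.2 (hx.2.trans_le h)

/-- the exact case: no drop at all -/
theorem E6_exact (hd : 1 ≤ d) {σ t a : ℝ} (hσ : 3 ≤ σ) (hE : ∀ (O : Set (R d)) (W : Vf d), IsOpen O →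
    closedBall 0 σ ⊆ O → KAM O (An σ⁻¹ σ) W → Con W (An σ⁻¹ σ) ⊥ →
    ∃ (Q : R d ≃ₗᵢ[ℝ] R d) (N : ℕ),
      W.fst.restrict (An (1 / 2) 2) = (N : ℝ≥0∞) • (pl Q).restrict (An (1 / 2) 2))
    (ht : 0 < t) (htσ : t * σ ≤ 1) (ha : 0 < a) (ha1 : a < 1) {W : Vf d} (hs : Stat W (ball 0 2))
    (hk : KAM (ball 0 2) (An (t * σ⁻¹) (t * σ)) W) (hθ : theta W 0 1 ≤ theta W 0 a) :
    ∃ (N : ℕ) (j : Fin (d + 1)), theta W 0 1 = N * cd d ∧
      W.fst (closedBall (Etc j) (Etr d)) = 0 := by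
  have h12 : closedBall (0 : R d) 1 ⊆ ball 0 2 := closedBall_subset_ball (by norm_num)
  have hcon : ∀ A : Set (R d), A ⊆ ball 0 1 → Con W A ⊥ := fun A hA => by
    filter_upwards [theta_rigid hd hs ha ha1 h12 hθ] with p hp hpA
    refine ⟨by simpa using hp (hA hpA), fun e he => ?_⟩
    rw [(Submodule.mem_bot ℝ).1 he, inner_zero_left]
  have hO : simP t 0 (Eid d) '' ball 0 2 = ball 0 (2 / t) := by
    have h := simP_ball ht 0 0 (Eid d) (2 / t)
    rwa [mul_div_cancel₀ _ ht.ne', E_sim_zero] at h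
  have hk' := E_kam_sim isOpen_ball hk ht 0 (Eid d)
  have hc' := E_con_sim (hcon _ (E6_an_sub (a := t * σ⁻¹) htσ)) ht
  rw [E_sim_an ht] at hk' hc'
  rw [hO] at hk'
  obtain ⟨Q, N, hQ⟩ := hE _ _ isOpen_ball
    (closedBall_subset_ball (by rw [lt_div_iff₀ ht]; linarith only [htσ, ha, ha1])) hk' hc'
  have h1 := E_unsim ht Q N hQ
  rw [← Measure.restrict_smul] at h1
  have h2 := E_hom_eq le_rfl (by positivity) (by linarith only [ht]) (b := 1) (by nlinarith only [hσ, htσ])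
    (E_hom_of_con (E_isOpen_an 0 1) (hs.mono (E6_an_sub (by norm_num)))
      (hcon _ (E6_an_sub le_rfl))) (E_hom_pl Q N _) h1
  obtain ⟨j, hj⟩ := E_pl_miss Q
  refine ⟨N, j, E_theta_pl hd Q N (E_atom hd hs one_pos h12) (by rw [h2, Measure.restrict_smul]), ?_⟩
  rw [← Measure.restrict_eq_self _ (E_test_sub j), h2, Measure.restrict_eq_self _ (E_test_sub j),
    Measure.smul_apply, hj, smul_zero]

/-- small drop: compactness and the exact case -/
theorem E_pq (h2 : 2 ≤ d) (h6 : d ≤ 6) : ∃ σ : ℝ, 3 ≤ σ ∧ ∀ (Λ : ℝ) (I : ℕ) (s : ℝ), σ ≤ s → ∀ κ > 0,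
    ∃ η > 0, ∀ W : Vf d, Stat W (ball 0 2) → W.fst (ball 0 2) ≤ ENNReal.ofReal Λ →
      (∃ i ≤ I, KAM (ball 0 2) (An ((s ^ (i + 1))⁻¹ * σ⁻¹) ((s ^ (i + 1))⁻¹ * σ)) W) →
      theta W 0 1 ≤ theta W 0 (s ^ (I + 1))⁻¹ + η →
      (∃ N : ℕ, |theta W 0 1 - N * cd d| ≤ κ) ∧
        ∃ j : Fin (d + 1), W.fst (closedBall (Etc j) (Etr d)) ≤ ENNReal.ofReal κ := by
  obtain ⟨σ, hσ, hE⟩ := E_cone h2 h6
  refine ⟨σ, hσ, fun Λ I s hs κ hκ => ?_⟩
  by_contra hcon
  have hex : ∀ k : ℕ, ∃ (W : Vf d) (i : ℕ), Stat W (ball 0 2) ∧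
      W.fst (ball 0 2) ≤ ENNReal.ofReal Λ ∧ i ≤ I ∧
      KAM (ball 0 2) (An ((s ^ (i + 1))⁻¹ * σ⁻¹) ((s ^ (i + 1))⁻¹ * σ)) W ∧
      theta W 0 1 ≤ theta W 0 (s ^ (I + 1))⁻¹ + 1 / ((k : ℝ) + 1) ∧
      ¬ ((∃ N : ℕ, |theta W 0 1 - N * cd d| ≤ κ) ∧
        ∃ j : Fin (d + 1), W.fst (closedBall (Etc j) (Etr d)) ≤ ENNReal.ofReal κ) := fun k => by
    by_contra hne
    refine hcon ⟨1 / ((k : ℝ) + 1), by positivity, fun W h1 h3 ⟨i, hi, h4⟩ h5 => ?_⟩
    by_contra h6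
    exact hne ⟨W, i, h1, h3, hi, h4, h5, h6⟩
  choose W i hst hm hi hk hθ hn using hex
  obtain ⟨i₀, -, hi₀⟩ := Ultrafilter.eq_pure_of_finite_mem (f := (hyperfilter ℕ).map i)
    (finite_Iic I) (Ultrafilter.mem_map.2 (univ_mem' hi))
  have hev : ∀ᶠ k in (hyperfilter ℕ : Filter ℕ), i k = i₀ := by
    have : {i₀} ∈ (hyperfilter ℕ).map i := hi₀ ▸ Ultrafilter.mem_pure.2 rfl
    exact Ultrafilter.mem_map.1 this
  have hb : LocBd (hyperfilter ℕ : Filter ℕ) W (ball 0 2) := fun K _ hK =>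
    ⟨_, ENNReal.ofReal_lt_top, Eventually.of_forall fun k => (measure_mono hK).trans (hm k)⟩
  obtain ⟨W₀, hW₀, hc⟩ := vf_compact (hyperfilter ℕ) isOpen_ball hb
  have hs₀ : Stat W₀ (ball 0 2) := hc.stat (O' := fun _ => ball 0 2) hW₀ (Eventually.of_forall hst)
    fun K _ hK => Eventually.of_forall fun _ => hK
  have hk₀ := E_kam_lim (hyperfilter ℕ) isOpen_ball (hev.mono fun k h => h ▸ hk k) hb hc hW₀
  have hs1 : 1 < s := by linarith only [hσ, hs]
  have hpow : ∀ m : ℕ, s ≤ s ^ (m + 1) := fun m => le_self_pow₀ hs1.le m.succ_ne_zero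
  have hpos : ∀ m : ℕ, 0 < (s ^ (m + 1))⁻¹ := fun m => by positivity
  have ha1 : (s ^ (I + 1))⁻¹ < 1 := inv_lt_one_of_one_lt₀ (hs1.trans_le (hpow I))
  have ht1 := hc.theta (x := 0) one_pos (closedBall_subset_ball (by norm_num))
  have ht2 := (hc.theta (x := 0) (hpos I) (closedBall_subset_ball (by linarith only [ha1]))).add
    (tendsto_one_div_add_atTop_nhds_zero_nat.mono_left Nat.hyperfilter_le_atTop)
  rw [add_zero] at ht2
  obtain ⟨N, j, hN, hj⟩ := E6_exact (by omega) hσ hE (hpos i₀)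
    ((inv_mul_le_one₀ (by positivity)).2 (hs.trans (hpow i₀))) (hpos I) ha1 hs₀ hk₀
    (le_of_tendsto_of_tendsto' ht1 ht2 hθ)
  have h1 := hc.limsup_le isOpen_ball hb hW₀ (isCompact_closedBall (Etc j) (Etr d))
    ((E_test_sub j).trans (E6_an_sub (by norm_num)))
  rw [hj] at h1
  have h3 := eventually_lt_of_limsup_lt (h1.trans_lt (ENNReal.ofReal_pos.2 hκ))
  rw [hN] at ht1
  obtain ⟨k, hk1, hk2⟩ := (h3.and (Metric.tendsto_nhds.1 ht1 κ hκ)).exists
  exact hn k ⟨⟨N, hk2.le⟩, j, hk1.le⟩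

end Pool.Agent.MP_5cfeaf_gt.W

end

section

/-! Block E, file 7: the min-max step. -/

set_option autoImplicit false

open MeasureTheory Set Filter Topology Metric
open scoped ENNReal symmDiff Classical InnerProductSpace ContDiff

namespace Pool.Agent.MP_5cfeaf_gt.W

variable {d : ℕ}

theorem E7_flag {α : Type} {k : ℕ} {A : α → Prop} {Rl Rl' : α → α → Prop} {F : Finset (Vx α)}
    (h : IsFlag k A Rl F) (hR : ∀ a b, Rl a b → Rl' a b) : IsFlag k A Rl' F :=
  ⟨h.1, fun v hv => ⟨(h.2.1 v hv).1, (h.2.1 v hv).2.1,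
    fun a ha b hb => hR a b ((h.2.1 v hv).2.2 a ha b hb)⟩, h.2.2⟩

theorem E7_FR {η η' : ℝ} (h : η ≤ η') {a b : Set (R d)} (hab : FR η a b) : FR η' a b :=
  le_trans hab (ENNReal.ofReal_le_ofReal h)

theorem E7_FA {L L' : ℝ} (h : L ≤ L') {a : Set (R d)} (ha : FA L a) : FA L' a :=
  ⟨ha.1, ha.2.trans (ENNReal.ofReal_le_ofReal h)⟩

theorem E7_Loc {δ δ' : ℝ} (h : δ ≤ δ') {a b : Set (R d)} (hab : Loc δ a b) : Loc δ' a b :=
  let ⟨D, h1, h2, h3, h4⟩ := hab
  ⟨D, h1, h2, h3.trans (ENNReal.ofReal_le_ofReal h), h4.trans (ENNReal.ofReal_le_ofReal h)⟩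

/-- every discrete sweepout that is fine enough bounds the width -/
theorem E_width_le (hd : 1 ≤ d) {k : ℕ} (hk : 1 ≤ k) {L δ : ℝ} (hL : 0 ≤ L) (hδ : 0 < δ) :
    ∃ η > 0, SwS (d := d) k (FA L) (FR η) → width (d + 1) k ≤ ENNReal.ofReal (L + δ) := by
  obtain ⟨η, η0, G, hG⟩ := interp hd k hL hδ
  have h1 : volume (B d) ≠ ⊤ := measure_ball_lt_top.ne
  have h2 : 0 < (volume (B d)).toReal :=
    ENNReal.toReal_pos (measure_ball_pos _ _ one_pos).ne' h1
  have h3 : ∀ F, IsFlag k (FA L) (FR (min η ((volume (B d)).toReal / 2))) F →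
      IsFlag k (FA (d := d) L) (FR η) F := fun F hF => E7_flag hF fun a b => E7_FR (min_le_left _ _)
  refine ⟨min η ((volume (B d)).toReal / 2), by positivity, fun h => width_le_of_family hk h
    (fun a _ h4 => ?_) G (fun F hF x hx => ((hG F (h3 F hF)).1 x hx).1)
    (fun F hF x hx => ((hG F (h3 F hF)).1 x hx).2) fun F hF => (hG F (h3 F hF)).2.2⟩
  have h5 := E7_FR (min_le_right _ _) h4
  rw [FR, symmDiff_compl_self, top_eq_univ, univ_inter] at h5
  linarith only [ENNReal.toReal_le_of_le_ofReal (by positivity) h5, h2]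

/-- the min-max step -/
theorem E_good (hd : 1 ≤ d) {p m : ℕ} (hp : 1 ≤ p) {w : ℝ} (hw0 : 0 ≤ w)
    (hw : width (d + 1) p = ENNReal.ofReal w) (hpm : width (d + 1) (p + m) ≤ ENNReal.ofReal w)
    {N M : ℕ} (X : Fin N → R d → R d) (hX : ∀ j, C1c (X j) (B d) ∧ ∀ x, ‖fderiv ℝ (X j) x‖ ≤ 1)
    (U : Fin M → Set (R d)) (ψ : Fin M → R d → ℝ) (hU : ∀ j, IsOpen (U j))
    (hψ : ∀ j, C1c (ψ j) (B d) ∧ (∀ x, 0 ≤ ψ j x ∧ ψ j x ≤ 1) ∧
      ∀ x ∈ closure (U j), ∀ᶠ y in 𝓝 x, ψ j y = 1)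
    (hdis : ∀ i j, i ≠ j → Disjoint (tsupport (ψ i)) (tsupport (ψ j)))
    (D : Fin m → Set (R d)) (hD : ∀ i, MeasurableSet (D i) ∧ D i ⊆ B d) {ε : ℝ} (hε : 0 < ε) :
    ∃ a : Set (R d), FA (w + 1) a ∧ (∀ j, |fv a (X j)| ≤ ε) ∧
      (∃ δ > 0, ∃ η > 0, (Finset.univ.filter fun j => ¬ AM a (U j) ε δ η).card ≤ 2 ^ (p + 1)) ∧
      ∀ i, |(volume (a ∩ D i)).toReal - (volume (D i)).toReal / 2| ≤ ε := by
  by_contra hn
  obtain ⟨ε₁, ε0, hP⟩ := pull X hX ψ (fun j => ⟨(hψ j).1.1.continuous, (hψ j).2.1⟩) (w + 1) hε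
  obtain ⟨γ, γ0, δ', δ0, c, c0, hA⟩ := amdef U ψ hU hψ hdis p hε ε0
  obtain ⟨c', hc⟩ : ∃ c' : ℝ, c' = min c 1 := ⟨_, rfl⟩
  have c1 : 0 < c' := by rw [hc]; positivity
  have c2 : c' ≤ c := hc.trans_le (min_le_left _ _)
  have c3 : c' ≤ 1 := hc.trans_le (min_le_right _ _)
  obtain ⟨δ, δ1, hP⟩ := hP γ γ0
  obtain ⟨η'', η2, hW⟩ := E_width_le hd hp (le_max_right (w + c' / 2 - c) 0)
    (by positivity : 0 < c' / 4)
  obtain ⟨η', η1, ηb, ηb0, hA⟩ := hA (w + c' / 2) η'' η2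
  obtain ⟨ηc, ηc0, hP⟩ := hP (p + m) (w + c' / 2) (by positivity) (by linarith only [c3]) (min ηb (ε / 2))
    (by positivity)
  obtain ⟨ηa, ηa0, G, hG⟩ := interp hd (p + m) (by positivity : 0 ≤ w + c' / 4)
    (by positivity : 0 < min δ (c' / 4))
  have s1 := sw_of_width (L := w + c' / 4)
    (hpm.trans_lt ((ENNReal.ofReal_lt_ofReal_iff (by positivity)).2 (by linarith only [c1]))) ηa0
  have s2 := hP (Sw.family odd2_S odd2_S s1 G (fun F hF x hx => ((hG F hF).1 x hx).1)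
    (fun F hF x hx => E7_FA (by linarith only [min_le_right δ (c' / 4)]) ((hG F hF).1 x hx).2.1)
    fun F hF => ((hG F hF).2.1 ηc ηc0).imp fun σ h => ⟨h.1, fun x hx x' hx' h' =>
      (h.2 x hx x' hx' h').imp_right (E7_Loc (min_le_left _ _))⟩)
  have fin : ∀ i (a : Set (R d)), volume (a ∩ D i) ≠ ⊤ := fun i a =>
    ((measure_mono (inter_subset_right.trans (hD i).2)).trans_lt measure_ball_lt_top).ne
  have s3 := Sw.cap odd2_S s2 (fun i a => if MeasurableSet a then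
      (volume (a ∩ D i)).toReal - (volume (D i)).toReal / 2 else 0) (fun i a => by
    by_cases h : MeasurableSet a
    · have := measureReal_inter_add_sdiff (μ := volume) (s := D i) h (univ_inter (D i) ▸ fin i univ)
      rw [if_pos h, if_pos h.compl, inter_comm, inter_comm a, ← Set.sdiff_eq]
      simp only [Measure.real] at this
      linarith only [this]
    · rw [if_neg h, if_neg (MeasurableSet.compl_iff.not.2 h), neg_zero]) (η := ε / 2)
    fun i a b ha hb h => by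
      rw [if_pos ha.1.1, if_pos hb.1.1, sub_sub_sub_cancel_right]
      refine (abs_measureReal_sub_le_measureReal_symmDiff' (ha.1.1.inter (hD i).1).nullMeasurableSet
        (hb.1.1.inter (hD i).1).nullMeasurableSet (fin i a) (fin i b)).trans
        (ENNReal.toReal_le_of_le_ofReal (by positivity) (le_trans (measure_mono ?_)
          (E7_FR (min_le_right _ _) h.1)))
      rw [← inter_symmDiff_distrib_right]
      exact inter_subset_inter_right _ (hD i).2
  have s4 := hA (Sw.mono s3 (fun a ha => ⟨ha.1.1, ha.1.2.imp_right fun h => not_le.1 fun h' =>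
    hn ⟨a, E7_FA (by linarith only [c3]) ha.1.1, h, ⟨δ', δ0, η', η1, h'⟩, fun i => by
      simpa only [ha.1.1.1, ↓ reduceIte, ne_eq, OfNat.ofNat_ne_zero, not_false_eq_true, mul_div_cancel₀] using ha.2 i⟩⟩)
    fun a b _ _ h => ⟨E7_FR (min_le_left _ _) h.1, h.2⟩)
  rcases lt_or_ge (w + c' / 2) c with h | h
  · obtain ⟨a, -, ha⟩ := Sw.exists_mem s4
    exact absurd (le_add_self.trans ha) (not_le.2 ((ENNReal.ofReal_lt_ofReal_iff c0).2 h))
  · have s5 := hW (Sw.mono s4 (fun a ha => ⟨ha.1, by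
      rw [max_eq_left (by linarith only [h]), ENNReal.ofReal_sub _ c0.le]
      exact ENNReal.le_sub_of_add_le_right ENNReal.ofReal_ne_top ha.2⟩) fun a b _ _ h => h)
    rw [hw, max_eq_left (by linarith only [h]), ENNReal.ofReal_le_ofReal_iff (by linarith only [c1, h])] at s5
    linarith only [c0, c2, s5]

end Pool.Agent.MP_5cfeaf_gt.W

end

section

/-! Block E, file 8: the limit varifold. -/

set_option autoImplicit false

open MeasureTheory Set Filter Topology Metric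
open scoped ENNReal symmDiff Classical InnerProductSpace ContDiff

namespace Pool.Agent.MP_5cfeaf_gt.W

variable {d : ℕ}

theorem E8_ball (d : ℕ) : ∃ c₀ > 0, ∀ (a : Set (R d)) (c : R d) (r : ℝ), 0 < r → MeasurableSet a →
    |(volume (a ∩ ball c r)).toReal - (volume (ball c r)).toReal / 2| ≤ (volume (ball c r)).toReal / 4 →
    ENNReal.ofReal (c₀ * r ^ d) ≤ pm a (ball c r) := by
  obtain ⟨C, hC, hP⟩ := poincare d
  have hv : 0 < (volume (ball (0 : R d) 1)).toReal :=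
    ENNReal.toReal_pos (measure_ball_pos _ _ one_pos).ne' measure_ball_lt_top.ne
  refine ⟨(volume (ball (0 : R d) 1)).toReal / (4 * C), by positivity, fun a c r hr ha h => ?_⟩
  have hb : (volume (ball c r)).toReal = r ^ (d + 1) * (volume (ball (0 : R d) 1)).toReal := by
    rw [Measure.addHaar_ball _ _ hr.le, ENNReal.toReal_mul, ENNReal.toReal_ofReal (by positivity)]
    simp
  have hf : volume (ball c r) ≠ ⊤ := measure_ball_lt_top.ne
  have hf1 : volume (a ∩ ball c r) ≠ ⊤ := ne_top_of_le_ne_top hf (measure_mono inter_subset_right)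
  have hf2 : volume (ball c r \ a) ≠ ⊤ := ne_top_of_le_ne_top hf (measure_mono sdiff_subset)
  have hs : (volume (a ∩ ball c r)).toReal + (volume (ball c r \ a)).toReal =
      (volume (ball c r)).toReal := by
    rw [← ENNReal.toReal_add hf1 hf2, inter_comm, measure_inter_add_sdiff _ ha]
  obtain ⟨h1, h2⟩ := abs_le.1 h
  have h3 : ENNReal.ofReal ((volume (ball c r)).toReal / 4) ≤
      min (volume (a ∩ ball c r)) (volume (ball c r \ a)) := by
    refine le_min ?_ ?_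
    · exact ENNReal.ofReal_le_of_le_toReal (by linarith only [h1])
    · exact ENNReal.ofReal_le_of_le_toReal (by linarith only [hs, h2])
  have h4 := h3.trans (hP a c r ha)
  have h5 : (volume (ball c r)).toReal / 4 =
      (C * r) * ((volume (ball (0 : R d) 1)).toReal / (4 * C) * r ^ d) := by
    rw [hb]; field_simp; ring
  rw [h5, ENNReal.ofReal_mul (by positivity)] at h4
  exact (ENNReal.mul_le_mul_iff_right (by simpa only [ne_eq, ENNReal.ofReal_eq_zero, not_le] using mul_pos hC hr) ENNReal.ofReal_ne_top).1 h4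

/-- `X` from `exists_fields`; for `k : ℕ` apply `E_good` with the first `k` fields, `ε = 1/(k+1)`,
`D i = ball (c i) (r i)`, get `a k, δ k, η k`.  `𝓥 = hyperfilter ℕ`; `W` from `vf_compact` in `B d` (`vf_fst`,
`subset_lf`); `VConv.le_liminf` for the mass, `VConv.divT` for stationarity; the bad set
`S k : Finset (Fin M)` is eventually constant (finite type: `Ultrafilter.eventually_exists_iff` or
`Ultrafilter.eq_pure_of_finite` for `𝓥.map S`); `E_kam_of`, `E_am_mono`.  Test balls: eventually both parts have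
volume `≥ vol (ball)/4 = r^(d+1) vol B / 4` (`Measure.addHaar_ball`), `poincare`, `VConv.limsup_le`;
`c₀ = vol B / (4 C)`. -/
theorem E_limit (hd : 1 ≤ d) : ∃ c₀ > 0, ∀ (p m : ℕ) (w : ℝ), 1 ≤ p → 0 ≤ w →
    width (d + 1) p = ENNReal.ofReal w → width (d + 1) (p + m) ≤ ENNReal.ofReal w →
    ∀ (M : ℕ) (U : Fin M → Set (R d)) (ψ : Fin M → R d → ℝ), (∀ j, IsOpen (U j)) →
    (∀ j, C1c (ψ j) (B d) ∧ (∀ x, 0 ≤ ψ j x ∧ ψ j x ≤ 1) ∧
      ∀ x ∈ closure (U j), ∀ᶠ y in 𝓝 x, ψ j y = 1) →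
    (∀ i j, i ≠ j → Disjoint (tsupport (ψ i)) (tsupport (ψ j))) →
    ∀ (c : Fin m → R d) (r : Fin m → ℝ), (∀ i, 0 < r i ∧ closedBall (c i) (r i) ⊆ B d) →
    ∃ W : Vf d, Stat W (B d) ∧ W.fst (B d) ≤ ENNReal.ofReal (w + 1) ∧
      (∃ S : Finset (Fin M), S.card ≤ 2 ^ (p + 1) ∧ ∀ j, j ∉ S → KAM (B d) (U j) W) ∧
      ∀ i, ENNReal.ofReal (c₀ * r i ^ d) ≤ W.fst (closedBall (c i) (r i)) := by
  obtain ⟨c₀, hc₀, hB⟩ := E8_ball d
  refine ⟨c₀, hc₀, fun p m w hp hw0 hw hpm M U ψ hU hψ hdis c r hr => ?_⟩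
  obtain ⟨X, hX, hXs⟩ := exists_fields d
  have key := fun k : ℕ => E_good hd hp hw0 hw hpm (N := k) (fun j => X j) (fun j => hX j) U ψ hU hψ hdis
    (fun i => ball (c i) (r i))
    (fun i => ⟨measurableSet_ball, ball_subset_closedBall.trans (hr i).2⟩)
    (ε := 1 / ((k : ℝ) + 1)) Nat.one_div_pos_of_nat
  choose a ha hfv hAM hvol using key
  choose δ hδ η hη hcard using hAM
  have hle : ((hyperfilter ℕ : Ultrafilter ℕ) : Filter ℕ) ≤ atTop := Nat.hyperfilter_le_atTop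
  have hε : ∀ ε : ℝ, 0 < ε → ∀ᶠ k : ℕ in ((hyperfilter ℕ : Ultrafilter ℕ) : Filter ℕ),
      1 / ((k : ℝ) + 1) ≤ ε := fun ε hε =>
    hle ((tendsto_one_div_add_atTop_nhds_zero_nat (𝕜 := ℝ)).eventually (ge_mem_nhds hε))
  have hmass : ∀ k K, (vf (a k) (B d)).fst K ≤ ENNReal.ofReal (w + 1) := by
    intro k K
    rw [vf_fst]
    refine le_trans ?_ (ha k).2
    calc (pm (a k)).restrict (B d) K ≤ (pm (a k)).restrict (B d) univ := measure_mono (subset_univ _)
      _ = pm (a k) (B d) := by rw [Measure.restrict_apply_univ]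
  have hb : LocBd ((hyperfilter ℕ : Ultrafilter ℕ) : Filter ℕ) (fun k => vf (a k) (B d)) (B d) :=
    fun K _ _ => ⟨ENNReal.ofReal (w + 1), ENNReal.ofReal_lt_top, Eventually.of_forall fun k => hmass k K⟩
  obtain ⟨W, hW, hc⟩ := vf_compact (hyperfilter ℕ) isOpen_ball hb
  have hWm : W.fst (B d) ≤ ENNReal.ofReal (w + 1) :=
    (hc.le_liminf hb hW isOpen_ball subset_rfl).trans
      (liminf_le_of_frequently_le' (Frequently.of_forall fun k => hmass k _))
  refine ⟨W, ?_, hWm, ?_, fun i => ?_⟩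
  · refine hXs W (hWm.trans_lt ENNReal.ofReal_lt_top) fun j => ?_
    refine tendsto_nhds_unique (hc.divT (hX j).1) ?_
    rw [Metric.tendsto_nhds]
    intro ε hε0
    filter_upwards [hε (ε / 2) (by positivity), hle (eventually_gt_atTop j)] with k hk hj
    have := hfv k ⟨j, hj⟩
    rw [Real.dist_eq, sub_zero]
    exact lt_of_le_of_lt (this.trans hk) (by linarith only [hε0])
  · obtain ⟨S, hS⟩ := (Ultrafilter.eventually_exists_iff (f := hyperfilter ℕ)
      (P := fun (S : Finset (Fin M)) (k : ℕ) =>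
        (Finset.univ.filter fun j => ¬ AM (a k) (U j) (1 / ((k : ℝ) + 1)) (δ k) (η k)) = S)).1
      (Eventually.of_forall fun k => ⟨_, rfl⟩)
    refine ⟨S, ?_, fun j hj => ?_⟩
    · obtain ⟨k, hk⟩ := hS.exists
      exact hk ▸ hcard k
    · refine E_kam_of (hyperfilter ℕ) a hW (Eventually.of_forall fun k =>
        ⟨(ha k).1, subset_lf isOpen_ball ((ha k).2.trans_lt ENNReal.ofReal_lt_top)⟩) (fun ε hε0 => ?_) hb hc
      filter_upwards [hS, hε ε hε0] with k hk hk'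
      refine ⟨δ k, hδ k, η k, hη k, E_am_mono ?_ hk'⟩
      by_contra hn
      exact hj (hk ▸ Finset.mem_filter.2 ⟨Finset.mem_univ _, hn⟩)
  · refine le_trans ?_ (hc.limsup_le isOpen_ball hb hW (isCompact_closedBall _ _) (hr i).2)
    have hv : 0 < (volume (ball (c i) (r i))).toReal :=
      ENNReal.toReal_pos (measure_ball_pos _ _ (hr i).1).ne' measure_ball_lt_top.ne
    refine le_limsup_of_frequently_le' (Eventually.frequently ?_)
    filter_upwards [hε ((volume (ball (c i) (r i))).toReal / 4) (by positivity)] with k hk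
    refine (hB (a k) (c i) (r i) (hr i).1 (ha k).1 ((hvol k i).trans hk)).trans ?_
    rw [vf_fst, Measure.restrict_apply measurableSet_closedBall, inter_eq_left.2 (hr i).2]
    exact measure_mono ball_subset_closedBall

end Pool.Agent.MP_5cfeaf_gt.W

end

section

/-! Block E, file 9: plateaus are short. -/

set_option autoImplicit false

open MeasureTheory Set Filter Topology Metric
open scoped ENNReal symmDiff Classical InnerProductSpace ContDiff

namespace Pool.Agent.MP_5cfeaf_gt.W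

variable {d : ℕ}

theorem E9_count (θ : ℕ → ℝ) (Λ c η₀ η₁ κ₁ : ℝ) (T J : ℕ) (hc : 0 < c)
    (hanti : ∀ g, θ (g + 1) ≤ θ g) (h0 : ∀ g, 0 ≤ θ g) (hΛ : θ 0 ≤ Λ) (hT : Λ < T * η₁)
    (hκ : 2 * κ₁ ≤ η₀)
    (hsm : ∀ g < (T + 1) * (J + 1), θ g ≤ θ (g + 1) + η₁ → ∃ N : ℕ, |θ g - N * c| ≤ κ₁)
    (hte : ∀ i < J, θ ((T + 1) * i + T + 1) + η₀ < θ ((T + 1) * i + T)) : J * c ≤ Λ + κ₁ := by
  have ha : Antitone θ := antitone_nat_of_succ_le hanti
  have hA : ∀ i, ∃ k < T, θ ((T + 1) * i + k) ≤ θ ((T + 1) * i + k + 1) + η₁ := by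
    intro i
    by_contra hcon
    push Not at hcon
    have : ∀ k ≤ T, θ ((T + 1) * i + k) + k * η₁ ≤ θ ((T + 1) * i) := by
      intro k hk
      induction k with
      | zero => simp
      | succ k ih =>
        have h1 := ih (by omega)
        have h2 := hcon k (by omega)
        have h3 : (T + 1) * i + (k + 1) = (T + 1) * i + k + 1 := by ring
        rw [h3]
        push_cast
        linarith only [h1, h2]
    have h1 := this T le_rfl
    have h2 := h0 ((T + 1) * i + T)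
    have h3 := ha (Nat.zero_le ((T + 1) * i))
    linarith
  choose k hk hk' using hA
  have hB : ∀ i, ∃ N : ℕ, i ≤ J → |θ ((T + 1) * i + k i) - N * c| ≤ κ₁ := by
    intro i
    by_cases hi : i ≤ J
    · have h1 : (T + 1) * i + k i < (T + 1) * (J + 1) := by
        have := hk i
        have h2 : (T + 1) * i ≤ (T + 1) * J := Nat.mul_le_mul_left _ hi
        have h3 : (T + 1) * (J + 1) = (T + 1) * J + (T + 1) := by ring
        omega
      obtain ⟨N, hN⟩ := hsm _ h1 (hk' i)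
      exact ⟨N, fun _ => hN⟩
    · exact ⟨0, fun h => absurd h hi⟩
  choose N hN using hB
  have hstep : ∀ i < J, N (i + 1) < N i := by
    intro i hi
    have h1 := abs_le.1 (hN i hi.le)
    have h2 := abs_le.1 (hN (i + 1) hi)
    have h3 := hte i hi
    have h4 : θ ((T + 1) * i + T) ≤ θ ((T + 1) * i + k i) := ha (by have := hk i; omega)
    have h5 : θ ((T + 1) * (i + 1) + k (i + 1)) ≤ θ ((T + 1) * i + T + 1) := by
      apply ha
      have : (T + 1) * (i + 1) = (T + 1) * i + T + 1 := by ring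
      omega
    have h6 : (N (i + 1) : ℝ) * c < N i * c := by linarith only [h1.2, h2.1, hκ, h3, h4, h5]
    exact_mod_cast lt_of_mul_lt_mul_right h6 hc.le
  have hind : ∀ n ≤ J, n + N n ≤ N 0 := by
    intro n hn
    induction n with
    | zero => simp
    | succ n ih =>
      have := ih (by omega)
      have := hstep n (by omega)
      omega
  have h1 : (J : ℝ) ≤ N 0 := by
    have := hind J le_rfl
    exact_mod_cast (by omega : J ≤ N 0)
  have h2 := abs_le.1 (hN 0 (Nat.zero_le _))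
  have h3 : θ ((T + 1) * 0 + k 0) ≤ θ 0 := ha (Nat.zero_le _)
  have h4 : (J : ℝ) * c ≤ N 0 * c := mul_le_mul_of_nonneg_right h1 hc.le
  linarith [h2.1]

theorem E9_closure_an (a b : ℝ) : closure (An a b : Set (R d)) ⊆ {x | a ≤ ‖x‖ ∧ ‖x‖ ≤ b} := by
  apply closure_minimal
  · intro x hx
    exact ⟨hx.1.le, hx.2.le⟩
  · exact (isClosed_le continuous_const continuous_norm).inter
      (isClosed_le continuous_norm continuous_const)

theorem E9_compact_an (a b : ℝ) : IsCompact (closure (An a b : Set (R d))) := by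
  refine (isCompact_closedBall (0 : R d) b).of_isClosed_subset isClosed_closure ?_
  intro x hx
  exact mem_closedBall_zero_iff.2 (E9_closure_an a b hx).2

/-- the bumps around the annuli -/
theorem E9_bumps {σ : ℝ} (hσ : 3 ≤ σ) (M : ℕ) : ∃ ψ : Fin M → R d → ℝ,
    (∀ j : Fin M, C1c (ψ j) (B d) ∧ (∀ x, 0 ≤ ψ j x ∧ ψ j x ≤ 1) ∧
      ∀ x ∈ closure (An (((((σ + 1) ^ 2) ^ (j.1 + 1))⁻¹ / 8) * σ⁻¹)
        (((((σ + 1) ^ 2) ^ (j.1 + 1))⁻¹ / 8) * σ) : Set (R d)), ∀ᶠ y in 𝓝 x, ψ j y = 1) ∧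
    ∀ i j, i ≠ j → Disjoint (tsupport (ψ i)) (tsupport (ψ j)) := by
  set s : ℝ := (σ + 1) ^ 2 with hs
  have hσ0 : 0 < σ := by linarith
  have hs1 : 1 ≤ s := by nlinarith only [hσ]
  have hs0 : 0 < s := by linarith
  set t : ℕ → ℝ := fun j => (s ^ (j + 1))⁻¹ / 8 with ht
  have ht0 : ∀ j, 0 < t j := fun j => by positivity
  have hstep : ∀ i j, i < j → t j * (σ + 1) ≤ t i * (σ + 1)⁻¹ := by
    intro i j hij
    have h1 : s ^ (i + 1) * s ≤ s ^ (j + 1) := by
      rw [← pow_succ]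
      exact pow_le_pow_right₀ hs1 (by omega)
    have h2 : (s ^ (j + 1))⁻¹ ≤ (s ^ (i + 1) * s)⁻¹ := inv_anti₀ (by positivity) h1
    have h3 : t j * (σ + 1) ≤ (s ^ (i + 1) * s)⁻¹ / 8 * (σ + 1) := by
      simp only [ht]
      gcongr
    refine h3.trans (le_of_eq ?_)
    simp only [ht]
    have : σ + 1 ≠ 0 := by linarith only [hσ]
    rw [mul_inv, hs]
    field_simp
  have hone : ∀ j, t j * (σ + 1) ≤ 1 := by
    intro j
    have h1 : s ≤ s ^ (j + 1) := by
      conv_lhs => rw [← pow_one s]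
      exact pow_le_pow_right₀ hs1 (by omega)
    have h2 : (s ^ (j + 1))⁻¹ ≤ s⁻¹ := inv_anti₀ hs0 h1
    have h3 : t j * (σ + 1) ≤ s⁻¹ / 8 * (σ + 1) := by
      simp only [ht]
      gcongr
    refine h3.trans ?_
    have h4 : s⁻¹ * (σ + 1) ≤ 1 := by
      rw [inv_mul_le_iff₀ hs0]
      nlinarith only [hσ]
    have h5 : 0 ≤ s⁻¹ * (σ + 1) := by positivity
    linarith only [h4]
  have hb : ∀ j : Fin M, ∃ ψ : R d → ℝ, C1c ψ (An (t j * (σ + 1)⁻¹) (t j * (σ + 1))) ∧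
      (∀ x, 0 ≤ ψ x ∧ ψ x ≤ 1) ∧
      ∀ x ∈ closure (An (t j * σ⁻¹) (t j * σ) : Set (R d)), ∀ᶠ y in 𝓝 x, ψ y = 1 := by
    intro j
    refine E_bump (E9_compact_an _ _) (E_isOpen_an _ _) ?_
    intro x hx
    have h1 := E9_closure_an _ _ hx
    have h2 : (σ + 1)⁻¹ < σ⁻¹ := inv_strictAnti₀ hσ0 (by linarith only [])
    have h3 := ht0 j
    exact ⟨lt_of_lt_of_le (mul_lt_mul_of_pos_left h2 h3) h1.1,
      lt_of_le_of_lt h1.2 (mul_lt_mul_of_pos_left (by linarith) h3)⟩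
  choose ψ hψ using hb
  refine ⟨ψ, fun j => ⟨⟨(hψ j).1.1, (hψ j).1.2.1, ?_⟩, (hψ j).2.1, (hψ j).2.2⟩, ?_⟩
  · intro x hx
    exact mem_ball_zero_iff.2 (lt_of_lt_of_le ((hψ j).1.2.2 hx).2 (hone j))
  · have key : ∀ i j : Fin M, i < j → Disjoint (tsupport (ψ i)) (tsupport (ψ j)) := by
      intro i j hij
      rw [Set.disjoint_left]
      intro x hi hj
      have h1 := ((hψ i).1.2.2 hi).1
      have h2 := ((hψ j).1.2.2 hj).2
      have h3 := hstep i j hij
      linarith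
    intro i j hij
    rcases lt_or_gt_of_ne hij with h | h
    · exact key i j h
    · exact (key j i h).symm

theorem E9_ball {r : ℝ} (hr : 0 < r) : simP r 0 (Eid d) '' ball 0 (r * 2) = ball 0 2 := by
  rw [simP_ball hr, E_sim_zero]

theorem E9_sub {r : ℝ} (hr8 : r ≤ 1 / 2) : closedBall (0 : R d) r ⊆ B d :=
  closedBall_subset_ball (by linarith)

theorem E9_theta (hd : 1 ≤ d) {W : Vf d} {w : ℝ} (hw : 0 ≤ w) (hW : Stat W (B d))
    (hm : W.fst (B d) ≤ ENNReal.ofReal (w + 1)) {r : ℝ} (hr : 0 < r) (hr2 : r ≤ 1 / 2) :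
    theta W 0 r ≤ 2 ^ d * (w + 1) := by
  refine (theta_mono hd hW hr hr2 (E9_sub le_rfl)).trans ?_
  refine theta_le (by norm_num) (by positivity) ?_
  refine (measure_mono (ball_subset_ball (by norm_num))).trans (hm.trans (le_of_eq ?_))
  congr 1
  rw [one_div, inv_pow]
  field_simp

theorem E9_mass (hd : 1 ≤ d) {W : Vf d} {w : ℝ} (hw : 0 ≤ w) (hW : Stat W (B d))
    (hm : W.fst (B d) ≤ ENNReal.ofReal (w + 1)) {r : ℝ} (hr : 0 < r) (hr8 : r ≤ 1 / 8) :
    (simV r 0 (Eid d) W).fst (ball 0 2) ≤ ENNReal.ofReal (2 ^ (d + 1) * (2 ^ d * (w + 1)) * 2 ^ d) := by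
  rw [← E9_ball hr, simV_fst W hr]
  have h1 : W.fst (closedBall 0 (2 * (r * 2))) < ⊤ :=
    hW.1 _ (isCompact_closedBall _ _) (E9_sub (by linarith only [hr8]))
  have h2 := le_theta (by positivity : 0 < r * 2) h1
  have h3 := E9_theta hd hw hW hm (by positivity : 0 < 2 * (r * 2)) (by linarith only [hr8])
  have h4 : W.fst (ball 0 (r * 2)) ≤
      ENNReal.ofReal (2 ^ (d + 1) * (2 ^ d * (w + 1)) * (r * 2) ^ d) := by
    refine (measure_mono ball_subset_closedBall).trans (h2.trans ?_)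
    apply ENNReal.ofReal_le_ofReal
    gcongr
  refine (mul_le_mul_right h4 _).trans (le_of_eq ?_)
  rw [← ENNReal.ofReal_mul (by positivity)]
  congr 1
  rw [mul_pow]
  field_simp

theorem E9_simP {r : ℝ} (hr : 0 < r) (y : R d) : simP r 0 (Eid d) (r • y) = y := by
  simp [simP, smul_smul, hr.ne']

theorem E9_test_sub {r : ℝ} (hr : 0 < r) (hr1 : r ≤ 1) (j : Fin (d + 1)) :
    closedBall (r • Etc j : R d) (r * Etr d) ⊆ B d := by
  intro x hx
  have h1 : simP r 0 (Eid d) x ∈ closedBall (Etc j : R d) (Etr d) := by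
    have := simP_closedBall hr 0 (r • Etc j : R d) (Eid d) (Etr d)
    rw [E9_simP hr] at this
    rw [← this]
    exact mem_image_of_mem _ hx
  have h2 := (E_test_sub j h1).2
  have h3 : ‖simP r 0 (Eid d) x‖ = r⁻¹ * ‖x‖ := by
    simp [simP, norm_smul, abs_of_pos hr]
  rw [h3, inv_mul_lt_iff₀ hr] at h2
  exact mem_ball_zero_iff.2 (by linarith)

theorem E9_test_mass {W : Vf d} {r c : ℝ} (hr : 0 < r) (j : Fin (d + 1))
    (h : ENNReal.ofReal (c * (r * Etr d) ^ d) ≤ W.fst (closedBall (r • Etc j) (r * Etr d))) :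
    ENNReal.ofReal (c * Etr d ^ d) ≤ (simV r 0 (Eid d) W).fst (closedBall (Etc j) (Etr d)) := by
  have h1 := simP_closedBall hr 0 (r • Etc j : R d) (Eid d) (Etr d)
  rw [E9_simP hr] at h1
  rw [← h1, simV_fst W hr]
  refine le_trans (le_of_eq ?_) (mul_le_mul_right h _)
  rw [← ENNReal.ofReal_mul (by positivity)]
  congr 1
  rw [mul_pow]
  field_simp

theorem E9_pigeon {M I g : ℕ} (S : Finset (Fin M)) (hS : S.card ≤ I) (hg : (g + 1) * (I + 1) ≤ M) :
    ∃ i ≤ I, ∃ j : Fin M, j ∉ S ∧ j.1 = g * (I + 1) + i := by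
  by_contra hcon
  push Not at hcon
  have hlt : ∀ i : Fin (I + 1), g * (I + 1) + i.1 < M := by
    intro i
    have := i.2
    have h2 : (g + 1) * (I + 1) = g * (I + 1) + (I + 1) := by ring
    omega
  have h1 : (Finset.univ : Finset (Fin (I + 1))).card ≤ S.card := by
    refine Finset.card_le_card_of_injOn (fun i => (⟨g * (I + 1) + i.1, hlt i⟩ : Fin M)) ?_ ?_
    · intro i _
      by_contra hn
      exact hcon i.1 (by have := i.2; omega) _ hn rfl
    · intro i _ i' _ h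
      have := congrArg Fin.val h
      simp only at this
      exact Fin.ext (by omega)
  simp at h1
  omega

theorem plateau (h2 : 2 ≤ d) (h6 : d ≤ 6) : ∃ C > 0, ∀ (p m : ℕ) (w : ℝ), 1 ≤ p → 0 ≤ w →
    width (d + 1) p = ENNReal.ofReal w → C * (w + 1) ≤ m →
    width (d + 1) p < width (d + 1) (p + m) := by
  have hd : 1 ≤ d := by omega
  obtain ⟨σ, hσ, hpq⟩ := E_pq h2 h6
  obtain ⟨c₀, hc₀, hlim⟩ := E_limit hd
  have hcd := cd_pos d
  refine ⟨(d + 1) * (2 ^ d / cd d + 2), by positivity, ?_⟩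
  intro p m w hp hw hwp hm
  by_contra hcon
  rw [not_lt, hwp] at hcon
  set s : ℝ := (σ + 1) ^ 2 with hs
  have hσ0 : 0 < σ := by linarith only [hσ]
  have hσs : σ ≤ s := by nlinarith only [hσ]
  have hs1 : 1 ≤ s := by linarith only [hσ, hσs]
  have hs0 : 0 < s := by linarith only [hσ, hσs]
  set I : ℕ := 2 ^ (p + 1) with hI
  set Λ₀ : ℝ := 2 ^ d * (w + 1) with hΛ₀
  have hΛ₀0 : 0 < Λ₀ := by positivity
  have htr := E_tr_pos d
  have hκ₀ : 0 < c₀ * Etr d ^ d / 2 := by positivity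
  obtain ⟨η₀, hη₀, h₀⟩ := hpq (2 ^ (d + 1) * Λ₀ * 2 ^ d) I s hσs _ hκ₀
  have hκ₁ : 0 < min (η₀ / 2) (cd d) := lt_min (by positivity) hcd
  obtain ⟨η₁, hη₁, h₁⟩ := hpq (2 ^ (d + 1) * Λ₀ * 2 ^ d) I s hσs _ hκ₁
  obtain ⟨T, hT⟩ := exists_nat_gt (Λ₀ / η₁)
  rw [div_lt_iff₀ hη₁] at hT
  set J : ℕ := ⌊Λ₀ / cd d⌋₊ + 2 with hJ
  have hJm : (d + 1) * J ≤ m := by
    have h1 : (J : ℝ) ≤ Λ₀ / cd d + 2 := by
      rw [hJ]
      push_cast
      have := Nat.floor_le (by positivity : 0 ≤ Λ₀ / cd d)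
      linarith only [this]
    have h3 : Λ₀ / cd d + 2 ≤ (2 ^ d / cd d + 2) * (w + 1) := by
      have : (2 ^ d / cd d + 2) * (w + 1) = Λ₀ / cd d + 2 + 2 * w := by
        rw [hΛ₀]; ring
      linarith only [hw, this]
    have h4 : ((d : ℝ) + 1) * J ≤ m := by
      refine le_trans ?_ hm
      rw [mul_assoc]
      exact mul_le_mul_of_nonneg_left (h1.trans h3) (by positivity)
    exact_mod_cast h4
  set ρ : ℕ → ℝ := fun g => (s ^ (g * (I + 1)))⁻¹ / 8 with hρ
  have hρ0 : ∀ g, 0 < ρ g := fun g => by positivity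
  have hρ8 : ∀ g, ρ g ≤ 1 / 8 := by
    intro g
    have : (s ^ (g * (I + 1)))⁻¹ ≤ 1 := inv_le_one_of_one_le₀ (one_le_pow₀ hs1)
    simp only [hρ]
    linarith only [this]
  have hρs : ∀ g, ρ (g + 1) = ρ g * (s ^ (I + 1))⁻¹ := by
    intro g
    simp only [hρ]
    rw [add_mul, one_mul, pow_add, mul_inv]
    ring
  have hρa : ∀ g, ρ (g + 1) ≤ ρ g := by
    intro g
    rw [hρs]
    exact mul_le_of_le_one_right (hρ0 g).le (inv_le_one_of_one_le₀ (one_le_pow₀ hs1))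
  set M : ℕ := (T + 1) * (J + 1) * (I + 1) with hM
  obtain ⟨ψ, hψ, hdis⟩ := E9_bumps (d := d) hσ M
  obtain ⟨W, hW, hmass, ⟨S, hS, hK⟩, htest⟩ := hlim p m w hp hw hwp hcon M _ ψ
    (fun j => E_isOpen_an _ _) hψ hdis
    (fun i => ρ ((T + 1) * (i.1 / (d + 1)) + T) • Etc ⟨i.1 % (d + 1), Nat.mod_lt _ (by omega)⟩)
    (fun i => ρ ((T + 1) * (i.1 / (d + 1)) + T) * Etr d)
    (fun i => ⟨mul_pos (hρ0 _) htr, E9_test_sub (hρ0 _) ((hρ8 _).trans (by norm_num)) _⟩)
  have hsub : ∀ g, ball (0 : R d) (ρ g * 2) ⊆ B d := fun g =>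
    ball_subset_ball (by have := hρ8 g; linarith only [this])
  have hstat : ∀ g, Stat (simV (ρ g) 0 (Eid d) W) (ball 0 2) := by
    intro g
    have := (hW.mono (hsub g)).sim (hρ0 g) 0 (Eid d)
    rwa [E9_ball (hρ0 g)] at this
  have hkam : ∀ g < (T + 1) * (J + 1), ∃ i ≤ I, KAM (ball 0 2)
      (An ((s ^ (i + 1))⁻¹ * σ⁻¹) ((s ^ (i + 1))⁻¹ * σ)) (simV (ρ g) 0 (Eid d) W) := by
    intro g hg
    obtain ⟨i, hi, j, hjS, hj⟩ := E9_pigeon (g := g) S hS (Nat.mul_le_mul_right _ hg)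
    refine ⟨i, hi, ?_⟩
    have h3 := E_kam_sim isOpen_ball (E_kam_mono (hK j hjS) isOpen_ball (hsub g)) (hρ0 g) 0 (Eid d)
    have h4 : (s ^ (j.1 + 1))⁻¹ / 8 = ρ g * (s ^ (i + 1))⁻¹ := by
      simp only [hρ]
      rw [hj, add_assoc, pow_add, mul_inv]
      ring
    rw [E9_ball (hρ0 g), ← hs, h4, mul_assoc, mul_assoc, E_sim_an (hρ0 g)] at h3
    exact h3
  have hth1 : ∀ g, theta (simV (ρ g) 0 (Eid d) W) 0 1 = theta W 0 (ρ g) := by
    intro g
    have := theta_sim W (hρ0 g) one_pos 0 0 (Eid d)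
    rwa [E_sim_zero, mul_one] at this
  have hth2 : ∀ g, theta (simV (ρ g) 0 (Eid d) W) 0 (s ^ (I + 1))⁻¹ = theta W 0 (ρ (g + 1)) := by
    intro g
    have := theta_sim W (hρ0 g) (by positivity : 0 < (s ^ (I + 1))⁻¹) 0 0 (Eid d)
    rwa [E_sim_zero, ← hρs] at this
  have hcount := E9_count (fun g => theta W 0 (ρ g)) Λ₀ (cd d) η₀ η₁ (min (η₀ / 2) (cd d)) T J hcd
    (fun g => theta_mono hd hW (hρ0 _) (hρa g) (E9_sub ((hρ8 g).trans (by norm_num))))
    (fun g => theta_nonneg W 0 (hρ0 g))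
    (E9_theta hd hw hW hmass (hρ0 0) ((hρ8 0).trans (by norm_num))) hT
    (by have := min_le_left (η₀ / 2) (cd d); linarith only [this]) ?_ ?_
  · have h3 : Λ₀ / cd d < ⌊Λ₀ / cd d⌋₊ + 1 := Nat.lt_floor_add_one _
    rw [div_lt_iff₀ hcd] at h3
    have h4 := min_le_right (η₀ / 2) (cd d)
    have h5 : (J : ℝ) = ⌊Λ₀ / cd d⌋₊ + 2 := by rw [hJ]; push_cast; ring
    rw [h5] at hcount
    linarith only [hcount, h3, h4]
  · intro g hg hdrop
    have := (h₁ _ (hstat g) (E9_mass hd hw hW hmass (hρ0 g) (hρ8 g)) (hkam g hg)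
      (by rw [hth1, hth2]; exact hdrop)).1
    rwa [hth1] at this
  · intro i hi
    by_contra hn
    rw [not_lt] at hn
    have hg : (T + 1) * i + T < (T + 1) * (J + 1) := by
      have h3 : (T + 1) * i ≤ (T + 1) * J := Nat.mul_le_mul_left _ hi.le
      have h4 : (T + 1) * (J + 1) = (T + 1) * J + (T + 1) := by ring
      omega
    obtain ⟨j, hj⟩ := (h₀ _ (hstat _) (E9_mass hd hw hW hmass (hρ0 _) (hρ8 _)) (hkam _ hg)
      (by rw [hth1, hth2]; exact hn)).2
    have hlt : (d + 1) * i + j.1 < m := by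
      have h3 : (d + 1) * (i + 1) ≤ (d + 1) * J := Nat.mul_le_mul_left _ hi
      have h4 : (d + 1) * (i + 1) = (d + 1) * i + (d + 1) := by ring
      have := j.2
      omega
    have h3 := htest ⟨(d + 1) * i + j.1, hlt⟩
    have h4 : ((d + 1) * i + j.1) / (d + 1) = i := by
      rw [Nat.mul_add_div (by omega), Nat.div_eq_of_lt j.2, add_zero]
    have h5 : (⟨((d + 1) * i + j.1) % (d + 1), Nat.mod_lt _ (by omega)⟩ : Fin (d + 1)) = j := by
      apply Fin.ext
      simp only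
      rw [Nat.mul_add_mod, Nat.mod_eq_of_lt j.2]
    simp only [h4, h5] at h3
    have h7 := (E9_test_mass (hρ0 _) j h3).trans hj
    rw [ENNReal.ofReal_le_ofReal_iff hκ₀.le] at h7
    linarith only [hκ₀, h7]

end Pool.Agent.MP_5cfeaf_gt.W

end

section

/-! Block E, file 10: counting. -/

set_option autoImplicit false

open MeasureTheory Set Filter Topology Metric
open scoped ENNReal symmDiff Classical InnerProductSpace ContDiff

namespace Pool.Agent.MP_5cfeaf_gt.W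

variable {d : ℕ}

/-- `sw_poly` and `E_width_le` with `δ = 1` -/
theorem E_width_bound (hd : 1 ≤ d) : ∃ C > 0, ∀ q p : ℕ, 1 ≤ p → p + 1 ≤ q ^ (d + 1) →
    width (d + 1) p ≤ ENNReal.ofReal (C * q + 1) := by
  obtain ⟨C, hC, h⟩ := sw_poly d
  refine ⟨C, hC, fun q p hp hq => ?_⟩
  obtain ⟨η, hη, h'⟩ := E_width_le hd hp (L := C * q) (δ := 1) (by positivity) one_pos
  exact h' (h q p hq η hη)

theorem E10_one (a : ℝ≥0∞) : ∃ C > 0, ∀ L : ℝ, 0 ≤ L → ∀ T : Finset ℝ≥0∞,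
    (∀ v ∈ T, v ≤ ENNReal.ofReal L ∧ ∃ N : ℕ, v = N * a) → (T.card : ℝ) ≤ C * (L + 1) := by
  by_cases ha : a = 0 ∨ a = ⊤
  · refine ⟨1, one_pos, fun L hL T hT => ?_⟩
    have h1 : T ⊆ {0} := by
      intro v hv
      obtain ⟨hv1, N, rfl⟩ := hT v hv
      rw [Finset.mem_singleton]
      rcases ha with rfl | rfl
      · simp
      · by_cases hN : N = 0
        · simp [hN]
        · rw [ENNReal.mul_top (by exact_mod_cast hN)] at hv1
          exact absurd hv1 (by simp)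
    have h2 : (T.card : ℝ) ≤ 1 := by exact_mod_cast (Finset.card_le_card h1).trans (by simp)
    linarith
  · push Not at ha
    have hb : 0 < a.toReal := ENNReal.toReal_pos ha.1 ha.2
    refine ⟨a.toReal⁻¹ + 1, by positivity, fun L hL T hT => ?_⟩
    have h1 : T ⊆ (Finset.range (⌊L / a.toReal⌋₊ + 1)).image fun N : ℕ => (N : ℝ≥0∞) * a := by
      intro v hv
      obtain ⟨hv1, N, rfl⟩ := hT v hv
      refine Finset.mem_image.2 ⟨N, Finset.mem_range.2 (Nat.lt_succ_of_le (Nat.le_floor ?_)), rfl⟩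
      rw [le_div_iff₀ hb]
      have := ENNReal.toReal_mono ENNReal.ofReal_ne_top hv1
      rwa [ENNReal.toReal_mul, ENNReal.toReal_natCast, ENNReal.toReal_ofReal hL] at this
    have h2 : T.card ≤ ⌊L / a.toReal⌋₊ + 1 :=
      (Finset.card_le_card h1).trans (Finset.card_image_le.trans (by simp))
    have h3 : (T.card : ℝ) ≤ L / a.toReal + 1 := by
      have h4 : (⌊L / a.toReal⌋₊ : ℝ) ≤ L / a.toReal := Nat.floor_le (by positivity)
      have h5 : (T.card : ℝ) ≤ ⌊L / a.toReal⌋₊ + 1 := by exact_mod_cast h2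
      linarith only [h4, h5]
    have h6 : 0 < a.toReal⁻¹ := by positivity
    rw [div_eq_mul_inv] at h3
    linarith only [hL, h3, h6]

/-- a finite set of areas has only linearly many multiples below `L` (areas `0` and `⊤` only give the value `0`) -/
theorem E_few {𝒜 : Set ℝ≥0∞} (h : 𝒜.Finite) : ∃ C > 0, ∀ L : ℝ, 0 ≤ L → ∀ T : Finset ℝ≥0∞,
    (∀ v ∈ T, v ≤ ENNReal.ofReal L ∧ ∃ a ∈ 𝒜, ∃ N : ℕ, v = N * a) → (T.card : ℝ) ≤ C * (L + 1) := by
  choose C hC hC' using E10_one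
  have hs : 0 ≤ ∑ a ∈ h.toFinset, C a := Finset.sum_nonneg fun a _ => (hC a).le
  refine ⟨∑ a ∈ h.toFinset, C a + 1, by positivity, fun L hL T hT => ?_⟩
  have h1 : T ⊆ h.toFinset.biUnion fun a => T.filter fun v => ∃ N : ℕ, v = N * a := by
    intro v hv
    obtain ⟨-, a, ha, hN⟩ := hT v hv
    exact Finset.mem_biUnion.2 ⟨a, h.mem_toFinset.2 ha, Finset.mem_filter.2 ⟨hv, hN⟩⟩
  have h2 : (T.card : ℝ) ≤ ∑ a ∈ h.toFinset, ((T.filter fun v => ∃ N : ℕ, v = N * a).card : ℝ) := by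
    exact_mod_cast (Finset.card_le_card h1).trans Finset.card_biUnion_le
  have h3 : ∑ a ∈ h.toFinset, ((T.filter fun v => ∃ N : ℕ, v = N * a).card : ℝ) ≤
      ∑ a ∈ h.toFinset, C a * (L + 1) :=
    Finset.sum_le_sum fun a _ => hC' a L hL _ fun v hv =>
      ⟨(hT v (Finset.mem_filter.1 hv).1).1, (Finset.mem_filter.1 hv).2⟩
  rw [← Finset.sum_mul] at h3
  linarith only [hL, h2, h3]

theorem E10_q {C C₁ C₂ : ℝ} (hC : 0 < C) (h₁ : 0 < C₁) (h₂ : 0 < C₂) : ∃ q : ℕ, 1 ≤ q ∧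
    2 + ⌈C₂ * (C * q + 1 + 1)⌉₊ * ⌈C₁ * (C * q + 1 + 1)⌉₊ ≤ q ^ 3 := by
  obtain ⟨q, hq⟩ := exists_nat_ge (2 + (C₂ * (C + 2) + 1) * (C₁ * (C + 2) + 1))
  have hA : 0 < C₂ * (C + 2) + 1 := by positivity
  have hB : 0 < C₁ * (C + 2) + 1 := by positivity
  have hAB := mul_pos hA hB
  have hq1 : (1 : ℝ) ≤ q := by linarith
  refine ⟨q, by exact_mod_cast hq1, ?_⟩
  have key : ∀ c : ℝ, 0 < c → (⌈c * (C * q + 1 + 1)⌉₊ : ℝ) ≤ (c * (C + 2) + 1) * q := by
    intro c hc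
    have h1 := (Nat.ceil_lt_add_one (a := c * (C * q + 1 + 1)) (by positivity)).le
    have h2 : c * (C * q + 1 + 1) ≤ c * ((C + 2) * q) :=
      mul_le_mul_of_nonneg_left (by linarith only [hq, hAB]) hc.le
    linarith only [hq, hAB, h1, h2]
  have h3 : (⌈C₂ * (C * q + 1 + 1)⌉₊ : ℝ) * ⌈C₁ * (C * q + 1 + 1)⌉₊ ≤
      ((C₂ * (C + 2) + 1) * q) * ((C₁ * (C + 2) + 1) * q) :=
    mul_le_mul (key _ h₂) (key _ h₁) (by positivity) (by positivity)
  have h4 : (1 : ℝ) ≤ (q : ℝ) ^ 2 := one_le_pow₀ hq1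
  have h5 : (2 + (C₂ * (C + 2) + 1) * (C₁ * (C + 2) + 1)) * (q : ℝ) ^ 2 ≤ q * (q : ℝ) ^ 2 :=
    mul_le_mul_of_nonneg_right hq (by positivity)
  have h6 : (2 : ℝ) + (⌈C₂ * (C * q + 1 + 1)⌉₊ : ℝ) * ⌈C₁ * (C * q + 1 + 1)⌉₊ ≤ (q : ℝ) ^ 3 := by
    linarith only [h3, h4, h5]
  exact_mod_cast h6

/-- `n = d + 1`.  For large `q` put `L = C q + 1`, `m = ⌈C' (L + 1)⌉₊`, `p i = 1 + i m`; as long as
`p i + 1 ≤ q^(d+1)` the widths are `≤ L` and strictly increase (`plateau` with `w = toReal`), which gives about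
`q^3 / m ≥ c q^2` distinct values, against `E_few`. -/
theorem main (n : ℕ) (h3 : 3 ≤ n) (h7 : n ≤ 7) (M : ℕ → Set (E n)) (N : ℕ → ℕ)
    (h : ∀ p, 1 ≤ p → width n p = N p * μHE[n - 1] (M p)) :
    ((fun p => μHE[n - 1] (M p)) '' {p | 1 ≤ p}).Infinite := by
  intro hfin
  obtain ⟨d, rfl⟩ : ∃ d, n = d + 1 := ⟨n - 1, by omega⟩
  obtain ⟨C, hC, hW⟩ := E_width_bound (d := d) (by omega)
  obtain ⟨C₁, h₁, hP⟩ := plateau (d := d) (by omega) (by omega)
  obtain ⟨C₂, h₂, hF⟩ := E_few hfin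
  obtain ⟨q, hq1, hq⟩ := E10_q hC h₁ h₂
  set L : ℝ := C * q + 1 with hL
  have hL0 : 0 ≤ L := by positivity
  set K := ⌈C₂ * (L + 1)⌉₊ with hK
  set m := ⌈C₁ * (L + 1)⌉₊ with hm
  have hle : ∀ i ≤ K, width (d + 1) (1 + i * m) ≤ ENNReal.ofReal L := by
    intro i hi
    refine hW q _ (by omega) ?_
    have h1 : i * m ≤ K * m := Nat.mul_le_mul_right _ hi
    have h2 : q ^ 3 ≤ q ^ (d + 1) := Nat.pow_le_pow_right hq1 h3
    omega
  have hstep : ∀ i ≤ K, width (d + 1) (1 + i * m) < width (d + 1) (1 + (i + 1) * m) := by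
    intro i hi
    have h1 := hle i hi
    have hne : width (d + 1) (1 + i * m) ≠ ⊤ := ne_top_of_le_ne_top ENNReal.ofReal_ne_top h1
    have h2 : (width (d + 1) (1 + i * m)).toReal ≤ L := by
      have := ENNReal.toReal_mono ENNReal.ofReal_ne_top h1
      rwa [ENNReal.toReal_ofReal hL0] at this
    have h4 := hP (1 + i * m) m _ (by omega) ENNReal.toReal_nonneg (ENNReal.ofReal_toReal hne).symm
      ((mul_le_mul_of_nonneg_left (by linarith only [h2]) h₁.le).trans (Nat.le_ceil (C₁ * (L + 1))))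
    rwa [show 1 + i * m + m = 1 + (i + 1) * m by ring] at h4
  have hmono : ∀ j ≤ K, ∀ i < j, width (d + 1) (1 + i * m) < width (d + 1) (1 + j * m) := by
    intro j
    induction j with
    | zero => intro _ i hi; omega
    | succ j ih =>
      intro hj i hi
      rcases Nat.lt_succ_iff_lt_or_eq.1 hi with h1 | rfl
      · exact (ih (by omega) i h1).trans (hstep j (by omega))
      · exact hstep i (by omega)
  have hinj : Set.InjOn (fun i => width (d + 1) (1 + i * m)) (Finset.range (K + 1) : Set ℕ) := by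
    intro i hi j hj hij
    have hi' : i ≤ K := by simpa [Nat.lt_succ_iff] using hi
    have hj' : j ≤ K := by simpa [Nat.lt_succ_iff] using hj
    rcases lt_trichotomy i j with h1 | h1 | h1
    · exact absurd hij (hmono j hj' i h1).ne
    · exact h1
    · exact absurd hij (hmono i hi' j h1).ne'
  have hc := hF L hL0 ((Finset.range (K + 1)).image fun i => width (d + 1) (1 + i * m)) (by
    intro v hv
    obtain ⟨i, hi, rfl⟩ := Finset.mem_image.1 hv
    refine ⟨hle i (by simpa [Nat.lt_succ_iff] using hi), _, ⟨1 + i * m, by simp, rfl⟩, N (1 + i * m), ?_⟩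
    exact h _ (by omega))
  rw [Finset.card_image_of_injOn hinj, Finset.card_range] at hc
  have h5 : C₂ * (L + 1) ≤ K := Nat.le_ceil _
  push_cast at hc
  linarith only [h5, hc]

/-- isometric sets have the same area (`Isometry.euclideanHausdorffMeasure_image` or similar) -/
theorem main_iso (n : ℕ) (h3 : 3 ≤ n) (h7 : n ≤ 7) (M : ℕ → Set (E n)) (N : ℕ → ℕ)
    (h : ∀ p, 1 ≤ p → width n p = N p * μHE[n - 1] (M p)) :
    ¬ ∃ F : Set (Set (E n)), F.Finite ∧ ∀ p, 1 ≤ p → ∃ A ∈ F, ∃ g : E n ≃ᵢ E n, M p = g '' A := by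
  rintro ⟨F, hF, hM⟩
  refine main n h3 h7 M N h ((hF.image fun A => μHE[n - 1] A).subset ?_)
  rintro _ ⟨p, hp, rfl⟩
  obtain ⟨A, hA, g, hg⟩ := hM p hp
  refine ⟨A, hA, ?_⟩
  simp only [hg]
  exact (g.isometry.euclideanHausdorffMeasure_image A).symm

end Pool.Agent.MP_5cfeaf_gt.W

end
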