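import Mathlib

attribute [-instance] NonUnitalNonAssocRing.toAddCommGroup TotallySeparatedSpace.t2Space
  AddQuantale.instAddLeftMono IdemSemiring.toCanonicallyOrderedAdd Valued.toUniformSpace
  AddGroupWithOne.toAddGroup RightPreLieAlgebra.toModule Algebra.toSMul
  NonUnitalNonAssocSemiring.toAddCommMonoid LeftPreLieAlgebra.toModule GrpTypeEquivalenceGrp.grpGroup
  NonUnitalSeminormedRing.toPseudoMetricSpace littleWedderburn
  NonUnitalNonAssocSemiring.toMulZeroClass MulSemiringAction.toDistribMulAction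
  covariant_swap_mul_of_covariant_mul LieRing.toAddCommGroup IsScalarTower.complexToReal
  AddQuantale.instAddRightMono NonUnitalCStarAlgebra.toNonUnitalNormedRing
  NonarchimedeanAddGroup.toIsTopologicalAddGroup DiscreteUniformity.instCompleteSpace
  CStarAlgebra.toNormedRing AlexandrovDiscrete.toLocallyCompactSpace
  NonUnitalAlgSemiHomClass.toDistribMulActionSemiHomClass ProperSMul.toContinuousSMul
  NonUnitalNormedCommRing.toNonUnitalSeminormedCommRing spectralNorm.completeSpace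
  NumberField.to_charZero NormedDivisionRing.toNormedRing IsTopologicalTorsor.toContinuousSMul
  Action.FintypeCat.instMulActionObjFiniteOf IsOrderedMonoid.toMulLeftMono IdemSemiring.toSemiring
  CommCStarAlgebra.toNormedCommRing Quantale.instMulRightMono CoalgHomClass.toSemilinearMapClass
  MulZeroOneClass.toMulZeroClass SeminormedRing.toNonUnitalSeminormedRing
  continuousSub_of_discreteTopology instSMulZeroClass EuclideanDomain.toCommRing
  AlexandrovDiscrete.toFirstCountable AddCommGroupWithOne.toAddCommGroup Quantale.instMulLeftMono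
  SeminormedCommRing.toCommRing SeminormedCommGroup.toPseudoMetricSpace CompactSpace.sigmaCompact
  IdemSemiring.toMulLeftMono completeSpace_of_cauSeq_isComplete CStarAlgebra.instOrderClosedTopology
  AddCommMonoidWithOne.toAddCommMonoid LieRinehartAlgebra.toIsScalarTower
  NonUnitalRing.toNonUnitalNonAssocRing RingHomClass.toLinearMapClassNNRat
  AddCommGroupWithOne.toAddGroupWithOne NonAssocSemiring.toNonUnitalNonAssocSemiring
  BooleanRing.toRing CStarAlgebra.toCompleteSpace LinearOrderedCommMonoidWithZero.toPosMulStrictMono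
  NormedDivisionRing.toDivisionRing Module.complexToReal BooleanRing.toCommRing
  NonUnitalCStarAlgebra.toCompleteSpace LieAdmissibleRing.toNonUnitalNonAssocRing
  Group.IsPerfect.subsingleton_of_isMulCommutative NonUnitalSemiring.toNonUnitalNonAssocSemiring
  MeasureTheory.instSFiniteOfCountable RCLike.toCompleteSpace
  LinearOrderedAddCommMonoidWithTop.toAddCommMonoid RingHomClass.toLinearMapClassRat
  UpgradedStandardBorel.toTopologicalSpace
  TopologicalSpace.UpgradedIsCompletelyPseudoMetrizableSpace.toPseudoMetricSpace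
  CanonicallyOrderedAdd.toMulLeftMono IdemCommSemiring.toCommSemiring
  NonUnitalNormedCommRing.toNonUnitalCommRing RKHS.instFunLike instIsModuleTopology
  NormedField.toNorm NonAssocCommSemiring.toNonAssocSemiring IsIsometricSMul.to_continuousConstSMul
  NonUnitalNonAssocCommSemiring.toNonUnitalNonAssocSemiring DivisionRing.toDivisionSemiring
  MonoidWithZeroHomClass.toZeroHomClass IsTopologicalSemiring.toContinuousAdd
  continuousSub_of_indiscreteTopology LinearOrderedAddCommGroupWithTop.toSubNegMonoid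
  RightPreLieRing.instLieAdmissibleRing IsValuativeTopology.instIsTopologicalAddGroup

/-! Campanato iteration and the Schauder estimate. -/

open MeasureTheory Metric Set Filter Topology
open scoped InnerProductSpace Gradient ContDiff

namespace Pool.Agent.MP_5cfeaf_gt.G

variable {E : Type} [NormedAddCommGroup E] [InnerProductSpace ℝ E] [FiniteDimensional ℝ E]
  [MeasurableSpace E] [BorelSpace E]

section Defs

/-- The vector field X is weakly divergence free in U (C1 test functions). -/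
def WDiv (U : Set E) (X : E → E) : Prop :=
  ∀ φ : E → ℝ, ContDiff ℝ 1 φ → HasCompactSupport φ → tsupport φ ⊆ U →
    ∫ x, fderiv ℝ φ x (X x) = 0

/-- The mean square size on the ball of radius 4. -/
noncomputable def NN (w : E → ℝ) : ℝ := ∫ x in closedBall (0 : E) 4, w x ^ 2

/-- Perturbation class at unit scale: Lap w = div g where g is a small perturbation. -/
structure Pert (w : E → ℝ) (g : E → E) (δ L κ : ℝ) : Prop where
  cd : ContDiff ℝ 1 w
  cg : Continuous g
  wk : WDiv (ball 0 4) fun x => ∇ w x - g x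
  bd : ∀ y ∈ ball (0 : E) 4, ∀ p : E, ∃ c : E, ∀ x ∈ ball (0 : E) 4,
    ‖g x - c‖ ≤ δ * ‖∇ w x - p‖ + √‖x - y‖ * (L + κ * ‖p‖)

/-- Rescaling about y with factor t after subtracting the affine function a + (p, x - y). -/
noncomputable def resc (y : E) (t a : ℝ) (p : E) (w : E → ℝ) (x : E) : ℝ :=
  (w (y + t • x) - a - ⟪p, t • x⟫_ℝ) / t

/-- The hypotheses of the Schauder estimate on a ball. -/
structure Sch (x₀ : E) (r : ℝ) (w : E → ℝ) (g : E → E) (δ L K : ℝ) : Prop where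
  cd : ContDiffOn ℝ 1 w (ball x₀ r)
  cg : ContinuousOn g (ball x₀ r)
  wk : WDiv (ball x₀ r) fun x => ∇ w x - g x
  bd : ∀ y ∈ ball x₀ r, ∀ p : E, ∃ c : E, ∀ x ∈ ball x₀ r,
    ‖g x - c‖ ≤ δ * ‖∇ w x - p‖ + √(‖x - y‖ / r) * (L + K * ‖p‖)

/-- f is bounded by C and 1/2-Hoelder with constant C at scale r on the set S. -/
def Hol {F : Type} [NormedAddCommGroup F] (S : Set E) (r C : ℝ) (f : E → F) : Prop :=
  (∀ x ∈ S, ‖f x‖ ≤ C) ∧ ∀ x ∈ S, ∀ y ∈ S, ‖f x - f y‖ ≤ C * √(‖x - y‖ / r)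

/-- The Schauder estimate holds for perturbations of size δ. -/
def SchEst (E : Type) [NormedAddCommGroup E] [InnerProductSpace ℝ E] [FiniteDimensional ℝ E]
    [MeasurableSpace E] [BorelSpace E] (δ : ℝ) : Prop :=
  ∀ K : ℝ, ∃ C : ℝ, 0 < C ∧ ∀ (x₀ : E) (r : ℝ) (w : E → ℝ) (g : E → E) (L A : ℝ), 0 < r → 0 ≤ L →
    0 ≤ A → Sch x₀ r w g δ L K → (∀ x ∈ ball x₀ r, |w x| ≤ A * r) →
    Hol (ball x₀ (r / 2)) r (C * (A + L)) (∇ w)

/-- Locally C^(k,1/2) at the points of U. -/
def Hk {F : Type} [NormedAddCommGroup F] [NormedSpace ℝ F] : ℕ → Set E → (E → F) → Prop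
  | 0, U, f => ∀ x ∈ U, ∃ r > 0, ∃ C, Hol (ball x r) r C f
  | k + 1, U, f => (∀ x ∈ U, DifferentiableAt ℝ f x) ∧ ∀ v, Hk k U fun x => fderiv ℝ f x v

/-- Difference quotient. -/
noncomputable def dq {F : Type} [NormedAddCommGroup F] [NormedSpace ℝ F] (h : ℝ) (e : E)
    (f : E → F) (x : E) : F := h⁻¹ • (f (x + h • e) - f x)

/-- Trace of an endomorphism, in the standard orthonormal basis. -/
noncomputable def trc (T : E →L[ℝ] E) : ℝ :=
  ∑ i, ⟪T (stdOrthonormalBasis ℝ E i), stdOrthonormalBasis ℝ E i⟫_ℝ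

/-- The nonlinearity G is smooth, δ-Lipschitz, with Λ-Lipschitz derivative. -/
structure Nl (G : E → E) (δ Λ : ℝ) : Prop where
  cd : ContDiff ℝ ∞ G
  sm : ∀ a, ‖fderiv ℝ G a‖ ≤ δ
  lp : ∀ a b, ‖fderiv ℝ G a - fderiv ℝ G b‖ ≤ Λ * ‖a - b‖

/-- The vector field of the minimal surface equation. -/
noncomputable def mseF (p : E) : E := (√(1 + ‖p‖ ^ 2))⁻¹ • p

/-- u is a C1 weak solution of the minimal surface equation in U with gradient at most ε. -/
structure Mse (U : Set E) (ε : ℝ) (u : E → ℝ) : Prop where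
  cd : ContDiffOn ℝ 1 u U
  sm : ∀ x ∈ U, ‖∇ u x‖ ≤ ε
  wk : WDiv U fun x => mseF (∇ u x)

end Defs

section Wk

theorem WDiv.mono {U V : Set E} {X : E → E} (h : WDiv U X) (hV : V ⊆ U) : WDiv V X :=
  fun φ h1 h2 h3 => h φ h1 h2 (h3.trans hV)

/-- Off tsupport φ the derivative of φ vanishes. -/
theorem WDiv.congr {U : Set E} {X Y : E → E} (h : WDiv U X) (hXY : EqOn X Y U) : WDiv U Y := by
  intro φ h1 h2 h3
  rw [← h φ h1 h2 h3]
  congr 1
  funext x
  by_cases hx : x ∈ tsupport φ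
  · rw [hXY (h3 hx)]
  · simp [fderiv_of_notMem_tsupport ℝ hx]

/-- Integration by parts (integral_mul_fderiv_eq_neg_fderiv_mul_of_integrable, or the
HasLineDerivAt version, with the constant function 1). -/
theorem wdiv_const (U : Set E) (c : E) : WDiv U fun _ => c := by
  intro φ h1 h2 _
  have hi : Integrable fun x => fderiv ℝ φ x c :=
    ((h1.continuous_fderiv one_ne_zero).clm_apply continuous_const).integrable_of_hasCompactSupport
      (h2.fderiv_apply ℝ c)
  have key := integral_mul_fderiv_eq_neg_fderiv_mul_of_integrable (μ := (volume : Measure E))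
    (f := fun _ : E => (1 : ℝ)) (g := φ) (v := c) (by simp only [fderiv_fun_const, Pi.zero_apply, zero_apply, zero_mul, integrable_fun_zero]) (by simpa only [one_mul] using hi)
    (by simpa using h1.continuous.integrable_of_hasCompactSupport h2)
    (fun x _ => differentiableAt_const _) (fun x _ => h1.differentiable one_ne_zero x)
  simpa using key

theorem wdiv_int {U : Set E} {X : E → E} {φ : E → ℝ} (hU : IsOpen U) (hX : ContinuousOn X U)
    (hφ : ContDiff ℝ 1 φ) (hc : HasCompactSupport φ) (hs : tsupport φ ⊆ U) :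
    Integrable fun x => fderiv ℝ φ x (X x) := by
  have hsub : tsupport (fun x => fderiv ℝ φ x (X x)) ⊆ tsupport φ := by
    refine closure_minimal ?_ (isClosed_tsupport φ)
    intro x hx
    by_contra hn
    exact hx (by simp [fderiv_of_notMem_tsupport ℝ hn])
  have hcont : Continuous fun x => fderiv ℝ φ x (X x) :=
    ContinuousOn.continuous_of_tsupport_subset
      ((hφ.continuous_fderiv one_ne_zero).continuousOn.clm_apply hX) hU (hsub.trans hs)
  exact hcont.integrable_of_hasCompactSupport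
    (hc.of_isClosed_subset (isClosed_tsupport _) hsub)

theorem WDiv.lin {U : Set E} {X Y : E → E} (hU : IsOpen U) (hX : ContinuousOn X U)
    (hY : ContinuousOn Y U) (h1 : WDiv U X) (h2 : WDiv U Y) (a b : ℝ) :
    WDiv U fun x => a • X x + b • Y x := by
  intro φ hφ hc hs
  have i1 := wdiv_int hU hX hφ hc hs
  have i2 := wdiv_int hU hY hφ hc hs
  simp only [map_add, map_smul, smul_eq_mul]
  rw [integral_add (i1.const_mul a) (i2.const_mul b), integral_const_mul, integral_const_mul,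
    h1 φ hφ hc hs, h2 φ hφ hc hs]
  simp

/-- Test with z ↦ φ (t⁻¹ • (z - y)); Measure.integral_comp_smul and integral_add_left_eq_self. -/
theorem WDiv.comp {U V : Set E} {X : E → E} (h : WDiv U X) (y : E) {t : ℝ} (ht : t ≠ 0)
    (hV : ∀ x ∈ V, y + t • x ∈ U) : WDiv V fun x => X (y + t • x) := by
  intro φ hφ hc hs
  let H : E ≃ₜ E := (Homeomorph.subRight y).trans (Homeomorph.smulOfNeZero t⁻¹ (inv_ne_zero ht))
  have hH : ∀ z, H z = t⁻¹ • (z - y) := fun z => rfl
  have hA : ContDiff ℝ 1 fun z : E => t⁻¹ • (z - y) := by fun_prop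
  have hψ : ContDiff ℝ 1 (φ ∘ H) := hφ.comp hA
  have hψs : tsupport (φ ∘ H) ⊆ U := by
    have h1 : tsupport (φ ∘ H) ⊆ H ⁻¹' tsupport φ := by
      refine closure_minimal ?_ ((isClosed_tsupport φ).preimage H.continuous)
      intro z hz
      exact subset_tsupport φ hz
    intro z hz
    have h2 := hV _ (hs (h1 hz))
    rwa [hH, smul_inv_smul₀ ht, add_sub_cancel] at h2
  have key := h (φ ∘ H) hψ (hc.comp_homeomorph H) hψs
  have hd : ∀ z v, fderiv ℝ (φ ∘ H) z v = t⁻¹ * fderiv ℝ φ (t⁻¹ • (z - y)) v := by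
    intro z v
    have h1 : HasFDerivAt (fun z : E => t⁻¹ • (z - y)) (t⁻¹ • ContinuousLinearMap.id ℝ E) z :=
      ((hasFDerivAt_id z).sub_const y).const_smul t⁻¹
    have h2 : HasFDerivAt (φ ∘ H)
        ((fderiv ℝ φ (t⁻¹ • (z - y))).comp (t⁻¹ • ContinuousLinearMap.id ℝ E)) z :=
      (hφ.differentiable one_ne_zero _).hasFDerivAt.comp z h1
    rw [h2.fderiv]
    simp
  simp only [hd] at key
  rw [integral_const_mul, mul_eq_zero, or_iff_right (inv_ne_zero ht)] at key
  have e1 := integral_add_left_eq_self (μ := (volume : Measure E))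
    (fun z => fderiv ℝ φ (t⁻¹ • (z - y)) (X z)) y
  have e2 := Measure.integral_comp_smul (volume : Measure E)
    (fun z => fderiv ℝ φ (t⁻¹ • (y + z - y)) (X (y + z))) t
  rw [e1, key, smul_zero] at e2
  simpa [inv_smul_smul₀ ht] using e2

/-- Dominated convergence on tsupport φ. -/
theorem wdiv_lim {U : Set E} (hU : IsOpen U) {X : ℕ → E → E} {Y : E → E} {M : ℝ}
    (hc : ∀ n, ContinuousOn (X n) U) (hw : ∀ n, WDiv U (X n)) (hb : ∀ n, ∀ x ∈ U, ‖X n x‖ ≤ M)
    (hl : ∀ x ∈ U, Tendsto (fun n => X n x) atTop (𝓝 (Y x))) : WDiv U Y := by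
  intro φ hφ hcs hs
  have hb0 : Integrable fun x => ‖fderiv ℝ φ x‖ * M :=
    (((hφ.continuous_fderiv one_ne_zero).integrable_of_hasCompactSupport
      (hcs.fderiv ℝ)).norm).mul_const M
  have key := tendsto_integral_of_dominated_convergence (μ := (volume : Measure E))
    (F := fun n x => fderiv ℝ φ x (X n x)) (f := fun x => fderiv ℝ φ x (Y x))
    (fun x => ‖fderiv ℝ φ x‖ * M)
    (fun n => (wdiv_int hU (hc n) hφ hcs hs).aestronglyMeasurable) hb0
    (fun n => Eventually.of_forall fun x => by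
      by_cases hx : x ∈ tsupport φ
      · exact ((fderiv ℝ φ x).le_opNorm _).trans
          (mul_le_mul_of_nonneg_left (hb n x (hs hx)) (norm_nonneg _))
      · simp [fderiv_of_notMem_tsupport ℝ hx])
    (Eventually.of_forall fun x => by
      by_cases hx : x ∈ tsupport φ
      · exact ((fderiv ℝ φ x).continuous.tendsto _).comp (hl x (hs hx))
      · simp [fderiv_of_notMem_tsupport ℝ hx])
  have h0 : (fun n => ∫ x, fderiv ℝ φ x (X n x)) = fun _ => 0 :=
    funext fun n => hw n φ hφ hcs hs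
  rw [h0] at key
  exact tendsto_nhds_unique key tendsto_const_nhds

theorem WDiv.dq {x₀ e : E} {r s h : ℝ} {X : E → E} (hw : WDiv (ball x₀ r) X)
    (hX : ContinuousOn X (ball x₀ r)) (hs : s + |h| * ‖e‖ ≤ r) :
    WDiv (ball x₀ s) (dq h e X) := by
  have hn : 0 ≤ |h| * ‖e‖ := by positivity
  have hm : ∀ x ∈ ball x₀ s, h • e + (1 : ℝ) • x ∈ ball x₀ r := by
    intro x hx
    rw [mem_ball, dist_eq_norm] at hx ⊢
    calc ‖h • e + (1 : ℝ) • x - x₀‖ = ‖h • e + (x - x₀)‖ := by rw [one_smul, add_sub_assoc]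
      _ ≤ ‖h • e‖ + ‖x - x₀‖ := norm_add_le _ _
      _ < r := by rw [norm_smul, Real.norm_eq_abs]; linarith
  have hsub : ball x₀ s ⊆ ball x₀ r := ball_subset_ball (by linarith)
  have h1 := hw.comp (V := ball x₀ s) (h • e) one_ne_zero hm
  have hc1 : ContinuousOn (fun x => X (h • e + (1 : ℝ) • x)) (ball x₀ s) :=
    hX.comp (by fun_prop) hm
  have h2 := WDiv.lin isOpen_ball hc1 (hX.mono hsub) h1 (hw.mono hsub) h⁻¹ (-h⁻¹)
  refine h2.congr fun x _ => ?_
  simp only [G.dq, one_smul, neg_smul, add_comm (h • e) x, sub_eq_add_neg, smul_add,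
    smul_neg]

end Wk

section Gr

omit [MeasurableSpace E] [BorelSpace E] in
/-- Multiply by a ContDiffBump centred at x₀ with radii strictly between s and r. -/
theorem exists_ext {F : Type} [NormedAddCommGroup F] [NormedSpace ℝ F] {n : ℕ∞} {f : E → F}
    {x₀ : E} {r s : ℝ} (hs : s < r) (hf : ContDiffOn ℝ n f (ball x₀ r)) :
    ∃ f' : E → F, ContDiff ℝ n f' ∧ EqOn f' f (ball x₀ s) := by
  rcases le_or_gt r 0 with hr | hr
  · exact ⟨fun _ => 0, contDiff_const, by simp [ball_eq_empty.2 (hs.le.trans hr)]⟩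
  have h1 : max s (r / 2) < r := max_lt hs (half_lt_self hr)
  let b : ContDiffBump x₀ := ⟨max s (r / 2), (max s (r / 2) + r) / 2,
    lt_max_of_lt_right (half_pos hr), by linarith⟩
  refine ⟨fun x => b x • f x, contDiff_iff_contDiffAt.2 fun x => ?_, fun x hx => ?_⟩
  · by_cases hx : x ∈ ball x₀ r
    · exact b.contDiff.contDiffAt.smul (hf.contDiffAt (isOpen_ball.mem_nhds hx))
    · have h2 : x ∉ tsupport b := by
        rw [b.tsupport_eq]
        exact fun c => hx (closedBall_subset_ball (by simp only [b]; linarith only [h1]) c)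
      refine (contDiffAt_const (c := 0)).congr_of_eventuallyEq ?_
      filter_upwards [notMem_tsupport_iff_eventuallyEq.1 h2] with z hz
      simp [hz]
  · simp [b.one_of_mem_closedBall
      (ball_subset_closedBall (ball_subset_ball (le_max_left s (r / 2)) hx))]

omit [MeasurableSpace E] [BorelSpace E] in
theorem Gr_sum (w : E → ℝ) (x : E) :
    ∇ w x = ∑ i, fderiv ℝ w x (stdOrthonormalBasis ℝ E i) • stdOrthonormalBasis ℝ E i := by
  conv_lhs => rw [← (stdOrthonormalBasis ℝ E).sum_repr' (∇ w x)]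
  simp only [real_inner_comm (∇ w x), inner_gradient_left]

omit [MeasurableSpace E] [BorelSpace E] in
theorem norm_grad (w : E → ℝ) (x : E) : ‖∇ w x‖ = ‖fderiv ℝ w x‖ := by
  simp [gradient]

omit [MeasurableSpace E] [BorelSpace E] in
theorem grad_contDiffOn {U : Set E} {w : E → ℝ} {m n : WithTop ℕ∞} (hU : IsOpen U)
    (h : ContDiffOn ℝ n w U) (hmn : m + 1 ≤ n) : ContDiffOn ℝ m (∇ w) U := by
  refine ContDiffOn.congr (ContDiffOn.sum fun i _ => ?_) fun x _ => Gr_sum w x
  exact ((h.fderiv_of_isOpen hU hmn).clm_apply contDiffOn_const).smul contDiffOn_const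

omit [MeasurableSpace E] [BorelSpace E] in
theorem grad_contOn {U : Set E} {w : E → ℝ} (hU : IsOpen U) (h : ContDiffOn ℝ 1 w U) :
    ContinuousOn (∇ w) U := by
  exact (grad_contDiffOn (m := 0) hU h (by simp)).continuousOn

omit [MeasurableSpace E] [BorelSpace E] in
theorem grad_cont {w : E → ℝ} (h : ContDiff ℝ 1 w) : Continuous (∇ w) := by
  exact continuousOn_univ.1 (grad_contOn isOpen_univ h.contDiffOn)

omit [MeasurableSpace E] [BorelSpace E] in
theorem contDiffOn_of_grad {U : Set E} {w : E → ℝ} (hU : IsOpen U)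
    (hd : ∀ x ∈ U, DifferentiableAt ℝ w x) (hc : ContinuousOn (∇ w) U) : ContDiffOn ℝ 1 w U := by
  have h1 : ContinuousOn (fderiv ℝ w) U :=
    ((InnerProductSpace.toDual ℝ E).continuous.comp_continuousOn hc).congr fun x _ => by
      simp [gradient]
  have h2 := (contDiffOn_succ_iff_fderiv_of_isOpen (n := 0) hU).2
    ⟨fun x hx => (hd x hx).differentiableWithinAt, by simp, contDiffOn_zero.2 h1⟩
  simpa using h2

omit [MeasurableSpace E] [BorelSpace E] in
theorem grad_congr {U : Set E} {w v : E → ℝ} (hU : IsOpen U) (h : EqOn w v U) :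
    EqOn (∇ w) (∇ v) U := by
  intro x hx
  rw [gradient, gradient, (h.eventuallyEq_of_mem (hU.mem_nhds hx)).fderiv_eq]

omit [MeasurableSpace E] [BorelSpace E] in
theorem grad_resc {w : E → ℝ} {y p x : E} {t a : ℝ} (ht : t ≠ 0)
    (hw : DifferentiableAt ℝ w (y + t • x)) : ∇ (resc y t a p w) x = ∇ w (y + t • x) - p := by
  have h0 := (hasFDerivAt_id (𝕜 := ℝ) x).const_smul t
  have h2 := hw.hasFDerivAt.comp x (h0.const_add y)
  have h3 := (innerSL ℝ p).hasFDerivAt.comp x h0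
  have h4 : HasFDerivAt (resc y t a p w) _ x := ((h2.sub_const a).sub h3).mul_const t⁻¹
  refine ext_inner_right ℝ fun v => ?_
  rw [inner_sub_left, inner_gradient_left, inner_gradient_left, h4.fderiv]
  simp [← mul_sub, ht]

omit [MeasurableSpace E] [BorelSpace E] [FiniteDimensional ℝ E] in
theorem contDiff_resc {w : E → ℝ} (hw : ContDiff ℝ 1 w) (y p : E) (t a : ℝ) :
    ContDiff ℝ 1 (resc y t a p w) := by
  exact (((hw.comp (contDiff_const.add (contDiff_id.const_smul t))).sub contDiff_const).sub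
    (contDiff_const.inner ℝ (contDiff_id.const_smul t))).div_const t

omit [MeasurableSpace E] [BorelSpace E] [FiniteDimensional ℝ E] in
theorem resc_resc (w : E → ℝ) {t s : ℝ} (ht : t ≠ 0) (hs : s ≠ 0) (a a' : ℝ) (p p' : E) :
    resc 0 s a' p' (resc 0 t a p w) = resc 0 (t * s) (a + t * a') (p + p') w := by
  funext x
  simp only [resc, zero_add, smul_smul, inner_add_left, inner_smul_right]
  field_simp
  ring

omit [MeasurableSpace E] [BorelSpace E] in
theorem grad_dq {w : E → ℝ} {h : ℝ} {e x : E} (h1 : DifferentiableAt ℝ w x)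
    (h2 : DifferentiableAt ℝ w (x + h • e)) : ∇ (dq h e w) x = dq h e (∇ w) x := by
  have h3 := h2.hasFDerivAt.comp x ((hasFDerivAt_id (𝕜 := ℝ) x).add_const (h • e))
  have h4 : HasFDerivAt (dq h e w) _ x := (h3.sub h1.hasFDerivAt).const_smul h⁻¹
  refine ext_inner_right ℝ fun v => ?_
  rw [dq, inner_smul_left, inner_sub_left, inner_gradient_left, inner_gradient_left,
    inner_gradient_left, h4.fderiv]
  simp

omit [MeasurableSpace E] [BorelSpace E] in
theorem grad_sub_aff {w : E → ℝ} {x x₀ p : E} {a : ℝ} (h : DifferentiableAt ℝ w x) :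
    ∇ (fun z => w z - a - ⟪p, z - x₀⟫_ℝ) x = ∇ w x - p := by
  have h3 := (innerSL ℝ p).hasFDerivAt.comp x ((hasFDerivAt_id (𝕜 := ℝ) x).sub_const x₀)
  have h4 : HasFDerivAt (fun z => w z - a - ⟪p, z - x₀⟫_ℝ) _ x :=
    (h.hasFDerivAt.sub_const a).sub h3
  refine ext_inner_right ℝ fun v => ?_
  rw [inner_sub_left, inner_gradient_left, inner_gradient_left, h4.fderiv]
  simp

omit [MeasurableSpace E] [BorelSpace E] in
/-- Expansion of the gradient in the standard orthonormal basis. -/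
theorem grad_eq_sum (w : E → ℝ) (x : E) :
    ∇ w x = ∑ i, fderiv ℝ w x (stdOrthonormalBasis ℝ E i) • stdOrthonormalBasis ℝ E i := by
  exact Gr_sum w x

open scoped Pointwise in
/-- Change of variables (Measure.setIntegral_comp_smul_of_pos or integral_comp_smul with
indicators, and translation invariance). No integrability is needed. -/
theorem NN_resc (w : E → ℝ) (y p : E) {t : ℝ} (ht : 0 < t) (a : ℝ) :
    NN (resc y t a p w) = (t ^ (Module.finrank ℝ E + 2))⁻¹ *
      ∫ x in closedBall y (4 * t), (w x - a - ⟪p, x - y⟫_ℝ) ^ 2 := by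
  have h1 := Measure.setIntegral_comp_smul_of_pos (volume : Measure E)
    (fun z => (w (y + z) - a - ⟪p, z⟫_ℝ) ^ 2) (closedBall 0 4) ht
  have h2 := (measurePreserving_add_left (volume : Measure E) y).setIntegral_preimage_emb
    (measurableEmbedding_addLeft y) (fun x => (w x - a - ⟪p, x - y⟫_ℝ) ^ 2) (closedBall y (4 * t))
  have h3 : (fun z => y + z) ⁻¹' closedBall y (4 * t) = t • closedBall (0 : E) 4 := by
    rw [smul_closedBall' ht.ne', smul_zero, Real.norm_of_nonneg ht.le, mul_comm t]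
    ext z
    simp only [preimage_add_closedBall, sub_self, mem_closedBall, dist_zero_right]
  rw [h3] at h2
  simp only [add_sub_cancel_left] at h2
  simp only [NN, resc, div_pow]
  rw [integral_div, h1, h2, smul_eq_mul, pow_add]
  field_simp

end Gr

section Ker

/-- z ρ(z) is the gradient of Φ. -/
structure Ker (Φ ρ : E → ℝ) : Prop where
  cΦ : ContDiff ℝ ∞ Φ
  cρ : ContDiff ℝ ∞ ρ
  zΦ : ∀ z, 1 ≤ ‖z‖ → Φ z = 0
  zρ : ∀ z, 1 ≤ ‖z‖ → ρ z = 0
  dΦ : ∀ z v, fderiv ℝ Φ z v = ρ z * ⟪z, v⟫_ℝ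
  one : ∫ z, ρ z = 1

theorem ker_aux1 (x : ℝ) : HasDerivAt expNegInvGlue (x⁻¹ ^ 2 * expNegInvGlue x) x := by
  simpa only [inv_pow, Polynomial.eval_one, one_mul, Polynomial.derivative_one, sub_zero, mul_one, Polynomial.eval_pow, Polynomial.eval_X] using expNegInvGlue.hasDerivAt_polynomial_eval_inv_mul 1 x

theorem ker_aux2 : ContDiff ℝ ∞ fun x : ℝ => x⁻¹ ^ 2 * expNegInvGlue x := by
  have h := expNegInvGlue.contDiff_polynomial_eval_inv_mul (n := ⊤) (Polynomial.X ^ 2)
  have e : (fun x : ℝ => x⁻¹ ^ 2 * expNegInvGlue x) =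
      fun x : ℝ => (Polynomial.X ^ 2 : Polynomial ℝ).eval x⁻¹ * expNegInvGlue x := by
    funext x
    rw [Polynomial.eval_pow, Polynomial.eval_X]
  rw [e]
  exact h

/-- Φ z = -(κ/2) expNegInvGlue (1 - |z|^2), ρ z = κ deriv expNegInvGlue (1 - |z|^2); the derivative
is (x⁻¹)^2 * expNegInvGlue x (expNegInvGlue.hasDerivAt_polynomial_eval_inv_mul 1), nonnegative,
positive at x = 1; Continuous.integral_pos_of_hasCompactSupport_nonneg_nonzero. -/
theorem exists_ker : ∃ Φ ρ : E → ℝ, Ker Φ ρ := by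
  have hq : ContDiff ℝ ∞ fun z : E => 1 - ‖z‖ ^ 2 := contDiff_const.sub (contDiff_norm_sq ℝ)
  set ρ₀ : E → ℝ := fun z => (1 - ‖z‖ ^ 2)⁻¹ ^ 2 * expNegInvGlue (1 - ‖z‖ ^ 2) with hρ₀
  have hc : ContDiff ℝ ∞ ρ₀ := ker_aux2.comp hq
  have hz : ∀ z : E, 1 ≤ ‖z‖ → expNegInvGlue (1 - ‖z‖ ^ 2) = 0 := fun z hz =>
    expNegInvGlue.zero_of_nonpos (by nlinarith only [hz])
  have hz' : ∀ z : E, 1 ≤ ‖z‖ → ρ₀ z = 0 := fun z h => by
    simp only [hρ₀, hz z h, mul_zero]
  have hcs : HasCompactSupport ρ₀ :=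
    HasCompactSupport.intro (isCompact_closedBall (0 : E) 1) fun z h =>
      hz' z (le_of_lt (by simpa only [mem_closedBall, dist_zero_right, not_le] using h))
  have hpos : 0 < ∫ z, ρ₀ z := by
    refine hc.continuous.integral_pos_of_hasCompactSupport_nonneg_nonzero (x := 0) hcs
      (fun z => mul_nonneg (sq_nonneg _) (expNegInvGlue.nonneg _)) ?_
    have := expNegInvGlue.pos_of_pos (x := 1) one_pos
    simp [hρ₀, this.ne']
  set κ : ℝ := (∫ z, ρ₀ z)⁻¹ with hκ
  refine ⟨fun z => -(κ / 2) * expNegInvGlue (1 - ‖z‖ ^ 2), fun z => κ * ρ₀ z,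
    contDiff_const.mul ((expNegInvGlue.contDiff (n := ⊤)).comp hq), contDiff_const.mul hc,
    fun z h => by rw [hz z h, mul_zero], fun z h => by rw [hz' z h, mul_zero], fun z v => ?_, ?_⟩
  · have h1 : HasFDerivAt (fun z : E => 1 - ‖z‖ ^ 2) (-(2 • innerSL ℝ z)) z :=
      (hasStrictFDerivAt_norm_sq z).hasFDerivAt.const_sub 1
    have h2 := ((ker_aux1 (1 - ‖z‖ ^ 2)).comp_hasFDerivAt z h1).const_mul (-(κ / 2))
    have h3 := h2.fderiv
    simp only [Function.comp_def] at h3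
    rw [h3]
    simp only [hρ₀, smul_apply, neg_apply, innerSL_apply_apply,
      smul_eq_mul, nsmul_eq_mul]
    push_cast
    ring
  · rw [integral_const_mul, hκ, inv_mul_cancel₀ hpos.ne']

/-- Cauchy-Schwarz on a compact set: integrate (V f - I)^2. -/
theorem sq_int_le {X : Type} [TopologicalSpace X] [T2Space X] [MeasurableSpace X]
    [OpensMeasurableSpace X] (μ : Measure X) [IsFiniteMeasureOnCompacts μ] {K : Set X}
    (hK : IsCompact K) {f : X → ℝ} (hf : ContinuousOn f K) :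
    (∫ x in K, f x ∂μ) ^ 2 ≤ μ.real K * ∫ x in K, f x ^ 2 ∂μ := by
  have h1 : IntegrableOn f K μ := hf.integrableOn_compact hK
  have h2 : IntegrableOn (fun x => f x ^ 2) K μ := (hf.pow 2).integrableOn_compact hK
  have key : ∀ t : ℝ, 0 ≤ μ.real K * (t * t) + (-2 * ∫ x in K, f x ∂μ) * t +
      ∫ x in K, f x ^ 2 ∂μ := fun t => by
    have h3 : IntegrableOn (fun _ => t * t) K μ := continuousOn_const.integrableOn_compact hK
    have h4 : IntegrableOn (fun x => -2 * t * f x) K μ := h1.const_mul _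
    have h0 : 0 ≤ ∫ x in K, (t * t + -2 * t * f x + f x ^ 2) ∂μ :=
      integral_nonneg fun x => by
        have : t * t + -2 * t * f x + f x ^ 2 = (f x - t) ^ 2 := by ring
        simp only [Pi.zero_apply, this]
        positivity
    have h5 : IntegrableOn (fun x => t * t + -2 * t * f x) K μ := h3.add h4
    rw [integral_add h5 h2, integral_add h3 h4, setIntegral_const, integral_const_mul,
      smul_eq_mul] at h0
    linarith
  have := discrim_le_zero key
  rw [discrim] at this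
  linarith only [this]

/-- (grad w 0, v) = int ρ (Dw 0 - Dw z) v - int w Dρ v  (integration by parts). -/
theorem crude : ∃ C : ℝ, 0 < C ∧ ∀ (w : E → ℝ) (om A : ℝ), ContDiff ℝ 1 w → 0 ≤ A →
    (∀ x ∈ closedBall (0 : E) 1, ‖∇ w x - ∇ w 0‖ ≤ om) → NN w ≤ A ^ 2 →
    ‖∇ w 0‖ ≤ C * (A + om) := by
  obtain ⟨Φ, ρ, hk⟩ := exists_ker (E := E)
  have hcs : HasCompactSupport ρ :=
    HasCompactSupport.intro (isCompact_closedBall (0 : E) 1) fun z h =>
      hk.zρ z (le_of_lt (by simpa only [mem_closedBall, dist_zero_right, not_le] using h))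
  have hts : tsupport ρ ⊆ closedBall (0 : E) 1 :=
    closure_minimal (fun z hz => by
      by_contra h
      exact hz (hk.zρ z (le_of_lt (by simpa only [mem_closedBall, dist_zero_right, not_le] using h)))) isClosed_closedBall
  have hρc : Continuous ρ := hk.cρ.continuous
  have hDc : Continuous (fderiv ℝ ρ) := hk.cρ.continuous_fderiv (by simp)
  obtain ⟨M, hM⟩ := hDc.bounded_above_of_compact_support (hcs.fderiv ℝ)
  have hM0 : 0 ≤ M := (norm_nonneg _).trans (hM 0)
  set a : ℝ := ∫ z, |ρ z| with ha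
  have ha0 : 0 ≤ a := integral_nonneg fun z => abs_nonneg _
  set V : ℝ := (volume : Measure E).real (closedBall (0 : E) 4) with hV
  have hV0 : 0 ≤ V := measureReal_nonneg
  refine ⟨a + M * (V + 1) + 1, by positivity, fun w om A hw hA hom hN => ?_⟩
  set v : E := ∇ w 0 with hv
  have hom0 : 0 ≤ om := (norm_nonneg _).trans (hom 0 (mem_closedBall_self zero_le_one))
  have hwc : Continuous w := hw.continuous
  have hwD : Continuous fun z => fderiv ℝ w z v :=
    (hw.continuous_fderiv one_ne_zero).clm_apply continuous_const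
  have hρD : Continuous fun z => fderiv ℝ ρ z v := hDc.clm_apply continuous_const
  have hρDs : HasCompactSupport fun z => fderiv ℝ ρ z v := hcs.fderiv_apply (𝕜 := ℝ) v
  have i1 : Integrable fun z => fderiv ℝ ρ z v * w z :=
    (hρD.mul hwc).integrable_of_hasCompactSupport hρDs.mul_right
  have i2 : Integrable fun z => ρ z * fderiv ℝ w z v :=
    (hρc.mul hwD).integrable_of_hasCompactSupport hcs.mul_right
  have i3 : Integrable fun z => ρ z * w z :=
    (hρc.mul hwc).integrable_of_hasCompactSupport hcs.mul_right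
  have i4 : Integrable ρ := hρc.integrable_of_hasCompactSupport hcs
  have ibp := integral_mul_fderiv_eq_neg_fderiv_mul_of_integrable i1 i2 i3
    (fun x _ => hk.cρ.differentiable (by simp) x) (fun x _ => hw.differentiable one_ne_zero x)
  have e1 : ‖v‖ ^ 2 = (∫ z, (ρ z * ‖v‖ ^ 2 - ρ z * fderiv ℝ w z v)) -
      ∫ z, fderiv ℝ ρ z v * w z := by
    rw [integral_sub (i4.mul_const _) i2, integral_mul_const, hk.one, ibp]
    ring
  have b1 : ∫ z, (ρ z * ‖v‖ ^ 2 - ρ z * fderiv ℝ w z v) ≤ a * (om * ‖v‖) := by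
    rw [ha, ← integral_mul_const]
    refine integral_mono ((i4.mul_const _).sub i2) (i4.abs.mul_const _) fun z => ?_
    by_cases hz : z ∈ closedBall (0 : E) 1
    · have h1 : ρ z * ‖v‖ ^ 2 - ρ z * fderiv ℝ w z v = ρ z * -⟪∇ w z - v, v⟫_ℝ := by
        rw [inner_sub_left, inner_gradient_left, real_inner_self_eq_norm_sq]
        ring
      have h2 : |-⟪∇ w z - v, v⟫_ℝ| ≤ om * ‖v‖ := by
        rw [abs_neg]
        exact (abs_real_inner_le_norm _ _).trans
          (mul_le_mul_of_nonneg_right (hom z hz) (norm_nonneg _))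
      simp only [h1]
      refine (le_abs_self _).trans ?_
      rw [abs_mul]
      exact mul_le_mul_of_nonneg_left h2 (abs_nonneg _)
    · have : ρ z = 0 := hk.zρ z (le_of_lt (by simpa only [mem_closedBall, dist_zero_right, not_le] using hz))
      simp [this]
  have hK : IsCompact (closedBall (0 : E) 4) := isCompact_closedBall _ _
  have b2 : ∫ z in closedBall (0 : E) 4, |w z| ≤ (V + 1) * A := by
    have h1 := sq_int_le (volume : Measure E) hK hwc.abs.continuousOn
    simp only [sq_abs] at h1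
    have h2 : V * NN w ≤ V * A ^ 2 := mul_le_mul_of_nonneg_left hN hV0
    refine abs_le_of_sq_le_sq' ?_ (by positivity) |>.2
    refine h1.trans (h2.trans ?_)
    rw [mul_pow]
    exact mul_le_mul_of_nonneg_right (by nlinarith only []) (sq_nonneg _)
  have b3 : -∫ z, fderiv ℝ ρ z v * w z ≤ M * ‖v‖ * ((V + 1) * A) := by
    have h1 : ∫ z in closedBall (0 : E) 4, fderiv ℝ ρ z v * w z = ∫ z, fderiv ℝ ρ z v * w z := by
      refine setIntegral_eq_integral_of_forall_compl_eq_zero fun z hz => ?_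
      have : z ∉ tsupport ρ := fun h => hz (closedBall_subset_closedBall (by norm_num) (hts h))
      rw [fderiv_of_notMem_tsupport ℝ this]
      simp
    rw [← h1, ← integral_neg]
    refine le_trans ?_ (mul_le_mul_of_nonneg_left b2 (by positivity))
    rw [← integral_const_mul]
    refine integral_mono i1.integrableOn.neg
      ((hwc.abs.continuousOn.integrableOn_compact hK).const_mul _) fun z => ?_
    refine (neg_le_abs _).trans ?_
    rw [abs_mul]
    refine mul_le_mul_of_nonneg_right ?_ (abs_nonneg _)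
    exact ((fderiv ℝ ρ z).le_opNorm v).trans (mul_le_mul_of_nonneg_right (hM z) (norm_nonneg _))
  rcases (norm_nonneg v).eq_or_lt with h0 | h0
  · rw [← h0]
    positivity
  · have h1 : ‖v‖ * ‖v‖ ≤ (a * om + M * (V + 1) * A) * ‖v‖ := by linarith only [e1, b1, b3]
    have h2 := le_of_mul_le_mul_right h1 h0
    have h3 : 0 ≤ M * (V + 1) := by positivity
    linarith only [mul_nonneg ha0 hA, mul_nonneg h3 hom0, hA, hom0, h2]

end Ker

section Tay

/-- int w(x - z) ρ(z) dz = int w(y) ρ(x - y) dy; a = int w(y) ρ(-y), p = int w(y) • grad ρ(-y);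
Taylor bound |ρ(z+h) - ρ z - Dρ z h| ≤ C |h|^2 (fderiv ρ is Lipschitz: smooth, compact support),
the integrand vanishes for |y| > 2, Cauchy-Schwarz. -/
theorem moll_taylor {Φ ρ : E → ℝ} (hk : Ker Φ ρ) : ∃ C : ℝ, 0 < C ∧ ∀ (w : E → ℝ) (A : ℝ),
    Continuous w → 0 ≤ A → NN w ≤ A ^ 2 → ∃ (a : ℝ) (p : E), ‖p‖ ≤ C * A ∧
      ∀ x ∈ closedBall (0 : E) 1,
        |(∫ z, w (x - z) * ρ z) - a - ⟪p, x⟫_ℝ| ≤ C * A * ‖x‖ ^ 2 := by
  have hcs : HasCompactSupport ρ := HasCompactSupport.intro (isCompact_closedBall (0 : E) 1)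
    fun z hz => hk.zρ z (by simpa only [] using (not_le.1 fun h => hz (by simpa only [mem_closedBall, dist_zero_right] using h)).le)
  have hD : ContDiff ℝ 1 (fderiv ℝ ρ) := (contDiff_infty.1 hk.cρ 2).fderiv_right (by norm_num)
  have hdρ : Differentiable ℝ ρ := hk.cρ.differentiable (by simp)
  obtain ⟨L, hL⟩ := hD.lipschitzWith_of_hasCompactSupport (hcs.fderiv ℝ) one_ne_zero
  obtain ⟨M, hM⟩ := (hcs.fderiv ℝ).exists_bound_of_continuous hD.continuous
  have hM0 : 0 ≤ M := (norm_nonneg _).trans (hM 0)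
  have hT : ∀ z h : E, |ρ (z + h) - ρ z - fderiv ℝ ρ z h| ≤ L * ‖h‖ ^ 2 := fun z h => by
    have := (convex_closedBall z ‖h‖).norm_image_sub_le_of_norm_fderiv_le' (𝕜 := ℝ) (f := ρ)
      (φ := fderiv ℝ ρ z) (C := L * ‖h‖) (x := z) (y := z + h) (fun y _ => hdρ y)
      (fun y hy => (hL.norm_sub_le y z).trans
        (mul_le_mul_of_nonneg_left (by simpa [dist_eq_norm] using hy) L.2))
      (mem_closedBall_self (norm_nonneg _)) (by simp)
    simpa only [pow_two, ge_iff_le, add_sub_cancel_left, Real.norm_eq_abs, mul_assoc] using this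
  set K : Set E := closedBall 0 4 with hK
  have hKc : IsCompact K := isCompact_closedBall _ _
  set V : ℝ := √(volume.real K) with hV
  have hV0 : 0 ≤ V := Real.sqrt_nonneg _
  refine ⟨V * (L + M) + 1, by positivity, fun w A hw hA hN => ?_⟩
  have hI : ∫ y in K, |w y| ≤ V * A := by
    have h1 := sq_int_le volume hKc (f := fun y => |w y|) hw.abs.continuousOn
    simp only [sq_abs] at h1
    refine (pow_le_pow_iff_left₀ (integral_nonneg fun _ => abs_nonneg _) (by positivity)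
      two_ne_zero).1 (h1.trans ?_)
    rw [mul_pow, hV, Real.sq_sqrt measureReal_nonneg]
    exact mul_le_mul_of_nonneg_left hN measureReal_nonneg
  have hcρ : Continuous ρ := hk.cρ.continuous
  have hcD : Continuous (fderiv ℝ ρ) := hD.continuous
  have hcg : Continuous fun y : E => w y • ∇ ρ (-y) :=
    hw.smul ((InnerProductSpace.toDual ℝ E).symm.continuous.comp (hcD.comp continuous_neg))
  have hiw : IntegrableOn (fun y => |w y|) K := hw.abs.continuousOn.integrableOn_compact hKc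
  have hL0 : (0 : ℝ) ≤ L := L.2
  refine ⟨∫ y in K, w y * ρ (-y), ∫ y in K, w y • ∇ ρ (-y), ?_, fun x hx => ?_⟩
  · calc ‖∫ y in K, w y • ∇ ρ (-y)‖ ≤ ∫ y in K, |w y| * M :=
          norm_integral_le_of_norm_le (hiw.mul_const M) (Eventually.of_forall fun y => by
            rw [norm_smul, Real.norm_eq_abs]
            refine mul_le_mul_of_nonneg_left ?_ (abs_nonneg _)
            simpa only [gradient, norm_map] using hM (-y))
      _ = (∫ y in K, |w y|) * M := integral_mul_const _ _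
      _ ≤ V * A * M := mul_le_mul_of_nonneg_right hI hM0
      _ ≤ _ := by linarith only [mul_nonneg (mul_nonneg hV0 hL0) hA, hA]
  · have hx1 : ‖x‖ ≤ 1 := by simpa only [mem_closedBall, dist_zero_right] using hx
    have e1 : ∫ z, w (x - z) * ρ z = ∫ y in K, w y * ρ (-y + x) := by
      rw [setIntegral_eq_integral_of_forall_compl_eq_zero fun y hy => ?_,
        ← integral_sub_left_eq_self (fun y => w y * ρ (-y + x)) volume x]
      · simp
      · have h4 : 4 < ‖y‖ := by simpa [hK] using hy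
        rw [hk.zρ _ ?_, mul_zero]
        have : ‖y‖ ≤ ‖-y + x‖ + ‖x‖ := by simpa only [add_sub_cancel_right, norm_neg] using norm_sub_le (-y + x) x
        linarith only [hx1, h4, this]
    have e2 : ⟪∫ y in K, w y • ∇ ρ (-y), x⟫_ℝ = ∫ y in K, w y * fderiv ℝ ρ (-y) x := by
      rw [real_inner_comm, ← integral_inner (hcg.continuousOn.integrableOn_compact hKc)]
      refine integral_congr_ae (Eventually.of_forall fun y => ?_)
      simp only [real_inner_smul_right]
      rw [real_inner_comm, inner_gradient_left]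
    have i1 : IntegrableOn (fun y => w y * ρ (-y + x)) K :=
      (by fun_prop : Continuous fun y => w y * ρ (-y + x)).continuousOn.integrableOn_compact hKc
    have i2 : IntegrableOn (fun y => w y * ρ (-y)) K :=
      (by fun_prop : Continuous fun y => w y * ρ (-y)).continuousOn.integrableOn_compact hKc
    have i3 : IntegrableOn (fun y => w y * fderiv ℝ ρ (-y) x) K :=
      (by fun_prop : Continuous fun y => w y * fderiv ℝ ρ (-y) x).continuousOn.integrableOn_compact
        hKc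
    have i4 : IntegrableOn (fun y => w y * ρ (-y + x) - w y * ρ (-y)) K := i1.sub i2
    rw [e1, e2, ← integral_sub i1 i2, ← integral_sub i4 i3]
    calc ‖∫ y in K, w y * ρ (-y + x) - w y * ρ (-y) - w y * fderiv ℝ ρ (-y) x‖
        ≤ ∫ y in K, |w y| * (L * ‖x‖ ^ 2) :=
          norm_integral_le_of_norm_le (hiw.mul_const _) (Eventually.of_forall fun y => by
            rw [← mul_sub, ← mul_sub, Real.norm_eq_abs, abs_mul]
            exact mul_le_mul_of_nonneg_left (hT (-y) x) (abs_nonneg _))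
      _ = (∫ y in K, |w y|) * (L * ‖x‖ ^ 2) := integral_mul_const _ _
      _ ≤ V * A * (L * ‖x‖ ^ 2) := mul_le_mul_of_nonneg_right hI (by positivity)
      _ ≤ (V * (L + M) + 1) * A * ‖x‖ ^ 2 := by
          linarith only [mul_nonneg (mul_nonneg (mul_nonneg hV0 hM0) hA) (sq_nonneg ‖x‖), mul_nonneg hA (sq_nonneg ‖x‖)]

end Tay

section MollE

theorem mollE_swap {X Y : Type} [MetricSpace X] [ProperSpace X] [MeasurableSpace X] [BorelSpace X]
    [MetricSpace Y] [ProperSpace Y] [MeasurableSpace Y] [BorelSpace Y]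
    (μ : Measure X) (ν : Measure Y) [IsFiniteMeasureOnCompacts μ] [IsFiniteMeasureOnCompacts ν]
    [SFinite μ] [SFinite ν] {K : Set X} {L : Set Y} (hK : IsCompact K) (hL : IsCompact L)
    {f : X → Y → ℝ} (hf : Continuous f.uncurry) :
    ∫ x in K, ∫ y in L, f x y ∂ν ∂μ = ∫ y in L, ∫ x in K, f x y ∂μ ∂ν := by
  apply integral_integral_swap
  rw [Measure.prod_restrict]
  exact hf.continuousOn.integrableOn_compact (hK.prod hL)

theorem mollE_transl {G : E → ℝ} (hG : Continuous G) (h0 : ∀ x, 0 ≤ G x) {v : E} (hv : ‖v‖ ≤ 1) :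
    ∫ x in closedBall (0 : E) 1, G (x - v) ≤ ∫ x in closedBall (0 : E) 2, G x := by
  have h1 : ∫ x in closedBall (0 : E) 1, G (x - v) = ∫ x in closedBall (-v) 1, G x := by
    rw [← integral_indicator measurableSet_closedBall,
      ← integral_indicator measurableSet_closedBall,
      ← integral_sub_right_eq_self ((closedBall (-v) 1).indicator G) v]
    congr 1
    funext x
    by_cases hx : x ∈ closedBall (0 : E) 1
    · have hx' : x - v ∈ closedBall (-v) 1 := by
        simpa only [mem_closedBall, dist_eq_norm, sub_neg_eq_add, sub_add_cancel, sub_zero] using hx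
      rw [indicator_of_mem hx, indicator_of_mem hx']
    · have hx' : x - v ∉ closedBall (-v) 1 := by
        simpa only [mem_closedBall, dist_eq_norm, sub_neg_eq_add, sub_add_cancel, not_le, sub_zero] using hx
      rw [indicator_of_notMem hx, indicator_of_notMem hx']
  rw [h1]
  refine setIntegral_mono_set (hG.continuousOn.integrableOn_compact (isCompact_closedBall _ _))
    (Eventually.of_forall h0) (LE.le.eventuallyLE ?_)
  refine closedBall_subset_closedBall' ?_
  rw [dist_zero_right, norm_neg]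
  linarith

theorem mollE_triple {G : E → ℝ} (hG : Continuous G) (h0 : ∀ x, 0 ≤ G x) :
    ∫ x in closedBall (0 : E) 1, ∫ t in Icc (0 : ℝ) 1, ∫ z in closedBall (0 : E) 1,
      G (x - t • z) ≤
      (volume : Measure E).real (closedBall (0 : E) 1) * ∫ x in closedBall (0 : E) 2, G x := by
  have hB : IsCompact (closedBall (0 : E) 1) := isCompact_closedBall _ _
  have hc1 : Continuous fun q : E × ℝ => ∫ z in closedBall (0 : E) 1, G (q.1 - q.2 • z) :=
    continuous_parametric_integral_of_continuous (f := fun (q : E × ℝ) (z : E) =>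
      G (q.1 - q.2 • z)) (by fun_prop) hB
  have hc2 : Continuous fun q : ℝ × E => ∫ x in closedBall (0 : E) 1, G (x - q.1 • q.2) :=
    continuous_parametric_integral_of_continuous (f := fun (q : ℝ × E) (x : E) =>
      G (x - q.1 • q.2)) (by fun_prop) hB
  rw [mollE_swap volume volume hB isCompact_Icc
    (f := fun (x : E) (t : ℝ) => ∫ z in closedBall (0 : E) 1, G (x - t • z)) hc1]
  have h2 : ∀ t : ℝ, ∫ x in closedBall (0 : E) 1, ∫ z in closedBall (0 : E) 1, G (x - t • z) =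
      ∫ z in closedBall (0 : E) 1, ∫ x in closedBall (0 : E) 1, G (x - t • z) := fun t =>
    mollE_swap volume volume hB hB (f := fun (x z : E) => G (x - t • z)) (by fun_prop)
  simp_rw [h2]
  have hc3 : Continuous fun t : ℝ =>
      ∫ z in closedBall (0 : E) 1, ∫ x in closedBall (0 : E) 1, G (x - t • z) :=
    continuous_parametric_integral_of_continuous (f := fun (t : ℝ) (z : E) =>
      ∫ x in closedBall (0 : E) 1, G (x - t • z)) hc2 hB
  calc ∫ t in Icc (0 : ℝ) 1, ∫ z in closedBall (0 : E) 1, ∫ x in closedBall (0 : E) 1,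
        G (x - t • z)
      ≤ ∫ _t in Icc (0 : ℝ) 1, (volume : Measure E).real (closedBall (0 : E) 1) *
        ∫ x in closedBall (0 : E) 2, G x := by
        refine setIntegral_mono_on (hc3.continuousOn.integrableOn_compact isCompact_Icc)
          (continuous_const.continuousOn.integrableOn_compact isCompact_Icc) measurableSet_Icc ?_
        intro t ht
        calc ∫ z in closedBall (0 : E) 1, ∫ x in closedBall (0 : E) 1, G (x - t • z)
            ≤ ∫ _z in closedBall (0 : E) 1, ∫ x in closedBall (0 : E) 2, G x := by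
              refine setIntegral_mono_on
                ((hc2.comp (Continuous.prodMk_right t)).continuousOn.integrableOn_compact hB)
                (continuous_const.continuousOn.integrableOn_compact hB)
                measurableSet_closedBall ?_
              intro z hz
              refine mollE_transl hG h0 ?_
              rw [norm_smul, Real.norm_eq_abs, abs_of_nonneg ht.1]
              have hz1 : ‖z‖ ≤ 1 := by simpa only [mem_closedBall, dist_zero_right] using hz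
              nlinarith only [ht.1, ht.2, hz1]
          _ = _ := by rw [setIntegral_const, smul_eq_mul]
    _ = _ := by simp only [integral_const, MeasurableSet.univ, measureReal_restrict_apply, univ_inter, Real.volume_real_Icc, sub_zero, zero_le_one, sup_of_le_left, smul_eq_mul, one_mul]

/-- Cauchy-Schwarz twice (sq_int_le), Fubini on compact sets, translation invariance. -/
theorem moll_est {ρ : E → ℝ} (hρ : Continuous ρ) : ∃ C : ℝ, 0 < C ∧ ∀ g : E → E, Continuous g →
    ∫ x in closedBall (0 : E) 1,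
      (∫ t in Icc (0 : ℝ) 1, ∫ z in closedBall (0 : E) 1, ρ z * ⟪g (x - t • z), z⟫_ℝ) ^ 2 ≤
      C * ∫ x in closedBall (0 : E) 2, ‖g x‖ ^ 2 := by
  have hB : IsCompact (closedBall (0 : E) 1) := isCompact_closedBall _ _
  obtain ⟨R, hR⟩ := hB.exists_bound_of_continuousOn hρ.continuousOn
  set V : ℝ := (volume : Measure E).real (closedBall (0 : E) 1) with hV
  have hV0 : 0 ≤ V := measureReal_nonneg
  refine ⟨V * R ^ 2 * V + 1, by positivity, fun g hg => ?_⟩
  have hG : Continuous fun x => ‖g x‖ ^ 2 := by fun_prop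
  have hc1 : Continuous fun q : E × ℝ =>
      ∫ z in closedBall (0 : E) 1, ρ z * ⟪g (q.1 - q.2 • z), z⟫_ℝ :=
    continuous_parametric_integral_of_continuous (f := fun (q : E × ℝ) (z : E) =>
      ρ z * ⟪g (q.1 - q.2 • z), z⟫_ℝ) (by fun_prop) hB
  have hc2 : Continuous fun q : E × ℝ => ∫ z in closedBall (0 : E) 1, ‖g (q.1 - q.2 • z)‖ ^ 2 :=
    continuous_parametric_integral_of_continuous (f := fun (q : E × ℝ) (z : E) =>
      ‖g (q.1 - q.2 • z)‖ ^ 2) (by fun_prop) hB
  have hc3 : Continuous fun x : E => ∫ t in Icc (0 : ℝ) 1,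
      ∫ z in closedBall (0 : E) 1, ρ z * ⟪g (x - t • z), z⟫_ℝ :=
    continuous_parametric_integral_of_continuous (f := fun (x : E) (t : ℝ) =>
      ∫ z in closedBall (0 : E) 1, ρ z * ⟪g (x - t • z), z⟫_ℝ) hc1 isCompact_Icc
  have hc4 : Continuous fun x : E => ∫ t in Icc (0 : ℝ) 1,
      ∫ z in closedBall (0 : E) 1, ‖g (x - t • z)‖ ^ 2 :=
    continuous_parametric_integral_of_continuous (f := fun (x : E) (t : ℝ) =>
      ∫ z in closedBall (0 : E) 1, ‖g (x - t • z)‖ ^ 2) hc2 isCompact_Icc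
  have h1 : ∀ (x : E) (t : ℝ),
      (∫ z in closedBall (0 : E) 1, ρ z * ⟪g (x - t • z), z⟫_ℝ) ^ 2 ≤
        V * R ^ 2 * ∫ z in closedBall (0 : E) 1, ‖g (x - t • z)‖ ^ 2 := by
    intro x t
    refine (sq_int_le volume hB (by fun_prop)).trans ?_
    rw [mul_assoc]
    refine mul_le_mul_of_nonneg_left ?_ hV0
    rw [← integral_const_mul]
    refine setIntegral_mono_on (ContinuousOn.integrableOn_compact hB (by fun_prop))
      (ContinuousOn.integrableOn_compact hB (by fun_prop)) measurableSet_closedBall ?_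
    intro z hz
    have hz1 : ‖z‖ ≤ 1 := by simpa only [mem_closedBall, dist_zero_right] using hz
    have a1 : |ρ z| ≤ R := by simpa using hR z hz
    have a2 : |⟪g (x - t • z), z⟫_ℝ| ≤ ‖g (x - t • z)‖ :=
      (abs_real_inner_le_norm _ _).trans (mul_le_of_le_one_right (norm_nonneg _) hz1)
    rw [mul_pow, ← sq_abs (ρ z), ← sq_abs (⟪g (x - t • z), z⟫_ℝ)]
    exact mul_le_mul (pow_le_pow_left₀ (abs_nonneg _) a1 2) (pow_le_pow_left₀ (abs_nonneg _) a2 2)
      (by positivity) (by positivity)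
  have h2 : ∀ x : E, (∫ t in Icc (0 : ℝ) 1,
      ∫ z in closedBall (0 : E) 1, ρ z * ⟪g (x - t • z), z⟫_ℝ) ^ 2 ≤
        V * R ^ 2 * ∫ t in Icc (0 : ℝ) 1, ∫ z in closedBall (0 : E) 1, ‖g (x - t • z)‖ ^ 2 := by
    intro x
    have hx1 := hc1.comp (Continuous.prodMk_right x)
    have hx2 := hc2.comp (Continuous.prodMk_right x)
    refine (sq_int_le volume isCompact_Icc hx1.continuousOn).trans ?_
    have : (volume : Measure ℝ).real (Icc (0 : ℝ) 1) = 1 := by simp only [Real.volume_real_Icc, sub_zero, zero_le_one, sup_of_le_left]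
    rw [this, one_mul, ← integral_const_mul]
    exact setIntegral_mono_on ((hx1.pow 2).continuousOn.integrableOn_compact isCompact_Icc)
      ((continuous_const.mul hx2).continuousOn.integrableOn_compact isCompact_Icc)
      measurableSet_Icc fun t _ => h1 x t
  have h3 := mollE_triple hG (fun x => by positivity)
  have h4 : 0 ≤ ∫ x in closedBall (0 : E) 2, ‖g x‖ ^ 2 := integral_nonneg fun x => by positivity
  calc _ ≤ ∫ x in closedBall (0 : E) 1, V * R ^ 2 * ∫ t in Icc (0 : ℝ) 1,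
        ∫ z in closedBall (0 : E) 1, ‖g (x - t • z)‖ ^ 2 :=
        setIntegral_mono_on ((hc3.pow 2).continuousOn.integrableOn_compact hB)
          ((continuous_const.mul hc4).continuousOn.integrableOn_compact hB)
          measurableSet_closedBall fun x _ => h2 x
    _ ≤ V * R ^ 2 * (V * ∫ x in closedBall (0 : E) 2, ‖g x‖ ^ 2) := by
        rw [integral_const_mul]
        exact mul_le_mul_of_nonneg_left h3 (by positivity)
    _ ≤ _ := by linarith only [h4]

end MollE

section Moll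

/-- For t > 0 test the equation with y ↦ Φ (t⁻¹ • (x - y)), i.e. use WDiv.comp with centre x and
factor -t and the test function Φ. -/
theorem moll_test {Φ ρ : E → ℝ} (hk : Ker Φ ρ) {X : E → E} (hw : WDiv (ball 0 4) X) {x : E}
    (hx : ‖x‖ ≤ 1) {t : ℝ} (ht : 0 < t) (ht1 : t ≤ 1) :
    ∫ z, ρ z * ⟪X (x - t • z), z⟫_ℝ = 0 := by
  have h1 : WDiv (ball (0 : E) 2) fun z => X (x + (-t) • z) := by
    refine hw.comp x (neg_ne_zero.mpr ht.ne') fun z hz => ?_
    rw [mem_ball_zero_iff] at hz ⊢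
    have h2 : ‖(-t) • z‖ ≤ ‖z‖ := by
      rw [norm_smul, norm_neg, Real.norm_of_nonneg ht.le]
      exact mul_le_of_le_one_left (norm_nonneg _) ht1
    linarith [norm_add_le x ((-t) • z)]
  have h0 : ∀ z, z ∉ closedBall (0 : E) 1 → Φ z = 0 := fun z hz =>
    hk.zΦ z (by rw [mem_closedBall_zero_iff, not_le] at hz; exact hz.le)
  have hs : tsupport Φ ⊆ closedBall (0 : E) 1 :=
    closure_minimal (fun z hz => by_contra fun h => hz (h0 z h)) isClosed_closedBall
  have h2 := h1 Φ (hk.cΦ.of_le (by exact_mod_cast le_top))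
    (HasCompactSupport.intro (isCompact_closedBall 0 1) h0)
    (hs.trans (closedBall_subset_ball (by norm_num)))
  rw [← h2]
  refine integral_congr_ae (Eventually.of_forall fun z => ?_)
  simp only [hk.dΦ, neg_smul, ← sub_eq_add_neg, real_inner_comm]

omit [MeasurableSpace E] [BorelSpace E] in
theorem moll_ftc {w : E → ℝ} (hw : ContDiff ℝ 1 w) (x z : E) :
    w x - w (x - z) = ∫ t in Icc (0 : ℝ) 1, ⟪∇ w (x - t • z), z⟫_ℝ := by
  have hd : ∀ t : ℝ, HasDerivAt (fun s : ℝ => -w (x - s • z)) ⟪∇ w (x - t • z), z⟫_ℝ t := by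
    intro t
    have h1 : HasDerivAt (fun s : ℝ => x - s • z) (-z) t := by
      simpa using ((hasDerivAt_id t).smul_const z).const_sub x
    have h2 := ((hw.differentiable one_ne_zero) (x - t • z)).hasFDerivAt.comp_hasDerivAt t h1
    rw [inner_gradient_left]
    have h3 := h2.neg
    rw [map_neg, neg_neg] at h3
    exact h3
  have hc : Continuous fun t : ℝ => ⟪∇ w (x - t • z), z⟫_ℝ :=
    ((grad_cont hw).comp (by fun_prop)).inner continuous_const
  have h := intervalIntegral.integral_eq_sub_of_hasDerivAt (a := 0) (b := 1)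
    (fun t _ => hd t) (hc.intervalIntegrable 0 1)
  rw [integral_Icc_eq_integral_Ioc, ← intervalIntegral.integral_of_le zero_le_one, h]
  simp only [one_smul, zero_smul, sub_zero]
  ring

/-- w x - w (x - z) = int_0^1 Dw(x - t z) z dt, multiply by ρ z, Fubini, moll_test. -/
theorem moll_id {Φ ρ : E → ℝ} (hk : Ker Φ ρ) {w : E → ℝ} {g : E → E} (hw : ContDiff ℝ 1 w)
    (hg : Continuous g) (hwk : WDiv (ball 0 4) fun x => ∇ w x - g x) {x : E} (hx : ‖x‖ ≤ 1) :
    w x - ∫ z, w (x - z) * ρ z =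
      ∫ t in Icc (0 : ℝ) 1, ∫ z in closedBall (0 : E) 1, ρ z * ⟪g (x - t • z), z⟫_ℝ := by
  have hρ := hk.cρ.continuous
  have hwc := hw.continuous
  have hG := grad_cont hw
  have h0 : ∀ z, z ∉ closedBall (0 : E) 1 → ρ z = 0 := fun z hz =>
    hk.zρ z (by rw [mem_closedBall_zero_iff, not_le] at hz; exact hz.le)
  have hK := isCompact_closedBall (0 : E) 1
  have e1 : ∫ z in closedBall (0 : E) 1, ρ z = 1 := by
    rw [setIntegral_eq_integral_of_forall_compl_eq_zero h0, hk.one]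
  have e2 : ∫ z, w (x - z) * ρ z = ∫ z in closedBall (0 : E) 1, w (x - z) * ρ z :=
    (setIntegral_eq_integral_of_forall_compl_eq_zero fun z hz => by rw [h0 z hz, mul_zero]).symm
  have e3 : w x - ∫ z in closedBall (0 : E) 1, w (x - z) * ρ z =
      ∫ z in closedBall (0 : E) 1, ∫ t in Icc (0 : ℝ) 1, ρ z * ⟪∇ w (x - t • z), z⟫_ℝ := by
    have i1 : IntegrableOn (fun z => w x * ρ z) (closedBall (0 : E) 1) :=
      (Continuous.continuousOn (by fun_prop)).integrableOn_compact hK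
    have i2 : IntegrableOn (fun z => w (x - z) * ρ z) (closedBall (0 : E) 1) :=
      (Continuous.continuousOn (by fun_prop)).integrableOn_compact hK
    have e : w x = ∫ z in closedBall (0 : E) 1, w x * ρ z := by
      rw [integral_const_mul, e1, mul_one]
    rw [e, ← integral_sub i1 i2]
    refine integral_congr_ae (Eventually.of_forall fun z => ?_)
    simp only [integral_const_mul, ← moll_ftc hw]
    ring
  have hc : Continuous fun p : E × ℝ => ρ p.1 * ⟪∇ w (x - p.2 • p.1), p.1⟫_ℝ :=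
    (hρ.comp continuous_fst).mul ((hG.comp (by fun_prop)).inner continuous_fst)
  have hi : Integrable (Function.uncurry fun (z : E) (t : ℝ) => ρ z * ⟪∇ w (x - t • z), z⟫_ℝ)
      ((volume.restrict (closedBall (0 : E) 1)).prod (volume.restrict (Icc (0 : ℝ) 1))) := by
    rw [Measure.prod_restrict]
    exact hc.continuousOn.integrableOn_compact (hK.prod isCompact_Icc)
  rw [e2, e3, integral_integral_swap hi, integral_Icc_eq_integral_Ioc,
    integral_Icc_eq_integral_Ioc]
  refine setIntegral_congr_fun measurableSet_Ioc fun t ht => ?_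
  have h1 := moll_test hk hwk hx ht.1 ht.2
  rw [← setIntegral_eq_integral_of_forall_compl_eq_zero (s := closedBall (0 : E) 1)
    (fun z hz => by rw [h0 z hz, zero_mul])] at h1
  have i1 : IntegrableOn (fun z => ρ z * ⟪∇ w (x - t • z), z⟫_ℝ) (closedBall (0 : E) 1) :=
    (Continuous.continuousOn
      (hρ.mul ((hG.comp (by fun_prop)).inner continuous_id))).integrableOn_compact hK
  have i2 : IntegrableOn (fun z => ρ z * ⟪g (x - t • z), z⟫_ℝ) (closedBall (0 : E) 1) :=
    (Continuous.continuousOn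
      (hρ.mul ((hg.comp (by fun_prop)).inner continuous_id))).integrableOn_compact hK
  simp only [inner_sub_left, mul_sub] at h1
  rw [integral_sub i1 i2] at h1
  exact sub_eq_zero.mp h1

theorem moll_L2 {Φ ρ : E → ℝ} (hk : Ker Φ ρ) : ∃ C : ℝ, 0 < C ∧ ∀ (w : E → ℝ) (g : E → E),
    ContDiff ℝ 1 w → Continuous g → WDiv (ball 0 4) (fun x => ∇ w x - g x) →
    ∫ x in closedBall (0 : E) 1, (w x - ∫ z, w (x - z) * ρ z) ^ 2 ≤
      C * ∫ x in closedBall (0 : E) 2, ‖g x‖ ^ 2 := by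
  obtain ⟨C, hC, h⟩ := moll_est (E := E) hk.cρ.continuous
  refine ⟨C, hC, fun w g hw hg hwk => le_trans (le_of_eq ?_) (h g hg)⟩
  refine setIntegral_congr_fun measurableSet_closedBall fun x hx => ?_
  rw [moll_id hk hw hg hwk (by simpa only [mem_closedBall, dist_zero_right] using hx)]

end Moll

section Cacc

theorem cacc_alg {z a w B M P Q : ℝ} (hz0 : 0 ≤ z) (hz1 : z ≤ 1) (hB : 0 ≤ B)
    (hP : a ^ 2 / 2 - a * M ≤ P) (hQ : |Q| ≤ B * (3 / 2 * a + |M|)) :
    z ^ 2 * a ^ 2 / 4 ≤ (z ^ 2 * P + w * (2 * z * Q)) + (19 * B ^ 2 * w ^ 2 + 3 * M ^ 2) := by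
  have h1 : z ^ 2 * (a ^ 2 / 2 - a * M) ≤ z ^ 2 * P := by gcongr
  have h2 : -(2 * z * |w| * (B * (3 / 2 * a + |M|))) ≤ w * (2 * z * Q) := by
    have : |w * (2 * z * Q)| ≤ 2 * z * |w| * (B * (3 / 2 * a + |M|)) := by
      rw [abs_mul, abs_mul, abs_of_nonneg (by positivity : 0 ≤ 2 * z)]
      calc |w| * (2 * z * |Q|) = 2 * z * |w| * |Q| := by ring
        _ ≤ _ := by gcongr
    linarith only [neg_abs_le (w * (2 * z * Q)), this]
  have hz2 : z ^ 2 ≤ 1 := by nlinarith only [hz0, hz1]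
  have h3 : z ^ 2 * (a * M) ≤ z ^ 2 * a ^ 2 / 8 + 2 * M ^ 2 := by
    have : z ^ 2 * (a * M) ≤ z ^ 2 * (a ^ 2 / 8 + 2 * M ^ 2) := by
      gcongr; linarith only [sq_nonneg (a - 4 * M)]
    nlinarith only [hz2, this]
  have h4 : 3 * (z * a) * (B * |w|) ≤ (z * a) ^ 2 / 8 + 18 * (B * |w|) ^ 2 := by
    linarith only [sq_nonneg (z * a - 12 * (B * |w|))]
  have h5 : 2 * (B * |w|) * (z * |M|) ≤ (B * |w|) ^ 2 + (z * |M|) ^ 2 := by
    linarith only [sq_nonneg (B * |w| - z * |M|)]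
  have h6 : (z * |M|) ^ 2 ≤ M ^ 2 := by
    rw [mul_pow, sq_abs]; nlinarith only [hz2]
  have h7 : (B * |w|) ^ 2 = B ^ 2 * w ^ 2 := by rw [mul_pow, sq_abs]
  linarith only [h1, h2, h3, h4, h5, h6, h7]

/-- Test with ζ^2 w, ζ a ContDiffBump 0 with radii 2 and 3; pointwise
ζ^2 |grad w|^2 / 4 ≤ integrand + C (w^2 + M^2); integrate over closedBall 0 4. -/
theorem cacc : ∃ C : ℝ, 0 < C ∧ ∀ (w : E → ℝ) (g : E → E) (M : ℝ), ContDiff ℝ 1 w → Continuous g →
    WDiv (ball 0 4) (fun x => ∇ w x - g x) →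
    (∀ x ∈ ball (0 : E) 4, ‖g x‖ ≤ 1 / 2 * ‖∇ w x‖ + M) →
    ∫ x in closedBall (0 : E) 2, ‖∇ w x‖ ^ 2 ≤ C * (NN w + M ^ 2) := by
  let ζ : ContDiffBump (0 : E) := ⟨2, 3, by norm_num, by norm_num⟩
  have hζ : ContDiff ℝ 1 (ζ : E → ℝ) := ζ.contDiff
  obtain ⟨B, hB⟩ := (hζ.continuous_fderiv one_ne_zero).bounded_above_of_compact_support
    (ζ.hasCompactSupport.fderiv (𝕜 := ℝ))
  have hB0 : 0 ≤ B := (norm_nonneg _).trans (hB 0)
  set v : ℝ := (volume : Measure E).real (closedBall 0 4) with hv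
  have hv0 : 0 ≤ v := measureReal_nonneg
  refine ⟨4 * (19 * B ^ 2 + 3 * v + 1), by positivity, fun w g M hw hg hwk hb => ?_⟩
  have hφ : ContDiff ℝ 1 fun x => ζ x ^ 2 * w x := (hζ.pow 2).mul hw
  have hsupp : Function.support (fun x => ζ x ^ 2 * w x) ⊆ closedBall (0 : E) 3 := by
    intro x hx
    have h1 : ζ x ≠ 0 := fun h0 => hx (by simp [h0])
    have h2 : x ∈ Function.support (ζ : E → ℝ) := h1
    rw [ζ.support_eq] at h2
    exact ball_subset_closedBall h2
  have hts : tsupport (fun x => ζ x ^ 2 * w x) ⊆ closedBall (0 : E) 3 :=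
    closure_minimal hsupp isClosed_closedBall
  have h0 := hwk _ hφ (HasCompactSupport.of_support_subset_isCompact (isCompact_closedBall _ _) hsupp)
    (hts.trans (closedBall_subset_ball (by norm_num)))
  have hI : ∀ x, fderiv ℝ (fun x => ζ x ^ 2 * w x) x (∇ w x - g x) =
      ζ x ^ 2 * fderiv ℝ w x (∇ w x - g x) + w x * (2 * ζ x * fderiv ℝ ζ x (∇ w x - g x)) := by
    intro x
    have h1 := (hζ.differentiable one_ne_zero x).hasFDerivAt
    have h2 := (hw.differentiable one_ne_zero x).hasFDerivAt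
    rw [((h1.pow 2).fun_mul h2).fderiv]
    simp
  simp_rw [hI] at h0
  set I : E → ℝ := fun x =>
    ζ x ^ 2 * fderiv ℝ w x (∇ w x - g x) + w x * (2 * ζ x * fderiv ℝ ζ x (∇ w x - g x)) with hIdef
  have hz : ∀ x : E, x ∉ ball (0 : E) 4 → ζ x = 0 := fun x hx =>
    ζ.zero_of_le_dist (by simp only [mem_ball, not_lt] at hx; change (3 : ℝ) ≤ _; linarith)
  have hgc := grad_cont hw
  have hIc : Continuous I := by
    have h1 := hw.continuous_fderiv one_ne_zero
    have h2 := hζ.continuous_fderiv one_ne_zero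
    have h3 := hζ.continuous
    have h4 := hw.continuous
    exact ((h3.pow 2).mul (h1.clm_apply (hgc.sub hg))).add
      (h4.mul ((continuous_const.mul h3).mul (h2.clm_apply (hgc.sub hg))))
  have hI4 : ∫ x in closedBall (0 : E) 4, I x = 0 := by
    rw [setIntegral_eq_integral_of_forall_compl_eq_zero, h0]
    intro x hx
    simp [hIdef, hz x fun hh => hx (ball_subset_closedBall hh)]
  have hpt : ∀ x : E, ζ x ^ 2 * ‖∇ w x‖ ^ 2 / 4 ≤ I x + (19 * B ^ 2 * w x ^ 2 + 3 * M ^ 2) := by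
    intro x
    by_cases hx : x ∈ ball (0 : E) 4
    · have hbx := hb x hx
      refine cacc_alg ζ.nonneg ζ.le_one hB0 ?_ ?_
      · rw [← inner_gradient_left, inner_sub_right, real_inner_self_eq_norm_sq]
        have h1 := real_inner_le_norm (∇ w x) (g x)
        linarith only [mul_le_mul_of_nonneg_left hbx (norm_nonneg (∇ w x)), h1]
      · rw [← Real.norm_eq_abs]
        refine ((fderiv ℝ ζ x).le_opNorm _).trans (mul_le_mul (hB x) ?_ (norm_nonneg _) hB0)
        linarith [norm_sub_le (∇ w x) (g x), le_abs_self M]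
    · simp only [hIdef, hz x hx]
      have : 0 ≤ 19 * B ^ 2 * w x ^ 2 + 3 * M ^ 2 := by positivity
      simpa only [ne_eq, OfNat.ofNat_ne_zero, not_false_eq_true, zero_pow, zero_mul, zero_div, map_sub, mul_zero, add_zero, zero_add, ge_iff_le] using this
  have hK : IsCompact (closedBall (0 : E) 4) := isCompact_closedBall _ _
  have hc1 : Continuous fun x => ζ x ^ 2 * ‖∇ w x‖ ^ 2 := (hζ.continuous.pow 2).mul (hgc.norm.pow 2)
  have hw2 : IntegrableOn (fun x => w x ^ 2) (closedBall (0 : E) 4) :=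
    (hw.continuous.pow 2).continuousOn.integrableOn_compact hK
  have hM2 : IntegrableOn (fun _ : E => 3 * M ^ 2) (closedBall (0 : E) 4) :=
    continuous_const.continuousOn.integrableOn_compact hK
  have hIi : IntegrableOn I (closedBall (0 : E) 4) := hIc.continuousOn.integrableOn_compact hK
  have h1 : ∫ x in closedBall (0 : E) 2, ‖∇ w x‖ ^ 2 ≤
      ∫ x in closedBall (0 : E) 4, ζ x ^ 2 * ‖∇ w x‖ ^ 2 := by
    calc ∫ x in closedBall (0 : E) 2, ‖∇ w x‖ ^ 2
        = ∫ x in closedBall (0 : E) 2, ζ x ^ 2 * ‖∇ w x‖ ^ 2 := by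
          refine setIntegral_congr_fun measurableSet_closedBall fun x hx => ?_
          simp only [ζ.one_of_mem_closedBall hx, one_pow, one_mul]
      _ ≤ _ := setIntegral_mono_set (hc1.continuousOn.integrableOn_compact hK)
          (Eventually.of_forall fun x => by simp only [Pi.zero_apply]; positivity)
          (closedBall_subset_closedBall (by norm_num)).eventuallyLE
  have h2 : ∫ x in closedBall (0 : E) 4, ζ x ^ 2 * ‖∇ w x‖ ^ 2 / 4 ≤
      ∫ x in closedBall (0 : E) 4, (I x + (19 * B ^ 2 * w x ^ 2 + 3 * M ^ 2)) :=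
    integral_mono ((hc1.continuousOn.integrableOn_compact hK).div_const 4)
      (hIi.add ((hw2.const_mul _).add hM2)) hpt
  have hs2 : IntegrableOn (fun x => 19 * B ^ 2 * w x ^ 2 + 3 * M ^ 2) (closedBall (0 : E) 4) :=
    (hw2.const_mul _).add hM2
  rw [integral_div, integral_add hIi hs2, hI4,
    integral_add (hw2.const_mul _) hM2, integral_const_mul, setIntegral_const, ← hv, smul_eq_mul] at h2
  have hN : 0 ≤ NN w := integral_nonneg fun x => sq_nonneg _
  change _ ≤ 0 + (19 * B ^ 2 * NN w + _) at h2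
  linarith only [mul_nonneg hv0 hN, mul_nonneg (sq_nonneg B) (sq_nonneg M), sq_nonneg M, h1, hN, h2]

end Cacc

section Step

theorem step_cont {Φ ρ : E → ℝ} (hk : Ker Φ ρ) {w : E → ℝ} (hw : Continuous w) :
    Continuous fun x => ∫ z, w (x - z) * ρ z := by
  have h : ∀ x, ∫ z, w (x - z) * ρ z = ∫ z in closedBall (0 : E) 1, w (x - z) * ρ z := fun x => by
    refine (setIntegral_eq_integral_of_forall_compl_eq_zero fun z hz => ?_).symm
    rw [hk.zρ z (by simpa only [] using le_of_lt (by simpa only [mem_closedBall, dist_zero_right, not_le] using hz)), mul_zero]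
  simp only [h]
  have hρ := hk.cρ.continuous
  exact continuous_parametric_integral_of_continuous (by fun_prop) (isCompact_closedBall _ _)

theorem step_g : ∃ K : ℝ, 0 < K ∧ ∀ (w : E → ℝ) (g : E → E) (δ L A : ℝ), 0 ≤ δ → δ ≤ 1 / 2 →
    0 ≤ L → 0 ≤ A → ContDiff ℝ 1 w → Continuous g → WDiv (ball 0 4) (fun x => ∇ w x - g x) →
    (∀ x ∈ ball (0 : E) 4, ‖g x‖ ≤ δ * ‖∇ w x‖ + 2 * L) → NN w ≤ A ^ 2 →
    ∫ x in closedBall (0 : E) 2, ‖g x‖ ^ 2 ≤ K * (δ * A + L) ^ 2 := by
  obtain ⟨C, hC, h⟩ := cacc (E := E)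
  have hV : 0 ≤ (volume : Measure E).real (closedBall 0 2) := measureReal_nonneg
  refine ⟨2 * C + 8 * (volume : Measure E).real (closedBall 0 2), by positivity, ?_⟩
  intro w g δ L A h0 h1 hL hA hw hg hwk hb hN
  have hG := grad_cont hw
  have h2 := h w g (2 * L) hw hg hwk fun x hx =>
    (hb x hx).trans (by gcongr)
  have i1 : IntegrableOn (fun x => ‖∇ w x‖ ^ 2) (closedBall (0 : E) 2) :=
    (by fun_prop : Continuous fun x => ‖∇ w x‖ ^ 2).continuousOn.integrableOn_compact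
      (isCompact_closedBall _ _)
  have i2 : IntegrableOn (fun _ : E => 8 * L ^ 2) (closedBall (0 : E) 2) :=
    continuous_const.continuousOn.integrableOn_compact (isCompact_closedBall _ _)
  have h3 : ∫ x in closedBall (0 : E) 2, ‖g x‖ ^ 2 ≤
      ∫ x in closedBall (0 : E) 2, (2 * δ ^ 2 * ‖∇ w x‖ ^ 2 + 8 * L ^ 2) := by
    refine setIntegral_mono_on ?_ ((i1.const_mul _).add i2) measurableSet_closedBall fun x hx => ?_
    · exact (by fun_prop : Continuous fun x => ‖g x‖ ^ 2).continuousOn.integrableOn_compact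
        (isCompact_closedBall _ _)
    · have h4 := hb x (closedBall_subset_ball (by norm_num) hx)
      have h5 := pow_le_pow_left₀ (norm_nonneg _) h4 2
      linarith only [sq_nonneg (δ * ‖∇ w x‖ - 2 * L), h5]
  rw [integral_add (i1.const_mul _) i2, integral_const_mul, setIntegral_const, smul_eq_mul] at h3
  refine h3.trans ?_
  generalize (volume : Measure E).real (closedBall 0 2) = V at hV ⊢
  generalize (∫ x in closedBall (0 : E) 2, ‖∇ w x‖ ^ 2) = I at h2 ⊢
  have h6 : I ≤ C * (A ^ 2 + (2 * L) ^ 2) := h2.trans (by gcongr)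
  have h7 : δ ^ 2 ≤ 1 / 4 := by nlinarith only [h0, h1]
  have h8 : 2 * δ ^ 2 * I ≤ 2 * δ ^ 2 * (C * (A ^ 2 + (2 * L) ^ 2)) := by gcongr
  have h9 : δ ^ 2 * (C * L ^ 2) ≤ 1 / 4 * (C * L ^ 2) := by gcongr
  have h10 : 0 ≤ C * (δ * A * L) := by positivity
  have h11 : 0 ≤ V * (δ * A * L) := by positivity
  have h12 : 0 ≤ V * (δ * A) ^ 2 := by positivity
  linarith only [h8, h9, h10, h11, h12]

theorem step_arith {C K₁ K₂ T X Y N : ℝ} (h1 : 1 ≤ C) (hK₁ : K₁ ≤ C) (hK₂ : K₂ ≤ C) (hT : 1 ≤ T)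
    (hX : 0 ≤ X) (hY : 0 ≤ Y) (hN : N ≤ T * (K₁ * X ^ 2) + K₂ * Y ^ 2) :
    N ≤ (C * (Y + T * X)) ^ 2 := by
  have h2 : C ≤ C ^ 2 := by nlinarith only [h1]
  have h3 : T ≤ T ^ 2 := by nlinarith only [hT]
  have h4 : T * (K₁ * X ^ 2) ≤ T ^ 2 * (C ^ 2 * X ^ 2) := by
    calc T * (K₁ * X ^ 2) ≤ T * (C ^ 2 * X ^ 2) := by
          refine mul_le_mul_of_nonneg_left ?_ (by linarith)
          exact mul_le_mul_of_nonneg_right (hK₁.trans h2) (sq_nonneg _)
      _ ≤ _ := mul_le_mul_of_nonneg_right h3 (by positivity)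
  have h5 : K₂ * Y ^ 2 ≤ C ^ 2 * Y ^ 2 := mul_le_mul_of_nonneg_right (hK₂.trans h2) (sq_nonneg _)
  have h6 : 0 ≤ C ^ 2 * (Y * (T * X)) := by positivity
  linarith only [hN, h4, h5, h6]

/-- Use h.bd 0 _ 0 to get c, replace g by g - c (wdiv_const, WDiv.lin), then
|g - c| ≤ δ |grad w| + 2 L; cacc, moll_L2, moll_taylor, NN_resc;
(w - l)^2 ≤ 2 (w - w1)^2 + 2 (w1 - l)^2 on closedBall 0 (4θ), volume of that ball is
θ^d times the volume of closedBall 0 4 (Measure.addHaar_closedBall). -/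
theorem step : ∃ C : ℝ, 0 < C ∧ ∀ (w : E → ℝ) (g : E → E) (δ L κ A θ : ℝ), 0 ≤ δ → δ ≤ 1 / 2 →
    0 ≤ L → 0 ≤ A → 0 < θ → θ ≤ 1 / 4 → Pert w g δ L κ → NN w ≤ A ^ 2 →
    ∃ (a : ℝ) (p : E), ‖p‖ ≤ C * A ∧ NN (resc 0 θ a p w) ≤
      (C * (θ * A + (θ ^ (Module.finrank ℝ E + 2))⁻¹ * (δ * A + L))) ^ 2 := by
  obtain ⟨Φ, ρ, hk⟩ := exists_ker (E := E)
  obtain ⟨K, hK, hKg⟩ := step_g (E := E)
  obtain ⟨C₂, hC₂, h₂⟩ := moll_L2 hk
  obtain ⟨C₃, hC₃, h₃⟩ := moll_taylor hk
  have hV : 0 ≤ (volume : Measure E).real (closedBall 0 4) := measureReal_nonneg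
  obtain ⟨V, hVe⟩ : ∃ V, V = (volume : Measure E).real (closedBall 0 4) := ⟨_, rfl⟩
  rw [← hVe] at hV
  have p1 : 0 ≤ 2 * C₂ * K := by positivity
  have p2 : 0 ≤ 512 * C₃ ^ 2 * V := by positivity
  refine ⟨1 + C₃ + 2 * C₂ * K + 512 * C₃ ^ 2 * V, by positivity, ?_⟩
  intro w g δ L κ A θ h0 h1 hL hA hθ hθ1 h hN
  obtain ⟨c, hc⟩ := h.bd 0 (mem_ball_self (by norm_num)) 0
  have hw := h.cd.continuous
  have hG := grad_cont h.cd
  have hg : Continuous fun x => g x - c := h.cg.sub continuous_const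
  have hwk : WDiv (ball 0 4) fun x => ∇ w x - (g x - c) := by
    have := WDiv.lin isOpen_ball (hG.sub h.cg).continuousOn continuousOn_const h.wk
      (wdiv_const (ball (0 : E) 4) c) 1 1
    refine this.congr fun x _ => ?_
    simp only [one_smul, Pi.sub_apply]
    abel
  have hb : ∀ x ∈ ball (0 : E) 4, ‖g x - c‖ ≤ δ * ‖∇ w x‖ + 2 * L := fun x hx => by
    have h4 := hc x hx
    simp only [sub_zero, norm_zero, mul_zero, add_zero] at h4
    have h5 : √‖x‖ ≤ 2 := Real.sqrt_le_iff.2 ⟨by norm_num, by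
      have : ‖x‖ < 4 := by simpa using hx
      linarith only [this]⟩
    exact h4.trans (by gcongr)
  have e1 := (h₂ w _ h.cd hg hwk).trans
    (mul_le_mul_of_nonneg_left (hKg w _ δ L A h0 h1 hL hA h.cd hg hwk hb hN) hC₂.le)
  obtain ⟨a, p, hp, ht⟩ := h₃ w A hw hA hN
  refine ⟨a, p, hp.trans (mul_le_mul_of_nonneg_right (by linarith only [p1, p2, hθ, hθ1]) hA), ?_⟩
  have hw1 := step_cont hk hw
  generalize hW : (fun x => ∫ z, w (x - z) * ρ z) = W at hw1
  have hW' : ∀ x, ∫ z, w (x - z) * ρ z = W x := fun x => congrFun hW x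
  simp only [hW'] at e1 ht
  have hsub : closedBall (0 : E) (4 * θ) ⊆ closedBall 0 1 := closedBall_subset_closedBall (by linarith only [hθ1])
  have i1 : IntegrableOn (fun x => (w x - W x) ^ 2) (closedBall (0 : E) 1) :=
    (by fun_prop : Continuous fun x => (w x - W x) ^ 2).continuousOn.integrableOn_compact
      (isCompact_closedBall _ _)
  have i2 : IntegrableOn (fun _ : E => 2 * (C₃ * A * (4 * θ) ^ 2) ^ 2) (closedBall (0 : E) (4 * θ)) :=
    continuous_const.continuousOn.integrableOn_compact (isCompact_closedBall _ _)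
  have e2 : ∫ x in closedBall (0 : E) (4 * θ), (w x - a - ⟪p, x - 0⟫_ℝ) ^ 2 ≤
      ∫ x in closedBall (0 : E) (4 * θ), (2 * (w x - W x) ^ 2 + 2 * (C₃ * A * (4 * θ) ^ 2) ^ 2) := by
    refine setIntegral_mono_on ?_ (((i1.mono_set hsub).const_mul _).add i2) measurableSet_closedBall
      fun x hx => ?_
    · exact (by fun_prop : Continuous fun x => (w x - a - ⟪p, x - 0⟫_ℝ) ^ 2).continuousOn.integrableOn_compact
        (isCompact_closedBall _ _)
    · have hx' : ‖x‖ ≤ 4 * θ := by simpa only [mem_closedBall, dist_zero_right] using hx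
      have h4 : |W x - a - ⟪p, x⟫_ℝ| ≤ C₃ * A * (4 * θ) ^ 2 := (ht x (hsub hx)).trans (by gcongr)
      have h5 := pow_le_pow_left₀ (abs_nonneg _) h4 2
      rw [sq_abs] at h5
      rw [sub_zero]
      linarith only [sq_nonneg (w x - W x - (W x - a - ⟪p, x⟫_ℝ)), h5]
  have e3 : ∫ x in closedBall (0 : E) (4 * θ), (w x - W x) ^ 2 ≤
      ∫ x in closedBall (0 : E) 1, (w x - W x) ^ 2 :=
    setIntegral_mono_set i1 (Eventually.of_forall fun x => sq_nonneg _) hsub.eventuallyLE
  have e4 : (volume : Measure E).real (closedBall 0 (4 * θ)) = θ ^ Module.finrank ℝ E * V := by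
    rw [hVe, mul_comm 4 θ, measureReal_def, measureReal_def,
      Measure.addHaar_closedBall_mul_of_pos _ _ hθ, ENNReal.toReal_mul,
      ENNReal.toReal_ofReal (by positivity)]
  rw [integral_add ((i1.mono_set hsub).const_mul _) i2, integral_const_mul, setIntegral_const,
    smul_eq_mul, e4] at e2
  have hT : 1 ≤ (θ ^ (Module.finrank ℝ E + 2))⁻¹ :=
    (one_le_inv₀ (by positivity)).2 (pow_le_one₀ hθ.le (by linarith only [hθ, hθ1]))
  refine step_arith (K₁ := 2 * C₂ * K) (K₂ := 512 * C₃ ^ 2 * V) (by linarith only [hC₃, p1, p2]) (by linarith only [hC₃, p2, hθ, hθ1])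
    (by linarith only [hC₃, p1, hθ, hθ1]) hT (by positivity) (by positivity) ?_
  rw [NN_resc w 0 p hθ a]
  have e5 : 512 * C₃ ^ 2 * V * (θ * A) ^ 2 = (θ ^ (Module.finrank ℝ E + 2))⁻¹ *
      (θ ^ Module.finrank ℝ E * V * (2 * (C₃ * A * (4 * θ) ^ 2) ^ 2)) := by
    field_simp
    ring
  rw [e5, ← mul_add]
  refine mul_le_mul_of_nonneg_left (e2.trans ?_) (by positivity)
  linarith only [e1, e3]

end Step

section Dec

/-- For y', q use h.bd (y + t • y') _ (p + q) and the constant c - p. -/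
theorem Pert.resc {w : E → ℝ} {g : E → E} {δ L κ : ℝ} (h : Pert w g δ L κ) (hκ : 0 ≤ κ)
    (y p : E) (a : ℝ) {t : ℝ} (ht : 0 < t) (hy : ‖y‖ + 4 * t ≤ 4) :
    Pert (resc y t a p w) (fun x => g (y + t • x) - p) δ (√t * (L + κ * ‖p‖)) (√t * κ) := by
  have hV : ∀ x ∈ ball (0 : E) 4, y + t • x ∈ ball (0 : E) 4 := by
    intro x hx
    rw [mem_ball_zero_iff] at hx ⊢
    have h1 := norm_add_le y (t • x)
    rw [norm_smul, Real.norm_of_nonneg ht.le] at h1
    nlinarith only [ht, hy, hx, h1]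
  have hgr : ∀ x : E, ∇ (Pool.Agent.MP_5cfeaf_gt.G.resc y t a p w) x = ∇ w (y + t • x) - p :=
    fun x => grad_resc ht.ne' (h.cd.differentiable (by simp) _)
  refine ⟨contDiff_resc h.cd y p t a, ?_, ?_, ?_⟩
  · exact (h.cg.comp (continuous_const.add (continuous_id.const_smul t))).sub continuous_const
  · have h1 := h.wk.comp y ht.ne' hV
    have h2 : (fun x => ∇ (Pool.Agent.MP_5cfeaf_gt.G.resc y t a p w) x - (g (y + t • x) - p)) =
        fun x => ∇ w (y + t • x) - g (y + t • x) := by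
      funext x
      rw [hgr]
      abel
    rw [h2]
    exact h1
  · intro y' hy' q
    obtain ⟨c, hc⟩ := h.bd (y + t • y') (hV y' hy') (p + q)
    refine ⟨c - p, fun x hx => ?_⟩
    have h1 := hc (y + t • x) (hV x hx)
    have e1 : g (y + t • x) - p - (c - p) = g (y + t • x) - c := by abel
    have e2 : ∇ w (y + t • x) - p - q = ∇ w (y + t • x) - (p + q) := by abel
    have e3 : y + t • x - (y + t • y') = t • (x - y') := by
      rw [smul_sub]
      abel
    rw [e3, norm_smul, Real.norm_of_nonneg ht.le, Real.sqrt_mul ht.le] at h1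
    rw [hgr, e1, e2]
    refine h1.trans (add_le_add le_rfl ?_)
    have h2 : κ * ‖p + q‖ ≤ κ * (‖p‖ + ‖q‖) := mul_le_mul_of_nonneg_left (norm_add_le p q) hκ
    have h3 : 0 ≤ √t * √‖x - y'‖ := by positivity
    calc √t * √‖x - y'‖ * (L + κ * ‖p + q‖) ≤ √t * √‖x - y'‖ * (L + κ * (‖p‖ + ‖q‖)) :=
          mul_le_mul_of_nonneg_left (by linarith only [h2]) h3
      _ = √‖x - y'‖ * (√t * (L + κ * ‖p‖) + √t * κ * ‖q‖) := by ring

/-- The invariant of the iteration. -/
def Good (δ C μ : ℝ) (w : E → ℝ) (g : E → E) (N : ℝ) : Prop :=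
  ∃ L κ : ℝ, 0 ≤ L ∧ 0 ≤ κ ∧ Pert w g δ L κ ∧ NN w ≤ N ^ 2 ∧ L + 2 * κ * C * N ≤ μ * N

/-- The decay property. -/
structure Dec (E : Type) [NormedAddCommGroup E] [InnerProductSpace ℝ E] [FiniteDimensional ℝ E]
    [MeasurableSpace E] [BorelSpace E] (δ θ C μ : ℝ) : Prop where
  θ0 : 0 < θ
  θ1 : θ ≤ 1 / 4
  C0 : 0 < C
  μ0 : 0 < μ
  dec : ∀ (w : E → ℝ) (g : E → E) (N : ℝ), 0 ≤ N → Good δ C μ w g N → ∃ (a : ℝ) (p : E),
    ‖p‖ ≤ C * N ∧ Good δ C μ (resc 0 θ a p w) (fun x => g (0 + θ • x) - p) (√θ * N)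

/-- C from step; θ with C √θ ≤ 1/3; δ and μ with C θ^-(d+2) δ ≤ √θ/3, C θ^-(d+2) μ ≤ √θ/3.
New data L' = √θ (L + κ |p|), κ' = √θ κ; use √θ ≤ 1/2. -/
theorem exists_dec : ∃ δ θ C μ : ℝ, 0 < δ ∧ Dec E δ θ C μ := by
  obtain ⟨C, hC, hstep⟩ := step (E := E)
  obtain ⟨s, hs0, hs1, hs2⟩ : ∃ s : ℝ, 0 < s ∧ s ≤ 1 / 2 ∧ C * s ≤ 1 / 3 := by
    refine ⟨min (1 / 2) (1 / (3 * C)), by positivity, min_le_left _ _, ?_⟩
    calc C * min (1 / 2) (1 / (3 * C)) ≤ C * (1 / (3 * C)) :=
          mul_le_mul_of_nonneg_left (min_le_right _ _) hC.le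
      _ = 1 / 3 := by field_simp
  have hθ0 : 0 < s ^ 2 := by positivity
  have hθ1 : s ^ 2 ≤ 1 / 4 := by nlinarith only [hs0, hs1]
  have hsq : √(s ^ 2) = s := Real.sqrt_sq hs0.le
  set T : ℝ := ((s ^ 2) ^ (Module.finrank ℝ E + 2))⁻¹ with hT
  have hT0 : 0 < T := by positivity
  set μ : ℝ := s / (3 * C * T) with hμ
  have hμ0 : 0 < μ := by positivity
  have hμ1 : C * T * μ = s / 3 := by
    rw [hμ]
    field_simp
  have hδ0 : 0 < min (1 / 2) μ := by positivity
  refine ⟨min (1 / 2) μ, s ^ 2, C, μ, hδ0, hθ0, hθ1, hC, hμ0, ?_⟩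
  rintro w g N hN ⟨L, κ, hL, hκ, hP, hNN, hLκ⟩
  obtain ⟨a, p, hp, hr⟩ := hstep w g _ L κ N (s ^ 2) hδ0.le (min_le_left _ _) hL hN hθ0 hθ1 hP hNN
  have hκCN : 0 ≤ κ * C * N := by positivity
  have hLμ : L ≤ μ * N := by linarith only [hLκ, hκCN]
  refine ⟨a, p, hp, √(s ^ 2) * (L + κ * ‖p‖), √(s ^ 2) * κ, by positivity, by positivity,
    hP.resc hκ 0 p a hθ0 (by rw [norm_zero]; linarith only [hθ0, hθ1]), hr.trans ?_, ?_⟩
  · rw [hsq, ← hT]
    refine pow_le_pow_left₀ (by positivity) ?_ 2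
    have h1 : C * (s ^ 2 * N) ≤ s / 3 * N := by
      have : C * s * (s * N) ≤ 1 / 3 * (s * N) := mul_le_mul_of_nonneg_right hs2 (by positivity)
      linarith only [this]
    have h2 : min (1 / 2) μ * N + L ≤ 2 * (μ * N) := by
      have : min (1 / 2) μ * N ≤ μ * N := mul_le_mul_of_nonneg_right (min_le_right _ _) hN
      linarith only [hLκ, hκCN, this]
    have h3 : C * T * (min (1 / 2) μ * N + L) ≤ C * T * (2 * (μ * N)) :=
      mul_le_mul_of_nonneg_left h2 (by positivity)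
    have h4 : C * T * (2 * (μ * N)) = 2 * (s / 3) * N := by
      rw [← hμ1]
      ring
    calc C * (s ^ 2 * N + T * (min (1 / 2) μ * N + L))
        = C * (s ^ 2 * N) + C * T * (min (1 / 2) μ * N + L) := by ring
      _ ≤ s / 3 * N + 2 * (s / 3) * N := by linarith only [h1, h3, h4]
      _ = s * N := by ring
  · rw [hsq]
    have h1 : κ * ‖p‖ ≤ κ * (C * N) := mul_le_mul_of_nonneg_left hp hκ
    have h2 : 2 * s * (κ * C * N) ≤ 1 * (κ * C * N) :=
      mul_le_mul_of_nonneg_right (by linarith only [hs1]) hκCN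
    have h3 : L + κ * ‖p‖ + 2 * s * (κ * C * N) ≤ μ * N := by linarith only [hLκ, h1, h2]
    calc s * (L + κ * ‖p‖) + 2 * (s * κ) * C * (s * N)
        = s * (L + κ * ‖p‖ + 2 * s * (κ * C * N)) := by ring
      _ ≤ s * (μ * N) := mul_le_mul_of_nonneg_left h3 hs0.le
      _ = μ * (s * N) := by ring

end Dec

section Iter

theorem iter_sqrt {θ : ℝ} (h0 : 0 < θ) (h1 : θ ≤ 1 / 4) : 0 < √θ ∧ √θ ≤ 1 / 2 ∧ θ ≤ √θ := by
  have ha : 0 < √θ := Real.sqrt_pos.2 h0
  have hb : √θ ≤ 1 / 2 := Real.sqrt_le_iff.2 ⟨by norm_num, by linarith⟩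
  have hc : √θ * √θ = θ := Real.mul_self_sqrt h0.le
  exact ⟨ha, hb, by nlinarith only [ha, hb, hc]⟩

theorem Good.iter_cd {δ C μ : ℝ} {w : E → ℝ} {g : E → E} {N : ℝ} (hg : Good δ C μ w g N) :
    ContDiff ℝ 1 w := by
  obtain ⟨L, κ, -, -, hp, -, -⟩ := hg
  exact hp.cd

theorem Good.iter_NN {δ C μ : ℝ} {w : E → ℝ} {g : E → E} {N : ℝ} (hg : Good δ C μ w g N) :
    NN w ≤ N ^ 2 := by
  obtain ⟨L, κ, -, -, -, hp, -⟩ := hg
  exact hp

/-- Induction on k with resc_resc. -/
theorem Dec.iter {δ θ C μ : ℝ} (h : Dec E δ θ C μ) {w : E → ℝ} {g : E → E} {N : ℝ} (hN : 0 ≤ N)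
    (hg : Good δ C μ w g N) (k : ℕ) : ∃ (a : ℝ) (p : E), ‖p‖ ≤ 2 * C * N * (1 - √θ ^ k) ∧
      Good δ C μ (resc 0 (θ ^ k) a p w) (fun x => g (0 + θ ^ k • x) - p) (√θ ^ k * N) := by
  obtain ⟨hs0, hs1, -⟩ := iter_sqrt h.θ0 h.θ1
  have hC := h.C0
  induction k with
  | zero =>
    refine ⟨0, 0, by simp, ?_⟩
    have e1 : resc 0 (θ ^ 0) 0 0 w = w := by
      funext x
      simp [resc]
    have e2 : (fun x => g (0 + θ ^ 0 • x) - 0) = g := by
      funext x
      simp
    rw [e1, e2]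
    simpa using hg
  | succ k ih =>
    obtain ⟨a, p, hp, hk⟩ := ih
    have hsk : 0 < √θ ^ k := pow_pos hs0 k
    obtain ⟨a', p', hp', hk'⟩ := h.dec _ _ _ (by positivity) hk
    refine ⟨a + θ ^ k * a', p + p', ?_, ?_⟩
    · have h1 : ‖p + p'‖ ≤ ‖p‖ + ‖p'‖ := norm_add_le _ _
      have h2 : 0 ≤ C * N * √θ ^ k * (1 - 2 * √θ) :=
        mul_nonneg (by positivity) (by linarith)
      rw [pow_succ]
      linarith only [hp, hp', h1, h2]
    · rw [resc_resc w (pow_pos h.θ0 k).ne' h.θ0.ne'] at hk'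
      have e2 : (fun x => (fun x => g (0 + θ ^ k • x) - p) (0 + θ • x) - p') =
          fun x => g (0 + θ ^ (k + 1) • x) - (p + p') := by
        funext x
        simp only [zero_add, smul_smul, pow_succ, sub_sub]
      have e3 : √θ * (√θ ^ k * N) = √θ ^ (k + 1) * N := by ring
      rw [e2, e3, ← pow_succ] at hk'
      exact hk'

/-- Apply crude to resc 0 (θ^k) a p w, whose gradient is grad w (θ^k x) - p; let k tend to infinity
(continuity of grad w at 0). -/
theorem Dec.grad_zero {δ θ C μ : ℝ} (h : Dec E δ θ C μ) {w : E → ℝ} {g : E → E} {N : ℝ}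
    (hN : 0 ≤ N) (hg : Good δ C μ w g N) : ‖∇ w 0‖ ≤ 2 * C * N := by
  obtain ⟨hs0, hs1, hs2⟩ := iter_sqrt h.θ0 h.θ1
  have hC := h.C0
  obtain ⟨C0, hC0, hcr⟩ := crude (E := E)
  have hw := hg.iter_cd
  refine le_of_forall_pos_le_add fun ε hε => ?_
  have hε' : 0 < ε / (2 * C0) := by positivity
  obtain ⟨r, hr, hcont⟩ := Metric.continuousAt_iff.1 ((grad_cont hw).continuousAt (x := 0)) _ hε'
  obtain ⟨k, hk⟩ := exists_pow_lt_of_lt_one
    (lt_min hr (by positivity : 0 < ε / (2 * C0) / (N + 1))) (by linarith : √θ < 1)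
  obtain ⟨a, p, hp, hG⟩ := h.iter hN hg k
  have hθk : 0 < θ ^ k := pow_pos h.θ0 k
  have hsk : 0 < √θ ^ k := pow_pos hs0 k
  have hgr : ∀ x : E, ∇ (resc 0 (θ ^ k) a p w) x = ∇ w (0 + θ ^ k • x) - p := fun x =>
    grad_resc hθk.ne' (hw.differentiable one_ne_zero _)
  have h1 := hcr (resc 0 (θ ^ k) a p w) (ε / (2 * C0)) (√θ ^ k * N) hG.iter_cd (by positivity)
    (fun x hx => by
      rw [hgr, hgr, sub_sub_sub_cancel_right, smul_zero, add_zero, zero_add, ← dist_eq_norm]
      refine (hcont ?_).le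
      rw [dist_zero_right, norm_smul, Real.norm_of_nonneg hθk.le]
      have h2 : ‖x‖ ≤ 1 := mem_closedBall_zero_iff.1 hx
      have h3 : θ ^ k ≤ √θ ^ k := pow_le_pow_left₀ h.θ0.le hs2 k
      have h4 : √θ ^ k < r := lt_of_lt_of_le hk (min_le_left _ _)
      nlinarith only [hθk, h2, h3, h4]) hG.iter_NN
  rw [hgr, smul_zero, add_zero] at h1
  have h4 : √θ ^ k < ε / (2 * C0) / (N + 1) := lt_of_lt_of_le hk (min_le_right _ _)
  rw [lt_div_iff₀ (by positivity)] at h4
  have h5 : √θ ^ k * N ≤ ε / (2 * C0) := by linarith only [hsk, h4]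
  have h6 : C0 * (√θ ^ k * N + ε / (2 * C0)) ≤ C0 * (ε / (2 * C0) + ε / (2 * C0)) :=
    mul_le_mul_of_nonneg_left (by linarith only [hsk, h4]) hC0.le
  have h7 : C0 * (ε / (2 * C0) + ε / (2 * C0)) = ε := by
    field_simp
    ring
  have h8 : ‖∇ w 0‖ ≤ ‖∇ w 0 - p‖ + ‖p‖ := by
    simpa using norm_add_le (∇ w 0 - p) p
  have h9 : 0 ≤ 2 * C * N * √θ ^ k := by positivity
  linarith only [hp, h1, h6, h7, h8, h9]

/-- Pert.resc with t = 1/2, a = 0, p = 0; NN_resc and closedBall y 2 ⊆ closedBall 0 4. -/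
theorem Good.shift {δ C μ : ℝ} (hC : 0 ≤ C) {w : E → ℝ} {g : E → E} {N : ℝ} (hN : 0 ≤ N)
    (hg : Good δ C μ w g N) {y : E} (hy : ‖y‖ ≤ 2) :
    Good δ C μ (resc y (1 / 2) 0 0 w) (fun x => g (y + (1 / 2 : ℝ) • x) - 0)
      (2 ^ (Module.finrank ℝ E + 2) * N) := by
  have hw := hg.iter_cd
  obtain ⟨L, κ, hL, hκ, hp, hNN, hle⟩ := hg
  have hq0 : 0 ≤ √(1 / 2 : ℝ) := Real.sqrt_nonneg _
  have hq1 : √(1 / 2 : ℝ) ≤ 1 := Real.sqrt_le_iff.2 ⟨by norm_num, by norm_num⟩
  set M : ℝ := 2 ^ (Module.finrank ℝ E + 2) with hM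
  have hM1 : 1 ≤ M := one_le_pow₀ (by norm_num)
  refine ⟨_, _, by positivity, by positivity,
    hp.resc hκ y 0 0 (t := 1 / 2) (by norm_num) (by linarith only [hy]), ?_, ?_⟩
  · rw [NN_resc w y 0 (by norm_num : (0 : ℝ) < 1 / 2) 0]
    have e1 : (((1 : ℝ) / 2) ^ (Module.finrank ℝ E + 2))⁻¹ = M := by
      rw [hM, one_div, inv_pow, inv_inv]
    rw [e1]
    simp only [sub_zero, inner_zero_left]
    have h1 : ∫ x in closedBall y (4 * (1 / 2)), w x ^ 2 ≤ NN w := by
      unfold NN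
      refine setIntegral_mono_set ?_ (Eventually.of_forall fun x => sq_nonneg _) ?_
      · exact (hw.continuous.pow 2).continuousOn.integrableOn_compact (isCompact_closedBall _ _)
      · refine LE.le.eventuallyLE (closedBall_subset_closedBall' ?_)
        rw [dist_zero_right]
        linarith only [hy]
    have h2 : M * ∫ x in closedBall y (4 * (1 / 2)), w x ^ 2 ≤ M * N ^ 2 :=
      mul_le_mul_of_nonneg_left (h1.trans hNN) (by linarith only [hM1])
    have h3 : 0 ≤ M * N ^ 2 * (M - 1) := mul_nonneg (by positivity) (by linarith only [hM1])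
    linarith only [h2, h3]
  · rw [norm_zero, mul_zero, add_zero]
    have h1 : √(1 / 2 : ℝ) * L ≤ M * L := mul_le_mul_of_nonneg_right (hq1.trans hM1) hL
    have h2 : √(1 / 2 : ℝ) * (2 * κ * C * (M * N)) ≤ 1 * (2 * κ * C * (M * N)) :=
      mul_le_mul_of_nonneg_right hq1 (by positivity)
    have h3 : M * (L + 2 * κ * C * N) ≤ M * (μ * N) := mul_le_mul_of_nonneg_left hle (by linarith only [hM1])
    linarith only [h1, h2, h3]

/-- For |y| ≤ 2 θ^k: iter, shift to θ^-k y, grad_zero give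
|grad w y - p_k| ≤ 2 C 2^(d+2) √θ^k N, also for y = 0. Take k maximal. -/
theorem Dec.unit {δ θ C μ : ℝ} (h : Dec E δ θ C μ) : ∃ C' : ℝ, 0 < C' ∧
    ∀ (w : E → ℝ) (g : E → E) (N : ℝ), 0 ≤ N → Good δ C μ w g N →
      ‖∇ w 0‖ ≤ C' * N ∧ ∀ y : E, ‖y‖ ≤ 2 → ‖∇ w y - ∇ w 0‖ ≤ C' * N * √‖y‖ := by
  obtain ⟨hs0, hs1, hs2⟩ := iter_sqrt h.θ0 h.θ1
  have hC := h.C0
  set M : ℝ := 2 ^ (Module.finrank ℝ E + 2) with hM
  have hM1 : 1 ≤ M := one_le_pow₀ (by norm_num)
  refine ⟨4 * C * M / √θ, by positivity, fun w g N hN hg => ⟨?_, fun y hy => ?_⟩⟩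
  · refine (h.grad_zero hN hg).trans (mul_le_mul_of_nonneg_right ?_ hN)
    rw [le_div_iff₀ hs0]
    nlinarith only [hs1, hC, hM1]
  · rcases eq_or_ne y 0 with rfl | hy0
    · simp
    have hyp : 0 < ‖y‖ := norm_pos_iff.2 hy0
    have hw := hg.iter_cd
    obtain ⟨k, hk1, hk2⟩ := exists_nat_pow_near_of_lt_one (x := ‖y‖ / 2) (by positivity)
      (by linarith only [hy]) h.θ0 (by linarith [h.θ1])
    obtain ⟨a, p, -, hG⟩ := h.iter hN hg k
    have hθk : 0 < θ ^ k := pow_pos h.θ0 k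
    have hsk : 0 < √θ ^ k := pow_pos hs0 k
    have key : ∀ z : E, ‖z‖ ≤ 2 → ‖∇ w (θ ^ k • z) - p‖ ≤ 2 * C * (M * (√θ ^ k * N)) := by
      intro z hz
      have h1 := h.grad_zero (by positivity) (hG.shift hC.le (by positivity) hz)
      rw [grad_resc (by norm_num) (hG.iter_cd.differentiable one_ne_zero _), smul_zero, add_zero,
        sub_zero, grad_resc hθk.ne' (hw.differentiable one_ne_zero _), zero_add] at h1
      exact h1
    have h1 := key ((θ ^ k)⁻¹ • y) (by
      rw [norm_smul, norm_inv, Real.norm_of_nonneg hθk.le, inv_mul_le_iff₀ hθk]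
      linarith only [hk2])
    have h2 := key 0 (by simp)
    rw [smul_inv_smul₀ hθk.ne'] at h1
    rw [smul_zero] at h2
    have h3 : ‖∇ w y - ∇ w 0‖ ≤ ‖∇ w y - p‖ + ‖∇ w 0 - p‖ := by
      simpa using norm_sub_le (∇ w y - p) (∇ w 0 - p)
    have h4 : √θ ^ (k + 1) ≤ √‖y‖ := by
      refine Real.le_sqrt_of_sq_le ?_
      rw [← pow_mul, mul_comm, pow_mul, Real.sq_sqrt h.θ0.le]
      linarith only [hyp, hk1]
    have h5 : √θ ^ k ≤ √‖y‖ / √θ := by
      rw [le_div_iff₀ hs0, ← pow_succ]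
      exact h4
    have h6 : 4 * C * M * N * √θ ^ k ≤ 4 * C * M * N * (√‖y‖ / √θ) :=
      mul_le_mul_of_nonneg_left h5 (by positivity)
    have h7 : 4 * C * M / √θ * N * √‖y‖ = 4 * C * M * N * (√‖y‖ / √θ) := by ring
    rw [h7]
    linarith only [h1, h2, h3, h6]

end Iter

section Hol

omit [FiniteDimensional ℝ E] [MeasurableSpace E] [BorelSpace E]

variable {F F₁ F₂ F₃ : Type} [NormedAddCommGroup F] [NormedSpace ℝ F] [NormedAddCommGroup F₁]
  [NormedSpace ℝ F₁] [NormedAddCommGroup F₂] [NormedSpace ℝ F₂] [NormedAddCommGroup F₃]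
  [NormedSpace ℝ F₃]

theorem Hol.mono {S T : Set E} {r C C' : ℝ} {f : E → F} (h : Hol S r C f) (hT : T ⊆ S)
    (hC : C ≤ C') : Hol T r C' f := by
  refine ⟨fun x hx => (h.1 x (hT hx)).trans hC, fun x hx y hy => (h.2 x (hT hx) y (hT hy)).trans ?_⟩
  exact mul_le_mul_of_nonneg_right hC (Real.sqrt_nonneg _)

theorem Hol.congr {S : Set E} {r C : ℝ} {f g : E → F} (h : Hol S r C f) (hfg : EqOn f g S) :
    Hol S r C g := by
  refine ⟨fun x hx => hfg hx ▸ h.1 x hx, fun x hx y hy => ?_⟩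
  rw [← hfg hx, ← hfg hy]; exact h.2 x hx y hy

/-- A smaller scale is a weaker condition. -/
theorem Hol.scale_le {S : Set E} {r r' C : ℝ} {f : E → F} (h : Hol S r C f) (h0 : 0 < r')
    (hr : r' ≤ r) : Hol S r' C f := by
  refine ⟨h.1, fun x hx y hy => (h.2 x hx y hy).trans ?_⟩
  exact mul_le_mul_of_nonneg_left
    (Real.sqrt_le_sqrt (div_le_div_of_nonneg_left (norm_nonneg _) h0 hr))
    ((norm_nonneg _).trans (h.1 x hx))

theorem Hol.add {S : Set E} {r C C' : ℝ} {f g : E → F} (h : Hol S r C f) (h' : Hol S r C' g) :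
    Hol S r (C + C') fun x => f x + g x := by
  refine ⟨fun x hx => (norm_add_le _ _).trans (add_le_add (h.1 x hx) (h'.1 x hx)),
    fun x hx y hy => ?_⟩
  rw [add_sub_add_comm, add_mul]
  exact (norm_add_le _ _).trans (add_le_add (h.2 x hx y hy) (h'.2 x hx y hy))

theorem Hol.bilin {S : Set E} {r C C' : ℝ} {f : E → F₁} {g : E → F₂} (B : F₁ →L[ℝ] F₂ →L[ℝ] F₃)
    (h : Hol S r C f) (h' : Hol S r C' g) :
    Hol S r (2 * ‖B‖ * C * C') fun x => B (f x) (g x) := by
  have hb : ∀ (a : F₁) (b : F₂) (s t : ℝ), ‖a‖ ≤ s → ‖b‖ ≤ t → ‖B a b‖ ≤ ‖B‖ * s * t := by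
    intro a b s t ha hb
    have hs : 0 ≤ s := (norm_nonneg _).trans ha
    exact (B.le_opNorm₂ a b).trans (by gcongr)
  constructor
  · intro x hx
    have h1 := hb _ _ _ _ (h.1 x hx) (h'.1 x hx)
    have h2 := (norm_nonneg _).trans h1
    linarith
  · intro x hx y hy
    have e : B (f x) (g x) - B (f y) (g y) = B (f x - f y) (g x) + B (f y) (g x - g y) := by
      simp only [map_sub, ContinuousLinearMap.sub_apply]; abel
    have h1 := hb _ _ _ _ (h.2 x hx y hy) (h'.1 x hx)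
    have h2 := hb _ _ _ _ (h.1 y hy) (h'.2 x hx y hy)
    rw [e]
    refine (norm_add_le _ _).trans ?_
    linarith

theorem Hol.clm {S : Set E} {r C : ℝ} {f : E → F₁} (T : F₁ →L[ℝ] F₂) (h : Hol S r C f) :
    Hol S r (‖T‖ * C) fun x => T (f x) := by
  refine ⟨fun x hx => T.le_opNorm_of_le (h.1 x hx), fun x hx y hy => ?_⟩
  rw [← map_sub, mul_assoc]
  exact T.le_opNorm_of_le (h.2 x hx y hy)

theorem Hol.shift {x₀ v : E} {r s ρ C : ℝ} {f : E → F} (h : Hol (ball x₀ r) ρ C f)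
    (hs : s + ‖v‖ ≤ r) : Hol (ball x₀ s) ρ C fun x => f (x + v) := by
  have hm : ∀ x ∈ ball x₀ s, x + v ∈ ball x₀ r := by
    intro x hx
    rw [mem_ball_iff_norm] at hx ⊢
    have : x + v - x₀ = (x - x₀) + v := by abel
    rw [this]
    linarith [norm_add_le (x - x₀) v]
  refine ⟨fun x hx => h.1 _ (hm x hx), fun x hx y hy => ?_⟩
  have := h.2 _ (hm x hx) _ (hm y hy)
  rwa [add_sub_add_right_eq_sub] at this

theorem Hol.continuousOn {S : Set E} {r C : ℝ} {f : E → F} (h : Hol S r C f) :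
    ContinuousOn f S := by
  intro x hx
  rw [ContinuousWithinAt, tendsto_iff_norm_sub_tendsto_zero]
  have h1 : Tendsto (fun y : E => C * √(‖y - x‖ / r)) (𝓝[S] x) (𝓝 0) := by
    have : Continuous fun y : E => C * √(‖y - x‖ / r) := by fun_prop
    simpa only [norm_nonneg, Real.sqrt_div, sub_self, norm_zero, zero_div, Real.sqrt_zero, mul_zero] using (this.tendsto x).mono_left nhdsWithin_le_nhds
  refine squeeze_zero' (Eventually.of_forall fun _ => norm_nonneg _) ?_ h1
  filter_upwards [self_mem_nhdsWithin] with y hy using h.2 y hy x hx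

theorem hol_mem {x x₀ e : E} {r s h t : ℝ} (hx : x ∈ ball x₀ s) (hs : s + |h| * ‖e‖ ≤ r)
    (ht : |t| ≤ |h|) : x + t • e ∈ ball x₀ r := by
  rw [mem_ball_iff_norm] at hx ⊢
  have e1 : x + t • e - x₀ = (x - x₀) + t • e := by abel
  have h1 : ‖t • e‖ ≤ |h| * ‖e‖ := by
    rw [norm_smul, Real.norm_eq_abs]; gcongr
  rw [e1]
  linarith [norm_add_le (x - x₀) (t • e)]

theorem hol_line {f : E → F} {x e : E} {t : ℝ} (hd : DifferentiableAt ℝ f (x + t • e)) :
    HasDerivAt (fun t : ℝ => f (x + t • e)) (fderiv ℝ f (x + t • e) e) t := by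
  have h1 : HasDerivAt (fun t : ℝ => x + t • e) e t := by
    simpa using ((hasDerivAt_id t).smul_const e).const_add x
  exact hd.hasFDerivAt.comp_hasDerivAt t h1

theorem hol_mv {φ φ' : ℝ → F} {C h : ℝ} (hd : ∀ t, |t| ≤ |h| → HasDerivAt φ (φ' t) t)
    (hb : ∀ t, |t| ≤ |h| → ‖φ' t‖ ≤ C) : ‖φ h - φ 0‖ ≤ C * |h| := by
  have := (convex_closedBall (0 : ℝ) |h|).norm_image_sub_le_of_norm_hasDerivWithin_le
    (f := φ) (f' := φ') (C := C) (x := 0) (y := h)
    (fun t ht => (hd t (by simpa using ht)).hasDerivWithinAt)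
    (fun t ht => hb t (by simpa using ht)) (by simp) (by simp)
  simpa only [ge_iff_le, sub_zero, Real.norm_eq_abs] using this

/-- Mean value inequality for t ↦ f (x + t • e) - t • c. -/
theorem dq_bd {f : E → F} {x₀ e : E} {r s C h : ℝ} {c : F}
    (hd : ∀ x ∈ ball x₀ r, DifferentiableAt ℝ f x)
    (hb : ∀ x ∈ ball x₀ r, ‖fderiv ℝ f x e - c‖ ≤ C) (hs : s + |h| * ‖e‖ ≤ r) (h0 : h ≠ 0) :
    ∀ x ∈ ball x₀ s, ‖dq h e f x - c‖ ≤ C := by
  intro x hx
  have := hol_mv (φ := fun t => f (x + t • e) - t • c) (φ' := fun t => fderiv ℝ f (x + t • e) e - c)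
    (C := C) (h := h) (fun t ht => (hol_line (hd _ (hol_mem hx hs ht))).sub
      (by simpa using (hasDerivAt_id t).smul_const c)) (fun t ht => hb _ (hol_mem hx hs ht))
  have e1 : dq h e f x - c = h⁻¹ • (f (x + h • e) - h • c - (f (x + (0 : ℝ) • e) - (0 : ℝ) • c)) := by
    simp only [dq, zero_smul, add_zero, sub_zero, smul_sub, smul_smul, inv_mul_cancel₀ h0, one_smul]
    abel
  rw [e1, norm_smul, norm_inv, Real.norm_eq_abs, inv_mul_le_iff₀ (abs_pos.2 h0), mul_comm]
  exact this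

/-- Mean value inequality for t ↦ f (x + t • e) - f (y + t • e). -/
theorem dq_hol {f : E → F} {x₀ e : E} {r s ρ C h : ℝ}
    (hd : ∀ x ∈ ball x₀ r, DifferentiableAt ℝ f x)
    (hh : Hol (ball x₀ r) ρ C fun x => fderiv ℝ f x e) (hs : s + |h| * ‖e‖ ≤ r) (h0 : h ≠ 0) :
    Hol (ball x₀ s) ρ C (dq h e f) := by
  constructor
  · intro x hx
    simpa only [sub_zero] using dq_bd (c := 0) hd (fun y hy => by simpa only [sub_zero] using hh.1 y hy) hs h0 x hx
  · intro x hx y hy
    have := hol_mv (φ := fun t => f (x + t • e) - f (y + t • e))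
      (φ' := fun t => fderiv ℝ f (x + t • e) e - fderiv ℝ f (y + t • e) e)
      (C := C * √(‖x - y‖ / ρ)) (h := h) (fun t ht => (hol_line (hd _ (hol_mem hx hs ht))).sub
        (hol_line (hd _ (hol_mem hy hs ht)))) (fun t ht => by
          have := hh.2 _ (hol_mem hx hs ht) _ (hol_mem hy hs ht)
          rwa [add_sub_add_right_eq_sub] at this)
    have e1 : dq h e f x - dq h e f y = h⁻¹ • (f (x + h • e) - f (y + h • e) -
        (f (x + (0 : ℝ) • e) - f (y + (0 : ℝ) • e))) := by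
      simp only [dq, zero_smul, add_zero, smul_sub]
      abel
    rw [e1, norm_smul, norm_inv, Real.norm_eq_abs, inv_mul_le_iff₀ (abs_pos.2 h0), mul_comm]
    exact this

theorem dq_tendsto {f : E → F} {x e : E} (hd : DifferentiableAt ℝ f x) {h : ℕ → ℝ}
    (h0 : ∀ n, h n ≠ 0) (hl : Tendsto h atTop (𝓝 0)) :
    Tendsto (fun n => dq (h n) e f x) atTop (𝓝 (fderiv ℝ f x e)) := by
  have h1 : HasDerivAt (fun t : ℝ => f (x + t • e)) (fderiv ℝ f (x + (0 : ℝ) • e) e) 0 :=
    hol_line (by simpa using hd)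
  have h2 := (hasDerivAt_iff_tendsto_slope_zero.1 h1).comp
    (tendsto_nhdsWithin_iff.2 ⟨hl, Eventually.of_forall h0⟩)
  simpa only [dq, zero_add, zero_smul, add_zero, Function.comp_def] using h2

theorem dq_contDiffOn {f : E → F} {x₀ e : E} {r s h : ℝ} {n : WithTop ℕ∞}
    (hf : ContDiffOn ℝ n f (ball x₀ r)) (hs : s + |h| * ‖e‖ ≤ r) :
    ContDiffOn ℝ n (dq h e f) (ball x₀ s) := by
  have hm : ∀ x ∈ ball x₀ s, x + h • e ∈ ball x₀ r := fun x hx => hol_mem hx hs le_rfl
  have hsub : ball x₀ s ⊆ ball x₀ r := fun x hx => by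
    simpa using hol_mem (t := 0) hx hs (by simp)
  exact ((hf.comp (contDiff_id.add contDiff_const).contDiffOn hm).sub (hf.mono hsub)).const_smul _

end Hol

section Schau

omit [FiniteDimensional ℝ E] [MeasurableSpace E] [BorelSpace E] in
theorem schau_mem {x₀ x z : E} {r τ : ℝ} (hr : 0 < r) (h0 : 0 < τ) (hτ : τ ≤ 1 / 16)
    (hx : x ∈ ball x₀ (r / 2)) (hz : ‖z‖ ≤ 4) : x + (τ * r) • z ∈ ball x₀ (3 * r / 4) := by
  rw [mem_ball_iff_norm] at hx ⊢
  have h1 : ‖(τ * r) • z‖ ≤ r / 4 := by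
    rw [norm_smul, Real.norm_of_nonneg (by positivity)]
    calc τ * r * ‖z‖ ≤ 1 / 16 * r * 4 := by gcongr
      _ = r / 4 := by ring
  calc ‖x + (τ * r) • z - x₀‖ = ‖(x - x₀) + (τ * r) • z‖ := by rw [add_sub_right_comm]
    _ ≤ ‖x - x₀‖ + ‖(τ * r) • z‖ := norm_add_le _ _
    _ < 3 * r / 4 := by linarith

theorem schau_pert {x₀ x : E} {r σ δ L K : ℝ} {w w' : E → ℝ} {g g' : E → E} (hr : 0 < r)
    (h0 : 0 < σ) (hσ : σ ≤ 1 / 4) (hS : Sch x₀ r w g δ L K) (hw : ContDiff ℝ 1 w')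
    (hg : Continuous g') (ew : EqOn w' w (ball x₀ (3 * r / 4)))
    (eg : EqOn g' g (ball x₀ (3 * r / 4))) (hx : x ∈ ball x₀ (r / 2)) :
    Pert (resc x (σ ^ 2 * r) 0 0 w') (fun z => g' (x + (σ ^ 2 * r) • z)) δ (σ * L)
      (σ * max K 0) := by
  have ht : 0 < σ ^ 2 * r := by positivity
  have hm : ∀ z ∈ ball (0 : E) 4, x + (σ ^ 2 * r) • z ∈ ball x₀ (3 * r / 4) := fun z hz =>
    schau_mem hr (by positivity) (by nlinarith) hx (mem_ball_zero_iff.1 hz).le
  have hsub : ball x₀ (3 * r / 4) ⊆ ball x₀ r := ball_subset_ball (by linarith only [hr])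
  have hgr : ∀ z ∈ ball (0 : E) 4,
      ∇ (resc x (σ ^ 2 * r) 0 0 w') z = ∇ w (x + (σ ^ 2 * r) • z) := fun z hz => by
    rw [grad_resc ht.ne' (hw.differentiable one_ne_zero _), sub_zero,
      grad_congr isOpen_ball ew (hm z hz)]
  refine ⟨contDiff_resc hw _ _ _ _, hg.comp (by fun_prop),
    (hS.wk.comp x ht.ne' fun z hz => hsub (hm z hz)).congr fun z hz => ?_, fun y hy p => ?_⟩
  · simp only [hgr z hz, eg (hm z hz)]
  obtain ⟨c, hc⟩ := hS.bd _ (hsub (hm y hy)) p
  refine ⟨c, fun z hz => ?_⟩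
  rw [hgr z hz, eg (hm z hz)]
  refine (hc _ (hsub (hm z hz))).trans (add_le_add_right ?_ _)
  have h1 : √(‖x + (σ ^ 2 * r) • z - (x + (σ ^ 2 * r) • y)‖ / r) = σ * √‖z - y‖ := by
    rw [add_sub_add_left_eq_sub, ← smul_sub, norm_smul, Real.norm_of_nonneg ht.le,
      show σ ^ 2 * r * ‖z - y‖ / r = σ ^ 2 * ‖z - y‖ by field_simp,
      Real.sqrt_mul (sq_nonneg σ), Real.sqrt_sq h0.le]
  rw [h1]
  calc σ * √‖z - y‖ * (L + K * ‖p‖) ≤ σ * √‖z - y‖ * (L + max K 0 * ‖p‖) := by
        gcongr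
        exact le_max_left _ _
    _ = _ := by ring

theorem schau_NN {W : E → ℝ} {M : ℝ} (h : ∀ z ∈ closedBall (0 : E) 4, |W z| ≤ M) :
    NN W ≤ (√(volume.real (closedBall (0 : E) 4)) * M) ^ 2 := by
  rw [mul_pow, Real.sq_sqrt measureReal_nonneg, mul_comm, NN]
  refine (Real.le_norm_self _).trans (norm_setIntegral_le_of_norm_le_const
    (isCompact_closedBall (0 : E) 4).measure_lt_top fun z hz => ?_)
  rw [Real.norm_of_nonneg (sq_nonneg _), ← sq_abs]
  exact pow_le_pow_left₀ (abs_nonneg _) (h z hz) 2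

/-- The Schauder estimate from the decay property. -/
theorem Dec.schEst {δ θ C μ : ℝ} (h : Dec E δ θ C μ) : SchEst E δ := by
  obtain ⟨C', hC', hu⟩ := h.unit
  intro K
  have hC := h.C0
  have hμ := h.μ0
  have hK : 0 ≤ max K 0 := le_max_right _ _
  obtain ⟨σ, h0, hσ, hσK⟩ : ∃ σ : ℝ, 0 < σ ∧ σ ≤ 1 / 4 ∧ 2 * (σ * max K 0) * C ≤ μ / 2 := by
    refine ⟨min (1 / 4) (μ / (4 * (max K 0 + 1) * C)), by positivity, min_le_left _ _, ?_⟩
    have h1 := min_le_right (1 / 4 : ℝ) (μ / (4 * (max K 0 + 1) * C))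
    have h2 : 0 < min (1 / 4 : ℝ) (μ / (4 * (max K 0 + 1) * C)) := by positivity
    rw [le_div_iff₀ (by positivity)] at h1
    linarith only [mul_pos h2 hC, h1]
  obtain ⟨V, hV, hV0⟩ : ∃ V : ℝ, V = √(volume.real (closedBall (0 : E) 4)) ∧ 0 ≤ V :=
    ⟨_, rfl, Real.sqrt_nonneg _⟩
  obtain ⟨c, hc0, hc1, hc2⟩ : ∃ c : ℝ, 0 < c ∧ V / σ ^ 2 ≤ c ∧ 2 / μ ≤ c :=
    ⟨V / σ ^ 2 + 2 / μ, by positivity, le_add_of_nonneg_right (by positivity),
      le_add_of_nonneg_left (by positivity)⟩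
  refine ⟨2 * C' * c / σ, by positivity, fun x₀ r w g L A hr hL hA hS hw => ?_⟩
  obtain ⟨w', hw', ew⟩ := exists_ext (n := 1) (s := 3 * r / 4) (by linarith only [hr]) hS.cd
  obtain ⟨g', hg', eg⟩ := exists_ext (n := 0) (s := 3 * r / 4) (by linarith only [hr])
    (contDiffOn_zero.2 hS.cg)
  have hg'' : Continuous g' := contDiff_zero.1 hg'
  have ht : 0 < σ ^ 2 * r := by positivity
  have hN : 0 ≤ c * (A + L) := by positivity
  have key : ∀ x ∈ ball x₀ (r / 2), ‖∇ w x‖ ≤ C' * (c * (A + L)) ∧ ∀ y : E, ‖y‖ ≤ 2 →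
      ‖∇ w (x + (σ ^ 2 * r) • y) - ∇ w x‖ ≤ C' * (c * (A + L)) * √‖y‖ := fun x hx => by
    have hm : ∀ z : E, ‖z‖ ≤ 4 → x + (σ ^ 2 * r) • z ∈ ball x₀ (3 * r / 4) := fun z hz =>
      schau_mem hr (by positivity) (by nlinarith only [h0, hσ]) hx hz
    have hgr : ∀ z : E, ‖z‖ ≤ 4 →
        ∇ (resc x (σ ^ 2 * r) 0 0 w') z = ∇ w (x + (σ ^ 2 * r) • z) := fun z hz => by
      rw [grad_resc ht.ne' (hw'.differentiable one_ne_zero _), sub_zero,
        grad_congr isOpen_ball ew (hm z hz)]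
    have hNN : NN (resc x (σ ^ 2 * r) 0 0 w') ≤ (c * (A + L)) ^ 2 := by
      refine (schau_NN (M := A / σ ^ 2) fun z hz => ?_).trans ?_
      · have h1 := hm z (mem_closedBall_zero_iff.1 hz)
        rw [resc, inner_zero_left, sub_zero, sub_zero, abs_div, abs_of_pos ht, ew h1,
          div_le_iff₀ ht]
        refine (hw _ (ball_subset_ball (by linarith only [hr]) h1)).trans_eq ?_
        field_simp
      · rw [← hV]
        refine pow_le_pow_left₀ (by positivity) ?_ 2
        calc V * (A / σ ^ 2) = V / σ ^ 2 * A := by ring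
          _ ≤ c * (A + L) := by
            gcongr
            linarith only [hL]
    have hlin : σ * L + 2 * (σ * max K 0) * C * (c * (A + L)) ≤ μ * (c * (A + L)) := by
      have h1 : 2 * (σ * max K 0) * C * (c * (A + L)) ≤ μ / 2 * (c * (A + L)) := by gcongr
      have h2 : σ * L ≤ μ / 2 * (c * (A + L)) := by
        rw [div_le_iff₀ hμ] at hc2
        calc σ * L ≤ 1 * (A + L) := mul_le_mul (by linarith only [h0, hσ]) (by linarith only [hA]) hL zero_le_one
          _ ≤ c * μ / 2 * (A + L) := by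
            gcongr
            linarith only [hc2]
          _ = _ := by ring
      linarith only [h1, h2]
    obtain ⟨h1, h2⟩ := hu _ _ _ hN ⟨σ * L, σ * max K 0, by positivity, by positivity,
      schau_pert hr h0 hσ hS hw' hg'' ew eg hx, hNN, hlin⟩
    have h3 := hgr 0 (by simp)
    rw [smul_zero, add_zero] at h3
    rw [h3] at h1 h2
    exact ⟨h1, fun y hy => hgr y (by linarith only [h0, hσ, hy]) ▸ h2 y hy⟩
  have hB : 0 ≤ C' * (c * (A + L)) := by positivity
  have hE : 2 * C' * c / σ * (A + L) = 2 * (C' * (c * (A + L))) / σ := by ring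
  rw [hE]
  generalize C' * (c * (A + L)) = B at key hB
  refine ⟨fun x hx => (key x hx).1.trans ?_, fun x hx y hy => ?_⟩
  · rw [le_div_iff₀ h0]
    nlinarith only [hσ, hB]
  rw [div_mul_eq_mul_div, le_div_iff₀ h0]
  by_cases hxy : ‖x - y‖ ≤ 2 * (σ ^ 2 * r)
  · have h1 : ‖(σ ^ 2 * r)⁻¹ • (x - y)‖ = (σ⁻¹) ^ 2 * (‖x - y‖ / r) := by
      rw [norm_smul, norm_inv, Real.norm_of_nonneg ht.le]
      field_simp
    have h2 := (key y hy).2 ((σ ^ 2 * r)⁻¹ • (x - y)) (by
      rw [norm_smul, norm_inv, Real.norm_of_nonneg ht.le, inv_mul_le_iff₀ ht]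
      linarith only [hxy])
    rw [smul_inv_smul₀ ht.ne', add_sub_cancel, h1, Real.sqrt_mul (sq_nonneg _),
      Real.sqrt_sq (inv_pos.2 h0).le] at h2
    calc ‖∇ w x - ∇ w y‖ * σ ≤ B * (σ⁻¹ * √(‖x - y‖ / r)) * σ := by gcongr
      _ = B * √(‖x - y‖ / r) := by field_simp
      _ ≤ 2 * B * √(‖x - y‖ / r) := by
        gcongr
        linarith only [hB]
  · have h1 : σ ≤ √(‖x - y‖ / r) := by
      refine Real.le_sqrt_of_sq_le ?_
      rw [le_div_iff₀ hr]
      linarith only [ht, hxy]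
    have h2 : ‖∇ w x - ∇ w y‖ ≤ 2 * B :=
      (norm_sub_le _ _).trans (by linarith only [(key x hx).1, (key y hy).1])
    gcongr

theorem exists_schEst : ∃ δ : ℝ, 0 < δ ∧ SchEst E δ := by
  obtain ⟨δ, θ, C, μ, hδ, h⟩ := exists_dec (E := E)
  exact ⟨δ, hδ, h.schEst⟩

end Schau

end Pool.Agent.MP_5cfeaf_gt.G
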