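import Pool.Agent.MP_5cfeaf_gt.Defs

attribute [-instance] ProperSMul.toContinuousSMul IsScalarTower.complexToReal
  NonarchimedeanAddGroup.toIsTopologicalAddGroup TotallySeparatedSpace.t2Space
  AlexandrovDiscrete.toLocallyCompactSpace RKHS.instFunLike
  TopologicalSpace.NoetherianSpace.compactSpace IsTopologicalRing.toContinuousNeg
  NonUnitalNonAssocSemiring.toMulZeroClass AddQuantale.instAddLeftMono AddGroupWithOne.toAddGroup
  NonUnitalNonAssocSemiring.toAddCommMonoid littleWedderburn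
  Group.IsPerfect.subsingleton_of_isMulCommutative Valued.toUniformSpace
  IdemSemiring.toCanonicallyOrderedAdd MeasureTheory.instSFiniteOfCountable
  IdemSemiring.toMulLeftMono MeasureTheory.instInnerRegularOfIsCompletelyPseudoMetrizableSpace
  SemilinearIsometryClass.toSemilinearMapClass IsValuativeTopology.instIsTopologicalAddGroup
  IsTopologicalSemiring.toContinuousAdd NonUnitalAlgSemiHomClass.toDistribMulActionSemiHomClass
  MulZeroOneClass.toMulZeroClass CommRing.toRing CoalgHomClass.toSemilinearMapClass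
  NonUnitalRing.toNonUnitalNonAssocRing IdemSemiring.toSemiring continuousSub_of_discreteTopology
  IsTopologicalTorsor.toContinuousSMul AddQuantale.instAddRightMono
  CStarAlgebra.instOrderClosedTopology CStarAlgebra.toNormedRing instZeroLEOneClass
  AddSubgroup.seminormedAddCommGroup Quantale.instMulRightMono NormedCommRing.toCommRing
  RingHomClass.toLinearMapClassRat MonoidWithZeroHomClass.toZeroHomClass
  RingHomClass.toLinearMapClassNNRat NonAssocSemiring.toAddCommMonoidWithOne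
  AddCommGroupWithOne.toAddGroupWithOne NumberField.to_charZero
  NonUnitalNormedCommRing.toNonUnitalCommRing ContMDiffMul.toIsManifold Quantale.instMulLeftMono
  MeasureTheory.Measure.IsHaarMeasure.toIsOpenPosMeasure SeminormedCommRing.toCommRing
  EuclideanDomain.toCommRing LinearOrderedCommMonoidWithZero.toPosMulStrictMono
  AddCommMonoidWithOne.toAddCommMonoid LieAdmissibleRing.toNonUnitalNonAssocRing
  CommMonTypeEquivalenceCommMon.commMonCommMonoid MulSemiringAction.toDistribMulAction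
  IsModuleTopology.instSubsingleton instSMulZeroClass BooleanRing.toCommRing
  SemigroupWithZero.toMulZeroClass BooleanRing.toRing LieRinehartAlgebra.toIsScalarTower

section

/-! Divergence calculus and the mollifier. -/

set_option autoImplicit false

open MeasureTheory Set Filter Topology Metric
open scoped ENNReal symmDiff Classical InnerProductSpace ContDiff

namespace Pool.Agent.MP_5cfeaf_gt.W

variable {d : ℕ}

section dvc
variable {n : ℕ} {T T' : E n → E n} {U : Set (E n)}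

theorem A0_dv_trace (T : E n → E n) (x : E n) :
    dv T x = LinearMap.trace ℝ _ (fderiv ℝ T x : E n →ₗ[ℝ] E n) := by
  rw [LinearMap.trace_eq_sum_inner _ (EuclideanSpace.basisFun (Fin n) ℝ), dv]
  simp only [EuclideanSpace.basisFun_apply, ContinuousLinearMap.coe_coe, EuclideanSpace.inner_single_left, Real.ringHom_apply, one_mul]

theorem dv_cont (hT : ContDiff ℝ 1 T) : Continuous (dv T) := by
  have := hT.continuous_fderiv one_ne_zero
  unfold dv
  fun_prop

theorem dv_zero {x : E n} (hx : x ∉ tsupport T) : dv T x = 0 := by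
  simp only [dv, fderiv_of_notMem_tsupport ℝ hx, zero_apply, PiLp.zero_apply, Finset.sum_const_zero]

theorem dv_abs_le (T : E n → E n) (x : E n) : |dv T x| ≤ n * ‖fderiv ℝ T x‖ := by
  refine (Finset.abs_sum_le_sum_abs _ _).trans ((Finset.sum_le_card_nsmul _ _ ‖fderiv ℝ T x‖ fun i _ =>
    (PiLp.norm_apply_le _ i).trans (((fderiv ℝ T x).le_opNorm _).trans_eq ?_)).trans_eq (by simp only [Finset.card_univ, Fintype.card_fin, nsmul_eq_mul]))
  simp only [PiLp.norm_single, norm_one, mul_one]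

theorem dv_integrable (hT : C1c T U) : Integrable (dv T) := by
  exact (dv_cont hT.1).integrable_of_hasCompactSupport
    (hT.2.1.mono' fun x hx => by_contra fun h => hx (dv_zero h))

theorem dv_add (hT : ContDiff ℝ 1 T) (hT' : ContDiff ℝ 1 T') (x : E n) :
    dv (fun y => T y + T' y) x = dv T x + dv T' x := by
  simp only [dv, fderiv_fun_add (hT.differentiable one_ne_zero x) (hT'.differentiable one_ne_zero x), add_apply, PiLp.add_apply, Finset.sum_add_distrib]

theorem dv_neg (T : E n → E n) (x : E n) : dv (fun y => -T y) x = -dv T x := by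
  simp only [dv, fderiv_fun_neg, neg_apply, PiLp.neg_apply, Finset.sum_neg_distrib]

theorem dv_const_smul (c : ℝ) (T : E n → E n) (x : E n) : dv (fun y => c • T y) x = c * dv T x := by
  have : fderiv ℝ (fun y => c • T y) x = c • fderiv ℝ T x := congrFun (fderiv_const_smul_field c) x
  simp only [dv, this, smul_apply, PiLp.smul_apply, smul_eq_mul, Finset.mul_sum]

theorem dv_sum {ι : Type} (s : Finset ι) {T : ι → E n → E n} (hT : ∀ i ∈ s, ContDiff ℝ 1 (T i))
    (x : E n) : dv (fun y => ∑ i ∈ s, T i y) x = ∑ i ∈ s, dv (T i) x := by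
  simp only [dv, fderiv_fun_sum fun i hi => (hT i hi).differentiable one_ne_zero x]
  rw [Finset.sum_comm]
  simp only [sum_apply, WithLp.ofLp_sum, Finset.sum_apply]

theorem dv_smul {f : E n → ℝ} (hf : ContDiff ℝ 1 f) (hT : ContDiff ℝ 1 T) (x : E n) :
    dv (fun y => f y • T y) x = f x * dv T x + fderiv ℝ f x (T x) := by
  have h : fderiv ℝ f x (T x) = ∑ i, fderiv ℝ f x (EuclideanSpace.single i 1) * T x i := by
    conv_lhs => rw [← (EuclideanSpace.basisFun (Fin n) ℝ).sum_repr (T x)]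
    simp only [EuclideanSpace.basisFun_repr, EuclideanSpace.basisFun_apply, map_sum, map_smul, smul_eq_mul, mul_comm]
  simp only [dv, fderiv_fun_smul (hf.differentiable one_ne_zero x) (hT.differentiable one_ne_zero x), add_apply, smul_apply, ContinuousLinearMap.smulRight_apply, PiLp.add_apply, PiLp.smul_apply, smul_eq_mul, Finset.sum_add_distrib, Finset.mul_sum, h]

theorem dv_smul_const {f : E n → ℝ} (hf : ContDiff ℝ 1 f) (e x : E n) :
    dv (fun y => f y • e) x = fderiv ℝ f x e := by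
  rw [dv_smul hf contDiff_const]
  simp only [dv, fderiv_fun_const, Pi.zero_apply, zero_apply, PiLp.zero_apply, Finset.sum_const_zero, mul_zero, zero_add]

theorem C1c.mono {F : Type} [NormedAddCommGroup F] [NormedSpace ℝ F] {T : E n → F} {V : Set (E n)}
    (hT : C1c T U) (h : U ⊆ V) : C1c T V := ⟨hT.1, hT.2.1, hT.2.2.trans h⟩

theorem C1c.smul_left {F : Type} [NormedAddCommGroup F] [NormedSpace ℝ F] {T : E n → F} {f : E n → ℝ}
    (hf : ContDiff ℝ 1 f) (hT : C1c T U) : C1c (fun y => f y • T y) U := by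
  exact ⟨hf.smul hT.1, hT.2.1.smul_left, (tsupport_smul_subset_right _ _).trans hT.2.2⟩

theorem C1c.smul_right {F : Type} [NormedAddCommGroup F] [NormedSpace ℝ F] {T : E n → F}
    {f : E n → ℝ} (hf : C1c f U) (hT : ContDiff ℝ 1 T) : C1c (fun y => f y • T y) U := by
  exact ⟨hf.1.smul hT, hf.2.1.smul_right, (tsupport_smul_subset_left _ _).trans hf.2.2⟩

theorem integral_dv (hT : C1c T U) : ∫ x, dv T x = 0 := by
  have h1 := hT.1.continuous_fderiv one_ne_zero
  have h2 : ∀ v, Integrable fun x => fderiv ℝ T x v := fun v =>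
    (by fun_prop : Continuous fun x => fderiv ℝ T x v).integrable_of_hasCompactSupport
      (hT.2.1.fderiv_apply ℝ v)
  unfold dv
  rw [integral_finsetSum _ fun i _ => by
    exact (EuclideanSpace.proj (𝕜 := ℝ) i).integrable_comp (h2 _)]
  refine Finset.sum_eq_zero fun i _ => ?_
  have := integral_smul_fderiv_eq_neg_fderiv_smul_of_integrable (μ := volume) (f := fun _ => (1 : ℝ))
    (g := T) (v := EuclideanSpace.single i 1) (by simp only [fderiv_fun_const, Pi.zero_apply, zero_apply, zero_smul, integrable_fun_zero]) (by simpa only [one_smul] using h2 _)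
    (by simpa using hT.1.continuous.integrable_of_hasCompactSupport hT.2.1) (by simp)
    fun x _ => hT.1.differentiable one_ne_zero x
  refine ((EuclideanSpace.proj (𝕜 := ℝ) i).integral_comp_comm (h2 _)).trans ?_
  simp at this
  simp [this]

theorem dv_ibp {u : E n → ℝ} (hu : ContDiff ℝ 1 u) (hT : C1c T U) :
    ∫ x, u x * dv T x = -∫ x, fderiv ℝ u x (T x) := by
  have h1 := hu.continuous_fderiv one_ne_zero
  have h2 := hT.1.continuous
  have h := integral_dv (hT.smul_left hu)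
  simp only [dv_smul hu hT.1] at h
  rw [integral_add ((hu.continuous.fun_mul (dv_cont hT.1)).integrable_of_hasCompactSupport
    (hT.2.1.mono' fun x hx => by_contra fun h => hx (by simp [dv_zero h])))
    ((by fun_prop : Continuous fun x => fderiv ℝ u x (T x)).integrable_of_hasCompactSupport
    (hT.2.1.mono fun x hx h => hx (by simp [h])))] at h
  linarith

theorem le_Per (Ω : Set (E n)) (hT : C1c T U) (h : ∀ x, ‖T x‖ ≤ 1) :
    ENNReal.ofReal (∫ x in Ω, dv T x) ≤ Per Ω U :=
  le_iSup₂_of_le T ⟨hT.1, hT.2.1, hT.2.2, h⟩ le_rfl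

theorem Per_le {Ω : Set (E n)} {a : ℝ≥0∞}
    (h : ∀ T, C1c T U → (∀ x, ‖T x‖ ≤ 1) → ENNReal.ofReal (∫ x in Ω, dv T x) ≤ a) : Per Ω U ≤ a :=
  iSup₂_le fun T hT => h T ⟨hT.1, hT.2.1, hT.2.2.1⟩ hT.2.2.2

theorem Per_mono (Ω : Set (E n)) {V : Set (E n)} (h : U ⊆ V) : Per Ω U ≤ Per Ω V :=
  Per_le fun _ hT h1 => le_Per Ω (hT.mono h) h1

/-- scaling -/
theorem ofReal_int_le (Ω : Set (E n)) (hT : C1c T U) {c : ℝ} (hc : 0 < c) (h : ∀ x, ‖T x‖ ≤ c) :
    ENNReal.ofReal (∫ x in Ω, dv T x) ≤ ENNReal.ofReal c * Per Ω U := by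
  have h1 := le_Per Ω (hT.smul_left (contDiff_const (c := c⁻¹))) fun x => by
    rw [norm_smul, norm_inv, Real.norm_of_nonneg hc.le]
    exact (inv_mul_le_one₀ hc).2 (h x)
  simp only [dv_const_smul, integral_const_mul] at h1
  refine le_trans (le_of_eq ?_) (mul_le_mul_right h1 _)
  rw [← ENNReal.ofReal_mul hc.le, mul_inv_cancel_left₀ hc.ne']

/-- smooth partition of unity on a compact set -/
theorem exists_pou {ι : Type} (s : Finset ι) {V : ι → Set (E n)} (hV : ∀ i ∈ s, IsOpen (V i))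
    {K : Set (E n)} (hK : IsCompact K) (h : K ⊆ ⋃ i ∈ s, V i) :
    ∃ ψ : ι → E n → ℝ, (∀ i ∈ s, C1c (ψ i) (V i) ∧ ∀ x, 0 ≤ ψ i x) ∧
      (∀ x, ∑ i ∈ s, ψ i x ≤ 1) ∧ ∀ x ∈ K, ∑ i ∈ s, ψ i x = 1 := by
  obtain ⟨r, hr⟩ := hK.isBounded.subset_ball (0 : E n)
  obtain ⟨f, hf⟩ := SmoothPartitionOfUnity.exists_isSubordinate (modelWithCornersSelf ℝ (E n))
    hK.isClosed (fun i : s => V i ∩ ball 0 r) (fun i => (hV i i.2).inter isOpen_ball) fun x hx => by
      obtain ⟨i, hi, hxi⟩ := mem_iUnion₂.1 (h hx)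
      exact mem_iUnion.2 ⟨⟨i, hi⟩, hxi, hr hx⟩
  have e : ∀ x, ∑ i ∈ s, (if h : i ∈ s then (f ⟨i, h⟩ : E n → ℝ) else 0) x = ∑ᶠ i, f i x := fun x => by
    rw [finsum_eq_sum_of_fintype, ← Finset.sum_coe_sort s]
    simp only [Finset.univ_eq_attach, SetLike.coe_mem, ↓ reduceDIte, Subtype.coe_eta]
  refine ⟨fun i => if h : i ∈ s then f ⟨i, h⟩ else 0, fun i hi => ?_, fun x => e x ▸ f.sum_le_one x,
    fun x hx => e x ▸ f.sum_eq_one hx⟩
  simp only [dif_pos hi]
  exact ⟨⟨(f ⟨i, hi⟩).contMDiff.contDiff.of_le (by simp), (isCompact_closedBall 0 r).of_isClosed_subset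
    (isClosed_tsupport _) fun x hx => ball_subset_closedBall (hf ⟨i, hi⟩ hx).2,
    fun x hx => (hf ⟨i, hi⟩ hx).1⟩, f.nonneg _⟩

end dvc

/-- mollification radii -/
noncomputable def rr (k : ℕ) : ℝ := (1 / 2) ^ k

theorem rr_pos (k : ℕ) : 0 < rr k := by unfold rr; positivity

theorem rr_tendsto : Tendsto rr atTop (𝓝 0) :=
  tendsto_pow_atTop_nhds_zero_of_lt_one (by norm_num) (by norm_num)

/-- bump functions -/
noncomputable def bp (d k : ℕ) : ContDiffBump (0 : R d) :=
  ⟨rr k / 2, rr k, half_pos (rr_pos k), half_lt_self (rr_pos k)⟩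

/-- mollifying kernel -/
noncomputable def rho (k : ℕ) : R d → ℝ := (bp d k).normed volume

/-- mollified indicator -/
noncomputable def mol (k : ℕ) (Ω : Set (R d)) (x : R d) : ℝ := ∫ y in Ω, rho k (x - y)

theorem rho_nonneg (k : ℕ) (x : R d) : 0 ≤ rho k x := (bp d k).nonneg_normed x

theorem rho_smooth (k : ℕ) : ContDiff ℝ 1 (rho k : R d → ℝ) := (bp d k).contDiff_normed (n := 1)

theorem rho_neg (k : ℕ) (x : R d) : rho k (-x) = rho k x := (bp d k).normed_neg x

theorem rho_cs (k : ℕ) : HasCompactSupport (rho k : R d → ℝ) := (bp d k).hasCompactSupport_normed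

theorem rho_zero {k : ℕ} {x : R d} (h : rr k ≤ ‖x‖) : rho k x = 0 := by
  by_contra h'
  have : x ∈ ball (0 : R d) (rr k) := (bp d k).support_normed_eq (μ := volume) ▸ h'
  exact h.not_gt (mem_ball_zero_iff.1 this)

theorem rho_int (k : ℕ) : ∫ x : R d, rho k x = 1 := (bp d k).integral_normed

theorem rho_integrable (k : ℕ) : Integrable (rho k : R d → ℝ) := (bp d k).integrable_normed

theorem rho_lint (k : ℕ) : ∫⁻ x : R d, ENNReal.ofReal (rho k x) = 1 := by
  rw [← ofReal_integral_eq_lintegral_ofReal (rho_integrable k) (ae_of_all _ (rho_nonneg k)), rho_int,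
    ENNReal.ofReal_one]

theorem rho_C1c (k : ℕ) (x : R d) : C1c (fun y => rho k (x - y)) (closedBall x (rr k)) := by
  have h : tsupport (fun y => rho k (x - y)) ⊆ closedBall x (rr k) :=
    closure_minimal (fun y hy => by_contra fun h => hy (rho_zero (by
      rw [mem_closedBall, dist_comm, dist_eq_norm] at h
      exact (not_le.1 h).le))) isClosed_closedBall
  exact ⟨(rho_smooth k).comp (contDiff_const.sub contDiff_id),
    (isCompact_closedBall x _).of_isClosed_subset (isClosed_tsupport _) h, h⟩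

end Pool.Agent.MP_5cfeaf_gt.W

end

section

/-! The perimeter measure. -/

set_option autoImplicit false

open MeasureTheory Set Filter Topology Metric
open scoped ENNReal symmDiff Classical InnerProductSpace ContDiff

namespace Pool.Agent.MP_5cfeaf_gt.W

variable {d : ℕ}

theorem a1_ofReal_sum {ι : Type} (s : Finset ι) (a : ι → ℝ) :
    ENNReal.ofReal (∑ i ∈ s, a i) ≤ ∑ i ∈ s, ENNReal.ofReal (a i) := by
  induction s using Finset.induction_on with
  | empty => simp
  | insert i s hi ih =>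
    rw [Finset.sum_insert hi, Finset.sum_insert hi]
    exact ENNReal.ofReal_add_le.trans (add_le_add_right ih _)

/-- splitting a field by a partition of unity -/
theorem a1_split {ι : Type} (s : Finset ι) (Ω : Set (R d)) {T : R d → R d} {U : Set (R d)}
    (hT : C1c T U) {ψ : ι → R d → ℝ} (hψ : ∀ i ∈ s, ContDiff ℝ 1 (ψ i))
    (h1 : ∀ x ∈ tsupport T, ∑ i ∈ s, ψ i x = 1) :
    ∫ x in Ω, dv T x = ∑ i ∈ s, ∫ x in Ω, dv (fun y => ψ i y • T y) x := by
  have hT' : T = fun y => ∑ i ∈ s, ψ i y • T y := by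
    funext y
    rw [← Finset.sum_smul]
    by_cases hy : y ∈ tsupport T
    · rw [h1 y hy, one_smul]
    · rw [image_eq_zero_of_notMem_tsupport hy, smul_zero]
  rw [← integral_finsetSum _ fun i hi => (dv_integrable (hT.smul_left (hψ i hi))).integrableOn]
  congr 1
  funext x
  rw [← dv_sum s (T := fun i y => ψ i y • T y) (fun i hi => (hψ i hi).smul hT.1) x, ← hT']

theorem a1_iUnion (Ω : Set (R d)) {V : ℕ → Set (R d)} (hV : ∀ i, IsOpen (V i)) :
    Per Ω (⋃ i, V i) ≤ ∑' i, Per Ω (V i) := by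
  refine Per_le fun T hT h1 => ?_
  obtain ⟨s, hs⟩ := hT.2.1.isCompact.elim_finite_subcover V hV hT.2.2
  obtain ⟨ψ, hψ, hle, hone⟩ := exists_pou s (fun i _ => hV i) hT.2.1.isCompact hs
  rw [a1_split s Ω hT (fun i hi => (hψ i hi).1.1) hone]
  refine (a1_ofReal_sum s _).trans (le_trans ?_ (ENNReal.sum_le_tsum s))
  refine Finset.sum_le_sum fun i hi => le_Per Ω ((hψ i hi).1.smul_right hT.1) fun x => ?_
  have h2 : ψ i x ≤ 1 :=
    (Finset.single_le_sum (f := fun j => ψ j x) (fun j hj => (hψ j hj).2 x) hi).trans (hle x)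
  rw [norm_smul, Real.norm_eq_abs, abs_of_nonneg ((hψ i hi).2 x)]
  exact mul_le_one₀ h2 (norm_nonneg _) (h1 x)

theorem a1_add (Ω : Set (R d)) {U V : Set (R d)} (h : Disjoint U V) :
    Per Ω U + Per Ω V ≤ Per Ω (U ∪ V) := by
  refine ENNReal.biSup_add_biSup_le' ⟨fun _ => 0, contDiff_const, HasCompactSupport.zero, by simp, by simp⟩
    ⟨fun _ => 0, contDiff_const, HasCompactSupport.zero, by simp, by simp⟩ ?_
  intro T hT T' hT'
  have h1 : C1c T U := ⟨hT.1, hT.2.1, hT.2.2.1⟩
  have h2 : C1c T' V := ⟨hT'.1, hT'.2.1, hT'.2.2.1⟩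
  rcases le_total (∫ x in Ω, dv T x) 0 with ha | ha
  · rw [ENNReal.ofReal_of_nonpos ha, zero_add]
    exact le_Per Ω (h2.mono subset_union_right) hT'.2.2.2
  rcases le_total (∫ x in Ω, dv T' x) 0 with hb | hb
  · rw [ENNReal.ofReal_of_nonpos hb, add_zero]
    exact le_Per Ω (h1.mono subset_union_left) hT.2.2.2
  rw [← ENNReal.ofReal_add ha hb,
    ← integral_add (dv_integrable h1).integrableOn (dv_integrable h2).integrableOn]
  have h3 : C1c (fun y => T y + T' y) (U ∪ V) :=
    ⟨hT.1.add hT'.1, hT.2.1.add hT'.2.1, (tsupport_add T T').trans (union_subset_union h1.2.2 h2.2.2)⟩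
  have h4 := le_Per Ω h3 fun x => by
    by_cases hx : x ∈ tsupport T
    · have : x ∉ tsupport T' := fun hx' => Set.disjoint_left.1 h (h1.2.2 hx) (h2.2.2 hx')
      rw [image_eq_zero_of_notMem_tsupport this, add_zero]
      exact hT.2.2.2 x
    · rw [image_eq_zero_of_notMem_tsupport hx, zero_add]
      exact hT'.2.2.2 x
  simpa only [dv_add hT.1 hT'.1] using h4

theorem a1_empty (Ω : Set (R d)) : Per Ω (∅ : Set (R d)) = 0 := by
  refine le_antisymm (Per_le fun T hT _ => ?_) zero_le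
  have : ∀ x, dv T x = 0 := fun x => dv_zero fun hx => hT.2.2 hx
  simp [this]

/-- the outer measure -/
noncomputable def a1_om (Ω : Set (R d)) : OuterMeasure (R d) where
  measureOf A := ⨅ (U : Set (R d)) (_ : IsOpen U ∧ A ⊆ U), Per Ω U
  empty := le_antisymm ((iInf₂_le (∅ : Set (R d)) ⟨isOpen_empty, Subset.rfl⟩).trans (a1_empty Ω).le)
    zero_le
  mono h := le_iInf₂ fun U hU => iInf₂_le U ⟨hU.1, h.trans hU.2⟩
  iUnion_nat s _ := by
    refine ENNReal.le_of_forall_pos_le_add fun ε hε hb => ?_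
    obtain ⟨ε', hε', hl⟩ := ENNReal.exists_pos_sum_of_countable (ENNReal.coe_pos.2 hε).ne' ℕ
    have hch : ∀ i, ∃ U : Set (R d), (IsOpen U ∧ s i ⊆ U) ∧
        Per Ω U ≤ (⨅ (U : Set (R d)) (_ : IsOpen U ∧ s i ⊆ U), Per Ω U) + ε' i := by
      intro i
      have h1 : (⨅ (U : Set (R d)) (_ : IsOpen U ∧ s i ⊆ U), Per Ω U) ≠ ⊤ :=
        ((ENNReal.le_tsum (f := fun i => ⨅ (U : Set (R d)) (_ : IsOpen U ∧ s i ⊆ U), Per Ω U)
          i).trans_lt hb).ne
      have h2 := ENNReal.lt_add_right h1 (ENNReal.coe_pos.2 (hε' i)).ne'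
      obtain ⟨U, hU⟩ := iInf_lt_iff.1 h2
      obtain ⟨hU', hlt⟩ := iInf_lt_iff.1 hU
      exact ⟨U, hU', hlt.le⟩
    choose V hV hle using hch
    refine (iInf₂_le (⋃ i, V i) ⟨isOpen_iUnion fun i => (hV i).1,
      iUnion_mono fun i => (hV i).2⟩).trans ((a1_iUnion Ω fun i => (hV i).1).trans ?_)
    refine (ENNReal.tsum_le_tsum hle).trans ?_
    rw [ENNReal.tsum_add]
    exact add_le_add_right hl.le _

theorem a1_om_apply (Ω A : Set (R d)) :
    a1_om Ω A = ⨅ (U : Set (R d)) (_ : IsOpen U ∧ A ⊆ U), Per Ω U := rfl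

theorem a1_metric (Ω : Set (R d)) : (a1_om Ω).IsMetric := by
  intro s t hst
  refine le_antisymm (measure_union_le _ _) ?_
  obtain ⟨r, hr, hd⟩ := hst
  rw [a1_om_apply Ω (s ∪ t)]
  refine le_iInf₂ fun W hW => ?_
  have h1 : a1_om Ω s ≤ Per Ω (W ∩ {x | infEDist x s < infEDist x t}) := by
    refine iInf₂_le _ ⟨hW.1.inter (isOpen_lt continuous_infEDist continuous_infEDist), ?_⟩
    intro x hx
    refine ⟨hW.2 (Or.inl hx), ?_⟩
    show infEDist x s < infEDist x t
    rw [infEDist_zero_of_mem hx]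
    exact lt_of_lt_of_le (pos_iff_ne_zero.2 hr) (le_infEDist.2 (hd x hx))
  have h2 : a1_om Ω t ≤ Per Ω (W ∩ {x | infEDist x t < infEDist x s}) := by
    refine iInf₂_le _ ⟨hW.1.inter (isOpen_lt continuous_infEDist continuous_infEDist), ?_⟩
    intro x hx
    refine ⟨hW.2 (Or.inr hx), ?_⟩
    show infEDist x t < infEDist x s
    rw [infEDist_zero_of_mem hx]
    refine lt_of_lt_of_le (pos_iff_ne_zero.2 hr) (le_infEDist.2 fun y hy => ?_)
    rw [edist_comm]
    exact hd y hy x hx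
  refine (add_le_add h1 h2).trans ((a1_add Ω ?_).trans (Per_mono Ω ?_))
  · rw [Set.disjoint_left]
    intro x hx hx'
    exact lt_asymm (show infEDist x s < infEDist x t from hx.2) hx'.2
  · exact union_subset inter_subset_left inter_subset_left

theorem pm_apply (Ω A : Set (R d)) :
    pm Ω A = ⨅ (U : Set (R d)) (_ : IsOpen U ∧ A ⊆ U), Per Ω U := by
  have h : ∃ μ : Measure (R d), ∀ A, μ A = ⨅ (U : Set (R d)) (_ : IsOpen U ∧ A ⊆ U), Per Ω U := by
    refine ⟨(a1_om Ω).toMeasure (a1_metric Ω).le_caratheodory, fun A => le_antisymm ?_ ?_⟩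
    · refine le_iInf₂ fun U hU => (measure_mono hU.2).trans ?_
      rw [toMeasure_apply _ _ hU.1.measurableSet]
      exact iInf₂_le U ⟨hU.1, Subset.rfl⟩
    · exact le_toMeasure_apply _ _ A
  unfold pm
  rw [dif_pos h]
  exact h.choose_spec A

theorem pm_open (Ω : Set (R d)) {U : Set (R d)} (hU : IsOpen U) : pm Ω U = Per Ω U := by
  rw [pm_apply]
  exact le_antisymm (iInf₂_le U ⟨hU, Subset.rfl⟩) (le_iInf₂ fun V hV => Per_mono Ω hV.2)

theorem isOpen_lf (Ω : Set (R d)) : IsOpen (lf Ω) := by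
  rw [Metric.isOpen_iff]
  rintro x ⟨r, hr, hx⟩
  refine ⟨r, hr, fun y hy => ?_⟩
  obtain ⟨s, hs, hsub⟩ := Metric.isOpen_iff.1 isOpen_ball y hy
  exact ⟨s, hs, (measure_mono hsub).trans_lt hx⟩

theorem pm_lt_top {Ω K : Set (R d)} (hK : IsCompact K) (h : K ⊆ lf Ω) : pm Ω K < ⊤ := by
  refine hK.measure_lt_top_of_nhdsWithin fun x hx => ?_
  obtain ⟨r, hr, hlt⟩ := h hx
  exact ⟨ball x r, mem_nhdsWithin_of_mem_nhds (ball_mem_nhds x hr), hlt⟩

theorem subset_lf {Ω U : Set (R d)} (hU : IsOpen U) (h : pm Ω U < ⊤) : U ⊆ lf Ω := by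
  intro x hx
  obtain ⟨s, hs, hsub⟩ := Metric.isOpen_iff.1 hU x hx
  exact ⟨s, hs, (measure_mono hsub).trans_lt h⟩

theorem pm_empty : pm (∅ : Set (R d)) = 0 := by
  rw [← Measure.measure_univ_eq_zero, pm_open _ isOpen_univ]
  refine le_antisymm (Per_le fun T _ _ => ?_) zero_le
  simp

theorem pm_singleton {Ω : Set (R d)} {x : R d} (h : x ∉ lf Ω) : pm Ω {x} = ⊤ := by
  rw [pm_apply, eq_top_iff]
  refine le_iInf₂ fun U hU => ?_
  rw [← pm_open Ω hU.1, top_le_iff]
  by_contra hne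
  exact h (subset_lf hU.1 (lt_top_iff_ne_top.2 hne) (hU.2 rfl))

end Pool.Agent.MP_5cfeaf_gt.W

end

section

/-! Locality and lower semicontinuity. -/

set_option autoImplicit false

open MeasureTheory Set Filter Topology Metric
open scoped ENNReal symmDiff Classical InnerProductSpace ContDiff

namespace Pool.Agent.MP_5cfeaf_gt.W

variable {d : ℕ}

theorem a16_neg {T : R d → R d} {U : Set (R d)} (hT : C1c T U) : C1c (fun y => -T y) U := by
  have := hT.smul_left (f := fun _ => (-1 : ℝ)) contDiff_const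
  simpa using this

theorem a16_compl_le {Ω : Set (R d)} (hΩ : MeasurableSet Ω) (U : Set (R d)) : Per Ωᶜ U ≤ Per Ω U := by
  refine Per_le fun T hT h1 => le_trans (le_of_eq ?_) (le_Per Ω (a16_neg hT) (by simpa only [norm_neg] using h1))
  congr 1
  have h2 := integral_add_compl hΩ (dv_integrable hT)
  rw [integral_dv hT] at h2
  simp only [dv_neg, integral_neg]
  linarith

theorem pm_compl {Ω : Set (R d)} (hΩ : MeasurableSet Ω) : pm Ωᶜ = pm Ω := by
  ext A _
  rw [pm_apply, pm_apply]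
  refine iInf_congr fun U => iInf_congr fun _ => le_antisymm (a16_compl_le hΩ U) ?_
  simpa using a16_compl_le hΩ.compl U

theorem a16_diff {U : Set (R d)} {T : R d → R d}
    (hT : C1c T U) : ∃ C : ℝ, 0 ≤ C ∧ ∀ Ω Ω' : Set (R d), MeasurableSet Ω → MeasurableSet Ω' →
      |(∫ x in Ω, dv T x) - ∫ x in Ω', dv T x| ≤ C * (volume ((Ω ∆ Ω') ∩ tsupport T)).toReal := by
  have hc : HasCompactSupport (dv T) := HasCompactSupport.intro hT.2.1 fun x hx => dv_zero hx
  obtain ⟨C, hC⟩ := (dv_cont hT.1).bounded_above_of_compact_support hc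
  have hC0 : 0 ≤ C := (norm_nonneg _).trans (hC 0)
  refine ⟨C, hC0, fun A A' hA hA' => ?_⟩
  have hi := dv_integrable hT
  have hm : MeasurableSet ((A ∆ A') ∩ tsupport T) :=
    (hA.symmDiff hA').inter (isClosed_tsupport T).measurableSet
  have hf : volume ((A ∆ A') ∩ tsupport T) < ⊤ :=
    (measure_mono inter_subset_right).trans_lt hT.2.1.isCompact.measure_lt_top
  rw [← integral_indicator hA, ← integral_indicator hA', ← integral_sub (hi.indicator hA) (hi.indicator hA'),
    ← Real.norm_eq_abs]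
  refine (norm_integral_le_of_norm_le (g := ((A ∆ A') ∩ tsupport T).indicator fun _ => C)
    ((integrable_indicator_iff hm).2 (integrableOn_const hf.ne)) (Eventually.of_forall fun x => ?_)).trans ?_
  · by_cases hx : x ∈ tsupport T
    · by_cases h1 : x ∈ A <;> by_cases h2 : x ∈ A' <;>
        simp [indicator, h1, h2, hx, mem_symmDiff, hC0] <;> exact hC x
    · simp [indicator, dv_zero hx, hx]
  · rw [integral_indicator hm, setIntegral_const, smul_eq_mul, mul_comm]
    rfl

theorem a16_per {Ω Ω' U V : Set (R d)} (hΩ : MeasurableSet Ω) (hΩ' : MeasurableSet Ω')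
    (h : volume ((Ω ∆ Ω') ∩ U) = 0) (hV : V ⊆ U) : Per Ω V ≤ Per Ω' V := by
  refine Per_le fun T hT h1 => le_trans (le_of_eq ?_) (le_Per Ω' hT h1)
  obtain ⟨C, -, hC⟩ := a16_diff hT
  have h2 := hC Ω Ω' hΩ hΩ'
  rw [measure_mono_null (inter_subset_inter_right _ (hT.2.2.trans hV)) h] at h2
  simp only [ENNReal.toReal_zero, mul_zero, abs_nonpos_iff, sub_eq_zero] at h2
  rw [h2]

theorem a16_le {Ω Ω' U A : Set (R d)} (hΩ : MeasurableSet Ω) (hΩ' : MeasurableSet Ω') (hU : IsOpen U)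
    (h : volume ((Ω ∆ Ω') ∩ U) = 0) : pm Ω (A ∩ U) ≤ pm Ω' (A ∩ U) := by
  rw [pm_apply, pm_apply]
  refine le_iInf₂ fun V hV => iInf₂_le_of_le (V ∩ U)
    ⟨hV.1.inter hU, subset_inter hV.2 inter_subset_right⟩ ?_
  exact (a16_per hΩ hΩ' h inter_subset_right).trans (Per_mono _ inter_subset_left)

/-- locality -/
theorem pm_congr {Ω Ω' U : Set (R d)} (hΩ : MeasurableSet Ω) (hΩ' : MeasurableSet Ω') (hU : IsOpen U)
    (h : volume ((Ω ∆ Ω') ∩ U) = 0) : (pm Ω).restrict U = (pm Ω').restrict U := by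
  ext A hA
  rw [Measure.restrict_apply hA, Measure.restrict_apply hA]
  exact le_antisymm (a16_le hΩ hΩ' hU h) (a16_le hΩ' hΩ hU (by rwa [symmDiff_comm]))

/-- lower semicontinuity -/
theorem pm_lsc {ι : Type} {l : Filter ι} [l.NeBot] {Ω : ι → Set (R d)} {Ω₀ U : Set (R d)}
    (hU : IsOpen U) (hm : ∀ᶠ i in l, MeasurableSet (Ω i)) (h₀ : MeasurableSet Ω₀)
    (h : ∀ K, IsCompact K → K ⊆ U → Tendsto (fun i => volume ((Ω i ∆ Ω₀) ∩ K)) l (𝓝 0)) :
    pm Ω₀ U ≤ liminf (fun i => pm (Ω i) U) l := by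
  simp only [pm_open _ hU]
  refine Per_le fun T hT h1 => ?_
  obtain ⟨C, -, hC⟩ := a16_diff hT
  have h2 : Tendsto (fun i => C * (volume ((Ω i ∆ Ω₀) ∩ tsupport T)).toReal) l (𝓝 0) := by
    have := ((ENNReal.tendsto_toReal ENNReal.zero_ne_top).comp
      (h _ hT.2.1.isCompact hT.2.2)).const_mul C
    simpa using this
  have h3 : Tendsto (fun i => ∫ x in Ω i, dv T x) l (𝓝 (∫ x in Ω₀, dv T x)) := by
    rw [tendsto_iff_norm_sub_tendsto_zero]
    refine squeeze_zero' (Eventually.of_forall fun _ => norm_nonneg _) ?_ h2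
    filter_upwards [hm] with i hi using hC _ _ hi h₀
  rw [← (ENNReal.tendsto_ofReal h3).liminf_eq]
  exact liminf_le_liminf (Eventually.of_forall fun i => le_Per _ hT h1)

/-- a measure that is finite on the compact subsets of an open set is sigma-finite there -/
theorem sigmaFinite_restrict {U : Set (R d)} (hU : IsOpen U) (σ : Measure (R d))
    (hσ : ∀ K, IsCompact K → K ⊆ U → σ K < ⊤) : SigmaFinite (σ.restrict U) := by
  obtain ⟨F, hF, hFU, hU', -⟩ := hU.exists_iUnion_isClosed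
  refine Measure.sigmaFinite_of_countable
    (S := insert Uᶜ (range fun p : ℕ × ℕ => F p.1 ∩ closedBall 0 p.2))
    ((countable_range _).insert _) ?_ ?_
  · rintro s (rfl | ⟨p, rfl⟩)
    · rw [Measure.restrict_apply hU.measurableSet.compl]
      simp
    · exact (Measure.restrict_apply_le _ _).trans_lt (hσ _
        ((isCompact_closedBall _ _).inter_left (hF _)) (inter_subset_left.trans (hFU _)))
  · refine eq_univ_of_forall fun x => ?_
    by_cases hx : x ∈ U
    · rw [← hU'] at hx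
      obtain ⟨n, hn⟩ := mem_iUnion.1 hx
      obtain ⟨m, hm⟩ := exists_nat_ge ‖x‖
      exact ⟨_, Or.inr ⟨(n, m), rfl⟩, hn, mem_closedBall_zero_iff.2 hm⟩
    · exact ⟨_, Or.inl rfl, hx⟩

/-- finite integrals only see `lf Ω` -/
theorem lintegral_lf {Ω U : Set (R d)} (hU : MeasurableSet U) {f : R d → ℝ≥0∞} (hf : Measurable f)
    (h : ∫⁻ x in U, f x ∂pm Ω < ⊤) : ∀ x ∈ U, x ∉ lf Ω → f x = 0 := by
  intro x hx hl
  by_contra h0
  have h1 : ∫⁻ y in {x}, f y ∂pm Ω ≤ ∫⁻ y in U, f y ∂pm Ω :=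
    lintegral_mono_set (singleton_subset_iff.2 hx)
  rw [lintegral_singleton, pm_singleton hl, ENNReal.mul_top h0] at h1
  exact absurd (h1.trans_lt h) (lt_irrefl _)

theorem flat_le {Ω Ω' : Set (R d)} (hΩ : MeasurableSet Ω) (hΩ' : MeasurableSet Ω') :
    flat Ω Ω' ≤ min (volume ((Ω ∆ Ω') ∩ B d)) (volume ((Ω ∆ Ω'ᶜ) ∩ B d)) := by
  have h0 : Per (∅ : Set (R d)) (ball 0 1) = 0 :=
    le_antisymm (Per_le fun T _ _ => by simp) bot_le
  have h1 : Per (univ : Set (R d)) (ball 0 1) = 0 :=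
    le_antisymm (Per_le fun T hT _ => by simp [integral_dv hT]) bot_le
  refine le_min (iInf₂_le_of_le ∅ MeasurableSet.empty ?_) (iInf₂_le_of_le univ MeasurableSet.univ ?_)
  · rw [h0, add_zero]
    refine measure_mono fun x => ?_
    simp only [mem_inter_iff, mem_symmDiff, mem_empty_iff_false]
    tauto
  · rw [h1, add_zero]
    refine measure_mono fun x => ?_
    simp only [mem_inter_iff, mem_symmDiff, mem_univ, mem_compl_iff]
    tauto

end Pool.Agent.MP_5cfeaf_gt.W

end

section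

/-! The total variation bound. -/

set_option autoImplicit false

open MeasureTheory Set Filter Topology Metric
open scoped ENNReal symmDiff Classical InnerProductSpace ContDiff

namespace Pool.Agent.MP_5cfeaf_gt.W

variable {d : ℕ}

theorem a2_lim {x a C : ℝ≥0∞} (hC : C ≠ ⊤) (h : ∀ η : ℝ, 0 < η → x ≤ a + C * ENNReal.ofReal η) :
    x ≤ a := by
  have h1 : Tendsto (fun η : ℝ => ENNReal.ofReal η) (𝓝[>] 0) (𝓝 0) := by
    have := ENNReal.tendsto_ofReal (tendsto_id (x := 𝓝 (0 : ℝ)))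
    rw [ENNReal.ofReal_zero] at this
    exact this.mono_left nhdsWithin_le_nhds
  have h2 := (tendsto_const_nhds (x := a)).add (ENNReal.Tendsto.const_mul h1 (Or.inr hC))
  rw [mul_zero, add_zero] at h2
  exact ge_of_tendsto h2 (eventually_nhdsWithin_of_forall h)

theorem int_dv_le_fin (Ω : Set (R d)) {T : R d → R d} (hT : C1c T univ)
    (hf : pm Ω (tsupport T) < ⊤) :
    ENNReal.ofReal (∫ x in Ω, dv T x) ≤ ∫⁻ x, ‖T x‖ₑ ∂pm Ω := by
  have hc : Continuous T := hT.1.continuous
  obtain ⟨M, hM⟩ := hc.bounded_above_of_compact_support hT.2.1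
  refine a2_lim hf.ne fun ε hε => ?_
  obtain ⟨N, hN⟩ := exists_nat_gt (M / ε)
  rw [div_lt_iff₀ hε] at hN
  set A : ℕ → Set (R d) := fun j => tsupport T ∩ {x | j * ε ≤ ‖T x‖ ∧ ‖T x‖ < (j + 1) * ε} with hA
  have hAm : ∀ j, MeasurableSet (A j) := fun j =>
    (isClosed_tsupport T).measurableSet.inter
      ((measurableSet_le measurable_const hc.norm.measurable).inter
        (measurableSet_lt hc.norm.measurable measurable_const))
  refine a2_lim (C := ∑ j ∈ Finset.range N, ENNReal.ofReal ((j + 1) * ε))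
    (ENNReal.sum_ne_top.2 fun j _ => ENNReal.ofReal_ne_top) fun η hη => ?_
  have hch : ∀ j : ℕ, ∃ V : Set (R d), IsOpen V ∧ A j ⊆ V ∧ (∀ x ∈ V, ‖T x‖ < (j + 1) * ε) ∧
      Per Ω V ≤ pm Ω (A j) + ENNReal.ofReal η := by
    intro j
    have h1 : pm Ω (A j) ≠ ⊤ := ((measure_mono inter_subset_left).trans_lt hf).ne
    have h2 := ENNReal.lt_add_right h1 (ENNReal.ofReal_pos.2 hη).ne'
    have h3 := (pm_apply Ω (A j)).symm.trans_lt h2
    obtain ⟨U, hU⟩ := iInf_lt_iff.1 h3
    obtain ⟨hU', hlt⟩ := iInf_lt_iff.1 hU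
    exact ⟨U ∩ {x | ‖T x‖ < (j + 1) * ε}, hU'.1.inter (isOpen_lt hc.norm continuous_const),
      fun x hx => ⟨hU'.2 hx, hx.2.2⟩, fun x hx => hx.2, (Per_mono Ω inter_subset_left).trans hlt.le⟩
  choose V hVo hAV hVT hVP using hch
  have hcov : tsupport T ⊆ ⋃ j ∈ Finset.range N, V j := by
    intro x hx
    have h0 : 0 ≤ ‖T x‖ / ε := by positivity
    have h1 := Nat.floor_le h0
    have h2 := Nat.lt_floor_add_one (‖T x‖ / ε)
    rw [le_div_iff₀ hε] at h1
    rw [div_lt_iff₀ hε] at h2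
    refine mem_iUnion₂.2 ⟨⌊‖T x‖ / ε⌋₊, Finset.mem_range.2 ?_, hAV _ ⟨hx, h1, h2⟩⟩
    have h3 : (⌊‖T x‖ / ε⌋₊ : ℝ) * ε < N * ε := lt_of_le_of_lt (h1.trans (hM x)) hN
    exact_mod_cast lt_of_mul_lt_mul_right h3 hε.le
  obtain ⟨ψ, hψ, hle, hone⟩ := exists_pou (Finset.range N) (fun i _ => hVo i) hT.2.1.isCompact hcov
  rw [a1_split _ Ω hT (fun i hi => (hψ i hi).1.1) hone]
  refine (a1_ofReal_sum _ _).trans ?_
  have hj : ∀ j ∈ Finset.range N, ENNReal.ofReal (∫ x in Ω, dv (fun y => ψ j y • T y) x) ≤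
      (∫⁻ x in A j, (‖T x‖ₑ + ENNReal.ofReal ε) ∂pm Ω) +
        ENNReal.ofReal ((j + 1) * ε) * ENNReal.ofReal η := by
    intro j hj
    have h1 := ofReal_int_le Ω ((hψ j hj).1.smul_right hT.1) (c := (j + 1) * ε) (by positivity)
      fun x => by
        have h2 : ψ j x ≤ 1 :=
          (Finset.single_le_sum (f := fun i => ψ i x) (fun i hi => (hψ i hi).2 x) hj).trans (hle x)
        by_cases hx : x ∈ tsupport (ψ j)
        · rw [norm_smul, Real.norm_eq_abs, abs_of_nonneg ((hψ j hj).2 x)]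
          exact (mul_le_of_le_one_left (norm_nonneg _) h2).trans (hVT j x ((hψ j hj).1.2.2 hx)).le
        · rw [image_eq_zero_of_notMem_tsupport hx, zero_smul, norm_zero]
          positivity
    refine h1.trans ((mul_le_mul_right (hVP j) _).trans ?_)
    rw [mul_add, ← setLIntegral_const]
    refine add_le_add_left (setLIntegral_mono' (hAm j) fun x hx => ?_) _
    rw [← ofReal_norm, ← ENNReal.ofReal_add (norm_nonneg _) hε.le]
    apply ENNReal.ofReal_le_ofReal
    linarith only [hx.2.1]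
  refine (Finset.sum_le_sum hj).trans ?_
  rw [Finset.sum_add_distrib, ← Finset.sum_mul]
  refine add_le_add_left ?_ _
  rw [← lintegral_biUnion_finset _ (fun j _ => hAm j)]
  · refine (lintegral_mono_set (t := tsupport T) (iUnion₂_subset fun j _ => inter_subset_left)).trans ?_
    rw [lintegral_add_right _ measurable_const, setLIntegral_const, mul_comm]
    exact add_le_add_left (setLIntegral_le_lintegral _ _) _
  · have key : ∀ i j : ℕ, i < j → Disjoint (A i) (A j) := by
      intro i j hij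
      rw [Set.disjoint_left]
      intro x hi hj
      have h1 : ((i : ℝ) + 1) * ε ≤ j * ε :=
        mul_le_mul_of_nonneg_right (by exact_mod_cast hij) hε.le
      linarith only [hi.2.2, hj.2.1, h1]
    intro i _ j _ hij
    rcases lt_or_gt_of_ne hij with h | h
    · exact key i j h
    · exact (key j i h).symm

/-- cut-off profile -/
noncomputable def a2_H (s : ℝ) : ℝ := Real.smoothTransition (s - 1)

theorem a2_H_smooth : ContDiff ℝ 1 a2_H :=
  Real.smoothTransition.contDiff.comp (contDiff_id.sub contDiff_const)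

theorem a2_H_big {s : ℝ} (hs : 2 < s) : a2_H s = 1 ∧ deriv a2_H s = 0 := by
  refine ⟨Real.smoothTransition.one_of_one_le (by linarith), ?_⟩
  have : a2_H =ᶠ[𝓝 s] fun _ => 1 := by
    filter_upwards [lt_mem_nhds hs] with t ht
    exact Real.smoothTransition.one_of_one_le (by linarith)
  rw [this.deriv_eq, deriv_const]

theorem a2_H_bd : ∃ C, ∀ s, 0 ≤ s → |deriv a2_H s| * s ≤ C := by
  obtain ⟨C, hC⟩ := (isCompact_Icc (a := (0 : ℝ)) (b := 2)).exists_bound_of_continuousOn
    (a2_H_smooth.continuous_deriv le_rfl).continuousOn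
  have hC0 : 0 ≤ C := (norm_nonneg _).trans (hC 0 ⟨le_rfl, by norm_num⟩)
  refine ⟨C * 2, fun s hs => ?_⟩
  rcases le_or_gt s 2 with h | h
  · exact mul_le_mul (hC s ⟨hs, h⟩) h hs hC0
  · rw [(a2_H_big h).2, abs_zero, zero_mul]
    positivity

theorem a2_dv {T : R d → R d} (hT : ContDiff ℝ 1 T) (c : ℝ) (x : R d) :
    dv (fun y => a2_H (c * ‖T y‖ ^ 2) • T y) x = a2_H (c * ‖T x‖ ^ 2) * dv T x +
      deriv a2_H (c * ‖T x‖ ^ 2) * (c * (2 * ⟪T x, fderiv ℝ T x (T x)⟫_ℝ)) := by
  have hf : ContDiff ℝ 1 fun y => a2_H (c * ‖T y‖ ^ 2) :=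
    a2_H_smooth.comp (contDiff_const.mul (hT.norm_sq ℝ))
  rw [dv_smul hf hT]
  congr 1
  have h1 := ((hT.differentiable one_ne_zero x).hasFDerivAt.norm_sq).const_mul c
  have h2 := ((a2_H_smooth.differentiable one_ne_zero) (c * ‖T x‖ ^ 2)).hasDerivAt.comp_hasFDerivAt x h1
  have h3 : fderiv ℝ (fun y => a2_H (c * ‖T y‖ ^ 2)) x = _ := h2.fderiv
  rw [h3]
  simp

theorem int_dv_le (Ω : Set (R d)) {T : R d → R d} (hT : C1c T univ) :
    ENNReal.ofReal (∫ x in Ω, dv T x) ≤ ∫⁻ x, ‖T x‖ₑ ∂pm Ω := by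
  rcases eq_or_ne (∫⁻ x, ‖T x‖ₑ ∂pm Ω) ⊤ with hI | hI
  · rw [hI]; exact le_top
  have hc : Continuous T := hT.1.continuous
  obtain ⟨C, hC⟩ := a2_H_bd
  have hH : ∀ s, 0 ≤ a2_H s ∧ a2_H s ≤ 1 := fun s =>
    ⟨Real.smoothTransition.nonneg _, Real.smoothTransition.le_one _⟩
  set S : ℕ → R d → R d := fun k y => a2_H ((k : ℝ) ^ 2 * ‖T y‖ ^ 2) • T y with hS
  have hSc : ∀ k, C1c (S k) univ := fun k =>
    hT.smul_left (a2_H_smooth.comp (contDiff_const.mul (hT.1.norm_sq ℝ)))
  have hle : ∀ k, ENNReal.ofReal (∫ x in Ω, dv (S k) x) ≤ ∫⁻ x, ‖T x‖ₑ ∂pm Ω := by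
    intro k
    refine (int_dv_le_fin Ω (hSc k) ?_).trans (lintegral_mono fun x => ?_)
    · have hδ : 0 < ((k : ℝ) + 1)⁻¹ := by positivity
      have h1 : tsupport (S k) ⊆ {x | ENNReal.ofReal ((k : ℝ) + 1)⁻¹ ≤ ‖T x‖ₑ} := by
        refine closure_minimal (fun x hx => ?_) (isClosed_le continuous_const hc.enorm)
        show ENNReal.ofReal ((k : ℝ) + 1)⁻¹ ≤ ‖T x‖ₑ
        rw [← ofReal_norm]
        apply ENNReal.ofReal_le_ofReal
        by_contra hn
        rw [not_le] at hn
        apply hx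
        have h2 : (k : ℝ) * ‖T x‖ ≤ 1 := by
          have h5 : ((k : ℝ) + 1) * ‖T x‖ ≤ ((k : ℝ) + 1) * ((k : ℝ) + 1)⁻¹ :=
            mul_le_mul_of_nonneg_left hn.le (by positivity)
          rw [mul_inv_cancel₀ (by positivity)] at h5
          linarith only [norm_nonneg (T x), h5]
        have h3 : a2_H ((k : ℝ) ^ 2 * ‖T x‖ ^ 2) = 0 := by
          apply Real.smoothTransition.zero_of_nonpos
          have h4 : 0 ≤ (k : ℝ) * ‖T x‖ := by positivity
          rw [← mul_pow]
          nlinarith only [h2, h4]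
        simp only [hS, h3, zero_smul]
      refine (measure_mono h1).trans_lt ?_
      have h2 := mul_meas_ge_le_lintegral (μ := pm Ω) hc.enorm.measurable
        (ENNReal.ofReal ((k : ℝ) + 1)⁻¹)
      exact ENNReal.lt_top_of_mul_ne_top_right (ne_top_of_le_ne_top hI h2)
        (ENNReal.ofReal_pos.2 hδ).ne'
    · rw [← ofReal_norm, ← ofReal_norm]
      apply ENNReal.ofReal_le_ofReal
      simp only [hS]
      rw [norm_smul, Real.norm_eq_abs, abs_of_nonneg (hH _).1]
      exact mul_le_of_le_one_left (norm_nonneg _) (hH _).2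
  have hae : ∀ᵐ x : R d, T x = 0 → fderiv ℝ T x = 0 := by
    have hm : MeasurableSet {x | T x = 0} := (isClosed_eq hc continuous_const).measurableSet
    have h1 : ApproximatesLinearOn T (0 : R d →L[ℝ] R d) {x | T x = 0} 0 := by
      intro x hx y hy
      rw [show T x = 0 from hx, show T y = 0 from hy]
      simp
    have h2 := h1.norm_fderiv_sub_le volume hm (fderiv ℝ T) fun x _ =>
      (hT.1.differentiable one_ne_zero x).hasFDerivAt.hasFDerivWithinAt
    rw [ae_restrict_iff' hm] at h2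
    filter_upwards [h2] with x hx hx0
    simpa only [sub_zero, nonpos_iff_eq_zero, nnnorm_eq_zero] using hx hx0
  have hlim : Tendsto (fun k => ∫ x in Ω, dv (S k) x) atTop (𝓝 (∫ x in Ω, dv T x)) := by
    refine tendsto_integral_of_dominated_convergence (fun x => |dv T x| + 2 * C * ‖fderiv ℝ T x‖)
      (fun k => (dv_cont (hSc k).1).aestronglyMeasurable) ?_ ?_ ?_
    · refine ((dv_integrable hT).abs.add (Integrable.const_mul ?_ _)).integrableOn
      exact ((hT.1.continuous_fderiv one_ne_zero).integrable_of_hasCompactSupport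
        (hT.2.1.fderiv ℝ)).norm
    · refine fun k => Eventually.of_forall fun x => ?_
      simp only [hS]
      rw [a2_dv hT.1, Real.norm_eq_abs]
      refine (abs_add_le _ _).trans (add_le_add ?_ ?_)
      · rw [abs_mul, abs_of_nonneg (hH _).1]
        exact mul_le_of_le_one_left (abs_nonneg _) (hH _).2
      · have h1 : |⟪T x, fderiv ℝ T x (T x)⟫_ℝ| ≤ ‖T x‖ * (‖fderiv ℝ T x‖ * ‖T x‖) :=
          (abs_real_inner_le_norm _ _).trans
            (mul_le_mul_of_nonneg_left (ContinuousLinearMap.le_opNorm _ _) (norm_nonneg _))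
        have h2 := hC ((k : ℝ) ^ 2 * ‖T x‖ ^ 2) (by positivity)
        rw [abs_mul, abs_mul, abs_mul, abs_of_nonneg (sq_nonneg (k : ℝ)), abs_two]
        calc _ ≤ |deriv a2_H ((k : ℝ) ^ 2 * ‖T x‖ ^ 2)| *
              ((k : ℝ) ^ 2 * (2 * (‖T x‖ * (‖fderiv ℝ T x‖ * ‖T x‖)))) := by gcongr
          _ = 2 * (|deriv a2_H ((k : ℝ) ^ 2 * ‖T x‖ ^ 2)| * ((k : ℝ) ^ 2 * ‖T x‖ ^ 2)) *
              ‖fderiv ℝ T x‖ := by ring
          _ ≤ _ := by gcongr
    · refine ae_restrict_of_ae ?_
      filter_upwards [hae] with x hx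
      refine tendsto_const_nhds.congr' ?_
      by_cases h0 : T x = 0
      · refine Eventually.of_forall fun k => ?_
        have h1 : dv T x = 0 := by
          have := dv_abs_le T x
          rw [hx h0, norm_zero, mul_zero] at this
          exact abs_nonpos_iff.1 this
        simp only [hS]
        rw [a2_dv hT.1, h1, h0]
        simp
      · have h1 : Tendsto (fun k : ℕ => (k : ℝ) ^ 2 * ‖T x‖ ^ 2) atTop atTop :=
          ((tendsto_pow_atTop two_ne_zero).comp tendsto_natCast_atTop_atTop).atTop_mul_const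
            (pow_pos (norm_pos_iff.2 h0) 2)
        filter_upwards [h1.eventually_gt_atTop 2] with k hk
        simp only [hS]
        rw [a2_dv hT.1, (a2_H_big hk).1, (a2_H_big hk).2]
        simp
  exact le_of_tendsto' (ENNReal.tendsto_ofReal hlim) hle

end Pool.Agent.MP_5cfeaf_gt.W

end

section

/-! The normal. -/

set_option autoImplicit false

open MeasureTheory Set Filter Topology Metric
open scoped ENNReal symmDiff Classical InnerProductSpace ContDiff

namespace Pool.Agent.MP_5cfeaf_gt.W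

variable {d : ℕ}

theorem a3_hb {V H : Type} [AddCommGroup V] [Module ℝ V] [AddCommGroup H] [Module ℝ H]
    (J : V →ₗ[ℝ] H) (Λ : V →ₗ[ℝ] ℝ) (N : H → ℝ) (h1 : ∀ c : ℝ, 0 < c → ∀ x, N (c • x) = c * N x)
    (h2 : ∀ x y, N (x + y) ≤ N x + N y) (h : ∀ v, Λ v ≤ N (J v)) :
    ∃ g : H →ₗ[ℝ] ℝ, (∀ v, g (J v) = Λ v) ∧ ∀ x, g x ≤ N x := by
  have h0 : N 0 = 0 := by have := h1 2 two_pos 0; rw [smul_zero] at this; linarith
  have hk : LinearMap.ker J ≤ LinearMap.ker Λ := fun v hv => by
    have a1 := h v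
    have a2 := h (-v)
    rw [LinearMap.mem_ker] at hv ⊢
    rw [map_neg, map_neg, hv, neg_zero] at a2
    rw [hv] at a1
    linarith
  have e : ∀ v, ((LinearMap.ker J).liftQ Λ hk ∘ₗ J.quotKerEquivRange.symm.toLinearMap)
      ⟨J v, v, rfl⟩ = Λ v := fun v => by
    simp [LinearMap.quotKerEquivRange_symm_apply_image]
  obtain ⟨g, g1, g2⟩ := exists_extension_of_le_sublinear
    ⟨LinearMap.range J, (LinearMap.ker J).liftQ Λ hk ∘ₗ J.quotKerEquivRange.symm.toLinearMap⟩ N h1 h2
    (by rintro ⟨_, v, rfl⟩; exact (e v).trans_le (h v))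
  exact ⟨g, fun v => (g1 ⟨J v, v, rfl⟩).trans (e v), g2⟩

theorem a3_riesz (μ : Measure (R d)) [IsFiniteMeasure μ] (g : Lp (R d) 2 μ →ₗ[ℝ] ℝ)
    (h : ∀ v, g v ≤ ∫ x, ‖v x‖ ∂μ) : ∃ ξ : R d → R d, Measurable ξ ∧ (∀ᵐ x ∂μ, ‖ξ x‖ ≤ 1) ∧
      ∀ v, g v = ∫ x, ⟪ξ x, v x⟫_ℝ ∂μ := by
  have hb : ∀ v : Lp (R d) 2 μ, g v ≤ (μ univ ^ (1 / 2 : ℝ)).toReal * ‖v‖ := fun v => by
    have h1 := eLpNorm_le_eLpNorm_mul_rpow_measure_univ (p := 1) (q := 2) one_le_two
      (Lp.aestronglyMeasurable v)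
    rw [eLpNorm_one_eq_lintegral_enorm, ← ofReal_integral_norm_eq_lintegral_enorm
      ((Lp.memLp v).integrable one_le_two)] at h1
    refine (h v).trans ?_
    rw [Lp.norm_def, mul_comm, ← ENNReal.toReal_mul]
    refine (ENNReal.ofReal_le_iff_le_toReal (ENNReal.mul_ne_top (Lp.eLpNorm_ne_top v)
      (by finiteness))).1 (h1.trans_eq ?_)
    norm_num only [ENNReal.toReal_one, div_self, ENNReal.toReal_ofNat, one_div]
  let g' := g.mkContinuous _ fun v => abs_le.2 ⟨by simpa [neg_le] using hb (-v), hb v⟩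
  let ξ := (InnerProductSpace.toDual ℝ _).symm g'
  have e : ∀ v, g v = ∫ x, ⟪ξ x, v x⟫_ℝ ∂μ := fun v =>
    (InnerProductSpace.toDual_symm_apply (x := v) (y := g')).symm.trans (L2.inner_def _ _)
  have hm := (Lp.stronglyMeasurable ξ).measurable
  refine ⟨ξ, hm, ?_, e⟩
  have hA : MeasurableSet {x | 1 < ‖ξ x‖} := measurableSet_lt measurable_const hm.norm
  obtain ⟨v, hv⟩ : ∃ v : Lp (R d) 2 μ, v =ᵐ[μ] {x | 1 < ‖ξ x‖}.indicator ξ :=
    ⟨_, ((Lp.memLp ξ).indicator hA).coeFn_toLp⟩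
  have h2 := h v
  have i1 : Integrable (fun x => ‖v x‖) μ := ((Lp.memLp _).integrable one_le_two).norm
  have i2 := L2.integrable_inner (𝕜 := ℝ) ξ v
  rw [e, ← sub_nonpos, ← integral_sub i2 i1] at h2
  have h3 : ∀ᵐ x ∂μ, ⟪ξ x, v x⟫_ℝ - ‖v x‖ =
      if 1 < ‖ξ x‖ then ‖ξ x‖ * (‖ξ x‖ - 1) else 0 := by
    filter_upwards [hv] with x hx
    rw [hx, indicator_apply]
    by_cases h : 1 < ‖ξ x‖ <;> simp [h]
    ring
  have h4 : 0 ≤ᵐ[μ] fun x => ⟪ξ x, v x⟫_ℝ - ‖v x‖ := by
    filter_upwards [h3] with x hx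
    rw [hx]
    split_ifs with h
    · exact mul_nonneg (norm_nonneg _) (by linarith)
    · rfl
  filter_upwards [h3, (integral_eq_zero_iff_of_nonneg_ae h4 (i2.sub i1)).1
    (h2.antisymm (integral_nonneg_of_ae h4))] with x hx hx'
  by_contra h
  rw [hx', if_pos (not_le.1 h)] at hx
  simp only [Pi.zero_apply] at hx
  nlinarith only [hx, h]

theorem a3_weight (Ω : Set (R d)) : ∃ w : R d → ℝ≥0∞, Measurable w ∧ (∀ x, w x ≤ 2) ∧
    ∫⁻ x, w x ∂pm Ω ≤ 2 ∧ ∀ K, IsCompact K → K ⊆ lf Ω → ∃ c > 0, ∀ x ∈ K, c ≤ w x := by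
  have := (isOpen_lf Ω).locallyCompactSpace
  let C := CompactExhaustion.choice (lf Ω)
  let K : ℕ → Set (R d) := fun j => Subtype.val '' C j
  have hK : ∀ j, IsCompact (K j) := fun j => (C.isCompact j).image continuous_subtype_val
  have hf : ∀ j, pm Ω (K j) < ⊤ := fun j => pm_lt_top (hK j) (Subtype.coe_image_subset _ _)
  let c : ℕ → ℝ≥0∞ := fun j => 2⁻¹ ^ j * (1 + pm Ω (K j))⁻¹
  have hm : ∀ j, Measurable ((K j).indicator fun _ => c j) := fun j =>
    measurable_const.indicator (hK j).measurableSet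
  refine ⟨fun x => ∑' j, (K j).indicator (fun _ => c j) x, Measurable.tsum hm, fun x => ?_, ?_,
    fun L hL hl => ?_⟩
  · refine (ENNReal.tsum_le_tsum fun j => (indicator_le_self _ _ x).trans
      (mul_le_of_le_one_right' (ENNReal.inv_le_one.2 le_self_add))).trans_eq ?_
    simp
  · rw [lintegral_tsum fun j => (hm j).aemeasurable]
    refine (ENNReal.tsum_le_tsum fun j => show _ ≤ 2⁻¹ ^ j from ?_).trans_eq (by simp)
    rw [lintegral_indicator_const (hK j).measurableSet, mul_assoc]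
    exact mul_le_of_le_one_right' ((mul_le_mul_right le_add_self _).trans
      (ENNReal.inv_mul_cancel (by simp only [ne_eq, add_eq_zero, one_ne_zero, false_and, not_false_eq_true]) (by simp [(hf j).ne])).le)
  · obtain ⟨j, hj⟩ := C.exists_superset_of_isCompact (s := Subtype.val ⁻¹' L)
      (by rwa [Subtype.isCompact_iff, Subtype.image_preimage_coe, inter_eq_right.2 hl])
    refine ⟨c j, ENNReal.mul_pos (by simp) (by simp [(hf j).ne]), fun x hx => ?_⟩
    refine le_trans (le_of_eq ?_) (ENNReal.le_tsum j)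
    rw [indicator_of_mem (show x ∈ K j from ⟨⟨x, hl hx⟩, hj hx, rfl⟩)]

/-- the test fields in an open set -/
def a3_V (O : Set (R d)) : Submodule ℝ (R d → R d) where
  carrier := {T | C1c T O}
  zero_mem' := ⟨contDiff_const, HasCompactSupport.zero, by simp⟩
  add_mem' h h' := ⟨h.1.add h'.1, h.2.1.add h'.2.1,
    (tsupport_add _ _).trans (union_subset h.2.2 h'.2.2)⟩
  smul_mem' c _ h := C1c.smul_left (contDiff_const (c := c)) h

theorem a3_xi (Ω : Set (R d)) : ∃ ξ : R d → R d, Measurable ξ ∧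
    (∀ᵐ x ∂pm Ω, x ∈ lf Ω → ‖ξ x‖ ≤ 1) ∧
    ∀ T : R d → R d, C1c T (lf Ω) → ∫ x in Ω, dv T x = ∫ x, ⟪T x, ξ x⟫_ℝ ∂pm Ω := by
  obtain ⟨w, hw, w2, wi, wK⟩ := a3_weight Ω
  have w3 : ∀ x, w x < ⊤ := fun x => (w2 x).trans_lt (by simp)
  have w0 : ∀ x ∈ lf Ω, w x ≠ 0 := fun x hx => by
    obtain ⟨c, c0, hc⟩ := wK {x} isCompact_singleton (by simpa)
    exact (c0.trans_le (hc x rfl)).ne'
  set μ := (pm Ω).withDensity w
  have : IsFiniteMeasure μ := isFiniteMeasure_withDensity (wi.trans_lt (by simp)).ne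
  have hz : ∀ T : a3_V (lf Ω), ∀ x, (w x).toReal • (w x).toReal⁻¹ • T.1 x = T.1 x := fun T x => by
    by_cases hx : x ∈ lf Ω
    · exact smul_inv_smul₀ (ENNReal.toReal_ne_zero.2 ⟨w0 x hx, (w3 x).ne⟩) _
    · simp [image_eq_zero_of_notMem_tsupport fun h => hx (T.2.2.2 h)]
  have hL : ∀ T : a3_V (lf Ω), MemLp (fun x => (w x).toReal⁻¹ • T.1 x) 2 μ := fun T => by
    obtain ⟨c, c0, hc⟩ := wK _ T.2.2.1 T.2.2.2
    obtain ⟨M, hM⟩ := T.2.1.continuous.bounded_above_of_compact_support T.2.2.1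
    have hM0 := (norm_nonneg _).trans (hM 0)
    refine MemLp.of_bound (hw.ennreal_toReal.inv.smul T.2.1.continuous.measurable).aestronglyMeasurable
      ((min c 1).toReal⁻¹ * M) (ae_of_all _ fun x => ?_)
    by_cases hx : x ∈ tsupport T.1
    · rw [norm_smul, norm_inv, Real.norm_of_nonneg ENNReal.toReal_nonneg]
      refine mul_le_mul (inv_anti₀ (ENNReal.toReal_pos (by simp only [ne_eq, min_eq_zero, c0.ne', one_ne_zero, or_self, not_false_eq_true]) (by simp only [ne_eq, inf_eq_top_iff, ENNReal.one_ne_top, and_false, not_false_eq_true]))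
        (ENNReal.toReal_mono (w3 x).ne ((min_le_left _ _).trans (hc x hx)))) (hM x) (norm_nonneg _)
        (by positivity)
    · rw [image_eq_zero_of_notMem_tsupport hx, smul_zero, norm_zero]
      positivity
  let J : a3_V (lf Ω) →ₗ[ℝ] Lp (R d) 2 μ :=
    { toFun := fun T => (hL T).toLp
      map_add' := fun T T' => by
        rw [← MemLp.toLp_add]
        exact MemLp.toLp_congr _ _ (ae_of_all _ fun x => smul_add _ _ _)
      map_smul' := fun c T => by
        rw [RingHom.id_apply, ← MemLp.toLp_const_smul]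
        exact MemLp.toLp_congr _ _ (ae_of_all _ fun x => smul_comm _ c (T.1 x)) }
  let Λ : a3_V (lf Ω) →ₗ[ℝ] ℝ :=
    { toFun := fun T => ∫ x in Ω, dv T.1 x
      map_add' := fun T T' => by
        rw [← integral_add (dv_integrable T.2).restrict (dv_integrable T'.2).restrict]
        exact integral_congr_ae (ae_of_all _ (dv_add T.2.1 T'.2.1))
      map_smul' := fun c T => by
        rw [RingHom.id_apply, smul_eq_mul, ← integral_const_mul]
        exact integral_congr_ae (ae_of_all _ (dv_const_smul c T.1)) }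
  have hJ : ∀ T, J T =ᵐ[μ] fun x => (w x).toReal⁻¹ • T.1 x := fun T => (hL T).coeFn_toLp
  have hi : ∀ v : Lp (R d) 2 μ, Integrable (fun x => ‖v x‖) μ := fun v =>
    ((Lp.memLp v).integrable one_le_two).norm
  obtain ⟨g, g1, g2⟩ := a3_hb J Λ (fun v => ∫ x, ‖v x‖ ∂μ) (fun c hc v => by
      rw [← integral_const_mul]
      refine integral_congr_ae ((Lp.coeFn_smul c v).mono fun x hx => ?_)
      simp [hx, norm_smul, abs_of_pos hc])
    (fun v v' => by
      rw [← integral_add (hi v) (hi v')]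
      refine integral_mono_ae (hi _) ((hi v).add (hi v')) ((Lp.coeFn_add v v').mono fun x hx => ?_)
      exact (congrArg norm hx).trans_le (norm_add_le _ _))
    fun T => by
      refine (ENNReal.ofReal_le_ofReal_iff (integral_nonneg fun _ => norm_nonneg _)).1
        ((int_dv_le Ω (T.2.mono (subset_univ _))).trans_eq ?_)
      rw [ofReal_integral_norm_eq_lintegral_enorm ((Lp.memLp _).integrable one_le_two),
        lintegral_congr_ae ((hJ T).mono fun x hx => congrArg enorm hx),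
        lintegral_withDensity_eq_lintegral_mul_non_measurable _ hw (ae_of_all _ w3)]
      refine lintegral_congr fun x => ?_
      conv_lhs => rw [← hz T x, enorm_smul, Real.enorm_toReal (w3 x).ne]
      rfl
  obtain ⟨ξ, x1, x2, x3⟩ := a3_riesz μ g g2
  refine ⟨ξ, x1, ((ae_withDensity_iff hw).1 x2).mono fun x h hx => h (w0 x hx), fun T hT => ?_⟩
  refine (g1 ⟨T, hT⟩).symm.trans ((x3 _).trans ((integral_congr_ae ((hJ ⟨T, hT⟩).mono
    fun x hx => congrArg (⟪ξ x, ·⟫_ℝ) hx)).trans ?_))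
  rw [integral_withDensity_eq_integral_toReal_smul hw (ae_of_all _ w3)]
  refine integral_congr_ae (ae_of_all _ fun x => ?_)
  simp only
  rw [smul_eq_mul, ← real_inner_smul_right, hz ⟨T, hT⟩, real_inner_comm]

theorem measurable_toS : Measurable (toS : R d → S d) := by
  have : Measurable fun v : R d => (toS v : R d) := by
    have e : (fun v : R d => (toS v : R d)) =
        fun v => if v = 0 then ((default : S d) : R d) else ‖v‖⁻¹ • v := by
      ext1 v
      by_cases h : v = 0 <;> simp [toS, h]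
    rw [e]
    exact Measurable.ite (measurableSet_singleton 0) measurable_const
      (measurable_norm.inv.smul measurable_id)
  exact this.subtype_mk

theorem toS_coe {v : R d} (h : v ≠ 0) : (toS v : R d) = ‖v‖⁻¹ • v := by
  simp [toS, h]

theorem exists_nu (Ω : Set (R d)) : ∃ ν : R d → S d, Measurable ν ∧
    ∀ T : R d → R d, C1c T (lf Ω) → ∫ x in Ω, dv T x = ∫ x, ⟪T x, (ν x : R d)⟫_ℝ ∂pm Ω := by
  obtain ⟨ξ, x1, x2, x3⟩ := a3_xi Ω
  refine ⟨fun x => toS (ξ x), measurable_toS.comp x1, fun T hT => (x3 T hT).trans ?_⟩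
  obtain ⟨K, hK, h1, h2⟩ := exists_compact_between hT.2.1 (isOpen_lf Ω) hT.2.2
  have hV := interior_subset.trans h2
  have hf : pm Ω (interior K) < ⊤ := (measure_mono interior_subset).trans_lt (pm_lt_top hK h2)
  have h3 : (fun x => ‖ξ x‖ₑ) ≤ᵐ[(pm Ω).restrict (interior K)] fun _ => 1 := by
    filter_upwards [ae_restrict_of_ae x2, ae_restrict_mem isOpen_interior.measurableSet] with x a b
    exact (ofReal_norm _).symm.trans_le (ENNReal.ofReal_le_one.2 (a (hV b)))
  have h4 := ae_eq_of_ae_le_of_lintegral_le h3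
    ((lintegral_mono_ae h3).trans_lt (by simpa only [lintegral_const, MeasurableSet.univ, Measure.restrict_apply, univ_inter, one_mul] using hf)).ne aemeasurable_const (by
      rw [lintegral_one, Measure.restrict_apply_univ, pm_open Ω isOpen_interior]
      refine Per_le fun T' hT' hb => ?_
      rw [x3 T' (hT'.mono hV), ← lintegral_indicator isOpen_interior.measurableSet]
      refine (Real.ofReal_le_enorm _).trans ((enorm_integral_le_lintegral_enorm _).trans
        (lintegral_mono fun x => ?_))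
      by_cases hx : x ∈ interior K
      · rw [indicator_of_mem hx, ← ofReal_norm, ← ofReal_norm]
        exact ENNReal.ofReal_le_ofReal ((norm_inner_le_norm _ _).trans
          (mul_le_of_le_one_left (norm_nonneg _) (hb x)))
      · simp [image_eq_zero_of_notMem_tsupport fun h => hx (hT'.2.2 h)])
  refine integral_congr_ae (((ae_restrict_iff' isOpen_interior.measurableSet).1 h4).mono
    fun x hx => ?_)
  by_cases h : x ∈ interior K
  · have h5 : ‖ξ x‖ = 1 := ENNReal.ofReal_eq_one.1 ((ofReal_norm _).trans (hx h))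
    simp only
    rw [toS_coe (norm_ne_zero_iff.1 (by simp [h5])), h5, inv_one, one_smul]
  · simp [image_eq_zero_of_notMem_tsupport fun h' => h (h1 h')]

theorem measurable_nu (Ω : Set (R d)) : Measurable (nu Ω) := by
  exact (Classical.epsilon_spec (exists_nu Ω)).1

/-- Gauss-Green -/
theorem gauss (Ω : Set (R d)) {T : R d → R d} (hT : C1c T (lf Ω)) :
    ∫ x in Ω, dv T x = ∫ x, ⟪T x, (nu Ω x : R d)⟫_ℝ ∂pm Ω := by
  exact (Classical.epsilon_spec (exists_nu Ω)).2 T hT

end Pool.Agent.MP_5cfeaf_gt.W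

end

section

/-! Uniqueness of the polar decomposition. -/

set_option autoImplicit false

open MeasureTheory Set Filter Topology Metric
open scoped ENNReal symmDiff Classical InnerProductSpace ContDiff

namespace Pool.Agent.MP_5cfeaf_gt.W

variable {d : ℕ}

theorem a4_norm (v : S d) : ‖(v : R d)‖ = 1 := by simp only [norm_eq_of_mem_sphere]

theorem a4_int {K : Set (R d)} (hK : IsCompact K) (σ : Measure (R d)) (hσ : σ K < ⊤)
    {ξ : R d → S d} (hξ : Measurable ξ) {g : R d → ℝ} (hg : Continuous g) (hs : tsupport g ⊆ K) :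
    Integrable (fun x => g x • (ξ x : R d)) σ := by
  have h1 : IntegrableOn (fun x => (ξ x : R d)) K σ :=
    Measure.integrableOn_of_bounded (M := 1) hσ.ne
      (measurable_subtype_coe.comp hξ).aestronglyMeasurable
      (Eventually.of_forall fun x => (a4_norm _).le)
  have h2 := h1.continuousOn_smul hg.continuousOn hK
  refine (integrableOn_iff_integrable_of_support_subset ?_).1 h2
  intro x hx
  refine hs (subset_tsupport _ fun h0 => hx ?_)
  simp [h0]

theorem a4_vec {U : Set (R d)} (σ μ : Measure (R d))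
    (hσ : ∀ K, IsCompact K → K ⊆ U → σ K < ⊤) (hμ : ∀ K, IsCompact K → K ⊆ U → μ K < ⊤)
    {ξ ν : R d → S d} (hξ : Measurable ξ) (hν : Measurable ν)
    (h : ∀ T : R d → R d, C1c T U →
      ∫ x, ⟪T x, (ξ x : R d)⟫_ℝ ∂σ = ∫ x, ⟪T x, (ν x : R d)⟫_ℝ ∂μ)
    {g : R d → ℝ} (hg : C1c g U) :
    ∫ x in U, g x • (ξ x : R d) ∂σ = ∫ x in U, g x • (ν x : R d) ∂μ := by
  have hz : ∀ x, x ∉ U → g x = 0 := fun x hx =>
    image_eq_zero_of_notMem_tsupport fun h => hx (hg.2.2 h)
  rw [setIntegral_eq_integral_of_forall_compl_eq_zero fun x hx => by simp [hz x hx],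
    setIntegral_eq_integral_of_forall_compl_eq_zero fun x hx => by simp only [hz x hx, zero_smul]]
  refine ext_inner_left ℝ fun e => ?_
  rw [← integral_inner (a4_int hg.2.1 σ (hσ _ hg.2.1 hg.2.2) hξ hg.1.continuous subset_rfl),
    ← integral_inner (a4_int hg.2.1 μ (hμ _ hg.2.1 hg.2.2) hν hg.1.continuous subset_rfl)]
  have := h _ (hg.smul_right (T := fun _ => e) contDiff_const)
  simpa only [real_inner_smul_left, real_inner_smul_right] using this

theorem a4_uniq {U : Set (R d)} (hU : IsOpen U) (σ μ : Measure (R d))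
    (hσ : ∀ K, IsCompact K → K ⊆ U → σ K < ⊤) (hμ : ∀ K, IsCompact K → K ⊆ U → μ K < ⊤)
    {ξ ν : R d → S d} (hξ : Measurable ξ) (hν : Measurable ν)
    (h : ∀ T : R d → R d, C1c T U →
      ∫ x, ⟪T x, (ξ x : R d)⟫_ℝ ∂σ = ∫ x, ⟪T x, (ν x : R d)⟫_ℝ ∂μ) :
    ((μ.restrict U).map fun x => (x, ν x)) = (σ.restrict U).map fun x => (x, ξ x) := by
  have := sigmaFinite_restrict hU σ hσ
  have := sigmaFinite_restrict hU μ hμ
  have hvec : ∀ g : R d → ℝ, C1c g U →
      ∫ x in U, g x • (ξ x : R d) ∂σ = ∫ x in U, g x • (ν x : R d) ∂μ :=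
    fun g hg => a4_vec σ μ hσ hμ hξ hν h hg
  have hs : ∀ K, IsCompact K → K ⊆ U → σ.restrict U K < ⊤ := fun K hK hKU =>
    (Measure.restrict_apply_le _ _).trans_lt (hσ K hK hKU)
  have hm : ∀ K, IsCompact K → K ⊆ U → μ.restrict U K < ⊤ := fun K hK hKU =>
    (Measure.restrict_apply_le _ _).trans_lt (hμ K hK hKU)
  have hsU : ∀ᵐ x ∂σ.restrict U, x ∈ U := ae_restrict_mem hU.measurableSet
  have hmU : ∀ᵐ x ∂μ.restrict U, x ∈ U := ae_restrict_mem hU.measurableSet
  generalize σ.restrict U = s at *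
  generalize μ.restrict U = m at *
  have hsl : s ≤ s + m := Measure.le_add_right le_rfl
  have hml : m ≤ s + m := Measure.le_add_left le_rfl
  have hlU : ∀ᵐ x ∂(s + m), x ∈ U := ae_add_measure_iff.2 ⟨hsU, hmU⟩
  have hl : ∀ K, IsCompact K → K ⊆ U → (s + m) K < ⊤ := fun K hK hKU => by
    rw [Measure.add_apply]
    exact ENNReal.add_lt_top.2 ⟨hs K hK hKU, hm K hK hKU⟩
  have : SigmaFinite (s + m) := inferInstance
  generalize s + m = l at *
  have hsa : s ≪ l := Measure.absolutelyContinuous_of_le hsl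
  have hma : m ≪ l := Measure.absolutelyContinuous_of_le hml
  have ha := Measure.rnDeriv_le_one_of_le hsl
  have hb := Measure.rnDeriv_le_one_of_le hml
  have hξ' : Measurable fun x => (ξ x : R d) := measurable_subtype_coe.comp hξ
  have hν' : Measurable fun x => (ν x : R d) := measurable_subtype_coe.comp hν
  have key : ∀ᵐ x ∂l, x ∈ U →
      (s.rnDeriv l x).toReal • (ξ x : R d) - (m.rnDeriv l x).toReal • (ν x : R d) = 0 := by
    refine hU.ae_eq_zero_of_integral_contDiff_smul_eq_zero ?_ ?_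
    · rw [locallyIntegrableOn_iff hU.isLocallyClosed]
      intro K hKU hK
      refine Measure.integrableOn_of_bounded (M := 2) (hl K hK hKU).ne
        (((Measure.measurable_rnDeriv s l).ennreal_toReal.smul hξ').sub
          ((Measure.measurable_rnDeriv m l).ennreal_toReal.smul hν')).aestronglyMeasurable ?_
      filter_upwards [ae_restrict_of_ae ha, ae_restrict_of_ae hb] with x h1 h2
      have h3 : (s.rnDeriv l x).toReal ≤ 1 := ENNReal.toReal_le_of_le_ofReal zero_le_one (by simpa using h1)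
      have h4 : (m.rnDeriv l x).toReal ≤ 1 := ENNReal.toReal_le_of_le_ofReal zero_le_one (by simpa using h2)
      refine (norm_sub_le _ _).trans ?_
      rw [norm_smul, norm_smul, a4_norm, a4_norm, Real.norm_of_nonneg ENNReal.toReal_nonneg,
        Real.norm_of_nonneg ENNReal.toReal_nonneg]
      linarith
    · intro g hg hc hgU
      have i1 := (integrable_rnDeriv_smul_iff hsa).2
        (a4_int hc s (hs _ hc hgU) hξ hg.continuous subset_rfl)
      have i2 := (integrable_rnDeriv_smul_iff hma).2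
        (a4_int hc m (hm _ hc hgU) hν hg.continuous subset_rfl)
      have e : ∀ x, g x • ((s.rnDeriv l x).toReal • (ξ x : R d) - (m.rnDeriv l x).toReal • (ν x : R d))
          = (s.rnDeriv l x).toReal • g x • (ξ x : R d) - (m.rnDeriv l x).toReal • g x • (ν x : R d) :=
        fun x => by rw [smul_sub, smul_comm (g x), smul_comm (g x)]
      simp only [e]
      rw [integral_sub i1 i2, integral_rnDeriv_smul hsa, integral_rnDeriv_smul hma,
        hvec g ⟨hg.of_le (by simp), hc, hgU⟩, sub_self]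
  have key2 : ∀ᵐ x ∂l, s.rnDeriv l x = m.rnDeriv l x ∧ (s.rnDeriv l x ≠ 0 → ν x = ξ x) := by
    filter_upwards [key, hlU, ha, hb] with x h1 h2 h3 h4
    have h5 := sub_eq_zero.1 (h1 h2)
    have h6 := congrArg norm h5
    rw [norm_smul, norm_smul, a4_norm, a4_norm, Real.norm_of_nonneg ENNReal.toReal_nonneg,
      Real.norm_of_nonneg ENNReal.toReal_nonneg, mul_one, mul_one] at h6
    have h7 : s.rnDeriv l x ≠ ⊤ := ne_top_of_le_ne_top ENNReal.one_ne_top h3
    have h8 : m.rnDeriv l x ≠ ⊤ := ne_top_of_le_ne_top ENNReal.one_ne_top h4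
    refine ⟨(ENNReal.toReal_eq_toReal_iff' h7 h8).1 h6, fun h0 => ?_⟩
    rw [← h6] at h5
    exact (Subtype.ext (smul_right_injective _ (ENNReal.toReal_ne_zero.2 ⟨h0, h7⟩) h5)).symm
  have e1 : m = s := by
    rw [← Measure.withDensity_rnDeriv_eq s l hsa, ← Measure.withDensity_rnDeriv_eq m l hma]
    exact withDensity_congr_ae (key2.mono fun x hx => hx.1.symm)
  rw [e1]
  refine Measure.map_congr ?_
  have e2 : ∀ᵐ x ∂s, ν x = ξ x := by
    rw [← Measure.withDensity_rnDeriv_eq s l hsa,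
      ae_withDensity_iff (Measure.measurable_rnDeriv s l)]
    exact key2.mono fun x hx => hx.2
  filter_upwards [e2] with x hx
  rw [hx]

/-- uniqueness of the polar decomposition -/
theorem pm_uniq {Ω U : Set (R d)} (hU : IsOpen U) (σ : Measure (R d))
    (hσ : ∀ K, IsCompact K → K ⊆ U → σ K < ⊤) (ξ : R d → S d) (hξ : Measurable ξ)
    (h : ∀ T : R d → R d, C1c T U → ∫ x in Ω, dv T x = ∫ x, ⟪T x, (ξ x : R d)⟫_ℝ ∂σ) :
    U ⊆ lf Ω ∧ vf Ω U = (σ.restrict U).map fun x => (x, ξ x) := by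
  have hl : U ⊆ lf Ω := by
    intro x hx
    obtain ⟨r, hr, hrU⟩ := nhds_basis_closedBall.mem_iff.1 (hU.mem_nhds hx)
    have hf := hσ _ (isCompact_closedBall x r) hrU
    refine ⟨r, hr, lt_of_le_of_lt ?_ hf⟩
    rw [pm_open Ω isOpen_ball]
    refine Per_le fun T hT h1 => ENNReal.ofReal_le_of_le_toReal ?_
    rw [h T (hT.mono (ball_subset_closedBall.trans hrU)),
      ← setIntegral_eq_integral_of_forall_compl_eq_zero (s := closedBall x r) fun y hy => by
        rw [image_eq_zero_of_notMem_tsupport fun h => hy (ball_subset_closedBall (hT.2.2 h)),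
          inner_zero_left]]
    refine (le_abs_self _).trans ?_
    have h2 := norm_setIntegral_le_of_norm_le_const (f := fun y => ⟪T y, (ξ y : R d)⟫_ℝ) (C := 1) hf
      fun y _ => (norm_inner_le_norm _ _).trans (by rw [a4_norm, mul_one]; exact h1 y)
    rw [one_mul] at h2
    exact h2
  refine ⟨hl, a4_uniq hU σ (pm Ω) hσ (fun K hK hKU => pm_lt_top hK (hKU.trans hl)) hξ
    (measurable_nu Ω) fun T hT => ?_⟩
  rw [← h T hT, gauss Ω (hT.mono hl)]

theorem a4_meas (Ω : Set (R d)) : Measurable fun x => (x, nu Ω x) :=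
  measurable_id.prodMk (measurable_nu Ω)

theorem vf_fst (Ω O : Set (R d)) : (vf Ω O).fst = (pm Ω).restrict O := by
  unfold vf
  rw [Measure.fst_map_prodMk (measurable_nu Ω)]
  exact Measure.map_id

theorem vf_congr {Ω Ω' U : Set (R d)} (hΩ : MeasurableSet Ω) (hΩ' : MeasurableSet Ω') (hU : IsOpen U)
    (hl : U ⊆ lf Ω) (h : volume ((Ω ∆ Ω') ∩ U) = 0) : vf Ω U = vf Ω' U := by
  refine (pm_uniq (Ω := Ω') hU (pm Ω) (fun K hK hKU => pm_lt_top hK (hKU.trans hl)) (nu Ω)
    (measurable_nu Ω) fun T hT => ?_).2.symm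
  rw [← gauss Ω (hT.mono hl), ← integral_indicator hΩ, ← integral_indicator hΩ']
  refine integral_congr_ae ?_
  filter_upwards [measure_eq_zero_iff_ae_notMem.1 h] with x hx
  by_cases hxU : x ∈ U
  · have h1 : x ∈ Ω ↔ x ∈ Ω' := by
      have h2 : x ∉ Ω ∆ Ω' := fun h => hx ⟨h, hxU⟩
      rw [Set.mem_symmDiff] at h2
      tauto
    simp only [indicator, h1]
  · simp [indicator, dv_zero fun h => hxU (hT.2.2 h)]

theorem vf_compl {Ω U : Set (R d)} (hΩ : MeasurableSet Ω) (hU : IsOpen U) (hl : U ⊆ lf Ω) :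
    vf Ωᶜ U = (vf Ω U).map fun p => (p.1, -p.2) := by
  have hn : Measurable fun v : S d => -v := continuous_neg.measurable
  have h := (pm_uniq (Ω := Ωᶜ) hU (pm Ω) (fun K hK hKU => pm_lt_top hK (hKU.trans hl))
    (fun x => -nu Ω x) (hn.comp (measurable_nu Ω)) fun T hT => ?_).2
  · have m1 : Measurable fun p : R d × S d => (p.1, -p.2) :=
      measurable_fst.prodMk (hn.comp measurable_snd)
    rw [h, vf, Measure.map_map m1 (a4_meas Ω)]
    rfl
  · have h1 := integral_add_compl hΩ (dv_integrable hT)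
    rw [integral_dv hT, gauss Ω (hT.mono hl)] at h1
    simp only [coe_neg_sphere, inner_neg_right, integral_neg]
    linarith

theorem vf_restrict (Ω : Set (R d)) {U O : Set (R d)} (hU : MeasurableSet U) (h : U ⊆ O) :
    (vf Ω O).restrict (U ×ˢ univ) = vf Ω U := by
  unfold vf
  rw [Measure.restrict_map (a4_meas Ω) (hU.prod MeasurableSet.univ)]
  congr 1
  have e : (fun x => (x, nu Ω x)) ⁻¹' U ×ˢ univ = U := by
    ext x
    simp
  rw [e, Measure.restrict_restrict hU, inter_eq_left.2 h]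

end Pool.Agent.MP_5cfeaf_gt.W

end

section

/-! Mollified indicators. -/

set_option autoImplicit false

open MeasureTheory Set Filter Topology Metric
open scoped ENNReal symmDiff Classical InnerProductSpace ContDiff

namespace Pool.Agent.MP_5cfeaf_gt.W

variable {d : ℕ}

theorem a5_locInt {Ω : Set (R d)} (hΩ : MeasurableSet Ω) :
    LocallyIntegrable (Ω.indicator (1 : R d → ℝ)) volume :=
  (locallyIntegrable_const (1 : ℝ)).indicator hΩ

theorem a5_conv {Ω : Set (R d)} (hΩ : MeasurableSet Ω) (k : ℕ) :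
    mol k Ω = convolution (rho k) (Ω.indicator (1 : R d → ℝ)) (ContinuousLinearMap.lsmul ℝ ℝ)
      volume := by
  funext x
  rw [convolution_lsmul_swap, mol, ← integral_indicator hΩ]
  refine integral_congr_ae (Eventually.of_forall fun y => ?_)
  by_cases hy : y ∈ Ω <;> simp [hy]

theorem a5_int (k : ℕ) (x : R d) : Integrable fun y => rho k (x - y) :=
  (rho_integrable k).comp_sub_left x

theorem a5_dint (k : ℕ) : Integrable (fderiv ℝ (rho k : R d → ℝ)) :=
  ((rho_smooth k).continuous_fderiv (by norm_num)).integrable_of_hasCompactSupport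
    ((rho_cs k).fderiv ℝ)

theorem a5_fderiv {Ω : Set (R d)} (hΩ : MeasurableSet Ω) (k : ℕ) (x : R d) :
    fderiv ℝ (mol k Ω) x = ∫ y in Ω, fderiv ℝ (rho k) (x - y) := by
  rw [a5_conv hΩ, ((rho_cs k).hasFDerivAt_convolution_left (ContinuousLinearMap.lsmul ℝ ℝ)
    (rho_smooth k) (a5_locInt hΩ) x).fderiv, convolution_eq_swap, ← integral_indicator hΩ]
  refine integral_congr_ae (Eventually.of_forall fun y => ?_)
  by_cases hy : y ∈ Ω
  · ext v
    simp only [hy, indicator_of_mem, Pi.one_apply, ContinuousLinearMap.precompL_apply, ContinuousLinearMap.lsmul_apply, smul_eq_mul, mul_one]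
  · simp [hy]

theorem mol_smooth {Ω : Set (R d)} (hΩ : MeasurableSet Ω) (k : ℕ) : ContDiff ℝ 1 (mol k Ω) := by
  rw [a5_conv hΩ]
  exact (rho_cs k).contDiff_convolution_left (n := 1) _ (rho_smooth k) (a5_locInt hΩ)

theorem mol_mem (Ω : Set (R d)) (k : ℕ) (x : R d) : 0 ≤ mol k Ω x ∧ mol k Ω x ≤ 1 := by
  refine ⟨integral_nonneg fun y => rho_nonneg k _, ?_⟩
  have h1 : mol k Ω x ≤ ∫ y, rho k (x - y) :=
    setIntegral_le_integral (a5_int k x) (Eventually.of_forall fun y => rho_nonneg k _)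
  rwa [integral_sub_left_eq_self (rho k) volume x, rho_int] at h1

theorem mol_ae {Ω : Set (R d)} (hΩ : MeasurableSet Ω) :
    ∀ᵐ x, Tendsto (fun k => mol k Ω x) atTop (𝓝 (Ω.indicator 1 x)) := by
  have h := ContDiffBump.ae_convolution_tendsto_right_of_locallyIntegrable (μ := volume)
    (φ := bp d) (l := atTop) (K := 2) rr_tendsto
    (Eventually.of_forall fun k => by
      show rr k ≤ 2 * (rr k / 2)
      linarith) (a5_locInt hΩ)
  filter_upwards [h] with x hx
  simp only [a5_conv hΩ]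
  exact hx

theorem mol_zero {Ω : Set (R d)} (hΩ : MeasurableSet Ω) {k : ℕ} {x : R d}
    (h : x ∉ thickening (rr k) Ω) : mol k Ω x = 0 := by
  refine setIntegral_eq_zero_of_forall_eq_zero fun y hy => rho_zero ?_
  by_contra hlt
  exact h (mem_thickening_iff.2 ⟨y, hy, by rw [dist_eq_norm]; exact not_le.1 hlt⟩)

theorem mol_fderiv {Ω : Set (R d)} (hΩ : MeasurableSet Ω) (k : ℕ) (x h : R d) :
    fderiv ℝ (mol k Ω) x h = -∫ y in Ω, dv (fun y => rho k (x - y) • h) y := by
  rw [a5_fderiv hΩ, ContinuousLinearMap.integral_apply ((a5_dint k).comp_sub_left x).integrableOn,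
    ← integral_neg]
  refine integral_congr_ae (Eventually.of_forall fun y => ?_)
  have h1 : HasFDerivAt (fun y : R d => rho k (x - y))
      ((fderiv ℝ (rho k) (x - y)).comp (-ContinuousLinearMap.id ℝ (R d))) y :=
    (((rho_smooth k).differentiable (by norm_num)) (x - y)).hasFDerivAt.comp y
      ((hasFDerivAt_id y).const_sub x)
  simp only
  rw [dv_smul_const (rho_C1c k x).1, h1.fderiv]
  simp

theorem mol_lip (d k : ℕ) : ∃ L, ∀ Ω : Set (R d), MeasurableSet Ω → LipschitzWith L (mol k Ω) := by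
  refine ⟨(∫ y : R d, ‖fderiv ℝ (rho k) y‖).toNNReal, fun Ω hΩ => ?_⟩
  refine lipschitzWith_of_nnnorm_fderiv_le ((mol_smooth hΩ k).differentiable (by norm_num))
    fun x => ?_
  rw [← NNReal.coe_le_coe, coe_nnnorm, a5_fderiv hΩ]
  refine le_trans ?_ (Real.le_coe_toNNReal _)
  refine (norm_integral_le_integral_norm _).trans ?_
  refine (setIntegral_le_integral ((a5_dint k).comp_sub_left x).norm
    (Eventually.of_forall fun y => norm_nonneg _)).trans ?_
  exact (integral_sub_left_eq_self (fun y : R d => ‖fderiv ℝ (rho k) y‖) volume x).le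

end Pool.Agent.MP_5cfeaf_gt.W

end

section

/-! Gradients of mollified indicators. -/

set_option autoImplicit false

open MeasureTheory Set Filter Topology Metric
open scoped ENNReal symmDiff Classical InnerProductSpace ContDiff

namespace Pool.Agent.MP_5cfeaf_gt.W

variable {d : ℕ}

theorem mol_grad_le {Ω : Set (R d)} (hΩ : MeasurableSet Ω) (k : ℕ) (x : R d) :
    ‖fderiv ℝ (mol k Ω) x‖ₑ ≤ ∫⁻ y, ENNReal.ofReal (rho k (x - y)) ∂pm Ω := by
  refine (eq_or_ne _ ⊤).elim (fun h => le_top.trans_eq h.symm) fun hI => ?_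
  have hm : Measurable fun y => ENNReal.ofReal (rho k (x - y)) :=
    ((rho_smooth k).continuous.comp (continuous_const.sub continuous_id)).measurable.ennreal_ofReal
  have key : ∀ h, fderiv ℝ (mol k Ω) x h ≤
      (∫⁻ y, ENNReal.ofReal (rho k (x - y)) ∂pm Ω).toReal * ‖h‖ := fun h => by
    have h1 := int_dv_le Ω
      (((rho_C1c k x).smul_right (contDiff_const (c := -h))).mono (subset_univ _))
    rw [← neg_neg (∫ y in Ω, _), ← mol_fderiv hΩ, map_neg, neg_neg] at h1
    simp only [enorm_smul, Real.enorm_of_nonneg (rho_nonneg k _), enorm_neg] at h1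
    rw [lintegral_mul_const _ hm, ENNReal.ofReal_le_iff_le_toReal
      (ENNReal.mul_ne_top hI enorm_ne_top), ENNReal.toReal_mul, toReal_enorm] at h1
    exact h1
  rw [← ofReal_norm, ENNReal.ofReal_le_iff_le_toReal hI]
  refine ContinuousLinearMap.opNorm_le_bound _ ENNReal.toReal_nonneg fun h => abs_le.2 ⟨?_, key h⟩
  have := key (-h)
  rw [map_neg, norm_neg] at this
  linarith

theorem mol_grad_eq {Ω : Set (R d)} (hΩ : MeasurableSet Ω) {k : ℕ} {x : R d}
    (hx : closedBall x (rr k) ⊆ lf Ω) (h : R d) :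
    fderiv ℝ (mol k Ω) x h = -∫ y, rho k (x - y) * ⟪h, (nu Ω y : R d)⟫_ℝ ∂pm Ω := by
  rw [mol_fderiv hΩ, gauss Ω (((rho_C1c k x).smul_right contDiff_const).mono hx)]
  simp only [real_inner_smul_left]

theorem mol_lint {Ω A W : Set (R d)} (hΩ : MeasurableSet Ω) (hW : IsOpen W)
    (hA : MeasurableSet A) {k : ℕ} (h : thickening (rr k) A ⊆ W) :
    ∫⁻ x in A, ‖fderiv ℝ (mol k Ω) x‖ₑ ≤ pm Ω W := by
  refine (eq_or_ne _ ⊤).elim (fun h => le_top.trans_eq h.symm) fun hI => ?_
  have : IsFiniteMeasure ((pm Ω).restrict W) := isFiniteMeasure_restrict.2 hI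
  have hm : Measurable fun p : R d × R d => ENNReal.ofReal (rho k (p.1 - p.2)) :=
    ((rho_smooth k).continuous.comp (continuous_fst.sub continuous_snd)).measurable.ennreal_ofReal
  calc _ ≤ ∫⁻ x in A, ∫⁻ y in W, ENNReal.ofReal (rho k (x - y)) ∂pm Ω := by
        refine setLIntegral_mono' hA fun x hx => (mol_grad_le hΩ k x).trans_eq
          (setLIntegral_eq_of_support_subset fun y hy => h (mem_thickening_iff.2 ⟨x, hx, ?_⟩)).symm
        rw [dist_comm, dist_eq_norm]
        exact not_le.1 fun h => hy (by simp only [rho_zero h, ENNReal.ofReal_zero])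
    _ ≤ ∫⁻ x, ∫⁻ y in W, ENNReal.ofReal (rho k (x - y)) ∂pm Ω := setLIntegral_le_lintegral _ _
    _ = ∫⁻ y in W, (∫⁻ x, ENNReal.ofReal (rho k (x - y))) ∂pm Ω :=
        lintegral_lintegral_swap hm.aemeasurable
    _ = _ := by
        simp only [lintegral_sub_right_eq_self fun x => ENNReal.ofReal (rho k x), rho_lint,
          setLIntegral_one]

theorem mol_weak {Ω : Set (R d)} (hΩ : MeasurableSet Ω) {X : R d → R d} (hX : Continuous X)
    (hc : HasCompactSupport X) (hs : tsupport X ⊆ lf Ω) :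
    Tendsto (fun k => ∫ x, fderiv ℝ (mol k Ω) x (X x)) atTop
      (𝓝 (-∫ x, ⟪X x, (nu Ω x : R d)⟫_ℝ ∂pm Ω)) := by
  obtain ⟨δ, hδ, hK⟩ := hc.isCompact.exists_cthickening_subset_open (isOpen_lf Ω) hs
  have hK' : IsCompact (cthickening δ (tsupport X)) := hc.isCompact.cthickening
  obtain ⟨K, hKe⟩ : ∃ K, K = cthickening δ (tsupport X) := ⟨_, rfl⟩
  rw [← hKe] at hK hK'
  have : IsFiniteMeasure ((pm Ω).restrict K) := isFiniteMeasure_restrict.2 (pm_lt_top hK' hK).ne
  obtain ⟨C, hC⟩ := hX.bounded_above_of_compact_support hc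
  have hν : Measurable fun y => (nu Ω y : R d) := measurable_subtype_coe.comp (measurable_nu Ω)
  have hb : ∀ x y, ‖⟪X x, (nu Ω y : R d)⟫_ℝ‖ ≤ ‖X x‖ := fun x y =>
    (norm_inner_le_norm _ _).trans_eq (by rw [norm_eq_of_mem_sphere, mul_one])
  have hi : ∀ k, Integrable (Function.uncurry fun x y => rho k (x - y) * ⟪X x, (nu Ω y : R d)⟫_ℝ)
      (volume.prod ((pm Ω).restrict K)) := fun k => by
    obtain ⟨D, hD⟩ := (rho_smooth (d := d) k).continuous.bounded_above_of_compact_support (rho_cs k)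
    refine ((hX.integrable_of_hasCompactSupport hc).norm.mul_prod (integrable_const D)).mono'
      (((rho_smooth k).continuous.comp (continuous_fst.sub continuous_snd)).measurable.mul
        ((hX.measurable.comp measurable_fst).inner (hν.comp measurable_snd))).aestronglyMeasurable
      (Eventually.of_forall fun p => (norm_mul _ _).trans_le ?_)
    rw [mul_comm]
    exact mul_le_mul (hb _ _) (hD _) (norm_nonneg _) (norm_nonneg _)
  rw [← setIntegral_eq_integral_of_forall_compl_eq_zero (s := K) fun x hx => by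
    rw [image_eq_zero_of_notMem_tsupport fun h => hx (hKe ▸ self_subset_cthickening _ h),
      inner_zero_left]]
  refine Tendsto.congr' ?_ (tendsto_integral_of_dominated_convergence (fun _ => C)
    (fun k => (hi k).integral_prod_right.aestronglyMeasurable) (integrable_const C)
    (fun k => Eventually.of_forall fun y => ?_) (Eventually.of_forall fun y => ?_)).neg
  · filter_upwards [rr_tendsto.eventually_le_const hδ] with k hk
    refine (congrArg Neg.neg (integral_integral_swap (hi k))).symm.trans ?_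
    rw [← integral_neg]
    refine integral_congr_ae (Eventually.of_forall fun x => ?_)
    by_cases hx : x ∈ tsupport X
    · have h1 : closedBall x (rr k) ⊆ K := hKe ▸
        (closedBall_subset_closedBall hk).trans (closedBall_subset_cthickening hx δ)
      refine Eq.trans (congrArg _ (setIntegral_eq_integral_of_forall_compl_eq_zero fun y hy => ?_))
        (mol_grad_eq hΩ (h1.trans hK) _).symm
      rw [rho_zero (not_le.1 fun h => hy (h1 (mem_closedBall'.2 ((dist_eq_norm _ _).trans_le h)))).le,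
        zero_mul]
    · simp [image_eq_zero_of_notMem_tsupport hx]
  · refine (norm_integral_le_of_norm_le (((rho_integrable k).comp_sub_right y).mul_const C)
      (Eventually.of_forall fun x => ?_)).trans_eq ?_
    · exact (norm_mul _ _).trans_le (mul_le_mul (Real.norm_of_nonneg (rho_nonneg k _)).le
        ((hb _ _).trans (hC _)) (norm_nonneg _) (rho_nonneg k _))
    · rw [integral_mul_const, integral_sub_right_eq_self (rho k), rho_int, one_mul]
  · refine (ContDiffBump.convolution_tendsto_right_of_continuous (μ := volume) (φ := bp d)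
      (g := fun x => ⟪X x, (nu Ω y : R d)⟫_ℝ) rr_tendsto (hX.inner continuous_const) y).congr
      fun k => ?_
    rw [convolution_lsmul_swap]
    refine integral_congr_ae (Eventually.of_forall fun x => ?_)
    exact congrArg (· * _) ((congrArg (rho k) (neg_sub x y)).symm.trans (rho_neg k _))

end Pool.Agent.MP_5cfeaf_gt.W

end

section

/-! Translation estimate, Poincare inequality, constancy. -/

set_option autoImplicit false

open MeasureTheory Set Filter Topology Metric
open scoped ENNReal symmDiff Classical InnerProductSpace ContDiff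

namespace Pool.Agent.MP_5cfeaf_gt.W

variable {d : ℕ}

theorem a9_ofReal {α : Type} [MeasurableSpace α] (μ : Measure α) (f : α → ℝ) :
    ENNReal.ofReal (∫ x, f x ∂μ) ≤ ∫⁻ x, ENNReal.ofReal (f x) ∂μ := by
  by_cases hf : Integrable f μ
  · rw [integral_eq_lintegral_pos_part_sub_lintegral_neg_part hf]
    exact (ENNReal.ofReal_le_ofReal (sub_le_self _ ENNReal.toReal_nonneg)).trans
      ENNReal.ofReal_toReal_le
  · simp only [integral_undef hf, ENNReal.ofReal_zero, zero_le]

theorem a9_grad {Ω U : Set (R d)} (hΩ : MeasurableSet Ω) (hl : U ⊆ lf Ω) (h : R d) {k : ℕ}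
    {z : R d} (hz : closedBall z (rr k) ⊆ U) : ENNReal.ofReal (fderiv ℝ (mol k Ω) z h) ≤
      ∫⁻ y in U, ENNReal.ofReal (rho k (z - y)) * ENNReal.ofReal (-⟪h, (nu Ω y : R d)⟫_ℝ) ∂pm Ω := by
  rw [mol_grad_eq hΩ (hz.trans hl), ← integral_neg, setLIntegral_eq_of_support_subset]
  · refine (a9_ofReal _ _).trans (lintegral_mono fun y => ?_)
    rw [← ENNReal.ofReal_mul (rho_nonneg _ _), mul_neg]
  · intro y hy
    by_contra hc
    have h1 : rr k ≤ ‖z - y‖ := by
      by_contra h2
      exact hc (hz (by rw [mem_closedBall, dist_comm, dist_eq_norm]; exact (not_le.1 h2).le))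
    simp only [Function.support_mul, mem_inter_iff, Function.mem_support, rho_zero h1, ENNReal.ofReal_zero, ne_eq, not_true_eq_false, ENNReal.ofReal_eq_zero, Left.neg_nonpos_iff, not_le, false_and] at hy

theorem a9_ftc {u : R d → ℝ} (hu : ContDiff ℝ 1 u) (x h : R d) :
    u (x + h) - u x = ∫ s in Ioc (0 : ℝ) 1, fderiv ℝ u (x + s • h) h := by
  have h1 : ∀ s : ℝ, HasDerivAt (fun s : ℝ => u (x + s • h)) (fderiv ℝ u (x + s • h) h) s := by
    intro s
    have h2 : HasDerivAt (fun s : ℝ => x + s • h) h s := by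
      simpa using ((hasDerivAt_id s).smul_const h).const_add x
    exact (hu.differentiable one_ne_zero _).hasFDerivAt.comp_hasDerivAt s h2
  have h3 : Continuous fun s : ℝ => fderiv ℝ u (x + s • h) h :=
    ((hu.continuous_fderiv one_ne_zero).comp (by fun_prop)).clm_apply continuous_const
  rw [← intervalIntegral.integral_of_le zero_le_one,
    intervalIntegral.integral_eq_sub_of_hasDerivAt (fun s _ => h1 s) (h3.intervalIntegrable 0 1)]
  simp

/-- one-sided translation estimate -/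
theorem transl {Ω U : Set (R d)} (hΩ : MeasurableSet Ω) (hU : IsOpen U) (hl : U ⊆ lf Ω) (h : R d) :
    volume {x | segment ℝ x (x + h) ⊆ U ∧ x ∉ Ω ∧ x + h ∈ Ω} ≤
      ∫⁻ x in U, ENNReal.ofReal (-⟪h, (nu Ω x : R d)⟫_ℝ) ∂pm Ω := by
  have := sigmaFinite_restrict hU (pm Ω) fun K hK hKU => pm_lt_top hK (hKU.trans hl)
  have hF : Measurable fun y => ENNReal.ofReal (-⟪h, (nu Ω y : R d)⟫_ℝ) :=
    (measurable_const.inner (measurable_subtype_coe.comp (measurable_nu Ω))).neg.ennreal_ofReal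
  have hr : ∀ k, Measurable fun q : R d × R d => ENNReal.ofReal (rho k (q.1 - q.2)) *
      ENNReal.ofReal (-⟪h, (nu Ω q.2 : R d)⟫_ℝ) := fun k =>
    ((rho_smooth k).continuous.measurable.comp
      (measurable_fst.sub measurable_snd)).ennreal_ofReal.mul (hF.comp measurable_snd)
  obtain ⟨Φ, hΦ⟩ : ∃ Φ : ℕ → R d → ℝ≥0∞, ∀ k z, Φ k z = ∫⁻ y in U,
      ENNReal.ofReal (rho k (z - y)) * ENNReal.ofReal (-⟪h, (nu Ω y : R d)⟫_ℝ) ∂pm Ω :=
    ⟨_, fun _ _ => rfl⟩
  have m1 : ∀ k, Measurable (Φ k) := fun k => by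
    rw [funext (hΦ k)]
    exact (hr k).lintegral_prod_right'
  have i1 : ∀ k, ∫⁻ z, Φ k z = ∫⁻ x in U, ENNReal.ofReal (-⟪h, (nu Ω x : R d)⟫_ℝ) ∂pm Ω := by
    intro k
    simp only [hΦ]
    rw [lintegral_lintegral_swap (hr k).aemeasurable]
    refine lintegral_congr fun y => ?_
    rw [lintegral_mul_const' _ _ ENNReal.ofReal_ne_top,
      lintegral_sub_right_eq_self (fun z => ENNReal.ofReal (rho k z)) y, rho_lint, one_mul]
  have m2 : ∀ k, Measurable fun q : R d × ℝ => Φ k (q.1 + q.2 • h) := fun k =>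
    (m1 k).comp (measurable_fst.add (measurable_snd.smul_const h))
  have m3 : ∀ k, Measurable fun x => ∫⁻ s in Ioc (0 : ℝ) 1, Φ k (x + s • h) := fun k =>
    (m2 k).lintegral_prod_right'
  have i2 : ∀ k, ∫⁻ x, ∫⁻ s in Ioc (0 : ℝ) 1, Φ k (x + s • h) =
      ∫⁻ x in U, ENNReal.ofReal (-⟪h, (nu Ω x : R d)⟫_ℝ) ∂pm Ω := by
    intro k
    rw [lintegral_lintegral_swap (m2 k).aemeasurable]
    simp only [lintegral_add_right_eq_self, i1]
    simp only [lintegral_const, MeasurableSet.univ, Measure.restrict_apply, univ_inter, Real.volume_Ioc, sub_zero, ENNReal.ofReal_one, mul_one]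
  obtain ⟨H, hH⟩ : ∃ H : ℕ → R d → ℝ≥0∞, ∀ k x, H k x = ∫⁻ s in Ioc (0 : ℝ) 1, Φ k (x + s • h) :=
    ⟨_, fun _ _ => rfl⟩
  simp only [← hH] at m3 i2
  have f1 := lintegral_liminf_le (μ := volume) (u := atTop) m3
  simp only [i2, liminf_const] at f1
  have f2 : volume {x | 1 ≤ liminf (fun k => H k x) atTop} ≤ ∫⁻ x, liminf (fun k => H k x) atTop :=
    meas_le_lintegral₀ (Measurable.liminf m3).aemeasurable fun x hx => hx
  refine le_trans (measure_mono_ae ?_) (f2.trans f1)
  have f3 : ∀ᵐ x : R d, Tendsto (fun k => mol k Ω (x + h)) atTop (𝓝 (Ω.indicator 1 (x + h))) :=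
    (measurePreserving_add_right volume h).quasiMeasurePreserving.ae (mol_ae hΩ)
  filter_upwards [mol_ae hΩ, f3] with x h1 h2 hx
  change 1 ≤ liminf (fun k => H k x) atTop
  obtain ⟨hs, hx0, hx1⟩ := hx
  rw [indicator_of_notMem hx0] at h1
  rw [indicator_of_mem hx1] at h2
  have h3 := ENNReal.tendsto_ofReal (h2.sub h1)
  rw [segment_eq_image', add_sub_cancel_left] at hs
  obtain ⟨δ, hδ, hs'⟩ := (isCompact_Icc.image (f := fun s : ℝ => x + s • h)
    (by fun_prop)).exists_cthickening_subset_open hU hs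
  have h4 : liminf (fun k => ENNReal.ofReal (mol k Ω (x + h) - mol k Ω x)) atTop = 1 := by
    simpa using h3.liminf_eq
  refine h4.ge.trans (liminf_le_liminf ?_)
  filter_upwards [rr_tendsto.eventually_le_const hδ] with k hk
  rw [a9_ftc (mol_smooth hΩ k), hH]
  refine (a9_ofReal _ _).trans (setLIntegral_mono' measurableSet_Ioc fun s hs1 => ?_)
  rw [hΦ]
  have h5 : x + s • h ∈ (fun s : ℝ => x + s • h) '' Icc 0 1 := ⟨s, Ioc_subset_Icc_self hs1, rfl⟩
  exact a9_grad hΩ hl h (((closedBall_subset_closedBall hk).trans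
    (closedBall_subset_cthickening h5 δ)).trans hs')

end Pool.Agent.MP_5cfeaf_gt.W

end

section

/-! Poincare inequality and constancy. -/

set_option autoImplicit false

open MeasureTheory Set Filter Topology Metric
open scoped ENNReal symmDiff Classical InnerProductSpace ContDiff

namespace Pool.Agent.MP_5cfeaf_gt.W

variable {d : ℕ}

theorem a19_prod {Ω : Set (R d)} (hΩ : MeasurableSet Ω) (x : R d) (r : ℝ)
    (hf : pm Ω (ball x r) < ⊤) :
    volume (Ω ∩ ball x r) * volume (ball x r \ Ω) ≤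
      ENNReal.ofReal (2 * r) * pm Ω (ball x r) * volume (ball (0 : R d) (2 * r)) := by
  have hP : MeasurableSet (ball x r \ Ω) := measurableSet_ball.diff hΩ
  have hQ : MeasurableSet (Ω ∩ ball x r) := hΩ.inter measurableSet_ball
  set Z : Set (R d × R d) := {p | p.1 ∈ ball x r \ Ω ∧ p.1 + p.2 ∈ Ω ∩ ball x r} with hZ
  have hZm : MeasurableSet Z :=
    (measurable_fst hP).inter ((measurable_fst.add measurable_snd) hQ)
  have h1 : (volume : Measure (R d)).prod volume Z =
      volume (Ω ∩ ball x r) * volume (ball x r \ Ω) := by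
    rw [Measure.prod_apply hZm, ← lintegral_indicator_const hP]
    refine lintegral_congr fun y => ?_
    by_cases hy : y ∈ ball x r \ Ω
    · rw [Set.indicator_of_mem hy, ← measure_preimage_add volume y (Ω ∩ ball x r)]
      congr 1
      ext h
      simp only [hZ, Set.mem_preimage, Set.mem_ofPred_eq, hy, true_and]
    · rw [Set.indicator_of_notMem hy]
      have : Prod.mk y ⁻¹' Z = ∅ := Set.eq_empty_of_forall_notMem fun h hh => hy hh.1
      rw [this, measure_empty]
  rw [← h1, Measure.prod_apply_symm hZm, ← lintegral_indicator_const measurableSet_ball]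
  refine lintegral_mono fun h => ?_
  by_cases hh : h ∈ ball (0 : R d) (2 * r)
  · rw [Set.indicator_of_mem hh]
    refine le_trans (measure_mono ?_) ((transl hΩ isOpen_ball (subset_lf isOpen_ball hf) h).trans ?_)
    · intro y hy
      exact ⟨(convex_ball x r).segment_subset hy.1.1 hy.2.2, hy.1.2, hy.2.1⟩
    · rw [← setLIntegral_const]
      refine lintegral_mono fun y => ENNReal.ofReal_le_ofReal ?_
      have h2 := abs_real_inner_le_norm h (nu Ω y : R d)
      have h3 : ‖(nu Ω y : R d)‖ = 1 := norm_eq_of_mem_sphere _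
      have h4 : ‖h‖ < 2 * r := mem_ball_zero_iff.1 hh
      rw [h3, mul_one] at h2
      linarith [neg_abs_le ⟪h, (nu Ω y : R d)⟫_ℝ]
  · rw [Set.indicator_of_notMem hh]
    have : (fun y => (y, h)) ⁻¹' Z = ∅ := Set.eq_empty_of_forall_notMem fun y hy => hh (by
      have h2 : dist y x < r := hy.1.1
      have h3 : dist (y + h) x < r := hy.2.2
      have h4 := dist_triangle_right (y + h) y x
      rw [dist_self_add_left] at h4
      rw [mem_ball_zero_iff]
      linarith only [h2, h3, h4])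
    rw [this, measure_empty]

/-- relative isoperimetric (Poincare) inequality in balls -/
theorem poincare (d : ℕ) : ∃ C > 0, ∀ (Ω : Set (R d)) (x : R d) (r : ℝ), MeasurableSet Ω →
    min (volume (Ω ∩ ball x r)) (volume (ball x r \ Ω)) ≤ ENNReal.ofReal (C * r) * pm Ω (ball x r) := by
  refine ⟨4 * 2 ^ (d + 1), by positivity, fun Ω x r hΩ => ?_⟩
  rcases le_or_gt r 0 with hr | hr
  · simp only [ball_eq_empty.2 hr, inter_empty, measure_empty, empty_sdiff, min_self, Nat.ofNat_pos, mul_nonneg_iff_of_pos_left, Nat.ofNat_nonneg, pow_succ_nonneg, ENNReal.ofReal_mul, ENNReal.ofReal_ofNat, ENNReal.ofReal_pow, mul_zero, Std.le_refl]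
  rcases eq_top_or_lt_top (pm Ω (ball x r)) with hf | hf
  · rw [hf, ENNReal.mul_top (ENNReal.ofReal_pos.2 (by positivity)).ne']
    exact le_top
  have h1 := a19_prod hΩ x r hf
  rw [Measure.addHaar_ball_mul_of_pos volume 0 two_pos, finrank_euclideanSpace_fin,
    ← Measure.addHaar_ball_center volume x r] at h1
  have h0 : volume (ball x r) ≠ 0 := (measure_ball_pos volume x hr).ne'
  have ht : volume (ball x r) ≠ ⊤ := measure_ball_lt_top.ne
  have h2 : volume (ball x r) ≤ 2 * max (volume (Ω ∩ ball x r)) (volume (ball x r \ Ω)) := by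
    rw [two_mul]
    refine le_trans (measure_mono ?_) ((measure_union_le _ _).trans
      (add_le_add (le_max_left _ _) (le_max_right _ _)))
    intro y hy
    by_cases hyΩ : y ∈ Ω
    · exact Or.inl ⟨hyΩ, hy⟩
    · exact Or.inr ⟨hy, hyΩ⟩
  refine (ENNReal.mul_le_mul_iff_left h0 ht).1 ?_
  calc min (volume (Ω ∩ ball x r)) (volume (ball x r \ Ω)) * volume (ball x r)
      ≤ min (volume (Ω ∩ ball x r)) (volume (ball x r \ Ω)) *
          (2 * max (volume (Ω ∩ ball x r)) (volume (ball x r \ Ω))) := by gcongr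
    _ = 2 * (volume (Ω ∩ ball x r) * volume (ball x r \ Ω)) := by
        rw [mul_left_comm, min_mul_max]
    _ ≤ 2 * (ENNReal.ofReal (2 * r) * pm Ω (ball x r) *
          (ENNReal.ofReal (2 ^ (d + 1)) * volume (ball x r))) := by gcongr
    _ = ENNReal.ofReal (4 * 2 ^ (d + 1) * r) * pm Ω (ball x r) * volume (ball x r) := by
        rw [show 4 * 2 ^ (d + 1) * r = 2 * ((2 * r) * 2 ^ (d + 1)) by ring,
          ENNReal.ofReal_mul (p := 2) (q := 2 * r * 2 ^ (d + 1)) two_pos.le,
          ENNReal.ofReal_mul (p := 2 * r) (q := 2 ^ (d + 1)) (by positivity), ENNReal.ofReal_ofNat]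
        ring

/-- constancy -/
theorem const_of_pm {Ω U : Set (R d)} (hΩ : MeasurableSet Ω) (hU : IsOpen U) (hc : IsPreconnected U)
    (h : pm Ω U = 0) : volume (Ω ∩ U) = 0 ∨ volume (U \ Ω) = 0 := by
  obtain ⟨C, -, hC⟩ := poincare d
  have hA : IsOpen {x : R d | ∃ V, IsOpen V ∧ x ∈ V ∧ volume (Ω ∩ V) = 0} :=
    isOpen_iff_forall_mem_open.2 fun x ⟨V, hV, hx, h0⟩ => ⟨V, fun y hy => ⟨V, hV, hy, h0⟩, hV, hx⟩
  have hA' : IsOpen {x : R d | ∃ V, IsOpen V ∧ x ∈ V ∧ volume (V \ Ω) = 0} :=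
    isOpen_iff_forall_mem_open.2 fun x ⟨V, hV, hx, h0⟩ => ⟨V, fun y hy => ⟨V, hV, hy, h0⟩, hV, hx⟩
  have hd : Disjoint {x : R d | ∃ V, IsOpen V ∧ x ∈ V ∧ volume (Ω ∩ V) = 0}
      {x : R d | ∃ V, IsOpen V ∧ x ∈ V ∧ volume (V \ Ω) = 0} := by
    refine Set.disjoint_left.2 fun x ⟨V, hV, hx, h0⟩ ⟨V', hV', hx', h0'⟩ => ?_
    refine ((hV.inter hV').measure_pos volume ⟨x, hx, hx'⟩).ne' ?_
    refine measure_mono_null (t := (Ω ∩ V) ∪ (V' \ Ω)) ?_ (measure_union_null h0 h0')
    intro y hy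
    by_cases hyΩ : y ∈ Ω
    · exact Or.inl ⟨hyΩ, hy.1⟩
    · exact Or.inr ⟨hy.2, hyΩ⟩
  have hcov : U ⊆ {x : R d | ∃ V, IsOpen V ∧ x ∈ V ∧ volume (Ω ∩ V) = 0} ∪
      {x : R d | ∃ V, IsOpen V ∧ x ∈ V ∧ volume (V \ Ω) = 0} := by
    intro x hx
    obtain ⟨r, hr, hrU⟩ := Metric.isOpen_iff.1 hU x hx
    have h1 := hC Ω x r hΩ
    rw [measure_mono_null hrU h, mul_zero, nonpos_iff_eq_zero, min_eq_iff] at h1
    rcases h1 with h1 | h1
    · exact Or.inl ⟨_, isOpen_ball, mem_ball_self hr, h1.1⟩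
    · exact Or.inr ⟨_, isOpen_ball, mem_ball_self hr, h1.1⟩
  rcases hc.subset_or_subset hA hA' hd hcov with h1 | h1
  · refine Or.inl (measure_null_of_locally_null _ fun x hx => ?_)
    obtain ⟨V, hV, hxV, h0⟩ := h1 hx.2
    exact ⟨Ω ∩ V, mem_nhdsWithin.2 ⟨V, hV, hxV, fun y hy => ⟨hy.2.1, hy.1⟩⟩, h0⟩
  · refine Or.inr (measure_null_of_locally_null _ fun x hx => ?_)
    obtain ⟨V, hV, hxV, h0⟩ := h1 hx.1
    exact ⟨V \ Ω, mem_nhdsWithin.2 ⟨V, hV, hxV, fun y hy => ⟨hy.1, hy.2.2⟩⟩, h0⟩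

theorem le_flat (d : ℕ) : ∃ C : ℝ≥0∞, C < ⊤ ∧ ∀ Ω Ω' : Set (R d), MeasurableSet Ω → MeasurableSet Ω' →
    min (volume ((Ω ∆ Ω') ∩ B d)) (volume ((Ω ∆ Ω'ᶜ) ∩ B d)) ≤ C * flat Ω Ω' := by
  obtain ⟨C, -, hC⟩ := poincare d
  refine ⟨1 + ENNReal.ofReal (C * 1), ENNReal.add_lt_top.2 ⟨ENNReal.one_lt_top, ENNReal.ofReal_lt_top⟩,
    fun Ω Ω' _ _ => ?_⟩
  have h0 : 1 + ENNReal.ofReal (C * 1) ≠ 0 := by simp only [mul_one, ne_eq, add_eq_zero, one_ne_zero, ENNReal.ofReal_eq_zero, false_and, not_false_eq_true]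
  have ht : 1 + ENNReal.ofReal (C * 1) ≠ ⊤ := by simp
  unfold flat
  rw [ENNReal.mul_iInf_of_ne h0 ht]
  refine le_iInf fun T => ?_
  rw [ENNReal.mul_iInf_of_ne h0 ht]
  refine le_iInf fun hT => ?_
  have h1 := hC T 0 1 hT
  rw [pm_open T isOpen_ball] at h1
  have h2 : volume ((Ω ∆ Ω') ∩ B d) ≤ volume (((Ω ∆ Ω') ∆ T) ∩ ball 0 1) + volume (T ∩ ball 0 1) := by
    refine le_trans (measure_mono ?_) (measure_union_le _ _)
    intro y hy
    by_cases hyT : y ∈ T
    · exact Or.inr ⟨hyT, hy.2⟩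
    · exact Or.inl ⟨Or.inl ⟨hy.1, hyT⟩, hy.2⟩
  have h3 : volume ((Ω ∆ Ω'ᶜ) ∩ B d) ≤
      volume (((Ω ∆ Ω') ∆ T) ∩ ball 0 1) + volume (ball 0 1 \ T) := by
    refine le_trans (measure_mono ?_) (measure_union_le _ _)
    intro y hy
    by_cases hyT : y ∈ T
    · refine Or.inl ⟨Or.inr ⟨hyT, ?_⟩, hy.2⟩
      have := hy.1
      simp only [Set.mem_symmDiff, Set.mem_compl_iff] at this ⊢
      tauto
    · exact Or.inr ⟨hy.2, hyT⟩
  refine (min_le_min h2 h3).trans ?_
  rw [min_add_add_left, mul_add]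
  refine add_le_add ?_ (h1.trans ?_)
  · rw [add_mul, one_mul]
    exact le_self_add
  · gcongr
    exact le_add_self

end Pool.Agent.MP_5cfeaf_gt.W

end
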