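import Mathlib

set_option autoImplicit false

open MeasureTheory Set Filter Topology Metric
open scoped ENNReal symmDiff Classical

namespace Pool.Agent.MP_5cfeaf_gt.W

/-- Euclidean space. -/
abbrev E (n : ℕ) := EuclideanSpace ℝ (Fin n)

/-- Divergence of a vector field. -/
noncomputable def dv {n : ℕ} (T : E n → E n) (x : E n) : ℝ :=
  ∑ i, fderiv ℝ T x (EuclideanSpace.single i 1) i

/-- De Giorgi perimeter of `Ω` in `U`. -/
noncomputable def Per {n : ℕ} (Ω U : Set (E n)) : ℝ≥0∞ :=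
  ⨆ (T : E n → E n) (_ : ContDiff ℝ 1 T ∧ HasCompactSupport T ∧ tsupport T ⊆ U ∧ ∀ x, ‖T x‖ ≤ 1),
    ENNReal.ofReal (∫ x in Ω, dv T x)

/-- Flat distance of the relative mod 2 cycles bounded by `Ω` and `Ω'` in the unit ball. -/
noncomputable def flat {n : ℕ} (Ω Ω' : Set (E n)) : ℝ≥0∞ :=
  ⨅ (S : Set (E n)) (_ : MeasurableSet S),
    volume (((Ω ∆ Ω') ∆ S) ∩ ball 0 1) + Per S (ball 0 1)

/-- The closed geometric simplex spanned by `σ` (barycentric coordinates). -/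
def simplex {V : Type} (σ : Finset V) : Set (V → ℝ) :=
  {x | (∀ v, 0 ≤ x v) ∧ (∀ v, v ∉ σ → x v = 0) ∧ ∑ v ∈ σ, x v = 1}

/-- A flat-continuous family of cycles on a finite-dimensional simplicial complex, without
concentration of mass. -/
def IsFamily {n : ℕ} {V : Type} (X : PreAbstractSimplicialComplex V) (Φ : (V → ℝ) → Set (E n)) :
    Prop :=
  (∃ k, ∀ σ ∈ X.faces, σ.card ≤ k) ∧
  (∀ σ ∈ X.faces, ∀ x ∈ simplex σ, MeasurableSet (Φ x) ∧ Per (Φ x) (ball 0 1) < ⊤ ∧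
    Tendsto (fun y => flat (Φ y) (Φ x)) (𝓝[simplex σ] x) (𝓝 0)) ∧
  Tendsto (fun r : ℝ => ⨆ σ ∈ X.faces, ⨆ x ∈ simplex σ, ⨆ q ∈ closedBall (0 : E n) 1,
    Per (Φ x) (ball q r ∩ ball 0 1)) (𝓝[>] 0) (𝓝 0)

/-- Monodromy along the edge from `v` to `w` of the double cover (sets over cycles). -/
noncomputable def mono {n : ℕ} {V : Type} (Φ : (V → ℝ) → Set (E n)) (v w : V) : ZMod 2 :=
  if ∃ γ : ℝ → Set (E n), γ 0 = Φ (Pi.single v 1) ∧ γ 1 = (Φ (Pi.single w 1))ᶜ ∧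
    ∀ t ∈ Icc (0 : ℝ) 1,
      (γ t = Φ ((1 - t) • Pi.single v 1 + t • Pi.single w 1) ∨
        γ t = (Φ ((1 - t) • Pi.single v 1 + t • Pi.single w 1))ᶜ) ∧
      Tendsto (fun s => volume ((γ s ∆ γ t) ∩ ball 0 1)) (𝓝[Icc 0 1] t) (𝓝 0)
  then 1 else 0

/-- `p`-sweepout: the `p`-th cup power of the monodromy cocycle is not a coboundary
(ordered simplicial cochains mod 2). -/
def IsSweepout {n : ℕ} {V : Type} (p : ℕ) (X : PreAbstractSimplicialComplex V)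
    (Φ : (V → ℝ) → Set (E n)) : Prop :=
  IsFamily X Φ ∧ ¬ ∃ f : (Fin p → V) → ZMod 2, ∀ s : Fin (p + 1) → V,
    Finset.univ.image s ∈ X.faces →
      ∏ i : Fin p, mono Φ (s i.castSucc) (s i.succ) = ∑ i : Fin (p + 1), f (s ∘ i.succAbove)

/-- The `p`-width of the unit ball of `ℝ^n`. -/
noncomputable def width (n p : ℕ) : ℝ≥0∞ :=
  ⨅ (V : Type) (X : PreAbstractSimplicialComplex V) (Φ : (V → ℝ) → Set (E n))
    (_ : IsSweepout p X Φ), ⨆ σ ∈ X.faces, ⨆ x ∈ simplex σ, Per (Φ x) (ball 0 1)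

end Pool.Agent.MP_5cfeaf_gt.W
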