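import Pool.Agent.MP_5cfeaf_gt.Defs

section

/-! Block B: algebra of mod 2 chains on lists. -/

set_option autoImplicit false

open MeasureTheory Set Filter Topology Metric
open scoped ENNReal symmDiff Classical InnerProductSpace ContDiff

namespace Pool.Agent.MP_5cfeaf_gt.W

variable {d : ℕ}

/-- discrete sweepout with a condition on the lists of the support -/
def SwL {α : Type} (τ : α → α) (u : α → ZMod 2) (k : ℕ) (P : List α → Prop) : Prop :=
  ∃ c : List α →₀ ZMod 2, (∀ l ∈ c.support, l.length = k + 1 ∧ P l) ∧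
    (bd c).mapDomain (List.map τ) = bd c ∧ ev (Lam u) c = 1

section
variable {α β : Type}

theorem sw_iff {τ : α → α} {u : α → ZMod 2} {k : ℕ} {A : α → Prop} {Rl : α → α → Prop} :
    Sw τ u k A Rl ↔ SwL τ u k (fun l => (∀ a ∈ l, A a) ∧ ∀ a ∈ l, ∀ b ∈ l, Rl a b) :=
  ⟨fun ⟨c, h1, h2, h3, h4⟩ => ⟨c, fun l hl => ⟨h1 l hl, h4 l hl⟩, h2, h3⟩,
    fun ⟨c, h1, h2, h3⟩ => ⟨c, fun l hl => (h1 l hl).1, h2, h3, fun l hl => (h1 l hl).2⟩⟩

theorem B1_two (a : ZMod 2) : a + a = 0 := by revert a; decide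

theorem ch_add_self (c : List α →₀ ZMod 2) : c + c = 0 := by
  ext l; simp [B1_two]
theorem bd_eq (c : List α →₀ ZMod 2) : bd c = Finsupp.linearCombination (ZMod 2) bdL c := rfl
theorem ev_eq (F : List α → ZMod 2) (c : List α →₀ ZMod 2) :
    ev F c = Finsupp.linearCombination (ZMod 2) F c := rfl
theorem bd_single (l : List α) : bd (Finsupp.single l 1) = bdL l := by
  rw [bd_eq, Finsupp.linearCombination_single, one_smul]
theorem bd_zero : bd (0 : List α →₀ ZMod 2) = 0 := by rw [bd_eq, map_zero]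
theorem bd_add (c c' : List α →₀ ZMod 2) : bd (c + c') = bd c + bd c' := by
  simp only [bd_eq, map_add]
theorem ev_single (F : List α → ZMod 2) (l : List α) : ev F (Finsupp.single l 1) = F l := by
  rw [ev_eq, Finsupp.linearCombination_single, one_smul]
theorem ev_zero (F : List α → ZMod 2) : ev F 0 = 0 := by rw [ev_eq, map_zero]
theorem ev_add (F : List α → ZMod 2) (c c' : List α →₀ ZMod 2) : ev F (c + c') = ev F c + ev F c' := by
  simp only [ev_eq, map_add]
theorem ev_congr {F F' : List α → ZMod 2} {c : List α →₀ ZMod 2} (h : ∀ l ∈ c.support, F l = F' l) :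
    ev F c = ev F' c :=
  Finsupp.sum_congr fun l hl => by rw [h l hl]
theorem ev_mapDomain (F : List β → ZMod 2) (g : List α → List β) (c : List α →₀ ZMod 2) :
    ev F (c.mapDomain g) = ev (F ∘ g) c := by
  rw [ev_eq, ev_eq, Finsupp.linearCombination_mapDomain]

/-- induction over mod 2 chains -/
theorem B1_ind {P : (List α →₀ ZMod 2) → Prop} (h0 : P 0) (h1 : ∀ l, P (Finsupp.single l 1))
    (ha : ∀ c c', P c → P c' → P (c + c')) (c : List α →₀ ZMod 2) : P c := by
  refine Finsupp.induction_linear c h0 ha fun l z => ?_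
  have : z = 0 ∨ z = 1 := by revert z; decide
  rcases this with rfl | rfl
  · simpa using h0
  · exact h1 l

theorem ev_bd (F : List α → ZMod 2) (c : List α →₀ ZMod 2) :
    ev F (bd c) = ev (fun l => ev F (bdL l)) c := by
  induction c using B1_ind with
  | h0 => rw [bd_zero, ev_zero, ev_zero]
  | h1 l => rw [bd_single, ev_single]
  | ha c c' h h' => rw [bd_add, ev_add, ev_add, h, h']

theorem B1_bdL_map (f : α → β) (l : List α) :
    bdL (l.map f) = (bdL l).mapDomain (List.map f) := by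
  induction l with
  | nil => simp [bdL]
  | cons a l ih =>
    simp only [List.map_cons, bdL, ih, Finsupp.mapDomain_add, Finsupp.mapDomain_single]
    rw [← Finsupp.mapDomain_comp, ← Finsupp.mapDomain_comp]
    rfl

theorem bd_map (f : α → β) (c : List α →₀ ZMod 2) :
    bd (c.mapDomain (List.map f)) = (bd c).mapDomain (List.map f) := by
  induction c using B1_ind with
  | h0 => simp [bd_zero]
  | h1 l => rw [Finsupp.mapDomain_single, bd_single, bd_single, B1_bdL_map]
  | ha c c' h h' => rw [Finsupp.mapDomain_add, bd_add, bd_add, h, h', Finsupp.mapDomain_add]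

theorem bd_cone (a : α) (c : List α →₀ ZMod 2) :
    bd (c.mapDomain (List.cons a)) = c + (bd c).mapDomain (List.cons a) := by
  induction c using B1_ind with
  | h0 => simp [bd_zero]
  | h1 l => rw [Finsupp.mapDomain_single, bd_single, bd_single]; rfl
  | ha c c' h h' =>
    rw [Finsupp.mapDomain_add, bd_add, bd_add, h, h', Finsupp.mapDomain_add]; abel

theorem B1_bd_bdL (l : List α) : bd (bdL l) = 0 := by
  induction l with
  | nil => simp [bdL, bd_zero]
  | cons a l ih =>
    rw [bdL, bd_add, bd_single, bd_cone, ih, Finsupp.mapDomain_zero, add_zero, ch_add_self]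

theorem bd_bd (c : List α →₀ ZMod 2) : bd (bd c) = 0 := by
  induction c using B1_ind with
  | h0 => rw [bd_zero, bd_zero]
  | h1 l => rw [bd_single, B1_bd_bdL]
  | ha c c' h h' => rw [bd_add, bd_add, h, h', add_zero]

theorem supp_bdL {l l' : List α} (h : l' ∈ (bdL l).support) :
    l'.Sublist l ∧ l'.length + 1 = l.length := by
  induction l generalizing l' with
  | nil => simp [bdL] at h
  | cons a l ih =>
    rw [bdL] at h
    rcases Finset.mem_union.1 (Finsupp.support_add h) with h | h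
    · have := Finset.mem_singleton.1 (Finsupp.support_single_subset h)
      subst this
      exact ⟨List.sublist_cons_self _ _, rfl⟩
    · obtain ⟨w, hw, rfl⟩ := Finset.mem_image.1 (Finsupp.mapDomain_support h)
      exact ⟨(ih hw).1.cons_cons a, by simp [(ih hw).2]⟩

theorem supp_bd {c : List α →₀ ZMod 2} {l' : List α} (h : l' ∈ (bd c).support) :
    ∃ l ∈ c.support, l'.Sublist l ∧ l'.length + 1 = l.length := by
  obtain ⟨l, hl, h⟩ := Finset.mem_biUnion.1 (Finsupp.support_sum h)
  exact ⟨l, hl, supp_bdL (Finsupp.support_smul h)⟩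

theorem B1_ev_smul (z : ZMod 2) (F : List α → ZMod 2) (c : List α →₀ ZMod 2) :
    ev (fun l => z * F l) c = z * ev F c := by
  induction c using B1_ind with
  | h0 => simp [ev_zero]
  | h1 l => rw [ev_single, ev_single]
  | ha c c' h h' => rw [ev_add, ev_add, h, h', mul_add]

theorem B1_Lam_bdL (u : α → ZMod 2) (l : List α) : ev (Lam u) (bdL l) = 0 := by
  induction l with
  | nil => simp [bdL, ev_zero]
  | cons a l ih =>
    rcases l with _ | ⟨b, l⟩
    · simp [bdL, ev_single, Lam]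
    rcases l with _ | ⟨c, l⟩
    · simp only [bdL, Finsupp.mapDomain_zero, add_zero, Finsupp.mapDomain_single, ev_add, ev_single, Lam]
      decide
    rw [bdL, ev_add, ev_single, ev_mapDomain] at ih
    rw [bdL, ev_add, ev_single, ev_mapDomain, bdL, ev_add, ev_single, ev_mapDomain]
    have h1 : ((Lam u ∘ List.cons a) ∘ List.cons b) = fun w => (u a + u b) * (Lam u ∘ List.cons b) w := by
      funext w; rfl
    rw [h1, B1_ev_smul]
    have h2 : Lam u (b :: c :: l) = (u b + u c) * Lam u (c :: l) := rfl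
    have h3 : (Lam u ∘ List.cons a) (c :: l) = (u a + u c) * Lam u (c :: l) := rfl
    rw [h2, h3]
    have h4 : ev (Lam u ∘ List.cons b) (bdL (c :: l)) = Lam u (c :: l) := by
      have := B1_two (Lam u (c :: l))
      linear_combination ih - this
    rw [h4]
    have e1 := B1_two (u a)
    have e2 := B1_two (u b)
    have e3 := B1_two (u c)
    linear_combination (e1 + e2 + e3) * Lam u (c :: l)

theorem ev_Lam_bd (u : α → ZMod 2) (c : List α →₀ ZMod 2) : ev (Lam u) (bd c) = 0 := by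
  induction c using B1_ind with
  | h0 => rw [bd_zero, ev_zero]
  | h1 l => rw [bd_single, B1_Lam_bdL]
  | ha c c' h h' => rw [bd_add, ev_add, h, h', add_zero]

theorem Lam_map (u : β → ZMod 2) (f : α → β) (l : List α) : Lam u (l.map f) = Lam (u ∘ f) l := by
  induction l with
  | nil => rfl
  | cons a l ih =>
    rcases l with _ | ⟨b, l⟩
    · rfl
    · show (u (f a) + u (f b)) * Lam u ((b :: l).map f) = (u (f a) + u (f b)) * Lam (u ∘ f) (b :: l)
      rw [ih]

theorem Lam_congr {u u' : α → ZMod 2} {l : List α}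
    (h : ∀ a ∈ l, ∀ b ∈ l, u a + u b = u' a + u' b) : Lam u l = Lam u' l := by
  induction l with
  | nil => rfl
  | cons a l ih =>
    rcases l with _ | ⟨b, l⟩
    · rfl
    · show (u a + u b) * Lam u (b :: l) = (u' a + u' b) * Lam u' (b :: l)
      rw [ih fun x hx y hy => h x (List.mem_cons_of_mem _ hx) y (List.mem_cons_of_mem _ hy),
        h a (by simp) b (by simp)]

theorem Lam_inv {τ : α → α} {u : α → ZMod 2} {l : List α} (h : ∀ a ∈ l, u (τ a) = u a + 1) :
    Lam u (l.map τ) = Lam u l := by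
  rw [Lam_map]
  refine Lam_congr fun a ha b hb => ?_
  simp only [Function.comp, h a ha, h b hb]
  linear_combination B1_two 1

/-- an invariant cochain vanishes on an invariant chain if the involution is free -/
theorem ev_inv {τ : α → α} (hτ : ∀ a, τ (τ a) = a) {c : List α →₀ ZMod 2}
    (hc : c.mapDomain (List.map τ) = c) {F : List α → ZMod 2}
    (h : ∀ l ∈ c.support, l.map τ ≠ l ∧ F (l.map τ) = F l) : ev F c = 0 := by
  have hi : ∀ l : List α, (l.map τ).map τ = l := fun l => by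
    rw [List.map_map]
    have : τ ∘ τ = id := funext hτ
    rw [this, List.map_id]
  have hinj : Function.Injective (List.map τ) := Function.LeftInverse.injective hi
  have hv : ∀ l, c (l.map τ) = c l := fun l => by
    conv_lhs => rw [← hc]
    exact Finsupp.mapDomain_apply hinj c l
  unfold ev Finsupp.sum
  refine Finset.sum_involution (fun l _ => l.map τ) (fun l hl => ?_) (fun l hl _ => (h l hl).1)
    (fun l hl => ?_) (fun l _ => hi l)
  · show c l * F l + c (l.map τ) * F (l.map τ) = 0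
    rw [hv, (h l hl).2, B1_two]
  · rw [Finsupp.mem_support_iff, hv]; exact Finsupp.mem_support_iff.1 hl

theorem bdL_ofFn {k : ℕ} (s : Fin (k + 1) → α) :
    bdL (List.ofFn s) = ∑ i : Fin (k + 1), Finsupp.single (List.ofFn (s ∘ i.succAbove)) 1 := by
  induction k with
  | zero => simp [bdL]
  | succ k ih =>
    rw [List.ofFn_succ, bdL, ih, Fin.sum_univ_succ (n := k + 1), Finsupp.mapDomain_finsetSum]
    congr 1
    refine Finset.sum_congr rfl fun i _ => ?_
    rw [Finsupp.mapDomain_single, List.ofFn_succ (f := s ∘ i.succ.succAbove)]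
    congr 2
    simp only [Function.comp, Fin.succ_succAbove_succ]
    rfl

theorem Lam_ofFn (u : α → ZMod 2) {k : ℕ} (s : Fin (k + 1) → α) :
    Lam u (List.ofFn s) = ∏ i : Fin k, (u (s i.castSucc) + u (s i.succ)) := by
  induction k with
  | zero => simp [Lam]
  | succ k ih =>
    rw [List.ofFn_succ, Fin.prod_univ_succ]
    have h := ih fun i => s i.succ
    rw [List.ofFn_succ] at h ⊢
    rw [Lam, h]
    rfl

end

end Pool.Agent.MP_5cfeaf_gt.W

end

section

/-! Block B: sweepouts with conditions on lists. -/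

set_option autoImplicit false

open MeasureTheory Set Filter Topology Metric
open scoped ENNReal symmDiff Classical InnerProductSpace ContDiff

namespace Pool.Agent.MP_5cfeaf_gt.W

variable {d : ℕ}

section
variable {α β : Type}

theorem SwL.mono {τ : α → α} {u : α → ZMod 2} {k : ℕ} {P P' : List α → Prop} (h : SwL τ u k P)
    (hP : ∀ l, l.length = k + 1 → P l → P' l) : SwL τ u k P' := by
  obtain ⟨c, h1, h2, h3⟩ := h
  exact ⟨c, fun l hl => ⟨(h1 l hl).1, hP l (h1 l hl).1 (h1 l hl).2⟩, h2, h3⟩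

theorem SwL.fin {τ : α → α} {u : α → ZMod 2} {k : ℕ} {P : List α → Prop} (h : SwL τ u k P) :
    ∃ s : Finset (List α), (∀ l ∈ s, l.length = k + 1 ∧ P l) ∧ SwL τ u k (fun l => l ∈ s) := by
  obtain ⟨c, h1, h2, h3⟩ := h
  exact ⟨c.support, h1, c, fun l hl => ⟨(h1 l hl).1, hl⟩, h2, h3⟩

/-- image under a map that is equivariant on the entries -/
theorem SwL.map {τ : α → α} {τ' : β → β} {u' : β → ZMod 2} {k : ℕ} {P : List α → Prop} (f : α → β)
    (h : SwL τ (u' ∘ f) k P) (hf : ∀ l, P l → ∀ a ∈ l, f (τ a) = τ' (f a)) :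
    SwL τ' u' k (fun w => ∃ l, P l ∧ w = l.map f) := by
  obtain ⟨c, h1, h2, h3⟩ := h
  refine ⟨c.mapDomain (List.map f), fun w hw => ?_, ?_, ?_⟩
  · obtain ⟨l, hl, rfl⟩ := Finset.mem_image.1 (Finsupp.mapDomain_support hw)
    exact ⟨by rw [List.length_map]; exact (h1 l hl).1, l, (h1 l hl).2, rfl⟩
  · rw [bd_map, ← Finsupp.mapDomain_comp]
    conv_rhs => rw [← h2, ← Finsupp.mapDomain_comp]
    refine Finsupp.mapDomain_congr fun l' hl' => ?_
    obtain ⟨l, hl, hs, -⟩ := supp_bd hl'
    simp only [Function.comp_apply, List.map_map]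
    exact List.map_congr_left fun a ha => (hf l (h1 l hl).2 a (hs.subset ha)).symm
  · rw [ev_mapDomain, ← h3]
    exact ev_congr fun l _ => Lam_map u' f l

/-- cap product of a list with the coboundary of `v` -/
noncomputable def B1s_capL (v : α → ZMod 2) : List α → (List α →₀ ZMod 2)
  | [] => 0
  | [_] => 0
  | a :: b :: l => (v a + v b) • Finsupp.single (b :: l) 1

/-- cap product of a chain with the coboundary of `v` -/
noncomputable def B1s_cap (v : α → ZMod 2) : (List α →₀ ZMod 2) →ₗ[ZMod 2] (List α →₀ ZMod 2) :=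
  Finsupp.linearCombination (ZMod 2) (B1s_capL v)

theorem B1s_cap_single (v : α → ZMod 2) (l : List α) :
    B1s_cap v (Finsupp.single l 1) = B1s_capL v l := by
  simp [B1s_cap]

/-- two linear maps that agree on the basis elements of the support agree on the chain -/
theorem B1s_ext {M : Type} [AddCommGroup M] [Module (ZMod 2) M]
    (f g : (List α →₀ ZMod 2) →ₗ[ZMod 2] M) (c : List α →₀ ZMod 2)
    (h : ∀ l ∈ c.support, f (Finsupp.single l 1) = g (Finsupp.single l 1)) : f c = g c := by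
  rw [← Finsupp.sum_single c, Finsupp.sum, map_sum, map_sum]
  refine Finset.sum_congr rfl fun l hl => ?_
  have e : Finsupp.single l (c l) = c l • Finsupp.single l (1 : ZMod 2) := by simp
  rw [e, map_smul, map_smul, h l hl]

theorem B1s_bd_smul (z : ZMod 2) (c : List α →₀ ZMod 2) : bd (z • c) = z • bd c := by
  rw [bd_eq, bd_eq, map_smul]

theorem B1s_ev_smul (F : List α → ZMod 2) (z : ZMod 2) (c : List α →₀ ZMod 2) :
    ev F (z • c) = z * ev F c := by
  rw [ev_eq, ev_eq, map_smul, smul_eq_mul]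

theorem B1s_cap_cons (v : α → ZMod 2) (a b : α) (c : List α →₀ ZMod 2) :
    B1s_cap v ((c.mapDomain (List.cons b)).mapDomain (List.cons a)) =
      (v a + v b) • c.mapDomain (List.cons b) := by
  have := B1s_ext ((B1s_cap v) ∘ₗ (Finsupp.lmapDomain (ZMod 2) (ZMod 2) (List.cons a)) ∘ₗ
      (Finsupp.lmapDomain (ZMod 2) (ZMod 2) (List.cons b)))
    ((v a + v b) • Finsupp.lmapDomain (ZMod 2) (ZMod 2) (List.cons b)) c (fun l _ => by
      simp only [LinearMap.comp_apply, Finsupp.lmapDomain_apply, Finsupp.mapDomain_single,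
        LinearMap.smul_apply, B1s_cap_single, B1s_capL])
  simpa only [LinearMap.comp_apply, Finsupp.lmapDomain_apply, LinearMap.smul_apply] using this

theorem B1s_two (x y z : ZMod 2) : y + z + (x + z) = x + y := by
  revert x y z
  decide

theorem B1s_bd_capL (v : α → ZMod 2) (a b e : α) (l : List α) :
    bd (B1s_capL v (a :: b :: e :: l)) = B1s_cap v (bdL (a :: b :: e :: l)) := by
  have e1 : bdL (a :: b :: e :: l) = Finsupp.single (b :: e :: l) 1 +
      (bdL (b :: e :: l)).mapDomain (List.cons a) := rfl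
  have e2 : bdL (b :: e :: l) = Finsupp.single (e :: l) 1 +
      (bdL (e :: l)).mapDomain (List.cons b) := rfl
  rw [e1, B1s_capL, B1s_bd_smul, bd_single, e2, Finsupp.mapDomain_add, Finsupp.mapDomain_single,
    map_add, map_add, B1s_cap_cons, B1s_cap_single, B1s_cap_single, B1s_capL, B1s_capL,
    ← add_assoc, ← add_smul, B1s_two, smul_add]

theorem B1s_bd_cap (v : α → ZMod 2) (c : List α →₀ ZMod 2)
    (h : ∀ l ∈ c.support, 3 ≤ l.length) : bd (B1s_cap v c) = B1s_cap v (bd c) := by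
  have := B1s_ext ((Finsupp.linearCombination (ZMod 2) bdL) ∘ₗ (B1s_cap v))
    ((B1s_cap v) ∘ₗ (Finsupp.linearCombination (ZMod 2) bdL)) c (fun l hl => by
      simp only [LinearMap.comp_apply, ← bd_eq, B1s_cap_single, bd_single]
      have h3 := h l hl
      match l, h3 with
      | a :: b :: e :: m, _ => exact B1s_bd_capL v a b e m)
  simpa only [LinearMap.comp_apply, ← bd_eq] using this

theorem B1s_ev_cap (F G : List α → ZMod 2) (v : α → ZMod 2) (c : List α →₀ ZMod 2)
    (h : ∀ l ∈ c.support, ev F (B1s_capL v l) = G l) : ev F (B1s_cap v c) = ev G c := by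
  have := B1s_ext ((Finsupp.linearCombination (ZMod 2) F) ∘ₗ (B1s_cap v))
    (Finsupp.linearCombination (ZMod 2) G) c (fun l hl => by
      simp only [LinearMap.comp_apply, ← ev_eq, B1s_cap_single, ev_single]
      exact h l hl)
  simpa only [LinearMap.comp_apply, ← ev_eq] using this

theorem B1s_ev_Lam_cap (u : α → ZMod 2) (c : List α →₀ ZMod 2)
    (h : ∀ l ∈ c.support, 2 ≤ l.length) : ev (Lam u) (B1s_cap u c) = ev (Lam u) c := by
  refine B1s_ev_cap _ _ _ _ fun l hl => ?_
  have h2 := h l hl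
  match l, h2 with
  | a :: b :: m, _ => rw [B1s_capL, B1s_ev_smul, ev_single, Lam]

theorem B1s_cap_map {τ : α → α} (v : α → ZMod 2) (c : List α →₀ ZMod 2)
    (h : ∀ l ∈ c.support, ∀ a ∈ l, ∀ b ∈ l, v (τ a) + v (τ b) = v a + v b) :
    (B1s_cap v c).mapDomain (List.map τ) = B1s_cap v (c.mapDomain (List.map τ)) := by
  have := B1s_ext ((Finsupp.lmapDomain (ZMod 2) (ZMod 2) (List.map τ)) ∘ₗ (B1s_cap v))
    ((B1s_cap v) ∘ₗ (Finsupp.lmapDomain (ZMod 2) (ZMod 2) (List.map τ))) c (fun l hl => by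
      simp only [LinearMap.comp_apply, Finsupp.lmapDomain_apply, Finsupp.mapDomain_single,
        B1s_cap_single]
      have h2 := h l hl
      match l, h2 with
      | [], _ => simp [B1s_capL]
      | [a], _ => simp [B1s_capL]
      | a :: b :: m, h2 =>
        rw [List.map_cons, List.map_cons, B1s_capL, B1s_capL, Finsupp.mapDomain_smul,
          Finsupp.mapDomain_single, h2 a (by simp) b (by simp), List.map_cons])
  simpa only [LinearMap.comp_apply, Finsupp.lmapDomain_apply] using this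

theorem B1s_supp_cap {v : α → ZMod 2} {c : List α →₀ ZMod 2} {w : List α}
    (hw : w ∈ (B1s_cap v c).support) :
    ∃ a b l, w = b :: l ∧ a :: b :: l ∈ c.support ∧ v a + v b ≠ 0 := by
  rw [B1s_cap, Finsupp.linearCombination_apply, Finsupp.sum] at hw
  obtain ⟨l, hl, hw⟩ := Finset.mem_biUnion.1 (Finsupp.support_finset_sum hw)
  have hw' := Finsupp.support_smul hw
  match l, hl, hw' with
  | [], _, hw' => simp [B1s_capL] at hw'
  | [a], _, hw' => simp [B1s_capL] at hw'
  | a :: b :: m, hl, hw' =>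
    rw [B1s_capL] at hw'
    refine ⟨a, b, m, ?_, hl, fun h0 => ?_⟩
    · exact Finset.mem_singleton.1 (Finsupp.support_single_subset (Finsupp.support_smul hw'))
    · rw [h0, zero_smul] at hw'
      simp at hw'

theorem B1s_odd {x y x' y' : ZMod 2} (hx : x' = x + 1) (hy : y' = y + 1) : x' + y' = x + y := by
  subst hx hy
  revert x y
  decide

/-- the boundary of the cap product stays invariant -/
theorem B1s_inv {τ : α → α} {v : α → ZMod 2} {k : ℕ} {c : List α →₀ ZMod 2}
    (h1 : ∀ l ∈ c.support, l.length = k + 1 + 1 ∧ ∀ a ∈ l, v (τ a) = v a + 1)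
    (h2 : (bd c).mapDomain (List.map τ) = bd c) :
    (bd (B1s_cap v c)).mapDomain (List.map τ) = bd (B1s_cap v c) := by
  rcases Nat.eq_zero_or_pos k with rfl | hk
  · conv_rhs => rw [← Finsupp.mapDomain_id (v := bd (B1s_cap v c))]
    refine Finsupp.mapDomain_congr fun l' hl' => ?_
    obtain ⟨w, hw, -, hlen⟩ := supp_bd hl'
    obtain ⟨a, b, m, rfl, hm, -⟩ := B1s_supp_cap hw
    have h3 := (h1 _ hm).1
    simp only [List.length_cons] at h3 hlen
    have h4 : l' = [] := List.length_eq_zero_iff.1 (by omega)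
    rw [h4]
    rfl
  · rw [B1s_bd_cap v c fun l hl => by have := (h1 l hl).1; omega, B1s_cap_map, h2]
    intro l' hl' a ha b hb
    obtain ⟨l, hl, hs, -⟩ := supp_bd hl'
    exact B1s_odd ((h1 l hl).2 a (hs.subset ha)) ((h1 l hl).2 b (hs.subset hb))

/-- cochain whose coboundary is the cup product of the coboundary of `v` with `Lam u` -/
def B1s_F (u v : α → ZMod 2) : List α → ZMod 2
  | [] => 0
  | a :: l => v a * Lam u (a :: l)

theorem B1s_eq_of_add {x y : ZMod 2} (h : x + y = 0) : y = x := by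
  revert x y
  decide

theorem B1s_ev_F (u v : α → ZMod 2) (a b : α) (m : List α) :
    ev (Lam u) (B1s_capL v (a :: b :: m)) = ev (B1s_F u v) (bdL (a :: b :: m)) := by
  have e1 : bdL (a :: b :: m) = Finsupp.single (b :: m) 1 +
      (bdL (b :: m)).mapDomain (List.cons a) := rfl
  have h0 := ev_Lam_bd u (Finsupp.single (a :: b :: m) 1)
  rw [bd_single, e1, ev_add, ev_single, ev_mapDomain] at h0
  have h1 : ev (B1s_F u v ∘ List.cons a) (bdL (b :: m)) =
      v a * ev (Lam u ∘ List.cons a) (bdL (b :: m)) := by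
    have e2 : B1s_F u v ∘ List.cons a = v a • (Lam u ∘ List.cons a) := by
      funext l
      simp [B1s_F]
    rw [e2, ev, ev, Finsupp.mul_sum]
    refine Finsupp.sum_congr fun l _ => ?_
    simp only [Pi.smul_apply, smul_eq_mul]
    ring
  rw [B1s_capL, B1s_ev_smul, ev_single, e1, ev_add, ev_single, ev_mapDomain, h1, B1s_eq_of_add h0,
    B1s_F]
  ring

theorem B1s_even {τ : α → α} (hτ : ∀ a, τ (τ a) = a) {u v : α → ZMod 2} {k : ℕ}
    {c : List α →₀ ZMod 2}
    (h1 : ∀ l ∈ c.support, l.length = k + 1 + 1 ∧ ∀ a ∈ l, u (τ a) = u a + 1 ∧ v (τ a) = v a)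
    (h2 : (bd c).mapDomain (List.map τ) = bd c) : ev (Lam u) (B1s_cap v c) = 0 := by
  have h3 : ev (Lam u) (B1s_cap v c) = ev (B1s_F u v) (bd c) := by
    rw [ev_bd]
    refine B1s_ev_cap _ _ _ _ fun l hl => ?_
    have h4 : 2 ≤ l.length := by have := (h1 l hl).1; omega
    match l, h4 with
    | a :: b :: m, _ => exact B1s_ev_F u v a b m
  rw [h3]
  refine ev_inv hτ h2 fun l' hl' => ?_
  obtain ⟨l, hl, hs, hlen⟩ := supp_bd hl'
  have h4 : 1 ≤ l'.length := by have := (h1 l hl).1; omega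
  have h5 : ∀ a ∈ l', u (τ a) = u a + 1 ∧ v (τ a) = v a := fun a ha => (h1 l hl).2 a (hs.subset ha)
  match l', h4, h5 with
  | a :: m, _, h5 =>
    constructor
    · intro he
      have h6 : τ a = a := by
        rw [List.map_cons] at he
        exact (List.cons.inj he).1
      have h7 := (h5 a (by simp)).1
      rw [h6] at h7
      simp only [left_eq_add, one_ne_zero] at h7
    · have h6 : Lam u ((a :: m).map τ) = Lam u (a :: m) := Lam_inv fun b hb => (h5 b hb).1
      rw [List.map_cons] at h6 ⊢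
      rw [B1s_F, B1s_F, h6, (h5 a (by simp)).2]

theorem B1s_four (x y x' y' : ZMod 2) : x' + y' = x + y + (x + x' + (y + y')) := by
  revert x y x' y'
  decide

theorem B1s_cap_add (u u' : α → ZMod 2) (c : List α →₀ ZMod 2) :
    B1s_cap u' c = B1s_cap u c + B1s_cap (fun a => u a + u' a) c := by
  have := B1s_ext (B1s_cap u') (B1s_cap u + B1s_cap (fun a => u a + u' a)) c (fun l _ => by
    simp only [LinearMap.add_apply, B1s_cap_single]
    match l with
    | [] => simp [B1s_capL]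
    | [a] => simp [B1s_capL]
    | a :: b :: m => rw [B1s_capL, B1s_capL, B1s_capL, ← add_smul, ← B1s_four])
  simpa only [LinearMap.add_apply] using this

theorem B1s_indep {τ : α → α} (hτ : ∀ a, τ (τ a) = a) {u u' : α → ZMod 2} (k : ℕ) :
    ∀ c : List α →₀ ZMod 2, (∀ l ∈ c.support, l.length = k + 1 ∧
      ∀ a ∈ l, u (τ a) = u a + 1 ∧ u' (τ a) = u' a + 1) →
      (bd c).mapDomain (List.map τ) = bd c → ev (Lam u') c = ev (Lam u) c := by
  induction k with
  | zero =>
    intro c h1 _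
    refine ev_congr fun l hl => ?_
    have h3 := (h1 l hl).1
    match l, h3 with
    | [a], _ => rfl
  | succ k ih =>
    intro c h1 h2
    have hl2 : ∀ l ∈ c.support, 2 ≤ l.length := fun l hl => by have := (h1 l hl).1; omega
    have h3 : ev (Lam u') (B1s_cap u' c) = ev (Lam u) (B1s_cap u' c) := by
      refine ih _ (fun w hw => ?_)
        (B1s_inv (fun l hl => ⟨(h1 l hl).1, fun a ha => ((h1 l hl).2 a ha).2⟩) h2)
      obtain ⟨a, b, m, rfl, hm, -⟩ := B1s_supp_cap hw
      refine ⟨?_, fun e he => (h1 _ hm).2 e (List.mem_cons_of_mem _ he)⟩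
      have := (h1 _ hm).1
      simp only [List.length_cons] at this ⊢
      omega
    have h4 : ev (Lam u) (B1s_cap (fun a => u a + u' a) c) = 0 :=
      B1s_even hτ (fun l hl => ⟨(h1 l hl).1, fun a ha => ⟨((h1 l hl).2 a ha).1,
        B1s_odd ((h1 l hl).2 a ha).1 ((h1 l hl).2 a ha).2⟩⟩) h2
    rw [← B1s_ev_Lam_cap u' c hl2, h3, B1s_cap_add u u', ev_add, h4, add_zero,
      B1s_ev_Lam_cap u c hl2]

/-- Independence of the odd function.  Plan: `cap v c = linearCombination` of `a :: b :: l ↦ (v a + v b) • single (b :: l) 1`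
(0 on shorter lists); `bd (cap v c) = cap v (bd c)` on lists of length `≥ 3`; `ev (Lam u) (cap u c) = ev (Lam u) c` on length `≥ 2`;
`cap v` commutes with `List.map τ` if `v` is odd or even on the entries; a chain supported on `[]` is invariant.  For even `v`:
`ev (Lam u) (cap v c) = ev F (bd c) = 0` with `F (a :: l) = v a * Lam u (a :: l)`, `F [] = 0` (`ev_Lam_bd`, `ev_inv`).
Induction on `k` over all chains: `ev (Lam u') c = ev (Lam u') (cap u' c) = ev (Lam u) (cap u' c) =
ev (Lam u) (cap u c) + ev (Lam u) (cap (u + u') c)`. -/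
theorem SwL.indep {τ : α → α} (hτ : ∀ a, τ (τ a) = a) {u u' : α → ZMod 2} {k : ℕ}
    {P : List α → Prop} (h : SwL τ u k P)
    (hu : ∀ l, P l → ∀ a ∈ l, u (τ a) = u a + 1 ∧ u' (τ a) = u' a + 1) : SwL τ u' k P := by
  obtain ⟨c, h1, h2, h3⟩ := h
  refine ⟨c, h1, h2, ?_⟩
  rw [B1s_indep hτ k c (fun l hl => ⟨(h1 l hl).1, hu l (h1 l hl).2⟩) h2, h3]

/-- cap product with the coboundary of `u` -/
theorem SwL.cap1 {τ : α → α} {u : α → ZMod 2} {k : ℕ} {P : List α → Prop}
    (h : SwL τ u (k + 1) P) (hu : ∀ l, P l → ∀ a ∈ l, u (τ a) = u a + 1) :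
    SwL τ u k (fun w => ∃ a b l, w = b :: l ∧ P (a :: b :: l) ∧ u a ≠ u b) := by
  obtain ⟨c, h1, h2, h3⟩ := h
  refine ⟨B1s_cap u c, fun w hw => ?_,
    B1s_inv (fun l hl => ⟨(h1 l hl).1, hu l (h1 l hl).2⟩) h2, ?_⟩
  · obtain ⟨a, b, m, rfl, hm, hne⟩ := B1s_supp_cap hw
    refine ⟨?_, a, b, m, rfl, (h1 _ hm).2, fun he => hne ?_⟩
    · have := (h1 _ hm).1
      simp only [List.length_cons] at this ⊢
      omega
    · rw [he]
      exact CharTwo.add_self_eq_zero _
  · rw [B1s_ev_Lam_cap u c fun l hl => by have := (h1 l hl).1; omega, h3]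

end

end Pool.Agent.MP_5cfeaf_gt.W

end

section

/-! Block B: cone subdivision. -/

set_option autoImplicit false

open MeasureTheory Set Filter Topology Metric
open scoped ENNReal symmDiff Classical InnerProductSpace ContDiff

namespace Pool.Agent.MP_5cfeaf_gt.W

variable {d : ℕ}

/-- `w` is the list of cone points of a flag of nonempty sublists of `l` -/
def FlagOf {α : Type} (m : List α → α) (l w : List α) : Prop :=
  ∃ fs : List (List α), w = fs.map m ∧ (∀ f ∈ fs, f ≠ [] ∧ f.Sublist l) ∧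
    fs.Pairwise fun f g => g.Sublist f ∧ g.length < f.length

section
variable {α : Type}

/-- linear extension -/
noncomputable abbrev B2_lin (f : List α → List α →₀ ZMod 2) :
    (List α →₀ ZMod 2) →ₗ[ZMod 2] List α →₀ ZMod 2 := Finsupp.linearCombination (ZMod 2) f

/-- subdivision -/
noncomputable def B2_sd (m : List α → α) : ℕ → List α → List α →₀ ZMod 2
  | 0, l => Finsupp.single l 1
  | n + 1, l => (B2_lin (B2_sd m n) (bdL l)).mapDomain (List.cons (m l))

/-- homotopy -/
noncomputable def B2_ho (m : List α → α) : ℕ → List α → List α →₀ ZMod 2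
  | 0, _ => 0
  | n + 1, l => (Finsupp.single l 1 + B2_lin (B2_ho m n) (bdL l)).mapDomain (List.cons (m l))

theorem B2_ext {F G : (List α →₀ ZMod 2) →ₗ[ZMod 2] List α →₀ ZMod 2}
    (h : ∀ l, F (Finsupp.single l 1) = G (Finsupp.single l 1)) (c : List α →₀ ZMod 2) : F c = G c :=
  LinearMap.congr_fun (Finsupp.lhom_ext' fun l => LinearMap.ext_ring (h l)) c

theorem B2_single (f : List α → List α →₀ ZMod 2) (l : List α) :
    B2_lin f (Finsupp.single l 1) = f l := by simp

theorem B2_supp {f : List α → List α →₀ ZMod 2} {c : List α →₀ ZMod 2} {w : List α}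
    (h : w ∈ (B2_lin f c).support) : ∃ l ∈ c.support, w ∈ (f l).support := by
  rw [Finsupp.linearCombination_apply] at h
  obtain ⟨l, a, b⟩ := Finset.mem_biUnion.1 (Finsupp.support_sum h)
  exact ⟨l, a, Finsupp.support_smul b⟩

theorem B2_suppm {g : List α → List α} {c : List α →₀ ZMod 2} {w : List α}
    (h : w ∈ (c.mapDomain g).support) : ∃ l ∈ c.support, g l = w :=
  Finset.mem_image.1 (Finsupp.mapDomain_support h)

theorem B2_equi {f : List α → List α →₀ ZMod 2} {g : List α → List α} {c : List α →₀ ZMod 2}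
    (h : ∀ l ∈ c.support, f (g l) = (f l).mapDomain g) :
    B2_lin f (c.mapDomain g) = (B2_lin f c).mapDomain g := by
  rw [Finsupp.linearCombination_mapDomain, ← Finsupp.lmapDomain_apply _ (ZMod 2),
    Finsupp.apply_linearCombination, Finsupp.linearCombination_apply,
    Finsupp.linearCombination_apply]
  exact Finsupp.sum_congr fun l a => congrArg _ (h l a)

theorem B2_bdL_map (τ : α → α) (l : List α) : bdL (l.map τ) = (bdL l).mapDomain (List.map τ) := by
  rw [← bd_single, ← bd_single, ← bd_map, Finsupp.mapDomain_single]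

theorem B2_cone_map (τ : α → α) (a : α) (c : List α →₀ ZMod 2) :
    (c.mapDomain (List.map τ)).mapDomain (List.cons (τ a)) =
      (c.mapDomain (List.cons a)).mapDomain (List.map τ) := by
  rw [← Finsupp.mapDomain_comp, ← Finsupp.mapDomain_comp]
  rfl

variable (m : List α → α)

theorem B2_sd0 (c : List α →₀ ZMod 2) : B2_lin (B2_sd m 0) c = c :=
  B2_ext (G := LinearMap.id) (fun l => B2_single _ l) c

theorem B2_ho0 (c : List α →₀ ZMod 2) : B2_lin (B2_ho m 0) c = 0 :=
  B2_ext (G := 0) (fun l => B2_single _ l) c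

theorem B2_bd_sd (n : ℕ) (c : List α →₀ ZMod 2) :
    bd (B2_lin (B2_sd m (n + 1)) c) = B2_lin (B2_sd m n) (bd c) := by
  have key : ∀ n, (∀ l, bd (B2_lin (B2_sd m n) (bdL l)) = 0) →
      ∀ c, bd (B2_lin (B2_sd m (n + 1)) c) = B2_lin (B2_sd m n) (bd c) := fun n h c => by
    have := B2_ext (F := B2_lin bdL ∘ₗ B2_lin (B2_sd m (n + 1)))
      (G := B2_lin (B2_sd m n) ∘ₗ B2_lin bdL) (fun l => by
        simp only [LinearMap.comp_apply, B2_single]
        rw [← bd_eq, B2_sd, bd_cone, h, Finsupp.mapDomain_zero, add_zero]) c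
    simpa only [LinearMap.comp_apply, ← bd_eq] using this
  induction n generalizing c with
  | zero => exact key 0 (fun l => by rw [B2_sd0, ← bd_single, bd_bd]) c
  | succ n ih => exact key _ (fun l => by rw [ih, ← bd_single, bd_bd, map_zero]) c

theorem B2_bd_ho (n : ℕ) (c : List α →₀ ZMod 2) :
    bd (B2_lin (B2_ho m (n + 1)) c) + B2_lin (B2_ho m n) (bd c) = c + B2_lin (B2_sd m (n + 1)) c := by
  have key : ∀ n, (∀ l, bdL l + bd (B2_lin (B2_ho m n) (bdL l)) = B2_lin (B2_sd m n) (bdL l)) →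
      ∀ c, bd (B2_lin (B2_ho m (n + 1)) c) + B2_lin (B2_ho m n) (bd c) =
        c + B2_lin (B2_sd m (n + 1)) c := fun n h c => by
    have := B2_ext (F := B2_lin bdL ∘ₗ B2_lin (B2_ho m (n + 1)) + B2_lin (B2_ho m n) ∘ₗ B2_lin bdL)
      (G := LinearMap.id + B2_lin (B2_sd m (n + 1))) (fun l => by
        simp only [LinearMap.comp_apply, LinearMap.add_apply, LinearMap.id_apply, B2_single]
        rw [← bd_eq, B2_ho, B2_sd, bd_cone, bd_add, bd_single, h, add_right_comm,
          add_assoc _ _ (B2_lin _ _), ch_add_self, add_zero]) c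
    simpa only [LinearMap.comp_apply, LinearMap.add_apply, LinearMap.id_apply, ← bd_eq] using this
  induction n generalizing c with
  | zero => exact key 0 (fun l => by rw [B2_ho0, B2_sd0, bd_zero, add_zero]) c
  | succ n ih =>
    refine key _ (fun l => ?_) c
    have := ih (bdL l)
    rw [← bd_single l, bd_bd, map_zero, add_zero, bd_single] at this
    rw [this, ← add_assoc, ch_add_self, zero_add]

variable {m} {τ : α → α}

theorem B2_sd_map (hm : ∀ l, l ≠ [] → m (l.map τ) = τ (m l)) (n : ℕ) (l : List α)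
    (h : l.length = n) : B2_sd m n (l.map τ) = (B2_sd m n l).mapDomain (List.map τ) := by
  induction n generalizing l with
  | zero => rw [B2_sd, B2_sd, Finsupp.mapDomain_single]
  | succ n ih =>
    rw [B2_sd, B2_sd, hm l (by rintro rfl; simp at h), B2_bdL_map,
      B2_equi fun l' a => ih l' (by have := (supp_bdL a).2; omega), B2_cone_map]

theorem B2_ho_map (hm : ∀ l, l ≠ [] → m (l.map τ) = τ (m l)) (n : ℕ) (l : List α)
    (h : l.length = n) : B2_ho m n (l.map τ) = (B2_ho m n l).mapDomain (List.map τ) := by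
  induction n generalizing l with
  | zero => rw [B2_ho, B2_ho, Finsupp.mapDomain_zero]
  | succ n ih =>
    rw [B2_ho, B2_ho, hm l (by rintro rfl; simp at h), B2_bdL_map,
      B2_equi fun l' a => ih l' (by have := (supp_bdL a).2; omega), ← B2_cone_map,
      Finsupp.mapDomain_add (f := List.map τ), Finsupp.mapDomain_single]

theorem B2_sd_supp (n : ℕ) (l w : List α) (h : l.length = n) (hw : w ∈ (B2_sd m n l).support) :
    w.length = n ∧ FlagOf m l w := by
  induction n generalizing l w with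
  | zero =>
    obtain rfl := List.length_eq_zero_iff.1 h
    obtain rfl := Finset.mem_singleton.1 (Finsupp.support_single_subset hw)
    exact ⟨rfl, [], rfl, by simp, List.Pairwise.nil⟩
  | succ n ih =>
    obtain ⟨v, hv, rfl⟩ := B2_suppm hw
    obtain ⟨l', a, b⟩ := B2_supp hv
    obtain ⟨s1, s2⟩ := supp_bdL a
    obtain ⟨e, fs, rfl, f1, f2⟩ := ih l' v (by omega) b
    refine ⟨by rw [List.length_cons, e], l :: fs, rfl, fun f hf => ?_,
      List.Pairwise.cons (fun g hg => ⟨(f1 g hg).2.trans s1, ?_⟩) f2⟩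
    · rcases List.mem_cons.1 hf with rfl | hf
      · exact ⟨by rintro rfl; simp at h, List.Sublist.refl _⟩
      · exact ⟨(f1 f hf).1, (f1 f hf).2.trans s1⟩
    · have := (f1 g hg).2.length_le
      omega

theorem B2_ho_supp (n : ℕ) (l w : List α) (h : l.length = n) (hw : w ∈ (B2_ho m n l).support) :
    w ≠ [] ∧ ∀ a ∈ w, a ∈ l ∨ ∃ f, f ≠ [] ∧ f.Sublist l ∧ a = m f := by
  induction n generalizing l w with
  | zero => exact absurd hw (Finset.notMem_empty _)
  | succ n ih =>
    obtain ⟨v, hv, rfl⟩ := B2_suppm hw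
    refine ⟨List.cons_ne_nil _ _, fun a ha => ?_⟩
    rcases List.mem_cons.1 ha with rfl | hb
    · exact Or.inr ⟨l, by rintro rfl; simp at h, List.Sublist.refl _, rfl⟩
    rcases Finset.mem_union.1 (Finsupp.support_add hv) with hv | hv
    · obtain rfl := Finset.mem_singleton.1 (Finsupp.support_single_subset hv)
      exact Or.inl hb
    · obtain ⟨l', b, c⟩ := B2_supp hv
      obtain ⟨s1, s2⟩ := supp_bdL b
      exact ((ih l' v (by omega) c).2 a hb).imp (fun z => s1.subset z) fun ⟨f, f1, f2, f3⟩ =>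
        ⟨f, f1, f2.trans s1, f3⟩

end

/-- Subdivision with an equivariant cone point.  Plan (fuel `n` = length of the list; `lin f = Finsupp.linearCombination _ f`):
`sd 0 _ = single [] 1`, `sd (n+1) l = (lin (sd n) (bdL l)).mapDomain (List.cons (m l))`; `ho 0 _ = 0`,
`ho (n+1) l = (single l 1 + lin (ho n) (bdL l)).mapDomain (List.cons (m l))`.  On chains of length `n+1`:
`bd (lin (sd (n+1)) c) = lin (sd n) (bd c)`, `bd (lin (ho (n+1)) c) + lin (ho n) (bd c) = c + lin (sd (n+1)) c` (`bd_cone`, `bd_bd`);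
both commute with `List.map τ` on chains of length `n`; supports by induction (`supp_bdL`): entries of `ho n l` are entries of `l` or
`m f`, lists nonempty; `ev_Lam_bd`, `ev_inv`, `Lam_inv`. -/
theorem SwL.sd {α : Type} {τ : α → α} (hτ : ∀ a, τ (τ a) = a) {u : α → ZMod 2} {k : ℕ}
    {P : List α → Prop} (h : SwL τ u k P) (m : List α → α)
    (hm : ∀ l, l ≠ [] → m (l.map τ) = τ (m l))
    (hu : ∀ l, P l → (∀ a ∈ l, u (τ a) = u a + 1) ∧
      ∀ f, f ≠ [] → f.Sublist l → u (τ (m f)) = u (m f) + 1) :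
    SwL τ u k (fun w => ∃ l, l.length = k + 1 ∧ P l ∧ FlagOf m l w) := by
  obtain ⟨c, h1, h2, h3⟩ := h
  have len : ∀ l ∈ (bd c).support, l.length = k := fun l a => by
    obtain ⟨l', b, -, e⟩ := supp_bd a
    have := (h1 l' b).1
    omega
  refine ⟨B2_lin (B2_sd m (k + 1)) c, fun w hw => ?_, ?_, ?_⟩
  · obtain ⟨l, a, b⟩ := B2_supp hw
    have := B2_sd_supp _ l w (h1 l a).1 b
    exact ⟨this.1, l, (h1 l a).1, (h1 l a).2, this.2⟩
  · rw [B2_bd_sd, ← B2_equi fun l a => B2_sd_map hm k l (len l a), h2]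
  · have := congrArg (ev (Lam u)) (B2_bd_ho m k c)
    rw [ev_add, ev_add, ev_Lam_bd, h3, ev_inv hτ
      (by rw [← B2_equi fun l a => B2_ho_map hm k l (len l a), h2]) fun w hw => ?_] at this
    · revert this
      generalize ev (Lam u) _ = x
      revert x
      decide
    obtain ⟨l, a, b⟩ := B2_supp hw
    obtain ⟨l', a', s, -⟩ := supp_bd a
    obtain ⟨w0, w1⟩ := B2_ho_supp k l w (len l a) b
    have odd : ∀ x ∈ w, u (τ x) = u x + 1 := fun x hx => by
      rcases w1 x hx with z | ⟨f, f1, f2, rfl⟩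
      exacts [(hu l' (h1 l' a').2).1 x (s.subset z), (hu l' (h1 l' a').2).2 f f1 (f2.trans s)]
    refine ⟨fun e => ?_, Lam_inv odd⟩
    obtain ⟨x, t, rfl⟩ := List.exists_cons_of_ne_nil w0
    have := odd x List.mem_cons_self
    rw [(List.cons.inj e).1] at this
    simp only [left_eq_add, one_ne_zero] at this

end Pool.Agent.MP_5cfeaf_gt.W

end

section

/-! Block B: simplices and the core family lemma. -/

set_option autoImplicit false

open MeasureTheory Set Filter Topology Metric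
open scoped ENNReal symmDiff Classical InnerProductSpace ContDiff

namespace Pool.Agent.MP_5cfeaf_gt.W

variable {d : ℕ}

theorem single_mem_simplex {V : Type} {σ : Finset V} {v : V} (h : v ∈ σ) :
    (Pi.single v 1 : V → ℝ) ∈ simplex σ :=
  ⟨fun w => by rw [Pi.single_apply]; split_ifs <;> norm_num,
    fun w hw => Pi.single_eq_of_ne (fun e : w = v => hw (e ▸ h)) _,
    by rw [Finset.sum_pi_single', if_pos h]⟩

theorem simplex_mono {V : Type} {σ σ' : Finset V} (h : σ ⊆ σ') : simplex σ ⊆ simplex σ' :=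
  fun _ hx => ⟨hx.1, fun v hv => hx.2.1 v fun c => hv (h c),
    (Finset.sum_subset h fun v _ hv => hx.2.1 v hv).symm.trans hx.2.2⟩

theorem simplex_le_one {V : Type} {σ : Finset V} {x : V → ℝ} (h : x ∈ simplex σ) (v : V) :
    x v ≤ 1 := by
  by_cases c : v ∈ σ
  · exact h.2.2 ▸ Finset.single_le_sum (fun w _ => h.1 w) c
  · exact (h.2.1 v c).trans_le zero_le_one

theorem simplex_exists_ne {V : Type} {σ : Finset V} {x : V → ℝ} (h : x ∈ simplex σ) :
    ∃ v ∈ σ, x v ≠ 0 :=
  Finset.exists_ne_zero_of_sum_ne_zero (h.2.2 ▸ one_ne_zero)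

/-- barycentre of a list -/
noncomputable def B2f_avg {ι : Type} (l : List (ι → ℝ)) : ι → ℝ := (l.length : ℝ)⁻¹ • l.sum

theorem B2f_pos {α : Type} {l : List α} (h : l ≠ []) : (0 : ℝ) < l.length :=
  Nat.cast_pos.2 (List.length_pos_iff.2 h)

theorem B2f_comp {ι : Type} (τ : ι → ι) (l : List (ι → ℝ)) :
    B2f_avg (l.map fun x => x ∘ τ) = B2f_avg l ∘ τ := by
  have : (l.map fun x => x ∘ τ).sum = l.sum ∘ τ := by
    induction l with
    | nil => rfl
    | cons a l ih => rw [List.map_cons, List.sum_cons, ih]; rfl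
  rw [B2f_avg, this, List.length_map]
  rfl

theorem B2f_mem {ι : Type} {F : Finset ι} {l : List (ι → ℝ)} (h0 : l ≠ [])
    (h : ∀ x ∈ l, x ∈ simplex F) : B2f_avg l ∈ simplex F := by
  have : (∀ v, 0 ≤ l.sum v) ∧ (∀ v, v ∉ F → l.sum v = 0) ∧ ∑ v ∈ F, l.sum v = l.length := by
    clear h0
    induction l with
    | nil => simp
    | cons a l ih =>
      obtain ⟨h1, h2, h3⟩ := ih fun x hx => h x (List.mem_cons_of_mem _ hx)
      obtain ⟨a1, a2, a3⟩ := h a List.mem_cons_self
      simp only [List.sum_cons, Pi.add_apply, Finset.sum_add_distrib, a3, h3, List.length_cons]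
      exact ⟨fun v => add_nonneg (a1 v) (h1 v), fun v hv => by rw [a2 v hv, h2 v hv, add_zero],
        by push_cast; ring⟩
  refine ⟨fun v => mul_nonneg (by positivity) (this.1 v), fun v hv => ?_, ?_⟩
  · simp [B2f_avg, this.2.1 v hv]
  · simp only [B2f_avg, Pi.smul_apply, smul_eq_mul, ← Finset.mul_sum, this.2.2]
    exact inv_mul_cancel₀ (B2f_pos h0).ne'

theorem B2f_sum {ι : Type} (v : ι) {t D : ℝ} {l : List (ι → ℝ)} (h : ∀ x ∈ l, |x v - t| ≤ D) :
    |l.sum v - l.length * t| ≤ l.length * D := by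
  induction l with
  | nil => simp
  | cons a l ih =>
    have h1 := abs_le.1 (ih fun x hx => h x (List.mem_cons_of_mem _ hx))
    have h2 := abs_le.1 (h a List.mem_cons_self)
    rw [List.sum_cons, Pi.add_apply, List.length_cons, abs_le]
    push_cast
    constructor <;> linarith only [h1.1, h1.2, h2.1, h2.2]

theorem B2f_near {ι : Type} (v : ι) {k : ℕ} {D : ℝ} (hD : 0 ≤ D) {f g : List (ι → ℝ)}
    (hg : g ≠ []) (hgf : g.Sublist f) (hk : f.length ≤ k + 1)
    (h : ∀ x ∈ f, ∀ y ∈ f, |x v - y v| ≤ D) :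
    |B2f_avg f v - B2f_avg g v| ≤ (k : ℝ) / (k + 1) * D := by
  have p1 := B2f_pos hg
  have p2 : (0 : ℝ) < f.length := p1.trans_le (Nat.cast_le.2 hgf.length_le)
  have hk' : (f.length : ℝ) ≤ k + 1 := by exact_mod_cast hk
  have h1 : ∀ x ∈ g, |x v - B2f_avg f v| ≤ (k : ℝ) / (k + 1) * D := fun x hx => by
    have hx := hgf.subset hx
    have h2 : |f.sum v - f.length * x v| ≤ (f.length - 1) * D := by
      obtain ⟨s, t, rfl⟩ := List.append_of_mem hx
      have a1 := abs_le.1 (B2f_sum v (l := s) fun y hy => h y (by simp [hy]) x hx)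
      have a2 := abs_le.1 (B2f_sum v (l := t) fun y hy => h y (by simp [hy]) x hx)
      rw [List.sum_append, List.sum_cons, Pi.add_apply, Pi.add_apply, List.length_append,
        List.length_cons, abs_le]
      push_cast
      constructor <;> linarith only [a1.1, a1.2, a2.1, a2.2]
    have e : x v - B2f_avg f v = -((f.sum v - f.length * x v) / f.length) := by
      simp only [B2f_avg, Pi.smul_apply, smul_eq_mul]
      field_simp
      ring
    rw [e, abs_neg, abs_div, abs_of_pos p2, div_le_iff₀ p2, div_mul_eq_mul_div, div_mul_eq_mul_div,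
      le_div_iff₀ (by positivity)]
    refine (mul_le_mul_of_nonneg_right h2 (by positivity)).trans ?_
    linarith only [mul_nonneg hD (sub_nonneg.2 hk')]
  have e : B2f_avg f v - B2f_avg g v = -((g.sum v - g.length * B2f_avg f v) / g.length) := by
    rw [show B2f_avg g v = (g.length : ℝ)⁻¹ * g.sum v from rfl]
    field_simp
    ring
  rw [e, abs_neg, abs_div, abs_of_pos p1, div_le_iff₀ p1, mul_comm _ (g.length : ℝ)]
  exact B2f_sum v h1

theorem B2f_step {ι : Type} {τ : ι → ι} (hτ : ∀ a, τ (τ a) = a) {u : (ι → ℝ) → ZMod 2} {k : ℕ}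
    {Q : Finset ι → Prop} (hu : ∀ F, Q F → ∀ x ∈ simplex F, u (x ∘ τ) = u x + 1) {D : ℝ}
    (hD : 0 ≤ D) (h : SwL (fun x => x ∘ τ) u k fun w => ∃ F, Q F ∧ (∀ x ∈ w, x ∈ simplex F) ∧
      ∀ x ∈ w, ∀ y ∈ w, ∀ v, |x v - y v| ≤ D) :
    SwL (fun x => x ∘ τ) u k fun w => ∃ F, Q F ∧ (∀ x ∈ w, x ∈ simplex F) ∧
      ∀ x ∈ w, ∀ y ∈ w, ∀ v, |x v - y v| ≤ (k : ℝ) / (k + 1) * D := by
  refine (h.sd (fun x => funext fun a => congrArg x (hτ a)) B2f_avg (fun l _ => B2f_comp τ l)
    fun l ⟨F, h1, h2, _⟩ => ⟨fun x hx => hu F h1 x (h2 x hx), fun f f0 hf =>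
      hu F h1 _ (B2f_mem f0 fun x hx => h2 x (hf.subset hx))⟩).mono ?_
  rintro _ - ⟨l, hl, ⟨F, h1, h2, h3⟩, fs, rfl, h4, h5⟩
  refine ⟨F, h1, List.forall_mem_map.2 fun f hf =>
    B2f_mem (h4 f hf).1 fun x hx => h2 x ((h4 f hf).2.subset hx),
    List.forall_mem_map.2 fun f hf => List.forall_mem_map.2 fun g hg v => ?_⟩
  have : Std.Symm fun f g : List (ι → ℝ) =>
      |B2f_avg f v - B2f_avg g v| ≤ (k : ℝ) / (k + 1) * D :=
    ⟨fun f g e => (abs_sub_comm _ _).trans_le e⟩
  refine List.Pairwise.forall_of_forall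
    (R := fun f g => |B2f_avg f v - B2f_avg g v| ≤ (k : ℝ) / (k + 1) * D) (fun f _ => ?_)
    (h5.imp_of_mem fun {f g} hf hg e => ?_) hf hg
  · rw [sub_self, abs_zero]
    positivity
  · exact B2f_near v hD (h4 g hg).1 e.1 (hl ▸ (h4 f hf).2.length_le) fun x hx y hy =>
      h3 x ((h4 f hf).2.subset hx) y ((h4 f hf).2.subset hy) v

/-- Core family lemma.  Plan: `u2 = u' ∘ G` on points, `τ0 x = x ∘ τ`, `δ v = Pi.single v 1` (`δ (τ v) = δ v ∘ τ`).
`SwL.fin` gives finitely many faces, so one `σ`; `SwL.indep` to `u2 ∘ δ`, `SwL.map δ`; then by induction on `N`: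
`SwL τ0 u2 k (fun w => ∃ F ∈ 𝓕, (∀ x ∈ w, x ∈ simplex F) ∧ ∀ x ∈ w, ∀ x' ∈ w, ∀ v, |x v - x' v| ≤ (k/(k+1))^N)` by `SwL.sd` with
`m l = (l.length : ℝ)⁻¹ • l.sum` (real lemma: `g` sublist of `f`, nonempty, `f.length ≤ k+1`, entries pairwise within `D` give
`|avg f - avg g| ≤ k/(k+1) D`; e.g. every entry `t` of `f` has `|avg f - t| ≤ (1 - 1/f.length) D`); finally `SwL.map G`, `sw_iff`. -/
theorem SwL.fam {ι β : Type} {τ : ι → ι} (hτ : ∀ a, τ (τ a) = a) {u : ι → ZMod 2} {τ' : β → β}
    {u' : β → ZMod 2} (ho' : Odd2 τ' u') {k : ℕ} {Q : Finset ι → Prop} {A' : β → Prop}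
    {Rl' : β → β → Prop} (h : SwL τ u k (fun l => ∃ F, Q F ∧ ∀ a ∈ l, a ∈ F))
    (hu : ∀ F, Q F → ∀ a ∈ F, u (τ a) = u a + 1) (G : (ι → ℝ) → β)
    (hG : ∀ F, Q F → ∀ x ∈ simplex F, G (x ∘ τ) = τ' (G x))
    (hA : ∀ F, Q F → ∀ x ∈ simplex F, A' (G x))
    (hR : ∀ F, Q F → ∃ σ > 0, ∀ x ∈ simplex F, ∀ x' ∈ simplex F,
      (∀ v, |x v - x' v| ≤ σ) → Rl' (G x) (G x')) : Sw τ' u' k A' Rl' := by
  obtain ⟨s, hs, h⟩ := h.fin
  have hq : Tendsto (fun N : ℕ => ((k : ℝ) / (k + 1)) ^ N) atTop (𝓝 0) :=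
    tendsto_pow_atTop_nhds_zero_of_lt_one (by positivity)
      ((div_lt_one (by positivity)).2 (lt_add_one _))
  obtain ⟨N, hN⟩ := ((eventually_all_finset s).2 fun l hl => show ∀ᶠ N : ℕ in atTop,
      ∃ F, (Q F ∧ ∀ x ∈ simplex F, ∀ y ∈ simplex F,
        (∀ v, |x v - y v| ≤ ((k : ℝ) / (k + 1)) ^ N) → Rl' (G x) (G y)) ∧ ∀ a ∈ l, a ∈ F by
    obtain ⟨F, h1, h2⟩ := (hs l hl).2
    obtain ⟨σ, h3, h4⟩ := hR F h1
    exact (hq.eventually (ge_mem_nhds h3)).mono fun N e =>
      ⟨F, ⟨h1, fun x hx y hy c => h4 x hx y hy fun v => (c v).trans e⟩, h2⟩).exists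
  set Q' : Finset ι → Prop := fun F => Q F ∧ ∀ x ∈ simplex F, ∀ y ∈ simplex F,
    (∀ v, |x v - y v| ≤ ((k : ℝ) / (k + 1)) ^ N) → Rl' (G x) (G y) with hQ'
  have ho : ∀ F, Q' F → ∀ x ∈ simplex F, (u' ∘ G) (x ∘ τ) = (u' ∘ G) x + 1 := fun F hF x hx => by
    rw [Function.comp_apply, hG F hF.1 x hx, ho'.2]
    rfl
  have hδ : ∀ a, (Pi.single (τ a) 1 : ι → ℝ) = Pi.single a 1 ∘ τ := fun a => funext fun b => by
    rw [Function.comp_apply, Pi.single_apply, Pi.single_apply]
    exact if_congr ⟨fun e => e ▸ hτ a, fun e => e ▸ (hτ b).symm⟩ rfl rfl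
  have h1 := ((h.mono fun l _ hl => hN l hl).indep hτ
    (u' := (u' ∘ G) ∘ fun a => Pi.single a 1) fun l ⟨F, hF, hl⟩ a ha =>
      ⟨hu F hF.1 a (hl a ha), (congrArg (u' ∘ G) (hδ a)).trans
        (ho F hF _ (single_mem_simplex (hl a ha)))⟩).map (τ' := fun x => x ∘ τ) _
    fun _ _ a _ => hδ a
  have h2 : ∀ n : ℕ, SwL (fun x => x ∘ τ) (u' ∘ G) k fun w => ∃ F, Q' F ∧
      (∀ x ∈ w, x ∈ simplex F) ∧ ∀ x ∈ w, ∀ y ∈ w, ∀ v, |x v - y v| ≤ ((k : ℝ) / (k + 1)) ^ n := by
    intro n
    induction n with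
    | zero =>
      refine h1.mono ?_
      rintro _ - ⟨l, ⟨F, hF, hl⟩, rfl⟩
      have e : ∀ x ∈ l.map fun a => (Pi.single a 1 : ι → ℝ), x ∈ simplex F :=
        List.forall_mem_map.2 fun a ha => single_mem_simplex (hl a ha)
      refine ⟨F, hF, e, fun x hx y hy v => abs_le.2 ⟨?_, ?_⟩⟩
      · linarith [(e x hx).1 v, simplex_le_one (e y hy) v]
      · linarith only [(e y hy).1 v, simplex_le_one (e x hx) v]
    | succ n ih =>
      rw [pow_succ']
      exact B2f_step hτ ho (by positivity) ih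
  refine sw_iff.2 (((h2 N).map G fun w ⟨F, hF, hw, _⟩ x hx => hG F hF.1 x (hw x hx)).mono ?_)
  rintro _ - ⟨w, ⟨F, hF, hw, h3⟩, rfl⟩
  exact ⟨List.forall_mem_map.2 fun x hx => hA F hF.1 x (hw x hx),
    List.forall_mem_map.2 fun x hx => List.forall_mem_map.2 fun y hy =>
      hF.2 x (hw x hx) y (hw y hy) (h3 x hx y hy)⟩

end Pool.Agent.MP_5cfeaf_gt.W

end

section

/-! Block B: interface lemmas on discrete sweepouts. -/

set_option autoImplicit false

open MeasureTheory Set Filter Topology Metric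
open scoped ENNReal symmDiff Classical InnerProductSpace ContDiff

namespace Pool.Agent.MP_5cfeaf_gt.W

variable {d : ℕ}

theorem odd2_S : Odd2 (compl : Set (R d) → Set (R d)) uS := by
  refine ⟨compl_compl, fun Ω => ?_⟩
  by_cases h : (0 : R d) ∈ Ω
  · rw [uS, uS, if_pos h, if_neg (show ¬ (0 : R d) ∈ Ωᶜ from not_not.2 h)]
    rfl
  · rw [uS, uS, if_neg h, if_pos (show (0 : R d) ∈ Ωᶜ from h)]
    rfl

theorem Sw.mono {α : Type} {τ : α → α} {u : α → ZMod 2} {k : ℕ} {A A' : α → Prop}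
    {Rl Rl' : α → α → Prop} (h : Sw τ u k A Rl) (hA : ∀ a, A a → A' a)
    (hR : ∀ a b, A a → A b → Rl a b → Rl' a b) : Sw τ u k A' Rl' := by
  obtain ⟨c, h1, h2, h3, h4⟩ := h
  exact ⟨c, h1, h2, h3, fun l hl => ⟨fun a ha => hA a ((h4 l hl).1 a ha), fun a ha b hb =>
    hR a b ((h4 l hl).1 a ha) ((h4 l hl).1 b hb) ((h4 l hl).2 a ha b hb)⟩⟩

theorem Sw.exists_mem {α : Type} {τ : α → α} {u : α → ZMod 2} {k : ℕ} {A : α → Prop}
    {Rl : α → α → Prop} (h : Sw τ u k A Rl) : ∃ a, A a := by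
  obtain ⟨c, h1, -, h3, h4⟩ := h
  obtain ⟨l, hl⟩ : c.support.Nonempty := Finsupp.support_nonempty_iff.2 fun h => by
    rw [h, ev_zero] at h3
    exact zero_ne_one h3
  obtain ⟨a, ha⟩ := List.exists_mem_of_length_eq_add_one (h1 l hl)
  exact ⟨a, (h4 l hl).1 a ha⟩

theorem B3_step {α : Type} {τ : α → α} {u : α → ZMod 2} (ho : Odd2 τ u) {k : ℕ} {A : α → Prop}
    {Rl : α → α → Prop} (h : Sw τ u (k + 1) A Rl) (f : α → ℝ) (hf : ∀ a, f (τ a) = -f a)
    {η : ℝ} (hR : ∀ a b, A a → A b → Rl a b → |f a - f b| ≤ η) :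
    Sw τ u k (fun a => A a ∧ |f a| ≤ 2 * η) Rl := by
  obtain ⟨v, hv⟩ : ∃ v : α → ZMod 2, ∀ a, v a = if 0 < f a then 1 else if f a < 0 then 0 else u a :=
    ⟨_, fun _ => rfl⟩
  have h1 : ∀ a, v (τ a) = v a + 1 := fun a => by
    rw [hv, hv, hf]
    simp only [neg_pos, neg_lt_zero]
    rcases lt_trichotomy (f a) 0 with h | h | h
    · rw [if_pos h, if_neg h.not_gt, if_pos h, zero_add]
    · simp only [h, lt_irrefl, if_false, ho.2]
    · rw [if_neg h.not_gt, if_pos h, if_pos h]
      rfl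
  refine sw_iff.2 (((((sw_iff.1 h).indep ho.1 fun _ _ a _ => ⟨ho.2 a, h1 a⟩).cap1
    fun _ _ a _ => h1 a).indep ho.1 fun _ _ a _ => ⟨h1 a, ho.2 a⟩).mono ?_)
  rintro _ - ⟨a, b, l, rfl, ⟨h2, h3⟩, h4⟩
  have ha : a ∈ a :: b :: l := List.mem_cons_self
  have hb : b ∈ a :: b :: l := List.mem_cons_of_mem _ List.mem_cons_self
  refine ⟨fun c hc => ?_, fun c hc e he =>
    h3 c (List.mem_cons_of_mem _ hc) e (List.mem_cons_of_mem _ he)⟩
  have hc' := List.mem_cons_of_mem a hc
  have h5 := abs_le.1 (hR a b (h2 a ha) (h2 b hb) (h3 a ha b hb))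
  have h6 := abs_le.1 (hR c b (h2 c hc') (h2 b hb) (h3 c hc' b hb))
  have h7 : f a ≤ 0 ∨ f b ≤ 0 := by
    by_contra! h'
    exact h4 (by rw [hv, hv, if_pos h'.1, if_pos h'.2])
  have h8 : 0 ≤ f a ∨ 0 ≤ f b := by
    by_contra! h'
    exact h4 (by rw [hv, hv, if_neg h'.1.not_gt, if_neg h'.2.not_gt, if_pos h'.1, if_pos h'.2])
  refine ⟨h2 c hc', abs_le.2 ⟨?_, ?_⟩⟩
  · rcases h8 with h8 | h8 <;> linarith only [h5.1, h5.2, h6.1, h8]
  · rcases h7 with h7 | h7 <;> linarith [h5.1, h5.2, h6.2]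

/-- Lusternik-Schnirelmann step.  Plan: induction on `m`.  One step: `u' a = 1` if `0 < f a`, `0` if
`f a < 0`, `u a` if `f a = 0` is odd; `sw_iff`, `SwL.indep` to `u'`, `SwL.cap1`, `SwL.indep` back;
`u' a ≠ u' b` gives `f a * f b ≤ 0`, so `|f b| ≤ η` and all other entries have `|f| ≤ 2η`. -/
theorem Sw.cap {α : Type} {τ : α → α} {u : α → ZMod 2} (ho : Odd2 τ u) {p m : ℕ} {A : α → Prop}
    {Rl : α → α → Prop} (h : Sw τ u (p + m) A Rl) (f : Fin m → α → ℝ) (hf : ∀ i a, f i (τ a) = -f i a)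
    {η : ℝ} (hR : ∀ i a b, A a → A b → Rl a b → |f i a - f i b| ≤ η) :
    Sw τ u p (fun a => A a ∧ ∀ i, |f i a| ≤ 2 * η) Rl := by
  induction m generalizing A with
  | zero => exact h.mono (fun a ha => ⟨ha, fun i => i.elim0⟩) fun _ _ _ _ h => h
  | succ m ih =>
    exact (ih (B3_step ho h (f 0) (hf 0) (hR 0)) (fun i => f i.succ) (fun i => hf i.succ)
      fun i a b ha hb => hR i.succ a b ha.1 hb.1).mono
      (fun a ha => ⟨ha.1.1, Fin.forall_fin_succ.2 ⟨ha.1.2, ha.2⟩⟩) fun _ _ _ _ h => h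

/-- equivariant choice.  Plan: well-order `α` (`linearOrderOfSTO WellOrderingRel` or
`exists_wellOrder`); `D a = c a` if `a ≤ τ a`, else `κ (c (τ a))`. -/
theorem exists_equiv_choice {α β : Type} {τ : α → α} {κ : β → β} (hτ : ∀ a, τ (τ a) = a)
    (hκ : ∀ b, κ (κ b) = b) {Q : α → β → Prop} (hQ : ∀ a, ∃ b, Q a b)
    (he : ∀ a b, Q a b → Q (τ a) (κ b)) :
    ∃ D : α → β, (∀ a, Q a (D a)) ∧ ∀ a, τ a ≠ a → D (τ a) = κ (D a) := by
  obtain ⟨_, -⟩ := exists_wellFoundedLT α
  choose c hc using hQ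
  refine ⟨fun a => if a ≤ τ a then c a else κ (c (τ a)), fun a => ?_, fun a ha => ?_⟩
  · dsimp only
    split_ifs
    · exact hc a
    · simpa only [hτ] using he _ _ (hc (τ a))
  · dsimp only
    rw [hτ]
    rcases lt_or_gt_of_ne ha with h | h
    · rw [if_pos h.le, if_neg h.not_ge, hκ]
    · rw [if_neg h.not_ge, if_pos h.le]

/-- invariant choice by recursion on the length of the vertex.  Plan: `rep v` = the smaller of
`v`, `Vx.inv τ v` in a linear order; `D_n` by recursion on `n` (`D_0` constant,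
`D_(n+1) v = choose (hQ (rep v) D_n)` if `v.l.length = n+1`, else `D_n v`), `D v = D_(v.l.length) v`. -/
theorem exists_rec_choice {α β : Type} [Nonempty β] {τ : α → α} (hτ : ∀ a, τ (τ a) = a)
    {Q : Vx α → (Vx α → β) → β → Prop} (hQ : ∀ v D, ∃ b, Q v D b)
    (hl : ∀ v D D', (∀ w : Vx α, w.l.length < v.l.length → D w = D' w) → Q v D = Q v D')
    (he : ∀ v D, (∀ w, D (Vx.inv τ w) = D w) → Q (Vx.inv τ v) D = Q v D) :
    ∃ D : Vx α → β, (∀ v, Q v D (D v)) ∧ ∀ v, D (Vx.inv τ v) = D v := by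
  obtain ⟨_, -⟩ := exists_wellFoundedLT (Vx α)
  choose c hc using hQ
  have h1 : ∀ v, Vx.inv τ (Vx.inv τ v) = v := fun v =>
    Prod.ext (hτ _) (by simp [Vx.inv, Function.comp_def, hτ])
  have h2 : ∀ v, (Vx.inv τ v).l.length = v.l.length := fun v => by simp [Vx.inv, Vx.l]
  obtain ⟨F, h3, h4⟩ : ∃ F : ℕ → Vx α → β, (∀ v w, F 0 v = F 0 w) ∧ ∀ n v, F (n + 1) v =
      if v.l.length = n + 1 then c (min v (Vx.inv τ v)) (F n) else F n v :=
    ⟨Nat.rec (fun _ => Classical.arbitrary β) fun n G v =>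
      if v.l.length = n + 1 then c (min v (Vx.inv τ v)) G else G v, fun _ _ => rfl, fun _ _ => rfl⟩
  have h5 : ∀ n v, F n (Vx.inv τ v) = F n v := fun n => by
    induction n with
    | zero => exact fun v => h3 _ _
    | succ n ih => exact fun v => by rw [h4, h4, h1, h2, ih, min_comm]
  have h6 : ∀ n (v : Vx α), v.l.length ≤ n → F n v = F v.l.length v := fun n => by
    induction n with
    | zero => exact fun v hv => by rw [Nat.le_zero.1 hv]
    | succ n ih =>
      intro v hv
      rcases hv.eq_or_lt with h | h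
      · rw [h]
      · rw [h4, if_neg h.ne, ih v (Nat.lt_succ_iff.1 h)]
  refine ⟨fun v => F v.l.length v, fun v => ?_, fun v => by simp only [h2, h5]⟩
  have h7 : v.l.length = v.2.length + 1 := rfl
  rw [← hl v (F v.2.length) _ fun w hw => h6 _ w (Nat.lt_succ_iff.1 hw)]
  change Q v (F v.2.length) (F (v.2.length + 1) v)
  rw [h4, if_pos h7]
  rcases min_choice v (Vx.inv τ v) with h | h <;> rw [h]
  · exact hc _ _
  · rw [← he v _ (h5 _)]
    exact hc _ _

end Pool.Agent.MP_5cfeaf_gt.W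

end

section

/-! Block B: flags and the family lemma. -/

set_option autoImplicit false

open MeasureTheory Set Filter Topology Metric
open scoped ENNReal symmDiff Classical InnerProductSpace ContDiff

namespace Pool.Agent.MP_5cfeaf_gt.W

variable {d : ℕ}

/-- cone point: concatenation -/
def B3f_m {α : Type} (a0 : α) : List (Vx α) → Vx α
  | [] => (a0, [])
  | v :: vs => (v.1, v.2 ++ (vs.map Vx.l).flatten)

theorem B3f_flat {α : Type} (vs : List (Vx α)) (h : ∀ v ∈ vs, v.2 = []) :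
    (vs.map Vx.l).flatten = vs.map Prod.fst := by
  induction vs with
  | nil => rfl
  | cons v vs ih =>
    rw [List.map_cons, List.flatten_cons, ih fun w hw => h w (List.mem_cons_of_mem _ hw), Vx.l,
      h v List.mem_cons_self]
    rfl

theorem B3f_ml {α : Type} (a0 : α) {f : List (Vx α)} (hf : f ≠ []) (h : ∀ v ∈ f, v.2 = []) :
    (B3f_m a0 f).l = f.map Prod.fst := by
  cases f with
  | nil => exact absurd rfl hf
  | cons v vs =>
    rw [B3f_m, Vx.l, B3f_flat vs fun w hw => h w (List.mem_cons_of_mem _ hw), h v List.mem_cons_self]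
    rfl

theorem B3f_inv {α : Type} {τ : α → α} (hτ : ∀ a, τ (τ a) = a) (v : Vx α) :
    Vx.inv τ (Vx.inv τ v) = v := by
  have h : τ ∘ τ = id := funext hτ
  simp [Vx.inv, hτ, h]

theorem B3f_hm {α : Type} (τ : α → α) (a0 : α) (l : List (Vx α)) (hl : l ≠ []) :
    B3f_m a0 (l.map (Vx.inv τ)) = Vx.inv τ (B3f_m a0 l) := by
  cases l with
  | nil => exact absurd rfl hl
  | cons v vs =>
    have h : Vx.l ∘ Vx.inv τ = List.map τ ∘ Vx.l := funext fun w => rfl
    simp only [List.map_cons, B3f_m, Vx.inv, List.map_append, List.map_flatten, List.map_map]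
    exact congrArg (fun z => (τ v.1, v.2.map τ ++ (vs.map z).flatten)) h

/-- First subdivision.  Plan: `SwL.map` along `a ↦ (a, [])`, then `SwL.sd` with the cone point
`m (v :: vs) = (v.1, v.2 ++ (vs.map Vx.l).flatten)` (so `(m (l.map (·, []))).l = l`); a sublist of
`l.map g` is `f.map g` for a sublist `f` of `l` (`List.sublist_map_iff`); `F = w.toFinset`. -/
theorem Sw.flags {α : Type} {τ : α → α} {u : α → ZMod 2} (ho : Odd2 τ u) {k : ℕ} {A : α → Prop}
    {Rl : α → α → Prop} (h : Sw τ u k A Rl) :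
    SwL (Vx.inv τ) (fun v => u v.1) k (fun w => ∃ F, IsFlag k A Rl F ∧ ∀ a ∈ w, a ∈ F) := by
  obtain ⟨a0, -⟩ := h.exists_mem
  have h2 := SwL.map (τ' := Vx.inv τ) (u' := fun v : Vx α => u v.1) (fun a : α => ((a, []) : Vx α))
    (sw_iff.1 h) (fun _ _ _ _ => rfl)
  have h3 := h2.sd (B3f_inv ho.1) (B3f_m a0) (B3f_hm τ a0)
    (fun _ _ => ⟨fun a _ => ho.2 a.1, fun f _ _ => ho.2 _⟩)
  refine h3.mono ?_
  rintro w hw ⟨l, hl, ⟨l0, hP, rfl⟩, fs, rfl, hfs, hpw⟩
  have hml : ∀ f ∈ fs, (B3f_m a0 f).l = f.map Prod.fst := fun f hf =>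
    B3f_ml a0 (hfs f hf).1 fun v hv => by
      obtain ⟨a, -, rfl⟩ := List.mem_map.1 ((hfs f hf).2.subset hv)
      rfl
  have hsub : ∀ f ∈ fs, (B3f_m a0 f).l.Sublist l0 := fun f hf => by
    have h4 := (hfs f hf).2.map Prod.fst
    rw [List.map_map] at h4
    rw [hml f hf]
    exact h4.trans (by rw [show (Prod.fst ∘ fun a : α => ((a, []) : Vx α)) = id from rfl, List.map_id])
  refine ⟨(fs.map (B3f_m a0)).toFinset, ⟨?_, ?_, ?_⟩, fun a ha => List.mem_toFinset.2 ha⟩
  · obtain ⟨v, hv⟩ := List.exists_mem_of_length_pos (l := fs.map (B3f_m a0)) (by omega)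
    exact ⟨v, List.mem_toFinset.2 hv⟩
  · intro v hv
    obtain ⟨f, hf, rfl⟩ := List.mem_map.1 (List.mem_toFinset.1 hv)
    have h4 := hsub f hf
    rw [List.length_map] at hl
    exact ⟨hl ▸ h4.length_le, fun a ha => hP.1 a (h4.subset ha),
      fun a ha b hb => hP.2 a (h4.subset ha) b (h4.subset hb)⟩
  · intro v hv v' hv'
    obtain ⟨f, hf, rfl⟩ := List.mem_map.1 (List.mem_toFinset.1 hv)
    obtain ⟨f', hf', rfl⟩ := List.mem_map.1 (List.mem_toFinset.1 hv')
    have h5 : f = f' ∨ (f.Sublist f' ∧ f.length < f'.length) ∨ (f'.Sublist f ∧ f'.length < f.length) := by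
      obtain ⟨i, hi, rfl⟩ := List.getElem_of_mem hf
      obtain ⟨j, hj, rfl⟩ := List.getElem_of_mem hf'
      rcases lt_trichotomy i j with hij | rfl | hij
      · exact Or.inr (Or.inr (List.pairwise_iff_getElem.1 hpw i j hi hj hij))
      · exact Or.inl rfl
      · exact Or.inr (Or.inl (List.pairwise_iff_getElem.1 hpw j i hj hi hij))
    rw [hml f hf, hml f' hf', List.length_map, List.length_map]
    rcases h5 with rfl | h5 | h5
    · exact Or.inl rfl
    · exact Or.inr (Or.inl ⟨h5.1.map _, h5.2⟩)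
    · exact Or.inr (Or.inr ⟨h5.1.map _, h5.2⟩)

/-- family lemma: `Sw.flags` and `SwL.fam` -/
theorem Sw.family {α β : Type} {τ : α → α} {u : α → ZMod 2} {τ' : β → β} {u' : β → ZMod 2}
    (ho : Odd2 τ u) (ho' : Odd2 τ' u') {k : ℕ} {A : α → Prop} {Rl : α → α → Prop} {A' : β → Prop}
    {Rl' : β → β → Prop} (h : Sw τ u k A Rl) (G : (Vx α → ℝ) → β)
    (hG : ∀ F, IsFlag k A Rl F → ∀ x ∈ simplex F, G (x ∘ Vx.inv τ) = τ' (G x))
    (hA : ∀ F, IsFlag k A Rl F → ∀ x ∈ simplex F, A' (G x))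
    (hR : ∀ F, IsFlag k A Rl F → ∃ σ > 0, ∀ x ∈ simplex F, ∀ x' ∈ simplex F,
      (∀ v, |x v - x' v| ≤ σ) → Rl' (G x) (G x')) : Sw τ' u' k A' Rl' :=
  (h.flags ho).fam (B3f_inv ho.1) ho' (fun _ _ a _ => ho.2 a.1) G hG hA hR

end Pool.Agent.MP_5cfeaf_gt.W

end

section

/-! Block B: cycles and their lifts. -/

set_option autoImplicit false

open MeasureTheory Set Filter Topology Metric
open scoped ENNReal symmDiff Classical InnerProductSpace ContDiff

namespace Pool.Agent.MP_5cfeaf_gt.W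

variable {d : ℕ}

theorem B5c_factor {K M N : Type} [Field K] [AddCommGroup M] [Module K M] [AddCommGroup N]
    [Module K N] (D : M →ₗ[K] N) (Λ : M →ₗ[K] K) (h : LinearMap.ker D ≤ LinearMap.ker Λ) :
    ∃ g : N →ₗ[K] K, ∀ x, g (D x) = Λ x := by
  have h1 : Λ ∈ (LinearMap.ker D).dualAnnihilator := by
    rw [Submodule.mem_dualAnnihilator]
    exact fun w hw => h hw
  rw [← LinearMap.range_dualMap_eq_dualAnnihilator_ker] at h1
  obtain ⟨g, hg⟩ := h1
  exact ⟨g, fun x => by rw [← hg]; rfl⟩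

theorem B5c_two (a : ZMod 2) : a = 0 ∨ a = 1 := by
  revert a; decide

theorem B5c_supp {A B : Type} (g : A → B) (c : A →₀ ZMod 2) {b : B}
    (h : b ∈ (c.mapDomain g).support) : ∃ a ∈ c.support, g a = b := by
  simpa only [Finsupp.mem_support_iff, ne_eq, Finset.mem_image] using Finsupp.mapDomain_support h

theorem B5c_sum {A B : Type} (g : A → B) (c : A →₀ ZMod 2) (F : B → ZMod 2) :
    ((c.mapDomain g).sum fun b z => z * F b) = c.sum fun a z => z * F (g a) :=
  Finsupp.sum_mapDomain_index (fun _ => zero_mul _) (fun _ _ _ => add_mul _ _ _)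

/-- A cochain that is not a coboundary detects a cycle.  Plan: `D`, `Λ` linear maps on
`{s // Gd s} →₀ ZMod 2` (`Finsupp.linearCombination`), `D` into `List V →₀ ZMod 2`; if `ker D ≤ ker Λ` then
`Λ = g ∘ D` (`LinearMap.range_dualMap_eq_dualAnnihilator_ker` or `Submodule.liftQ` + `LinearMap.exists_extend`),
`f t = g (single (List.ofFn t) 1)`, `bdL_ofFn`. -/
theorem exists_cycle {V : Type} (k : ℕ) (Gd : (Fin (k + 1) → V) → Prop)
    (lam : (Fin (k + 1) → V) → ZMod 2)
    (h : ¬ ∃ f : (Fin k → V) → ZMod 2, ∀ s, Gd s → lam s = ∑ i : Fin (k + 1), f (s ∘ i.succAbove)) :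
    ∃ z : (Fin (k + 1) → V) →₀ ZMod 2, (∀ s ∈ z.support, Gd s) ∧
      bd (z.mapDomain List.ofFn) = 0 ∧ (z.sum fun s a => a * lam s) = 1 := by
  let D : ({s // Gd s} →₀ ZMod 2) →ₗ[ZMod 2] (List V →₀ ZMod 2) :=
    Finsupp.linearCombination (ZMod 2) (fun s => bdL (List.ofFn s.1))
  let Λ : ({s // Gd s} →₀ ZMod 2) →ₗ[ZMod 2] ZMod 2 :=
    Finsupp.linearCombination (ZMod 2) (fun s => lam s.1)
  by_cases hk : LinearMap.ker D ≤ LinearMap.ker Λ
  · exfalso
    obtain ⟨g, hg⟩ := B5c_factor D Λ hk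
    refine h ⟨fun t => g (Finsupp.single (List.ofFn t) 1), fun s hs => ?_⟩
    have h1 := hg (Finsupp.single ⟨s, hs⟩ 1)
    simp only [D, Λ, Finsupp.linearCombination_single, one_smul, bdL_ofFn, map_sum] at h1
    exact h1.symm
  · obtain ⟨y, hy, hy'⟩ := SetLike.not_le_iff_exists.1 hk
    rw [LinearMap.mem_ker] at hy hy'
    refine ⟨y.mapDomain Subtype.val, fun s hs => ?_, ?_, ?_⟩
    · obtain ⟨a, -, rfl⟩ := B5c_supp _ _ hs
      exact a.2
    · rw [bd_eq, Finsupp.linearCombination_mapDomain, Finsupp.linearCombination_mapDomain]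
      exact hy
    · rw [B5c_sum]
      exact (B5c_two _).resolve_left hy'

/-- the lift of a list of vertices starting on sheet `lam v v` -/
def B5c_L {V : Type} (lam : V → V → ZMod 2) : List V → List (V × ZMod 2)
  | [] => []
  | v :: l => (v :: l).map fun w => (w, lam v w)

theorem B5c_L_fst {V : Type} (lam : V → V → ZMod 2) (l : List V) :
    (B5c_L lam l).map Prod.fst = l := by
  cases l with
  | nil => rfl
  | cons v l => simp [B5c_L, Function.comp_def]

theorem B5c_L_ofFn {V : Type} (lam : V → V → ZMod 2) {k : ℕ} (s : Fin (k + 1) → V) :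
    B5c_L lam (List.ofFn s) = (List.ofFn s).map fun w => (w, lam (s 0) w) := by
  rw [List.ofFn_succ]; rfl

theorem B5c_L_cons {V : Type} (lam : V → V → ZMod 2) (w : List (V × ZMod 2))
    (h : ∀ p ∈ w, ∀ q ∈ w, p.2 + q.2 = lam p.1 q.1) :
    B5c_L lam (w.map Prod.fst) = w ∨
      B5c_L lam (w.map Prod.fst) = w.map fun p : V × ZMod 2 => (p.1, p.2 + 1) := by
  cases w with
  | nil => left; rfl
  | cons p w =>
    have h1 : B5c_L lam ((p :: w).map Prod.fst) = (p :: w).map fun q => (q.1, p.2 + q.2) := by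
      have h2 : B5c_L lam ((p :: w).map Prod.fst) =
        ((p :: w).map Prod.fst).map fun v => (v, lam p.1 v) := rfl
      rw [h2, List.map_map]
      refine List.map_congr_left fun q hq => ?_
      simp only [Function.comp_apply, h p List.mem_cons_self q hq]
    rw [h1]
    rcases B5c_two p.2 with h0 | h0
    · left; simp [h0]
    · right; simp only [h0, add_comm]

theorem B5c_N {A : Type} (t g : A → A) (ht : ∀ a, t (t a) = a) (c : A →₀ ZMod 2)
    (h : ∀ a ∈ c.support, g a = a ∨ g a = t a) :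
    c.mapDomain g + (c.mapDomain g).mapDomain t = c + c.mapDomain t := by
  rw [← Finsupp.mapDomain_comp]
  conv_rhs => rw [← Finsupp.mapDomain_id (v := c), ← Finsupp.mapDomain_comp]
  simp only [Finsupp.mapDomain, Finsupp.sum, ← Finset.sum_add_distrib]
  refine Finset.sum_congr rfl fun a ha => ?_
  rcases h a ha with h0 | h0
  · simp [h0]
  · simp [h0, ht, add_comm]

/-- Lift of a cycle to the double cover.  Plan: `z` from `exists_cycle`; `L (v :: l) = (v :: l).map fun w =>
(w, lam v w)`, `c = (z.mapDomain List.ofFn).mapDomain L`.  With `N c = c + c.mapDomain (List.map τ)` one has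
`N (single w 1) = N (single (L (w.map fst)) 1)` for every consistent list `w`, hence
`N (bd c) = N ((bd c).mapDomain (L ∘ List.map fst)) = N (((bd (c.mapDomain (List.map fst))).mapDomain L) = 0`
(`bd_map`, `supp_bd`); `Lam_ofFn`. -/
theorem swl_lift {V : Type} (k : ℕ) (lam : V → V → ZMod 2) (Q : Finset V → Prop)
    (hc : ∀ σ, Q σ → ∃ e : V → ZMod 2, ∀ v ∈ σ, ∀ w ∈ σ, lam v w = e v + e w)
    (h : ¬ ∃ f : (Fin k → V) → ZMod 2, ∀ s : Fin (k + 1) → V, Q (Finset.univ.image s) →
      ∏ i : Fin k, lam (s i.castSucc) (s i.succ) = ∑ i : Fin (k + 1), f (s ∘ i.succAbove)) :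
    SwL (fun p : V × ZMod 2 => (p.1, p.2 + 1)) Prod.snd k (fun l => ∃ σ, Q σ ∧ (∀ p ∈ l, p.1 ∈ σ) ∧
      ∀ p ∈ l, ∀ q ∈ l, p.2 + q.2 = lam p.1 q.1) := by
  obtain ⟨z, hz, hb, hv⟩ := exists_cycle k (fun s => Q (Finset.univ.image s))
    (fun s => ∏ i : Fin k, lam (s i.castSucc) (s i.succ)) h
  have hz' : ∀ s ∈ z.support, ∀ i j : Fin (k + 1), lam (s 0) (s i) + lam (s 0) (s j) = lam (s i) (s j) := by
    intro s hs i j
    obtain ⟨e, he⟩ := hc _ (hz s hs)
    have hm : ∀ i, s i ∈ Finset.univ.image s := fun i => Finset.mem_image_of_mem _ (Finset.mem_univ i)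
    rw [he _ (hm 0) _ (hm i), he _ (hm 0) _ (hm j), he _ (hm i) _ (hm j)]
    generalize e (s 0) = a; generalize e (s i) = b; generalize e (s j) = c
    revert a b c; decide
  have hs : ∀ l ∈ ((z.mapDomain List.ofFn).mapDomain (B5c_L lam)).support, l.length = k + 1 ∧
      ∃ σ, Q σ ∧ (∀ p ∈ l, p.1 ∈ σ) ∧ ∀ p ∈ l, ∀ q ∈ l, p.2 + q.2 = lam p.1 q.1 := by
    intro l hl
    obtain ⟨l', hl', rfl⟩ := B5c_supp _ _ hl
    obtain ⟨s, hs, rfl⟩ := B5c_supp _ _ hl'
    rw [B5c_L_ofFn]
    refine ⟨by simp, _, hz s hs, ?_, ?_⟩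
    · intro p hp
      obtain ⟨v, hv, rfl⟩ := List.mem_map.1 hp
      obtain ⟨i, rfl⟩ := List.mem_ofFn.1 hv
      exact Finset.mem_image_of_mem _ (Finset.mem_univ i)
    · intro p hp q hq
      obtain ⟨v, hv, rfl⟩ := List.mem_map.1 hp
      obtain ⟨i, rfl⟩ := List.mem_ofFn.1 hv
      obtain ⟨w, hw, rfl⟩ := List.mem_map.1 hq
      obtain ⟨j, rfl⟩ := List.mem_ofFn.1 hw
      exact hz' s hs i j
  refine ⟨(z.mapDomain List.ofFn).mapDomain (B5c_L lam), hs, ?_, ?_⟩
  · generalize hc' : (z.mapDomain List.ofFn).mapDomain (B5c_L lam) = c at hs ⊢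
    have h1 : c.mapDomain (List.map Prod.fst) = z.mapDomain List.ofFn := by
      rw [← hc', ← Finsupp.mapDomain_comp]
      have : List.map Prod.fst ∘ B5c_L lam = id := funext fun l => B5c_L_fst lam l
      rw [this, Finsupp.mapDomain_id]
    have h2 : (bd c).mapDomain (B5c_L lam ∘ List.map Prod.fst) = 0 := by
      rw [Finsupp.mapDomain_comp, ← bd_map, h1, hb, Finsupp.mapDomain_zero]
    have h3 := B5c_N (List.map fun p : V × ZMod 2 => (p.1, p.2 + 1)) (B5c_L lam ∘ List.map Prod.fst)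
      (fun a => by
        rw [List.map_map]
        refine (List.map_congr_left fun p _ => ?_).trans (List.map_id a)
        refine Prod.ext rfl ?_
        show p.2 + 1 + 1 = p.2
        generalize p.2 = b
        revert b; decide) (bd c) (fun w hw => by
        obtain ⟨l, hl, hsub, -⟩ := supp_bd hw
        obtain ⟨-, σ, -, -, h4⟩ := hs l hl
        exact B5c_L_cons lam w fun p hp q hq => h4 p (hsub.subset hp) q (hsub.subset hq))
    rw [h2, Finsupp.mapDomain_zero, add_zero] at h3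
    exact add_left_cancel (h3.symm.trans (ch_add_self _).symm)
  · rw [ev_mapDomain, ← hv]
    refine (B5c_sum _ _ _).trans (Finsupp.sum_congr fun s hs => ?_)
    congr 1
    rw [Function.comp_apply, B5c_L_ofFn, Lam_map, Lam_ofFn]
    exact Finset.prod_congr rfl fun i _ => hz' s hs _ _

end Pool.Agent.MP_5cfeaf_gt.W

end

section

/-! Block B: quotient complex. -/

set_option autoImplicit false

open MeasureTheory Set Filter Topology Metric
open scoped ENNReal symmDiff Classical InnerProductSpace ContDiff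

namespace Pool.Agent.MP_5cfeaf_gt.W

variable {d : ℕ}

theorem B7_rep_inv {ι : Type} {τ : ι → ι} {u : ι → ZMod 2} (ho : Odd2 τ u) (v : ι) :
    (if u (τ v) = 0 then τ v else τ (τ v)) = if u v = 0 then v else τ v := by
  have h2 : ∀ z : ZMod 2, (z + 1 = 0 ↔ ¬ z = 0) := by decide
  rw [ho.2 v, ho.1 v]
  by_cases h : u v = 0
  · rw [if_pos h, if_neg (fun h' => (h2 _).1 h' h)]
  · rw [if_neg h, if_pos ((h2 _).2 h)]

theorem B7_quot {ι β : Type} {τ : ι → ι} (hτ : ∀ a, τ (τ a) = a) {κ : β → β} (rep : ι → ι)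
    (hr : ∀ v, rep (τ v) = rep v) (hr2 : ∀ v w, rep v = rep w → v = w ∨ v = τ w)
    (𝓕 : Finset (Finset ι)) (hinj : ∀ F ∈ 𝓕, ∀ v ∈ F, τ v ∉ F)
    (hsep : ∀ F ∈ 𝓕, ∀ F' ∈ 𝓕, ∀ T ⊆ F, (∀ v ∈ T, v ∈ F' ∨ τ v ∈ F') →
      (∀ v ∈ T, v ∈ F') ∨ ∀ v ∈ T, τ v ∈ F')
    (G : (ι → ℝ) → β) (hG : ∀ F ∈ 𝓕, ∀ x ∈ simplex F, G (x ∘ τ) = κ (G x)) :
    ∃ (Φ : (ι → ℝ) → β),
      ∀ F ∈ 𝓕, ∃ y : (ι → ℝ) → (ι → ℝ), Continuous y ∧
        (∀ v ∈ F, y (Pi.single (rep v) 1) = Pi.single v 1) ∧
        ∀ x ∈ simplex (F.image rep), y x ∈ simplex F ∧ (Φ x = G (y x) ∨ Φ x = κ (G (y x))) := by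
  obtain ⟨Y, hY⟩ : ∃ Y : Finset ι → (ι → ℝ) → (ι → ℝ),
      ∀ F x v, Y F x v = if v ∈ F then x (rep v) else 0 :=
    ⟨fun F x v => if v ∈ F then x (rep v) else 0, fun _ _ _ => rfl⟩
  have hin : ∀ F ∈ 𝓕, ∀ v ∈ F, ∀ w ∈ F, rep v = rep w → v = w := by
    intro F hF v hv w hw h
    rcases hr2 v w h with h | h
    · exact h
    · exact absurd (h ▸ hv) (hinj F hF w hw)
  have hpre : ∀ F : Finset ι, ∀ x ∈ simplex (F.image rep), ∀ w, x (rep w) ≠ 0 →
      w ∈ F ∨ τ w ∈ F := by
    intro F x hx w hw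
    have h1 : rep w ∈ F.image rep := by
      by_contra h
      exact hw (hx.2.1 _ h)
    obtain ⟨v, hv, hvw⟩ := Finset.mem_image.1 h1
    rcases hr2 v w hvw with h | h
    · exact Or.inl (h ▸ hv)
    · exact Or.inr (h ▸ hv)
  have hmem : ∀ F ∈ 𝓕, ∀ x ∈ simplex (F.image rep), Y F x ∈ simplex F := by
    intro F hF x hx
    refine ⟨fun v => ?_, fun v hv => ?_, ?_⟩
    · rw [hY]
      split_ifs
      · exact hx.1 _
      · exact le_rfl
    · rw [hY, if_neg hv]
    · have h1 := hx.2.2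
      rw [Finset.sum_image (fun v hv w hw h => hin F hF v hv w hw h)] at h1
      rw [← h1]
      exact Finset.sum_congr rfl fun v hv => by rw [hY, if_pos hv]
  refine ⟨fun x => if h : ∃ F ∈ 𝓕, x ∈ simplex (F.image rep) then G (Y h.choose x) else G x, ?_⟩
  intro F hF
  refine ⟨Y F, ?_, ?_, ?_⟩
  · refine continuous_pi fun v => ?_
    simp only [hY]
    split_ifs
    · exact continuous_apply _
    · exact continuous_const
  · intro v hv
    funext w
    rw [hY]
    by_cases hw : w ∈ F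
    · rw [if_pos hw]
      by_cases h : w = v
      · subst h
        simp
      · rw [Pi.single_eq_of_ne h, Pi.single_eq_of_ne (fun h' => h (hin F hF w hw v hv h'))]
    · rw [if_neg hw, Pi.single_eq_of_ne (fun h : w = v => hw (h ▸ hv))]
  · intro x hx
    refine ⟨hmem F hF x hx, ?_⟩
    have hex : ∃ F ∈ 𝓕, x ∈ simplex (F.image rep) := ⟨F, hF, hx⟩
    simp only [dif_pos hex]
    obtain ⟨hF', hx'⟩ := hex.choose_spec
    generalize hex.choose = F' at hF' hx'
    have hT := hsep F hF F' hF' (F.filter fun v => x (rep v) ≠ 0) (Finset.filter_subset _ _)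
      (fun v hv => hpre F' x hx' v (Finset.mem_filter.1 hv).2)
    rcases hT with hT | hT
    · left
      congr 1
      funext w
      rw [hY, hY]
      by_cases h0 : x (rep w) = 0
      · simp [h0]
      · by_cases hw : w ∈ F
        · rw [if_pos hw, if_pos (hT w (Finset.mem_filter.2 ⟨hw, h0⟩))]
        · rw [if_neg hw, if_neg]
          intro hw'
          have h1 : τ w ∈ F := (hpre F x hx w h0).resolve_left hw
          exact hinj F' hF' w hw' (hT _ (Finset.mem_filter.2 ⟨h1, by rw [hr]; exact h0⟩))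
    · right
      rw [← hG F hF _ (hmem F hF x hx)]
      congr 1
      funext w
      rw [Function.comp_apply, hY, hY, hr]
      by_cases h0 : x (rep w) = 0
      · simp [h0]
      · by_cases hw : τ w ∈ F
        · have h1 := hT _ (Finset.mem_filter.2 ⟨hw, by rw [hr]; exact h0⟩)
          rw [hτ] at h1
          rw [if_pos hw, if_pos h1]
        · rw [if_neg hw, if_neg]
          intro hw'
          have h1 : w ∈ F := (hpre F x hx w h0).resolve_right hw
          exact hinj F' hF' w hw' (hT _ (Finset.mem_filter.2 ⟨h1, h0⟩))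

/-- Abstract quotient complex.  `rep v = v` if `u v = 0`, else `τ v`.  `𝓕` is a finite set of faces upstairs;
`hsep` says that two faces which share a vertex up to `τ` agree up to the same `τ` on all common vertices.
Plan: `y_F x v = if v ∈ F then x (rep v) else 0` maps `simplex (F.image rep)` continuously to `simplex F`
(`rep` is injective on `F`); `Φ x = G (y_F x)` for a chosen `F ∈ 𝓕` with `x ∈ simplex (F.image rep)`;
two choices give `y' = y` or `y' = y ∘ τ` (take `t ∈ F` as in `hsep` for the support). -/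
theorem exists_quot {ι β : Type} {τ : ι → ι} {u : ι → ZMod 2} (ho : Odd2 τ u) {κ : β → β}
    (𝓕 : Finset (Finset ι)) (hinj : ∀ F ∈ 𝓕, ∀ v ∈ F, τ v ∉ F)
    (hsep : ∀ F ∈ 𝓕, ∀ F' ∈ 𝓕, ∀ T ⊆ F, (∀ v ∈ T, v ∈ F' ∨ τ v ∈ F') →
      (∀ v ∈ T, v ∈ F') ∨ ∀ v ∈ T, τ v ∈ F')
    (G : (ι → ℝ) → β) (hG : ∀ F ∈ 𝓕, ∀ x ∈ simplex F, G (x ∘ τ) = κ (G x)) :
    ∃ (rep : ι → ι) (Φ : (ι → ℝ) → β), (∀ v, rep (τ v) = rep v) ∧
      ∀ F ∈ 𝓕, ∃ y : (ι → ℝ) → (ι → ℝ), Continuous y ∧
        (∀ v ∈ F, y (Pi.single (rep v) 1) = Pi.single v 1) ∧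
        ∀ x ∈ simplex (F.image rep), y x ∈ simplex F ∧ (Φ x = G (y x) ∨ Φ x = κ (G (y x))) := by
  have hr := B7_rep_inv ho
  obtain ⟨Φ, hΦ⟩ := B7_quot ho.1 (fun v => if u v = 0 then v else τ v) hr (by
    intro v w h
    by_cases hv : u v = 0 <;> by_cases hw : u w = 0
    · left
      simpa [hv, hw] using h
    · right
      simpa [hv, hw] using h
    · right
      have h1 : τ v = w := by simpa [hv, hw] using h
      rw [← h1, ho.1]
    · left
      have h1 : τ v = τ w := by simpa [hv, hw] using h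
      rw [← ho.1 v, h1, ho.1]) 𝓕 hinj hsep G hG
  exact ⟨_, Φ, hr, hΦ⟩

theorem B7_inv_l {α : Type} (τ : α → α) (v : Vx α) : (Vx.inv τ v).l = v.l.map τ := rfl

/-- flags satisfy the hypotheses of `exists_quot` (take the longest element of `T`) -/
theorem flag_sep {α : Type} {τ : α → α} {u : α → ZMod 2} (ho : Odd2 τ u) {k : ℕ} {A : α → Prop}
    {Rl : α → α → Prop} (hfree : ∀ a, A a → ¬ Rl a (τ a)) {F F' : Finset (Vx α)}
    (hF : IsFlag k A Rl F) (hF' : IsFlag k A Rl F') :
    (∀ v ∈ F, Vx.inv τ v ∉ F) ∧ ∀ T ⊆ F, (∀ v ∈ T, v ∈ F' ∨ Vx.inv τ v ∈ F') →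
      (∀ v ∈ T, v ∈ F') ∨ ∀ v ∈ T, Vx.inv τ v ∈ F' := by
  have hlen : ∀ v : Vx α, (Vx.inv τ v).l.length = v.l.length := fun v => by
    rw [B7_inv_l, List.length_map]
  have hhead : ∀ v : Vx α, v.1 ∈ v.l := fun v => List.mem_cons_self
  refine ⟨fun v hv hv' => ?_, fun T hT h => ?_⟩
  · rcases hF.2.2 v hv _ hv' with h | h | h
    · have h1 : v.1 = τ v.1 := congrArg Prod.fst h
      have h2 := ho.2 v.1
      rw [← h1] at h2
      have h3 : ∀ z : ZMod 2, z ≠ z + 1 := by decide
      exact h3 _ h2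
    · have := hlen v
      omega
    · have := hlen v
      omega
  · by_contra hcon
    rw [not_or] at hcon
    obtain ⟨h1, h2⟩ := hcon
    push Not at h1 h2
    obtain ⟨v, hv, hv'⟩ := h1
    obtain ⟨w, hw, hw'⟩ := h2
    have hv2 : Vx.inv τ v ∈ F' := (h v hv).resolve_left hv'
    have hw2 : w ∈ F' := (h w hw).resolve_right hw'
    have hl := hlen v
    rcases hF.2.2 v (hT hv) w (hT hw) with e | ⟨s, l⟩ | ⟨s, l⟩
    · exact hv' (e ▸ hw2)
    · rcases hF'.2.2 _ hv2 w hw2 with e' | ⟨s', l'⟩ | ⟨s', l'⟩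
      · rw [e'] at hl
        omega
      · have a1 : v.1 ∈ w.l := s.subset (hhead v)
        have a2 : τ v.1 ∈ w.l := s'.subset (hhead (Vx.inv τ v))
        obtain ⟨-, hA, hR⟩ := hF.2.1 w (hT hw)
        exact hfree _ (hA _ a1) (hR _ a1 _ a2)
      · omega
    · rcases hF'.2.2 _ hv2 w hw2 with e' | ⟨s', l'⟩ | ⟨s', l'⟩
      · rw [e'] at hl
        omega
      · omega
      · have a1 : w.1 ∈ v.l := s.subset (hhead w)
        have a2 : w.1 ∈ v.l.map τ := s'.subset (hhead w)
        obtain ⟨b, hb, hbw⟩ := List.mem_map.1 a2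
        have a3 : τ w.1 ∈ v.l := by
          rw [← hbw, ho.1]
          exact hb
        obtain ⟨-, hA, hR⟩ := hF.2.1 v (hT hv)
        exact hfree _ (hA _ a1) (hR _ a1 _ a3)

end Pool.Agent.MP_5cfeaf_gt.W

end

section

/-! Block B: cross-polytope chain. -/

set_option autoImplicit false

open MeasureTheory Set Filter Topology Metric
open scoped ENNReal symmDiff Classical InnerProductSpace ContDiff

namespace Pool.Agent.MP_5cfeaf_gt.W

variable {d : ℕ}

/-- coning off the symmetrisation of a chain with invariant boundary -/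
theorem B10_step {α : Type} {τ : α → α} (hτ : ∀ a, τ (τ a) = a) (a : α) {c : List α →₀ ZMod 2}
    (hc : (bd c).mapDomain (List.map τ) = bd c) :
    (bd ((c + c.mapDomain (List.map τ)).mapDomain (List.cons a))).mapDomain (List.map τ) =
      bd ((c + c.mapDomain (List.map τ)).mapDomain (List.cons a)) := by
  have hi : List.map τ ∘ List.map τ = id := by
    funext l
    have : τ ∘ τ = id := funext hτ
    simp [List.map_map, this]
  rw [bd_cone, bd_add, bd_map, hc, ch_add_self, Finsupp.mapDomain_zero, add_zero,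
    Finsupp.mapDomain_add, ← Finsupp.mapDomain_comp, hi, Finsupp.mapDomain_id, add_comm]

theorem B10_supp {α : Type} {τ : α → α} {a : α} {c : List α →₀ ZMod 2} {l : List α}
    (h : l ∈ ((c + c.mapDomain (List.map τ)).mapDomain (List.cons a)).support) :
    ∃ w ∈ c.support, l = a :: w ∨ l = a :: w.map τ := by
  obtain ⟨v, hv, rfl⟩ := Finset.mem_image.1 (Finsupp.mapDomain_support h)
  rcases Finset.mem_union.1 (Finsupp.support_add hv) with h1 | h1
  · exact ⟨v, h1, Or.inl rfl⟩
  · obtain ⟨w, hw, rfl⟩ := Finset.mem_image.1 (Finsupp.mapDomain_support h1)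
    exact ⟨w, hw, Or.inr rfl⟩

theorem B10_main (p : ℕ) : SwL (fun a : ℕ × ZMod 2 => (a.1, a.2 + 1)) Prod.snd p
    (fun l => ((∀ a ∈ l, a.1 ≤ p) ∧ ∀ a ∈ l, ∀ b ∈ l, a.1 = b.1 → a = b) ∧
      ∃ w, l = (p, 0) :: w) := by
  induction p with
  | zero =>
    refine ⟨Finsupp.single [(0, 0)] 1, fun l hl => ?_, ?_, ?_⟩
    · have := Finset.mem_singleton.1 (Finsupp.support_single_subset hl)
      subst this
      simp only [List.length_cons, List.length_nil, zero_add, List.mem_cons, List.not_mem_nil, or_false, nonpos_iff_eq_zero, forall_eq, imp_self, and_self, List.cons.injEq, List.nil_eq, true_and, exists_eq]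
    · rw [bd_single]
      simp [bdL]
    · rw [ev_single]
      rfl
  | succ p ih =>
    obtain ⟨c, h1, h2, h3⟩ := ih
    have h2' : ∀ z : ZMod 2, z + 1 + 1 = z := by decide
    refine ⟨(c + c.mapDomain (List.map fun a : ℕ × ZMod 2 => (a.1, a.2 + 1))).mapDomain
      (List.cons (p + 1, 0)), fun l hl => ?_, B10_step (fun a => by simp [h2']) _ h2, ?_⟩
    · obtain ⟨w, hw, h⟩ := B10_supp hl
      obtain ⟨hlen, ⟨hle, heq⟩, -⟩ := h1 w hw
      have key : ∀ v : List (ℕ × ZMod 2), v.length = p + 1 → (∀ a ∈ v, a.1 ≤ p) →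
          (∀ a ∈ v, ∀ b ∈ v, a.1 = b.1 → a = b) → l = (p + 1, 0) :: v →
          l.length = p + 1 + 1 ∧ ((∀ a ∈ l, a.1 ≤ p + 1) ∧ ∀ a ∈ l, ∀ b ∈ l, a.1 = b.1 → a = b) ∧
            ∃ w, l = (p + 1, 0) :: w := by
        rintro v e1 e2 e3 rfl
        refine ⟨by simp [e1], ⟨fun a ha => ?_, fun a ha b hb hab => ?_⟩, v, rfl⟩
        · rcases List.mem_cons.1 ha with rfl | ha
          · exact le_rfl
          · exact (e2 a ha).trans (Nat.le_succ p)
        · rcases List.mem_cons.1 ha with rfl | ha <;> rcases List.mem_cons.1 hb with rfl | hb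
          · rfl
          · have := e2 b hb
            simp only at hab
            omega
          · have := e2 a ha
            simp only at hab
            omega
          · exact e3 a ha b hb hab
      rcases h with h | h
      · exact key w hlen hle heq h
      · refine key _ (by simp [hlen]) ?_ ?_ h
        · intro a ha
          obtain ⟨a', ha', rfl⟩ := List.mem_map.1 ha
          exact hle a' ha'
        · intro a ha b hb hab
          obtain ⟨a', ha', rfl⟩ := List.mem_map.1 ha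
          obtain ⟨b', hb', rfl⟩ := List.mem_map.1 hb
          rw [heq a' ha' b' hb' hab]
    · rw [ev_mapDomain, ev_add, ev_mapDomain]
      have e1 : ev (Lam Prod.snd ∘ List.cons ((p + 1, 0) : ℕ × ZMod 2)) c = ev (fun _ => 0) c := by
        refine ev_congr fun l hl => ?_
        obtain ⟨-, -, w, rfl⟩ := h1 l hl
        simp [Lam]
      have e2 : ev ((Lam Prod.snd ∘ List.cons ((p + 1, 0) : ℕ × ZMod 2)) ∘
          List.map fun a : ℕ × ZMod 2 => (a.1, a.2 + 1)) c = ev (Lam Prod.snd) c := by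
        refine ev_congr fun l hl => ?_
        have hi := Lam_inv (τ := fun a : ℕ × ZMod 2 => (a.1, a.2 + 1)) (u := Prod.snd) (l := l)
          fun _ _ => rfl
        obtain ⟨-, -, w, rfl⟩ := h1 l hl
        rw [← hi]
        simp [Lam]
      rw [e1, e2, h3]
      simp [ev]

/-- Cross-polytope chain.  Plan: `h 0 = single [(0,0)] 1`,
`h (j+1) = (h j + (h j).mapDomain (List.map τ)).mapDomain (List.cons (j+1, 0))`; induction on `p` with the extra
clause that every list of the support starts with `(p, 0)`; `bd_cone`, `bd_map`, `ch_add_self`, `Lam_inv`. -/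
theorem swl_cross (p : ℕ) : SwL (fun a : ℕ × ZMod 2 => (a.1, a.2 + 1)) Prod.snd p
    (fun l => (∀ a ∈ l, a.1 ≤ p) ∧ ∀ a ∈ l, ∀ b ∈ l, a.1 = b.1 → a = b) :=
  (B10_main p).mono fun _ _ h => h.1

end Pool.Agent.MP_5cfeaf_gt.W

end

section

/-! Block B: one-dimensional estimate. -/

set_option autoImplicit false

open MeasureTheory Set Filter Topology Metric
open scoped ENNReal symmDiff Classical InnerProductSpace ContDiff

namespace Pool.Agent.MP_5cfeaf_gt.W

variable {d : ℕ}

theorem B8o_dich {A I : Set ℝ} (h : ∀ s ∈ I, ∀ t ∈ I, s ≤ t → (s ∈ A ↔ t ∈ A)) :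
    A ∩ I = ∅ ∨ A ∩ I = I := by
  rcases (A ∩ I).eq_empty_or_nonempty with h0 | ⟨s, hsA, hsI⟩
  · exact Or.inl h0
  · refine Or.inr (inter_eq_right.2 fun t ht => ?_)
    rcases le_total s t with hst | hst
    · exact (h s hsI t ht hst).1 hsA
    · exact (h t ht s hsI hst).2 hsA

theorem B8o_ind {g : ℝ → ℝ} (hg : ContDiff ℝ 1 g) (hc : HasCompactSupport g)
    (h1 : ∀ t, |g t| ≤ 1) {A : Set ℝ} (hA : MeasurableSet A) (Z : Finset ℝ) :
    ∀ b : ℝ, (∀ s t, s ≤ t → t < b → (∀ z ∈ Z, z ∉ Icc s t) → (s ∈ A ↔ t ∈ A)) →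
      |∫ t in A ∩ Iio b, deriv g t| ≤ 2 * Z.card + 1 := by
  have hdc : Continuous (deriv g) := hg.continuous_deriv le_rfl
  have hint : Integrable (deriv g) := hdc.integrable_of_hasCompactSupport hc.deriv
  induction Z using Finset.induction_on_max with
  | empty =>
    intro b h
    rcases B8o_dich (A := A) (I := Iio b) (fun s _ t ht hst => h s t hst ht (by simp only [Finset.notMem_empty, mem_Icc, not_and, not_le, IsEmpty.forall_iff, implies_true])) with h0 | h0
    · rw [h0]; simp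
    · rw [h0, ← integral_Iic_eq_integral_Iio, hc.integral_Iic_deriv_eq hg b]
      simpa using h1 b
  | insert r Z hr ih =>
    intro b h
    have hrZ : r ∉ Z := fun hm => lt_irrefl _ (hr r hm)
    rw [Finset.card_insert_of_notMem hrZ]
    push_cast
    have key : ∀ c, c ≤ b → c ≤ r → |∫ t in A ∩ Iio c, deriv g t| ≤ 2 * Z.card + 1 := by
      intro c hcb hcr
      refine ih c fun s t hst ht hz => h s t hst (ht.trans_le hcb) fun z hz' => ?_
      rcases Finset.mem_insert.1 hz' with rfl | hz'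
      · exact fun hm => absurd (hm.2.trans_lt (ht.trans_le hcr)) (lt_irrefl _)
      · exact hz z hz'
    rcases le_or_gt b r with hbr | hbr
    · have := key b le_rfl hbr
      linarith
    · have h2 := key r hbr.le le_rfl
      have h3 : |∫ t in A ∩ Ioo r b, deriv g t| ≤ 2 := by
        rcases B8o_dich (A := A) (I := Ioo r b) (fun s hs t ht hst => h s t hst ht.2 fun z hz hm => by
          rcases Finset.mem_insert.1 hz with rfl | hz
          · exact absurd (hs.1.trans_le hm.1) (lt_irrefl _)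
          · exact absurd ((hr z hz).trans (hs.1.trans_le hm.1)) (lt_irrefl _)) with h0 | h0
        · rw [h0]; simp
        · rw [h0, ← integral_Ioc_eq_integral_Ioo, ← intervalIntegral.integral_of_le hbr.le,
            intervalIntegral.integral_deriv_eq_sub
              (fun x _ => (hg.differentiable one_ne_zero).differentiableAt)
              (hdc.intervalIntegrable _ _)]
          have := abs_le.1 (h1 b)
          have := abs_le.1 (h1 r)
          rw [abs_le]
          constructor <;> linarith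
      have h4 : ∫ t in A ∩ Iio b, deriv g t =
          (∫ t in A ∩ Iio r, deriv g t) + ∫ t in A ∩ Ioo r b, deriv g t := by
        rw [← setIntegral_union _ (hA.inter measurableSet_Ioo) hint.integrableOn hint.integrableOn]
        · refine setIntegral_congr_set ?_
          have hne : ∀ᵐ t : ℝ, t ≠ r := by simp [ae_iff, measure_singleton]
          filter_upwards [hne] with t ht
          refine propext ⟨fun hm => ?_, fun hm => ?_⟩
          · rcases lt_or_gt_of_ne ht with h5 | h5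
            · exact Or.inl ⟨hm.1, h5⟩
            · exact Or.inr ⟨hm.1, h5, hm.2⟩
          · rcases hm with hm | hm
            · exact ⟨hm.1, lt_trans hm.2 hbr⟩
            · exact ⟨hm.1, hm.2.2⟩
        · exact disjoint_left.2 fun t h5 h6 => absurd (lt_trans h5.2 h6.2.1) (lt_irrefl _)
      rw [h4]
      have := abs_add_le (∫ t in A ∩ Iio r, deriv g t) (∫ t in A ∩ Ioo r b, deriv g t)
      linarith

/-- One-dimensional estimate.  Plan: `I f = ∫ sign (f t) * deriv g t` satisfies `|I f| ≤ 2 natDegree f`: induction on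
the degree; no real root: the sign is constant and `∫ deriv g = 0`; otherwise `f = (X - r) f1` with `r` the largest
root, `I f = - I f1 + 2 ∫_(Ioi r) sign (f1 t) deriv g t`, the sign of `f1` is constant on `Ioi r` and
`∫_(Ioi r) deriv g = - g r` (`integral_Ioi_deriv_eq` for compact support).  Any other proof is fine. -/
theorem one_dim (f : Polynomial ℝ) {g : ℝ → ℝ} (hg : ContDiff ℝ 1 g) (hc : HasCompactSupport g)
    (h1 : ∀ t, |g t| ≤ 1) : |∫ t in {t | 0 < f.eval t}, deriv g t| ≤ 2 * (f.natDegree + 1) := by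
  by_cases hf : f = 0
  · subst hf
    simp
  have hfc : Continuous fun t : ℝ => f.eval t := f.continuous
  have hA : MeasurableSet {t : ℝ | 0 < f.eval t} := (isOpen_lt continuous_const hfc).measurableSet
  obtain ⟨b, hb⟩ := hc.deriv.isCompact.bddAbove
  have h2 : ∫ t in {t | 0 < f.eval t}, deriv g t =
      ∫ t in {t | 0 < f.eval t} ∩ Iio (b + 1), deriv g t := by
    refine setIntegral_eq_of_subset_of_forall_sdiff_eq_zero hA inter_subset_left fun t ht => ?_
    by_contra hne
    have h3 : t ≤ b := hb (subset_tsupport _ hne)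
    exact ht.2 ⟨ht.1, by simp only [mem_Iio]; linarith⟩
  have h3 := B8o_ind hg hc h1 hA f.roots.toFinset (b + 1) fun s t hst _ hz => by
    have hz' : ∀ z ∈ Icc s t, f.eval z ≠ 0 := fun z hm h0 =>
      hz z (Multiset.mem_toFinset.2 ((Polynomial.mem_roots hf).2 h0)) hm
    simp only [mem_ofPred_eq]
    constructor
    · intro hs
      by_contra ht
      obtain ⟨z, hm, h0⟩ := intermediate_value_Icc' hst hfc.continuousOn
        (show (0 : ℝ) ∈ Icc _ _ from ⟨not_lt.1 ht, hs.le⟩)
      exact hz' z hm h0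
    · intro ht
      by_contra hs
      obtain ⟨z, hm, h0⟩ := intermediate_value_Icc hst hfc.continuousOn
        (show (0 : ℝ) ∈ Icc _ _ from ⟨not_lt.1 hs, ht.le⟩)
      exact hz' z hm h0
  have h4 : (f.roots.toFinset.card : ℝ) ≤ f.natDegree := by
    exact_mod_cast (Multiset.toFinset_card_le _).trans (Polynomial.card_roots' f)
  rw [h2]
  linarith

end Pool.Agent.MP_5cfeaf_gt.W

end

section

/-! Block B: positivity sets of polynomials. -/

set_option autoImplicit false

open MeasureTheory Set Filter Topology Metric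
open scoped ENNReal symmDiff Classical InnerProductSpace ContDiff

namespace Pool.Agent.MP_5cfeaf_gt.W

variable {d : ℕ}

/-- linear combination of monomials -/
noncomputable def pol {n p : ℕ} (ex : Fin p → Fin n → ℕ) (a : Fin p → ℝ) (x : E n) : ℝ :=
  ∑ j, a j * ∏ i, x i ^ ex j i

theorem continuous_pol {n p : ℕ} (ex : Fin p → Fin n → ℕ) :
    Continuous fun q : (Fin p → ℝ) × E n => pol ex q.1 q.2 := by
  unfold pol
  fun_prop

theorem pol_neg {n p : ℕ} (ex : Fin p → Fin n → ℕ) (a : Fin p → ℝ) (x : E n) :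
    pol ex (-a) x = -pol ex a x := by
  simp only [pol, Pi.neg_apply, neg_mul, Finset.sum_neg_distrib]

theorem B8_ae_fin : ∀ (n : ℕ) (b : MvPolynomial (Fin n) ℝ), b ≠ 0 →
    ∀ᵐ q : Fin n → ℝ, MvPolynomial.eval q b ≠ 0 := by
  intro n
  induction n with
  | zero =>
    intro b hb
    refine Eventually.of_forall fun q h => hb ?_
    refine MvPolynomial.funext fun x => ?_
    rw [Subsingleton.elim x q, h, map_zero]
  | succ n ih =>
    intro b hb
    have hP : MvPolynomial.finSuccEquiv ℝ n b ≠ 0 := by simpa using hb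
    have hL := ih _ (Polynomial.leadingCoeff_ne_zero.mpr hP)
    have hpres := (volume_preserving_piFinSuccAbove (fun _ : Fin (n + 1) => ℝ) 0).symm
    have hmeas : MeasurableSet {q : Fin (n + 1) → ℝ | MvPolynomial.eval q b ≠ 0} :=
      (isOpen_ne_fun (MvPolynomial.continuous_eval b) continuous_const).measurableSet
    rw [← hpres.map_eq, ae_map_iff hpres.aemeasurable hmeas, Measure.volume_eq_prod,
      ← Measure.prod_swap]
    refine (ae_map_iff measurable_swap.aemeasurable (hpres.measurable hmeas)).mpr ?_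
    refine (Measure.ae_prod_iff_ae_ae (measurable_swap (hpres.measurable hmeas))).mpr ?_
    filter_upwards [hL] with s hs
    have hQ : Polynomial.map (MvPolynomial.eval s) (MvPolynomial.finSuccEquiv ℝ n b) ≠ 0 := by
      intro h0
      apply hs
      have h1 := congrArg (fun P => Polynomial.coeff P (MvPolynomial.finSuccEquiv ℝ n b).natDegree)
        h0
      simpa only [Polynomial.coeff_map, Polynomial.coeff_zero, Polynomial.leadingCoeff] using h1
    have hfin := (Polynomial.finite_setOfPred_isRoot hQ).countable.ae_notMem volume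
    filter_upwards [hfin] with y hy h0
    apply hy
    show Polynomial.eval y _ = 0
    rw [← MvPolynomial.eval_eq_eval_mv_eval', ← h0]
    congr 2
    simp
    rfl

/-- Plan: `MvPolynomial` `∑ j, monomial (equivFunOnFinite.symm (ex j)) (a j) ≠ 0`; copy `meas_ae_fin` of
outputs/live/Pool/Agent/MP_c0606f_ag/Mg/Klt_Psh.lean (line 1009) with `ℝ` for `ℂ`; `PiLp.volume_preserving_ofLp`. -/
theorem pol_ae_ne {n p : ℕ} {ex : Fin p → Fin n → ℕ} (hex : Function.Injective ex) {a : Fin p → ℝ}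
    (ha : a ≠ 0) : ∀ᵐ x : E n, pol ex a x ≠ 0 := by
  set b : MvPolynomial (Fin n) ℝ :=
    ∑ j, MvPolynomial.monomial (Finsupp.equivFunOnFinite.symm (ex j)) (a j) with hb
  have hb0 : b ≠ 0 := by
    intro h0
    apply ha
    funext j
    have h1 := congrArg (MvPolynomial.coeff (Finsupp.equivFunOnFinite.symm (ex j))) h0
    rw [hb, MvPolynomial.coeff_sum, Finset.sum_eq_single j] at h1
    · simpa using h1
    · intro k _ hk
      rw [MvPolynomial.coeff_monomial, if_neg]
      intro h2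
      exact hk (hex (Finsupp.equivFunOnFinite.symm.injective h2))
    · simp only [Finset.mem_univ, not_true_eq_false, MvPolynomial.coeff_monomial, ↓ reduceIte, IsEmpty.forall_iff]
  have hev : ∀ x : E n, pol ex a x = MvPolynomial.eval x.ofLp b := by
    intro x
    rw [hb, map_sum, pol]
    refine Finset.sum_congr rfl fun j _ => ?_
    rw [MvPolynomial.eval_monomial, Finsupp.prod_fintype _ _ (by simp)]
    simp only [Finsupp.equivFunOnFinite_symm_apply_apply]
  have h1 := (PiLp.volume_preserving_ofLp (Fin n)).quasiMeasurePreserving.ae (B8_ae_fin n b hb0)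
  filter_upwards [h1] with x hx
  rwa [hev]

/-- dominated convergence (`tendsto_measure_of_ae_tendsto_indicator`) -/
theorem pol_cont {p : ℕ} {ex : Fin p → Fin (d + 1) → ℕ} (hex : Function.Injective ex) {a : Fin p → ℝ}
    (ha : a ≠ 0) : Tendsto (fun b => volume (({x : R d | 0 < pol ex b x} ∆ {x | 0 < pol ex a x}) ∩ B d))
      (𝓝 a) (𝓝 0) := by
  have hc : ∀ b : Fin p → ℝ, Continuous fun x : R d => pol ex b x := fun b =>
    (continuous_pol ex).comp (continuous_const.prodMk continuous_id)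
  have hm : ∀ b : Fin p → ℝ, MeasurableSet {x : R d | 0 < pol ex b x} := fun b =>
    (isOpen_lt continuous_const (hc b)).measurableSet
  have h0 : (0 : ℝ≥0∞) = volume (∅ : Set (R d)) := measure_empty.symm
  rw [h0]
  refine tendsto_measure_of_ae_tendsto_indicator (𝓝 a) MeasurableSet.empty
    (fun b => ((hm b).symmDiff (hm a)).inter measurableSet_ball) (B := B d) measurableSet_ball
    measure_ball_lt_top.ne (Eventually.of_forall fun b => inter_subset_right) ?_
  filter_upwards [pol_ae_ne hex ha] with x hx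
  have ht : Tendsto (fun b => pol ex b x) (𝓝 a) (𝓝 (pol ex a x)) :=
    ((continuous_pol ex).comp (continuous_id.prodMk continuous_const)).tendsto a
  rcases lt_or_gt_of_ne hx with h | h
  · filter_upwards [ht.eventually (gt_mem_nhds h)] with b hb
    simp only [mem_inter_iff, mem_symmDiff, mem_ofPred_eq, not_lt.mpr hb.le, not_lt.mpr h.le, not_false_eq_true, and_true, or_self, mem_ball, dist_zero_right, false_and, mem_empty_iff_false]
  · filter_upwards [ht.eventually (lt_mem_nhds h)] with b hb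
    simp only [mem_inter_iff, mem_symmDiff, mem_ofPred_eq, hb, h, not_true_eq_false, and_false, or_self, mem_ball, dist_zero_right, false_and, mem_empty_iff_false]

end Pool.Agent.MP_5cfeaf_gt.W

end
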